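import Pool.Agent.Lib.MP_8a52c3_lc.OrcRun

/-! The two concrete oracle programs that the construction needs. -/

namespace Pool.Agent.Lib.MP_8a52c3_lc.Orc

/-- Oracle addresses `1^p 0 1^j 0 r`. -/
def adr (p j : ℕ) (r : List Bool) : List Bool :=
  List.replicate p true ++ false :: (List.replicate j true ++ false :: r)

theorem adr_length (p j : ℕ) (r : List Bool) : (adr p j r).length = p + j + 2 + r.length := by
  simp [adr]; omega

theorem rep_inj {p p' : ℕ} {r r' : List Bool}
    (h : List.replicate p true ++ false :: r = List.replicate p' true ++ false :: r') :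
    p = p' ∧ r = r' := by
  induction p generalizing p' with
  | zero =>
    cases p' with
    | zero => simpa using h
    | succ p' => simp [List.replicate_succ] at h
  | succ p ih =>
    cases p' with
    | zero => simp [List.replicate_succ] at h
    | succ p' =>
      simp only [List.replicate_succ, List.cons_append, List.cons.injEq, true_and] at h
      obtain ⟨h1, h2⟩ := ih h
      exact ⟨by omega, h2⟩

theorem adr_inj {p j p' j' : ℕ} {r r' : List Bool} (h : adr p j r = adr p' j' r') :
    p = p' ∧ j = j' ∧ r = r' := by
  obtain ⟨h1, h2⟩ := rep_inj h
  obtain ⟨h3, h4⟩ := rep_inj h2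
  exact ⟨h1, h3, h4⟩

/-- Addresses of the search problems: `0 1^T 0 1^n 0 u`. -/
def xadr (T n : ℕ) (u : List Bool) : List Bool :=
  adr 0 T (List.replicate n true ++ false :: u)

theorem xadr_length (T n : ℕ) (u : List Bool) :
    (xadr T n u).length = T + n + 3 + u.length := by
  simp [xadr, adr_length]; omega

theorem xadr_inj {T n T' n' : ℕ} {u u' : List Bool} (h : xadr T n u = xadr T' n' u') :
    T = T' ∧ n = n' ∧ u = u' := by
  obtain ⟨_, h2, h3⟩ := adr_inj h
  obtain ⟨h4, h5⟩ := rep_inj h3
  exact ⟨h2, h4, h5⟩

theorem poly_bound (a b : ℕ) : ∃ k, ∀ n, a * (n + 1) ^ b ≤ n ^ k + k := by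
  refine ⟨a * 2 ^ b + a + 2 * b, fun n => ?_⟩
  rcases Nat.lt_or_ge n 2 with hn | hn
  · have : (n + 1) ^ b ≤ 2 ^ b := Nat.pow_le_pow_left (by omega) b
    have := Nat.mul_le_mul_left a this
    omega
  · have h1 : (n + 1) ^ b ≤ n ^ (2 * b) := by
      rw [pow_mul]; exact Nat.pow_le_pow_left (by nlinarith) b
    have h2 : a ≤ n ^ a := (Nat.lt_pow_self (by omega)).le
    have h3 : a * (n + 1) ^ b ≤ n ^ (a + 2 * b) := by
      rw [pow_add]; exact Nat.mul_le_mul h2 h1
    have h4 : n ^ (a + 2 * b) ≤ n ^ (a * 2 ^ b + a + 2 * b) :=
      Nat.pow_le_pow_right (by omega) (by omega)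
    omega

/-- The final block: query stack 1, write the answer on stack 0, halt. -/
def ask (l : ℕ) : List Instr :=
  [Instr.query 1 (l + 1) (l + 2), Instr.push 0 false (l + 3), Instr.push 0 true (l + 3),
    Instr.halt]

theorem ask_reach (A : List Bool → Bool) (M : List Instr) {l : ℕ} (h : Has M l (ask l))
    (st : ℕ → List Bool) (h0 : st 0 = []) :
    Reach A M (l, st) (l + 3, Function.update st 0 [A (st 1)]) 2 ∧
      M.getD (l + 3) Instr.halt = Instr.halt := by
  refine ⟨?_, h.tail.tail.tail.head⟩
  have s1 := Reach.one (step_query (A := A) h.head st)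
  cases hA : A (st 1)
  · simp only [hA] at s1
    have s2 := Reach.one (step_push (A := A) h.tail.head st)
    simpa [h0] using s1.trans s2
  · simp only [hA] at s1
    have s2 := Reach.one (step_push (A := A) h.tail.tail.head st)
    simpa [h0] using s1.trans s2

/-- The checker of the search problem with tag `T`. -/
def tester (T : ℕ) : List Instr :=
  pushR 1 [false] 0 ++ (mvu 0 1 1 3 ++
    (pushR 1 (false :: (List.replicate T true ++ [false])) 3 ++ ask (3 + (T + 2))))

theorem tester_FP2 (A : List Bool → Bool) (T : ℕ) :
    FP2 A (fun x y => [A (xadr T x.length y)]) := by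
  obtain ⟨k, hk⟩ := poly_bound (T + 8) 1
  refine ⟨tester T, k, fun x y => ?_⟩
  have H := has_self (tester T)
  have H1 := H.left
  have H2 := H.right.left
  have H3 := H.right.right.left
  have H4 := H.right.right.right
  simp only [pushR_length, mvu, List.length_cons, List.length_nil, List.length_append,
    List.length_replicate] at H2 H3 H4
  set st0 : ℕ → List Bool := fun i => if i = 0 then x else if i = 1 then y else [] with hst0
  have s1 := pushR_reach A _ 1 [false] 0 st0 H1
  have s2 := mvu_reach A (tester T) (i := 0) (j := 1) (l := 1) (e := 3) (by omega) H2 x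
    (Function.update st0 1 ([false].reverse ++ st0 1)) (by simp [hst0])
  have s3 := pushR_reach A _ 1 (false :: (List.replicate T true ++ [false])) 3
    (Function.update (Function.update (Function.update st0 1 ([false].reverse ++ st0 1)) 0 []) 1
      (List.replicate x.length true ++ Function.update st0 1 ([false].reverse ++ st0 1) 1)) H3
  have e : 3 + (false :: (List.replicate T true ++ [false])).length = 3 + (T + 2) := by simp
  rw [e] at s3
  obtain ⟨s4, hh⟩ := ask_reach A (tester T) (l := 3 + (T + 2)) H4 _
    (show (Function.update (Function.update (Function.update (Function.update st0 1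
      ([false].reverse ++ st0 1)) 0 []) 1
      (List.replicate x.length true ++ Function.update st0 1 ([false].reverse ++ st0 1) 1)) 1
      ((false :: (List.replicate T true ++ [false])).reverse ++
        (Function.update (Function.update (Function.update st0 1 ([false].reverse ++ st0 1)) 0 []) 1
      (List.replicate x.length true ++ Function.update st0 1 ([false].reverse ++ st0 1) 1)) 1)) 0
        = [] by simp)
  have := ((s1.trans s2).trans s3).trans s4
  refine outputs_of_reach this hh ?_ ?_
  · simp [xadr, adr, hst0]
  · have := hk (x.length + y.length)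
    simp at this ⊢
    nlinarith

/-- Unary multiplication of stack `x` by stack 2 onto stack `y`, with scratch stack 3. -/
def mulB (x y l : ℕ) : List Instr :=
  Instr.pop x (l + 8) (l + 1) (l + 1) :: (mvc 2 3 y (l + 1) ++ mvu 3 2 (l + 6) l)

theorem mulB_reach (A : List Bool → Bool) (M : List Instr) {x y l m : ℕ} (hx : 4 ≤ x)
    (hy : 4 ≤ y) (hxy : x ≠ y) (h : Has M l (mulB x y l)) (a : ℕ) :
    ∀ st : ℕ → List Bool, st x = List.replicate a true → st 2 = List.replicate m true →
      st 3 = [] →
      Reach A M (l, st) (l + 8, Function.update (Function.update st x []) y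
        (List.replicate (a * m) true ++ st y)) (a * (5 * m + 3) + 1) := by
  have h0 := h.head
  have h1 := h.tail.left
  have h2 := h.tail.right
  have e6 : l + 1 + (mvc 2 3 y (l + 1)).length = l + 6 := by simp [mvc]
  rw [e6] at h2
  induction a with
  | zero =>
    intro st hs _ _
    have := Reach.one (step_pop_nil (A := A) h0 st (by simpa using hs))
    refine this.cast (by simp) ?_
    funext k
    by_cases hk : k = y
    · subst hk; simp
    · by_cases hk' : k = x
      · subst hk'; simp [Function.update_of_ne hk, hs]
      · simp [Function.update_of_ne hk, Function.update_of_ne hk']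
  | succ a ih =>
    intro st hs hs2 hs3
    have s1 := Reach.one (step_pop_true (A := A) h0 st (s := List.replicate a true)
      (by rw [hs, List.replicate_succ]))
    set st1 := Function.update st x (List.replicate a true) with hst1
    have s2 := mvc_reach A M (i := 2) (j := 3) (k := y) (by omega) (by omega) (by omega) h1
      (List.replicate m true) st1 (by rw [hst1, Function.update_of_ne (by omega), hs2])
    set st2 := Function.update (Function.update (Function.update st1 2 []) 3
          ((List.replicate m true).reverse ++ st1 3)) y
          (List.replicate (List.replicate m true).length true ++ st1 y) with hst2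
    have s3 := mvu_reach A M (i := 3) (j := 2) (by omega) h2 (List.replicate m true) st2
      (by
        rw [hst2, Function.update_of_ne (by omega), Function.update_self, hst1,
          Function.update_of_ne (by omega), hs3]; simp)
    set st3 := Function.update (Function.update st2 3 []) 2
      (List.replicate (List.replicate m true).length true ++ st2 2) with hst3
    have h3x : st3 x = List.replicate a true := by
      rw [hst3, Function.update_of_ne (by omega), Function.update_of_ne (by omega), hst2,
        Function.update_of_ne hxy, Function.update_of_ne (by omega),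
        Function.update_of_ne (by omega), hst1, Function.update_self]
    have h32 : st3 2 = List.replicate m true := by
      rw [hst3, Function.update_self, hst2, Function.update_of_ne (by omega),
        Function.update_of_ne (by omega), Function.update_self]; simp
    have h33 : st3 3 = [] := by
      rw [hst3, Function.update_of_ne (by omega), Function.update_self]
    have s4 := ih st3 h3x h32 h33
    have := ((s1.trans s2).trans s3).trans s4
    refine this.cast (by simp; nlinarith) ?_
    funext k
    by_cases hk : k = y
    · subst hk
      rw [Function.update_self, Function.update_self, hst3, Function.update_of_ne (by omega),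
        Function.update_of_ne (by omega), hst2, Function.update_self, hst1,
        Function.update_of_ne hxy.symm, ← List.append_assoc, List.length_replicate,
        List.replicate_append_replicate, Nat.succ_mul]
    · rw [Function.update_of_ne hk, Function.update_of_ne hk]
      by_cases hk' : k = x
      · subst hk'; simp
      · rw [Function.update_of_ne hk', Function.update_of_ne hk']
        by_cases hk2 : k = 2
        · subst hk2; rw [h32, hs2]
        · by_cases hk3 : k = 3
          · subst hk3; rw [h33, hs3]
          · rw [hst3, Function.update_of_ne hk2, Function.update_of_ne hk3, hst2,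
              Function.update_of_ne hk, Function.update_of_ne hk3, Function.update_of_ne hk2,
              hst1, Function.update_of_ne hk']

/-- `c` successive multiplications. -/
def muls : ℕ → ℕ → ℕ → List Instr
  | 0, _, _ => []
  | c + 1, x, l => mulB x (x + 1) l ++ muls c (x + 1) (l + 8)

theorem muls_length (c x l : ℕ) : (muls c x l).length = 8 * c := by
  induction c generalizing x l with
  | zero => rfl
  | succ c ih => simp [muls, ih, mulB, mvc, mvu]; omega

theorem muls_reach (A : List Bool → Bool) (M : List Instr) {m : ℕ} (hm : 1 ≤ m) (c : ℕ) :
    ∀ (x l a : ℕ) (st : ℕ → List Bool), 4 ≤ x → Has M l (muls c x l) →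
      st x = List.replicate a true → (∀ i, x < i → st i = []) →
      st 2 = List.replicate m true → st 3 = [] →
      ∃ st' : ℕ → List Bool, Reach A M (l, st) (l + 8 * c, st') (c * (a * m ^ c * (5 * m + 3) + 1)) ∧
        st' (x + c) = List.replicate (a * m ^ c) true ∧ st' 0 = st 0 ∧ st' 1 = st 1 := by
  induction c with
  | zero =>
    intro x l a st _ _ hs _ _ _
    exact ⟨st, by simpa using Reach.refl A M (l, st), by simpa using hs, rfl, rfl⟩
  | succ c ih =>
    intro x l a st hx h hs hz h2 h3
    have h1 := h.left
    have h1' := h.right
    have e8 : l + (mulB x (x + 1) l).length = l + 8 := by simp [mulB, mvc, mvu]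
    rw [e8] at h1'
    have s1 := mulB_reach A M (m := m) hx (by omega) (by omega) h1 a st hs h2 h3
    obtain ⟨st', s2, r1, r2, r3⟩ := ih (x + 1) (l + 8) (a * m)
      (Function.update (Function.update st x []) (x + 1)
        (List.replicate (a * m) true ++ st (x + 1))) (by omega) h1'
      (by simp [hz (x + 1) (by omega)])
      (by
        intro i hi
        rw [Function.update_of_ne (by omega), Function.update_of_ne (by omega)]
        exact hz i (by omega))
      (by rw [Function.update_of_ne (by omega), Function.update_of_ne (by omega), h2])
      (by rw [Function.update_of_ne (by omega), Function.update_of_ne (by omega), h3])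
    refine ⟨st', ?_, ?_, ?_, ?_⟩
    · have := s1.trans s2
      have e : l + 8 + 8 * c = l + 8 * (c + 1) := by omega
      rw [e] at this
      refine this.mono ?_
      have e2 : a * m * m ^ c = a * m ^ (c + 1) := by ring
      rw [e2]
      have : a ≤ a * m ^ (c + 1) := Nat.le_mul_of_pos_right _ (Nat.pow_pos (by omega))
      have : a * (5 * m + 3) ≤ a * m ^ (c + 1) * (5 * m + 3) := Nat.mul_le_mul_right _ this
      nlinarith
    · have e : x + (c + 1) = x + 1 + c := by omega
      rw [e, r1]; congr 1; ring
    · rw [r2, Function.update_of_ne (by omega), Function.update_of_ne (by omega)]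
    · rw [r3, Function.update_of_ne (by omega), Function.update_of_ne (by omega)]

/-- The machine that pads its input and asks the oracle once. -/
def padder (j s c : ℕ) : List Instr :=
  mvc 0 1 2 0 ++ (pushR 1 (false :: (List.replicate j true ++ [false])) 5 ++
    (pushR 2 [true] (5 + (j + 2)) ++ (pushR 4 (List.replicate s true) (5 + (j + 2) + 1) ++
      (muls c 4 (5 + (j + 2) + 1 + s) ++
        (mvu (4 + c) 1 (5 + (j + 2) + 1 + s + 8 * c) (5 + (j + 2) + 1 + s + 8 * c + 2) ++
          ask (5 + (j + 2) + 1 + s + 8 * c + 2))))))

theorem padder_FP1 (A : List Bool → Bool) (j s c : ℕ) :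
    FP1 A (fun w => [A (adr (s * (w.length + 1) ^ c) j w.reverse)]) := by
  obtain ⟨k, hk⟩ := poly_bound (j + s + 12 + c * (8 * s + 1) + 2 * s) (c + 1)
  refine ⟨padder j s c, k, fun w => ?_⟩
  have H := has_self (padder j s c)
  have H1 := H.left
  have H2 := H.right.left
  have H3 := H.right.right.left
  have H4 := H.right.right.right.left
  have H5 := H.right.right.right.right.left
  have H6 := H.right.right.right.right.right.left
  have H7 := H.right.right.right.right.right.right
  have l1 : (mvc 0 1 2 0).length = 5 := rfl
  have l2 : ∀ a b d e, (mvu a b d e).length = 2 := fun _ _ _ _ => rfl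
  have l3 : (false :: (List.replicate j true ++ [false])).length = j + 2 := by simp
  simp only [l1, l2, l3, pushR_length, muls_length, List.length_replicate, List.length_singleton,
    Nat.zero_add] at H2 H3 H4 H5 H6 H7
  set st0 : ℕ → List Bool := fun i => if i = 0 then w else if i = 1 then [] else [] with hst0
  have s1 := mvc_reach A (padder j s c) (i := 0) (j := 1) (k := 2) (by omega) (by omega)
    (by omega) H1 w st0 (by simp [hst0])
  set st1 := Function.update (Function.update (Function.update st0 0 []) 1
          (w.reverse ++ st0 1)) 2 (List.replicate w.length true ++ st0 2) with hst1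
  have s2 := pushR_reach A _ 1 (false :: (List.replicate j true ++ [false])) 5 st1 H2
  rw [l3] at s2
  set st2 := Function.update st1 1 ((false :: (List.replicate j true ++ [false])).reverse ++ st1 1)
    with hst2
  have s3 := pushR_reach A _ 2 [true] (5 + (j + 2)) st2 H3
  set st3 := Function.update st2 2 ([true].reverse ++ st2 2) with hst3
  have s4 := pushR_reach A _ 4 (List.replicate s true) (5 + (j + 2) + 1) st3 H4
  rw [List.length_replicate] at s4
  set st4 := Function.update st3 4 ((List.replicate s true).reverse ++ st3 4) with hst4
  obtain ⟨st5, s5, r1, r2, r3⟩ := muls_reach A (padder j s c) (m := w.length + 1) (by omega) c 4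
    (5 + (j + 2) + 1 + s) s st4 le_rfl H5
    (by simp [hst4, hst3, hst2, hst1, hst0])
    (by
      intro i hi
      rw [hst4, Function.update_of_ne (by omega), hst3, Function.update_of_ne (by omega), hst2,
        Function.update_of_ne (by omega), hst1, Function.update_of_ne (by omega),
        Function.update_of_ne (by omega), Function.update_of_ne (by omega), hst0]
      simp; omega)
    (by simp [hst4, hst3, hst2, hst1, hst0, List.replicate_succ])
    (by simp [hst4, hst3, hst2, hst1, hst0])
  have s6 := mvu_reach A (padder j s c) (i := 4 + c) (j := 1) (by omega) H6 _ st5 r1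
  have z0 : st4 0 = [] := by simp [hst4, hst3, hst2, hst1]
  have z1 : st4 1 = false :: (List.replicate j true ++ false :: w.reverse) := by
    simp [hst4, hst3, hst2, hst1, hst0]
  obtain ⟨s7, hh⟩ := ask_reach A (padder j s c) H7
    (Function.update (Function.update st5 (4 + c) []) 1
      (List.replicate (List.replicate (s * (w.length + 1) ^ c) true).length true ++ st5 1))
    (by rw [Function.update_of_ne (by omega), Function.update_of_ne (by omega), r2, z0])
  have := (((((s1.trans s2).trans s3).trans s4).trans s5).trans s6).trans s7
  refine outputs_of_reach this hh ?_ ?_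
  · simp [adr, r3, z1]
  · refine le_trans ?_ (hk w.length)
    simp only [List.length_replicate, List.length_singleton]
    set m := w.length + 1 with hm
    have hm1 : 1 ≤ m := by omega
    have p1 : m ≤ m ^ (c + 1) := Nat.le_self_pow (by omega) m
    have p2 : m ^ c ≤ m ^ (c + 1) := Nat.pow_le_pow_right hm1 (by omega)
    have p3 : s * m ^ c * (5 * m + 3) + 1 ≤ (8 * s + 1) * m ^ (c + 1) := by
      have : m ^ c * (5 * m + 3) ≤ 8 * m ^ (c + 1) := by
        have := Nat.mul_le_mul_left (m ^ c) (show 5 * m + 3 ≤ 8 * m by omega)
        rw [pow_succ]; linarith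
      have : s * (m ^ c * (5 * m + 3)) ≤ s * (8 * m ^ (c + 1)) := Nat.mul_le_mul_left _ this
      nlinarith
    have p4 := Nat.mul_le_mul_left c p3
    have p5 := Nat.mul_le_mul_left s p2
    have p6 : j ≤ j * m ^ (c + 1) := Nat.le_mul_of_pos_right _ (by omega)
    have p7 : s ≤ s * m ^ (c + 1) := Nat.le_mul_of_pos_right _ (by omega)
    have e : (j + s + 12 + c * (8 * s + 1) + 2 * s) * m ^ (c + 1) =
        j * m ^ (c + 1) + s * m ^ (c + 1) + 12 * m ^ (c + 1) + c * ((8 * s + 1) * m ^ (c + 1))
          + 2 * (s * m ^ (c + 1)) := by ring
    rw [e]
    omega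

end Pool.Agent.Lib.MP_8a52c3_lc.Orc
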