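import Pool.Agent.Lib.MP_8a52c3_lc.CLDanger

/-! The inner product gadget, expanding parity systems and their extension game. -/

namespace Pool.Agent.Lib.MP_8a52c3_lc.CL

open Finset

set_option linter.unusedSectionVars false

theorem prod_sb_cases {α : Type} (s : Finset α) (f : α → Bool) :
    ∏ i ∈ s, sb (f i) = 1 ∨ ∏ i ∈ s, sb (f i) = -1 := by
  have h : |∏ i ∈ s, sb (f i)| = 1 := by
    rw [Finset.abs_prod]; simp [abs_sb]
  rcases abs_eq (by norm_num : (0 : ℝ) ≤ 1) |>.1 h with h | h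
  · exact Or.inl h
  · exact Or.inr h

/-- Inner product modulo two. -/
noncomputable def ip {b : ℕ} (x y : Fin b → Bool) : Bool := decide (∏ i, sb (x i && y i) < 0)

theorem sb_ip {b : ℕ} (x y : Fin b → Bool) : sb (ip x y) = ∏ i, sb (x i && y i) := by
  unfold ip
  rcases prod_sb_cases univ (fun i => x i && y i) with h | h <;> rw [h] <;> norm_num [sb]

theorem ip_comm {b : ℕ} (x y : Fin b → Bool) : ip x y = ip y x := by
  unfold ip
  simp_rw [Bool.and_comm]

theorem orth_ip (b : ℕ) : Orth (ip (b := b)) := by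
  intro y y'
  simp_rw [sb_ip, ← Finset.prod_mul_distrib]
  have h2 := Finset.prod_univ_sum (fun _ : Fin b => (univ : Finset Bool))
    (fun j a => sb (a && y j) * sb (a && y' j))
  rw [Fintype.piFinset_univ] at h2
  rw [← h2]
  have h3 : ∀ j : Fin b, ∑ a : Bool, sb (a && y j) * sb (a && y' j) =
      if y j = y' j then 2 else 0 := by
    intro j
    cases y j <;> cases y' j <;> norm_num [sb]
  simp_rw [h3]
  split_ifs with h
  · subst h; simp
  · obtain ⟨j, hj⟩ := Function.ne_iff.1 h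
    exact Finset.prod_eq_zero (Finset.mem_univ j) (by rw [if_neg hj])

section Game

variable {ι κ : Type} [Fintype ι] [DecidableEq ι] [Fintype κ] [DecidableEq κ]

/-- The parity constraint `c` holds at `z`. -/
def PSat (φ : κ × Fin 6 → ι) (e : κ → Bool) (c : κ) (z : ι → Bool) : Prop :=
  ∏ s, sb (z (φ (c, s))) = sb (e c)

/-- Small sets of constraints expand. -/
def Expand (φ : κ × Fin 6 → ι) (R : ℕ) : Prop :=
  ∀ U : Finset κ, U.card ≤ R → 4 * U.card ≤ ((U ×ˢ (univ : Finset (Fin 6))).image φ).card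

/-- Every small set of constraints is consistent with the assignment `ρ` on `I`. -/
def PGood (φ : κ × Fin 6 → ι) (e : κ → Bool) (r : ℕ) (I : Finset ι) (ρ : ι → Bool) : Prop :=
  ∀ U : Finset κ, U.card ≤ r → ∃ z : ι → Bool, (∀ j ∈ I, z j = ρ j) ∧ ∀ c ∈ U, PSat φ e c z

theorem exists_unique_slot {φ : κ × Fin 6 → ι} {R : ℕ} (h : Expand φ R) {U : Finset κ}
    (hU : U.card ≤ R) {I : Finset ι} (hI : I.card < 2 * U.card) :
    ∃ c ∈ U, ∃ s, φ (c, s) ∉ I ∧ ∀ c' ∈ U, ∀ s', φ (c', s') = φ (c, s) → (c', s') = (c, s) := by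
  by_contra hc
  push Not at hc
  set D := U ×ˢ (univ : Finset (Fin 6)) with hD
  have h1 := Finset.card_eq_sum_card_image φ D
  have h2 : D.card = 6 * U.card := by simp [hD, mul_comm]
  have h3 : ∀ j ∈ D.image φ, 2 ≤ (D.filter fun p => φ p = j).card + if j ∈ I then 1 else 0 := by
    intro j hj
    obtain ⟨⟨c, s⟩, hp, rfl⟩ := Finset.mem_image.1 hj
    have hcU : c ∈ U := (Finset.mem_product.1 hp).1
    by_cases hjI : φ (c, s) ∈ I
    · rw [if_pos hjI]
      have : 0 < (D.filter fun p => φ p = φ (c, s)).card :=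
        Finset.card_pos.2 ⟨(c, s), Finset.mem_filter.2 ⟨hp, rfl⟩⟩
      omega
    · rw [if_neg hjI]
      obtain ⟨c', hc', s', e1, e2⟩ := hc c hcU s hjI
      have : 1 < (D.filter fun p => φ p = φ (c, s)).card :=
        Finset.one_lt_card.2 ⟨(c', s'), Finset.mem_filter.2 ⟨by simp [hD, hc'], e1⟩, (c, s),
          Finset.mem_filter.2 ⟨hp, rfl⟩, e2⟩
      omega
  have h4 := Finset.sum_le_sum h3
  rw [Finset.sum_add_distrib, ← h1, Finset.sum_const, smul_eq_mul, ← Finset.card_filter] at h4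
  have h5 : ((D.image φ).filter fun j => j ∈ I).card ≤ I.card :=
    Finset.card_le_card fun j hj => (Finset.mem_filter.1 hj).2
  have h6 := h U hU
  rw [← hD] at h6
  omega

theorem small_core {φ : κ × Fin 6 → ι} (e : κ → Bool) {R : ℕ} (h : Expand φ R) (I : Finset ι)
    (ρ : ι → Bool) (U : Finset κ) (hU : U.card ≤ R)
    (hsmall : ∀ U' ⊆ U, 2 * U'.card ≤ I.card →
      ∃ z : ι → Bool, (∀ j ∈ I, z j = ρ j) ∧ ∀ c ∈ U', PSat φ e c z) :
    ∃ z : ι → Bool, (∀ j ∈ I, z j = ρ j) ∧ ∀ c ∈ U, PSat φ e c z := by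
  induction' hn : U.card using Nat.strong_induction_on with n ih generalizing U
  by_cases hI : 2 * U.card ≤ I.card
  · exact hsmall U (subset_refl _) hI
  obtain ⟨c, hc, s, h1, h2⟩ := exists_unique_slot h hU (not_le.1 hI)
  have hlt : (U.erase c).card < U.card := Finset.card_erase_lt_of_mem hc
  obtain ⟨z, hz1, hz2⟩ := ih (U.erase c).card (by omega) (U.erase c) (by omega)
    (fun U' hU' => hsmall U' (hU'.trans (Finset.erase_subset _ _))) rfl
  by_cases hsat : PSat φ e c z
  · refine ⟨z, hz1, fun c' hc' => ?_⟩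
    by_cases e1 : c' = c
    · rw [e1]; exact hsat
    · exact hz2 c' (Finset.mem_erase.2 ⟨e1, hc'⟩)
  · refine ⟨Function.update z (φ (c, s)) (!z (φ (c, s))), fun j hj => ?_, fun c' hc' => ?_⟩
    · rw [Function.update_of_ne (by rintro rfl; exact h1 hj)]
      exact hz1 j hj
    · by_cases e1 : c' = c
      · subst e1
        unfold PSat at hsat ⊢
        rw [← Finset.mul_prod_erase _ _ (Finset.mem_univ s)] at hsat ⊢
        have e2 : ∏ s' ∈ univ.erase s, sb (Function.update z (φ (c', s)) (!z (φ (c', s)))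
            (φ (c', s'))) = ∏ s' ∈ univ.erase s, sb (z (φ (c', s'))) := by
          apply Finset.prod_congr rfl
          intro s' hs'
          rw [Function.update_of_ne]
          intro e3
          have := h2 c' hc s' e3
          exact (Finset.mem_erase.1 hs').1 (Prod.ext_iff.1 this).2
        rw [e2, Function.update_self]
        rcases prod_sb_cases (univ.erase s) (fun s' => z (φ (c', s'))) with e3 | e3 <;>
          rw [e3] at hsat ⊢ <;> revert hsat <;> cases z (φ (c', s)) <;> cases e c' <;>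
          norm_num [sb]
      · have e2 := hz2 c' (Finset.mem_erase.2 ⟨e1, hc'⟩)
        unfold PSat at e2 ⊢
        rw [← e2]
        apply Finset.prod_congr rfl
        intro s' _
        rw [Function.update_of_ne]
        intro e3
        exact e1 (Prod.ext_iff.1 (h2 c' hc' s' e3)).1

theorem pgood_empty {φ : κ × Fin 6 → ι} (e : κ → Bool) {r : ℕ} (h : Expand φ (2 * r)) :
    PGood φ e r ∅ fun _ => false := by
  intro U hU
  refine small_core e h ∅ _ U (by omega) fun U' _ h2 => ⟨fun _ => false, by simp, ?_⟩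
  have : U' = ∅ := by
    rw [← Finset.card_eq_zero]; simpa using h2
  simp [this]

theorem pgood_down {φ : κ × Fin 6 → ι} {e : κ → Bool} {r : ℕ} (I I' : Finset ι) (ρ : ι → Bool)
    (h : PGood φ e r I ρ) (hI : I' ⊆ I) : PGood φ e r I' ρ := by
  intro U hU
  obtain ⟨z, h1, h2⟩ := h U hU
  exact ⟨z, fun j hj => h1 j (hI hj), h2⟩

theorem pgood_insert {φ : κ × Fin 6 → ι} {e : κ → Bool} {r : ℕ} (hx : Expand φ (2 * r))
    {I : Finset ι} {ρ : ι → Bool} (h : PGood φ e r I ρ) (hI : I.card ≤ 2 * r) (j : ι) :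
    ∃ ρ', (∀ i ∈ I, ρ' i = ρ i) ∧ PGood φ e r (insert j I) ρ' := by
  by_cases hj : j ∈ I
  · exact ⟨ρ, fun _ _ => rfl, by rwa [Finset.insert_eq_of_mem hj]⟩
  by_contra hc
  push Not at hc
  have h1 : ∀ b : Bool, ∃ U : Finset κ, U.card ≤ r ∧ ∀ z : ι → Bool,
      (∀ i ∈ insert j I, z i = Function.update ρ j b i) → ∃ c ∈ U, ¬ PSat φ e c z := by
    intro b
    have := hc (Function.update ρ j b) (fun i hi => Function.update_of_ne (by rintro rfl; exact hj hi) _ _)
    unfold PGood at this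
    push Not at this
    exact this
  choose U hU1 hU2 using h1
  obtain ⟨z, hz1, hz2⟩ := small_core e hx I ρ (U true ∪ U false)
    ((Finset.card_union_le _ _).trans (by have := hU1 true; have := hU1 false; omega))
    (fun U' _ h2 => h U' (by omega))
  obtain ⟨c, hc1, hc2⟩ := hU2 (z j) z (by
    intro i hi
    rcases Finset.mem_insert.1 hi with rfl | hi'
    · simp
    · rw [Function.update_of_ne (by rintro rfl; exact hj hi')]
      exact hz1 i hi')
  apply hc2
  apply hz2
  cases hzj : z j <;> rw [hzj] at hc1 <;> simp [hc1]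

theorem pgood_ext {φ : κ × Fin 6 → ι} {e : κ → Bool} {r : ℕ} (hx : Expand φ (2 * r))
    (I K : Finset ι) (ρ : ι → Bool) (h : PGood φ e r I ρ) (hI : (I ∪ K).card ≤ 2 * r) :
    ∃ ρ', (∀ i ∈ I, ρ' i = ρ i) ∧ PGood φ e r (I ∪ K) ρ' := by
  induction K using Finset.induction_on with
  | empty => exact ⟨ρ, fun _ _ => rfl, by simpa using h⟩
  | insert j K _ ih =>
    have hsub : I ∪ K ⊆ I ∪ insert j K :=
      Finset.union_subset_union (subset_refl _) (Finset.subset_insert _ _)
    have hle := (Finset.card_le_card hsub).trans hI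
    obtain ⟨ρ1, h1, h2⟩ := ih hle
    obtain ⟨ρ2, h3, h4⟩ := pgood_insert hx h2 hle j
    refine ⟨ρ2, fun i hi => by rw [h3 i (Finset.mem_union_left _ hi), h1 i hi], ?_⟩
    rwa [Finset.union_insert]

theorem exists_unsat (φ : κ × Fin 6 → ι) (h : Fintype.card ι < Fintype.card κ) :
    ∃ e : κ → Bool, ∀ z : ι → Bool, ∃ c, ¬ PSat φ e c z := by
  classical
  let F : (ι → Bool) → (κ → Bool) := fun z c => decide (∏ s, sb (z (φ (c, s))) < 0)
  have hns : ¬ Function.Surjective F := by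
    intro hs
    have := Fintype.card_le_of_surjective F hs
    simp only [Fintype.card_fun, Fintype.card_bool] at this
    exact absurd this (not_le.2 (Nat.pow_lt_pow_right (by norm_num) h))
  unfold Function.Surjective at hns
  push Not at hns
  obtain ⟨e, he⟩ := hns
  refine ⟨e, fun z => ?_⟩
  by_contra hc
  push Not at hc
  apply he z
  funext c
  have := hc c
  unfold PSat at this
  simp only [F, this]
  cases e c <;> norm_num [sb]

end Game

theorem choose_mul_pow_le (n u : ℕ) : (n.choose u : ℝ) * (u : ℝ) ^ u ≤ (3 * n) ^ u := by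
  have h1 : (n.choose u : ℝ) ≤ (n : ℝ) ^ u / u.factorial := Nat.choose_le_pow_div u n
  have h2 : (u : ℝ) ^ u / u.factorial ≤ Real.exp u := Real.pow_div_factorial_le_exp _ (by positivity) u
  have h3 : Real.exp u ≤ 3 ^ u := by
    rw [← Real.exp_one_pow]
    gcongr
    exact Real.exp_one_lt_d9.le.trans (by norm_num)
  calc (n.choose u : ℝ) * (u : ℝ) ^ u ≤ (n : ℝ) ^ u / u.factorial * (u : ℝ) ^ u := by gcongr
    _ = (n : ℝ) ^ u * ((u : ℝ) ^ u / u.factorial) := by ring
    _ ≤ (n : ℝ) ^ u * 3 ^ u := by gcongr; exact h2.trans h3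
    _ = _ := by rw [mul_pow]; ring

theorem term_le (m u : ℕ) (hu : 1 ≤ u) (h : 20000 * u ≤ m) :
    (((m + 1).choose u : ℕ) : ℝ) * (m.choose (4 * u) : ℕ) * (4 * u : ℝ) ^ (6 * u) ≤
      ((m : ℝ) ^ 6 / 2) ^ u := by
  have h1 := choose_mul_pow_le (m + 1) u
  have h2 := choose_mul_pow_le m (4 * u)
  have hu0 : (1 : ℝ) ≤ u := by exact_mod_cast hu
  have hm : (20000 : ℝ) * u ≤ m := by exact_mod_cast h
  push_cast at h1 h2
  have h3 : (3 * ((m : ℝ) + 1)) * (3 * m) ^ 4 * (4 * u) ^ 6 ≤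
      (m : ℝ) ^ 6 / 2 * (u * (4 * u) ^ 4) := by
    have e1 : (3 * ((m : ℝ) + 1)) * (3 * m) ^ 4 * (4 * u) ^ 6 =
        (243 * 16 * (m + 1) * u) * (m ^ 4 * u * (4 * u) ^ 4) := by ring
    have e2 : (m : ℝ) ^ 6 / 2 * (u * (4 * u) ^ 4) = (m * m / 2) * (m ^ 4 * u * (4 * u) ^ 4) := by ring
    rw [e1, e2]
    gcongr
    nlinarith
  have h4 : ((3 * ((m : ℝ) + 1)) * (3 * m) ^ 4 * (4 * u) ^ 6) ^ u ≤
      ((m : ℝ) ^ 6 / 2 * (u * (4 * u) ^ 4)) ^ u := by gcongr
  rw [mul_pow, mul_pow, ← pow_mul, ← pow_mul, mul_pow ((m : ℝ) ^ 6 / 2), mul_pow (u : ℝ),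
    ← pow_mul] at h4
  have h5 : (((m + 1).choose u : ℕ) : ℝ) * (m.choose (4 * u) : ℕ) * (4 * u : ℝ) ^ (6 * u) *
      ((u : ℝ) ^ u * (4 * u) ^ (4 * u)) ≤ ((m : ℝ) ^ 6 / 2) ^ u * ((u : ℝ) ^ u * (4 * u) ^ (4 * u)) := by
    refine le_trans ?_ h4
    calc _ = ((((m + 1).choose u : ℕ) : ℝ) * (u : ℝ) ^ u) *
          ((m.choose (4 * u) : ℕ) * (4 * u : ℝ) ^ (4 * u)) * (4 * u : ℝ) ^ (6 * u) := by ring
      _ ≤ _ := by gcongr
  exact le_of_mul_le_mul_right h5 (by positivity)

theorem exists_expand (m R : ℕ) (hm : 1 ≤ m) (h : 20000 * R ≤ m) :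
    ∃ φ : Fin (m + 1) × Fin 6 → Fin m, Expand φ R := by
  classical
  by_contra hc
  push Not at hc
  let bad : Finset (Fin (m + 1)) → Finset (Fin m) → Finset (Fin (m + 1) × Fin 6 → Fin m) :=
    fun U T => Fintype.piFinset fun p => if p.1 ∈ U then T else univ
  have hcov : (univ : Finset (Fin (m + 1) × Fin 6 → Fin m)) ⊆
      (Finset.Icc 1 R).biUnion fun u => (Finset.powersetCard u univ).biUnion fun U =>
        (Finset.powersetCard (4 * u) univ).biUnion fun T => bad U T := by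
    intro φ _
    have h1 := hc φ
    unfold Expand at h1
    push Not at h1
    obtain ⟨U, h2, h3⟩ := h1
    obtain ⟨T, h4, h5⟩ := Finset.exists_superset_card_eq h3.le
      (by rw [Fintype.card_fin]; omega)
    simp only [mem_biUnion, mem_Icc, mem_powersetCard, subset_univ, true_and]
    refine ⟨U.card, ⟨by omega, h2⟩, U, rfl, T, h5, ?_⟩
    rw [Fintype.mem_piFinset]
    intro p
    split_ifs with hp
    · exact h4 (Finset.mem_image_of_mem φ (Finset.mem_product.2 ⟨hp, Finset.mem_univ _⟩))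
    · exact Finset.mem_univ _
  have hm0 : (0 : ℝ) < m := by exact_mod_cast hm
  have hbad : ∀ (U : Finset (Fin (m + 1))) (T : Finset (Fin m)),
      ((bad U T).card : ℝ) * ((m : ℝ) ^ 6) ^ U.card =
        (T.card : ℝ) ^ (6 * U.card) * ((m : ℝ) ^ 6) ^ (m + 1) := by
    intro U T
    simp only [bad]
    rw [Fintype.card_piFinset, Fintype.prod_prod_type]
    have e1 : ∀ c : Fin (m + 1), ∏ _s : Fin 6, (if c ∈ U then T else univ).card =
        if c ∈ U then T.card ^ 6 else m ^ 6 := by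
      intro c
      split_ifs <;> simp
    simp_rw [e1]
    rw [Finset.prod_ite]
    simp only [prod_const, filter_mem_eq_inter, univ_inter]
    have e2 : (univ.filter fun c => c ∉ U).card + U.card = m + 1 := by
      have := Finset.card_filter_add_card_filter_not (s := univ) (fun c => c ∈ U)
      simp only [filter_mem_eq_inter, univ_inter, card_univ, Fintype.card_fin] at this
      omega
    push_cast
    rw [mul_assoc, ← pow_add, e2, ← pow_mul]
  have h1 := (Finset.card_le_card hcov).trans (Finset.card_biUnion_le.trans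
    (Finset.sum_le_sum fun u _ => Finset.card_biUnion_le.trans
      (Finset.sum_le_sum fun U _ => Finset.card_biUnion_le)))
  have h2 : ((m : ℝ) ^ 6) ^ (m + 1) ≤ ∑ u ∈ Finset.Icc 1 R,
      ∑ U ∈ Finset.powersetCard u (univ : Finset (Fin (m + 1))),
        ∑ T ∈ Finset.powersetCard (4 * u) (univ : Finset (Fin m)), ((bad U T).card : ℝ) := by
    have e : (univ : Finset (Fin (m + 1) × Fin 6 → Fin m)).card = (m ^ 6) ^ (m + 1) := by
      simp only [card_univ, Fintype.card_fun, Fintype.card_fin, Fintype.card_prod]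
      rw [← pow_mul, mul_comm]
    rw [e] at h1
    exact_mod_cast h1
  have h3 : ∀ u ∈ Finset.Icc 1 R, ∑ U ∈ Finset.powersetCard u (univ : Finset (Fin (m + 1))),
        ∑ T ∈ Finset.powersetCard (4 * u) (univ : Finset (Fin m)), ((bad U T).card : ℝ) ≤
          (1 / 2) ^ u * ((m : ℝ) ^ 6) ^ (m + 1) := by
    intro u hu
    obtain ⟨hu1, hu2⟩ := Finset.mem_Icc.1 hu
    have e1 : ∀ U ∈ Finset.powersetCard u (univ : Finset (Fin (m + 1))),
        ∑ T ∈ Finset.powersetCard (4 * u) (univ : Finset (Fin m)), ((bad U T).card : ℝ) =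
        (m.choose (4 * u) : ℕ) * ((4 * u : ℝ) ^ (6 * u) * ((m : ℝ) ^ 6) ^ (m + 1) /
          ((m : ℝ) ^ 6) ^ u) := by
      intro U hU
      have hUc := (Finset.mem_powersetCard.1 hU).2
      rw [Finset.sum_congr rfl (g := fun _ => (4 * u : ℝ) ^ (6 * u) * ((m : ℝ) ^ 6) ^ (m + 1) /
          ((m : ℝ) ^ 6) ^ u)]
      · simp
      · intro T hT
        have hTc := (Finset.mem_powersetCard.1 hT).2
        have := hbad U T
        rw [hUc, hTc] at this
        rw [eq_div_iff (by positivity), this]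
        push_cast; ring
    rw [Finset.sum_congr rfl e1]
    simp only [sum_const, card_powersetCard, card_univ, Fintype.card_fin, nsmul_eq_mul]
    have e2 := term_le m u hu1 (by omega)
    rw [← mul_div_assoc, ← mul_div_assoc, div_le_iff₀ (by positivity)]
    calc _ = ((((m + 1).choose u : ℕ) : ℝ) * (m.choose (4 * u) : ℕ) * (4 * u : ℝ) ^ (6 * u)) *
          ((m : ℝ) ^ 6) ^ (m + 1) := by ring
      _ ≤ ((m : ℝ) ^ 6 / 2) ^ u * ((m : ℝ) ^ 6) ^ (m + 1) := by gcongr
      _ = _ := by rw [div_pow, one_div_pow]; ring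
  have h4 := h2.trans (Finset.sum_le_sum h3)
  rw [← Finset.sum_mul] at h4
  have h5 : ∀ R : ℕ, ∑ u ∈ Finset.Icc 1 R, ((1 : ℝ) / 2) ^ u = 1 - (1 / 2) ^ R := by
    intro R
    induction R with
    | zero => simp
    | succ R ih => rw [Finset.sum_Icc_succ_top (by omega), ih]; ring
  rw [h5] at h4
  have h6 : (0 : ℝ) < (1 / 2) ^ R * ((m : ℝ) ^ 6) ^ (m + 1) := by positivity
  nlinarith

end Pool.Agent.Lib.MP_8a52c3_lc.CL
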