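import Mathlib

/-! Basic counting for blockwise density arguments. -/

namespace Pool.Agent.Lib.MP_8a52c3_lc.CL

open Finset

set_option linter.unusedSectionVars false

variable {ι Q : Type} [Fintype ι] [DecidableEq ι] [Fintype Q] [DecidableEq Q]

/-- The points of `A` that agree with `α` on `K`. -/
def fib (A : Finset (ι → Q)) (K : Finset ι) (α : ι → Q) : Finset (ι → Q) :=
  A.filter fun x => ∀ j ∈ K, x j = α j

theorem mem_fib {A : Finset (ι → Q)} {K : Finset ι} {α x : ι → Q} :
    x ∈ fib A K α ↔ x ∈ A ∧ ∀ j ∈ K, x j = α j := by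
  simp [fib]

theorem fib_subset (A : Finset (ι → Q)) (K : Finset ι) (α : ι → Q) : fib A K α ⊆ A :=
  Finset.filter_subset _ _

theorem fib_mono {A B : Finset (ι → Q)} (h : A ⊆ B) (K : Finset ι) (α : ι → Q) :
    fib A K α ⊆ fib B K α :=
  Finset.filter_subset_filter _ h

theorem fib_empty (A : Finset (ι → Q)) (α : ι → Q) : fib A ∅ α = A := by
  ext x; simp [mem_fib]

theorem fib_congr (A : Finset (ι → Q)) {K : Finset ι} {α β : ι → Q} (h : ∀ j ∈ K, α j = β j) :
    fib A K α = fib A K β := by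
  ext x
  simp only [mem_fib]
  refine and_congr_right fun _ => forall₂_congr fun j hj => ?_
  rw [h j hj]

theorem fib_fib (A : Finset (ι → Q)) (K S : Finset ι) (β y : ι → Q) (h : ∀ j ∈ K, y j = β j) :
    fib (fib A K β) S y = fib A (K ∪ S) y := by
  ext x
  simp only [mem_fib, mem_union]
  constructor
  · rintro ⟨⟨h1, h2⟩, h3⟩
    refine ⟨h1, fun j hj => ?_⟩
    rcases hj with hj | hj
    · rw [h2 j hj, h j hj]
    · exact h3 j hj
  · rintro ⟨h1, h2⟩
    exact ⟨⟨h1, fun j hj => by rw [h2 j (Or.inl hj), h j hj]⟩, fun j hj => h2 j (Or.inr hj)⟩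

theorem card_fib_univ (K : Finset ι) (α : ι → Q) :
    (fib univ K α).card * Fintype.card Q ^ K.card = Fintype.card Q ^ Fintype.card ι := by
  have h1 : fib univ K α = Fintype.piFinset fun j => if j ∈ K then {α j} else univ := by
    ext x
    simp only [mem_fib, mem_univ, true_and, Fintype.mem_piFinset]
    refine forall_congr' fun j => ?_
    by_cases hj : j ∈ K <;> simp [hj]
  rw [h1, Fintype.card_piFinset]
  have h2 : Fintype.card Q ^ K.card = ∏ j : ι, if j ∈ K then Fintype.card Q else 1 := by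
    rw [Finset.prod_ite_mem, Finset.univ_inter, Finset.prod_const]
  rw [h2, ← Finset.prod_mul_distrib]
  have h3 : ∀ j : ι, ((if j ∈ K then ({α j} : Finset Q) else univ).card *
      if j ∈ K then Fintype.card Q else 1) = Fintype.card Q := by
    intro j
    by_cases hj : j ∈ K <;> simp [hj]
  simp [h3]

/-- Representative of the values of `x` on `K`. -/
def res (q : Q) (K : Finset ι) (x : ι → Q) : ι → Q := fun j => if j ∈ K then x j else q

theorem res_eq_iff (q : Q) (K : Finset ι) (x y : ι → Q) :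
    res q K x = res q K y ↔ ∀ j ∈ K, x j = y j := by
  constructor
  · intro h j hj
    have := congrFun h j
    simpa [res, hj] using this
  · intro h
    funext j
    by_cases hj : j ∈ K
    · simp [res, hj, h j hj]
    · simp [res, hj]

theorem res_agree (q : Q) (K : Finset ι) (x : ι → Q) : ∀ j ∈ K, x j = res q K x j := by
  intro j hj; simp [res, hj]

theorem card_image_res (q : Q) (A : Finset (ι → Q)) (K : Finset ι) :
    (A.image (res q K)).card ≤ Fintype.card Q ^ K.card := by
  have h1 : A.image (res q K) ⊆ Fintype.piFinset fun j => if j ∈ K then univ else {q} := by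
    intro y hy
    obtain ⟨x, _, rfl⟩ := Finset.mem_image.1 hy
    rw [Fintype.mem_piFinset]
    intro j
    by_cases hj : j ∈ K <;> simp [hj, res]
  refine (Finset.card_le_card h1).trans ?_
  rw [Fintype.card_piFinset]
  have h2 : Fintype.card Q ^ K.card = ∏ j : ι, if j ∈ K then Fintype.card Q else 1 := by
    rw [Finset.prod_ite_mem, Finset.univ_inter, Finset.prod_const]
  rw [h2]
  apply le_of_eq
  apply Finset.prod_congr rfl
  intro j _
  by_cases hj : j ∈ K <;> simp [hj]

theorem sum_card_fib (q : Q) (A : Finset (ι → Q)) (K : Finset ι) :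
    ∑ β ∈ A.image (res q K), (fib A K β).card = A.card := by
  rw [Finset.card_eq_sum_card_image (res q K) A]
  apply Finset.sum_congr rfl
  intro β hβ
  obtain ⟨y, _, rfl⟩ := Finset.mem_image.1 hβ
  congr 1
  ext x
  simp only [mem_fib, mem_filter, res_eq_iff]
  refine and_congr_right fun _ => forall₂_congr fun j hj => ?_
  simp [res, hj]

theorem one_add_pow_le (x : ℝ) (hx : 0 ≤ x) (m : ℕ) (h : 2 * m * x ≤ 1) :
    ∀ k ≤ m, (1 + x) ^ k ≤ 1 + 2 * k * x := by
  intro k
  induction k with
  | zero => intro _; simp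
  | succ k ih =>
    intro hk
    have h1 := ih (Nat.le_of_succ_le hk)
    have h2 : (k : ℝ) ≤ m := by exact_mod_cast Nat.le_of_succ_le hk
    have h3 : 2 * (k : ℝ) * x ≤ 1 := by nlinarith
    rw [pow_succ]
    push_cast
    nlinarith [mul_le_mul_of_nonneg_right h1 (by linarith : (0 : ℝ) ≤ 1 + x)]

theorem sum_powerset_pow (x : ℝ) (J : Finset ι) : ∑ K ∈ J.powerset, x ^ K.card = (1 + x) ^ J.card := by
  have := Finset.sum_pow_mul_eq_add_pow x 1 J
  simp only [one_pow, mul_one] at this
  rw [this, add_comm]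

theorem sum_powerset_le (x : ℝ) (hx : 0 ≤ x) (h : 2 * (Fintype.card ι) * x ≤ 1) (J : Finset ι) :
    ∑ K ∈ J.powerset, x ^ K.card ≤ 2 := by
  rw [sum_powerset_pow]
  have h1 := one_add_pow_le x hx _ h J.card (Finset.card_le_univ J)
  have h2 : (J.card : ℝ) ≤ Fintype.card ι := by exact_mod_cast Finset.card_le_univ J
  nlinarith

theorem sum_powerset_erase_le (x : ℝ) (hx : 0 ≤ x) (h : 2 * (Fintype.card ι) * x ≤ 1)
    (J : Finset ι) : ∑ K ∈ J.powerset.erase ∅, x ^ K.card ≤ 2 * (Fintype.card ι) * x := by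
  have h0 := Finset.add_sum_erase J.powerset (fun K => x ^ K.card) (Finset.empty_mem_powerset J)
  rw [sum_powerset_pow] at h0
  have h1 := one_add_pow_le x hx _ h J.card (Finset.card_le_univ J)
  have h2 : (J.card : ℝ) ≤ Fintype.card ι := by exact_mod_cast Finset.card_le_univ J
  simp only [card_empty, pow_zero] at h0
  nlinarith

/-- Blockwise density of the uniform distribution on `A`, on the blocks of `J`. -/
def Dense (P : ℝ) (A : Finset (ι → Q)) (J : Finset ι) (c : ℝ) (d : ℕ) : Prop :=
  ∀ K ⊆ J, ∀ α, ((fib A K α).card : ℝ) * P ^ (d * K.card) ≤ c * A.card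

/-- Capacity bound. -/
def Cap (P : ℝ) (A : Finset (ι → Q)) (J : Finset ι) (N : ℝ) : Prop :=
  ∀ K ⊆ J, ∀ α, ((fib A K α).card : ℝ) * P ^ (10 * K.card) ≤ N

theorem Cap.mono {P : ℝ} (hP : 0 ≤ P) {A B : Finset (ι → Q)} {J J' : Finset ι} {N : ℝ}
    (h : Cap P A J N) (hB : B ⊆ A) (hJ : J' ⊆ J) : Cap P B J' N := by
  intro K hK α
  refine le_trans ?_ (h K (hK.trans hJ) α)
  have : ((fib B K α).card : ℝ) ≤ (fib A K α).card := by
    exact_mod_cast Finset.card_le_card (fib_mono hB K α)
  gcongr

theorem Cap.card_le {P : ℝ} {A : Finset (ι → Q)} {J : Finset ι} {N : ℝ} (h : Cap P A J N)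
    (hA : A.Nonempty) : (A.card : ℝ) ≤ N := by
  obtain ⟨x, _⟩ := hA
  have := h ∅ (Finset.empty_subset _) x
  simpa [fib_empty] using this

theorem Cap.fib {P : ℝ} (hP : 0 < P) {A : Finset (ι → Q)} {J K : Finset ι} {N : ℝ}
    (h : Cap P A J N) (hK : K ⊆ J) (α : ι → Q) :
    Cap P (fib A K α) (J \ K) (N / P ^ (10 * K.card)) := by
  intro S hS β
  rw [le_div_iff₀ (by positivity)]
  have hd : Disjoint K S := by
    rw [Finset.disjoint_left]
    intro j hj hj'
    exact (Finset.mem_sdiff.1 (hS hj')).2 hj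
  let γ : ι → Q := fun j => if j ∈ K then α j else β j
  have h1 : CL.fib (CL.fib A K α) S β = CL.fib A (K ∪ S) γ := by
    rw [← fib_fib A K S α γ (fun j hj => by simp [γ, hj])]
    apply fib_congr
    intro j hj
    have : j ∉ K := fun h' => Finset.disjoint_left.1 hd h' hj
    simp [γ, this]
  have h2 := h (K ∪ S) (Finset.union_subset hK (hS.trans Finset.sdiff_subset)) γ
  rw [Finset.card_union_of_disjoint hd] at h2
  have h3 : 10 * S.card + 10 * K.card = 10 * (K.card + S.card) := by ring
  rw [h1, mul_assoc, ← pow_add, h3]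
  exact h2

theorem Dense.sub {P : ℝ} (hP : 0 ≤ P) {A B : Finset (ι → Q)} {J : Finset ι} {c : ℝ} {d : ℕ}
    (hc : 0 ≤ c) (h : Dense P A J c d) (hB : B ⊆ A) (h2 : (A.card : ℝ) ≤ 2 * B.card) :
    Dense P B J (2 * c) d := by
  intro K hK α
  have h3 : ((fib B K α).card : ℝ) ≤ (fib A K α).card := by
    exact_mod_cast Finset.card_le_card (fib_mono hB K α)
  calc ((fib B K α).card : ℝ) * P ^ (d * K.card) ≤ (fib A K α).card * P ^ (d * K.card) := by gcongr
    _ ≤ c * A.card := h K hK α
    _ ≤ c * (2 * B.card) := by gcongr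
    _ = 2 * c * B.card := by ring

theorem Dense.weaken {P : ℝ} (hP : 1 ≤ P) {A : Finset (ι → Q)} {J : Finset ι} {c c' : ℝ}
    {d d' : ℕ} (h : Dense P A J c d) (hc : c ≤ c') (hd : d' ≤ d) : Dense P A J c' d' := by
  intro K hK α
  calc ((fib A K α).card : ℝ) * P ^ (d' * K.card) ≤ (fib A K α).card * P ^ (d * K.card) := by
        gcongr
    _ ≤ c * A.card := h K hK α
    _ ≤ c' * A.card := by gcongr

/-- Density restoration: a heaviest fibre is dense on the remaining blocks. -/
theorem exists_restore {P : ℝ} (hP : 0 < P) (A : Finset (ι → Q)) (hA : A.Nonempty)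
    (J : Finset ι) (d : ℕ) : ∃ K ⊆ J, ∃ α, (A.card : ℝ) ≤ (fib A K α).card * P ^ (d * K.card) ∧
      Dense P (fib A K α) (J \ K) 1 d := by
  obtain ⟨x0, hx0⟩ := hA
  obtain ⟨⟨K, α⟩, hmem, hmax⟩ := Finset.exists_max_image (J.powerset ×ˢ (univ : Finset (ι → Q)))
    (fun t => ((fib A t.1 t.2).card : ℝ) * P ^ (d * t.1.card)) ⟨(∅, x0), by simp⟩
  have hK : K ⊆ J := Finset.mem_powerset.1 (Finset.mem_product.1 hmem).1
  refine ⟨K, hK, α, ?_, ?_⟩
  · have := hmax (∅, x0) (by simp)
    simpa [fib_empty] using this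
  · intro S hS β
    have hd : Disjoint K S := by
      rw [Finset.disjoint_left]
      intro j hj hj'
      exact (Finset.mem_sdiff.1 (hS hj')).2 hj
    let γ : ι → Q := fun j => if j ∈ K then α j else β j
    have h1 : fib (fib A K α) S β = fib A (K ∪ S) γ := by
      rw [← fib_fib A K S α γ (fun j hj => by simp [γ, hj])]
      apply fib_congr
      intro j hj
      have : j ∉ K := fun h' => Finset.disjoint_left.1 hd h' hj
      simp [γ, this]
    have h2 := hmax (K ∪ S, γ) (by
      simp only [mem_product, mem_powerset, mem_univ, and_true]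
      exact Finset.union_subset hK (hS.trans Finset.sdiff_subset))
    simp only [Finset.card_union_of_disjoint hd] at h2
    rw [h1, one_mul]
    have h3 : P ^ (d * (K.card + S.card)) = P ^ (d * S.card) * P ^ (d * K.card) := by
      rw [← pow_add]; congr 1; ring
    rw [h3, ← mul_assoc] at h2
    exact le_of_mul_le_mul_right h2 (by positivity)

end Pool.Agent.Lib.MP_8a52c3_lc.CL
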