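import Pool.Agent.Lib.MP_8a52c3_lc.CLPeel

/-! Removing few rows and columns from a triangle raises its safety level. -/

namespace Pool.Agent.Lib.MP_8a52c3_lc.CL

open Finset

set_option linter.unusedSectionVars false

variable {ι Q : Type} [Fintype ι] [DecidableEq ι] [Fintype Q] [DecidableEq Q]
variable {g : Q → Q → Bool} {Good : Finset ι → (ι → Bool) → Prop} {P : ℝ} {w : ℕ}

theorem St2.split' (hp : Par g Good P w) {V : Type} (s : Finset V) (C : V → Finset (ι → Q))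
    (u : V → ℝ) (hu : ∀ v ∈ s, 0 < u v) (hsum : ∑ v ∈ s, 1 / u v ≤ 1)
    {A B : Finset (ι → Q)} {Λ : ℝ} (hcov : ∀ x ∈ A, ∃ v ∈ s, x ∈ C v)
    (hlev : ∀ v ∈ s, 16 * Λ * u v ≤ (P / 2) ^ (w + 1)) (h : St2 g Good P A B Λ) :
    ∃ v ∈ s, ∃ A' ⊆ A, A' ⊆ C v ∧ ∃ B' ⊆ B, St2 g Good P A' B' (16 * Λ * u v) := by
  have hΛ := h.pos hp
  obtain ⟨v, hv, A', h1, h2, B', h3, h4⟩ := h.split hp s C (fun v => 1 / u v)
    (fun v hv => by have := hu v hv; positivity) hsum hcov (fun v hv => by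
      have h1 := hu v hv
      have h2 := hlev v hv
      rw [div_div_eq_mul_div, div_one]
      nlinarith [mul_pos hΛ h1])
  refine ⟨v, hv, A', h1, h2, B', h3, h4.mono (le_of_eq ?_)⟩
  rw [div_div_eq_mul_div, div_one]

theorem St2.split_vals (hp : Par g Good P w) (q : Q) {A B c : Finset (ι → Q)} (hc : A ⊆ c)
    (K : Finset ι) {Λ : ℝ} (hlev : 16 * Λ * P ^ (10 * K.card) ≤ (P / 2) ^ (w + 1))
    (h : St2 g Good P A B Λ) : ∃ α ∈ c.image (res q K), ∃ A' ⊆ A, A' ⊆ fib c K α ∧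
      ∃ B' ⊆ B, St2 g Good P A' B' (16 * Λ * P ^ (10 * K.card)) := by
  have hP0 : 0 < P := by have := hp.two; linarith
  refine h.split' hp (c.image (res q K)) (fun α => fib c K α) (fun _ => P ^ (10 * K.card))
    (fun _ _ => by positivity) ?_ ?_ (fun _ _ => hlev)
  · rw [Finset.sum_const, nsmul_eq_mul, mul_one_div, div_le_one (by positivity), pow_mul,
      ← hp.card]
    exact_mod_cast card_image_res q c K
  · intro x hx
    exact ⟨res q K x, Finset.mem_image_of_mem _ (hc hx),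
      mem_fib.2 ⟨hc hx, res_agree q K x⟩⟩

theorem card_of_cst (hQ : (Fintype.card Q : ℝ) = P ^ 10) (hP : 0 < P) {X : Finset (ι → Q)}
    {I : Finset ι} (h : Cst X I) :
    (X.card : ℝ) * P ^ (10 * I.card) ≤ P ^ (10 * Fintype.card ι) := by
  rcases X.eq_empty_or_nonempty with rfl | ⟨x0, hx0⟩
  · simp only [card_empty, CharP.cast_eq_zero, zero_mul]; positivity
  have h1 : X ⊆ fib univ I x0 := fun x hx => mem_fib.2 ⟨mem_univ _, h x hx x0 hx0⟩
  have h2 : ((fib univ I x0).card : ℝ) * P ^ (10 * I.card) = P ^ (10 * Fintype.card ι) := by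
    rw [pow_mul, pow_mul, ← hQ]
    exact_mod_cast card_fib_univ I x0
  rw [← h2]
  have : (X.card : ℝ) ≤ (fib univ I x0).card := by exact_mod_cast Finset.card_le_card h1
  gcongr

theorem Cst.mono {X X' : Finset (ι → Q)} {I : Finset ι} (h : Cst X I) (hX : X' ⊆ X) : Cst X' I :=
  fun x hx x' hx' => h x (hX hx) x' (hX hx')

theorem Cst.union {X : Finset (ι → Q)} {I K : Finset ι} (h : Cst X I) (h' : Cst X K) :
    Cst X (I ∪ K) := fun x hx x' hx' j hj => by
  rcases Finset.mem_union.1 hj with hj | hj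
  · exact h x hx x' hx' j hj
  · exact h' x hx x' hx' j hj

theorem cst_fib (X : Finset (ι → Q)) (K : Finset ι) (α : ι → Q) : Cst (fib X K α) K :=
  fun x hx x' hx' j hj => by rw [(mem_fib.1 hx).2 j hj, (mem_fib.1 hx').2 j hj]

theorem cap_of_cst (hQ : (Fintype.card Q : ℝ) = P ^ 10) (hP : 0 < P) {X : Finset (ι → Q)}
    {I : Finset ι} (h : Cst X I) :
    Cap P X Iᶜ (P ^ (10 * Fintype.card ι) / P ^ (10 * I.card)) := by
  intro K hK α
  have hd : Disjoint I K := by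
    rw [Finset.disjoint_left]
    intro j hj hj'
    exact Finset.mem_compl.1 (hK hj') hj
  have h1 := card_of_cst hQ hP ((h.mono (fib_subset X K α)).union (cst_fib X K α))
  rw [Finset.card_union_of_disjoint hd] at h1
  rw [le_div_iff₀ (by positivity), mul_assoc, ← pow_add]
  have e : 10 * K.card + 10 * I.card = 10 * (I.card + K.card) := by ring
  rw [e]
  exact h1

/-- The cells that can hold a row outside the error set. -/
def Cell (P : ℝ) (r0 : ℕ) (f : (ι → Q) → ℝ) (θ : ℝ) (X : Finset (ι → Q)) (I : Finset ι) (a : ℕ)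
    (c : Finset (ι → Q) × Finset ι) : Prop :=
  c ∈ peel P Iᶜ f X ∧ a + c.2.card ≤ r0 ∧ (c.2 = ∅ → ∃ R ⊆ c.1, (∀ y ∈ R, f y ≤ θ) ∧
    (c.1.card : ℝ) ≤ 2 * R.card ∧ Dense P R Iᶜ 1 9)

theorem not_small_cell (hP : 0 < P) {r0 : ℕ} (q : Q) (f : (ι → Q) → ℝ) (r : ℕ)
    {X : Finset (ι → Q)} {I : Finset ι} {a : ℕ} {c : Finset (ι → Q) × Finset ι}
    (hc : c ∈ peel P Iᶜ f X) {x : ι → Q} (hx : x ∈ c.1) (hE : x ∉ Err P r0 q f (r + 1) X I a) :
    ¬ Small P r0 c.1 (I ∪ c.2) (a + c.2.card) := by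
  intro hs
  apply hE
  refine err_step q f r hc (Finset.empty_subset _) (Or.inl rfl) (α := res q ∅ x)
    (Finset.mem_image_of_mem _ hx) (((peel_spec hP Iᶜ f X).1 c hc).1 hx) ?_
  rw [fib_empty, Finset.union_empty, err_small q f r hs]
  exact hx

theorem St2.split_cells (hp : Par g Good P w) {r0 : ℕ} (q : Q) (f : (ι → Q) → ℝ) (θ : ℝ) (r : ℕ)
    {W : ℝ} (hW : 4 * Real.log (P ^ (10 * Fintype.card ι) + 1) ≤ W) (hW1 : 1 ≤ W)
    {X A B : Finset (ι → Q)} {I : Finset ι} {a : ℕ} (ha : a ≤ r0) (hX : Cst X I) (hA : A ⊆ X)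
    (hE : ∀ x ∈ A, x ∉ Err P r0 q f (r + 1) X I a) (hθ : ∀ x ∈ A, f x ≤ θ) {Λ : ℝ}
    (hlev : 16 * Λ * (W * P ^ (9 * (r0 - a))) ≤ (P / 2) ^ (w + 1)) (h : St2 g Good P A B Λ) :
    ∃ c, Cell P r0 f θ X I a c ∧ ∃ A' ⊆ A, A' ⊆ c.1 ∧ ∃ B' ⊆ B,
      St2 g Good P A' B' (16 * Λ * (W * P ^ (9 * c.2.card))) := by
  classical
  have hP := hp.two
  have hP0 : 0 < P := by linarith
  have hΛ := h.pos hp
  obtain ⟨g1, g2, g3⟩ := peel_spec hP0 Iᶜ f X
  have h4 : 4 * Real.log (X.card + 1) ≤ W := by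
    refine le_trans ?_ hW
    have e : (X.card : ℝ) ≤ P ^ (10 * Fintype.card ι) := by
      rw [pow_mul, ← hp.card]
      have := Finset.card_le_univ X
      rw [Fintype.card_fun] at this
      exact_mod_cast this
    exact mul_le_mul_of_nonneg_left (Real.log_le_log (by positivity) (by linarith)) (by norm_num)
  obtain ⟨c, hc, hrest⟩ := h.split' hp ((peel P Iᶜ f X).filter fun c => Cell P r0 f θ X I a c)
    (fun c => c.1) (fun c => W * P ^ (9 * c.2.card)) (fun _ _ => by positivity) (by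
      refine le_trans (Finset.sum_le_sum_of_subset_of_nonneg (Finset.filter_subset _ _)
        (fun _ _ _ => by positivity)) ?_
      have e : ∀ c : Finset (ι → Q) × Finset ι, 1 / (W * P ^ (9 * c.2.card)) =
          1 / W * (1 / P ^ (9 * c.2.card)) := fun c => by rw [one_div_mul_one_div]
      simp_rw [e]
      rw [← Finset.mul_sum, one_div_mul_eq_div, div_le_one (by linarith)]
      exact g2.trans h4) (by
      intro x hx
      obtain ⟨c, hc, hxc, hc2⟩ := g3 θ x (hA hx) (hθ x hx)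
      refine ⟨c, Finset.mem_filter.2 ⟨hc, hc, ?_, hc2⟩, hxc⟩
      by_contra hlt
      apply not_small_cell hP0 q f r hc hxc (hE x hx)
      have e1 := card_of_cst hp.card hP0 ((hX.mono (g1 c hc).1).union (g1 c hc).2.2)
      have e2 : P ^ r0 < P ^ (a + c.2.card) := pow_lt_pow_right₀ (by linarith) (by omega)
      calc (c.1.card : ℝ) * P ^ r0 * P ^ (10 * (I ∪ c.2).card)
          = (c.1.card : ℝ) * P ^ (10 * (I ∪ c.2).card) * P ^ r0 := by ring
        _ ≤ P ^ (10 * Fintype.card ι) * P ^ r0 := by gcongr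
        _ < _ := by gcongr) (by
      intro c hc
      have e := (Finset.mem_filter.1 hc).2.2.1
      refine le_trans ?_ hlev
      have : P ^ (9 * c.2.card) ≤ P ^ (9 * (r0 - a)) := pow_le_pow_right₀ (by linarith) (by omega)
      gcongr)
  exact ⟨c, (Finset.mem_filter.1 hc).2, hrest⟩

theorem cell_size (hp : Par g Good P w) {r0 : ℕ} {c R : Finset (ι → Q)} {I : Finset ι} {a : ℕ}
    (h : ¬ Small P r0 c I a) (hR : (c.card : ℝ) ≤ 2 * R.card) :
    P ^ (10 * Fintype.card ι) / P ^ (10 * I.card) ≤ 2 * P ^ r0 * R.card := by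
  have hP := hp.two
  have hP0 : 0 < P := by linarith
  unfold Small at h
  rw [not_lt] at h
  rw [div_le_iff₀ (by positivity)]
  calc P ^ (10 * Fintype.card ι) ≤ P ^ (10 * Fintype.card ι) * P ^ a :=
        le_mul_of_one_le_right (by positivity) (one_le_pow₀ (by linarith))
    _ ≤ _ := h
    _ ≤ (2 * R.card) * P ^ r0 * P ^ (10 * I.card) := by gcongr
    _ = _ := by ring

theorem boost_aux (hp : Par g Good P w) (r0 : ℕ) (q : Q) (f1 f2 : (ι → Q) → ℝ) (θ1 θ2 : ℝ)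
    {W : ℝ} (hW : 4 * Real.log (P ^ (10 * Fintype.card ι) + 1) ≤ W) (hW1 : 1 ≤ W) (r : ℕ) :
    ∀ (X Y A B : Finset (ι → Q)) (I : Finset ι) (a b : ℕ) (Λ : ℝ), Cst X I → Cst Y I →
      I.card ≤ a + b → a ≤ r0 → b ≤ r0 → 2 * r0 + 1 ≤ r + I.card → A ⊆ X → B ⊆ Y →
      (∀ x ∈ A, x ∉ Err P r0 q f1 r X I a) → (∀ y ∈ B, y ∉ Err P r0 q f2 r Y I b) →
      (∀ x ∈ A, f1 x ≤ θ1) → (∀ y ∈ B, f2 y ≤ θ2) →
      Λ * (16 ^ 4 * W ^ 2) ^ r * P ^ (19 * (2 * r0 - a - b)) ≤ (P / 2) ^ (w + 1) →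
      St2 g Good P A B Λ →
      ∃ R1 ⊆ X, ∃ R2 ⊆ Y, (∀ x ∈ R1, f1 x ≤ θ1) ∧ (∀ y ∈ R2, f2 y ≤ θ2) ∧
        St2 g Good P R1 R2 (4 * P ^ (4 * r0)) := by
  have hP := hp.two
  have hP0 : 0 < P := by linarith
  have hP1 : 1 ≤ P := by linarith
  induction r with
  | zero => intro X Y A B I a b Λ _ _ h1 h2 h3 h4; omega
  | succ r ih =>
    intro X Y A B I a b Λ hX hY hI ha hb hr hA hB hEA hEB hθ1 hθ2 hlev h
    have hΛ := h.pos hp
    set G : ℝ := 16 ^ 4 * W ^ 2 with hG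
    have hG1 : 1 ≤ G := by rw [hG]; nlinarith
    have hbud : ∀ (k : ℕ) (Λ' : ℝ), k ≤ 2 * r0 - a - b → Λ' ≤ Λ * G * P ^ (19 * k) →
        Λ' ≤ (P / 2) ^ (w + 1) := by
      intro k Λ' hk h1
      refine h1.trans (le_trans ?_ hlev)
      have e1 : P ^ (19 * k) ≤ P ^ (19 * (2 * r0 - a - b)) := pow_le_pow_right₀ hP1 (by omega)
      have e2 : G ≤ G ^ (r + 1) := le_self_pow₀ hG1 (by omega)
      gcongr
    have hpw : ∀ i j : ℕ, i ≤ j → P ^ i ≤ P ^ j := fun i j h => pow_le_pow_right₀ hP1 h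
    obtain ⟨c1, hc1, A1, hA1, hA1c, B1, hB1, s1⟩ := h.split_cells hp q f1 θ1 r hW hW1 ha hX hA hEA hθ1
      (hbud (r0 - a) _ (by omega) (by
        have e := hpw (9 * (r0 - a)) (19 * (r0 - a)) (by omega)
        calc 16 * Λ * (W * P ^ (9 * (r0 - a))) = Λ * (16 * W) * P ^ (9 * (r0 - a)) := by ring
          _ ≤ _ := by gcongr; rw [hG]; nlinarith))
    have hk1 := hc1.2.1
    obtain ⟨c2, hc2, B2, hB2, hB2c, A2, hA2, s2⟩ := s1.symm.split_cells hp q f2 θ2 r hW hW1 hb hY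
      (hB1.trans hB) (fun y hy => hEB y (hB1 hy)) (fun y hy => hθ2 y (hB1 hy))
      (hbud (c1.2.card + (r0 - b)) _ (by omega) (by
        have e := hpw (9 * c1.2.card + 9 * (r0 - b)) (19 * (c1.2.card + (r0 - b))) (by omega)
        calc 16 * (16 * Λ * (W * P ^ (9 * c1.2.card))) * (W * P ^ (9 * (r0 - b)))
            = Λ * (16 ^ 2 * W ^ 2) * P ^ (9 * c1.2.card + 9 * (r0 - b)) := by rw [pow_add]; ring
          _ ≤ _ := by gcongr; rw [hG]; nlinarith))
    have hk2 := hc2.2.1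
    obtain ⟨g1, g2, g3⟩ := (peel_spec hP0 Iᶜ f1 X).1 c1 hc1.1
    obtain ⟨g4, g5, g6⟩ := (peel_spec hP0 Iᶜ f2 Y).1 c2 hc2.1
    by_cases hend : c1.2 = ∅ ∧ c2.2 = ∅
    · obtain ⟨R1, hR1, t1, t2, t3⟩ := hc1.2.2 hend.1
      obtain ⟨R2, hR2, t4, t5, t6⟩ := hc2.2.2 hend.2
      obtain ⟨⟨y0, hy0⟩, ⟨x0, hx0⟩⟩ := s2.nonempty
      have hx0X : x0 ∈ X := hA (hA1 (hA2 hx0))
      have hy0Y : y0 ∈ Y := hB (hB1 (hB2 hy0))
      obtain ⟨ρ, hρ1, hρ2⟩ := s2.symm.good_of_const hp (I := I) (α := x0)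
        (fun x hx => hX x (hA (hA1 (hA2 hx))) x0 hx0X)
      have n1 := not_small_cell hP0 q f1 r hc1.1 (hA1c (hA2 hx0)) (hEA x0 (hA1 (hA2 hx0)))
      have n2 := not_small_cell hP0 q f2 r hc2.1 (hB2c hy0) (hEB y0 (hB1 (hB2 hy0)))
      rw [hend.1, Finset.union_empty] at n1
      rw [hend.2, Finset.union_empty] at n2
      have z1 := cell_size hp n1 t2
      have z2 := cell_size hp n2 t5
      have hN : 0 < P ^ (10 * Fintype.card ι) / P ^ (10 * I.card) := by positivity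
      have hne : ∀ R : Finset (ι → Q), P ^ (10 * Fintype.card ι) / P ^ (10 * I.card) ≤
          2 * P ^ r0 * R.card → R.Nonempty := by
        intro R hR
        rw [Finset.nonempty_iff_ne_empty]
        rintro rfl
        simp only [card_empty, CharP.cast_eq_zero, mul_zero] at hR
        linarith
      refine ⟨R1, hR1.trans g1, R2, hR2.trans g4, t1, t4, Or.inl ⟨I, ⟨ρ, _, _, hρ1, ?_, hne R1 z1,
        hne R2 z2, cap_of_cst hp.card hP0 (hX.mono (hR1.trans g1)),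
        cap_of_cst hp.card hP0 (hY.mono (hR2.trans g4)), ?_⟩,
        t3.weaken hP1 (by norm_num) (by norm_num), t6⟩⟩
      · intro x hx y hy j hj
        rw [hX x (g1 (hR1 hx)) x0 hx0X j hj, hY y (g4 (hR2 hy)) y0 hy0Y j hj]
        exact hρ2 x0 hx0 y0 hy0 j hj
      · have e1 : (P / 2) ^ I.card ≤ P ^ (2 * r0) :=
          le_trans (by gcongr; linarith) (hpw I.card (2 * r0) (by omega))
        calc _ ≤ (2 * P ^ r0 * R1.card) * (2 * P ^ r0 * R2.card) * P ^ (2 * r0) := by gcongr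
          _ = _ := by
            have : P ^ (4 * r0) = P ^ r0 * P ^ r0 * P ^ (2 * r0) := by
              rw [← pow_add, ← pow_add]; congr 1; ring
            rw [this]; ring
    · have l1 : (c2.2 \ c1.2).card ≤ c2.2.card := Finset.card_le_card Finset.sdiff_subset
      have l2 : (c1.2 \ c2.2).card ≤ c1.2.card := Finset.card_le_card Finset.sdiff_subset
      obtain ⟨α, hα, A3, hA3, hA3f, B3, hB3, s3⟩ := s2.symm.split_vals hp q (hA2.trans hA1c)
        (c2.2 \ c1.2) (hbud (c1.2.card + c2.2.card) _ (by omega) (by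
          have e := hpw (9 * c1.2.card + 9 * c2.2.card + 10 * (c2.2 \ c1.2).card)
            (19 * (c1.2.card + c2.2.card)) (by omega)
          calc 16 * (16 * (16 * Λ * (W * P ^ (9 * c1.2.card))) * (W * P ^ (9 * c2.2.card))) *
                P ^ (10 * (c2.2 \ c1.2).card) = Λ * (16 ^ 3 * W ^ 2) *
                P ^ (9 * c1.2.card + 9 * c2.2.card + 10 * (c2.2 \ c1.2).card) := by
                rw [pow_add, pow_add]; ring
            _ ≤ _ := by gcongr; rw [hG]; nlinarith))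
      have hfin : 16 * (16 * (16 * (16 * Λ * (W * P ^ (9 * c1.2.card))) *
          (W * P ^ (9 * c2.2.card))) * P ^ (10 * (c2.2 \ c1.2).card)) *
          P ^ (10 * (c1.2 \ c2.2).card) ≤ Λ * G * P ^ (19 * (c1.2.card + c2.2.card)) := by
        have e := hpw (9 * c1.2.card + 9 * c2.2.card + 10 * (c2.2 \ c1.2).card +
          10 * (c1.2 \ c2.2).card) (19 * (c1.2.card + c2.2.card)) (by omega)
        calc _ = Λ * G * P ^ (9 * c1.2.card + 9 * c2.2.card + 10 * (c2.2 \ c1.2).card +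
              10 * (c1.2 \ c2.2).card) := by rw [pow_add, pow_add, pow_add, hG]; ring
          _ ≤ _ := by gcongr
      obtain ⟨β, hβ, B4, hB4, hB4f, A4, hA4, s4⟩ := s3.symm.split_vals hp q (hB3.trans hB2c)
        (c1.2 \ c2.2) (hbud (c1.2.card + c2.2.card) _ (by omega) hfin)
      have hI1 : I ∪ c1.2 ∪ (c2.2 \ c1.2) = I ∪ c1.2 ∪ c2.2 := by
        ext j; simp only [mem_union, mem_sdiff]; tauto
      have hI2 : I ∪ c2.2 ∪ (c1.2 \ c2.2) = I ∪ c1.2 ∪ c2.2 := by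
        ext j; simp only [mem_union, mem_sdiff]; tauto
      have hcardI : (I ∪ c1.2 ∪ c2.2).card ≤ I.card + c1.2.card + c2.2.card :=
        (Finset.card_union_le _ _).trans (by have := Finset.card_union_le I c1.2; omega)
      have hgrow : I.card + 1 ≤ (I ∪ c1.2 ∪ c2.2).card := by
        apply Finset.card_lt_card
        rw [Finset.ssubset_iff_of_subset
          (Finset.subset_union_left.trans Finset.subset_union_left)]
        rw [not_and_or] at hend
        rcases hend with hend | hend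
        · obtain ⟨j, hj⟩ := Finset.nonempty_iff_ne_empty.2 hend
          exact ⟨j, by simp [hj], Finset.mem_compl.1 (g2 hj)⟩
        · obtain ⟨j, hj⟩ := Finset.nonempty_iff_ne_empty.2 hend
          exact ⟨j, by simp [hj], Finset.mem_compl.1 (g5 hj)⟩
      have hXc : Cst (fib c1.1 (c2.2 \ c1.2) α) (I ∪ c1.2 ∪ c2.2) := by
        rw [← hI1]
        exact (((hX.mono g1).union g3).mono (fib_subset _ _ _)).union (cst_fib _ _ _)
      have hYc : Cst (fib c2.1 (c1.2 \ c2.2) β) (I ∪ c1.2 ∪ c2.2) := by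
        rw [← hI2]
        exact (((hY.mono g4).union g6).mono (fib_subset _ _ _)).union (cst_fib _ _ _)
      have hA4A : A4 ⊆ A := hA4.trans (hA3.trans (hA2.trans hA1))
      have hB4B : B4 ⊆ B := hB4.trans (hB3.trans (hB2.trans hB1))
      obtain ⟨R1, u1, R2, u2, u3⟩ := ih (fib c1.1 (c2.2 \ c1.2) α) (fib c2.1 (c1.2 \ c2.2) β) A4 B4
        (I ∪ c1.2 ∪ c2.2) (a + c1.2.card) (b + c2.2.card) _ hXc hYc (by omega) hk1 hk2 (by omega)
        (hA4.trans hA3f) hB4f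
        (fun x hx hE => hEA x (hA4A hx) (err_step q f1 r hc1.1
          (Finset.sdiff_subset_sdiff g5 (subset_refl _)) (Or.inr (by rw [hI1]; omega)) hα
          (hA (hA4A hx)) (by rw [hI1]; exact hE)))
        (fun y hy hE => hEB y (hB4B hy) (err_step q f2 r hc2.1
          (Finset.sdiff_subset_sdiff g2 (subset_refl _)) (Or.inr (by rw [hI2]; omega)) hβ
          (hB (hB4B hy)) (by rw [hI2]; exact hE)))
        (fun x hx => hθ1 x (hA4A hx)) (fun y hy => hθ2 y (hB4B hy)) (by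
          refine le_trans ?_ hlev
          have e : P ^ (19 * (2 * r0 - a - b)) = P ^ (19 * (c1.2.card + c2.2.card)) *
              P ^ (19 * (2 * r0 - (a + c1.2.card) - (b + c2.2.card))) := by
            rw [← pow_add]; congr 1; omega
          rw [e, pow_succ G r]
          calc _ ≤ Λ * G * P ^ (19 * (c1.2.card + c2.2.card)) * G ^ r *
                P ^ (19 * (2 * r0 - (a + c1.2.card) - (b + c2.2.card))) := by gcongr
            _ = _ := by ring) s4.symm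
      exact ⟨R1, u1.trans ((fib_subset _ _ _).trans g1), R2,
        u2.trans ((fib_subset _ _ _).trans g4), u3⟩

/-- No state of level `Λ` lies inside the relation `T` on `X × Y`. -/
def Safe (g : Q → Q → Bool) (Good : Finset ι → (ι → Bool) → Prop) (P : ℝ) (Λ : ℝ)
    (X Y : Finset (ι → Q)) (T : (ι → Q) → (ι → Q) → Prop) : Prop :=
  ∀ A ⊆ X, ∀ B ⊆ Y, (∀ x ∈ A, ∀ y ∈ B, T x y) → ¬ St2 g Good P A B Λ

theorem boost (hp : Par g Good P w) (r0 : ℕ) {W μ : ℝ}
    (hW : 4 * Real.log (P ^ (10 * Fintype.card ι) + 1) ≤ W) (hW1 : 1 ≤ W)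
    (hμ : 2 * (Fintype.card ι : ℝ) ≤ μ) (hμ1 : 1 ≤ μ) {Λ : ℝ}
    (hlev : Λ * (16 ^ 4 * W ^ 2) ^ (2 * r0 + 1) * P ^ (38 * r0) ≤ (P / 2) ^ (w + 1))
    (a b : (ι → Q) → ℝ) (X Y : Finset (ι → Q))
    (h : Safe g Good P (4 * P ^ (4 * r0)) X Y fun x y => a x < b y) :
    ∃ E1 E2 : Finset (ι → Q),
      (E1.card : ℝ) * P ^ r0 ≤ P ^ (10 * Fintype.card ι) * ((2 * W) ^ (2 * r0 + 1) * μ ^ (2 * r0)) ∧
      (E2.card : ℝ) * P ^ r0 ≤ P ^ (10 * Fintype.card ι) * ((2 * W) ^ (2 * r0 + 1) * μ ^ (2 * r0)) ∧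
      Safe g Good P Λ (X \ E1) (Y \ E2) fun x y => a x < b y := by
  obtain ⟨q⟩ := hp.ne
  have hP1 : 1 ≤ P := by have := hp.two; linarith
  refine ⟨Err P r0 q a (2 * r0 + 1) X ∅ 0, Err P r0 q (fun y => - b y) (2 * r0 + 1) Y ∅ 0,
    ?_, ?_, ?_⟩
  · simpa using card_err hP1 hp.card r0 q a hW hW1 hμ hμ1 (2 * r0 + 1) X ∅ 0
  · simpa using card_err hP1 hp.card r0 q (fun y => - b y) hW hW1 hμ hμ1 (2 * r0 + 1) Y ∅ 0
  · intro A hA B hB hT hs
    obtain ⟨x0, hx0, hmax⟩ := Finset.exists_max_image A a hs.nonempty.1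
    obtain ⟨y0, hy0, hmin⟩ := Finset.exists_max_image B (fun y => - b y) hs.nonempty.2
    obtain ⟨R1, h1, R2, h2, h3, h4, h5⟩ := boost_aux hp r0 q a (fun y => - b y) (a x0) (- b y0)
      hW hW1 (2 * r0 + 1) X Y A B ∅ 0 0 Λ (fun _ _ _ _ j hj => by simp at hj)
      (fun _ _ _ _ j hj => by simp at hj) (by simp) (by simp) (by simp) (by simp)
      (hA.trans Finset.sdiff_subset) (hB.trans Finset.sdiff_subset)
      (fun x hx => (Finset.mem_sdiff.1 (hA hx)).2) (fun y hy => (Finset.mem_sdiff.1 (hB hy)).2)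
      hmax hmin (by
        have e : 19 * (2 * r0 - 0 - 0) = 38 * r0 := by omega
        rw [e]; exact hlev) hs
    refine h R1 h1 R2 h2 (fun x hx y hy => ?_) h5
    have e1 := h3 x hx
    have e2 := h4 y hy
    have e3 := hT x0 hx0 y0 hy0
    simp only at e2 e3 ⊢
    linarith

end Pool.Agent.Lib.MP_8a52c3_lc.CL
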