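import Pool.Agent.Lib.MP_8a52c3_lc.CLBasic

/-! Dangerous rows for an orthogonal gadget. -/

namespace Pool.Agent.Lib.MP_8a52c3_lc.CL

open Finset

set_option linter.unusedSectionVars false

variable {ι Q : Type} [Fintype ι] [DecidableEq ι] [Fintype Q] [DecidableEq Q]

/-- Sign of a bit. -/
def sb (b : Bool) : ℝ := if b then -1 else 1

theorem sb_mul_self (b : Bool) : sb b * sb b = 1 := by cases b <;> simp [sb]

theorem abs_sb (b : Bool) : |sb b| = 1 := by cases b <;> simp [sb]

theorem one_add_sb (a b : Bool) : 1 + sb a * sb b = if b = a then 2 else 0 := by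
  cases a <;> cases b <;> norm_num [sb]

/-- The sign matrix of the gadget has orthogonal columns. -/
def Orth (g : Q → Q → Bool) : Prop :=
  ∀ y y', ∑ a, sb (g a y) * sb (g a y') = if y = y' then (Fintype.card Q : ℝ) else 0

/-- Character of the gadget outputs on `S`. -/
def chi (g : Q → Q → Bool) (S : Finset ι) (x y : ι → Q) : ℝ := ∏ j ∈ S, sb (g (x j) (y j))

theorem abs_chi (g : Q → Q → Bool) (S : Finset ι) (x y : ι → Q) : |chi g S x y| = 1 := by
  unfold chi
  rw [Finset.abs_prod]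
  simp [abs_sb]

theorem chi_congr (g : Q → Q → Bool) {S : Finset ι} {x x' : ι → Q} (h : ∀ j ∈ S, x j = x' j)
    (y : ι → Q) : chi g S x y = chi g S x' y := by
  unfold chi
  exact Finset.prod_congr rfl fun j hj => by rw [h j hj]

theorem sum_chi_mul {g : Q → Q → Bool} (h : Orth g) (S : Finset ι) (y y' : ι → Q) :
    ∑ x : ι → Q, chi g S x y * chi g S x y' =
      if ∀ j ∈ S, y' j = y j then (Fintype.card Q : ℝ) ^ Fintype.card ι else 0 := by
  have h1 : ∀ x : ι → Q, chi g S x y * chi g S x y' =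
      ∏ j : ι, (if j ∈ S then sb (g (x j) (y j)) * sb (g (x j) (y' j)) else 1) := by
    intro x
    unfold chi
    rw [← Finset.prod_mul_distrib, Finset.prod_ite_mem, Finset.univ_inter]
  simp_rw [h1]
  have h2 := Finset.prod_univ_sum (fun _ : ι => (univ : Finset Q))
    (fun j a => if j ∈ S then sb (g a (y j)) * sb (g a (y' j)) else (1 : ℝ))
  rw [Fintype.piFinset_univ] at h2
  rw [← h2]
  have h3 : ∀ j : ι, ∑ a : Q, (if j ∈ S then sb (g a (y j)) * sb (g a (y' j)) else (1 : ℝ)) =
      if j ∈ S ∧ y j ≠ y' j then 0 else (Fintype.card Q : ℝ) := by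
    intro j
    by_cases hj : j ∈ S
    · simp only [hj, if_true, true_and]
      rw [h]
      by_cases e : y j = y' j <;> simp [e]
    · simp [hj]
  simp_rw [h3]
  split_ifs with hh
  · have : ∀ j : ι, (if j ∈ S ∧ y j ≠ y' j then 0 else (Fintype.card Q : ℝ)) = Fintype.card Q := by
      intro j
      rw [if_neg]
      rintro ⟨a, b⟩
      exact b (hh j a).symm
    simp_rw [this]
    simp
  · push Not at hh
    obtain ⟨j, hj, hne⟩ := hh
    apply Finset.prod_eq_zero (Finset.mem_univ j)
    rw [if_pos ⟨hj, fun e => hne e.symm⟩]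

theorem parseval {g : Q → Q → Bool} (h : Orth g) (S : Finset ι) (F : Finset (ι → Q)) :
    ∑ x : ι → Q, (∑ y ∈ F, chi g S x y) ^ 2 =
      (Fintype.card Q : ℝ) ^ Fintype.card ι * ∑ y ∈ F, ((fib F S y).card : ℝ) := by
  have h1 : ∀ x : ι → Q, (∑ y ∈ F, chi g S x y) ^ 2 =
      ∑ y ∈ F, ∑ y' ∈ F, chi g S x y * chi g S x y' := by
    intro x
    rw [sq, Finset.sum_mul_sum]
  simp_rw [h1]
  rw [Finset.sum_comm, Finset.mul_sum]
  apply Finset.sum_congr rfl
  intro y _
  rw [Finset.sum_comm]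
  simp_rw [sum_chi_mul h]
  rw [← Finset.sum_filter]
  simp only [Finset.sum_const, nsmul_eq_mul]
  rw [mul_comm]
  rfl

/-- Rows that are biased on `S` inside some fibre over `K`. -/
def BadRow (g : Q → Q → Bool) (P : ℝ) (B : Finset (ι → Q)) (S K : Finset ι) (x : ι → Q) : Prop :=
  ∃ β, (B.card : ℝ) < |∑ y ∈ fib B K β, chi g S x y| * P ^ (S.card + 7 * K.card)

/-- Dangerous rows. -/
def Dang (g : Q → Q → Bool) (P : ℝ) (B : Finset (ι → Q)) (J : Finset ι) (x : ι → Q) : Prop :=
  ∃ S ⊆ J, S.Nonempty ∧ ∃ K ⊆ J, Disjoint K S ∧ BadRow g P B S K x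

theorem abs_sum_chi_le (g : Q → Q → Bool) (S : Finset ι) (F : Finset (ι → Q)) (x : ι → Q) :
    |∑ y ∈ F, chi g S x y| ≤ F.card := by
  refine (Finset.abs_sum_le_sum_abs _ _).trans ?_
  simp [abs_chi]

theorem badRow_two_mul {g : Q → Q → Bool} {P : ℝ} (hP : 2 ≤ P) {B : Finset (ι → Q)}
    {J S K : Finset ι} (hB : Dense P B J 2 9) (hK : K ⊆ J) {x : ι → Q}
    (h : BadRow g P B S K x) : 2 * K.card ≤ S.card := by
  obtain ⟨β, hβ⟩ := h
  by_contra hc
  push Not at hc
  have h1 := hB K hK β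
  have h2 := abs_sum_chi_le g S (fib B K β) x
  have h3 : P ^ (S.card + 7 * K.card) * P ≤ P ^ (9 * K.card) := by
    rw [← pow_succ]
    exact pow_le_pow_right₀ (by linarith) (by omega)
  have h4 : (0 : ℝ) ≤ P ^ (S.card + 7 * K.card) := by positivity
  have h5 : (B.card : ℝ) < (fib B K β).card * P ^ (S.card + 7 * K.card) :=
    lt_of_lt_of_le hβ (by gcongr)
  have h6 : (0 : ℝ) ≤ (fib B K β).card := by positivity
  have h7 : ((fib B K β).card : ℝ) * (P ^ (S.card + 7 * K.card) * 2) ≤
      (fib B K β).card * P ^ (9 * K.card) := by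
    apply mul_le_mul_of_nonneg_left _ h6
    exact le_trans (by gcongr) h3
  nlinarith

open Classical in
theorem card_badRow [Nonempty Q] {g : Q → Q → Bool} (hg : Orth g) {P : ℝ} (hP : 2 ≤ P)
    {B : Finset (ι → Q)} {J S K : Finset ι} (hB : Dense P B J 2 9) (hBne : B.Nonempty)
    (hK : K ⊆ J) (hS : S ⊆ J) (hd : Disjoint K S) :
    ((univ.filter fun x => BadRow g P B S K x).card : ℝ) * P ^ (7 * S.card) ≤
      2 * (Fintype.card Q : ℝ) ^ Fintype.card ι * P ^ (5 * K.card) := by
  obtain ⟨q⟩ := ‹Nonempty Q›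
  have hP0 : 0 < P := by linarith
  have hBpos : (0 : ℝ) < B.card := by exact_mod_cast hBne.card_pos
  set e := S.card + 7 * K.card with he
  set n : ℝ := (Fintype.card Q : ℝ) ^ Fintype.card ι with hn
  have h1 : ∀ x, BadRow g P B S K x → (B.card : ℝ) ^ 2 ≤
      (∑ β ∈ B.image (res q K), (∑ y ∈ fib B K β, chi g S x y) ^ 2) * P ^ (2 * e) := by
    rintro x ⟨β, hβ⟩
    have hne : (fib B K β).Nonempty := by
      rw [Finset.nonempty_iff_ne_empty]
      intro h0
      rw [h0] at hβ
      simp only [sum_empty, abs_zero, zero_mul] at hβ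
      linarith
    obtain ⟨y0, hy0⟩ := hne
    rw [mem_fib] at hy0
    have hfe : fib B K β = fib B K (res q K y0) := by
      apply fib_congr
      intro j hj
      rw [← hy0.2 j hj]
      exact res_agree q K y0 j hj
    have hmem : res q K y0 ∈ B.image (res q K) := Finset.mem_image_of_mem _ hy0.1
    have h2 : (∑ y ∈ fib B K (res q K y0), chi g S x y) ^ 2 ≤
        ∑ β ∈ B.image (res q K), (∑ y ∈ fib B K β, chi g S x y) ^ 2 :=
      Finset.single_le_sum (f := fun β => (∑ y ∈ fib B K β, chi g S x y) ^ 2)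
        (fun _ _ => sq_nonneg _) hmem
    rw [← hfe] at h2
    have h3 : (B.card : ℝ) ^ 2 ≤ (|∑ y ∈ fib B K β, chi g S x y| * P ^ e) ^ 2 := by
      gcongr
    rw [mul_pow, sq_abs, ← pow_mul, mul_comm e 2] at h3
    exact h3.trans (by gcongr)
  have h2 : ((univ.filter fun x => BadRow g P B S K x).card : ℝ) * (B.card : ℝ) ^ 2 ≤
      ∑ x : ι → Q, (∑ β ∈ B.image (res q K), (∑ y ∈ fib B K β, chi g S x y) ^ 2) * P ^ (2 * e) := by
    calc ((univ.filter fun x => BadRow g P B S K x).card : ℝ) * (B.card : ℝ) ^ 2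
        = ∑ x ∈ univ.filter (fun x => BadRow g P B S K x), (B.card : ℝ) ^ 2 := by simp
      _ ≤ ∑ x ∈ univ.filter (fun x => BadRow g P B S K x),
          (∑ β ∈ B.image (res q K), (∑ y ∈ fib B K β, chi g S x y) ^ 2) * P ^ (2 * e) :=
          Finset.sum_le_sum fun x hx => h1 x (Finset.mem_filter.1 hx).2
      _ ≤ _ := by
          apply Finset.sum_le_sum_of_subset_of_nonneg (Finset.filter_subset _ _)
          intro x _ _
          positivity
  rw [← Finset.sum_mul, Finset.sum_comm] at h2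
  simp_rw [parseval hg] at h2
  have h3 : ∀ β ∈ B.image (res q K), (n * ∑ y ∈ fib B K β, ((fib (fib B K β) S y).card : ℝ)) *
      P ^ (9 * (K.card + S.card)) ≤ n * (2 * B.card) * (fib B K β).card := by
    intro β _
    rw [mul_assoc, mul_assoc n, Finset.sum_mul]
    apply mul_le_mul_of_nonneg_left _ (by positivity)
    rw [mul_comm (2 * (B.card : ℝ)), ← nsmul_eq_mul, ← Finset.sum_const]
    apply Finset.sum_le_sum
    intro y hy
    rw [fib_fib B K S β y (mem_fib.1 hy).2]
    have := hB (K ∪ S) (Finset.union_subset hK hS) y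
    rwa [Finset.card_union_of_disjoint hd] at this
  have h4 := Finset.sum_le_sum h3
  rw [← Finset.sum_mul, ← Finset.mul_sum (B.image (res q K)) _ (n * (2 * B.card))] at h4
  have h5 : ∑ β ∈ B.image (res q K), ((fib B K β).card : ℝ) = B.card := by
    exact_mod_cast sum_card_fib q B K
  rw [h5] at h4
  set T := ∑ β ∈ B.image (res q K), n * ∑ y ∈ fib B K β, ((fib (fib B K β) S y).card : ℝ) with hT
  set c : ℝ := ((univ.filter fun x => BadRow g P B S K x).card : ℝ) with hc
  have h6 : c * (B.card : ℝ) ^ 2 * P ^ (9 * (K.card + S.card)) ≤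
      n * (2 * B.card) * B.card * P ^ (2 * e) := by
    calc c * (B.card : ℝ) ^ 2 * P ^ (9 * (K.card + S.card))
        ≤ T * P ^ (2 * e) * P ^ (9 * (K.card + S.card)) := by gcongr
      _ = T * P ^ (9 * (K.card + S.card)) * P ^ (2 * e) := by ring
      _ ≤ _ := by gcongr
  have h7 : P ^ (9 * (K.card + S.card)) = P ^ (7 * S.card) * P ^ (9 * K.card + 2 * S.card) := by
    rw [← pow_add]; congr 1; ring
  have h8 : P ^ (2 * e) = P ^ (5 * K.card) * P ^ (9 * K.card + 2 * S.card) := by
    rw [← pow_add]; congr 1; rw [he]; ring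
  rw [h7, h8] at h6
  have h9 : (c * P ^ (7 * S.card)) * ((B.card : ℝ) ^ 2 * P ^ (9 * K.card + 2 * S.card)) ≤
      (2 * n * P ^ (5 * K.card)) * ((B.card : ℝ) ^ 2 * P ^ (9 * K.card + 2 * S.card)) := by
    convert h6 using 1 <;> ring
  exact le_of_mul_le_mul_right h9 (by positivity)

open Classical in
theorem card_inter_badRow [Nonempty Q] {g : Q → Q → Bool} (hg : Orth g) {P : ℝ} (hP : 2 ≤ P)
    (hQ : (Fintype.card Q : ℝ) = P ^ 10)
    {A B : Finset (ι → Q)} {J S K : Finset ι} (hA : Dense P A J 4 7) (hB : Dense P B J 2 9)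
    (hBne : B.Nonempty) (hK : K ⊆ J) (hS : S ⊆ J) (hd : Disjoint K S) :
    ((A.filter fun x => BadRow g P B S K x).card : ℝ) ≤
      8 * A.card * ((1 / P) ^ S.card * (1 / P) ^ K.card) := by
  have hP0 : 0 < P := by linarith
  by_cases hne : (A.filter fun x => BadRow g P B S K x).Nonempty
  swap
  · rw [Finset.not_nonempty_iff_eq_empty.1 hne]
    simp only [card_empty, CharP.cast_eq_zero]
    positivity
  obtain ⟨x0, hx0⟩ := hne
  have h2K := badRow_two_mul hP hB hK (Finset.mem_filter.1 hx0).2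
  have hbad := card_badRow hg hP hB hBne hK hS hd
  set Bad := univ.filter fun x => BadRow g P B S K x with hBad
  set A1 := A.filter fun x => BadRow g P B S K x with hA1
  set n : ℝ := (Fintype.card Q : ℝ) ^ Fintype.card ι with hn
  have h1 : ∑ a ∈ A1, ((fib univ S a).card : ℝ) ≤ ∑ x ∈ Bad, ((fib A S x).card : ℝ) := by
    have e1 : ∀ a ∈ A1, ((fib univ S a).card : ℝ) =
        ∑ x ∈ Bad, if ∀ j ∈ S, a j = x j then (1 : ℝ) else 0 := by
      intro a ha
      rw [← Finset.sum_filter]
      simp only [sum_const, nsmul_eq_mul, mul_one, Nat.cast_inj]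
      congr 1
      ext x
      simp only [mem_fib, mem_univ, true_and, mem_filter, hBad]
      constructor
      · intro h
        refine ⟨?_, fun j hj => (h j hj).symm⟩
        obtain ⟨β, hβ⟩ := (Finset.mem_filter.1 ha).2
        refine ⟨β, ?_⟩
        simp_rw [chi_congr g h]
        exact hβ
      · intro h j hj
        exact (h.2 j hj).symm
    rw [Finset.sum_congr rfl e1, Finset.sum_comm]
    apply Finset.sum_le_sum
    intro x _
    rw [← Finset.sum_filter]
    simp only [sum_const, nsmul_eq_mul, mul_one, Nat.cast_le]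
    exact Finset.card_le_card (Finset.filter_subset_filter _ (Finset.filter_subset _ _))
  have h2 : (∑ a ∈ A1, ((fib univ S a).card : ℝ)) * P ^ (10 * S.card) = A1.card * n := by
    rw [Finset.sum_mul, ← nsmul_eq_mul, ← Finset.sum_const]
    apply Finset.sum_congr rfl
    intro a _
    rw [pow_mul, ← hQ, hn]
    exact_mod_cast card_fib_univ S a
  have h3 : (∑ x ∈ Bad, ((fib A S x).card : ℝ)) * P ^ (7 * S.card) ≤ Bad.card * (4 * A.card) := by
    rw [Finset.sum_mul, ← nsmul_eq_mul, ← Finset.sum_const]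
    exact Finset.sum_le_sum fun x _ => hA S hS x
  have hnpos : 0 < n := by rw [hn, hQ]; positivity
  have h4 : (A1.card : ℝ) * P ^ (4 * S.card) ≤ 8 * A.card * P ^ (5 * K.card) := by
    have h5 : (A1.card : ℝ) * n * P ^ (7 * S.card) * P ^ (7 * S.card) ≤
        2 * n * P ^ (5 * K.card) * (4 * A.card) * P ^ (10 * S.card) := by
      calc (A1.card : ℝ) * n * P ^ (7 * S.card) * P ^ (7 * S.card)
          = (∑ a ∈ A1, ((fib univ S a).card : ℝ)) * P ^ (7 * S.card) * P ^ (10 * S.card) *
            P ^ (7 * S.card) := by rw [← h2]; ring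
        _ ≤ (∑ x ∈ Bad, ((fib A S x).card : ℝ)) * P ^ (7 * S.card) * P ^ (10 * S.card) *
            P ^ (7 * S.card) := by gcongr
        _ ≤ Bad.card * (4 * A.card) * P ^ (10 * S.card) * P ^ (7 * S.card) := by gcongr
        _ = (Bad.card * P ^ (7 * S.card)) * (4 * A.card) * P ^ (10 * S.card) := by ring
        _ ≤ _ := by gcongr
    have h6 : P ^ (7 * S.card) * P ^ (7 * S.card) = P ^ (4 * S.card) * P ^ (10 * S.card) := by
      rw [← pow_add, ← pow_add]; congr 1; ring
    have h7 : ((A1.card : ℝ) * P ^ (4 * S.card)) * (n * P ^ (10 * S.card)) ≤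
        (8 * A.card * P ^ (5 * K.card)) * (n * P ^ (10 * S.card)) := by
      calc ((A1.card : ℝ) * P ^ (4 * S.card)) * (n * P ^ (10 * S.card))
          = A1.card * n * (P ^ (4 * S.card) * P ^ (10 * S.card)) := by ring
        _ = A1.card * n * P ^ (7 * S.card) * P ^ (7 * S.card) := by rw [← h6]; ring
        _ ≤ _ := h5
        _ = _ := by ring
    exact le_of_mul_le_mul_right h7 (by positivity)
  have h8 : P ^ (5 * K.card) * (P ^ S.card * P ^ K.card) ≤ P ^ (4 * S.card) := by
    rw [← pow_add, ← pow_add]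
    exact pow_le_pow_right₀ (by linarith) (by omega)
  rw [one_div_pow, one_div_pow, one_div_mul_one_div, mul_one_div, le_div_iff₀ (by positivity)]
  have h9 : ((A1.card : ℝ) * (P ^ S.card * P ^ K.card)) * P ^ (5 * K.card) ≤
      (8 * A.card) * P ^ (5 * K.card) := by
    calc ((A1.card : ℝ) * (P ^ S.card * P ^ K.card)) * P ^ (5 * K.card)
        = A1.card * (P ^ (5 * K.card) * (P ^ S.card * P ^ K.card)) := by ring
      _ ≤ A1.card * P ^ (4 * S.card) := by gcongr
      _ ≤ _ := h4
  exact le_of_mul_le_mul_right h9 (by positivity)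

open Classical in
theorem card_dang [Nonempty Q] {g : Q → Q → Bool} (hg : Orth g) {P : ℝ} (hP : 2 ≤ P)
    (hm : 64 * (Fintype.card ι : ℝ) ≤ P) (hQ : (Fintype.card Q : ℝ) = P ^ 10)
    {A B : Finset (ι → Q)} {J : Finset ι} (hA : Dense P A J 4 7) (hB : Dense P B J 2 9)
    (hBne : B.Nonempty) :
    (A.card : ℝ) ≤ 2 * (A.filter fun x => ¬ Dang g P B J x).card := by
  have hP0 : 0 < P := by linarith
  have hx : 2 * (Fintype.card ι : ℝ) * (1 / P) ≤ 1 / 32 := by
    rw [mul_one_div, div_le_iff₀ hP0]; linarith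
  have h1 : A.filter (fun x => Dang g P B J x) ⊆
      (J.powerset.erase ∅).biUnion fun S => (J.powerset.filter fun K => Disjoint K S).biUnion
        fun K => A.filter fun x => BadRow g P B S K x := by
    intro x hx
    obtain ⟨hxA, S, hS, hSne, K, hK, hd, hb⟩ := Finset.mem_filter.1 hx
    simp only [mem_biUnion, mem_erase, mem_powerset, mem_filter]
    exact ⟨S, ⟨hSne.ne_empty, hS⟩, K, ⟨hK, hd⟩, hxA, hb⟩
  have h2 : ((A.filter fun x => Dang g P B J x).card : ℝ) ≤
      ∑ S ∈ J.powerset.erase ∅, ∑ K ∈ J.powerset.filter (fun K => Disjoint K S),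
        ((A.filter fun x => BadRow g P B S K x).card : ℝ) := by
    have := (Finset.card_le_card h1).trans Finset.card_biUnion_le
    have h3 := this.trans (Finset.sum_le_sum fun S _ => Finset.card_biUnion_le)
    exact_mod_cast h3
  have h3 : ∀ S ∈ J.powerset.erase ∅, ∑ K ∈ J.powerset.filter (fun K => Disjoint K S),
        ((A.filter fun x => BadRow g P B S K x).card : ℝ) ≤ 16 * A.card * (1 / P) ^ S.card := by
    intro S hS
    have hSJ : S ⊆ J := Finset.mem_powerset.1 (Finset.mem_erase.1 hS).2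
    calc _ ≤ ∑ K ∈ J.powerset.filter (fun K => Disjoint K S),
          8 * A.card * ((1 / P) ^ S.card * (1 / P) ^ K.card) := by
          apply Finset.sum_le_sum
          intro K hK
          obtain ⟨h1, h2⟩ := Finset.mem_filter.1 hK
          exact card_inter_badRow hg hP hQ hA hB hBne (Finset.mem_powerset.1 h1) hSJ h2
      _ ≤ ∑ K ∈ J.powerset, 8 * A.card * ((1 / P) ^ S.card * (1 / P) ^ K.card) := by
          apply Finset.sum_le_sum_of_subset_of_nonneg (Finset.filter_subset _ _)
          intro K _ _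
          positivity
      _ = 8 * A.card * (1 / P) ^ S.card * ∑ K ∈ J.powerset, (1 / P) ^ K.card := by
          rw [Finset.mul_sum]
          apply Finset.sum_congr rfl
          intro K _
          ring
      _ ≤ 8 * A.card * (1 / P) ^ S.card * 2 := by
          have := sum_powerset_le (1 / P) (by positivity) (by linarith) J
          gcongr
      _ = _ := by ring
  have h4 := h2.trans (Finset.sum_le_sum h3)
  rw [← Finset.mul_sum] at h4
  have h5 := sum_powerset_erase_le (1 / P) (by positivity) (by linarith) J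
  have h6 : ((A.filter fun x => Dang g P B J x).card : ℝ) ≤ 16 * A.card * (1 / 32) :=
    h4.trans (by gcongr; exact h5.trans hx)
  have h7 := Finset.card_filter_add_card_filter_not (s := A) (fun x => Dang g P B J x)
  have h8 : ((A.filter fun x => Dang g P B J x).card : ℝ) +
      (A.filter fun x => ¬ Dang g P B J x).card = A.card := by exact_mod_cast h7
  linarith

/-- Columns that give the pattern `ζ` on `K` against the row `x`. -/
def pat (g : Q → Q → Bool) (B : Finset (ι → Q)) (K : Finset ι) (x : ι → Q) (ζ : ι → Bool) :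
    Finset (ι → Q) := B.filter fun y => ∀ j ∈ K, g (x j) (y j) = ζ j

theorem mem_pat {g : Q → Q → Bool} {B : Finset (ι → Q)} {K : Finset ι} {x : ι → Q}
    {ζ : ι → Bool} {y : ι → Q} : y ∈ pat g B K x ζ ↔ y ∈ B ∧ ∀ j ∈ K, g (x j) (y j) = ζ j := by
  simp [pat]

theorem card_pat (g : Q → Q → Bool) (F : Finset (ι → Q)) (K : Finset ι) (x : ι → Q)
    (ζ : ι → Bool) : (2 : ℝ) ^ K.card * (pat g F K x ζ).card =
      ∑ S ∈ K.powerset, (∏ j ∈ S, sb (ζ j)) * ∑ y ∈ F, chi g S x y := by
  have h1 : ∀ y, ∑ S ∈ K.powerset, (∏ j ∈ S, sb (ζ j)) * chi g S x y =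
      if ∀ j ∈ K, g (x j) (y j) = ζ j then (2 : ℝ) ^ K.card else 0 := by
    intro y
    have h2 := Finset.prod_one_add (f := fun j => sb (ζ j) * sb (g (x j) (y j))) K
    simp_rw [Finset.prod_mul_distrib] at h2
    unfold chi
    rw [← h2]
    simp_rw [one_add_sb]
    split_ifs with hh
    · rw [Finset.prod_congr rfl (g := fun _ => (2 : ℝ)) (fun j hj => by rw [if_pos (hh j hj)])]
      simp
    · push Not at hh
      obtain ⟨j, hj, hne⟩ := hh
      exact Finset.prod_eq_zero hj (by rw [if_neg hne])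
  simp_rw [Finset.mul_sum]
  rw [Finset.sum_comm]
  simp_rw [h1]
  rw [← Finset.sum_filter]
  simp only [sum_const, nsmul_eq_mul]
  rw [mul_comm]
  rfl

theorem card_pat_approx {g : Q → Q → Bool} {P : ℝ} (hP : 2 ≤ P)
    (hm : 64 * (Fintype.card ι : ℝ) ≤ P) {B : Finset (ι → Q)} {J K0 K : Finset ι} {x : ι → Q}
    (hx : ¬ Dang g P B J x) (hK0 : K0 ⊆ J) (hK : K ⊆ J \ K0) (ζ : ι → Bool) (β : ι → Q) :
    |(2 : ℝ) ^ K0.card * (pat g (fib B K β) K0 x ζ).card - (fib B K β).card| * P ^ (7 * K.card) ≤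
      B.card / 32 := by
  have hP0 : 0 < P := by linarith
  have hx2 : 2 * (Fintype.card ι : ℝ) * (1 / P) ≤ 1 / 32 := by
    rw [mul_one_div, div_le_iff₀ hP0]; linarith
  rw [card_pat, ← Finset.add_sum_erase _ _ (Finset.empty_mem_powerset K0)]
  have h0 : (∏ j ∈ (∅ : Finset ι), sb (ζ j)) * ∑ y ∈ fib B K β, chi g ∅ x y = (fib B K β).card := by
    simp [chi]
  rw [h0, add_sub_cancel_left]
  have h1 : ∀ S ∈ K0.powerset.erase ∅,
      |(∏ j ∈ S, sb (ζ j)) * ∑ y ∈ fib B K β, chi g S x y| * P ^ (7 * K.card) ≤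
        B.card * (1 / P) ^ S.card := by
    intro S hS
    obtain ⟨h1, h2⟩ := Finset.mem_erase.1 hS
    have hSK : S ⊆ K0 := Finset.mem_powerset.1 h2
    have hd : Disjoint K S := by
      rw [Finset.disjoint_left]
      intro j hj hj'
      exact (Finset.mem_sdiff.1 (hK hj)).2 (hSK hj')
    have h3 : ¬ BadRow g P B S K x := fun hb =>
      hx ⟨S, hSK.trans hK0, Finset.nonempty_iff_ne_empty.2 h1, K,
        hK.trans Finset.sdiff_subset, hd, hb⟩
    unfold BadRow at h3
    push Not at h3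
    have h4 := h3 β
    rw [abs_mul, Finset.abs_prod]
    simp only [abs_sb, prod_const_one, one_mul]
    rw [one_div_pow, mul_one_div, le_div_iff₀ (by positivity), mul_assoc, ← pow_add, add_comm]
    exact h4
  calc _ ≤ (∑ S ∈ K0.powerset.erase ∅,
        |(∏ j ∈ S, sb (ζ j)) * ∑ y ∈ fib B K β, chi g S x y|) * P ^ (7 * K.card) := by
        gcongr
        exact Finset.abs_sum_le_sum_abs _ _
    _ ≤ ∑ S ∈ K0.powerset.erase ∅, B.card * (1 / P) ^ S.card := by
        rw [Finset.sum_mul]
        exact Finset.sum_le_sum h1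
    _ = B.card * ∑ S ∈ K0.powerset.erase ∅, (1 / P) ^ S.card := by rw [Finset.mul_sum]
    _ ≤ B.card * (1 / 32) := by
        have := sum_powerset_erase_le (1 / P) (by positivity) (by linarith) K0
        gcongr
        exact this.trans hx2
    _ = _ := by ring

theorem fib_pat (g : Q → Q → Bool) (B : Finset (ι → Q)) (K0 K : Finset ι) (x β : ι → Q)
    (ζ : ι → Bool) : fib (pat g B K0 x ζ) K β = pat g (fib B K β) K0 x ζ := by
  ext y
  simp only [mem_fib, mem_pat]
  tauto

theorem xor_lemma {g : Q → Q → Bool} {P : ℝ} (hP : 2 ≤ P)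
    (hm : 64 * (Fintype.card ι : ℝ) ≤ P) {B : Finset (ι → Q)} {J K0 : Finset ι} {x : ι → Q}
    (hB : Dense P B J 2 9) (hx : ¬ Dang g P B J x) (hK0 : K0 ⊆ J) (ζ : ι → Bool) :
    (B.card : ℝ) ≤ 2 * 2 ^ K0.card * (pat g B K0 x ζ).card ∧
      Dense P (pat g B K0 x ζ) (J \ K0) 2 7 := by
  have hP0 : 0 < P := by linarith
  have h0 := card_pat_approx hP hm hx hK0 (Finset.empty_subset _) ζ x
  simp only [fib_empty, card_empty, mul_zero, pow_zero, mul_one] at h0
  have h1 := (abs_le.1 h0).1
  have hBn : (0 : ℝ) ≤ B.card := by positivity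
  refine ⟨by linarith, ?_⟩
  intro K hK β
  rcases K.eq_empty_or_nonempty with rfl | hne
  · simp only [fib_empty, card_empty, mul_zero, pow_zero, mul_one]
    have : (0 : ℝ) ≤ (pat g B K0 x ζ).card := by positivity
    linarith
  have h2 := card_pat_approx hP hm hx hK0 hK ζ β
  rw [← fib_pat] at h2
  have h3 := hB K (hK.trans Finset.sdiff_subset) β
  have h4 : P ^ (7 * K.card) * 4 ≤ P ^ (9 * K.card) := by
    have h5 : P ^ (7 * K.card + 2) ≤ P ^ (9 * K.card) :=
      pow_le_pow_right₀ (by linarith) (by have := hne.card_pos; omega)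
    refine le_trans ?_ h5
    rw [pow_add]
    gcongr
    nlinarith
  have h5 : ((fib B K β).card : ℝ) * P ^ (7 * K.card) ≤ B.card / 2 := by
    have : ((fib B K β).card : ℝ) * (P ^ (7 * K.card) * 4) ≤ (fib B K β).card * P ^ (9 * K.card) := by
      gcongr
    linarith
  have h6 : ((2 : ℝ) ^ K0.card * (fib (pat g B K0 x ζ) K β).card - (fib B K β).card) *
      P ^ (7 * K.card) ≤ B.card / 32 :=
    le_trans (by gcongr; exact le_abs_self _) h2
  have h7 : (2 : ℝ) ^ K0.card * ((fib (pat g B K0 x ζ) K β).card * P ^ (7 * K.card)) ≤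
      2 ^ K0.card * (2 * (pat g B K0 x ζ).card) := by nlinarith
  exact le_of_mul_le_mul_left h7 (by positivity)

end Pool.Agent.Lib.MP_8a52c3_lc.CL
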