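import Mathlib

/-! Definitions: the unary clique formula and semantic cutting planes refutations of it. -/

namespace Pool.Agent.Lib.MP_8a52c3_lc.CL

/-- The linear inequality `∑ v, L.1 v * x v ≥ L.2` holds at the zero-one point `x`. -/
def Holds {V : Type} [Fintype V] (L : (V → ℝ) × ℝ) (x : V → Bool) : Prop :=
  L.2 ≤ ∑ v, if x v = true then L.1 v else 0

/-- The constraints of the unary `k`-clique formula of `G`; the variable `(i, v)` says that `v` is
the `i`-th member of the clique. -/
def CliqueConstraint {N : ℕ} (G : SimpleGraph (Fin N)) (k : ℕ)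
    (C : (Fin k × Fin N → Bool) → Prop) : Prop :=
  (∃ i, ∀ x, C x ↔ ∃ v, x (i, v) = true) ∨
    (∃ i, ∀ x, C x ↔ ∀ u v, x (i, u) = true → x (i, v) = true → u = v) ∨
    ∃ i j u v, i ≠ j ∧ ¬ G.Adj u v ∧ ∀ x, C x ↔ (x (i, u) = false ∨ x (j, v) = false)

/-- `L` is a refutation with `S` lines: every line is implied on zero-one points by one constraint
or by two earlier lines, and some line has no zero-one solution. -/
def Refutes {N : ℕ} (G : SimpleGraph (Fin N)) (k S : ℕ)
    (L : Fin S → (Fin k × Fin N → ℝ) × ℝ) : Prop :=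
  (∀ i, (∃ C, CliqueConstraint G k C ∧ ∀ x, C x → Holds (L i) x) ∨
      ∃ j < i, ∃ j' < i, ∀ x, Holds (L j) x → Holds (L j') x → Holds (L i) x) ∧
    ∃ i, ∀ x, ¬ Holds (L i) x

end Pool.Agent.Lib.MP_8a52c3_lc.CL
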