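import Pool.Agent.Lib.MP_8a52c3_lc.CLBoost

/-! Dag-like lifting for triangles with an orthogonal gadget. -/

namespace Pool.Agent.Lib.MP_8a52c3_lc.CL

open Finset

set_option linter.unusedSectionVars false

variable {ι Q : Type} [Fintype ι] [DecidableEq ι] [Fintype Q] [DecidableEq Q]
variable {g : Q → Q → Bool} {Good : Finset ι → (ι → Bool) → Prop} {P : ℝ} {w : ℕ}

theorem Safe.mono {Λ : ℝ} {X Y X' Y' : Finset (ι → Q)} {T : (ι → Q) → (ι → Q) → Prop}
    (h : Safe g Good P Λ X Y T) (hX : X' ⊆ X) (hY : Y' ⊆ Y) : Safe g Good P Λ X' Y' T :=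
  fun A hA B hB => h A (hA.trans hX) B (hB.trans hY)

theorem st_top (hp : Par g Good P w) (h0 : ∃ ρ, Good ∅ ρ) {X Y : Finset (ι → Q)}
    (hX : P ^ (10 * Fintype.card ι) ≤ 2 * X.card) (hY : P ^ (10 * Fintype.card ι) ≤ 2 * Y.card) :
    St g Good P X Y 4 := by
  have hP := hp.two
  have hP0 : 0 < P := by linarith
  obtain ⟨ρ, hρ⟩ := h0
  have hN : 0 < P ^ (10 * Fintype.card ι) := by positivity
  have hc : ∀ Z : Finset (ι → Q), Cap P Z (∅ : Finset ι)ᶜ (P ^ (10 * Fintype.card ι)) := by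
    intro Z
    have := cap_of_cst hp.card hP0 (X := Z) (I := ∅) (fun _ _ _ _ j hj => by simp at hj)
    simpa using this
  have hne : ∀ Z : Finset (ι → Q), P ^ (10 * Fintype.card ι) ≤ 2 * Z.card → Z.Nonempty := by
    intro Z hZ
    rw [Finset.nonempty_iff_ne_empty]
    rintro rfl
    simp only [card_empty, CharP.cast_eq_zero, mul_zero] at hZ
    linarith
  have hd : ∀ Z : Finset (ι → Q), P ^ (10 * Fintype.card ι) ≤ 2 * Z.card →
      Dense P Z (∅ : Finset ι)ᶜ 1 9 := by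
    intro Z hZ K hK α
    rcases K.eq_empty_or_nonempty with rfl | hK0
    · simp [fib_empty]
    · have e1 := (hc Z K hK α).trans hZ
      have e2 : P ^ (9 * K.card) * 2 ≤ P ^ (10 * K.card) := by
        have e3 : P ^ (9 * K.card + 1) ≤ P ^ (10 * K.card) :=
          pow_le_pow_right₀ (by linarith) (by have := hK0.card_pos; omega)
        refine le_trans ?_ e3
        rw [pow_succ]
        gcongr
      have e4 : ((fib Z K α).card : ℝ) * (P ^ (9 * K.card) * 2) ≤
          (fib Z K α).card * P ^ (10 * K.card) := by gcongr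
      linarith
  refine ⟨∅, ⟨ρ, _, _, hρ, fun _ _ _ _ j hj => by simp at hj, hne X hX, hne Y hY, hc X, hc Y, ?_⟩,
    (hd X hX).weaken (by linarith) (by norm_num) (by norm_num), hd Y hY⟩
  simp only [card_empty, pow_zero, mul_one]
  calc _ ≤ (2 * X.card) * (2 * Y.card : ℝ) := by gcongr
    _ = _ := by ring

theorem lift (hp : Par g Good P w) (h0 : ∃ ρ, Good ∅ ρ) (r0 d : ℕ) {W μ : ℝ}
    (hW : 4 * Real.log (P ^ (10 * Fintype.card ι) + 1) ≤ W) (hW1 : 1 ≤ W)
    (hμ : 2 * (Fintype.card ι : ℝ) ≤ μ) (hμ1 : 1 ≤ μ)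
    (hlev : 64 * P ^ (4 * r0) * (16 ^ 4 * W ^ 2) ^ (2 * r0 + 1) * P ^ (38 * r0) ≤ (P / 2) ^ (w + 1))
    (hd : d ≤ w) (hleaf : 4 * P ^ (4 * r0) < (P / 2) ^ (w - d + 1))
    (S : ℕ) (a b : Fin S → (ι → Q) → ℝ)
    (hstep : ∀ i, (∃ I : Finset ι, I.card ≤ d ∧ ∀ x y, a i x < b i y → ∀ ρ, Good I ρ →
        ¬ ∀ j ∈ I, g (x j) (y j) = ρ j) ∨
      ∃ j < i, ∃ k < i, ∀ x y, a i x < b i y → a j x < b j y ∨ a k x < b k y)
    (hfin : ∃ i, ∀ x y, a i x < b i y) :
    P ^ r0 ≤ 2 * S * ((2 * W) ^ (2 * r0 + 1) * μ ^ (2 * r0)) := by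
  have hP := hp.two
  have hP0 : 0 < P := by linarith
  have hP1 : 1 ≤ P := by linarith
  set N : ℝ := P ^ (10 * Fintype.card ι) with hN
  set D : ℝ := (2 * W) ^ (2 * r0 + 1) * μ ^ (2 * r0) with hD
  have hN0 : 0 < N := by positivity
  have hD0 : 0 < D := by positivity
  have htri : 8 * (4 * P ^ (4 * r0)) < (P / 2) ^ (w + 1) := by
    refine lt_of_lt_of_le ?_ hlev
    have e1 : (1 : ℝ) ≤ (16 ^ 4 * W ^ 2) ^ (2 * r0 + 1) := one_le_pow₀ (by nlinarith)
    have e2 : (1 : ℝ) ≤ P ^ (38 * r0) := one_le_pow₀ hP1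
    have e3 : (0 : ℝ) < P ^ (4 * r0) := by positivity
    calc 8 * (4 * P ^ (4 * r0)) < 64 * P ^ (4 * r0) * 1 * 1 := by linarith
      _ ≤ _ := by gcongr
  have key : ∀ n ≤ S, ∃ X Y : Finset (ι → Q), (N - X.card) * P ^ r0 ≤ n * (N * D) ∧
      (N - Y.card) * P ^ r0 ≤ n * (N * D) ∧
      ∀ i : Fin S, i.val < n → Safe g Good P (64 * P ^ (4 * r0)) X Y fun x y => a i x < b i y := by
    intro n
    induction n with
    | zero =>
      intro _
      have e : ((univ : Finset (ι → Q)).card : ℝ) = N := by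
        rw [hN, pow_mul, ← hp.card, Finset.card_univ, Fintype.card_fun]
        push_cast; rfl
      exact ⟨univ, univ, by rw [e]; simp, by rw [e]; simp, fun i hi => absurd hi (by omega)⟩
    | succ n ih =>
      intro hn
      obtain ⟨X, Y, h1, h2, h3⟩ := ih (by omega)
      set i : Fin S := ⟨n, by omega⟩ with hi
      have hs : Safe g Good P (4 * P ^ (4 * r0)) X Y fun x y => a i x < b i y := by
        intro A hA B hB hT hst
        rcases hstep i with ⟨I, hI, hbad⟩ | ⟨j, hj, k, hk, hjk⟩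
        · obtain ⟨x, hx, y, hy, ρ, e1, e2⟩ := hst.leaf hp hd hleaf I hI
          exact hbad x y (hT x hx y hy) ρ e1 e2
        · obtain ⟨A', hA', B', hB', e1, e2⟩ := hst.triangle hp htri (a j) (b j)
          have e3 : 16 * (4 * P ^ (4 * r0)) = 64 * P ^ (4 * r0) := by ring
          rw [e3] at e1
          rcases e2 with e2 | e2
          · exact h3 j hj A' (hA'.trans hA) B' (hB'.trans hB) e2 e1
          · exact h3 k hk A' (hA'.trans hA) B' (hB'.trans hB) (fun x hx y hy =>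
              (hjk x y (hT x (hA' hx) y (hB' hy))).resolve_left (e2 x hx y hy)) e1
      obtain ⟨E1, E2, e1, e2, e3⟩ := boost hp r0 hW hW1 hμ hμ1 hlev (a i) (b i) X Y hs
      have hsd : ∀ Z E : Finset (ι → Q), (Z.card : ℝ) - E.card ≤ (Z \ E).card := by
        intro Z E
        have := Finset.le_card_sdiff E Z
        have e : Z.card ≤ (Z \ E).card + E.card := by omega
        have e' : (Z.card : ℝ) ≤ (Z \ E).card + E.card := by exact_mod_cast e
        linarith
      have hpp : 0 < P ^ r0 := by positivity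
      refine ⟨X \ E1, Y \ E2, ?_, ?_, fun j hj => ?_⟩
      · have := hsd X E1
        push_cast
        nlinarith
      · have := hsd Y E2
        push_cast
        nlinarith
      · rcases Nat.lt_succ_iff_lt_or_eq.1 hj with hj | hj
        · exact (h3 j hj).mono Finset.sdiff_subset Finset.sdiff_subset
        · have : j = i := Fin.ext hj
          rw [this]; exact e3
  obtain ⟨X, Y, h1, h2, h3⟩ := key S le_rfl
  obtain ⟨i, hi⟩ := hfin
  by_contra hc
  push Not at hc
  have hpp : 0 < P ^ r0 := by positivity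
  have hh : ∀ Z : Finset (ι → Q), (N - Z.card) * P ^ r0 ≤ S * (N * D) → N ≤ 2 * Z.card := by
    intro Z hZ
    have e1 : 2 * (N - Z.card) * P ^ r0 ≤ N * P ^ r0 := by nlinarith
    have e2 := le_of_mul_le_mul_right e1 hpp
    linarith
  have hst := st_top hp h0 (hh X h1) (hh Y h2)
  refine h3 i i.2 X (subset_refl _) Y (subset_refl _) (fun x _ y _ => hi x y)
    (Or.inl (hst.mono ?_))
  have : (1 : ℝ) ≤ P ^ (4 * r0) := one_le_pow₀ hP1
  linarith

end Pool.Agent.Lib.MP_8a52c3_lc.CL
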