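import Pool.Agent.Lib.MP_8a52c3_lc.CLDefs
import Pool.Agent.Lib.MP_8a52c3_lc.CLBase
import Pool.Agent.Lib.MP_8a52c3_lc.CLLift

/-! The graph of a lifted parity system. -/

namespace Pool.Agent.Lib.MP_8a52c3_lc.CL

open Finset

set_option linter.unusedSectionVars false

variable {ι κ Q : Type} [Fintype ι] [DecidableEq ι] [Fintype κ] [DecidableEq κ] [Fintype Q]
  [DecidableEq Q] {k : ℕ}

/-- Compatibility of two vertices. -/
def Rel (g : Q → Q → Bool) (φ : κ × Fin 6 → ι) (e : κ → Bool) (con : Fin k → κ)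
    (side : Fin k → Bool) (a b : Fin k × (Fin 6 → Q)) : Prop :=
  (side a.1 = side b.1 → ∀ s s', φ (con a.1, s) = φ (con b.1, s') → a.2 s = b.2 s') ∧
    (side a.1 ≠ side b.1 → con a.1 = con b.1 → ∏ s, sb (g (a.2 s) (b.2 s)) = sb (e (con a.1)))

/-- The graph of the lifted system. -/
def liftGraph (g : Q → Q → Bool) (φ : κ × Fin 6 → ι) (e : κ → Bool) (con : Fin k → κ)
    (side : Fin k → Bool) : SimpleGraph (Fin k × (Fin 6 → Q)) where
  Adj a b := a.1 ≠ b.1 ∧ Rel g φ e con side a b ∧ Rel g φ e con side b a ∧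
    Rel g φ e con side a a ∧ Rel g φ e con side b b
  symm := ⟨fun _ _ h => ⟨h.1.symm, h.2.2.1, h.2.1, h.2.2.2.2, h.2.2.2.1⟩⟩
  loopless := ⟨fun _ h => h.1 rfl⟩

theorem liftGraph_cliqueFree [Nonempty Q] (g : Q → Q → Bool) (φ : κ × Fin 6 → ι) (e : κ → Bool)
    (con : Fin k → κ) (side : Fin k → Bool) (hsurj : ∀ c b, ∃ i, con i = c ∧ side i = b)
    (hunsat : ∀ z : ι → Bool, ∃ c, ¬ PSat φ e c z) : (liftGraph g φ e con side).CliqueFree k := by
  classical
  intro s hs
  obtain ⟨h1, h2⟩ := hs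
  have hinj : Set.InjOn Prod.fst (s : Set (Fin k × (Fin 6 → Q))) := by
    intro a ha b hb hab
    by_contra hne
    exact (h1 ha hb hne).1 hab
  have himg : s.image Prod.fst = univ := by
    apply Finset.eq_univ_of_card
    rw [Finset.card_image_of_injOn hinj, h2, Fintype.card_fin]
  have hu : ∀ i : Fin k, ∃ u, (i, u) ∈ s := by
    intro i
    have : i ∈ s.image Prod.fst := by rw [himg]; exact mem_univ _
    obtain ⟨a, ha, rfl⟩ := Finset.mem_image.1 this
    exact ⟨a.2, ha⟩
  choose u hu using hu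
  have hrel : ∀ i j, Rel g φ e con side (i, u i) (j, u j) := by
    intro i j
    by_cases hij : i = j
    · subst hij
      obtain ⟨j, _, hj⟩ := hsurj (con i) (!side i)
      have hne : i ≠ j := by
        rintro rfl
        simp at hj
      exact (h1 (hu i) (hu j) (fun h => hne (Prod.ext_iff.1 h).1)).2.2.2.1
    · exact (h1 (hu i) (hu j) (fun h => hij (Prod.ext_iff.1 h).1)).2.1
  have hx : ∀ b : Bool, ∃ x : ι → Q, ∀ i s, side i = b → u i s = x (φ (con i, s)) := by
    intro b
    have : ∀ j : ι, ∃ q : Q, ∀ i s, side i = b → φ (con i, s) = j → u i s = q := by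
      intro j
      by_cases hj : ∃ i s, side i = b ∧ φ (con i, s) = j
      · obtain ⟨i0, s0, e1, e2⟩ := hj
        exact ⟨u i0 s0, fun i s e3 e4 => (hrel i i0).1 (e3.trans e1.symm) s s0 (e4.trans e2.symm)⟩
      · exact ⟨Classical.arbitrary Q, fun i s e3 e4 => absurd ⟨i, s, e3, e4⟩ hj⟩
    choose x hx using this
    exact ⟨x, fun i s h => hx _ i s h rfl⟩
  obtain ⟨x, hx1⟩ := hx false
  obtain ⟨y, hy1⟩ := hx true
  obtain ⟨c, hc⟩ := hunsat fun j => g (x j) (y j)
  obtain ⟨i, hi1, hi2⟩ := hsurj c false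
  obtain ⟨j, hj1, hj2⟩ := hsurj c true
  have := (hrel i j).2 (by simp [hi2, hj2]) (hi1.trans hj1.symm)
  apply hc
  unfold PSat
  simp only at this
  rw [← hi1, ← this]
  apply Finset.prod_congr rfl
  intro s _
  rw [hx1 i s hi2, hy1 j s hj2, hj1, hi1]

/-- The vertex chosen in part `i` by the pair `(x, y)`. -/
def vert (φ : κ × Fin 6 → ι) (con : Fin k → κ) (side : Fin k → Bool) (x y : ι → Q) (i : Fin k) :
    Fin k × (Fin 6 → Q) := (i, fun s => (if side i then y else x) (φ (con i, s)))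

theorem vert_rel {g : Q → Q → Bool} (hsym : ∀ a b, g a b = g b a) (φ : κ × Fin 6 → ι)
    (e : κ → Bool) (con : Fin k → κ) (side : Fin k → Bool) (x y : ι → Q) (i j : Fin k)
    (h : con i = con j → PSat φ e (con i) fun t => g (x t) (y t)) :
    Rel g φ e con side (vert φ con side x y i) (vert φ con side x y j) := by
  constructor
  · intro h1 s s' h2
    simp only [vert] at h1 h2 ⊢
    rw [h1, h2]
  · intro h1 h2
    simp only [vert] at h1 h2 ⊢
    have h3 := h h2
    unfold PSat at h3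
    rw [← h3]
    apply Finset.prod_congr rfl
    intro s _
    rw [← h2]
    cases hi : side i <;> cases hj : side j <;> simp_all

theorem graph_bound {g : Q → Q → Bool} {φ : κ × Fin 6 → ι} {e : κ → Bool} {r w : ℕ} {P : ℝ}
    (hp : Par g (PGood φ e r) P w) (hr : 1 ≤ r) (h0 : ∃ ρ, PGood φ e r ∅ ρ) (r0 : ℕ) {W μ : ℝ}
    (hW : 4 * Real.log (P ^ (10 * Fintype.card ι) + 1) ≤ W) (hW1 : 1 ≤ W)
    (hμ : 2 * (Fintype.card ι : ℝ) ≤ μ) (hμ1 : 1 ≤ μ)
    (hlev : 64 * P ^ (4 * r0) * (16 ^ 4 * W ^ 2) ^ (2 * r0 + 1) * P ^ (38 * r0) ≤ (P / 2) ^ (w + 1))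
    (hd : 6 ≤ w) (hleaf : 4 * P ^ (4 * r0) < (P / 2) ^ (w - 6 + 1))
    (con : Fin k → κ) (side : Fin k → Bool) {N : ℕ} (f : Fin k × (Fin 6 → Q) ↪ Fin N) (S : ℕ)
    (L : Fin S → (Fin k × Fin N → ℝ) × ℝ)
    (hL : Refutes ((liftGraph g φ e con side).map f) k S L) :
    P ^ r0 ≤ 2 * S * ((2 * W) ^ (2 * r0 + 1) * μ ^ (2 * r0)) := by
  classical
  let asg : (ι → Q) → (ι → Q) → Fin k × Fin N → Bool :=
    fun x y p => decide (p.2 = f (vert φ con side x y p.1))
  let a : Fin S → (ι → Q) → ℝ := fun n x =>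
    ∑ i, if side i then 0 else (L n).1 (i, f (i, fun s => x (φ (con i, s))))
  let b : Fin S → (ι → Q) → ℝ := fun n y =>
    (L n).2 - ∑ i, if side i then (L n).1 (i, f (i, fun s => y (φ (con i, s)))) else 0
  have hab : ∀ n x y, a n x < b n y ↔ ¬ Holds (L n) (asg x y) := by
    intro n x y
    unfold Holds
    rw [not_le, Fintype.sum_prod_type]
    simp only [a, b, asg, decide_eq_true_eq, Finset.sum_ite_eq', mem_univ, if_true]
    rw [lt_sub_iff_add_lt, ← Finset.sum_add_distrib]
    have : ∀ i, ((if side i then 0 else (L n).1 (i, f (i, fun s => x (φ (con i, s))))) +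
        if side i then (L n).1 (i, f (i, fun s => y (φ (con i, s)))) else 0) =
        (L n).1 (i, f (vert φ con side x y i)) := by
      intro i
      unfold vert
      cases side i <;> simp
    simp_rw [this]
  refine lift hp h0 r0 6 hW hW1 hμ hμ1 hlev hd hleaf S a b (fun n => ?_) ?_
  · rcases hL.1 n with ⟨C, hC, hCL⟩ | ⟨j, hj, j', hj', h⟩
    · left
      rcases hC with ⟨i, hi⟩ | ⟨i, hi⟩ | ⟨i, j, u, v, hij, huv, hi⟩
      · refine ⟨∅, by simp, fun x y h => absurd (hCL _ ((hi _).2 ?_)) ((hab n x y).1 h)⟩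
        exact ⟨f (vert φ con side x y i), by simp [asg]⟩
      · refine ⟨∅, by simp, fun x y h => absurd (hCL _ ((hi _).2 ?_)) ((hab n x y).1 h)⟩
        intro u v h1 h2
        simp only [asg, decide_eq_true_eq] at h1 h2
        rw [h1, h2]
      · refine ⟨univ.image fun s => φ (con i, s), Finset.card_image_le.trans (by simp),
          fun x y h ρ hρ hpat => (hab n x y).1 h (hCL _ ((hi _).2 ?_))⟩
        by_contra hc
        simp only [asg, decide_eq_false_iff_not, not_or, not_not] at hc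
        obtain ⟨z, hz1, hz2⟩ := hρ {con i} (by simpa using hr)
        have hsat : PSat φ e (con i) fun t => g (x t) (y t) := by
          have := hz2 (con i) (by simp)
          unfold PSat at this ⊢
          rw [← this]
          apply Finset.prod_congr rfl
          intro s _
          have hm : φ (con i, s) ∈ univ.image fun s => φ (con i, s) :=
            Finset.mem_image_of_mem _ (mem_univ s)
          rw [hz1 _ hm, ← hpat _ hm]
        apply huv
        rw [hc.1, hc.2, SimpleGraph.map_adj_apply]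
        refine ⟨hij, vert_rel hp.sym φ e con side x y i j fun _ => hsat,
          vert_rel hp.sym φ e con side x y j i fun h => by rw [h]; exact hsat,
          vert_rel hp.sym φ e con side x y i i fun _ => hsat, ?_⟩
        exact ⟨fun _ s s' h2 => by simp only [vert] at h2 ⊢; rw [h2], fun h => absurd rfl h⟩
    · right
      refine ⟨j, hj, j', hj', fun x y hxy => ?_⟩
      rw [hab] at hxy
      rw [hab, hab]
      by_contra hc
      push Not at hc
      exact hxy (h _ hc.1 hc.2)
  · obtain ⟨n, hn⟩ := hL.2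
    exact ⟨n, fun x y => (hab n x y).2 (hn _)⟩

end Pool.Agent.Lib.MP_8a52c3_lc.CL
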