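import Pool.Agent.Lib.MP_8a52c3_lc.CLGraph

/-! Choice of parameters. -/

namespace Pool.Agent.Lib.MP_8a52c3_lc.CL

open Finset

theorem exists_graph (k N γ m r0 : ℕ) (hk : 2 * (m + 1) ≤ k) (hm : 2000000 * r0 ≤ m) (hr0 : 1 ≤ r0)
    (hT : k ≤ 2 ^ γ) (hN : k * 2 ^ (1200 * γ) ≤ N) :
    ∃ G : SimpleGraph (Fin N), G.CliqueFree k ∧
      ∀ S L, Refutes G k S L → (2 ^ γ) ^ (3 * r0) ≤ S := by
  classical
  obtain ⟨φ, hφ⟩ := exists_expand m (2 * (50 * r0)) (by omega) (by omega)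
  obtain ⟨e, he⟩ := exists_unsat φ (by simp)
  let con : Fin k → Fin (m + 1) := fun i => ⟨min (i / 2) m, by omega⟩
  let side : Fin k → Bool := fun i => decide (i.val % 2 = 1)
  have hsurj : ∀ c b, ∃ i, con i = c ∧ side i = b := by
    intro c b
    have hc := c.2
    cases b
    · exact ⟨⟨2 * c, by omega⟩, Fin.ext (by simp only [con]; omega), by simp [side]⟩
    · exact ⟨⟨2 * c + 1, by omega⟩, Fin.ext (by simp only [con]; omega), by simp [side]⟩
  obtain ⟨f⟩ : Nonempty (Fin k × (Fin 6 → Fin (200 * γ) → Bool) ↪ Fin N) := by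
    apply Function.Embedding.nonempty_of_card_le
    simp only [Fintype.card_prod, Fintype.card_fin, Fintype.card_fun, Fintype.card_bool]
    rw [← pow_mul]
    have : 200 * γ * 6 = 1200 * γ := by ring
    rw [this]; exact hN
  have : Nonempty (Fin k) := ⟨⟨0, by omega⟩⟩
  refine ⟨(liftGraph ip φ e con side).map f, SimpleGraph.cliqueFree_map_iff.2
    (liftGraph_cliqueFree ip φ e con side hsurj he), fun S L hL => ?_⟩
  set T : ℝ := 2 ^ γ with hTdef
  have hTk : (k : ℝ) ≤ T := by rw [hTdef]; exact_mod_cast hT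
  have hmT : 2 * (m : ℝ) ≤ T := by
    refine le_trans ?_ hTk
    have : 2 * m ≤ k := by omega
    exact_mod_cast this
  have hm2 : (2000000 : ℝ) ≤ m := by
    have : 2000000 ≤ m := by omega
    exact_mod_cast this
  have hT1 : (4000000 : ℝ) ≤ T := by linarith
  have hT0 : 0 < T := by linarith
  have hγT : (γ : ℝ) ≤ T := by
    rw [hTdef]; exact_mod_cast (Nat.lt_two_pow_self (n := γ)).le
  have hpw : ∀ i j : ℕ, i ≤ j → T ^ i ≤ T ^ j := fun i j h => pow_le_pow_right₀ (by linarith) h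
  set P : ℝ := T ^ 20 with hP
  have hT2 : T ^ 2 ≤ P := hpw 2 20 (by norm_num)
  have hP64 : 64 < P := by nlinarith
  have hp : Par (ip (b := 200 * γ)) (PGood φ e (50 * r0)) P (2 * (50 * r0)) :=
    { ne := inferInstance
      orth := orth_ip _
      sym := ip_comm
      two := by linarith
      big := by rw [Fintype.card_fin]; nlinarith
      card := by
        simp only [Fintype.card_fun, Fintype.card_fin, Fintype.card_bool]
        rw [hP, hTdef, ← pow_mul, ← pow_mul]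
        push_cast
        congr 1; ring
      down := pgood_down
      ext := pgood_ext hφ }
  have hPq : P ≤ (P / 2) ^ 2 := by nlinarith
  have hq : ∀ i j : ℕ, 2 * i ≤ j → P ^ i ≤ (P / 2) ^ j := by
    intro i j h
    calc P ^ i ≤ ((P / 2) ^ 2) ^ i := by gcongr
      _ = (P / 2) ^ (2 * i) := by rw [← pow_mul]
      _ ≤ _ := pow_le_pow_right₀ (by linarith) h
  have key := graph_bound hp (by omega) ⟨_, pgood_empty e hφ⟩ r0 (W := T ^ 3) (μ := T ^ 2)
    (by
      rw [Fintype.card_fin]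
      have e1 : P ^ (10 * m) + 1 ≤ 2 ^ (200 * γ * m + 1) := by
        have e2 : P ^ (10 * m) = 2 ^ (200 * γ * m) := by
          rw [hP, hTdef, ← pow_mul, ← pow_mul]; congr 1; ring
        have e3 : (1 : ℝ) ≤ 2 ^ (200 * γ * m) := one_le_pow₀ (by norm_num)
        rw [e2, pow_succ]; linarith
      have e4 := Real.log_le_log (by positivity) e1
      rw [Real.log_pow] at e4
      have e5 : Real.log 2 ≤ 1 := by
        have := Real.log_two_lt_d9; linarith
      have e6 : ((200 * γ * m + 1 : ℕ) : ℝ) ≤ 201 * T ^ 2 := by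
        push_cast
        have : (γ : ℝ) * m ≤ T * T := by gcongr; linarith
        nlinarith
      have e7 : ((200 * γ * m + 1 : ℕ) : ℝ) * Real.log 2 ≤ 201 * T ^ 2 * 1 := by
        gcongr
      nlinarith [sq_nonneg T])
    (one_le_pow₀ (by linarith)) (by rw [Fintype.card_fin]; nlinarith) (one_le_pow₀ (by linarith))
    (by
      have e1 : (16 : ℝ) ^ 4 * (T ^ 3) ^ 2 ≤ P := by
        calc (16 : ℝ) ^ 4 * (T ^ 3) ^ 2 ≤ T * (T ^ 3) ^ 2 := by gcongr; linarith
          _ = T ^ 7 := by ring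
          _ ≤ P := hpw 7 20 (by norm_num)
      calc 64 * P ^ (4 * r0) * (16 ^ 4 * (T ^ 3) ^ 2) ^ (2 * r0 + 1) * P ^ (38 * r0)
          ≤ P * P ^ (4 * r0) * P ^ (2 * r0 + 1) * P ^ (38 * r0) := by gcongr
        _ = P ^ (44 * r0 + 2) := by ring
        _ ≤ _ := hq _ _ (by omega))
    (by omega)
    (by
      calc 4 * P ^ (4 * r0) < P * P ^ (4 * r0) := by gcongr; linarith
        _ = P ^ (4 * r0 + 1) := by ring
        _ ≤ _ := hq _ _ (by omega))
    con side f S L hL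
  have e1 : (2 * T ^ 3) ^ (2 * r0 + 1) * (T ^ 2) ^ (2 * r0) ≤ T ^ (16 * r0) := by
    calc (2 * T ^ 3) ^ (2 * r0 + 1) * (T ^ 2) ^ (2 * r0)
        ≤ (T * T ^ 3) ^ (2 * r0 + 1) * (T ^ 2) ^ (2 * r0) := by gcongr; linarith
      _ = T ^ (12 * r0 + 4) := by ring
      _ ≤ _ := hpw _ _ (by omega)
  have e2 : T ^ (3 * r0) * (2 * T ^ (16 * r0)) ≤ S * (2 * T ^ (16 * r0)) := by
    calc T ^ (3 * r0) * (2 * T ^ (16 * r0)) ≤ T ^ (3 * r0) * (T * T ^ (16 * r0)) := by
          gcongr; linarith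
      _ = T ^ (19 * r0 + 1) := by ring
      _ ≤ T ^ (20 * r0) := hpw _ _ (by omega)
      _ = P ^ r0 := pow_mul T 20 r0
      _ ≤ _ := key
      _ ≤ 2 * S * T ^ (16 * r0) := by gcongr
      _ = _ := by ring
  have e3 := le_of_mul_le_mul_right e2 (by positivity)
  rw [hTdef] at e3
  exact_mod_cast e3

theorem clique_lower (C k N : ℕ) (hC : 10000000000 ≤ C) (hk : C ≤ k) (hN : k ^ C ≤ N) :
    ∃ G : SimpleGraph (Fin N), G.CliqueFree k ∧ ∀ S L, Refutes G k S L → N ^ k ≤ S ^ C := by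
  classical
  have hex : ∃ γ, N < k * 2 ^ (1200 * (γ + 1)) := by
    refine ⟨N, ?_⟩
    calc N < 2 ^ N := Nat.lt_two_pow_self
      _ ≤ 2 ^ (1200 * (N + 1)) := Nat.pow_le_pow_right (by norm_num) (by omega)
      _ ≤ _ := Nat.le_mul_of_pos_left _ (by omega)
  set γ := Nat.find hex with hγ
  have h1 : N < k * 2 ^ (1200 * (γ + 1)) := Nat.find_spec hex
  have hkN : k ≤ N := le_trans (Nat.le_self_pow (by omega) k) hN
  have h2 : k * 2 ^ (1200 * γ) ≤ N := by
    rcases Nat.eq_zero_or_pos γ with h0 | h0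
    · rw [h0]; simpa using hkN
    · have := Nat.find_min hex (m := γ - 1) (by omega)
      rw [not_lt, Nat.sub_add_cancel h0] at this
      exact this
  have h3 : ∀ T : ℕ, 2 ≤ T → k ≤ T → 2 ^ γ ≤ T → N < T ^ 2401 := by
    intro T t1 t2 t3
    calc N < k * 2 ^ (1200 * (γ + 1)) := h1
      _ = k * ((2 ^ γ) ^ 1200 * 2 ^ 1200) := by
          rw [← pow_mul, ← pow_add]; congr 2; ring
      _ ≤ T * (T ^ 1200 * T ^ 1200) := by gcongr
      _ = T ^ 2401 := by rw [← pow_add, ← pow_succ']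
  have hT : k ≤ 2 ^ γ := by
    by_contra hc
    have e1 := h3 k (by omega) le_rfl (by omega)
    have e2 : k ^ 2401 ≤ k ^ C := Nat.pow_le_pow_right (by omega) (by omega)
    omega
  obtain ⟨G, hG1, hG2⟩ := exists_graph k N γ (k / 2 - 1) ((k / 2 - 1) / 2000000) (by omega)
    (by omega) (by omega) hT h2
  refine ⟨G, hG1, fun S L hL => ?_⟩
  have h4 := hG2 S L hL
  have h5 := h3 (2 ^ γ) (by omega) hT le_rfl
  generalize 2 ^ γ = T at h4 h5 hT
  set r0 := (k / 2 - 1) / 2000000 with hr0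
  have h6 : 2401 * k ≤ 3 * r0 * C := by
    have e1 : k ≤ 5000000 * r0 := by omega
    calc 2401 * k ≤ 3 * r0 * 10000000000 := by omega
      _ ≤ _ := Nat.mul_le_mul_left _ hC
  calc N ^ k ≤ (T ^ 2401) ^ k := Nat.pow_le_pow_left h5.le _
    _ = T ^ (2401 * k) := by rw [← pow_mul]
    _ ≤ T ^ (3 * r0 * C) := Nat.pow_le_pow_right (by omega) h6
    _ = (T ^ (3 * r0)) ^ C := by rw [← pow_mul]
    _ ≤ S ^ C := Nat.pow_le_pow_left h4 _

end Pool.Agent.Lib.MP_8a52c3_lc.CL
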