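import Pool.Agent.Lib.MP_8a52c3_lc.CLState

/-! Peeling an ordered set into structured cells, and the error sets. -/

namespace Pool.Agent.Lib.MP_8a52c3_lc.CL

open Finset

set_option linter.unusedSectionVars false

variable {ι Q : Type} [Fintype ι] [DecidableEq ι] [Fintype Q] [DecidableEq Q]

/-- All points of `X` agree on `I`. -/
def Cst (X : Finset (ι → Q)) (I : Finset ι) : Prop := ∀ x ∈ X, ∀ x' ∈ X, ∀ j ∈ I, x j = x' j

/-- A family of cells that serves every threshold. -/
def PeelFam (P : ℝ) (J : Finset ι) (f : (ι → Q) → ℝ) (X : Finset (ι → Q))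
    (F : Finset (Finset (ι → Q) × Finset ι)) : Prop :=
  (∀ c ∈ F, c.1 ⊆ X ∧ c.2 ⊆ J ∧ Cst c.1 c.2) ∧
  (∑ c ∈ F, 1 / P ^ (9 * c.2.card) ≤ 4 * Real.log (X.card + 1)) ∧
  ∀ θ : ℝ, ∀ x ∈ X, f x ≤ θ → ∃ c ∈ F, x ∈ c.1 ∧ (c.2 = ∅ → ∃ R ⊆ c.1, (∀ y ∈ R, f y ≤ θ) ∧
    (c.1.card : ℝ) ≤ 2 * R.card ∧ Dense P R J 1 9)

theorem log_step (N N' : ℕ) :
    4 * Real.log (N' + 1) + 4 * ((N : ℝ) - N') / (N + 1) ≤ 4 * Real.log (N + 1) := by
  have h1 : (0 : ℝ) < N' + 1 := by positivity
  have h2 : (0 : ℝ) < N + 1 := by positivity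
  have h3 := Real.log_le_sub_one_of_pos (div_pos h1 h2)
  rw [Real.log_div h1.ne' h2.ne'] at h3
  have h4 : ((N' : ℝ) + 1) / (N + 1) - 1 = -(((N : ℝ) - N') / (N + 1)) := by
    field_simp; ring
  rw [h4] at h3
  rw [mul_div_assoc]
  linarith

theorem sum_insert_le {α : Type} [DecidableEq α] (s : Finset α) (a : α) (f : α → ℝ)
    (h : 0 ≤ f a) : ∑ x ∈ insert a s, f x ≤ f a + ∑ x ∈ s, f x := by
  by_cases ha : a ∈ s
  · rw [Finset.insert_eq_of_mem ha]; linarith
  · rw [Finset.sum_insert ha]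

theorem exists_peel {P : ℝ} (hP : 0 < P) (J : Finset ι) (f : (ι → Q) → ℝ) (X : Finset (ι → Q)) :
    ∃ F, PeelFam P J f X F := by
  classical
  induction' hN : X.card using Nat.strong_induction_on with N ih generalizing X
  rcases X.eq_empty_or_nonempty with rfl | hne
  · exact ⟨∅, by simp, by simp, by simp⟩
  have hpos := hne.card_pos
  obtain ⟨T, h1, h2, h3⟩ := exists_lower X f ((X.card + 1) / 2) (by omega)
  have hT2 : X.card ≤ 2 * T.card := by omega
  have hT2' : (X.card : ℝ) ≤ 2 * T.card := by exact_mod_cast hT2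
  have hN0 : (1 : ℝ) ≤ X.card := by exact_mod_cast hpos
  by_cases hd : Dense P T J 1 9
  · have hT : T.Nonempty := by rw [← Finset.card_pos]; omega
    obtain ⟨t0, ht0, hmax⟩ := Finset.exists_max_image T f hT
    have hc : (T.erase t0).card = T.card - 1 := Finset.card_erase_of_mem ht0
    obtain ⟨F, g1, g2, g3⟩ := ih (T.erase t0).card (by omega) (T.erase t0) rfl
    have hsub : T.erase t0 ⊆ X := (Finset.erase_subset _ _).trans h1
    refine ⟨insert (X, ∅) F, ?_, ?_, ?_⟩
    · intro c hc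
      rcases Finset.mem_insert.1 hc with rfl | hc
      · exact ⟨subset_refl _, Finset.empty_subset _, fun _ _ _ _ j hj => by simp at hj⟩
      · exact ⟨(g1 c hc).1.trans hsub, (g1 c hc).2⟩
    · refine (sum_insert_le _ _ _ (by positivity)).trans ?_
      have e1 := log_step X.card (T.erase t0).card
      have e2 : 2 * (T.erase t0).card + 1 ≤ X.card := by omega
      have e3 : 2 * ((T.erase t0).card : ℝ) + 1 ≤ X.card := by exact_mod_cast e2
      have e4 : 1 ≤ 4 * ((X.card : ℝ) - (T.erase t0).card) / (X.card + 1) := by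
        rw [le_div_iff₀ (by positivity)]; linarith
      simp only [card_empty, mul_zero, pow_zero, div_one]
      linarith
    · intro θ x hx hxθ
      by_cases ht : f t0 ≤ θ
      · exact ⟨(X, ∅), Finset.mem_insert_self _ _, hx, fun _ =>
          ⟨T, h1, fun y hy => (hmax y hy).trans ht, hT2', hd⟩⟩
      · have hxT : x ∈ T := by
          by_contra hc
          exact ht ((h3 t0 ht0 x hx hc).trans hxθ)
        have hx0 : x ≠ t0 := by
          rintro rfl
          exact ht hxθ
        obtain ⟨c, hc, g4⟩ := g3 θ x (Finset.mem_erase.2 ⟨hx0, hxT⟩) hxθ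
        exact ⟨c, Finset.mem_insert_of_mem hc, g4⟩
  · unfold Dense at hd
    push Not at hd
    obtain ⟨K, hK, α, hα⟩ := hd
    have hKne : K ≠ ∅ := by
      rintro rfl
      simp [fib_empty] at hα
    set c := fib X K α with hc
    have hcX : c ⊆ X := fib_subset _ _ _
    have hc1 : ((fib T K α).card : ℝ) ≤ c.card := by
      exact_mod_cast Finset.card_le_card (fib_mono h1 K α)
    have hc2 : (T.card : ℝ) < c.card * P ^ (9 * K.card) := by
      rw [one_mul] at hα
      exact lt_of_lt_of_le hα (by gcongr)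
    have hcpos : 0 < c.card := by
      by_contra h0
      have : c.card = 0 := by omega
      rw [this] at hc2
      have : (0 : ℝ) ≤ T.card := by positivity
      simp only [CharP.cast_eq_zero, zero_mul] at hc2
      linarith
    have hcle := Finset.card_le_card hcX
    have hcard : (X \ c).card = X.card - c.card := Finset.card_sdiff_of_subset hcX
    obtain ⟨F, g1, g2, g3⟩ := ih (X \ c).card (by omega) (X \ c) rfl
    refine ⟨insert (c, K) F, ?_, ?_, ?_⟩
    · intro c' hc'
      rcases Finset.mem_insert.1 hc' with rfl | hc'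
      · exact ⟨hcX, hK, fun x hx x' hx' j hj => by
          rw [(mem_fib.1 hx).2 j hj, (mem_fib.1 hx').2 j hj]⟩
      · exact ⟨(g1 c' hc').1.trans Finset.sdiff_subset, (g1 c' hc').2⟩
    · refine (sum_insert_le _ _ _ (by positivity)).trans ?_
      have e1 := log_step X.card (X \ c).card
      have e2 : ((X \ c).card : ℝ) = X.card - c.card := by
        rw [hcard]; push_cast [hcle]; ring
      have e4 : 1 / P ^ (9 * K.card) ≤ 4 * ((X.card : ℝ) - (X \ c).card) / (X.card + 1) := by
        rw [e2, div_le_div_iff₀ (by positivity) (by positivity)]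
        nlinarith
      simp only
      linarith
    · intro θ x hx hxθ
      by_cases hxc : x ∈ c
      · exact ⟨(c, K), Finset.mem_insert_self _ _, hxc, fun h => absurd h hKne⟩
      · obtain ⟨c', hc', g4⟩ := g3 θ x (Finset.mem_sdiff.2 ⟨hx, hxc⟩) hxθ
        exact ⟨c', Finset.mem_insert_of_mem hc', g4⟩

open Classical in
/-- A chosen family of cells. -/
noncomputable def peel (P : ℝ) (J : Finset ι) (f : (ι → Q) → ℝ) (X : Finset (ι → Q)) :
    Finset (Finset (ι → Q) × Finset ι) :=
  if h : ∃ F, PeelFam P J f X F then h.choose else ∅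

theorem peel_spec {P : ℝ} (hP : 0 < P) (J : Finset ι) (f : (ι → Q) → ℝ) (X : Finset (ι → Q)) :
    PeelFam P J f X (peel P J f X) := by
  have h := exists_peel hP J f X
  unfold peel
  rw [dif_pos h]
  exact h.choose_spec

/-- The set is too small for its number of own fixed blocks. -/
def Small (P : ℝ) (r0 : ℕ) (X : Finset (ι → Q)) (I : Finset ι) (a : ℕ) : Prop :=
  (X.card : ℝ) * P ^ r0 * P ^ (10 * I.card) < P ^ (10 * Fintype.card ι) * P ^ a

open Classical in
/-- Error rows. -/
noncomputable def Err (P : ℝ) (r0 : ℕ) (q : Q) (f : (ι → Q) → ℝ) :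
    ℕ → Finset (ι → Q) → Finset ι → ℕ → Finset (ι → Q)
  | 0, X, I, a => if Small P r0 X I a then X else ∅
  | r + 1, X, I, a => if Small P r0 X I a then X else
      (peel P Iᶜ f X).biUnion fun c =>
        ((Iᶜ \ c.2).powerset.filter fun K => K = ∅ ∨ (I ∪ c.2 ∪ K).card ≤ 2 * r0).biUnion fun K =>
          (c.1.image (res q K)).biUnion fun α =>
            Err P r0 q f r (fib c.1 K α) (I ∪ c.2 ∪ K) (a + c.2.card)

theorem err_small {P : ℝ} {r0 : ℕ} (q : Q) (f : (ι → Q) → ℝ) (r : ℕ) {X : Finset (ι → Q)}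
    {I : Finset ι} {a : ℕ} (h : Small P r0 X I a) : Err P r0 q f r X I a = X := by
  cases r <;> simp [Err, h]

theorem err_zero {P : ℝ} {r0 : ℕ} (q : Q) (f : (ι → Q) → ℝ) {X : Finset (ι → Q)}
    {I : Finset ι} {a : ℕ} (h : ¬ Small P r0 X I a) : Err P r0 q f 0 X I a = ∅ := by
  simp [Err, h]

theorem err_succ {P : ℝ} {r0 : ℕ} (q : Q) (f : (ι → Q) → ℝ) (r : ℕ) {X : Finset (ι → Q)}
    {I : Finset ι} {a : ℕ} (h : ¬ Small P r0 X I a) : Err P r0 q f (r + 1) X I a =
      (peel P Iᶜ f X).biUnion fun c =>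
        ((Iᶜ \ c.2).powerset.filter fun K => K = ∅ ∨ (I ∪ c.2 ∪ K).card ≤ 2 * r0).biUnion fun K =>
          (c.1.image (res q K)).biUnion fun α =>
            Err P r0 q f r (fib c.1 K α) (I ∪ c.2 ∪ K) (a + c.2.card) := by
  simp only [Err, h, if_false]

attribute [irreducible] Err peel

theorem err_step {P : ℝ} {r0 : ℕ} (q : Q) (f : (ι → Q) → ℝ) (r : ℕ) {X : Finset (ι → Q)}
    {I : Finset ι} {a : ℕ} {c : Finset (ι → Q) × Finset ι} (hc : c ∈ peel P Iᶜ f X)
    {K : Finset ι} (hK : K ⊆ Iᶜ \ c.2) (hK2 : K = ∅ ∨ (I ∪ c.2 ∪ K).card ≤ 2 * r0) {α : ι → Q}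
    (hα : α ∈ c.1.image (res q K)) {x : ι → Q} (hxX : x ∈ X)
    (hx : x ∈ Err P r0 q f r (fib c.1 K α) (I ∪ c.2 ∪ K) (a + c.2.card)) :
    x ∈ Err P r0 q f (r + 1) X I a := by
  classical
  by_cases h : Small P r0 X I a
  · rw [err_small q f _ h]; exact hxX
  · simp only [err_succ q f r h, mem_biUnion, mem_filter, mem_powerset]
    exact ⟨c, hc, K, ⟨hK, hK2⟩, α, hα, hx⟩

theorem card_err {P : ℝ} (hP : 1 ≤ P) (hQ : (Fintype.card Q : ℝ) = P ^ 10) (r0 : ℕ) (q : Q)
    (f : (ι → Q) → ℝ) {W μ : ℝ} (hW : 4 * Real.log (P ^ (10 * Fintype.card ι) + 1) ≤ W)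
    (hW1 : 1 ≤ W) (hμ : 2 * (Fintype.card ι : ℝ) ≤ μ) (hμ1 : 1 ≤ μ) (r : ℕ) :
    ∀ (X : Finset (ι → Q)) (I : Finset ι) (a : ℕ),
      ((Err P r0 q f r X I a).card : ℝ) * P ^ r0 * P ^ (10 * I.card) ≤
        P ^ (10 * Fintype.card ι) * P ^ a * ((2 * W) ^ r * μ ^ (2 * r0 - I.card)) := by
  classical
  have hP0 : 0 < P := by linarith
  have hsm : ∀ (r : ℕ) (X : Finset (ι → Q)) (I : Finset ι) (a : ℕ), Small P r0 X I a →
      (X.card : ℝ) * P ^ r0 * P ^ (10 * I.card) ≤
        P ^ (10 * Fintype.card ι) * P ^ a * ((2 * W) ^ r * μ ^ (2 * r0 - I.card)) := by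
    intro r X I a h
    refine h.le.trans (le_mul_of_one_le_right (by positivity) ?_)
    exact one_le_mul_of_one_le_of_one_le (one_le_pow₀ (by linarith)) (one_le_pow₀ hμ1)
  induction r with
  | zero =>
    intro X I a
    by_cases h : Small P r0 X I a
    · rw [err_small q f _ h]; exact hsm 0 X I a h
    · simp only [err_zero q f h, card_empty, CharP.cast_eq_zero, zero_mul]
      positivity
  | succ r ih =>
    intro X I a
    by_cases h : Small P r0 X I a
    · rw [err_small q f _ h]; exact hsm _ X I a h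
    obtain ⟨g1, g2, -⟩ := peel_spec hP0 Iᶜ f X
    set D : ℝ := P ^ (10 * Fintype.card ι) * P ^ a * ((2 * W) ^ r * μ ^ (2 * r0 - I.card)) with hD
    have hD0 : 0 ≤ D := by positivity
    have h1 : ((Err P r0 q f (r + 1) X I a).card : ℝ) ≤ ∑ c ∈ peel P Iᶜ f X,
        ∑ K ∈ (Iᶜ \ c.2).powerset.filter (fun K => K = ∅ ∨ (I ∪ c.2 ∪ K).card ≤ 2 * r0),
          ∑ α ∈ c.1.image (res q K),
            ((Err P r0 q f r (fib c.1 K α) (I ∪ c.2 ∪ K) (a + c.2.card)).card : ℝ) := by
      rw [err_succ q f r h]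
      have e := (Finset.card_biUnion_le (s := peel P Iᶜ f X) (t := fun c =>
        ((Iᶜ \ c.2).powerset.filter fun K => K = ∅ ∨ (I ∪ c.2 ∪ K).card ≤ 2 * r0).biUnion fun K =>
          (c.1.image (res q K)).biUnion fun α =>
            Err P r0 q f r (fib c.1 K α) (I ∪ c.2 ∪ K) (a + c.2.card))).trans
        (Finset.sum_le_sum fun c _ => Finset.card_biUnion_le.trans
          (Finset.sum_le_sum fun K _ => Finset.card_biUnion_le))
      exact_mod_cast e
    have h2 : ∀ c ∈ peel P Iᶜ f X,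
        ∀ K ∈ (Iᶜ \ c.2).powerset.filter (fun K => K = ∅ ∨ (I ∪ c.2 ∪ K).card ≤ 2 * r0),
          (∑ α ∈ c.1.image (res q K),
            ((Err P r0 q f r (fib c.1 K α) (I ∪ c.2 ∪ K) (a + c.2.card)).card : ℝ)) *
              P ^ r0 * P ^ (10 * I.card) ≤ D * (1 / P ^ (9 * c.2.card)) * (1 / μ) ^ K.card := by
      intro c hc K hK
      obtain ⟨hK1, hK2⟩ := Finset.mem_filter.1 hK
      rw [Finset.mem_powerset] at hK1
      have d1 : Disjoint I c.2 := by
        rw [Finset.disjoint_left]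
        intro j hj hj'
        exact Finset.mem_compl.1 ((g1 c hc).2.1 hj') hj
      have d2 : Disjoint (I ∪ c.2) K := by
        rw [Finset.disjoint_left]
        intro j hj hj'
        have := Finset.mem_sdiff.1 (hK1 hj')
        rcases Finset.mem_union.1 hj with hj | hj
        · exact Finset.mem_compl.1 this.1 hj
        · exact this.2 hj
      have hcard : (I ∪ c.2 ∪ K).card = I.card + c.2.card + K.card := by
        rw [Finset.card_union_of_disjoint d2, Finset.card_union_of_disjoint d1]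
      have e1 : μ ^ (2 * r0 - (I ∪ c.2 ∪ K).card) * μ ^ K.card ≤ μ ^ (2 * r0 - I.card) := by
        rw [← pow_add]
        apply pow_le_pow_right₀ hμ1
        rcases hK2 with rfl | hK2
        · simp only [card_empty] at hcard ⊢
          omega
        · omega
      have e2 : ∀ α ∈ c.1.image (res q K),
          ((Err P r0 q f r (fib c.1 K α) (I ∪ c.2 ∪ K) (a + c.2.card)).card : ℝ) *
            P ^ r0 * P ^ (10 * I.card) * (P ^ (10 * K.card) * (P ^ (9 * c.2.card) * μ ^ K.card)) ≤
              D := by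
        intro α _
        have e3 := ih (fib c.1 K α) (I ∪ c.2 ∪ K) (a + c.2.card)
        generalize ((Err P r0 q f r (fib c.1 K α) (I ∪ c.2 ∪ K) (a + c.2.card)).card : ℝ) = E
          at e3 ⊢
        have e4 : P ^ (10 * (I ∪ c.2 ∪ K).card) =
            P ^ (10 * I.card) * P ^ (10 * K.card) * P ^ (9 * c.2.card) * P ^ c.2.card := by
          rw [hcard, ← pow_add, ← pow_add, ← pow_add]; congr 1; ring
        rw [e4, pow_add P a c.2.card] at e3
        have e5 : (E * P ^ r0 * P ^ (10 * I.card) *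
            (P ^ (10 * K.card) * (P ^ (9 * c.2.card) * μ ^ K.card))) * P ^ c.2.card ≤
            D * P ^ c.2.card := by
          calc _ = (E * P ^ r0 * (P ^ (10 * I.card) * P ^ (10 * K.card) * P ^ (9 * c.2.card) *
                P ^ c.2.card)) * μ ^ K.card := by ring
            _ ≤ (P ^ (10 * Fintype.card ι) * (P ^ a * P ^ c.2.card) *
                ((2 * W) ^ r * μ ^ (2 * r0 - (I ∪ c.2 ∪ K).card))) * μ ^ K.card :=
                mul_le_mul_of_nonneg_right e3 (by positivity)
            _ = P ^ (10 * Fintype.card ι) * P ^ a * ((2 * W) ^ r *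
                (μ ^ (2 * r0 - (I ∪ c.2 ∪ K).card) * μ ^ K.card)) * P ^ c.2.card := by ring
            _ ≤ _ := mul_le_mul_of_nonneg_right (mul_le_mul_of_nonneg_left
                (mul_le_mul_of_nonneg_left e1 (by positivity)) (by positivity)) (by positivity)
        exact le_of_mul_le_mul_right e5 (by positivity)
      have e6 := Finset.sum_le_sum e2
      rw [← Finset.sum_mul, ← Finset.sum_mul, ← Finset.sum_mul, Finset.sum_const,
        nsmul_eq_mul] at e6
      have e7 : ((c.1.image (res q K)).card : ℝ) ≤ P ^ (10 * K.card) := by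
        rw [pow_mul, ← hQ]
        exact_mod_cast card_image_res q c.1 K
      rw [one_div_pow, mul_assoc D, one_div_mul_one_div, mul_one_div,
        le_div_iff₀ (by positivity)]
      generalize (∑ α ∈ c.1.image (res q K),
            ((Err P r0 q f r (fib c.1 K α) (I ∪ c.2 ∪ K) (a + c.2.card)).card : ℝ)) = U at e6 ⊢
      have e8 : (U * P ^ r0 * P ^ (10 * I.card) * (P ^ (9 * c.2.card) * μ ^ K.card)) *
          P ^ (10 * K.card) ≤ D * P ^ (10 * K.card) := by
        calc _ = U * P ^ r0 * P ^ (10 * I.card) *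
              (P ^ (10 * K.card) * (P ^ (9 * c.2.card) * μ ^ K.card)) := by ring
          _ ≤ _ := e6
          _ ≤ P ^ (10 * K.card) * D := mul_le_mul_of_nonneg_right e7 hD0
          _ = _ := by ring
      exact le_of_mul_le_mul_right e8 (by positivity)
    have h3 : ∀ c ∈ peel P Iᶜ f X,
        (∑ K ∈ (Iᶜ \ c.2).powerset.filter (fun K => K = ∅ ∨ (I ∪ c.2 ∪ K).card ≤ 2 * r0),
          ∑ α ∈ c.1.image (res q K),
            ((Err P r0 q f r (fib c.1 K α) (I ∪ c.2 ∪ K) (a + c.2.card)).card : ℝ)) *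
              P ^ r0 * P ^ (10 * I.card) ≤ D * (1 / P ^ (9 * c.2.card)) * 2 := by
      intro c hc
      rw [Finset.sum_mul, Finset.sum_mul]
      refine (Finset.sum_le_sum (h2 c hc)).trans ?_
      rw [← Finset.mul_sum]
      apply mul_le_mul_of_nonneg_left _ (by positivity)
      refine le_trans (Finset.sum_le_sum_of_subset_of_nonneg (Finset.filter_subset _ _)
        (fun _ _ _ => by positivity)) ?_
      apply sum_powerset_le _ (by positivity)
      rw [mul_one_div, div_le_one (by linarith)]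
      exact hμ
    have h4 : 4 * Real.log (X.card + 1) ≤ W := by
      refine le_trans ?_ hW
      have e : (X.card : ℝ) ≤ P ^ (10 * Fintype.card ι) := by
        rw [pow_mul, ← hQ]
        have := Finset.card_le_univ X
        rw [Fintype.card_fun] at this
        exact_mod_cast this
      exact mul_le_mul_of_nonneg_left (Real.log_le_log (by positivity) (by linarith)) (by norm_num)
    calc _ ≤ (∑ c ∈ peel P Iᶜ f X,
        ∑ K ∈ (Iᶜ \ c.2).powerset.filter (fun K => K = ∅ ∨ (I ∪ c.2 ∪ K).card ≤ 2 * r0),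
          ∑ α ∈ c.1.image (res q K),
            ((Err P r0 q f r (fib c.1 K α) (I ∪ c.2 ∪ K) (a + c.2.card)).card : ℝ)) *
              P ^ r0 * P ^ (10 * I.card) :=
          mul_le_mul_of_nonneg_right (mul_le_mul_of_nonneg_right h1 (by positivity)) (by positivity)
      _ ≤ ∑ c ∈ peel P Iᶜ f X, D * (1 / P ^ (9 * c.2.card)) * 2 := by
          rw [Finset.sum_mul, Finset.sum_mul]
          exact Finset.sum_le_sum h3
      _ = D * 2 * ∑ c ∈ peel P Iᶜ f X, 1 / P ^ (9 * c.2.card) := by
          rw [Finset.mul_sum]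
          apply Finset.sum_congr rfl
          intro c _
          ring
      _ ≤ D * 2 * W := mul_le_mul_of_nonneg_left (g2.trans h4) (by positivity)
      _ = _ := by rw [hD]; ring

end Pool.Agent.Lib.MP_8a52c3_lc.CL
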