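import Pool.Agent.Lib.MP_8a52c3_lc.CLDanger

/-! States of the simulation. -/

namespace Pool.Agent.Lib.MP_8a52c3_lc.CL

open Finset

set_option linter.unusedSectionVars false

variable {ι Q : Type} [Fintype ι] [DecidableEq ι] [Fintype Q] [DecidableEq Q]

/-- Standing assumptions. -/
structure Par (g : Q → Q → Bool) (Good : Finset ι → (ι → Bool) → Prop) (P : ℝ) (w : ℕ) : Prop where
  ne : Nonempty Q
  orth : Orth g
  sym : ∀ a b, g a b = g b a
  two : 2 ≤ P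
  big : 64 * (Fintype.card ι : ℝ) ≤ P
  card : (Fintype.card Q : ℝ) = P ^ 10
  down : ∀ I I' ρ, Good I ρ → I' ⊆ I → Good I' ρ
  ext : ∀ I K ρ, Good I ρ → (I ∪ K).card ≤ w → ∃ ρ', (∀ j ∈ I, ρ' j = ρ j) ∧ Good (I ∪ K) ρ'

variable {g : Q → Q → Bool} {Good : Finset ι → (ι → Bool) → Prop} {P : ℝ} {w : ℕ}

/-- The part of a state that does not mention density. -/
def Base (g : Q → Q → Bool) (Good : Finset ι → (ι → Bool) → Prop) (P : ℝ)
    (A B : Finset (ι → Q)) (I : Finset ι) (Λ : ℝ) : Prop :=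
  ∃ ρ NA NB, Good I ρ ∧ (∀ x ∈ A, ∀ y ∈ B, ∀ j ∈ I, g (x j) (y j) = ρ j) ∧ A.Nonempty ∧
    B.Nonempty ∧ Cap P A Iᶜ NA ∧ Cap P B Iᶜ NB ∧
    NA * NB * (P / 2) ^ I.card ≤ Λ * (A.card * B.card)

/-- Oriented state. -/
def St (g : Q → Q → Bool) (Good : Finset ι → (ι → Bool) → Prop) (P : ℝ)
    (A B : Finset (ι → Q)) (Λ : ℝ) : Prop :=
  ∃ I, Base g Good P A B I Λ ∧ Dense P A Iᶜ 2 7 ∧ Dense P B Iᶜ 1 9

/-- State in either orientation. -/
def St2 (g : Q → Q → Bool) (Good : Finset ι → (ι → Bool) → Prop) (P : ℝ)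
    (A B : Finset (ι → Q)) (Λ : ℝ) : Prop :=
  St g Good P A B Λ ∨ St g Good P B A Λ

theorem St2.symm {A B : Finset (ι → Q)} {Λ : ℝ} (h : St2 g Good P A B Λ) : St2 g Good P B A Λ :=
  Or.symm h

theorem Base.symm (hp : Par g Good P w) {A B : Finset (ι → Q)} {I : Finset ι} {Λ : ℝ}
    (h : Base g Good P A B I Λ) : Base g Good P B A I Λ := by
  obtain ⟨ρ, NA, NB, h1, h2, h3, h4, h5, h6, h7⟩ := h
  refine ⟨ρ, NB, NA, h1, fun y hy x hx j hj => by rw [hp.sym]; exact h2 x hx y hy j hj,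
    h4, h3, h6, h5, ?_⟩
  rw [mul_comm NB NA, mul_comm (B.card : ℝ)]
  exact h7

theorem Base.pow_le (hp : Par g Good P w) {A B : Finset (ι → Q)} {I : Finset ι} {Λ : ℝ}
    (h : Base g Good P A B I Λ) : (P / 2) ^ I.card ≤ Λ := by
  obtain ⟨ρ, NA, NB, h1, h2, h3, h4, h5, h6, h7⟩ := h
  have hA := h5.card_le h3
  have hB := h6.card_le h4
  have hA0 : (0 : ℝ) < A.card := by exact_mod_cast h3.card_pos
  have hB0 : (0 : ℝ) < B.card := by exact_mod_cast h4.card_pos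
  have hq : 0 < (P / 2) ^ I.card := by have := hp.two; positivity
  have h8 : (P / 2) ^ I.card * (A.card * B.card) ≤ Λ * (A.card * B.card) := by
    refine le_trans ?_ h7
    rw [mul_comm]
    gcongr
    linarith
  exact le_of_mul_le_mul_right h8 (by positivity)

theorem Base.pos (hp : Par g Good P w) {A B : Finset (ι → Q)} {I : Finset ι} {Λ : ℝ}
    (h : Base g Good P A B I Λ) : 0 < Λ :=
  lt_of_lt_of_le (by have := hp.two; positivity) (h.pow_le hp)

theorem Base.mono {A B : Finset (ι → Q)} {I : Finset ι} {Λ Λ' : ℝ}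
    (h : Base g Good P A B I Λ) (hΛ : Λ ≤ Λ') : Base g Good P A B I Λ' := by
  obtain ⟨ρ, NA, NB, h1, h2, h3, h4, h5, h6, h7⟩ := h
  exact ⟨ρ, NA, NB, h1, h2, h3, h4, h5, h6, h7.trans (by gcongr)⟩

theorem Base.half (hp : Par g Good P w) {A B A' B' : Finset (ι → Q)} {I : Finset ι} {Λ : ℝ}
    (h : Base g Good P A B I Λ) (hA : A' ⊆ A) (hB : B' ⊆ B) (hA2 : (A.card : ℝ) ≤ 2 * A'.card)
    (hB2 : (B.card : ℝ) ≤ 2 * B'.card) : Base g Good P A' B' I (4 * Λ) := by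
  have hΛ := h.pos hp
  have hP0 : 0 ≤ P := by have := hp.two; linarith
  obtain ⟨ρ, NA, NB, h1, h2, h3, h4, h5, h6, h7⟩ := h
  have hA0 : (0 : ℝ) < A.card := by exact_mod_cast h3.card_pos
  have hB0 : (0 : ℝ) < B.card := by exact_mod_cast h4.card_pos
  refine ⟨ρ, NA, NB, h1, fun x hx y hy => h2 x (hA hx) y (hB hy), ?_, ?_,
    h5.mono hP0 hA (subset_refl _), h6.mono hP0 hB (subset_refl _), ?_⟩
  · rw [← Finset.card_pos]
    have : (0 : ℝ) < A'.card := by linarith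
    exact_mod_cast this
  · rw [← Finset.card_pos]
    have : (0 : ℝ) < B'.card := by linarith
    exact_mod_cast this
  · calc _ ≤ Λ * (A.card * B.card) := h7
      _ ≤ Λ * ((2 * A'.card) * (2 * B'.card)) := by gcongr
      _ = _ := by ring

theorem St.mono {A B : Finset (ι → Q)} {Λ Λ' : ℝ} (h : St g Good P A B Λ) (hΛ : Λ ≤ Λ') :
    St g Good P A B Λ' := by
  obtain ⟨I, h1, h2⟩ := h
  exact ⟨I, h1.mono hΛ, h2⟩

theorem St2.mono {A B : Finset (ι → Q)} {Λ Λ' : ℝ} (h : St2 g Good P A B Λ) (hΛ : Λ ≤ Λ') :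
    St2 g Good P A B Λ' := h.imp (fun h => h.mono hΛ) (fun h => h.mono hΛ)

theorem St2.pos (hp : Par g Good P w) {A B : Finset (ι → Q)} {Λ : ℝ} (h : St2 g Good P A B Λ) :
    0 < Λ := by
  rcases h with ⟨I, h, _⟩ | ⟨I, h, _⟩ <;> exact h.pos hp

theorem St2.nonempty {A B : Finset (ι → Q)} {Λ : ℝ} (h : St2 g Good P A B Λ) :
    A.Nonempty ∧ B.Nonempty := by
  rcases h with ⟨I, ⟨ρ, NA, NB, h1, h2, h3, h4, -⟩, _⟩ | ⟨I, ⟨ρ, NA, NB, h1, h2, h3, h4, -⟩, _⟩
  · exact ⟨h3, h4⟩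
  · exact ⟨h4, h3⟩

theorem restore (hp : Par g Good P w) {V : Type} (s : Finset V) (C : V → Finset (ι → Q))
    (wt : V → ℝ) (hwt : ∀ v ∈ s, 0 < wt v) (hsum : ∑ v ∈ s, wt v ≤ 1)
    {A B : Finset (ι → Q)} {I : Finset ι} {Λ : ℝ} (hcov : ∀ x ∈ A, ∃ v ∈ s, x ∈ C v)
    (hlev : ∀ v ∈ s, 2 * Λ / wt v < (P / 2) ^ (w + 1)) (hb : Base g Good P A B I Λ)
    (hA : Dense P A Iᶜ 4 7) (hB : Dense P B Iᶜ 2 9) :
    ∃ v ∈ s, ∃ A' ⊆ A, A' ⊆ C v ∧ ∃ B' ⊆ B, St g Good P B' A' (4 * Λ / wt v) := by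
  classical
  have hΛ := hb.pos hp
  have hP := hp.two
  have hP0 : 0 < P := by linarith
  have := hp.ne
  obtain ⟨ρ, NA, NB, h1, h2, h3, h4, h5, h6, h7⟩ := hb
  have hA0 : (0 : ℝ) < A.card := by exact_mod_cast h3.card_pos
  have hB0 : (0 : ℝ) < B.card := by exact_mod_cast h4.card_pos
  have hd := card_dang hp.orth hP hp.big hp.card hA hB h4
  set A0 := A.filter fun x => ¬ Dang g P B Iᶜ x with hA0def
  have hA00 : (0 : ℝ) < A0.card := by linarith
  have hs : s.Nonempty := by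
    obtain ⟨x, hx⟩ := h3
    obtain ⟨v, hv, _⟩ := hcov x hx
    exact ⟨v, hv⟩
  have hpig : ∑ v ∈ s, wt v * A0.card ≤ ∑ v ∈ s, ((A0 ∩ C v).card : ℝ) := by
    rw [← Finset.sum_mul]
    have e1 : A0 ⊆ s.biUnion fun v => A0 ∩ C v := by
      intro x hx
      obtain ⟨v, hv, hxv⟩ := hcov x (Finset.mem_filter.1 hx).1
      exact Finset.mem_biUnion.2 ⟨v, hv, Finset.mem_inter.2 ⟨hx, hxv⟩⟩
    have e2 := (Finset.card_le_card e1).trans Finset.card_biUnion_le
    have e3 : (A0.card : ℝ) ≤ ∑ v ∈ s, ((A0 ∩ C v).card : ℝ) := by exact_mod_cast e2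
    nlinarith
  obtain ⟨v, hv, hvle⟩ := Finset.exists_le_of_sum_le hs hpig
  have hwv := hwt v hv
  set A1 := A0 ∩ C v with hA1
  have hA10 : (0 : ℝ) < A1.card := lt_of_lt_of_le (by positivity) hvle
  have hA1ne : A1.Nonempty := by
    rw [← Finset.card_pos]; exact_mod_cast hA10
  obtain ⟨K, hK, α, hα, hdense⟩ := exists_restore hP0 A1 hA1ne Iᶜ 9
  set A2 := fib A1 K α with hA2
  have hA1A : A1 ⊆ A := Finset.inter_subset_left.trans (Finset.filter_subset _ _)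
  have hA2A1 : A2 ⊆ A1 := fib_subset _ _ _
  have hA20 : (0 : ℝ) < A2.card := by
    by_contra hc
    have : (A2.card : ℝ) = 0 := le_antisymm (not_lt.1 hc) (by positivity)
    rw [this] at hα
    linarith
  have hA2ne : A2.Nonempty := by
    rw [← Finset.card_pos]; exact_mod_cast hA20
  have hcap1 : Cap P A1 Iᶜ NA := h5.mono hP0.le hA1A (subset_refl _)
  have hdisj : Disjoint I K := by
    rw [Finset.disjoint_left]
    intro j hj hj'
    exact (Finset.mem_compl.1 (hK hj')) hj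
  have hcardU : (I ∪ K).card = I.card + K.card := Finset.card_union_of_disjoint hdisj
  have hcompl : (I ∪ K)ᶜ = Iᶜ \ K := by
    ext j; simp
  have hAle : (A.card : ℝ) * wt v ≤ 2 * A1.card := by nlinarith
  have hNB := h6.card_le h4
  have hNA := h5.card_le h3
  have hq0 : 0 < (P / 2) ^ I.card := by positivity
  have hw : (I ∪ K).card ≤ w := by
    by_contra hc
    have e1 : (P / 2) ^ (w + 1) ≤ (P / 2) ^ (I.card + K.card) :=
      pow_le_pow_right₀ (by linarith) (by omega)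
    have e2 : (A1.card : ℝ) * P ^ K.card ≤ NA := by
      calc (A1.card : ℝ) * P ^ K.card ≤ A2.card * P ^ (9 * K.card) * P ^ K.card := by gcongr
        _ = A2.card * P ^ (10 * K.card) := by
          rw [mul_assoc, ← pow_add]; congr 2; ring
        _ ≤ NA := hcap1 K hK α
    have e3 : NA * (P / 2) ^ I.card ≤ Λ * A.card := by
      have e4 : NA * (P / 2) ^ I.card * NB ≤ Λ * A.card * NB := by
        calc NA * (P / 2) ^ I.card * NB = NA * NB * (P / 2) ^ I.card := by ring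
          _ ≤ Λ * (A.card * B.card) := h7
          _ ≤ Λ * (A.card * NB) := by gcongr
          _ = _ := by ring
      exact le_of_mul_le_mul_right e4 (by linarith)
    have e5 : (P / 2) ^ K.card ≤ P ^ K.card := by gcongr; linarith
    have e6 : (P / 2) ^ (I.card + K.card) * wt v * A1.card ≤ 2 * Λ * A1.card := by
      calc (P / 2) ^ (I.card + K.card) * wt v * A1.card
          = (A1.card * (P / 2) ^ K.card) * (P / 2) ^ I.card * wt v := by rw [pow_add]; ring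
        _ ≤ (A1.card * P ^ K.card) * (P / 2) ^ I.card * wt v := by gcongr
        _ ≤ NA * (P / 2) ^ I.card * wt v := by gcongr
        _ ≤ Λ * A.card * wt v := by gcongr
        _ = Λ * (A.card * wt v) := by ring
        _ ≤ Λ * (2 * A1.card) := by gcongr
        _ = _ := by ring
    have e7 := le_of_mul_le_mul_right e6 hA10
    have e8 := hlev v hv
    rw [div_lt_iff₀ hwv] at e8
    have e9 : (P / 2) ^ (w + 1) * wt v ≤ (P / 2) ^ (I.card + K.card) * wt v := by gcongr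
    linarith
  obtain ⟨ρ', hρ1, hρ2⟩ := hp.ext I K ρ h1 hw
  obtain ⟨x0, hx0⟩ := hA2ne
  have hx0nd : ¬ Dang g P B Iᶜ x0 :=
    (Finset.mem_filter.1 (Finset.mem_inter.1 (hA2A1 hx0)).1).2
  obtain ⟨hE1, hE2⟩ := xor_lemma hP hp.big hB hx0nd hK ρ'
  set E := pat g B K x0 ρ' with hE
  have hEB : E ⊆ B := Finset.filter_subset _ _
  have hE0 : (0 : ℝ) < E.card := by
    by_contra hc
    have : (E.card : ℝ) = 0 := le_antisymm (not_lt.1 hc) (by positivity)
    rw [this] at hE1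
    linarith
  refine ⟨v, hv, A2, hA2A1.trans hA1A, hA2A1.trans Finset.inter_subset_right, E, hEB, I ∪ K,
    ⟨ρ', NB, NA / P ^ (10 * K.card), hρ2, ?_, ?_, ⟨x0, hx0⟩, ?_, ?_, ?_⟩, ?_, ?_⟩
  · intro y hy x hx j hj
    rw [hp.sym]
    rcases Finset.mem_union.1 hj with hj | hj
    · rw [hρ1 j hj]
      exact h2 x (hA1A (hA2A1 hx)) y (hEB hy) j hj
    · rw [(mem_fib.1 hx).2 j hj, ← (mem_fib.1 hx0).2 j hj]
      exact (mem_pat.1 hy).2 j hj
  · rw [← Finset.card_pos]; exact_mod_cast hE0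
  · exact h6.mono hP0.le hEB (by rw [hcompl]; exact Finset.sdiff_subset)
  · rw [hcompl]; exact hcap1.fib hP0 hK α
  · rw [hcardU, pow_add]
    have e1 : (P / 2) ^ K.card * 2 ^ K.card * P ^ (9 * K.card) = P ^ (10 * K.card) := by
      rw [← mul_pow, div_mul_cancel₀ _ (two_ne_zero), ← pow_add]; congr 1; ring
    have e2 : NB * (NA / P ^ (10 * K.card)) * ((P / 2) ^ I.card * (P / 2) ^ K.card) =
        NA * NB * (P / 2) ^ I.card / (2 ^ K.card * P ^ (9 * K.card)) := by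
      rw [← e1]
      field_simp
    rw [e2, div_le_iff₀ (by positivity), div_mul_eq_mul_div, div_mul_eq_mul_div,
      le_div_iff₀ hwv]
    calc NA * NB * (P / 2) ^ I.card * wt v ≤ Λ * (A.card * B.card) * wt v := by gcongr
      _ = Λ * ((A.card * wt v) * B.card) := by ring
      _ ≤ Λ * ((2 * A1.card) * (2 * 2 ^ K.card * E.card)) := by gcongr
      _ ≤ Λ * ((2 * (A2.card * P ^ (9 * K.card))) * (2 * 2 ^ K.card * E.card)) := by gcongr
      _ = _ := by ring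
  · rw [hcompl]; exact hE2
  · rw [hcompl]; exact hdense

theorem St.restore (hp : Par g Good P w) {V : Type} (s : Finset V) (C : V → Finset (ι → Q))
    (wt : V → ℝ) (hwt : ∀ v ∈ s, 0 < wt v) (hsum : ∑ v ∈ s, wt v ≤ 1)
    {A B : Finset (ι → Q)} {Λ : ℝ} (hcov : ∀ x ∈ A, ∃ v ∈ s, x ∈ C v)
    (hlev : ∀ v ∈ s, 2 * Λ / wt v < (P / 2) ^ (w + 1)) (h : St g Good P A B Λ) :
    ∃ v ∈ s, ∃ A' ⊆ A, A' ⊆ C v ∧ ∃ B' ⊆ B, St g Good P B' A' (4 * Λ / wt v) := by
  obtain ⟨I, hb, hA, hB⟩ := h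
  have hP : 1 ≤ P := by have := hp.two; linarith
  exact CL.restore hp s C wt hwt hsum hcov hlev hb (hA.weaken hP (by norm_num) le_rfl)
    (hB.weaken hP (by norm_num) le_rfl)

theorem St2.split (hp : Par g Good P w) {V : Type} (s : Finset V) (C : V → Finset (ι → Q))
    (wt : V → ℝ) (hwt : ∀ v ∈ s, 0 < wt v) (hsum : ∑ v ∈ s, wt v ≤ 1)
    {A B : Finset (ι → Q)} {Λ : ℝ} (hcov : ∀ x ∈ A, ∃ v ∈ s, x ∈ C v)
    (hlev : ∀ v ∈ s, 8 * Λ / wt v < (P / 2) ^ (w + 1)) (h : St2 g Good P A B Λ) :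
    ∃ v ∈ s, ∃ A' ⊆ A, A' ⊆ C v ∧ ∃ B' ⊆ B, St2 g Good P A' B' (16 * Λ / wt v) := by
  have hΛ := h.pos hp
  have hne := h.nonempty
  rcases h with h | h
  · obtain ⟨v, hv, A', h1, h2, B', h3, h4⟩ := h.restore hp s C wt hwt hsum hcov
      (fun v hv => lt_of_le_of_lt (by have := hwt v hv; gcongr; norm_num) (hlev v hv))
    exact ⟨v, hv, A', h1, h2, B', h3, Or.inr (h4.mono (by have := hwt v hv; gcongr; norm_num))⟩
  · obtain ⟨x, hx⟩ := hne.1
    obtain ⟨v0, hv0, _⟩ := hcov x hx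
    have hw1 : wt v0 ≤ 1 :=
      (Finset.single_le_sum (fun v hv => (hwt v hv).le) hv0).trans hsum
    have hl : 2 * Λ / 1 < (P / 2) ^ (w + 1) := by
      refine lt_of_le_of_lt ?_ (hlev v0 hv0)
      have := hwt v0 hv0
      gcongr
      norm_num
    obtain ⟨_, _, B1, h1, _, A1, h3, h4⟩ := h.restore hp ({()} : Finset Unit) (fun _ => B)
      (fun _ => 1) (by simp) (by simp) (fun x hx => ⟨(), by simp, hx⟩) (fun _ _ => hl)
    rw [div_one] at h4
    obtain ⟨v, hv, A2, h5, h6, B2, h7, h8⟩ := h4.restore hp s C wt hwt hsum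
      (fun x hx => hcov x (h3 hx))
      (fun v hv => by have := hlev v hv; rw [← mul_assoc]; norm_num; exact this)
    refine ⟨v, hv, A2, h5.trans h3, h6, B2, h7.trans h1, Or.inr (h8.mono (le_of_eq ?_))⟩
    ring

theorem St.leaf (hp : Par g Good P w) {A B : Finset (ι → Q)} {Λ : ℝ} (h : St g Good P A B Λ)
    {d : ℕ} (hd : d ≤ w) (hlev : Λ < (P / 2) ^ (w - d + 1)) (I' : Finset ι) (hI' : I'.card ≤ d) :
    ∃ x ∈ A, ∃ y ∈ B, ∃ ρ, Good I' ρ ∧ ∀ j ∈ I', g (x j) (y j) = ρ j := by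
  classical
  obtain ⟨I, hb, hA, hB⟩ := h
  have hP := hp.two
  have := hp.ne
  have hpow := hb.pow_le hp
  obtain ⟨ρ, NA, NB, h1, h2, h3, h4, h5, h6, h7⟩ := hb
  have hB' : Dense P B Iᶜ 2 9 := hB.weaken (by linarith) (by norm_num) le_rfl
  have hdd := card_dang hp.orth hP hp.big hp.card (hA.weaken (by linarith) (by norm_num) le_rfl)
    hB' h4
  have hA0 : (0 : ℝ) < A.card := by exact_mod_cast h3.card_pos
  have hB0 : (0 : ℝ) < B.card := by exact_mod_cast h4.card_pos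
  have hne : (A.filter fun x => ¬ Dang g P B Iᶜ x).Nonempty := by
    rw [← Finset.card_pos]
    have : (0 : ℝ) < (A.filter fun x => ¬ Dang g P B Iᶜ x).card := by linarith
    exact_mod_cast this
  obtain ⟨x, hx⟩ := hne
  obtain ⟨hxA, hxd⟩ := Finset.mem_filter.1 hx
  have hI : I.card ≤ w - d := by
    by_contra hc
    have : (P / 2) ^ (w - d + 1) ≤ (P / 2) ^ I.card := pow_le_pow_right₀ (by linarith) (by omega)
    linarith
  have hw : (I ∪ I').card ≤ w := (Finset.card_union_le _ _).trans (by omega)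
  obtain ⟨ρ', hρ1, hρ2⟩ := hp.ext I I' ρ h1 hw
  have hK : I' \ I ⊆ Iᶜ := fun j hj => Finset.mem_compl.2 (Finset.mem_sdiff.1 hj).2
  obtain ⟨hE1, -⟩ := xor_lemma hP hp.big hB' hxd hK ρ'
  have hE : (pat g B (I' \ I) x ρ').Nonempty := by
    rw [Finset.nonempty_iff_ne_empty]
    intro h0
    rw [h0] at hE1
    simp only [card_empty, CharP.cast_eq_zero, mul_zero] at hE1
    linarith
  obtain ⟨y, hy⟩ := hE
  obtain ⟨hyB, hy2⟩ := mem_pat.1 hy
  refine ⟨x, hxA, y, hyB, ρ', hp.down _ _ _ hρ2 Finset.subset_union_right, fun j hj => ?_⟩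
  by_cases hjI : j ∈ I
  · rw [hρ1 j hjI]; exact h2 x hxA y hyB j hjI
  · exact hy2 j (Finset.mem_sdiff.2 ⟨hj, hjI⟩)

theorem St2.leaf (hp : Par g Good P w) {A B : Finset (ι → Q)} {Λ : ℝ} (h : St2 g Good P A B Λ)
    {d : ℕ} (hd : d ≤ w) (hlev : Λ < (P / 2) ^ (w - d + 1)) (I' : Finset ι) (hI' : I'.card ≤ d) :
    ∃ x ∈ A, ∃ y ∈ B, ∃ ρ, Good I' ρ ∧ ∀ j ∈ I', g (x j) (y j) = ρ j := by
  rcases h with h | h
  · exact h.leaf hp hd hlev I' hI'
  · obtain ⟨y, hy, x, hx, ρ, h1, h2⟩ := h.leaf hp hd hlev I' hI'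
    exact ⟨x, hx, y, hy, ρ, h1, fun j hj => by rw [hp.sym]; exact h2 j hj⟩

theorem exists_lower {α : Type} [DecidableEq α] (X : Finset α) (f : α → ℝ) (k : ℕ)
    (hk : k ≤ X.card) : ∃ T ⊆ X, T.card = k ∧ ∀ t ∈ T, ∀ x ∈ X, x ∉ T → f t ≤ f x := by
  induction k with
  | zero => exact ⟨∅, by simp, by simp, by simp⟩
  | succ k ih =>
    obtain ⟨T, h1, h2, h3⟩ := ih (by omega)
    have hne : (X \ T).Nonempty := by
      rw [← Finset.card_pos, Finset.card_sdiff_of_subset h1]; omega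
    obtain ⟨x0, hx0, hmin⟩ := Finset.exists_min_image (X \ T) f hne
    obtain ⟨h4, h5⟩ := Finset.mem_sdiff.1 hx0
    refine ⟨insert x0 T, Finset.insert_subset h4 h1, by rw [Finset.card_insert_of_notMem h5, h2],
      fun t ht x hx hxT => ?_⟩
    have hxT' : x ∉ T := fun h => hxT (Finset.mem_insert_of_mem h)
    rcases Finset.mem_insert.1 ht with rfl | ht
    · exact hmin x (Finset.mem_sdiff.2 ⟨hx, hxT'⟩)
    · exact h3 t ht x hx hxT'

theorem exists_mono_half {α : Type} [DecidableEq α] (A B : Finset α) (hA : A.Nonempty)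
    (a b : α → ℝ) : ∃ A' ⊆ A, ∃ B' ⊆ B, (A.card : ℝ) ≤ 2 * A'.card ∧ (B.card : ℝ) ≤ 2 * B'.card ∧
      ((∀ x ∈ A', ∀ y ∈ B', a x < b y) ∨ (∀ x ∈ A', ∀ y ∈ B', ¬ a x < b y)) := by
  classical
  have hpos := hA.card_pos
  obtain ⟨T, h1, h2, h3⟩ := exists_lower A a ((A.card + 1) / 2) (by omega)
  have hT : T.Nonempty := by rw [← Finset.card_pos]; omega
  obtain ⟨t0, ht0, hmax⟩ := Finset.exists_max_image T a hT
  have h7 := Finset.card_filter_add_card_filter_not (s := B) (fun y => a t0 < b y)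
  by_cases hc : B.card ≤ 2 * (B.filter fun y => a t0 < b y).card
  · refine ⟨T, h1, _, Finset.filter_subset _ _, ?_, by exact_mod_cast hc, Or.inl ?_⟩
    · have : A.card ≤ 2 * T.card := by omega
      exact_mod_cast this
    · intro x hx y hy
      exact lt_of_le_of_lt (hmax x hx) (Finset.mem_filter.1 hy).2
  · refine ⟨insert t0 (A \ T), Finset.insert_subset (h1 ht0) Finset.sdiff_subset,
      B.filter fun y => ¬ a t0 < b y, Finset.filter_subset _ _, ?_, ?_, Or.inr ?_⟩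
    · have e : (insert t0 (A \ T)).card = A.card - T.card + 1 := by
        rw [Finset.card_insert_of_notMem (by simp [ht0]), Finset.card_sdiff_of_subset h1]
      have : A.card ≤ 2 * (insert t0 (A \ T)).card := by omega
      exact_mod_cast this
    · have : B.card ≤ 2 * (B.filter fun y => ¬ a t0 < b y).card := by omega
      exact_mod_cast this
    · intro x hx y hy
      have h4 := not_lt.1 (Finset.mem_filter.1 hy).2
      rw [not_lt]
      rcases Finset.mem_insert.1 hx with rfl | hx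
      · exact h4
      · exact h4.trans (h3 t0 ht0 x (Finset.mem_sdiff.1 hx).1 (Finset.mem_sdiff.1 hx).2)

theorem St.half (hp : Par g Good P w) {A B A' B' : Finset (ι → Q)} {Λ : ℝ}
    (h : St g Good P A B Λ) (hlev : 8 * Λ < (P / 2) ^ (w + 1)) (hA : A' ⊆ A) (hB : B' ⊆ B)
    (hA2 : (A.card : ℝ) ≤ 2 * A'.card) (hB2 : (B.card : ℝ) ≤ 2 * B'.card) :
    ∃ A'' ⊆ A', ∃ B'' ⊆ B', St g Good P B'' A'' (16 * Λ) := by
  obtain ⟨I, hb, h1, h2⟩ := h
  have hP0 : 0 ≤ P := by have := hp.two; linarith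
  have h3 := h1.sub hP0 (by norm_num) hA hA2
  have h4 := h2.sub hP0 (by norm_num) hB hB2
  norm_num at h3 h4
  obtain ⟨_, _, A2, h5, _, B2, h6, h7⟩ := CL.restore hp ({()} : Finset Unit) (fun _ => A')
    (fun _ => 1) (by simp) (by simp) (Λ := 4 * Λ) (fun x hx => ⟨(), by simp, hx⟩)
    (fun _ _ => by rw [div_one]; linarith) (hb.half hp hA hB hA2 hB2) h3 h4
  exact ⟨A2, h5, B2, h6, h7.mono (le_of_eq (by ring))⟩

theorem St2.triangle (hp : Par g Good P w) {A B : Finset (ι → Q)} {Λ : ℝ}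
    (h : St2 g Good P A B Λ) (hlev : 8 * Λ < (P / 2) ^ (w + 1)) (a b : (ι → Q) → ℝ) :
    ∃ A' ⊆ A, ∃ B' ⊆ B, St2 g Good P A' B' (16 * Λ) ∧
      ((∀ x ∈ A', ∀ y ∈ B', a x < b y) ∨ (∀ x ∈ A', ∀ y ∈ B', ¬ a x < b y)) := by
  obtain ⟨A1, h1, B1, h2, h3, h4, h5⟩ := exists_mono_half A B h.nonempty.1 a b
  have key : ∃ A' ⊆ A1, ∃ B' ⊆ B1, St2 g Good P A' B' (16 * Λ) := by
    rcases h with h | h
    · obtain ⟨A2, h6, B2, h7, h8⟩ := h.half hp hlev h1 h2 h3 h4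
      exact ⟨A2, h6, B2, h7, Or.inr h8⟩
    · obtain ⟨B2, h6, A2, h7, h8⟩ := h.half hp hlev h2 h1 h4 h3
      exact ⟨A2, h7, B2, h6, Or.inl h8⟩
  obtain ⟨A2, h6, B2, h7, h8⟩ := key
  refine ⟨A2, h6.trans h1, B2, h7.trans h2, h8, h5.imp ?_ ?_⟩
  · exact fun h x hx y hy => h x (h6 hx) y (h7 hy)
  · exact fun h x hx y hy => h x (h6 hx) y (h7 hy)

theorem not_dense_of_const {A : Finset (ι → Q)} (hP : 2 ≤ P) (hA : A.Nonempty) {J : Finset ι}
    (h : Dense P A J 2 7) {j : ι} (hj : j ∈ J) {α : ι → Q} (hc : ∀ x ∈ A, x j = α j) : False := by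
  have h1 := h {j} (by simpa using hj) α
  have h2 : fib A {j} α = A := by
    ext x
    simp only [mem_fib, mem_singleton, forall_eq, and_iff_left_iff_imp]
    exact hc x
  rw [h2] at h1
  simp only [card_singleton, mul_one] at h1
  have hA0 : (0 : ℝ) < A.card := by exact_mod_cast hA.card_pos
  have h3 : (2 : ℝ) ^ 7 ≤ P ^ 7 := by gcongr
  nlinarith

theorem St2.good_of_const (hp : Par g Good P w) {A B : Finset (ι → Q)} {Λ : ℝ}
    (h : St2 g Good P A B Λ) {I : Finset ι} {α : ι → Q} (hc : ∀ x ∈ A, ∀ j ∈ I, x j = α j) :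
    ∃ ρ, Good I ρ ∧ ∀ x ∈ A, ∀ y ∈ B, ∀ j ∈ I, g (x j) (y j) = ρ j := by
  have hP := hp.two
  have key : ∃ I', Base g Good P A B I' Λ ∧ Dense P A I'ᶜ 2 7 := by
    rcases h with ⟨I', h1, h2, _⟩ | ⟨I', h1, _, h2⟩
    · exact ⟨I', h1, h2⟩
    · exact ⟨I', h1.symm hp, h2.weaken (by linarith) (by norm_num) (by norm_num)⟩
  obtain ⟨I', ⟨ρ, NA, NB, h1, h2, h3, -⟩, h4⟩ := key
  have hsub : I ⊆ I' := by
    intro j hj
    by_contra hc'
    exact not_dense_of_const hP h3 h4 (Finset.mem_compl.2 hc') fun x hx => hc x hx j hj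
  exact ⟨ρ, hp.down _ _ _ h1 hsub, fun x hx y hy j hj => h2 x hx y hy j (hsub hj)⟩

end Pool.Agent.Lib.MP_8a52c3_lc.CL
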