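import Pool.Agent.Lib.MP_8a52c3_lc.EqLRound

/-!
Iteration of the kill-or-zoom round, and Lindsey's lemma for inner product.
-/

namespace Pool.Agent.Lib.MP_8a52c3_lc.EqL

open Finset

section
open Classical

variable {X Y V : Type}

lemma cnt_anti (f : ℕ → X → V) (g : ℕ → Y → V) (A : Finset X) (B : Finset Y) (j : ℕ) {ρ ρ' : ℝ}
    (h : ρ ≤ ρ') (a : X) : cnt f g A B j ρ' a ≤ cnt f g A B j ρ a := by
  apply card_le_card
  intro e he
  rw [mem_filter] at he ⊢
  refine ⟨he.1, he.2.1, lt_of_le_of_lt ?_ he.2.2⟩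
  gcongr

theorem iter (f : ℕ → X → V) (g : ℕ → Y → V) (M R : ℕ) (φ : ℝ) (hφ0 : 0 ≤ φ) (hφ : φ ≤ 1 / 2)
    (τ : ℕ → ℝ) (hτpos : ∀ s, 0 < τ s) (hτ0 : τ 0 ≤ 1)
    (hτ : ∀ s, τ (s + 1) = (τ s / (2 * (16 * M ^ 3) ^ R)) ^ 2 / (16 * M ^ 3)) (hM : 1 ≤ M) :
    ∀ r ≤ R, ∀ (s : ℕ) (A : Finset X) (B : Finset Y) (j : ℕ) (N ρ : ℝ), A.Nonempty → B.Nonempty →
      j < M → Mono f g A B j → Inv f g A B j N ρ → N * φ ^ s < 1 → N * (1 - φ) ^ r < 1 → 0 ≤ ρ →
      ρ * (16 * M ^ 3) ^ r ≤ τ s →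
      ∃ A' ⊆ A, ∃ B' ⊆ B, ∃ j' ≤ j, τ s ^ r * A.card ≤ A'.card ∧ τ s ^ r * B.card ≤ B'.card ∧
        Mono f g A' B' j' ∧ ∀ a ∈ A', cnt f g A' B' j' (τ 0) a = 0 := by
  have hM' : (1 : ℝ) ≤ M := by exact_mod_cast hM
  set H : ℝ := 16 * M ^ 3 with hH
  have hM3 : (1 : ℝ) ≤ M ^ 3 := one_le_pow₀ hM'
  have hH1 : 1 ≤ H := by rw [hH]; linarith
  have hHR : ∀ k, 1 ≤ H ^ k := fun k => one_le_pow₀ hH1
  have hstep : ∀ s, τ s ≤ 1 → τ s / (2 * H ^ R) ≤ 1 / 2 ∧ τ s / (2 * H ^ R) ≤ τ s := by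
    intro s hs
    have h1 := hHR R
    have h2 := hτpos s
    constructor
    · rw [div_le_iff₀ (by positivity)]; linarith
    · rw [div_le_iff₀ (by positivity)]; nlinarith
  have hdec : ∀ s, τ s ≤ 1 → τ (s + 1) ≤ τ s / (2 * H ^ R) / (2 * H) := by
    intro s hs
    have h1 := (hstep s hs).1
    have h0 : 0 < τ s / (2 * H ^ R) := by have := hτpos s; positivity
    rw [hτ s]
    set η := τ s / (2 * H ^ R)
    rw [div_le_div_iff₀ (by positivity) (by positivity)]
    have : 0 < η * H := by positivity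
    nlinarith
  have hdec' : ∀ s, τ s ≤ 1 → τ (s + 1) ≤ τ s := by
    intro s hs
    refine (hdec s hs).trans (le_trans ?_ (hstep s hs).2)
    have h0 : 0 < τ s / (2 * H ^ R) := by have := hτpos s; positivity
    rw [div_le_iff₀ (by positivity)]
    nlinarith
  have hle : ∀ s, τ s ≤ τ 0 := by
    intro s
    induction s with
    | zero => exact le_rfl
    | succ s ih => exact (hdec' s (ih.trans hτ0)).trans ih
  have hle1 : ∀ s, τ s ≤ 1 := fun s => (hle s).trans hτ0
  have hdone : ∀ (r s : ℕ) (A : Finset X) (B : Finset Y) (j : ℕ) (N ρ : ℝ), Mono f g A B j →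
      Inv f g A B j N ρ → N < 1 → 0 ≤ ρ → ρ * H ^ r ≤ τ s →
      ∃ A' ⊆ A, ∃ B' ⊆ B, ∃ j' ≤ j, τ s ^ r * A.card ≤ A'.card ∧ τ s ^ r * B.card ≤ B'.card ∧
        Mono f g A' B' j' ∧ ∀ a ∈ A', cnt f g A' B' j' (τ 0) a = 0 := by
    intro r s A B j N ρ hm hI hN hρ0 hρ
    have h1 : τ s ^ r ≤ 1 := pow_le_one₀ (hτpos s).le (hle1 s)
    refine ⟨A, Subset.rfl, B, Subset.rfl, j, le_rfl, ?_, ?_, hm, ?_⟩
    · exact mul_le_of_le_one_left (by positivity) h1
    · exact mul_le_of_le_one_left (by positivity) h1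
    · intro a ha
      have h2 : ρ ≤ τ 0 := by
        have := hHR r
        have := hle s
        nlinarith
      have h3 := cnt_anti f g A B j h2 a
      have h4 : (cnt f g A B j ρ a : ℝ) < 1 := (hI a ha).trans_lt hN
      have h5 : cnt f g A B j ρ a < 1 := by exact_mod_cast h4
      omega
  intro r
  induction r with
  | zero =>
    intro _ s A B j N ρ _ _ _ hm hI _ hN hρ0 hρ
    exact hdone 0 s A B j N ρ hm hI (by simpa using hN) hρ0 hρ
  | succ r ih =>
    intro hr s A B j N ρ hA hB hj hm hI hN1 hN2 hρ0 hρ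
    by_cases hN : N < 1
    · exact hdone _ s A B j N ρ hm hI hN hρ0 hρ
    have hN := not_lt.1 hN
    obtain ⟨s, rfl⟩ : ∃ s', s = s' + 1 := by
      cases s with
      | zero => simp at hN1; linarith
      | succ s => exact ⟨s, rfl⟩
    set η := τ s / (2 * H ^ R) with hηdef
    have hη : 0 < η := by have := hτpos s; positivity
    have hη1 : η ≤ 1 / 2 := (hstep s (hle1 s)).1
    have hρ' : ρ * H ≤ η ^ 2 := by
      have h1 : ρ * H ≤ ρ * H ^ (r + 1) := by
        apply mul_le_mul_of_nonneg_left _ hρ0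
        rw [pow_succ]
        have := hHR r
        nlinarith
      have h2 : τ (s + 1) ≤ η ^ 2 := by
        rw [hτ s, div_le_iff₀ (by positivity)]
        have : 0 ≤ η ^ 2 := by positivity
        nlinarith
      linarith
    obtain ⟨A1, hA1, B1, hB1, hc1, hc2, hcase⟩ :=
      round f g A B hA hB j M hj hm N ρ η φ hI hη (by linarith) hρ0 hρ'
    have hσ : τ (s + 1) ≤ η / (32 * M ^ 3) := by
      have := hdec s (hle1 s)
      have h2 : 2 * H = 32 * M ^ 3 := by rw [hH]; ring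
      rw [h2] at this
      exact this
    have hA' : (0 : ℝ) < A.card := by exact_mod_cast hA.card_pos
    have hB' : (0 : ℝ) < B.card := by exact_mod_cast hB.card_pos
    have hp := hτpos (s + 1)
    have hc1' : τ (s + 1) * A.card ≤ A1.card := le_trans (by gcongr) hc1
    have hc2' : τ (s + 1) * B.card ≤ B1.card := le_trans (by gcongr) hc2
    have hA1n : A1.Nonempty := by
      rw [← card_pos]
      have : (0 : ℝ) < A1.card := lt_of_lt_of_le (by positivity) hc1'
      exact_mod_cast this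
    have hB1n : B1.Nonempty := by
      rw [← card_pos]
      have : (0 : ℝ) < B1.card := lt_of_lt_of_le (by positivity) hc2'
      exact_mod_cast this
    have hfin : ∀ (t : ℝ) (c c1 c2 : ℝ), τ (s + 1) ≤ t → τ (s + 1) * c ≤ c1 → t ^ r * c1 ≤ c2 →
        0 ≤ c → τ (s + 1) ^ (r + 1) * c ≤ c2 := by
      intro t c c1 c2 h1 h2 h3 h4
      have h5 : τ (s + 1) ^ r ≤ t ^ r := pow_le_pow_left₀ hp.le h1 r
      have h6 : 0 ≤ t ^ r := le_trans (by positivity) h5
      calc τ (s + 1) ^ (r + 1) * c = τ (s + 1) ^ r * (τ (s + 1) * c) := by ring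
        _ ≤ t ^ r * (τ (s + 1) * c) := by gcongr
        _ ≤ t ^ r * c1 := by gcongr
        _ ≤ c2 := h3
    rcases hcase with ⟨hm1, hI1⟩ | ⟨j1, hj1, hm1, hI1⟩
    · obtain ⟨A2, hA2, B2, hB2, j2, hj2, h1, h2, h3, h4⟩ :=
        ih (by omega) (s + 1) A1 B1 j ((1 - φ) * N) (16 * M ^ 2 * ρ) hA1n hB1n hj hm1 hI1
          (by
            have : 0 ≤ φ * (N * φ ^ (s + 1)) := by positivity
            nlinarith)
          (by rw [pow_succ] at hN2; linarith) (by positivity)
          (by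
            refine le_trans ?_ hρ
            have h1 : 16 * (M : ℝ) ^ 2 ≤ H := by
              rw [hH]
              have : (M : ℝ) ^ 2 ≤ M ^ 3 := pow_le_pow_right₀ hM' (by norm_num)
              linarith
            calc 16 * (M : ℝ) ^ 2 * ρ * H ^ r ≤ H * ρ * H ^ r := by gcongr
              _ = _ := by ring)
      exact ⟨A2, hA2.trans hA1, B2, hB2.trans hB1, j2, hj2,
        hfin _ _ _ _ le_rfl hc1' h1 hA'.le, hfin _ _ _ _ le_rfl hc2' h2 hB'.le, h3, h4⟩
    · obtain ⟨A2, hA2, B2, hB2, j2, hj2, h1, h2, h3, h4⟩ :=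
        ih (by omega) s A1 B1 j1 (φ * N) (2 * η) hA1n hB1n (by omega) hm1 hI1
          (by rw [pow_succ] at hN1; linarith)
          (by
            rw [pow_succ] at hN2
            have h0 : 0 ≤ N * (1 - φ) ^ r := by
              have : 0 ≤ 1 - φ := by linarith
              positivity
            nlinarith) (by positivity)
          (by
            have h1 : H ^ r ≤ H ^ R := pow_le_pow_right₀ hH1 (by omega)
            have h2 : 2 * η * H ^ R = τ s := by rw [hηdef]; field_simp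
            calc 2 * η * H ^ r ≤ 2 * η * H ^ R := by gcongr
              _ = _ := h2)
      exact ⟨A2, hA2.trans hA1, B2, hB2.trans hB1, j2, hj2.trans hj1,
        hfin _ _ _ _ (hdec' s (hle1 s)) hc1' h1 hA'.le,
        hfin _ _ _ _ (hdec' s (hle1 s)) hc2' h2 hB'.le, h3, h4⟩

/-- few pairs see an earlier test -/
lemma few_early (f : ℕ → X → V) (g : ℕ → Y → V) (A : Finset X) (B : Finset Y) (j : ℕ) (ρ : ℝ)
    (hρ : 0 ≤ ρ) (h : ∀ a ∈ A, cnt f g A B j ρ a = 0) (b : Y) (hb : b ∈ B) :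
    ((A.filter (fun a => ∃ e < j, f e a = g e b)).card : ℝ) ≤ j * (ρ * A.card) := by
  have hsub : A.filter (fun a => ∃ e < j, f e a = g e b) ⊆
      (range j).biUnion (fun e => fib (f e) A (g e b)) := by
    intro a ha
    rw [mem_filter] at ha
    obtain ⟨ha, e, he, h⟩ := ha
    exact mem_biUnion.2 ⟨e, mem_range.2 he, mem_fib.2 ⟨ha, h⟩⟩
  have h1 : ((A.filter (fun a => ∃ e < j, f e a = g e b)).card : ℝ) ≤
      ∑ e ∈ range j, ((fib (f e) A (g e b)).card : ℝ) := by
    exact_mod_cast (card_le_card hsub).trans card_biUnion_le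
  refine h1.trans ?_
  calc _ ≤ ∑ e ∈ range j, ρ * (A.card : ℝ) := by
        apply sum_le_sum
        intro e he
        rcases (fib (f e) A (g e b)).eq_empty_or_nonempty with h0 | ⟨a, ha⟩
        · rw [h0]; simp; positivity
        · rw [mem_fib] at ha
          have h2 := h a ha.1
          rw [cnt, card_eq_zero, filter_eq_empty_iff] at h2
          have h3 := h2 he
          rw [not_and] at h3
          have h4 := h3 ⟨b, hb, ha.2.symm⟩
          rw [ha.2] at h4
          exact not_lt.1 h4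
    _ = _ := by rw [sum_const, card_range, nsmul_eq_mul]

/-- the sign of the inner product -/
def sgn {n : ℕ} (x y : Fin n → Bool) : ℝ := ∏ i, if x i = true ∧ y i = true then (-1 : ℝ) else 1

lemma sgn_orth {n : ℕ} (y y' : Fin n → Bool) :
    ∑ x : Fin n → Bool, sgn x y * sgn x y' = if y = y' then (2 : ℝ) ^ n else 0 := by
  have h1 : ∀ x : Fin n → Bool, sgn x y * sgn x y' = ∏ i, ((if x i = true ∧ y i = true then
      (-1 : ℝ) else 1) * (if x i = true ∧ y' i = true then (-1 : ℝ) else 1)) := by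
    intro x
    rw [sgn, sgn, prod_mul_distrib]
  simp_rw [h1]
  have h2 := (Finset.prod_univ_sum (fun _ : Fin n => (univ : Finset Bool))
    (fun i (c : Bool) => ((if c = true ∧ y i = true then (-1 : ℝ) else 1) *
      (if c = true ∧ y' i = true then (-1 : ℝ) else 1)))).symm
  rw [Fintype.piFinset_univ] at h2
  rw [h2]
  split_ifs with h
  · subst h
    rw [← Fin.prod_const]
    apply prod_congr rfl
    intro i _
    cases hy : y i <;> (simp; try norm_num)
  · obtain ⟨i, hi⟩ := Function.ne_iff.1 h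
    apply prod_eq_zero (mem_univ i)
    cases hy : y i <;> cases hy' : y' i <;> simp_all

lemma lindsey {n : ℕ} (A B : Finset (Fin n → Bool)) :
    (∑ x ∈ A, ∑ y ∈ B, sgn x y) ^ 2 ≤ A.card * B.card * (2 : ℝ) ^ n := by
  have h1 : (∑ x ∈ A, ∑ y ∈ B, sgn x y) ^ 2 ≤ A.card * ∑ x ∈ A, (∑ y ∈ B, sgn x y) ^ 2 :=
    sq_sum_le_card_mul_sum_sq
  have h2 : ∑ x ∈ A, (∑ y ∈ B, sgn x y) ^ 2 ≤ ∑ x, (∑ y ∈ B, sgn x y) ^ 2 :=
    sum_le_sum_of_subset_of_nonneg (subset_univ _) (fun _ _ _ => sq_nonneg _)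
  have h3 : ∑ x : Fin n → Bool, (∑ y ∈ B, sgn x y) ^ 2 = B.card * (2 : ℝ) ^ n := by
    have : ∀ x : Fin n → Bool, (∑ y ∈ B, sgn x y) ^ 2 =
        ∑ y ∈ B, ∑ y' ∈ B, sgn x y * sgn x y' := by
      intro x
      rw [sq, sum_mul_sum]
    simp_rw [this]
    rw [sum_comm]
    calc _ = ∑ y ∈ B, (2 : ℝ) ^ n := by
          apply sum_congr rfl
          intro y hy
          rw [sum_comm]
          simp_rw [sgn_orth]
          rw [sum_ite_eq]
          simp [hy]
      _ = _ := by rw [sum_const, nsmul_eq_mul]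
  calc _ ≤ _ := h1
    _ ≤ A.card * (B.card * (2 : ℝ) ^ n) := by rw [← h3]; gcongr
    _ = _ := by ring

end

end Pool.Agent.Lib.MP_8a52c3_lc.EqL
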