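import Pool.Agent.Lib.MP_8a52c3_lc.EqLIter

/-!
Every short list of equality tests is nearly constant on a large rectangle; inner product is not.
-/

namespace Pool.Agent.Lib.MP_8a52c3_lc.EqL

open Finset

section
open Classical

variable {X Y V : Type}

/-- structure theorem: a large rectangle inside a block of test `j` seeing few earlier tests -/
theorem rect [Fintype X] [Fintype Y] [Nonempty X] [Nonempty Y] (f : ℕ → X → V) (g : ℕ → Y → V)
    (L s : ℕ) (hs : 1 ≤ s) (hL : L < 2 ^ (s ^ 2)) (hdef : ∀ a b, f L a = g L b) :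
    ∃ (A : Finset X) (B : Finset Y) (j : ℕ), j ≤ L ∧
      (1 / 2 : ℝ) ^ (26 * s ^ 6 * 8 ^ s) * Fintype.card X ≤ A.card ∧
      (1 / 2 : ℝ) ^ (26 * s ^ 6 * 8 ^ s) * Fintype.card Y ≤ B.card ∧
      (∀ a ∈ A, ∀ b ∈ B, f j a = g j b) ∧
      ∀ b ∈ B, ((A.filter (fun a => ∃ e < j, f e a = g e b)).card : ℝ) ≤ 1 / 4 * A.card := by
  set M := L + 1 with hMdef
  set R := s ^ 2 * 2 ^ s with hR
  have hM : (1 : ℝ) ≤ M := by exact_mod_cast (show 1 ≤ M by omega)
  have hMle : (M : ℝ) ≤ 2 ^ (s ^ 2) := by exact_mod_cast (show M ≤ 2 ^ (s ^ 2) by omega)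
  set H : ℝ := 16 * M ^ 3 with hH
  have hM3 : (1 : ℝ) ≤ M ^ 3 := one_le_pow₀ hM
  have hH1 : 1 ≤ H := by rw [hH]; linarith
  set K : ℝ := 4 * H ^ (2 * R + 1) with hK
  have hK1 : 1 ≤ K := by
    have : 1 ≤ H ^ (2 * R + 1) := one_le_pow₀ hH1
    rw [hK]; linarith
  set t0 : ℝ := 1 / (4 * M) with ht0
  let τ : ℕ → ℝ := fun k => K * (t0 / K) ^ (2 ^ k)
  have hτ0 : τ 0 = t0 := by simp only [τ]; rw [pow_zero, pow_one]; field_simp
  have ht01 : t0 ≤ 1 := by rw [ht0, div_le_one (by positivity)]; linarith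
  have hLlt : (L : ℝ) < 2 ^ (s ^ 2) := by exact_mod_cast hL
  obtain ⟨A, _, B, _, j, hj, h1, h2, h3, h4⟩ := iter f g M R ((1 / 2) ^ s) (by positivity)
    (by
      calc ((1 : ℝ) / 2) ^ s ≤ (1 / 2) ^ 1 := pow_le_pow_of_le_one (by norm_num) (by norm_num) hs
        _ = _ := by norm_num) τ (fun k => by simp only [τ]; positivity) (by rw [hτ0]; exact ht01)
    (by
      intro k
      simp only [τ]
      rw [pow_succ 2 k, pow_mul, ← hH]
      set c := (t0 / K) ^ 2 ^ k
      rw [hK]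
      field_simp
      ring) (by omega) R le_rfl s univ univ L L (τ s / H ^ R) univ_nonempty univ_nonempty
    (by omega) (fun a _ b _ => hdef a b)
    (by
      intro a _
      have : cnt f g univ univ L (τ s / H ^ R) a ≤ L :=
        (card_filter_le _ _).trans (by simp)
      exact_mod_cast this)
    (by
      rw [← pow_mul, ← sq, one_div, inv_pow, ← div_eq_mul_inv, div_lt_one (by positivity)]
      exact hLlt)
    (by
      have h1 : (1 - (1 / 2 : ℝ) ^ s) ^ (2 ^ s) ≤ 1 / 2 := by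
        have h2 : (1 - (1 / 2 : ℝ) ^ s) ≤ Real.exp (-(1 / 2 : ℝ) ^ s) := by
          have := Real.add_one_le_exp (-(1 / 2 : ℝ) ^ s)
          linarith
        have h3 : 0 ≤ (1 - (1 / 2 : ℝ) ^ s) := by
          have : (1 / 2 : ℝ) ^ s ≤ 1 := pow_le_one₀ (by norm_num) (by norm_num)
          linarith
        calc _ ≤ (Real.exp (-(1 / 2 : ℝ) ^ s)) ^ (2 ^ s) := pow_le_pow_left₀ h3 h2 _
          _ = Real.exp (-1) := by
            rw [← Real.exp_nat_mul]
            congr 1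
            push_cast
            rw [one_div, inv_pow]
            field_simp
          _ ≤ 1 / 2 := by
            rw [Real.exp_neg, one_div]
            apply inv_anti₀ (by norm_num)
            have := Real.add_one_le_exp (1 : ℝ)
            linarith
      have h3 : 0 ≤ (1 - (1 / 2 : ℝ) ^ s) := by
        have : (1 / 2 : ℝ) ^ s ≤ 1 := pow_le_one₀ (by norm_num) (by norm_num)
        linarith
      have h4 : (1 - (1 / 2 : ℝ) ^ s) ^ R ≤ (1 / 2) ^ (s ^ 2) := by
        rw [hR, mul_comm, pow_mul]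
        exact pow_le_pow_left₀ (by positivity) h1 _
      calc (L : ℝ) * (1 - (1 / 2 : ℝ) ^ s) ^ R ≤ L * (1 / 2) ^ (s ^ 2) := by gcongr
        _ < 1 := by
          rw [one_div, inv_pow, ← div_eq_mul_inv, div_lt_one (by positivity)]
          exact hLlt)
    (by simp only [τ]; positivity) (by rw [← hH]; field_simp; exact le_rfl)
  have hbig : (1 / 2 : ℝ) ^ (26 * s ^ 6 * 8 ^ s) ≤ τ s ^ R := by
    have hc : (1 / 2 : ℝ) ^ (26 * s ^ 4 * 2 ^ s) ≤ t0 / K := by
      have hHle : H ≤ 2 ^ (4 + 3 * s ^ 2) := by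
        rw [hH, pow_add, mul_comm 3, pow_mul]
        have : (M : ℝ) ^ 3 ≤ (2 ^ (s ^ 2)) ^ 3 := by gcongr
        norm_num
        linarith
      have hKle : K ≤ 2 ^ (2 + (4 + 3 * s ^ 2) * (2 * R + 1)) := by
        have : H ^ (2 * R + 1) ≤ (2 ^ (4 + 3 * s ^ 2)) ^ (2 * R + 1) := by gcongr
        rw [hK, pow_add 2 2, pow_mul 2]
        linarith
      have hexp : 2 + s ^ 2 + (2 + (4 + 3 * s ^ 2) * (2 * R + 1)) ≤ 26 * s ^ 4 * 2 ^ s := by
        have h1 : 1 ≤ s ^ 2 := Nat.one_le_pow _ _ hs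
        have h2 : 1 ≤ 2 ^ s := Nat.one_le_two_pow
        have h3 : 1 ≤ R := by rw [hR]; exact Nat.mul_pos h1 h2
        have h4 : (4 + 3 * s ^ 2) * (2 * R + 1) ≤ (7 * s ^ 2) * (3 * R) :=
          Nat.mul_le_mul (by omega) (by omega)
        have h5 : s ^ 2 ≤ s ^ 2 * R := Nat.le_mul_of_pos_right _ h3
        have h6 : 26 * s ^ 4 * 2 ^ s = 26 * (s ^ 2 * R) := by rw [hR]; ring
        have h7 : (7 * s ^ 2) * (3 * R) = 21 * (s ^ 2 * R) := by ring
        omega
      rw [ht0, div_div, one_div, one_div, inv_pow]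
      apply inv_anti₀ (by positivity)
      calc 4 * (M : ℝ) * K ≤ 4 * 2 ^ (s ^ 2) * 2 ^ (2 + (4 + 3 * s ^ 2) * (2 * R + 1)) := by gcongr
        _ = 2 ^ (2 + s ^ 2 + (2 + (4 + 3 * s ^ 2) * (2 * R + 1))) := by
          rw [pow_add 2 (2 + s ^ 2), pow_add 2 2 (s ^ 2)]; norm_num
        _ ≤ _ := pow_le_pow_right₀ (by norm_num) hexp
    have h5 : ((1 / 2 : ℝ) ^ (26 * s ^ 4 * 2 ^ s)) ^ (2 ^ s) ≤ τ s := by
      simp only [τ]
      have h6 : ((1 / 2 : ℝ) ^ (26 * s ^ 4 * 2 ^ s)) ^ (2 ^ s) ≤ (t0 / K) ^ (2 ^ s) :=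
        pow_le_pow_left₀ (by positivity) hc _
      have h7 : 0 ≤ (t0 / K) ^ (2 ^ s) := by positivity
      nlinarith
    have h8 := pow_le_pow_left₀ (by positivity) h5 R
    rw [← pow_mul, ← pow_mul] at h8
    have h9 : 26 * s ^ 4 * 2 ^ s * (2 ^ s * R) = 26 * s ^ 6 * 8 ^ s := by
      rw [hR, show (8 : ℕ) = 2 * 2 * 2 by norm_num, mul_pow, mul_pow]; ring
    rwa [h9] at h8
  refine ⟨A, B, j, hj, ?_, ?_, h3, ?_⟩
  · rw [card_univ] at h1
    exact le_trans (by gcongr) h1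
  · rw [card_univ] at h2
    exact le_trans (by gcongr) h2
  · intro b hb
    have h5 := few_early f g A B j (τ 0) (by rw [hτ0]; positivity) h4 b hb
    refine h5.trans ?_
    rw [hτ0, ht0]
    have h6 : (j : ℝ) ≤ M := by exact_mod_cast (show j ≤ M by omega)
    calc (j : ℝ) * (1 / (4 * M) * A.card) ≤ M * (1 / (4 * M) * A.card) := by gcongr
      _ = _ := by field_simp

lemma sgn_eq {n : ℕ} (x y : Fin n → Bool) :
    sgn x y = (-1) ^ (univ.filter (fun i => x i = true ∧ y i = true)).card := by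
  rw [sgn, prod_ite, prod_const, prod_const_one, mul_one]

/-- a function given by the first true equality test cannot be inner product if the list is short -/
theorem ip_bound (n L s : ℕ) (hs : 1 ≤ s) (hL : L < 2 ^ (s ^ 2))
    (f g : ℕ → (Fin n → Bool) → V) (lab : ℕ → Bool) (hdef : ∀ a b, f L a = g L b)
    (hF : ∀ x y j, j ≤ L → f j x = g j y → (∀ e < j, f e x ≠ g e y) →
      (lab j = true ↔ Odd (univ.filter (fun i => x i = true ∧ y i = true)).card)) :
    n ≤ 2 + 52 * s ^ 6 * 8 ^ s := by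
  obtain ⟨A, B, j, hj, h1, h2, h3, h4⟩ := rect f g L s hs hL hdef
  set c : ℝ := if lab j = true then -1 else 1 with hc
  have hcard : (Fintype.card (Fin n → Bool) : ℝ) = 2 ^ n := by simp
  rw [hcard] at h1 h2
  clear hcard
  have hsum : (A.card : ℝ) * B.card / 2 ≤ c * ∑ x ∈ A, ∑ y ∈ B, sgn x y := by
    rw [sum_comm, mul_sum]
    calc (A.card : ℝ) * B.card / 2 = ∑ y ∈ B, (A.card : ℝ) / 2 := by
          rw [sum_const, nsmul_eq_mul]; ring
      _ ≤ _ := by
          apply sum_le_sum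
          intro y hy
          have h5 := h4 y hy
          have h6 : ∑ x ∈ A, (1 - 2 * (if ∃ e < j, f e x = g e y then (1 : ℝ) else 0)) ≤
              c * ∑ x ∈ A, sgn x y := by
            rw [mul_sum]
            apply sum_le_sum
            intro x hx
            rw [sgn_eq]
            split_ifs with h
            · rcases neg_one_pow_eq_or ℝ
                (univ.filter (fun i => x i = true ∧ y i = true)).card with h' | h' <;>
                rw [h', hc] <;> split_ifs <;> norm_num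
            · push Not at h
              have h7 := hF x y j hj (h3 x hx y hy) h
              by_cases hl : lab j = true
              · rw [hc, if_pos hl, (h7.1 hl).neg_one_pow]; norm_num
              · have : Even (univ.filter (fun i => x i = true ∧ y i = true)).card :=
                  Nat.not_odd_iff_even.1 (fun h => hl (h7.2 h))
                rw [hc, if_neg hl, this.neg_one_pow]; norm_num
          rw [sum_sub_distrib, ← mul_sum, sum_boole, sum_const, nsmul_eq_mul] at h6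
          linarith
  have hl := lindsey A B
  have hc2 : c ^ 2 = 1 := by rw [hc]; split_ifs <;> norm_num
  set T := 26 * s ^ 6 * 8 ^ s with hT
  have hA : (0 : ℝ) < A.card := lt_of_lt_of_le (by positivity) h1
  have hB : (0 : ℝ) < B.card := lt_of_lt_of_le (by positivity) h2
  have h5 : ((A.card : ℝ) * B.card / 2) ^ 2 ≤ A.card * B.card * 2 ^ n := by
    calc _ ≤ (c * ∑ x ∈ A, ∑ y ∈ B, sgn x y) ^ 2 :=
          pow_le_pow_left₀ (div_nonneg (mul_nonneg hA.le hB.le) two_pos.le) hsum 2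
      _ = (∑ x ∈ A, ∑ y ∈ B, sgn x y) ^ 2 := by rw [mul_pow, hc2, one_mul]
      _ ≤ _ := hl
  have h6 : (A.card : ℝ) * B.card ≤ 4 * 2 ^ n := by
    have hAB : 0 < (A.card : ℝ) * B.card := mul_pos hA hB
    have : (A.card : ℝ) * B.card * (A.card * B.card) ≤ (A.card * B.card) * (4 * 2 ^ n) := by
      nlinarith
    exact le_of_mul_le_mul_left this hAB
  have h7 : ((1 / 2 : ℝ) ^ T * 2 ^ n) * ((1 / 2 : ℝ) ^ T * 2 ^ n) ≤ 4 * 2 ^ n :=
    le_trans (mul_le_mul h1 h2 (by positivity) hA.le) h6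
  have h8 : (2 : ℝ) ^ n ≤ 2 ^ (2 + 2 * T) := by
    have h9 : ((1 / 2 : ℝ) ^ T * 2 ^ n) * ((1 / 2 : ℝ) ^ T * 2 ^ n) =
        2 ^ n * (2 ^ n / 2 ^ (2 * T)) := by
      rw [one_div, inv_pow, two_mul, pow_add]; field_simp
    rw [h9, mul_comm 4] at h7
    have h10 := le_of_mul_le_mul_left h7 (by positivity)
    rw [div_le_iff₀ (by positivity)] at h10
    rw [pow_add]; norm_num; linarith
  have h11 : n ≤ 2 + 2 * T := by
    have := (pow_le_pow_iff_right₀ (by norm_num : (1 : ℝ) < 2)).1 h8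
    exact this
  have : 2 * T = 52 * s ^ 6 * 8 ^ s := by rw [hT]; ring
  omega

lemma arith (s : ℕ) : 2 + 52 * s ^ 6 * 8 ^ s < 2 ^ (4 * s + 22) := by
  have h1 : s ^ 6 ≤ 46656 * 2 ^ s := by
    have h2 : s ≤ 6 * 2 ^ (s / 6) := by
      have := Nat.lt_two_pow_self (n := s / 6)
      omega
    calc s ^ 6 ≤ (6 * 2 ^ (s / 6)) ^ 6 := Nat.pow_le_pow_left h2 6
      _ = 46656 * 2 ^ (s / 6 * 6) := by rw [mul_pow, ← pow_mul]; norm_num
      _ ≤ _ := Nat.mul_le_mul_left _ (Nat.pow_le_pow_right (by norm_num) (by omega))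
  have h3 : 2 ^ (4 * s + 22) = 4194304 * (2 ^ s * 8 ^ s) := by
    rw [pow_add, ← mul_pow, pow_mul]; norm_num; ring
  have h4 : 1 ≤ 2 ^ s * 8 ^ s := Nat.mul_pos (by positivity) (by positivity)
  have h5 : s ^ 6 * 8 ^ s ≤ 46656 * (2 ^ s * 8 ^ s) := by
    rw [← mul_assoc]; exact Nat.mul_le_mul_right _ h1
  rw [h3, mul_assoc]
  omega

end

end Pool.Agent.Lib.MP_8a52c3_lc.EqL
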