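import Mathlib

/-!
One round of the kill-or-zoom argument for decision lists of equality tests.
-/

namespace Pool.Agent.Lib.MP_8a52c3_lc.EqL

open Finset

section
open Classical

variable {X Y V : Type}

/-- fibre of `F` over `v` inside `A` -/
noncomputable def fib (F : X → V) (A : Finset X) (v : V) : Finset X := A.filter (fun a => F a = v)

lemma fib_subset (F : X → V) (A : Finset X) (v : V) : fib F A v ⊆ A := filter_subset _ _

lemma fib_mono (F : X → V) {A A' : Finset X} (h : A' ⊆ A) (v : V) : fib F A' v ⊆ fib F A v :=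
  filter_subset_filter _ h

lemma mem_fib {F : X → V} {A : Finset X} {v : V} {a : X} : a ∈ fib F A v ↔ a ∈ A ∧ F a = v := by
  simp [fib]

lemma sum_fib_le (F : X → V) (A : Finset X) (W : Finset V) :
    ∑ v ∈ W, ((fib F A v).card : ℝ) ≤ A.card := by
  have h : ∑ v ∈ W, (fib F A v).card ≤ A.card := by
    rw [← card_biUnion]
    · apply card_le_card
      intro a ha
      simp only [mem_biUnion] at ha
      obtain ⟨v, _, hv⟩ := ha
      exact fib_subset _ _ _ hv
    · intro v _ w _ hvw
      simp only [Function.onFun]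
      rw [disjoint_left]
      intro a ha hb
      rw [mem_fib] at ha hb
      exact hvw (ha.2.symm.trans hb.2)
  exact_mod_cast h

lemma sum_fib_image (F : X → V) (A : Finset X) :
    ∑ v ∈ A.image F, ((fib F A v).card : ℝ) = A.card := by
  have h := card_eq_sum_card_image F A
  have : ∑ v ∈ A.image F, (fib F A v).card = A.card := by
    rw [h]; rfl
  exact_mod_cast this

/-- few heavy values -/
lemma heavy_card (F : X → V) (A : Finset X) (hA : A.Nonempty) (W : Finset V) (κ : ℝ)
    (hW : ∀ v ∈ W, κ * A.card ≤ (fib F A v).card) : (W.card : ℝ) * κ ≤ 1 := by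
  have h1 := sum_fib_le F A W
  have h2 : ∑ v ∈ W, κ * (A.card : ℝ) ≤ ∑ v ∈ W, ((fib F A v).card : ℝ) := sum_le_sum hW
  have hA' : (0 : ℝ) < A.card := by exact_mod_cast hA.card_pos
  rw [sum_const, nsmul_eq_mul] at h2
  have : (W.card : ℝ) * κ * A.card ≤ 1 * A.card := by linarith
  exact le_of_mul_le_mul_right this hA'

/-- number of earlier tests whose block at `a` is alive (meets `B`) and heavy in `A` -/
noncomputable def cnt (f : ℕ → X → V) (g : ℕ → Y → V) (A : Finset X) (B : Finset Y) (j : ℕ)
    (ρ : ℝ) (a : X) : ℕ :=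
  ((range j).filter (fun e => (∃ b ∈ B, g e b = f e a) ∧
    ρ * A.card < (fib (f e) A (f e a)).card)).card

def Inv (f : ℕ → X → V) (g : ℕ → Y → V) (A : Finset X) (B : Finset Y) (j : ℕ) (N ρ : ℝ) : Prop :=
  ∀ a ∈ A, (cnt f g A B j ρ a : ℝ) ≤ N

def Mono (f : ℕ → X → V) (g : ℕ → Y → V) (A : Finset X) (B : Finset Y) (j : ℕ) : Prop :=
  ∀ a ∈ A, ∀ b ∈ B, f j a = g j b

/-- Bob's points in blocks that are heavy for Alice and light for Bob -/
lemma light_del (f : ℕ → X → V) (g : ℕ → Y → V) (A : Finset X) (B : Finset Y) (hA : A.Nonempty)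
    (j : ℕ) (κ δ : ℝ) (hκ : 0 < κ) (hδ : 0 ≤ δ) :
    ((B.filter (fun b => ∃ e < j, κ * A.card < (fib (f e) A (g e b)).card ∧
      ((fib (g e) B (g e b)).card : ℝ) < δ * B.card)).card : ℝ) * κ ≤ j * δ * B.card := by
  set D := B.filter (fun b => ∃ e < j, κ * A.card < (fib (f e) A (g e b)).card ∧
      ((fib (g e) B (g e b)).card : ℝ) < δ * B.card) with hD
  let W : ℕ → Finset V := fun e => (B.image (g e)).filter (fun v =>
    κ * A.card < (fib (f e) A v).card ∧ ((fib (g e) B v).card : ℝ) < δ * B.card)
  have hsub : D ⊆ (range j).biUnion (fun e => (W e).biUnion (fun v => fib (g e) B v)) := by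
    intro b hb
    rw [hD, mem_filter] at hb
    obtain ⟨hb, e, he, h1, h2⟩ := hb
    simp only [mem_biUnion, mem_range]
    refine ⟨e, he, g e b, ?_, ?_⟩
    · simp only [W, mem_filter]
      exact ⟨mem_image_of_mem _ hb, h1, h2⟩
    · exact mem_fib.2 ⟨hb, rfl⟩
  have h1 : (D.card : ℝ) ≤ ∑ e ∈ range j, ∑ v ∈ W e, ((fib (g e) B v).card : ℝ) := by
    have := (card_le_card hsub).trans card_biUnion_le
    have h2 : ∑ e ∈ range j, ((W e).biUnion (fun v => fib (g e) B v)).card ≤
        ∑ e ∈ range j, ∑ v ∈ W e, (fib (g e) B v).card :=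
      sum_le_sum (fun e _ => card_biUnion_le)
    exact_mod_cast this.trans h2
  have h3 : ∀ e ∈ range j, (∑ v ∈ W e, ((fib (g e) B v).card : ℝ)) * κ ≤ δ * B.card := by
    intro e _
    have h4 : ∑ v ∈ W e, ((fib (g e) B v).card : ℝ) ≤ ∑ v ∈ W e, δ * (B.card : ℝ) := by
      apply sum_le_sum
      intro v hv
      simp only [W, mem_filter] at hv
      exact hv.2.2.le
    rw [sum_const, nsmul_eq_mul] at h4
    have h5 : ((W e).card : ℝ) * κ ≤ 1 := by
      apply heavy_card (f e) A hA
      intro v hv
      simp only [W, mem_filter] at hv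
      exact hv.2.1.le
    have h6 : 0 ≤ δ * (B.card : ℝ) := by positivity
    calc _ ≤ ((W e).card : ℝ) * (δ * B.card) * κ := by gcongr
      _ = ((W e).card * κ) * (δ * B.card) := by ring
      _ ≤ 1 * (δ * B.card) := by gcongr
      _ = _ := by ring
  calc (D.card : ℝ) * κ ≤ (∑ e ∈ range j, ∑ v ∈ W e, ((fib (g e) B v).card : ℝ)) * κ := by gcongr
    _ = ∑ e ∈ range j, (∑ v ∈ W e, ((fib (g e) B v).card : ℝ)) * κ := by rw [sum_mul]
    _ ≤ ∑ e ∈ range j, δ * (B.card : ℝ) := sum_le_sum h3
    _ = _ := by rw [sum_const, card_range, nsmul_eq_mul]; ring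

/-- a set `S ⊆ A` is amplified in few parts -/
lemma amp_one (F : X → V) (A U S : Finset X) (W : Finset V) (G : ℝ) :
    (∑ v ∈ W.filter (fun v => G * S.card * (fib F U v).card < ((fib F U v ∩ S).card : ℝ) * A.card),
      ((fib F U v).card : ℝ)) * G ≤ A.card := by
  set W' := W.filter (fun v => G * S.card * (fib F U v).card <
    ((fib F U v ∩ S).card : ℝ) * A.card) with hW'
  rcases S.eq_empty_or_nonempty with hS | hS
  · have : W' = ∅ := by
      rw [hW', filter_eq_empty_iff]
      intro v _
      simp [hS]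
    rw [this]; simp
  have hS' : (0 : ℝ) < S.card := by exact_mod_cast hS.card_pos
  have h1 : ∑ v ∈ W', G * S.card * ((fib F U v).card : ℝ) ≤
      ∑ v ∈ W', ((fib F S v).card : ℝ) * A.card := by
    apply sum_le_sum
    intro v hv
    rw [hW', mem_filter] at hv
    refine hv.2.le.trans ?_
    have : (fib F U v ∩ S).card ≤ (fib F S v).card := by
      apply card_le_card
      intro a ha
      rw [mem_inter, mem_fib] at ha
      exact mem_fib.2 ⟨ha.2, ha.1.2⟩
    have h' : ((fib F U v ∩ S).card : ℝ) ≤ (fib F S v).card := by exact_mod_cast this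
    gcongr
  rw [← mul_sum, ← sum_mul] at h1
  have h2 := sum_fib_le F S W'
  have h3 : (∑ v ∈ W', ((fib F S v).card : ℝ)) * A.card ≤ S.card * A.card := by gcongr
  have h4 : (∑ v ∈ W', ((fib F U v).card : ℝ)) * G * S.card ≤ A.card * S.card := by linarith
  exact le_of_mul_le_mul_right h4 hS'

/-- some part amplifies few of Bob's blocks -/
lemma amp_avg (f : ℕ → X → V) (g : ℕ → Y → V) (A U : Finset X) (B : Finset Y) (F : X → V)
    (W : Finset V) (j : ℕ) (G t : ℝ) (hG : 0 < G) (hW : W.Nonempty)
    (hpos : ∀ v ∈ W, (0 : ℝ) < (fib F U v).card)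
    (ht : j * (A.card : ℝ) ≤ t * G * ∑ v ∈ W, ((fib F U v).card : ℝ)) :
    ∃ v ∈ W, ((B.filter (fun b => ∃ e < j, G * (fib (f e) A (g e b)).card * (fib F U v).card <
      ((fib F U v ∩ fib (f e) A (g e b)).card : ℝ) * A.card)).card : ℝ) ≤ t * B.card := by
  by_contra hcon
  push Not at hcon
  let amp : V → ℕ → Y → Prop := fun v e b => G * (fib (f e) A (g e b)).card * (fib F U v).card <
      ((fib F U v ∩ fib (f e) A (g e b)).card : ℝ) * A.card
  let D : V → Finset Y := fun v => B.filter (fun b => ∃ e < j, amp v e b)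
  have h1 : ∑ v ∈ W, ((fib F U v).card : ℝ) * (t * B.card) <
      ∑ v ∈ W, ((fib F U v).card : ℝ) * (D v).card := by
    apply sum_lt_sum_of_nonempty hW
    intro v hv
    exact mul_lt_mul_of_pos_left (hcon v hv) (hpos v hv)
  have h2 : ∀ v, ((D v).card : ℝ) ≤ ∑ b ∈ B, ∑ e ∈ range j, if amp v e b then (1 : ℝ) else 0 := by
    intro v
    rw [card_eq_sum_ones, Nat.cast_sum, sum_filter]
    apply sum_le_sum
    intro b _
    split_ifs with h
    · obtain ⟨e, he, hamp⟩ := h
      have := single_le_sum (f := fun e => if amp v e b then (1 : ℝ) else 0) (s := range j)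
        (fun i _ => by split_ifs <;> norm_num) (mem_range.2 he)
      simpa [hamp] using this
    · apply sum_nonneg
      intro i _
      split_ifs <;> norm_num
  have h3 : ∑ v ∈ W, ((fib F U v).card : ℝ) * (D v).card ≤
      ∑ b ∈ B, ∑ e ∈ range j, ∑ v ∈ W.filter (fun v => amp v e b), ((fib F U v).card : ℝ) := by
    calc _ ≤ ∑ v ∈ W, ((fib F U v).card : ℝ) *
          ∑ b ∈ B, ∑ e ∈ range j, if amp v e b then (1 : ℝ) else 0 := by
          apply sum_le_sum
          intro v _
          exact mul_le_mul_of_nonneg_left (h2 v) (by positivity)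
      _ = ∑ v ∈ W, ∑ b ∈ B, ∑ e ∈ range j,
          if amp v e b then ((fib F U v).card : ℝ) else 0 := by
          apply sum_congr rfl
          intro v _
          rw [mul_sum]
          apply sum_congr rfl
          intro b _
          rw [mul_sum]
          apply sum_congr rfl
          intro e _
          split_ifs <;> simp
      _ = _ := by
          rw [sum_comm]
          apply sum_congr rfl
          intro b _
          rw [sum_comm]
          apply sum_congr rfl
          intro e _
          rw [sum_filter]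
  have h4 : (∑ b ∈ B, ∑ e ∈ range j, ∑ v ∈ W.filter (fun v => amp v e b),
      ((fib F U v).card : ℝ)) * G ≤ B.card * (j * A.card) := by
    rw [sum_mul]
    calc _ ≤ ∑ b ∈ B, (j * (A.card : ℝ)) := by
          apply sum_le_sum
          intro b _
          rw [sum_mul]
          calc _ ≤ ∑ e ∈ range j, (A.card : ℝ) :=
                sum_le_sum (fun e _ => amp_one F A U (fib (f e) A (g e b)) W G)
            _ = _ := by rw [sum_const, card_range, nsmul_eq_mul]
      _ = _ := by rw [sum_const, nsmul_eq_mul]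
  rw [← sum_mul] at h1
  have hB : (0 : ℝ) ≤ B.card := by positivity
  have h5 : (B.card : ℝ) * (j * A.card) ≤ B.card * (t * G * ∑ v ∈ W, ((fib F U v).card : ℝ)) := by
    gcongr
  have h6 := mul_lt_mul_of_pos_right (h1.trans_le h3) hG
  nlinarith

/-- choice of the reference test and of its parts -/
lemma parts (f : ℕ → X → V) (g : ℕ → Y → V) (A : Finset X) (B : Finset Y) (hA : A.Nonempty)
    (j M : ℕ) (hj : j < M) (hm : Mono f g A B j) (hB : B.Nonempty) (κ δ : ℝ) (hκ : 0 < κ)
    (hκ1 : κ < 1) (hδ1 : δ ≤ 1) :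
    ∃ j' ≤ j, ∃ U ⊆ A, ∃ W : Finset V,
      (∀ v ∈ W, κ / (2 * M) * A.card ≤ (fib (f j') U v).card) ∧
      (∀ v ∈ W, δ * B.card ≤ (fib (g j') B v).card) ∧
      (A.card : ℝ) ≤ 2 * M * ∑ v ∈ W, ((fib (f j') U v).card : ℝ) ∧
      (∀ a ∈ U, ∀ e < j', ¬ (κ * A.card < (fib (f e) A (f e a)).card ∧
        δ * B.card ≤ (fib (g e) B (f e a)).card)) := by
  let heavy : ℕ → X → Prop := fun e a => κ * A.card < (fib (f e) A (f e a)).card ∧
        δ * B.card ≤ (fib (g e) B (f e a)).card
  have hA' : (0 : ℝ) < A.card := by exact_mod_cast hA.card_pos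
  have hB' : (0 : ℝ) < B.card := by exact_mod_cast hB.card_pos
  have hM : (0 : ℝ) < M := by
    have : 0 < M := by omega
    exact_mod_cast this
  have hj' : ∀ a ∈ A, heavy j a := by
    intro a ha
    obtain ⟨b0, hb0⟩ := hB
    have h1 : fib (f j) A (f j a) = A := by
      apply filter_true_of_mem
      intro a' ha'
      rw [hm a' ha' b0 hb0, hm a ha b0 hb0]
    have h2 : fib (g j) B (f j a) = B := by
      apply filter_true_of_mem
      intro b hb
      exact (hm a ha b hb).symm
    refine ⟨?_, ?_⟩
    · rw [h1]; nlinarith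
    · rw [h2]; nlinarith
  let top : X → ℕ := fun a => if h : ∃ e, heavy e a then Nat.find h else 0
  have htop : ∀ a ∈ A, top a ≤ j ∧ heavy (top a) a ∧ ∀ e < top a, ¬ heavy e a := by
    intro a ha
    have h : ∃ e, heavy e a := ⟨j, hj' a ha⟩
    have : top a = Nat.find h := by simp only [top]; rw [dif_pos h]
    rw [this]
    exact ⟨Nat.find_min' h (hj' a ha), Nat.find_spec h, fun e he => Nat.find_min h he⟩
  obtain ⟨j', hj'M, hU⟩ : ∃ j' ∈ range (j + 1), (A.card : ℝ) / M ≤ (fib top A j').card := by
    by_contra hcon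
    push Not at hcon
    have h1 : ∑ i ∈ range (j + 1), ((fib top A i).card : ℝ) <
        ∑ i ∈ range (j + 1), (A.card : ℝ) / M :=
      sum_lt_sum_of_nonempty ⟨0, by simp⟩ hcon
    have h2 : A.card = ∑ i ∈ range (j + 1), (fib top A i).card := by
      rw [card_eq_sum_card_fiberwise (f := top) (t := range (j + 1)) (fun a ha => by
        have := (htop a ha).1
        simp only [coe_range, Set.mem_Iio]; omega)]
      apply sum_congr rfl
      intro i _
      congr 1
      ext a
      simp [mem_fib]
    have h3 : (A.card : ℝ) = ∑ i ∈ range (j + 1), ((fib top A i).card : ℝ) := by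
      rw [← Nat.cast_sum, ← h2]
    rw [← h3, sum_const, card_range, nsmul_eq_mul] at h1
    clear h2 h3
    have h4 : ((j + 1 : ℕ) : ℝ) ≤ M := Nat.cast_le.2 hj
    have h5 : ((j + 1 : ℕ) : ℝ) * (A.card / M) ≤ M * (A.card / M) := by gcongr
    have h6 : (M : ℝ) * (A.card / M) = A.card := by field_simp
    linarith
  set U := fib top A j' with hUdef
  have hUA : U ⊆ A := fib_subset _ _ _
  have hUtop : ∀ a ∈ U, top a = j' := fun a ha => (mem_fib.1 ha).2
  let W0 := U.image (f j')
  have hW0 : ∀ v ∈ W0, κ * A.card < (fib (f j') A v).card ∧ δ * B.card ≤ (fib (g j') B v).card := by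
    intro v hv
    obtain ⟨a, ha, rfl⟩ := mem_image.1 hv
    have := (htop a (hUA ha)).2.1
    rw [hUtop a ha] at this
    exact this
  have hW0c : (W0.card : ℝ) * κ ≤ 1 := heavy_card (f j') A hA W0 κ (fun v hv => (hW0 v hv).1.le)
  refine ⟨j', by simpa [Nat.lt_succ_iff] using hj'M, U, hUA,
    W0.filter (fun v => κ / (2 * M) * A.card ≤ (fib (f j') U v).card), ?_, ?_, ?_, ?_⟩
  · intro v hv
    exact (mem_filter.1 hv).2
  · intro v hv
    exact (hW0 v (mem_filter.1 hv).1).2
  · have h1 := sum_fib_image (f j') U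
    rw [← sum_filter_add_sum_filter_not W0
      (fun v => κ / (2 * M) * A.card ≤ (fib (f j') U v).card)] at h1
    have h2 : ∑ v ∈ W0.filter (fun v => ¬ κ / (2 * M) * A.card ≤ (fib (f j') U v).card),
        ((fib (f j') U v).card : ℝ) ≤ A.card / (2 * M) := by
      calc _ ≤ ∑ v ∈ W0.filter (fun v => ¬ κ / (2 * M) * A.card ≤ (fib (f j') U v).card),
            κ / (2 * M) * (A.card : ℝ) := by
            apply sum_le_sum
            intro v hv
            exact (not_le.1 (mem_filter.1 hv).2).le
        _ ≤ ∑ v ∈ W0, κ / (2 * M) * (A.card : ℝ) := by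
            apply sum_le_sum_of_subset_of_nonneg (filter_subset _ _)
            intro i _ _
            positivity
        _ = (W0.card * κ) * (A.card / (2 * M)) := by
            rw [sum_const, nsmul_eq_mul]; field_simp
        _ ≤ 1 * (A.card / (2 * M)) := by gcongr
        _ = _ := by ring
    have h3 : (A.card : ℝ) / M = 2 * (A.card / (2 * M)) := by field_simp
    have h4 : (A.card : ℝ) / (2 * M) ≤
        ∑ v ∈ W0.filter (fun v => κ / (2 * M) * A.card ≤ (fib (f j') U v).card),
        ((fib (f j') U v).card : ℝ) := by linarith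
    rw [div_le_iff₀ (by positivity)] at h4
    linarith
  · intro a ha e he
    have := (htop a (hUA ha)).2.2 e (by rw [hUtop a ha]; exact he)
    exact this

/-- one round: either kill a fraction of the relevant tests, or zoom into a block -/
theorem round (f : ℕ → X → V) (g : ℕ → Y → V) (A : Finset X) (B : Finset Y) (hA : A.Nonempty)
    (hB : B.Nonempty) (j M : ℕ) (hj : j < M) (hm : Mono f g A B j) (N ρ η φ : ℝ)
    (hI : Inv f g A B j N ρ) (hη : 0 < η) (hη1 : η ≤ 1) (hρ0 : 0 ≤ ρ)
    (hρ : ρ * (16 * M ^ 3) ≤ η ^ 2) :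
    ∃ A' ⊆ A, ∃ B' ⊆ B, η / (32 * M ^ 3) * A.card ≤ A'.card ∧ η / (32 * M ^ 3) * B.card ≤ B'.card ∧
      ((Mono f g A' B' j ∧ Inv f g A' B' j ((1 - φ) * N) (16 * M ^ 2 * ρ)) ∨
        ∃ j' ≤ j, Mono f g A' B' j' ∧ Inv f g A' B' j' (φ * N) (2 * η)) := by
  have hA' : (0 : ℝ) < A.card := by exact_mod_cast hA.card_pos
  have hB' : (0 : ℝ) < B.card := by exact_mod_cast hB.card_pos
  have hM : (1 : ℝ) ≤ M := by
    have : 1 ≤ M := by omega
    exact_mod_cast this
  have hjM : (j : ℝ) ≤ M := by exact_mod_cast hj.le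
  have hM2 : (1 : ℝ) ≤ M ^ 2 := one_le_pow₀ hM
  have hM3 : (1 : ℝ) ≤ M ^ 3 := one_le_pow₀ hM
  set κ : ℝ := η / (8 * M ^ 2) with hκdef
  set δ : ℝ := η / (32 * M ^ 3) with hδdef
  have hκ : 0 < κ := by positivity
  have hδ : 0 < δ := by positivity
  have hκ1 : κ < 1 := by
    rw [hκdef, div_lt_one (by positivity)]; linarith
  have hδ1 : δ ≤ 1 / 2 := by
    rw [hδdef, div_le_iff₀ (by positivity)]; linarith
  have hκδ : κ / (2 * M) = 2 * δ := by rw [hκdef, hδdef]; field_simp; ring
  obtain ⟨j', hj', U, hUA, W, hW1, hW2, hW3, hW4⟩ :=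
    parts f g A B hA j M hj hm hB κ δ hκ hκ1 (by linarith)
  rw [hκδ] at hW1
  let P : V → Finset X := fun v => fib (f j') U v
  have hPA : ∀ v, P v ⊆ A := fun v => (fib_subset _ _ _).trans hUA
  let near : V → X → Finset ℕ := fun v a => (range j').filter (fun e => (∃ b ∈ B, g e b = f e a) ∧
    η * (P v).card < (fib (f e) (P v) (f e a)).card)
  let Z : V → Finset X := fun v => (P v).filter (fun a => ((near v a).card : ℝ) ≤ φ * N)
  by_cases hz : ∃ v ∈ W, (P v).card ≤ 2 * (Z v).card
  · obtain ⟨v, hv, hz⟩ := hz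
    have hz' : ((P v).card : ℝ) ≤ 2 * (Z v).card := by exact_mod_cast hz
    have hZP : Z v ⊆ P v := filter_subset _ _
    refine ⟨Z v, hZP.trans (hPA v), fib (g j') B v, fib_subset _ _ _, ?_, hW2 v hv, Or.inr
      ⟨j', hj', ?_, ?_⟩⟩
    · have := hW1 v hv
      simp only [P] at hz'
      linarith
    · intro a ha b hb
      rw [(mem_fib.1 (hZP ha)).2, (mem_fib.1 hb).2]
    · intro a ha
      refine le_trans ?_ (mem_filter.1 ha).2
      have : cnt f g (Z v) (fib (g j') B v) j' (2 * η) a ≤ (near v a).card := by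
        apply card_le_card
        intro e he
        rw [mem_filter] at he ⊢
        obtain ⟨he1, ⟨b, hb, hb'⟩, he3⟩ := he
        refine ⟨he1, ⟨b, fib_subset _ _ _ hb, hb'⟩, ?_⟩
        have h1 : ((fib (f e) (Z v) (f e a)).card : ℝ) ≤ (fib (f e) (P v) (f e a)).card := by
          exact Nat.cast_le.2 (card_le_card (fib_mono _ hZP _))
        nlinarith
      exact_mod_cast this
  · push Not at hz
    have hWne : W.Nonempty := by
      rcases W.eq_empty_or_nonempty with h | h
      · rw [h] at hW3; simp at hW3; exact absurd hW3 (by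
          intro h0
          rw [h0] at hA
          exact not_nonempty_empty hA)
      · exact h
    obtain ⟨v, hv, hD2⟩ := amp_avg f g A U B (f j') W j (8 * M ^ 2) (1 / 4) (by positivity) hWne
      (fun v hv => lt_of_lt_of_le (by positivity) (hW1 v hv)) (by
        have h0 : 0 ≤ ∑ v ∈ W, ((fib (f j') U v).card : ℝ) := sum_nonneg (fun _ _ => by positivity)
        calc (j : ℝ) * A.card ≤ M * (2 * M * ∑ v ∈ W, ((fib (f j') U v).card : ℝ)) := by gcongr
          _ = _ := by ring)
    have hD1 := light_del f g A B hA j κ δ hκ hδ.le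
    set D1 := B.filter (fun b => ∃ e < j, κ * A.card < (fib (f e) A (g e b)).card ∧
      ((fib (g e) B (g e b)).card : ℝ) < δ * B.card) with hD1def
    set D2 := B.filter (fun b => ∃ e < j, 8 * (M : ℝ) ^ 2 * (fib (f e) A (g e b)).card *
      (fib (f j') U v).card <
      ((fib (f j') U v ∩ fib (f e) A (g e b)).card : ℝ) * A.card) with hD2def
    have hD1' : (D1.card : ℝ) ≤ 1 / 4 * B.card := by
      have h1 : (j : ℝ) * δ * B.card ≤ M * δ * B.card := by gcongr
      have h2 : (M : ℝ) * δ = κ / 4 := by rw [hκdef, hδdef]; field_simp; ring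
      rw [h2] at h1
      have h3 : (D1.card : ℝ) * κ ≤ (1 / 4 * B.card) * κ := by linarith
      exact le_of_mul_le_mul_right h3 hκ
    let A' := P v \ Z v
    let B' := B \ (D1 ∪ D2)
    have hA'P : A' ⊆ P v := sdiff_subset
    have hA'c : ((P v).card : ℝ) ≤ 2 * A'.card := by
      have h1 : A'.card + (Z v).card = (P v).card :=
        card_sdiff_add_card_eq_card (filter_subset _ _)
      have h2 := hz v hv
      have : (P v).card ≤ 2 * A'.card := by omega
      exact_mod_cast this
    have hB'c : (B.card : ℝ) ≤ 2 * B'.card := by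
      have h1 : B.card ≤ B'.card + (D1 ∪ D2).card := card_le_card_sdiff_add_card
      have h2 := card_union_le D1 D2
      have h3 : (B.card : ℝ) ≤ B'.card + (D1.card + D2.card) := by
        exact_mod_cast h1.trans (by omega)
      linarith
    have hPv := hW1 v hv
    have hPpos : (0 : ℝ) < (P v).card := lt_of_lt_of_le (by positivity) hPv
    have hint : ∀ e w, fib (f j') U v ∩ fib (f e) A w = fib (f e) (P v) w := by
      intro e w
      ext a
      simp only [mem_inter, P, mem_fib]
      constructor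
      · rintro ⟨h1, h2⟩; exact ⟨h1, h2.2⟩
      · rintro ⟨h1, h2⟩; exact ⟨h1, hUA h1.1, h2⟩
    refine ⟨A', hA'P.trans (hPA v), B', sdiff_subset, ?_, ?_, Or.inl ⟨?_, ?_⟩⟩
    · simp only [P] at hA'c
      linarith
    · nlinarith
    · intro a ha b hb
      exact hm a (hPA v (hA'P ha)) b (sdiff_subset hb)
    · intro a ha
      have haP := hA'P ha
      have haA := hPA v haP
      have haU : a ∈ U := fib_subset _ _ _ haP
      have hnear : φ * N < (near v a).card := by
        have := (mem_sdiff.1 ha).2
        rw [mem_filter, not_and] at this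
        exact not_le.1 (this haP)
      have hold := hI a haA
      set S0 := (range j).filter (fun e => (∃ b ∈ B, g e b = f e a) ∧
        ρ * A.card < (fib (f e) A (f e a)).card) with hS0
      set S1 := (range j).filter (fun e => (∃ b ∈ B', g e b = f e a) ∧
        16 * (M : ℝ) ^ 2 * ρ * A'.card < (fib (f e) A' (f e a)).card) with hS1
      have hn0 : near v a ⊆ S0 := by
        intro e he
        rw [mem_filter] at he ⊢
        obtain ⟨he1, he2, he3⟩ := he
        refine ⟨mem_range.2 (lt_of_lt_of_le (mem_range.1 he1) hj'), he2, ?_⟩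
        have h1 : ((fib (f e) (P v) (f e a)).card : ℝ) ≤ (fib (f e) A (f e a)).card := by
          exact Nat.cast_le.2 (card_le_card (fib_mono _ (hPA v) _))
        have h2 : ρ ≤ η * (2 * δ) := by
          rw [hδdef]
          have : η * (2 * (η / (32 * M ^ 3))) = η ^ 2 / (16 * M ^ 3) := by field_simp; ring
          rw [this, le_div_iff₀ (by positivity)]
          exact hρ
        have h3 : ρ * A.card ≤ η * (2 * δ) * A.card := by gcongr
        have h4 : η * (2 * δ * A.card) ≤ η * (P v).card := by gcongr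
        nlinarith
      have h10 : S1 ⊆ S0 \ near v a := by
        intro e he
        rw [mem_filter] at he
        obtain ⟨he1, ⟨b, hb, hb'⟩, he3⟩ := he
        have hbB : b ∈ B := sdiff_subset hb
        have hb1 : b ∉ D1 := fun h => (mem_sdiff.1 hb).2 (mem_union_left _ h)
        have hb2 : b ∉ D2 := fun h => (mem_sdiff.1 hb).2 (mem_union_right _ h)
        have hej := mem_range.1 he1
        have hna : ((fib (f e) (P v) (f e a)).card : ℝ) * A.card ≤
            8 * (M : ℝ) ^ 2 * (fib (f e) A (f e a)).card * (P v).card := by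
          by_contra hc
          apply hb2
          rw [hD2def, mem_filter]
          refine ⟨hbB, e, hej, ?_⟩
          rw [hint, hb']
          exact not_le.1 hc
        have h1 : ((fib (f e) A' (f e a)).card : ℝ) ≤ (fib (f e) (P v) (f e a)).card := by
          exact Nat.cast_le.2 (card_le_card (fib_mono _ hA'P _))
        rw [mem_sdiff]
        constructor
        · rw [mem_filter]
          refine ⟨he1, ⟨b, hbB, hb'⟩, ?_⟩
          by_contra hc
          have hc := not_lt.1 hc
          have h2 : 8 * (M : ℝ) ^ 2 * ρ * (P v).card ≤ 16 * (M : ℝ) ^ 2 * ρ * A'.card := by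
            have : 0 ≤ 8 * (M : ℝ) ^ 2 * ρ := by positivity
            nlinarith
          have h3 : 8 * (M : ℝ) ^ 2 * ρ * (P v).card * A.card <
              ((fib (f e) (P v) (f e a)).card : ℝ) * A.card := by
            apply mul_lt_mul_of_pos_right _ hA'
            linarith
          have h4 : 8 * (M : ℝ) ^ 2 * (fib (f e) A (f e a)).card * (P v).card ≤
              8 * (M : ℝ) ^ 2 * (ρ * A.card) * (P v).card := by gcongr
          nlinarith
        · intro hen
          rw [mem_filter] at hen
          obtain ⟨hen1, _, hen3⟩ := hen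
          have h5 := hW4 a haU e (mem_range.1 hen1)
          by_cases hh : κ * A.card < (fib (f e) A (f e a)).card
          · apply hb1
            rw [hD1def, mem_filter]
            refine ⟨hbB, e, hej, ?_⟩
            rw [hb']
            exact ⟨hh, not_le.1 (fun h => h5 ⟨hh, h⟩)⟩
          · have hh := not_lt.1 hh
            have h6 : 8 * (M : ℝ) ^ 2 * (fib (f e) A (f e a)).card * (P v).card ≤
                8 * (M : ℝ) ^ 2 * (κ * A.card) * (P v).card := by gcongr
            have h7 : 8 * (M : ℝ) ^ 2 * κ = η := by rw [hκdef]; field_simp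
            have h8 : η * (P v).card * A.card <
                ((fib (f e) (P v) (f e a)).card : ℝ) * A.card :=
              mul_lt_mul_of_pos_right hen3 hA'
            have h9 : 8 * (M : ℝ) ^ 2 * (κ * A.card) * (P v).card = η * (P v).card * A.card := by
              rw [← h7]; ring
            linarith
      have h11 : S1.card + (near v a).card ≤ S0.card := by
        have := card_le_card h10
        have h2 := card_sdiff_add_card_eq_card hn0
        omega
      have h12 : (S1.card : ℝ) + (near v a).card ≤ S0.card := by exact_mod_cast h11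
      have h13 : (cnt f g A B j ρ a : ℝ) = S0.card := rfl
      have h14 : (cnt f g A' B' j (16 * M ^ 2 * ρ) a : ℝ) = S1.card := rfl
      rw [h14]
      rw [h13] at hold
      linarith

end

end Pool.Agent.Lib.MP_8a52c3_lc.EqL
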