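import Pool.Agent.Lib.MP_8a52c3_lc.H39Hard

/-! The hard polynomial is a projection of iterated matrix multiplication. -/

namespace Pool.Agent.Lib.MP_8a52c3_lc.H39

open Finset MvPolynomial Matrix

variable {σ F : Type*} [Field F] {ι κ : Type} [Fintype ι] [DecidableEq ι] [Fintype κ]
  [DecidableEq κ]

/-- Zero, one or a variable. -/
def At (a : MvPolynomial σ F) : Prop := a = 0 ∨ a = 1 ∨ ∃ v, a = X v

/-- Zero or one. -/
def Zo (a : MvPolynomial σ F) : Prop := a = 0 ∨ a = 1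

lemma Zo.mul {a b : MvPolynomial σ F} (ha : Zo a) (hb : Zo b) : At (a * b) := by
  rcases ha with rfl | rfl <;> rcases hb with rfl | rfl <;> simp [At]

/-- Products of matrices whose entries are zero, one or a variable. -/
def Abp : ℕ → Matrix ι ι (MvPolynomial σ F) → Prop
  | 0, T => T = 1
  | ℓ + 1, T => ∃ A T', (∀ i j, At (A i j)) ∧ Abp ℓ T' ∧ T = A * T'

omit [Fintype ι] in
lemma at_one (i j : ι) : At ((1 : Matrix ι ι (MvPolynomial σ F)) i j) := by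
  rw [one_apply]
  split_ifs <;> simp [At]

lemma abp_one : ∀ ℓ, Abp ℓ (1 : Matrix ι ι (MvPolynomial σ F))
  | 0 => rfl
  | ℓ + 1 => ⟨1, 1, at_one, abp_one ℓ, (mul_one _).symm⟩

lemma Abp.mul {ℓ' : ℕ} {T' : Matrix ι ι (MvPolynomial σ F)} (h' : Abp ℓ' T') :
    ∀ {ℓ : ℕ} {T : Matrix ι ι (MvPolynomial σ F)}, Abp ℓ T → Abp (ℓ' + ℓ) (T * T')
  | 0, _, h => by rwa [show _ = _ from h, one_mul]
  | _ + 1, _, ⟨A, T, h1, h2, h3⟩ => ⟨A, T * T', h1, h'.mul h2, by rw [h3, mul_assoc]⟩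

lemma abp_of {A : Matrix ι ι (MvPolynomial σ F)} (h : ∀ i j, At (A i j)) : Abp 1 A :=
  ⟨A, 1, h, rfl, (mul_one _).symm⟩

lemma abp_block : ∀ {ℓ : ℕ} {T : κ → Matrix ι ι (MvPolynomial σ F)}, (∀ a, Abp ℓ (T a)) →
    Abp ℓ (blockDiagonal T)
  | 0, T, h => by
    rw [show T = 1 from funext h]
    exact blockDiagonal_one
  | ℓ + 1, T, h => by
    choose A T' h1 h2 h3 using h
    refine ⟨blockDiagonal A, blockDiagonal T', fun i j => ?_, abp_block h2, ?_⟩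
    · rw [blockDiagonal_apply]
      split_ifs
      · exact h1 _ _ _
      · exact .inl rfl
    · rw [← blockDiagonal_mul, ← funext h3]

lemma Abp.ofFn : ∀ {ℓ : ℕ} {T : Matrix ι ι (MvPolynomial σ F)}, Abp ℓ T →
    ∃ A : Fin ℓ → Matrix ι ι (MvPolynomial σ F), (∀ k i j, At (A k i j)) ∧ (List.ofFn A).prod = T
  | 0, _, h => ⟨Fin.elim0, fun k => k.elim0, by simpa using (show _ = _ from h).symm⟩
  | _ + 1, _, ⟨A, _, h1, h2, h3⟩ => by
    obtain ⟨B, k1, k2⟩ := h2.ofFn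
    exact ⟨Fin.cons A B, fun k => Fin.cases h1 k1 k, by simp [List.ofFn_succ, k2, h3]⟩

variable (σ F) in
/-- The matrix of an inclusion. -/
noncomputable def inc (f : ι ↪ κ) : Matrix κ ι (MvPolynomial σ F) :=
  Matrix.of fun k i => if k = f i then 1 else 0

omit [Fintype ι] in
lemma inc_mul (f : ι ↪ κ) : (inc σ F f)ᵀ * inc σ F f = 1 := by
  ext1 i j
  simp [inc, Matrix.mul_apply, one_apply, @eq_comm _ j i]

omit [Fintype κ] in
lemma inc_mulVec (f : ι ↪ κ) (P : MvPolynomial σ F → Prop) (h0 : P 0) {u : ι → MvPolynomial σ F}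
    (h : ∀ i, P (u i)) (k : κ) : P ((inc σ F f *ᵥ u) k) := by
  by_cases hk : ∃ i, k = f i
  · obtain ⟨i, rfl⟩ := hk
    simpa [inc, mulVec, dotProduct] using h i
  · push Not at hk
    simpa [inc, mulVec, dotProduct, hk] using h0

lemma Abp.pad (f : ι ↪ κ) : ∀ {ℓ : ℕ} {T : Matrix ι ι (MvPolynomial σ F)}, Abp ℓ T →
    ∃ T' : Matrix κ κ (MvPolynomial σ F), Abp ℓ T' ∧
      T' * inc σ F f = inc σ F f * T
  | 0, _, h => ⟨1, rfl, by rw [show _ = _ from h, Matrix.one_mul, Matrix.mul_one]⟩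
  | _ + 1, _, ⟨A, T, h1, h2, h3⟩ => by
    obtain ⟨T', k1, k2⟩ := h2.pad f
    refine ⟨_, ⟨inc σ F f * (inc σ F f * Aᵀ)ᵀ, T', fun i j => ?_, k1, rfl⟩, ?_⟩
    · exact inc_mulVec f At (.inl rfl) (u := fun i => (inc σ F f * Aᵀ) j i)
        (fun i => inc_mulVec f At (.inl rfl) (h1 i) j) i
    · rw [Matrix.mul_assoc, k2, transpose_mul, transpose_transpose, h3, Matrix.mul_assoc,
        Matrix.mul_assoc, ← Matrix.mul_assoc _ (inc σ F f), inc_mul, Matrix.one_mul]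

variable (ι) in
/-- Polynomials computed by branching programs. -/
def Val (ℓ : ℕ) (g : MvPolynomial σ F) : Prop :=
  ∃ (T : Matrix ι ι (MvPolynomial σ F)) (u v : ι → MvPolynomial σ F), Abp ℓ T ∧ (∀ i, Zo (u i)) ∧
    (∀ i, Zo (v i)) ∧ u ⬝ᵥ T *ᵥ v = g

variable {ℓ ℓ' : ℕ} {g g' : MvPolynomial σ F}

lemma Val.pad (h : Val ι ℓ g) (hc : Fintype.card ι ≤ Fintype.card κ) : Val κ ℓ g := by
  obtain ⟨f⟩ := Function.Embedding.nonempty_of_card_le hc
  obtain ⟨T, u, v, h1, h2, h3, h4⟩ := h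
  obtain ⟨T', k1, k2⟩ := h1.pad f
  refine ⟨T', inc σ F f *ᵥ u, inc σ F f *ᵥ v, k1, inc_mulVec f Zo (.inl rfl) h2,
    inc_mulVec f Zo (.inl rfl) h3, ?_⟩
  rw [mulVec_mulVec, k2, ← mulVec_mulVec, dotProduct_mulVec, vecMul_mulVec, inc_mul, vecMul_one,
    h4]

lemma Val.mul (h : Val ι ℓ g) (h' : Val ι ℓ' g') : Val ι (ℓ' + 1 + ℓ) (g * g') := by
  obtain ⟨T, u, v, h1, h2, h3, h4⟩ := h
  obtain ⟨T', u', v', k1, k2, k3, k4⟩ := h'
  refine ⟨T * (vecMulVec v u' * T'), u, v', (k1.mul (abp_of fun i j => (h3 i).mul (k2 j))).mul h1,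
    h2, k3, ?_⟩
  rw [← mulVec_mulVec, ← mulVec_mulVec, vecMulVec_mulVec, k4, ← h4]
  simp [mulVec_smul, mul_comm]

lemma val_sum {g : κ → MvPolynomial σ F} (h : ∀ a, Val ι ℓ (g a)) : Val (ι × κ) ℓ (∑ a, g a) := by
  choose T u v h1 h2 h3 h4 using h
  refine ⟨blockDiagonal T, fun i => u i.2 i.1, fun i => v i.2 i.1, abp_block h1,
    fun i => h2 _ _, fun i => h3 _ _, ?_⟩
  simp only [← h4, dotProduct, mulVec, Fintype.sum_prod_type_right, blockDiagonal_apply]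
  simp

lemma val_X (z : σ) : Val Unit 1 (X z : MvPolynomial σ F) :=
  ⟨fun _ _ => X z, 1, 1, abp_of fun _ _ => .inr (.inr ⟨z, rfl⟩), fun _ => .inr rfl,
    fun _ => .inr rfl, by simp [dotProduct, mulVec]⟩

lemma val_prod [Nonempty ι] : ∀ (k : ℕ) {g : Fin k → MvPolynomial σ F}, (∀ i, Val ι ℓ (g i)) →
    Val ι (k * (ℓ + 1)) (∏ i, g i)
  | 0, _, _ => by
    have : Val Unit 0 (1 : MvPolynomial σ F) :=
      ⟨1, 1, 1, rfl, fun _ => .inr rfl, fun _ => .inr rfl, by simp⟩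
    simpa using this.pad (κ := ι) (by simpa using! Fintype.card_pos)
  | k + 1, _, h => by
    rw [Fin.prod_univ_succ, show (k + 1) * (ℓ + 1) = k * (ℓ + 1) + 1 + ℓ by ring]
    exact (h 0).mul (val_prod k fun i => h i.succ)

lemma val_hp {W : ℕ} : ∀ (t : ℕ) {z : Vt t → MvPolynomial σ F}, (∀ v, Val (Fin W) 1 (z v)) →
    Val (Fin (W * 5 ^ t)) (2 * 2 ^ t - 1) (hp t z)
  | 0, _, h => (h ()).pad (by simp)
  | t + 1, z, h => by
    have h1 : 2 * 2 ^ (t + 1) - 1 = 2 * 2 ^ t - 1 + 1 + (2 * 2 ^ t - 1) := by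
      have := Nat.one_le_two_pow (n := t)
      omega
    rw [h1]
    exact (val_sum fun a : Fin 5 => (val_hp t fun v => h (pin 5 a (.inl v))).mul
      (val_hp t fun v => h (pin 5 a (.inr v)))).pad (by simp [pow_succ, mul_assoc])

lemma val_hard {W : ℕ} (t m k : ℕ) [Nonempty ι] (hc : W * 5 ^ t * m ≤ Fintype.card ι)
    {y : Fin k × Fin m → MvPolynomial σ F} {z : Pw (Pw (Vt t) m) k → MvPolynomial σ F}
    (hy : ∀ v, Val (Fin W) 1 (y v)) (hz : ∀ v, Val (Fin W) 1 (z v)) :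
    Val ι (k * (2 * 2 ^ t + 2)) (hard t m k y z) := by
  have h1 : 2 * 2 ^ t + 2 = 2 * 2 ^ t - 1 + 1 + 1 + 1 := by
    have := Nat.one_le_two_pow (n := t)
    omega
  rw [h1]
  exact val_prod k fun i => (val_sum fun a : Fin m => ((hy (i, a)).pad (by
    simpa using Nat.le_mul_of_pos_right W (by positivity))).mul
      (val_hp t fun v => hz _)).pad (by simpa using hc)

lemma Val.imm {n d : ℕ} [NeZero n] (h : Val (Fin n) ℓ g) (hd : ℓ + 2 ≤ d) :
    ∃ lab : Fin d × Fin n × Fin n → MvPolynomial σ F, (∀ z, At (lab z)) ∧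
      aeval lab ((List.ofFn fun k : Fin d => Matrix.of fun i j : Fin n =>
        (X (k, i, j) : MvPolynomial (Fin d × Fin n × Fin n) F)).prod 0 0) = g := by
  obtain ⟨T, u, v, h1, h2, h3, h4⟩ := h
  obtain ⟨e, rfl⟩ := Nat.exists_eq_add_of_le' hd
  have h5 := ((((abp_one e).mul (abp_of (A := vecMulVec v 1) fun i j =>
    (h3 i).mul (.inr rfl))).mul h1).mul (abp_of (A := vecMulVec 1 u) fun i j =>
      Zo.mul (.inr rfl) (h2 j)))
  rw [show e + 1 + ℓ + 1 = e + (ℓ + 2) by ring] at h5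
  obtain ⟨A, k1, k2⟩ := h5.ofFn
  refine ⟨fun z => A z.1 z.2.1 z.2.2, fun z => k1 _ _ _, ?_⟩
  have k3 := congrFun (congrFun (map_list_prod (aeval (R := F) fun z : Fin (e + (ℓ + 2)) × Fin n ×
    Fin n => A z.1 z.2.1 z.2.2).mapMatrix (List.ofFn fun k => Matrix.of fun i j => X (k, i, j)))
      0) 0
  refine k3.trans ?_
  rw [List.map_ofFn, show _ ∘ _ = A by ext1 k; ext1 i j; simp, k2, ← h4]
  simp [Matrix.mul_apply, dotProduct, mulVec]

end Pool.Agent.Lib.MP_8a52c3_lc.H39
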