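import Pool.Agent.Lib.MP_8a52c3_lc.H39Op

/-! In characteristic `p` the inverse of a unit of low degree has low degree. -/

namespace Pool.Agent.Lib.MP_8a52c3_lc.H39

open Finset MvPolynomial

section filtered

variable {L A Y : Type*} [Field L] [CommRing A] [Algebra L A] {V : ℕ → Submodule L A}

/-- An increasing multiplicative filtration. -/
structure Filt (V : ℕ → Submodule L A) : Prop where
  mono : Monotone V
  one : (1 : A) ∈ V 0
  mul : ∀ i j a b, a ∈ V i → b ∈ V j → a * b ∈ V (i + j)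

lemma Filt.pow (h : Filt V) {a : A} {i : ℕ} (ha : a ∈ V i) : ∀ n, a ^ n ∈ V (n * i)
  | 0 => by simpa using h.one
  | n + 1 => by
    rw [pow_succ, add_mul, one_mul]
    exact h.mul _ _ _ _ (h.pow ha n) ha

/-- Polynomials whose coefficients have filtration degree growing at rate `r`. -/
def Wf (V : ℕ → Submodule L A) (r j : ℕ) (w : MvPolynomial Y A) : Prop :=
  ∀ S, coeff S w ∈ V (j + r * S.degree)

variable {r i j : ℕ} {w w' : MvPolynomial Y A}

lemma Wf.mul (h : Filt V) (hw : Wf V r i w) (hw' : Wf V r j w') : Wf V r (i + j) (w * w') := by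
  classical
  intro S
  rw [coeff_mul]
  refine sum_mem fun c hc => ?_
  have := h.mul _ _ _ _ (hw c.1) (hw' c.2)
  rwa [← mem_antidiagonal.1 hc, map_add, mul_add, add_add_add_comm]

lemma Wf.add (hw : Wf V r i w) (hw' : Wf V r i w') : Wf V r i (w + w') := fun S => by
  rw [coeff_add]
  exact add_mem (hw S) (hw' S)

lemma Wf.mono (h : Filt V) (hw : Wf V r i w) (hij : i ≤ j) : Wf V r j w := fun S =>
  h.mono (by omega) (hw S)

lemma wf_C (h : Filt V) {a : A} (ha : a ∈ V i) : Wf V r i (C a : MvPolynomial Y A) := fun S => by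
  classical
  rw [coeff_C]
  split_ifs
  · exact h.mono (by omega) ha
  · exact zero_mem _

lemma wf_one (h : Filt V) : Wf V r 0 (1 : MvPolynomial Y A) := wf_C h h.one

lemma wf_X (h : Filt V) (y : Y) : Wf V r 0 (X y : MvPolynomial Y A) := fun S => by
  classical
  rw [coeff_X]
  split_ifs
  · exact h.mono (by omega) h.one
  · exact zero_mem _

lemma Wf.pow (h : Filt V) (hw : Wf V r 0 w) : ∀ n, Wf V r 0 (w ^ n)
  | 0 => by simpa using wf_one h
  | n + 1 => by
    rw [pow_succ]
    exact (hw.pow h n).mul h hw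

lemma Wf.prod (h : Filt V) {α : Type*} (s : Finset α) {f : α → MvPolynomial Y A}
    (hf : ∀ a, Wf V r 1 (f a)) : Wf V r #s (∏ a ∈ s, f a) := by
  classical
  induction s using Finset.induction_on with
  | empty => simpa using wf_one h
  | insert a s ha ih =>
    rw [prod_insert ha, card_insert_of_notMem ha, add_comm]
    exact (hf a).mul h ih

lemma Wf.unit (h : Filt V) {τ p : ℕ} (hp : 0 < p) (hw : Wf V 0 τ w) {c : L} (hc : c ≠ 0)
    (e : coeff 0 w ^ p = algebraMap L A c) :
    ∃ T u, Wf V (p * τ) 0 u ∧ w = C T * u := by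
  obtain ⟨p, rfl⟩ : ∃ q, p = q + 1 := ⟨p - 1, by omega⟩
  have h1 : c⁻¹ • coeff 0 w ^ p * coeff 0 w = 1 := by
    rw [smul_mul_assoc, ← pow_succ, e, Algebra.smul_def, ← map_mul, inv_mul_cancel₀ hc, map_one]
  refine ⟨coeff 0 w, C (c⁻¹ • coeff 0 w ^ p) * w, fun S => ?_, ?_⟩
  · rw [coeff_C_mul]
    by_cases hS : S = 0
    · rw [hS, h1]
      exact h.mono (by omega) h.one
    · have h2 : 0 < S.degree := Nat.pos_of_ne_zero fun h0 => hS ((Finsupp.degree_eq_zero_iff S).1 h0)
      refine h.mono ?_ (h.mul _ _ _ _ (Submodule.smul_mem _ _ (h.pow (hw 0) p)) (hw S))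
      simp only [zero_mul, add_zero, zero_add]
      rw [← add_one_mul]
      exact Nat.le_mul_of_pos_right _ h2
  · rw [← mul_assoc, ← map_mul, mul_comm (coeff 0 w), h1, map_one, one_mul]

lemma wf_list (h : Filt V) : ∀ l : List (MvPolynomial Y A),
    (∀ q ∈ l, ∃ T u, Wf V r 0 u ∧ q = C T * u) → ∃ T u, Wf V r 0 u ∧ l.prod = C T * u
  | [], _ => ⟨1, 1, wf_one h, by simp⟩
  | q :: l, hl => by
    obtain ⟨T, u, h1, h2⟩ := hl q (by simp)
    obtain ⟨T', u', h1', h2'⟩ := wf_list h l fun q hq => hl q (by simp [hq])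
    exact ⟨T * T', u * u', h1.mul h h1', by rw [List.prod_cons, h2', h2, map_mul]; ring⟩

end filtered

variable {L : Type*} [Field L] {Y Z : Type}

variable (L Z) in
/-- The ideal of squares of variables. -/
noncomputable def sqI : Ideal (MvPolynomial Z L) := Ideal.span (Set.range fun z => X z ^ 2)

lemma pc_sqI {q : MvPolynomial Z L} (h : q ∈ sqI L Z) : pc L Z q = 0 := by
  classical
  have key : ∀ q ∈ sqI L Z, ∀ r, pc L Z (q * r) = 0 := by
    intro q hq
    induction hq using Submodule.span_induction with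
    | mem _ hq =>
      obtain ⟨z, rfl⟩ := hq
      intro r
      ext B
      beta_reduce
      rw [pc_apply, X_pow_eq_monomial, coeff_monomial_mul', if_neg, Pi.zero_apply]
      intro hle
      have := (hle z).trans (ind_le B z)
      simp at this
    | zero => simp
    | add a b _ _ ha hb => exact fun r => by rw [add_mul, map_add, ha, hb, add_zero]
    | smul a b _ hb => exact fun r => by rw [smul_eq_mul, mul_comm a, mul_assoc, hb]
  simpa using key q h 1

variable (L Z) in
/-- The multilinear algebra. -/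
abbrev Aq : Type _ := MvPolynomial Z L ⧸ sqI L Z

/-- The quotient map. -/
noncomputable def mq : MvPolynomial Z L →ₐ[L] Aq L Z := Ideal.Quotient.mkₐ L _

lemma mq_X_sq (z : Z) : (mq (X z) : Aq L Z) ^ 2 = 0 := by
  rw [← map_pow]
  exact Ideal.Quotient.eq_zero_iff_mem.2 (Ideal.subset_span ⟨z, rfl⟩)

variable (L) in
/-- The squarefree monomials. -/
noncomputable def mon (B : Finset Z) : Aq L Z := ∏ z ∈ B, mq (X z)

lemma mq_monomial (B : Finset Z) (c : L) : mq (monomial (ind B) c) = c • mon L B := by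
  rw [monomial_eq, map_mul, Finsupp.prod, support_ind, map_prod, ← algebraMap_eq,
    AlgHom.commutes, ← Algebra.smul_def]
  congr 1
  exact prod_congr rfl fun z hz => by rw [ind_of_mem hz, pow_one]

variable (L Z) in
/-- The degree filtration. -/
noncomputable def Vq (j : ℕ) : Submodule L (Aq L Z) := Submodule.span L (mon L '' {B | #B ≤ j})

lemma mon_mem {B : Finset Z} {j : ℕ} (h : #B ≤ j) : mon L B ∈ Vq L Z j :=
  Submodule.subset_span ⟨B, h, rfl⟩

lemma filt_Vq : Filt (Vq L Z) where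
  mono _ _ h := Submodule.span_mono (Set.image_mono fun _ hB => le_trans hB h)
  one := by simpa [mon] using mon_mem (L := L) (B := (∅ : Finset Z)) (j := 0) (by simp)
  mul i j a b ha hb := by
    classical
    have := Submodule.mul_mem_mul ha hb
    rw [Vq, Vq, Submodule.span_mul_span] at this
    refine Submodule.span_le.2 ?_ this
    rintro _ ⟨_, ⟨B, hB, rfl⟩, _, ⟨B', hB', rfl⟩, rfl⟩
    show mon L B * mon L B' ∈ Vq L Z (i + j)
    by_cases hd : Disjoint B B'
    · rw [mon, mon, ← prod_union hd]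
      exact mon_mem ((card_union_le _ _).trans (add_le_add hB hB'))
    · obtain ⟨z, h1, h2⟩ := not_disjoint_iff.1 hd
      rw [mon, mon, ← mul_prod_erase _ _ h1, ← mul_prod_erase _ _ h2, mul_mul_mul_comm, ← sq,
        mq_X_sq, zero_mul]
      exact zero_mem _

lemma shift_pow_mem (z : Z) (c : L) (e : ℕ) : (mq (X z + C c) : Aq L Z) ^ e ∈ Vq L Z 1 := by
  have h : ∃ α β : L, (mq (X z + C c) : Aq L Z) ^ e = α • mq (X z) + β • 1 := by
    induction e with
    | zero => exact ⟨0, 1, by simp⟩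
    | succ e ih =>
      obtain ⟨α, β, h⟩ := ih
      refine ⟨α * c + β, β * c, ?_⟩
      have h2 := mq_X_sq (L := L) z
      rw [pow_succ, h, map_add, ← algebraMap_eq, AlgHom.commutes, Algebra.algebraMap_eq_smul_one,
        add_mul, mul_add, mul_add, smul_mul_assoc, ← sq, h2]
      simp only [smul_mul_assoc, mul_smul_comm, one_mul, mul_one, smul_smul, add_smul, smul_zero,
        zero_add, mul_comm c, add_assoc]
  obtain ⟨α, β, h⟩ := h
  rw [h]
  refine add_mem (Submodule.smul_mem _ _ ?_)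
    (Submodule.smul_mem _ _ (filt_Vq.mono zero_le_one filt_Vq.one))
  simpa [mon] using mon_mem (L := L) (B := {z}) (j := 1) (by simp)

lemma mq_pow_char (p : ℕ) [hp : Fact p.Prime] [CharP L p] (q : MvPolynomial Z L) :
    (mq q : Aq L Z) ^ p = algebraMap L _ (constantCoeff q ^ p) := by
  have h : (mq (L := L) (Z := Z)).toRingHom.comp (frobenius _ p) =
      (algebraMap L _).comp ((frobenius L p).comp constantCoeff) := by
    refine MvPolynomial.ringHom_ext (fun c => ?_) fun z => ?_
    · simp [frobenius_def, ← algebraMap_eq]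
    · obtain ⟨n, hn⟩ := Nat.exists_eq_add_of_le hp.out.two_le
      simp only [RingHom.comp_apply, frobenius_def, constantCoeff_X, map_zero, map_pow]
      rw [hn, pow_add]
      exact (congrArg (· * _) (mq_X_sq z)).trans (zero_mul _)
  simpa [frobenius_def] using DFunLike.congr_fun h q

lemma mq_lf_mem [Fintype Z] {v : Finset Z → L} {j : ℕ} (h : v ∈ Hm L card j) :
    mq (lf L Z v) ∈ Vq L Z j := by
  rw [lf_apply, map_sum]
  refine sum_mem fun B _ => ?_
  rw [mq_monomial]
  by_cases hB : #B = j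
  · exact Submodule.smul_mem _ _ (mon_mem hB.le)
  · rw [h B hB, zero_smul]
    exact zero_mem _

variable {F : Type*} [Field F] (θ : MvPolynomial (Y ⊕ Z) F →+* L)

/-- Taylor expansion at the point `θ`. -/
noncomputable def tay : MvPolynomial (Y ⊕ Z) F →+* MvPolynomial Y (MvPolynomial Z L) :=
  eval₂Hom (C.comp (C.comp (θ.comp C))) (Sum.elim (fun y => X y + C (C (θ (X (.inl y)))))
    fun z => C (X z + C (θ (X (.inr z)))))

lemma tay_inl (y : Y) : tay θ (X (.inl y)) = X y + C (C (θ (X (.inl y)))) := by simp [tay]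

lemma tay_inr (z : Z) : tay θ (X (.inr z)) = C (X z + C (θ (X (.inr z)))) := by simp [tay]

lemma tay_C (c : F) : tay θ (C c) = C (C (θ (C c))) := by simp [tay]

lemma tay_const (q : MvPolynomial (Y ⊕ Z) F) : constantCoeff (coeff 0 (tay θ q)) = θ q := by
  have h : (constantCoeff.comp (constantCoeff.comp (tay θ))) = θ := by
    refine MvPolynomial.ringHom_ext (fun c => ?_) ?_
    · simp [tay_C]
    · rintro (y | z)
      · simp [tay_inl]
      · simp [tay_inr]
  exact DFunLike.congr_fun h q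

lemma tay_wf {τ : ℕ} {q : MvPolynomial (Y ⊕ Z) F} (hq : ∀ m ∈ q.support, #m.support ≤ τ) :
    Wf (Vq L Z) 0 τ (map (mq (L := L) (Z := Z)).toRingHom (tay θ q)) := by
  have hC : ∀ c : L, (mq (C c) : Aq L Z) ∈ Vq L Z 0 := fun c => by
    rw [← algebraMap_eq, AlgHom.commutes, Algebra.algebraMap_eq_smul_one]
    exact Submodule.smul_mem _ _ filt_Vq.one
  rw [q.as_sum, map_sum, map_sum]
  intro S
  rw [coeff_sum]
  refine sum_mem fun m hm => Wf.mono filt_Vq ?_ (hq m hm) S
  rw [monomial_eq, map_mul, map_mul, tay_C, map_C, Finsupp.prod, map_prod, map_prod,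
    ← zero_add #m.support]
  refine (wf_C filt_Vq (hC _)).mul filt_Vq (Wf.prod filt_Vq _ ?_)
  rintro (y | z)
  · rw [map_pow, map_pow, tay_inl, map_add, map_X, map_C]
    exact (((wf_X filt_Vq y).add (wf_C filt_Vq (hC _))).pow filt_Vq _).mono filt_Vq zero_le_one
  · rw [map_pow, map_pow, tay_inr, map_C, ← map_pow]
    exact wf_C filt_Vq (shift_pow_mem z _ _)

theorem upper [Fintype Z] (p : ℕ) [hp : Fact p.Prime] [CharP L p] (hθ : Function.Injective θ)
    {τ s ℓ k : ℕ} (g : Fin s → List (MvPolynomial (Y ⊕ Z) F))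
    (hg : ∀ i, ∀ q ∈ g i, ∀ m ∈ q.support, #m.support ≤ τ) {κ : Type} [Fintype κ]
    {v : κ → Finset Z → L} (hv : ∀ j, v j ∈ Hm L card ℓ) {S : κ → Y →₀ ℕ}
    (hS : ∀ j, (S j).degree = k) (h : LinearIndependent L fun j =>
      pc L Z (lf L Z (v j) * coeff (S j) (tay θ (∑ i, (g i).prod)))) :
    Fintype.card κ ≤ s * #{B : Finset Z | #B ≤ ℓ + p * τ * k} := by
  classical
  let φ := (map (mq (L := L) (Z := Z)).toRingHom).comp (tay θ)
  have h1 : ∀ i, ∃ T u, Wf (Vq L Z) (p * τ) 0 u ∧ φ (g i).prod = C T * u := fun i => by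
    rw [map_list_prod]
    refine wf_list filt_Vq _ fun q' hq' => ?_
    obtain ⟨q, hq, rfl⟩ := List.mem_map.1 hq'
    by_cases h0 : q = 0
    · exact ⟨0, 1, wf_one filt_Vq, by simp [h0]⟩
    refine (tay_wf θ (hg i q hq)).unit filt_Vq hp.out.pos (c := θ q ^ p)
      (pow_ne_zero _ ((map_ne_zero_iff θ hθ).2 h0)) ?_
    rw [← tay_const, ← mq_pow_char p]
    exact congrArg (· ^ p) (coeff_map _ _ _)
  choose T u h1 h2 using h1
  have h3 : LinearIndependent L fun j =>
      (mq (lf L Z (v j) * coeff (S j) (tay θ (∑ i, (g i).prod))) : Aq L Z) := by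
    rw [Fintype.linearIndependent_iff] at h ⊢
    intro c hc
    refine h c ?_
    simp only [← map_smul] at hc ⊢
    rw [← map_sum] at hc ⊢
    exact pc_sqI (Ideal.Quotient.eq_zero_iff_mem.1 hc)
  refine (card_le_of_span h3 (fun q : Fin s × Finset Z => T q.1 * mon L q.2)
    (univ ×ˢ (univ.filter fun B : Finset Z => #B ≤ ℓ + p * τ * k)) fun j => ?_).trans_eq
    (by simp)
  have h4 : (mq (coeff (S j) (tay θ (∑ i, (g i).prod))) : Aq L Z) =
      ∑ i, T i * coeff (S j) (u i) := by
    have : (mq (coeff (S j) (tay θ (∑ i, (g i).prod))) : Aq L Z) =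
        coeff (S j) (φ (∑ i, (g i).prod)) := (coeff_map _ _ _).symm
    rw [this, map_sum, coeff_sum]
    exact sum_congr rfl fun i _ => by rw [h2, coeff_C_mul]
  rw [map_mul, h4, mul_sum]
  refine sum_mem fun i _ => ?_
  have h5 := filt_Vq.mul _ _ _ _ (mq_lf_mem (hv j)) (h1 i (S j))
  rw [zero_add, hS] at h5
  have h6 := Submodule.mem_map_of_mem (f := LinearMap.mulLeft L (T i)) h5
  rw [Vq, Submodule.map_span] at h6
  rw [mul_left_comm]
  refine Submodule.span_mono ?_ h6
  rintro _ ⟨_, ⟨B, hB, rfl⟩, rfl⟩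
  exact ⟨(i, B), by simpa using hB, rfl⟩

end Pool.Agent.Lib.MP_8a52c3_lc.H39
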