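import Pool.Agent.Lib.MP_8a52c3_lc.H39Hard
import Pool.Agent.Lib.MP_8a52c3_lc.H39Up

/-! The lower bound for sums of products of polynomials with monomials of small support. -/

namespace Pool.Agent.Lib.MP_8a52c3_lc.H39

open Finset MvPolynomial

lemma geo_one {x : ℝ} (hx : 0 ≤ x) (hx1 : x ≤ 1) (b R : ℕ) : ∀ N : ℕ,
    (1 - x) * ∑ ℓ ∈ range N, (if b ≤ ℓ + R then x ^ (ℓ + R) else 0) ≤ x ^ b - x ^ max b (N + R)
  | 0 => by
    simpa using pow_le_pow_of_le_one hx hx1 (le_max_left b R)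
  | N + 1 => by
    have ih := geo_one hx hx1 b R N
    rw [sum_range_succ, mul_add]
    split_ifs with h
    · rw [max_eq_right h] at ih
      rw [max_eq_right (by omega), show N + 1 + R = N + R + 1 by ring, pow_succ]
      linarith
    · rw [max_eq_left (by omega)] at ih ⊢
      linarith

lemma geo {ι Z : Type} [Fintype ι] [Fintype Z] (d : ι → ℕ) (s R : ℕ)
    (h : ∀ ℓ, #{i | d i = ℓ} ≤ s * #{B : Finset Z | #B ≤ ℓ + R}) {x : ℝ} (hx : 0 ≤ x)
    (hx1 : x ≤ 1) : (1 - x) * x ^ R * ∑ i, x ^ d i ≤ s * ∑ B : Finset Z, x ^ #B := by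
  have h1 : ∀ i ∈ (univ : Finset ι), d i ∈ range (univ.sup d + 1) := fun i hi =>
    mem_range.2 (by have := le_sup (f := d) hi; omega)
  have h2 : x ^ R * ∑ i, x ^ d i ≤ s * ∑ B : Finset Z, ∑ ℓ ∈ range (univ.sup d + 1),
      (if #B ≤ ℓ + R then x ^ (ℓ + R) else 0) := by
    rw [← sum_fiberwise_of_maps_to' h1, sum_comm, mul_sum, mul_sum]
    refine sum_le_sum fun ℓ _ => ?_
    rw [sum_const, nsmul_eq_mul, ← sum_filter, sum_const, nsmul_eq_mul, ← mul_assoc (s : ℝ),
      pow_add, mul_comm (x ^ R), mul_assoc]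
    exact mul_le_mul_of_nonneg_right (by exact_mod_cast h ℓ) (by positivity)
  rw [mul_assoc]
  refine (mul_le_mul_of_nonneg_left h2 (by linarith)).trans ?_
  rw [mul_left_comm, mul_sum]
  refine mul_le_mul_of_nonneg_left (sum_le_sum fun B _ => ?_) (Nat.cast_nonneg s)
  exact (geo_one hx hx1 _ R _).trans (sub_le_self _ (pow_nonneg hx _))

/-- The graph of a function. -/
def gr {k n : ℕ} (σ : Fin k → Fin n) : Finset (Fin k × Fin n) :=
  univ.map ⟨fun i => (i, σ i), fun _ _ h => congrArg Prod.fst h⟩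

lemma gr_injective {k n : ℕ} : Function.Injective (gr : (Fin k → Fin n) → _) := fun σ σ' h => by
  funext i
  have h1 : (i, σ i) ∈ gr σ' := h ▸ mem_map.2 ⟨i, mem_univ i, rfl⟩
  obtain ⟨j, -, hj⟩ := mem_map.1 h1
  obtain rfl : j = i := congrArg Prod.fst hj
  exact (congrArg Prod.snd hj).symm

lemma degree_gr {k n : ℕ} (σ : Fin k → Fin n) : (ind (gr σ)).degree = k := by
  simp [degree_ind, gr]

lemma coeff_gr {R : Type*} [CommRing R] {k n : ℕ} (c h : Fin k × Fin n → R) (σ : Fin k → Fin n) :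
    coeff (ind (gr σ)) (∏ i, ∑ a, (X (i, a) + C (c (i, a))) * C (h (i, a))) =
      ∏ i, h (i, σ i) := by
  classical
  have h1 := (Lead.prod k fun i => Lead.sum univ fun a => (lead_X (i, a) (c (i, a))).mul
    (Lead.refl (isHomogeneous_C _ (h (i, a))))).2 (ind (gr σ)) (by simp [degree_gr])
  have h2 : ∀ σ' : Fin k → Fin n, ∏ i, X (i, σ' i) * C (h (i, σ' i)) =
      monomial (ind (gr σ')) (∏ i, h (i, σ' i)) := fun σ' => by
    rw [monomial_eq, Finsupp.prod, support_ind, prod_mul_distrib, map_prod, mul_comm]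
    rw [show (∏ z ∈ gr σ', X z ^ ind (gr σ') z : MvPolynomial _ R) = ∏ z ∈ gr σ', X z from
      prod_congr rfl fun z hz => by rw [ind_of_mem hz, pow_one], gr, prod_map]
    rfl
  rw [coeff_sub, sub_eq_zero] at h1
  rw [h1, prod_univ_sum, coeff_sum]
  simp [h2, coeff_monomial, ind_injective.eq_iff, gr_injective.eq_iff]

theorem core {F : Type*} [Field F] (p : ℕ) [Fact p.Prime] [CharP F p] {t n k τ s : ℕ}
    (g : Fin s → List (MvPolynomial ((Fin k × Fin n) ⊕ Pw (Pw (Vt t) n) k) F))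
    (hg : ∀ i, ∀ q ∈ g i, ∀ m ∈ q.support, #m.support ≤ τ)
    (h : ∑ i, (g i).prod = hard t n k (fun y => X (.inl y)) fun z => X (.inr z)) {x : ℝ}
    (hx : 0 < x) (hx1 : x ≤ 1) (hn : x ^ 2 ^ t * n ≤ 1) :
    (1 - x) * x ^ (p * τ * k) * (n / 5) ^ k ≤ s := by
  let L := FractionRing (MvPolynomial ((Fin k × Fin n) ⊕ Pw (Pw (Vt t) n) k) F)
  let θ := algebraMap (MvPolynomial ((Fin k × Fin n) ⊕ Pw (Pw (Vt t) n) k) F) L
  obtain ⟨ι, _, u, d, N, k1, k2, k3, k4⟩ := pc_hard (L := L) hx hx1 t n k hn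
  have k5 : ∀ i, ∃ σ : Fin k → Fin n, N i = op (∏ j, hp t fun v => X (pin k j (pin n (σ j) v))) :=
    fun i => by
      obtain ⟨_, ⟨σ, rfl⟩, h⟩ := k1 i
      exact ⟨σ, h.symm⟩
  choose σ hσ using k5
  have h1 := geo (Z := Pw (Pw (Vt t) n) k) d s (p * τ * k) (fun ℓ => by
    rw [← Fintype.card_subtype]
    have k6 : ∀ j : {i // d i = ℓ}, u j ∈ Hm L card ℓ := fun j => by
      have := k2 j
      rwa [j.2] at this
    refine upper θ p (IsFractionRing.injective _ L) g hg (v := fun j : {i // d i = ℓ} => u j)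
      k6 (S := fun j => ind (gr (σ j))) (fun j => degree_gr _) ?_
    refine LinearIndependent.of_comp (pr L card (ℓ + k * 2 ^ t)) ?_
    convert k3.comp (Subtype.val : {i // d i = ℓ} → ι) Subtype.val_injective using 1
    funext j B
    have h2 : (lf L _ (u j)).IsHomogeneous ℓ := lf_hom (k6 j)
    have h3 := (Lead.refl h2).mul (Lead.prod k fun i => hp_lead t fun v =>
      lead_X (pin k i (pin n (σ j i) v)) (θ (X (.inr (pin k i (pin n (σ j i) v))))))
    simp only [Function.comp_apply, hσ, op_apply, pr_apply, h, hard_map, tay_inl, tay_inr]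
    simp only [hard, ← hp_map C]
    rw [coeff_gr (fun y => C (θ (X (.inl y)))) fun y => hp t fun v =>
      X (pin k y.1 (pin n y.2 v)) + C (θ (X (.inr (pin k y.1 (pin n y.2 v)))))]
    split_ifs with hB
    · have h4 := h3.2 (ind B) (by rw [degree_ind, hB])
      rwa [coeff_sub, sub_eq_zero] at h4
    · exact (pc_mem h3.1 B hB).symm) hx.le hx1
  have h2 : 0 < ∑ B : Finset (Pw (Pw (Vt t) n) k), x ^ #B :=
    sum_pos (fun _ _ => pow_pos hx _) univ_nonempty
  refine le_of_mul_le_mul_right (le_trans ?_ h1) h2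
  rw [mul_assoc]
  exact mul_le_mul_of_nonneg_left k4 (mul_nonneg (by linarith) (pow_nonneg hx.le _))

end Pool.Agent.Lib.MP_8a52c3_lc.H39
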