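import Pool.Agent.Lib.MP_8a52c3_lc.H39Abp
import Pool.Agent.Lib.MP_8a52c3_lc.H39Core

/-! Restrictions, the choice of parameters and the final bound. -/

namespace Pool.Agent.Lib.MP_8a52c3_lc.H39

open Finset MvPolynomial

lemma surv {V : Type} [Fintype V] [DecidableEq V] {W : ℕ} (S : Finset (V × Fin W)) :
    #{ρ : V → Fin W | ∀ z ∈ S, ρ z.1 = z.2} * W ^ #S ≤ W ^ Fintype.card V := by
  rcases (univ.filter fun ρ : V → Fin W => ∀ z ∈ S, ρ z.1 = z.2).eq_empty_or_nonempty with h | h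
  · rw [h, card_empty, zero_mul]
    exact Nat.zero_le _
  obtain ⟨ρ, h⟩ := h
  have h := (mem_filter.1 h).2
  have h1 : #(S.image Prod.fst) = #S := card_image_of_injOn fun a ha b hb e =>
    Prod.ext e (by rw [← h a ha, ← h b hb, e])
  have h2 : (univ.filter fun ρ : V → Fin W => ∀ z ∈ S, ρ z.1 = z.2) ⊆
      Fintype.piFinset fun v => if v ∈ S.image Prod.fst then {ρ v} else univ := fun ρ' h' => by
    refine Fintype.mem_piFinset.2 fun v => ?_
    split_ifs with hv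
    · obtain ⟨z, hz, rfl⟩ := mem_image.1 hv
      rw [mem_singleton, h z hz, (mem_filter.1 h').2 z hz]
    · exact mem_univ _
  refine (Nat.mul_le_mul_right _ (card_le_card h2)).trans_eq ?_
  rw [Fintype.card_piFinset, ← h1, ← card_add_card_compl (S.image Prod.fst), pow_add, mul_comm,
    ← prod_mul_prod_compl (S.image Prod.fst), prod_congr rfl fun v hv => by rw [if_pos hv],
    prod_congr (s₁ := (S.image Prod.fst)ᶜ) rfl fun v hv => by rw [if_neg (mem_compl.1 hv)]]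
  simp

variable {σ σ' F : Type*} [Field F]

lemma At.card_vars {a : MvPolynomial σ F} (h : At a) : #a.vars ≤ 1 := by
  rcases h with rfl | rfl | ⟨v, rfl⟩ <;> simp

lemma vars_aeval [DecidableEq σ'] (f : σ → MvPolynomial σ' F) {q : MvPolynomial σ F}
    {S : Finset σ} (h : q.vars ⊆ S) : (aeval f q).vars ⊆ S.biUnion fun z => (f z).vars :=
  (vars_bind₁ f q).trans (biUnion_subset_biUnion_of_subset_left _ h)

lemma card_biUnion_vars [DecidableEq σ'] {f : σ → MvPolynomial σ' F} (hf : ∀ z, At (f z))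
    (S : Finset σ) : #(S.biUnion fun z => (f z).vars) ≤ #S :=
  (card_biUnion_le_card_mul _ _ 1 fun z _ => (hf z).card_vars).trans_eq (mul_one _)

lemma restrict {V : Type} [Fintype V] [DecidableEq V] {W τ : ℕ}
    (lab : σ → MvPolynomial (V × Fin W) F) (hl : ∀ z, At (lab z)) (M : Finset (σ →₀ ℕ))
    (hM : #M < W ^ (τ + 1)) : ∃ ρ : V → Fin W, ∀ q : MvPolynomial σ F,
      (∀ m ∈ q.support, τ < #m.support → m ∈ M) → ∀ m ∈ (aeval (fun z : V × Fin W =>
        if ρ z.1 = z.2 then X z.1 else 0 : _ → MvPolynomial V F) (aeval lab q)).support,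
          #m.support ≤ τ := by
  classical
  let S : (σ →₀ ℕ) → Finset (V × Fin W) := fun m => m.support.biUnion fun z => (lab z).vars
  have hW : 0 < W := Nat.pos_of_ne_zero fun h => by simp [h] at hM
  obtain ⟨ρ, -, hρ⟩ := exists_mem_notMem_of_card_lt_card (t := univ) (s := (M.filter fun m =>
      τ < #(S m)).biUnion fun m => univ.filter fun ρ : V → Fin W => ∀ z ∈ S m, ρ z.1 = z.2) (by
    refine lt_of_mul_lt_mul_right ?_ (Nat.zero_le (W ^ (τ + 1)))
    refine (Nat.mul_le_mul_right _ card_biUnion_le).trans_lt ?_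
    rw [sum_mul]
    refine (sum_le_card_nsmul _ _ (W ^ Fintype.card V) fun m hm => le_trans (Nat.mul_le_mul_left _
      (Nat.pow_le_pow_right hW (mem_filter.1 hm).2)) (surv (S m))).trans_lt ?_
    rw [card_univ, Fintype.card_fun, Fintype.card_fin, smul_eq_mul, mul_comm]
    exact mul_lt_mul_of_pos_left ((card_filter_le _ _).trans_lt hM) (by positivity))
  refine ⟨ρ, fun q hq m' hm' => ?_⟩
  rw [q.as_sum, map_sum, map_sum] at hm'
  obtain ⟨m, hm, h⟩ := mem_biUnion.1 (support_sum hm')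
  by_cases h1 : τ < #(S m)
  · have h2 : ∃ z ∈ S m, ρ z.1 ≠ z.2 := by
      by_contra h2
      push Not at h2
      exact hρ (mem_biUnion.2 ⟨m, mem_filter.2 ⟨hq m hm (h1.trans_le (card_biUnion_vars hl _)),
        h1⟩, mem_filter.2 ⟨mem_univ _, h2⟩⟩)
    obtain ⟨z', h2, h3⟩ := h2
    obtain ⟨z, h4, h5⟩ := mem_biUnion.1 h2
    have h6 : lab z = X z' := by
      rcases hl z with e | e | ⟨v, e⟩ <;> simp_all
    rw [aeval_monomial, map_mul, Finsupp.prod, map_prod, prod_eq_zero h4 (by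
      rw [map_pow, h6, aeval_X, if_neg h3, zero_pow (Finsupp.mem_support_iff.1 h4)])] at h
    simp at h
  · refine (card_le_card ((support_subset_vars_of_mem_support h).trans (vars_aeval _
      (vars_aeval lab (vars_monomial (mem_support_iff.1 hm)).subset)))).trans
      ((card_biUnion_vars (fun z => ?_) _).trans (not_lt.1 h1))
    split_ifs
    · exact .inr (.inr ⟨_, rfl⟩)
    · exact .inl rfl

/-- The bound in terms of the parameters of the hard polynomial. -/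
lemma core_nat (p : ℕ) [Fact p.Prime] [CharP F p] {t m k τ s : ℕ}
    (g : Fin s → List (MvPolynomial ((Fin k × Fin (m ^ 2)) ⊕ Pw (Pw (Vt t) (m ^ 2)) k) F))
    (hg : ∀ i, ∀ q ∈ g i, ∀ m ∈ q.support, #m.support ≤ τ)
    (h : ∑ i, (g i).prod = hard t (m ^ 2) k (fun y => X (.inl y)) fun z => X (.inr z))
    (hm : 2 ≤ m) (ht : 2 * (p * τ) ≤ 2 ^ t) : m ^ k ≤ 2 * 2 ^ t * 5 ^ k * s := by
  have hm' : (2 : ℝ) ≤ m := by exact_mod_cast hm
  have hD : (1 : ℝ) ≤ 2 ^ t := one_le_pow₀ one_le_two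
  obtain ⟨x, hx, e⟩ : ∃ x : ℝ, 0 < x ∧ x ^ 2 ^ t = (1 / m) ^ 2 :=
    ⟨_, by positivity, Real.rpow_inv_natCast_pow (by positivity) (by positivity)⟩
  have h0 : (1 / m : ℝ) ≤ 1 / 2 := one_div_le_one_div_of_le two_pos hm'
  have h1 : x ≤ 1 - 1 / (2 * 2 ^ t) := by
    have h2 : (1 : ℝ) / (2 * 2 ^ t) ≤ 1 / 2 := one_div_le_one_div_of_le two_pos (by linarith)
    refine le_of_pow_le_pow_left₀ (n := 2 ^ t) (by positivity) (by linarith) ?_
    have h3 := one_add_mul_le_pow (a := -(1 / (2 * 2 ^ t) : ℝ)) (by linarith) (2 ^ t)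
    have h4 : ((2 ^ t : ℕ) : ℝ) * -(1 / (2 * 2 ^ t)) = -(1 / 2) := by
      push_cast
      field_simp
    have h5 : (0 : ℝ) < 1 / m := by positivity
    rw [h4, ← sub_eq_add_neg, ← sub_eq_add_neg] at h3
    rw [e]
    nlinarith
  have hx1 : x ≤ 1 := h1.trans (sub_le_self _ (by positivity))
  have h2 : 1 / m ≤ x ^ (p * τ) := by
    refine le_of_pow_le_pow_left₀ two_ne_zero (by positivity) ?_
    rw [← e, ← pow_mul]
    exact pow_le_pow_of_le_one hx.le hx1 (by omega)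
  have h3 := core p g hg h hx hx1 (by
    rw [e]
    push_cast
    field_simp
    rfl)
  have h4 : 1 / (2 * 2 ^ t) * (1 / m) ^ k * ((m ^ 2 : ℕ) / 5 : ℝ) ^ k ≤ s := by
    refine le_trans ?_ h3
    rw [pow_mul]
    gcongr
    linarith
  have h5 : 1 / (2 * 2 ^ t) * (1 / m) ^ k * ((m ^ 2 : ℕ) / 5 : ℝ) ^ k =
      m ^ k / (2 * 2 ^ t * 5 ^ k) := by
    rw [mul_assoc, ← mul_pow, show 1 / m * ((m ^ 2 : ℕ) / 5 : ℝ) = m / 5 by
      push_cast
      field_simp, div_pow]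
    field_simp
  rw [h5, div_le_iff₀' (by positivity)] at h4
  exact_mod_cast h4

lemma num {m k D s : ℕ} (h : m ^ k ≤ 2 * D * 5 ^ k * s) (hm : 25 * D ≤ m) (hD : 1 ≤ D)
    (hk : 6 ≤ k) : m ^ (2 * k) ≤ s ^ 6 := by
  have h0 : 0 < m := by omega
  have h1 : m ^ k * m ^ k ≤ m ^ k * (m * s) ^ 2 :=
    calc m ^ k * m ^ k ≤ (2 * D * 5 ^ k * s) * (2 * D * 5 ^ k * s) := Nat.mul_le_mul h h
      _ = 25 ^ k * (2 * D * s) ^ 2 := by
        rw [show 25 = 5 * 5 from rfl, mul_pow]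
        ring
      _ ≤ _ := by gcongr <;> omega
  have h2 := Nat.pow_le_pow_left (Nat.le_of_mul_le_mul_left h1 (by positivity)) 3
  refine Nat.le_of_mul_le_mul_left (c := m ^ k) ?_ (by positivity)
  calc m ^ k * m ^ (2 * k) = (m ^ k) ^ 3 := by ring
    _ ≤ m ^ 6 * s ^ 6 := h2.trans_eq (by ring)
    _ ≤ _ := by gcongr

theorem main (p : ℕ) [hp : Fact p.Prime] [CharP F p] {n d t s : ℕ} [NeZero n] (ht : 1 ≤ t)
    (hn : (20 * p * t) ^ 6 ≤ n) (hd : 100 * p * t ≤ d)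
    (g : Fin s → List (MvPolynomial (Fin d × Fin n × Fin n) F))
    (M : Finset (Fin d × Fin n × Fin n →₀ ℕ))
    (hg : ∀ i, ∀ q ∈ g i, ∀ m ∈ q.support, t < #m.support → m ∈ M)
    (h : ∑ i, (g i).prod = (List.ofFn fun k : Fin d => Matrix.of fun i j : Fin n =>
      (X (k, i, j) : MvPolynomial (Fin d × Fin n × Fin n) F)).prod 0 0) :
    n ^ d ≤ s ^ (200 * p * t) ∨ n ^ t ≤ #M ^ 6 := by
  classical
  have hp2 := hp.out.two_le
  have hτ : 2 ≤ p * t := by nlinarith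
  rw [mul_assoc] at hn hd
  obtain ⟨e, h1, h2⟩ : ∃ e, 2 * (p * t) ≤ 2 ^ e ∧ 2 ^ e < 4 * (p * t) := by
    have h1 := Nat.pow_log_le_self 2 (x := 4 * (p * t) - 1) (by omega)
    have h2 := Nat.lt_pow_succ_log_self one_lt_two (4 * (p * t) - 1)
    exact ⟨Nat.log 2 (4 * (p * t) - 1), by omega, by omega⟩
  obtain ⟨m, h3, h4, h5⟩ : ∃ m, 25 * 2 ^ e ≤ m ∧ (m * 2 ^ e) ^ 3 ≤ n ∧ n ≤ m ^ 6 := by
    have h3 : ∃ m, n < ((m + 1) * 2 ^ e) ^ 3 := ⟨n, by
      refine (Nat.lt_succ_self n).trans_le (le_trans ?_ (Nat.le_self_pow (by norm_num) _))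
      exact Nat.le_mul_of_pos_right _ (by positivity)⟩
    have h4 := Nat.find_spec h3
    have h5 : 25 * 2 ^ e ≤ Nat.find h3 := by
      by_contra h5
      refine absurd (h4.trans_le ?_) (not_lt.2 hn)
      calc _ ≤ (25 * 2 ^ e * 2 ^ e) ^ 3 := by gcongr; omega
        _ = (5 * 2 ^ e) ^ 6 := by ring
        _ ≤ _ := by gcongr ?_ ^ 6; omega
    refine ⟨_, h5, ?_, h4.le.trans ?_⟩
    · have h6 := Nat.find_min h3 (m := Nat.find h3 - 1) (by omega)
      rwa [Nat.sub_add_cancel (by omega), not_lt] at h6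
    · calc _ ≤ (Nat.find h3 * Nat.find h3) ^ 3 := by gcongr ?_ ^ 3; nlinarith
        _ = _ := by ring
  obtain ⟨k, h6, h7, h8⟩ : ∃ k, k * (2 * 2 ^ e + 2) + 2 ≤ d ∧ 12 ≤ k ∧ d ≤ 9 * (p * t) * k := by
    have h6 := Nat.div_mul_le_self (d - 2) (2 * 2 ^ e + 2)
    have h7 : 12 ≤ (d - 2) / (2 * 2 ^ e + 2) := (Nat.le_div_iff_mul_le (by omega)).2 (by omega)
    have h8 := Nat.lt_mul_div_succ (d - 2) (show 0 < 2 * 2 ^ e + 2 by omega)
    refine ⟨_, by omega, h7, ?_⟩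
    generalize (d - 2) / (2 * 2 ^ e + 2) = k at *
    have h9 : (2 * 2 ^ e + 2) * (k + 1) ≤ 8 * (p * t) * (k + 1) := by gcongr; omega
    have h10 : d ≤ 8 * (p * t) * (k + 1) + 1 := by omega
    nlinarith
  by_cases hM : m ^ (t + 1) ≤ #M
  · right
    calc n ^ t ≤ (m ^ 6) ^ t := by gcongr
      _ = (m ^ t) ^ 6 := by ring
      _ ≤ _ := by
        gcongr
        exact le_trans (Nat.pow_le_pow_right (by omega) (by omega)) hM
  left
  have hv : ∀ v : (Fin k × Fin (m ^ 2)) ⊕ Pw (Pw (Vt e) (m ^ 2)) k,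
      Val (Fin m) 1 (∑ c : Fin m, (X (v, c) : MvPolynomial _ F)) := fun v =>
    (val_sum fun c => val_X (v, c)).pad (by simp)
  obtain ⟨lab, k1, k2⟩ := (val_hard (ι := Fin n) e (m ^ 2) k (by
    rw [Fintype.card_fin]
    refine le_trans ?_ h4
    calc m * 5 ^ e * m ^ 2 ≤ m * 8 ^ e * m ^ 2 := by gcongr; norm_num
      _ = _ := by
        rw [show 8 = 2 ^ 3 from rfl, ← pow_mul]
        ring) (fun y => hv (.inl y)) fun z => hv (.inr z)).imm h6
  obtain ⟨ρ, hρ⟩ := restrict lab k1 M (not_le.1 hM)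
  let φ := (aeval (R := F) (fun z : _ × Fin m => if ρ z.1 = z.2 then X z.1 else 0 :
    _ → MvPolynomial _ F)).comp (aeval lab)
  have h9 := num (core_nat p (fun i => (g i).map φ) (τ := t) (fun i q hq => by
    obtain ⟨q, hq', rfl⟩ := List.mem_map.1 hq
    exact hρ q (hg i q hq')) (by
      simp only [← map_list_prod, ← map_sum]
      rw [h, AlgHom.comp_apply, k2, hard_map]
      simp) (by omega) h1) h3 (by omega) (by omega)
  have hs : 0 < s := Nat.pos_of_ne_zero fun h0 => by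
    have : 0 < m ^ (2 * k) := pow_pos (by omega) _
    simp [h0] at h9
    omega
  calc n ^ d ≤ (m ^ 6) ^ (9 * (p * t) * k) :=
        (Nat.pow_le_pow_left h5 d).trans (Nat.pow_le_pow_right (pow_pos (by omega) _) h8)
    _ = (m ^ (2 * k)) ^ (27 * (p * t)) := by ring
    _ ≤ (s ^ 6) ^ (27 * (p * t)) := by gcongr
    _ ≤ _ := by
      rw [← pow_mul]
      exact Nat.pow_le_pow_right hs (by nlinarith)

theorem main_ring {R : Type*} [CommRing R] {p : ℕ} (hp : p.Prime) (hR : ¬IsUnit (p : R))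
    {n d t s : ℕ} [NeZero n] (ht : 1 ≤ t) (hn : (20 * p * t) ^ 6 ≤ n) (hd : 100 * p * t ≤ d)
    (g : Fin s → List (MvPolynomial (Fin d × Fin n × Fin n) R))
    (M : Finset (Fin d × Fin n × Fin n →₀ ℕ))
    (hg : ∀ i, ∀ q ∈ g i, ∀ m ∈ q.support, t < #m.support → m ∈ M)
    (h : ∑ i, (g i).prod = (List.ofFn fun k : Fin d => Matrix.of fun i j : Fin n =>
      (X (k, i, j) : MvPolynomial (Fin d × Fin n × Fin n) R)).prod 0 0) :
    n ^ d ≤ s ^ (200 * p * t) ∨ n ^ t ≤ #M ^ 6 := by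
  obtain ⟨I, hI, hpI⟩ := exists_max_ideal_of_mem_nonunits hR
  let _ := Ideal.Quotient.field I
  have := Fact.mk hp
  have : CharP (R ⧸ I) p := (CharP.charP_iff_prime_eq_zero hp).2 (by
    rw [← map_natCast (Ideal.Quotient.mk I)]
    exact Ideal.Quotient.eq_zero_iff_mem.2 hpI)
  refine main (F := R ⧸ I) p ht hn hd (fun i => (g i).map (map (Ideal.Quotient.mk I))) M
    (fun i q hq m hm => ?_) ?_
  · obtain ⟨q, hq', rfl⟩ := List.mem_map.1 hq
    exact hg i q hq' m (support_map_subset _ _ hm)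
  · simp only [← map_list_prod, ← map_sum]
    rw [h]
    refine (congrFun (congrFun (map_list_prod (map (Ideal.Quotient.mk I)).mapMatrix
      (List.ofFn fun k : Fin d => Matrix.of fun i j : Fin n => X (k, i, j))) 0) 0).trans ?_
    rw [List.map_ofFn, show _ ∘ _ = fun k : Fin d => Matrix.of fun i j : Fin n =>
      (X (k, i, j) : MvPolynomial _ (R ⧸ I)) by ext1 k; ext1 i j; simp]

end Pool.Agent.Lib.MP_8a52c3_lc.H39
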