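import Pool.Agent.Lib.MP_8a52c3_lc.H39Op

/-! The hard read-once formula and its weighted rank. -/

namespace Pool.Agent.Lib.MP_8a52c3_lc.H39

open Finset MvPolynomial

/-- Disjoint copies of a type. -/
def Pw (V : Type) : ℕ → Type
  | 0 => Empty
  | j + 1 => V ⊕ Pw V j

instance Pw.fin (V : Type) [Fintype V] : ∀ j, Fintype (Pw V j)
  | 0 => inferInstanceAs (Fintype Empty)
  | j + 1 => @instFintypeSum V (Pw V j) _ (Pw.fin V j)

/-- The inclusion of a copy. -/
def pin {V : Type} : (j : ℕ) → Fin j → V → Pw V j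
  | 0, a => a.elim0
  | j + 1, a => Fin.cases (motive := fun _ => V → V ⊕ Pw V j) Sum.inl
      (fun a => Sum.inr ∘ pin j a) a

variable {L : Type*} [Field L] {V : Type} [Fintype V] {x : ℝ} {D : ℕ}

lemma PC.sumPw (hx : 0 < x) {g : MvPolynomial V L} (hg : g.IsHomogeneous D) (hD : 0 < D) {η : ℝ}
    (h0 : 0 ≤ η) (h1 : η ≤ 1) (h : PC x {g} ((1 - η) / (1 + x ^ D))) :
    ∀ j, PC x {∑ a : Fin j, rename (pin j a) g} ((1 - η ^ j) / (1 + x ^ D))
  | 0 => by
    rw [pow_zero, sub_self, zero_div]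
    exact cert_zero
  | j + 1 => by
    have hy : 0 < 1 + x ^ D := by positivity
    have h2 : η ^ j ≤ 1 := pow_le_one₀ h0 h1
    have h3 := h.add hx (PC.sumPw hx hg hD h0 h1 h j) (div_nonneg (by linarith) hy.le)
      (by rw [mul_div_cancel₀ _ hy.ne']; linarith [pow_nonneg h0 j]) hD hg
    have e : (1 - η) / (1 + x ^ D) + (1 - (1 + x ^ D) * ((1 - η) / (1 + x ^ D))) *
        ((1 - η ^ j) / (1 + x ^ D)) = (1 - η ^ (j + 1)) / (1 + x ^ D) := by
      field_simp
      ring
    rw [e, map_sum] at h3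
    simp only [rename_rename] at h3
    rw [Fin.sum_univ_succ]
    exact h3

lemma PC.unionPw (hx : 0 ≤ x) {g : MvPolynomial V L} (hg : g.IsHomogeneous D)
    (h : PC x {g} (2 / 5)) : ∀ j : ℕ, x ^ D * j ≤ 1 →
      PC x (Set.range fun a : Fin j => rename (pin j a) g) (j / 5)
  | 0, _ => by
    rw [Nat.cast_zero, zero_div]
    exact cert_zero
  | j + 1, hj => by
    have hy : 0 ≤ x ^ D := pow_nonneg hx D
    have hj0 : (0 : ℝ) ≤ j := Nat.cast_nonneg j
    have hj1 : x ^ D * j ≤ 1 := by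
      push_cast at hj
      nlinarith
    refine PC.mono hx (PC.union (D := D) (G := Set.range fun a : Fin (j + 1) =>
      (rename (pin (j + 1) a) g : MvPolynomial (V ⊕ Pw V j) L)) hx h (PC.unionPw hx hg h j hj1)
      (by positivity) (by nlinarith) ?_ ?_ ?_) subset_rfl ?_
    · rintro _ rfl
      exact hg
    · rintro _ rfl
      exact ⟨0, rfl⟩
    · rintro _ ⟨a, rfl⟩
      refine ⟨a.succ, ?_⟩
      rw [rename_rename]
      rfl
    · push_cast
      nlinarith

lemma PC.prodPw (hx : 0 ≤ x) {H : Set (MvPolynomial V L)} {a : ℝ} (ha : 0 ≤ a) (h : PC x H a) :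
    ∀ k, PC x {p | ∃ g : Fin k → MvPolynomial V L, (∀ i, g i ∈ H) ∧
      p = ∏ i, rename (pin k i) (g i)} (a ^ k)
  | 0 => by
    have : IsEmpty (Pw V 0) := inferInstanceAs (IsEmpty Empty)
    rw [pow_zero]
    refine PC.mono hx pc_one ?_ le_rfl
    rintro _ rfl
    exact ⟨Fin.elim0, fun i => i.elim0, by simp⟩
  | k + 1 => by
    rw [pow_succ']
    refine PC.mul (Z' := Pw V k) hx h (PC.prodPw hx ha h k) (pow_nonneg ha k) ?_
    rintro p hp _ ⟨g, hg, rfl⟩
    refine ⟨Fin.cons p g, fun i => Fin.cases hp hg i, ?_⟩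
    rw [Fin.prod_univ_succ, map_prod]
    simp only [rename_rename]
    rfl

/-- The variables of the read-once formula of depth `2 t`. -/
def Vt : ℕ → Type
  | 0 => Unit
  | t + 1 => Pw (Vt t ⊕ Vt t) 5

instance Vt.fin : ∀ t, Fintype (Vt t)
  | 0 => inferInstanceAs (Fintype Unit)
  | t + 1 => @Pw.fin (Vt t ⊕ Vt t) (@instFintypeSum _ _ (Vt.fin t) (Vt.fin t)) 5

/-- Alternating sums of fan-in five and products of fan-in two. -/
def hp {R : Type*} [CommSemiring R] : (t : ℕ) → (Vt t → R) → R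
  | 0, z => z ()
  | t + 1, z => ∑ a : Fin 5, hp t (fun v => z (pin 5 a (.inl v))) *
      hp t fun v => z (pin 5 a (.inr v))

lemma hp_map {R S Φ : Type*} [CommSemiring R] [CommSemiring S] [FunLike Φ R S]
    [RingHomClass Φ R S] (f : Φ) : ∀ t (z : Vt t → R), f (hp t z) = hp t fun v => f (z v)
  | 0, _ => rfl
  | t + 1, z => by simp only [hp, map_sum, map_mul, hp_map f t]

section lead

variable {L : Type*} [CommRing L] {Z : Type} {p q p' q' : MvPolynomial Z L} {i j : ℕ}

/-- All monomials have degree below `n`. -/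
def Lt (n : ℕ) (r : MvPolynomial Z L) : Prop := ∀ m : Z →₀ ℕ, n ≤ m.degree → coeff m r = 0

lemma Lt.mul (h : Lt (i + 1) p) (h' : Lt j q) : Lt (i + j) (p * q) := by
  classical
  intro m hm
  rw [coeff_mul]
  refine sum_eq_zero fun c hc => ?_
  rw [← mem_antidiagonal.1 hc, map_add] at hm
  by_cases h1 : i + 1 ≤ c.1.degree
  · rw [h _ h1, zero_mul]
  · rw [h' _ (by omega), mul_zero]

lemma Lt.add (h : Lt i p) (h' : Lt i q) : Lt i (p + q) := fun m hm => by
  rw [coeff_add, h m hm, h' m hm, add_zero]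

lemma Lt.succ (h : Lt i p) : Lt (i + 1) p := fun m hm => h m (by omega)

lemma lt_of_hom (h : p.IsHomogeneous i) : Lt (i + 1) p := fun _ hm => h.coeff_eq_zero (by omega)

/-- `p` is the leading form of `q`. -/
def Lead (n : ℕ) (p q : MvPolynomial Z L) : Prop := p.IsHomogeneous n ∧ Lt n (q - p)

lemma Lead.refl (h : p.IsHomogeneous i) : Lead i p p := ⟨h, fun _ _ => by simp⟩

lemma Lead.mul (h : Lead i p q) (h' : Lead j p' q') : Lead (i + j) (p * p') (q * q') := by
  refine ⟨h.1.mul h'.1, ?_⟩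
  rw [show q * q' - p * p' = (q - p) * (q' - p') + (p * (q' - p') + p' * (q - p)) by ring]
  exact (h.2.succ.mul h'.2).add (((lt_of_hom h.1).mul h'.2).add
    (add_comm i j ▸ (lt_of_hom h'.1).mul h.2))

lemma Lead.sum {ι : Type} (s : Finset ι) {f g : ι → MvPolynomial Z L}
    (h : ∀ a, Lead i (f a) (g a)) : Lead i (∑ a ∈ s, f a) (∑ a ∈ s, g a) := by
  refine ⟨IsHomogeneous.sum _ _ _ fun a _ => (h a).1, fun m hm => ?_⟩
  rw [← sum_sub_distrib, coeff_sum]
  exact sum_eq_zero fun a _ => (h a).2 m hm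

lemma Lead.prod : ∀ (k : ℕ) {f g : Fin k → MvPolynomial Z L}, (∀ a, Lead i (f a) (g a)) →
    Lead (k * i) (∏ a, f a) (∏ a, g a)
  | 0, _, _, _ => by
    simpa using Lead.refl (isHomogeneous_one Z L)
  | k + 1, _, _, h => by
    rw [Fin.prod_univ_succ, Fin.prod_univ_succ, add_mul, one_mul, add_comm]
    exact (h 0).mul (Lead.prod k fun a => h a.succ)

lemma lead_X (z : Z) (c : L) : Lead 1 (X z) (X z + C c) := by
  classical
  refine ⟨isHomogeneous_X L z, fun m hm => ?_⟩
  rw [add_sub_cancel_left, coeff_C, if_neg]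
  rintro rfl
  simp at hm

lemma hp_lead : ∀ (t : ℕ) {z z' : Vt t → MvPolynomial Z L}, (∀ v, Lead 1 (z v) (z' v)) →
    Lead (2 ^ t) (hp t z) (hp t z')
  | 0, _, _, h => h ()
  | t + 1, _, _, h => by
    rw [pow_succ, mul_two]
    exact Lead.sum _ fun a => (hp_lead t fun v => h _).mul (hp_lead t fun v => h _)

lemma hp_hom (t : ℕ) (f : Vt t → Z) :
    (hp t fun v => (X (f v) : MvPolynomial Z L)).IsHomogeneous (2 ^ t) :=
  (hp_lead t fun v => Lead.refl (isHomogeneous_X L (f v))).1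

end lead

lemma pc_hp (hx : 0 < x) : ∀ t, PC x {hp t (X : Vt t → MvPolynomial (Vt t) L)}
    ((9 / 10) / (1 + x ^ 2 ^ t))
  | 0 => by
    refine PC.mono hx.le (pc_var hx.le) subset_rfl ?_
    rw [pow_zero, pow_one]
    exact div_le_div_of_nonneg_right (by norm_num) (by linarith)
  | t + 1 => by
    have hy : 0 < x ^ 2 ^ t := pow_pos hx _
    have e : x ^ 2 ^ (t + 1) = x ^ 2 ^ t * x ^ 2 ^ t := by rw [pow_succ, mul_two, pow_add]
    have h1 := PC.mul (G := {rename Sum.inl (hp t X) * rename Sum.inr (hp t X)}) hx.le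
      (pc_hp hx t) (pc_hp hx t) (by positivity) (by
        rintro _ rfl _ rfl
        rfl)
    have h2 : (rename Sum.inl (hp t X) * rename Sum.inr (hp t X) :
        MvPolynomial (Vt t ⊕ Vt t) L).IsHomogeneous (2 ^ (t + 1)) := by
      rw [pow_succ, mul_two]
      exact (hp_hom t id).rename_isHomogeneous.mul (hp_hom t id).rename_isHomogeneous
    have h3 := PC.sumPw hx h2 (by positivity) (η := 3 / 5) (by norm_num) (by norm_num)
      (h1.mono hx.le subset_rfl (by
        rw [e, div_mul_div_comm, div_le_div_iff₀ (by positivity) (by positivity)]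
        nlinarith [sq_nonneg (x ^ 2 ^ t - 1)])) 5
    simp only [map_mul, hp_map, rename_X] at h3
    exact h3.mono hx.le subset_rfl (div_le_div_of_nonneg_right (by norm_num) (by positivity))

/-- The hard polynomial. -/
def hard {R : Type*} [CommSemiring R] (t n k : ℕ) (y : Fin k × Fin n → R)
    (z : Pw (Pw (Vt t) n) k → R) : R :=
  ∏ i : Fin k, ∑ a : Fin n, y (i, a) * hp t fun v => z (pin k i (pin n a v))

lemma hard_map {R S Φ : Type*} [CommSemiring R] [CommSemiring S] [FunLike Φ R S]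
    [RingHomClass Φ R S] (f : Φ) (t n k : ℕ) (y : Fin k × Fin n → R)
    (z : Pw (Pw (Vt t) n) k → R) :
    f (hard t n k y z) = hard t n k (fun v => f (y v)) fun v => f (z v) := by
  simp only [hard, map_prod, map_sum, map_mul, hp_map]

lemma pc_hard (hx : 0 < x) (hx1 : x ≤ 1) (t n k : ℕ) (hn : x ^ 2 ^ t * n ≤ 1) :
    PC x (Set.range fun σ : Fin k → Fin n => ∏ i, hp t fun v =>
      (X (pin k i (pin n (σ i) v)) : MvPolynomial (Pw (Pw (Vt t) n) k) L)) ((n / 5) ^ k) := by
  have h1 : PC x {hp t (X : Vt t → MvPolynomial (Vt t) L)} (2 / 5) :=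
    (pc_hp hx t).mono hx.le subset_rfl (by
      have := pow_le_one₀ (n := 2 ^ t) hx.le hx1
      rw [le_div_iff₀ (by positivity)]
      linarith)
  refine (PC.prodPw hx.le (by positivity) (PC.unionPw hx.le (hp_hom t id) h1 n hn) k).mono hx.le
    ?_ le_rfl
  rintro _ ⟨g, hg, rfl⟩
  choose σ hσ using hg
  refine ⟨σ, prod_congr rfl fun i _ => ?_⟩
  simp only [← hσ, hp_map, rename_X, id]

end Pool.Agent.Lib.MP_8a52c3_lc.H39
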