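import Mathlib

/-! Weighted ranks of homogeneous operators on graded coordinate spaces. -/

namespace Pool.Agent.Lib.MP_8a52c3_lc.H39

open Finset Submodule

variable {L : Type*} [Field L] {P P' P'' ι κ : Type}

/-- Vectors supported in degree `j`. -/
def Hm (L : Type*) [Field L] (deg : P → ℕ) (j : ℕ) : Submodule L (P → L) where
  carrier := {v | ∀ b, deg b ≠ j → v b = 0}
  add_mem' ha hb b h := by simp [ha b h, hb b h]
  zero_mem' _ _ := rfl
  smul_mem' c v hv b h := by simp [hv b h]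

/-- Projection to degree `j`. -/
def pr (L : Type*) [Field L] (deg : P → ℕ) (j : ℕ) : (P → L) →ₗ[L] (P → L) where
  toFun v b := if deg b = j then v b else 0
  map_add' v w := by ext b; by_cases h : deg b = j <;> simp [h]
  map_smul' c v := by ext b; by_cases h : deg b = j <;> simp [h]

lemma pr_apply (deg : P → ℕ) (j : ℕ) (v : P → L) (b : P) :
    pr L deg j v b = if deg b = j then v b else 0 := rfl

lemma pr_of_mem {deg : P → ℕ} {j : ℕ} {v : P → L} (h : v ∈ Hm L deg j) : pr L deg j v = v := by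
  ext b
  rw [pr_apply]
  split_ifs with hb
  · rfl
  · exact (h b hb).symm

lemma pr_of_ne {deg : P → ℕ} {i j : ℕ} {v : P → L} (h : v ∈ Hm L deg i) (hij : i ≠ j) :
    pr L deg j v = 0 := by
  ext b
  rw [pr_apply]
  split_ifs with hb
  · exact h b fun h' => hij (h'.symm.trans hb)
  · rfl

lemma single_mem [DecidableEq P] (deg : P → ℕ) (b : P) :
    (Pi.single b 1 : P → L) ∈ Hm L deg (deg b) := fun c hc =>
  Pi.single_eq_of_ne (fun h => hc (by rw [h])) _

lemma mem_span_deg {deg : P → ℕ} {w : ι → P → L} {e : ι → ℕ} (hw : ∀ i, w i ∈ Hm L deg (e i))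
    {y : P → L} {n : ℕ} (hy : y ∈ Hm L deg n) (h : y ∈ span L (Set.range w)) :
    y ∈ span L (w '' {i | e i = n}) := by
  rw [← pr_of_mem hy]
  have h1 := Submodule.mem_map_of_mem (f := pr L deg n) h
  rw [Submodule.map_span] at h1
  refine span_le.2 ?_ h1
  rintro _ ⟨_, ⟨i, rfl⟩, rfl⟩
  by_cases hi : e i = n
  · rw [pr_of_mem (hi ▸ hw i)]
    exact subset_span ⟨i, hi, rfl⟩
  · rw [pr_of_ne (hw i) hi]
    exact zero_mem _

lemma sum_pow_le [Fintype ι] [Fintype κ] (e : ι → ℕ) (f : κ → ℕ)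
    (h : ∀ n, #{j | f j = n} ≤ #{i | e i = n}) {x : ℝ} (hx : 0 ≤ x) :
    ∑ j, x ^ f j ≤ ∑ i, x ^ e i := by
  have h1 : ∀ j ∈ (univ : Finset κ), f j ∈ range (univ.sup e + univ.sup f + 1) := fun j hj =>
    mem_range.2 (by have := le_sup (f := f) hj; omega)
  have h2 : ∀ i ∈ (univ : Finset ι), e i ∈ range (univ.sup e + univ.sup f + 1) := fun i hi =>
    mem_range.2 (by have := le_sup (f := e) hi; omega)
  rw [← sum_fiberwise_of_maps_to' h1, ← sum_fiberwise_of_maps_to' h2]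
  refine sum_le_sum fun n _ => ?_
  rw [sum_const, sum_const, nsmul_eq_mul, nsmul_eq_mul]
  exact mul_le_mul_of_nonneg_right (Nat.cast_le.2 (h n)) (pow_nonneg hx n)

lemma card_le_of_span {V : Type*} [AddCommGroup V] [Module L V] [Fintype κ] {k : κ → V}
    (hk : LinearIndependent L k) (w : ι → V) (s : Finset ι)
    (h : ∀ j, k j ∈ span L (w '' s)) : Fintype.card κ ≤ #s := by
  classical
  have h1 := linearIndependent_le_span_aux' k hk ((s.image w : Finset V) : Set V) (by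
    rintro _ ⟨j, rfl⟩
    rw [coe_image]
    exact h j)
  rw [show Fintype.card ((s.image w : Finset V) : Set V) = #(s.image w) from
    Fintype.card_coe _] at h1
  exact h1.trans card_image_le

lemma cnt [Fintype ι] [Fintype κ] {deg : P → ℕ} {k : κ → P → L} {f : κ → ℕ} {w : ι → P → L}
    {e : ι → ℕ} (hk : LinearIndependent L k) (hkf : ∀ j, k j ∈ Hm L deg (f j))
    (hw : ∀ i, w i ∈ Hm L deg (e i)) (hs : ∀ j, k j ∈ span L (Set.range w)) {x : ℝ}
    (hx : 0 ≤ x) : ∑ j, x ^ f j ≤ ∑ i, x ^ e i := by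
  refine sum_pow_le e f (fun n => ?_) hx
  rw [← Fintype.card_subtype]
  refine card_le_of_span (hk.comp (Subtype.val : {j // f j = n} → κ) Subtype.val_injective) w _
    fun j => ?_
  rw [coe_filter]
  have h1 := hkf j.1
  rw [j.2] at h1
  simpa using mem_span_deg hw h1 (hs j.1)

lemma maxext {V : Type*} [AddCommGroup V] [Module L V] {v : ι → V} (hv : LinearIndependent L v)
    (k : κ → V) : ∃ C : Set κ, LinearIndependent L (Sum.elim v fun c : C => k c) ∧
      ∀ j, k j ∈ span L (Set.range (Sum.elim v fun c : C => k c)) := by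
  have h0 : LinearIndepOn L (Sum.elim v k) (Set.range Sum.inl) :=
    (linearIndepOn_range_iff Sum.inl_injective _).2 hv
  obtain ⟨b, -, h1, h2, h3⟩ := exists_linearIndepOn_extension h0 (Set.subset_univ _)
  refine ⟨Sum.inr ⁻¹' b, ?_, fun j => ?_⟩
  · let g : ι ⊕ (Sum.inr ⁻¹' b : Set κ) → b :=
      Sum.elim (fun i => ⟨.inl i, h1 ⟨i, rfl⟩⟩) fun c => ⟨.inr c.1, c.2⟩
    have hg : Function.Injective g := by
      rintro (i | c) (j | c') h <;> simp [g] at h ⊢
      · exact h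
      · exact Subtype.ext h
    convert h3.comp g hg using 1
    ext (i | c) <;> rfl
  · refine span_mono ?_ (h2 ⟨.inr j, trivial, rfl⟩)
    rintro _ ⟨i | c, hc, rfl⟩
    · exact ⟨.inl i, rfl⟩
    · exact ⟨.inr ⟨c, hc⟩, rfl⟩

lemma lead_indep [Fintype ι] (wt : P → ℕ) {v a : ι → P → L} (e : ι → ℕ)
    (ha : LinearIndependent L a) (h1 : ∀ i, a i ∈ Hm L wt (e i))
    (h2 : ∀ i b, e i ≤ wt b → v i b = a i b) : LinearIndependent L v := by
  classical
  rw [Fintype.linearIndependent_iff] at ha ⊢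
  intro c hc
  by_contra hne
  push Not at hne
  obtain ⟨i₀, hi₀, hmax⟩ := exists_max_image {i | c i ≠ 0} e
    (hne.imp fun i hi => mem_filter.2 ⟨mem_univ i, hi⟩)
  have h3 := ha (fun i => if e i = e i₀ then c i else 0) ?_ i₀
  · simp only [if_true] at h3
    exact (mem_filter.1 hi₀).2 h3
  ext b
  have h4 := congrFun hc b
  simp only [Finset.sum_apply, Pi.smul_apply, smul_eq_mul, Pi.zero_apply] at h4 ⊢
  by_cases hb : wt b = e i₀
  · refine Eq.trans (sum_congr rfl fun i _ => ?_) h4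
    by_cases hi : c i = 0
    · simp [hi]
    rw [h2 i b (hb ▸ hmax i (mem_filter.2 ⟨mem_univ i, hi⟩))]
    split_ifs with h5
    · rfl
    · rw [h1 i b fun h => h5 (h.symm.trans hb), mul_zero, mul_zero]
  · refine sum_eq_zero fun i _ => ?_
    split_ifs with h5
    · rw [h1 i b fun h => hb (h.trans h5), mul_zero]
    · rw [zero_mul]

/-- The tensor product of two coordinate vectors. -/
def tn (e : P'' ≃ P × P') (v : P → L) (w : P' → L) : P'' → L := fun b => v (e b).1 * w (e b).2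

lemma tn_mem {e : P'' ≃ P × P'} {deg : P → ℕ} {deg' : P' → ℕ} {deg'' : P'' → ℕ}
    (he : ∀ b, deg'' b = deg (e b).1 + deg' (e b).2) {v : P → L} {w : P' → L} {i j : ℕ}
    (hv : v ∈ Hm L deg i) (hw : w ∈ Hm L deg' j) : tn e v w ∈ Hm L deg'' (i + j) := by
  intro b hb
  by_cases h : deg (e b).1 = i
  · rw [tn, hw _ fun h' => hb (by rw [he, h, h']), mul_zero]
  · rw [tn, hv _ h, zero_mul]

lemma tn_mem_left (e : P'' ≃ P × P') {deg : P → ℕ} {v : P → L} {i : ℕ} (hv : v ∈ Hm L deg i)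
    (w : P' → L) : tn e v w ∈ Hm L (fun b => deg (e b).1) i := fun b hb => by
  rw [tn, hv _ hb, zero_mul]

lemma tn_indep₂ {ι' J J' : Type} [Fintype ι] [Fintype ι'] [Fintype J] [Fintype J']
    (e : P'' ≃ P × P') {v : ι → P → L} {v' : ι' → P → L} (hv : LinearIndependent L (Sum.elim v v'))
    {w : J → P' → L} {w' : J' → P' → L} (hw : LinearIndependent L w)
    (hw' : LinearIndependent L w') : LinearIndependent L
      (Sum.elim (fun q : ι × J => tn e (v q.1) (w q.2)) fun q : ι' × J' =>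
        tn e (v' q.1) (w' q.2)) := by
  rw [Fintype.linearIndependent_iff] at hv hw hw' ⊢
  intro c hc
  have h1 := fun y => hv (Sum.elim (fun i => ∑ j, c (.inl (i, j)) * w j y)
    fun i => ∑ j, c (.inr (i, j)) * w' j y) (by
      ext x
      have h2 := congrFun hc (e.symm (x, y))
      simp only [Finset.sum_apply, Pi.smul_apply, smul_eq_mul, Pi.zero_apply, Fintype.sum_sum_type,
        Fintype.sum_prod_type, Sum.elim_inl, Sum.elim_inr, tn,
        Equiv.apply_symm_apply, sum_mul] at h2 ⊢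
      rw [← h2]
      congr 1 <;> exact sum_congr rfl fun _ _ => sum_congr rfl fun _ _ => by ring)
  rintro (⟨i, j⟩ | ⟨i, j⟩)
  · refine hw (fun j => c (.inl (i, j))) ?_ j
    ext y
    simpa using h1 y (.inl i)
  · refine hw' (fun j => c (.inr (i, j))) ?_ j
    ext y
    simpa using h1 y (.inr i)

lemma tn_indep {J : Type} [Fintype ι] [Fintype J] (e : P'' ≃ P × P') {v : ι → P → L}
    (hv : LinearIndependent L v) {w : J → P' → L} (hw : LinearIndependent L w) :
    LinearIndependent L fun q : ι × J => tn e (v q.1) (w q.2) := by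
  have h0 : LinearIndependent L (Sum.elim v (Empty.elim : Empty → P → L)) := by
    convert hv.comp _ (Equiv.sumEmpty ι Empty).injective using 1
    ext1 (i | i)
    · rfl
    · exact i.elim
  exact (tn_indep₂ e h0 hw hw).comp Sum.inl Sum.inl_injective

lemma tot_prod [Fintype P] [Fintype P'] [Fintype P''] {e : P'' ≃ P × P'} {deg : P → ℕ}
    {deg' : P' → ℕ} {deg'' : P'' → ℕ} (he : ∀ b, deg'' b = deg (e b).1 + deg' (e b).2) (x : ℝ) :
    ∑ b, x ^ deg'' b = (∑ b, x ^ deg b) * ∑ b, x ^ deg' b := by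
  rw [sum_mul_sum, ← Fintype.sum_prod_type']
  exact Fintype.sum_equiv e _ _ fun b => by rw [he, pow_add]

/-- The operator raises degrees by `D`. -/
def Sh (deg : P → ℕ) (D : ℕ) (N : Module.End L (P → L)) : Prop :=
  ∀ j v, v ∈ Hm L deg j → N v ∈ Hm L deg (j + D)

/-- There are homogeneous vectors of relative weight `a` whose images under operators of the
family are linearly independent. -/
def Cert [Fintype P] (x : ℝ) (deg : P → ℕ) (𝒩 : Set (Module.End L (P → L))) (a : ℝ) : Prop :=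
  ∃ (ι : Type) (_ : Fintype ι) (u : ι → P → L) (d : ι → ℕ) (N : ι → Module.End L (P → L)),
    (∀ i, N i ∈ 𝒩) ∧ (∀ i, u i ∈ Hm L deg (d i)) ∧ LinearIndependent L (fun i => N i (u i)) ∧
      a * ∑ b, x ^ deg b ≤ ∑ i, x ^ d i

variable [Fintype P] [Fintype P'] [Fintype P''] {x : ℝ} {deg : P → ℕ} {deg' : P' → ℕ}
  {deg'' : P'' → ℕ} {𝒩 : Set (Module.End L (P → L))} {𝒩' : Set (Module.End L (P' → L))}
  {ℳ : Set (Module.End L (P'' → L))} {a a' : ℝ} {e : P'' ≃ P × P'} {D : ℕ}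

lemma Cert.mono (hx : 0 ≤ x) (h : Cert x deg 𝒩 a) {𝒩₁ : Set (Module.End L (P → L))}
    (h1 : 𝒩 ⊆ 𝒩₁) (h2 : a' ≤ a) : Cert x deg 𝒩₁ a' := by
  obtain ⟨ι, _, u, d, N, k1, k2, k3, k4⟩ := h
  exact ⟨ι, inferInstance, u, d, N, fun i => h1 (k1 i), k2, k3,
    (mul_le_mul_of_nonneg_right h2 (sum_nonneg fun _ _ => pow_nonneg hx _)).trans k4⟩

lemma cert_zero : Cert x deg 𝒩 0 :=
  ⟨Empty, inferInstance, Empty.elim, Empty.elim, Empty.elim, fun i => i.elim, fun i => i.elim,
    linearIndependent_empty_type, by simp⟩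

lemma Cert.mul (hx : 0 ≤ x) (he : ∀ b, deg'' b = deg (e b).1 + deg' (e b).2)
    (h : Cert x deg 𝒩 a) (h' : Cert x deg' 𝒩' a') (ha' : 0 ≤ a')
    (hM : ∀ N ∈ 𝒩, ∀ N' ∈ 𝒩', ∃ M ∈ ℳ, ∀ v w, M (tn e v w) = tn e (N v) (N' w)) :
    Cert x deg'' ℳ (a * a') := by
  obtain ⟨ι, _, u, d, N, k1, k2, k3, k4⟩ := h
  obtain ⟨ι', _, u', d', N', k1', k2', k3', k4'⟩ := h'
  choose M hM1 hM2 using fun q : ι × ι' => hM _ (k1 q.1) _ (k1' q.2)
  refine ⟨ι × ι', inferInstance, fun q => tn e (u q.1) (u' q.2), fun q => d q.1 + d' q.2, M, hM1,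
    fun q => tn_mem he (k2 _) (k2' _), ?_, ?_⟩
  · simp only [hM2]
    exact tn_indep e k3 k3'
  · rw [tot_prod he, tot_prod (e := Equiv.refl (ι × ι')) (deg := d) (deg' := d')
      (deg'' := fun q => d q.1 + d' q.2) fun _ => rfl, mul_mul_mul_comm]
    exact mul_le_mul k4 k4' (mul_nonneg ha' (sum_nonneg fun _ _ => pow_nonneg hx _))
      (sum_nonneg fun _ _ => pow_nonneg hx _)

lemma weight_ineq {T T' S S' C y a a' : ℝ} (hT' : 0 ≤ T') (hC : 0 ≤ C) (ha' : 0 ≤ a')
    (hy : y * a' ≤ 1) (h1 : a * T ≤ S) (h2 : a' * T' ≤ S') (h3 : T ≤ y * S + C) :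
    (a + (1 - y * a) * a') * (T * T') ≤ S * T' + C * S' := by
  have k1 : C * (a' * T') ≤ C * S' := mul_le_mul_of_nonneg_left h2 hC
  have k2 : (T - y * S) * (a' * T') ≤ C * (a' * T') :=
    mul_le_mul_of_nonneg_right (by linarith) (mul_nonneg ha' hT')
  have k3 : a * T * ((1 - y * a') * T') ≤ S * ((1 - y * a') * T') :=
    mul_le_mul_of_nonneg_right h1 (mul_nonneg (by linarith) hT')
  nlinarith

lemma weight_sum {ι' J J' : Type} [Fintype ι] [Fintype ι'] [Fintype J] [Fintype J'] (d : ι → ℕ)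
    (d' : ι' → ℕ) (f : J → ℕ) (f' : J' → ℕ) (x : ℝ) :
    ∑ q : (ι × J) ⊕ (ι' × J'), x ^ Sum.elim (fun q => d q.1 + f q.2) (fun q => d' q.1 + f' q.2) q =
      (∑ i, x ^ d i) * (∑ j, x ^ f j) + (∑ i, x ^ d' i) * ∑ j, x ^ f' j := by
  rw [Fintype.sum_sum_type, ← tot_prod (e := Equiv.refl (ι × J)) fun _ => rfl,
    ← tot_prod (e := Equiv.refl (ι' × J')) fun _ => rfl]
  rfl

lemma Cert.union (hx : 0 ≤ x) (he : ∀ b, deg'' b = deg (e b).1 + deg' (e b).2)
    (h : Cert x deg 𝒩 a) (h' : Cert x deg' 𝒩' a') (ha' : 0 ≤ a') (hy : x ^ D * a' ≤ 1)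
    (hS : ∀ N ∈ 𝒩, Sh deg D N) (hM : ∀ N ∈ 𝒩, ∃ M ∈ ℳ, ∀ v w, M (tn e v w) = tn e (N v) w)
    (hM' : ∀ N' ∈ 𝒩', ∃ M ∈ ℳ, ∀ v w, M (tn e v w) = tn e v (N' w)) :
    Cert x deg'' ℳ (a + (1 - x ^ D * a) * a') := by
  classical
  obtain ⟨ι, _, u, d, N, k1, k2, k3, k4⟩ := h
  obtain ⟨ι', _, u', d', N', k1', k2', k3', k4'⟩ := h'
  choose M hM1 hM2 using fun i : ι => hM _ (k1 i)
  choose M' hM1' hM2' using fun i : ι' => hM' _ (k1' i)
  obtain ⟨C, c1, c2⟩ := maxext k3 fun b : P => (Pi.single b 1 : P → L)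
  have c3 := cnt (deg := deg) (e := Sum.elim (fun i => d i + D) fun c : C => deg c)
    (Pi.linearIndependent_single_one P L) (single_mem deg) (by
      rintro (i | c)
      · exact hS _ (k1 i) _ _ (k2 i)
      · exact single_mem deg c.1) c2 hx
  refine ⟨(ι × P') ⊕ (C × ι'), inferInstance,
    Sum.elim (fun q => tn e (u q.1) (Pi.single q.2 1)) fun q => tn e (Pi.single q.1.1 1) (u' q.2),
    Sum.elim (fun q => d q.1 + deg' q.2) fun q => deg q.1.1 + d' q.2,
    Sum.elim (fun q => M q.1) fun q => M' q.2, ?_, ?_, ?_, ?_⟩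
  · rintro (q | q)
    exacts [hM1 _, hM1' _]
  · rintro (q | q)
    exacts [tn_mem he (k2 _) (single_mem _ _), tn_mem he (single_mem _ _) (k2' _)]
  · convert tn_indep₂ e c1 (Pi.linearIndependent_single_one P' L) k3' using 1
    ext1 (q | q)
    exacts [hM2 _ _ _, hM2' _ _ _]
  · rw [weight_sum d (fun c : C => deg c) deg' d', tot_prod he]
    refine weight_ineq (sum_nonneg fun _ _ => pow_nonneg hx _)
      (sum_nonneg fun _ _ => pow_nonneg hx _) ha' hy k4 k4' (c3.trans_eq ?_)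
    simp only [Fintype.sum_sum_type, Sum.elim_inl, Sum.elim_inr, pow_add, mul_sum, mul_comm]

lemma Cert.add (hx : 0 < x) (he : ∀ b, deg'' b = deg (e b).1 + deg' (e b).2)
    {N : Module.End L (P → L)} {N' : Module.End L (P' → L)} {M : Module.End L (P'' → L)}
    (h : Cert x deg {N} a) (h' : Cert x deg' {N'} a') (ha' : 0 ≤ a')
    (hy : (1 + x ^ D) * a' ≤ 1) (hD : 0 < D) (hS : Sh deg D N)
    (hM : ∀ v w, M (tn e v w) = tn e (N v) w + tn e v (N' w)) :
    Cert x deg'' {M} (a + (1 - (1 + x ^ D) * a) * a') := by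
  classical
  obtain ⟨ι, _, u, d, N₀, k1, k2, k3, k4⟩ := h
  obtain ⟨ι', _, u', d', N₀', k1', k2', k3', k4'⟩ := h'
  obtain rfl : N₀ = fun _ => N := funext k1
  obtain rfl : N₀' = fun _ => N' := funext k1'
  obtain ⟨C₀, -, b1, b2, b3⟩ := exists_linearIndepOn_extension
    (linearIndepOn_empty L fun b : P => N (Pi.single b 1)) (Set.subset_univ _)
  have b4 : LinearIndependent L fun c : C₀ => N (Pi.single c.1 1) := b3
  have b5 : ∀ b, N (Pi.single b 1) ∈ span L (Set.range fun c : C₀ => N (Pi.single c.1 1)) :=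
    fun b => by
      rw [← Set.image_eq_range (fun b : P => N (Pi.single b 1)) C₀]
      exact b2 ⟨b, trivial, rfl⟩
  have b6 : ∀ b, N (Pi.single b 1) ∈ Hm L deg (deg b + D) := fun b => hS _ _ (single_mem deg b)
  have b7 : ∀ v, N v ∈ span L (Set.range fun c : C₀ => N (Pi.single c.1 1)) := fun v => by
    rw [pi_eq_sum_univ' v, map_sum]
    exact sum_mem fun b _ => by rw [map_smul]; exact smul_mem _ _ (b5 b)
  have b8 := cnt (deg := deg) k3 (fun i => hS _ _ (k2 i)) (fun c : C₀ => b6 c.1) (fun i => b7 _) hx.le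
  simp only [pow_add, ← sum_mul] at b8
  have b9 := le_of_mul_le_mul_right b8 (pow_pos hx D)
  have hw : ∀ b, ∃ w ∈ span L ((fun c : C₀ => (Pi.single c.1 1 : P → L)) ''
      {c | deg c.1 + D = deg b + D}), N w = N (Pi.single b 1) := fun b => by
    have := mem_span_deg (fun c : C₀ => b6 c.1) (b6 b) (b5 b)
    rw [← Submodule.mem_map, Submodule.map_span, Set.image_image]
    exact this
  choose w w1 w2 using hw
  have w3 : ∀ b, w b ∈ Hm L deg (deg b) := fun b => span_le.2 (by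
    rintro _ ⟨c, hc, rfl⟩
    have := single_mem (L := L) deg c.1
    rwa [Nat.add_right_cancel hc] at this) (w1 b)
  have w4 : ∀ b, Pi.single b 1 - w b ∈ Hm L deg (deg b) := fun b =>
    sub_mem (single_mem deg b) (w3 b)
  obtain ⟨C, c1, c2⟩ := maxext b4 fun b : P => Pi.single b 1 - w b
  have c3 := cnt (deg := deg) (w := Sum.elim (fun c : C₀ => (Pi.single c.1 1 : P → L))
      (Sum.elim (fun c : C₀ => N (Pi.single c.1 1)) fun c : C => Pi.single c.1 1 - w c))
    (e := Sum.elim (fun c => deg c.1) (Sum.elim (fun c => deg c.1 + D) fun c => deg c.1))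
    (Pi.linearIndependent_single_one P L) (single_mem deg) (by
      rintro (c | c | c)
      exacts [single_mem deg c.1, b6 c.1, w4 c.1]) (fun b => by
      rw [← sub_add_cancel (Pi.single b 1 : P → L) (w b)]
      refine add_mem (span_mono ?_ (c2 b)) (span_mono ?_ (w1 b))
      · rintro _ ⟨i, rfl⟩
        exact ⟨.inr i, rfl⟩
      · rintro _ ⟨i, -, rfl⟩
        exact ⟨.inl i, rfl⟩) hx.le
  refine ⟨(C₀ × P') ⊕ (C × ι'), inferInstance,
    Sum.elim (fun q => tn e (Pi.single q.1.1 1) (Pi.single q.2 1))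
      fun q => tn e (Pi.single q.1.1 1 - w q.1.1) (u' q.2),
    Sum.elim (fun q => deg q.1.1 + deg' q.2) fun q => deg q.1.1 + d' q.2, fun _ => M,
    fun _ => rfl, ?_, ?_, ?_⟩
  · rintro (q | q)
    exacts [tn_mem he (single_mem _ _) (single_mem _ _), tn_mem he (w4 _) (k2' _)]
  · refine lead_indep (fun b => deg (e b).1)
      (Sum.elim (fun q => deg q.1.1 + D) fun q => deg q.1.1)
      (tn_indep₂ e c1 (Pi.linearIndependent_single_one P' L) k3') ?_ ?_
    · rintro (q | q)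
      exacts [tn_mem_left e (b6 _) _, tn_mem_left e (w4 _) _]
    · rintro (q | q) b hb
      · simp only [Sum.elim_inl, hM, Pi.add_apply] at hb ⊢
        rw [tn_mem_left e (single_mem deg q.1.1) _ b (by beta_reduce; omega), add_zero]
      · simp only [Sum.elim_inr, hM, Pi.add_apply, map_sub, w2, sub_self]
        rw [tn, Pi.zero_apply, zero_mul, zero_add]
  · rw [weight_sum (fun c : C₀ => deg c) (fun c : C => deg c) deg' d', tot_prod he]
    refine weight_ineq (sum_nonneg fun _ _ => pow_nonneg hx.le _)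
      (sum_nonneg fun _ _ => pow_nonneg hx.le _) ha' hy (k4.trans b9) k4' (c3.trans_eq ?_)
    simp only [Fintype.sum_sum_type, Sum.elim_inl, Sum.elim_inr, pow_add, ← sum_mul]
    ring

end Pool.Agent.Lib.MP_8a52c3_lc.H39
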