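import Pool.Agent.Lib.MP_8a52c3_lc.H39Lin

/-! Multiplication operators on the multilinear algebra and their weighted ranks. -/

namespace Pool.Agent.Lib.MP_8a52c3_lc.H39

open Finset MvPolynomial

variable {L : Type*} [Field L] {Z Z' : Type}

/-- The exponent vector of a squarefree monomial. -/
noncomputable def ind (B : Finset Z) : Z →₀ ℕ := Finsupp.indicator B fun _ _ => 1

lemma ind_of_mem {B : Finset Z} {z : Z} (h : z ∈ B) : ind B z = 1 := Finsupp.indicator_of_mem h _

lemma ind_of_notMem {B : Finset Z} {z : Z} (h : z ∉ B) : ind B z = 0 :=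
  Finsupp.indicator_of_notMem h _

lemma ind_le (B : Finset Z) (z : Z) : ind B z ≤ 1 := by
  by_cases h : z ∈ B
  · exact (ind_of_mem h).le
  · rw [ind_of_notMem h]
    exact zero_le_one

lemma support_ind (B : Finset Z) : (ind B).support = B := by
  ext z
  by_cases h : z ∈ B <;> simp [h, ind_of_mem, ind_of_notMem]

lemma ind_injective : Function.Injective (ind : Finset Z → Z →₀ ℕ) := fun B B' h => by
  rw [← support_ind B, h, support_ind]

lemma degree_ind (B : Finset Z) : (ind B).degree = #B := by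
  rw [Finsupp.degree_apply, support_ind, card_eq_sum_ones]
  exact sum_congr rfl fun z hz => ind_of_mem hz

lemma ind_sum (B : Finset (Z ⊕ Z')) : ind B = (ind B.toLeft).sumElim (ind B.toRight) := by
  ext (z | z)
  · by_cases h : Sum.inl z ∈ B <;> simp [h, ind_of_mem, ind_of_notMem]
  · by_cases h : Sum.inr z ∈ B <;> simp [h, ind_of_mem, ind_of_notMem]

lemma rename_mul_monomial {R : Type*} [CommSemiring R] (m : Z →₀ ℕ) (m' : Z' →₀ ℕ) (c c' : R) :
    rename Sum.inl (monomial m c) * rename Sum.inr (monomial m' c') =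
      monomial (m.sumElim m') (c * c') := by
  rw [rename_monomial, rename_monomial, monomial_mul, Finsupp.sumElim_eq_add]

lemma coeff_sumElim {R : Type*} [CommSemiring R] (m : Z →₀ ℕ) (m' : Z' →₀ ℕ)
    (p : MvPolynomial Z R) (q : MvPolynomial Z' R) :
    coeff (m.sumElim m') (rename Sum.inl p * rename Sum.inr q) = coeff m p * coeff m' q := by
  classical
  induction p using MvPolynomial.induction_on' with
  | add p p' h h' => simp only [map_add, add_mul, coeff_add, h, h']
  | monomial u c =>
    induction q using MvPolynomial.induction_on' with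
    | add p p' h h' => simp only [map_add, mul_add, coeff_add, h, h']
    | monomial u' c' =>
      have h : u.sumElim u' = m.sumElim m' ↔ u = m ∧ u' = m' := by
        refine ⟨fun h => ⟨Finsupp.ext fun z => ?_, Finsupp.ext fun z => ?_⟩, fun h => by
          rw [h.1, h.2]⟩
        · exact DFunLike.congr_fun h (.inl z)
        · exact DFunLike.congr_fun h (.inr z)
      rw [rename_mul_monomial, coeff_monomial, coeff_monomial, coeff_monomial]
      simp only [h]
      by_cases h1 : u = m <;> by_cases h2 : u' = m' <;> simp [h1, h2]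

variable (L Z) in
/-- The multilinear coefficients. -/
noncomputable def pc : MvPolynomial Z L →ₗ[L] (Finset Z → L) :=
  LinearMap.pi fun B => lcoeff L (ind B)

lemma pc_apply (p : MvPolynomial Z L) (B : Finset Z) : pc L Z p B = coeff (ind B) p := rfl

/-- Splitting of a set of variables. -/
def se : Finset (Z ⊕ Z') ≃ Finset Z × Finset Z' := Finset.sumEquiv.toEquiv

lemma se_card (B : Finset (Z ⊕ Z')) : #B = #(se B).1 + #(se B).2 :=
  card_toLeft_add_card_toRight.symm

lemma pc_mul (p : MvPolynomial Z L) (q : MvPolynomial Z' L) :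
    pc L _ (rename Sum.inl p * rename Sum.inr q) = tn se (pc L Z p) (pc L Z' q) := by
  ext B
  rw [pc_apply, ind_sum, coeff_sumElim]
  rfl

lemma pc_mem {p : MvPolynomial Z L} {n : ℕ} (h : p.IsHomogeneous n) :
    pc L Z p ∈ Hm L card n := fun B hB => h.coeff_eq_zero (by rwa [degree_ind])

variable [Fintype Z] [Fintype Z']

variable (L Z) in
/-- The multilinear polynomial with given coefficients. -/
noncomputable def lf : (Finset Z → L) →ₗ[L] MvPolynomial Z L :=
  Fintype.linearCombination L fun B => monomial (ind B) 1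

lemma lf_apply (v : Finset Z → L) : lf L Z v = ∑ B, monomial (ind B) (v B) := by
  simp [lf, Fintype.linearCombination_apply, smul_monomial]

lemma pc_lf (v : Finset Z → L) : pc L Z (lf L Z v) = v := by
  classical
  ext B
  simp [pc_apply, lf_apply, coeff_sum, coeff_monomial, ind_injective.eq_iff]

lemma lf_tn (v : Finset Z → L) (w : Finset Z' → L) :
    lf L _ (tn se v w) = rename Sum.inl (lf L Z v) * rename Sum.inr (lf L Z' w) := by
  simp only [lf_apply, map_sum, sum_mul_sum, rename_mul_monomial]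
  rw [← Fintype.sum_prod_type']
  exact Fintype.sum_equiv se _ _ fun B => by rw [ind_sum]; rfl

lemma lf_hom {v : Finset Z → L} {j : ℕ} (h : v ∈ Hm L card j) : (lf L Z v).IsHomogeneous j := by
  rw [lf_apply]
  refine IsHomogeneous.sum _ _ _ fun B _ => ?_
  by_cases hB : #B = j
  · exact isHomogeneous_monomial _ (by rw [degree_ind, hB])
  · rw [h B hB, monomial_zero]
    exact isHomogeneous_zero _ _ _

/-- Multiplication in the multilinear algebra. -/
noncomputable def op (h : MvPolynomial Z L) : Module.End L (Finset Z → L) :=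
  pc L Z ∘ₗ LinearMap.mulRight L h ∘ₗ lf L Z

lemma op_apply (h : MvPolynomial Z L) (v : Finset Z → L) : op h v = pc L Z (lf L Z v * h) := rfl

lemma op_one (v : Finset Z → L) : op 1 v = v := by rw [op_apply, mul_one, pc_lf]

lemma op_add (h h' : MvPolynomial Z L) (v : Finset Z → L) : op (h + h') v = op h v + op h' v := by
  simp only [op_apply, mul_add, map_add]

lemma op_mul (h : MvPolynomial Z L) (h' : MvPolynomial Z' L) (v : Finset Z → L)
    (w : Finset Z' → L) : op (rename Sum.inl h * rename Sum.inr h') (tn se v w) =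
      tn se (op h v) (op h' w) := by
  rw [op_apply, lf_tn, mul_mul_mul_comm, ← map_mul, ← map_mul, pc_mul]
  rfl

lemma op_inl (h : MvPolynomial Z L) (v : Finset Z → L) (w : Finset Z' → L) :
    op (rename Sum.inl h) (tn se v w) = tn se (op h v) w := by
  have := op_mul h 1 v w
  rwa [map_one, mul_one, op_one] at this

lemma op_inr (h : MvPolynomial Z' L) (v : Finset Z → L) (w : Finset Z' → L) :
    op (rename Sum.inr h) (tn se v w) = tn se v (op h w) := by
  have := op_mul 1 h v w
  rwa [map_one, one_mul, op_one] at this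

lemma op_sh {h : MvPolynomial Z L} {D : ℕ} (hh : h.IsHomogeneous D) : Sh card D (op h) :=
  fun _ _ hv => pc_mem ((lf_hom hv).mul hh)

/-- The ideal generated by `H` has relative weighted size at least `a`. -/
def PC (x : ℝ) (H : Set (MvPolynomial Z L)) (a : ℝ) : Prop := Cert x card (op '' H) a

variable {x a a' : ℝ} {H : Set (MvPolynomial Z L)} {H' : Set (MvPolynomial Z' L)}
  {G : Set (MvPolynomial (Z ⊕ Z') L)} {D : ℕ}

lemma PC.mono (hx : 0 ≤ x) (h : PC x H a) {H₁ : Set (MvPolynomial Z L)} (h1 : H ⊆ H₁)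
    (h2 : a' ≤ a) : PC x H₁ a' := Cert.mono hx h (Set.image_mono h1) h2

lemma PC.mul (hx : 0 ≤ x) (h : PC x H a) (h' : PC x H' a') (ha' : 0 ≤ a')
    (hG : ∀ p ∈ H, ∀ q ∈ H', rename Sum.inl p * rename Sum.inr q ∈ G) : PC x G (a * a') :=
  Cert.mul hx se_card h h' ha' (by
    rintro _ ⟨p, hp, rfl⟩ _ ⟨q, hq, rfl⟩
    exact ⟨_, ⟨_, hG p hp q hq, rfl⟩, op_mul p q⟩)

lemma PC.union (hx : 0 ≤ x) (h : PC x H a) (h' : PC x H' a') (ha' : 0 ≤ a')
    (hy : x ^ D * a' ≤ 1) (hD : ∀ p ∈ H, p.IsHomogeneous D)
    (hG : ∀ p ∈ H, rename Sum.inl p ∈ G) (hG' : ∀ q ∈ H', rename Sum.inr q ∈ G) :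
    PC x G (a + (1 - x ^ D * a) * a') :=
  Cert.union hx se_card h h' ha' hy (by
    rintro _ ⟨p, hp, rfl⟩
    exact op_sh (hD p hp)) (by
    rintro _ ⟨p, hp, rfl⟩
    exact ⟨_, ⟨_, hG p hp, rfl⟩, op_inl p⟩) (by
    rintro _ ⟨p, hp, rfl⟩
    exact ⟨_, ⟨_, hG' p hp, rfl⟩, op_inr p⟩)

lemma PC.add (hx : 0 < x) {p : MvPolynomial Z L} {q : MvPolynomial Z' L} (h : PC x {p} a)
    (h' : PC x {q} a') (ha' : 0 ≤ a') (hy : (1 + x ^ D) * a' ≤ 1) (hD : 0 < D)
    (hp : p.IsHomogeneous D) :
    PC x {rename Sum.inl p + rename Sum.inr q} (a + (1 - (1 + x ^ D) * a) * a') := by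
  rw [PC, Set.image_singleton] at h h' ⊢
  exact Cert.add hx se_card h h' ha' hy hD (op_sh hp) fun v w => by rw [op_add, op_inl, op_inr]

lemma tot_card (x : ℝ) : ∑ B : Finset Z, x ^ #B = (1 + x) ^ Fintype.card Z := by
  classical
  have := Finset.prod_one_add (f := fun _ : Z => x) univ
  simp only [prod_const, card_univ, powerset_univ] at this
  exact this.symm

lemma pc_one [IsEmpty Z] : PC x ({1} : Set (MvPolynomial Z L)) 1 := by
  classical
  refine ⟨Unit, inferInstance, fun _ => Pi.single ∅ 1, fun _ => 0, fun _ => op 1,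
    fun _ => ⟨1, rfl, rfl⟩, fun _ => single_mem card (∅ : Finset Z), ?_, ?_⟩
  · simp [op_one]
  · rw [tot_card]
    simp

lemma pc_var (hx : 0 ≤ x) : PC x ({X ()} : Set (MvPolynomial Unit L)) (1 / (1 + x)) := by
  refine ⟨Unit, inferInstance, fun _ => Pi.single ∅ 1, fun _ => 0, fun _ => op (X ()),
    fun _ => ⟨_, rfl, rfl⟩, fun _ => single_mem card (∅ : Finset Unit), ?_, ?_⟩
  · rw [linearIndependent_unique_iff]
    intro h
    have h1 := congrFun h {()}
    have h2 : ind ({()} : Finset Unit) = Finsupp.single () 1 := by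
      ext
      simp [ind_of_mem]
    have h3 : ind (∅ : Finset Unit) = 0 := by
      ext
      simp [ind_of_notMem]
    rw [op_apply, lf, Fintype.linearCombination_apply_single, pc_apply, h2, h3] at h1
    simp at h1
  · rw [tot_card]
    have : 0 < 1 + x := by linarith
    simp [this.ne']

end Pool.Agent.Lib.MP_8a52c3_lc.H39
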