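import Mathlib

/-! Existence of expanding triple systems and of signs far from all assignments. -/

namespace Pool.Agent.Lib.MP_8a52c3_lc.H39Xor

open Finset

lemma choose_le (n k : ℕ) : (n.choose k : ℝ) ≤ (3 * n / k) ^ k := by
  rcases Nat.eq_zero_or_pos k with rfl | hk
  · simp
  have hk0 : (0 : ℝ) < k := by exact_mod_cast hk
  have hf : (0 : ℝ) < k.factorial := by positivity
  have h1 := Real.pow_div_factorial_le_exp (k : ℝ) hk0.le k
  have h2 : Real.exp k ≤ 3 ^ k := by
    rw [← mul_one (k : ℝ), Real.exp_nat_mul]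
    exact pow_le_pow_left₀ (Real.exp_pos _).le (Real.exp_one_lt_d9.le.trans (by norm_num)) k
  refine (Nat.choose_le_pow_div k n).trans ?_
  rw [div_pow, mul_pow, div_le_div_iff₀ hf (by positivity)]
  have h3 := h1.trans h2
  rw [div_le_iff₀ hf] at h3
  calc (n : ℝ) ^ k * k ^ k ≤ n ^ k * (3 ^ k * k.factorial) :=
        mul_le_mul_of_nonneg_left h3 (by positivity)
    _ = _ := by ring

lemma term_le {Δ n k : ℕ} (hΔ : 0 < Δ) (hk : 0 < k) (h : k * (2 * (216 * Δ) ^ 4) ≤ n) :
    ((Δ * n).choose k : ℝ) * (n.choose (7 * k / 4) * (((7 * k / 4 : ℕ) : ℝ) / n) ^ (3 * k)) ≤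
      (1 / 4) ^ k := by
  obtain ⟨v, hv⟩ : ∃ v, v = 7 * k / 4 := ⟨_, rfl⟩
  obtain ⟨w, hw⟩ : ∃ w, 2 * k = v + w := ⟨2 * k - v, by omega⟩
  rw [← hv]
  have hΔ1 : (1 : ℝ) ≤ Δ := by exact_mod_cast hΔ
  have hk0 : (0 : ℝ) < k := by exact_mod_cast hk
  have hv0 : (0 : ℝ) < v := by exact_mod_cast (by omega : 0 < v)
  have h' : (k : ℝ) * (2 * (216 * Δ) ^ 4) ≤ n := by exact_mod_cast h
  have hn0 : (0 : ℝ) < n := lt_of_lt_of_le (by positivity) h'
  have hv2 : (v : ℝ) / n ≤ 2 * k / n :=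
    div_le_div_of_nonneg_right (by exact_mod_cast (by omega : v ≤ 2 * k)) hn0.le
  have hu : 2 * (k : ℝ) / n ≤ (216 * Δ : ℝ)⁻¹ ^ 4 := by
    rw [inv_pow, div_le_iff₀ hn0, le_inv_mul_iff₀ (by positivity)]
    linarith
  have a1 : (n.choose v : ℝ) * ((v : ℝ) / n) ^ v ≤ 9 ^ k := by
    refine (mul_le_mul_of_nonneg_right (choose_le n v) (by positivity)).trans ?_
    rw [← mul_pow, show 3 * (n : ℝ) / v * (v / n) = 3 by field_simp,
      show (9 : ℝ) = 3 ^ 2 by norm_num, ← pow_mul]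
    exact pow_le_pow_right₀ (by norm_num) (by omega)
  have a2 : ((Δ * n).choose k : ℝ) * ((v : ℝ) / n) ^ k ≤ (6 * Δ) ^ k := by
    refine (mul_le_mul (choose_le _ k) (pow_le_pow_left₀ (by positivity) hv2 k) (by positivity)
      (by positivity)).trans (le_of_eq ?_)
    rw [← mul_pow]
    congr 1
    push_cast
    field_simp
    norm_num
  have a3 : ((v : ℝ) / n) ^ w ≤ (216 * Δ : ℝ)⁻¹ ^ k := by
    refine (pow_le_pow_left₀ (by positivity) (hv2.trans hu) w).trans ?_
    rw [← pow_mul]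
    exact pow_le_pow_of_le_one (by positivity) (inv_le_one_of_one_le₀ (by linarith)) (by omega)
  calc _ = (n.choose v * ((v : ℝ) / n) ^ v) * (((Δ * n).choose k : ℝ) * ((v : ℝ) / n) ^ k) *
        ((v : ℝ) / n) ^ w := by
        rw [show 3 * k = v + k + w by omega, pow_add, pow_add]
        ring
    _ ≤ 9 ^ k * (6 * Δ) ^ k * (216 * Δ : ℝ)⁻¹ ^ k :=
        mul_le_mul (mul_le_mul a1 a2 (by positivity) (by positivity)) a3 (by positivity)
          (by positivity)
    _ = _ := by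
        rw [← mul_pow, ← mul_pow]
        congr 1
        field_simp
        norm_num

theorem exists_exp {Δ : ℕ} (hΔ : 0 < Δ) : ∃ D : ℕ, 0 < D ∧ ∀ n : ℕ, 0 < n →
    ∃ a : Fin (Δ * n) × Fin 3 → Fin n, ∀ T : Finset (Fin (Δ * n)), T.card * D ≤ n →
      7 * T.card ≤ 4 * ((T ×ˢ univ).image a).card := by
  refine ⟨2 * (216 * Δ) ^ 4, by positivity, fun n hn => ?_⟩
  obtain ⟨D, hD⟩ : ∃ D, D = 2 * (216 * Δ) ^ 4 := ⟨_, rfl⟩
  have hD2 : 2 ≤ D := hD ▸ Nat.le_mul_of_pos_right 2 (by positivity)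
  rw [← hD]
  by_contra hc
  push Not at hc
  have hn0 : (0 : ℝ) < n := by exact_mod_cast hn
  have hsub : (univ : Finset (Fin (Δ * n) × Fin 3 → Fin n)) ⊆
      ((range (Δ * n)).filter fun i => (i + 1) * D ≤ n).biUnion fun i =>
        (powersetCard (i + 1) (univ : Finset (Fin (Δ * n)))).biUnion fun T =>
          (powersetCard (7 * (i + 1) / 4) (univ : Finset (Fin n))).biUnion fun W =>
            Fintype.piFinset fun p => if p.1 ∈ T then W else univ := by
    intro a _
    obtain ⟨T, h1, h2⟩ := hc a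
    have h3 : T.card ≤ Δ * n := (card_le_univ T).trans (Fintype.card_fin _).le
    obtain ⟨i, hi⟩ : ∃ i, T.card = i + 1 := ⟨T.card - 1, by omega⟩
    have h4 : T.card * 2 ≤ n := (Nat.mul_le_mul_left _ hD2).trans h1
    obtain ⟨W, hW1, hW2⟩ := exists_superset_card_eq (s := (T ×ˢ univ).image a)
      (n := 7 * (i + 1) / 4) (by omega) (by rw [Fintype.card_fin]; omega)
    simp only [mem_biUnion, mem_filter, mem_range, mem_powersetCard, subset_univ, true_and,
      Fintype.mem_piFinset]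
    refine ⟨i, ⟨by omega, hi ▸ h1⟩, T, hi, W, hW2, fun p => ?_⟩
    split_ifs with hp
    · exact hW1 (mem_image_of_mem a (mem_product.2 ⟨hp, mem_univ _⟩))
    · exact mem_univ _
  have hpi : ∀ (T : Finset (Fin (Δ * n))) (W : Finset (Fin n)),
      ((Fintype.piFinset fun p : Fin (Δ * n) × Fin 3 => if p.1 ∈ T then W else univ).card : ℝ) =
        (n : ℝ) ^ (Δ * n * 3) * ((W.card : ℝ) / n) ^ (3 * T.card) := by
    intro T W
    have e : ∀ p : Fin (Δ * n) × Fin 3, ((if p.1 ∈ T then W else univ).card : ℝ) =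
        n * if p.1 ∈ T then (W.card : ℝ) / n else 1 := by
      intro p
      split_ifs
      · field_simp
      · simp
    rw [Fintype.card_piFinset, Nat.cast_prod]
    simp only [e]
    rw [prod_mul_distrib, prod_const, card_univ, Fintype.card_prod, Fintype.card_fin,
      Fintype.card_fin, Fintype.prod_prod_type]
    congr 1
    rw [prod_congr rfl (g := fun x => if x ∈ T then ((W.card : ℝ) / n) ^ 3 else 1) fun x _ => by
      by_cases hx : x ∈ T <;> simp [hx, div_pow], prod_ite_mem, univ_inter, prod_const, ← pow_mul]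
  have h1 : ((univ : Finset (Fin (Δ * n) × Fin 3 → Fin n)).card : ℝ) ≤
      ∑ i ∈ range (Δ * n), (n : ℝ) ^ (Δ * n * 3) * (1 / 4 * (1 / 2) ^ i) := by
    refine (Nat.cast_le.2 ((card_le_card hsub).trans card_biUnion_le)).trans ?_
    rw [Nat.cast_sum]
    refine (sum_le_sum fun i hi => ?_).trans
      (sum_le_sum_of_subset_of_nonneg (filter_subset _ _) fun _ _ _ => by positivity)
    have h2 := term_le (k := i + 1) hΔ (Nat.succ_pos i) (hD ▸ (mem_filter.1 hi).2)
    have h3 : ((1 : ℝ) / 4) ^ (i + 1) ≤ 1 / 4 * (1 / 2) ^ i := by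
      rw [pow_succ']
      exact mul_le_mul_of_nonneg_left (pow_le_pow_left₀ (by norm_num) (by norm_num) i)
        (by norm_num)
    refine le_trans ?_ (mul_le_mul_of_nonneg_left (h2.trans h3) (by positivity))
    refine (Nat.cast_le.2 card_biUnion_le).trans ?_
    rw [Nat.cast_sum]
    refine (sum_le_card_nsmul _ _ ((n.choose (7 * (i + 1) / 4) : ℝ) * ((n : ℝ) ^ (Δ * n * 3) *
      (((7 * (i + 1) / 4 : ℕ) : ℝ) / n) ^ (3 * (i + 1)))) fun T hT => ?_).trans (le_of_eq ?_)
    · refine (Nat.cast_le.2 card_biUnion_le).trans (le_of_eq ?_)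
      rw [Nat.cast_sum, sum_congr rfl fun W hW => by
        rw [hpi, (mem_powersetCard.1 hW).2, (mem_powersetCard.1 hT).2]]
      rw [sum_const, card_powersetCard, card_univ, Fintype.card_fin, nsmul_eq_mul]
    · rw [card_powersetCard, card_univ, Fintype.card_fin, nsmul_eq_mul]
      ring
  rw [card_univ, Fintype.card_fun, Fintype.card_prod, Fintype.card_fin, Fintype.card_fin,
    Fintype.card_fin, ← mul_sum, ← mul_sum, Nat.cast_pow] at h1
  have h2 := sum_geometric_two_le (Δ * n)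
  have h3 : (0 : ℝ) < (n : ℝ) ^ (Δ * n * 3) := by positivity
  nlinarith

theorem exists_signs {ε : ℝ} (hε : 0 < ε) {m N : ℕ} (hm : 2 * (N : ℝ) ≤ ε ^ 2 * m)
    (g : Fin m → (Fin N → Bool) → ℝ) (hg : ∀ j z, g j z ^ 2 = 1) :
    ∃ b : Fin m → Bool, ∀ z, ∑ j, (if b j then 1 else -1) * g j z ≤ ε * m := by
  have h1 : ∀ z, ∑ b : Fin m → Bool, Real.exp (∑ j, ε * ((if b j then 1 else -1) * g j z)) ≤
      2 ^ m * Real.exp (m * (ε ^ 2 / 2)) := by
    intro z
    simp only [Real.exp_sum]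
    rw [← Fintype.prod_sum (f := fun j (c : Bool) => Real.exp (ε * ((if c then 1 else -1) * g j z))),
      Real.exp_nat_mul, ← mul_pow]
    refine (prod_le_prod (fun _ _ => by positivity) (g := fun _ => 2 * Real.exp (ε ^ 2 / 2))
      fun j _ => ?_).trans (le_of_eq (by simp))
    have h2 := Real.cosh_le_exp_half_sq (ε * g j z)
    rw [Real.cosh_eq, mul_pow, hg, mul_one] at h2
    simp only [Fintype.sum_bool, if_true, Bool.false_eq_true, if_false, one_mul, neg_mul, mul_neg]
    linarith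
  have h2 : ∑ b : Fin m → Bool, ∑ z, Real.exp (∑ j, ε * ((if b j then 1 else -1) * g j z)) ≤
      ∑ _b : Fin m → Bool, 2 ^ N * Real.exp (m * (ε ^ 2 / 2)) := by
    rw [sum_comm]
    refine (sum_le_sum fun z _ => h1 z).trans (le_of_eq ?_)
    simp only [sum_const, card_univ, Fintype.card_fun, Fintype.card_bool, Fintype.card_fin,
      nsmul_eq_mul, Nat.cast_pow, Nat.cast_ofNat]
    ring
  obtain ⟨b, -, hb⟩ := exists_le_of_sum_le univ_nonempty h2
  refine ⟨b, fun z => ?_⟩
  have h3 := (single_le_sum (f := fun z => Real.exp (∑ j, ε * ((if b j then 1 else -1) * g j z)))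
    (fun _ _ => (Real.exp_pos _).le) (mem_univ z)).trans hb
  have h4 : (2 : ℝ) ^ N ≤ Real.exp (N * 1) := by
    rw [Real.exp_nat_mul]
    exact pow_le_pow_left₀ (by norm_num) (by linarith [Real.add_one_le_exp 1]) N
  have h5 := h3.trans (mul_le_mul_of_nonneg_right h4 (Real.exp_pos _).le)
  rw [← Real.exp_add, Real.exp_le_exp, ← mul_sum] at h5
  refine le_of_mul_le_mul_left ?_ hε
  nlinarith

lemma class_psd {I : Type} [Fintype I] [Nonempty I] (low : I → Prop) (M : I → I → ℝ)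
    (h1 : ∀ S, low S → M S S = 1) (hs : ∀ S S', M S S' = M S' S)
    (ht : ∀ S S' U, low S → low S' → low U → M S U ≠ 0 → M S' U ≠ 0 → M S S' = M S U * M S' U)
    (p : I → ℝ) (hp : ∀ S, ¬low S → p S = 0) : 0 ≤ ∑ S, ∑ S', p S * p S' * M S S' := by
  classical
  let ρ : I → I := fun S => Classical.epsilon fun U => low U ∧ M S U ≠ 0
  have hρ : ∀ S, low S → low (ρ S) ∧ M S (ρ S) ≠ 0 := fun S hS =>
    Classical.epsilon_spec (p := fun U => low U ∧ M S U ≠ 0) ⟨S, hS, by rw [h1 S hS]; norm_num⟩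
  have aux : ∀ S S' U, low S → low S' → low U → M S S' ≠ 0 → M S U ≠ 0 → M S' U ≠ 0 := by
    intro S S' U hS hS' hU a1 a2
    rw [hs] at a1 a2
    rw [ht S' U S hS' hU hS a1 a2]
    exact mul_ne_zero a1 a2
  have key : ∀ S S', p S * p S' * M S S' = ∑ U, (if ρ S = U then p S * M S (ρ S) else 0) *
      if ρ S' = U then p S' * M S' (ρ S') else 0 := by
    intro S S'
    simp only [ite_mul, zero_mul, sum_ite_eq, mem_univ, if_true]
    by_cases hS : low S
    swap
    · simp [hp S hS]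
    by_cases hS' : low S'
    swap
    · simp [hp S' hS']
    split_ifs with h
    · rw [ht S S' (ρ S) hS hS' (hρ S hS).1 (hρ S hS).2 (h ▸ (hρ S' hS').2), h]
      ring
    · have : M S S' = 0 := by
        by_contra h0
        refine h (congrArg Classical.epsilon (funext fun U => propext ?_))
        exact and_congr_right fun hU =>
          ⟨aux S' S U hS' hS hU (by rwa [hs]), aux S S' U hS hS' hU h0⟩
      rw [this, mul_zero, mul_zero]
  simp only [key]
  have e : ∀ F : I → I → ℝ, ∑ S, ∑ S', ∑ U, F S U * F S' U = ∑ U, (∑ S, F S U) ^ 2 := by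
    intro F
    simp only [sq, sum_mul_sum]
    conv_rhs => rw [sum_comm]
    exact sum_congr rfl fun S _ => sum_comm
  rw [e fun S U => if ρ S = U then p S * M S (ρ S) else 0]
  exact sum_nonneg fun _ _ => sq_nonneg _

end Pool.Agent.Lib.MP_8a52c3_lc.H39Xor
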