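import Pool.Agent.Lib.MP_8a52c3_lc.H91SE
import Pool.Agent.Lib.MP_8a52c3_lc.H39XorA

/-! The pseudo-density of an expanding system of parity constraints. -/

namespace Pool.Agent.Lib.MP_8a52c3_lc.H39Xor

open Finset H91S

lemma chi_add {n : ℕ} (S S' z : Fin n → Bool) : chi (S + S') z = chi S z * chi S' z := by
  rw [chi, chi, chi, ← prod_mul_distrib]
  refine prod_congr rfl fun k _ => ?_
  rw [Pi.add_apply, Bool.add_eq_xor]
  cases S k <;> cases S' k <;> simp [sg_mul_self]

lemma chi_zero {n : ℕ} (z : Fin n → Bool) : chi 0 z = 1 := by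
  simp [chi, Bool.zero_eq_false]

lemma chi_single {n : ℕ} (x : Fin n) (c : Bool) (z : Fin n → Bool) :
    chi (Pi.single x c) z = if c then sg (z x) else 1 := by
  rw [chi, prod_eq_single x]
  · rw [Pi.single_eq_same]
  · intro k _ hk
    rw [Pi.single_eq_of_ne hk]
    rfl
  · simp

lemma chi_sum {n : ℕ} {κ : Type} (s : Finset κ) (S : κ → Fin n → Bool) (z : Fin n → Bool) :
    chi (∑ p ∈ s, S p) z = ∏ p ∈ s, chi (S p) z := by
  classical
  induction s using Finset.induction_on with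
  | empty => simp [chi_zero]
  | insert i s hi ih => rw [sum_insert hi, prod_insert hi, chi_add, ih]

lemma add_self' {n : ℕ} (S : Fin n → Bool) : S + S = 0 := by
  funext k
  exact Bool.xor_self _

lemma chi_abs {n : ℕ} (S z : Fin n → Bool) : |chi S z| = 1 := by
  have h := chi_add S S z
  rw [add_self', chi_zero] at h
  rw [← sq_eq_sq₀ (abs_nonneg _) zero_le_one, sq_abs, sq, ← h, one_pow]

lemma wt_add {n : ℕ} (S S' : Fin n → Bool) : wtB (S + S') ≤ wtB S + wtB S' := by
  refine le_trans (card_le_card fun k hk => ?_) (card_union_le _ _)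
  simp only [mem_filter, mem_univ, true_and, mem_union, Pi.add_apply, Bool.add_eq_xor] at hk ⊢
  revert hk
  cases S k <;> cases S' k <;> simp

lemma wt_zero {n : ℕ} {S : Fin n → Bool} (h : wtB S = 0) : S = 0 := by
  funext k
  have := filter_eq_empty_iff.1 (card_eq_zero.1 h) (mem_univ k)
  exact Bool.eq_false_iff.2 this

variable {m N : ℕ} (v : Fin m × Fin 3 → Fin N)

/-- The parity boundary of a set of constraints. -/
def bd (T : Fin m → Bool) : Fin N → Bool := ∑ p, Pi.single (v p) (T p.1)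

lemma bd_add (T T' : Fin m → Bool) : bd v (T + T') = bd v T + bd v T' := by
  simp only [bd, Pi.add_apply, Pi.single_add, sum_add_distrib]

lemma chi_bd (j : Fin m) (z : Fin N → Bool) :
    chi (bd v (Pi.single j true)) z = ∏ i, sg (z (v (j, i))) := by
  rw [bd, chi_sum, Fintype.prod_prod_type, prod_eq_single j]
  · simp [chi_single]
  · intro k _ hk
    simp [chi_single, Pi.single_eq_of_ne hk, Bool.zero_eq_false]
  · simp

lemma bd_wt (T : Fin m → Bool) :
    2 * (((univ.filter fun k => T k = true) ×ˢ univ).image v).card ≤ 3 * wtB T + wtB (bd v T) := by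
  obtain ⟨P, hP⟩ : ∃ P, P = (univ.filter fun k => T k = true) ×ˢ (univ : Finset (Fin 3)) := ⟨_, rfl⟩
  have h1 : P.card = 3 * wtB T := by
    rw [hP, card_product, card_univ, Fintype.card_fin, mul_comm, wtB]
  have h2 : ∀ p, p ∈ P ↔ T p.1 = true := by simp [hP]
  rw [← hP, ← h1, card_eq_sum_card_image v P, mul_comm, ← smul_eq_mul]
  have h3 : ∑ x ∈ P.image v, (if bd v T x = true then 1 else 0) ≤ wtB (bd v T) := by
    rw [wtB, card_filter]
    exact sum_le_sum_of_subset (subset_univ _)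
  refine le_trans ?_ (Nat.add_le_add_left h3 _)
  rw [← sum_add_distrib]
  refine card_nsmul_le_sum _ _ _ fun x hx => ?_
  obtain ⟨p, hp, rfl⟩ := mem_image.1 hx
  have h4 : p ∈ P.filter fun q => v q = v p := mem_filter.2 ⟨hp, rfl⟩
  have h5 := card_pos.2 ⟨p, h4⟩
  rcases Nat.lt_or_ge 1 (P.filter fun q => v q = v p).card with h | h
  · omega
  · have h6 : bd v T (v p) = true := by
      rw [bd, Finset.sum_apply, sum_eq_single p]
      · rw [Pi.single_eq_same]
        exact (h2 p).1 hp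
      · intro q _ hq
        by_cases h7 : v p = v q
        · rw [h7, Pi.single_eq_same]
          exact Bool.eq_false_iff.2 fun h8 =>
            hq (card_le_one.1 h q (mem_filter.2 ⟨(h2 q).2 h8, h7.symm⟩) p h4)
        · exact Pi.single_eq_of_ne h7 _
      · simp
    rw [if_pos h6]
    omega

theorem density {r : ℕ} (hr : 0 < r)
    (hv : ∀ T : Finset (Fin m), T.card ≤ 16 * r → 7 * T.card ≤ 4 * ((T ×ˢ univ).image v).card)
    (b : Fin m → Bool) : ∃ σ : (Fin N → Bool) → ℝ,
      (∀ S S', |∑ z, σ z * chi S z * chi S' z| ≤ 2 ^ N) ∧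
      (∀ p : (Fin N → Bool) → ℝ, (∀ S, r < wtB S → p S = 0) →
        0 ≤ ∑ S, ∑ S', p S * p S' * ∑ z, σ z * chi S z * chi S' z) ∧
      (∀ z, |σ z| ≤ 2 ^ N) ∧ ∑ z, σ z = 2 ^ N ∧
      ∀ j, ∑ z, σ z * (sg (b j) * ∏ i, sg (z (v (j, i)))) = 2 ^ N := by
  have hw : ∀ T : Fin m → Bool, wtB T ≤ 16 * r → wtB T ≤ 2 * wtB (bd v T) := by
    intro T hT
    have h1 := hv _ hT
    have h2 := bd_wt v T
    change 7 * wtB T ≤ _ at h1
    omega
  let a : (Fin N → Bool) → ℝ := fun S => ∑ T, if wtB T ≤ 8 * r ∧ bd v T = S then chi T b else 0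
  have ha1 : ∀ T, wtB T ≤ 8 * r → a (bd v T) = chi T b := by
    intro T hT
    simp only [a]
    rw [sum_eq_single T, if_pos ⟨hT, rfl⟩]
    · intro T' _ hne
      refine if_neg fun h => hne ?_
      have h1 := wt_add T' T
      have h2 := hw (T' + T) (by omega)
      rw [bd_add, h.2, add_self', show wtB (0 : Fin N → Bool) = 0 by simp [wtB, Bool.zero_eq_false]]
        at h2
      rw [← add_left_inj T, add_self']
      exact wt_zero (by omega)
    · simp
  have ha2 : ∀ S, a S ≠ 0 → ∃ T, wtB T ≤ 8 * r ∧ bd v T = S := by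
    intro S hS
    obtain ⟨T, -, hT⟩ := exists_ne_zero_of_sum_ne_zero hS
    exact ⟨T, by_contra fun h => hT (if_neg h)⟩
  have ha3 : ∀ S, |a S| ≤ 1 := by
    intro S
    by_cases h : a S = 0
    · simp [h]
    · obtain ⟨T, h1, rfl⟩ := ha2 S h
      rw [ha1 T h1, chi_abs]
  have ha0 : a 0 = 1 := by
    have := ha1 0 (by simp [wtB, Bool.zero_eq_false])
    rwa [chi_zero, show bd v 0 = 0 by simp [bd]] at this
  have hm : ∀ S S', ∑ z, (∑ U, a U * chi U z) * chi S z * chi S' z = 2 ^ N * a (S + S') := by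
    intro S S'
    simp only [sum_mul]
    rw [sum_comm]
    have : ∀ U : Fin N → Bool, ∑ z, a U * chi U z * chi S z * chi S' z
        = a U * ∑ z, chi U z * chi S z * chi S' z := by
      intro U
      rw [mul_sum]
      exact sum_congr rfl fun z _ => by ring
    simp only [this, chi_orth, mul_ite, mul_zero, sum_ite_eq', mem_univ, if_true]
    exact mul_comm _ _
  refine ⟨fun z => ∑ U, a U * chi U z, fun S S' => ?_, fun p hp => ?_, fun z => ?_, ?_, fun j => ?_⟩
  · rw [hm, abs_mul, abs_of_pos (by positivity)]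
    exact mul_le_of_le_one_right (by positivity) (ha3 _)
  · have h := class_psd (fun S : Fin N → Bool => wtB S ≤ r) (fun S S' => a (S + S'))
      (fun S _ => by rw [add_self', ha0]) (fun S S' => by rw [add_comm])
      (fun S S' U hS hS' hU h1 h2 => ?_) p fun S hS => hp S (not_le.1 hS)
    · simp only [hm, mul_left_comm _ ((2 : ℝ) ^ N), ← mul_sum]
      positivity
    · obtain ⟨T, t1, t2⟩ := ha2 _ h1
      obtain ⟨T', t3, t4⟩ := ha2 _ h2
      have b1 := hw T (by omega)
      have b2 := hw T' (by omega)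
      have b3 := wt_add S U
      have b4 := wt_add S' U
      have b5 := wt_add T T'
      rw [t2] at b1
      rw [t4] at b2
      have e : S + S' = bd v (T + T') := by
        rw [bd_add, t2, t4, add_add_add_comm, add_self', add_zero]
      rw [e, ← t2, ← t4, ha1 _ t1, ha1 _ t3, ha1 _ (by omega), chi_add]
  · refine (abs_sum_le_sum_abs _ _).trans ((sum_le_card_nsmul _ _ 1 fun U _ => ?_).trans
      (le_of_eq (by simp)))
    rw [abs_mul, chi_abs, mul_one]
    exact ha3 U
  · have := hm 0 0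
    simpa only [chi_zero, mul_one, add_zero, ha0] using this
  · have h1 := hm (bd v (Pi.single j true)) 0
    have h2 : wtB (Pi.single j true : Fin m → Bool) ≤ 1 := by
      refine card_le_one.2 fun k hk l hl => ?_
      have aux : ∀ k, (Pi.single j true : Fin m → Bool) k = true → k = j := fun k hk =>
        by_contra fun h => by simp [Pi.single_eq_of_ne h, Bool.zero_eq_false] at hk
      rw [aux k (mem_filter.1 hk).2, aux l (mem_filter.1 hl).2]
    rw [add_zero, ha1 _ (by omega), chi_single, if_pos rfl] at h1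
    simp only [chi_zero, mul_one, chi_bd] at h1
    simp only [mul_left_comm _ (sg (b j)), ← mul_sum]
    rw [h1, mul_left_comm, sg_mul_self, mul_one]

theorem xor_density {ε : ℝ} (hε : 0 < ε) : ∃ D Δ : ℕ, 0 < D ∧ 0 < Δ ∧ ∀ r : ℕ, 0 < r →
    ∃ (v : Fin (Δ * (D * r)) → Fin 3 → Fin (3 * (D * r))) (b : Fin (Δ * (D * r)) → Bool)
      (σ : (Fin (3 * (D * r)) → Bool) → ℝ), (∀ j, Function.Injective (v j)) ∧
      (∀ z : Fin (3 * (D * r)) → Bool,
        ∑ j, sg (b j) * ∏ i, sg (z (v j i)) ≤ ε * (Δ * (D * r) : ℕ)) ∧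
      (∀ S S', |∑ z, σ z * chi S z * chi S' z| ≤ 2 ^ (3 * (D * r))) ∧
      (∀ p : (Fin (3 * (D * r)) → Bool) → ℝ, (∀ S, r < wtB S → p S = 0) →
        0 ≤ ∑ S, ∑ S', p S * p S' * ∑ z, σ z * chi S z * chi S' z) ∧
      (∀ z, |σ z| ≤ 2 ^ (3 * (D * r))) ∧ ∑ z, σ z = 2 ^ (3 * (D * r)) ∧
      ∀ j, ∑ z, σ z * (sg (b j) * ∏ i, sg (z (v j i))) = 2 ^ (3 * (D * r)) := by
  obtain ⟨Δ, hΔ⟩ := exists_nat_gt (6 / ε ^ 2)
  have hΔ0 : 0 < Δ := Nat.cast_pos.1 (lt_trans (by positivity) hΔ)
  obtain ⟨D, hD, h⟩ := exists_exp hΔ0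
  refine ⟨16 * D, Δ, by positivity, hΔ0, fun r hr => ?_⟩
  obtain ⟨a, ha⟩ := h (16 * D * r) (by positivity)
  let v : Fin (Δ * (16 * D * r)) × Fin 3 → Fin (3 * (16 * D * r)) := fun p =>
    finProdFinEquiv (p.2, a p)
  obtain ⟨b, hb⟩ := exists_signs hε (m := Δ * (16 * D * r)) (N := 3 * (16 * D * r))
    (by
      rw [div_lt_iff₀ (by positivity)] at hΔ
      have : (0 : ℝ) ≤ (16 * D * r : ℕ) := Nat.cast_nonneg _
      rw [Nat.cast_mul 3, Nat.cast_mul Δ, Nat.cast_ofNat]
      nlinarith)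
    (fun j z => ∏ i, sg (z (v (j, i)))) fun j z => by
      rw [← prod_pow]
      exact prod_eq_one fun i _ => by rw [sq, sg_mul_self]
  have hv : ∀ T : Finset (Fin (Δ * (16 * D * r))),
      ((T ×ˢ univ).image a).card ≤ ((T ×ˢ univ).image v).card := by
    intro T
    refine le_trans (le_of_eq ?_) (card_image_le (f := fun x => (finProdFinEquiv.symm x).2))
    rw [image_image]
    congr 2
    funext p
    simp only [v, Function.comp, Equiv.symm_apply_apply]
  obtain ⟨σ, hσ⟩ := density v hr (fun T hT => (ha T (by nlinarith)).trans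
    (Nat.mul_le_mul_left 4 (hv T))) b
  exact ⟨fun j i => v (j, i), b, σ,
    fun j i i' h => congrArg Prod.fst (finProdFinEquiv.injective h), hb, hσ⟩

end Pool.Agent.Lib.MP_8a52c3_lc.H39Xor
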