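import Pool.Agent.Lib.MP_8a52c3_lc.H39XorB

/-! Semidefinite relaxations of Max-3XOR and Max-3SAT. -/

namespace Pool.Agent.Lib.MP_8a52c3_lc.H39Xor

open Finset H91S

theorem csp_core {ε : ℝ} (hε : 0 < ε) : ∃ c : ℝ, 0 < c ∧ ∃ n₀ : ℕ, ∀ n ≥ n₀, ∀ (R : ℕ) (V : Type)
    [AddCommGroup V] [Module ℝ V] (M : V →ᵃ[ℝ] Matrix (Fin R) (Fin R) ℝ)
    (p : (Fin n → Bool) → V), (∀ x, (M (p x)).PosSemidef) →
    (∀ (m : ℕ) (v : Fin m → Fin 3 → Fin n) (b : Fin m → Bool), (∀ j, Function.Injective (v j)) →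
      (∀ x : Fin n → Bool, ∑ j, sg (b j) * ∏ i, sg (x (v j i)) ≤ ε * m) →
      ∃ w : V →ᵃ[ℝ] ℝ, (∀ x, w (p x) = ∑ j, sg (b j) * ∏ i, sg (x (v j i))) ∧
        ∀ y, (M y).PosSemidef → w y ≤ (1 - ε) * m) →
    (2 : ℝ) ^ (c * n) ≤ R := by
  obtain ⟨D, Δ, hD, hΔ, h⟩ := xor_density hε
  obtain ⟨E, hE⟩ : ∃ E : ℝ, E = 2 / ε + 1 := ⟨_, rfl⟩
  have hE1 : 1 ≤ E := hE ▸ le_add_of_nonneg_left (by positivity)
  obtain ⟨k, hk⟩ := pow_unbounded_of_one_lt (64 * E ^ 3) (by norm_num : (1 : ℝ) < 2)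
  obtain ⟨s, hs⟩ := exists_nat_ge (((2 : ℝ) ^ (8 * D)) ^ 4)
  have hs0 : 0 < s := Nat.cast_pos.1 (lt_of_lt_of_le (by positivity) hs)
  have hq : 0 < 3 * D * s := by positivity
  refine ⟨1 / (6 * s), by positivity, (k + 1) * (3 * D * s), fun n hn R V _ _ M p hp H => ?_⟩
  obtain ⟨r, hr⟩ : ∃ r, r = n / (3 * D * s) := ⟨_, rfl⟩
  have r1 : k + 1 ≤ r := by rwa [hr, Nat.le_div_iff_mul_le hq]
  have r2 : r * (3 * D * s) ≤ n := hr ▸ Nat.div_mul_le_self _ _
  have r3 : n < r * (3 * D * s) + 3 * D * s := hr ▸ Nat.lt_div_mul_add hq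
  obtain ⟨v, b, σ, hv, h0, Q1, Q2, hσ, h1, h2⟩ := h r (by omega)
  obtain ⟨e⟩ : Nonempty (Fin (3 * (D * r)) × Fin s ↪ Fin n) :=
    Function.Embedding.nonempty_of_card_le (by
      rw [Fintype.card_prod, Fintype.card_fin, Fintype.card_fin, Fintype.card_fin]
      nlinarith)
  obtain ⟨m, hm⟩ : ∃ m : ℝ, m = (Δ * (D * r) : ℕ) := ⟨_, rfl⟩
  have hm0 : 0 < m := hm ▸ Nat.cast_pos.2 (Nat.mul_pos hΔ (Nat.mul_pos hD (by omega)))
  let u : (Fin (3 * (D * r)) → Fin s → Bool) → Fin n → Bool := fun y =>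
    Function.extend e (fun q => y q.1 q.2) fun _ => false
  have hu : ∀ y k a, u y (e (k, a)) = y k a := fun y k a => e.injective.extend_apply _ _ _
  have hsg : ∀ c, |sg c| = 1 := fun c => by cases c <;> simp [sg]
  have key := core (X := Fin s) (ι := Fin R) (2 ^ (8 * D)) (one_le_pow₀ (by norm_num))
    (by
      rw [Fintype.card_fin]
      linarith [Nat.cast_nonneg (α := ℝ) s]) (3 * (D * r)) r σ
    (fun z => (ε * m)⁻¹ * ((1 - ε) * m - ∑ j, sg (b j) * ∏ i, sg (z (v j i)))) E hE1 Q1 Q2 hσ h1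
    (fun z => ?_) (le_of_eq ?_) (fun y => M (p (u y))) (fun y => hp _) fun x c hc hpsd => ?_
  · rw [Fintype.card_fin] at key
    obtain ⟨a, ha⟩ : ∃ a : ℝ, a = 2 ^ (D * r) := ⟨_, rfl⟩
    have a0 : 1 ≤ a := ha ▸ one_le_pow₀ (by norm_num)
    have a1 : 64 * E ^ 3 ≤ a := ha ▸ hk.le.trans (pow_le_pow_right₀ (by norm_num) (by nlinarith))
    have e1 : ((2 : ℝ) ^ (8 * D)) ^ (2 * r) = a ^ 12 * a ^ 4 := by
      rw [ha]
      simp only [← pow_mul, ← pow_add]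
      congr 1
      ring
    have e2 : (2 : ℝ) ^ (4 * (3 * (D * r)) + 4) = a ^ 12 * 16 := by
      rw [ha, show (16 : ℝ) = 2 ^ 4 by norm_num, ← pow_mul, ← pow_add]
      congr 1
      ring
    rw [e1, e2, mul_assoc, mul_assoc] at key
    have k1 := lt_of_mul_lt_mul_left key (by positivity)
    have k2 : a ≤ R := by
      by_contra hc
      have c1 : ((R : ℝ) + 1) ^ 2 ≤ (2 * a) ^ 2 :=
        pow_le_pow_left₀ (by positivity) (by linarith [not_le.1 hc]) 2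
      have c2 := mul_le_mul_of_nonneg_left c1 (by positivity : 0 ≤ E ^ 3)
      have c3 := mul_le_mul_of_nonneg_right a1 (by positivity : 0 ≤ a ^ 2)
      have c4 : a ^ 3 ≤ a ^ 4 := pow_le_pow_right₀ a0 (by norm_num)
      nlinarith
    refine le_trans ?_ k2
    rw [ha, ← Real.rpow_natCast]
    refine Real.rpow_le_rpow_of_exponent_le (by norm_num) ?_
    have : n ≤ D * r * (6 * s) := by nlinarith
    rw [div_mul_eq_mul_div, one_mul, div_le_iff₀ (by positivity)]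
    exact_mod_cast this
  · have b1 : |∑ j, sg (b j) * ∏ i, sg (z (v j i))| ≤ m := by
      refine (abs_sum_le_sum_abs _ _).trans (le_of_eq ?_)
      simp [abs_mul, abs_prod, hsg, hm]
    rw [abs_mul, abs_of_pos (by positivity), inv_mul_le_iff₀ (by positivity), hE, abs_le]
    have b2 : ε * m * (2 / ε + 1) = 2 * m + ε * m := by field_simp
    have b3 := mul_pos hε hm0
    rw [abs_le] at b1
    constructor <;> linarith [b1.1, b1.2]
  · simp only [mul_left_comm _ (ε * m)⁻¹, ← mul_sum]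
    simp only [mul_sub, sum_sub_distrib, ← sum_mul, mul_sum]
    rw [sum_comm, h1]
    simp only [← mul_sum, h2, sum_const, card_univ, Fintype.card_fin, nsmul_eq_mul, ← hm]
    field_simp
    ring
  · obtain ⟨w, w1, w2⟩ := H _ (fun j i => e (v j i, x (v j i))) b
      (fun j i i' h => hv j (congrArg Prod.fst (e.injective h)))
      fun x' => h0 fun k => x' (e (k, x k))
    have := star_of_lift M w (AffineMap.const ℝ ℝ ((1 - ε) * m) - AffineMap.id ℝ ℝ)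
      (fun y hy => sub_nonneg.2 (hm ▸ w2 y hy)) (fun y => p (u y)) c hc hpsd
    simp only [AffineMap.coe_sub, Pi.sub_apply, AffineMap.const_apply, AffineMap.id_apply, w1,
      hu] at this
    simp only [mul_left_comm _ (ε * m)⁻¹, ← mul_sum]
    positivity

lemma clause_sum (x : Fin 3 → Bool) (β : Bool) :
    ∑ q : Bool × Bool, (if ∃ i, x i = ![q.1, q.2, xor (xor q.1 q.2) β] i then (1 : ℝ) else 0) =
      7 / 2 + 1 / 2 * (sg β * ∏ i, sg (x i)) := by
  simp only [Fintype.sum_prod_type, Fintype.sum_bool, Fin.exists_fin_succ, Fin.prod_univ_three,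
    Matrix.cons_val_zero, Matrix.cons_val_succ, IsEmpty.exists_iff, or_false]
  change _ = 7 / 2 + 1 / 2 * (sg β * (sg (x 0) * sg (x 1) * sg (x 2)))
  have e1 : Fin.succ (0 : Fin 2) = 1 := rfl
  have e2 : Fin.succ (Fin.succ (0 : Fin 1)) = 2 := rfl
  rw [e1, e2]
  cases x 0 <;> cases x 1 <;> cases x 2 <;> cases β <;> simp [sg] <;> norm_num

theorem sat3 {ε : ℝ} (hε : 0 < ε) : ∃ c : ℝ, 0 < c ∧ ∃ n₀ : ℕ, ∀ n ≥ n₀, ∀ (R : ℕ) (V : Type)
    [AddCommGroup V] [Module ℝ V] (M : V →ᵃ[ℝ] Matrix (Fin R) (Fin R) ℝ)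
    (p : (Fin n → Bool) → V), (∀ x, (M (p x)).PosSemidef) →
    (∀ (m : ℕ) (v : Fin m → Fin 3 → Fin n) (s : Fin m → Fin 3 → Bool),
      (∀ j, Function.Injective (v j)) →
      (∀ x : Fin n → Bool,
        ((univ.filter fun j => ∃ i, x (v j i) = s j i).card : ℝ) ≤ (7 / 8 + ε) * m) →
      ∃ w : V →ᵃ[ℝ] ℝ, (∀ x, w (p x) = (univ.filter fun j => ∃ i, x (v j i) = s j i).card) ∧
        ∀ y, (M y).PosSemidef → w y ≤ (1 - ε) * m) →
    (2 : ℝ) ^ (c * n) ≤ R := by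
  obtain ⟨c, hc, n₀, h⟩ := csp_core (ε := 8 * ε) (by positivity)
  refine ⟨c, hc, n₀, fun n hn R V _ _ M p hp H => h n hn R V M p hp fun m v b hv hb => ?_⟩
  let e : Fin (m * 4) ≃ Fin m × (Bool × Bool) := (Fintype.equivFinOfCardEq (by simp)).symm
  have key : ∀ x : Fin n → Bool, ((univ.filter fun j => ∃ i, x (v (e j).1 i) =
      ![(e j).2.1, (e j).2.2, xor (xor (e j).2.1 (e j).2.2) (b (e j).1)] i).card : ℝ) =
        7 / 2 * m + 1 / 2 * ∑ j, sg (b j) * ∏ i, sg (x (v j i)) := by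
    intro x
    rw [← sum_boole, e.sum_comp fun q => if ∃ i, x (v q.1 i) =
      ![q.2.1, q.2.2, xor (xor q.2.1 q.2.2) (b q.1)] i then (1 : ℝ) else 0, Fintype.sum_prod_type]
    simp only [fun j => clause_sum (fun i => x (v j i)) (b j), sum_add_distrib, ← mul_sum,
      sum_const, card_univ, Fintype.card_fin, nsmul_eq_mul]
    ring
  obtain ⟨w, w1, w2⟩ := H (m * 4) (fun j => v (e j).1)
    (fun j => ![(e j).2.1, (e j).2.2, xor (xor (e j).2.1 (e j).2.2) (b (e j).1)])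
    (fun j => hv _) fun x => by
      rw [key]
      push_cast
      linarith [hb x]
  refine ⟨(2 : ℝ) • w - AffineMap.const ℝ V (7 * (m : ℝ)), fun x => ?_, fun y hy => ?_⟩
  · simp only [AffineMap.coe_sub, AffineMap.coe_smul, Pi.sub_apply, Pi.smul_apply,
      AffineMap.const_apply, smul_eq_mul, w1, key]
    ring
  · have := w2 y hy
    simp only [AffineMap.coe_sub, AffineMap.coe_smul, Pi.sub_apply, Pi.smul_apply,
      AffineMap.const_apply, smul_eq_mul]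
    push_cast at this
    linarith

end Pool.Agent.Lib.MP_8a52c3_lc.H39Xor
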