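import Mathlib

open Matrix Finset

namespace Pool.Agent.Lib.MP_8a52c3_lc.H91S

/-- squared Frobenius norm -/
def fro {ι κ : Type} [Fintype ι] [Fintype κ] (A : Matrix ι κ ℝ) : ℝ := ∑ i, ∑ j, A i j ^ 2

/-- sign of a bit -/
def sg (c : Bool) : ℝ := if c then 1 else -1

/-- one factor of the damped character -/
noncomputable def uu (t : ℝ) (c β : Bool) : ℝ := if β then sg c / t else 1

section
variable {ι κ : Type} [Fintype ι] [Fintype κ]

lemma fro_nonneg (A : Matrix ι κ ℝ) : 0 ≤ fro A := by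
  unfold fro; positivity

lemma fro_eq_trace (A : Matrix ι κ ℝ) : fro A = trace (A * Aᵀ) := by
  simp [fro, trace, Matrix.mul_apply, sq]

lemma fro_add_le (A B : Matrix ι κ ℝ) : fro (A + B) ≤ 2 * fro A + 2 * fro B := by
  unfold fro
  simp only [Finset.mul_sum, ← Finset.sum_add_distrib]
  refine Finset.sum_le_sum fun i _ => Finset.sum_le_sum fun j _ => ?_
  simp only [Matrix.add_apply]
  nlinarith [sq_nonneg (A i j - B i j)]

lemma fro_smul (c : ℝ) (A : Matrix ι κ ℝ) : fro (c • A) = c ^ 2 * fro A := by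
  unfold fro
  simp only [Finset.mul_sum, Matrix.smul_apply, smul_eq_mul, mul_pow]

lemma fro_mul_transpose (K : Matrix ι κ ℝ) : fro (K * Kᵀ) = fro (Kᵀ * K) := by
  rw [fro_eq_trace, fro_eq_trace]
  simp only [Matrix.transpose_mul, Matrix.transpose_transpose]
  rw [Matrix.mul_assoc, Matrix.trace_mul_comm]
  simp only [Matrix.mul_assoc]

variable [DecidableEq ι]

lemma fro_conj (U A : Matrix ι ι ℝ) (hU : U * Uᵀ = 1) : fro (Uᵀ * A * U) = fro A := by
  rw [fro_eq_trace, fro_eq_trace]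
  simp only [Matrix.transpose_mul, Matrix.transpose_transpose]
  have : Uᵀ * A * U * (Uᵀ * (Aᵀ * U)) = Uᵀ * (A * (U * Uᵀ) * Aᵀ * U) := by
    simp only [Matrix.mul_assoc]
  rw [this, hU, Matrix.mul_one, Matrix.trace_mul_comm, Matrix.mul_assoc, hU, Matrix.mul_one]

lemma exists_diag (A : Matrix ι ι ℝ) (hA : A.IsHermitian) :
    ∃ (U : Matrix ι ι ℝ) (d : ι → ℝ), Uᵀ * U = 1 ∧ U * Uᵀ = 1 ∧ Uᵀ * A * U = diagonal d := by
  refine ⟨hA.eigenvectorUnitary, hA.eigenvalues, ?_, ?_, ?_⟩
  · have := Unitary.coe_star_mul_self hA.eigenvectorUnitary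
    simpa [Matrix.star_eq_conjTranspose, Matrix.conjTranspose_eq_transpose_of_trivial] using this
  · have := Unitary.coe_mul_star_self hA.eigenvectorUnitary
    simpa [Matrix.star_eq_conjTranspose, Matrix.conjTranspose_eq_transpose_of_trivial] using this
  · have := hA.conjStarAlgAut_star_eigenvectorUnitary
    rw [Unitary.conjStarAlgAut_star_apply] at this
    simpa [Matrix.star_eq_conjTranspose, Matrix.conjTranspose_eq_transpose_of_trivial] using this

lemma psd_conj {μ : Type} [Fintype μ] (A : Matrix ι ι ℝ) (hA : A.PosSemidef) (U : Matrix ι μ ℝ) :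
    (Uᵀ * A * U).PosSemidef := by
  have := hA.conjTranspose_mul_mul_same U
  rwa [Matrix.conjTranspose_eq_transpose_of_trivial] at this

lemma psd_symm (A : Matrix ι ι ℝ) (hA : A.PosSemidef) : Aᵀ = A := by
  have := hA.isHermitian.eq
  rwa [Matrix.conjTranspose_eq_transpose_of_trivial] at this

lemma exists_sqrt (A : Matrix ι ι ℝ) (hA : A.PosSemidef) :
    ∃ S : Matrix ι ι ℝ, S.PosSemidef ∧ S * S = A := by
  obtain ⟨U, d, h1, h2, h3⟩ := exists_diag A hA.isHermitian
  have hd : ∀ i, 0 ≤ d i := by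
    have := psd_conj A hA U
    rw [h3] at this
    exact posSemidef_diagonal_iff.mp this
  refine ⟨U * diagonal (fun i => Real.sqrt (d i)) * Uᵀ, ?_, ?_⟩
  · have := psd_conj (diagonal (fun i => Real.sqrt (d i)))
      (posSemidef_diagonal_iff.mpr fun i => Real.sqrt_nonneg _) Uᵀ
    rwa [Matrix.transpose_transpose] at this
  · have e : U * diagonal (fun i => Real.sqrt (d i)) * Uᵀ * (U * diagonal (fun i => Real.sqrt (d i)) * Uᵀ)
        = U * (diagonal (fun i => Real.sqrt (d i)) * (Uᵀ * U) * diagonal (fun i => Real.sqrt (d i))) * Uᵀ := by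
      simp only [Matrix.mul_assoc]
    rw [e, h1, Matrix.mul_one, diagonal_mul_diagonal]
    have : (fun i => Real.sqrt (d i) * Real.sqrt (d i)) = d := by
      funext i; exact Real.mul_self_sqrt (hd i)
    rw [this, ← h3]
    have e2 : U * (Uᵀ * A * U) * Uᵀ = (U * Uᵀ) * A * (U * Uᵀ) := by
      simp only [Matrix.mul_assoc]
    rw [e2, h2, Matrix.one_mul, Matrix.mul_one]

/-- Powers-Stoermer inequality in the Schatten 4 norm -/
lemma ps (S T : Matrix ι ι ℝ) (hS : S.PosSemidef) (hT : T.PosSemidef) :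
    fro ((S - T) * (S - T)) ≤ fro (S * S - T * T) := by
  obtain ⟨U, d, h1, h2, h3⟩ := exists_diag (S - T) (hS.isHermitian.sub hT.isHermitian)
  set S' := Uᵀ * S * U with hS'
  set T' := Uᵀ * T * U with hT'
  have pS : S'.PosSemidef := psd_conj S hS U
  have pT : T'.PosSemidef := psd_conj T hT U
  have hd : S' - T' = diagonal d := by
    rw [← h3, hS', hT', Matrix.mul_sub, Matrix.sub_mul]
  have conj_mul : ∀ A B : Matrix ι ι ℝ, Uᵀ * (A * B) * U = (Uᵀ * A * U) * (Uᵀ * B * U) := by
    intro A B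
    have : (Uᵀ * A * U) * (Uᵀ * B * U) = Uᵀ * (A * (U * Uᵀ) * B) * U := by
      simp only [Matrix.mul_assoc]
    rw [this, h2, Matrix.mul_one]
  rw [← fro_conj U _ h2, ← fro_conj U (S * S - T * T) h2, conj_mul, h3, Matrix.mul_sub,
    Matrix.sub_mul, conj_mul, conj_mul, ← hS', ← hT', diagonal_mul_diagonal]
  have key : S' * S' - T' * T' = (1 / 2 : ℝ) • ((S' + T') * diagonal d + diagonal d * (S' + T')) := by
    rw [← hd]
    simp only [Matrix.mul_sub, Matrix.sub_mul, Matrix.mul_add, Matrix.add_mul]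
    ext i j
    simp only [Matrix.sub_apply, Matrix.add_apply, Matrix.smul_apply, smul_eq_mul]
    ring
  rw [key]
  unfold fro
  refine Finset.sum_le_sum fun i _ => ?_
  have e1 : ∑ j, (diagonal (fun i => d i * d i) i j) ^ 2 = (d i * d i) ^ 2 := by
    rw [Finset.sum_eq_single i]
    · simp
    · intro j _ hj
      simp [diagonal_apply_ne _ (Ne.symm hj)]
    · simp
  rw [e1]
  refine le_trans ?_ (Finset.single_le_sum (f := fun j =>
    (((1 / 2 : ℝ) • ((S' + T') * diagonal d + diagonal d * (S' + T'))) i j) ^ 2)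
    (fun j _ => sq_nonneg _) (Finset.mem_univ i))
  have hdi : S' i i - T' i i = d i := by
    have := congrFun (congrFun hd i) i
    simpa using this
  have a1 : 0 ≤ S' i i := pS.diag_nonneg
  have a2 : 0 ≤ T' i i := pT.diag_nonneg
  simp only [Matrix.smul_apply, Matrix.add_apply, mul_diagonal, diagonal_mul, smul_eq_mul]
  rw [← hdi]
  nlinarith [mul_nonneg (sq_nonneg (S' i i - T' i i)) (mul_nonneg a1 a2)]

/-- two positive semidefinite matrices as the two values of a degree one square -/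
lemma two (t : ℝ) (ht : 1 ≤ t) (P : Bool → Matrix ι ι ℝ) (hP : ∀ c, (P c).PosSemidef) :
    ∃ B : Matrix (Bool × ι) (Bool × ι) ℝ, B.PosSemidef ∧
      (∀ c i j, P c i j = ∑ β, ∑ β', uu t c β * uu t c β' * B (β, i) (β', j)) ∧
      fro B ≤ 2 * fro ((1 / 2 : ℝ) • (P false + P true))
        + t ^ 4 / 2 * fro ((1 / 2 : ℝ) • (P true - P false)) := by
  obtain ⟨L0, p0, e0⟩ := exists_sqrt (P false) (hP false)
  obtain ⟨L1, p1, e1⟩ := exists_sqrt (P true) (hP true)
  have s0 : ∀ i j, L0 j i = L0 i j := fun i j => congrFun (congrFun (psd_symm L0 p0) i) j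
  have s1 : ∀ i j, L1 j i = L1 i j := fun i j => congrFun (congrFun (psd_symm L1 p1) i) j
  have ht0 : t ≠ 0 := by linarith
  let K : Matrix (Bool × ι) ι ℝ := Matrix.of fun p k =>
    if p.1 then t * (L1 p.2 k - L0 p.2 k) / 2 else (L0 p.2 k + L1 p.2 k) / 2
  refine ⟨K * Kᵀ, ?_, ?_, ?_⟩
  · have := posSemidef_self_mul_conjTranspose K
    rwa [Matrix.conjTranspose_eq_transpose_of_trivial] at this
  · intro c i j
    cases c
    · rw [← e0]
      simp only [Fintype.sum_bool, Matrix.mul_apply, Matrix.transpose_apply, K, Matrix.of_apply,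
        uu, sg, if_true, Bool.false_eq_true, if_false, Finset.mul_sum, ← Finset.sum_add_distrib]
      refine Finset.sum_congr rfl fun k _ => ?_
      rw [s0 j k]
      field_simp
      ring
    · rw [← e1]
      simp only [Fintype.sum_bool, Matrix.mul_apply, Matrix.transpose_apply, K, Matrix.of_apply,
        uu, sg, if_true, Bool.false_eq_true, if_false, Finset.mul_sum, ← Finset.sum_add_distrib]
      refine Finset.sum_congr rfl fun k _ => ?_
      rw [s1 j k]
      field_simp
      ring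
  · rw [fro_mul_transpose]
    have e : Kᵀ * K = (1 / 2 : ℝ) • (P false + P true)
        + ((t ^ 2 - 1) / 4) • ((L1 - L0) * (L1 - L0)) := by
      rw [← e0, ← e1]
      ext i j
      simp only [Matrix.mul_apply, Matrix.transpose_apply, K, Matrix.of_apply, Fintype.sum_prod_type,
        Fintype.sum_bool, if_true, Bool.false_eq_true, if_false, Matrix.add_apply, Matrix.smul_apply,
        Matrix.sub_apply, smul_eq_mul, Finset.mul_sum, ← Finset.sum_add_distrib]
      refine Finset.sum_congr rfl fun k _ => ?_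
      rw [s0 i k, s1 i k]
      ring
    rw [e]
    refine le_trans (fro_add_le _ _) ?_
    have h := ps L1 L0 p1 p0
    rw [e0, e1] at h
    rw [fro_smul ((t ^ 2 - 1) / 4), fro_smul (1 / 2 : ℝ) (P true - P false)]
    have h0 := fro_nonneg ((L1 - L0) * (L1 - L0))
    have h2 : ((t ^ 2 - 1) / 4) ^ 2 ≤ t ^ 4 / 16 := by nlinarith [sq_nonneg t]
    have h3 : ((t ^ 2 - 1) / 4) ^ 2 * fro ((L1 - L0) * (L1 - L0)) ≤ t ^ 4 / 16 * fro (P true - P false) :=
      mul_le_mul h2 h h0 (by positivity)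
    nlinarith

lemma psd_gram (A : Matrix ι ι ℝ) (hA : A.PosSemidef) :
    ∃ C : Matrix ι ι ℝ, ∀ i j, A i j = ∑ k, C k i * C k j := by
  obtain ⟨S, pS, e⟩ := exists_sqrt A hA
  refine ⟨S, fun i j => ?_⟩
  rw [← e, Matrix.mul_apply]
  refine Finset.sum_congr rfl fun k _ => ?_
  rw [← congrFun (congrFun (psd_symm S pS) i) k, Matrix.transpose_apply]

lemma psd_entry_sq (A : Matrix ι ι ℝ) (hA : A.PosSemidef) (i j : ι) : A i j ^ 2 ≤ A i i * A j j := by
  obtain ⟨C, hC⟩ := psd_gram A hA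
  rw [hC i j, hC i i, hC j j]
  have := Finset.sum_mul_sq_le_sq_mul_sq Finset.univ (fun k => C k i) (fun k => C k j)
  simpa [sq] using this

lemma fro_le_trace_sq (A : Matrix ι ι ℝ) (hA : A.PosSemidef) : fro A ≤ trace A ^ 2 := by
  unfold fro
  rw [sq, trace, Finset.sum_mul_sum]
  exact Finset.sum_le_sum fun i _ => Finset.sum_le_sum fun j _ => psd_entry_sq A hA i j

/-- normalisation of a finite family of positive semidefinite matrices -/
lemma normalise {Ω : Type} [Fintype Ω] (Y : Ω → Matrix ι ι ℝ) (hY : ∀ y, (Y y).PosSemidef) :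
    ∃ (H : Matrix ι ι ℝ) (B : Ω → Matrix ι ι ℝ), (∀ y, (B y).PosSemidef) ∧
      (∀ y, Y y = H * B y * Hᵀ) ∧ H * Hᵀ = ∑ y, Y y ∧ ∑ y, trace (B y) ≤ Fintype.card ι := by
  have hS : (∑ y, Y y).PosSemidef := posSemidef_sum Finset.univ fun y _ => hY y
  obtain ⟨U, d, h1, h2, h3⟩ := exists_diag _ hS.isHermitian
  have hd : ∀ i, 0 ≤ d i := by
    have := psd_conj _ hS U
    rw [h3] at this
    exact posSemidef_diagonal_iff.mp this
  have pZ : ∀ y, (Uᵀ * Y y * U).PosSemidef := fun y => psd_conj _ (hY y) U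
  have hsum : ∀ i, ∑ y, (Uᵀ * Y y * U) i i = d i := by
    intro i
    have := congrFun (congrFun h3 i) i
    rw [Matrix.mul_sum, Matrix.sum_mul, Matrix.sum_apply] at this
    simpa using this
  have hz : ∀ y i j, d i = 0 → (Uᵀ * Y y * U) i j = 0 := by
    intro y i j hi
    have h0 : (Uᵀ * Y y * U) i i = 0 := by
      have := (Finset.sum_eq_zero_iff_of_nonneg (s := Finset.univ)
        (f := fun y => (Uᵀ * Y y * U) i i) fun y _ => (pZ y).diag_nonneg).mp ((hsum i).trans hi)
      exact this y (Finset.mem_univ y)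
    have := psd_entry_sq _ (pZ y) i j
    rw [h0, zero_mul] at this
    exact pow_eq_zero_iff (two_ne_zero) |>.mp (le_antisymm this (sq_nonneg _))
  let G : Matrix ι ι ℝ := diagonal fun i => (Real.sqrt (d i))⁻¹
  let R : Matrix ι ι ℝ := diagonal fun i => Real.sqrt (d i)
  refine ⟨U * R, fun y => Gᵀ * (Uᵀ * Y y * U) * G, fun y => psd_conj _ (pZ y) G, ?_, ?_, ?_⟩
  · intro y
    have e : R * (Gᵀ * (Uᵀ * Y y * U) * G) * Rᵀ = Uᵀ * Y y * U := by
      ext i j
      simp only [G, R, diagonal_transpose, mul_diagonal, diagonal_mul]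
      by_cases hi : d i = 0
      · rw [hz y i j hi]; simp
      by_cases hj : d j = 0
      · have : (Uᵀ * Y y * U) i j = 0 := by
          rw [← congrFun (congrFun (psd_symm _ (pZ y)) i) j, Matrix.transpose_apply]
          exact hz y j i hj
        rw [this]; simp
      have a1 : Real.sqrt (d i) ≠ 0 := fun h => hi ((Real.sqrt_eq_zero (hd i)).mp h)
      have a2 : Real.sqrt (d j) ≠ 0 := fun h => hj ((Real.sqrt_eq_zero (hd j)).mp h)
      field_simp
    have e2 : U * R * (Gᵀ * (Uᵀ * Y y * U) * G) * (U * R)ᵀ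
        = U * (R * (Gᵀ * (Uᵀ * Y y * U) * G) * Rᵀ) * Uᵀ := by
      simp only [Matrix.transpose_mul, Matrix.mul_assoc]
    rw [e2, e]
    have e3 : U * (Uᵀ * Y y * U) * Uᵀ = (U * Uᵀ) * Y y * (U * Uᵀ) := by
      simp only [Matrix.mul_assoc]
    rw [e3, h2, Matrix.one_mul, Matrix.mul_one]
  · have e2 : U * R * (U * R)ᵀ = U * (R * Rᵀ) * Uᵀ := by
      simp only [Matrix.transpose_mul, Matrix.mul_assoc]
    have e : R * Rᵀ = diagonal d := by
      simp only [R, diagonal_transpose, diagonal_mul_diagonal]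
      congr 1
      funext i; exact Real.mul_self_sqrt (hd i)
    rw [e2, e, ← h3]
    have e3 : U * (Uᵀ * (∑ y, Y y) * U) * Uᵀ = (U * Uᵀ) * (∑ y, Y y) * (U * Uᵀ) := by
      simp only [Matrix.mul_assoc]
    rw [e3, h2, Matrix.one_mul, Matrix.mul_one]
  · simp only [trace, diag_apply, G, diagonal_transpose, mul_diagonal, diagonal_mul]
    rw [Finset.sum_comm]
    have : ∀ i, ∑ y, (Real.sqrt (d i))⁻¹ * (Uᵀ * Y y * U) i i * (Real.sqrt (d i))⁻¹ ≤ 1 := by
      intro i
      rw [← Finset.sum_mul, ← Finset.mul_sum, hsum i]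
      by_cases hi : d i = 0
      · simp [hi]
      have a1 : Real.sqrt (d i) ≠ 0 := fun h => hi ((Real.sqrt_eq_zero (hd i)).mp h)
      have := Real.mul_self_sqrt (hd i)
      apply le_of_eq
      field_simp
      nlinarith
    calc _ ≤ ∑ _i : ι, (1 : ℝ) := Finset.sum_le_sum fun i _ => this i
      _ = _ := by simp

end

end Pool.Agent.Lib.MP_8a52c3_lc.H91S
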