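import Pool.Agent.Lib.MP_8a52c3_lc.H91SA

open Matrix Finset

namespace Pool.Agent.Lib.MP_8a52c3_lc.H91S

lemma bessel {Ω κ : Type} [Fintype Ω] [Fintype κ] [DecidableEq κ] (e : κ → Ω → ℝ) (c : ℝ)
    (hc : 0 < c) (he : ∀ k l, ∑ y, e k y * e l y = if k = l then c else 0) (h : Ω → ℝ) :
    ∑ k, (∑ y, e k y * h y) ^ 2 ≤ c * ∑ y, h y ^ 2 := by
  set b : κ → ℝ := fun k => ∑ y, e k y * h y with hb
  have h0 : 0 ≤ ∑ y, (c * h y - ∑ k, b k * e k y) ^ 2 := by positivity
  have e1 : ∑ y, (∑ k, b k * e k y) ^ 2 = c * ∑ k, b k ^ 2 := by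
    have : ∀ y, (∑ k, b k * e k y) ^ 2 = ∑ k, ∑ l, b k * b l * (e k y * e l y) := by
      intro y
      rw [sq, Finset.sum_mul_sum]
      exact Finset.sum_congr rfl fun k _ => Finset.sum_congr rfl fun l _ => by ring
    simp only [this]
    rw [Finset.sum_comm, Finset.mul_sum]
    refine Finset.sum_congr rfl fun k _ => ?_
    rw [Finset.sum_comm]
    simp only [← Finset.mul_sum, he]
    simp [mul_ite]
    ring
  have e2 : ∑ y, h y * (∑ k, b k * e k y) = ∑ k, b k ^ 2 := by
    simp only [Finset.mul_sum]
    rw [Finset.sum_comm]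
    refine Finset.sum_congr rfl fun k _ => ?_
    rw [sq]
    conv_rhs => rw [hb]
    simp only [Finset.mul_sum]
    exact Finset.sum_congr rfl fun y _ => by ring
  have e3 : ∑ y, (c * h y - ∑ k, b k * e k y) ^ 2
      = c ^ 2 * ∑ y, h y ^ 2 - 2 * c * ∑ y, h y * (∑ k, b k * e k y)
        + ∑ y, (∑ k, b k * e k y) ^ 2 := by
    rw [Finset.mul_sum, Finset.mul_sum, ← Finset.sum_sub_distrib, ← Finset.sum_add_distrib]
    exact Finset.sum_congr rfl fun y _ => by ring
  rw [e3, e1, e2] at h0
  have : 0 ≤ c * (c * ∑ y, h y ^ 2 - ∑ k, b k ^ 2) := by nlinarith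
  have := (mul_nonneg_iff_of_pos_left hc).mp this
  linarith

lemma sg_not (c : Bool) : sg (!c) = - sg c := by cases c <;> simp [sg]

lemma sg_mul_self (c : Bool) : sg c * sg c = 1 := by cases c <;> simp [sg]

section
variable {X : Type} [Fintype X] [DecidableEq X]

lemma sum_sg_mul (x : X) (F : (X → Bool) → ℝ)
    (hF : ∀ y, F (Function.update y x (!y x)) = F y) : ∑ y : X → Bool, sg (y x) * F y = 0 := by
  have inv : Function.Involutive (fun y : X → Bool => Function.update y x (!y x)) := by
    intro y
    simp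
  have := Equiv.sum_comp (inv.toPerm _) (fun y : X → Bool => sg (y x) * F y)
  simp only [Function.Involutive.coe_toPerm, Function.update_self, hF, sg_not, neg_mul,
    Finset.sum_neg_distrib] at this
  linarith

lemma bessel_block (h : (X → Bool) → ℝ) :
    (∑ y, h y) ^ 2 + ∑ x, (∑ y : X → Bool, sg (y x) * h y) ^ 2
      ≤ (Fintype.card (X → Bool) : ℝ) * ∑ y, h y ^ 2 := by
  have hc : (0 : ℝ) < Fintype.card (X → Bool) := by exact_mod_cast Fintype.card_pos
  have := bessel (κ := Option X) (fun k (y : X → Bool) => k.elim 1 fun x => sg (y x)) _ hc ?_ h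
  · simpa [Fintype.sum_option] using this
  · intro k l
    cases k with
    | none =>
      cases l with
      | none => simp
      | some x =>
        have := sum_sg_mul x (fun _ => 1) (fun _ => rfl)
        simpa using this
    | some x =>
      cases l with
      | none =>
        have := sum_sg_mul x (fun _ => 1) (fun _ => rfl)
        simpa using this
      | some x' =>
        by_cases hx : x = x'
        · subst hx
          simp [sg_mul_self]
        · have := sum_sg_mul x (fun y => sg (y x')) (fun y => by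
            rw [Function.update_of_ne (Ne.symm hx)])
          simpa [hx] using this

/-- conditional density of one block -/
noncomputable def wt1 (y : X → Bool) (x : X) (c : Bool) : ℝ :=
  if y x = c then 2 / (Fintype.card (X → Bool) : ℝ) else 0

lemma block {ι : Type} [Fintype ι] [DecidableEq ι] (t : ℝ) (ht : 1 ≤ t)
    (hs : t ^ 4 ≤ 4 * (Fintype.card X : ℝ)) (b : (X → Bool) → Matrix ι ι ℝ)
    (hb : ∀ y, (b y).PosSemidef) :
    ∃ B : X → Matrix (Bool × ι) (Bool × ι) ℝ, (∀ x, (B x).PosSemidef) ∧
      (∀ x c i j, ∑ y, wt1 y x c * b y i j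
        = ∑ β, ∑ β', uu t c β * uu t c β' * B x (β, i) (β', j)) ∧
      ∑ x, fro (B x) ≤ 2 * (Fintype.card X : ℝ) / (Fintype.card (X → Bool) : ℝ) * ∑ y, fro (b y) := by
  set N : ℝ := (Fintype.card (X → Bool) : ℝ) with hN
  set s : ℝ := (Fintype.card X : ℝ) with hs'
  have hc : (0 : ℝ) < N := by rw [hN]; exact_mod_cast Fintype.card_pos
  let P : X → Bool → Matrix ι ι ℝ := fun x c => ∑ y, wt1 y x c • b y
  have hP : ∀ x c, (P x c).PosSemidef := fun x c =>
    posSemidef_sum Finset.univ fun y _ => (hb y).smul (by unfold wt1; split_ifs <;> positivity)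
  choose B h1 h2 h3 using fun x => two t ht (P x) (hP x)
  refine ⟨B, h1, ?_, ?_⟩
  · intro x c i j
    rw [← h2 x c i j]
    simp [P, Matrix.sum_apply]
  · have ea : ∀ x, fro ((1 / 2 : ℝ) • (P x false + P x true))
        = ∑ i, ∑ j, (∑ y, b y i j) ^ 2 / N ^ 2 := by
      intro x
      unfold fro
      refine Finset.sum_congr rfl fun i _ => Finset.sum_congr rfl fun j _ => ?_
      rw [← div_pow]
      congr 1
      simp only [P, Matrix.smul_apply, Matrix.add_apply, Matrix.sum_apply, smul_eq_mul,
        ← Finset.sum_add_distrib, Finset.mul_sum, Finset.sum_div]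
      refine Finset.sum_congr rfl fun y _ => ?_
      unfold wt1
      rw [← hN]
      cases y x <;> simp <;> ring
    have eb : ∀ x, fro ((1 / 2 : ℝ) • (P x true - P x false))
        = ∑ i, ∑ j, (∑ y : X → Bool, sg (y x) * b y i j) ^ 2 / N ^ 2 := by
      intro x
      unfold fro
      refine Finset.sum_congr rfl fun i _ => Finset.sum_congr rfl fun j _ => ?_
      rw [← div_pow]
      congr 1
      simp only [P, Matrix.smul_apply, Matrix.sub_apply, Matrix.sum_apply, smul_eq_mul,
        ← Finset.sum_sub_distrib, Finset.mul_sum, Finset.sum_div]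
      refine Finset.sum_congr rfl fun y _ => ?_
      unfold wt1 sg
      rw [← hN]
      cases y x <;> simp <;> ring
    set α : ℝ := ∑ i, ∑ j, (∑ y, b y i j) ^ 2 / N ^ 2 with hα
    set β : X → ℝ := fun x => ∑ i, ∑ j, (∑ y : X → Bool, sg (y x) * b y i j) ^ 2 / N ^ 2 with hβ
    have hβ0 : ∀ x, 0 ≤ β x := fun x => by simp only [hβ]; positivity
    have step : ∑ x, fro (B x) ≤ 2 * s * (α + ∑ x, β x) := by
      calc ∑ x, fro (B x) ≤ ∑ x, (2 * α + 2 * s * β x) := by
            refine Finset.sum_le_sum fun x _ => le_trans (h3 x) ?_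
            rw [ea x, eb x]
            have : t ^ 4 / 2 * β x ≤ 2 * s * β x :=
              mul_le_mul_of_nonneg_right (by linarith) (hβ0 x)
            exact add_le_add le_rfl this
        _ = 2 * s * (α + ∑ x, β x) := by
            rw [Finset.sum_add_distrib, ← Finset.mul_sum (s := Finset.univ) (a := 2 * s)]
            simp only [Finset.sum_const, Finset.card_univ, nsmul_eq_mul, ← hs']
            ring
    have bes : α + ∑ x, β x ≤ (∑ y, fro (b y)) / N := by
      have e1 : α + ∑ x, β x = ∑ i, ∑ j, ((∑ y, b y i j) ^ 2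
          + ∑ x, (∑ y : X → Bool, sg (y x) * b y i j) ^ 2) / N ^ 2 := by
        simp only [hα, hβ]
        rw [Finset.sum_comm (s := (Finset.univ : Finset X)), ← Finset.sum_add_distrib]
        refine Finset.sum_congr rfl fun i _ => ?_
        rw [Finset.sum_comm (s := (Finset.univ : Finset X)), ← Finset.sum_add_distrib]
        refine Finset.sum_congr rfl fun j _ => ?_
        rw [add_div, Finset.sum_div]
      have e2 : (∑ y, fro (b y)) / N = ∑ i, ∑ j, (N * ∑ y, b y i j ^ 2) / N ^ 2 := by
        unfold fro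
        rw [Finset.sum_comm, Finset.sum_div]
        refine Finset.sum_congr rfl fun i _ => ?_
        rw [Finset.sum_comm, Finset.sum_div]
        refine Finset.sum_congr rfl fun j _ => ?_
        field_simp
      rw [e1, e2]
      refine Finset.sum_le_sum fun i _ => Finset.sum_le_sum fun j _ => ?_
      exact div_le_div_of_nonneg_right (bessel_block fun y => b y i j) (by positivity)
    have hs0 : 0 ≤ s := by rw [hs']; positivity
    calc _ ≤ 2 * s * (α + ∑ x, β x) := step
      _ ≤ 2 * s * ((∑ y, fro (b y)) / N) := mul_le_mul_of_nonneg_left bes (by positivity)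
      _ = _ := by ring

lemma sum_cons {α : Type} [Fintype α] (n : ℕ) (f : (Fin (n + 1) → α) → ℝ) :
    ∑ y, f y = ∑ a, ∑ y' : Fin n → α, f (Fin.cons a y') := by
  rw [← (Fin.consEquiv fun _ : Fin (n + 1) => α).sum_comp f, Fintype.sum_prod_type]
  rfl

/-- the lifting lemma -/
lemma lift (t : ℝ) (ht : 1 ≤ t) (hs : t ^ 4 ≤ 4 * (Fintype.card X : ℝ)) (n : ℕ) :
    ∀ (ι : Type) [Fintype ι] [DecidableEq ι] (B : (Fin n → X → Bool) → Matrix ι ι ℝ),
      (∀ y, (B y).PosSemidef) →
      ∃ BB : (Fin n → X) → Matrix ((Fin n → Bool) × ι) ((Fin n → Bool) × ι) ℝ,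
        (∀ x, (BB x).PosSemidef) ∧
        (∀ x (z : Fin n → Bool) i j, ∑ y, (∏ k, wt1 (y k) (x k) (z k)) * B y i j
          = ∑ S : Fin n → Bool, ∑ S' : Fin n → Bool, (∏ k, uu t (z k) (S k)) * (∏ k, uu t (z k) (S' k)) * BB x (S, i) (S', j)) ∧
        ∑ x, fro (BB x)
          ≤ (2 * (Fintype.card X : ℝ) / (Fintype.card (X → Bool) : ℝ)) ^ n * ∑ y, fro (B y) := by
  induction n with
  | zero =>
    intro ι _ _ B hB
    refine ⟨fun _ => (B default).submatrix Prod.snd Prod.snd, fun _ => (hB _).submatrix _, ?_, ?_⟩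
    · intro x z i j
      simp only [Fintype.sum_unique, Finset.univ_eq_empty, Finset.prod_empty, one_mul,
        Matrix.submatrix_apply]
      exact congrFun (congrFun (congrArg B (Subsingleton.elim _ _)) i) j
    · simp only [fro, Fintype.sum_prod_type, Fintype.sum_unique, pow_zero, one_mul,
        Matrix.submatrix_apply]
      apply le_of_eq
      exact congrArg (fun y => ∑ i, ∑ j, B y i j ^ 2) (Subsingleton.elim _ _)
  | succ n ih =>
    intro ι _ _ B hB
    choose B1 h1 h2 h3 using fun y' : Fin n → X → Bool =>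
      block t ht hs (fun y0 => B (Fin.cons y0 y')) (fun y0 => hB _)
    choose B2 g1 g2 g3 using fun x0 : X => ih (Bool × ι) (fun y' => B1 y' x0) (fun y' => h1 y' x0)
    let e : (Fin (n + 1) → Bool) × ι → (Fin n → Bool) × (Bool × ι) :=
      fun p => (Fin.tail p.1, (p.1 0, p.2))
    refine ⟨fun x => (B2 (x 0) (Fin.tail x)).submatrix e e, fun x => (g1 _ _).submatrix _, ?_, ?_⟩
    · intro x z i j
      rw [sum_cons, Finset.sum_comm]
      have l1 : ∀ y' : Fin n → X → Bool,
          ∑ y0 : X → Bool, (∏ k : Fin (n + 1),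
              wt1 ((Fin.cons y0 y' : Fin (n + 1) → X → Bool) k) (x k) (z k)) * B (Fin.cons y0 y') i j
          = ∑ β, ∑ β', uu t (z 0) β * uu t (z 0) β' *
              ((∏ k : Fin n, wt1 (y' k) (Fin.tail x k) (Fin.tail z k)) * B1 y' (x 0) (β, i) (β', j)) := by
        intro y'
        have := h2 y' (x 0) (z 0) i j
        calc _ = (∏ k : Fin n, wt1 (y' k) (Fin.tail x k) (Fin.tail z k)) *
              ∑ y0 : X → Bool, wt1 y0 (x 0) (z 0) * B (Fin.cons y0 y') i j := by
              rw [Finset.mul_sum]
              refine Finset.sum_congr rfl fun y0 _ => ?_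
              rw [Fin.prod_univ_succ]
              simp only [Fin.cons_zero, Fin.cons_succ, Fin.tail]
              ring
          _ = _ := by
              rw [this]
              simp only [Finset.mul_sum]
              exact Finset.sum_congr rfl fun β _ => Finset.sum_congr rfl fun β' _ => by ring
      simp only [l1]
      rw [Finset.sum_comm, sum_cons]
      refine Finset.sum_congr rfl fun β _ => ?_
      rw [Finset.sum_comm]
      have r1 : ∀ S : Fin n → Bool, ∑ S' : Fin (n + 1) → Bool,
          (∏ k, uu t (z k) ((Fin.cons β S : Fin (n + 1) → Bool) k)) * (∏ k, uu t (z k) (S' k)) *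
            ((B2 (x 0) (Fin.tail x)).submatrix e e) (Fin.cons β S, i) (S', j)
          = ∑ β', ∑ S' : Fin n → Bool, uu t (z 0) β * uu t (z 0) β' *
            ((∏ k, uu t (Fin.tail z k) (S k)) * (∏ k, uu t (Fin.tail z k) (S' k)) *
              B2 (x 0) (Fin.tail x) (S, (β, i)) (S', (β', j))) := by
        intro S
        rw [sum_cons]
        refine Finset.sum_congr rfl fun β' _ => Finset.sum_congr rfl fun S' _ => ?_
        rw [Fin.prod_univ_succ, Fin.prod_univ_succ]
        simp only [Fin.cons_zero, Fin.cons_succ, Fin.tail, Matrix.submatrix_apply, e]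
        have t1 : Fin.tail (Fin.cons β S : Fin (n + 1) → Bool) = S := Fin.tail_cons _ _
        have t2 : Fin.tail (Fin.cons β' S' : Fin (n + 1) → Bool) = S' := Fin.tail_cons _ _
        rw [t1, t2]
        ring
      simp only [r1]
      rw [Finset.sum_comm (s := (Finset.univ : Finset (Fin n → Bool)))]
      refine Finset.sum_congr rfl fun β' _ => ?_
      simp only [← Finset.mul_sum]
      rw [g2 (x 0) (Fin.tail x) (Fin.tail z) (β, i) (β', j)]
    · have fe : ∀ A : Matrix ((Fin n → Bool) × (Bool × ι)) ((Fin n → Bool) × (Bool × ι)) ℝ,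
          fro (A.submatrix e e) = fro A := by
        intro A
        have se : ∀ F : (Fin n → Bool) × (Bool × ι) → ℝ, ∑ p, F (e p) = ∑ q, F q := by
          intro F
          rw [Fintype.sum_prod_type, sum_cons, Fintype.sum_prod_type, Finset.sum_comm]
          refine Finset.sum_congr rfl fun S _ => ?_
          rw [Fintype.sum_prod_type]
          refine Finset.sum_congr rfl fun β _ => Finset.sum_congr rfl fun i _ => ?_
          simp only [e, Fin.cons_zero, Fin.tail_cons]
        unfold fro
        simp only [Matrix.submatrix_apply]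
        rw [se (fun p => ∑ q, A p (e q) ^ 2)]
        exact Finset.sum_congr rfl fun p _ => se (fun q => A p q ^ 2)
      simp only [fe]
      rw [sum_cons]
      simp only [Fin.cons_zero, Fin.tail_cons]
      set c : ℝ := 2 * (Fintype.card X : ℝ) / (Fintype.card (X → Bool) : ℝ) with hc
      have hc0 : 0 ≤ c := by rw [hc]; positivity
      calc _ ≤ ∑ x0, c ^ n * ∑ y', fro (B1 y' x0) := Finset.sum_le_sum fun x0 _ => g3 x0
        _ = c ^ n * ∑ y', ∑ x0, fro (B1 y' x0) := by rw [← Finset.mul_sum, Finset.sum_comm]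
        _ ≤ c ^ n * ∑ y' : Fin n → X → Bool, c * ∑ y0, fro (B (Fin.cons y0 y')) :=
            mul_le_mul_of_nonneg_left (Finset.sum_le_sum fun y' _ => h3 y') (by positivity)
        _ = _ := by
            rw [sum_cons n (fun y => fro (B y)), Finset.sum_comm (s := (Finset.univ : Finset (X → Bool))),
              ← Finset.mul_sum]
            ring

end

end Pool.Agent.Lib.MP_8a52c3_lc.H91S
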