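import Pool.Agent.Lib.MP_8a52c3_lc.H91SB

open Matrix Finset

namespace Pool.Agent.Lib.MP_8a52c3_lc.H91S

/-- number of true bits -/
def wtB {n : ℕ} (S : Fin n → Bool) : ℕ := (Finset.univ.filter fun k => S k = true).card

/-- Fourier character of the cube -/
def chi {n : ℕ} (S z : Fin n → Bool) : ℝ := ∏ k, if S k then sg (z k) else 1

lemma prod_uu {n : ℕ} (t : ℝ) (S z : Fin n → Bool) :
    ∏ k, uu t (z k) (S k) = chi S z * (t ^ wtB S)⁻¹ := by
  have : (t ^ wtB S)⁻¹ = ∏ k, if S k = true then t⁻¹ else 1 := by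
    rw [← Finset.prod_filter, Finset.prod_const, inv_pow, wtB]
  rw [this, chi, ← Finset.prod_mul_distrib]
  refine Finset.prod_congr rfl fun k _ => ?_
  unfold uu
  split_ifs <;> simp [div_eq_mul_inv]

section
variable {X : Type} [Fintype X] [DecidableEq X]

lemma sum_wt1 {n : ℕ} (σ : (Fin n → Bool) → ℝ) (x : Fin n → X) (y : Fin n → X → Bool) :
    ∑ z : Fin n → Bool, σ z * ∏ k, wt1 (y k) (x k) (z k)
      = (2 / (Fintype.card (X → Bool) : ℝ)) ^ n * σ (fun k => y k (x k)) := by
  rw [Finset.sum_eq_single (fun k => y k (x k))]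
  · simp only [wt1, if_true, Finset.prod_const, Finset.card_univ, Fintype.card_fin, mul_comm]
  · intro z _ hz
    obtain ⟨k, hk⟩ := Function.ne_iff.mp hz
    rw [Finset.prod_eq_zero (Finset.mem_univ k), mul_zero]
    simp [wt1, Ne.symm hk]
  · simp

lemma lower {ι : Type} [Fintype ι] [DecidableEq ι] (t : ℝ) (ht : 1 ≤ t)
    (hs : t ^ 4 ≤ 4 * (Fintype.card X : ℝ)) (n r : ℕ) (σ : (Fin n → Bool) → ℝ)
    (Q1 : ∀ S S', |∑ z, σ z * chi S z * chi S' z| ≤ 2 ^ n)
    (Q2 : ∀ p : (Fin n → Bool) → ℝ, (∀ S, r < wtB S → p S = 0) →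
      0 ≤ ∑ S, ∑ S', p S * p S' * ∑ z, σ z * chi S z * chi S' z)
    (B : (Fin n → X → Bool) → Matrix ι ι ℝ) (hB : ∀ y, (B y).PosSemidef) (κ : ℝ) (hκ0 : 0 < κ)
    (hκ : 8 ^ n * ∑ y, fro (B y) ≤ κ ^ 2 * t ^ (2 * r) * (Fintype.card (X → Bool) : ℝ) ^ n) :
    ∃ x : Fin n → X, ∀ v : ι → ℝ,
      0 ≤ ∑ y, σ (fun k => y k (x k)) * (∑ i, ∑ j, v i * v j * B y i j)
        + (Fintype.card (X → Bool) : ℝ) ^ n * κ * ∑ i, v i ^ 2 := by
  set N : ℝ := (Fintype.card (X → Bool) : ℝ) with hN
  have hc : (0 : ℝ) < N := by rw [hN]; exact_mod_cast Fintype.card_pos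
  have ht0 : 0 < t := by linarith
  have hX : Nonempty X := by
    rw [← Fintype.card_pos_iff]
    have : (0 : ℝ) < Fintype.card X := by
      have : 0 < t ^ 4 := by positivity
      linarith
    exact_mod_cast this
  obtain ⟨BB, g1, g2, g3⟩ := lift t ht hs n ι B hB
  obtain ⟨x, -, hx⟩ : ∃ x ∈ (Finset.univ : Finset (Fin n → X)),
      fro (BB x) ≤ (2 / N) ^ n * ∑ y, fro (B y) := by
    apply Finset.exists_le_of_sum_le Finset.univ_nonempty
    refine le_trans g3 (le_of_eq ?_)
    simp only [Finset.sum_const, Finset.card_univ, Fintype.card_pi, Finset.prod_const,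
      Fintype.card_fin, nsmul_eq_mul]
    push_cast
    rw [← mul_assoc, ← mul_pow]
    congr 2
    rw [hN]
    simp only [Fintype.card_pi, Finset.prod_const, Finset.card_univ]
    push_cast
    ring
  refine ⟨x, fun v => ?_⟩
  set V : ℝ := ∑ i, v i ^ 2 with hV
  have hV0 : 0 ≤ V := by rw [hV]; positivity
  let R : (Fin n → Bool) → (Fin n → Bool) → ℝ := fun S S' => ∑ i, ∑ j, v i * v j * BB x (S, i) (S', j)
  let Q : (Fin n → Bool) → (Fin n → Bool) → ℝ := fun S S' => ∑ z, σ z * chi S z * chi S' z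
  let w : (Fin n → Bool) → ℝ := fun S => (t ^ wtB S)⁻¹
  have main : (2 / N) ^ n * ∑ y, σ (fun k => y k (x k)) * (∑ i, ∑ j, v i * v j * B y i j)
      = ∑ S, ∑ S', w S * w S' * Q S S' * R S S' := by
    have a1 : ∀ z : Fin n → Bool,
        ∑ y, (∏ k, wt1 (y k) (x k) (z k)) * (∑ i, ∑ j, v i * v j * B y i j)
          = ∑ S, ∑ S', (chi S z * w S) * (chi S' z * w S') * R S S' := by
      intro z
      calc _ = ∑ i, ∑ j, v i * v j * ∑ y, (∏ k, wt1 (y k) (x k) (z k)) * B y i j := by
            simp only [Finset.mul_sum]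
            rw [Finset.sum_comm]
            refine Finset.sum_congr rfl fun i _ => ?_
            rw [Finset.sum_comm]
            exact Finset.sum_congr rfl fun j _ => Finset.sum_congr rfl fun y _ => by ring
        _ = ∑ i, ∑ j, ∑ S, ∑ S', (chi S z * w S) * (chi S' z * w S') * (v i * v j * BB x (S, i) (S', j)) := by
            refine Finset.sum_congr rfl fun i _ => Finset.sum_congr rfl fun j _ => ?_
            rw [g2 x z i j]
            simp only [Finset.mul_sum, prod_uu, w]
            exact Finset.sum_congr rfl fun S _ => Finset.sum_congr rfl fun S' _ => by ring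
        _ = _ := by
            simp only [R, Finset.mul_sum]
            rw [Finset.sum_comm]
            rw [Finset.sum_congr rfl fun j _ => Finset.sum_comm, Finset.sum_comm]
            refine Finset.sum_congr rfl fun S _ => ?_
            rw [Finset.sum_congr rfl fun j _ => Finset.sum_comm, Finset.sum_comm]
            refine Finset.sum_congr rfl fun S' _ => ?_
            rw [Finset.sum_comm]
    calc _ = ∑ y, ∑ z : Fin n → Bool, σ z * ((∏ k, wt1 (y k) (x k) (z k)) *
              (∑ i, ∑ j, v i * v j * B y i j)) := by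
            rw [Finset.mul_sum]
            refine Finset.sum_congr rfl fun y _ => ?_
            rw [← mul_assoc, ← sum_wt1 σ x y, Finset.sum_mul]
            exact Finset.sum_congr rfl fun z _ => by ring
      _ = ∑ z : Fin n → Bool, σ z * ∑ S, ∑ S', (chi S z * w S) * (chi S' z * w S') * R S S' := by
            rw [Finset.sum_comm]
            refine Finset.sum_congr rfl fun z _ => ?_
            rw [← Finset.mul_sum, a1 z]
      _ = _ := by
            simp only [Q, Finset.mul_sum, Finset.sum_mul]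
            rw [Finset.sum_comm]
            refine Finset.sum_congr rfl fun S _ => ?_
            rw [Finset.sum_comm]
            exact Finset.sum_congr rfl fun S' _ => Finset.sum_congr rfl fun z _ => by ring
  obtain ⟨C, hC⟩ := psd_gram (BB x) (g1 x)
  have low : 0 ≤ ∑ S, ∑ S', (if r < wtB S then 0 else w S) * (if r < wtB S' then 0 else w S')
      * Q S S' * R S S' := by
    have hR : ∀ S S', R S S' = ∑ k, (∑ i, v i * C k (S, i)) * (∑ j, v j * C k (S', j)) := by
      intro S S'
      simp only [R, hC, Finset.mul_sum, Finset.sum_mul]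
      rw [Finset.sum_congr rfl fun i _ => Finset.sum_comm, Finset.sum_comm]
      refine Finset.sum_congr rfl fun k _ => ?_
      rw [Finset.sum_comm]
      exact Finset.sum_congr rfl fun i _ => Finset.sum_congr rfl fun j _ => by ring
    have : ∑ S, ∑ S', (if r < wtB S then 0 else w S) * (if r < wtB S' then 0 else w S')
        * Q S S' * R S S' = ∑ k, ∑ S, ∑ S',
          ((if r < wtB S then 0 else w S) * ∑ i, v i * C k (S, i)) *
          ((if r < wtB S' then 0 else w S') * ∑ j, v j * C k (S', j)) * Q S S' := by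
      rw [Finset.sum_comm (s := (Finset.univ : Finset ((Fin n → Bool) × ι)))]
      refine Finset.sum_congr rfl fun S _ => ?_
      rw [Finset.sum_comm (s := (Finset.univ : Finset ((Fin n → Bool) × ι)))]
      refine Finset.sum_congr rfl fun S' _ => ?_
      rw [hR, Finset.mul_sum]
      exact Finset.sum_congr rfl fun k _ => by ring
    rw [this]
    refine Finset.sum_nonneg fun k _ => ?_
    exact Q2 (fun S => (if r < wtB S then 0 else w S) * ∑ i, v i * C k (S, i))
      (fun S hS => by simp [hS])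
  have hw0 : ∀ S, 0 ≤ w S := fun S => by simp only [w]; positivity
  have hw1 : ∀ S, w S ≤ 1 := fun S => inv_le_one_of_one_le₀ (one_le_pow₀ ht)
  have hw2 : ∀ S, r < wtB S → w S ≤ (t ^ r)⁻¹ := fun S hS =>
    inv_anti₀ (by positivity) (pow_le_pow_right₀ ht hS.le)
  have term : ∀ S S', (if r < wtB S then 0 else w S) * (if r < wtB S' then 0 else w S')
      * Q S S' * R S S' - (t ^ r)⁻¹ * 2 ^ n * |R S S'| ≤ w S * w S' * Q S S' * R S S' := by
    intro S S'
    have hQR : |Q S S' * R S S'| ≤ 2 ^ n * |R S S'| := by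
      rw [abs_mul]; exact mul_le_mul_of_nonneg_right (Q1 S S') (abs_nonneg _)
    have hpos : 0 ≤ (2 : ℝ) ^ n * |R S S'| := by positivity
    have hlow := neg_abs_le (Q S S' * R S S')
    have key : ∀ a : ℝ, 0 ≤ a → a ≤ (t ^ r)⁻¹ →
        - ((t ^ r)⁻¹ * 2 ^ n * |R S S'|) ≤ a * (Q S S' * R S S') := by
      intro a a0 a1
      have b1 : a * (-(2 ^ n * |R S S'|)) ≤ a * (Q S S' * R S S') :=
        mul_le_mul_of_nonneg_left (by linarith) a0
      have b2 : a * (2 ^ n * |R S S'|) ≤ (t ^ r)⁻¹ * (2 ^ n * |R S S'|) :=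
        mul_le_mul_of_nonneg_right a1 hpos
      linarith
    by_cases h1 : r < wtB S
    · have := key (w S * w S') (mul_nonneg (hw0 S) (hw0 S'))
        (le_trans (mul_le_of_le_one_right (hw0 S) (hw1 S')) (hw2 S h1))
      simp only [h1, if_true, zero_mul]
      linarith
    · by_cases h2 : r < wtB S'
      · have := key (w S * w S') (mul_nonneg (hw0 S) (hw0 S'))
          (le_trans (mul_le_of_le_one_left (hw0 S') (hw1 S)) (hw2 S' h2))
        simp only [h2, if_true, zero_mul, mul_zero]
        linarith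
      · simp only [h1, h2, if_false]
        have : 0 ≤ (t ^ r)⁻¹ * 2 ^ n * |R S S'| := by positivity
        linarith
  have hRsq : ∀ S S', R S S' ^ 2 ≤ V ^ 2 * ∑ i, ∑ j, BB x (S, i) (S', j) ^ 2 := by
    intro S S'
    have := Finset.sum_mul_sq_le_sq_mul_sq (Finset.univ : Finset (ι × ι))
      (fun p => v p.1 * v p.2) (fun p => BB x (S, p.1) (S', p.2))
    simp only [Fintype.sum_prod_type] at this
    refine le_trans this (le_of_eq ?_)
    congr 1
    rw [hV, sq, Finset.sum_mul_sum]
    exact Finset.sum_congr rfl fun i _ => Finset.sum_congr rfl fun j _ => by ring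
  have hsumR : ∑ S, ∑ S', |R S S'| ≤ κ * t ^ r * V := by
    apply abs_le_of_sq_le_sq' _ (by positivity) |>.2
    have c1 := Finset.sum_mul_sq_le_sq_mul_sq (Finset.univ : Finset ((Fin n → Bool) × (Fin n → Bool)))
      (fun _ => (1 : ℝ)) (fun p => |R p.1 p.2|)
    simp only [Fintype.sum_prod_type, one_mul, one_pow, sq_abs, Finset.sum_const, Finset.card_univ,
      Fintype.card_prod, Fintype.card_pi, Fintype.card_bool, Finset.prod_const, Fintype.card_fin, nsmul_eq_mul,
      mul_one] at c1
    have c2 : ∑ S, ∑ S', R S S' ^ 2 ≤ V ^ 2 * fro (BB x) := by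
      unfold fro
      simp only [Fintype.sum_prod_type]
      rw [Finset.mul_sum]
      refine Finset.sum_le_sum fun S _ => ?_
      rw [Finset.sum_comm, Finset.mul_sum]
      exact Finset.sum_le_sum fun S' _ => hRsq S S'
    have c3 : (4 : ℝ) ^ n * fro (BB x) ≤ κ ^ 2 * t ^ (2 * r) := by
      have : (4 : ℝ) ^ n * ((2 / N) ^ n * ∑ y, fro (B y)) = (8 ^ n * ∑ y, fro (B y)) / N ^ n := by
        rw [div_pow, show (8 : ℝ) = 4 * 2 by norm_num, mul_pow]
        field_simp
      calc _ ≤ (4 : ℝ) ^ n * ((2 / N) ^ n * ∑ y, fro (B y)) :=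
            mul_le_mul_of_nonneg_left hx (by positivity)
        _ = _ := this
        _ ≤ _ := by rw [div_le_iff₀ (by positivity)]; exact hκ
    push_cast at c1
    have c4 : (2 : ℝ) ^ n * 2 ^ n = 4 ^ n := by rw [← mul_pow]; norm_num
    rw [c4] at c1
    calc _ ≤ _ := c1
      _ ≤ 4 ^ n * (V ^ 2 * fro (BB x)) := mul_le_mul_of_nonneg_left c2 (by positivity)
      _ = V ^ 2 * (4 ^ n * fro (BB x)) := by ring
      _ ≤ V ^ 2 * (κ ^ 2 * t ^ (2 * r)) := mul_le_mul_of_nonneg_left c3 (by positivity)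
      _ = _ := by ring
  have tot : - (2 ^ n * κ * V) ≤ ∑ S, ∑ S', w S * w S' * Q S S' * R S S' := by
    have d1 := Finset.sum_le_sum fun S (_ : S ∈ Finset.univ) =>
      Finset.sum_le_sum fun S' (_ : S' ∈ Finset.univ) => term S S'
    simp only [Finset.sum_sub_distrib, ← Finset.mul_sum] at d1
    have d2 : (t ^ r)⁻¹ * 2 ^ n * ∑ S, ∑ S', |R S S'| ≤ (t ^ r)⁻¹ * 2 ^ n * (κ * t ^ r * V) :=
      mul_le_mul_of_nonneg_left hsumR (by positivity)
    have d3 : (t ^ r)⁻¹ * 2 ^ n * (κ * t ^ r * V) = 2 ^ n * κ * V := by field_simp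
    linarith
  rw [← main] at tot
  have hp : 0 < (2 / N) ^ n := by positivity
  have : (2 / N) ^ n * (N ^ n * κ * V) = 2 ^ n * κ * V := by
    rw [div_pow]; field_simp
  apply le_of_mul_le_mul_left _ hp
  rw [mul_add, this]
  linarith

/-- the core lower bound -/
lemma core {ι : Type} [Fintype ι] [DecidableEq ι] (t : ℝ) (ht : 1 ≤ t)
    (hs : t ^ 4 ≤ 4 * (Fintype.card X : ℝ)) (n r : ℕ) (σ f : (Fin n → Bool) → ℝ) (D : ℝ) (hD : 1 ≤ D)
    (Q1 : ∀ S S', |∑ z, σ z * chi S z * chi S' z| ≤ 2 ^ n)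
    (Q2 : ∀ p : (Fin n → Bool) → ℝ, (∀ S, r < wtB S → p S = 0) →
      0 ≤ ∑ S, ∑ S', p S * p S' * ∑ z, σ z * chi S z * chi S' z)
    (hσ : ∀ z, |σ z| ≤ 2 ^ n) (h1 : ∑ z, σ z = 2 ^ n) (hf : ∀ z, |f z| ≤ D)
    (hσf : ∑ z, σ z * f z ≤ - 2 ^ n)
    (Y : (Fin n → X → Bool) → Matrix ι ι ℝ) (hY : ∀ y, (Y y).PosSemidef)
    (hstar : ∀ (x : Fin n → X) (c : (Fin n → X → Bool) → ℝ), 0 < ∑ y, c y →
      (∑ y, c y • Y y).PosSemidef → 0 ≤ ∑ y, c y * f (fun k => y k (x k))) :
    t ^ (2 * r) < 2 ^ (4 * n + 4) * D ^ 3 * ((Fintype.card ι : ℝ) + 1) ^ 2 := by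
  by_contra hcon
  rw [not_lt] at hcon
  set N : ℝ := (Fintype.card (X → Bool) : ℝ) with hN
  have hc : (0 : ℝ) < N := by rw [hN]; exact_mod_cast Fintype.card_pos
  set m : ℝ := (Fintype.card ι : ℝ) + 1 with hm
  have hm0 : 0 < m := by rw [hm]; positivity
  have hD0 : 0 < D := by linarith
  have hW : 0 < N ^ n := by positivity
  have hcard : ((Fintype.card (Fin n → X → Bool) : ℕ) : ℝ) = N ^ n := by
    rw [hN, Fintype.card_pi]
    simp only [Finset.prod_const, Finset.card_univ, Fintype.card_fin]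
    push_cast
    rfl
  obtain ⟨H, B, pB, eY, eH, trB⟩ := normalise Y hY
  have trB' : ∑ y, trace (B y) ≤ m := by rw [hm]; linarith
  set T : ℝ := 2 ^ (n + 2) * D * m / N ^ n with hT
  have hT0 : 0 < T := by rw [hT]; positivity
  have tr0 : ∀ y, 0 ≤ trace (B y) := fun y => (pB y).trace_nonneg
  let gd : (Fin n → X → Bool) → ℝ := fun y => if trace (B y) ≤ T then 1 else 0
  have gd0 : ∀ y, 0 ≤ gd y := fun y => by simp only [gd]; split_ifs <;> norm_num
  have gd1 : ∀ y, 0 ≤ 1 - gd y := fun y => by simp only [gd]; split_ifs <;> norm_num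
  have bad : 2 ^ (n + 2) * D * ∑ y, (1 - gd y) ≤ N ^ n := by
    have : T * ∑ y, (1 - gd y) ≤ m := by
      refine le_trans ?_ trB'
      rw [Finset.mul_sum]
      refine Finset.sum_le_sum fun y _ => ?_
      simp only [gd]
      split_ifs with h
      · simpa using tr0 y
      · simpa using (not_le.mp h).le
    rw [hT, div_mul_eq_mul_div, div_le_iff₀ hW] at this
    apply le_of_mul_le_mul_left _ hm0
    linarith
  set κ : ℝ := 1 / (2 * D) with hκ
  have hκ0 : 0 < κ := by rw [hκ]; positivity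
  obtain ⟨x, hx⟩ := lower t ht hs n r σ Q1 Q2 (fun y => gd y • B y) (fun y => (pB y).smul (gd0 y))
    (κ / N ^ n) (by positivity) (by
      have e1 : ∑ y, fro (gd y • B y) ≤ T * m := by
        refine le_trans ?_ (mul_le_mul_of_nonneg_left trB' hT0.le)
        rw [Finset.mul_sum]
        refine Finset.sum_le_sum fun y _ => ?_
        rw [fro_smul]
        simp only [gd]
        split_ifs with h
        · have := fro_le_trace_sq (B y) (pB y)
          nlinarith [tr0 y]
        · have := tr0 y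
          simp only [ne_eq, OfNat.ofNat_ne_zero, not_false_eq_true, zero_pow, zero_mul]
          positivity
      refine le_trans (mul_le_mul_of_nonneg_left e1 (by positivity)) ?_
      refine le_trans (le_of_eq ?_) (mul_le_mul_of_nonneg_right
        (mul_le_mul_of_nonneg_left hcon (by positivity)) hW.le)
      rw [hT, hκ, show (8 : ℝ) = 2 ^ 3 by norm_num, ← pow_mul]
      field_simp
      ring)
  have avg : ∀ F : (Fin n → Bool) → ℝ,
      (2 / N) ^ n * ∑ y : Fin n → X → Bool, F (fun k => y k (x k)) = ∑ z, F z := by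
    intro F
    rw [Finset.mul_sum]
    simp only [hN, ← sum_wt1 F x]
    rw [Finset.sum_comm]
    refine Finset.sum_congr rfl fun z _ => ?_
    rw [← Finset.mul_sum]
    have : ∑ y : Fin n → X → Bool, ∏ k, wt1 (y k) (x k) (z k) = 1 := by
      rw [← Fintype.prod_sum (f := fun k (y : X → Bool) => wt1 y (x k) (z k))]
      refine Finset.prod_eq_one fun k _ => ?_
      have h0 := sum_sg_mul (x k) (fun _ => sg (z k)) (fun _ => rfl)
      have : ∀ y : X → Bool, wt1 y (x k) (z k) = (1 + sg (y (x k)) * sg (z k)) / N := by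
        intro y
        unfold wt1 sg
        rw [← hN]
        cases y (x k) <;> cases z k <;> simp <;> norm_num
      simp only [this]
      rw [← Finset.sum_div, Finset.sum_add_distrib, h0]
      simp only [Finset.sum_const, Finset.card_univ, nsmul_eq_mul, mul_one, add_zero, ← hN]
      field_simp
    rw [this, mul_one]
  have avg' : ∀ F : (Fin n → Bool) → ℝ,
      2 ^ n * ∑ y : Fin n → X → Bool, F (fun k => y k (x k)) = N ^ n * ∑ z, F z := by
    intro F
    rw [← avg F, div_pow]
    field_simp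
  have p2 : (0 : ℝ) < 2 ^ n := by positivity
  have s1 : ∑ y : Fin n → X → Bool, σ (fun k => y k (x k)) = N ^ n := by
    have := avg' σ
    rw [h1] at this
    apply mul_left_cancel₀ p2.ne'
    linarith
  have s2 : ∑ y : Fin n → X → Bool, σ (fun k => y k (x k)) * f (fun k => y k (x k)) ≤ - N ^ n := by
    have := avg' (fun z => σ z * f z)
    have h2 := mul_le_mul_of_nonneg_left hσf hW.le
    apply le_of_mul_le_mul_left _ p2
    linarith
  have p4 : (2 : ℝ) ^ (n + 2) = 4 * 2 ^ n := by ring
  set bd : ℝ := ∑ y, (1 - gd y) with hbd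
  have bd0 : 0 ≤ bd := Finset.sum_nonneg fun y _ => gd1 y
  have := hstar x (fun y => σ (fun k => y k (x k)) * gd y + κ) ?_ ?_
  · have u1 : ∑ y : Fin n → X → Bool, (σ (fun k => y k (x k)) * gd y + κ) * f (fun k => y k (x k))
        ≤ ∑ y : Fin n → X → Bool, (σ (fun k => y k (x k)) * f (fun k => y k (x k))
          + 2 ^ n * D * (1 - gd y) + 1 / 2) := by
      refine Finset.sum_le_sum fun y _ => ?_
      have a1 : |σ (fun k => y k (x k)) * f (fun k => y k (x k))| ≤ 2 ^ n * D := by
        rw [abs_mul]; exact mul_le_mul (hσ _) (hf _) (abs_nonneg _) p2.le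
      have a2 := mul_le_mul_of_nonneg_right (neg_le_of_abs_le a1) (gd1 y)
      have a3 : κ * f (fun k => y k (x k)) ≤ 1 / 2 := by
        have := mul_le_mul_of_nonneg_left (le_of_abs_le (hf (fun k => y k (x k)))) hκ0.le
        refine le_trans this (le_of_eq ?_)
        rw [hκ]; field_simp
      nlinarith
    rw [Finset.sum_add_distrib, Finset.sum_add_distrib, ← Finset.mul_sum, ← hbd] at u1
    simp only [Finset.sum_const, Finset.card_univ, nsmul_eq_mul, hcard] at u1
    rw [p4] at bad
    linarith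
  · have u1 : ∑ y : Fin n → X → Bool, (σ (fun k => y k (x k)) - 2 ^ n * (1 - gd y))
        ≤ ∑ y : Fin n → X → Bool, (σ (fun k => y k (x k)) * gd y + κ) := by
      refine Finset.sum_le_sum fun y _ => ?_
      have a2 := mul_le_mul_of_nonneg_right (le_of_abs_le (hσ (fun k => y k (x k)))) (gd1 y)
      nlinarith
    rw [Finset.sum_sub_distrib, ← Finset.mul_sum, ← hbd, s1] at u1
    rw [p4] at bad
    have : 2 ^ n * bd ≤ 2 ^ n * bd * D := le_mul_of_one_le_right (by positivity) hD
    nlinarith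
  · have e : ∑ y : Fin n → X → Bool, (σ (fun k => y k (x k)) * gd y + κ) • Y y
        = Hᵀᵀ * (∑ y : Fin n → X → Bool, (σ (fun k => y k (x k)) * gd y) • B y + κ • (1 : Matrix ι ι ℝ)) * Hᵀ := by
      rw [Matrix.transpose_transpose, Matrix.mul_add, Matrix.add_mul, Matrix.mul_smul, Matrix.mul_one,
        Matrix.smul_mul, eH, Matrix.mul_sum, Matrix.sum_mul, Finset.smul_sum, ← Finset.sum_add_distrib]
      refine Finset.sum_congr rfl fun y _ => ?_
      rw [add_smul, Matrix.mul_smul, Matrix.smul_mul, ← eY y]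
    rw [e]
    apply psd_conj
    apply PosSemidef.of_dotProduct_mulVec_nonneg
    · ext i j
      simp only [Matrix.conjTranspose_apply, star_trivial, Matrix.add_apply, Matrix.sum_apply,
        Matrix.smul_apply, Matrix.one_apply, smul_eq_mul]
      congr 1
      · refine Finset.sum_congr rfl fun y _ => ?_
        rw [← congrFun (congrFun (psd_symm _ (pB y)) i) j, Matrix.transpose_apply]
      · simp only [eq_comm]
    · intro v
      refine le_trans (hx v) (le_of_eq ?_)
      have : N ^ n * (κ / N ^ n) = κ := by field_simp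
      rw [this, Matrix.add_mulVec, dotProduct_add]
      congr 1
      · simp only [dotProduct, Matrix.mulVec, star_trivial, Matrix.sum_apply, Matrix.smul_apply,
          smul_eq_mul, Finset.mul_sum, Finset.sum_mul]
        rw [Finset.sum_comm]
        refine Finset.sum_congr rfl fun i _ => ?_
        rw [Finset.sum_comm]
        exact Finset.sum_congr rfl fun j _ => Finset.sum_congr rfl fun y _ => by ring
      · simp only [Matrix.smul_mulVec, Matrix.one_mulVec, dotProduct, star_trivial, Pi.smul_apply,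
          smul_eq_mul, Finset.mul_sum]
        exact Finset.sum_congr rfl fun i _ => by ring

end

end Pool.Agent.Lib.MP_8a52c3_lc.H91S
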