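import Mathlib

open Matrix Finset
open scoped symmDiff

namespace Pool.Agent.Lib.MP_8a52c3_lc.H91S

lemma normal_eq {μ ν : Type} [Fintype μ] [Fintype ν] [DecidableEq μ] [DecidableEq ν]
    (A : μ → ν → ℝ) (p : μ → ℝ) :
    ∃ q : ν → ℝ, ∀ T, ∑ S, A S T * (p S - ∑ T', A S T' * q T') = 0 := by
  let L : EuclideanSpace ℝ ν →ₗ[ℝ] EuclideanSpace ℝ μ := Matrix.toEuclideanLin (Matrix.of A)
  obtain ⟨y, hy, z, hz, e⟩ := (LinearMap.range L).exists_add_mem_mem_orthogonal (WithLp.toLp 2 p)
  obtain ⟨q, rfl⟩ := hy
  refine ⟨q.ofLp, fun T => ?_⟩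
  have h1 := (Submodule.mem_orthogonal _ _).mp hz (L (WithLp.toLp 2 (Pi.single T 1))) ⟨_, rfl⟩
  have h2 : ∀ S, p S - ∑ T', A S T' * q.ofLp T' = z.ofLp S := by
    intro S
    have := congrArg (fun v : EuclideanSpace ℝ μ => v.ofLp S) e
    simp only [L, Matrix.toEuclideanLin, WithLp.ofLp_add, Pi.add_apply, Matrix.toLpLin_apply,
      Matrix.mulVec, dotProduct, Matrix.of_apply] at this
    linarith
  simp only [h2]
  rw [← h1, PiLp.inner_apply]
  refine Finset.sum_congr rfl fun S _ => ?_
  simp [L, Matrix.toEuclideanLin, Matrix.toLpLin_apply, mul_comm]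

section
variable {α : Type} [Fintype α] [DecidableEq α]

/-- covering relation of the Boolean lattice -/
def cov (S T : Finset α) : ℝ := ∑ i, if i ∉ T ∧ S = insert i T then 1 else 0

lemma sum_cov_up (T : Finset α) (F : Finset α → ℝ) :
    ∑ S, cov S T * F S = ∑ i, if i ∉ T then F (insert i T) else 0 := by
  simp only [cov, Finset.sum_mul]
  rw [Finset.sum_comm]
  refine Finset.sum_congr rfl fun i _ => ?_
  by_cases hi : i ∈ T
  · simp [hi]
  · simp [hi]

lemma sum_cov_down (S : Finset α) (F : Finset α → ℝ) :
    ∑ T, cov S T * F T = ∑ i, if i ∈ S then F (S.erase i) else 0 := by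
  simp only [cov, Finset.sum_mul]
  rw [Finset.sum_comm]
  refine Finset.sum_congr rfl fun i _ => ?_
  have : ∀ T : Finset α, (i ∉ T ∧ S = insert i T) ↔ (i ∈ S ∧ T = S.erase i) := by
    intro T
    constructor
    · rintro ⟨h1, rfl⟩
      exact ⟨Finset.mem_insert_self _ _, (Finset.erase_insert h1).symm⟩
    · rintro ⟨h1, rfl⟩
      exact ⟨Finset.notMem_erase _ _, (Finset.insert_erase h1).symm⟩
  simp only [this]
  by_cases hi : i ∈ S
  · simp [hi]
  · simp [hi]

lemma cov_eq_zero {S T : Finset α} (h : S.card ≠ T.card + 1) : cov S T = 0 := by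
  refine Finset.sum_eq_zero fun i _ => ?_
  rw [if_neg]
  rintro ⟨h1, rfl⟩
  exact h (Finset.card_insert_of_notMem h1)

omit [Fintype α] in
lemma card_symmDiff_add (S T : Finset α) : (S ∆ T).card + 2 * (S ∩ T).card = S.card + T.card := by
  have h1 := Finset.card_sdiff_add_card_inter S T
  have h2 := Finset.card_sdiff_add_card_inter T S
  rw [Finset.inter_comm T S] at h2
  have : (S ∆ T).card = (S \ T).card + (T \ S).card := by
    rw [symmDiff_def, Finset.sup_eq_union, Finset.card_union_of_disjoint disjoint_sdiff_sdiff]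
  omega

lemma radical (a : ℕ → ℝ) (T S' : Finset α)
    (hrec : ((T ∆ S').card : ℝ) * a ((T ∆ S').card - 1)
      + ((Fintype.card α : ℝ) - (T ∆ S').card) * a ((T ∆ S').card + 1) = 0) :
    ∑ S, (cov S T + cov T S) * a (S ∆ S').card = 0 := by
  simp only [add_mul, Finset.sum_add_distrib]
  rw [sum_cov_up, sum_cov_down, ← Finset.sum_add_distrib]
  refine Eq.trans ?_ hrec
  have : ∀ i, ((if i ∉ T then a ((insert i T) ∆ S').card else 0)
      + if i ∈ T then a ((T.erase i) ∆ S').card else 0)
      = if i ∈ T ∆ S' then a ((T ∆ S').card - 1) else a ((T ∆ S').card + 1) := by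
    intro i
    by_cases h1 : i ∈ T <;> by_cases h2 : i ∈ S'
    · have m : i ∉ T ∆ S' := by simp [Finset.mem_symmDiff, h1, h2]
      have e : (T.erase i) ∆ S' = insert i (T ∆ S') := by
        ext j; by_cases hj : j = i <;> simp [Finset.mem_symmDiff, hj, h1, h2]
      simp [h1, m, e, Finset.card_insert_of_notMem m]
    · have m : i ∈ T ∆ S' := by simp [Finset.mem_symmDiff, h1, h2]
      have e : (T.erase i) ∆ S' = (T ∆ S').erase i := by
        ext j; by_cases hj : j = i <;> simp [Finset.mem_symmDiff, hj, h2]
      simp [h1, m, e, Finset.card_erase_of_mem m]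
    · have m : i ∈ T ∆ S' := by simp [Finset.mem_symmDiff, h1, h2]
      have e : (insert i T) ∆ S' = (T ∆ S').erase i := by
        ext j; by_cases hj : j = i <;> simp [Finset.mem_symmDiff, hj, h2]
      simp [h1, m, e, Finset.card_erase_of_mem m]
    · have m : i ∉ T ∆ S' := by simp [Finset.mem_symmDiff, h1, h2]
      have e : (insert i T) ∆ S' = insert i (T ∆ S') := by
        ext j; by_cases hj : j = i <;> simp [Finset.mem_symmDiff, hj, h2]
      simp [h1, m, e, Finset.card_insert_of_notMem m]
  rw [Finset.sum_congr rfl fun i _ => this i]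
  rw [Finset.sum_ite, Finset.sum_const, Finset.sum_const, nsmul_eq_mul, nsmul_eq_mul]
  have c1 : (Finset.univ.filter fun i => i ∈ T ∆ S') = T ∆ S' := by ext; simp
  have c2 : (Finset.univ.filter fun i => i ∉ T ∆ S') = (T ∆ S')ᶜ := by
    ext; simp only [Finset.mem_filter, Finset.mem_univ, true_and, Finset.mem_compl]
  rw [c1, c2, Finset.card_compl, Nat.cast_sub (Finset.card_le_univ _)]

lemma harm_sup (j : ℕ) (h : Finset α → ℝ) (hs : ∀ S, S.card ≠ j → h S = 0)
    (hD : ∀ T, ∑ S, cov S T * h S = 0) (A : Finset α) :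
    ∑ S, (if A ⊆ S then h S else 0) = h A := by
  by_cases hA : A.card < j
  · rw [hs A hA.ne]
    have e1 : ∑ T, (if A ⊆ T then (1 : ℝ) else 0) * ∑ S, cov S T * h S = 0 := by simp [hD]
    have e2 : ∑ T, (if A ⊆ T then (1 : ℝ) else 0) * ∑ S, cov S T * h S
        = ((j : ℝ) - A.card) * ∑ S, (if A ⊆ S then h S else 0) := by
      simp only [Finset.mul_sum]
      rw [Finset.sum_comm]
      refine Finset.sum_congr rfl fun S _ => ?_
      have : ∑ T, (if A ⊆ T then (1 : ℝ) else 0) * (cov S T * h S)
          = (∑ T, cov S T * (if A ⊆ T then (1 : ℝ) else 0)) * h S := by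
        rw [Finset.sum_mul]
        exact Finset.sum_congr rfl fun T _ => by ring
      rw [this, sum_cov_down]
      by_cases hS : S.card = j
      · by_cases hAS : A ⊆ S
        · have : ∀ i, (if i ∈ S then (if A ⊆ S.erase i then (1 : ℝ) else 0) else 0)
              = if i ∈ S \ A then 1 else 0 := by
            intro i
            by_cases h1 : i ∈ S <;> by_cases h2 : i ∈ A <;> simp [Finset.subset_erase, h1, h2, hAS]
          simp only [this, hAS, if_true]
          rw [Finset.sum_ite_mem, Finset.univ_inter, Finset.sum_const, nsmul_eq_mul, mul_one,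
            Finset.card_sdiff_of_subset hAS, Nat.cast_sub (Finset.card_le_card hAS), hS]
        · simp [Finset.subset_erase, hAS]
      · simp [hs S hS]
    rw [e2] at e1
    have : (j : ℝ) - A.card ≠ 0 := by
      have : (A.card : ℝ) < j := by exact_mod_cast hA
      linarith
    exact (mul_eq_zero.mp e1).resolve_left this
  · rw [Finset.sum_eq_single A]
    · simp
    · intro S _ hS
      split_ifs with hAS
      · apply hs
        have := Finset.card_lt_card (Finset.ssubset_iff_subset_ne.mpr ⟨hAS, hS.symm⟩)
        omega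
      · rfl
    · simp

lemma harm_phi (j : ℕ) (h : Finset α → ℝ) (hs : ∀ S, S.card ≠ j → h S = 0)
    (hD : ∀ T, ∑ S, cov S T * h S = 0) (φ : ℕ → ℝ) (S' : Finset α) :
    ∑ S, h S * φ (S ∩ S').card
      = (fwdDiff 1)^[j] φ 0 * ∑ A, (if A ⊆ S' then h A else 0) := by
  have e1 : ∀ S : Finset α, φ (S ∩ S').card
      = ∑ A : Finset α, if A ⊆ S ∧ A ⊆ S' then (fwdDiff 1)^[A.card] φ 0 else 0 := by
    intro S
    have := shift_eq_sum_fwdDiff_iter (1 : ℕ) φ (S ∩ S').card 0
    rw [← Finset.sum_powerset_apply_card (fun k => (fwdDiff 1)^[k] φ 0)] at this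
    simp only [zero_add, smul_eq_mul, mul_one] at this
    rw [this, ← Finset.sum_filter]
    refine Finset.sum_congr ?_ fun _ _ => rfl
    ext A
    simp only [Finset.mem_powerset, Finset.subset_inter_iff, Finset.mem_filter, Finset.mem_univ,
      true_and]
  simp only [e1, Finset.mul_sum]
  rw [Finset.sum_comm]
  refine Finset.sum_congr rfl fun A _ => ?_
  by_cases hA : A ⊆ S'
  · simp only [hA, and_true, if_true]
    have : ∑ S, h S * (if A ⊆ S then (fwdDiff 1)^[A.card] φ 0 else 0)
        = (fwdDiff 1)^[A.card] φ 0 * ∑ S, (if A ⊆ S then h S else 0) := by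
      rw [Finset.mul_sum]
      refine Finset.sum_congr rfl fun S _ => ?_
      split_ifs <;> ring
    rw [this, harm_sup j h hs hD A]
    by_cases hj : A.card = j
    · rw [hj]
    · simp [hs A hj]
  · simp [hA]

/-- the moment form -/
def Qf (a : ℕ → ℝ) (p q : Finset α → ℝ) : ℝ := ∑ S, ∑ S', p S * q S' * a (S ∆ S').card

lemma Qf_comm (a : ℕ → ℝ) (p q : Finset α → ℝ) : Qf a p q = Qf a q p := by
  unfold Qf
  rw [Finset.sum_comm]
  refine Finset.sum_congr rfl fun S _ => Finset.sum_congr rfl fun S' _ => ?_
  rw [symmDiff_comm]; ring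

lemma Qf_add (a : ℕ → ℝ) (p p' q : Finset α → ℝ) :
    Qf a (fun S => p S + p' S) q = Qf a p q + Qf a p' q := by
  unfold Qf
  simp only [add_mul, Finset.sum_add_distrib]

lemma Qf_harm (a : ℕ → ℝ) (j : ℕ) (h : Finset α → ℝ) (hs : ∀ S, S.card ≠ j → h S = 0)
    (hD : ∀ T, ∑ S, cov S T * h S = 0) (q : Finset α → ℝ) :
    Qf a h q = ∑ S', q S' * ((fwdDiff 1)^[j] (fun i => a (j + S'.card - 2 * i)) 0
      * ∑ A, (if A ⊆ S' then h A else 0)) := by
  unfold Qf
  rw [Finset.sum_comm]
  refine Finset.sum_congr rfl fun S' _ => ?_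
  rw [← harm_phi j h hs hD, Finset.mul_sum]
  refine Finset.sum_congr rfl fun S _ => ?_
  by_cases hS : S.card = j
  · have := card_symmDiff_add S S'
    have e : (S ∆ S').card = j + S'.card - 2 * (S ∩ S').card := by omega
    rw [e]; ring
  · simp [hs S hS]

lemma moment_psd (a : ℕ → ℝ) (R : ℕ)
    (hrec : ∀ k, k < 2 * R → (k : ℝ) * a (k - 1) + ((Fintype.card α : ℝ) - k) * a (k + 1) = 0)
    (hsign : ∀ i, i ≤ R → 0 ≤ (-1 : ℝ) ^ i * a (2 * i)) (r : ℕ) (hr : r ≤ R + 1) :
    ∀ p : Finset α → ℝ, (∀ S, r ≤ S.card → p S = 0) → 0 ≤ Qf a p p := by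
  induction r with
  | zero =>
    intro p hp
    simp [Qf, hp]
  | succ r ih =>
    intro p hp
    obtain ⟨q, hq⟩ := normal_eq (fun S T : Finset α => if S.card = r then cov S T else 0)
      (fun S => if S.card = r then p S else 0)
    let q' : Finset α → ℝ := fun T => if T.card + 1 = r then q T else 0
    let h : Finset α → ℝ := fun S => (if S.card = r then p S else 0) - ∑ T, cov S T * q' T
    have eq' : ∀ S, ∑ T, (if S.card = r then cov S T else 0) * q T = ∑ T, cov S T * q' T := by
      intro S
      refine Finset.sum_congr rfl fun T _ => ?_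
      by_cases hc : S.card = T.card + 1
      · by_cases h1 : S.card = r
        · have : T.card + 1 = r := by omega
          simp [q', h1, this]
        · have : ¬ T.card + 1 = r := by omega
          simp [q', h1, this]
      · simp [cov_eq_zero hc]
    have hs : ∀ S, S.card ≠ r → h S = 0 := by
      intro S hS
      simp only [h, ← eq', hS, if_false]
      simp
    have hD : ∀ T, ∑ S, cov S T * h S = 0 := by
      intro T
      rw [← hq T]
      refine Finset.sum_congr rfl fun S _ => ?_
      by_cases hS : S.card = r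
      · simp only [h, ← eq', hS, if_true]
      · rw [hs S hS]; simp [hS]
    let ρ : Finset α → ℝ := fun S => ∑ T, (cov S T + cov T S) * q' T
    let p' : Finset α → ℝ := fun S => (if S.card = r then 0 else p S) - ∑ T, cov T S * q' T
    have hp' : ∀ S, r ≤ S.card → p' S = 0 := by
      intro S hS
      have e1 : (if S.card = r then 0 else p S) = 0 := by
        split_ifs with h1
        · rfl
        · exact hp S (by omega)
      have e2 : ∑ T, cov T S * q' T = 0 := by
        refine Finset.sum_eq_zero fun T _ => ?_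
        by_cases hc : T.card = S.card + 1
        · have : ¬ T.card + 1 = r := by omega
          simp [q', this]
        · simp [cov_eq_zero hc]
      simp only [p', e1, e2, sub_zero]
    have dec : p = fun S => (h S + p' S) + ρ S := by
      funext S
      simp only [h, p', ρ, add_mul, Finset.sum_add_distrib]
      split_ifs <;> ring
    have rad : ∀ w : Finset α → ℝ, (∀ S, r < S.card → w S = 0) → Qf a ρ w = 0 := by
      intro w hw
      unfold Qf
      rw [Finset.sum_comm]
      refine Finset.sum_eq_zero fun S' _ => ?_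
      by_cases hS' : r < S'.card
      · simp [hw S' hS']
      have : ∑ S, ρ S * w S' * a (S ∆ S').card
          = ∑ T, q' T * w S' * ∑ S, (cov S T + cov T S) * a (S ∆ S').card := by
        simp only [ρ, Finset.sum_mul, Finset.mul_sum]
        rw [Finset.sum_comm]
        exact Finset.sum_congr rfl fun T _ => Finset.sum_congr rfl fun S _ => by ring
      rw [this]
      refine Finset.sum_eq_zero fun T _ => ?_
      by_cases hT : T.card + 1 = r
      · rw [radical a T S' (hrec _ ?_), mul_zero]
        have := card_symmDiff_add T S'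
        omega
      · simp [q', hT]
    have hw1 : ∀ S, r < S.card → p S = 0 := fun S hS => hp S hS
    have hw2 : ∀ S, r < S.card → h S + p' S = 0 := fun S hS => by
      rw [hs S hS.ne', hp' S hS.le, add_zero]
    have e1 : Qf a p p = Qf a (fun S => h S + p' S) (fun S => h S + p' S) := by
      calc Qf a p p = Qf a (fun S => (h S + p' S) + ρ S) p := by rw [← dec]
        _ = Qf a (fun S => h S + p' S) p := by
          rw [Qf_add a (fun S => h S + p' S) ρ p, rad p hw1, add_zero]
        _ = Qf a p (fun S => h S + p' S) := Qf_comm _ _ _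
        _ = Qf a (fun S => (h S + p' S) + ρ S) (fun S => h S + p' S) := by rw [← dec]
        _ = _ := by rw [Qf_add a (fun S => h S + p' S) ρ, rad _ hw2, add_zero]
    have e2 : Qf a h p' = 0 := by
      rw [Qf_harm a r h hs hD]
      refine Finset.sum_eq_zero fun S' _ => ?_
      by_cases hS' : r ≤ S'.card
      · simp [hp' S' hS']
      · have : ∑ A, (if A ⊆ S' then h A else 0) = 0 := by
          refine Finset.sum_eq_zero fun A _ => ?_
          split_ifs with hA
          · apply hs
            have := Finset.card_le_card hA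
            omega
          · rfl
        rw [this]; simp
    have e3 : 0 ≤ Qf a h h := by
      rw [Qf_harm a r h hs hD]
      refine Finset.sum_nonneg fun S' _ => ?_
      by_cases hS' : S'.card = r
      · have : ∑ A, (if A ⊆ S' then h A else 0) = h S' := by
          rw [Finset.sum_eq_single S']
          · simp
          · intro A _ hA
            split_ifs with hAS
            · apply hs
              have := Finset.card_lt_card (Finset.ssubset_iff_subset_ne.mpr ⟨hAS, hA⟩)
              omega
            · rfl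
          · simp
        rw [this, hS']
        have c : 0 ≤ (fwdDiff 1)^[r] (fun i => a (r + r - 2 * i)) 0 := by
          rw [fwdDiff_iter_eq_sum_shift]
          refine Finset.sum_nonneg fun k hk => ?_
          have hk' : k ≤ r := by simpa [Nat.lt_succ_iff] using hk
          have e : r + r - 2 * (0 + k • 1) = 2 * (r - k) := by simp; omega
          rw [e, zsmul_eq_mul]
          push_cast
          have := hsign (r - k) (by omega)
          have c0 : (0 : ℝ) ≤ (r.choose k : ℝ) := by positivity
          nlinarith [mul_nonneg this c0]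
        nlinarith [mul_nonneg c (mul_self_nonneg (h S'))]
      · simp [hs S' hS']
    rw [e1, Qf_add, Qf_comm a h, Qf_comm a p', Qf_add, Qf_add, Qf_comm a p' h, e2]
    have := ih (by omega) p' hp'
    linarith

end

end Pool.Agent.Lib.MP_8a52c3_lc.H91S
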