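import Pool.Agent.Lib.MP_8a52c3_lc.H91SC
import Pool.Agent.Lib.MP_8a52c3_lc.H91SD

open Matrix Finset
open scoped symmDiff

namespace Pool.Agent.Lib.MP_8a52c3_lc.H91S

/-- Grigoriev-Laurent pseudo-moments -/
noncomputable def aa (n : ℕ) : ℕ → ℝ
  | 0 => 1
  | 1 => 0
  | (k + 2) => - aa n k * ((k : ℝ) + 1) / ((n : ℝ) - k - 1)

/-- truncated pseudo-moments -/
noncomputable def at2 (n r k : ℕ) : ℝ := if k ≤ 2 * r then aa n k else 0

/-- pseudo-density -/
noncomputable def sig (n r : ℕ) (z : Fin n → Bool) : ℝ := ∑ T, at2 n r (wtB T) * chi T z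

lemma aa_abs (n r : ℕ) (h : 4 * r ≤ n) : ∀ k, k ≤ 2 * r → |aa n k| ≤ 1
  | 0, _ => by simp [aa]
  | 1, _ => by simp [aa]
  | (k + 2), hk => by
    have ih := aa_abs n r h k (by omega)
    have h1 : (k : ℝ) + 1 ≤ (n : ℝ) - k - 1 := by
      have : 2 * k + 2 ≤ n := by omega
      have : ((2 * k + 2 : ℕ) : ℝ) ≤ n := by exact_mod_cast this
      push_cast at this
      linarith
    have h0 : (0 : ℝ) < (k : ℝ) + 1 := by positivity
    rw [aa, abs_div, abs_mul, abs_neg, abs_of_pos h0, abs_of_pos (lt_of_lt_of_le h0 h1),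
      div_le_one (lt_of_lt_of_le h0 h1)]
    nlinarith [abs_nonneg (aa n k)]

lemma at2_abs (n r : ℕ) (h : 4 * r ≤ n) (k : ℕ) : |at2 n r k| ≤ 1 := by
  unfold at2
  split_ifs with hk
  · exact aa_abs n r h k hk
  · simp

lemma aa_sign (n r : ℕ) (h : 4 * r ≤ n) : ∀ i, i ≤ r → 0 ≤ (-1 : ℝ) ^ i * aa n (2 * i)
  | 0, _ => by simp [aa]
  | (i + 1), hi => by
    have ih := aa_sign n r h i (by omega)
    have h1 : (0 : ℝ) < (n : ℝ) - (2 * i : ℕ) - 1 := by
      have : 2 * i + 2 ≤ n := by omega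
      have : ((2 * i + 2 : ℕ) : ℝ) ≤ n := by exact_mod_cast this
      push_cast at this ⊢
      linarith
    rw [show 2 * (i + 1) = 2 * i + 2 by ring, aa]
    have : (-1 : ℝ) ^ (i + 1) * (-aa n (2 * i) * (((2 * i : ℕ) : ℝ) + 1) / ((n : ℝ) - (2 * i : ℕ) - 1))
        = ((-1 : ℝ) ^ i * aa n (2 * i)) * (((2 * i : ℕ) : ℝ) + 1) / ((n : ℝ) - (2 * i : ℕ) - 1) := by
      ring
    rw [this]
    positivity

lemma at2_rec (n r : ℕ) (h : 4 * r ≤ n) (k : ℕ) (hk : k < 2 * r) :
    (k : ℝ) * at2 n r (k - 1) + ((n : ℝ) - k) * at2 n r (k + 1) = 0 := by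
  unfold at2
  rw [if_pos (by omega), if_pos (by omega)]
  cases k with
  | zero => simp [aa]
  | succ k =>
    have h1 : (n : ℝ) - k - 1 ≠ 0 := by
      have : k + 2 ≤ n := by omega
      have : ((k + 2 : ℕ) : ℝ) ≤ n := by exact_mod_cast this
      push_cast at this
      linarith
    rw [Nat.add_sub_cancel, aa]
    push_cast
    have : (n : ℝ) - (k + 1) = n - k - 1 := by ring
    rw [this]
    field_simp
    ring

lemma chi_orth {n : ℕ} (T S S' : Fin n → Bool) :
    ∑ z, chi T z * chi S z * chi S' z = if T = (fun k => xor (S k) (S' k)) then 2 ^ n else 0 := by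
  simp only [chi, ← Finset.prod_mul_distrib]
  rw [← Fintype.prod_sum (f := fun k (b : Bool) =>
    (if T k then sg b else 1) * (if S k then sg b else 1) * (if S' k then sg b else 1))]
  have : ∀ k, ∑ b : Bool, (if T k then sg b else 1) * (if S k then sg b else 1) *
      (if S' k then sg b else 1) = if T k = xor (S k) (S' k) then (2 : ℝ) else 0 := by
    intro k
    cases T k <;> cases S k <;> cases S' k <;> simp [sg] <;> norm_num
  simp only [this]
  split_ifs with h
  · subst h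
    simp
  · obtain ⟨k, hk⟩ := Function.ne_iff.mp h
    exact Finset.prod_eq_zero (Finset.mem_univ k) (by simp [hk])

lemma sig_moment (n r : ℕ) (S S' : Fin n → Bool) :
    ∑ z, sig n r z * chi S z * chi S' z = 2 ^ n * at2 n r (wtB fun k => xor (S k) (S' k)) := by
  simp only [sig, Finset.sum_mul]
  rw [Finset.sum_comm]
  have : ∀ T : Fin n → Bool, ∑ z, at2 n r (wtB T) * chi T z * chi S z * chi S' z
      = at2 n r (wtB T) * ∑ z, chi T z * chi S z * chi S' z := by
    intro T
    rw [Finset.mul_sum]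
    exact Finset.sum_congr rfl fun z _ => by ring
  simp only [this, chi_orth, mul_ite, mul_zero, Finset.sum_ite_eq', Finset.mem_univ, if_true]
  ring

/-- subsets as bit vectors -/
def toB (n : ℕ) : Finset (Fin n) ≃ (Fin n → Bool) where
  toFun F k := decide (k ∈ F)
  invFun S := Finset.univ.filter fun k => S k = true
  left_inv F := by ext; simp
  right_inv S := by funext k; simp

lemma sig_psd (n r : ℕ) (h : 4 * r ≤ n) (p : (Fin n → Bool) → ℝ) (hp : ∀ S, r < wtB S → p S = 0) :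
    0 ≤ ∑ S, ∑ S', p S * p S' * ∑ z, sig n r z * chi S z * chi S' z := by
  have := moment_psd (α := Fin n) (at2 n r) r (fun k hk => by
      rw [Fintype.card_fin]; exact at2_rec n r h k hk)
    (fun i hi => by
      unfold at2
      rw [if_pos (by omega)]
      exact aa_sign n r h i hi) (r + 1) le_rfl (fun F => p (toB n F)) (fun F hF => by
      apply hp
      have : wtB (toB n F) = F.card := by
        unfold wtB
        congr 1
        ext; simp [toB]
      omega)
  refine le_trans (mul_nonneg (by positivity : (0 : ℝ) ≤ 2 ^ n) this) (le_of_eq ?_)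
  unfold Qf
  rw [← (toB n).sum_comp, Finset.mul_sum]
  refine Finset.sum_congr rfl fun F _ => ?_
  rw [← (toB n).sum_comp, Finset.mul_sum]
  refine Finset.sum_congr rfl fun F' _ => ?_
  rw [sig_moment]
  have : (wtB fun k => xor (toB n F k) (toB n F' k)) = (F ∆ F').card := by
    unfold wtB
    congr 1
    ext k
    by_cases h1 : k ∈ F <;> by_cases h2 : k ∈ F' <;> simp [toB, Finset.mem_symmDiff, h1, h2]
  rw [this]
  ring

lemma abs_chi {n : ℕ} (T z : Fin n → Bool) : |chi T z| = 1 := by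
  unfold chi
  rw [Finset.abs_prod]
  refine Finset.prod_eq_one fun k _ => ?_
  cases T k <;> cases z k <;> simp [sg]

lemma sig_abs (n r : ℕ) (h : 4 * r ≤ n) (z : Fin n → Bool) : |sig n r z| ≤ 2 ^ n := by
  unfold sig
  refine le_trans (Finset.abs_sum_le_sum_abs _ _) ?_
  calc _ ≤ ∑ _T : Fin n → Bool, (1 : ℝ) := Finset.sum_le_sum fun T _ => by
        rw [abs_mul, abs_chi, mul_one]; exact at2_abs n r h _
    _ = _ := by simp

lemma sig_sum (n r : ℕ) : ∑ z, sig n r z = 2 ^ n := by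
  have := sig_moment n r (fun _ => false) (fun _ => false)
  simpa [chi, wtB, at2, aa] using this

lemma sig_f (n r : ℕ) (h : 4 * r ≤ n) (hr : 1 ≤ r) :
    ∑ z, sig n r z * ((∑ k, sg (z k)) ^ 2 - 1) = - 2 ^ n := by
  have c1 : ∀ (k : Fin n) (z : Fin n → Bool), chi (fun j => decide (j = k)) z = sg (z k) := by
    intro k z
    simp [chi]
  have c2 : ∀ k l : Fin n, ∑ z, sig n r z * sg (z k) * sg (z l)
      = 2 ^ n * if k = l then 1 else - 1 / ((n : ℝ) - 1) := by
    intro k l
    have := sig_moment n r (fun j => decide (j = k)) (fun j => decide (j = l))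
    simp only [c1] at this
    rw [this]
    congr 1
    split_ifs with hkl
    · subst hkl
      simp [wtB, at2, aa]
    · have : (wtB fun j => xor (decide (j = k)) (decide (j = l))) = 2 := by
        unfold wtB
        rw [← Finset.card_pair hkl]
        congr 1
        ext j
        by_cases h1 : j = k <;> by_cases h2 : j = l <;> simp_all
      rw [this, at2, if_pos (by omega)]
      simp [aa]
  have hn : (n : ℝ) - 1 ≠ 0 := by
    have : (4 : ℝ) ≤ n := by exact_mod_cast (by omega : 4 ≤ n)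
    linarith
  have c3 : ∀ k : Fin n, ∑ l : Fin n, (if k = l then (1 : ℝ) else - 1 / ((n : ℝ) - 1)) = 0 := by
    intro k
    have : ∀ l : Fin n, (if k = l then (1 : ℝ) else - 1 / ((n : ℝ) - 1))
        = (if k = l then 1 + 1 / ((n : ℝ) - 1) else 0) - 1 / ((n : ℝ) - 1) := by
      intro l; split_ifs <;> ring
    simp only [this, Finset.sum_sub_distrib, Finset.sum_ite_eq, Finset.mem_univ, if_true,
      Finset.sum_const, Finset.card_univ, Fintype.card_fin, nsmul_eq_mul]
    field_simp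
    ring
  have c4 : ∑ z, sig n r z * (∑ k, sg (z k)) ^ 2 = 0 := by
    calc _ = ∑ k : Fin n, ∑ l : Fin n, ∑ z, sig n r z * sg (z k) * sg (z l) := by
          simp only [sq, Finset.sum_mul_sum]
          simp only [Finset.mul_sum]
          rw [Finset.sum_comm]
          refine Finset.sum_congr rfl fun k _ => ?_
          rw [Finset.sum_comm]
          exact Finset.sum_congr rfl fun l _ => Finset.sum_congr rfl fun z _ => by ring
      _ = 0 := by simp only [c2, ← Finset.mul_sum, c3, mul_zero, Finset.sum_const_zero]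
  simp only [mul_sub, mul_one, Finset.sum_sub_distrib, c4, sig_sum, zero_sub]

lemma f_nonneg (r : ℕ) (z : Fin (4 * r + 1) → Bool) : 0 ≤ (∑ k, sg (z k)) ^ 2 - 1 := by
  have e : ∑ k, sg (z k) = ((∑ k, (if z k then 1 else -1) : ℤ) : ℝ) := by
    push_cast
    exact Finset.sum_congr rfl fun k _ => by cases z k <;> simp [sg]
  have o : (∑ k : Fin (4 * r + 1), (if z k then 1 else -1) : ℤ) ≠ 0 := by
    have : (∑ k : Fin (4 * r + 1), (if z k then 1 else -1) : ℤ)
        = 2 * ∑ k : Fin (4 * r + 1), (if z k then 1 else 0) - (4 * r + 1) := by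
      have : ((4 * r + 1 : ℤ)) = ∑ _k : Fin (4 * r + 1), (1 : ℤ) := by simp
      rw [this, Finset.mul_sum, ← Finset.sum_sub_distrib]
      exact Finset.sum_congr rfl fun k _ => by cases z k <;> simp
    omega
  rw [e]
  have : (1 : ℤ) ≤ (∑ k : Fin (4 * r + 1), (if z k then 1 else -1) : ℤ) ^ 2 := by
    have := sq_pos_of_ne_zero o
    omega
  have : ((1 : ℤ) : ℝ) ≤ (((∑ k : Fin (4 * r + 1), (if z k then 1 else -1) : ℤ) ^ 2 : ℤ) : ℝ) := by
    exact_mod_cast this
  rw [Int.cast_pow, Int.cast_one] at this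
  linarith

lemma f_abs (n : ℕ) (hn : 1 ≤ n) (z : Fin n → Bool) : |(∑ k, sg (z k)) ^ 2 - 1| ≤ (n : ℝ) ^ 2 := by
  have h1 : |∑ k, sg (z k)| ≤ n := by
    refine le_trans (Finset.abs_sum_le_sum_abs _ _) ?_
    calc _ ≤ ∑ _k : Fin n, (1 : ℝ) := Finset.sum_le_sum fun k _ => by cases z k <;> simp [sg]
      _ = _ := by simp
  have h2 : (∑ k, sg (z k)) ^ 2 ≤ (n : ℝ) ^ 2 := by
    rw [← sq_abs]; exact pow_le_pow_left₀ (abs_nonneg _) h1 2
  have h3 : (1 : ℝ) ≤ n := by exact_mod_cast hn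
  rw [abs_le]
  constructor <;> nlinarith [sq_nonneg (∑ k, sg (z k))]

lemma affine_comb {V W Ω : Type} [AddCommGroup V] [Module ℝ V] [AddCommGroup W] [Module ℝ W]
    [Fintype Ω] (F : V →ᵃ[ℝ] W) (l : Ω → ℝ) (hl : ∑ y, l y = 1) (w : Ω → V) :
    F (∑ y, l y • w y) = ∑ y, l y • F (w y) := by
  have d : ∀ v, F v = F.linear v + F 0 := fun v => congrFun F.decomp v
  rw [d]
  conv_rhs => simp only [d (w _), smul_add, Finset.sum_add_distrib, ← Finset.sum_smul, hl, one_smul]
  simp

/-- from a lift to the hypothesis of the core lemma -/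
lemma star_of_lift {V W Ω ι : Type} [AddCommGroup V] [Module ℝ V] [AddCommGroup W] [Module ℝ W]
    [Fintype Ω] [Fintype ι] (M : V →ᵃ[ℝ] Matrix ι ι ℝ) (π : V →ᵃ[ℝ] W) (φ : W →ᵃ[ℝ] ℝ)
    (hφ : ∀ v, (M v).PosSemidef → 0 ≤ φ (π v)) (w : Ω → V) (c : Ω → ℝ) (hc : 0 < ∑ y, c y)
    (hp : (∑ y, c y • M (w y)).PosSemidef) : 0 ≤ ∑ y, c y * φ (π (w y)) := by
  set s := ∑ y, c y with hs
  have hl : ∑ y, s⁻¹ * c y = 1 := by rw [← Finset.mul_sum, ← hs, inv_mul_cancel₀ hc.ne']
  have h1 := hφ (∑ y, (s⁻¹ * c y) • w y) (by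
    rw [affine_comb M _ hl]
    simp only [mul_smul, ← Finset.smul_sum]
    exact hp.smul (by positivity))
  have h2 := affine_comb (φ.comp π) _ hl w
  simp only [AffineMap.comp_apply] at h2
  rw [h2] at h1
  simp only [smul_eq_mul, mul_assoc, ← Finset.mul_sum] at h1
  exact (mul_nonneg_iff_of_pos_left (inv_pos.mpr hc)).mp h1

end Pool.Agent.Lib.MP_8a52c3_lc.H91S
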