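import Pool.Agent.Lib.MP_8a52c3_lc.H91SE

open Matrix Finset

namespace Pool.Agent.Lib.MP_8a52c3_lc.H91S

/-- symmetric coordinate of a vector indexed by ordered pairs -/
def coord {N : ℕ} (u v : Fin N) : ({p : Fin N × Fin N // p.1 < p.2} → ℝ) →ₗ[ℝ] ℝ :=
  if h : u < v then LinearMap.proj ⟨(u, v), h⟩
  else if h' : v < u then LinearMap.proj ⟨(v, u), h'⟩ else 0

lemma coord_cut {N : ℕ} (S : Finset (Fin N)) (u v : Fin N) :
    coord u v (fun p => if (p.1.1 ∈ S ↔ p.1.2 ∈ S) then (0 : ℝ) else 1)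
      = (1 - sg (decide (u ∈ S)) * sg (decide (v ∈ S))) / 2 := by
  unfold coord
  split_ifs with h h'
  · by_cases h1 : u ∈ S <;> by_cases h2 : v ∈ S <;> simp [sg, h1, h2]
  · by_cases h1 : u ∈ S <;> by_cases h2 : v ∈ S <;> simp [sg, h1, h2]
  · have : u = v := le_antisymm (not_lt.mp h') (not_lt.mp h)
    subst this
    simp [sg_mul_self]

/-- the odd clique inequality on the points `e j` -/
noncomputable def clq {N n : ℕ} (e : Fin n → Fin N) :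
    ({p : Fin N × Fin N // p.1 < p.2} → ℝ) →ᵃ[ℝ] ℝ :=
  AffineMap.const ℝ _ ((n : ℝ) ^ 2 - 1)
    - ((2 : ℝ) • ∑ j, ∑ k, coord (e j) (e k)).toAffineMap

lemma clq_cut {N n : ℕ} (e : Fin n → Fin N) (S : Finset (Fin N)) :
    clq e (fun p => if (p.1.1 ∈ S ↔ p.1.2 ∈ S) then (0 : ℝ) else 1)
      = (∑ k, sg (decide (e k ∈ S))) ^ 2 - 1 := by
  simp only [clq, AffineMap.coe_sub, Pi.sub_apply, AffineMap.const_apply,
    LinearMap.coe_toAffineMap, LinearMap.smul_apply, LinearMap.sum_apply, coord_cut, smul_eq_mul]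
  rw [sq (∑ k, sg (decide (e k ∈ S))), Finset.sum_mul_sum]
  simp only [← Finset.sum_div, Finset.sum_sub_distrib, Finset.sum_const, Finset.card_univ,
    Fintype.card_fin, nsmul_eq_mul]
  ring

lemma cut_core (s : ℕ) (t : ℝ) (ht : 1 ≤ t) (hs : t ^ 4 ≤ 4 * (s : ℝ)) (r N : ℕ) (hr : 1 ≤ r)
    (hN : (4 * r + 1) * s ≤ N) (m : ℕ) (V : Type) [AddCommGroup V] [Module ℝ V]
    (M : V →ᵃ[ℝ] Matrix (Fin m) (Fin m) ℝ)
    (π : V →ᵃ[ℝ] ({p : Fin N × Fin N // p.1 < p.2} → ℝ))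
    (h : π '' {w | (M w).PosSemidef} = convexHull ℝ (Set.range fun (S : Finset (Fin N))
      (p : {p : Fin N × Fin N // p.1 < p.2}) => if (p.1.1 ∈ S ↔ p.1.2 ∈ S) then (0 : ℝ) else 1)) :
    t ^ (2 * r) < 2 ^ (4 * (4 * r + 1) + 4) * (((4 * r + 1 : ℕ) : ℝ) ^ 2) ^ 3 * ((m : ℝ) + 1) ^ 2 := by
  obtain ⟨e⟩ : Nonempty (Fin (4 * r + 1) × Fin s ↪ Fin N) :=
    Function.Embedding.nonempty_of_card_le (by simpa using hN)
  let Sy : (Fin (4 * r + 1) → Fin s → Bool) → Finset (Fin N) := fun y =>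
    (Finset.univ.filter fun q : Fin (4 * r + 1) × Fin s => y q.1 q.2 = true).map e
  have hSy : ∀ y k a, decide (e (k, a) ∈ Sy y) = y k a := by
    intro y k a
    simp [Sy]
  have hw : ∀ y, ∃ w : V, (M w).PosSemidef ∧ π w = fun p =>
      if (p.1.1 ∈ Sy y ↔ p.1.2 ∈ Sy y) then (0 : ℝ) else 1 := by
    intro y
    have : (fun p : {p : Fin N × Fin N // p.1 < p.2} =>
        if (p.1.1 ∈ Sy y ↔ p.1.2 ∈ Sy y) then (0 : ℝ) else 1) ∈ π '' {w | (M w).PosSemidef} := by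
      rw [h]
      exact subset_convexHull ℝ _ ⟨Sy y, rfl⟩
    obtain ⟨w, h1, h2⟩ := this
    exact ⟨w, h1, h2⟩
  choose w w1 w2 using hw
  have := core (X := Fin s) (ι := Fin m) t ht (by simpa using hs) (4 * r + 1) r
    (sig (4 * r + 1) r) (fun z => (∑ k, sg (z k)) ^ 2 - 1) (((4 * r + 1 : ℕ) : ℝ) ^ 2)
    (one_le_pow₀ (by exact_mod_cast (by omega : 1 ≤ 4 * r + 1)))
    (fun S S' => by
      rw [sig_moment, abs_mul, abs_of_pos (by positivity)]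
      exact mul_le_of_le_one_right (by positivity) (at2_abs _ r (by omega) _))
    (sig_psd _ r (by omega)) (sig_abs _ r (by omega)) (sig_sum _ r) (f_abs _ (by omega))
    (sig_f _ r (by omega) hr).le (fun y => M (w y)) w1 ?_
  · simpa using this
  · intro x c hc hp
    have := star_of_lift M π (clq fun k => e (k, x k)) ?_ w c hc hp
    · simpa only [w2, clq_cut, hSy] using this
    · intro v hv
      have hm : π v ∈ π '' {w | (M w).PosSemidef} := ⟨v, hv, rfl⟩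
      rw [h] at hm
      have hc : Convex ℝ ((clq fun k => e (k, x k)) ⁻¹' Set.Ici (0 : ℝ)) :=
        (convex_Ici 0).affine_preimage _
      refine convexHull_min ?_ hc hm
      rintro _ ⟨S, rfl⟩
      simp only [Set.mem_preimage, Set.mem_Ici, clq_cut]
      exact f_nonneg r _

lemma lin_le_pow (r : ℕ) (hr : 7 ≤ r) : 4 * (4 * r + 1) ≤ 2 ^ r := by
  induction r, hr using Nat.le_induction with
  | base => norm_num
  | succ k hk ih => rw [pow_succ]; omega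

lemma cut_num (r m : ℕ) (hr : 7 ≤ r)
    (h : ((2 : ℝ) ^ 12) ^ (2 * r)
      < 2 ^ (4 * (4 * r + 1) + 4) * (((4 * r + 1 : ℕ) : ℝ) ^ 2) ^ 3 * ((m : ℝ) + 1) ^ 2) :
    2 ^ r ≤ m := by
  have h1 : (4 : ℝ) * ((4 * r + 1 : ℕ) : ℝ) ≤ 2 ^ r := by exact_mod_cast lin_le_pow r hr
  set n : ℝ := ((4 * r + 1 : ℕ) : ℝ) with hn
  have n0 : 0 ≤ n := by rw [hn]; positivity
  set a : ℝ := 2 ^ r with ha
  have a0 : 0 < a := by rw [ha]; positivity
  have e1 : ((2 : ℝ) ^ 12) ^ (2 * r) = a ^ 24 := by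
    rw [ha, ← pow_mul, ← pow_mul]; congr 1; ring
  have e2 : (2 : ℝ) ^ (4 * (4 * r + 1) + 4) = 256 * a ^ 16 := by
    rw [ha, ← pow_mul, show (256 : ℝ) = 2 ^ 8 by norm_num, ← pow_add]; congr 1; ring
  rw [e1, e2] at h
  by_contra hc
  have hm : (m : ℝ) + 1 ≤ a := by
    rw [ha]
    have : m + 1 ≤ 2 ^ r := by omega
    exact_mod_cast this
  have b1 : ((m : ℝ) + 1) ^ 2 ≤ a ^ 2 := pow_le_pow_left₀ (by positivity) hm 2
  have b2 : (4 * n) ^ 6 ≤ a ^ 6 := pow_le_pow_left₀ (by positivity) h1 6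
  have b3 : 256 * (n ^ 2) ^ 3 ≤ a ^ 6 := by
    have : 0 ≤ n ^ 6 := by positivity
    nlinarith
  have b4 : 256 * (n ^ 2) ^ 3 * ((m : ℝ) + 1) ^ 2 ≤ a ^ 6 * a ^ 2 :=
    mul_le_mul b3 b1 (by positivity) (by positivity)
  have b5 := mul_le_mul_of_nonneg_left b4 (by positivity : 0 ≤ a ^ 16)
  nlinarith

theorem cut_sdp : ∃ c : ℝ, 0 < c ∧ ∃ n₀ : ℕ, ∀ n ≥ n₀, ∀ (m : ℕ) (V : Type) [AddCommGroup V]
    [Module ℝ V] (M : V →ᵃ[ℝ] Matrix (Fin m) (Fin m) ℝ)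
    (π : V →ᵃ[ℝ] ({p : Fin n × Fin n // p.1 < p.2} → ℝ)),
    π '' {w | (M w).PosSemidef} = convexHull ℝ (Set.range fun (S : Finset (Fin n))
      (p : {p : Fin n × Fin n // p.1 < p.2}) => if (p.1.1 ∈ S ↔ p.1.2 ∈ S) then (0 : ℝ) else 1) →
    (2 : ℝ) ^ (c * n) ≤ m := by
  obtain ⟨s, s0, hs⟩ : ∃ s : ℕ, 0 < s ∧ ((2 : ℝ) ^ 12) ^ 4 ≤ 4 * (s : ℝ) :=
    ⟨2 ^ 46, by positivity, by norm_num⟩
  refine ⟨1 / (10 * s), by positivity, 35 * s, ?_⟩
  intro n hn m V _ _ M π h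
  have hr : 7 ≤ n / (5 * s) := by
    rw [Nat.le_div_iff_mul_le (by omega)]; omega
  have h1 := Nat.div_mul_le_self n (5 * s)
  have h2 := Nat.lt_div_mul_add (a := n) (by omega : 0 < 5 * s)
  set r := n / (5 * s) with hr'
  have := cut_num r m hr (cut_core s _ (by norm_num) hs r n (by omega) (by nlinarith) m V M π h)
  have h3 : (2 : ℝ) ^ (r : ℝ) ≤ m := by
    rw [Real.rpow_natCast]; exact_mod_cast this
  refine le_trans (Real.rpow_le_rpow_of_exponent_le (by norm_num) ?_) h3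
  have : n ≤ r * (10 * s) := by nlinarith
  rw [div_mul_eq_mul_div, one_mul, div_le_iff₀ (by positivity)]
  exact_mod_cast this

end Pool.Agent.Lib.MP_8a52c3_lc.H91S
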