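import Mathlib

/-! Elementary analytic and counting lemmas for the branching program lower bound. -/

namespace Pool.Agent.Lib.MP_8a52c3_lc

open Finset

set_option linter.unusedSectionVars false

/-- AM-GM in logarithmic form. -/
theorem sum_log_le {α : Type*} (Ω : Finset α) (hΩ : Ω.Nonempty) (f : α → ℝ)
    (hf : ∀ x ∈ Ω, 0 < f x) (B : ℝ) (h : ∑ x ∈ Ω, f x ≤ B) :
    ∑ x ∈ Ω, Real.log (f x) ≤ Ω.card * (Real.log B - Real.log Ω.card) := by
  have hm : (0 : ℝ) < Ω.card := by exact_mod_cast hΩ.card_pos
  have hB : 0 < B := lt_of_lt_of_le (Finset.sum_pos hf hΩ) h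
  have key : ∀ x ∈ Ω, Real.log (f x) - (Real.log B - Real.log Ω.card)
      ≤ f x * (Ω.card / B) - 1 := by
    intro x hx
    have h1 := Real.log_le_sub_one_of_pos (x := f x * (Ω.card / B))
      (mul_pos (hf x hx) (div_pos hm hB))
    rw [Real.log_mul (hf x hx).ne' (div_pos hm hB).ne', Real.log_div hm.ne' hB.ne'] at h1
    linarith
  have h2 := Finset.sum_le_sum key
  simp only [Finset.sum_sub_distrib, ← Finset.sum_mul, Finset.sum_const, nsmul_eq_mul,
    mul_one] at h2
  have h3 : (∑ x ∈ Ω, f x) * (Ω.card / B) ≤ B * (Ω.card / B) :=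
    mul_le_mul_of_nonneg_right h (div_pos hm hB).le
  have h4 : B * (Ω.card / B) = Ω.card := by field_simp
  linarith

/-- The two-point inequality behind the majority witness. -/
theorem two_point (a b : ℝ) (ha : 0 ≤ a) (hab : a ≤ b) :
    2 * Real.log 2 * a + a * Real.log a + b * Real.log b ≤ (a + b) * Real.log (a + b) := by
  rcases eq_or_lt_of_le (ha.trans hab) with hb | hb
  · have : a = 0 := le_antisymm (hb ▸ hab) ha
    subst this; rw [← hb]; simp
  have hc : 0 < a + b := by linarith
  set c := a + b with hcdef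
  have conv := Real.convexOn_mul_log
  have hτ0 : 0 ≤ 2 * a / c := by positivity
  have hτ1 : 0 ≤ 1 - 2 * a / c := by
    rw [sub_nonneg, div_le_one hc]; linarith
  have h1 := conv.2 (x := c / 2) (y := 0) (by simp; linarith) (by simp) hτ0 hτ1 (by ring)
  have h2 := conv.2 (x := c / 2) (y := c) (by simp; linarith) (by simp; linarith) hτ0 hτ1
    (by ring)
  simp only [smul_eq_mul] at h1 h2
  have e1 : 2 * a / c * (c / 2) + (1 - 2 * a / c) * 0 = a := by field_simp; ring
  have e2 : 2 * a / c * (c / 2) + (1 - 2 * a / c) * c = b := by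
    field_simp; rw [hcdef]; ring
  rw [e1] at h1
  rw [e2] at h2
  have e3 : Real.log (c / 2) = Real.log c - Real.log 2 := Real.log_div hc.ne' (by norm_num)
  rw [e3] at h1 h2
  have e4 : 2 * a / c * (c / 2 * (Real.log c - Real.log 2)) = a * (Real.log c - Real.log 2) := by
    field_simp
  have e5 : (1 - 2 * a / c) * (c * Real.log c) = (c - 2 * a) * Real.log c := by
    field_simp
  rw [e4] at h1 h2
  rw [e5] at h2
  simp only [zero_mul, mul_zero, add_zero] at h1
  nlinarith

variable {ι : Type*} [Fintype ι] [DecidableEq ι]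

theorem sum_pow_card (a b : ℝ) :
    ∑ S : Finset ι, a ^ S.card * b ^ (Fintype.card ι - S.card) = (a + b) ^ Fintype.card ι := by
  have := Finset.sum_pow_mul_eq_add_pow a b (Finset.univ : Finset ι)
  rw [Finset.powerset_univ] at this
  simpa using this

theorem sum_pow_card' (a : ℝ) :
    ∑ S : Finset ι, a ^ S.card = (1 + a) ^ Fintype.card ι := by
  have := sum_pow_card (ι := ι) a 1
  simpa [add_comm] using this

theorem sum_pow_card_superset (p : ℝ) (W : Finset ι) :
    ∑ S : Finset ι, (if W ⊆ S then p ^ S.card * (1 - p) ^ (Fintype.card ι - S.card) else 0)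
      = p ^ W.card := by
  have h := Finset.prod_add (fun _ : ι => p) (fun i => if i ∈ W then 0 else 1 - p)
    (Finset.univ : Finset ι)
  rw [Finset.powerset_univ] at h
  have hl : ∏ i : ι, (p + if i ∈ W then 0 else 1 - p) = p ^ W.card := by
    have : ∀ i : ι, (p + if i ∈ W then 0 else 1 - p) = if i ∈ W then p else 1 := by
      intro i; split_ifs <;> ring
    simp only [this]
    rw [Finset.prod_ite_mem]
    simp
  rw [hl] at h
  rw [h]
  refine Finset.sum_congr rfl fun S _ => ?_
  by_cases hW : W ⊆ S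
  · rw [if_pos hW]
    have : ∏ i ∈ Finset.univ \ S, (if i ∈ W then (0 : ℝ) else 1 - p)
        = ∏ _i ∈ Finset.univ \ S, (1 - p) := by
      refine Finset.prod_congr rfl fun i hi => ?_
      have : i ∉ W := fun h => (Finset.mem_sdiff.1 hi).2 (hW h)
      simp [this]
    rw [this]
    simp [Finset.card_univ_sdiff]
  · rw [if_neg hW]
    obtain ⟨i, hiW, hiS⟩ := Finset.not_subset.1 hW
    have : ∏ i ∈ Finset.univ \ S, (if i ∈ W then (0 : ℝ) else 1 - p) = 0 :=
      Finset.prod_eq_zero (i := i) (by simp [hiS]) (by simp [hiW])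
    rw [this]; simp

/-- Kraft type inequality for weak witness sets. -/
theorem kraft (Ω : Finset (ι → Bool)) (W : (ι → Bool) → Finset ι)
    (h : ∀ x ∈ Ω, ∀ y ∈ Ω, (∀ i ∈ W x ∪ W y, x i = y i) → x = y)
    (p : ℝ) (hp0 : 0 ≤ p) (hp1 : p ≤ 1) :
    ∑ x ∈ Ω, p ^ (W x).card ≤ (1 + p) ^ Fintype.card ι := by
  have h1 : ∑ x ∈ Ω, p ^ (W x).card = ∑ S : Finset ι, ∑ x ∈ Ω,
      (if W x ⊆ S then p ^ S.card * (1 - p) ^ (Fintype.card ι - S.card) else 0) := by
    rw [Finset.sum_comm]
    exact Finset.sum_congr rfl fun x _ => (sum_pow_card_superset p (W x)).symm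
  rw [h1]
  have h2 : (1 + p) ^ Fintype.card ι
      = ∑ S : Finset ι, (2 * p) ^ S.card * (1 - p) ^ (Fintype.card ι - S.card) := by
    rw [sum_pow_card]; congr 1; ring
  rw [h2]
  refine Finset.sum_le_sum fun S _ => ?_
  rw [← Finset.sum_filter, Finset.sum_const, nsmul_eq_mul]
  have hc : ((Ω.filter fun x => W x ⊆ S).card : ℝ) ≤ 2 ^ S.card := by
    have : (Ω.filter fun x => W x ⊆ S).card ≤ S.powerset.card := by
      refine Finset.card_le_card_of_injOn (fun x => S.filter fun i => x i = true) ?_ ?_
      · intro x _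
        simp only [Finset.coe_powerset, Set.mem_preimage, Set.mem_powerset_iff, Finset.coe_subset]
        exact Finset.filter_subset _ _
      · intro x hx y hy hxy
        simp only [Finset.coe_filter, Set.mem_ofPred_eq] at hx hy
        refine h x hx.1 y hy.1 fun i hi => ?_
        have hiS : i ∈ S := by
          rcases Finset.mem_union.1 hi with h' | h'
          · exact hx.2 h'
          · exact hy.2 h'
        have := congrArg (fun T => i ∈ T) hxy
        simp only [Finset.mem_filter, hiS, true_and, eq_iff_iff] at this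
        cases hx' : x i <;> cases hy' : y i <;> simp_all
    rw [Finset.card_powerset] at this
    exact_mod_cast this
  have hw : 0 ≤ p ^ S.card * (1 - p) ^ (Fintype.card ι - S.card) := by
    have : 0 ≤ 1 - p := by linarith
    positivity
  calc _ ≤ 2 ^ S.card * (p ^ S.card * (1 - p) ^ (Fintype.card ι - S.card)) :=
        mul_le_mul_of_nonneg_right hc hw
    _ = _ := by rw [mul_pow]; ring

/-- The number of small sets. -/
def smallSets (ι : Type*) [Fintype ι] [DecidableEq ι] (k : ℕ) : Finset (Finset ι) :=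
  Finset.univ.filter fun E => E.card ≤ k

theorem mem_smallSets {k : ℕ} {E : Finset ι} : E ∈ smallSets ι k ↔ E.card ≤ k := by
  simp [smallSets]

theorem smallSets_nonempty (k : ℕ) : (smallSets ι k).Nonempty :=
  ⟨∅, by simp [mem_smallSets]⟩

theorem log_card_smallSets (k : ℕ) (r : ℝ) (hr0 : 0 < r) (hr1 : r ≤ 1) :
    Real.log (smallSets ι k).card ≤ Fintype.card ι * r - k * Real.log r := by
  have h1 : ((smallSets ι k).card : ℝ) * r ^ k ≤ (1 + r) ^ Fintype.card ι := by
    rw [← sum_pow_card']
    calc ((smallSets ι k).card : ℝ) * r ^ k = ∑ _E ∈ smallSets ι k, r ^ k := by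
          rw [Finset.sum_const, nsmul_eq_mul]
      _ ≤ ∑ E ∈ smallSets ι k, r ^ E.card :=
          Finset.sum_le_sum fun E hE =>
            pow_le_pow_of_le_one hr0.le hr1 (mem_smallSets.1 hE)
      _ ≤ ∑ E : Finset ι, r ^ E.card :=
          Finset.sum_le_sum_of_subset_of_nonneg (Finset.subset_univ _)
            fun _ _ _ => by positivity
  have hc : (0 : ℝ) < (smallSets ι k).card := by
    exact_mod_cast (smallSets_nonempty k).card_pos
  have h2 := Real.log_le_log (by positivity) h1
  rw [Real.log_mul hc.ne' (by positivity), Real.log_pow, Real.log_pow] at h2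
  have h3 : Real.log (1 + r) ≤ r := by
    have := Real.log_le_sub_one_of_pos (x := 1 + r) (by linarith)
    linarith
  have h4 : (Fintype.card ι : ℝ) * Real.log (1 + r) ≤ Fintype.card ι * r :=
    mul_le_mul_of_nonneg_left h3 (by positivity)
  linarith

end Pool.Agent.Lib.MP_8a52c3_lc
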