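import Pool.Agent.Lib.MP_8a52c3_lc.NbpPair

/-! The combinatorial core: four families of terms, every consistent quadruple of which implies
a sensitive rectangle free function, cover only an exponentially small part of the cube. -/

namespace Pool.Agent.Lib.MP_8a52c3_lc

open Finset

set_option linter.unusedSectionVars false

variable {ι : Type*} [Fintype ι] [DecidableEq ι]

/-- No two accepted points are neighbours. -/
def Sens (f : (ι → Bool) → Prop) : Prop :=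
  ∀ x i, f x → ¬ f (Function.update x i (!x i))

/-- Every accepted rectangle has a side of size at most `L`. -/
def RectFree (f : (ι → Bool) → Prop) (L : ℕ) : Prop :=
  ∀ (A : Finset ι) (x : ι → Bool) (U V : Finset (ι → Bool)),
    (∀ u ∈ U, ∀ i, i ∉ A → u i = x i) → (∀ v ∈ V, ∀ i ∈ A, v i = x i) →
    (∀ u ∈ U, ∀ v ∈ V, f fun i => if i ∈ A then u i else v i) → U.card ≤ L ∨ V.card ≤ L

/-- Every consistent quadruple of terms implies `f`. -/
def Sound (f : (ι → Bool) → Prop) (Ω : Finset (ι → Bool))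
    (D0 D1 D2 D3 : (ι → Bool) → Finset ι) : Prop :=
  ∀ x0 ∈ Ω, ∀ x1 ∈ Ω, ∀ x2 ∈ Ω, ∀ x3 ∈ Ω, ∀ z : ι → Bool, (∀ i ∈ D0 x0, z i = x0 i) →
    (∀ i ∈ D1 x1, z i = x1 i) → (∀ i ∈ D2 x2, z i = x2 i) → (∀ i ∈ D3 x3, z i = x3 i) → f z

variable {f : (ι → Bool) → Prop} {Ω : Finset (ι → Bool)} {D0 D1 D2 D3 : (ι → Bool) → Finset ι}

theorem Sound.swap12 (h : Sound f Ω D0 D1 D2 D3) : Sound f Ω D0 D2 D1 D3 :=
  fun x0 h0 x1 h1 x2 h2 x3 h3 z a b c d => h x0 h0 x2 h2 x1 h1 x3 h3 z a c b d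

theorem Sound.swap13 (h : Sound f Ω D0 D1 D2 D3) : Sound f Ω D0 D3 D2 D1 :=
  fun x0 h0 x1 h1 x2 h2 x3 h3 z a b c d => h x0 h0 x3 h3 x2 h2 x1 h1 z a d c b

theorem Sound.cover (h : Sound f Ω D0 D1 D2 D3) (hs : Sens f) {x : ι → Bool} (hx : x ∈ Ω)
    (i : ι) : i ∈ D0 x ∪ D1 x ∪ D2 x ∪ D3 x := by
  by_contra hi
  simp only [Finset.mem_union, not_or] at hi
  have h1 : f x := h x hx x hx x hx x hx x (fun _ _ => rfl) (fun _ _ => rfl) (fun _ _ => rfl)
    (fun _ _ => rfl)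
  have key : ∀ S : Finset ι, i ∉ S → ∀ j ∈ S, Function.update x i (!x i) j = x j := by
    intro S hS j hj
    have : j ≠ i := fun e => hS (e ▸ hj)
    simp [this]
  exact hs x i h1 (h x hx x hx x hx x hx _ (key _ hi.1.1.1) (key _ hi.1.1.2) (key _ hi.1.2)
    (key _ hi.2))

/-- Points sharing two terms with `x` and the union of the other two domains. -/
def kcls (Ω : Finset (ι → Bool)) (Da Db Dc Dd : (ι → Bool) → Finset ι) (x : ι → Bool) :
    Finset (ι → Bool) :=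
  Ω.filter fun y => tm Da y = tm Da x ∧ tm Db y = tm Db x ∧ Dc y ∪ Dd y = Dc x ∪ Dd x

theorem rect {L : ℕ} (h : Sound f Ω D0 D1 D2 D3) (hs : Sens f) (hr : RectFree f L)
    {x : ι → Bool} (hx : x ∈ Ω) :
    (kcls Ω D2 D3 D0 D1 x).card ≤ L ∨ (kcls Ω D0 D1 D2 D3 x).card ≤ L := by
  refine hr (D2 x ∪ D3 x)ᶜ x _ _ ?_ ?_ ?_
  · intro u hu i hi
    obtain ⟨_, h2, h3, _⟩ := Finset.mem_filter.1 hu
    rw [tm_eq_iff] at h2 h3
    simp only [Finset.mem_compl, not_not, Finset.mem_union] at hi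
    rcases hi with hi | hi
    · exact h2.2 i (h2.1 ▸ hi)
    · exact h3.2 i (h3.1 ▸ hi)
  · intro v hv i hi
    obtain ⟨_, h0, h1, _⟩ := Finset.mem_filter.1 hv
    rw [tm_eq_iff] at h0 h1
    have := h.cover hs hx i
    simp only [Finset.mem_compl, Finset.mem_union, not_or] at hi this
    rcases this with ((hc | hc) | hc) | hc
    · exact h0.2 i (h0.1 ▸ hc)
    · exact h1.2 i (h1.1 ▸ hc)
    · exact absurd hc hi.1
    · exact absurd hc hi.2
  · intro u hu v hv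
    obtain ⟨huΩ, h2, h3, hu'⟩ := Finset.mem_filter.1 hu
    obtain ⟨hvΩ, h0, h1, hv'⟩ := Finset.mem_filter.1 hv
    rw [tm_eq_iff] at h0 h1 h2 h3
    have ku : ∀ i ∈ D0 u ∪ D1 u, (if i ∈ (D2 x ∪ D3 x)ᶜ then u i else v i) = u i := by
      intro i hi
      split_ifs with hc
      · rfl
      · rw [hu'] at hi
        simp only [Finset.mem_compl, not_not, Finset.mem_union] at hc hi
        have a1 : v i = x i := by
          rcases hi with hi | hi
          · exact h0.2 i (h0.1 ▸ hi)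
          · exact h1.2 i (h1.1 ▸ hi)
        have a2 : u i = x i := by
          rcases hc with hc | hc
          · exact h2.2 i (h2.1 ▸ hc)
          · exact h3.2 i (h3.1 ▸ hc)
        rw [a1, a2]
    have kv : ∀ i ∈ D2 v ∪ D3 v, (if i ∈ (D2 x ∪ D3 x)ᶜ then u i else v i) = v i := by
      intro i hi
      rw [hv'] at hi
      rw [if_neg (fun h => (Finset.mem_compl.1 h) hi)]
    exact h u huΩ u huΩ v hvΩ v hvΩ _ (fun i hi => ku i (by simp [hi]))
      (fun i hi => ku i (by simp [hi])) (fun i hi => kv i (by simp [hi]))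
      (fun i hi => kv i (by simp [hi]))

theorem card_inter_le_of_cover {X Y : Finset ι} {k : ℕ} (hc : ∀ i, i ∈ X ∪ Y)
    (hs : X.card + Y.card ≤ Fintype.card ι + k) : (X ∩ Y).card ≤ k := by
  have h1 := Finset.card_union_add_card_inter X Y
  have h2 : X ∪ Y = Finset.univ := Finset.eq_univ_iff_forall.2 hc
  rw [h2, Finset.card_univ] at h1
  omega

theorem fiber_bound {Da Db Dc Dd : (ι → Bool) → Finset ι} {k L : ℕ} {Ω' : Finset (ι → Bool)}
    (hsub : Ω' ⊆ Ω) (hcov : ∀ x ∈ Ω, ∀ i, i ∈ (Da x ∪ Db x) ∪ (Dc x ∪ Dd x))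
    (hsz : ∀ x ∈ Ω, (Da x).card + (Db x).card + (Dc x).card + (Dd x).card ≤ Fintype.card ι + k)
    (hL : ∀ x ∈ Ω', (kcls Ω Da Db Dc Dd x).card ≤ L) (x y : ι → Bool) :
    (Ω'.filter fun z => tm Da z = tm Da x ∧ tm Db z = tm Db y).card
      ≤ L * (smallSets ι k).card := by
  refine Finset.card_le_mul_card_image_of_maps_to
    (f := fun z => (Da z ∪ Db z) ∩ (Dc z ∪ Dd z)) ?_ L ?_
  · intro z hz
    have hzΩ := hsub (Finset.mem_filter.1 hz).1
    rw [mem_smallSets]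
    refine card_inter_le_of_cover (hcov z hzΩ) ?_
    have h1 := Finset.card_union_le (Da z) (Db z)
    have h2 := Finset.card_union_le (Dc z) (Dd z)
    have := hsz z hzΩ
    omega
  · intro O _
    by_cases hne : ((Ω'.filter fun z => tm Da z = tm Da x ∧ tm Db z = tm Db y).filter
        fun z => (Da z ∪ Db z) ∩ (Dc z ∪ Dd z) = O).Nonempty
    · obtain ⟨z0, hz0⟩ := hne
      obtain ⟨hz0, hO0⟩ := Finset.mem_filter.1 hz0
      obtain ⟨hz0, ha0, hb0⟩ := Finset.mem_filter.1 hz0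
      refine le_trans (Finset.card_le_card ?_) (hL z0 hz0)
      intro z hz
      obtain ⟨hz, hO⟩ := Finset.mem_filter.1 hz
      obtain ⟨hz, ha, hb⟩ := Finset.mem_filter.1 hz
      have ea : tm Da z = tm Da z0 := ha.trans ha0.symm
      have eb : tm Db z = tm Db z0 := hb.trans hb0.symm
      refine Finset.mem_filter.2 ⟨hsub hz, ea, eb, ?_⟩
      have ea' : Da z = Da z0 := congrArg Prod.fst ea
      have eb' : Db z = Db z0 := congrArg Prod.fst eb
      have c1 := hcov z (hsub hz)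
      have c0 := hcov z0 (hsub hz0)
      rw [ea', eb'] at hO c1
      ext i
      have e := congrArg (fun T => i ∈ T) (hO.trans hO0.symm)
      have c1' := c1 i
      have c0' := c0 i
      simp only [Finset.mem_inter, eq_iff_iff] at e
      rw [Finset.mem_union] at c1' c0'
      tauto
    · rw [Finset.not_nonempty_iff_eq_empty.1 hne]; simp

theorem log_two_bounds : 0.69 < Real.log 2 ∧ Real.log 2 < 0.7 :=
  ⟨by have := Real.log_two_gt_d9; linarith, by have := Real.log_two_lt_d9; linarith⟩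

theorem deficiency_nonneg {Ω : Finset (ι → Bool)} (hΩ : Ω.Nonempty) :
    Real.log Ω.card ≤ Fintype.card ι * Real.log 2 := by
  have hmpos : (0 : ℝ) < Ω.card := by exact_mod_cast hΩ.card_pos
  have : (Ω.card : ℝ) ≤ 2 ^ Fintype.card ι := by
    have := Finset.card_le_univ Ω
    simp only [Fintype.card_pi, Fintype.card_bool, Finset.prod_const, Finset.card_univ] at this
    exact_mod_cast this
  have h' := Real.log_le_log hmpos this
  rwa [Real.log_pow] at h'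

/-- Two narrow parts cannot together determine the point. -/
theorem case_pair {Ω : Finset (ι → Bool)} (hΩ : Ω.Nonempty) {Da Db : (ι → Bool) → Finset ι}
    {w : ℕ} (hwa : ∀ x ∈ Ω, (Da x).card ≤ w) (hwb : ∀ x ∈ Ω, (Db x).card ≤ w)
    (hUa : Unamb Ω Da) (hUb : Unamb Ω Db) {L : ℕ} (hL1 : 1 ≤ L)
    (hK : ∀ x y, (Ω.filter fun z => tm Da z = tm Da x ∧ tm Db z = tm Db y).card ≤ L * L)
    (hw : (w : ℝ) ≤ (1 / 4 - 1 / 10 ^ 5) * Fintype.card ι)
    (hL : 3 * Real.log L ≤ Fintype.card ι / 10 ^ 6) :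
    Real.log Ω.card ≤ Fintype.card ι * Real.log 2 - Fintype.card ι / 10 ^ 11 := by
  have hm : (0 : ℝ) < Ω.card := by exact_mod_cast hΩ.card_pos
  have hLpos : (0 : ℝ) < L := by exact_mod_cast hL1
  have ha := know Ω hΩ Da w hwa hUa (1 / 10 ^ 5) (by norm_num) (by norm_num)
  have hb := know Ω hΩ Db w hwb hUb (1 / 10 ^ 5) (by norm_num) (by norm_num)
  have hp := pair_log Ω hΩ Da Db ((L : ℝ) * L) (fun x _ y _ => by exact_mod_cast hK x y)
    (fun _ => 1) (fun _ _ => one_pos) (fun _ _ => 1) (fun _ _ => zero_le_one)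
    (fun _ _ _ _ _ _ _ _ => le_rfl) ((Ω.card : ℝ) * Ω.card) (by simp)
  simp only [Real.log_one, Finset.sum_const_zero, add_zero] at hp
  rw [Real.log_mul (by positivity) (by positivity), Real.log_mul hLpos.ne' hLpos.ne',
    Real.log_mul hm.ne' hm.ne'] at hp
  have h3 := (add_le_add ha hb).trans hp
  rw [← mul_add] at h3
  have h4 := le_of_mul_le_mul_left h3 hm
  have he := deficiency_nonneg hΩ
  obtain ⟨l1, l2⟩ := log_two_bounds
  set n : ℝ := (Fintype.card ι : ℝ) with hn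
  have hn0 : 0 ≤ n := by rw [hn]; positivity
  set l := Real.log 2 with hl
  set e := n * l - Real.log Ω.card with he'
  have he0 : 0 ≤ e := by rw [he']; linarith
  have b1 : l * w ≤ l * ((1 / 4 - 1 / 10 ^ 5) * n) := mul_le_mul_of_nonneg_left hw (by linarith)
  have b2 : 0.69 * n ≤ l * n := mul_le_mul_of_nonneg_right l1.le hn0
  have b3 : l * e ≤ 0.7 * e := mul_le_mul_of_nonneg_right l2.le he0
  have hlog : Real.log Ω.card = n * l - e := by rw [he']; ring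
  rw [hlog] at h4 ⊢
  nlinarith

theorem star_part {Ω : Finset (ι → Bool)} (hΩ : Ω.Nonempty) {D0 Dj : (ι → Bool) → Finset ι}
    {k : ℕ} (hk : ∀ z ∈ Ω, (D0 z ∩ Dj z).card ≤ k)
    (hK : ∀ x y, (Ω.filter fun z => tm D0 z = tm D0 x ∧ tm Dj z = tm Dj y).card
      ≤ (smallSets ι k).card * (smallSets ι k).card)
    {lam : ℝ} (h1 : lam < 1) {P : Finset ι → Finset ι}
    (hP : ∀ β : Finset ι, ∑ x ∈ Ω, (if Disjoint (D0 x) (β ∩ Finset.univ) then
        (1 - lam)⁻¹ ^ (β ∩ P (D0 x)).card else 0) ≤ Ω.card) :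
    ∑ z ∈ Ω, Real.log (cls Ω D0 z).card + ∑ z ∈ Ω, Real.log (cls Ω Dj z).card
      + lam * ∑ z ∈ Ω, (((Dj z \ D0 z) ∩ P (D0 z)).card : ℝ)
      ≤ Ω.card * (3 * Real.log (smallSets ι k).card + Real.log Ω.card) := by
  have hm : (0 : ℝ) < Ω.card := by exact_mod_cast hΩ.card_pos
  have hLpos : (0 : ℝ) < (smallSets ι k).card := by
    exact_mod_cast (smallSets_nonempty k).card_pos
  have hq : 0 < (1 - lam)⁻¹ := by rw [inv_pos]; linarith
  set L : ℝ := ((smallSets ι k).card : ℝ) with hL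
  have hp := pair_log Ω hΩ D0 Dj (L * L) (fun x _ y _ => by rw [hL]; exact_mod_cast hK x y)
    (fun z => (1 - lam)⁻¹ ^ ((Dj z \ D0 z) ∩ P (D0 z)).card) (fun _ _ => by positivity)
    (fun x y => if (D0 x ∩ Dj y).card ≤ k then
      (1 - lam)⁻¹ ^ ((Dj y \ D0 x) ∩ P (D0 x)).card else 0)
    (fun x y => by split_ifs <;> positivity)
    (fun z hz x _ y _ hx hy => by
      have e0 : D0 x = D0 z := congrArg Prod.fst hx
      have ej : Dj y = Dj z := congrArg Prod.fst hy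
      simp only [e0, ej, hk z hz, if_true, le_refl])
    (Ω.card * (L * Ω.card)) (by
      rw [Finset.sum_comm]
      refine le_trans (Finset.sum_le_card_nsmul _ _ (L * Ω.card) fun y _ => ?_)
        (by rw [nsmul_eq_mul])
      calc ∑ x ∈ Ω, (if (D0 x ∩ Dj y).card ≤ k then
              (1 - lam)⁻¹ ^ ((Dj y \ D0 x) ∩ P (D0 x)).card else 0)
          ≤ ∑ x ∈ Ω, ∑ O ∈ smallSets ι k, (if Disjoint (D0 x) ((Dj y \ O) ∩ Finset.univ) then
              (1 - lam)⁻¹ ^ ((Dj y \ O) ∩ P (D0 x)).card else 0) := by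
            refine Finset.sum_le_sum fun x _ => ?_
            split_ifs with hx
            · refine le_trans (le_of_eq ?_) (Finset.single_le_sum
                (f := fun O => if Disjoint (D0 x) ((Dj y \ O) ∩ Finset.univ) then
                  (1 - lam)⁻¹ ^ ((Dj y \ O) ∩ P (D0 x)).card else 0)
                (fun O _ => by split_ifs <;> positivity) (mem_smallSets.2 hx))
              have e : Dj y \ (D0 x ∩ Dj y) = Dj y \ D0 x := by
                ext i; simp only [Finset.mem_sdiff, Finset.mem_inter]; tauto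
              simp only [e]
              rw [if_pos]
              rw [Finset.inter_univ]
              exact Finset.disjoint_sdiff
            · exact Finset.sum_nonneg fun O _ => by split_ifs <;> positivity
        _ ≤ L * Ω.card := by
            rw [Finset.sum_comm]
            refine le_trans (Finset.sum_le_card_nsmul _ _ (Ω.card : ℝ) fun O _ => hP _)
              (by rw [nsmul_eq_mul]))
  rw [Real.log_mul (by positivity) (by positivity), Real.log_mul hLpos.ne' hLpos.ne',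
    Real.log_mul hm.ne' (by positivity), Real.log_mul hLpos.ne' hm.ne'] at hp
  have hlam : lam ≤ Real.log (1 - lam)⁻¹ := by
    rw [Real.log_inv]
    have := Real.log_le_sub_one_of_pos (x := 1 - lam) (by linarith)
    linarith
  have h2 : lam * ∑ z ∈ Ω, (((Dj z \ D0 z) ∩ P (D0 z)).card : ℝ)
      ≤ ∑ z ∈ Ω, Real.log ((1 - lam)⁻¹ ^ ((Dj z \ D0 z) ∩ P (D0 z)).card) := by
    rw [Finset.mul_sum]
    refine Finset.sum_le_sum fun z _ => ?_
    rw [Real.log_pow, mul_comm]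
    exact mul_le_mul_of_nonneg_left hlam (by positivity)
  nlinarith

theorem star_numeric {m n l lm w w0 κ S0 S1 S2 S3 T0 T1 T2 T3 M : ℝ} (hm : 0 < m) (hn0 : 0 ≤ n)
    (l1 : 0.69 < l) (l2 : l < 0.7) (he : lm ≤ n * l)
    (hw : w ≤ (1 / 4 - 1 / 10 ^ 5) * n) (hw' : w0 ≤ (1 / 4 + 4 / 10 ^ 5) * n)
    (hL : κ ≤ n / 10 ^ 6)
    (a0 : m * (l * (n * (1 - 1 / 10 ^ 5) - 2 * w0) - 2 * l / (1 / 10 ^ 5) * (n * l - lm)) ≤ S0)
    (a1 : m * (l * (n * (1 - 1 / 10 ^ 5) - 2 * w) - 2 * l / (1 / 10 ^ 5) * (n * l - lm)) ≤ S1)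
    (a2 : m * (l * (n * (1 - 1 / 10 ^ 5) - 2 * w) - 2 * l / (1 / 10 ^ 5) * (n * l - lm)) ≤ S2)
    (a3 : m * (l * (n * (1 - 1 / 10 ^ 5) - 2 * w) - 2 * l / (1 / 10 ^ 5) * (n * l - lm)) ≤ S3)
    (s1 : S0 + S1 + 1 / 64 * T1 ≤ m * (κ + lm)) (s2 : S0 + S2 + 1 / 64 * T2 ≤ m * (κ + lm))
    (s3 : S0 + S3 + 1 / 64 * T3 ≤ m * (κ + lm))
    (q : -(4 * l) * M - m * (w0 * l + n * (1 / 16) - lm) ≤ S0)
    (hM : M ≤ T0 + T1 + T2 + T3) (hPm : T0 ≤ 1 / 64 * n * m) (t1 : 0 ≤ T1) (hM0 : 0 ≤ M) :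
    lm ≤ n * l - n / 10 ^ 11 := by
  obtain ⟨e, rfl⟩ : ∃ e, lm = n * l - e := ⟨n * l - lm, by ring⟩
  have he0 : 0 ≤ e := by linarith
  have b1 : l * w ≤ l * ((1 / 4 - 1 / 10 ^ 5) * n) := mul_le_mul_of_nonneg_left hw (by linarith)
  have b1' : l * w0 ≤ l * ((1 / 4 + 4 / 10 ^ 5) * n) :=
    mul_le_mul_of_nonneg_left hw' (by linarith)
  have b2 : 0.69 * n ≤ l * n := mul_le_mul_of_nonneg_right l1.le hn0
  have b2' : l * n ≤ 0.7 * n := mul_le_mul_of_nonneg_right l2.le hn0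
  have b3 : l * e ≤ 0.7 * e := mul_le_mul_of_nonneg_right l2.le he0
  have b4 : l * M ≤ 0.7 * M := mul_le_mul_of_nonneg_right l2.le hM0
  by_contra hcon
  push Not at hcon
  have he1 : e < n / 10 ^ 11 := by linarith
  have c0 : m * (l * n * (1 - 1 / 10 ^ 5) - 2 * ((1 / 4 + 4 / 10 ^ 5) * (l * n))
      - 2 * 10 ^ 5 * (0.7 * (n / 10 ^ 11))) ≤ S0 :=
    le_trans (mul_le_mul_of_nonneg_left (by linarith) hm.le) a0
  have c1 : m * (l * n * (1 - 1 / 10 ^ 5) - 2 * ((1 / 4 - 1 / 10 ^ 5) * (l * n))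
      - 2 * 10 ^ 5 * (0.7 * (n / 10 ^ 11))) ≤ S1 :=
    le_trans (mul_le_mul_of_nonneg_left (by linarith) hm.le) a1
  have c2 : m * (l * n * (1 - 1 / 10 ^ 5) - 2 * ((1 / 4 - 1 / 10 ^ 5) * (l * n))
      - 2 * 10 ^ 5 * (0.7 * (n / 10 ^ 11))) ≤ S2 :=
    le_trans (mul_le_mul_of_nonneg_left (by linarith) hm.le) a2
  have c3 : m * (l * n * (1 - 1 / 10 ^ 5) - 2 * ((1 / 4 - 1 / 10 ^ 5) * (l * n))
      - 2 * 10 ^ 5 * (0.7 * (n / 10 ^ 11))) ≤ S3 :=
    le_trans (mul_le_mul_of_nonneg_left (by linarith) hm.le) a3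
  have d : m * (κ + (n * l - e)) ≤ m * (n / 10 ^ 6 + l * n) :=
    mul_le_mul_of_nonneg_left (by linarith) hm.le
  have d' : m * (w0 * l + n * (1 / 16) - (n * l - e))
      ≤ m * ((1 / 4 + 4 / 10 ^ 5) * (l * n) + n * (1 / 16) - l * n + n / 10 ^ 11) :=
    mul_le_mul_of_nonneg_left (by linarith) hm.le
  have hnpos : 0 < n := by linarith
  have mn : 0 < m * n := mul_pos hm hnpos
  have g1 : m * (0.69 * n) ≤ m * (l * n) := mul_le_mul_of_nonneg_left b2 hm.le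
  have g2 : m * (l * n) ≤ m * (0.7 * n) := mul_le_mul_of_nonneg_left b2' hm.le
  linarith

/-- The wide part cannot determine the point together with each of the narrow parts. -/
theorem case_star {Ω : Finset (ι → Bool)} (hΩ : Ω.Nonempty)
    {D0 D1 D2 D3 : (ι → Bool) → Finset ι} {w w0 k : ℕ}
    (hw0 : ∀ x ∈ Ω, (D0 x).card ≤ w0) (hw1 : ∀ x ∈ Ω, (D1 x).card ≤ w)
    (hw2 : ∀ x ∈ Ω, (D2 x).card ≤ w) (hw3 : ∀ x ∈ Ω, (D3 x).card ≤ w)
    (hU0 : Unamb Ω D0) (hU1 : Unamb Ω D1) (hU2 : Unamb Ω D2) (hU3 : Unamb Ω D3)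
    (hcov : ∀ x ∈ Ω, ∀ i, i ∈ D0 x ∪ D1 x ∪ D2 x ∪ D3 x)
    (hk1 : ∀ z ∈ Ω, (D0 z ∩ D1 z).card ≤ k) (hk2 : ∀ z ∈ Ω, (D0 z ∩ D2 z).card ≤ k)
    (hk3 : ∀ z ∈ Ω, (D0 z ∩ D3 z).card ≤ k)
    (hK1 : ∀ x y, (Ω.filter fun z => tm D0 z = tm D0 x ∧ tm D1 z = tm D1 y).card
      ≤ (smallSets ι k).card * (smallSets ι k).card)
    (hK2 : ∀ x y, (Ω.filter fun z => tm D0 z = tm D0 x ∧ tm D2 z = tm D2 y).card
      ≤ (smallSets ι k).card * (smallSets ι k).card)
    (hK3 : ∀ x y, (Ω.filter fun z => tm D0 z = tm D0 x ∧ tm D3 z = tm D3 y).card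
      ≤ (smallSets ι k).card * (smallSets ι k).card)
    (hw : (w : ℝ) ≤ (1 / 4 - 1 / 10 ^ 5) * Fintype.card ι)
    (hw' : (w0 : ℝ) ≤ (1 / 4 + 4 / 10 ^ 5) * Fintype.card ι)
    (hL : 3 * Real.log (smallSets ι k).card ≤ Fintype.card ι / 10 ^ 6) :
    Real.log Ω.card ≤ Fintype.card ι * Real.log 2 - Fintype.card ι / 10 ^ 11 := by
  have hm : (0 : ℝ) < Ω.card := by exact_mod_cast hΩ.card_pos
  obtain ⟨P, -, hPi, hPm, hPw⟩ := predict (1 / 64 : ℝ) (by norm_num) (by norm_num) D0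
    Finset.univ Ω
  have a0 := know Ω hΩ D0 w0 hw0 hU0 (1 / 10 ^ 5) (by norm_num) (by norm_num)
  have a1 := know Ω hΩ D1 w hw1 hU1 (1 / 10 ^ 5) (by norm_num) (by norm_num)
  have a2 := know Ω hΩ D2 w hw2 hU2 (1 / 10 ^ 5) (by norm_num) (by norm_num)
  have a3 := know Ω hΩ D3 w hw3 hU3 (1 / 10 ^ 5) (by norm_num) (by norm_num)
  have s1 := star_part hΩ hk1 hK1 (lam := 1 / 64) (by norm_num) hPw
  have s2 := star_part hΩ hk2 hK2 (lam := 1 / 64) (by norm_num) hPw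
  have s3 := star_part hΩ hk3 hK3 (lam := 1 / 64) (by norm_num) hPw
  have hMinj : Function.Injective fun A : Finset ι => symmDiff A (P A) := by
    intro A A' h
    ext i
    refine hPi A A' (fun j _ => ?_) i (Finset.mem_univ i)
    have := congrArg (fun T => j ∈ T) h
    simp only [Finset.mem_symmDiff, eq_iff_iff] at this
    tauto
  have q := cls_large_of_predict Ω hΩ D0 w0 hw0 _ hMinj (1 / 16 : ℝ) (by norm_num)
  have hl16 : Real.log (1 / 16 : ℝ) = -(4 * Real.log 2) := by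
    rw [one_div, Real.log_inv, show (16 : ℝ) = 2 ^ 4 by norm_num, Real.log_pow]; norm_num
  rw [hl16] at q
  have hM : ∑ x ∈ Ω, ((symmDiff (D0 x) (P (D0 x))).card : ℝ)
      ≤ ∑ x ∈ Ω, (((D0 x ∩ Finset.univ) \ P (D0 x)).card : ℝ)
        + ∑ z ∈ Ω, (((D1 z \ D0 z) ∩ P (D0 z)).card : ℝ)
        + ∑ z ∈ Ω, (((D2 z \ D0 z) ∩ P (D0 z)).card : ℝ)
        + ∑ z ∈ Ω, (((D3 z \ D0 z) ∩ P (D0 z)).card : ℝ) := by
    rw [← Finset.sum_add_distrib, ← Finset.sum_add_distrib, ← Finset.sum_add_distrib]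
    refine Finset.sum_le_sum fun z hz => ?_
    have hsub : symmDiff (D0 z) (P (D0 z)) ⊆ ((D0 z ∩ Finset.univ) \ P (D0 z))
        ∪ ((D1 z \ D0 z) ∩ P (D0 z)) ∪ ((D2 z \ D0 z) ∩ P (D0 z))
        ∪ ((D3 z \ D0 z) ∩ P (D0 z)) := by
      intro i hi
      have := hcov z hz i
      simp only [Finset.mem_symmDiff, Finset.mem_union, Finset.mem_inter, Finset.mem_sdiff,
        Finset.mem_univ, and_true] at hi this ⊢
      tauto
    have h1 := Finset.card_le_card hsub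
    have h2 := Finset.card_union_le (((D0 z ∩ Finset.univ) \ P (D0 z))
        ∪ ((D1 z \ D0 z) ∩ P (D0 z)) ∪ ((D2 z \ D0 z) ∩ P (D0 z))) ((D3 z \ D0 z) ∩ P (D0 z))
    have h3 := Finset.card_union_le (((D0 z ∩ Finset.univ) \ P (D0 z))
        ∪ ((D1 z \ D0 z) ∩ P (D0 z))) ((D2 z \ D0 z) ∩ P (D0 z))
    have h4 := Finset.card_union_le ((D0 z ∩ Finset.univ) \ P (D0 z))
        ((D1 z \ D0 z) ∩ P (D0 z))
    have h5 : (symmDiff (D0 z) (P (D0 z))).card ≤ ((D0 z ∩ Finset.univ) \ P (D0 z)).card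
        + ((D1 z \ D0 z) ∩ P (D0 z)).card + ((D2 z \ D0 z) ∩ P (D0 z)).card
        + ((D3 z \ D0 z) ∩ P (D0 z)).card := by omega
    exact_mod_cast h5
  rw [Finset.card_univ] at hPm
  exact star_numeric hm (by positivity) log_two_bounds.1 log_two_bounds.2 (deficiency_nonneg hΩ)
    hw hw' hL a0 a1 a2 a3 s1 s2 s3 q hM hPm (Finset.sum_nonneg fun _ _ => Nat.cast_nonneg _)
    (Finset.sum_nonneg fun _ _ => Nat.cast_nonneg _)

end Pool.Agent.Lib.MP_8a52c3_lc
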