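import Pool.Agent.Shared.PolyTime.Nat

/-! The hard language and its membership in `P`. -/

namespace Pool.Agent.Lib.MP_8a52c3_lc

open N68a2faeb

/-- The bit at position `j`. -/
def bitAt (w : List Bool) (j : ℕ) : Bool := (w.drop j).headD false

/-- The largest `n` with `2 n ^ 4 + 2 ≤ N`. -/
def side (N : ℕ) : ℕ :=
  ((List.range N).filter fun m => decide (2 * (m + 1) ^ 4 + 2 ≤ N)).length

/-- The monomial `q` with its coefficient, evaluated on block `b`. -/
def term (w : List Bool) (n b q : ℕ) : Bool :=
  bitAt w q && (bitAt w (n ^ 4 + b * n + q / n ^ 3 % n) && bitAt w (n ^ 4 + b * n + q / n ^ 2 % n)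
    && bitAt w (n ^ 4 + b * n + q / n % n) && bitAt w (n ^ 4 + b * n + q % n))

/-- Number of true terms. -/
def total (w : List Bool) (n : ℕ) : ℕ :=
  ((List.range (n ^ 3)).flatMap fun b => (List.range (n ^ 4)).filter fun q => term w n b q).length
    + (bitAt w (2 * n ^ 4)).toNat

/-- The hard language. -/
def hardL (w : List Bool) : Bool :=
  decide ((w.filter fun b => b).length % 2 = 0) && decide (total w (side w.length) % 2 = 1)

theorem bitAt_poly {α : Type} [N487b59b3 α] {w : α → List Bool} {j : α → ℕ} (hw : IsPolyTime w)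
    (hj : IsPolyTime j) : IsPolyTime fun x => bitAt (w x) (j x) := by
  unfold bitAt; fun_prop

theorem side_poly : IsPolyTime fun w : List Bool => side w.length := by
  unfold side; fun_prop

theorem side_bdd : Pool.Agent.Shared.PolyTime.PolyBdd fun w : List Bool => side w.length := by
  unfold side; fun_prop

theorem term_poly {α : Type} [N487b59b3 α] {w : α → List Bool} {n b q : α → ℕ} (hw : IsPolyTime w)
    (hn : IsPolyTime n) (hb : IsPolyTime b) (hq : IsPolyTime q) :
    IsPolyTime fun x => term (w x) (n x) (b x) (q x) := by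
  unfold term
  refine (bitAt_poly hw hq).and (((IsPolyTime.and (bitAt_poly hw ?_) (bitAt_poly hw ?_)).and
    (bitAt_poly hw ?_)).and (bitAt_poly hw ?_)) <;> fun_prop

theorem total_poly : IsPolyTime fun w : List Bool => total w (side w.length) := by
  have h1 := side_poly
  have h2 := side_bdd
  unfold total
  refine IsPolyTime.add (IsPolyTime.length (IsPolyTime.flatMap (IsPolyTime.filter
    (term_poly (by fun_prop) (h1.comp (by fun_prop)) (by fun_prop) (by fun_prop))
    (IsPolyTime.range ((h1.comp (by fun_prop)).pow (by fun_prop) (by fun_prop))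
      ((h2.comp (by fun_prop)).pow 4)))
    (IsPolyTime.range (h1.pow (by fun_prop) (by fun_prop)) (h2.pow 3))))
    (IsPolyTime.toNat_bool (bitAt_poly (by fun_prop)
      (IsPolyTime.mul (by fun_prop) (h1.pow (by fun_prop) (by fun_prop)))))

theorem hardL_mem_P : hardL ∈ P := by
  have h := total_poly
  show IsPolyTime hardL
  unfold hardL
  refine IsPolyTime.and (by fun_prop) (IsPolyTime.decide_eq (h.mod (by fun_prop)) (by fun_prop))

end Pool.Agent.Lib.MP_8a52c3_lc
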