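import Pool.Agent.Lib.MP_8a52c3_lc.NbpCore

/-! A degree four polynomial over `GF(2)` without large monochromatic rectangles. -/

namespace Pool.Agent.Lib.MP_8a52c3_lc

open Finset

set_option linter.unusedSectionVars false

variable {ι σ : Type*} [Fintype ι] [DecidableEq ι] [Fintype σ] [DecidableEq σ]

/-- The monomial with index `q`. -/
def mono (μ : σ → ι × ι × ι × ι) (q : σ) (u : ι → Bool) : Bool :=
  u (μ q).1 && u (μ q).2.1 && u (μ q).2.2.1 && u (μ q).2.2.2

/-- Number of monomials with coefficient one that evaluate to one. -/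
def pv (μ : σ → ι × ι × ι × ι) (c : σ → Bool) (u : ι → Bool) : ℕ :=
  (Finset.univ.filter fun q => (c q && mono μ q u) = true).card

theorem indep_count (μ : σ → ι × ι × ι × ι) {T : Type*} [Fintype T] [DecidableEq T]
    (p : T → ι → Bool) (q : T → σ) (h : ∀ s s', mono μ (q s) (p s') = true ↔ s = s') (τ : ℕ) :
    (Finset.univ.filter fun c : σ → Bool => ∀ s, pv μ c (p s) % 2 = τ).card * 2 ^ Fintype.card T
      ≤ 2 ^ Fintype.card σ := by
  classical
  have hq : Function.Injective q := fun s s' e => (h s s').1 (by rw [e]; exact (h s' s').2 rfl)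
  have hdec : ∀ (c : σ → Bool) (s : T), pv μ c (p s) = (if c (q s) = true then 1 else 0)
      + (Finset.univ.filter fun r => (¬ ∃ s', q s' = r) ∧ (c r && mono μ r (p s)) = true).card := by
    intro c s
    rw [pv, ← Finset.card_filter_add_card_filter_not (fun r => ∃ s', q s' = r),
      Finset.filter_filter, Finset.filter_filter]
    congr 1
    · split_ifs with hc
      · rw [Finset.card_eq_one]
        refine ⟨q s, ?_⟩
        ext r
        simp only [Finset.mem_filter, Finset.mem_univ, true_and, Finset.mem_singleton,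
          Bool.and_eq_true]
        constructor
        · rintro ⟨⟨_, h2⟩, s', rfl⟩
          rw [(h s' s).1 h2]
        · rintro rfl
          exact ⟨⟨hc, (h s s).2 rfl⟩, s, rfl⟩
      · rw [Finset.card_eq_zero, Finset.filter_eq_empty_iff]
        rintro r _ ⟨h1, s', rfl⟩
        rw [Bool.and_eq_true] at h1
        exact hc (((h s' s).1 h1.2) ▸ h1.1)
    · congr 1
      exact Finset.filter_congr fun r _ => and_comm
  have h1 : 2 ^ Fintype.card T = (Finset.univ : Finset (T → Bool)).card := by simp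
  have h2 : 2 ^ Fintype.card σ = (Finset.univ : Finset (σ → Bool)).card := by simp
  rw [h1, h2, ← Finset.card_product]
  refine Finset.card_le_card_of_injOn (fun z => Function.extend q z.2 z.1) (by simp) ?_
  rintro ⟨c, g⟩ hc ⟨c', g'⟩ hc' e
  simp only [Finset.coe_product, Set.mem_prod, Finset.mem_coe, Finset.mem_filter,
    Finset.mem_univ, true_and, and_true] at hc hc' e
  have e1 : g = g' := funext fun s => by
    have := congrFun e (q s)
    rwa [hq.extend_apply, hq.extend_apply] at this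
  have e2 : ∀ r, (¬ ∃ s', q s' = r) → c r = c' r := fun r hr => by
    have := congrFun e r
    rwa [Function.extend_apply' _ _ _ hr, Function.extend_apply' _ _ _ hr] at this
  refine Prod.ext (funext fun r => ?_) e1
  by_cases hr : ∃ s', q s' = r
  · obtain ⟨s, rfl⟩ := hr
    have a := hc s
    have a' := hc' s
    rw [hdec] at a a'
    have : (Finset.univ.filter fun r => (¬ ∃ s', q s' = r) ∧ (c r && mono μ r (p s)) = true)
        = (Finset.univ.filter fun r => (¬ ∃ s', q s' = r) ∧ (c' r && mono μ r (p s)) = true) :=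
      Finset.filter_congr fun r _ => and_congr_right fun hr => by rw [e2 r hr]
    rw [this] at a
    show c (q s) = c' (q s)
    cases h1 : c (q s) <;> cases h2 : c' (q s) <;> simp only [h1, h2] at a a' <;> first
      | rfl
      | (simp at a a'; omega)
  · exact e2 r hr

theorem exists_shattered {k : ℕ} (A : Finset ι) (x : ι → Bool) (U : Finset (ι → Bool))
    (hU : ∀ u ∈ U, ∀ i, i ∉ A → u i = x i) (hc : (smallSets ι k).card < U.card) :
    ∃ R : Finset ι, R ⊆ A ∧ k < R.card ∧ ∀ e ⊆ R, ∃ u ∈ U, ∀ i ∈ R, (u i = true ↔ i ∈ e) := by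
  classical
  set 𝒜 := U.image fun u => Finset.univ.filter fun i => u i = true with h𝒜
  have h1 : 𝒜.card = U.card := by
    refine Finset.card_image_of_injOn fun u _ u' _ e => funext fun i => ?_
    have := congrArg (fun T => i ∈ T) e
    simp only [Finset.mem_filter, Finset.mem_univ, true_and, eq_iff_iff] at this
    exact Bool.eq_iff_iff.2 this
  have h2 := Finset.card_le_card_shatterer 𝒜
  obtain ⟨R, hR, hRk⟩ : ∃ R ∈ 𝒜.shatterer, R ∉ smallSets ι k := by
    by_contra hcon
    push Not at hcon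
    have := Finset.card_le_card (show 𝒜.shatterer ⊆ smallSets ι k from hcon)
    omega
  rw [Finset.mem_shatterer] at hR
  rw [mem_smallSets, not_le] at hRk
  have key : ∀ e ⊆ R, ∃ u ∈ U, ∀ i ∈ R, (u i = true ↔ i ∈ e) := by
    intro e he
    obtain ⟨S, hS, hSe⟩ := hR he
    obtain ⟨u, hu, rfl⟩ := Finset.mem_image.1 hS
    refine ⟨u, hu, fun i hi => ?_⟩
    rw [← hSe]; simp [hi]
  refine ⟨R, fun i hi => ?_, hRk, key⟩
  by_contra hiA
  obtain ⟨u, hu, h3⟩ := key ∅ (Finset.empty_subset _)
  obtain ⟨u', hu', h4⟩ := key {i} (by simpa using hi)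
  have a := h3 i hi
  have b := h4 i hi
  rw [hU u hu i hiA] at a
  rw [hU u' hu' i hiA] at b
  simp at a b
  rw [a] at b
  exact absurd b (by simp)

theorem exists_pairs {t : ℕ} {R : Finset ι} {U : Finset (ι → Bool)} (ht : t ≤ R.card.choose 2)
    (h : ∀ e ⊆ R, ∃ u ∈ U, ∀ i ∈ R, (u i = true ↔ i ∈ e)) :
    ∃ (i j : Fin t → ι) (a : Fin t → ι → Bool), (∀ s, i s ∈ R ∧ j s ∈ R ∧ a s ∈ U) ∧
      ∀ s s', (a s' (i s) = true ∧ a s' (j s) = true) ↔ s = s' := by
  classical
  obtain ⟨g⟩ : Nonempty (Fin t ↪ (Finset.powersetCard 2 R)) :=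
    Function.Embedding.nonempty_of_card_le (by
      rw [Fintype.card_fin, Fintype.card_coe, Finset.card_powersetCard]; exact ht)
  have hg : ∀ s, (g s : Finset ι) ⊆ R ∧ (g s : Finset ι).card = 2 := fun s =>
    Finset.mem_powersetCard.1 (g s).2
  choose i j hne hij using fun s => Finset.card_eq_two.1 (hg s).2
  choose a haU ha using fun s => h (g s) (hg s).1
  have hi : ∀ s, i s ∈ R := fun s => (hg s).1 (by rw [hij]; simp)
  have hj : ∀ s, j s ∈ R := fun s => (hg s).1 (by rw [hij]; simp)
  refine ⟨i, j, a, fun s => ⟨hi s, hj s, haU s⟩, fun s s' => ?_⟩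
  rw [ha s' _ (hi s), ha s' _ (hj s)]
  constructor
  · rintro ⟨h1, h2⟩
    have : (g s : Finset ι) ⊆ g s' := by
      rw [hij s]
      intro r hr
      simp only [Finset.mem_insert, Finset.mem_singleton] at hr
      rcases hr with rfl | rfl
      · exact h1
      · exact h2
    exact g.injective (Subtype.ext (Finset.eq_of_subset_of_card_le this
      (by rw [(hg s).2, (hg s').2])))
  · rintro rfl
    rw [hij]; simp

theorem exists_good_seed (μ : σ → ι × ι × ι × ι) (hμ : Function.Surjective μ) {k : ℕ}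
    (hk : 2 * Fintype.card ι + 2 ≤ (k + 1).choose 2) :
    ∃ c : σ → Bool, ∀ τ : ℕ, τ < 2 →
      RectFree (fun u => pv μ c u % 2 = τ) (smallSets ι k).card := by
  classical
  set n := Fintype.card ι with hn
  set t := 2 * n + 2 with ht
  let Cfg := Fin 2 × Finset ι × (Fin t → ι → Bool) × (Fin t → ι → Bool)
  let pt : Cfg → Fin t × Fin t → ι → Bool := fun g s i =>
    if i ∈ g.2.1 then g.2.2.1 s.1 i else g.2.2.2 s.2 i
  let Bad : Cfg → Finset (σ → Bool) := fun g => Finset.univ.filter fun c =>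
    (∃ q : Fin t × Fin t → σ, ∀ s s', mono μ (q s) (pt g s') = true ↔ s = s') ∧
      ∀ s, pv μ c (pt g s) % 2 = g.1.val
  have hBad : ∀ g, (Bad g).card * 2 ^ (t * t) ≤ 2 ^ Fintype.card σ := by
    intro g
    by_cases hq : ∃ q : Fin t × Fin t → σ, ∀ s s', mono μ (q s) (pt g s') = true ↔ s = s'
    · obtain ⟨q, hq⟩ := hq
      have := indep_count μ (pt g) q hq g.1.val
      simp only [Fintype.card_prod, Fintype.card_fin] at this
      refine le_trans (Nat.mul_le_mul_right _ (Finset.card_le_card fun c hc => ?_)) this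
      exact Finset.mem_filter.2 ⟨Finset.mem_univ _, (Finset.mem_filter.1 hc).2.2⟩
    · have : Bad g = ∅ := Finset.filter_eq_empty_iff.2 fun c _ h => hq h.1
      rw [this]; simp
  have hCfg : Fintype.card Cfg < 2 ^ (t * t) := by
    have : Fintype.card Cfg = 2 ^ (1 + n + n * t + n * t) := by
      simp only [Cfg, Fintype.card_prod, Fintype.card_fin, Fintype.card_finset, Fintype.card_pi,
        Fintype.card_bool, Finset.prod_const, Finset.card_univ, ← hn]
      ring
    rw [this]
    refine Nat.pow_lt_pow_right (by norm_num) ?_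
    rw [ht]; nlinarith
  obtain ⟨c, hc⟩ : ∃ c : σ → Bool, c ∉ (Finset.univ : Finset Cfg).biUnion Bad := by
    by_contra hcon
    push Not at hcon
    have h1 : (Finset.univ : Finset (σ → Bool)).card
        ≤ ((Finset.univ : Finset Cfg).biUnion Bad).card :=
      Finset.card_le_card fun c _ => hcon c
    have h2 := h1.trans Finset.card_biUnion_le
    have h3 : (∑ g : Cfg, (Bad g).card) * 2 ^ (t * t) ≤ Fintype.card Cfg * 2 ^ Fintype.card σ := by
      rw [Finset.sum_mul]
      refine (Finset.sum_le_card_nsmul _ _ _ fun g _ => hBad g).trans (by simp)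
    have h4 : (Finset.univ : Finset (σ → Bool)).card = 2 ^ Fintype.card σ := by simp
    rw [h4] at h2
    have h5 := (Nat.mul_le_mul_right (2 ^ (t * t)) h2).trans h3
    have h6 : Fintype.card Cfg * 2 ^ Fintype.card σ < 2 ^ (t * t) * 2 ^ Fintype.card σ :=
      Nat.mul_lt_mul_of_pos_right hCfg (by positivity)
    rw [mul_comm] at h5
    omega
  refine ⟨c, fun τ hτ A x U V hU hV hf => ?_⟩
  by_contra hcon
  push Not at hcon
  obtain ⟨R, hRA, hRk, hR⟩ := exists_shattered A x U hU hcon.1
  obtain ⟨R', hRA', hRk', hR'⟩ := exists_shattered Aᶜ x V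
    (fun v hv i hi => hV v hv i (by simpa using hi)) hcon.2
  obtain ⟨i1, j1, a, ha1, ha2⟩ := exists_pairs (t := t)
    (hk.trans (Nat.choose_le_choose 2 hRk)) hR
  obtain ⟨i2, j2, b, hb1, hb2⟩ := exists_pairs (t := t)
    (hk.trans (Nat.choose_le_choose 2 hRk')) hR'
  refine hc (Finset.mem_biUnion.2 ⟨(⟨τ, hτ⟩, A, a, b), Finset.mem_univ _,
    Finset.mem_filter.2 ⟨Finset.mem_univ _, ?_, fun s => hf _ (ha1 s.1).2.2 _ (hb1 s.2).2.2⟩⟩)
  choose q hq using fun s : Fin t × Fin t => hμ (i1 s.1, j1 s.1, i2 s.2, j2 s.2)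
  refine ⟨q, fun s s' => ?_⟩
  have m1 := hRA (ha1 s.1).1
  have m2 := hRA (ha1 s.1).2.1
  have m3 := Finset.mem_compl.1 (hRA' (hb1 s.2).1)
  have m4 := Finset.mem_compl.1 (hRA' (hb1 s.2).2.1)
  simp only [mono, hq, pt, m1, m2, m3, m4, if_true, if_false, Bool.and_eq_true]
  rw [Prod.ext_iff, ← ha2, ← hb2]
  tauto

end Pool.Agent.Lib.MP_8a52c3_lc
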