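import Pool.Agent.Lib.MP_8a52c3_lc.NbpProg
import Pool.Agent.Lib.MP_8a52c3_lc.NbpSeed
import Pool.Agent.Lib.MP_8a52c3_lc.NbpLang

/-! The lower bound for the hard language, for an abstract walk relation. -/

namespace Pool.Agent.Lib.MP_8a52c3_lc

open Finset

theorem length_filter_range (m : ℕ) (p : ℕ → Bool) :
    ((List.range m).filter p).length
      = (Finset.univ.filter fun q : Fin m => p q = true).card := by
  rw [Finset.card_filter, Fin.sum_univ_eq_sum_range (fun q => if p q = true then 1 else 0) m]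
  induction m with
  | zero => simp
  | succ m ih =>
    rw [List.range_succ, List.filter_append, List.length_append, ih, Finset.sum_range_succ]
    cases h : p m <;> simp [h]

theorem side_spec {N : ℕ} (hN : 2 ≤ N) :
    2 * side N ^ 4 + 2 ≤ N ∧ N < 2 * (side N + 1) ^ 4 + 2 := by
  set n0 := Nat.sqrt (Nat.sqrt ((N - 2) / 2)) with hn0
  have key : ∀ m : ℕ, 2 * m ^ 4 + 2 ≤ N ↔ m ≤ n0 := by
    intro m
    rw [hn0, Nat.le_sqrt', Nat.le_sqrt', ← pow_mul]
    norm_num
    omega
  have hle : n0 ≤ N := by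
    have h1 := (key n0).2 le_rfl
    have h2 : n0 ≤ n0 ^ 4 := Nat.le_self_pow (by norm_num) _
    omega
  have hs : side N = n0 := by
    rw [side, length_filter_range]
    have : (Finset.univ.filter fun q : Fin N => decide (2 * (q.val + 1) ^ 4 + 2 ≤ N) = true)
        = Finset.univ.filter fun q : Fin N => q.val < n0 := by
      refine Finset.filter_congr fun q _ => ?_
      rw [decide_eq_true_iff, key]; omega
    rw [this, Fin.card_filter_val_lt, min_eq_right hle]
  rw [hs]
  refine ⟨(key n0).2 le_rfl, ?_⟩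
  by_contra h
  have := (key (n0 + 1)).1 (not_lt.1 h)
  omega

theorem bitAt_ofFn {N : ℕ} (x : Fin N → Bool) {j : ℕ} (h : j < N) :
    bitAt (List.ofFn x) j = x ⟨j, h⟩ := by
  have hj : j < (List.ofFn x).length := by simpa using h
  rw [bitAt, List.drop_eq_getElem_cons hj]
  simp

theorem length_filter_ofFn {N : ℕ} (x : Fin N → Bool) :
    ((List.ofFn x).filter fun b => b).length = ∑ j, (x j).toNat := by
  have : ∀ l : List Bool, (l.filter fun b => b).length = (l.map Bool.toNat).sum := by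
    intro l
    induction l with
    | nil => simp
    | cons b l ih => cases b <;> simp [ih, add_comm]
  rw [this, List.map_ofFn, List.sum_ofFn]
  rfl

theorem sum_toNat_update {κ : Type*} [Fintype κ] [DecidableEq κ] (x : κ → Bool) (i : κ) :
    (∑ j, (Function.update x i (!x i) j).toNat) % 2 ≠ (∑ j, (x j).toNat) % 2 := by
  rw [← Finset.add_sum_erase _ _ (Finset.mem_univ i),
    ← Finset.add_sum_erase _ (fun j => (x j).toNat) (Finset.mem_univ i)]
  have : ∑ j ∈ Finset.univ.erase i, (Function.update x i (!x i) j).toNat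
      = ∑ j ∈ Finset.univ.erase i, (x j).toNat :=
    Finset.sum_congr rfl fun j hj => by rw [Function.update_of_ne (Finset.ne_of_mem_erase hj)]
  rw [this, Function.update_self]
  cases x i <;> simp <;> omega

theorem hardL_iff {N : ℕ} (x : Fin N → Bool) : hardL (List.ofFn x) = true ↔
    (∑ j, (x j).toNat) % 2 = 0 ∧ total (List.ofFn x) (side N) % 2 = 1 := by
  simp only [hardL, Bool.and_eq_true, decide_eq_true_iff, length_filter_ofFn, List.length_ofFn]

theorem hardL_sens (N : ℕ) : Sens fun x : Fin N → Bool => hardL (List.ofFn x) = true := by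
  intro x i h1 h2
  rw [hardL_iff] at h1 h2
  exact sum_toNat_update x i (h2.1.trans h1.1.symm)

section layout

variable {N n : ℕ}

/-- Digits of a coefficient index. -/
def digits (hn : 0 < n) (q : Fin (n ^ 4)) : Fin n × Fin n × Fin n × Fin n :=
  (⟨q / n ^ 3 % n, Nat.mod_lt _ hn⟩, ⟨q / n ^ 2 % n, Nat.mod_lt _ hn⟩,
    ⟨q / n % n, Nat.mod_lt _ hn⟩, ⟨q % n, Nat.mod_lt _ hn⟩)

theorem digits_surjective (hn : 0 < n) : Function.Surjective (digits hn) := by
  rintro ⟨i, j, k, l⟩
  have hi := i.2; have hj := j.2; have hk := k.2; have hl := l.2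
  have step : ∀ a b : ℕ, b < n → (b + n * a) / n = a ∧ (b + n * a) % n = b := fun a b hb =>
    ⟨by rw [Nat.add_mul_div_left _ _ hn, Nat.div_eq_of_lt hb, zero_add],
      by rw [Nat.add_mul_mod_self_left, Nat.mod_eq_of_lt hb]⟩
  have bound : ∀ a b m : ℕ, b < n → a < m → b + n * a < n * m := fun a b m hb ha => by
    nlinarith
  have hq : l + n * (k + n * (j + n * i)) < n ^ 4 := by
    have := bound _ _ _ hl (bound _ _ _ hk (bound _ _ _ hj hi))
    calc _ < n * (n * (n * n)) := this
      _ = n ^ 4 := by ring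
  refine ⟨⟨_, hq⟩, ?_⟩
  have e2 : ∀ q : ℕ, q / n ^ 2 = q / n / n := fun q => by rw [Nat.div_div_eq_div_mul, sq]
  have e3 : ∀ q : ℕ, q / n ^ 3 = q / n / n / n := fun q => by
    rw [Nat.div_div_eq_div_mul, Nat.div_div_eq_div_mul]; congr 1; ring
  simp only [digits, e2, e3, (step _ _ hl).1, (step _ _ hl).2,
    (step _ _ hk).1, (step _ _ hk).2, (step _ _ hj).1, (step _ _ hj).2, Nat.mod_eq_of_lt hi]

theorem pos_lt (b : Fin (n ^ 3)) (i : Fin n) : b.val * n + i.val < n ^ 4 := by
  have hb := b.2; have hi := i.2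
  have : (b.val + 1) * n ≤ n ^ 3 * n := Nat.mul_le_mul_right _ hb
  calc b.val * n + i.val < (b.val + 1) * n := by nlinarith
    _ ≤ n ^ 3 * n := this
    _ = n ^ 4 := by ring

/-- Position of the `i`-th variable of block `b`. -/
def pos (hN : 2 * n ^ 4 + 2 ≤ N) (b : Fin (n ^ 3)) (i : Fin n) : Fin N :=
  ⟨n ^ 4 + b * n + i, by have := pos_lt b i; omega⟩

theorem pos_div_mod (hn : 0 < n) (b : Fin (n ^ 3)) (i : Fin n) :
    (n ^ 4 + b * n + i - n ^ 4) / n = b ∧ (n ^ 4 + b * n + i - n ^ 4) % n = i := by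
  have : n ^ 4 + b * n + i - n ^ 4 = i + b * n := by omega
  rw [this]
  exact ⟨by rw [Nat.add_mul_div_right _ _ hn, Nat.div_eq_of_lt i.2, zero_add],
    by rw [Nat.add_mul_mod_self_right, Nat.mod_eq_of_lt i.2]⟩

theorem pos_inj (hn : 0 < n) (hN : 2 * n ^ 4 + 2 ≤ N) (b : Fin (n ^ 3)) (i : Fin n)
    (b' : Fin (n ^ 3)) (i' : Fin n) (h : pos hN b i = pos hN b' i') : b = b' ∧ i = i' := by
  have h1 : n ^ 4 + b * n + i = n ^ 4 + b' * n + i' := congrArg Fin.val h
  have a := pos_div_mod hn b i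
  have a' := pos_div_mod hn b' i'
  rw [h1] at a
  exact ⟨Fin.ext (a.1.symm.trans a'.1), Fin.ext (a.2.symm.trans a'.2)⟩

theorem div_lt_cube (hn : 0 < n) {j : ℕ} (h : j < 2 * n ^ 4) : (j - n ^ 4) / n < n ^ 3 := by
  rw [Nat.div_lt_iff_lt_mul hn]
  have : n ^ 3 * n = n ^ 4 := by ring
  have : 0 < n ^ 4 := by positivity
  omega

/-- The input assembled from coefficients, two extra bits and the blocks. -/
def asm (hn : 0 < n) (c : Fin (n ^ 4) → Bool) (τ π : Bool) (y : Fin (n ^ 3) → Fin n → Bool)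
    (j : Fin N) : Bool :=
  if h : j.val < n ^ 4 then c ⟨j, h⟩
  else if h2 : j.val < 2 * n ^ 4 then
    y ⟨(j - n ^ 4) / n, div_lt_cube hn h2⟩ ⟨(j - n ^ 4) % n, Nat.mod_lt _ hn⟩
  else if j.val = 2 * n ^ 4 then τ else if j.val = 2 * n ^ 4 + 1 then π else false

variable (hn : 0 < n) (hN : 2 * n ^ 4 + 2 ≤ N) (c : Fin (n ^ 4) → Bool) (τ π : Bool)

theorem asm_pos (y : Fin (n ^ 3) → Fin n → Bool) (b : Fin (n ^ 3)) (i : Fin n) :
    asm hn c τ π y (pos hN b i) = y b i := by
  have h1 := pos_lt b i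
  have h2 := pos_div_mod hn b i
  rw [asm, dif_neg (by simp only [pos]; omega), dif_pos (by simp only [pos]; omega)]
  congr 1
  · exact Fin.ext h2.1
  · exact Fin.ext h2.2

theorem asm_congr (y y' : Fin (n ^ 3) → Fin n → Bool) (j : Fin N)
    (h : ∀ b i, pos hN b i = j → y b i = y' b i) : asm hn c τ π y j = asm hn c τ π y' j := by
  unfold asm
  split_ifs with h1 h2 <;> try rfl
  refine h _ _ (Fin.ext ?_)
  have := Nat.div_add_mod' (j - n ^ 4) n
  simp only [pos]
  omega

theorem sum_map_range (m : ℕ) (g : ℕ → ℕ) :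
    ((List.range m).map g).sum = ∑ b : Fin m, g b := by
  rw [Fin.sum_univ_eq_sum_range g m]
  induction m with
  | zero => simp
  | succ m ih => rw [List.range_succ, List.map_append, List.sum_append, ih, Finset.sum_range_succ]
                 simp

include hN in
theorem total_asm (y : Fin (n ^ 3) → Fin n → Bool) :
    total (List.ofFn (asm (N := N) hn c τ π y)) n
      = ∑ b, pv (digits hn) c (y b) + τ.toNat := by
  have h4 : 0 < n ^ 4 := by positivity
  unfold total
  congr 1
  · rw [List.length_flatMap, sum_map_range]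
    refine Finset.sum_congr rfl fun b _ => ?_
    rw [length_filter_range, pv]
    congr 1
    refine Finset.filter_congr fun q _ => ?_
    have hb : ∀ i : Fin n, bitAt (List.ofFn (asm (N := N) hn c τ π y)) (n ^ 4 + b * n + i)
        = y b i := fun i => by
      exact (bitAt_ofFn _ (pos hN b i).2).trans (asm_pos hn hN c τ π y b i)
    have hq := q.2
    have hc : bitAt (List.ofFn (asm (N := N) hn c τ π y)) q = c q := by
      rw [bitAt_ofFn _ (by omega : q.val < N), asm, dif_pos hq]
    have h1 := hb (digits hn q).1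
    have h2 := hb (digits hn q).2.1
    have h3 := hb (digits hn q).2.2.1
    have h4 := hb (digits hn q).2.2.2
    rw [term, hc, mono, ← h1, ← h2, ← h3, ← h4]
    rfl
  · rw [bitAt_ofFn _ (by omega : 2 * n ^ 4 < N), asm, dif_neg (by simp only; omega),
      dif_neg (by simp), if_pos rfl]

include hN in
theorem asm_flip (y : Fin (n ^ 3) → Fin n → Bool) :
    asm (N := N) hn c τ (!π) y = Function.update (asm hn c τ π y) ⟨2 * n ^ 4 + 1, by omega⟩
      (!asm (N := N) hn c τ π y ⟨2 * n ^ 4 + 1, by omega⟩) := by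
  have h4 : 0 < n ^ 4 := by positivity
  have key : ∀ π, asm (N := N) hn c τ π y ⟨2 * n ^ 4 + 1, by omega⟩ = π := fun π => by
    rw [asm, dif_neg (by simp only; omega), dif_neg (by simp only; omega),
      if_neg (by simp only; omega), if_pos rfl]
  funext j
  by_cases hj : j = ⟨2 * n ^ 4 + 1, by omega⟩
  · subst hj; rw [Function.update_self, key, key]
  · rw [Function.update_of_ne hj]
    have : j.val ≠ 2 * n ^ 4 + 1 := fun h => hj (Fin.ext h)
    simp only [asm, this, if_false]

end layout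

theorem RectFree.mono {ι : Type*} [Fintype ι] [DecidableEq ι] {f g : (ι → Bool) → Prop} {L : ℕ}
    (h : RectFree g L) (hfg : ∀ u, f u → g u) : RectFree f L :=
  fun A x U V hU hV hf => h A x U V hU hV fun u hu v hv => hfg _ (hf u hu v hv)

/-- The lower bound for an abstract walk relation. -/
theorem hard_lower {V : Type*} {N : ℕ} (hN0 : 2 * (10 ^ 20) ^ 4 + 2 ≤ N)
    (W : V → V → List (Fin N × Bool) → Prop)
    (hcat : ∀ u v w l1 l2, W u v l1 → W v w l2 → W u w (l1 ++ l2)) (Hd : Finset V)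
    (hcut : ∀ u w l1 l2, W u w (l1 ++ l2) → l1 ≠ [] → ∃ v ∈ Hd, W u v l1 ∧ W v w l2)
    (s t : V)
    (hsound : ∀ x l, W s t l → (∀ a ∈ l, x a.1 = a.2) → hardL (List.ofFn x) = true)
    (hcomp : ∀ x : Fin N → Bool, hardL (List.ofFn x) = true → ∃ l, W s t l ∧
      (∀ a ∈ l, x a.1 = a.2) ∧ (((reps id l).card : ℝ) ≤ 1 / 10 ^ 12 * N ∨
        (l.length : ℝ) ≤ (1 + 1 / 10 ^ 12) * N)) :
    (2 : ℝ) ^ (1 / 10 ^ 13 * (N : ℝ) ^ (1 / 4 : ℝ)) ≤ Hd.card := by
  classical
  obtain ⟨hN, hN'⟩ := side_spec (N := N) (by omega)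
  set n := side N with hndef
  have hn20 : 10 ^ 20 ≤ n := by
    by_contra h
    have : (n + 1) ^ 4 ≤ (10 ^ 20) ^ 4 := Nat.pow_le_pow_left (by omega) 4
    omega
  have hn : 0 < n := by omega
  have hN34 : N ≤ 34 * n ^ 4 := by
    have h1 : (n + 1) ^ 4 ≤ (2 * n) ^ 4 := Nat.pow_le_pow_left (by omega) 4
    have h2 : (2 * n) ^ 4 = 16 * n ^ 4 := by ring
    have h3 : 0 < n ^ 4 := by positivity
    omega
  obtain ⟨c, hc⟩ := exists_good_seed (digits hn) (digits_surjective hn) (k := n / 10 ^ 9) (by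
    rw [Fintype.card_fin, Nat.choose_two_right, Nat.le_div_iff_mul_le (by norm_num)]
    have h1 : 10 ^ 11 ≤ n / 10 ^ 9 := by omega
    have h2 : n ≤ 10 ^ 9 * (n / 10 ^ 9 + 1) := by omega
    simp only [Nat.add_sub_cancel]
    nlinarith)
  -- a popular choice of the two extra bits
  obtain ⟨τ, π, hdens⟩ : ∃ τ π : Bool, Fintype.card (Fin (n ^ 3) → Fin n → Bool)
      ≤ 4 * (Finset.univ.filter fun y : Fin (n ^ 3) → Fin n → Bool =>
        hardL (List.ofFn (asm (N := N) hn c τ π y)) = true).card := by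
    by_contra hcon
    push Not at hcon
    have hcov : (Finset.univ : Finset (Fin (n ^ 3) → Fin n → Bool)) ⊆
        (Finset.univ : Finset (Bool × Bool)).biUnion fun p => Finset.univ.filter fun y =>
          hardL (List.ofFn (asm (N := N) hn c p.1 p.2 y)) = true := by
      intro y _
      obtain ⟨τ, hτ⟩ : ∃ τ : Bool, (∑ b, pv (digits hn) c (y b) + τ.toNat) % 2 = 1 := by
        rcases Nat.mod_two_eq_zero_or_one (∑ b, pv (digits hn) c (y b)) with h | h
        · exact ⟨true, by simp only [Bool.toNat_true]; omega⟩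
        · exact ⟨false, by simp only [Bool.toNat_false]; omega⟩
      obtain ⟨π, hπ⟩ : ∃ π : Bool, (∑ j, (asm (N := N) hn c τ π y j).toNat) % 2 = 0 := by
        have h1 := sum_toNat_update (asm (N := N) hn c τ false y) ⟨2 * n ^ 4 + 1, by omega⟩
        rw [← asm_flip hn hN] at h1
        by_cases h : (∑ j, (asm (N := N) hn c τ false y j).toNat) % 2 = 0
        · exact ⟨false, h⟩
        · exact ⟨!false, by omega⟩
      refine Finset.mem_biUnion.2 ⟨(τ, π), Finset.mem_univ _, Finset.mem_filter.2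
        ⟨Finset.mem_univ _, ?_⟩⟩
      rw [hardL_iff, ← hndef, total_asm hn hN]
      exact ⟨hπ, hτ⟩
    have h1 := (Finset.card_le_card hcov).trans Finset.card_biUnion_le
    rw [Fintype.sum_prod_type] at h1
    simp only [Fintype.sum_bool, Finset.card_univ] at h1
    have := hcon true true; have := hcon true false
    have := hcon false true; have := hcon false false
    omega
  have : Nonempty (Fin (n ^ 3)) := ⟨⟨0, by positivity⟩⟩
  have key := bp_blocks W hcat Hd hcut s t (E := pos hN) (pos_inj hn hN) (asm hn c τ π)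
    (asm_pos hn hN c τ π) (asm_congr hn hN c τ π) (fun x => hardL (List.ofFn x) = true)
    (hardL_sens N) (by
      intro y b
      rw [Fintype.card_fin]
      refine (hc ((1 + ∑ b' ∈ Finset.univ.erase b, pv (digits hn) c (y b') + τ.toNat) % 2)
        (Nat.mod_lt _ (by norm_num))).mono fun u hu => ?_
      rw [hardL_iff, ← hndef, total_asm hn hN,
        ← Finset.add_sum_erase _ _ (Finset.mem_univ b), Function.update_self] at hu
      have : ∑ b' ∈ Finset.univ.erase b, pv (digits hn) c (Function.update y b u b')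
          = ∑ b' ∈ Finset.univ.erase b, pv (digits hn) c (y b') :=
        Finset.sum_congr rfl fun j hj => by rw [Function.update_of_ne (Finset.ne_of_mem_erase hj)]
      rw [this] at hu
      omega) hdens hsound (N / 10 ^ 12) (by
      intro x hx
      obtain ⟨l, h1, h2, h3⟩ := hcomp x hx
      refine ⟨l, h1, h2, ?_⟩
      rw [Nat.le_div_iff_mul_le (by norm_num)]
      have h4 : ((reps id l).card : ℝ) ≤ 1 / 10 ^ 12 * N := by
        rcases h3 with h3 | h3
        · exact h3
        · have hall : ∀ j : Fin N, j ∈ l.map Prod.fst := by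
            intro j
            by_contra hj
            refine hardL_sens N x j hx (hsound _ l h1 fun a ha => ?_)
            have : a.1 ≠ j := fun e => hj (e ▸ List.mem_map_of_mem ha)
            rw [Function.update_of_ne this]; exact h2 a ha
          have h5 := reps_le_of_length l hall
          rw [Fintype.card_fin] at h5
          have h6 : (N : ℝ) + (reps id l).card ≤ l.length := by exact_mod_cast h5
          linarith
      have h7 : ((reps id l).card : ℝ) * 10 ^ 12 ≤ N := by linarith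
      exact_mod_cast h7) (by
      rw [Fintype.card_fin, Fintype.card_fin]
      have h1 : n ≤ 2 * 10 ^ 9 * (n / 10 ^ 9) := by omega
      have h2 : n ^ 4 = n * n ^ 3 := by ring
      have h3 : n * n ^ 3 ≤ 2 * 10 ^ 9 * (n / 10 ^ 9) * n ^ 3 := Nat.mul_le_mul_right _ h1
      have h4 : 10 ^ 12 * (N / 10 ^ 12) ≤ N := Nat.mul_div_le _ _
      nlinarith) (by rw [Fintype.card_fin]; omega)
  rw [Fintype.card_fin] at key
  have hnR : (10 : ℝ) ^ 20 ≤ n := by exact_mod_cast hn20
  have hroot : (N : ℝ) ^ (1 / 4 : ℝ) ≤ 3 * n := by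
    have h1 : (N : ℝ) ≤ (3 * n) ^ 4 := by
      have : (N : ℝ) ≤ 34 * n ^ 4 := by exact_mod_cast hN34
      have h4 : (0 : ℝ) ≤ (n : ℝ) ^ 4 := by positivity
      nlinarith
    calc (N : ℝ) ^ (1 / 4 : ℝ) ≤ ((3 * n : ℝ) ^ 4) ^ (1 / 4 : ℝ) :=
          Real.rpow_le_rpow (by positivity) h1 (by norm_num)
      _ = 3 * n := by
          rw [← Real.rpow_natCast, ← Real.rpow_mul (by positivity)]; norm_num
  have h2 : (2 : ℝ) ^ (1 / 10 ^ 13 * (N : ℝ) ^ (1 / 4 : ℝ)) ≤ Real.exp (n / 10 ^ 12) := by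
    rw [Real.rpow_def_of_pos (by norm_num)]
    refine Real.exp_le_exp.2 ?_
    have h0 : 0 ≤ (N : ℝ) ^ (1 / 4 : ℝ) := by positivity
    obtain ⟨l1, l2⟩ := log_two_bounds
    nlinarith
  refine h2.trans (le_of_not_gt fun hlt => ?_)
  have h3 : (Hd.card : ℝ) ^ 3 ≤ Real.exp (n / 10 ^ 12) ^ 3 :=
    pow_le_pow_left₀ (by positivity) hlt.le 3
  rw [← Real.exp_nat_mul] at h3
  have h4 : (32 : ℝ) < Real.exp (7 * (n / 10 ^ 12)) := by
    have := Real.add_one_le_exp (7 * ((n : ℝ) / 10 ^ 12))
    linarith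
  have h5 : Real.exp (n / 10 ^ 11)
      = Real.exp (7 * (n / 10 ^ 12)) * Real.exp ((3 : ℕ) * (n / 10 ^ 12)) := by
    rw [← Real.exp_add]; congr 1; push_cast; ring
  have h6 := Real.exp_pos ((3 : ℕ) * ((n : ℝ) / 10 ^ 12))
  nlinarith

end Pool.Agent.Lib.MP_8a52c3_lc
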