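import Pool.Agent.Lib.MP_8a52c3_lc.NbpAnalytic

/-! A family of subcubes of codimension `w` chosen without mutual ambiguity carries at most
about `2 w` bits of information about a point of a dense set. -/

namespace Pool.Agent.Lib.MP_8a52c3_lc

open Finset

set_option linter.unusedSectionVars false

variable {ι : Type*} [Fintype ι] [DecidableEq ι]

/-- Sequential majority witness. -/
theorem majority_witness (R : Finset ι) : ∀ G : Finset (ι → Bool),
    (∀ x ∈ G, ∀ y ∈ G, (∀ i ∈ R, x i = y i) → x = y) →
    ∃ D : (ι → Bool) → Finset ι,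
      (∀ x ∈ G, ∀ y ∈ G, (∀ i ∈ D x ∪ D y, x i = y i) → x = y) ∧
      2 * Real.log 2 * ∑ x ∈ G, ((D x).card : ℝ) ≤ G.card * Real.log G.card := by
  induction R using Finset.induction_on with
  | empty =>
    intro G hG
    refine ⟨fun _ => ∅, fun x hx y hy _ => hG x hx y hy (by simp), ?_⟩
    simp only [Finset.card_empty, Nat.cast_zero, Finset.sum_const_zero, mul_zero]
    exact mul_nonneg (by positivity) (Real.log_natCast_nonneg _)
  | insert i R hi ih =>
    intro G hG
    have hpart : ∀ b : Bool, ∀ x ∈ G.filter (fun x => x i = b), ∀ y ∈ G.filter (fun x => x i = b),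
        (∀ j ∈ R, x j = y j) → x = y := by
      intro b x hx y hy hxy
      rw [Finset.mem_filter] at hx hy
      refine hG x hx.1 y hy.1 fun j hj => ?_
      rcases Finset.mem_insert.1 hj with rfl | hj
      · rw [hx.2, hy.2]
      · exact hxy j hj
    choose Df hD1 hD2 using fun b => ih (G.filter fun x => x i = b) (hpart b)
    -- `c` is the minority value
    obtain ⟨c, hc⟩ : ∃ c : Bool, (G.filter fun x => x i = c).card
        ≤ (G.filter fun x => x i = !c).card := by
      rcases le_total (G.filter fun x => x i = true).card (G.filter fun x => x i = false).card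
        with h | h
      · exact ⟨true, h⟩
      · exact ⟨false, h⟩
    refine ⟨fun x => if x i = c then insert i (Df c x) else Df (!c) x, ?_, ?_⟩
    · intro x hx y hy hxy
      by_cases h1 : x i = c <;> by_cases h2 : y i = c
      · refine hD1 c x (Finset.mem_filter.2 ⟨hx, h1⟩) y (Finset.mem_filter.2 ⟨hy, h2⟩)
          fun j hj => hxy j ?_
        simp only [h1, h2, if_true, Finset.mem_union, Finset.mem_insert] at hj ⊢
        tauto
      · have := hxy i (by simp [h1])
        exact absurd (this ▸ h1) h2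
      · have := hxy i (by simp [h2])
        exact absurd (this.symm ▸ h2) h1
      · have h1' : x i = !c := Bool.eq_not_of_ne h1
        have h2' : y i = !c := Bool.eq_not_of_ne h2
        refine hD1 (!c) x (Finset.mem_filter.2 ⟨hx, h1'⟩) y (Finset.mem_filter.2 ⟨hy, h2'⟩)
          fun j hj => hxy j ?_
        simpa only [h1, h2, if_false] using hj
    · set A := G.filter fun x => x i = c with hA
      set B := G.filter fun x => x i = !c with hB
      have hB' : B = G.filter fun x => ¬ x i = c := by
        rw [hB]; refine Finset.filter_congr fun x _ => ?_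
        cases c <;> simp
      have hsplit : ∑ x ∈ G, (((if x i = c then insert i (Df c x) else Df (!c) x).card : ℕ) : ℝ)
          ≤ A.card + ∑ x ∈ A, ((Df c x).card : ℝ) + ∑ x ∈ B, ((Df (!c) x).card : ℝ) := by
        rw [← Finset.sum_filter_add_sum_filter_not G (fun x => x i = c), ← hA, ← hB']
        refine add_le_add ?_ (le_of_eq ?_)
        · have : (A.card : ℝ) + ∑ x ∈ A, ((Df c x).card : ℝ)
              = ∑ x ∈ A, (1 + ((Df c x).card : ℝ)) := by
            rw [Finset.sum_add_distrib]; simp
          rw [this]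
          refine Finset.sum_le_sum fun x hx => ?_
          have hx' : x i = c := (Finset.mem_filter.1 hx).2
          rw [if_pos hx']
          have := Finset.card_insert_le i (Df c x)
          have h' : (((insert i (Df c x)).card : ℕ) : ℝ) ≤ ((Df c x).card + 1 : ℕ) := by
            exact_mod_cast this
          push_cast at h'
          linarith
        · refine Finset.sum_congr rfl fun x hx => ?_
          rw [hB'] at hx
          rw [if_neg (Finset.mem_filter.1 hx).2]
      have hcard : (G.card : ℝ) = A.card + B.card := by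
        rw [hB', hA]
        exact_mod_cast (Finset.card_filter_add_card_filter_not (s := G) (fun x => x i = c)).symm
      have h2 := two_point (A.card : ℝ) (B.card : ℝ) (by positivity) (by exact_mod_cast hc)
      have hA2 := hD2 c
      have hB2 := hD2 (!c)
      rw [← hA] at hA2
      rw [← hB] at hB2
      have hl : 0 < 2 * Real.log 2 := by have := Real.log_pos (x := 2) (by norm_num); linarith
      rw [hcard]
      nlinarith [mul_le_mul_of_nonneg_left hsplit hl.le]

/-- The term (domain together with the values on it) that `D` attaches to `x`. -/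
def tm (D : (ι → Bool) → Finset ι) (x : ι → Bool) : Finset ι × Finset ι :=
  (D x, (D x).filter fun i => x i = true)

theorem tm_eq_iff {D : (ι → Bool) → Finset ι} {x y : ι → Bool} :
    tm D x = tm D y ↔ D x = D y ∧ ∀ i ∈ D x, x i = y i := by
  constructor
  · intro h
    have h1 : D x = D y := congrArg Prod.fst h
    have h2 : (D x).filter (fun i => x i = true) = (D y).filter (fun i => y i = true) :=
      congrArg Prod.snd h
    refine ⟨h1, fun i hi => ?_⟩
    have := congrArg (fun T => i ∈ T) h2
    simp only [Finset.mem_filter, hi, h1 ▸ hi, true_and, eq_iff_iff] at this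
    cases hx' : x i <;> cases hy' : y i <;> simp_all
  · rintro ⟨h1, h2⟩
    refine Prod.ext h1 ?_
    simp only [tm]
    rw [← h1]
    exact Finset.filter_congr fun i hi => by rw [h2 i hi]

/-- The class of `x`: points of `Ω` with the same term. -/
def cls (Ω : Finset (ι → Bool)) (D : (ι → Bool) → Finset ι) (x : ι → Bool) :
    Finset (ι → Bool) :=
  Ω.filter fun y => tm D y = tm D x

theorem mem_cls {Ω : Finset (ι → Bool)} {D : (ι → Bool) → Finset ι} {x y : ι → Bool} :
    y ∈ cls Ω D x ↔ y ∈ Ω ∧ tm D y = tm D x := by simp [cls]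

theorem cls_card_pos {Ω : Finset (ι → Bool)} {D : (ι → Bool) → Finset ι} {x : ι → Bool}
    (hx : x ∈ Ω) : (0 : ℝ) < (cls Ω D x).card := by
  have : (cls Ω D x).Nonempty := ⟨x, mem_cls.2 ⟨hx, rfl⟩⟩
  exact_mod_cast this.card_pos

/-- No mutual ambiguity. -/
def Unamb (Ω : Finset (ι → Bool)) (D : (ι → Bool) → Finset ι) : Prop :=
  ∀ x ∈ Ω, ∀ y ∈ Ω, (∀ i ∈ D x ∪ D y, x i = y i) → D x = D y

theorem Unamb.mono {Ω Ω' : Finset (ι → Bool)} {D : (ι → Bool) → Finset ι} (h : Unamb Ω D)
    (hs : Ω' ⊆ Ω) : Unamb Ω' D := fun x hx y hy => h x (hs hx) y (hs hy)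

/-- Knowledge bound: classes are large on (geometric) average. -/
theorem know (Ω : Finset (ι → Bool)) (hΩ : Ω.Nonempty) (D : (ι → Bool) → Finset ι) (w : ℕ)
    (hw : ∀ x ∈ Ω, (D x).card ≤ w) (hU : Unamb Ω D) (θ : ℝ) (h0 : 0 < θ) (h1 : θ < 1) :
    Ω.card * (Real.log 2 * (Fintype.card ι * (1 - θ) - 2 * w)
        - 2 * Real.log 2 / θ * (Fintype.card ι * Real.log 2 - Real.log Ω.card))
      ≤ ∑ x ∈ Ω, Real.log (cls Ω D x).card := by
  classical
  have hG : ∀ b : Finset ι × Finset ι, ∀ x ∈ Ω.filter (fun y => tm D y = b),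
      ∀ y ∈ Ω.filter (fun y => tm D y = b), (∀ i ∈ (Finset.univ : Finset ι), x i = y i) → x = y :=
    fun b x _ y _ h => funext fun i => h i (Finset.mem_univ i)
  choose Df hD1 hD2 using fun b => majority_witness Finset.univ _ (hG b)
  set n : ℝ := (Fintype.card ι : ℝ) with hn
  set m : ℝ := (Ω.card : ℝ) with hm
  have hmpos : 0 < m := by rw [hm]; exact_mod_cast hΩ.card_pos
  have hk := kraft Ω (fun x => D x ∪ Df (tm D x) x) (by
    intro x hx y hy hxy
    have hD : D x = D y := hU x hx y hy fun i hi => hxy i (by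
      simp only [Finset.mem_union] at hi ⊢; tauto)
    have ht : tm D x = tm D y := tm_eq_iff.2 ⟨hD, fun i hi => hxy i (by simp [hi])⟩
    refine hD1 (tm D x) x (Finset.mem_filter.2 ⟨hx, rfl⟩) y (Finset.mem_filter.2 ⟨hy, ht.symm⟩)
      fun i hi => hxy i ?_
    rw [← ht]
    simp only [Finset.mem_union] at hi ⊢; tauto) (1 - θ) (by linarith) (by linarith)
  have hp : 0 < 1 - θ := by linarith
  have hlog := sum_log_le Ω hΩ (fun x => (1 - θ) ^ (D x ∪ Df (tm D x) x).card)
    (fun x _ => by positivity) _ hk
  simp only [Real.log_pow] at hlog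
  rw [← Finset.sum_mul, ← hn, ← hm] at hlog
  -- bound on the witness sizes
  have hW : ∑ x ∈ Ω, ((D x ∪ Df (tm D x) x).card : ℝ)
      ≤ m * w + ∑ x ∈ Ω, ((Df (tm D x) x).card : ℝ) := by
    have : m * w + ∑ x ∈ Ω, ((Df (tm D x) x).card : ℝ)
        = ∑ x ∈ Ω, ((w : ℝ) + ((Df (tm D x) x).card : ℝ)) := by
      rw [Finset.sum_add_distrib]; simp [hm]
    rw [this]
    refine Finset.sum_le_sum fun x hx => ?_
    have := (Finset.card_union_le (D x) (Df (tm D x) x)).trans
      (Nat.add_le_add_right (hw x hx) _)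
    exact_mod_cast this
  have hfib : 2 * Real.log 2 * ∑ x ∈ Ω, ((Df (tm D x) x).card : ℝ)
      ≤ ∑ x ∈ Ω, Real.log (cls Ω D x).card := by
    rw [← Finset.sum_fiberwise (s := Ω) (g := tm D), ← Finset.sum_fiberwise (s := Ω) (g := tm D)
      (f := fun x => Real.log (cls Ω D x).card), Finset.mul_sum]
    refine Finset.sum_le_sum fun b _ => ?_
    have e1 : ∑ x ∈ Ω.filter (fun y => tm D y = b), ((Df (tm D x) x).card : ℝ)
        = ∑ x ∈ Ω.filter (fun y => tm D y = b), ((Df b x).card : ℝ) :=
      Finset.sum_congr rfl fun x hx => by rw [(Finset.mem_filter.1 hx).2]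
    have e2 : ∑ x ∈ Ω.filter (fun y => tm D y = b), Real.log (cls Ω D x).card
        = ∑ _x ∈ Ω.filter (fun y => tm D y = b),
          Real.log (Ω.filter (fun y => tm D y = b)).card :=
      Finset.sum_congr rfl fun x hx => by rw [cls, (Finset.mem_filter.1 hx).2]
    rw [e1, e2, Finset.sum_const, nsmul_eq_mul]
    exact hD2 b
  -- elementary estimates of the logarithms
  have hL1 : -(θ / (1 - θ)) ≤ Real.log (1 - θ) := by
    have := Real.one_sub_inv_le_log_of_pos hp
    have e : 1 - (1 - θ)⁻¹ = -(θ / (1 - θ)) := by field_simp; ring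
    linarith
  have hL2 : Real.log (1 + (1 - θ)) ≤ Real.log 2 - θ / 2 := by
    have e : 1 + (1 - θ) = 2 * (1 - θ / 2) := by ring
    rw [e, Real.log_mul (by norm_num) (by linarith)]
    have := Real.log_le_sub_one_of_pos (x := 1 - θ / 2) (by linarith)
    linarith
  set T := ∑ x ∈ Ω, ((D x ∪ Df (tm D x) x).card : ℝ) with hT
  have hT0 : 0 ≤ T := Finset.sum_nonneg fun _ _ => by positivity
  have hn0 : 0 ≤ n := by rw [hn]; positivity
  set e := n * Real.log 2 - Real.log m with he
  have he0 : 0 ≤ e := by
    have : m ≤ 2 ^ Fintype.card ι := by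
      rw [hm]
      have := Finset.card_le_univ Ω
      simp only [Fintype.card_pi, Fintype.card_bool, Finset.prod_const, Finset.card_univ] at this
      exact_mod_cast this
    have h' := Real.log_le_log hmpos this
    rw [Real.log_pow] at h'
    rw [he]; linarith
  -- `T θ / (1 - θ) ≥ m (n θ / 2 - e)`
  have h3 : m * (n * θ / 2 - e) ≤ T * (θ / (1 - θ)) := by
    have a1 : -(T * (θ / (1 - θ))) ≤ T * Real.log (1 - θ) := by
      nlinarith [mul_le_mul_of_nonneg_left hL1 hT0]
    have a2 : n * Real.log (1 + (1 - θ)) ≤ n * (Real.log 2 - θ / 2) :=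
      mul_le_mul_of_nonneg_left hL2 hn0
    have a3 : m * (n * Real.log (1 + (1 - θ)) - Real.log m)
        ≤ m * (n * (Real.log 2 - θ / 2) - Real.log m) :=
      mul_le_mul_of_nonneg_left (by linarith) hmpos.le
    rw [he]; nlinarith
  have h4 : m * (n * (1 - θ) / 2 - e / θ) ≤ T := by
    have a1 : m * (n * θ / 2 - e) * ((1 - θ) / θ) ≤ T * (θ / (1 - θ)) * ((1 - θ) / θ) :=
      mul_le_mul_of_nonneg_right h3 (by positivity)
    have a2 : T * (θ / (1 - θ)) * ((1 - θ) / θ) = T := by field_simp
    have a3 : m * (n * θ / 2 - e) * ((1 - θ) / θ)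
        = m * (n * (1 - θ) / 2 - e / θ) + m * e := by field_simp; ring
    have a4 : 0 ≤ m * e := by positivity
    linarith
  have hl : 0 < 2 * Real.log 2 := by have := Real.log_pos (x := 2) (by norm_num); linarith
  have h5 := mul_le_mul_of_nonneg_left (h4.trans hW) hl.le
  have e6 : m * (Real.log 2 * (n * (1 - θ) - 2 * w) - 2 * Real.log 2 / θ * e)
      = 2 * Real.log 2 * (m * (n * (1 - θ) / 2 - e / θ)) - 2 * Real.log 2 * (m * w) := by
    field_simp; ring
  rw [e6]
  nlinarith

end Pool.Agent.Lib.MP_8a52c3_lc
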