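import Pool.Agent.Lib.MP_8a52c3_lc.NbpCore

/-! The abstract main theorem. -/

namespace Pool.Agent.Lib.MP_8a52c3_lc

open Finset

set_option linter.unusedSectionVars false

variable {ι : Type*} [Fintype ι] [DecidableEq ι]

/-- Decision list normalisation: every point takes the first term it satisfies. -/
theorem normalise (Ω : Finset (ι → Bool)) (D : (ι → Bool) → Finset ι) :
    ∃ D' : (ι → Bool) → Finset ι,
      (∀ x ∈ Ω, ∃ y ∈ Ω, D' x = D y ∧ ∀ i ∈ D y, x i = y i) ∧ Unamb Ω D' := by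
  classical
  let r : (ι → Bool) → ℕ := fun x => (Fintype.equivFin (ι → Bool) x : ℕ)
  have hr : Function.Injective r := fun x y h =>
    (Fintype.equivFin (ι → Bool)).injective (Fin.ext h)
  have h : ∀ x : ι → Bool, ∃ y : ι → Bool, x ∈ Ω → (y ∈ Ω ∧ (∀ i ∈ D y, x i = y i) ∧
      ∀ y' ∈ Ω, (∀ i ∈ D y', x i = y' i) → r y ≤ r y') := by
    intro x
    by_cases hx : x ∈ Ω
    · obtain ⟨y, hy, hmin⟩ := Finset.exists_min_image
        (Ω.filter fun y => ∀ i ∈ D y, x i = y i) r ⟨x, by simp [hx]⟩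
      rw [Finset.mem_filter] at hy
      exact ⟨y, fun _ => ⟨hy.1, hy.2, fun y' h1 h2 => hmin y' (Finset.mem_filter.2 ⟨h1, h2⟩)⟩⟩
    · exact ⟨x, fun h => absurd h hx⟩
  choose rep hrep using h
  refine ⟨fun x => D (rep x), fun x hx => ⟨rep x, (hrep x hx).1, rfl, (hrep x hx).2.1⟩, ?_⟩
  intro x hx y hy hxy
  obtain ⟨a1, a2, a3⟩ := hrep x hx
  obtain ⟨b1, b2, b3⟩ := hrep y hy
  have h1 := a3 (rep y) b1 fun i hi => (hxy i (by simp [hi])).trans (b2 i hi)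
  have h2 := b3 (rep x) a1 fun i hi => (hxy i (by simp [hi])).symm.trans (a2 i hi)
  have : rep x = rep y := hr (le_antisymm h1 h2)
  simp only [this]

theorem card_le_exp {Ω : Finset (ι → Bool)} {t : ℝ}
    (h : Ω.Nonempty → Real.log Ω.card ≤ t) : (Ω.card : ℝ) ≤ Real.exp t := by
  rcases Ω.eq_empty_or_nonempty with rfl | hΩ
  · simp [(Real.exp_pos t).le]
  · have hm : (0 : ℝ) < Ω.card := by exact_mod_cast hΩ.card_pos
    rw [← Real.exp_log hm]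
    exact Real.exp_le_exp.2 (h hΩ)

theorem core_unamb {f : (ι → Bool) → Prop} {Ω : Finset (ι → Bool)}
    {D0 D1 D2 D3 : (ι → Bool) → Finset ι} {w w0 k : ℕ} (hs : Sens f)
    (hr : RectFree f (smallSets ι k).card) (h : Sound f Ω D0 D1 D2 D3)
    (hw0 : ∀ x ∈ Ω, (D0 x).card ≤ w0) (hw1 : ∀ x ∈ Ω, (D1 x).card ≤ w)
    (hw2 : ∀ x ∈ Ω, (D2 x).card ≤ w) (hw3 : ∀ x ∈ Ω, (D3 x).card ≤ w)
    (hU0 : Unamb Ω D0) (hU1 : Unamb Ω D1) (hU2 : Unamb Ω D2) (hU3 : Unamb Ω D3)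
    (hsum : w0 + 3 * w ≤ Fintype.card ι + k)
    (hw : (w : ℝ) ≤ (1 / 4 - 1 / 10 ^ 5) * Fintype.card ι)
    (hw' : (w0 : ℝ) ≤ (1 / 4 + 4 / 10 ^ 5) * Fintype.card ι)
    (hL : 3 * Real.log (smallSets ι k).card ≤ Fintype.card ι / 10 ^ 6) :
    (Ω.card : ℝ) ≤ 4 * Real.exp (Fintype.card ι * Real.log 2 - Fintype.card ι / 10 ^ 11) := by
  classical
  set L := (smallSets ι k).card with hLdef
  have hL1 : 1 ≤ L := (smallSets_nonempty k).card_pos
  have hcov : ∀ x ∈ Ω, ∀ i, i ∈ D0 x ∪ D1 x ∪ D2 x ∪ D3 x := fun x hx i => h.cover hs hx i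
  have hsz : ∀ x ∈ Ω, (D0 x).card + (D1 x).card + (D2 x).card + (D3 x).card
      ≤ Fintype.card ι + k := fun x hx => by
    have := hw0 x hx; have := hw1 x hx; have := hw2 x hx; have := hw3 x hx; omega
  have cv : ∀ {A B C E A' B' C' E' : Finset ι} {i : ι}, i ∈ A ∪ B ∪ C ∪ E →
      (∀ j, (j ∈ A ∨ j ∈ B ∨ j ∈ C ∨ j ∈ E) → (j ∈ A' ∨ j ∈ B' ∨ j ∈ C' ∨ j ∈ E')) →
      i ∈ (A' ∪ B') ∪ (C' ∪ E') := by
    intro A B C E A' B' C' E' i hi hj
    have := hj i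
    simp only [Finset.mem_union] at hi ⊢
    tauto
  set Ω1 := Ω.filter fun x => (kcls Ω D2 D3 D0 D1 x).card ≤ L with hΩ1
  set Ω2 := Ω.filter fun x => (kcls Ω D1 D3 D0 D2 x).card ≤ L with hΩ2
  set Ω3 := Ω.filter fun x => (kcls Ω D2 D1 D0 D3 x).card ≤ L with hΩ3
  set Ωs := Ω.filter fun x => (kcls Ω D0 D1 D2 D3 x).card ≤ L ∧ (kcls Ω D0 D2 D1 D3 x).card ≤ L
    ∧ (kcls Ω D0 D3 D2 D1 x).card ≤ L with hΩs
  have hsub : Ω ⊆ Ω1 ∪ Ω2 ∪ Ω3 ∪ Ωs := by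
    intro x hx
    have r1 := rect h hs hr hx
    have r2 := rect h.swap12 hs hr hx
    have r3 := rect h.swap13 hs hr hx
    simp only [hΩ1, hΩ2, hΩ3, hΩs, Finset.mem_union, Finset.mem_filter, hx, true_and]
    tauto
  have s1 : Ω1 ⊆ Ω := Finset.filter_subset _ _
  have s2 : Ω2 ⊆ Ω := Finset.filter_subset _ _
  have s3 : Ω3 ⊆ Ω := Finset.filter_subset _ _
  have ss : Ωs ⊆ Ω := Finset.filter_subset _ _
  have b1 := card_le_exp fun hne : Ω1.Nonempty => case_pair hne (fun x hx => hw2 x (s1 hx))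
    (fun x hx => hw3 x (s1 hx)) (hU2.mono s1) (hU3.mono s1) hL1
    (fiber_bound (Dc := D0) (Dd := D1) s1
      (fun x hx i => cv (hcov x hx i) (by tauto))
      (fun x hx => by have := hsz x hx; omega) (fun x hx => (Finset.mem_filter.1 hx).2)) hw hL
  have b2 := card_le_exp fun hne : Ω2.Nonempty => case_pair hne (fun x hx => hw1 x (s2 hx))
    (fun x hx => hw3 x (s2 hx)) (hU1.mono s2) (hU3.mono s2) hL1
    (fiber_bound (Dc := D0) (Dd := D2) s2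
      (fun x hx i => cv (hcov x hx i) (by tauto))
      (fun x hx => by have := hsz x hx; omega) (fun x hx => (Finset.mem_filter.1 hx).2)) hw hL
  have b3 := card_le_exp fun hne : Ω3.Nonempty => case_pair hne (fun x hx => hw2 x (s3 hx))
    (fun x hx => hw1 x (s3 hx)) (hU2.mono s3) (hU1.mono s3) hL1
    (fiber_bound (Dc := D0) (Dd := D3) s3
      (fun x hx i => cv (hcov x hx i) (by tauto))
      (fun x hx => by have := hsz x hx; omega) (fun x hx => (Finset.mem_filter.1 hx).2)) hw hL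
  have hk : ∀ {Da Db Dc : (ι → Bool) → Finset ι},
      (∀ x ∈ Ω, ∀ i, i ∈ (D0 x ∪ Db x) ∪ (Da x ∪ Dc x)) →
      (∀ x ∈ Ω, (D0 x).card + (Da x).card + (Db x).card + (Dc x).card ≤ Fintype.card ι + k) →
      ∀ z ∈ Ωs, (D0 z ∩ Da z).card ≤ k := by
    intro Da Db Dc h1 h2 z hz
    have h3 := card_inter_le_of_cover (k := k) (h1 z (ss hz)) (by
      have a := Finset.card_union_le (D0 z) (Db z)
      have b := Finset.card_union_le (Da z) (Dc z)
      have := h2 z (ss hz)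
      omega)
    exact le_trans (Finset.card_le_card (Finset.inter_subset_inter Finset.subset_union_left
      Finset.subset_union_left)) h3
  have bs := card_le_exp fun hne : Ωs.Nonempty => case_star hne (fun x hx => hw0 x (ss hx))
    (fun x hx => hw1 x (ss hx)) (fun x hx => hw2 x (ss hx)) (fun x hx => hw3 x (ss hx))
    (hU0.mono ss) (hU1.mono ss) (hU2.mono ss) (hU3.mono ss) (fun x hx => hcov x (ss hx))
    (hk (Db := D2) (Dc := D3) (fun x hx i => cv (hcov x hx i) (by tauto))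
      (fun x hx => by have := hsz x hx; omega))
    (hk (Db := D1) (Dc := D3) (fun x hx i => cv (hcov x hx i) (by tauto))
      (fun x hx => by have := hsz x hx; omega))
    (hk (Db := D1) (Dc := D2) (fun x hx i => cv (hcov x hx i) (by tauto))
      (fun x hx => by have := hsz x hx; omega))
    (fiber_bound (Dc := D2) (Dd := D3) ss (fun x hx i => cv (hcov x hx i) (by tauto))
      (fun x hx => by have := hsz x hx; omega) (fun x hx => (Finset.mem_filter.1 hx).2.1))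
    (fiber_bound (Dc := D1) (Dd := D3) ss (fun x hx i => cv (hcov x hx i) (by tauto))
      (fun x hx => by have := hsz x hx; omega) (fun x hx => (Finset.mem_filter.1 hx).2.2.1))
    (fiber_bound (Dc := D2) (Dd := D1) ss (fun x hx i => cv (hcov x hx i) (by tauto))
      (fun x hx => by have := hsz x hx; omega) (fun x hx => (Finset.mem_filter.1 hx).2.2.2))
    hw hw' hL
  have c1 := Finset.card_le_card hsub
  have c2 := Finset.card_union_le (Ω1 ∪ Ω2 ∪ Ω3) Ωs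
  have c3 := Finset.card_union_le (Ω1 ∪ Ω2) Ω3
  have c4 := Finset.card_union_le Ω1 Ω2
  have c5 : Ω.card ≤ Ω1.card + Ω2.card + Ω3.card + Ωs.card := by omega
  have c6 : (Ω.card : ℝ) ≤ Ω1.card + Ω2.card + Ω3.card + Ωs.card := by exact_mod_cast c5
  linarith

theorem core {f : (ι → Bool) → Prop} {Ω : Finset (ι → Bool)}
    {D0 D1 D2 D3 : (ι → Bool) → Finset ι} {w w0 k : ℕ} (hs : Sens f)
    (hr : RectFree f (smallSets ι k).card) (h : Sound f Ω D0 D1 D2 D3)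
    (hw0 : ∀ x ∈ Ω, (D0 x).card ≤ w0) (hw1 : ∀ x ∈ Ω, (D1 x).card ≤ w)
    (hw2 : ∀ x ∈ Ω, (D2 x).card ≤ w) (hw3 : ∀ x ∈ Ω, (D3 x).card ≤ w)
    (hsum : w0 + 3 * w ≤ Fintype.card ι + k)
    (hw : (w : ℝ) ≤ (1 / 4 - 1 / 10 ^ 5) * Fintype.card ι)
    (hw' : (w0 : ℝ) ≤ (1 / 4 + 4 / 10 ^ 5) * Fintype.card ι)
    (hL : 3 * Real.log (smallSets ι k).card ≤ Fintype.card ι / 10 ^ 6) :
    (Ω.card : ℝ) ≤ 4 * Real.exp (Fintype.card ι * Real.log 2 - Fintype.card ι / 10 ^ 11) := by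
  obtain ⟨E0, p0, u0⟩ := normalise Ω D0
  obtain ⟨E1, p1, u1⟩ := normalise Ω D1
  obtain ⟨E2, p2, u2⟩ := normalise Ω D2
  obtain ⟨E3, p3, u3⟩ := normalise Ω D3
  refine core_unamb (D0 := E0) (D1 := E1) (D2 := E2) (D3 := E3) hs hr ?_ ?_ ?_ ?_ ?_
    u0 u1 u2 u3 hsum hw hw' hL
  · intro x0 h0 x1 h1 x2 h2 x3 h3 z a0 a1 a2 a3
    obtain ⟨y0, g0, e0, f0⟩ := p0 x0 h0
    obtain ⟨y1, g1, e1, f1⟩ := p1 x1 h1
    obtain ⟨y2, g2, e2, f2⟩ := p2 x2 h2
    obtain ⟨y3, g3, e3, f3⟩ := p3 x3 h3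
    exact h y0 g0 y1 g1 y2 g2 y3 g3 z (fun i hi => (a0 i (e0 ▸ hi)).trans (f0 i hi))
      (fun i hi => (a1 i (e1 ▸ hi)).trans (f1 i hi)) (fun i hi => (a2 i (e2 ▸ hi)).trans (f2 i hi))
      (fun i hi => (a3 i (e3 ▸ hi)).trans (f3 i hi))
  · intro x hx; obtain ⟨y, g, e, _⟩ := p0 x hx; rw [e]; exact hw0 y g
  · intro x hx; obtain ⟨y, g, e, _⟩ := p1 x hx; rw [e]; exact hw1 y g
  · intro x hx; obtain ⟨y, g, e, _⟩ := p2 x hx; rw [e]; exact hw2 y g
  · intro x hx; obtain ⟨y, g, e, _⟩ := p3 x hx; rw [e]; exact hw3 y g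

end Pool.Agent.Lib.MP_8a52c3_lc
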