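import Pool.Agent.Lib.MP_8a52c3_lc.NbpKnow

/-! Pair inequality, sequential prediction of a random set, and the resulting entropy bound. -/

namespace Pool.Agent.Lib.MP_8a52c3_lc

open Finset

set_option linter.unusedSectionVars false

variable {ι : Type*} [Fintype ι] [DecidableEq ι]

theorem pair_log (Ω : Finset (ι → Bool)) (hΩ : Ω.Nonempty) (Da Db : (ι → Bool) → Finset ι)
    (K : ℝ) (hK : ∀ x ∈ Ω, ∀ y ∈ Ω,
      ((Ω.filter fun z => tm Da z = tm Da x ∧ tm Db z = tm Db y).card : ℝ) ≤ K)
    (φ : (ι → Bool) → ℝ) (hφ : ∀ z ∈ Ω, 0 < φ z) (ψ : (ι → Bool) → (ι → Bool) → ℝ)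
    (hψ0 : ∀ x y, 0 ≤ ψ x y)
    (hφψ : ∀ z ∈ Ω, ∀ x ∈ Ω, ∀ y ∈ Ω, tm Da x = tm Da z → tm Db y = tm Db z → φ z ≤ ψ x y)
    (B : ℝ) (hB : ∑ x ∈ Ω, ∑ y ∈ Ω, ψ x y ≤ B) :
    ∑ z ∈ Ω, Real.log (cls Ω Da z).card + ∑ z ∈ Ω, Real.log (cls Ω Db z).card
      + ∑ z ∈ Ω, Real.log (φ z) ≤ Ω.card * (Real.log (K * B) - Real.log Ω.card) := by
  have hK0 : 0 ≤ K := by
    obtain ⟨x, hx⟩ := hΩ
    exact le_trans (by positivity) (hK x hx x hx)
  have h1 : ∑ z ∈ Ω, ((cls Ω Da z).card : ℝ) * (cls Ω Db z).card * φ z ≤ K * B := by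
    calc ∑ z ∈ Ω, ((cls Ω Da z).card : ℝ) * (cls Ω Db z).card * φ z
        = ∑ z ∈ Ω, ∑ x ∈ Ω, ∑ y ∈ Ω,
            (if tm Da z = tm Da x ∧ tm Db z = tm Db y then φ z else 0) := by
          refine Finset.sum_congr rfl fun z _ => ?_
          simp only [cls, Finset.card_filter, Nat.cast_sum, Finset.sum_mul, Finset.mul_sum]
          rw [Finset.sum_comm]
          refine Finset.sum_congr rfl fun x _ => Finset.sum_congr rfl fun y _ => ?_
          simp only [@eq_comm _ (tm Da z), @eq_comm _ (tm Db z)]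
          by_cases ha : tm Da x = tm Da z <;> by_cases hb : tm Db y = tm Db z <;>
            simp [ha, hb]
      _ ≤ ∑ z ∈ Ω, ∑ x ∈ Ω, ∑ y ∈ Ω,
            (if tm Da z = tm Da x ∧ tm Db z = tm Db y then ψ x y else 0) := by
          refine Finset.sum_le_sum fun z hz => Finset.sum_le_sum fun x hx =>
            Finset.sum_le_sum fun y hy => ?_
          split_ifs with h
          · exact hφψ z hz x hx y hy h.1.symm h.2.symm
          · exact le_rfl
      _ = ∑ x ∈ Ω, ∑ y ∈ Ω, ∑ z ∈ Ω,
            (if tm Da z = tm Da x ∧ tm Db z = tm Db y then ψ x y else 0) := by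
          rw [Finset.sum_comm]
          refine Finset.sum_congr rfl fun x _ => Finset.sum_comm
      _ ≤ ∑ x ∈ Ω, ∑ y ∈ Ω, K * ψ x y := by
          refine Finset.sum_le_sum fun x hx => Finset.sum_le_sum fun y hy => ?_
          rw [← Finset.sum_filter, Finset.sum_const, nsmul_eq_mul]
          exact mul_le_mul_of_nonneg_right (hK x hx y hy) (hψ0 x y)
      _ = K * ∑ x ∈ Ω, ∑ y ∈ Ω, ψ x y := by simp only [Finset.mul_sum]
      _ ≤ K * B := mul_le_mul_of_nonneg_left hB hK0
  have h2 := sum_log_le Ω hΩ (fun z => ((cls Ω Da z).card : ℝ) * (cls Ω Db z).card * φ z)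
    (fun z hz => mul_pos (mul_pos (cls_card_pos hz) (cls_card_pos hz)) (hφ z hz)) _ h1
  rw [← Finset.sum_add_distrib, ← Finset.sum_add_distrib]
  refine le_trans (le_of_eq (Finset.sum_congr rfl fun z hz => ?_)) h2
  rw [Real.log_mul (mul_pos (cls_card_pos hz) (cls_card_pos hz)).ne' (hφ z hz).ne',
    Real.log_mul (cls_card_pos hz).ne' (cls_card_pos hz).ne']

/-- Sequential prediction of the set `D x`. -/
theorem predict {α : Type*} (lam : ℝ) (h0 : 0 < lam) (h1 : lam < 1) (D : α → Finset ι)
    (R : Finset ι) : ∀ Ω : Finset α, ∃ P : Finset ι → Finset ι,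
      (∀ A, P A ⊆ R) ∧
      (∀ A A', (∀ i ∈ R, ((i ∈ A ↔ i ∈ P A) ↔ (i ∈ A' ↔ i ∈ P A'))) →
        ∀ i ∈ R, (i ∈ A ↔ i ∈ A')) ∧
      (∑ x ∈ Ω, (((D x ∩ R) \ P (D x)).card : ℝ) ≤ lam * R.card * Ω.card) ∧
      (∀ β : Finset ι, ∑ x ∈ Ω, (if Disjoint (D x) (β ∩ R) then
        (1 - lam)⁻¹ ^ (β ∩ P (D x)).card else 0) ≤ Ω.card) := by
  classical
  induction R using Finset.induction_on with
  | empty =>
    intro Ω
    refine ⟨fun _ => ∅, by simp, by simp, by simp, fun β => ?_⟩
    simp
  | insert i R hi ih =>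
    intro Ω
    set Ω1 := Ω.filter fun x => i ∈ D x with hΩ1
    set Ω0 := Ω.filter fun x => ¬ i ∈ D x with hΩ0
    obtain ⟨P1, hs1, hi1, hm1, hw1⟩ := ih Ω1
    obtain ⟨P0, hs0, hi0, hm0, hw0⟩ := ih Ω0
    have hcard : (Ω.card : ℝ) = Ω1.card + Ω0.card := by
      exact_mod_cast (Finset.card_filter_add_card_filter_not (s := Ω) (fun x => i ∈ D x)).symm
    set Q : Finset ι → Finset ι := fun A => if i ∈ A then P1 A else P0 A with hQ
    have hQs : ∀ A, Q A ⊆ R := fun A => by
      simp only [hQ]; split_ifs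
      · exact hs1 A
      · exact hs0 A
    have hiQ : ∀ A, i ∉ Q A := fun A h => hi (hQs A h)
    have hq1 : (1 : ℝ) ≤ (1 - lam)⁻¹ := by
      rw [one_le_inv₀ (by linarith)]; linarith
    -- injectivity given agreement at `i`
    have hinj : ∀ A A', (i ∈ A ↔ i ∈ A') →
        (∀ j ∈ R, ((j ∈ A ↔ j ∈ Q A) ↔ (j ∈ A' ↔ j ∈ Q A'))) →
        ∀ j ∈ insert i R, (j ∈ A ↔ j ∈ A') := by
      intro A A' hA h j hj
      rcases Finset.mem_insert.1 hj with rfl | hj
      · exact hA
      · by_cases hiA : i ∈ A
        · have hiA' := hA.1 hiA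
          simp only [hQ, hiA, hiA', if_true] at h
          exact hi1 A A' h j hj
        · have hiA' : i ∉ A' := fun h' => hiA (hA.2 h')
          simp only [hQ, hiA, hiA', if_false] at h
          exact hi0 A A' h j hj
    -- the two partial sums
    have hmQ : ∑ x ∈ Ω, (((D x ∩ R) \ Q (D x)).card : ℝ) ≤ lam * R.card * Ω.card := by
      rw [← Finset.sum_filter_add_sum_filter_not Ω (fun x => i ∈ D x), ← hΩ1, ← hΩ0, hcard]
      have e1 : ∑ x ∈ Ω1, (((D x ∩ R) \ Q (D x)).card : ℝ)
          = ∑ x ∈ Ω1, (((D x ∩ R) \ P1 (D x)).card : ℝ) :=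
        Finset.sum_congr rfl fun x hx => by
          simp only [hQ, (Finset.mem_filter.1 hx).2, if_true]
      have e0 : ∑ x ∈ Ω0, (((D x ∩ R) \ Q (D x)).card : ℝ)
          = ∑ x ∈ Ω0, (((D x ∩ R) \ P0 (D x)).card : ℝ) :=
        Finset.sum_congr rfl fun x hx => by
          simp only [hQ, (Finset.mem_filter.1 hx).2, if_false]
      rw [e1, e0]; linarith
    have hw1Q : ∀ β : Finset ι, ∑ x ∈ Ω1, (if Disjoint (D x) (β ∩ R) then
        (1 - lam)⁻¹ ^ (β ∩ Q (D x)).card else 0) ≤ Ω1.card := fun β => by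
      refine le_trans (le_of_eq (Finset.sum_congr rfl fun x hx => ?_)) (hw1 β)
      simp only [hQ, (Finset.mem_filter.1 hx).2, if_true]
    have hw0Q : ∀ β : Finset ι, ∑ x ∈ Ω0, (if Disjoint (D x) (β ∩ R) then
        (1 - lam)⁻¹ ^ (β ∩ Q (D x)).card else 0) ≤ Ω0.card := fun β => by
      refine le_trans (le_of_eq (Finset.sum_congr rfl fun x hx => ?_)) (hw0 β)
      simp only [hQ, (Finset.mem_filter.1 hx).2, if_false]
    have hRc : (((insert i R).card : ℕ) : ℝ) = R.card + 1 := by
      rw [Finset.card_insert_of_notMem hi]; push_cast; ring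
    have hdisj : ∀ (β : Finset ι) (x : α), Disjoint (D x) (β ∩ insert i R) →
        Disjoint (D x) (β ∩ R) := fun β x h =>
      h.mono_right (Finset.inter_subset_inter_left (Finset.subset_insert _ _))
    have hΩ0' : (0 : ℝ) ≤ Ω.card := by positivity
    by_cases hp : lam * Ω.card ≤ Ω1.card
    · refine ⟨fun A => insert i (Q A), fun A => Finset.insert_subset_insert _ (hQs A), ?_, ?_, ?_⟩
      · intro A A' h
        refine hinj A A' ?_ fun j hj => ?_
        · simpa using h i (Finset.mem_insert_self _ _)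
        · have hji : j ≠ i := fun e => hi (e ▸ hj)
          simpa [hji] using h j (Finset.mem_insert_of_mem hj)
      · refine le_trans (Finset.sum_le_sum fun x _ => ?_) (hmQ.trans ?_)
        · have : (D x ∩ insert i R) \ insert i (Q (D x)) ⊆ (D x ∩ R) \ Q (D x) := by
            intro j hj
            simp only [Finset.mem_sdiff, Finset.mem_inter, Finset.mem_insert, not_or] at hj ⊢
            tauto
          exact_mod_cast Finset.card_le_card this
        · rw [hRc]; nlinarith
      · intro β
        by_cases hβ : i ∈ β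
        · rw [← Finset.sum_filter_add_sum_filter_not Ω (fun x => i ∈ D x), ← hΩ1, ← hΩ0]
          have e1 : ∑ x ∈ Ω1, (if Disjoint (D x) (β ∩ insert i R) then
              (1 - lam)⁻¹ ^ (β ∩ insert i (Q (D x))).card else 0) = 0 := by
            refine Finset.sum_eq_zero fun x hx => ?_
            rw [if_neg]
            rw [Finset.not_disjoint_iff]
            exact ⟨i, (Finset.mem_filter.1 hx).2, by simp [hβ]⟩
          have e0 : ∑ x ∈ Ω0, (if Disjoint (D x) (β ∩ insert i R) then
              (1 - lam)⁻¹ ^ (β ∩ insert i (Q (D x))).card else 0)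
              ≤ (1 - lam)⁻¹ * ∑ x ∈ Ω0, (if Disjoint (D x) (β ∩ R) then
                (1 - lam)⁻¹ ^ (β ∩ Q (D x)).card else 0) := by
            rw [Finset.mul_sum]
            refine Finset.sum_le_sum fun x _ => ?_
            split_ifs with ha hb
            · rw [Finset.inter_insert_of_mem hβ, Finset.card_insert_of_notMem
                (fun h => hiQ _ (Finset.mem_inter.1 h).2), pow_succ, mul_comm]
            · exact absurd (hdisj β x ha) hb
            · positivity
            · simp
          rw [e1, zero_add]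
          refine e0.trans ((mul_le_mul_of_nonneg_left (hw0Q β) (by positivity)).trans ?_)
          rw [inv_mul_le_iff₀ (by linarith)]
          nlinarith
        · have e : ∀ x, (if Disjoint (D x) (β ∩ insert i R) then
              (1 - lam)⁻¹ ^ (β ∩ insert i (Q (D x))).card else 0)
              = (if Disjoint (D x) (β ∩ R) then (1 - lam)⁻¹ ^ (β ∩ Q (D x)).card else 0) := by
            intro x
            rw [Finset.inter_insert_of_notMem hβ, Finset.inter_insert_of_notMem hβ]
          simp only [e]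
          rw [← Finset.sum_filter_add_sum_filter_not Ω (fun x => i ∈ D x), ← hΩ1, ← hΩ0, hcard]
          exact add_le_add (hw1Q β) (hw0Q β)
    · refine ⟨Q, fun A => (hQs A).trans (Finset.subset_insert _ _), ?_, ?_, ?_⟩
      · intro A A' h
        refine hinj A A' ?_ fun j hj => h j (Finset.mem_insert_of_mem hj)
        have := h i (Finset.mem_insert_self _ _)
        simp only [hiQ, iff_false] at this
        tauto
      · have : ∀ x ∈ Ω, (((D x ∩ insert i R) \ Q (D x)).card : ℝ)
            ≤ (if i ∈ D x then 1 else 0) + (((D x ∩ R) \ Q (D x)).card : ℝ) := by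
          intro x _
          split_ifs with hx
          · have h' : (D x ∩ insert i R) \ Q (D x) ⊆ insert i ((D x ∩ R) \ Q (D x)) := by
              intro j hj
              simp only [Finset.mem_sdiff, Finset.mem_inter, Finset.mem_insert] at hj ⊢
              tauto
            have := (Finset.card_le_card h').trans (Finset.card_insert_le _ _)
            have h'' : (((D x ∩ insert i R) \ Q (D x)).card : ℝ)
                ≤ ((((D x ∩ R) \ Q (D x)).card + 1 : ℕ) : ℝ) := by exact_mod_cast this
            push_cast at h''; linarith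
          · rw [Finset.inter_insert_of_notMem hx]; simp
        refine (Finset.sum_le_sum this).trans ?_
        rw [Finset.sum_add_distrib, ← Finset.sum_filter, ← hΩ1, hRc]
        simp only [Finset.sum_const, nsmul_eq_mul, mul_one]
        push Not at hp
        nlinarith
      · intro β
        refine le_trans (Finset.sum_le_sum fun x _ => ?_ :
          _ ≤ ∑ x ∈ Ω, (if Disjoint (D x) (β ∩ R) then
            (1 - lam)⁻¹ ^ (β ∩ Q (D x)).card else 0)) ?_
        · split_ifs with ha hb
          · exact le_rfl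
          · exact absurd (hdisj β x ha) hb
          · positivity
          · exact le_rfl
        · rw [← Finset.sum_filter_add_sum_filter_not Ω (fun x => i ∈ D x), ← hΩ1, ← hΩ0, hcard]
          exact add_le_add (hw1Q β) (hw0Q β)

/-- If the domain is well predicted, the classes are large. -/
theorem cls_large_of_predict (Ω : Finset (ι → Bool)) (hΩ : Ω.Nonempty)
    (D : (ι → Bool) → Finset ι) (w : ℕ) (hw : ∀ x ∈ Ω, (D x).card ≤ w)
    (M : Finset ι → Finset ι) (hM : Function.Injective M) (r : ℝ) (hr : 0 < r) :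
    Real.log r * ∑ x ∈ Ω, ((M (D x)).card : ℝ)
      - Ω.card * (w * Real.log 2 + Fintype.card ι * r - Real.log Ω.card)
      ≤ ∑ x ∈ Ω, Real.log (cls Ω D x).card := by
  classical
  have h1 : ∑ x ∈ Ω, r ^ (M (D x)).card / (cls Ω D x).card
      ≤ 2 ^ w * (1 + r) ^ Fintype.card ι := by
    have e1 : ∑ x ∈ Ω, r ^ (M (D x)).card / (cls Ω D x).card
        = ∑ b ∈ Ω.image (tm D), r ^ (M b.1).card := by
      rw [← Finset.sum_fiberwise_of_maps_to (s := Ω) (t := Ω.image (tm D)) (g := tm D)
        (fun x hx => Finset.mem_image_of_mem _ hx)]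
      refine Finset.sum_congr rfl fun b hb => ?_
      obtain ⟨x0, hx0, rfl⟩ := Finset.mem_image.1 hb
      have : ∀ x ∈ Ω.filter (fun y => tm D y = tm D x0), r ^ (M (D x)).card / (cls Ω D x).card
          = r ^ (M (tm D x0).1).card / (cls Ω D x0).card := by
        intro x hx
        have h' := (Finset.mem_filter.1 hx).2
        have h'' : D x = (tm D x0).1 := congrArg Prod.fst h'
        rw [h'', cls, cls, h']
      rw [Finset.sum_congr rfl this, Finset.sum_const, nsmul_eq_mul]
      have hpos := cls_card_pos (D := D) hx0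
      rw [cls] at hpos ⊢
      field_simp
    rw [e1]
    have e2 : ∑ b ∈ Ω.image (tm D), r ^ (M b.1).card
        ≤ ∑ A : Finset ι, 2 ^ w * r ^ (M A).card := by
      rw [← Finset.sum_fiberwise (s := Ω.image (tm D)) (g := Prod.fst)]
      refine Finset.sum_le_sum fun A _ => ?_
      have : ∀ b ∈ (Ω.image (tm D)).filter (fun b => b.1 = A), r ^ (M b.1).card
          = r ^ (M A).card := fun b hb => by rw [(Finset.mem_filter.1 hb).2]
      rw [Finset.sum_congr rfl this, Finset.sum_const, nsmul_eq_mul]
      refine mul_le_mul_of_nonneg_right ?_ (by positivity)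
      by_cases hne : ((Ω.image (tm D)).filter (fun b => b.1 = A)).Nonempty
      · obtain ⟨b0, hb0⟩ := hne
        obtain ⟨hb0, hb0A⟩ := Finset.mem_filter.1 hb0
        obtain ⟨x0, hx0, rfl⟩ := Finset.mem_image.1 hb0
        have hA : A.card ≤ w := by rw [← hb0A]; exact hw x0 hx0
        have : ((Ω.image (tm D)).filter (fun b => b.1 = A)).card ≤ A.powerset.card := by
          refine Finset.card_le_card_of_injOn Prod.snd ?_ ?_
          · intro b hb
            obtain ⟨hb, hbA⟩ := Finset.mem_filter.1 hb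
            obtain ⟨x, _, rfl⟩ := Finset.mem_image.1 hb
            simp only [Finset.coe_powerset, Set.mem_preimage, Set.mem_powerset_iff,
              Finset.coe_subset]
            rw [← hbA]
            exact Finset.filter_subset _ _
          · intro b hb b' hb' h
            exact Prod.ext ((Finset.mem_filter.1 hb).2.trans (Finset.mem_filter.1 hb').2.symm) h
        rw [Finset.card_powerset] at this
        have h3 : 2 ^ A.card ≤ 2 ^ w := Nat.pow_le_pow_right (by norm_num) hA
        exact_mod_cast this.trans h3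
      · rw [Finset.not_nonempty_iff_eq_empty.1 hne]; simp
    refine e2.trans ?_
    rw [← Finset.mul_sum, ← sum_pow_card']
    refine mul_le_mul_of_nonneg_left ?_ (by positivity)
    rw [← Finset.sum_image (s := Finset.univ) (g := M) (f := fun E => r ^ E.card)
      (fun A _ A' _ h => hM h)]
    exact Finset.sum_le_sum_of_subset_of_nonneg (Finset.subset_univ _) fun _ _ _ => by positivity
  have h2 := sum_log_le Ω hΩ (fun x => r ^ (M (D x)).card / (cls Ω D x).card)
    (fun x hx => div_pos (by positivity) (cls_card_pos hx)) _ h1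
  have e3 : ∑ x ∈ Ω, Real.log (r ^ (M (D x)).card / (cls Ω D x).card)
      = Real.log r * ∑ x ∈ Ω, ((M (D x)).card : ℝ) - ∑ x ∈ Ω, Real.log (cls Ω D x).card := by
    rw [Finset.mul_sum, ← Finset.sum_sub_distrib]
    refine Finset.sum_congr rfl fun x hx => ?_
    rw [Real.log_div (by positivity) (cls_card_pos hx).ne', Real.log_pow, mul_comm]
  rw [e3, Real.log_mul (by positivity) (by positivity), Real.log_pow, Real.log_pow] at h2
  have h3 : Real.log (1 + r) ≤ r := by
    have := Real.log_le_sub_one_of_pos (x := 1 + r) (by linarith)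
    linarith
  have h4 : (Fintype.card ι : ℝ) * Real.log (1 + r) ≤ Fintype.card ι * r :=
    mul_le_mul_of_nonneg_left h3 (by positivity)
  have h5 : (Ω.card : ℝ) * (w * Real.log 2 + Fintype.card ι * Real.log (1 + r) - Real.log Ω.card)
      ≤ Ω.card * (w * Real.log 2 + Fintype.card ι * r - Real.log Ω.card) :=
    mul_le_mul_of_nonneg_left (by linarith) (by positivity)
  linarith

end Pool.Agent.Lib.MP_8a52c3_lc
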