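import Pool.Agent.Lib.MP_8a52c3_lc.NbpMain

/-! From programs (an abstract walk relation) to the combinatorial core. -/

namespace Pool.Agent.Lib.MP_8a52c3_lc

open Finset

set_option linter.unusedSectionVars false

variable {ι κ : Type*} [Fintype ι] [DecidableEq ι] [DecidableEq κ]

/-- Block variables tested in a list of tests. -/
def vars (e : ι → κ) (l : List (κ × Bool)) : Finset ι :=
  Finset.univ.filter fun i => e i ∈ l.map Prod.fst

/-- Block variables tested at least twice. -/
def reps (e : ι → κ) (l : List (κ × Bool)) : Finset ι :=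
  Finset.univ.filter fun i => 2 ≤ (l.map Prod.fst).count (e i)

theorem mem_vars {e : ι → κ} {l : List (κ × Bool)} {i : ι} :
    i ∈ vars e l ↔ e i ∈ l.map Prod.fst := by simp [vars]

theorem vars_append (e : ι → κ) (l1 l2 : List (κ × Bool)) :
    vars e (l1 ++ l2) = vars e l1 ∪ vars e l2 := by
  ext i; simp only [mem_vars, List.map_append, List.mem_append, Finset.mem_union]

theorem vars_inter_subset (e : ι → κ) (l1 l2 : List (κ × Bool)) :
    vars e l1 ∩ vars e l2 ⊆ reps e (l1 ++ l2) := by
  intro i hi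
  rw [Finset.mem_inter, mem_vars, mem_vars] at hi
  have h1 := List.count_pos_iff.2 hi.1
  have h2 := List.count_pos_iff.2 hi.2
  simp only [reps, Finset.mem_filter, Finset.mem_univ, true_and, List.map_append,
    List.count_append]
  omega

theorem reps_mono_right (e : ι → κ) (l1 l2 : List (κ × Bool)) :
    reps e l2 ⊆ reps e (l1 ++ l2) := by
  intro i hi
  simp only [reps, Finset.mem_filter, Finset.mem_univ, true_and, List.map_append,
    List.count_append] at hi ⊢
  omega

theorem card_vars_add (e : ι → κ) (l1 l2 : List (κ × Bool)) :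
    (vars e l1).card + (vars e l2).card ≤ (vars e (l1 ++ l2)).card + (reps e (l1 ++ l2)).card := by
  rw [vars_append, ← Finset.card_union_add_card_inter]
  exact Nat.add_le_add_left (Finset.card_le_card (vars_inter_subset e l1 l2)) _

theorem card_vars_append_le (e : ι → κ) (l1 l2 : List (κ × Bool)) :
    (vars e (l1 ++ l2)).card ≤ (vars e l1).card + (vars e l2).card := by
  rw [vars_append]; exact Finset.card_union_le _ _

theorem card_vars_singleton {e : ι → κ} (he : Function.Injective e) (a : κ × Bool) :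
    (vars e [a]).card ≤ 1 := by
  rw [Finset.card_le_one]
  intro i hi j hj
  rw [mem_vars] at hi hj
  simp only [List.map_cons, List.map_nil, List.mem_singleton] at hi hj
  exact he (hi.trans hj.symm)

theorem exists_cut {e : ι → κ} (he : Function.Injective e) {w : ℕ} (hw : 1 ≤ w)
    (l : List (κ × Bool)) (h : w ≤ (vars e l).card) :
    ∃ l1 l2, l = l1 ++ l2 ∧ l1 ≠ [] ∧ (vars e l1).card = w := by
  induction l using List.reverseRecOn with
  | nil => simp [vars] at h; omega
  | append_singleton l a ih =>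
    by_cases h' : w ≤ (vars e l).card
    · obtain ⟨l1, l2, rfl, h1, h2⟩ := ih h'
      exact ⟨l1, l2 ++ [a], by simp, h1, h2⟩
    · refine ⟨l ++ [a], [], by simp, by simp, ?_⟩
      have := card_vars_append_le e l [a]
      have := card_vars_singleton he a
      omega

theorem log_small_bound (hn : 10 ^ 6 ≤ Fintype.card ι) :
    3 * Real.log (smallSets ι (Fintype.card ι / 10 ^ 9)).card ≤ Fintype.card ι / 10 ^ 6 := by
  have h := log_card_smallSets (ι := ι) (Fintype.card ι / 10 ^ 9) (1 / 2 ^ 24) (by norm_num)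
    (by norm_num)
  have hl : Real.log (1 / 2 ^ 24 : ℝ) = -(24 * Real.log 2) := by
    rw [one_div, Real.log_inv, Real.log_pow]; norm_num
  rw [hl] at h
  have hk : ((Fintype.card ι / 10 ^ 9 : ℕ) : ℝ) ≤ Fintype.card ι / 10 ^ 9 := by
    have := Nat.cast_div_le (α := ℝ) (m := Fintype.card ι) (n := 10 ^ 9)
    rwa [Nat.cast_pow, Nat.cast_ofNat] at this
  obtain ⟨l1, l2⟩ := log_two_bounds
  have hk0 : (0 : ℝ) ≤ ((Fintype.card ι / 10 ^ 9 : ℕ) : ℝ) := by positivity
  have h3 : ((Fintype.card ι / 10 ^ 9 : ℕ) : ℝ) * Real.log 2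
      ≤ ((Fintype.card ι / 10 ^ 9 : ℕ) : ℝ) * 0.7 := mul_le_mul_of_nonneg_left l2.le hk0
  have hn0 : (0 : ℝ) ≤ Fintype.card ι := by positivity
  linarith

/-- Lower bound for a program restricted to one block of variables. -/
theorem bp_block {V : Type*} (W : V → V → List (κ × Bool) → Prop)
    (hcat : ∀ u v w l1 l2, W u v l1 → W v w l2 → W u w (l1 ++ l2)) (Hd : Finset V)
    (hcut : ∀ u w l1 l2, W u w (l1 ++ l2) → l1 ≠ [] → ∃ v ∈ Hd, W u v l1 ∧ W v w l2)
    (s t : V) {e : ι → κ} (he : Function.Injective e) (ext : (ι → Bool) → κ → Bool)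
    (hext : ∀ u u' j, (∀ i, e i = j → u i = u' i) → ext u j = ext u' j)
    {f : (ι → Bool) → Prop} (hs : Sens f)
    (hr : RectFree f (smallSets ι (Fintype.card ι / 10 ^ 9)).card)
    (hsound : ∀ u l, W s t l → (∀ a ∈ l, ext u a.1 = a.2) → f u)
    (G : Finset (ι → Bool))
    (hG : ∀ u ∈ G, ∃ l, W s t l ∧ (∀ a ∈ l, ext u a.1 = a.2) ∧
      3 * (reps e l).card ≤ Fintype.card ι / 10 ^ 9)
    (hn : 10 ^ 6 ≤ Fintype.card ι) :
    (G.card : ℝ) ≤ (Hd.card : ℝ) ^ 3
      * (4 * Real.exp (Fintype.card ι * Real.log 2 - Fintype.card ι / 10 ^ 11)) := by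
  classical
  set n := Fintype.card ι with hndef
  set k := n / 10 ^ 9 with hk
  set w := 24999 * n / 100000 with hw
  set w0 := n + k - 3 * w with hw0
  have hw1 : 1 ≤ w := by omega
  have hw3 : 3 * w ≤ n := by omega
  have hagree : ∀ (z x : ι → Bool) (l : List (κ × Bool)), (∀ i ∈ vars e l, z i = x i) →
      (∀ a ∈ l, ext x a.1 = a.2) → ∀ a ∈ l, ext z a.1 = a.2 := by
    intro z x l h1 h2 a ha
    rw [← h2 a ha]
    refine hext z x a.1 fun i hi => h1 i (mem_vars.2 ?_)
    rw [hi]; exact List.mem_map_of_mem ha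
  have hdata : ∀ u : ι → Bool, ∃ (v : V × V × V) (l1 l2 l3 l4 : List (κ × Bool)), u ∈ G →
      (v ∈ Hd ×ˢ Hd ×ˢ Hd ∧ W s v.1 l1 ∧ W v.1 v.2.1 l2 ∧ W v.2.1 v.2.2 l3 ∧ W v.2.2 t l4 ∧
      (∀ a ∈ l1, ext u a.1 = a.2) ∧ (∀ a ∈ l2, ext u a.1 = a.2) ∧ (∀ a ∈ l3, ext u a.1 = a.2) ∧
      (∀ a ∈ l4, ext u a.1 = a.2) ∧ (vars e l1).card ≤ w ∧ (vars e l2).card ≤ w ∧
      (vars e l3).card ≤ w ∧ (vars e l4).card ≤ w0) := by
    intro u
    by_cases hu : u ∈ G
    swap
    · exact ⟨(s, s, s), [], [], [], [], fun h => absurd h hu⟩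
    obtain ⟨l, hl, hc, hrep⟩ := hG u hu
    have hall : (vars e l).card = n := by
      rw [hndef, ← Finset.card_univ]
      congr 1
      refine Finset.eq_univ_iff_forall.2 fun i => ?_
      by_contra hi
      refine hs u i (hsound u l hl hc) (hsound _ l hl (hagree _ u l (fun j hj => ?_) hc))
      have : j ≠ i := fun h => hi (h ▸ hj)
      simp [this]
    obtain ⟨l1, r1, rfl, n1, c1⟩ := exists_cut he hw1 l (by omega)
    have a1 := card_vars_append_le e l1 r1
    obtain ⟨l2, r2, rfl, n2, c2⟩ := exists_cut he hw1 r1 (by omega)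
    have a2 := card_vars_append_le e l2 r2
    obtain ⟨l3, l4, rfl, n3, c3⟩ := exists_cut he hw1 r2 (by omega)
    obtain ⟨v1, hv1, W1, W1'⟩ := hcut _ _ _ _ hl n1
    obtain ⟨v2, hv2, W2, W2'⟩ := hcut _ _ _ _ W1' n2
    obtain ⟨v3, hv3, W3, W4⟩ := hcut _ _ _ _ W2' n3
    have b1 := card_vars_add e l1 (l2 ++ (l3 ++ l4))
    have b2 := card_vars_add e l2 (l3 ++ l4)
    have b3 := card_vars_add e l3 l4
    have d2 := Finset.card_le_card (reps_mono_right e l1 (l2 ++ (l3 ++ l4)))
    have d3 := Finset.card_le_card (reps_mono_right e l2 (l3 ++ l4))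
    refine ⟨(v1, v2, v3), l1, l2, l3, l4, fun _ => ⟨by simp [hv1, hv2, hv3], W1, W2, W3, W4,
      fun a ha => hc a (by simp [ha]), fun a ha => hc a (by simp [ha]),
      fun a ha => hc a (by simp [ha]), fun a ha => hc a (by simp [ha]), c1.le, c2.le, c3.le, ?_⟩⟩
    omega
  choose tr l1 l2 l3 l4 hd using hdata
  have hcard := Finset.card_eq_sum_card_fiberwise (f := tr) (s := G) (t := Hd ×ˢ Hd ×ˢ Hd)
    (fun u hu => (hd u hu).1)
  have hnR : (10 : ℝ) ^ 6 ≤ n := by exact_mod_cast hn
  have hfib : ∀ v ∈ Hd ×ˢ Hd ×ˢ Hd, ((G.filter fun u => tr u = v).card : ℝ)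
      ≤ 4 * Real.exp (n * Real.log 2 - n / 10 ^ 11) := by
    intro v _
    refine core (f := f) (D0 := fun u => vars e (l4 u)) (D1 := fun u => vars e (l1 u))
      (D2 := fun u => vars e (l2 u)) (D3 := fun u => vars e (l3 u)) (w := w) (w0 := w0) (k := k)
      hs hr ?_ ?_ ?_ ?_ ?_ (by omega) ?_ ?_ (log_small_bound hn)
    · intro x0 h0 x1 h1 x2 h2 x3 h3 z a0 a1 a2 a3
      rw [Finset.mem_filter] at h0 h1 h2 h3
      obtain ⟨-, -, -, -, p0, -, -, -, q0, -⟩ := hd x0 h0.1
      obtain ⟨-, p1, -, -, -, q1, -⟩ := hd x1 h1.1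
      obtain ⟨-, -, p2, -, -, -, q2, -⟩ := hd x2 h2.1
      obtain ⟨-, -, -, p3, -, -, -, q3, -⟩ := hd x3 h3.1
      rw [h0.2] at p0; rw [h1.2] at p1; rw [h2.2] at p2; rw [h3.2] at p3
      refine hsound z _ (hcat _ _ _ _ _ p1 (hcat _ _ _ _ _ p2 (hcat _ _ _ _ _ p3 p0))) ?_
      intro a ha
      simp only [List.mem_append] at ha
      rcases ha with ha | ha | ha | ha
      · exact hagree z x1 _ a1 q1 a ha
      · exact hagree z x2 _ a2 q2 a ha
      · exact hagree z x3 _ a3 q3 a ha
      · exact hagree z x0 _ a0 q0 a ha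
    · intro x hx; exact (hd x (Finset.mem_filter.1 hx).1).2.2.2.2.2.2.2.2.2.2.2.2
    · intro x hx; exact (hd x (Finset.mem_filter.1 hx).1).2.2.2.2.2.2.2.2.2.1
    · intro x hx; exact (hd x (Finset.mem_filter.1 hx).1).2.2.2.2.2.2.2.2.2.2.1
    · intro x hx; exact (hd x (Finset.mem_filter.1 hx).1).2.2.2.2.2.2.2.2.2.2.2.1
    · have : 100000 * w ≤ 24999 * n := by omega
      have h' : (100000 : ℝ) * w ≤ 24999 * n := by exact_mod_cast this
      rw [← hndef]; linarith
    · have : 100000 * w0 ≤ 25004 * n := by omega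
      have h' : (100000 : ℝ) * w0 ≤ 25004 * n := by exact_mod_cast this
      rw [← hndef]; linarith
  rw [hcard]
  push_cast
  refine (Finset.sum_le_card_nsmul _ _ _ hfib).trans (le_of_eq ?_)
  rw [nsmul_eq_mul, Finset.card_product, Finset.card_product]
  push_cast; ring

theorem sum_update_swap {B U : Type*} [Fintype B] [DecidableEq B] [Fintype U] [DecidableEq U]
    (b : B) (Good : Finset (B → U)) :
    ∑ y : B → U, (Finset.univ.filter fun u : U => Function.update y b u ∈ Good).card
      = Fintype.card U * Good.card := by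
  have hinv : Function.Involutive fun p : (B → U) × U => (Function.update p.1 b p.2, p.1 b) := by
    rintro ⟨y, u⟩
    simp
  have h1 := Equiv.sum_comp hinv.toPerm (fun p : (B → U) × U => if p.1 ∈ Good then 1 else 0)
  simp only [Function.Involutive.coe_toPerm] at h1
  rw [Fintype.sum_prod_type, Fintype.sum_prod_type] at h1
  simp only [Finset.card_filter]
  refine Eq.trans (Eq.trans ?_ h1) ?_
  · refine Finset.sum_congr rfl fun y _ => Finset.sum_congr rfl fun u _ => ?_
    congr
  · rw [Finset.sum_comm]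
    simp

/-- Lower bound for a program computing a function with many hard blocks. -/
theorem bp_blocks {V B : Type*} [Fintype κ] [Fintype B] [DecidableEq B] [Nonempty B]
    (W : V → V → List (κ × Bool) → Prop)
    (hcat : ∀ u v w l1 l2, W u v l1 → W v w l2 → W u w (l1 ++ l2)) (Hd : Finset V)
    (hcut : ∀ u w l1 l2, W u w (l1 ++ l2) → l1 ≠ [] → ∃ v ∈ Hd, W u v l1 ∧ W v w l2)
    (s t : V) {E : B → ι → κ} (hE : ∀ b i b' i', E b i = E b' i' → b = b' ∧ i = i')
    (asm : (B → ι → Bool) → κ → Bool) (hasm1 : ∀ y b i, asm y (E b i) = y b i)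
    (hasm2 : ∀ y y' j, (∀ b i, E b i = j → y b i = y' b i) → asm y j = asm y' j)
    (F : (κ → Bool) → Prop) [DecidablePred F] (hs : Sens F)
    (hr : ∀ y b, RectFree (fun u => F (asm (Function.update y b u)))
      (smallSets ι (Fintype.card ι / 10 ^ 9)).card)
    (hdens : Fintype.card (B → ι → Bool)
      ≤ 4 * (Finset.univ.filter fun y : B → ι → Bool => F (asm y)).card)
    (hsound : ∀ x l, W s t l → (∀ a ∈ l, x a.1 = a.2) → F x) (R : ℕ)
    (hcomp : ∀ x, F x → ∃ l, W s t l ∧ (∀ a ∈ l, x a.1 = a.2) ∧ (reps id l).card ≤ R)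
    (hR : 6 * R ≤ Fintype.card ι / 10 ^ 9 * Fintype.card B)
    (hn : 10 ^ 6 ≤ Fintype.card ι) :
    Real.exp (Fintype.card ι / 10 ^ 11) ≤ 32 * (Hd.card : ℝ) ^ 3 := by
  classical
  set n := Fintype.card ι with hndef
  set k := n / 10 ^ 9 with hk
  set Acc := Finset.univ.filter fun y : B → ι → Bool => F (asm y) with hAcc
  have hch : ∀ y : B → ι → Bool, ∃ l : List (κ × Bool), y ∈ Acc →
      (W s t l ∧ (∀ a ∈ l, asm y a.1 = a.2) ∧ (reps id l).card ≤ R) := by
    intro y
    by_cases hy : y ∈ Acc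
    · obtain ⟨l, hl⟩ := hcomp _ (Finset.mem_filter.1 hy).2
      exact ⟨l, fun _ => hl⟩
    · exact ⟨[], fun h => absurd h hy⟩
  choose lw hlw using hch
  -- for every accepted input at least half of the blocks are good
  have hhalf : ∀ y ∈ Acc, Fintype.card B
      ≤ 2 * (Finset.univ.filter fun b : B => 3 * (reps (E b) (lw y)).card ≤ k).card := by
    intro y hy
    have h1 : ∑ b : B, (reps (E b) (lw y)).card ≤ R := by
      refine le_trans ?_ (hlw y hy).2.2
      rw [← Finset.card_sigma]
      refine Finset.card_le_card_of_injOn (fun p => E p.1 p.2) ?_ ?_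
      · intro p hp
        simp only [Finset.coe_sigma, Set.mem_sigma_iff, Finset.mem_coe, reps, Finset.mem_filter,
          Finset.mem_univ, true_and, id] at hp ⊢
        exact hp
      · rintro ⟨b, i⟩ _ ⟨b', i'⟩ _ h
        obtain ⟨rfl, rfl⟩ := hE b i b' i' h
        rfl
    have h2 : (Finset.univ.filter fun b : B => ¬ 3 * (reps (E b) (lw y)).card ≤ k).card * (k + 1)
        ≤ 3 * ∑ b : B, (reps (E b) (lw y)).card := by
      rw [Finset.mul_sum, ← smul_eq_mul]
      refine le_trans (Finset.card_nsmul_le_sum _ (fun b => 3 * (reps (E b) (lw y)).card) _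
        fun b hb => ?_) (Finset.sum_le_sum_of_subset (Finset.filter_subset _ _))
      have := (Finset.mem_filter.1 hb).2
      omega
    have h3 := Finset.card_filter_add_card_filter_not (s := (Finset.univ : Finset B))
      (fun b : B => 3 * (reps (E b) (lw y)).card ≤ k)
    rw [Finset.card_univ] at h3
    set g := (Finset.univ.filter fun b : B => 3 * (reps (E b) (lw y)).card ≤ k).card
    set bd := (Finset.univ.filter fun b : B => ¬ 3 * (reps (E b) (lw y)).card ≤ k).card
    have h4 : 2 * bd * (k + 1) ≤ Fintype.card B * (k + 1) := by nlinarith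
    have h5 := Nat.le_of_mul_le_mul_right h4 (Nat.succ_pos k)
    omega
  obtain ⟨b, hb⟩ : ∃ b : B, Acc.card
      ≤ 2 * (Acc.filter fun y => 3 * (reps (E b) (lw y)).card ≤ k).card := by
    by_contra hcon
    push Not at hcon
    have h1 : ∑ b : B, 2 * (Acc.filter fun y => 3 * (reps (E b) (lw y)).card ≤ k).card
        < ∑ _b : B, Acc.card :=
      Finset.sum_lt_sum_of_nonempty Finset.univ_nonempty fun b _ => hcon b
    have h2 : ∑ y ∈ Acc, Fintype.card B ≤ ∑ y ∈ Acc,
        2 * (Finset.univ.filter fun b : B => 3 * (reps (E b) (lw y)).card ≤ k).card :=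
      Finset.sum_le_sum hhalf
    have h3 : ∑ b : B, 2 * (Acc.filter fun y => 3 * (reps (E b) (lw y)).card ≤ k).card
        = ∑ y ∈ Acc,
          2 * (Finset.univ.filter fun b : B => 3 * (reps (E b) (lw y)).card ≤ k).card := by
      simp only [← Finset.mul_sum, Finset.card_filter]
      rw [Finset.sum_comm]
    simp only [Finset.sum_const, Finset.card_univ, smul_eq_mul] at h1 h2
    rw [h3] at h1
    rw [mul_comm] at h2
    omega
  set Good := Acc.filter fun y => 3 * (reps (E b) (lw y)).card ≤ k with hGood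
  obtain ⟨y0, hy0⟩ : ∃ y0 : B → ι → Bool, 2 ^ n
      ≤ 8 * (Finset.univ.filter fun u : ι → Bool => Function.update y0 b u ∈ Good).card := by
    by_contra hcon
    push Not at hcon
    have h1 : ∑ y0 : B → ι → Bool,
        8 * (Finset.univ.filter fun u : ι → Bool => Function.update y0 b u ∈ Good).card
        < ∑ _y0 : B → ι → Bool, 2 ^ n :=
      Finset.sum_lt_sum_of_nonempty Finset.univ_nonempty fun y _ => hcon y
    rw [← Finset.mul_sum, sum_update_swap] at h1
    have h2 : Fintype.card (ι → Bool) = 2 ^ n := by simp [hndef]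
    simp only [Finset.sum_const, Finset.card_univ, smul_eq_mul] at h1
    rw [h2] at h1
    have h3 : Fintype.card (B → ι → Bool) ≤ 8 * Good.card := by omega
    have h4 := Nat.mul_le_mul_right (2 ^ n) h3
    nlinarith
  have hupd : ∀ (u : ι → Bool) (i : ι), asm (Function.update y0 b (Function.update u i (!u i)))
      = Function.update (asm (Function.update y0 b u)) (E b i)
        (!asm (Function.update y0 b u) (E b i)) := by
    intro u i
    funext j
    by_cases hj : j = E b i
    · subst hj; simp [hasm1]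
    · rw [Function.update_of_ne hj]
      refine hasm2 _ _ j fun b' i' h => ?_
      by_cases hb' : b' = b
      · subst hb'
        have : i' ≠ i := fun h' => hj (by rw [← h, h'])
        simp [this]
      · simp [hb']
  have key := bp_block W hcat Hd hcut s t (e := E b) (fun i i' h => (hE b i b i' h).2)
    (fun u => asm (Function.update y0 b u)) (by
      intro u u' j h
      refine hasm2 _ _ j fun b' i' h' => ?_
      by_cases hb' : b' = b
      · subst hb'; simpa using h i' h'
      · simp [hb'])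
    (f := fun u => F (asm (Function.update y0 b u))) (by
      intro u i h1 h2
      simp only [hupd] at h2
      exact hs _ _ h1 h2) (hr y0 b) (fun u l h1 h2 => hsound _ l h1 h2)
    (Finset.univ.filter fun u : ι → Bool => Function.update y0 b u ∈ Good) (by
      intro u hu
      have h1 := Finset.mem_filter.1 (Finset.mem_filter.1 hu).2
      exact ⟨lw _, (hlw _ h1.1).1, (hlw _ h1.1).2.1, h1.2⟩) hn
  have h1 : (2 : ℝ) ^ n
      ≤ 8 * (Finset.univ.filter fun u : ι → Bool => Function.update y0 b u ∈ Good).card := by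
    exact_mod_cast hy0
  rw [← hndef, Real.exp_sub, ← Real.log_pow, Real.exp_log (by positivity)] at key
  have hpos : 0 < Real.exp (n / 10 ^ 11) := Real.exp_pos _
  have h2 : (2 : ℝ) ^ n ≤ 8 * ((Hd.card : ℝ) ^ 3 * (4 * (2 ^ n / Real.exp (n / 10 ^ 11)))) := by
    linarith
  have h3 : 8 * ((Hd.card : ℝ) ^ 3 * (4 * (2 ^ n / Real.exp (n / 10 ^ 11))))
      = 2 ^ n * (32 * (Hd.card : ℝ) ^ 3 / Real.exp (n / 10 ^ 11)) := by ring
  rw [h3] at h2
  have h4 : (1 : ℝ) ≤ 32 * (Hd.card : ℝ) ^ 3 / Real.exp (n / 10 ^ 11) := by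
    have : (0 : ℝ) < 2 ^ n := by positivity
    nlinarith
  rwa [le_div_iff₀ hpos, one_mul] at h4

/-- A short accepting walk of a sensitive function repeats few variables. -/
theorem reps_le_of_length [Fintype κ] (l : List (κ × Bool))
    (hall : ∀ j : κ, j ∈ l.map Prod.fst) :
    Fintype.card κ + (reps id l).card ≤ l.length := by
  have h1 : ∑ j : κ, (l.map Prod.fst).count j = l.length := by
    have := List.sum_toFinset_count_eq_length (l.map Prod.fst)
    rw [List.length_map] at this
    rw [← this]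
    refine (Finset.sum_subset (Finset.subset_univ _) fun j _ hj => ?_).symm
    exact absurd (List.mem_toFinset.2 (hall j)) hj
  rw [← h1, reps, Finset.card_filter, ← Finset.card_univ, Finset.card_eq_sum_ones,
    ← Finset.sum_add_distrib]
  refine Finset.sum_le_sum fun j _ => ?_
  have := List.count_pos_iff.2 (hall j)
  simp only [id]
  split_ifs <;> omega

end Pool.Agent.Lib.MP_8a52c3_lc
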