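import Pool.Agent.Lib.MP_8a52c3_lc.NbtLocal

/-! Revealing the segments one by one in random order. -/

namespace Pool.Agent.Lib.MP_8a52c3_lc

open Finset

set_option linter.unusedSectionVars false

variable {ι ρ : Type*} [Fintype ι] [DecidableEq ι] [Fintype ρ] [DecidableEq ρ]

/-- Average over a random `s`-element set, built one element at a time. -/
noncomputable def avg : ℕ → (Finset ρ → ℝ) → ℝ
  | 0, F => F ∅
  | s + 1, F => avg s fun S => (∑ j ∈ Sᶜ, F (insert j S)) / ((Fintype.card ρ : ℝ) - s)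

theorem avg_mono : ∀ (s : ℕ), s ≤ Fintype.card ρ → ∀ F G : Finset ρ → ℝ,
    (∀ S, S.card = s → F S ≤ G S) → avg s F ≤ avg s G
  | 0, _, _, _, h => h ∅ rfl
  | s + 1, hs, F, G, h => by
    refine avg_mono s (by omega) _ _ fun S hS => ?_
    have : (s : ℝ) + 1 ≤ Fintype.card ρ := by exact_mod_cast hs
    refine div_le_div_of_nonneg_right (Finset.sum_le_sum fun j hj => h _ ?_) (by linarith)
    rw [Finset.card_insert_of_notMem (Finset.mem_compl.1 hj), hS]

theorem avg_add : ∀ (s : ℕ) (F G : Finset ρ → ℝ),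
    avg s (fun S => F S + G S) = avg s F + avg s G
  | 0, _, _ => rfl
  | s + 1, F, G => by
    simp only [avg, Finset.sum_add_distrib, add_div]
    exact avg_add s _ _

theorem avg_mul : ∀ (s : ℕ) (a : ℝ) (F : Finset ρ → ℝ), avg s (fun S => a * F S) = a * avg s F
  | 0, _, _ => rfl
  | s + 1, a, F => by
    simp only [avg, ← Finset.mul_sum, mul_div_assoc]
    exact avg_mul s _ _

theorem avg_const : ∀ (s : ℕ), s ≤ Fintype.card ρ → ∀ a : ℝ,
    avg s (fun _ : Finset ρ => a) = a
  | 0, _, _ => rfl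
  | s + 1, hs, a => by
    have h1 : (s : ℝ) + 1 ≤ Fintype.card ρ := by exact_mod_cast hs
    have key : ∀ S : Finset ρ, S.card = s →
        (∑ _j ∈ Sᶜ, a) / ((Fintype.card ρ : ℝ) - s) = a := by
      intro S hS
      rw [Finset.sum_const, Finset.card_compl, hS, nsmul_eq_mul, Nat.cast_sub (by omega)]
      have : (Fintype.card ρ : ℝ) - s ≠ 0 := by linarith
      field_simp
    have h2 := avg_const s (by omega) a
    rw [avg]
    exact le_antisymm ((avg_mono s (by omega) _ _ fun S hS => (key S hS).le).trans h2.le)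
      (h2.ge.trans (avg_mono s (by omega) _ _ fun S hS => (key S hS).ge))

theorem avg_sum {β : Type*} (P : Finset β) : ∀ (s : ℕ) (F : β → Finset ρ → ℝ),
    avg s (fun S => ∑ p ∈ P, F p S) = ∑ p ∈ P, avg s (F p)
  | 0, _ => rfl
  | s + 1, F => by
    simp only [avg]
    rw [← avg_sum P s]
    congr 1
    funext S
    rw [Finset.sum_comm, Finset.sum_div]

theorem exists_avg_le {s : ℕ} (hs : s ≤ Fintype.card ρ) (F : Finset ρ → ℝ) :
    ∃ S : Finset ρ, S.card = s ∧ avg s F ≤ F S := by
  obtain ⟨S, hS, hmax⟩ := Finset.exists_max_image (Finset.powersetCard s Finset.univ) F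
    (Finset.powersetCard_nonempty.2 (by simpa using hs))
  refine ⟨S, (Finset.mem_powersetCard.1 hS).2, ?_⟩
  refine (avg_mono s hs F (fun _ => F S) fun S' hS' => hmax S' ?_).trans (avg_const s hs _).le
  exact Finset.mem_powersetCard.2 ⟨Finset.subset_univ _, hS'⟩

theorem avg_avoid (C : Finset ρ) : ∀ (s : ℕ), s < Fintype.card ρ →
    avg s (fun S => if Disjoint S C then (1 : ℝ) else 0)
      ≤ (((Fintype.card ρ : ℝ) - s) / Fintype.card ρ) ^ C.card
  | 0, hs => by
    have : (0 : ℝ) < Fintype.card ρ := by exact_mod_cast hs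
    simp [avg, this.ne']
  | s + 1, hs => by
    have h1 : (s : ℝ) + 1 < Fintype.card ρ := by exact_mod_cast hs
    set u : ℝ := Fintype.card ρ - s with hu
    have hu1 : 1 < u := by rw [hu]; linarith
    have hq : 0 ≤ (u - 1) / u := div_nonneg (by linarith) (by linarith)
    have key : ∀ S : Finset ρ, S.card = s →
        (∑ j ∈ Sᶜ, if Disjoint (insert j S) C then (1 : ℝ) else 0) / u
        ≤ ((u - 1) / u) ^ C.card * (if Disjoint S C then (1 : ℝ) else 0) := by
      intro S hS
      split_ifs with h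
      · have e1 : ∑ j ∈ Sᶜ, (if Disjoint (insert j S) C then (1 : ℝ) else 0) = u - C.card := by
          rw [← Finset.sum_filter, Finset.sum_const, nsmul_eq_mul, mul_one]
          have : Sᶜ.filter (fun j => Disjoint (insert j S) C) = Sᶜ \ C := by
            ext j; simp [h]
          have hsub : C ⊆ Sᶜ := fun j hj => Finset.mem_compl.2 (Finset.disjoint_right.1 h hj)
          rw [this, Finset.card_sdiff_of_subset hsub, Nat.cast_sub (Finset.card_le_card hsub),
            Finset.card_compl, hS, Nat.cast_sub (by omega)]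
        rw [e1, mul_one]
        have hb := one_add_mul_le_pow (a := -(1 / u)) (by
          have : 1 / u ≤ 1 := by rw [div_le_one (by linarith)]; linarith
          linarith) C.card
        have e2 : (u - C.card) / u = 1 + C.card * -(1 / u) := by field_simp; ring
        have e3 : (u - 1) / u = 1 + -(1 / u) := by field_simp; ring
        rw [e2, e3]; exact hb
      · rw [Finset.sum_eq_zero fun j _ => if_neg fun h' =>
          h (Finset.disjoint_of_subset_left (Finset.subset_insert _ _) h')]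
        simp
    rw [avg]
    refine (avg_mono s (by omega) _ _ key).trans ?_
    rw [avg_mul]
    refine (mul_le_mul_of_nonneg_left (avg_avoid C s (by omega)) (pow_nonneg hq _)).trans
      (le_of_eq ?_)
    rw [← mul_pow]
    congr 1
    have : u ≠ 0 := by linarith
    rw [← hu]
    push_cast
    have e : (Fintype.card ρ : ℝ) - (s + 1) = u - 1 := by rw [hu]; ring
    rw [e]
    field_simp

theorem chain_numeric {k A c e : ℝ} {r u₀ : ℕ} (m : ℕ → ℝ) (hk : 0 ≤ k) (h0 : 0.4 ≤ m 0)
    (hstep : ∀ s : ℕ, s + u₀ < r → ∀ y : ℝ, 0 ≤ y →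
      ((1 - c) ^ 2 - 2 * y / (r - s)) * m s
        - 2 * k * Real.exp (-(Real.log (r / (r - s)) * y)) / (r - s) - e ≤ m (s + 1))
    (hc0 : 0 ≤ c) (hc : 2 * r * c ≤ 1) (he : r * e ≤ Real.exp (-(A * Real.log (r / u₀) ^ 5)))
    (hA : 2 * (20 * (k + 1)) ^ 5 ≤ A) (hu : 4 * (A * Real.log (r / u₀) ^ 4 + k + 1) ≤ u₀)
    (hu' : 20 * (k + 1) ≤ u₀) :
    ∀ s : ℕ, s + u₀ ≤ r → 0.4 - (2 * k + 2) * Real.log (r / (r - s)) ≤ m s ∧
      (1 ≤ 20 * (k + 1) * Real.log (r / (r - s)) →
        Real.exp (-(A * Real.log (r / (r - s)) ^ 5)) ≤ m s) := by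
  have hu0 : (20 : ℝ) ≤ u₀ := by linarith
  have hA0 : 0 < A := lt_of_lt_of_le (by positivity) hA
  intro s
  induction s with
  | zero =>
    intro h
    have : (u₀ : ℝ) ≤ r := by exact_mod_cast (by omega : u₀ ≤ r)
    have hr : (r : ℝ) ≠ 0 := by linarith
    simp only [Nat.cast_zero, sub_zero, div_self hr, Real.log_one, mul_zero]
    exact ⟨by linarith, fun h => by linarith⟩
  | succ s ih =>
    intro h
    obtain ⟨i1, i2⟩ := ih (by omega)
    have hs := hstep s (by omega)
    have h1 : (s : ℝ) + 1 + u₀ ≤ r := by exact_mod_cast h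
    have hs0 : (0 : ℝ) ≤ s := by positivity
    push_cast
    obtain ⟨u, hud⟩ : ∃ u : ℝ, u = r - s := ⟨_, rfl⟩
    have e1 : (r : ℝ) - (s + 1) = u - 1 := by rw [hud]; ring
    rw [e1]
    rw [← hud] at hs i1 i2
    have hu1 : (u₀ : ℝ) ≤ u - 1 := by linarith
    have hur : u ≤ r := by linarith
    have hupos : 0 < u := by linarith
    have hrpos : (0 : ℝ) < r := by linarith
    set σ := Real.log (r / u) with hσ
    set σ' := Real.log (r / (u - 1)) with hσ'
    set σs := Real.log (r / u₀) with hσs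
    have hσ0 : 0 ≤ σ := Real.log_nonneg ((one_le_div hupos).2 hur)
    have hσle : σ ≤ σs := Real.log_le_log (by positivity)
      (div_le_div_of_nonneg_left hrpos.le (by linarith) (by linarith))
    have hd : σ' - σ = Real.log (u / (u - 1)) := by
      rw [hσ, hσ', Real.log_div hrpos.ne' (by linarith), Real.log_div hrpos.ne' hupos.ne',
        Real.log_div hupos.ne' (by linarith)]
      ring
    have hd1 : 1 / u ≤ σ' - σ := by
      rw [hd]
      have := Real.one_sub_inv_le_log_of_pos (x := u / (u - 1)) (div_pos hupos (by linarith))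
      have e : 1 - (u / (u - 1))⁻¹ = 1 / u := by field_simp; ring
      linarith
    have hd2 : σ' - σ ≤ 1 / (u - 1) := by
      rw [hd]
      have := Real.log_le_sub_one_of_pos (x := u / (u - 1)) (div_pos hupos (by linarith))
      have hne : u - 1 ≠ 0 := by linarith
      have e : u / (u - 1) - 1 = 1 / (u - 1) := by field_simp; ring
      linarith
    have hiu : 0 < 1 / u := by positivity
    have hcu : 2 * c ≤ 1 / u := by
      rw [le_div_iff₀ hupos]
      have := mul_le_mul_of_nonneg_left hur hc0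
      linarith
    have hg : Real.exp (-(A * σs ^ 5)) ≤ Real.exp (-(A * σ ^ 5)) := by
      refine Real.exp_le_exp.2 (neg_le_neg (mul_le_mul_of_nonneg_left ?_ hA0.le))
      exact pow_le_pow_left₀ hσ0 hσle 5
    have heu : e ≤ Real.exp (-(A * σ ^ 5)) * (1 / u) := by
      have h2 : e ≤ Real.exp (-(A * σ ^ 5)) / r := by
        rw [le_div_iff₀ hrpos]; linarith
      refine h2.trans ?_
      rw [mul_one_div]
      exact div_le_div_of_nonneg_left (Real.exp_pos _).le hupos hur
    have hg1 : Real.exp (-(A * σ ^ 5)) ≤ 1 := by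
      rw [Real.exp_le_one_iff]; have : 0 ≤ A * σ ^ 5 := by positivity
      linarith
    have hc1 : c ≤ 1 / 2 := by
      have : 1 / u ≤ 1 := by rw [div_le_one hupos]; linarith
      linarith
    have p1 : 0.4 - (2 * k + 2) * σ' ≤ m (s + 1) := by
      have h2 := hs 0 le_rfl
      simp only [mul_zero, zero_div, sub_zero, neg_zero, Real.exp_zero, mul_one] at h2
      have h3 : (1 - c) ^ 2 * (0.4 - (2 * k + 2) * σ) ≤ (1 - c) ^ 2 * m s :=
        mul_le_mul_of_nonneg_left i1 (by positivity)
      have h4 : 0 ≤ (2 * k + 2) * σ := by positivity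
      have h5 : 0.4 - (2 * k + 2) * σ - c ≤ (1 - c) ^ 2 * (0.4 - (2 * k + 2) * σ) := by
        have : 0 ≤ c * (2 - c) * ((2 * k + 2) * σ) := by
          have : 0 ≤ 2 - c := by linarith
          positivity
        linarith [sq_nonneg c]
      have h6 : (2 * k + 2) * (1 / u) ≤ (2 * k + 2) * (σ' - σ) :=
        mul_le_mul_of_nonneg_left hd1 (by positivity)
      have h7 : 2 * k / u = 2 * k * (1 / u) := by ring
      have h8 : e ≤ 1 / u := heu.trans (mul_le_of_le_one_left hiu.le hg1)
      linarith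
    refine ⟨p1, fun hσ1 => ?_⟩
    by_cases hph : 1 ≤ 20 * (k + 1) * σ
    · have j2 := i2 hph
      set g := Real.exp (-(A * σ ^ 5)) with hgd
      have hgpos : 0 < g := Real.exp_pos _
      set y := A * σ ^ 4 with hy
      have hy0 : 0 ≤ y := by positivity
      have h2 := hs y hy0
      have e2 : σ * y = A * σ ^ 5 := by rw [hy]; ring
      rw [e2, ← hgd] at h2
      have hyle : y ≤ A * σs ^ 4 :=
        mul_le_mul_of_nonneg_left (pow_le_pow_left₀ hσ0 hσle 4) hA0.le
      have hyge : 4 * (k + 1) ≤ y := by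
        have a1 : (1 : ℝ) ≤ (20 * (k + 1) * σ) ^ 4 := one_le_pow₀ hph
        have a2 : 2 * (20 * (k + 1)) ^ 5 * σ ^ 4 ≤ y :=
          mul_le_mul_of_nonneg_right hA (by positivity)
        have a3 : 2 * (20 * (k + 1)) ^ 5 * σ ^ 4
            = 40 * (k + 1) * (20 * (k + 1) * σ) ^ 4 := by ring
        have a4 := mul_le_mul_of_nonneg_left a1 (by positivity : 0 ≤ 40 * (k + 1))
        rw [a3] at a2
        linarith
      set z := (2 * y + 2 * k + 2) * (1 / u) with hz
      have hz0 : 0 ≤ z := by positivity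
      have hz1 : z ≤ 1 / 2 := by
        rw [hz, mul_one_div, div_le_iff₀ hupos]; linarith
      have hco : 1 - (2 * y + 1) * (1 / u) ≤ (1 - c) ^ 2 - 2 * y / u := by
        have : 2 * y / u = 2 * y * (1 / u) := by ring
        linarith [sq_nonneg c]
      have hco0 : 0 ≤ 1 - (2 * y + 1) * (1 / u) := by
        have : (2 * y + 1) * (1 / u) ≤ z :=
          mul_le_mul_of_nonneg_right (by linarith) hiu.le
        linarith
      have h3 : (1 - (2 * y + 1) * (1 / u)) * g ≤ ((1 - c) ^ 2 - 2 * y / u) * m s :=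
        mul_le_mul hco j2 hgpos.le (by linarith)
      have h4 : g * (1 - z) ≤ m (s + 1) := by
        have : 2 * k * g / u = 2 * k * g * (1 / u) := by ring
        rw [hz]; linarith
      have h5 : Real.exp (-(2 * z)) ≤ 1 - z := by
        have a1 := Real.add_one_le_exp (2 * z)
        rw [Real.exp_neg, inv_le_comm₀ (Real.exp_pos _) (by linarith), inv_le_iff_one_le_mul₀
          (by linarith)]
        have a2 := mul_le_mul_of_nonneg_right a1 (by linarith : 0 ≤ 1 - z)
        have a3 := mul_nonneg hz0 (by linarith : 0 ≤ 1 / 2 - z)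
        linarith
      refine le_trans ?_ ((mul_le_mul_of_nonneg_left h5 hgpos.le).trans h4)
      rw [hgd, ← Real.exp_add]
      refine Real.exp_le_exp.2 ?_
      have h6 : (σ + 1 / u) ^ 5 ≤ σ' ^ 5 := pow_le_pow_left₀ (by positivity) (by linarith) 5
      have h7 : σ ^ 5 + 5 * σ ^ 4 * (1 / u) ≤ (σ + 1 / u) ^ 5 := by
        have : (σ + 1 / u) ^ 5 = σ ^ 5 + 5 * σ ^ 4 * (1 / u) + (10 * σ ^ 3 * (1 / u) ^ 2
          + 10 * σ ^ 2 * (1 / u) ^ 3 + 5 * σ * (1 / u) ^ 4 + (1 / u) ^ 5) := by ring
        rw [this]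
        exact le_add_of_nonneg_right (by positivity)
      have h8 := mul_le_mul_of_nonneg_left (h7.trans h6) hA0.le
      have h9 : 2 * z ≤ 5 * y * (1 / u) := by
        rw [hz, ← mul_assoc]
        exact mul_le_mul_of_nonneg_right (by linarith) hiu.le
      have e3 : A * (σ ^ 5 + 5 * σ ^ 4 * (1 / u)) = A * σ ^ 5 + 5 * y * (1 / u) := by
        rw [hy]; ring
      linarith
    · have a1 : 20 * (k + 1) * (σ' - σ) ≤ 1 := by
        refine (mul_le_mul_of_nonneg_left hd2 (by positivity)).trans ?_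
        rw [mul_one_div, div_le_one (by linarith)]; linarith
      have a2 : 0.2 ≤ m (s + 1) := by linarith [not_le.1 hph]
      refine le_trans ?_ a2
      have a3 : 2 ≤ A * σ' ^ 5 := by
        have b1 : (1 : ℝ) ≤ (20 * (k + 1) * σ') ^ 5 := one_le_pow₀ hσ1
        have b2 : 2 * (20 * (k + 1)) ^ 5 * σ' ^ 5 ≤ A * σ' ^ 5 :=
          mul_le_mul_of_nonneg_right hA (pow_nonneg (by linarith) 5)
        rw [mul_pow] at b1
        linarith
      have a4 : (5 : ℝ) ≤ Real.exp 2 := by
        have := Real.quadratic_le_exp_of_nonneg (x := 2) (by norm_num)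
        linarith
      refine (Real.exp_le_exp.2 (neg_le_neg a3)).trans ?_
      rw [Real.exp_neg, inv_le_comm₀ (Real.exp_pos _) (by norm_num)]
      linarith

variable {Ω : Finset (ι → Bool)} {D : ρ → (ι → Bool) → Finset ι} {T : Finset ι}

theorem chain (hΩ : Ω.Nonempty) (hU : ∀ j, Unamb Ω (D j)) {k A c ξ : ℝ} {u₀ : ℕ} (hk : 0 ≤ k)
    (hT : T.Nonempty)
    (hmult : ∑ x ∈ Ω, ∑ i ∈ T, ((rd D x i).card : ℝ) ≤ 2 * k * (T.card * Ω.card))
    (htc : ∀ S, tc Ω D T S ≤ ξ * T.card * Ω.card)
    (hdef : Fintype.card ι * Real.log 2 - Real.log Ω.card ≤ c * T.card / 100)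
    (hc0 : 0 < c) (hc : 2 * Fintype.card ρ * c ≤ 1)
    (he : Fintype.card ρ * (ξ / c) ≤ Real.exp (-(A * Real.log (Fintype.card ρ / u₀) ^ 5)))
    (hA : 2 * (20 * (k + 1)) ^ 5 ≤ A)
    (hu : 4 * (A * Real.log (Fintype.card ρ / u₀) ^ 4 + k + 1) ≤ u₀)
    (hu' : 20 * (k + 1) ≤ u₀) (hru : u₀ ≤ Fintype.card ρ)
    (hσ : 1 ≤ 20 * (k + 1) * Real.log (Fintype.card ρ / u₀)) :
    ∃ S : Finset ρ, Sᶜ.card = u₀ ∧
      Real.exp (-(A * Real.log (Fintype.card ρ / u₀) ^ 5)) * (T.card * Ω.card)
        ≤ mass Ω D T S := by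
  set r := Fintype.card ρ with hr
  have hm : (0 : ℝ) < Ω.card := by exact_mod_cast hΩ.card_pos
  have ht : (0 : ℝ) < T.card := by exact_mod_cast hT.card_pos
  set Z : ℝ := T.card * Ω.card with hZ
  have hZ0 : 0 < Z := mul_pos ht hm
  have hu0 : (20 : ℝ) ≤ u₀ := by linarith
  have hruR : (u₀ : ℝ) ≤ r := by exact_mod_cast hru
  have hc40 : c ≤ 1 / 40 := by
    have := mul_le_mul_of_nonneg_right (hu0.trans hruR) hc0.le
    linarith
  have key := chain_numeric (c := c) (e := ξ / c) (r := r) (u₀ := u₀)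
    (fun s => avg s (mass Ω D T) / Z) hk (by
      have h1 := mass_init (D := D) (T := T) hΩ hc0.le (by linarith)
      have h2 := mul_le_mul_of_nonneg_left hdef hm.le
      rw [le_div_iff₀ hZ0, avg]
      refine le_of_mul_le_mul_left ?_ hc0
      have h3 : 0.82 ≤ (1 - c) ^ 2 := by nlinarith
      have h4 := mul_le_mul_of_nonneg_left h3 (mul_pos hc0 hZ0).le
      rw [hZ] at h4 ⊢
      linarith) (by
      intro s hs y hy
      have h1 : (s : ℝ) + u₀ < r := by exact_mod_cast hs
      obtain ⟨u, hud⟩ : ∃ u : ℝ, u = r - s := ⟨_, rfl⟩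
      have hupos : 0 < u := by linarith
      have hs0 : (0 : ℝ) ≤ s := by positivity
      have hrpos : (0 : ℝ) < r := by linarith
      have hσ0 : 0 ≤ Real.log (r / u) := Real.log_nonneg ((one_le_div hupos).2 (by linarith))
      set V : Finset ρ → ℝ := fun S => ∑ x ∈ Ω, ∑ i ∈ T, (if y < (rd D x i).card then
        ((rd D x i).card : ℝ) else 0) * (if Disjoint S (rd D x i) then 1 else 0) with hV
      have hV1 : avg s V ≤ Real.exp (-(Real.log (r / u) * y)) * (2 * k * Z) := by
        refine le_trans ?_ (mul_le_mul_of_nonneg_left hmult (Real.exp_pos _).le)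
        rw [hV, avg_sum, Finset.mul_sum]
        refine Finset.sum_le_sum fun x _ => ?_
        rw [avg_sum, Finset.mul_sum]
        refine Finset.sum_le_sum fun i _ => ?_
        rw [avg_mul]
        split_ifs with g
        · rw [mul_comm]
          refine mul_le_mul_of_nonneg_right ((avg_avoid _ s (by omega)).trans ?_) (by positivity)
          rw [← hr, ← hud, ← Real.exp_log (div_pos hupos hrpos), ← Real.exp_nat_mul, ← inv_div,
            Real.log_inv]
          refine Real.exp_le_exp.2 ?_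
          have := mul_le_mul_of_nonneg_left g.le hσ0
          linarith
        · rw [zero_mul]; positivity
      have h2 : ∀ S : Finset ρ, S.card = s →
          ((1 - c) ^ 2 - 2 * y / u) * mass Ω D T S + (-(1 / u) * V S + -(ξ / c * Z))
          ≤ (∑ j ∈ Sᶜ, mass Ω D T (insert j S)) / ((r : ℝ) - s) := by
        intro S hS
        have a1 := Finset.sum_le_sum fun j (_ : j ∈ Sᶜ) =>
          stage_step (T := T) (S := S) (hU j) hc0.le (by linarith : c ≤ 1 / 2)
        have a2 : (Sᶜ.card : ℝ) = u := by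
          rw [Finset.card_compl, hS, Nat.cast_sub (by omega), hud]
        rw [Finset.sum_add_distrib, Finset.sum_add_distrib, Finset.sum_const, Finset.sum_const,
          nsmul_eq_mul, nsmul_eq_mul, a2, ← Finset.mul_sum, ← Finset.mul_sum] at a1
        have a3 := mul_le_mul_of_nonneg_left
          (sum_loss_le (Ω := Ω) (D := D) (T := T) (S := S) hy) hc0.le
        have a4 := mul_le_mul_of_nonneg_left (htc S) hupos.le
        rw [← hud, le_div_iff₀ hupos]
        refine le_of_mul_le_mul_left ?_ hc0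
        have e : c * ((((1 - c) ^ 2 - 2 * y / u) * mass Ω D T S
            + (-(1 / u) * V S + -(ξ / c * Z))) * u)
            = u * (c * (1 - c) ^ 2 * mass Ω D T S) - c * (2 * y * mass Ω D T S + V S)
              - u * (ξ * T.card * Ω.card) := by
          rw [hZ]; field_simp; ring
        rw [e]
        linarith
      have h3 := avg_mono s (by omega) _ _ h2
      rw [avg_add, avg_add, avg_mul, avg_mul, avg_const s (by omega)] at h3
      rw [← hud, le_div_iff₀ hZ0, avg]
      refine le_trans ?_ h3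
      have h4 := mul_le_mul_of_nonneg_left hV1 (by positivity : 0 ≤ 1 / u)
      have e : (((1 - c) ^ 2 - 2 * y / u) * (avg s (mass Ω D T) / Z)
          - 2 * k * Real.exp (-(Real.log (r / u) * y)) / u - ξ / c) * Z
          = ((1 - c) ^ 2 - 2 * y / u) * avg s (mass Ω D T)
            - 1 / u * (Real.exp (-(Real.log (r / u) * y)) * (2 * k * Z)) - ξ / c * Z := by
        field_simp
      rw [e]
      linarith) hc0.le hc he hA hu hu' (r - u₀) (by omega)
  have e : (r : ℝ) - ((r - u₀ : ℕ) : ℝ) = u₀ := by rw [Nat.cast_sub hru]; ring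
  rw [e] at key
  obtain ⟨S, hS, hS'⟩ := exists_avg_le (s := r - u₀) (by omega) (mass Ω D T)
  refine ⟨S, by rw [Finset.card_compl, hS]; omega, le_trans ?_ hS'⟩
  have := key.2 hσ
  rwa [le_div_iff₀ hZ0] at this

end Pool.Agent.Lib.MP_8a52c3_lc
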