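import Pool.Agent.Lib.MP_8a52c3_lc.NbtKraft

/-! Contexts, marginals, minority mass and total correlation. -/

namespace Pool.Agent.Lib.MP_8a52c3_lc

open Finset

set_option linter.unusedSectionVars false

variable {ι ρ : Type*} [Fintype ι] [DecidableEq ι] [Fintype ρ] [DecidableEq ρ]

theorem sum_le_of_classes {α : Type*} [DecidableEq α] (Ω : Finset α) (c : α → Finset α)
    (hc : ∀ x ∈ Ω, ∀ y, y ∈ c x ↔ y ∈ Ω ∧ c y = c x) (F G : α → ℝ)
    (h : ∀ x ∈ Ω, ∑ y ∈ c x, F y ≤ ∑ y ∈ c x, G y) : ∑ x ∈ Ω, F x ≤ ∑ x ∈ Ω, G x := by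
  rw [← Finset.sum_fiberwise_of_maps_to (s := Ω) (t := Ω.image c) (g := c)
      (fun x hx => Finset.mem_image_of_mem c hx),
    ← Finset.sum_fiberwise_of_maps_to (s := Ω) (t := Ω.image c) (g := c)
      (fun x hx => Finset.mem_image_of_mem c hx) (f := G)]
  refine Finset.sum_le_sum fun Z hZ => ?_
  obtain ⟨x, hx, rfl⟩ := Finset.mem_image.1 hZ
  have : Ω.filter (fun y => c y = c x) = c x := by
    ext y; rw [Finset.mem_filter, hc x hx]
  rw [this]
  exact h x hx

/-- Fraction of the points of `G` with value `a` at `i`. -/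
noncomputable def frac (G : Finset (ι → Bool)) (i : ι) (a : Bool) : ℝ :=
  ((G.filter fun y => y i = a).card : ℝ) / G.card

/-- The minority value. -/
noncomputable def mv (G : Finset (ι → Bool)) (i : ι) : Bool :=
  if frac G i true ≤ frac G i false then true else false

/-- The minority fraction. -/
noncomputable def mu (G : Finset (ι → Bool)) (i : ι) : ℝ := frac G i (mv G i)

theorem frac_nonneg (G : Finset (ι → Bool)) (i : ι) (a : Bool) : 0 ≤ frac G i a := by
  unfold frac; positivity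

theorem mu_nonneg (G : Finset (ι → Bool)) (i : ι) : 0 ≤ mu G i := frac_nonneg _ _ _

theorem mu_le (G : Finset (ι → Bool)) (i : ι) (a : Bool) : mu G i ≤ frac G i a := by
  unfold mu mv
  split_ifs with h
  · cases a
    · exact h
    · exact le_rfl
  · cases a
    · exact le_rfl
    · exact (not_le.1 h).le

theorem frac_add {G : Finset (ι → Bool)} (hG : G.Nonempty) (i : ι) :
    frac G i true + frac G i false = 1 := by
  have hm : (0 : ℝ) < G.card := by exact_mod_cast hG.card_pos
  have h := Finset.card_filter_add_card_filter_not (s := G) (fun y => y i = true)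
  have e : G.filter (fun y => ¬ y i = true) = G.filter (fun y => y i = false) :=
    Finset.filter_congr fun y _ => by simp
  rw [e] at h
  unfold frac
  rw [← add_div, div_eq_one_iff_eq hm.ne']
  exact_mod_cast h

theorem mu_le_half {G : Finset (ι → Bool)} (hG : G.Nonempty) (i : ι) : mu G i ≤ 1 / 2 := by
  have := mu_le G i true; have := mu_le G i false; have := frac_add hG i; linarith

theorem frac_pos {G : Finset (ι → Bool)} {x : ι → Bool} (hx : x ∈ G) (i : ι) :
    0 < frac G i (x i) := by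
  have h1 : 0 < G.card := Finset.card_pos.2 ⟨x, hx⟩
  have h2 : 0 < (G.filter fun y => y i = x i).card :=
    Finset.card_pos.2 ⟨x, Finset.mem_filter.2 ⟨hx, rfl⟩⟩
  unfold frac
  positivity

theorem mu_eq_zero {G : Finset (ι → Bool)} {i : ι} {a : Bool} (h : ∀ y ∈ G, y i = a) :
    mu G i = 0 := by
  refine le_antisymm ((mu_le G i (!a)).trans (le_of_eq ?_)) (mu_nonneg _ _)
  have : G.filter (fun y => y i = !a) = ∅ :=
    Finset.filter_eq_empty_iff.2 fun y hy => by rw [h y hy]; cases a <;> simp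
  simp [frac, this]

theorem sum_minority (G : Finset (ι → Bool)) (i : ι) :
    ∑ y ∈ G, (if y i = mv G i then (1 : ℝ) else 0) = ∑ _y ∈ G, mu G i := by
  rcases G.eq_empty_or_nonempty with rfl | hG
  · simp
  have hm : (0 : ℝ) < G.card := by exact_mod_cast hG.card_pos
  rw [← Finset.sum_filter, Finset.sum_const, Finset.sum_const, nsmul_eq_mul, nsmul_eq_mul, mu, frac]
  field_simp

theorem sum_div_frac (G : Finset (ι → Bool)) (i : ι) (q : ℝ) (hq : 0 ≤ q) :
    ∑ y ∈ G, q / frac G i (y i) ≤ ∑ _y ∈ G, 2 * q := by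
  have key : ∀ a : Bool, ∑ y ∈ G.filter (fun y => y i = a), q / frac G i (y i) ≤ G.card * q := by
    intro a
    rw [Finset.sum_congr rfl (g := fun _ => q / frac G i a)
      (fun y hy => by rw [(Finset.mem_filter.1 hy).2]), Finset.sum_const, nsmul_eq_mul, frac]
    rcases Nat.eq_zero_or_pos (G.filter fun y => y i = a).card with h | h
    · rw [h]; simp only [Nat.cast_zero, zero_mul]; positivity
    · have h' : (0 : ℝ) < (G.filter fun y => y i = a).card := by exact_mod_cast h
      refine le_of_eq ?_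
      field_simp
  rw [← Finset.sum_filter_add_sum_filter_not G (fun y => y i = true)]
  have e : G.filter (fun y => ¬ y i = true) = G.filter (fun y => y i = false) :=
    Finset.filter_congr fun y _ => by simp
  rw [e, Finset.sum_const, nsmul_eq_mul]
  have := key true; have := key false
  linarith

variable (Ω : Finset (ι → Bool)) (D : ρ → (ι → Bool) → Finset ι) (T : Finset ι) (S : Finset ρ)

/-- Points equal to `x` outside `T` and with the same terms for the segments in `S`. -/
def cl (x : ι → Bool) : Finset (ι → Bool) :=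
  Ω.filter fun y => (∀ i, i ∉ T → y i = x i) ∧ ∀ j ∈ S, tm (D j) y = tm (D j) x

/-- Minority mass. -/
noncomputable def mass : ℝ := ∑ x ∈ Ω, ∑ i ∈ T, mu (cl Ω D T S x) i

/-- Total correlation. -/
noncomputable def tc : ℝ :=
  ∑ x ∈ Ω, (-Real.log (cl Ω D T S x).card - ∑ i ∈ T, Real.log (frac (cl Ω D T S x) i (x i)))

/-- The segments reading `i` on input `x`. -/
def rd (x : ι → Bool) (i : ι) : Finset ρ := Finset.univ.filter fun j => i ∈ D j x

variable {Ω D T S}

theorem mem_cl {x y : ι → Bool} : y ∈ cl Ω D T S x ↔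
    y ∈ Ω ∧ (∀ i, i ∉ T → y i = x i) ∧ ∀ j ∈ S, tm (D j) y = tm (D j) x := by
  simp [cl]

theorem self_mem_cl {x : ι → Bool} (hx : x ∈ Ω) : x ∈ cl Ω D T S x :=
  mem_cl.2 ⟨hx, fun _ _ => rfl, fun _ _ => rfl⟩

theorem cl_eq {x y : ι → Bool} (h : y ∈ cl Ω D T S x) : cl Ω D T S y = cl Ω D T S x := by
  obtain ⟨-, h1, h2⟩ := mem_cl.1 h
  ext z
  rw [mem_cl, mem_cl]
  refine and_congr_right fun _ => and_congr ?_ ?_
  · exact forall₂_congr fun i hi => by rw [h1 i hi]
  · exact forall₂_congr fun j hj => by rw [h2 j hj]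

theorem cl_spec : ∀ x ∈ Ω, ∀ y, y ∈ cl Ω D T S x ↔ y ∈ Ω ∧ cl Ω D T S y = cl Ω D T S x :=
  fun _ _ _ => ⟨fun h => ⟨(mem_cl.1 h).1, cl_eq h⟩, fun h => h.2 ▸ self_mem_cl h.1⟩

theorem cl_agree {x y z : ι → Bool} (hy : y ∈ cl Ω D T S x) (hz : z ∈ cl Ω D T S x) (i : ι)
    (hi : i ∉ T) : y i = z i := ((mem_cl.1 hy).2.1 i hi).trans ((mem_cl.1 hz).2.1 i hi).symm

theorem mu_cl_eq_zero {x : ι → Bool} {i : ι} {j : ρ} (hj : j ∈ S) (hi : i ∈ D j x) :
    mu (cl Ω D T S x) i = 0 := by
  refine mu_eq_zero (a := x i) fun y hy => ?_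
  have := tm_eq_iff.1 ((mem_cl.1 hy).2.2 j hj).symm
  exact (this.2 i hi).symm

theorem mass_nonneg : 0 ≤ mass Ω D T S :=
  Finset.sum_nonneg fun _ _ => Finset.sum_nonneg fun _ _ => mu_nonneg _ _

theorem tc_nonneg : 0 ≤ tc Ω D T S := by
  have := sum_le_of_classes Ω (cl Ω D T S) cl_spec (fun _ => 0)
    (fun x => -Real.log (cl Ω D T S x).card - ∑ i ∈ T, Real.log (frac (cl Ω D T S x) i (x i)))
    (by
      intro x hx
      have hG : (cl Ω D T S x).Nonempty := ⟨x, self_mem_cl hx⟩
      have h := stage T _ hG (frac (cl Ω D T S x)) (mu (cl Ω D T S x)) (mu_nonneg _) (mu_le _)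
        (frac_add hG) (fun y hy i _ => frac_pos hy i) 0 le_rfl (by norm_num) (fun _ => T) (by
          intro A hA y hy z hz h1 _ h3
          funext i
          by_cases hi : i ∈ T
          · exact h3 i (Finset.mem_sdiff.2 ⟨hi, fun h => Finset.disjoint_left.1 h1 h hi⟩)
          · exact cl_agree hz hy i hi)
      simp only [zero_mul, zero_div, ite_self, Finset.sum_const_zero, add_zero, sub_zero,
        one_mul] at h
      rw [Finset.sum_const_zero]
      refine h.trans (le_of_eq (Finset.sum_congr rfl fun y hy => ?_))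
      rw [cl_eq hy])
  simpa [tc] using this

theorem sum_minority_le :
    ∑ x ∈ Ω, ∑ i ∈ T, (if x i = mv (cl Ω D T S x) i then (1 : ℝ) else 0) ≤ mass Ω D T S := by
  refine sum_le_of_classes Ω (cl Ω D T S) cl_spec _ _ fun x _ => le_of_eq ?_
  rw [Finset.sum_congr rfl (g := fun y => ∑ i ∈ T, (if y i = mv (cl Ω D T S x) i then (1 : ℝ)
      else 0)) (fun y hy => by rw [cl_eq hy]),
    Finset.sum_congr rfl (s₁ := cl Ω D T S x) (f := fun y => ∑ i ∈ T, mu (cl Ω D T S y) i)
      (g := fun _ => ∑ i ∈ T, mu (cl Ω D T S x) i)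
      (fun y hy => by rw [cl_eq hy]), Finset.sum_comm, Finset.sum_comm (s := cl Ω D T S x)]
  exact Finset.sum_congr rfl fun i _ => sum_minority _ i

theorem sum_ratio_le :
    ∑ x ∈ Ω, ∑ i ∈ T, mu (cl Ω D T S x) i / frac (cl Ω D T S x) i (x i) ≤ 2 * mass Ω D T S := by
  rw [mass, Finset.mul_sum]
  refine sum_le_of_classes Ω (cl Ω D T S) cl_spec _ _ fun x _ => ?_
  rw [Finset.sum_congr rfl (g := fun y => ∑ i ∈ T,
      mu (cl Ω D T S x) i / frac (cl Ω D T S x) i (y i)) (fun y hy => by rw [cl_eq hy]),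
    Finset.sum_congr rfl (s₁ := cl Ω D T S x) (f := fun y => 2 * ∑ i ∈ T, mu (cl Ω D T S y) i)
      (g := fun _ => ∑ i ∈ T, 2 * mu (cl Ω D T S x) i)
      (fun y hy => by rw [cl_eq hy, Finset.mul_sum]), Finset.sum_comm,
    Finset.sum_comm (s := cl Ω D T S x)]
  exact Finset.sum_le_sum fun i _ => sum_div_frac _ i _ (mu_nonneg _ _)

/-- One more segment is revealed. -/
theorem stage_step {j : ρ} (hU : Unamb Ω (D j)) {c : ℝ} (hc0 : 0 ≤ c) (hc1 : c ≤ 1 / 2) :
    c * (1 - c) ^ 2 * mass Ω D T S ≤ tc Ω D T S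
      + c * ∑ x ∈ Ω, ∑ i ∈ T,
        (if i ∈ D j x then mu (cl Ω D T S x) i / frac (cl Ω D T S x) i (x i) else 0)
      + c * mass Ω D T (insert j S) := by
  set W : (ι → Bool) → Finset ι := fun x =>
    D j x ∪ Finset.univ.filter fun i => x i = mv (cl Ω D T (insert j S) x) i with hW
  have h1 := sum_le_of_classes Ω (cl Ω D T S) cl_spec
    (fun x => c * (1 - c) ^ 2 * ∑ i ∈ T, mu (cl Ω D T S x) i)
    (fun x => (1 - c) * (-Real.log (cl Ω D T S x).card
        - ∑ i ∈ T, Real.log (frac (cl Ω D T S x) i (x i)))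
      + ∑ i ∈ T, (if i ∈ W x then c * mu (cl Ω D T S x) i / frac (cl Ω D T S x) i (x i) else 0))
    (by
      intro x hx
      have hG : (cl Ω D T S x).Nonempty := ⟨x, self_mem_cl hx⟩
      have h := stage T _ hG (frac (cl Ω D T S x)) (mu (cl Ω D T S x)) (mu_nonneg _) (mu_le _)
        (frac_add hG) (fun y hy i _ => frac_pos hy i) c hc0 hc1 W (by
          intro A hA y hy z hz h1 h2 h3
          have hag : ∀ i, i ∉ A → z i = y i := by
            intro i hi
            by_cases hT : i ∈ T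
            · exact h3 i (Finset.mem_sdiff.2 ⟨hT, hi⟩)
            · exact cl_agree hz hy i hT
          have a1 : ∀ i ∈ D j y, i ∉ A := fun i hi h =>
            Finset.disjoint_left.1 h1 h (Finset.mem_union_left _ hi)
          have a2 : ∀ i ∈ D j z, i ∉ A := fun i hi h =>
            Finset.disjoint_left.1 h2 h (Finset.mem_union_left _ hi)
          have hD : D j z = D j y := hU z (mem_cl.1 hz).1 y (mem_cl.1 hy).1 fun i hi => by
            rcases Finset.mem_union.1 hi with h | h
            · exact hag i (a2 i h)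
            · exact hag i (a1 i h)
          have hin : z ∈ cl Ω D T (insert j S) y := by
            refine mem_cl.2 ⟨(mem_cl.1 hz).1, fun i hi => cl_agree hz hy i hi, fun j' hj' => ?_⟩
            rcases Finset.mem_insert.1 hj' with rfl | hj'
            · exact tm_eq_iff.2 ⟨hD, fun i hi => hag i (a2 i hi)⟩
            · exact ((mem_cl.1 hz).2.2 j' hj').trans ((mem_cl.1 hy).2.2 j' hj').symm
          funext i
          by_cases hi : i ∈ A
          · have b1 : ¬ y i = mv (cl Ω D T (insert j S) y) i := fun h =>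
              Finset.disjoint_left.1 h1 hi (Finset.mem_union_right _ (by simp [h]))
            have b2 : ¬ z i = mv (cl Ω D T (insert j S) z) i := fun h =>
              Finset.disjoint_left.1 h2 hi (Finset.mem_union_right _ (by simp [h]))
            rw [cl_eq hin] at b2
            rw [Bool.eq_not_of_ne b1, Bool.eq_not_of_ne b2]
          · exact hag i hi)
      rw [Finset.sum_congr rfl (g := fun _ => c * (1 - c) ^ 2 * ∑ i ∈ T, mu (cl Ω D T S x) i)
        (fun y hy => by rw [cl_eq hy]), Finset.sum_const, nsmul_eq_mul, mul_left_comm]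
      refine h.trans (le_of_eq ?_)
      rw [Finset.mul_sum, ← Finset.sum_add_distrib]
      exact Finset.sum_congr rfl fun y hy => by rw [cl_eq hy])
  rw [← Finset.mul_sum, Finset.sum_add_distrib, ← Finset.mul_sum] at h1
  have h2 : ∑ x ∈ Ω, ∑ i ∈ T,
      (if i ∈ W x then c * mu (cl Ω D T S x) i / frac (cl Ω D T S x) i (x i) else 0)
      ≤ c * ∑ x ∈ Ω, ∑ i ∈ T,
        (if i ∈ D j x then mu (cl Ω D T S x) i / frac (cl Ω D T S x) i (x i) else 0)
      + c * ∑ x ∈ Ω, ∑ i ∈ T, (if x i = mv (cl Ω D T (insert j S) x) i then (1 : ℝ) else 0) := by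
    rw [← mul_add, ← Finset.sum_add_distrib, Finset.mul_sum]
    refine Finset.sum_le_sum fun x hx => ?_
    rw [← Finset.sum_add_distrib, Finset.mul_sum]
    refine Finset.sum_le_sum fun i _ => ?_
    have p1 := frac_pos (self_mem_cl (D := D) (T := T) (S := S) hx) i
    have q0 : 0 ≤ mu (cl Ω D T S x) i / frac (cl Ω D T S x) i (x i) :=
      div_nonneg (mu_nonneg _ _) p1.le
    have q1 : mu (cl Ω D T S x) i / frac (cl Ω D T S x) i (x i) ≤ 1 :=
      (div_le_one p1).2 (mu_le _ _ _)
    rw [mul_div_assoc]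
    generalize mu (cl Ω D T S x) i / frac (cl Ω D T S x) i (x i) = q at q0 q1
    simp only [hW, Finset.mem_union, Finset.mem_filter, Finset.mem_univ, true_and]
    by_cases g1 : i ∈ D j x <;> by_cases g2 : x i = mv (cl Ω D T (insert j S) x) i
    · rw [if_pos (Or.inl g1), if_pos g1, if_pos g2]; nlinarith
    · rw [if_pos (Or.inl g1), if_pos g1, if_neg g2]; nlinarith
    · rw [if_pos (Or.inr g2), if_neg g1, if_pos g2]; nlinarith
    · rw [if_neg (by tauto), if_neg g1, if_neg g2]; nlinarith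
  have h3 := mul_le_mul_of_nonneg_left (sum_minority_le (Ω := Ω) (D := D) (T := T)
    (S := insert j S)) hc0
  have h4 : 0 ≤ c * tc Ω D T S := mul_nonneg hc0 tc_nonneg
  unfold tc at h4 ⊢
  unfold mass at h3 ⊢
  linarith

end Pool.Agent.Lib.MP_8a52c3_lc
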