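import Pool.Agent.Lib.MP_8a52c3_lc.NbtLocal

/-! The rectangle argument once most of the segments have been revealed. -/

namespace Pool.Agent.Lib.MP_8a52c3_lc

open Finset

set_option linter.unusedSectionVars false

variable {ι ρ : Type*} [Fintype ι] [DecidableEq ι] [Fintype ρ] [DecidableEq ρ]

/-- Weight of `A` for independent sampling inside `T`. -/
def bern (T : Finset ι) (θ : ι → ℝ) (A : Finset ι) : ℝ :=
  (∏ i ∈ A, θ i) * ∏ i ∈ T \ A, (1 - θ i)

theorem bern_nonneg {T A : Finset ι} {θ : ι → ℝ} (h0 : ∀ i, 0 ≤ θ i) (h1 : ∀ i, θ i ≤ 1) :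
    0 ≤ bern T θ A :=
  mul_nonneg (Finset.prod_nonneg fun i _ => h0 i)
    (Finset.prod_nonneg fun i _ => by linarith [h1 i])

theorem bern_le_one {T A : Finset ι} {θ : ι → ℝ} (h0 : ∀ i, 0 ≤ θ i) (h1 : ∀ i, θ i ≤ 1) :
    bern T θ A ≤ 1 :=
  mul_le_one₀ (Finset.prod_le_one (fun i _ => h0 i) fun i _ => h1 i)
    (Finset.prod_nonneg fun i _ => by linarith [h1 i])
    (Finset.prod_le_one (fun i _ => by linarith [h1 i]) fun i _ => by linarith [h0 i])

theorem avoid_ge (B₀ W : Finset ι) {β : ℝ} (h0 : 0 ≤ β) (h1 : β ≤ 1 / 2) {d : ℝ}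
    (hd : W.card ≤ d) : Real.exp (-(2 * β * d))
      ≤ ∑ B ∈ B₀.powerset, (if Disjoint B W then bern B₀ (fun _ => β) B else 0) := by
  unfold bern
  rw [sum_avoid B₀ W (fun _ => β) (fun _ => 1 - β)]
  have e : ∀ i, (if i ∈ W then 1 - β else β + (1 - β)) = if i ∈ W then 1 - β else 1 := by
    intro i; split_ifs <;> ring
  simp only [e]
  rw [Finset.prod_ite_mem, Finset.prod_const]
  have h2 : Real.exp (-(2 * β)) ≤ 1 - β := by
    have a1 := Real.add_one_le_exp (2 * β)
    rw [Real.exp_neg, inv_le_comm₀ (Real.exp_pos _) (by linarith), inv_le_iff_one_le_mul₀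
      (by linarith)]
    have a2 := mul_le_mul_of_nonneg_right a1 (by linarith : 0 ≤ 1 - β)
    have a3 := mul_nonneg h0 (by linarith : 0 ≤ 1 / 2 - β)
    linarith
  refine le_trans ?_ (pow_le_pow_left₀ (Real.exp_pos _).le h2 _)
  rw [← Real.exp_nat_mul]
  refine Real.exp_le_exp.2 ?_
  have h3 : ((B₀ ∩ W).card : ℝ) ≤ W.card := by
    exact_mod_cast Finset.card_le_card Finset.inter_subset_right
  have := mul_le_mul_of_nonneg_left (h3.trans hd) h0
  linarith

theorem split_prob (T B₀ W : Finset ι) {θ : ι → ℝ} (h0 : ∀ i, 0 ≤ θ i) (h1 : ∀ i, θ i ≤ 1)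
    {β q a : ℝ} (b0 : 0 ≤ β) (b1 : β ≤ 1) (hq : 0 < q) (ha : 0 < a)
    (hN : q ≤ ∑ B ∈ B₀.powerset, (if Disjoint B W then bern B₀ (fun _ => β) B else 0))
    (E1 E2 : Finset ι → Finset ι → Prop) [∀ A B, Decidable (E1 A B)] [∀ A B, Decidable (E2 A B)]
    (hE : ∀ A ⊆ T, ∀ B ⊆ B₀, E1 A B ∨ E2 A B) :
    ∃ π : ℝ, 0 ≤ π ∧ π ≤ 1 ∧ π * q ≤ ∑ B ∈ B₀.powerset, bern B₀ (fun _ => β) B *
          ∑ A ∈ T.powerset, (if Disjoint B W ∧ E1 A B then bern T θ A else 0) ∧
      1 ≤ π + (∑ A ∈ T.powerset, ∑ B ∈ B₀.powerset, bern B₀ (fun _ => β) B *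
          (if (A.card : ℝ) ≤ a ∧ E2 A B then bern T θ A else 0)) / q + (∑ i ∈ T, θ i) / a := by
  set N := ∑ B ∈ B₀.powerset, (if Disjoint B W then bern B₀ (fun _ => β) B else 0) with hNd
  set p1 := ∑ B ∈ B₀.powerset, bern B₀ (fun _ => β) B *
    ∑ A ∈ T.powerset, (if Disjoint B W ∧ E1 A B then bern T θ A else 0) with hp1
  set p2 := ∑ A ∈ T.powerset, ∑ B ∈ B₀.powerset, bern B₀ (fun _ => β) B *
    (if (A.card : ℝ) ≤ a ∧ E2 A B then bern T θ A else 0) with hp2
  have hNpos : 0 < N := lt_of_lt_of_le hq hN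
  have hB : ∀ B, 0 ≤ bern B₀ (fun _ => β) B := fun B => bern_nonneg (fun _ => b0) fun _ => b1
  have hA : ∀ A, 0 ≤ bern T θ A := fun A => bern_nonneg h0 h1
  have hs : ∑ A ∈ T.powerset, bern T θ A = 1 := sum_bernoulli T θ
  have hs' : ∑ A ∈ T.powerset, bern T θ A * A.card = ∑ i ∈ T, θ i := sum_bernoulli_card T θ
  have a1 : 0 ≤ p1 := Finset.sum_nonneg fun B _ => mul_nonneg (hB B)
    (Finset.sum_nonneg fun A _ => by split_ifs; exacts [hA A, le_rfl])
  have a2 : 0 ≤ p2 := Finset.sum_nonneg fun A _ => Finset.sum_nonneg fun B _ => mul_nonneg (hB B)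
    (by split_ifs; exacts [hA A, le_rfl])
  have a3 : p1 ≤ N := by
    refine Finset.sum_le_sum fun B _ => ?_
    split_ifs with h
    · refine mul_le_of_le_one_right (hB B) (le_trans (Finset.sum_le_sum fun A _ => ?_) hs.le)
      split_ifs; exacts [le_rfl, hA A]
    · simp [h]
  have a4 : N ≤ p1 + p2 + N * ((∑ i ∈ T, θ i) / a) := by
    have e1 : N = ∑ B ∈ B₀.powerset, ∑ A ∈ T.powerset,
        (if Disjoint B W then bern B₀ (fun _ => β) B else 0) * bern T θ A := by
      simp only [← Finset.mul_sum, hs, mul_one, hNd]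
    have e2 : N * ((∑ i ∈ T, θ i) / a) = ∑ B ∈ B₀.powerset, ∑ A ∈ T.powerset,
        (if Disjoint B W then bern B₀ (fun _ => β) B else 0) * (bern T θ A * A.card / a) := by
      simp only [← Finset.mul_sum, ← Finset.sum_div, hs', ← Finset.sum_mul, hNd]
    rw [e2, hp2, Finset.sum_comm, hp1, ← Finset.sum_add_distrib, ← Finset.sum_add_distrib]
    refine e1.le.trans (Finset.sum_le_sum fun B hB' => ?_)
    rw [Finset.mul_sum, ← Finset.sum_add_distrib, ← Finset.sum_add_distrib]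
    refine Finset.sum_le_sum fun A hA' => ?_
    have c0 := mul_nonneg (hB B) (hA A)
    have c1 : 0 ≤ bern B₀ (fun _ => β) B * (bern T θ A * A.card / a) :=
      mul_nonneg (hB B) (div_nonneg (mul_nonneg (hA A) (by positivity)) ha.le)
    have c2 : 0 ≤ bern B₀ (fun _ => β) B * (if Disjoint B W ∧ E1 A B then bern T θ A else 0) :=
      mul_nonneg (hB B) (by split_ifs; exacts [hA A, le_rfl])
    have c3 : 0 ≤ bern B₀ (fun _ => β) B *
        (if (A.card : ℝ) ≤ a ∧ E2 A B then bern T θ A else 0) :=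
      mul_nonneg (hB B) (by split_ifs; exacts [hA A, le_rfl])
    by_cases g : Disjoint B W
    · rw [if_pos g]
      by_cases g2 : (A.card : ℝ) ≤ a
      · rcases hE A (Finset.mem_powerset.1 hA') B (Finset.mem_powerset.1 hB') with g3 | g3
        · rw [if_pos ⟨g, g3⟩]; linarith
        · rw [if_pos (⟨g2, g3⟩ : _ ∧ _)]; linarith
      · have : bern T θ A ≤ bern T θ A * A.card / a := by
          rw [le_div_iff₀ ha]
          exact mul_le_mul_of_nonneg_left (not_le.1 g2).le (hA A)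
        have := mul_le_mul_of_nonneg_left this (hB B)
        linarith
    · rw [if_neg g, zero_mul, zero_mul]; linarith
  refine ⟨p1 / N, div_nonneg a1 hNpos.le, (div_le_one hNpos).2 a3, ?_, ?_⟩
  · rw [div_mul_eq_mul_div, div_le_iff₀ hNpos]
    exact mul_le_mul_of_nonneg_left hN a1
  · have c1 : p2 / N ≤ p2 / q := div_le_div_of_nonneg_left a2 hq hN
    have c2 : 1 ≤ (p1 + p2 + N * ((∑ i ∈ T, θ i) / a)) / N := (one_le_div hNpos).2 a4
    rw [add_div, add_div, mul_div_cancel_left₀ _ hNpos.ne'] at c2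
    linarith

/-- An event that is very unlikely for the product of the marginals is unlikely, if the total
correlation is small. -/
theorem event_le (T : Finset ι) {G : Finset (ι → Bool)} (hG : G.Nonempty)
    (hdet : ∀ x ∈ G, ∀ y ∈ G, (∀ i ∈ T, y i = x i) → y = x) (π : (ι → Bool) → ℝ)
    (h0 : ∀ x, 0 ≤ π x) (h1 : ∀ x, π x ≤ 1) {v : ℝ}
    (h : ∑ x ∈ G, (∏ i ∈ T, frac G i (x i)) * π x ≤ Real.exp (-v)) :
    ∑ x ∈ G, v * π x
      ≤ ∑ x ∈ G, (-Real.log G.card - ∑ i ∈ T, Real.log (frac G i (x i)) + Real.log 2) := by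
  have hν : ∑ x ∈ G, ∏ i ∈ T, frac G i (x i) ≤ 1 := by
    have := sum_prod_le_of_fibres (frac G) (frac_nonneg G) T G 1 zero_le_one (by
      intro x hx
      have : (G.filter fun y => ∀ i ∈ T, y i = x i).card ≤ 1 := by
        rw [Finset.card_le_one]
        intro a ha b hb
        obtain ⟨a1, a2⟩ := Finset.mem_filter.1 ha
        obtain ⟨b1, b2⟩ := Finset.mem_filter.1 hb
        rw [hdet x hx a a1 a2, hdet x hx b b1 b2]
      exact_mod_cast this)
    simpa [frac_add hG] using this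
  have hev := Real.exp_pos v
  have hp : ∀ x ∈ G, 0 < ∏ i ∈ T, frac G i (x i) :=
    fun x hx => Finset.prod_pos fun i _ => frac_pos hx i
  have hf : ∀ x, 0 < 1 + π x * Real.exp v := fun x => by have := h0 x; positivity
  have hl := sum_log_le G hG (fun x => (∏ i ∈ T, frac G i (x i)) * (1 + π x * Real.exp v))
    (fun x hx => mul_pos (hp x hx) (hf x)) 2 (by
      have e : ∑ x ∈ G, (∏ i ∈ T, frac G i (x i)) * (1 + π x * Real.exp v)
          = ∑ x ∈ G, ∏ i ∈ T, frac G i (x i)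
            + (∑ x ∈ G, (∏ i ∈ T, frac G i (x i)) * π x) * Real.exp v := by
        rw [Finset.sum_mul, ← Finset.sum_add_distrib]
        exact Finset.sum_congr rfl fun x _ => by ring
      have h2 := mul_le_mul_of_nonneg_right h hev.le
      rw [← Real.exp_add, neg_add_cancel, Real.exp_zero] at h2
      rw [e]; linarith)
  have h3 : ∑ x ∈ G, (∑ i ∈ T, Real.log (frac G i (x i)) + v * π x)
      ≤ ∑ x ∈ G, Real.log ((∏ i ∈ T, frac G i (x i)) * (1 + π x * Real.exp v)) := by
    refine Finset.sum_le_sum fun x hx => ?_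
    rw [Real.log_mul (hp x hx).ne' (hf x).ne', Real.log_prod (fun i _ => (frac_pos hx i).ne')]
    refine add_le_add le_rfl ?_
    rw [Real.le_log_iff_exp_le (hf x), Real.exp_mul]
    refine le_trans ?_ (rpow_one_add_le_one_add_mul_self (by linarith) (h0 x) (h1 x))
    exact Real.rpow_le_rpow hev.le (by linarith) (h0 x)
  have h4 := h3.trans hl
  simp only [Finset.sum_add_distrib, Finset.sum_sub_distrib, Finset.sum_const, nsmul_eq_mul]
    at h4 ⊢
  linarith

/-- Every consistent tuple of terms implies `f`. -/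
def Snd (f : (ι → Bool) → Prop) (Ω : Finset (ι → Bool)) (D : ρ → (ι → Bool) → Finset ι) : Prop :=
  ∀ xs : ρ → ι → Bool, (∀ j, xs j ∈ Ω) → ∀ z : ι → Bool,
    (∀ j, ∀ i ∈ D j (xs j), z i = xs j i) → f z

/-- One side of the rectangle. -/
def sideSet (Ω : Finset (ι → Bool)) (D : ρ → (ι → Bool) → Finset ι) (S : Finset ρ)
    (x : ι → Bool) (A B : Finset ι) : Finset (ι → Bool) :=
  Ω.filter fun u => (∀ i, i ∉ A → u i = x i) ∧ Disjoint B (S.biUnion fun j => D j u)

variable {Ω : Finset (ι → Bool)} {D : ρ → (ι → Bool) → Finset ι} {T : Finset ι} {S : Finset ρ}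

theorem side_small {f : (ι → Bool) → Prop} {L : ℕ} (hS : Snd f Ω D) (hr : RectFree f L)
    (x : ι → Bool) {A B : Finset ι} (hAB : Disjoint A B) :
    (sideSet Ω D Sᶜ x A B).card ≤ L ∨ (sideSet Ω D S x B A).card ≤ L := by
  refine hr A x _ _ (fun u hu => (Finset.mem_filter.1 hu).2.1)
    (fun v hv i hi => (Finset.mem_filter.1 hv).2.1 i (Finset.disjoint_left.1 hAB hi)) ?_
  intro u hu v hv
  obtain ⟨u1, u2, u3⟩ := Finset.mem_filter.1 hu
  obtain ⟨v1, v2, v3⟩ := Finset.mem_filter.1 hv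
  refine hS (fun j => if j ∈ S then v else u) (fun j => by split_ifs; exacts [v1, u1]) _ ?_
  intro j i hi
  by_cases hj : j ∈ S
  · simp only [hj, if_true] at hi ⊢
    rw [if_neg (Finset.disjoint_right.1 v3 (Finset.mem_biUnion.2 ⟨j, hj, hi⟩))]
  · simp only [hj, if_false] at hi ⊢
    split_ifs with hA
    · rfl
    · rw [u2 i hA, v2 i (Finset.disjoint_right.1 u3
        (Finset.mem_biUnion.2 ⟨j, Finset.mem_compl.2 hj, hi⟩))]

theorem second_sum {L : ℕ} {β a γ : ℝ} (b0 : 0 ≤ β) (b1 : β ≤ 1) (g0 : 0 < γ) (g1 : γ ≤ 1)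
    (w : (ι → Bool) → Finset ι → ℝ) (hw1 : ∀ x A, w x A ≤ 1)
    (hw0 : ∀ x A, ¬ Disjoint A (S.biUnion fun j => D j x) → w x A = 0) :
    ∑ x ∈ Ω, ∑ A ∈ T.powerset, ∑ B ∈ Tᶜ.powerset, bern Tᶜ (fun _ => β) B *
        (if (A.card : ℝ) ≤ a ∧ (sideSet Ω D S x B A).card ≤ L then w x A else 0)
      ≤ Real.exp (T.card * γ - a * Real.log γ)
        * (L * 2 ^ Fintype.card ι * Real.exp (-(β / 2 * Tᶜ.card))) := by
  have hB : ∀ B, 0 ≤ bern Tᶜ (fun _ => β) B := fun B => bern_nonneg (fun _ => b0) fun _ => b1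
  rw [Finset.sum_comm]
  have key : ∀ A ∈ T.powerset, ∑ x ∈ Ω, ∑ B ∈ Tᶜ.powerset, bern Tᶜ (fun _ => β) B *
        (if (A.card : ℝ) ≤ a ∧ (sideSet Ω D S x B A).card ≤ L then w x A else 0)
      ≤ if (A.card : ℝ) ≤ a then L * 2 ^ Fintype.card ι * Real.exp (-(β / 2 * Tᶜ.card))
        else 0 := by
    intro A _
    split_ifs with hA
    swap
    · simp [hA]
    rw [Finset.sum_comm]
    have h1 : ∀ B ∈ Tᶜ.powerset, ∑ x ∈ Ω, bern Tᶜ (fun _ => β) B *
        (if (A.card : ℝ) ≤ a ∧ (sideSet Ω D S x B A).card ≤ L then w x A else 0)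
        ≤ L * 2 ^ Fintype.card ι * ((∏ _i ∈ B, β / 2) * ∏ _i ∈ Tᶜ \ B, (1 - β)) := by
      intro B _
      rw [← Finset.mul_sum]
      set X := Ω.filter fun x => Disjoint A (S.biUnion fun j => D j x) ∧
        (sideSet Ω D S x B A).card ≤ L with hX
      have h2 : ∑ x ∈ Ω, (if (A.card : ℝ) ≤ a ∧ (sideSet Ω D S x B A).card ≤ L then w x A else 0)
          ≤ X.card := by
        rw [hX, Finset.card_filter]
        push_cast
        refine Finset.sum_le_sum fun x _ => ?_
        by_cases c1 : (sideSet Ω D S x B A).card ≤ L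
        · by_cases c2 : Disjoint A (S.biUnion fun j => D j x)
          · rw [if_pos ⟨hA, c1⟩, if_pos ⟨c2, c1⟩]; exact hw1 x A
          · rw [hw0 x A c2, if_neg (fun h : _ ∧ _ => c2 h.1)]; simp
        · rw [if_neg (fun h : _ ∧ _ => c1 h.2), if_neg (fun h : _ ∧ _ => c1 h.2)]
      have h3 := card_le_of_fibres X B L (by positivity) (by
        intro x hx
        have : (X.filter fun y => ∀ i ∈ Bᶜ, y i = x i).card ≤ L := by
          refine le_trans (Finset.card_le_card fun y hy => ?_) (Finset.mem_filter.1 hx).2.2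
          obtain ⟨y1, y2⟩ := Finset.mem_filter.1 hy
          obtain ⟨y3, y4, -⟩ := Finset.mem_filter.1 y1
          exact Finset.mem_filter.2 ⟨y3, fun i hi => y2 i (Finset.mem_compl.2 hi), y4⟩
        exact_mod_cast this)
      refine (mul_le_mul_of_nonneg_left (h2.trans h3) (hB B)).trans (le_of_eq ?_)
      simp only [bern, Finset.prod_const, div_pow, one_pow]
      ring
    refine (Finset.sum_le_sum h1).trans ?_
    rw [← Finset.mul_sum, ← Finset.prod_add, Finset.prod_const]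
    refine mul_le_mul_of_nonneg_left ?_ (by positivity)
    rw [mul_comm, ← mul_neg, Real.exp_nat_mul]
    exact pow_le_pow_left₀ (by linarith) (by linarith [Real.add_one_le_exp (-(β / 2))]) _
  refine (Finset.sum_le_sum key).trans ?_
  rw [← Finset.sum_filter, Finset.sum_const, nsmul_eq_mul]
  exact mul_le_mul_of_nonneg_right (log_card_small_subsets T a γ g0 g1) (by positivity)

theorem first_sum {L : ℕ} {β : ℝ} (b0 : 0 ≤ β) (b1 : β ≤ 1) {x₀ : ι → Bool} (hx₀ : x₀ ∈ Ω)
    (κ : ι → ℝ) (k0 : ∀ i, 0 ≤ κ i) (k1 : ∀ i, κ i ≤ mu (cl Ω D T S x₀) i) :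
    Real.exp ((∑ i ∈ T, κ i) / 2) * ∑ x ∈ cl Ω D T S x₀,
        (∏ i ∈ T, frac (cl Ω D T S x₀) i (x i)) * ∑ B ∈ Tᶜ.powerset, bern Tᶜ (fun _ => β) B *
          ∑ A ∈ T.powerset, (if Disjoint B (Sᶜ.biUnion fun j => D j x) ∧
            (sideSet Ω D Sᶜ x A B).card ≤ L then
              bern T (fun i => κ i / (frac (cl Ω D T S x₀) i (x i) * (1 + κ i))) A else 0)
      ≤ L := by
  set G := cl Ω D T S x₀ with hGd
  have hG : G.Nonempty := ⟨x₀, self_mem_cl hx₀⟩
  have hB : ∀ B, 0 ≤ bern Tᶜ (fun _ => β) B := fun B => bern_nonneg (fun _ => b0) fun _ => b1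
  set α : ι → Bool → ℝ := fun i a => frac G i a * (1 + κ i) - κ i with hα
  have hα0 : ∀ i a, 0 ≤ α i a := fun i a => by
    have h1 := (k1 i).trans (mu_le G i a)
    have h2 := mul_nonneg (frac_nonneg G i a) (k0 i)
    simp only [hα]; linarith
  have hk : ∀ B ∈ Tᶜ.powerset, bern Tᶜ (fun _ => β) B * ∑ x ∈ G, ∑ A ∈ T.powerset,
      (if Disjoint B (Sᶜ.biUnion fun j => D j x) ∧ (sideSet Ω D Sᶜ x A B).card ≤ L then
        (∏ i ∈ A, κ i) * ∏ i ∈ T \ A, α i (x i) else 0) ≤ bern Tᶜ (fun _ => β) B * L := by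
    intro B _
    refine mul_le_mul_of_nonneg_left (cell_kraft T κ α k0 hα0 (fun i _ => ?_) G
      (fun x A => Disjoint B (Sᶜ.biUnion fun j => D j x) ∧ (sideSet Ω D Sᶜ x A B).card ≤ L)
      L (by positivity) ?_) (hB B)
    · have h1 : frac G i false = 1 - frac G i true := by have := frac_add hG i; linarith
      simp only [hα]; rw [h1]; exact le_of_eq (by ring)
    · intro A _ x hx hE
      have : (G.filter fun y => (Disjoint B (Sᶜ.biUnion fun j => D j y) ∧
          (sideSet Ω D Sᶜ y A B).card ≤ L) ∧ ∀ i ∈ T \ A, y i = x i).card ≤ L := by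
        refine le_trans (Finset.card_le_card fun y hy => ?_) hE.2
        obtain ⟨y1, ⟨y2, -⟩, y3⟩ := Finset.mem_filter.1 hy
        refine Finset.mem_filter.2 ⟨(mem_cl.1 y1).1, fun i hi => ?_, y2⟩
        by_cases hT : i ∈ T
        · exact y3 i (Finset.mem_sdiff.2 ⟨hT, hi⟩)
        · exact cl_agree y1 hx i hT
      exact_mod_cast this
  have h1 := Finset.sum_le_sum hk
  rw [← Finset.sum_mul, show ∑ B ∈ Tᶜ.powerset, bern Tᶜ (fun _ => β) B = 1 from
    sum_bernoulli _ _, one_mul] at h1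
  refine le_trans ?_ h1
  simp only [Finset.mul_sum]
  rw [Finset.sum_comm]
  refine Finset.sum_le_sum fun B _ => Finset.sum_le_sum fun x hx => Finset.sum_le_sum
    fun A hA => ?_
  rw [mul_left_comm, mul_left_comm _ (bern Tᶜ (fun _ => β) B), mul_left_comm]
  refine mul_le_mul_of_nonneg_left ?_ (hB B)
  split_ifs
  swap
  · simp
  have hAT := Finset.mem_powerset.1 hA
  have hpos : ∀ i, 0 < frac G i (x i) * (1 + κ i) := fun i =>
    mul_pos (frac_pos hx i) (by linarith [k0 i])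
  have e1 : (∏ i ∈ A, κ i) * ∏ i ∈ T \ A, α i (x i)
      = (∏ i ∈ T, frac G i (x i) * (1 + κ i))
        * bern T (fun i => κ i / (frac G i (x i) * (1 + κ i))) A := by
    rw [bern, ← Finset.prod_sdiff hAT, mul_comm (∏ i ∈ T \ A, _), mul_mul_mul_comm,
      ← Finset.prod_mul_distrib, ← Finset.prod_mul_distrib]
    congr 1
    · exact Finset.prod_congr rfl fun i _ => by rw [mul_div_cancel₀ _ (hpos i).ne']
    · exact Finset.prod_congr rfl fun i _ => by
        rw [mul_sub, mul_one, mul_div_cancel₀ _ (hpos i).ne']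
  have e2 : Real.exp ((∑ i ∈ T, κ i) / 2) ≤ ∏ i ∈ T, (1 + κ i) := by
    rw [Finset.sum_div, Real.exp_sum]
    refine Finset.prod_le_prod (fun i _ => (Real.exp_pos _).le) fun i _ => ?_
    have h2 : κ i ≤ 1 / 2 := (k1 i).trans (mu_le_half hG i)
    have h3 := k0 i
    have h4 := Real.add_one_le_exp (-(κ i / 2))
    have h5 : Real.exp (κ i / 2) * Real.exp (-(κ i / 2)) = 1 := by
      rw [← Real.exp_add]; simp
    have h6 := Real.exp_pos (κ i / 2)
    nlinarith
  rw [e1, Finset.prod_mul_distrib, ← mul_assoc]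
  refine mul_le_mul_of_nonneg_right (mul_le_mul_of_nonneg_left e2
    (Finset.prod_nonneg fun i _ => frac_nonneg _ _ _)) (bern_nonneg (fun i => ?_) fun i => ?_)
  · exact div_nonneg (k0 i) (hpos i).le
  · rw [div_le_one (hpos i)]
    have := hα0 i (x i)
    simp only [hα] at this
    linarith

theorem final_step {f : (ι → Bool) → Prop} {L : ℕ} (hΩ : Ω.Nonempty) (hS : Snd f Ω D)
    (hr : RectFree f L) (hL1 : 1 ≤ L) {γ Lg d : ℝ} (hγ : γ = Real.exp (-Lg)) (hLg : 1 ≤ Lg)
    (hd : ∀ x ∈ Ω, ((Sᶜ.biUnion fun j => D j x).card : ℝ) ≤ d)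
    (hdn : 2048 * Lg * d ≤ Fintype.card ι) (ht : 64 * T.card ≤ Fintype.card ι)
    (ht' : 128 ≤ γ ^ 2 * T.card) (hL : Real.log L ≤ γ * T.card / 32)
    (htc : tc Ω D T S ≤ γ ^ 2 / 128 * T.card * Ω.card)
    (hm : γ * (T.card * Ω.card) ≤ mass Ω D T S) :
    Real.log Ω.card ≤ Fintype.card ι * Real.log 2 - γ * T.card := by
  classical
  have hmpos : (0 : ℝ) < Ω.card := by exact_mod_cast hΩ.card_pos
  have g0 : 0 < γ := hγ ▸ Real.exp_pos _
  have gl : γ * Lg ≤ 1 := by
    have h1 := Real.add_one_le_exp Lg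
    have h2 : γ * Real.exp Lg = 1 := by rw [hγ, ← Real.exp_add]; simp
    have := mul_le_mul_of_nonneg_left h1 g0.le
    linarith
  have g1 : γ ≤ 1 := by have := mul_le_mul_of_nonneg_left hLg g0.le; linarith
  have hlog : Real.log γ = -Lg := by rw [hγ, Real.log_exp]
  obtain ⟨t, htd⟩ : ∃ t : ℝ, t = T.card := ⟨_, rfl⟩
  obtain ⟨n, hnd⟩ : ∃ n : ℝ, n = Fintype.card ι := ⟨_, rfl⟩
  have htn : 64 * t ≤ n := by rw [htd, hnd]; exact_mod_cast ht
  rw [← htd] at ht' hL htc hm ⊢
  rw [← hnd] at hdn ⊢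
  have htpos : 0 < t := by
    by_contra h
    have := mul_nonpos_of_nonneg_of_nonpos (sq_nonneg γ) (not_lt.1 h)
    linarith
  have hnpos : 0 < n := by linarith
  obtain ⟨g, hg⟩ : ∃ g : ℝ, g = γ * t := ⟨_, rfl⟩
  have hgpos : 0 < g := hg ▸ mul_pos g0 htpos
  have hγg : 128 ≤ γ * g := by rw [hg]; linarith
  have hg128 : 128 ≤ g := by have := mul_le_mul_of_nonneg_right g1 hgpos.le; linarith
  obtain ⟨β, hβ⟩ : ∃ β : ℝ, β = 32 * g * Lg / n := ⟨_, rfl⟩
  have hβn : β * n = 32 * g * Lg := by rw [hβ]; field_simp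
  have b0 : 0 ≤ β := by rw [hβ]; positivity
  have b1 : β ≤ 1 / 2 := by
    rw [hβ, div_le_iff₀ hnpos, hg]
    have := mul_le_mul_of_nonneg_left gl htpos.le
    linarith
  have hβd : 2 * β * d ≤ g / 32 := by
    refine le_of_mul_le_mul_right ?_ hnpos
    have := mul_le_mul_of_nonneg_left hdn hgpos.le
    calc 2 * β * d * n = 2 * d * (β * n) := by ring
      _ ≤ _ := by rw [hβn]; linarith
  set q := Real.exp (-(g / 32)) with hq
  have hqpos : 0 < q := Real.exp_pos _
  set mz : (ι → Bool) → ℝ := fun x => ∑ i ∈ T, mu (cl Ω D T S x) i with hmz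
  set κ : (ι → Bool) → ι → ℝ := fun x i =>
    if g / 2 ≤ mz x then g / 4 / mz x * mu (cl Ω D T S x) i else 0 with hκ
  have k0 : ∀ x i, 0 ≤ κ x i := fun x i => by
    simp only [hκ]
    split_ifs with h
    · exact mul_nonneg (div_nonneg (by linarith) (by linarith)) (mu_nonneg _ _)
    · exact le_rfl
  have k1 : ∀ x i, κ x i ≤ mu (cl Ω D T S x) i := fun x i => by
    simp only [hκ]
    split_ifs with h
    · exact mul_le_of_le_one_left (mu_nonneg _ _) ((div_le_one (by linarith)).2 (by linarith))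
    · exact mu_nonneg _ _
  have k2 : ∀ x, ∑ i ∈ T, κ x i = if g / 2 ≤ mz x then g / 4 else 0 := fun x => by
    simp only [hκ]
    split_ifs with h
    · rw [← Finset.mul_sum]
      exact div_mul_cancel₀ _ (by linarith : 0 < mz x).ne'
    · simp
  have kc : ∀ x y, y ∈ cl Ω D T S x → mz y = mz x ∧ κ y = κ x := fun x y h => by
    simp only [hκ, hmz, cl_eq h, and_self]
  set θ : (ι → Bool) → ι → ℝ := fun x i =>
    κ x i / (frac (cl Ω D T S x) i (x i) * (1 + κ x i)) with hθ
  have t0 : ∀ x i, 0 ≤ θ x i := fun x i =>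
    div_nonneg (k0 x i) (mul_nonneg (frac_nonneg _ _ _) (by linarith [k0 x i]))
  have t2 : ∀ x i, θ x i ≤ κ x i / frac (cl Ω D T S x) i (x i) := fun x i => by
    simp only [hθ]
    rw [mul_comm, ← div_div]
    refine div_le_div_of_nonneg_right ?_ (frac_nonneg _ _ _)
    exact div_le_self (k0 x i) (by linarith [k0 x i])
  have t1 : ∀ x i, θ x i ≤ 1 := fun x i => (t2 x i).trans
    (div_le_one_of_le₀ ((k1 x i).trans (mu_le _ _ _)) (frac_nonneg _ _ _))
  have hsp := fun x (hx : x ∈ Ω) => split_prob T Tᶜ (Sᶜ.biUnion fun j => D j x) (t0 x) (t1 x)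
    (a := 2 * g) b0 (by linarith) hqpos (by linarith)
    (le_trans (Real.exp_le_exp.2 (by linarith)) (avoid_ge Tᶜ _ b0 b1 (hd x hx)))
    (fun A B => (sideSet Ω D Sᶜ x A B).card ≤ L) (fun A B => (sideSet Ω D S x B A).card ≤ L)
    (fun A hA B hB => side_small hS hr x (Finset.disjoint_of_subset_left hA
      (Finset.disjoint_of_subset_right hB disjoint_compl_right)))
  choose! π p0 p1 p2 p3 using hsp
  set π' : (ι → Bool) → ℝ := fun x => if x ∈ Ω ∧ g / 2 ≤ mz x then π x else 0 with hπ'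
  have hL0 : (0 : ℝ) < L := by exact_mod_cast hL1
  have hLe : (L : ℝ) ≤ Real.exp (g / 32) := by
    rw [← Real.exp_log hL0]; exact Real.exp_le_exp.2 (by rw [hg]; exact hL)
  -- the first event
  have s1 : ∑ x ∈ Ω, g / 16 * π' x ≤ tc Ω D T S + Ω.card * Real.log 2 := by
    have := sum_le_of_classes Ω (cl Ω D T S) cl_spec (fun x => g / 16 * π' x)
      (fun x => -Real.log (cl Ω D T S x).card
        - ∑ i ∈ T, Real.log (frac (cl Ω D T S x) i (x i)) + Real.log 2) (by
      intro x hx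
      refine (event_le T ⟨x, self_mem_cl hx⟩ (fun a ha b hb h => funext fun i => ?_) π'
        (fun y => ?_) (fun y => ?_) ?_).trans
        (le_of_eq (Finset.sum_congr rfl fun y hy => by rw [cl_eq hy]))
      · by_cases hi : i ∈ T
        · exact h i hi
        · exact cl_agree hb ha i hi
      · simp only [hπ']; split_ifs with h; exacts [p0 y h.1, le_rfl]
      · simp only [hπ']; split_ifs with h; exacts [p1 y h.1, zero_le_one]
      by_cases hz : g / 2 ≤ mz x
      · have a1 := first_sum (D := D) (T := T) (S := S) (L := L) b0 (by linarith) hx (κ x) (k0 x)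
          (k1 x)
        rw [k2, if_pos hz] at a1
        have a2 : (∑ y ∈ cl Ω D T S x, (∏ i ∈ T, frac (cl Ω D T S x) i (y i)) * π' y) * q
            ≤ Real.exp (-(g / 4 / 2)) * L := by
          rw [Real.exp_neg, le_inv_mul_iff₀ (Real.exp_pos _)]
          refine le_trans (mul_le_mul_of_nonneg_left ?_ (Real.exp_pos _).le) a1
          rw [Finset.sum_mul]
          refine Finset.sum_le_sum fun y hy => ?_
          rw [mul_assoc]
          refine mul_le_mul_of_nonneg_left ?_ (Finset.prod_nonneg fun i _ => frac_nonneg _ _ _)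
          have hyΩ := (mem_cl.1 hy).1
          have a3 := p2 y hyΩ
          simp only [hθ, cl_eq hy, (kc x y hy).2] at a3
          simp only [hπ']
          rw [if_pos ⟨hyΩ, (kc x y hy).1 ▸ hz⟩]
          exact a3
        refine le_of_mul_le_mul_right (a2.trans ?_) hqpos
        refine (mul_le_mul_of_nonneg_left hLe (Real.exp_pos _).le).trans (le_of_eq ?_)
        rw [hq, ← Real.exp_add, ← Real.exp_add]
        congr 1; ring
      · rw [Finset.sum_eq_zero fun y hy => ?_]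
        · exact (Real.exp_pos _).le
        · simp only [hπ']
          rw [if_neg (fun h => hz ((kc x y hy).1 ▸ h.2)), mul_zero])
    rw [Finset.sum_add_distrib, Finset.sum_const, nsmul_eq_mul] at this
    exact this
  -- the second event
  have s2 := second_sum (Ω := Ω) (D := D) (T := T) (S := S) (L := L) (a := 2 * g) b0
    (by linarith) g0 g1 (fun x A => bern T (θ x) A) (fun x A => bern_le_one (t0 x) (t1 x)) (by
      intro x A h
      obtain ⟨i, h1, h2⟩ := Finset.not_disjoint_iff.1 h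
      obtain ⟨j, hj, hi⟩ := Finset.mem_biUnion.1 h2
      have a1 : κ x i = 0 := le_antisymm ((k1 x i).trans (mu_cl_eq_zero hj hi).le) (k0 x i)
      rw [bern, Finset.prod_eq_zero h1 (by simp only [hθ, a1, zero_div]), zero_mul])
  -- the third event
  set Ω' := Ω.filter fun x => g / 2 ≤ mz x with hΩ'
  have s3 : ∑ x ∈ Ω, ∑ i ∈ T, θ x i ≤ g / 2 * Ω'.card := by
    have a1 := sum_le_of_classes Ω (cl Ω D T S) cl_spec (fun x => ∑ i ∈ T, θ x i)
      (fun x => ∑ i ∈ T, 2 * κ x i) (by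
      intro x _
      rw [Finset.sum_comm, Finset.sum_comm (s := cl Ω D T S x)]
      refine Finset.sum_le_sum fun i _ => ?_
      refine le_trans (Finset.sum_le_sum fun y hy => ?_)
        ((sum_div_frac (cl Ω D T S x) i (κ x i) (k0 x i)).trans
          (le_of_eq (Finset.sum_congr rfl fun y hy => by rw [(kc x y hy).2])))
      have := t2 y i
      rwa [cl_eq hy, (kc x y hy).2] at this)
    refine a1.trans (le_of_eq ?_)
    simp only [← Finset.mul_sum, k2]
    rw [← Finset.sum_filter, Finset.sum_const, nsmul_eq_mul]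
    ring
  have s4 : γ * Ω.card ≤ Ω'.card := by
    have a1 : mass Ω D T S ≤ ∑ x ∈ Ω, ((if g / 2 ≤ mz x then t / 2 else 0) + g / 2) := by
      refine Finset.sum_le_sum fun x hx => ?_
      split_ifs with h
      · have : ∑ i ∈ T, mu (cl Ω D T S x) i ≤ T.card • (1 / 2 : ℝ) :=
          Finset.sum_le_card_nsmul _ _ _ fun i _ => mu_le_half ⟨x, self_mem_cl hx⟩ i
        rw [nsmul_eq_mul, ← htd] at this
        linarith
      · have := (not_le.1 h).le
        simp only [hmz] at this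
        linarith
    rw [Finset.sum_add_distrib, ← Finset.sum_filter, Finset.sum_const, Finset.sum_const,
      nsmul_eq_mul, nsmul_eq_mul, ← hΩ', hg] at a1
    refine le_of_mul_le_mul_left ?_ htpos
    linarith
  set P2 : (ι → Bool) → ℝ := fun x => ∑ A ∈ T.powerset, ∑ B ∈ Tᶜ.powerset,
    bern Tᶜ (fun _ => β) B * (if (A.card : ℝ) ≤ 2 * g ∧ (sideSet Ω D S x B A).card ≤ L then
      bern T (θ x) A else 0) with hP2
  have s5 : (Ω'.card : ℝ) ≤ ∑ x ∈ Ω, (π' x + P2 x / q + (∑ i ∈ T, θ x i) / (2 * g)) := by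
    rw [hΩ', Finset.card_filter]
    push_cast
    refine Finset.sum_le_sum fun x hx => ?_
    simp only [hπ', hx, true_and]
    split_ifs
    · exact p3 x hx
    · have a1 : 0 ≤ P2 x := Finset.sum_nonneg fun A _ => Finset.sum_nonneg fun B _ =>
        mul_nonneg (bern_nonneg (fun _ => b0) fun _ => by linarith)
          (by split_ifs; exacts [bern_nonneg (t0 x) (t1 x), le_rfl])
      have a2 : 0 ≤ ∑ i ∈ T, θ x i := Finset.sum_nonneg fun i _ => t0 x i
      positivity
  rw [Finset.sum_add_distrib, Finset.sum_add_distrib, ← Finset.sum_div, ← Finset.sum_div] at s5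
  rw [← Finset.mul_sum] at s1
  obtain ⟨l1, l2⟩ := log_two_bounds
  have c1 : ∑ x ∈ Ω, π' x ≤ γ * Ω.card / 4 := by
    refine le_of_mul_le_mul_left (s1.trans ?_) (by linarith : 0 < g / 16)
    have a1 := mul_le_mul_of_nonneg_left l2.le hmpos.le
    have a2 := mul_le_mul_of_nonneg_right hγg hmpos.le
    have a3 : γ ^ 2 / 128 * t * Ω.card = γ * g * Ω.card / 128 := by rw [hg]; ring
    linarith
  have c3 : (∑ x ∈ Ω, ∑ i ∈ T, θ x i) / (2 * g) ≤ Ω'.card / 4 := by
    rw [div_le_iff₀ (by linarith)]; linarith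
  have c2 : γ * Ω.card / 2 * q ≤ ∑ x ∈ Ω, P2 x := by
    rw [← le_div_iff₀ hqpos]; linarith
  have hB : n / 2 ≤ (Tᶜ.card : ℝ) := by
    rw [Finset.card_compl, Nat.cast_sub (Finset.card_le_univ T), ← hnd, ← htd]; linarith
  have c4 := c2.trans s2
  have c5 := Real.log_le_log (by positivity) c4
  rw [Real.log_mul (by positivity) hqpos.ne', Real.log_div (by positivity) (by norm_num),
    Real.log_mul g0.ne' hmpos.ne', Real.log_mul (by positivity) (by positivity),
    Real.log_mul (by positivity) (by positivity), Real.log_mul hL0.ne' (by positivity), hq,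
    Real.log_exp, Real.log_exp, Real.log_exp, Real.log_pow, hlog, ← htd, ← hnd] at c5
  have d1 := mul_le_mul_of_nonneg_left hB b0
  have d2 := mul_le_mul_of_nonneg_left hLg hgpos.le
  have d3 := mul_le_mul_of_nonneg_right hg128 (by linarith : 0 ≤ Lg)
  rw [← hg] at hL ⊢
  have d4 : t * γ = g := by rw [hg]; ring
  linarith

end Pool.Agent.Lib.MP_8a52c3_lc
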