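import Pool.Agent.Lib.MP_8a52c3_lc.NbtProg
import Pool.Agent.Lib.MP_8a52c3_lc.NbpHard

/-! The linear time lower bound for the hard language, for an abstract walk relation. -/

namespace Pool.Agent.Lib.MP_8a52c3_lc

open Finset

theorem exists_small_ratio {ε : ℝ} (hε : 0 < ε) : ∃ Q : ℕ, 0 < Q ∧ ∀ n : ℕ,
    Real.log (smallSets (Fin n) (n / Q)).card ≤ ε * n := by
  obtain ⟨ρ, hρ⟩ : ∃ ρ : ℝ, ρ = min 1 (ε / 2) := ⟨_, rfl⟩
  have r0 : 0 < ρ := by rw [hρ]; positivity
  have r1 : ρ ≤ 1 := hρ ▸ min_le_left _ _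
  have r2 : ρ ≤ ε / 2 := hρ ▸ min_le_right _ _
  have hl : 0 ≤ -Real.log ρ := by have := Real.log_nonpos r0.le r1; linarith
  obtain ⟨Q, hQ⟩ := exists_nat_gt (-Real.log ρ / (ε / 2))
  have hQ0 : (0 : ℝ) < Q := lt_of_le_of_lt (by positivity) hQ
  refine ⟨Q, by exact_mod_cast hQ0, fun n => ?_⟩
  have h := log_card_smallSets (ι := Fin n) (n / Q) ρ r0 r1
  rw [Fintype.card_fin] at h
  have h1 : ((n / Q : ℕ) : ℝ) ≤ n / Q := Nat.cast_div_le
  have h2 : -Real.log ρ ≤ Q * (ε / 2) := by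
    rw [div_lt_iff₀ (by positivity)] at hQ; exact hQ.le
  have h3 := mul_le_mul h1 h2 hl (by positivity)
  have e : (n : ℝ) / Q * (Q * (ε / 2)) = n * (ε / 2) := by field_simp
  have h4 := mul_le_mul_of_nonneg_left r2 (by positivity : (0 : ℝ) ≤ n)
  linarith

theorem exists_dense {N n : ℕ} (hndef : n = side N) (hn : 0 < n) (hN : 2 * n ^ 4 + 2 ≤ N)
    (c : Fin (n ^ 4) → Bool) : ∃ τ π : Bool, Fintype.card (Fin (n ^ 3) → Fin n → Bool)
      ≤ 4 * (Finset.univ.filter fun y : Fin (n ^ 3) → Fin n → Bool =>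
        hardL (List.ofFn (asm (N := N) hn c τ π y)) = true).card := by
  by_contra hcon
  push Not at hcon
  have hcov : (Finset.univ : Finset (Fin (n ^ 3) → Fin n → Bool)) ⊆
      (Finset.univ : Finset (Bool × Bool)).biUnion fun p => Finset.univ.filter fun y =>
        hardL (List.ofFn (asm (N := N) hn c p.1 p.2 y)) = true := by
    intro y _
    obtain ⟨τ, hτ⟩ : ∃ τ : Bool, (∑ b, pv (digits hn) c (y b) + τ.toNat) % 2 = 1 := by
      rcases Nat.mod_two_eq_zero_or_one (∑ b, pv (digits hn) c (y b)) with h | h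
      · exact ⟨true, by simp only [Bool.toNat_true]; omega⟩
      · exact ⟨false, by simp only [Bool.toNat_false]; omega⟩
    obtain ⟨π, hπ⟩ : ∃ π : Bool, (∑ j, (asm (N := N) hn c τ π y j).toNat) % 2 = 0 := by
      have h1 := sum_toNat_update (asm (N := N) hn c τ false y) ⟨2 * n ^ 4 + 1, by omega⟩
      rw [← asm_flip hn hN] at h1
      by_cases h : (∑ j, (asm (N := N) hn c τ false y j).toNat) % 2 = 0
      · exact ⟨false, h⟩
      · exact ⟨!false, by omega⟩
    refine Finset.mem_biUnion.2 ⟨(τ, π), Finset.mem_univ _, Finset.mem_filter.2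
      ⟨Finset.mem_univ _, ?_⟩⟩
    rw [hardL_iff, ← hndef, total_asm hn hN]
    exact ⟨hπ, hτ⟩
  have h1 := (Finset.card_le_card hcov).trans Finset.card_biUnion_le
  rw [Fintype.sum_prod_type] at h1
  simp only [Fintype.sum_bool, Finset.card_univ] at h1
  have := hcon true true; have := hcon true false
  have := hcon false true; have := hcon false false
  omega

/-- The lower bound for an abstract walk relation. -/
theorem hard_lower_time (k : ℕ) : ∃ ε : ℝ, 0 < ε ∧ ∃ c : ℝ, 0 < c ∧ ∃ N₀ : ℕ, ∀ N ≥ N₀,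
    ∀ (V : Type) (W : V → V → List (Fin N × Bool) → Prop), (∀ u, W u u []) →
    (∀ u v w l1 l2, W u v l1 → W v w l2 → W u w (l1 ++ l2)) → ∀ Hd : Finset V,
    (∀ u w l1 l2, W u w (l1 ++ l2) → l1 ≠ [] → ∃ v ∈ Hd, W u v l1 ∧ W v w l2) → ∀ s t : V,
    (∀ x l, W s t l → (∀ a ∈ l, x a.1 = a.2) → hardL (List.ofFn x) = true) →
    (∀ x : Fin N → Bool, hardL (List.ofFn x) = true → ∃ l, W s t l ∧
      (∀ a ∈ l, x a.1 = a.2) ∧ ∃ X : Finset (Fin N), (X.card : ℝ) ≤ ε * N ∧
        (l.filter fun a => decide (a.1 ∉ X)).length ≤ k * N) →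
    (2 : ℝ) ^ (c * (N : ℝ) ^ (1 / 4 : ℝ)) ≤ Hd.card := by
  classical
  obtain ⟨r, hr, ε₀, hε₀, n₀, hcore⟩ := nbt_core (k := 136 * k + 2) (by omega)
  obtain ⟨Q, hQ, hQ'⟩ := exists_small_ratio hε₀
  obtain ⟨n₁, hn₁⟩ := exists_nat_gt (2 * (3 + r) / ε₀)
  have hrR : (0 : ℝ) < r := by exact_mod_cast hr
  refine ⟨1 / (272 * r), by positivity, ε₀ / (6 * r), by positivity,
    2 * (n₀ + n₁ + r + Q * (4 * Q + 4)) ^ 4 + 2, ?_⟩
  intro N hN0 V W hnil hcat Hd hcut s t hsound hcomp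
  obtain ⟨hN, hN'⟩ := side_spec (N := N) (by omega)
  set n := side N with hndef
  have hnb : n₀ + n₁ + r + Q * (4 * Q + 4) ≤ n := by
    by_contra h
    have : (n + 1) ^ 4 ≤ (n₀ + n₁ + r + Q * (4 * Q + 4)) ^ 4 := Nat.pow_le_pow_left (by omega) 4
    omega
  have hn : 0 < n := by omega
  have hN34 : N ≤ 34 * n ^ 4 := by
    have h1 : (n + 1) ^ 4 ≤ (2 * n) ^ 4 := Nat.pow_le_pow_left (by omega) 4
    have h2 : (2 * n) ^ 4 = 16 * n ^ 4 := by ring
    have h3 : 0 < n ^ 4 := by positivity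
    omega
  obtain ⟨c, hc⟩ := exists_good_seed (digits hn) (digits_surjective hn) (k := n / Q) (by
    rw [Fintype.card_fin, Nat.choose_two_right, Nat.le_div_iff_mul_le (by norm_num)]
    have h1 : 4 * Q + 4 ≤ n / Q := (Nat.le_div_iff_mul_le hQ).2 (by rw [mul_comm]; omega)
    have h2 : n < Q * (n / Q + 1) := Nat.lt_mul_div_succ n hQ
    simp only [Nat.add_sub_cancel]
    nlinarith)
  obtain ⟨τ, π, hdens⟩ := exists_dense hndef hn hN c
  have : Nonempty (Fin (n ^ 3)) := ⟨⟨0, by positivity⟩⟩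
  have hw1 : 136 * k * n < r * (136 * k * n / r + 1) := Nat.lt_mul_div_succ _ hr
  have hw2 : r * (136 * k * n / r) ≤ 136 * k * n := Nat.mul_div_le _ _
  have hw3 : r * (n / r) ≤ n := Nat.mul_div_le _ _
  have hw4 : n < r * (n / r + 1) := Nat.lt_mul_div_succ _ hr
  have hw5 : 1 ≤ n / r := (Nat.one_le_div_iff hr).2 (by omega)
  have key := bt_blocks W hnil hcat Hd hcut s t (E := pos hN) (pos_inj hn hN) (asm hn c τ π)
    (asm_congr hn hN c τ π) (fun x => hardL (List.ofFn x) = true) (r := r)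
    (w₀ := 136 * k * n / r + 1) (w₁ := n / r) hr
    (Bd := Real.exp (n * Real.log 2 - ε₀ * n)) (by
      intro y b Ω D hS hw
      have := hcore (Fin n) (by rw [Fintype.card_fin]; omega) _ (smallSets (Fin n) (n / Q)).card
        Ω D _ hS ?_ (smallSets_nonempty _).card_pos (by rw [Fintype.card_fin]; exact hQ' n) hw
        (by rw [Fintype.card_fin]; nlinarith)
      · rwa [Fintype.card_fin] at this
      refine (hc ((1 + ∑ b' ∈ Finset.univ.erase b, pv (digits hn) c (y b') + τ.toNat) % 2)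
        (Nat.mod_lt _ (by norm_num))).mono fun u hu => ?_
      rw [hardL_iff, ← hndef, total_asm hn hN,
        ← Finset.add_sum_erase _ _ (Finset.mem_univ b), Function.update_self] at hu
      have : ∑ b' ∈ Finset.univ.erase b, pv (digits hn) c (Function.update y b u b')
          = ∑ b' ∈ Finset.univ.erase b, pv (digits hn) c (y b') :=
        Finset.sum_congr rfl fun j hj => by rw [Function.update_of_ne (Finset.ne_of_mem_erase hj)]
      rw [this] at hu
      omega) hdens hsound (k * N) (N / (272 * r)) (by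
      intro x hx
      obtain ⟨l, h1, h2, X, h3, h4⟩ := hcomp x hx
      refine ⟨l, h1, h2, X, ?_, h4⟩
      rw [Nat.le_div_iff_mul_le (by omega)]
      rw [one_div, le_inv_mul_iff₀' (by positivity)] at h3
      exact_mod_cast h3) (by
      rw [Fintype.card_fin]
      calc 4 * (k * N) ≤ 4 * (k * (34 * n ^ 4)) := by gcongr
        _ = n ^ 3 * (136 * k * n) := by ring
        _ ≤ _ := Nat.mul_le_mul_left _ hw1.le) (by
      rw [Fintype.card_fin]
      refine Nat.le_of_mul_le_mul_left ?_ (by omega : 0 < 68 * r)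
      have h1 : 272 * r * (N / (272 * r)) ≤ N := Nat.mul_div_le _ _
      have h2 : n ≤ 2 * (r * (n / r)) := by nlinarith
      calc 68 * r * (4 * (N / (272 * r))) = 272 * r * (N / (272 * r)) := by ring
        _ ≤ 34 * n ^ 4 := h1.trans hN34
        _ = 34 * n ^ 3 * n := by ring
        _ ≤ 34 * n ^ 3 * (2 * (r * (n / r))) := Nat.mul_le_mul_left _ h2
        _ = _ := by ring)
  rw [Fintype.card_fin, Real.exp_sub, ← Real.log_pow, Real.exp_log (by positivity)] at key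
  have hkey : Real.exp (ε₀ * n) ≤ 8 * ((Hd.card : ℝ) + 1) ^ r := by
    have hpos := Real.exp_pos (ε₀ * n)
    have e : 8 * (((Hd.card : ℝ) + 1) ^ r * (2 ^ n / Real.exp (ε₀ * n)))
        = 2 ^ n * (8 * ((Hd.card : ℝ) + 1) ^ r / Real.exp (ε₀ * n)) := by ring
    rw [e, le_mul_iff_one_le_right (by positivity), one_le_div hpos] at key
    exact key
  have hroot : (N : ℝ) ^ (1 / 4 : ℝ) ≤ 3 * n := by
    have h1 : (N : ℝ) ≤ (3 * n) ^ 4 := by
      have : (N : ℝ) ≤ 34 * n ^ 4 := by exact_mod_cast hN34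
      have h4 : (0 : ℝ) ≤ (n : ℝ) ^ 4 := by positivity
      nlinarith
    calc (N : ℝ) ^ (1 / 4 : ℝ) ≤ ((3 * n : ℝ) ^ 4) ^ (1 / 4 : ℝ) :=
          Real.rpow_le_rpow (by positivity) h1 (by norm_num)
      _ = 3 * n := by
          rw [← Real.rpow_natCast, ← Real.rpow_mul (by positivity)]; norm_num
  obtain ⟨x, hx⟩ : ∃ x : ℝ, x = ε₀ * n / (2 * r) := ⟨_, rfl⟩
  have hx0 : 0 ≤ x := by rw [hx]; positivity
  have h2 : (2 : ℝ) ^ (ε₀ / (6 * r) * (N : ℝ) ^ (1 / 4 : ℝ)) ≤ Real.exp x := by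
    rw [Real.rpow_def_of_pos (by norm_num)]
    refine Real.exp_le_exp.2 ?_
    have h0 : 0 ≤ ε₀ / (6 * r) * (N : ℝ) ^ (1 / 4 : ℝ) := by positivity
    obtain ⟨l1, l2⟩ := log_two_bounds
    have h3 := mul_le_mul_of_nonneg_left hroot (by positivity : 0 ≤ ε₀ / (6 * r))
    have e : ε₀ / (6 * r) * (3 * n) = x := by rw [hx]; field_simp; ring
    have h4 := mul_le_mul_of_nonneg_right (by linarith : Real.log 2 ≤ 1) h0
    linarith
  refine h2.trans (le_of_not_gt fun hlt => ?_)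
  have h3 : (Hd.card : ℝ) + 1 ≤ Real.exp (x + 1) := by
    have a1 := Real.add_one_le_exp 1
    have a2 := Real.one_le_exp hx0
    have a3 := mul_le_mul_of_nonneg_left a1 (Real.exp_pos x).le
    rw [Real.exp_add]; linarith
  have h4 := pow_le_pow_left₀ (by positivity) h3 r
  rw [← Real.exp_nat_mul] at h4
  have h5 : (8 : ℝ) ≤ Real.exp 3 := by
    have := Real.quadratic_le_exp_of_nonneg (x := 3) (by norm_num)
    linarith
  have h6 := hkey.trans (mul_le_mul h5 h4 (by positivity) (Real.exp_pos _).le)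
  rw [← Real.exp_add, Real.exp_le_exp] at h6
  have e : (r : ℝ) * (x + 1) = ε₀ * n / 2 + r := by rw [hx]; field_simp
  have h7 : (n₁ : ℝ) ≤ n := by exact_mod_cast (by omega : n₁ ≤ n)
  have h8 := hn₁.trans_le h7
  rw [div_lt_iff₀ hε₀] at h8
  linarith

end Pool.Agent.Lib.MP_8a52c3_lc
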