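import Pool.Agent.Lib.MP_8a52c3_lc.NbpCore

/-! Weighted Kraft inequalities for random subcubes. -/

namespace Pool.Agent.Lib.MP_8a52c3_lc

open Finset

set_option linter.unusedSectionVars false

variable {ι : Type*} [Fintype ι] [DecidableEq ι]

theorem prod_bool_eq (α : ι → Bool → ℝ) (R : Finset ι) (x : ι → Bool) :
    ∏ i ∈ R, α i (x i) = (∏ i ∈ R.filter (fun i => x i = true), α i true)
      * ∏ i ∈ R \ R.filter (fun i => x i = true), α i false := by
  rw [← Finset.prod_filter_mul_prod_filter_not R (fun i => x i = true), Finset.filter_not]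
  congr 1
  · exact Finset.prod_congr rfl fun i hi => by rw [(Finset.mem_filter.1 hi).2]
  · refine Finset.prod_congr rfl fun i hi => ?_
    have h1 := Finset.mem_sdiff.1 hi
    have : x i = false := by
      by_contra h
      exact h1.2 (Finset.mem_filter.2 ⟨h1.1, by simpa using h⟩)
    rw [this]

theorem sum_prod_le_of_fibres (α : ι → Bool → ℝ) (hα : ∀ i a, 0 ≤ α i a) (R : Finset ι)
    (X : Finset (ι → Bool)) (K : ℝ) (hK0 : 0 ≤ K)
    (hK : ∀ x ∈ X, ((X.filter fun y => ∀ i ∈ R, y i = x i).card : ℝ) ≤ K) :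
    ∑ x ∈ X, ∏ i ∈ R, α i (x i) ≤ K * ∏ i ∈ R, (α i true + α i false) := by
  rw [Finset.prod_add, Finset.mul_sum,
    ← Finset.sum_fiberwise_of_maps_to (s := X) (t := R.powerset)
      (g := fun x => R.filter fun i => x i = true)
      (fun x _ => Finset.mem_powerset.2 (Finset.filter_subset _ _))]
  refine Finset.sum_le_sum fun Y _ => ?_
  have h1 : ∀ x ∈ X.filter (fun x => (R.filter fun i => x i = true) = Y),
      ∏ i ∈ R, α i (x i) = (∏ i ∈ Y, α i true) * ∏ i ∈ R \ Y, α i false := by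
    intro x hx
    rw [prod_bool_eq, (Finset.mem_filter.1 hx).2]
  rw [Finset.sum_congr rfl h1, Finset.sum_const, nsmul_eq_mul]
  refine mul_le_mul_of_nonneg_right ?_ (mul_nonneg (Finset.prod_nonneg fun i _ => hα i _)
    (Finset.prod_nonneg fun i _ => hα i _))
  by_cases h : (X.filter (fun x => (R.filter fun i => x i = true) = Y)).Nonempty
  swap
  · rw [Finset.not_nonempty_iff_eq_empty.1 h]; simpa using hK0
  · obtain ⟨x0, hx0⟩ := h
    obtain ⟨hx0, e0⟩ := Finset.mem_filter.1 hx0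
    refine le_trans ?_ (hK x0 hx0)
    have : X.filter (fun x => (R.filter fun i => x i = true) = Y)
        ⊆ X.filter fun y => ∀ i ∈ R, y i = x0 i := by
      intro y hy
      obtain ⟨hy, e⟩ := Finset.mem_filter.1 hy
      refine Finset.mem_filter.2 ⟨hy, fun i hi => ?_⟩
      have := congrArg (fun T => i ∈ T) (e.trans e0.symm)
      simp only [Finset.mem_filter, hi, true_and, eq_iff_iff] at this
      exact Bool.eq_iff_iff.2 this
    exact_mod_cast Finset.card_le_card this

/-- Kraft inequality in cell form. -/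
theorem cell_kraft (T : Finset ι) (κ : ι → ℝ) (α : ι → Bool → ℝ) (hκ : ∀ i, 0 ≤ κ i)
    (hα : ∀ i a, 0 ≤ α i a) (hs : ∀ i ∈ T, κ i + (α i true + α i false) ≤ 1)
    (G : Finset (ι → Bool)) (Ev : (ι → Bool) → Finset ι → Prop) [∀ x A, Decidable (Ev x A)]
    (K : ℝ) (hK0 : 0 ≤ K)
    (hK : ∀ A ⊆ T, ∀ x ∈ G, Ev x A →
      ((G.filter fun y => Ev y A ∧ ∀ i ∈ T \ A, y i = x i).card : ℝ) ≤ K) :
    ∑ x ∈ G, ∑ A ∈ T.powerset,
      (if Ev x A then (∏ i ∈ A, κ i) * ∏ i ∈ T \ A, α i (x i) else 0) ≤ K := by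
  rw [Finset.sum_comm]
  have h1 : ∀ A ∈ T.powerset, ∑ x ∈ G,
      (if Ev x A then (∏ i ∈ A, κ i) * ∏ i ∈ T \ A, α i (x i) else 0)
      ≤ K * ((∏ i ∈ A, κ i) * ∏ i ∈ T \ A, (α i true + α i false)) := by
    intro A hA
    rw [← Finset.sum_filter, ← Finset.mul_sum, mul_left_comm]
    refine mul_le_mul_of_nonneg_left ?_ (Finset.prod_nonneg fun i _ => hκ i)
    refine sum_prod_le_of_fibres α hα _ _ K hK0 fun x hx => ?_
    rw [Finset.filter_filter]
    exact hK A (Finset.mem_powerset.1 hA) x (Finset.mem_filter.1 hx).1 (Finset.mem_filter.1 hx).2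
  refine (Finset.sum_le_sum h1).trans ?_
  rw [← Finset.mul_sum, ← Finset.prod_add]
  refine mul_le_of_le_one_right hK0 (Finset.prod_le_one (fun i _ => ?_) hs)
  have := hκ i; have := hα i true; have := hα i false
  positivity

theorem sum_avoid (T W : Finset ι) (f g : ι → ℝ) :
    ∑ A ∈ T.powerset, (if Disjoint A W then (∏ i ∈ A, f i) * ∏ i ∈ T \ A, g i else 0)
      = ∏ i ∈ T, (if i ∈ W then g i else f i + g i) := by
  have h := Finset.prod_add (fun i => if i ∈ W then 0 else f i) g T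
  have e : ∀ i, ((if i ∈ W then 0 else f i) + g i) = if i ∈ W then g i else f i + g i := by
    intro i; split_ifs <;> simp
  simp only [e] at h
  rw [h]
  refine Finset.sum_congr rfl fun A _ => ?_
  split_ifs with hd
  · congr 1
    refine Finset.prod_congr rfl fun i hi => ?_
    rw [if_neg (Finset.disjoint_left.1 hd hi)]
  · obtain ⟨i, h1, h2⟩ := Finset.not_disjoint_iff.1 hd
    rw [Finset.prod_eq_zero h1 (by simp [h2]), zero_mul]

theorem sum_bernoulli (T : Finset ι) (θ : ι → ℝ) :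
    ∑ A ∈ T.powerset, (∏ i ∈ A, θ i) * ∏ i ∈ T \ A, (1 - θ i) = 1 := by
  rw [← Finset.prod_add]; simp

theorem sum_bernoulli_card (T : Finset ι) (θ : ι → ℝ) :
    ∑ A ∈ T.powerset, ((∏ i ∈ A, θ i) * ∏ i ∈ T \ A, (1 - θ i)) * A.card = ∑ i ∈ T, θ i := by
  have h1 : ∀ j ∈ T, ∑ A ∈ T.powerset,
      (if j ∈ A then (∏ i ∈ A, θ i) * ∏ i ∈ T \ A, (1 - θ i) else 0) = θ j := by
    intro j hj
    have h2 := sum_avoid T {j} θ (fun i => 1 - θ i)
    have h3 : ∏ i ∈ T, (if i ∈ ({j} : Finset ι) then 1 - θ i else θ i + (1 - θ i)) = 1 - θ j := by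
      rw [Finset.prod_eq_single_of_mem j hj]
      · simp
      · intro b _ hb; simp [hb]
    rw [h3] at h2
    have h4 := sum_bernoulli T θ
    have h5 : ∑ A ∈ T.powerset,
        (if j ∈ A then (∏ i ∈ A, θ i) * ∏ i ∈ T \ A, (1 - θ i) else 0)
        + ∑ A ∈ T.powerset, (if Disjoint A {j} then (∏ i ∈ A, θ i) * ∏ i ∈ T \ A, (1 - θ i) else 0)
        = ∑ A ∈ T.powerset, (∏ i ∈ A, θ i) * ∏ i ∈ T \ A, (1 - θ i) := by
      rw [← Finset.sum_add_distrib]
      refine Finset.sum_congr rfl fun A _ => ?_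
      by_cases h : j ∈ A <;> simp [h]
    linarith
  rw [← Finset.sum_congr rfl h1, Finset.sum_comm]
  refine Finset.sum_congr rfl fun A hA => ?_
  rw [← Finset.sum_filter, Finset.sum_const, nsmul_eq_mul, mul_comm]
  congr 2
  rw [Finset.filter_mem_eq_inter, Finset.inter_eq_right.2 (Finset.mem_powerset.1 hA)]

/-- The one step inequality inside one class. -/
theorem stage (T : Finset ι) (G : Finset (ι → Bool)) (hG : G.Nonempty) (ν : ι → Bool → ℝ)
    (μ : ι → ℝ) (hμ0 : ∀ i, 0 ≤ μ i) (hμν : ∀ i a, μ i ≤ ν i a)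
    (hν1 : ∀ i, ν i true + ν i false = 1) (hνpos : ∀ x ∈ G, ∀ i ∈ T, 0 < ν i (x i))
    (c : ℝ) (hc0 : 0 ≤ c) (hc1 : c ≤ 1 / 2) (W : (ι → Bool) → Finset ι)
    (huniq : ∀ A ⊆ T, ∀ x ∈ G, ∀ y ∈ G, Disjoint A (W x) → Disjoint A (W y) →
      (∀ i ∈ T \ A, y i = x i) → y = x) :
    c * (1 - c) ^ 2 * (G.card * ∑ i ∈ T, μ i)
      ≤ (1 - c) * ∑ x ∈ G, (-Real.log G.card - ∑ i ∈ T, Real.log (ν i (x i)))
        + ∑ x ∈ G, ∑ i ∈ T, (if i ∈ W x then c * μ i / ν i (x i) else 0) := by
  have hμh : ∀ i, μ i ≤ 1 / 2 := fun i => by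
    have := hμν i true; have := hμν i false; have := hν1 i; linarith
  set κ : ι → ℝ := fun i => c * μ i with hκ
  set α : ι → Bool → ℝ := fun i a => ν i a * (1 + κ i) - κ i with hα
  have hκ0 : ∀ i, 0 ≤ κ i := fun i => mul_nonneg hc0 (hμ0 i)
  have hα0 : ∀ i a, 0 ≤ α i a := fun i a => by
    have h1 := hμν i a; have h2 := hμ0 i; have h3 := hκ0 i
    have h4 : κ i ≤ μ i := by simp only [hκ]; nlinarith
    simp only [hα]; nlinarith
  have hk := cell_kraft T κ α hκ0 hα0 (fun i _ => by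
    have h1 : ν i false = 1 - ν i true := by have := hν1 i; linarith
    simp only [hα]; rw [h1]; have := hκ0 i; nlinarith) G (fun x A => Disjoint A (W x)) 1 zero_le_one (by
    intro A hA x hx hd
    have : (G.filter fun y => Disjoint A (W y) ∧ ∀ i ∈ T \ A, y i = x i).card ≤ 1 := by
      rw [Finset.card_le_one]
      intro y hy z hz
      obtain ⟨a1, a2, a3⟩ := Finset.mem_filter.1 hy
      obtain ⟨b1, b2, b3⟩ := Finset.mem_filter.1 hz
      rw [huniq A hA x hx y a1 hd a2 a3, huniq A hA x hx z b1 hd b2 b3]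
    exact_mod_cast this)
  simp only [sum_avoid] at hk
  have hc' : 0 < 1 - c := by linarith
  -- pointwise lower bound on the logarithm of a factor
  have hfac : ∀ x ∈ G, ∀ i ∈ T, 0 < (if i ∈ W x then α i (x i) else κ i + α i (x i)) ∧
      Real.log (ν i (x i)) + c * (1 - c) * μ i
        - (if i ∈ W x then c * μ i / ν i (x i) else 0) / (1 - c)
      ≤ Real.log (if i ∈ W x then α i (x i) else κ i + α i (x i)) := by
    intro x hx i hi
    have hν := hνpos x hx i hi
    have h1 : 0 < 1 + κ i := by have := hκ0 i; linarith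
    have hlog1 : c * (1 - c) * μ i ≤ Real.log (1 + κ i) := by
      have a1 := Real.one_sub_inv_le_log_of_pos h1
      have a2 : c * (1 - c) * μ i ≤ 1 - (1 + κ i)⁻¹ := by
        have e : 1 - (1 + κ i)⁻¹ = κ i / (1 + κ i) := by field_simp; ring
        rw [e, le_div_iff₀ h1]
        have b1 := hκ0 i
        have b2 : κ i ≤ c := by simp only [hκ]; nlinarith [hμh i]
        have b3 : (1 - c) * (1 + κ i) ≤ 1 := by nlinarith
        calc c * (1 - c) * μ i * (1 + κ i) = κ i * ((1 - c) * (1 + κ i)) := by simp only [hκ]; ring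
          _ ≤ κ i := mul_le_of_le_one_right b1 b3
      linarith
    split_ifs with hW
    · set θ := c * μ i / ν i (x i) with hθ
      have hθ0 : 0 ≤ θ := div_nonneg (hκ0 i) hν.le
      have hθc : θ ≤ c := by
        rw [hθ, div_le_iff₀ hν]; exact mul_le_mul_of_nonneg_left (hμν i _) hc0
      have hlow : ν i (x i) * (1 + κ i) * (1 - θ) ≤ α i (x i) := by
        have e : ν i (x i) * θ = κ i := by rw [hθ]; field_simp; rfl
        have := hκ0 i
        simp only [hα]; nlinarith
      have hpos : 0 < ν i (x i) * (1 + κ i) * (1 - θ) :=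
        mul_pos (mul_pos hν h1) (by linarith)
      refine ⟨lt_of_lt_of_le hpos hlow, le_trans ?_ (Real.log_le_log hpos hlow)⟩
      rw [Real.log_mul (mul_pos hν h1).ne' (by linarith), Real.log_mul hν.ne' h1.ne']
      have a1 := Real.one_sub_inv_le_log_of_pos (x := 1 - θ) (by linarith)
      have a2 : -(θ / (1 - c)) ≤ 1 - (1 - θ)⁻¹ := by
        have e : 1 - (1 - θ)⁻¹ = -(θ / (1 - θ)) := by
          have : 1 - θ ≠ 0 := by linarith
          field_simp; ring
        rw [e, neg_le_neg_iff]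
        exact div_le_div_of_nonneg_left hθ0 hc' (by linarith)
      linarith
    · have e : κ i + α i (x i) = ν i (x i) * (1 + κ i) := by simp only [hα]; ring
      rw [e, Real.log_mul hν.ne' h1.ne']
      exact ⟨mul_pos hν h1, by simp only [zero_div]; linarith⟩
  have hl := sum_log_le G hG (fun x => ∏ i ∈ T, (if i ∈ W x then α i (x i) else κ i + α i (x i)))
    (fun x hx => Finset.prod_pos fun i hi => (hfac x hx i hi).1) 1 hk
  have h2 : ∑ x ∈ G, (∑ i ∈ T, Real.log (ν i (x i)) + c * (1 - c) * ∑ i ∈ T, μ i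
      - (∑ i ∈ T, (if i ∈ W x then c * μ i / ν i (x i) else 0)) / (1 - c))
      ≤ ∑ x ∈ G, Real.log (∏ i ∈ T, (if i ∈ W x then α i (x i) else κ i + α i (x i))) := by
    refine Finset.sum_le_sum fun x hx => ?_
    rw [Real.log_prod (fun i hi => (hfac x hx i hi).1.ne'), Finset.mul_sum, Finset.sum_div,
      ← Finset.sum_add_distrib, ← Finset.sum_sub_distrib]
    exact Finset.sum_le_sum fun i hi => (hfac x hx i hi).2
  have h3 := h2.trans hl
  simp only [Finset.sum_sub_distrib, Finset.sum_add_distrib, Finset.sum_const, nsmul_eq_mul,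
    ← Finset.sum_div, Real.log_one, zero_sub] at h3 ⊢
  have h4 := mul_le_mul_of_nonneg_left h3 hc'.le
  set X := ∑ x ∈ G, ∑ i ∈ T, (if i ∈ W x then c * μ i / ν i (x i) else 0)
  have e : (1 - c) * (X / (1 - c)) = X := by field_simp
  nlinarith

theorem card_le_of_fibres (X : Finset (ι → Bool)) (B : Finset ι) (L : ℝ) (hL0 : 0 ≤ L)
    (hL : ∀ x ∈ X, ((X.filter fun y => ∀ i ∈ Bᶜ, y i = x i).card : ℝ) ≤ L) :
    (X.card : ℝ) ≤ L * 2 ^ Fintype.card ι * (1 / 2) ^ B.card := by
  have h := sum_prod_le_of_fibres (fun _ _ => (1 : ℝ)) (fun _ _ => zero_le_one) Bᶜ X L hL0 hL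
  simp only [Finset.prod_const_one, Finset.sum_const, nsmul_eq_mul, mul_one,
    Finset.prod_const, Finset.card_compl] at h
  refine h.trans (le_of_eq ?_)
  have hB : B.card ≤ Fintype.card ι := Finset.card_le_univ B
  obtain ⟨m, hm⟩ := Nat.exists_eq_add_of_le hB
  rw [hm, Nat.add_sub_cancel_left, pow_add, mul_assoc]
  congr 1
  rw [one_add_one_eq_two, mul_comm ((2 : ℝ) ^ B.card), mul_assoc, ← mul_pow]
  norm_num

theorem log_card_small_subsets (T : Finset ι) (a : ℝ) (r : ℝ) (hr0 : 0 < r) (hr1 : r ≤ 1) :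
    ((T.powerset.filter fun A => (A.card : ℝ) ≤ a).card : ℝ)
      ≤ Real.exp (T.card * r - a * Real.log r) := by
  have hlr : Real.log r ≤ 0 := Real.log_nonpos hr0.le hr1
  have h1 : ((T.powerset.filter fun A => (A.card : ℝ) ≤ a).card : ℝ) * Real.exp (a * Real.log r)
      ≤ (1 + r) ^ T.card := by
    have h0 := Finset.sum_pow_mul_eq_add_pow r 1 T
    simp only [one_pow, mul_one] at h0
    rw [add_comm, ← h0]
    calc _ = ∑ _A ∈ T.powerset.filter fun A => (A.card : ℝ) ≤ a, Real.exp (a * Real.log r) := by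
          rw [Finset.sum_const, nsmul_eq_mul]
      _ ≤ ∑ A ∈ T.powerset.filter fun A => (A.card : ℝ) ≤ a, r ^ A.card := by
          refine Finset.sum_le_sum fun A hA => ?_
          rw [← Real.exp_log (pow_pos hr0 A.card), Real.log_pow]
          exact Real.exp_le_exp.2
            (mul_le_mul_of_nonpos_right (Finset.mem_filter.1 hA).2 hlr)
      _ ≤ _ := Finset.sum_le_sum_of_subset_of_nonneg (Finset.filter_subset _ _)
          fun _ _ _ => by positivity
  have h2 : (1 + r) ^ T.card ≤ Real.exp (T.card * r) := by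
    rw [Real.exp_nat_mul]
    exact pow_le_pow_left₀ (by linarith) (by linarith [Real.add_one_le_exp r]) _
  rw [Real.exp_sub, le_div_iff₀ (Real.exp_pos _)]
  exact h1.trans h2

end Pool.Agent.Lib.MP_8a52c3_lc
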