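import Pool.Agent.Lib.MP_8a52c3_lc.NbtCtx

/-! Losses, the initial mass, and localisation to an almost independent set of variables. -/

namespace Pool.Agent.Lib.MP_8a52c3_lc

open Finset

set_option linter.unusedSectionVars false

variable {ι ρ : Type*} [Fintype ι] [DecidableEq ι] [Fintype ρ] [DecidableEq ρ]
variable {Ω : Finset (ι → Bool)} {D : ρ → (ι → Bool) → Finset ι} {T : Finset ι} {S : Finset ρ}

theorem sum_loss_le {y : ℝ} (hy : 0 ≤ y) :
    ∑ j ∈ Sᶜ, ∑ x ∈ Ω, ∑ i ∈ T,
        (if i ∈ D j x then mu (cl Ω D T S x) i / frac (cl Ω D T S x) i (x i) else 0)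
      ≤ 2 * y * mass Ω D T S + ∑ x ∈ Ω, ∑ i ∈ T, (if y < (rd D x i).card then
        ((rd D x i).card : ℝ) else 0) * (if Disjoint S (rd D x i) then 1 else 0) := by
  have h1 := mul_le_mul_of_nonneg_left (sum_ratio_le (Ω := Ω) (D := D) (T := T) (S := S)) hy
  refine le_trans ?_ (add_le_add (h1.trans (le_of_eq (by ring))) le_rfl)
  rw [Finset.sum_comm, Finset.mul_sum, ← Finset.sum_add_distrib]
  refine Finset.sum_le_sum fun x hx => ?_
  rw [Finset.sum_comm, Finset.mul_sum, ← Finset.sum_add_distrib]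
  refine Finset.sum_le_sum fun i _ => ?_
  have p1 := frac_pos (self_mem_cl (D := D) (T := T) (S := S) hx) i
  have q0 : 0 ≤ mu (cl Ω D T S x) i / frac (cl Ω D T S x) i (x i) :=
    div_nonneg (mu_nonneg _ _) p1.le
  have q1 : mu (cl Ω D T S x) i / frac (cl Ω D T S x) i (x i) ≤ 1 :=
    (div_le_one p1).2 (mu_le _ _ _)
  have q2 : ¬ Disjoint S (rd D x i) → mu (cl Ω D T S x) i / frac (cl Ω D T S x) i (x i) = 0 := by
    intro h
    obtain ⟨j, h1, h2⟩ := Finset.not_disjoint_iff.1 h
    rw [mu_cl_eq_zero h1 (Finset.mem_filter.1 h2).2, zero_div]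
  generalize mu (cl Ω D T S x) i / frac (cl Ω D T S x) i (x i) = q at q0 q1 q2
  have h2 : ∑ j ∈ Sᶜ, (if i ∈ D j x then q else 0) ≤ (rd D x i).card * q := by
    rw [← Finset.sum_filter, Finset.sum_const, nsmul_eq_mul]
    refine mul_le_mul_of_nonneg_right ?_ q0
    exact_mod_cast Finset.card_le_card (Finset.filter_subset_filter _ (Finset.subset_univ _))
  refine h2.trans ?_
  have h0 : (0 : ℝ) ≤ (rd D x i).card := by positivity
  by_cases g : Disjoint S (rd D x i)
  · rw [if_pos g]
    split_ifs with g2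
    · nlinarith
    · nlinarith [not_lt.1 g2]
  · rw [if_neg g, q2 g]; simp

theorem mass_init (hΩ : Ω.Nonempty) {c : ℝ} (hc0 : 0 ≤ c) (hc1 : c ≤ 1 / 2) :
    c * (1 - c) ^ 2 * (Ω.card * (T.card / 2))
      ≤ Ω.card * (Fintype.card ι * Real.log 2 - Real.log Ω.card) + c * mass Ω D T ∅ := by
  set W : (ι → Bool) → Finset ι := fun x =>
    Tᶜ ∪ Finset.univ.filter fun i => x i = mv (cl Ω D T ∅ x) i with hW
  have h := stage Finset.univ Ω hΩ (fun _ _ => 1 / 2) (fun i => if i ∈ T then 1 / 2 else 0)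
    (fun i => by split_ifs <;> norm_num) (fun i _ => by split_ifs <;> norm_num)
    (fun _ => by norm_num) (fun _ _ _ _ => by norm_num) c hc0 hc1 W (by
      intro A _ y hy z hz h1 h2 h3
      have hag : ∀ i, i ∉ A → z i = y i := fun i hi => h3 i (by simp [hi])
      have hin : z ∈ cl Ω D T ∅ y := mem_cl.2 ⟨hz, fun i hi => hag i fun h =>
        Finset.disjoint_left.1 h1 h (Finset.mem_union_left _ (Finset.mem_compl.2 hi)), by simp⟩
      funext i
      by_cases hi : i ∈ A
      · have b1 : ¬ y i = mv (cl Ω D T ∅ y) i := fun h =>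
          Finset.disjoint_left.1 h1 hi (Finset.mem_union_right _ (by simp [h]))
        have b2 : ¬ z i = mv (cl Ω D T ∅ z) i := fun h =>
          Finset.disjoint_left.1 h2 hi (Finset.mem_union_right _ (by simp [h]))
        rw [cl_eq hin] at b2
        rw [Bool.eq_not_of_ne b1, Bool.eq_not_of_ne b2]
      · exact hag i hi)
  have e1 : ∑ i : ι, (if i ∈ T then (1 / 2 : ℝ) else 0) = T.card / 2 := by
    rw [← Finset.sum_filter]; simp; ring
  have e2 : Real.log (1 / 2 : ℝ) = -Real.log 2 := by rw [one_div, Real.log_inv]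
  rw [e1] at h
  simp only [e2, Finset.sum_const, Finset.card_univ, nsmul_eq_mul] at h
  have h2 : ∑ x ∈ Ω, ∑ i : ι,
      (if i ∈ W x then c * (if i ∈ T then (1 / 2 : ℝ) else 0) / (1 / 2) else 0)
      ≤ c * ∑ x ∈ Ω, ∑ i ∈ T, (if x i = mv (cl Ω D T ∅ x) i then (1 : ℝ) else 0) := by
    rw [Finset.mul_sum]
    refine Finset.sum_le_sum fun x _ => le_of_eq ?_
    rw [Finset.mul_sum, ← Finset.sum_subset (Finset.subset_univ T) (fun i _ hi => by simp [hi])]
    refine Finset.sum_congr rfl fun i hi => ?_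
    simp only [hW, Finset.mem_union, Finset.mem_compl, hi, not_true, false_or, Finset.mem_filter,
      Finset.mem_univ, true_and, if_true]
    split_ifs <;> ring
  have h3 := mul_le_mul_of_nonneg_left (sum_minority_le (Ω := Ω) (D := D) (T := T)
    (S := ∅)) hc0
  have he := deficiency_nonneg hΩ
  have h4 : 0 ≤ c * (Ω.card * (Fintype.card ι * Real.log 2 - Real.log Ω.card)) :=
    mul_nonneg hc0 (mul_nonneg (by positivity) (by linarith))
  nlinarith

theorem frac_cl {x : ι → Bool} {i : ι} (_hi : i ∈ T) :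
    frac (cl Ω D T S x) i (x i) = (cl Ω D (T.erase i) S x).card / (cl Ω D T S x).card := by
  unfold frac
  congr 3
  ext y
  simp only [Finset.mem_filter, mem_cl, Finset.mem_erase, not_and]
  constructor
  · rintro ⟨⟨h1, h2, h3⟩, h4⟩
    refine ⟨h1, fun i' h' => ?_, h3⟩
    by_cases e : i' = i
    · rw [e]; exact h4
    · exact h2 i' (h' e)
  · rintro ⟨h1, h2, h3⟩
    exact ⟨⟨h1, fun i' h' => h2 i' fun _ => h', h3⟩, h2 i fun h => absurd rfl h⟩

theorem card_cl_pos {x : ι → Bool} (hx : x ∈ Ω) : (0 : ℝ) < (cl Ω D T S x).card := by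
  exact_mod_cast Finset.card_pos.2 ⟨x, self_mem_cl hx⟩

theorem tc_eq : tc Ω D T S = (T.card - 1) * ∑ x ∈ Ω, Real.log (cl Ω D T S x).card
    - ∑ i ∈ T, ∑ x ∈ Ω, Real.log (cl Ω D (T.erase i) S x).card := by
  rw [tc, Finset.sum_comm, Finset.mul_sum, ← Finset.sum_sub_distrib]
  refine Finset.sum_congr rfl fun x hx => ?_
  rw [Finset.sum_congr rfl (g := fun i => Real.log (cl Ω D (T.erase i) S x).card
    - Real.log (cl Ω D T S x).card) (fun i hi => by
      rw [frac_cl hi, Real.log_div (card_cl_pos hx).ne' (card_cl_pos hx).ne']),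
    Finset.sum_sub_distrib, Finset.sum_const, nsmul_eq_mul]
  ring

theorem log_card_cl_le {x : ι → Bool} (hx : x ∈ Ω) :
    Real.log (cl Ω D T S x).card ≤ T.card * Real.log 2 := by
  have h := sum_prod_le_of_fibres (fun _ _ => (1 : ℝ)) (fun _ _ => zero_le_one) T
    (cl Ω D T S x) 1 zero_le_one (by
      intro y hy
      have : ((cl Ω D T S x).filter fun z => ∀ i ∈ T, z i = y i).card ≤ 1 := by
        rw [Finset.card_le_one]
        intro a ha b hb
        obtain ⟨a1, a2⟩ := Finset.mem_filter.1 ha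
        obtain ⟨b1, b2⟩ := Finset.mem_filter.1 hb
        funext i
        by_cases hi : i ∈ T
        · rw [a2 i hi, b2 i hi]
        · exact cl_agree a1 b1 i hi
      exact_mod_cast this)
  simp only [Finset.prod_const_one, Finset.sum_const, nsmul_eq_mul, mul_one, Finset.prod_const,
    one_mul, one_add_one_eq_two] at h
  have := Real.log_le_log (card_cl_pos hx) h
  rwa [Real.log_pow] at this

theorem exists_local (hΩ : Ω.Nonempty) (I : Finset ι) {t₀ : ℕ} (h0 : 1 ≤ t₀) (hI : t₀ ≤ I.card)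
    {ξ : ℝ} (hξ : 0 ≤ ξ)
    (h : 2 ^ Fintype.card ρ * Real.log 2 < ξ * (Real.log I.card - Real.log t₀)) :
    ∃ T ⊆ I, t₀ < T.card ∧ ∀ S, tc Ω D T S ≤ ξ * T.card * Ω.card := by
  by_contra hcon
  push Not at hcon
  have hm : (0 : ℝ) < Ω.card := by exact_mod_cast hΩ.card_pos
  set α : Finset ι → ℝ := fun T => ∑ S : Finset ρ, ∑ x ∈ Ω, Real.log (cl Ω D T S x).card with hα
  have hrec : ∀ T ⊆ I, t₀ < T.card →
      ξ * T.card * Ω.card + ∑ i ∈ T, α (T.erase i) ≤ (T.card - 1) * α T := by
    intro T hT ht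
    obtain ⟨S, hS⟩ := hcon T hT ht
    have h1 : tc Ω D T S ≤ ∑ S' : Finset ρ, tc Ω D T S' :=
      Finset.single_le_sum (f := fun S' => tc Ω D T S') (fun _ _ => tc_nonneg) (Finset.mem_univ S)
    have h2 : ∑ S' : Finset ρ, tc Ω D T S' = (T.card - 1) * α T - ∑ i ∈ T, α (T.erase i) := by
      simp only [tc_eq, hα]
      rw [Finset.sum_sub_distrib, ← Finset.mul_sum, Finset.sum_comm (s := T)]
    linarith
  have hind : ∀ t, t₀ ≤ t → ∀ T ⊆ I, T.card = t →
      t * (ξ * (Real.log t - Real.log t₀)) * Ω.card ≤ α T := by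
    intro t ht
    induction t, ht using Nat.le_induction with
    | base =>
      intro T _ _
      simp only [sub_self, mul_zero, zero_mul]
      exact Finset.sum_nonneg fun _ _ => Finset.sum_nonneg fun _ _ => Real.log_natCast_nonneg _
    | succ t ht ih =>
      intro T hT hc
      have h1 := hrec T hT (by omega)
      have h2 : ∑ _i ∈ T, t * (ξ * (Real.log t - Real.log t₀)) * Ω.card
          ≤ ∑ i ∈ T, α (T.erase i) :=
        Finset.sum_le_sum fun i hi => ih _ ((Finset.erase_subset _ _).trans hT)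
          (by rw [Finset.card_erase_of_mem hi, hc]; rfl)
      rw [Finset.sum_const, nsmul_eq_mul] at h2
      rw [hc] at h1 h2
      have htpos : (0 : ℝ) < t := by exact_mod_cast (by omega : 0 < t)
      have h3 : t * (Real.log (t + 1) - Real.log t) ≤ 1 := by
        have := Real.log_le_sub_one_of_pos (x := (t + 1) / t) (by positivity)
        rw [Real.log_div (by positivity) htpos.ne'] at this
        have e : ((t : ℝ) + 1) / t - 1 = 1 / t := by field_simp; ring
        rw [e, le_div_iff₀ htpos] at this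
        linarith
      push_cast at h1 h2 ⊢
      refine le_of_mul_le_mul_left ?_ htpos
      have h4 := mul_le_mul_of_nonneg_left h3 (by positivity : 0 ≤ ξ * (t + 1) * Ω.card)
      nlinarith
  have h1 := hind I.card hI I (Finset.Subset.refl _) rfl
  have h2 : α I ≤ 2 ^ Fintype.card ρ * (Ω.card * (I.card * Real.log 2)) := by
    refine (Finset.sum_le_card_nsmul _ _ (Ω.card * (I.card * Real.log 2)) fun S _ => ?_).trans
      (by simp)
    exact (Finset.sum_le_card_nsmul _ _ _ fun x hx => log_card_cl_le hx).trans (by simp)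
  have hIpos : (0 : ℝ) < I.card := by exact_mod_cast (by omega : 0 < I.card)
  have h3 := mul_lt_mul_of_pos_left h (mul_pos hIpos hm)
  nlinarith

end Pool.Agent.Lib.MP_8a52c3_lc
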