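import Pool.Agent.Lib.MP_8a52c3_lc.NbtChain
import Pool.Agent.Lib.MP_8a52c3_lc.NbtFinal
import Pool.Agent.Lib.MP_8a52c3_lc.NbpMain

/-! The abstract main theorem for many segments. -/

namespace Pool.Agent.Lib.MP_8a52c3_lc

open Finset

set_option linter.unusedSectionVars false

variable {ι ρ : Type*} [Fintype ι] [DecidableEq ι] [Fintype ρ] [DecidableEq ρ]

theorem exists_light {Ω : Finset (ι → Bool)} (hΩ : Ω.Nonempty) {D : ρ → (ι → Bool) → Finset ι}
    {k w : ℕ} (hk : 1 ≤ k) (hw : ∀ j, ∀ x ∈ Ω, (D j x).card ≤ w)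
    (hrw : Fintype.card ρ * w ≤ k * Fintype.card ι) :
    ∃ I : Finset ι, I.card = Fintype.card ι / 64 ∧
      ∀ i ∈ I, ∑ x ∈ Ω, (rd D x i).card ≤ 2 * k * Ω.card := by
  set I := Finset.univ.filter fun i => ∑ x ∈ Ω, (rd D x i).card ≤ 2 * k * Ω.card with hI
  have h1 : ∑ i, ∑ x ∈ Ω, (rd D x i).card ≤ Ω.card * (k * Fintype.card ι) := by
    rw [Finset.sum_comm]
    refine (Finset.sum_le_card_nsmul _ _ _ fun x hx => ?_).trans (smul_eq_mul _ _).le
    refine le_trans ?_ hrw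
    simp only [rd, Finset.card_filter]
    rw [Finset.sum_comm]
    refine (Finset.sum_le_card_nsmul _ _ w fun j _ => ?_).trans (by simp)
    rw [← Finset.card_filter]
    simpa using hw j x hx
  have h2 : Iᶜ.card * (2 * k * Ω.card) ≤ ∑ i, ∑ x ∈ Ω, (rd D x i).card := by
    refine le_trans ?_ (Finset.sum_le_sum_of_subset (Finset.subset_univ Iᶜ))
    rw [← smul_eq_mul]
    refine Finset.card_nsmul_le_sum _ _ _ fun i hi => ?_
    have := Finset.mem_compl.1 hi
    simp only [hI, Finset.mem_filter, Finset.mem_univ, true_and, not_le] at this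
    exact this.le
  have h3 : (2 * Iᶜ.card) * (k * Ω.card) ≤ Fintype.card ι * (k * Ω.card) := by
    calc _ = Iᶜ.card * (2 * k * Ω.card) := by ring
      _ ≤ _ := h2.trans h1
      _ = _ := by ring
  have h4 := Nat.le_of_mul_le_mul_right h3 (Nat.mul_pos hk hΩ.card_pos)
  have h5 := Finset.card_add_card_compl I
  obtain ⟨I', h6, h7⟩ := Finset.exists_subset_card_eq (s := I) (n := Fintype.card ι / 64)
    (by omega)
  exact ⟨I', h7, fun i hi => (Finset.mem_filter.1 (h6 hi)).2⟩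

theorem exists_ratio (C : ℝ) : ∃ R : ℕ, 3 ≤ R ∧ C * Real.log R ^ 5 ≤ R := by
  have h := (Real.isLittleO_pow_log_id_atTop (n := 5)).const_mul_left C
  have h1 := (h.bound (c := 1) one_pos).and (Filter.eventually_ge_atTop (3 : ℝ))
  obtain ⟨a, ha⟩ := Filter.eventually_atTop.1 h1
  obtain ⟨R, hR⟩ := exists_nat_ge a
  obtain ⟨h2, h3⟩ := ha R hR
  refine ⟨R, by exact_mod_cast h3, ?_⟩
  simp only [id, one_mul, Real.norm_eq_abs, Nat.abs_cast] at h2
  exact (le_abs_self _).trans h2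

theorem nbt_core {k : ℕ} (hk : 1 ≤ k) : ∃ r : ℕ, 0 < r ∧ ∃ ε : ℝ, 0 < ε ∧ ∃ n₀ : ℕ,
    ∀ (ι : Type) [Fintype ι] [DecidableEq ι], n₀ ≤ Fintype.card ι →
    ∀ (f : (ι → Bool) → Prop) (L : ℕ) (Ω : Finset (ι → Bool))
      (D : Fin r → (ι → Bool) → Finset ι) (w : ℕ), Snd f Ω D → RectFree f L → 1 ≤ L →
      Real.log L ≤ ε * Fintype.card ι → (∀ j, ∀ x ∈ Ω, (D j x).card ≤ w) →
      r * w ≤ k * Fintype.card ι →
      (Ω.card : ℝ) ≤ Real.exp (Fintype.card ι * Real.log 2 - ε * Fintype.card ι) := by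
  have hkR : (1 : ℝ) ≤ k := by exact_mod_cast hk
  obtain ⟨A, hA⟩ : ∃ A : ℝ, A = 2 * (20 * (k + 1)) ^ 5 := ⟨_, rfl⟩
  have hA1 : 1 ≤ A := by
    have : (1 : ℝ) ≤ (20 * (k + 1)) ^ 5 := one_le_pow₀ (by linarith)
    linarith
  obtain ⟨R, hR3, hR⟩ := exists_ratio (2048 * k * A)
  have hRR : (3 : ℝ) ≤ R := by exact_mod_cast hR3
  have hlR : 1 ≤ Real.log R := by
    rw [Real.le_log_iff_exp_le (by linarith)]
    have := Real.exp_one_lt_d9
    linarith
  obtain ⟨u₀, hu₀⟩ := exists_nat_ge (4 * (A * Real.log R ^ 4 + k + 1) + 20 * (k + 1))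
  have hp4 : 0 ≤ A * Real.log R ^ 4 := by positivity
  have hu20 : (20 : ℝ) ≤ u₀ := by linarith
  have hupos : 0 < u₀ := by exact_mod_cast (by linarith : (0 : ℝ) < u₀)
  obtain ⟨Lg, hLg⟩ : ∃ Lg : ℝ, Lg = A * Real.log R ^ 5 := ⟨_, rfl⟩
  have hLg1 : 1 ≤ Lg := by
    rw [hLg]; exact one_le_mul_of_one_le_of_one_le hA1 (one_le_pow₀ hlR)
  obtain ⟨γ, hγ⟩ : ∃ γ : ℝ, γ = Real.exp (-Lg) := ⟨_, rfl⟩
  have g0 : 0 < γ := hγ ▸ Real.exp_pos _
  obtain ⟨r, hr⟩ : ∃ r : ℕ, r = u₀ * R := ⟨_, rfl⟩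
  have hrpos : 0 < r := by rw [hr]; exact Nat.mul_pos hupos (by omega)
  have hrR : (0 : ℝ) < r := by exact_mod_cast hrpos
  have hru : (r : ℝ) / u₀ = R := by
    rw [hr]; push_cast; field_simp
  obtain ⟨c, hc⟩ : ∃ c : ℝ, c = 1 / (2 * r) := ⟨_, rfl⟩
  have c0 : 0 < c := by rw [hc]; positivity
  obtain ⟨ξ, hξ⟩ : ∃ ξ : ℝ, ξ = min (c * γ / r) (γ ^ 2 / 128) := ⟨_, rfl⟩
  have x0 : 0 < ξ := by rw [hξ]; positivity
  obtain ⟨M, hM⟩ := exists_nat_gt (Real.exp (2 ^ r * Real.log 2 / ξ))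
  have hMR : (0 : ℝ) < M := (Real.exp_pos _).trans hM
  have hMpos : 0 < M := by exact_mod_cast hMR
  have hlM : 2 ^ r * Real.log 2 < ξ * Real.log M := by
    have := Real.log_lt_log (Real.exp_pos _) hM
    rwa [Real.log_exp, div_lt_iff₀' x0] at this
  obtain ⟨η, hη⟩ : ∃ η : ℝ, η = min (c / 100) (γ / 32) := ⟨_, rfl⟩
  have e0 : 0 < η := by rw [hη]; positivity
  obtain ⟨n₁, hn₁⟩ := exists_nat_ge (128 * (64 * M) / γ ^ 2)
  refine ⟨r, hrpos, η / (64 * M), by positivity, n₁ + 64 * M, ?_⟩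
  intro ι _ _ hn f L Ω D₀ w hS₀ hRF hL1 hL hw₀ hrw
  refine card_le_exp fun hΩ => ?_
  choose D hD hU using fun j => normalise Ω (D₀ j)
  have hS : Snd f Ω D := by
    intro xs hxs z hz
    choose ys h1 h2 h3 using fun j => hD j (xs j) (hxs j)
    exact hS₀ ys h1 z fun j i hi => (hz j i (h2 j ▸ hi)).trans (h3 j i hi)
  have hw : ∀ j, ∀ x ∈ Ω, (D j x).card ≤ w := fun j x hx => by
    obtain ⟨y, h1, h2, -⟩ := hD j x hx
    rw [h2]; exact hw₀ j y h1
  obtain ⟨I, hI1, hI2⟩ := exists_light hΩ hk hw (by rwa [Fintype.card_fin])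
  have ht1 : M ≤ I.card := by omega
  have ht0 : 1 ≤ I.card / M := (Nat.one_le_div_iff hMpos).2 ht1
  obtain ⟨T, hTI, hT1, hT2⟩ := exists_local (D := D) hΩ I ht0 (Nat.div_le_self _ _) x0.le (by
    rw [Fintype.card_fin]
    refine hlM.trans_le (mul_le_mul_of_nonneg_left ?_ x0.le)
    have h1 : (0 : ℝ) < (I.card / M : ℕ) := by exact_mod_cast ht0
    rw [le_sub_iff_add_le, ← Real.log_mul hMR.ne' h1.ne']
    refine Real.log_le_log (by positivity) ?_
    exact_mod_cast Nat.mul_div_le _ _)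
  have hTn : Fintype.card ι ≤ 64 * M * T.card := by
    have h1 : I.card < T.card * M := (Nat.div_lt_iff_lt_mul hMpos).1 hT1
    have h2 : 64 * M * T.card = 64 * (T.card * M) := by ring
    omega
  have hTnR : (Fintype.card ι : ℝ) ≤ 64 * M * T.card := by exact_mod_cast hTn
  have hε : η / (64 * M) * Fintype.card ι ≤ η * T.card := by
    rw [div_mul_eq_mul_div, div_le_iff₀ (by positivity)]
    have := mul_le_mul_of_nonneg_left hTnR e0.le
    linarith
  have ht : (0 : ℝ) ≤ T.card := by positivity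
  have η1 : η * T.card ≤ c / 100 * T.card :=
    mul_le_mul_of_nonneg_right (hη ▸ min_le_left _ _) ht
  have η2 : η * T.card ≤ γ / 32 * T.card :=
    mul_le_mul_of_nonneg_right (hη ▸ min_le_right _ _) ht
  by_contra hcon
  have hm : (0 : ℝ) ≤ Ω.card := by positivity
  obtain ⟨S, hS1, hS2⟩ := chain (k := k) (A := A) (c := c) (ξ := ξ) (u₀ := u₀) hΩ hU
    (by linarith) (Finset.card_pos.1 (by omega)) (by
      rw [Finset.sum_comm]
      refine (Finset.sum_le_card_nsmul _ _ (2 * k * Ω.card : ℝ) fun i hi => ?_).trans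
        (le_of_eq (by rw [nsmul_eq_mul]; ring))
      exact_mod_cast hI2 i (hTI hi)) hT2 (by linarith [not_le.1 hcon]) c0
    (by rw [Fintype.card_fin, hc]; exact le_of_eq (by field_simp))
    (by
      rw [Fintype.card_fin, hru, ← hLg, ← hγ, ← le_div_iff₀' hrR, div_le_iff₀' c0,
        ← mul_div_assoc, hξ]
      exact min_le_left _ _) hA.ge
    (by rw [Fintype.card_fin, hru]; linarith) (by linarith)
    (by rw [Fintype.card_fin, hr]; exact Nat.le_mul_of_pos_right _ (by omega))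
    (by rw [Fintype.card_fin, hru]; exact one_le_mul_of_one_le_of_one_le (by linarith) hlR)
  rw [Fintype.card_fin, hru, ← hLg, ← hγ] at hS2
  have hfin := final_step (T := T) (S := S) (d := u₀ * w) hΩ hS hRF hL1 hγ hLg1 (by
      intro x hx
      have := Finset.card_biUnion_le_card_mul Sᶜ (fun j => D j x) w fun j _ => hw j x hx
      rw [hS1] at this
      exact_mod_cast this) (by
      have h1 : (u₀ : ℝ) * R * w ≤ k * Fintype.card ι := by rw [hr] at hrw; exact_mod_cast hrw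
      refine le_of_mul_le_mul_left ?_ (by linarith : (0 : ℝ) < R)
      have h2 := mul_le_mul_of_nonneg_left h1 (by linarith : 0 ≤ 2048 * Lg)
      have h3 := mul_le_mul_of_nonneg_right hR (by positivity : (0 : ℝ) ≤ Fintype.card ι)
      rw [hLg] at h2 ⊢
      linarith)
    (by have := Finset.card_le_card hTI; omega) (by
      have h1 : (n₁ : ℝ) ≤ Fintype.card ι := by exact_mod_cast (by omega : n₁ ≤ Fintype.card ι)
      have h2 := (hn₁.trans h1).trans hTnR
      rw [div_le_iff₀ (by positivity)] at h2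
      refine le_of_mul_le_mul_left ?_ (by positivity : (0 : ℝ) < 64 * M)
      linarith) (by linarith)
    ((hT2 S).trans (mul_le_mul_of_nonneg_right
      (mul_le_mul_of_nonneg_right (hξ ▸ min_le_right _ _) ht) hm)) hS2
  have := mul_nonneg g0.le ht
  exact hcon (by linarith)

end Pool.Agent.Lib.MP_8a52c3_lc
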