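import Pool.Agent.Lib.MP_8a52c3_lc.NbtMain
import Pool.Agent.Lib.MP_8a52c3_lc.NbpProg

/-! From programs (an abstract walk relation) to the core theorem for many segments. -/

namespace Pool.Agent.Lib.MP_8a52c3_lc

open Finset

set_option linter.unusedSectionVars false

variable {ι κ : Type*} [Fintype ι] [DecidableEq ι] [DecidableEq κ]

theorem exists_split {α : Type*} (p : α → Bool) : ∀ (l : List α) (m : ℕ), m ≤ l.countP p →
    ∃ l1 l2, l = l1 ++ l2 ∧ l1.countP p = m
  | l, 0, _ => ⟨[], l, rfl, rfl⟩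
  | [], m + 1, h => by simp at h
  | a :: l, m + 1, h => by
    cases hp : p a
    · obtain ⟨l1, l2, rfl, h2⟩ := exists_split p l (m + 1) (by simpa [hp] using h)
      exact ⟨a :: l1, l2, rfl, by simp [hp, h2]⟩
    · obtain ⟨l1, l2, rfl, h2⟩ := exists_split p l m (by simpa [hp] using h)
      exact ⟨a :: l1, l2, rfl, by simp [hp, h2]⟩

theorem cut_walk {V α : Type*} (W : V → V → List α → Prop) (H : Finset V)
    (hcut : ∀ u ∈ H, ∀ w l1 l2, W u w (l1 ++ l2) → ∃ v ∈ H, W u v l1 ∧ W v w l2)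
    (p : α → Bool) (w₀ : ℕ) (t : V) : ∀ (r : ℕ), ∀ s ∈ H, ∀ l, W s t l →
      l.countP p ≤ (r + 1) * w₀ → ∃ (v : ℕ → V) (ls : ℕ → List α), v 0 = s ∧ v (r + 1) = t ∧
        ∀ j ≤ r, v j ∈ H ∧ W (v j) (v (j + 1)) (ls j) ∧ (ls j).countP p ≤ w₀ ∧ ∀ a ∈ ls j, a ∈ l
  | 0, s, hs, l, hl, hc => by
    refine ⟨fun j => if j = 0 then s else t, fun _ => l, by simp, by simp, fun j hj => ?_⟩
    obtain rfl : j = 0 := by omega
    exact ⟨by simpa using hs, by simpa using hl, by simpa using hc, fun _ h => h⟩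
  | r + 1, s, hs, l, hl, hc => by
    obtain ⟨l1, l2, rfl, h1⟩ := exists_split p l (min w₀ (l.countP p)) (min_le_right _ _)
    obtain ⟨s', hs', W1, W2⟩ := hcut s hs t l1 l2 hl
    obtain ⟨v, ls, a1, a2, a3⟩ := cut_walk W H hcut p w₀ t r s' hs' l2 W2 (by
      rw [List.countP_append] at h1 hc
      have : (r + 1 + 1) * w₀ = (r + 1) * w₀ + w₀ := by ring
      omega)
    refine ⟨fun j => Nat.casesOn j s v, fun j => Nat.casesOn j l1 ls, rfl, a2, fun j hj => ?_⟩
    cases j with
    | zero =>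
      refine ⟨hs, by simpa [a1] using W1, ?_, fun a h => List.mem_append_left _ h⟩
      show l1.countP p ≤ w₀
      omega
    | succ j =>
      obtain ⟨b1, b2, b3, b4⟩ := a3 j (by omega)
      exact ⟨b1, b2, b3, fun a h => List.mem_append_right _ (b4 a h)⟩

theorem card_vars_le_length {e : ι → κ} (he : Function.Injective e) :
    ∀ l : List (κ × Bool), (vars e l).card ≤ l.length
  | [] => by simp [vars]
  | a :: l => by
    have h1 := card_vars_append_le e [a] l
    have h2 := card_vars_singleton he a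
    have h3 := card_vars_le_length he l
    simp only [List.singleton_append, List.length_cons] at h1 ⊢
    omega

/-- Tests on block variables outside `X`. -/
def counted (e : ι → κ) (X : Finset κ) (a : κ × Bool) : Bool :=
  decide (a.1 ∉ X ∧ ∃ i, e i = a.1)

theorem card_vars_le {e : ι → κ} (he : Function.Injective e) (X : Finset κ)
    (l : List (κ × Bool)) : (vars e l).card
      ≤ l.countP (counted e X) + (Finset.univ.filter fun i => e i ∈ X).card := by
  rw [List.countP_eq_length_filter]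
  refine le_trans (Finset.card_le_card (t := vars e (l.filter (counted e X)) ∪
    Finset.univ.filter fun i => e i ∈ X) fun i hi => ?_) ((Finset.card_union_le _ _).trans
      (Nat.add_le_add_right (card_vars_le_length he _) _))
  by_cases hX : e i ∈ X
  · exact Finset.mem_union_right _ (by simpa using hX)
  · refine Finset.mem_union_left _ (mem_vars.2 ?_)
    obtain ⟨a, ha, e1⟩ := List.mem_map.1 (mem_vars.1 hi)
    refine List.mem_map.2 ⟨a, List.mem_filter.2 ⟨ha, ?_⟩, e1⟩
    simp only [counted, decide_eq_true_eq]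
    exact ⟨e1 ▸ hX, i, e1.symm⟩

/-- Upper bound on the number of inputs of one block that a small program can accept. -/
theorem bt_block {V : Type*} (W : V → V → List (κ × Bool) → Prop) (hnil : ∀ u, W u u [])
    (hcat : ∀ u v w l1 l2, W u v l1 → W v w l2 → W u w (l1 ++ l2)) (Hd : Finset V)
    (hcut : ∀ u w l1 l2, W u w (l1 ++ l2) → l1 ≠ [] → ∃ v ∈ Hd, W u v l1 ∧ W v w l2)
    (s t : V) {e : ι → κ} (he : Function.Injective e) (ext : (ι → Bool) → κ → Bool)
    (hext : ∀ u u' j, (∀ i, e i = j → u i = u' i) → ext u j = ext u' j)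
    {f : (ι → Bool) → Prop} (hsound : ∀ u l, W s t l → (∀ a ∈ l, ext u a.1 = a.2) → f u)
    {r w₀ w₁ : ℕ} (hr : 0 < r) {Bd : ℝ}
    (hcore : ∀ (Ω : Finset (ι → Bool)) (D : Fin r → (ι → Bool) → Finset ι), Snd f Ω D →
      (∀ j, ∀ x ∈ Ω, (D j x).card ≤ w₀ + w₁) → (Ω.card : ℝ) ≤ Bd)
    (G : Finset (ι → Bool))
    (hG : ∀ u ∈ G, ∃ (l : List (κ × Bool)) (X : Finset κ), W s t l ∧
      (∀ a ∈ l, ext u a.1 = a.2) ∧ l.countP (counted e X) ≤ r * w₀ ∧
      (Finset.univ.filter fun i => e i ∈ X).card ≤ w₁) :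
    (G.card : ℝ) ≤ ((Hd.card : ℝ) + 1) ^ r * Bd := by
  classical
  obtain ⟨r, rfl⟩ : ∃ r', r = r' + 1 := ⟨r - 1, by omega⟩
  have hagree : ∀ (z x : ι → Bool) (l : List (κ × Bool)), (∀ i ∈ vars e l, z i = x i) →
      (∀ a ∈ l, ext x a.1 = a.2) → ∀ a ∈ l, ext z a.1 = a.2 := by
    intro z x l h1 h2 a ha
    rw [← h2 a ha]
    refine hext z x a.1 fun i hi => h1 i (mem_vars.2 ?_)
    rw [hi]; exact List.mem_map_of_mem ha
  have hdata : ∀ u ∈ G, ∃ (v : ℕ → V) (ls : ℕ → List (κ × Bool)), v 0 = s ∧ v (r + 1) = t ∧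
      ∀ j ≤ r, v j ∈ insert s Hd ∧ W (v j) (v (j + 1)) (ls j) ∧
        (vars e (ls j)).card ≤ w₀ + w₁ ∧ ∀ a ∈ ls j, ext u a.1 = a.2 := by
    intro u hu
    obtain ⟨l, X, h1, h2, h3, h4⟩ := hG u hu
    obtain ⟨v, ls, a1, a2, a3⟩ := cut_walk W (insert s Hd) (by
      intro u hu w l1 l2 h
      by_cases hl : l1 = []
      · subst hl; exact ⟨u, hu, hnil u, h⟩
      · obtain ⟨v, hv, h'⟩ := hcut u w l1 l2 h hl
        exact ⟨v, Finset.mem_insert_of_mem hv, h'⟩) (counted e X) w₀ t r s
      (Finset.mem_insert_self _ _) l h1 h3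
    refine ⟨v, ls, a1, a2, fun j hj => ?_⟩
    obtain ⟨b1, b2, b3, b4⟩ := a3 j hj
    exact ⟨b1, b2, (card_vars_le he X _).trans (Nat.add_le_add b3 h4), fun a ha => h2 a (b4 a ha)⟩
  have : Nonempty V := ⟨s⟩
  choose! v ls hv0 hv1 hv2 using hdata
  have hcard := Finset.card_eq_sum_card_fiberwise (f := fun u (j : Fin (r + 1)) => v u j) (s := G)
    (t := Fintype.piFinset fun _ => insert s Hd)
    (fun u hu => Finset.mem_coe.2 (Fintype.mem_piFinset.2 fun j => (hv2 u hu j (by omega)).1))
  have hfib : ∀ τ ∈ Fintype.piFinset fun _ : Fin (r + 1) => insert s Hd,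
      ((G.filter fun u => (fun j : Fin (r + 1) => v u j) = τ).card : ℝ) ≤ Bd := by
    intro τ _
    refine hcore _ (fun j u => vars e (ls u j)) ?_
      fun j x hx => (hv2 x (Finset.mem_filter.1 hx).1 j (by omega)).2.2.1
    intro xs hxs z hz
    have hx := fun j => (Finset.mem_filter.1 (hxs j)).1
    have heq : ∀ j, ∀ m ≤ r + 1, v (xs j) m = v (xs 0) m := by
      intro j m hm
      by_cases h : m = r + 1
      · rw [h, hv1 _ (hx j), hv1 _ (hx 0)]
      · exact congrFun ((Finset.mem_filter.1 (hxs j)).2.trans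
          (Finset.mem_filter.1 (hxs 0)).2.symm) ⟨m, by omega⟩
    have key : ∀ m ≤ r + 1, ∃ l, W s (v (xs 0) m) l ∧ ∀ a ∈ l, ext z a.1 = a.2 := by
      intro m
      induction m with
      | zero => exact fun _ => ⟨[], by rw [hv0 _ (hx 0)]; exact hnil s, by simp⟩
      | succ m ih =>
        intro hm
        obtain ⟨l, h1, h2⟩ := ih (by omega)
        obtain ⟨-, b2, -, b4⟩ := hv2 _ (hx ⟨m, by omega⟩) m (by omega)
        rw [heq _ m (by omega), heq _ (m + 1) hm] at b2
        refine ⟨_, hcat _ _ _ _ _ h1 b2, fun a ha => ?_⟩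
        rcases List.mem_append.1 ha with ha | ha
        · exact h2 a ha
        · exact hagree z _ _ (hz ⟨m, by omega⟩) b4 a ha
    obtain ⟨l, h1, h2⟩ := key (r + 1) le_rfl
    rw [hv1 _ (hx 0)] at h1
    exact hsound z l h1 h2
  have hBd : 0 ≤ Bd := le_trans (by positivity) (hcore ∅ (fun _ _ => ∅)
    (fun xs h => absurd (h 0) (by simp)) (by simp))
  rw [hcard]
  push_cast
  refine (Finset.sum_le_card_nsmul _ _ _ hfib).trans ?_
  rw [nsmul_eq_mul, Fintype.card_piFinset]
  refine mul_le_mul_of_nonneg_right ?_ hBd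
  simp only [Finset.prod_const, Finset.card_univ, Fintype.card_fin]
  push_cast
  refine pow_le_pow_left₀ (by positivity) ?_ _
  exact_mod_cast Finset.card_insert_le s Hd

theorem markov_quarter {B : Type*} [Fintype B] (g : B → ℕ) {R m : ℕ} (h1 : ∑ b, g b ≤ R)
    (h2 : 4 * R ≤ Fintype.card B * m) :
    4 * (Finset.univ.filter fun b => ¬ g b ≤ m).card ≤ Fintype.card B := by
  have h3 : (Finset.univ.filter fun b => ¬ g b ≤ m).card * (m + 1) ≤ ∑ b, g b := by
    rw [← smul_eq_mul]
    refine le_trans (Finset.card_nsmul_le_sum _ g _ fun b hb => ?_)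
      (Finset.sum_le_sum_of_subset (Finset.filter_subset _ _))
    have := (Finset.mem_filter.1 hb).2
    omega
  refine Nat.le_of_mul_le_mul_right ?_ (Nat.succ_pos m)
  have : Fintype.card B * m ≤ Fintype.card B * (m + 1) := Nat.mul_le_mul_left _ (by omega)
  rw [mul_assoc]
  exact (Nat.mul_le_mul_left 4 (h3.trans h1)).trans (h2.trans this)

theorem exists_block {B : Type*} [Fintype B] [DecidableEq B] [Nonempty B]
    (Acc : Finset (B → ι → Bool)) (hdens : Fintype.card (B → ι → Bool) ≤ 4 * Acc.card)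
    (good : (B → ι → Bool) → B → Prop) [∀ y b, Decidable (good y b)]
    (hhalf : ∀ y ∈ Acc, Fintype.card B ≤ 2 * (Finset.univ.filter fun b => good y b).card) :
    ∃ (b : B) (y0 : B → ι → Bool), 2 ^ Fintype.card ι ≤ 8 * (Finset.univ.filter
      fun u : ι → Bool => Function.update y0 b u ∈ Acc.filter fun y => good y b).card := by
  obtain ⟨b, hb⟩ : ∃ b : B, Acc.card ≤ 2 * (Acc.filter fun y => good y b).card := by
    by_contra hcon
    push Not at hcon
    have h1 : ∑ b : B, 2 * (Acc.filter fun y => good y b).card < ∑ _b : B, Acc.card :=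
      Finset.sum_lt_sum_of_nonempty Finset.univ_nonempty fun b _ => hcon b
    have h2 : ∑ y ∈ Acc, Fintype.card B ≤ ∑ y ∈ Acc,
        2 * (Finset.univ.filter fun b : B => good y b).card := Finset.sum_le_sum hhalf
    have h3 : ∑ b : B, 2 * (Acc.filter fun y => good y b).card
        = ∑ y ∈ Acc, 2 * (Finset.univ.filter fun b : B => good y b).card := by
      simp only [← Finset.mul_sum, Finset.card_filter]
      rw [Finset.sum_comm]
    simp only [Finset.sum_const, Finset.card_univ, smul_eq_mul] at h1 h2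
    rw [h3] at h1
    rw [mul_comm] at h2
    omega
  refine ⟨b, ?_⟩
  set Good := Acc.filter fun y => good y b with hGood
  by_contra hcon
  push Not at hcon
  have h1 : ∑ y0 : B → ι → Bool,
      8 * (Finset.univ.filter fun u : ι → Bool => Function.update y0 b u ∈ Good).card
      < ∑ _y0 : B → ι → Bool, 2 ^ Fintype.card ι :=
    Finset.sum_lt_sum_of_nonempty Finset.univ_nonempty fun y _ => hcon y
  rw [← Finset.mul_sum, sum_update_swap] at h1
  have h2 : Fintype.card (ι → Bool) = 2 ^ Fintype.card ι := by simp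
  simp only [Finset.sum_const, Finset.card_univ, smul_eq_mul] at h1
  rw [h2] at h1
  have h3 : Fintype.card (B → ι → Bool) ≤ 8 * Good.card := by omega
  have h4 := Nat.mul_le_mul_right (2 ^ Fintype.card ι) h3
  nlinarith

theorem sum_counted_le {B : Type*} [Fintype B] [DecidableEq B] {E : B → ι → κ}
    (hE : ∀ b i b' i', E b i = E b' i' → b = b' ∧ i = i') (X : Finset κ) :
    ∀ l : List (κ × Bool), ∑ b, l.countP (counted (E b) X)
      ≤ (l.filter fun a => decide (a.1 ∉ X)).length
  | [] => by simp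
  | a :: l => by
    have ih := sum_counted_le hE X l
    simp only [List.countP_cons, Finset.sum_add_distrib, List.filter_cons]
    by_cases hX : a.1 ∈ X
    · simpa [counted, hX] using ih
    · have : ∑ b, (if counted (E b) X a = true then 1 else 0) ≤ 1 := by
        rw [← Finset.card_filter, Finset.card_le_one]
        intro b hb b' hb'
        simp only [counted, Finset.mem_filter, decide_eq_true_eq] at hb hb'
        obtain ⟨i, hi⟩ := hb.2.2
        obtain ⟨i', hi'⟩ := hb'.2.2
        exact (hE b i b' i' (hi.trans hi'.symm)).1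
      simp only [hX, not_false_eq_true, decide_true, if_true, List.length_cons]
      omega

/-- Lower bound for a program computing a function with many hard blocks. -/
theorem bt_blocks {V B : Type*} [Fintype B] [DecidableEq B] [Nonempty B]
    (W : V → V → List (κ × Bool) → Prop) (hnil : ∀ u, W u u [])
    (hcat : ∀ u v w l1 l2, W u v l1 → W v w l2 → W u w (l1 ++ l2)) (Hd : Finset V)
    (hcut : ∀ u w l1 l2, W u w (l1 ++ l2) → l1 ≠ [] → ∃ v ∈ Hd, W u v l1 ∧ W v w l2)
    (s t : V) {E : B → ι → κ} (hE : ∀ b i b' i', E b i = E b' i' → b = b' ∧ i = i')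
    (asm : (B → ι → Bool) → κ → Bool)
    (hasm2 : ∀ y y' j, (∀ b i, E b i = j → y b i = y' b i) → asm y j = asm y' j)
    (F : (κ → Bool) → Prop) [DecidablePred F] {r w₀ w₁ : ℕ} (hr : 0 < r) {Bd : ℝ}
    (hcore : ∀ y b, ∀ (Ω : Finset (ι → Bool)) (D : Fin r → (ι → Bool) → Finset ι),
      Snd (fun u => F (asm (Function.update y b u))) Ω D →
      (∀ j, ∀ x ∈ Ω, (D j x).card ≤ w₀ + w₁) → (Ω.card : ℝ) ≤ Bd)
    (hdens : Fintype.card (B → ι → Bool)
      ≤ 4 * (Finset.univ.filter fun y : B → ι → Bool => F (asm y)).card)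
    (hsound : ∀ x l, W s t l → (∀ a ∈ l, x a.1 = a.2) → F x) (R₀ R₁ : ℕ)
    (hcomp : ∀ x, F x → ∃ l, W s t l ∧ (∀ a ∈ l, x a.1 = a.2) ∧ ∃ X : Finset κ, X.card ≤ R₁ ∧
      (l.filter fun a => decide (a.1 ∉ X)).length ≤ R₀)
    (hR₀ : 4 * R₀ ≤ Fintype.card B * (r * w₀)) (hR₁ : 4 * R₁ ≤ Fintype.card B * w₁) :
    (2 : ℝ) ^ Fintype.card ι ≤ 8 * (((Hd.card : ℝ) + 1) ^ r * Bd) := by
  classical
  set Acc := Finset.univ.filter fun y : B → ι → Bool => F (asm y) with hAcc
  have hch : ∀ y ∈ Acc, ∃ (l : List (κ × Bool)) (X : Finset κ), W s t l ∧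
      (∀ a ∈ l, asm y a.1 = a.2) ∧ X.card ≤ R₁ ∧
        (l.filter fun a => decide (a.1 ∉ X)).length ≤ R₀ := by
    intro y hy
    obtain ⟨l, h1, h2, X, h3⟩ := hcomp _ (Finset.mem_filter.1 hy).2
    exact ⟨l, X, h1, h2, h3⟩
  choose! lw Xw h1 h2 h3 h4 using hch
  obtain ⟨b, y0, hy0⟩ := exists_block Acc hdens
    (fun y b => (lw y).countP (counted (E b) (Xw y)) ≤ r * w₀ ∧
      (Finset.univ.filter fun i => E b i ∈ Xw y).card ≤ w₁) (by
    intro y hy
    have a1 := markov_quarter (fun b => (lw y).countP (counted (E b) (Xw y)))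
      ((sum_counted_le hE _ _).trans (h4 y hy)) hR₀
    have a2 := markov_quarter (fun b => (Finset.univ.filter fun i => E b i ∈ Xw y).card)
      (R := R₁) (by
        refine le_trans ?_ (h3 y hy)
        rw [← Finset.card_sigma]
        refine Finset.card_le_card_of_injOn (fun p => E p.1 p.2) ?_ ?_
        · intro p hp
          simpa using hp
        · rintro ⟨b, i⟩ _ ⟨b', i'⟩ _ h
          obtain ⟨rfl, rfl⟩ := hE b i b' i' h
          rfl) hR₁
    have a3 := Finset.card_filter_add_card_filter_not (s := (Finset.univ : Finset B))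
      (fun b => (lw y).countP (counted (E b) (Xw y)) ≤ r * w₀ ∧
        (Finset.univ.filter fun i => E b i ∈ Xw y).card ≤ w₁)
    simp only [not_and_or, Finset.filter_or, Finset.card_univ] at a3
    have a4 := Finset.card_union_le
      (Finset.univ.filter fun b => ¬ (lw y).countP (counted (E b) (Xw y)) ≤ r * w₀)
      (Finset.univ.filter fun b => ¬ (Finset.univ.filter fun i => E b i ∈ Xw y).card ≤ w₁)
    omega)
  have key := bt_block W hnil hcat Hd hcut s t (e := E b) (fun i i' h => (hE b i b i' h).2)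
    (fun u => asm (Function.update y0 b u)) (by
      intro u u' j h
      refine hasm2 _ _ j fun b' i' h' => ?_
      by_cases hb' : b' = b
      · subst hb'; simpa using h i' h'
      · simp [hb'])
    (f := fun u => F (asm (Function.update y0 b u))) (fun u l h1 h2 => hsound _ l h1 h2) hr
    (hcore y0 b) (by
      intro u hu
      have a1 := Finset.mem_filter.1 (Finset.mem_filter.1 hu).2
      exact ⟨lw _, Xw _, h1 _ a1.1, h2 _ a1.1, a1.2⟩)
    (G := Finset.univ.filter fun u : ι → Bool => Function.update y0 b u ∈ Acc.filter fun y =>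
      (lw y).countP (counted (E b) (Xw y)) ≤ r * w₀ ∧
        (Finset.univ.filter fun i => E b i ∈ Xw y).card ≤ w₁)
  refine le_trans ?_ (mul_le_mul_of_nonneg_left key (by norm_num))
  exact_mod_cast hy0

end Pool.Agent.Lib.MP_8a52c3_lc
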