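import Pool.Agent.Lib.MP_8a52c3_lc.OrcTree

/-! The combinatorial core of one stage of the construction. -/

namespace Pool.Agent.Lib.MP_8a52c3_lc.Orc

open Finset

set_option linter.unusedSectionVars false

def mOf (e C j : ℕ) : ℕ := if j < e then 0 else C ^ j

def rr (σ : ℕ) : ℕ → ℕ
  | 0 => 0
  | i + 1 => 2 * (rr σ i + σ)

theorem rr_mono (σ : ℕ) : Monotone (rr σ) :=
  monotone_nat_of_le_succ fun i => by rw [rr]; omega

theorem rr_step (σ : ℕ) {i i' : ℕ} (h : i < i') : 2 * (rr σ i + σ) ≤ rr σ i' :=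
  rr_mono σ (show i + 1 ≤ i' from h)

theorem rr_le (σ i : ℕ) : rr σ i + 2 * σ ≤ 2 ^ (i + 1) * σ := by
  induction i with
  | zero => simp [rr]
  | succ i ih => rw [rr, pow_succ 2 (i + 1)]; nlinarith

/-- Numerical parameters of a stage. -/
structure Par where
  q : ℕ
  e : ℕ
  τ : ℕ
  t : ℕ
  C : ℕ

namespace Par
variable (p : Par)
def m (j : ℕ) : ℕ := mOf p.e p.C j
def r (j : ℕ) : ℕ := rr (p.τ * p.t + p.t) (p.q - j)
def X : ℕ := p.r 0 + p.C ^ p.q + 1
end Par

section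
variable {U : Type} [Fintype U] [DecidableEq U]

/-- The query set of the tree for a code of priority `j`. -/
noncomputable def treeQ (p : Par) (kind : Bool) (j : ℕ) (D : Bool → Finset U → Prop) (K : ℕ) :
    Finset U → Finset U :=
  if kind then coQ D K (p.m j) (100 * p.X) (p.X + 1) else npQ D K (p.r j)

/-- The output of the tree for a code of priority `j`. -/
noncomputable def treeOut (p : Par) (kind : Bool) (j : ℕ) (D : Bool → Finset U → Prop) (K : ℕ) :
    Finset U → Bool :=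
  if kind then coOut D K (p.m j) (100 * p.X) (p.X + 1) else npOut D K (p.r j)

theorem treeQ_adapt (p : Par) (kind : Bool) (j : ℕ) (D : Bool → Finset U → Prop) (K : ℕ) :
    Adapt (treeQ p kind j D K) := by
  cases kind
  · exact npQ_adapt _ _ _
  · exact coQ_adapt _ _ _ _ _

theorem treeOut_loc (p : Par) (kind : Bool) (j : ℕ) (D : Bool → Finset U → Prop) (K : ℕ)
    (x x' : Finset U) (h : Agree (treeQ p kind j D K x) x x') :
    treeOut p kind j D K x' = treeOut p kind j D K x := by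
  cases kind
  · exact npOut_loc _ _ _ _ _ h
  · exact coOut_loc _ _ _ _ _ _ _ h

theorem treeQ_card (p : Par) (kind : Bool) (j : ℕ) (D : Bool → Finset U → Prop) (K : ℕ)
    (x : Finset U) : (treeQ p kind j D K x).card ≤ ((p.X + 1) * (100 * p.X) + 1 + K) * K := by
  cases kind
  · refine (npQ_card _ _ _ _).trans (Nat.mul_le_mul_right _ (by omega))
  · refine (coQ_card _ _ _ _ _ _).trans ?_
    rw [← Nat.mul_assoc]
    exact Nat.mul_le_mul_right _ (by omega)

/-- Correctness of a code bit. -/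
def GoodBit (kind : Bool) (D : Bool → Prop) (b : Bool) : Prop := if kind then D b else ¬ D b

/-- Violation of the promise. -/
def Viol (kind : Bool) (D : Bool → Prop) : Prop :=
  if kind then ¬ D false ∧ ¬ D true else D false ∧ D true

def Hyp (p : Par) (kind : Bool) (j : ℕ) (D : Bool → Finset U → Prop) (K : ℕ) : Prop :=
  if kind then ∀ P : Finset U, P.card ≤ p.r j → pr (fun B : Fin (p.m j) → U =>
      ¬ (HasCert (D false) K (P ∪ im B) ∨ HasCert (D true) K (P ∪ im B))) ≤ 1 / 5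
  else Conf D K (p.r j)

variable {ι : Type} [DecidableEq ι]

/-- The data and hypotheses of the core lemma. -/
structure Core (U ι : Type) [Fintype U] [DecidableEq U] [DecidableEq ι] where
  p : Par
  d : ℕ
  z : ℕ
  all : Finset ι
  codes : Finset ι
  Q : ι → Finset U → Finset U
  pri : ι → ℕ
  kind : ι → Bool
  D : ι → Bool → Finset U → Prop
  K : ι → ℕ
  hsub : codes ⊆ all
  hadapt : ∀ β ∈ all, Adapt (Q β)
  hd : ∀ β ∈ all, ∀ x, (Q β x).card ≤ d
  hQ : ∀ α ∈ codes, Q α = treeQ p (kind α) (pri α) (D α) (K α)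
  hK : ∀ α ∈ codes, 2 * K α ≤ z
  hpri : ∀ α ∈ codes, pri α < p.q
  hcert : ∀ α ∈ codes, ∀ b x, D α b x → ∃ S ⊆ all, S.card ≤ p.τ ∧
    Cert (D α b) (K α) x (S.biUnion fun β => Q β x)
  hC : 1 ≤ p.C
  hd1 : 1 ≤ d
  n1 : (all.card : ℝ) * ((d : ℝ) * (p.C ^ p.q : ℕ) / Fintype.card U) ^ p.t ≤ 1 / 20
  n2 : (all.card : ℝ) * (p.t * ((d : ℝ) ^ p.t * (9 / 10) ^ p.C)) ≤ 1 / 20
  n3 : (z : ℝ) * (((p.C ^ p.q : ℕ) : ℝ) / Fintype.card U) ≤ 1 / 2

namespace Core
variable (c : Core U ι)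

def Good (α : ι) (x : Finset U) : Prop :=
  GoodBit (c.kind α) (fun b => c.D α b x) (treeOut c.p (c.kind α) (c.pri α) (c.D α) (c.K α) x)

def NoKill : Prop :=
  ∀ α ∈ c.codes, ∀ x : Finset U, (c.p.e ≤ c.pri α → x.Nonempty) →
    (∀ β ∈ c.codes, c.pri β < c.pri α → c.Good β x) → ¬ Viol (c.kind α) (fun b => c.D α b x)

theorem lemA [Nonempty U] (j : ℕ) (hj : j ≤ c.p.q)
    (hH : ∀ α ∈ c.codes, c.pri α < j → Hyp c.p (c.kind α) (c.pri α) (c.D α) (c.K α))
    (P₀ : Finset U) (hP : P₀.card ≤ c.p.r j) (M : ℕ) (hM : M ≤ c.p.C ^ c.p.q)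
    (hM' : ∀ j' < j, c.p.C * c.p.m j' ≤ M) :
    pr (fun y : Fin M → U => ¬ ∀ α ∈ c.codes, c.pri α < j → c.Good α (P₀ ∪ im y)) ≤ 1 / 10 := by
  classical
  have hr0 : c.p.r j ≤ c.p.r 0 := rr_mono _ (by omega)
  have hX : P₀.card + M + 1 ≤ c.p.X := by unfold Par.X; omega
  let Long : (Fin M → U) → Prop := fun y =>
    ∃ β ∈ c.all, ∃ P' ∈ chains (c.Q β) P₀ c.p.t, P' ⊆ P₀ ∪ im y
  let Leaf : ι → Finset U → (Fin M → U) → Prop := fun α P y =>
    P ⊆ P₀ ∪ im y ∧ (P₀ ∪ im y) ∩ heavy (c.D α) (c.K α) (c.p.m (c.pri α)) (100 * c.p.X) P ⊆ P ∧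
      ¬ c.D α (coBit (c.D α) (c.K α) (c.p.m (c.pri α)) P) (P₀ ∪ im y)
  let act := c.codes.filter fun α => c.pri α < j ∧ c.kind α = true
  have h1 : pr Long ≤ 1 / 20 := by
    refine (pr_exists_le _ _ (((c.d : ℝ) * (c.p.C ^ c.p.q : ℕ) / Fintype.card U) ^ c.p.t)
      ?_).trans c.n1
    intro β hβ
    refine (pr_long_chain (c.Q β) c.d c.p.t M P₀ (c.hd β hβ)).trans ?_
    have : (M : ℝ) ≤ (c.p.C ^ c.p.q : ℕ) := by exact_mod_cast hM
    gcongr
  have h2 : pr (fun y => ∃ α ∈ act, ∃ s ∈ range c.p.t, ∃ P' ∈ chains (c.Q α) P₀ s,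
      Leaf α (P' ∩ c.Q α P') y) ≤ 1 / 20 := by
    refine (pr_exists_le _ _ (c.p.t * ((c.d : ℝ) ^ c.p.t * (9 / 10) ^ c.p.C)) ?_).trans
      (le_trans ?_ c.n2)
    · intro α hα
      obtain ⟨hα1, hα2, hα3⟩ := mem_filter.1 hα
      refine (pr_exists_le _ _ ((c.d : ℝ) ^ c.p.t * (9 / 10) ^ c.p.C) ?_).trans (by simp)
      intro s hs
      have hs' := mem_range.1 hs
      refine (pr_exists_le _ _ ((9 / 10) ^ c.p.C) ?_).trans ?_
      · intro P' hP'
        apply co_leaf _ _ _ _ _ _ _ _ (by omega) (hM' _ hα2) (by omega)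
        have hh := hH α hα1 hα2
        rw [hα3] at hh
        apply hh
        have e1 := (chains_spec _ _ _ P' hP').2
        have e2 := card_le_card (inter_subset_left (s₁ := P') (s₂ := c.Q α P'))
        have e3 : 2 * (c.p.r j + (c.p.τ * c.p.t + c.p.t)) ≤ c.p.r (c.pri α) :=
          rr_step _ (by omega)
        omega
      · apply mul_le_mul_of_nonneg_right _ (by positivity)
        have := (chains_card (c.Q α) P₀ c.d (c.hd α (c.hsub hα1)) s).trans
          (Nat.pow_le_pow_right c.hd1 hs'.le)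
        exact_mod_cast this
    · apply mul_le_mul_of_nonneg_right _ (by positivity)
      exact_mod_cast card_le_card ((filter_subset _ _).trans c.hsub)
  refine le_trans (pr_mono (F := fun y => Long y ∨ ∃ α ∈ act, ∃ s ∈ range c.p.t,
    ∃ P' ∈ chains (c.Q α) P₀ s, Leaf α (P' ∩ c.Q α P') y) ?_) ((pr_or _ _).trans (by linarith))
  intro y hbad
  by_cases hL : Long y
  · exact Or.inl hL
  right
  have hshort : ∀ β ∈ c.all, ∃ s < c.p.t, ∃ P' ∈ chains (c.Q β) P₀ s, P' ⊆ P₀ ∪ im y ∧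
      (P₀ ∪ im y) ∩ c.Q β (P₀ ∪ im y) = P' ∩ c.Q β P' := by
    intro β hβ
    rcases chains_dichotomy (c.Q β) P₀ (P₀ ∪ im y) subset_union_left c.p.t with h | h
    · exact absurd ⟨β, hβ, h⟩ hL
    · obtain ⟨s, hs, P', h1, h2, h3⟩ := h
      exact ⟨s, hs, P', h1, h2, by rw [c.hadapt β hβ _ _ h3, h3.inter_eq]⟩
  simp only [not_forall] at hbad
  obtain ⟨α, hα, hpr, hbad⟩ := hbad
  have hh := hH α hα hpr
  have e3 : 2 * (c.p.r j + (c.p.τ * c.p.t + c.p.t)) ≤ c.p.r (c.pri α) := rr_step _ (by omega)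
  cases hk : c.kind α
  · exfalso
    apply hbad
    rw [hk] at hh
    unfold Good
    rw [hk]
    apply np_correct hh
    intro b hb
    obtain ⟨S, hS1, hS2, hS3⟩ := c.hcert α hα b _ hb
    refine ⟨_, hS3, ?_⟩
    have hsub : (P₀ ∪ im y) ∩ (S.biUnion fun β => c.Q β (P₀ ∪ im y)) ⊆
        P₀ ∪ S.biUnion fun β => ((P₀ ∪ im y) ∩ c.Q β (P₀ ∪ im y)) \ P₀ := by
      intro u hu
      obtain ⟨hu1, hu2⟩ := mem_inter.1 hu
      obtain ⟨β, hβ, hu2⟩ := mem_biUnion.1 hu2
      by_cases h : u ∈ P₀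
      · exact mem_union_left _ h
      · exact mem_union_right _ (mem_biUnion.2 ⟨β, hβ, mem_sdiff.2 ⟨mem_inter.2 ⟨hu1, hu2⟩, h⟩⟩)
    have hc1 := (card_le_card hsub).trans (card_union_le _ _)
    have hc2 : (S.biUnion fun β => ((P₀ ∪ im y) ∩ c.Q β (P₀ ∪ im y)) \ P₀).card ≤
        S.card * c.p.t := by
      apply card_biUnion_le_card_mul
      intro β hβ
      obtain ⟨s, hs, P', h1, _, h3⟩ := hshort β (hS1 hβ)
      obtain ⟨h4, h5⟩ := chains_spec _ _ _ P' h1
      rw [h3]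
      have := card_le_card (sdiff_subset_sdiff (inter_subset_left (s₁ := P') (s₂ := c.Q β P'))
        (Subset.refl P₀))
      rw [card_sdiff_of_subset h4] at this
      omega
    have := Nat.mul_le_mul_right c.p.t hS2
    omega
  · obtain ⟨s, hs, P', h1, h2, h3⟩ := hshort α (c.hsub hα)
    refine ⟨α, mem_filter.2 ⟨hα, hpr, hk⟩, s, mem_range.2 hs, P', h1, ?_⟩
    have hQ : c.Q α = coQ (c.D α) (c.K α) (c.p.m (c.pri α)) (100 * c.p.X) (c.p.X + 1) := by
      rw [c.hQ α hα, hk]; rfl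
    rw [← h3]
    refine ⟨inter_subset_left, ?_, ?_⟩
    · rw [hQ]
      apply coQ_stab
      have := card_union_le P₀ (im y)
      have := im_card y
      omega
    · intro hD
      apply hbad
      unfold Good
      rw [hk]
      rw [hQ] at hD
      exact hD

theorem m_le (j : ℕ) (hj : j ≤ c.p.q) : c.p.m j ≤ c.p.C ^ c.p.q := by
  unfold Par.m mOf
  split_ifs
  · omega
  · exact Nat.pow_le_pow_right c.hC hj

theorem m_step {j j' : ℕ} (hj : j' < j) : c.p.C * c.p.m j' ≤ c.p.m j := by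
  unfold Par.m mOf
  split_ifs with h1 h2 h2
  · omega
  · omega
  · omega
  · rw [← pow_succ']; exact Nat.pow_le_pow_right c.hC hj

theorem im_nonempty {M : ℕ} (hM : 1 ≤ M) (y : Fin M → U) (P : Finset U) :
    (P ∪ im y).Nonempty :=
  ⟨y ⟨0, hM⟩, mem_union_right _ (mem_image_of_mem _ (mem_univ _))⟩

theorem m_pos {j : ℕ} (hj : c.p.e ≤ j) : 1 ≤ c.p.m j := by
  unfold Par.m mOf
  rw [if_neg (by omega)]
  exact Nat.one_le_pow _ _ c.hC

theorem exists_good [Nonempty U] (j : ℕ) (hj : j ≤ c.p.q)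
    (hH : ∀ α ∈ c.codes, c.pri α < j → Hyp c.p (c.kind α) (c.pri α) (c.D α) (c.K α))
    (P₀ : Finset U) (hP : P₀.card ≤ c.p.r j) (M : ℕ) (hM : M ≤ c.p.C ^ c.p.q)
    (hM' : ∀ j' < j, c.p.C * c.p.m j' ≤ M) (Z : Finset U) (hZ : Z.card ≤ c.z) :
    ∃ y : Fin M → U, (∀ u ∈ Z, u ∉ im y) ∧ ∀ α ∈ c.codes, c.pri α < j → c.Good α (P₀ ∪ im y) := by
  have h1 := c.lemA j hj hH P₀ hP M hM hM'
  have h2 : pr (fun y : Fin M → U => ∃ u ∈ Z, u ∈ im y) ≤ 1 / 2 := by
    refine (pr_hit (I := Fin M) Z).trans (le_trans ?_ c.n3)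
    have a1 : (Z.card : ℝ) ≤ c.z := by exact_mod_cast hZ
    have a2 : (Fintype.card (Fin M) : ℝ) ≤ (c.p.C ^ c.p.q : ℕ) := by
      rw [Fintype.card_fin]; exact_mod_cast hM
    gcongr
  obtain ⟨y, hy⟩ := exists_not_of_pr_lt_one (lt_of_le_of_lt (pr_or
    (fun y : Fin M → U => ¬ ∀ α ∈ c.codes, c.pri α < j → c.Good α (P₀ ∪ im y))
    (fun y : Fin M → U => ∃ u ∈ Z, u ∈ im y)) (by linarith))
  rw [not_or, not_not] at hy
  exact ⟨y, fun u hu h => hy.2 ⟨u, hu, h⟩, hy.1⟩

theorem lemB [Nonempty U] (hN : c.NoKill) (j : ℕ) :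
    ∀ α ∈ c.codes, c.pri α < j → Hyp c.p (c.kind α) (c.pri α) (c.D α) (c.K α) := by
  induction j with
  | zero => intro α _ h; omega
  | succ j ih =>
    intro α hα hlt
    rcases Nat.lt_succ_iff_lt_or_eq.1 hlt with h | h
    · exact ih α hα h
    have hq := (c.hpri α hα).le
    subst h
    have hN' := hN α hα
    cases hk : c.kind α
    · rw [hk] at hN'
      intro x₀ c₀ x₁ c₁ h₀ h₁
      by_contra hno
      push Not at hno
      have hP : ((x₀ ∩ c₀) ∪ (x₁ ∩ c₁)).card ≤ c.p.r (c.pri α) := by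
        have := card_union_le (x₀ ∩ c₀) (x₁ ∩ c₁)
        have := h₀.2
        have := h₁.2
        omega
      obtain ⟨y, hy1, hy2⟩ := c.exists_good (c.pri α) hq ih _ hP (c.p.m (c.pri α))
        (c.m_le _ hq) (fun j' hj' => c.m_step hj') (c₀ ∪ c₁) (by
          have := card_union_le c₀ c₁
          have := h₀.1.1
          have := h₁.1.1
          have := c.hK α hα
          omega)
      apply hN' _ (fun he => im_nonempty (c.m_pos he) y _) hy2
      refine ⟨h₁.1.2 _ ?_, h₀.1.2 _ ?_⟩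
      · intro u hu
        have := hy1 u (mem_union_right _ hu)
        simp only [mem_union, mem_inter, this, or_false, hu, and_true]
        constructor
        · rintro (⟨h1, h2⟩ | h1)
          · exact (hno u h2 hu).1 h1
          · exact h1
        · exact Or.inr
      · intro u hu
        have := hy1 u (mem_union_left _ hu)
        simp only [mem_union, mem_inter, this, or_false, hu, and_true]
        constructor
        · rintro (h1 | ⟨h1, h2⟩)
          · exact h1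
          · exact (hno u hu h2).2 h1
        · exact Or.inl
    · rw [hk] at hN'
      intro P hP
      refine le_trans (pr_mono ?_) ((c.lemA (c.pri α) hq ih P hP (c.p.m (c.pri α))
        (c.m_le _ hq) (fun j' hj' => c.m_step hj')).trans (by norm_num))
      intro y hy hg
      apply hN' _ (fun he => im_nonempty (c.m_pos he) y _) hg
      constructor
      · intro hD
        obtain ⟨S, _, _, h⟩ := c.hcert α hα _ _ hD
        exact hy (Or.inl ⟨_, h⟩)
      · intro hD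
        obtain ⟨S, _, _, h⟩ := c.hcert α hα _ _ hD
        exact hy (Or.inr ⟨_, h⟩)

theorem good_avoid [Nonempty U] (hN : c.NoKill) (Z : Finset U) (hZ : Z.card ≤ c.z) :
    ∃ x : Finset U, x.Nonempty ∧ (∀ u ∈ Z, u ∉ x) ∧ ∀ α ∈ c.codes, c.Good α x := by
  obtain ⟨y, hy1, hy2⟩ := c.exists_good c.p.q le_rfl (c.lemB hN _) ∅ (by simp) (c.p.C ^ c.p.q)
    le_rfl (fun j' hj' => by
      unfold Par.m mOf
      split_ifs
      · omega
      · rw [← pow_succ']; exact Nat.pow_le_pow_right c.hC hj') Z hZ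
  refine ⟨∅ ∪ im y, im_nonempty (Nat.one_le_pow _ _ c.hC) y _, by simpa using hy1,
    fun α hα => hy2 α hα (c.hpri α hα)⟩

theorem good_empty [Nonempty U] (hN : c.NoKill) :
    ∀ α ∈ c.codes, c.pri α < c.p.e → c.Good α ∅ := by
  obtain ⟨y, _, hy2⟩ := c.exists_good (min c.p.e c.p.q) (min_le_right _ _) (c.lemB hN _) ∅
    (by simp) 0 (Nat.zero_le _) (fun j' hj' => by
      unfold Par.m mOf
      rw [if_pos (by omega)]; omega) ∅ (by simp)
  intro α hα h
  have := hy2 α hα (by have := c.hpri α hα; omega)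
  simpa [im] using this

end Core
end

end Pool.Agent.Lib.MP_8a52c3_lc.Orc
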