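import Pool.Agent.Lib.MP_8a52c3_lc.OrcProg
import Pool.Agent.Lib.MP_8a52c3_lc.OrcCore

/-! Auxiliary facts: growth estimates, short strings, recursion on length, verifiers. -/

namespace Pool.Agent.Lib.MP_8a52c3_lc.Orc

open Finset

/-- Polynomially bounded functions, in a form convenient for quasi-polynomial estimates. -/
def QB (f : ℕ → ℕ) : Prop := ∃ c, ∀ n, f n ≤ 2 ^ (c * (Nat.log 2 (n + 1) + 1))

theorem QB.const (k : ℕ) : QB fun _ => k :=
  ⟨k, fun n => (Nat.lt_two_pow_self (n := k)).le.trans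
    (Nat.pow_le_pow_right (by omega) (by nlinarith))⟩

theorem QB.id : QB fun n => n :=
  ⟨1, fun n => by
    have := Nat.lt_pow_succ_log_self (b := 2) (by omega) (n + 1)
    rw [one_mul]; show n ≤ _; omega⟩

theorem QB.mul {f g : ℕ → ℕ} (hf : QB f) (hg : QB g) : QB fun n => f n * g n := by
  obtain ⟨a, ha⟩ := hf
  obtain ⟨b, hb⟩ := hg
  refine ⟨a + b, fun n => ?_⟩
  rw [add_mul, pow_add]
  exact Nat.mul_le_mul (ha n) (hb n)

theorem QB.add {f g : ℕ → ℕ} (hf : QB f) (hg : QB g) : QB fun n => f n + g n := by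
  obtain ⟨a, ha⟩ := hf
  obtain ⟨b, hb⟩ := hg
  refine ⟨a + b + 1, fun n => ?_⟩
  have h1 : 2 ^ (a * (Nat.log 2 (n + 1) + 1)) ≤ 2 ^ ((a + b) * (Nat.log 2 (n + 1) + 1)) :=
    Nat.pow_le_pow_right (by omega) (Nat.mul_le_mul_right _ (by omega))
  have h2 : 2 ^ (b * (Nat.log 2 (n + 1) + 1)) ≤ 2 ^ ((a + b) * (Nat.log 2 (n + 1) + 1)) :=
    Nat.pow_le_pow_right (by omega) (Nat.mul_le_mul_right _ (by omega))
  have h3 : 2 ^ ((a + b) * (Nat.log 2 (n + 1) + 1) + 1) ≤
      2 ^ ((a + b + 1) * (Nat.log 2 (n + 1) + 1)) :=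
    Nat.pow_le_pow_right (by omega) (by nlinarith)
  have := ha n
  have := hb n
  rw [pow_succ] at h3
  show f n + g n ≤ _
  omega

theorem QB.pow {f : ℕ → ℕ} (hf : QB f) (k : ℕ) : QB fun n => f n ^ k := by
  obtain ⟨a, ha⟩ := hf
  refine ⟨a * k, fun n => ?_⟩
  rw [mul_right_comm, pow_mul]
  exact Nat.pow_le_pow_left (ha n) k

theorem QB.le {f g : ℕ → ℕ} (hg : QB g) (h : ∀ n, f n ≤ g n) : QB f := by
  obtain ⟨a, ha⟩ := hg
  exact ⟨a, fun n => (h n).trans (ha n)⟩

theorem pow_four_le (s : ℕ) (hs : 17 ≤ s) : (s + 1) ^ 4 ≤ 2 ^ s := by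
  induction s, hs using Nat.le_induction with
  | base => norm_num
  | succ s hs ih =>
    rw [pow_succ 2 s]
    have : (s + 1 + 1) ^ 4 ≤ (s + 1) ^ 4 * 2 := by
      obtain ⟨u, rfl⟩ : ∃ u, s = u + 17 := ⟨s - 17, by omega⟩
      ring_nf
      nlinarith [Nat.zero_le u, Nat.zero_le (u ^ 2), Nat.zero_le (u ^ 3), Nat.zero_le (u ^ 4)]
    omega

theorem exists_big {f Φ τ : ℕ → ℕ} (hf : QB f) (hΦ : QB Φ) (hτ : QB τ) (L : ℕ) :
    ∃ n, L ≤ n ∧ f n * Φ n ^ (Nat.log 2 (τ n) ^ 2) ≤ 2 ^ n := by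
  obtain ⟨a, ha⟩ := hf
  obtain ⟨b, hb⟩ := hΦ
  obtain ⟨c, hc⟩ := hτ
  set s := 17 + L + a + b * c ^ 2 with hs
  have h4 := pow_four_le s (by omega)
  have hpos : 1 ≤ 2 ^ s := Nat.one_le_two_pow
  have hlog : Nat.log 2 (2 ^ s - 1 + 1) = s := by
    rw [Nat.sub_add_cancel hpos, Nat.log_pow (by omega)]
  have h5 : (a + b * c ^ 2 + L + 1) * (s + 1) ^ 3 ≤ (s + 1) ^ 4 := by
    rw [pow_succ' (s + 1) 3]; exact Nat.mul_le_mul_right _ (by omega)
  have h6 : 1 ≤ (s + 1) ^ 3 := Nat.one_le_pow _ _ (by omega)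
  have h7 : s + 1 ≤ (s + 1) ^ 3 := Nat.le_self_pow (by omega) _
  have h8 : (a + b * c ^ 2 + L + 1) * 1 ≤ (a + b * c ^ 2 + L + 1) * (s + 1) ^ 3 :=
    Nat.mul_le_mul_left _ h6
  refine ⟨2 ^ s - 1, by omega, ?_⟩
  have a1 := ha (2 ^ s - 1)
  have b1 := hb (2 ^ s - 1)
  have c1 := hc (2 ^ s - 1)
  rw [hlog] at a1 b1 c1
  have c2 : Nat.log 2 (τ (2 ^ s - 1)) ≤ c * (s + 1) := by
    have := Nat.log_mono_right (b := 2) c1
    rwa [Nat.log_pow (by omega)] at this
  have d1 : Φ (2 ^ s - 1) ^ (Nat.log 2 (τ (2 ^ s - 1)) ^ 2) ≤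
      (2 ^ (b * (s + 1))) ^ ((c * (s + 1)) ^ 2) :=
    (Nat.pow_le_pow_left b1 _).trans
      (Nat.pow_le_pow_right (Nat.one_le_two_pow) (Nat.pow_le_pow_left c2 2))
  refine (Nat.mul_le_mul a1 d1).trans ?_
  rw [← pow_mul, ← pow_add]
  apply Nat.pow_le_pow_right (by omega)
  have e : b * (s + 1) * (c * (s + 1)) ^ 2 = b * c ^ 2 * (s + 1) ^ 3 := by ring
  rw [e]
  have := Nat.mul_le_mul_left a h7
  have e2 : (a + b * c ^ 2 + L + 1) * (s + 1) ^ 3 =
      a * (s + 1) ^ 3 + b * c ^ 2 * (s + 1) ^ 3 + L * (s + 1) ^ 3 + (s + 1) ^ 3 := by ring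
  omega

/-- All strings of length below `n`. -/
def short : ℕ → Finset (List Bool)
  | 0 => ∅
  | n + 1 => insert [] ((short n).image (List.cons false) ∪ (short n).image (List.cons true))

theorem short_card (n : ℕ) : (short n).card + 1 ≤ 2 ^ n := by
  induction n with
  | zero => simp [short]
  | succ n ih =>
    rw [short]
    have h1 := card_insert_le ([] : List Bool)
      ((short n).image (List.cons false) ∪ (short n).image (List.cons true))
    have h2 := card_union_le ((short n).image (List.cons false)) ((short n).image (List.cons true))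
    have h3 := card_image_le (s := short n) (f := List.cons false)
    have h4 := card_image_le (s := short n) (f := List.cons true)
    rw [pow_succ]
    omega

theorem mem_short (n : ℕ) (α : List Bool) : α ∈ short n ↔ α.length < n := by
  induction n generalizing α with
  | zero => simp [short]
  | succ n ih =>
    cases α with
    | nil => simp [short]
    | cons b α => cases b <;> simp [short, ih]

theorem exists_fix {X : Type} (Ψ : (X → List Bool → Bool) → List Bool → X → Bool)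
    (hΨ : ∀ α B B', (∀ x β, β.length < α.length → B x β = B' x β) → Ψ B α = Ψ B' α) :
    ∃ A : X → List Bool → Bool, ∀ x α, A x α = Ψ A α x := by
  let F : ℕ → X → List Bool → Bool := fun l =>
    Nat.rec (fun _ _ => false) (fun _ B x α => Ψ B α x) l
  have key : ∀ k l l', k ≤ l → k ≤ l' → ∀ x (α : List Bool), α.length < k →
      F l x α = F l' x α := by
    intro k
    induction k with
    | zero => intro _ _ _ _ _ _ h; omega
    | succ k ih =>
      intro l l' hl hl' x α hα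
      obtain ⟨l, rfl⟩ : ∃ m, l = m + 1 := ⟨l - 1, by omega⟩
      obtain ⟨l', rfl⟩ : ∃ m, l' = m + 1 := ⟨l' - 1, by omega⟩
      show Ψ (F l) α x = Ψ (F l') α x
      rw [hΨ α (F l) (F l') fun x β hβ => ih l l' (by omega) (by omega) x β (by omega)]
  refine ⟨fun x α => F (α.length + 1) x α, fun x α => ?_⟩
  show Ψ (F α.length) α x = _
  rw [hΨ α (F α.length) (fun x α => F (α.length + 1) x α)
    fun x β hβ => key (β.length + 1) _ _ (by omega) le_rfl x β (by omega)]

/-- A clocked verifier: program, time exponent, witness exponent. -/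
abbrev Ver := List Instr × ℕ × ℕ

def Sol (B : List Bool → Bool) (V : Ver) (v z : List Bool) : Prop :=
  z.length ≤ v.length ^ V.2.2 + V.2.2 ∧
    (run B V.1 v z ((v.length + z.length) ^ V.2.1 + V.2.1)).2 0 = [true]

def Acc (B : List Bool → Bool) (V : Ver) (v : List Bool) : Prop := ∃ z, Sol B V v z

def tm (V : Ver) (n : ℕ) : ℕ :=
  (n + (n ^ V.2.2 + V.2.2)) + ((n + (n ^ V.2.2 + V.2.2)) ^ V.2.1 + V.2.1)

theorem tm_mono (V : Ver) {n n' : ℕ} (h : n ≤ n') : tm V n ≤ tm V n' := by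
  unfold tm
  have h1 := Nat.pow_le_pow_left h V.2.2
  have h2 := Nat.pow_le_pow_left (show n + (n ^ V.2.2 + V.2.2) ≤ n' + (n' ^ V.2.2 + V.2.2) by omega)
    V.2.1
  omega

theorem QB.tm (V : Ver) {f : ℕ → ℕ} (hf : QB f) : QB fun n => tm V (f n) :=
  (hf.add ((hf.pow _).add (QB.const _))).add
    (((hf.add ((hf.pow _).add (QB.const _))).pow _).add (QB.const _))

theorem sol_local {B : List Bool → Bool} {V : Ver} {v z : List Bool} (h : Sol B V v z) :
    ∃ S : Finset (List Bool), S.card ≤ tm V v.length ∧ (∀ α ∈ S, α.length ≤ tm V v.length) ∧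
      ∀ B' : List Bool → Bool, (∀ α ∈ S, B' α = B α) → Sol B' V v z := by
  obtain ⟨S, h1, h2, h3⟩ := run_local B V.1 v z ((v.length + z.length) ^ V.2.1 + V.2.1)
  have h4 := h.1
  have h5 := Nat.pow_le_pow_left
    (show v.length + z.length ≤ v.length + (v.length ^ V.2.2 + V.2.2) by omega) V.2.1
  refine ⟨S, h1.trans (by unfold tm; omega), fun α hα => (h2 α hα).trans (by unfold tm; omega),
    fun B' hB' => ⟨h.1, ?_⟩⟩
  rw [h3 B' hB']
  exact h.2

theorem acc_of_agree {B B' : List Bool → Bool} {V : Ver} {v : List Bool}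
    (hB : ∀ α : List Bool, α.length ≤ tm V v.length → B' α = B α) (h : Acc B V v) : Acc B' V v := by
  obtain ⟨z, hz⟩ := h
  obtain ⟨S, _, h2, h3⟩ := sol_local hz
  exact ⟨z, h3 B' fun α hα => hB α (h2 α hα)⟩

theorem acc_congr {B B' : List Bool → Bool} {V : Ver} {v : List Bool}
    (hB : ∀ α : List Bool, α.length ≤ tm V v.length → B' α = B α) : Acc B' V v ↔ Acc B V v :=
  ⟨acc_of_agree fun α h => (hB α h).symm, acc_of_agree hB⟩

theorem npRel_ver {A : List Bool → Bool} {S : List Bool → List Bool → Prop} (h : NPRel A S) :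
    ∃ V : Ver, ∀ x y, S x y ↔ Sol A V x y := by
  obtain ⟨g, k', ⟨M, k, hM⟩, hS⟩ := h
  refine ⟨(M, k, k'), fun x y => ?_⟩
  rw [hS, Sol, (hM x y).2]

theorem inNP_ver {A : List Bool → Bool} {L : Set (List Bool)} (h : InNP A L) :
    ∃ V : Ver, ∀ x, x ∈ L ↔ Acc A V x := by
  obtain ⟨S, hS, hL⟩ := h
  obtain ⟨V, hV⟩ := npRel_ver hS
  exact ⟨V, fun x => by simp only [hL, Acc, hV]⟩

instance : Countable Instr := by
  let f : Instr → ℕ × ℕ × ℕ × ℕ × ℕ × Bool
    | Instr.push i b l => (0, i, l, 0, 0, b)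
    | Instr.pop i a b c => (1, i, a, b, c, false)
    | Instr.query i a b => (2, i, a, b, 0, false)
    | Instr.halt => (3, 0, 0, 0, 0, false)
  have : Function.Injective f := by
    intro a b h
    cases a <;> cases b <;> simp_all [f]
  exact this.countable

end Pool.Agent.Lib.MP_8a52c3_lc.Orc
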