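import Mathlib

/-! Elementary counting lemmas (uniform probability on finite types). -/

namespace Pool.Agent.Lib.MP_8a52c3_lc.Orc

open Finset

open Classical in
/-- Uniform probability of an event on a finite type. -/
noncomputable def pr {Ω : Type} [Fintype Ω] (E : Ω → Prop) : ℝ :=
  ((univ.filter E).card : ℝ) / (Fintype.card Ω : ℝ)

section basic
variable {Ω : Type} [Fintype Ω]

theorem pr_nonneg (E : Ω → Prop) : 0 ≤ pr E := by
  unfold pr; positivity

theorem pr_mono {E F : Ω → Prop} (h : ∀ ω, E ω → F ω) : pr E ≤ pr F := by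
  classical
  unfold pr
  apply div_le_div_of_nonneg_right _ (by positivity)
  exact_mod_cast card_le_card (fun ω => by simpa using h ω)

theorem pr_congr {E F : Ω → Prop} (h : ∀ ω, E ω ↔ F ω) : pr E = pr F :=
  le_antisymm (pr_mono fun ω => (h ω).1) (pr_mono fun ω => (h ω).2)

theorem pr_or (E F : Ω → Prop) : pr (fun ω => E ω ∨ F ω) ≤ pr E + pr F := by
  classical
  unfold pr
  rw [← add_div]
  apply div_le_div_of_nonneg_right _ (by positivity)
  have : (univ.filter fun ω => E ω ∨ F ω) ⊆ univ.filter E ∪ univ.filter F := by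
    intro ω; simp
  have h := (card_le_card this).trans (card_union_le _ _)
  have h' : (((univ.filter fun ω => E ω ∨ F ω).card : ℕ) : ℝ) ≤
      ((univ.filter E).card : ℝ) + ((univ.filter F).card : ℝ) := by exact_mod_cast h
  convert h'; rfl

theorem pr_false : pr (fun _ : Ω => False) = 0 := by
  unfold pr; simp

theorem pr_exists {ι : Type} (s : Finset ι) (E : ι → Ω → Prop) :
    pr (fun ω => ∃ i ∈ s, E i ω) ≤ ∑ i ∈ s, pr (E i) := by
  classical
  induction s using Finset.induction_on with
  | empty => simp [pr_false]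
  | insert a s ha ih =>
    rw [sum_insert ha]
    refine le_trans (pr_mono (F := fun ω => E a ω ∨ ∃ i ∈ s, E i ω) ?_) ?_
    · intro ω ⟨i, hi, h⟩
      rcases mem_insert.1 hi with rfl | hi
      · exact Or.inl h
      · exact Or.inr ⟨i, hi, h⟩
    · exact (pr_or _ _).trans (by linarith)

theorem pr_exists_le {ι : Type} (s : Finset ι) (E : ι → Ω → Prop) (p : ℝ)
    (h : ∀ i ∈ s, pr (E i) ≤ p) : pr (fun ω => ∃ i ∈ s, E i ω) ≤ s.card * p := by
  refine (pr_exists s E).trans ?_
  have := sum_le_card_nsmul s (fun i => pr (E i)) p h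
  simpa using this

theorem pr_true [Nonempty Ω] : pr (fun _ : Ω => True) = 1 := by
  unfold pr
  have : (Fintype.card Ω : ℝ) ≠ 0 := by exact_mod_cast Fintype.card_ne_zero
  simp [this]

theorem pr_le_one (E : Ω → Prop) : pr E ≤ 1 := by
  classical
  unfold pr
  apply div_le_one_of_le₀ _ (by positivity)
  exact_mod_cast card_le_univ _

theorem exists_not_of_pr_lt_one [Nonempty Ω] {E : Ω → Prop} (h : pr E < 1) : ∃ ω, ¬ E ω := by
  by_contra hc
  push Not at hc
  have := pr_mono (E := fun _ : Ω => True) (F := E) fun ω _ => hc ω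
  rw [pr_true] at this
  linarith

theorem one_le_pr_add [Nonempty Ω] (E : Ω → Prop) : 1 ≤ pr E + pr (fun ω => ¬ E ω) := by
  rw [← pr_true (Ω := Ω)]
  exact (pr_mono fun ω _ => em (E ω)).trans (pr_or _ _)

theorem pr_add_le_one (E : Ω → Prop) : pr E + pr (fun ω => ¬ E ω) ≤ 1 := by
  classical
  unfold pr
  rw [← add_div]
  apply div_le_one_of_le₀ _ (by positivity)
  have h := card_filter_add_card_filter_not (s := (univ : Finset Ω)) E
  have h2 : ((univ.filter E).card + (univ.filter fun ω => ¬ E ω).card : ℝ) = Fintype.card Ω := by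
    exact_mod_cast h
  convert h2.le

theorem pr_equiv {Ω' : Type} [Fintype Ω'] (e : Ω ≃ Ω') (E : Ω' → Prop) :
    pr (fun ω => E (e ω)) = pr E := by
  classical
  unfold pr
  rw [Fintype.card_congr e]
  congr 2
  exact card_equiv e (by simp)

theorem pr_eq_sum (E : Ω → Prop) [DecidablePred E] :
    pr E = (∑ ω, if E ω then (1 : ℝ) else 0) / Fintype.card Ω := by
  unfold pr
  congr 1
  rw [sum_boole]
  congr

theorem pr_prod {α β : Type} [Fintype α] [Fintype β] (E : α × β → Prop) :
    pr E = (∑ a, pr (fun b => E (a, b))) / Fintype.card α := by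
  classical
  simp only [pr_eq_sum]
  rw [Fintype.sum_prod_type, ← sum_div, Fintype.card_prod]
  push_cast
  rw [div_div, mul_comm]

theorem pr_prod_le {α β : Type} [Fintype α] [Fintype β] (E : α × β → Prop) (p : ℝ)
    (hp : 0 ≤ p) (h : ∀ a, pr (fun b => E (a, b)) ≤ p) : pr E ≤ p := by
  rw [pr_prod]
  rcases Nat.eq_zero_or_pos (Fintype.card α) with h0 | h0
  · simp [h0, hp]
  · rw [div_le_iff₀ (by exact_mod_cast h0)]
    have := sum_le_card_nsmul univ (fun a => pr (fun b => E (a, b))) p fun a _ => h a
    simpa [mul_comm] using this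

theorem pr_fst {α β : Type} [Fintype α] [Fintype β] [Nonempty β] (E : α → Prop) :
    pr (fun ω : α × β => E ω.1) = pr E := by
  classical
  rw [pr_prod, pr_eq_sum]
  congr 1
  refine sum_congr rfl fun a _ => ?_
  by_cases h : E a
  · simp [h, pr_true]
  · simp [h, pr_false]

end basic

section seq
variable {ι β : Type} [Fintype ι] [DecidableEq ι] [Fintype β] [Nonempty β]

/-- The involution exchanging a coordinate with a fresh sample. -/
def swapCoord (c : ι) : (ι → β) × β ≃ (ι → β) × β where
  toFun := fun z => (Function.update z.1 c z.2, z.1 c)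
  invFun := fun z => (Function.update z.1 c z.2, z.1 c)
  left_inv := fun z => by simp
  right_inv := fun z => by simp

theorem pr_step (c : ι) (E A : (ι → β) → Prop) (p : ℝ)
    (hE : ∀ ω b, E (Function.update ω c b) → E ω)
    (hA : ∀ ω, pr (fun b => A (Function.update ω c b)) ≤ p) :
    pr (fun ω => E ω ∧ A ω) ≤ p * pr E := by
  classical
  have hp : 0 ≤ p := (pr_nonneg _).trans (hA (Classical.arbitrary _))
  rw [← pr_fst (β := β), ← pr_equiv (swapCoord c), pr_prod, pr_eq_sum E, ← mul_div_assoc]
  apply div_le_div_of_nonneg_right _ (by positivity)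
  rw [mul_sum]
  refine sum_le_sum fun ω _ => ?_
  by_cases h : E ω
  · simp only [h, if_true, mul_one]
    exact (pr_mono fun b hb => hb.2).trans (hA ω)
  · simp only [h, if_false, mul_zero]
    rw [← pr_false (Ω := β)]
    exact pr_mono fun b hb => h (hE ω b hb.1)

theorem pr_seq [LinearOrder ι] (A : ι → (ι → β) → Prop) (p : ℝ)
    (hind : ∀ c c', c < c' → ∀ ω b, A c (Function.update ω c' b) → A c ω)
    (hA : ∀ c ω, pr (fun b => A c (Function.update ω c b)) ≤ p) (S : Finset ι) :
    pr (fun ω => ∀ c ∈ S, A c ω) ≤ p ^ S.card := by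
  induction S using Finset.induction_on_max with
  | empty => simpa using pr_le_one _
  | insert a s ha ih =>
    have hp : 0 ≤ p := (pr_nonneg _).trans (hA a (Classical.arbitrary _))
    have hna : a ∉ s := fun h => lt_irrefl _ (ha a h)
    rw [card_insert_of_notMem hna, pow_succ']
    refine le_trans (pr_mono (F := fun ω => (∀ c ∈ s, A c ω) ∧ A a ω) ?_) ?_
    · intro ω h
      exact ⟨fun c hc => h c (mem_insert_of_mem hc), h a (mem_insert_self _ _)⟩
    · refine (pr_step a _ _ p ?_ (hA a)).trans (mul_le_mul_of_nonneg_left ih hp)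
      intro ω b h c hc
      exact hind c a (ha c hc) ω b (h c hc)

theorem pr_seq' [LinearOrder ι] (A : ι → (ι → β) → Prop) (p : ℝ)
    (hind : ∀ c c', c' < c → ∀ ω b, A c (Function.update ω c' b) → A c ω)
    (hA : ∀ c ω, pr (fun b => A c (Function.update ω c b)) ≤ p) (S : Finset ι) :
    pr (fun ω => ∀ c ∈ S, A c ω) ≤ p ^ S.card := by
  induction S using Finset.induction_on_min with
  | empty => simpa using pr_le_one _
  | insert a s ha ih =>
    have hp : 0 ≤ p := (pr_nonneg _).trans (hA a (Classical.arbitrary _))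
    have hna : a ∉ s := fun h => lt_irrefl _ (ha a h)
    rw [card_insert_of_notMem hna, pow_succ']
    refine le_trans (pr_mono (F := fun ω => (∀ c ∈ s, A c ω) ∧ A a ω) ?_) ?_
    · intro ω h
      exact ⟨fun c hc => h c (mem_insert_of_mem hc), h a (mem_insert_self _ _)⟩
    · refine (pr_step a _ _ p ?_ (hA a)).trans (mul_le_mul_of_nonneg_left ih hp)
      intro ω b h c hc
      exact hind c a (ha c hc) ω b (h c hc)

end seq

section points
variable {U I : Type} [Fintype U] [DecidableEq U] [Nonempty U] [Fintype I] [DecidableEq I]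

omit [DecidableEq U] in
theorem pr_point (u : U) : pr (fun b : U => b = u) ≤ 1 / Fintype.card U := by
  classical
  unfold pr
  apply div_le_div_of_nonneg_right _ (by positivity)
  have : (univ.filter fun b : U => b = u) ⊆ {u} := by intro b; simp
  have h := card_le_card this
  simp only [card_singleton] at h
  convert (Nat.cast_le (α := ℝ)).2 h
  simp

theorem pr_subset_image (F : Finset U) : ∀ J : Finset I,
    pr (fun y : I → U => F ⊆ J.image y) ≤
      ((Fintype.card I : ℝ) / Fintype.card U) ^ F.card := by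
  induction F using Finset.induction_on with
  | empty => intro J; simpa using pr_le_one _
  | insert u F hu ih =>
    intro J
    rw [card_insert_of_notMem hu, pow_succ']
    refine le_trans (pr_mono (F := fun y => ∃ i ∈ J, (F ⊆ (J.erase i).image y ∧ y i = u)) ?_) ?_
    · intro y h
      obtain ⟨i, hi, hy⟩ := mem_image.1 (h (mem_insert_self _ _))
      refine ⟨i, hi, fun v hv => ?_, hy⟩
      obtain ⟨i', hi', hy'⟩ := mem_image.1 (h (mem_insert_of_mem hv))
      refine mem_image.2 ⟨i', mem_erase.2 ⟨?_, hi'⟩, hy'⟩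
      rintro rfl
      exact hu (hy ▸ hy' ▸ hv)
    · have hq : 0 ≤ ((Fintype.card I : ℝ) / Fintype.card U) ^ F.card := by positivity
      refine (pr_exists_le J _ ((1 / Fintype.card U) *
        ((Fintype.card I : ℝ) / Fintype.card U) ^ F.card) ?_).trans ?_
      · intro i _
        refine (pr_step i _ _ (1 / Fintype.card U) ?_ ?_).trans
          (mul_le_mul_of_nonneg_left (ih _) (by positivity))
        · intro y b h v hv
          obtain ⟨i', hi', hy'⟩ := mem_image.1 (h hv)
          refine mem_image.2 ⟨i', hi', ?_⟩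
          rwa [Function.update_of_ne (mem_erase.1 hi').1] at hy'
        · intro y
          simpa using pr_point u
      · rw [← mul_assoc]
        apply mul_le_mul_of_nonneg_right _ hq
        rw [mul_one_div]
        apply div_le_div_of_nonneg_right _ (by positivity)
        exact_mod_cast card_le_univ J

theorem pr_hit (Z : Finset U) :
    pr (fun y : I → U => ∃ u ∈ Z, u ∈ univ.image y) ≤
      Z.card * ((Fintype.card I : ℝ) / Fintype.card U) := by
  refine pr_exists_le Z _ _ fun u _ => ?_
  have := pr_subset_image (I := I) ({u} : Finset U) univ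
  simp only [card_singleton, pow_one] at this
  refine le_trans (pr_mono ?_) this
  intro y hy
  simpa using hy

end points

section amplify
variable {U β : Type} [DecidableEq U] [Fintype β] [Nonempty β]

theorem le_mul_of_le_sq {p a b : ℝ} (ha : 0 ≤ a) (hb : 0 ≤ b) (h1 : p ≤ a ^ 2) (h2 : p ≤ b ^ 2) :
    p ≤ a * b := by
  rcases le_total a b with h | h
  · nlinarith
  · nlinarith

/-- Amplification over `C` independent blocks. -/
theorem pr_amplify (C m X : ℕ) (sup lt : β → Finset U) (good : β → Prop) (P : Finset U)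
    (hsup : ∀ B, (sup B).card ≤ m) (hX : P.card + C * m ≤ X)
    (hlt : ∀ Z : Finset U, Z.card ≤ X → pr (fun B => ∃ u ∈ lt B, u ∈ Z) ≤ 1 / 100)
    (hgood : pr (fun B => ¬ good B) ≤ 3 / 5) :
    pr (fun ω : Fin C → β => ∀ c, ¬ good (ω c) ∨
      ∃ u ∈ lt (ω c), u ∈ P ∨ ∃ c', c' ≠ c ∧ u ∈ sup (ω c')) ≤ (9 / 10) ^ C := by
  classical
  let fwd : Fin C → (Fin C → β) → Prop := fun c ω =>
    ∃ u ∈ lt (ω c), u ∈ (univ.filter fun c' => c < c').biUnion fun c' => sup (ω c')
  let bck : Fin C → (Fin C → β) → Prop := fun c ω => ¬ good (ω c) ∨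
    ∃ u ∈ lt (ω c), u ∈ P ∪ (univ.filter fun c' => c' < c).biUnion fun c' => sup (ω c')
  have hcard : ∀ (s : Finset (Fin C)) (ω : Fin C → β),
      (s.biUnion fun c' => sup (ω c')).card ≤ C * m := by
    intro s ω
    refine (card_biUnion_le_card_mul s _ m fun c _ => hsup _).trans ?_
    exact Nat.mul_le_mul_right _ (by simpa using card_le_univ s)
  have hupd : ∀ (s : Finset (Fin C)) (ω : Fin C → β) (c : Fin C) (b : β), c ∉ s →
      (s.biUnion fun c' => sup (Function.update ω c b c')) = s.biUnion fun c' => sup (ω c') := by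
    intro s ω c b hc
    refine biUnion_congr rfl fun c' hc' => ?_
    rw [Function.update_of_ne (fun h : c' = c => hc (h ▸ hc'))]
  have h1 : ∀ S : Finset (Fin C), pr (fun ω => ∀ c ∈ S, fwd c ω) ≤ (1 / 100) ^ S.card := by
    apply pr_seq' fwd
    · intro c c' hc ω b h
      simp only [fwd] at h ⊢
      rwa [Function.update_of_ne hc.ne', hupd _ _ _ _ (by simp [hc.le])] at h
    · intro c ω
      simp only [fwd]
      simp only [Function.update_self, hupd _ ω c _ (show c ∉ univ.filter fun c' => c < c' by simp)]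
      exact hlt _ ((hcard _ _).trans (by omega))
  have h2 : ∀ S : Finset (Fin C), pr (fun ω => ∀ c ∈ S, bck c ω) ≤ (16 / 25) ^ S.card := by
    apply pr_seq bck
    · intro c c' hc ω b h
      simp only [bck] at h ⊢
      rwa [Function.update_of_ne hc.ne, hupd _ _ _ _ (by simp [hc.le])] at h
    · intro c ω
      simp only [bck]
      simp only [Function.update_self, hupd _ ω c _ (show c ∉ univ.filter fun c' => c' < c by simp)]
      refine (pr_or _ _).trans ?_
      have := hlt (P ∪ (univ.filter fun c' => c' < c).biUnion fun c' => sup (ω c'))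
        ((card_union_le _ _).trans (by have := hcard (univ.filter fun c' => c' < c) ω; omega))
      linarith
  refine le_trans (pr_mono (F := fun ω => ∃ S ∈ (univ : Finset (Fin C)).powerset,
    (∀ c ∈ S, fwd c ω) ∧ ∀ c ∈ univ \ S, bck c ω) ?_) ?_
  · intro ω h
    refine ⟨univ.filter fun c => fwd c ω, by simp, fun c hc => (mem_filter.1 hc).2, ?_⟩
    intro c hc
    have hc' : ¬ fwd c ω := by simpa using hc
    rcases h c with h | ⟨u, hu, h⟩
    · exact Or.inl h
    · refine Or.inr ⟨u, hu, ?_⟩
      rcases h with h | ⟨c', hne, h⟩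
      · exact mem_union_left _ h
      · rcases lt_or_gt_of_ne hne with hl | hl
        · exact mem_union_right _ (mem_biUnion.2 ⟨c', by simp [hl], h⟩)
        · exact absurd ⟨u, hu, mem_biUnion.2 ⟨c', by simp [hl], h⟩⟩ hc'
  · refine (pr_exists _ _).trans ?_
    have e : ((9 : ℝ) / 10) ^ C = (1 / 10 + 4 / 5) ^ (univ : Finset (Fin C)).card := by
      simp; norm_num
    rw [e, ← sum_pow_mul_eq_add_pow]
    refine sum_le_sum fun S hS => ?_
    apply le_mul_of_le_sq (by positivity) (by positivity)
    · refine le_trans (pr_mono fun ω h => h.1) ((h1 S).trans (le_of_eq ?_))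
      rw [← pow_mul, mul_comm, pow_mul]; norm_num
    · refine le_trans (pr_mono fun ω h => h.2) ((h2 _).trans (le_of_eq ?_))
      rw [card_sdiff_of_subset (mem_powerset.1 hS), ← pow_mul, mul_comm, pow_mul]; norm_num

end amplify

end Pool.Agent.Lib.MP_8a52c3_lc.Orc
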