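import Pool.Agent.Lib.MP_8a52c3_lc.OrcStep

/-! Assembly of the oracle from its stages. -/

namespace Pool.Agent.Lib.MP_8a52c3_lc.Orc

open Finset

def eOf (i : ℕ) : ℕ := (Nat.unpair (Nat.sqrt i)).1
def sOf (i : ℕ) : ℕ := (Nat.unpair (Nat.unpair (Nat.sqrt i)).2).1
def kOf (i : ℕ) : ℕ := (Nat.unpair (Nat.unpair (Nat.sqrt i)).2).2

theorem exists_oracle (E : ℕ → Req) (Cd : ℕ → Ver) (Rd : ℕ → Red) :
    ∃ (A : List Bool → Bool) (L : ℕ → ℕ), L 0 = 0 ∧ StrictMono L ∧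
      ∀ i, StageOK E (Cd (eOf i)) (Rd (kOf i)) (Nat.sqrt i) (eOf i) (Nat.pair (eOf i) (sOf i))
        (L i) (L (i + 1)) A := by
  choose nσ nL h1 h2 h3 using fun (i L : ℕ) (σ : List Bool → Bool) =>
    stage E (Cd (eOf i)) (Rd (kOf i)) (Nat.sqrt i) (eOf i) (Nat.pair (eOf i) (sOf i)) L σ
  let st : ℕ → (List Bool → Bool) × ℕ := fun i =>
    Nat.rec (fun _ => false, 0) (fun i s => (nσ i s.2 s.1, nL i s.2 s.1)) i
  have hmono : StrictMono fun i => (st i).2 :=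
    strictMono_nat_of_lt_succ fun i => h1 i (st i).2 (st i).1
  have hagree : ∀ i j, i ≤ j → ∀ α : List Bool, α.length < (st i).2 → (st j).1 α = (st i).1 α := by
    intro i j hij
    induction j, hij using Nat.le_induction with
    | base => intro _ _; rfl
    | succ j hij ih =>
      intro α hα
      rw [← ih α hα]
      exact h2 j (st j).2 (st j).1 α (lt_of_lt_of_le hα (hmono.monotone hij))
  refine ⟨fun α => (st (α.length + 1)).1 α, fun i => (st i).2, rfl, hmono, fun i => ?_⟩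
  refine (h3 i (st i).2 (st i).1).congr (h1 i (st i).2 (st i).1).le fun α hα => ?_
  have hl : α.length < (st (α.length + 1)).2 := hmono.id_le (α.length + 1)
  rcases le_total (i + 1) (α.length + 1) with h | h
  · exact hagree _ _ h α hα
  · exact (hagree _ _ h α hl).symm

theorem find_stage {L : ℕ → ℕ} (hL : StrictMono L) (i₀ l : ℕ) (h : L i₀ ≤ l) :
    ∃ i, i₀ ≤ i ∧ L i ≤ l ∧ l < L (i + 1) := by
  have hex : ∃ k, l < L (i₀ + k + 1) := ⟨l, by have := hL.id_le (i₀ + l + 1); simp at this; omega⟩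
  classical
  refine ⟨i₀ + Nat.find hex, by omega, ?_, Nat.find_spec hex⟩
  rcases Nat.eq_zero_or_pos (Nat.find hex) with h0 | h0
  · rw [h0]; exact h
  · have := Nat.find_min hex (show Nat.find hex - 1 < Nat.find hex by omega)
    have e : i₀ + (Nat.find hex - 1) + 1 = i₀ + Nat.find hex := by omega
    rw [e] at this
    omega

theorem settle (D : ℕ → ℕ → Prop) (hD : ∀ j i i', i ≤ i' → D j i → D j i') (m : ℕ) :
    ∃ i₀, ∀ i, i₀ ≤ i → ∀ j < m, D j (i + 1) → D j i := by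
  induction m with
  | zero => exact ⟨0, fun _ _ _ h => absurd h (Nat.not_lt_zero _)⟩
  | succ m ih =>
    obtain ⟨i₀, h⟩ := ih
    by_cases hm : ∃ i, D m i
    · obtain ⟨i₁, h1⟩ := hm
      refine ⟨max i₀ i₁, fun i hi j hj => ?_⟩
      rcases Nat.lt_succ_iff_lt_or_eq.1 hj with hj | rfl
      · exact h i (le_of_max_le_left hi) j hj
      · exact fun _ => hD _ _ _ (le_of_max_le_right hi) h1
    · refine ⟨i₀, fun i hi j hj => ?_⟩
      rcases Nat.lt_succ_iff_lt_or_eq.1 hj with hj | rfl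
      · exact h i hi j hj
      · exact fun h' => absurd ⟨_, h'⟩ hm

theorem quiet (D : ℕ → ℕ → Prop) (hD : ∀ j i i', i ≤ i' → D j i → D j i') (q a : ℕ) :
    ∃ i, a ≤ i ∧ i ≤ a + q ∧ ∀ j < q, D j (i + 1) → D j i := by
  by_contra hc
  push Not at hc
  choose! f hf1 hf2 hf3 using hc
  have hmaps : ∀ i ∈ Icc a (a + q), f i ∈ range q := fun i hi =>
    mem_range.2 (hf1 i (mem_Icc.1 hi).1 (mem_Icc.1 hi).2)
  obtain ⟨i, hi, i', hi', hne, he⟩ := exists_ne_map_eq_of_card_lt_of_maps_to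
    (by simp; omega) hmaps
  obtain ⟨a1, a2⟩ := mem_Icc.1 hi
  obtain ⟨b1, b2⟩ := mem_Icc.1 hi'
  rcases lt_or_gt_of_ne hne with h | h
  · exact hf3 i' b1 b2 (he ▸ hD _ _ _ h (hf2 i a1 a2))
  · exact hf3 i a1 a2 (he ▸ hD _ _ _ h (hf2 i' b1 b2))

theorem QB.poly {f : ℕ → ℕ} (h : QB f) : ∃ s c, ∀ n, f n ≤ s * (n + 1) ^ c := by
  obtain ⟨c, hc⟩ := h
  refine ⟨2 ^ c, c, fun n => (hc n).trans ?_⟩
  rw [mul_comm c, pow_mul, ← mul_pow]
  apply Nat.pow_le_pow_left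
  have := Nat.pow_log_le_self 2 (show n + 1 ≠ 0 by omega)
  rw [pow_succ]; omega

section
variable {E : ℕ → Req} {Cd : ℕ → Ver} {Rd : ℕ → Red} {A : List Bool → Bool} {L : ℕ → ℕ}
  (hL : StrictMono L)
  (hS : ∀ i, StageOK E (Cd (eOf i)) (Rd (kOf i)) (Nat.sqrt i) (eOf i) (Nat.pair (eOf i) (sOf i))
    (L i) (L (i + 1)) A)
include hL hS

theorem pair_part (j : ℕ) (hj : ∀ w, ¬ Viol (E j).1 (fun b => Acc A (sel (E j) b) w)) :
    ∃ S, InP A S ∧ ∀ w, ∃ b : Bool, (w ∈ S ↔ b = true) ∧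
      GoodBit (E j).1 (fun b => Acc A (sel (E j) b) w) b := by
  obtain ⟨i₁, h₁⟩ := settle (fun j i => DeadP E A (L i) j)
    (fun _ _ _ h hd => hd.mono (hL.monotone h) fun _ _ => rfl) j
  obtain ⟨i₂, h₂⟩ := settle (fun e i => DeadC (Cd e) A (L i))
    (fun _ _ _ h hd => hd.mono (hL.monotone h) fun _ _ => rfl) (j + 1)
  set i₀ := i₁ + i₂ + (j + 1) * (j + 1) with hi₀
  have qp : QB fun n => ptm (E j) n := ((QB.id.tm _).add (QB.id.tm _)).add (QB.const 4)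
  obtain ⟨s, c, hsc⟩ := ((qp.pow 2).add (QB.const (L i₀ + 1))).poly
  refine ⟨{w | A (adr (s * (w.length + 1) ^ c) j w.reverse) = true},
    ⟨_, padder_FP1 A j s c, fun w => by simp⟩, fun w => ⟨_, Iff.rfl, ?_⟩⟩
  set α := adr (s * (w.length + 1) ^ c) j w.reverse with hα
  have hd : dec α = (s * (w.length + 1) ^ c, j, w.reverse) := dec_adr _ _ _
  have e1 : cj α = j := by unfold cj; rw [hd]
  have e2 : cw α = w := by unfold cw; rw [hd]; simp
  have hl : s * (w.length + 1) ^ c ≤ α.length := by rw [hα, adr_length]; omega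
  have hb := hsc w.length
  have hcode : IsCode E α := ⟨by rw [hd]; show 1 ≤ s * (w.length + 1) ^ c; omega, by
    unfold cT; rw [e1, e2]; omega⟩
  obtain ⟨i, a1, a2, a3⟩ := find_stage hL i₀ α.length (by omega)
  have hq : j + 1 ≤ Nat.sqrt i := Nat.le_sqrt.2 (by omega)
  have := (hS i).1 j hq (fun ⟨w, _, h⟩ => hj w h) (h₁ i (by omega))
    (fun he => h₂ i (by omega) _ (by omega)) α hcode e1 a2 a3
  unfold GoodAt at this
  rwa [e1, e2] at this

theorem tfnp_part (hL0 : L 0 = 0) (hCd : Function.Surjective Cd) (hRd : Function.Surjective Rd) :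
    ¬ ∃ T, IsTFNP A T ∧ ∀ S, IsTFNP A S → Reduces A S T := by
  rintro ⟨T, ⟨hT1, hT2⟩, hT⟩
  obtain ⟨V, hV⟩ := npRel_ver hT1
  obtain ⟨e, rfl⟩ := hCd V
  have hnd : ∀ l, ¬ DeadC (Cd e) A l := by
    rintro l ⟨v, _, h⟩
    obtain ⟨y, hy⟩ := hT2 v
    exact h ⟨y, (hV _ _).1 hy⟩
  have hmono : ∀ j i i', i ≤ i' → DeadP E A (L i) j → DeadP E A (L i') j :=
    fun _ _ _ h hd => hd.mono (hL.monotone h) fun _ _ => rfl
  obtain ⟨s, hs⟩ := settle (fun j i => DeadP E A (L i) j) hmono e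
  have hSt : IsTFNP A fun x y =>
      y.length ≤ x.length ^ 1 + 1 ∧ [A (xadr (Nat.pair e s) x.length y)] = [true] := by
    refine ⟨⟨_, 1, tester_FP2 A (Nat.pair e s), fun _ _ => Iff.rfl⟩, fun x => ?_⟩
    obtain ⟨i, _, a2, a3⟩ := find_stage hL 0 (xadr (Nat.pair e s) x.length []).length (by omega)
    obtain ⟨u, u1, _, u3⟩ := (hS i).2.1 _ _ a2 a3 (fun h => by
      obtain ⟨h1, h2⟩ := Nat.pair_eq_pair.1 h
      have b1 : sOf i ≤ i := by
        unfold sOf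
        exact (Nat.unpair_left_le _).trans ((Nat.unpair_right_le _).trans (Nat.sqrt_le_self i))
      rw [← h1]
      exact ⟨hs i (by omega), fun h => absurd h (hnd _)⟩)
    exact ⟨u, by simpa using u1, by rw [u3]⟩
  obtain ⟨f, g, ⟨Mf, kf, hf⟩, ⟨Mg, kg, hg⟩, hred⟩ := hT _ hSt
  obtain ⟨k, hk⟩ := hRd ((Mf, kf), (Mg, kg))
  set q := Nat.pair e (Nat.pair s k) with hq
  obtain ⟨i, i1, i2, i3⟩ := quiet (fun j i => DeadP E A (L i) j) hmono q (q * q)
  have hsq : Nat.sqrt i = q := (Nat.eq_sqrt.2 ⟨i1, by nlinarith⟩).symm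
  have b1 : eOf i = e := by simp [eOf, hsq, hq]
  have b2 : sOf i = s := by simp [sOf, hsq, hq]
  have b3 : kOf i = k := by simp [kOf, hsq, hq]
  have := (hS i).2.2
  rw [b1, b2, b3, hsq, hk] at this
  obtain ⟨w, z, h⟩ := this i3 (hnd _)
  obtain ⟨h1, h2⟩ := h A fun _ _ => rfl
  have ef : fout A ((Mf, kf), (Mg, kg)) w = f w := (hf w).2
  have eg : gout A ((Mf, kf), (Mg, kg)) w z = g w z := (hg w z).2
  rw [ef] at h1
  rw [eg] at h2
  have := hred w z ((hV _ _).2 h1)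
  exact h2 ⟨by simpa using this.1, by simpa using this.2⟩

end

theorem main : ∃ A : List Bool → Bool,
    (∀ B₀ B₁ : Set (List Bool), InNP A B₀ᶜ → InNP A B₁ᶜ → Disjoint B₀ B₁ → PSeparable A B₀ B₁) ∧
    (∀ B₀ B₁ : Set (List Bool), InNP A B₀ → InNP A B₁ → Disjoint B₀ B₁ → PSeparable A B₀ B₁) ∧
    ¬ ∃ T, IsTFNP A T ∧ ∀ S, IsTFNP A S → Reduces A S T := by
  obtain ⟨E, hE⟩ := exists_surjective_nat Req
  obtain ⟨Cd, hCd⟩ := exists_surjective_nat Ver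
  obtain ⟨Rd, hRd⟩ := exists_surjective_nat Red
  obtain ⟨A, L, hL0, hL, hS⟩ := exists_oracle E Cd Rd
  refine ⟨A, ?_, ?_, tfnp_part hL hS hL0 hCd hRd⟩
  · intro B₀ B₁ h₀ h₁ hd
    obtain ⟨V₀, hV₀⟩ := inNP_ver h₀
    obtain ⟨V₁, hV₁⟩ := inNP_ver h₁
    obtain ⟨j, hj⟩ := hE (true, V₀, V₁)
    obtain ⟨S, hS1, hS2⟩ := pair_part hL hS j (by
      intro w h
      rw [hj] at h
      obtain ⟨a, b⟩ : ¬ Acc A V₀ w ∧ ¬ Acc A V₁ w := h
      rw [← hV₀, Set.mem_compl_iff, not_not] at a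
      rw [← hV₁, Set.mem_compl_iff, not_not] at b
      exact Set.disjoint_left.1 hd a b)
    rw [hj] at hS2
    refine ⟨S, hS1, fun w hw => ?_, Set.disjoint_left.2 fun w hw hw' => ?_⟩
    · obtain ⟨b, hb1, hb2⟩ := hS2 w
      cases b
      · exact absurd hw ((hV₀ w).2 hb2)
      · exact hb1.2 rfl
    · obtain ⟨b, hb1, hb2⟩ := hS2 w
      rw [hb1.1 hw] at hb2
      exact (hV₁ w).2 hb2 hw'
  · intro B₀ B₁ h₀ h₁ hd
    obtain ⟨V₀, hV₀⟩ := inNP_ver h₀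
    obtain ⟨V₁, hV₁⟩ := inNP_ver h₁
    obtain ⟨j, hj⟩ := hE (false, V₀, V₁)
    obtain ⟨S, hS1, hS2⟩ := pair_part hL hS j (by
      intro w h
      rw [hj] at h
      obtain ⟨a, b⟩ : Acc A V₀ w ∧ Acc A V₁ w := h
      exact Set.disjoint_left.1 hd ((hV₀ w).2 a) ((hV₁ w).2 b))
    rw [hj] at hS2
    refine ⟨S, hS1, fun w hw => ?_, Set.disjoint_left.2 fun w hw hw' => ?_⟩
    · obtain ⟨b, hb1, hb2⟩ := hS2 w
      cases b
      · exact absurd ((hV₀ w).1 hw) hb2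
      · exact hb1.2 rfl
    · obtain ⟨b, hb1, hb2⟩ := hS2 w
      rw [hb1.1 hw] at hb2
      exact hb2 ((hV₁ w).1 hw')

end Pool.Agent.Lib.MP_8a52c3_lc.Orc
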