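import Mathlib

/-!
Oracle stack machines (a finite program acting on finitely many binary stacks, with a query
instruction) and the relativised classes FP, P, NP, TFNP.
-/

namespace Pool.Agent.Lib.MP_8a52c3_lc.Orc

/-- One instruction of an oracle stack machine; the last arguments are jump targets. -/
inductive Instr : Type
  | push (i : ℕ) (b : Bool) (l : ℕ) : Instr
  | pop (i : ℕ) (l₀ l₁ l₂ : ℕ) : Instr
  | query (i : ℕ) (l₀ l₁ : ℕ) : Instr
  | halt : Instr

/-- One step of program `M` with oracle `A` on a configuration (program counter, stacks). -/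
def step (A : List Bool → Bool) (M : List Instr) (c : ℕ × (ℕ → List Bool)) :
    ℕ × (ℕ → List Bool) :=
  match M.getD c.1 Instr.halt with
  | Instr.push i b l => (l, Function.update c.2 i (b :: c.2 i))
  | Instr.pop i l₀ l₁ l₂ =>
    match c.2 i with
    | [] => (l₀, c.2)
    | false :: s => (l₁, Function.update c.2 i s)
    | true :: s => (l₂, Function.update c.2 i s)
  | Instr.query i l₀ l₁ => (if A (c.2 i) = true then l₁ else l₀, c.2)
  | Instr.halt => c

/-- The configuration after `t` steps, started with `x` on stack 0 and `y` on stack 1. -/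
def run (A : List Bool → Bool) (M : List Instr) (x y : List Bool) (t : ℕ) :
    ℕ × (ℕ → List Bool) :=
  (step A M)^[t] (0, fun i => if i = 0 then x else if i = 1 then y else [])

/-- On input `(x, y)` the machine has halted after `t` steps with `z` on stack 0. -/
def Outputs (A : List Bool → Bool) (M : List Instr) (x y : List Bool) (t : ℕ)
    (z : List Bool) : Prop :=
  M.getD (run A M x y t).1 Instr.halt = Instr.halt ∧ (run A M x y t).2 0 = z

/-- One-argument functions computable in polynomial time with oracle `A`. -/
def FP1 (A : List Bool → Bool) (f : List Bool → List Bool) : Prop :=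
  ∃ (M : List Instr) (k : ℕ), ∀ x, Outputs A M x [] (x.length ^ k + k) (f x)

/-- Two-argument functions computable in polynomial time with oracle `A`. -/
def FP2 (A : List Bool → Bool) (g : List Bool → List Bool → List Bool) : Prop :=
  ∃ (M : List Instr) (k : ℕ), ∀ x y, Outputs A M x y ((x.length + y.length) ^ k + k) (g x y)

/-- The class P relative to `A`. -/
def InP (A : List Bool → Bool) (L : Set (List Bool)) : Prop :=
  ∃ f, FP1 A f ∧ ∀ x, x ∈ L ↔ f x = [true]

/-- Polynomially balanced relations checkable in polynomial time relative to `A`. -/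
def NPRel (A : List Bool → Bool) (S : List Bool → List Bool → Prop) : Prop :=
  ∃ g k, FP2 A g ∧ ∀ x y, S x y ↔ (y.length ≤ x.length ^ k + k ∧ g x y = [true])

/-- The class NP relative to `A`. -/
def InNP (A : List Bool → Bool) (L : Set (List Bool)) : Prop :=
  ∃ S, NPRel A S ∧ ∀ x, x ∈ L ↔ ∃ y, S x y

/-- Total NP search problems relative to `A`. -/
def IsTFNP (A : List Bool → Bool) (S : List Bool → List Bool → Prop) : Prop :=
  NPRel A S ∧ ∀ x, ∃ y, S x y

/-- Many-one reduction of search problems relative to `A`. -/
def Reduces (A : List Bool → Bool) (S T : List Bool → List Bool → Prop) : Prop :=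
  ∃ f g, FP1 A f ∧ FP2 A g ∧ ∀ x y, T (f x) y → S x (g x y)

/-- The pair `(B₀, B₁)` is separated by a set in P relative to `A`. -/
def PSeparable (A : List Bool → Bool) (B₀ B₁ : Set (List Bool)) : Prop :=
  ∃ L, InP A L ∧ B₀ ⊆ L ∧ Disjoint L B₁

end Pool.Agent.Lib.MP_8a52c3_lc.Orc
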