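import Pool.Agent.Lib.MP_8a52c3_lc.OrcModel

/-! Basic facts on runs: locality with respect to the oracle, and small programs. -/

namespace Pool.Agent.Lib.MP_8a52c3_lc.Orc

abbrev Cfg := ℕ × (ℕ → List Bool)

theorem step_len (B : List Bool → Bool) (M : List Instr) (c : Cfg) (l : ℕ)
    (h : ∀ i, (c.2 i).length ≤ l) : ∀ i, ((step B M c).2 i).length ≤ l + 1 := by
  intro i
  unfold step
  split
  · rename_i j b l' _
    by_cases hij : i = j
    · subst hij; simp; exact h i
    · simp [Function.update_of_ne hij]; exact (h i).trans (Nat.le_succ _)
  · rename_i j l₀ l₁ l₂ _
    split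
    · exact (h i).trans (Nat.le_succ _)
    · rename_i s hs
      by_cases hij : i = j
      · subst hij
        have := h i
        rw [hs] at this
        simp at this ⊢; omega
      · simp [Function.update_of_ne hij]; exact (h i).trans (Nat.le_succ _)
    · rename_i s hs
      by_cases hij : i = j
      · subst hij
        have := h i
        rw [hs] at this
        simp at this ⊢; omega
      · simp [Function.update_of_ne hij]; exact (h i).trans (Nat.le_succ _)
  · exact (h i).trans (Nat.le_succ _)
  · exact (h i).trans (Nat.le_succ _)

theorem step_local (B : List Bool → Bool) (M : List Instr) (c : Cfg) :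
    ∃ i, ∀ B' : List Bool → Bool, B' (c.2 i) = B (c.2 i) → step B' M c = step B M c := by
  cases h : M.getD c.1 Instr.halt with
  | push i b l => exact ⟨0, fun B' _ => by simp only [step, h]⟩
  | pop i a b d => exact ⟨0, fun B' _ => by simp only [step, h]⟩
  | query i a b => exact ⟨i, fun B' hB => by simp only [step, h, hB]⟩
  | halt => exact ⟨0, fun B' _ => by simp only [step, h]⟩

theorem iter_len (B : List Bool → Bool) (M : List Instr) (t : ℕ) :
    ∀ (c : Cfg) (l : ℕ), (∀ i, (c.2 i).length ≤ l) →
      ∀ i, (((step B M)^[t] c).2 i).length ≤ l + t := by
  induction t with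
  | zero => intro c l h i; simpa using h i
  | succ t ih =>
    intro c l h i
    rw [Function.iterate_succ_apply]
    have := ih (step B M c) (l + 1) (step_len B M c l h) i
    omega

theorem iter_local (B : List Bool → Bool) (M : List Instr) (t : ℕ) :
    ∀ (c : Cfg) (l : ℕ), (∀ i, (c.2 i).length ≤ l) →
      ∃ S : Finset (List Bool), S.card ≤ t ∧ (∀ α ∈ S, α.length ≤ l + t) ∧
        ∀ B' : List Bool → Bool, (∀ α ∈ S, B' α = B α) →
          (step B' M)^[t] c = (step B M)^[t] c := by
  classical
  induction t with
  | zero => intro c l _; exact ⟨∅, by simp, by simp, fun _ _ => rfl⟩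
  | succ t ih =>
    intro c l h
    obtain ⟨i, hi⟩ := step_local B M c
    obtain ⟨S, hS1, hS2, hS3⟩ := ih (step B M c) (l + 1) (step_len B M c l h)
    refine ⟨insert (c.2 i) S, (Finset.card_insert_le _ _).trans (by omega), ?_, ?_⟩
    · intro α hα
      rcases Finset.mem_insert.1 hα with rfl | hα
      · exact (h i).trans (by omega)
      · have := hS2 α hα; omega
    · intro B' hB'
      rw [Function.iterate_succ_apply, Function.iterate_succ_apply,
        hi B' (hB' _ (Finset.mem_insert_self _ _))]
      exact hS3 B' fun α hα => hB' α (Finset.mem_insert_of_mem hα)

theorem init_len (x y : List Bool) (i : ℕ) :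
    ((fun i => if i = 0 then x else if i = 1 then y else [] : ℕ → List Bool) i).length
      ≤ x.length + y.length := by
  by_cases h0 : i = 0
  · simp [h0]
  · by_cases h1 : i = 1
    · simp [h1]
    · simp [h0, h1]

theorem run_len (B : List Bool → Bool) (M : List Instr) (x y : List Bool) (t i : ℕ) :
    ((run B M x y t).2 i).length ≤ x.length + y.length + t :=
  iter_len B M t _ _ (init_len x y) i

theorem run_local (B : List Bool → Bool) (M : List Instr) (x y : List Bool) (t : ℕ) :
    ∃ S : Finset (List Bool), S.card ≤ t ∧ (∀ α ∈ S, α.length ≤ x.length + y.length + t) ∧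
      ∀ B' : List Bool → Bool, (∀ α ∈ S, B' α = B α) → run B' M x y t = run B M x y t :=
  iter_local B M t _ _ (init_len x y)

/-- Reachability within a time bound. -/
def Reach (A : List Bool → Bool) (M : List Instr) (c c' : Cfg) (T : ℕ) : Prop :=
  ∃ t ≤ T, (step A M)^[t] c = c'

theorem Reach.refl (A : List Bool → Bool) (M : List Instr) (c : Cfg) : Reach A M c c 0 :=
  ⟨0, le_rfl, rfl⟩

theorem Reach.trans {A : List Bool → Bool} {M : List Instr} {c c' c'' : Cfg} {T T' : ℕ}
    (h : Reach A M c c' T) (h' : Reach A M c' c'' T') : Reach A M c c'' (T + T') := by
  obtain ⟨t, ht, rfl⟩ := h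
  obtain ⟨t', ht', rfl⟩ := h'
  exact ⟨t' + t, by omega, by rw [Function.iterate_add_apply]⟩

theorem Reach.mono {A : List Bool → Bool} {M : List Instr} {c c' : Cfg} {T T' : ℕ}
    (h : Reach A M c c' T) (hT : T ≤ T') : Reach A M c c' T' := by
  obtain ⟨t, ht, h⟩ := h
  exact ⟨t, ht.trans hT, h⟩

theorem Reach.cast {A : List Bool → Bool} {M : List Instr} {c : Cfg} {l : ℕ}
    {st st' : ℕ → List Bool} {T T' : ℕ}
    (h : Reach A M c (l, st) T) (hT : T ≤ T') (hs : st = st') : Reach A M c (l, st') T' :=
  hs ▸ h.mono hT

theorem Reach.one {A : List Bool → Bool} {M : List Instr} {c c' : Cfg}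
    (h : step A M c = c') : Reach A M c c' 1 := ⟨1, le_rfl, h⟩

theorem halted_fix {A : List Bool → Bool} {M : List Instr} {c : Cfg}
    (h : M.getD c.1 Instr.halt = Instr.halt) (t : ℕ) : (step A M)^[t] c = c := by
  apply Function.iterate_fixed
  simp only [step, h]

theorem outputs_of_reach {A : List Bool → Bool} {M : List Instr} {x y z : List Bool}
    {c : Cfg} {T t : ℕ}
    (h : Reach A M (0, fun i => if i = 0 then x else if i = 1 then y else []) c T)
    (hc : M.getD c.1 Instr.halt = Instr.halt) (hz : c.2 0 = z) (hT : T ≤ t) :
    Outputs A M x y t z := by
  obtain ⟨s, hs, h⟩ := h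
  have : run A M x y t = c := by
    unfold run
    obtain ⟨u, rfl⟩ : ∃ u, t = u + s := ⟨t - s, by omega⟩
    rw [Function.iterate_add_apply, h, halted_fix hc]
  unfold Outputs
  rw [this]
  exact ⟨hc, hz⟩

/-- The block `blk` sits at address `l` of program `M`. -/
def Has (M : List Instr) (l : ℕ) (blk : List Instr) : Prop :=
  ∀ i, i < blk.length → M.getD (l + i) Instr.halt = blk.getD i Instr.halt

theorem has_self (M : List Instr) : Has M 0 M := by
  intro i _; simp

theorem Has.left {M : List Instr} {l : ℕ} {b₁ b₂ : List Instr} (h : Has M l (b₁ ++ b₂)) :
    Has M l b₁ := by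
  intro i hi
  rw [h i (by simp; omega)]
  simp [List.getD_eq_getElem?_getD, List.getElem?_append_left hi]

theorem Has.right {M : List Instr} {l : ℕ} {b₁ b₂ : List Instr} (h : Has M l (b₁ ++ b₂)) :
    Has M (l + b₁.length) b₂ := by
  intro i hi
  have := h (b₁.length + i) (by simp; omega)
  rw [← Nat.add_assoc] at this
  rw [this]
  simp [List.getD_eq_getElem?_getD, List.getElem?_append_right]

theorem Has.head {M : List Instr} {l : ℕ} {a : Instr} {b : List Instr} (h : Has M l (a :: b)) :
    M.getD l Instr.halt = a := by
  simpa using h 0 (by simp)

theorem Has.tail {M : List Instr} {l : ℕ} {a : Instr} {b : List Instr} (h : Has M l (a :: b)) :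
    Has M (l + 1) b := by
  have : Has M l ([a] ++ b) := h
  simpa using this.right

theorem step_push {A : List Bool → Bool} {M : List Instr} {l i l' : ℕ} {b : Bool}
    (h : M.getD l Instr.halt = Instr.push i b l') (st : ℕ → List Bool) :
    step A M (l, st) = (l', Function.update st i (b :: st i)) := by
  simp only [step, h]

theorem step_pop_nil {A : List Bool → Bool} {M : List Instr} {l i a b d : ℕ}
    (h : M.getD l Instr.halt = Instr.pop i a b d) (st : ℕ → List Bool) (hs : st i = []) :
    step A M (l, st) = (a, st) := by
  simp only [step, h, hs]

theorem step_pop_false {A : List Bool → Bool} {M : List Instr} {l i a b d : ℕ}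
    (h : M.getD l Instr.halt = Instr.pop i a b d) (st : ℕ → List Bool) {s : List Bool}
    (hs : st i = false :: s) : step A M (l, st) = (b, Function.update st i s) := by
  simp only [step, h, hs]

theorem step_pop_true {A : List Bool → Bool} {M : List Instr} {l i a b d : ℕ}
    (h : M.getD l Instr.halt = Instr.pop i a b d) (st : ℕ → List Bool) {s : List Bool}
    (hs : st i = true :: s) : step A M (l, st) = (d, Function.update st i s) := by
  simp only [step, h, hs]

theorem step_query {A : List Bool → Bool} {M : List Instr} {l i a b : ℕ}
    (h : M.getD l Instr.halt = Instr.query i a b) (st : ℕ → List Bool) :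
    step A M (l, st) = (if A (st i) = true then b else a, st) := by
  simp only [step, h]

/-- Push the bits of a list, head first. -/
def pushR (i : ℕ) : List Bool → ℕ → List Instr
  | [], _ => []
  | b :: bs, l => Instr.push i b (l + 1) :: pushR i bs (l + 1)

theorem pushR_length (i : ℕ) (bs : List Bool) (l : ℕ) : (pushR i bs l).length = bs.length := by
  induction bs generalizing l with
  | nil => rfl
  | cons b bs ih => simp [pushR, ih]

theorem pushR_reach (A : List Bool → Bool) (M : List Instr) (i : ℕ) (bs : List Bool) :
    ∀ (l : ℕ) (st : ℕ → List Bool), Has M l (pushR i bs l) →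
      Reach A M (l, st) (l + bs.length, Function.update st i (bs.reverse ++ st i)) bs.length := by
  induction bs with
  | nil => intro l st _; simpa using Reach.refl A M (l, st)
  | cons b bs ih =>
    intro l st h
    have h1 := Reach.one (step_push (A := A) h.head st)
    have h2 := ih (l + 1) (Function.update st i (b :: st i)) h.tail
    have := h1.trans h2
    simp only [Function.update_self, Function.update_idem] at this
    have e1 : l + (b :: bs).length = l + 1 + bs.length := by simp; omega
    have e2 : (b :: bs).length = 1 + bs.length := by simp; omega
    rw [e1, List.reverse_cons, List.append_assoc]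
    rw [e2]
    exact this

/-- Empty stack `i`, pushing one `true` on stack `j` per symbol; continue at `e`. -/
def mvu (i j l e : ℕ) : List Instr :=
  [Instr.pop i e (l + 1) (l + 1), Instr.push j true l]

theorem mvu_reach (A : List Bool → Bool) (M : List Instr) {i j l e : ℕ} (hij : i ≠ j)
    (h : Has M l (mvu i j l e)) (w : List Bool) :
    ∀ st : ℕ → List Bool, st i = w →
      Reach A M (l, st)
        (e, Function.update (Function.update st i []) j (List.replicate w.length true ++ st j))
        (2 * w.length + 1) := by
  have h0 := h.head
  have h1 := h.tail.head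
  induction w with
  | nil =>
    intro st hs
    have := Reach.one (step_pop_nil (A := A) h0 st hs)
    have e : Function.update (Function.update st i []) j (List.replicate 0 true ++ st j) = st := by
      funext k
      by_cases hk : k = j
      · subst hk; simp
      · by_cases hk' : k = i
        · subst hk'; simp [Function.update_of_ne hk, hs]
        · simp [Function.update_of_ne hk, Function.update_of_ne hk']
    simp only [List.length_nil]
    rw [e]; exact this
  | cons b w ih =>
    intro st hs
    have s1 : Reach A M (l, st) (l + 1, Function.update st i w) 1 := by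
      cases b
      · exact Reach.one (step_pop_false h0 st hs)
      · exact Reach.one (step_pop_true h0 st hs)
    have s2 := Reach.one (step_push (A := A) h1 (Function.update st i w))
    have s3 := ih (Function.update (Function.update st i w) j
      (true :: Function.update st i w j)) (by simp [Function.update_of_ne hij])
    have := (s1.trans s2).trans s3
    refine this.cast (by simp; omega) ?_
    funext k
    by_cases hk : k = j
    · subst hk
      simp [Function.update_of_ne hij.symm, List.replicate_succ']
    · by_cases hk' : k = i
      · subst hk'; simp [Function.update_of_ne hk]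
      · simp [Function.update_of_ne hk, Function.update_of_ne hk']

/-- Empty stack `i`, moving its symbols to stack `j` and pushing one `true` on stack `k`
per symbol. -/
def mvc (i j k l : ℕ) : List Instr :=
  [Instr.pop i (l + 5) (l + 1) (l + 3), Instr.push j false (l + 2), Instr.push k true l,
    Instr.push j true (l + 4), Instr.push k true l]

theorem mvc_reach (A : List Bool → Bool) (M : List Instr) {i j k l : ℕ} (hij : i ≠ j)
    (hik : i ≠ k) (hjk : j ≠ k) (h : Has M l (mvc i j k l)) (w : List Bool) :
    ∀ st : ℕ → List Bool, st i = w →
      Reach A M (l, st)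
        (l + 5, Function.update (Function.update (Function.update st i []) j
          (w.reverse ++ st j)) k (List.replicate w.length true ++ st k))
        (3 * w.length + 1) := by
  have h0 := h.head
  have h1 := h.tail.head
  have h2 := h.tail.tail.head
  have h3 := h.tail.tail.tail.head
  have h4 := h.tail.tail.tail.tail.head
  induction w with
  | nil =>
    intro st hs
    have := Reach.one (step_pop_nil (A := A) h0 st hs)
    refine this.cast (by simp) ?_
    funext m
    by_cases hk : m = k
    · subst hk; simp
    · by_cases hj : m = j
      · subst hj; simp [Function.update_of_ne hk]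
      · by_cases hi : m = i
        · subst hi; simp [Function.update_of_ne hk, Function.update_of_ne hj, hs]
        · simp [Function.update_of_ne hk, Function.update_of_ne hj, Function.update_of_ne hi]
  | cons b w ih =>
    intro st hs
    have s12 : Reach A M (l, st) (l, Function.update (Function.update (Function.update st i w) j
        (b :: st j)) k (true :: st k)) 3 := by
      cases b
      · have s1 := Reach.one (step_pop_false (A := A) h0 st hs)
        have s2 := Reach.one (step_push (A := A) h1 (Function.update st i w))
        have s3 := Reach.one (step_push (A := A) h2 (Function.update (Function.update st i w) j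
          (false :: Function.update st i w j)))
        have := (s1.trans s2).trans s3
        simpa [Function.update_of_ne hij.symm, Function.update_of_ne hjk.symm,
          Function.update_of_ne hik.symm] using this
      · have s1 := Reach.one (step_pop_true (A := A) h0 st hs)
        have s2 := Reach.one (step_push (A := A) h3 (Function.update st i w))
        have s3 := Reach.one (step_push (A := A) h4 (Function.update (Function.update st i w) j
          (true :: Function.update st i w j)))
        have := (s1.trans s2).trans s3
        simpa [Function.update_of_ne hij.symm, Function.update_of_ne hjk.symm,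
          Function.update_of_ne hik.symm] using this
    have s3 := ih (Function.update (Function.update (Function.update st i w) j
        (b :: st j)) k (true :: st k))
        (by simp [Function.update_of_ne hij, Function.update_of_ne hik])
    have := s12.trans s3
    refine this.cast (by simp; omega) ?_
    funext m
    by_cases hk : m = k
    · subst hk; simp [List.replicate_succ']
    · by_cases hj : m = j
      · subst hj; simp [Function.update_of_ne hk]
      · by_cases hi : m = i
        · subst hi; simp [Function.update_of_ne hk, Function.update_of_ne hj]
        · simp [Function.update_of_ne hk, Function.update_of_ne hj, Function.update_of_ne hi]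

end Pool.Agent.Lib.MP_8a52c3_lc.Orc
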