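import Pool.Agent.Lib.MP_8a52c3_lc.OrcAux

/-! One stage of the oracle construction. -/

namespace Pool.Agent.Lib.MP_8a52c3_lc.Orc

open Finset

/-- A promise pair: its kind and two verifiers. -/
abbrev Req := Bool × Ver × Ver

def sel (R : Req) (b : Bool) : Ver := if b then R.2.2 else R.2.1

def ptm (R : Req) (n : ℕ) : ℕ := tm R.2.1 n + tm R.2.2 n + 4

theorem tm_sel_le (R : Req) (b : Bool) (n : ℕ) : tm (sel R b) n ≤ ptm R n := by
  cases b <;> simp [sel, ptm] <;> omega

/-- A pair of clocked programs. -/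
abbrev Red := (List Instr × ℕ) × (List Instr × ℕ)

def fout (B : List Bool → Bool) (ρ : Red) (w : List Bool) : List Bool :=
  (run B ρ.1.1 w [] (w.length ^ ρ.1.2 + ρ.1.2)).2 0

def gout (B : List Bool → Bool) (ρ : Red) (w z : List Bool) : List Bool :=
  (run B ρ.2.1 w z ((w.length + z.length) ^ ρ.2.2 + ρ.2.2)).2 0

noncomputable def dec (α : List Bool) : ℕ × ℕ × List Bool :=
  Function.invFun (fun z : ℕ × ℕ × List Bool => adr z.1 z.2.1 z.2.2) α

theorem dec_adr (p j : ℕ) (r : List Bool) : dec (adr p j r) = (p, j, r) := by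
  have : Function.Injective (fun z : ℕ × ℕ × List Bool => adr z.1 z.2.1 z.2.2) := by
    rintro ⟨a, b, c⟩ ⟨a', b', c'⟩ h
    obtain ⟨h1, h2, h3⟩ := adr_inj h
    simp only at h1 h2 h3
    rw [h1, h2, h3]
  exact Function.leftInverse_invFun this (p, j, r)

noncomputable def cj (α : List Bool) : ℕ := (dec α).2.1

noncomputable def cw (α : List Bool) : List Bool := (dec α).2.2.reverse

noncomputable def cT (E : ℕ → Req) (α : List Bool) : ℕ := ptm (E (cj α)) (cw α).length

def IsCode (E : ℕ → Req) (α : List Bool) : Prop := 1 ≤ (dec α).1 ∧ cT E α ^ 2 ≤ α.length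

theorem cT_ge (E : ℕ → Req) (α : List Bool) : 4 ≤ cT E α := by unfold cT ptm; omega

theorem IsCode.lt {E : ℕ → Req} {α : List Bool} (h : IsCode E α) : cT E α < α.length := by
  have := cT_ge E α
  have := h.2
  nlinarith

theorem not_isCode_xadr (E : ℕ → Req) (T n : ℕ) (u : List Bool) : ¬ IsCode E (xadr T n u) := by
  intro h
  have := h.1
  rw [xadr, dec_adr] at this
  omega

def DeadP (E : ℕ → Req) (B : List Bool → Bool) (l j : ℕ) : Prop :=
  ∃ w : List Bool, ptm (E j) w.length < l ∧ Viol (E j).1 (fun b => Acc B (sel (E j) b) w)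

def DeadC (V : Ver) (B : List Bool → Bool) (l : ℕ) : Prop :=
  ∃ v : List Bool, tm V v.length < l ∧ ¬ Acc B V v

def GoodAt (E : ℕ → Req) (B : List Bool → Bool) (α : List Bool) : Prop :=
  GoodBit (E (cj α)).1 (fun b => Acc B (sel (E (cj α)) b) (cw α)) (B α)

def GoodRange (E : ℕ → Req) (B : List Bool → Bool) (L L' j : ℕ) : Prop :=
  ∀ α, IsCode E α → cj α = j → L ≤ α.length → α.length < L' → GoodAt E B α

theorem accs_congr {R : Req} {B B' : List Bool → Bool} {w : List Bool} {l : ℕ}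
    (hl : ptm R w.length < l) (hB : ∀ α : List Bool, α.length < l → B' α = B α) :
    (fun b => Acc B' (sel R b) w) = fun b => Acc B (sel R b) w := by
  funext b
  exact propext (acc_congr fun α hα => hB α (by have := tm_sel_le R b w.length; omega))

theorem DeadP.mono {E : ℕ → Req} {B B' : List Bool → Bool} {l l' j : ℕ} (h : DeadP E B l j)
    (hl : l ≤ l') (hB : ∀ α : List Bool, α.length < l → B' α = B α) : DeadP E B' l' j := by
  obtain ⟨w, h1, h2⟩ := h
  exact ⟨w, by omega, by rw [accs_congr h1 hB]; exact h2⟩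

theorem DeadC.mono {V : Ver} {B B' : List Bool → Bool} {l l' : ℕ} (h : DeadC V B l)
    (hl : l ≤ l') (hB : ∀ α : List Bool, α.length < l → B' α = B α) : DeadC V B' l' := by
  obtain ⟨v, h1, h2⟩ := h
  exact ⟨v, by omega, by rw [acc_congr fun α hα => hB α (by omega)]; exact h2⟩

/-- What one stage guarantees. -/
def StageOK (E : ℕ → Req) (V : Ver) (ρ : Red) (q e T L L' : ℕ) (B : List Bool → Bool) : Prop :=
  (∀ j < q, ¬ DeadP E B L' j → (∀ j' < j, DeadP E B L' j' → DeadP E B L j') →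
    (e ≤ j → DeadC V B L' → DeadC V B L) → GoodRange E B L L' j) ∧
  (∀ T' n', L ≤ (xadr T' n' []).length → (xadr T' n' []).length < L' →
    (T' = T → (∀ j' < e, DeadP E B L' j' → DeadP E B L j') ∧ (DeadC V B L' → DeadC V B L)) →
    ∃ u : List Bool, u.length ≤ n' + 1 ∧ (xadr T' n' u).length < L' ∧ B (xadr T' n' u) = true) ∧
  ((∀ j' < q, DeadP E B L' j' → DeadP E B L j') → ¬ DeadC V B L' →
    ∃ w z, ∀ A : List Bool → Bool, (∀ α : List Bool, α.length < L' → A α = B α) →
      Sol A V (fout A ρ w) z ∧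
        ¬ ((gout A ρ w z).length ≤ w.length + 1 ∧ A (xadr T w.length (gout A ρ w z)) = true))

theorem StageOK.congr {E : ℕ → Req} {V : Ver} {ρ : Red} {q e T L L' : ℕ}
    {B A : List Bool → Bool} (h : StageOK E V ρ q e T L L' B) (hL : L ≤ L')
    (hA : ∀ α : List Bool, α.length < L' → A α = B α) : StageOK E V ρ q e T L L' A := by
  have hA' : ∀ α : List Bool, α.length < L → A α = B α := fun α h => hA α (by omega)
  have p1 : ∀ j, DeadP E A L' j ↔ DeadP E B L' j := fun j =>
    ⟨fun h => h.mono le_rfl fun α hα => (hA α hα).symm, fun h => h.mono le_rfl hA⟩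
  have p2 : ∀ j, DeadP E A L j ↔ DeadP E B L j := fun j =>
    ⟨fun h => h.mono le_rfl fun α hα => (hA' α hα).symm, fun h => h.mono le_rfl hA'⟩
  have p3 : DeadC V A L' ↔ DeadC V B L' :=
    ⟨fun h => h.mono le_rfl fun α hα => (hA α hα).symm, fun h => h.mono le_rfl hA⟩
  have p4 : DeadC V A L ↔ DeadC V B L :=
    ⟨fun h => h.mono le_rfl fun α hα => (hA' α hα).symm, fun h => h.mono le_rfl hA'⟩
  obtain ⟨h1, h2, h3⟩ := h
  unfold StageOK
  simp only [p1, p2, p3, p4]
  refine ⟨fun j hj a b c α d e f g => ?_, fun T' n' a b c => ?_, fun a b => ?_⟩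
  · have := h1 j hj a b c α d e f g
    unfold GoodAt at this ⊢
    rw [hA α g, accs_congr (l := L') (lt_trans d.lt g) hA]
    exact this
  · obtain ⟨u, u1, u2, u3⟩ := h2 T' n' a b c
    exact ⟨u, u1, u2, by rw [hA _ u2, u3]⟩
  · obtain ⟨w, z, hw⟩ := h3 a b
    exact ⟨w, z, fun A' hA'' => hw A' fun α hα => (hA'' α hα).trans (hA α hα)⟩

section world
variable (E : ℕ → Req) (σ : List Bool → Bool) (L T n Φ : ℕ) (p : Par)

noncomputable def Kc (α : List Bool) : ℕ := cT E α * Φ ^ (Nat.log 2 (cT E α) ^ 2)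

def Dof (B : Finset (List.Vector Bool n) → List Bool → Bool) (α : List Bool) :
    Bool → Finset (List.Vector Bool n) → Prop :=
  fun b x => Acc (B x) (sel (E (cj α)) b) (cw α)

open Classical in
noncomputable def Psi (B : Finset (List.Vector Bool n) → List Bool → Bool) (α : List Bool)
    (x : Finset (List.Vector Bool n)) : Bool :=
  if α.length < L then σ α
  else if IsCode E α then treeOut p (E (cj α)).1 (cj α) (Dof E n B α) (Kc E Φ α) x
  else if ∃ u, α = xadr T n u then decide (∃ v ∈ x, α = xadr T n v.1) else true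

open Classical in
noncomputable def Qof (B : Finset (List.Vector Bool n) → List Bool → Bool) (α : List Bool)
    (x : Finset (List.Vector Bool n)) : Finset (List.Vector Bool n) :=
  if α.length < L then ∅
  else if IsCode E α then treeQ p (E (cj α)).1 (cj α) (Dof E n B α) (Kc E Φ α) x
  else univ.filter fun v => α = xadr T n v.1

theorem exists_world : ∃ A : Finset (List.Vector Bool n) → List Bool → Bool,
    ∀ x α, A x α = Psi E σ L T n Φ p A α x := by
  apply exists_fix
  intro α B B' h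
  funext x
  unfold Psi
  split_ifs with h1 h2
  · rfl
  · have : Dof E n B α = Dof E n B' α := by
      funext b x'
      exact congrFun (accs_congr h2.lt (h x')) b
    rw [this]
  · rfl
  · rfl

theorem Qof_adapt (B : Finset (List.Vector Bool n) → List Bool → Bool) (α : List Bool) :
    Adapt (Qof E L T n Φ p B α) := by
  intro x x' h
  unfold Qof at h ⊢
  split_ifs at h ⊢
  · rfl
  · exact treeQ_adapt _ _ _ _ _ _ _ h
  · rfl

theorem Psi_loc (B : Finset (List.Vector Bool n) → List Bool → Bool) (α : List Bool)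
    (x x' : Finset (List.Vector Bool n)) (h : Agree (Qof E L T n Φ p B α x) x x') :
    Psi E σ L T n Φ p B α x' = Psi E σ L T n Φ p B α x := by
  unfold Qof at h
  unfold Psi
  split_ifs at h ⊢
  · rfl
  · exact treeOut_loc _ _ _ _ _ _ _ h
  · rw [decide_eq_decide]
    constructor
    · rintro ⟨v, hv, e⟩
      exact ⟨v, (h v (by simp [e])).1 hv, e⟩
    · rintro ⟨v, hv, e⟩
      exact ⟨v, (h v (by simp [e])).2 hv, e⟩
  · rfl

theorem Kc_le {α : List Bool} (h : IsCode E α) (hΦ : α.length ≤ Φ) :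
    Kc E Φ α ≤ Φ ^ (Nat.log 2 (cT E α) ^ 2 + 1) := by
  unfold Kc
  rw [pow_succ' Φ]
  exact Nat.mul_le_mul_right _ (by have := h.lt; omega)

theorem log_code {α : List Bool} (h : IsCode E α) :
    2 * Nat.log 2 (cT E α) ^ 2 + 3 ≤ Nat.log 2 α.length ^ 2 := by
  have h4 := cT_ge E α
  have h1 : 2 ≤ Nat.log 2 (cT E α) := Nat.le_log_of_pow_le (by omega) (by omega)
  have h2 : 2 ^ Nat.log 2 (cT E α) ≤ cT E α := Nat.pow_log_le_self 2 (by omega)
  have h3 : Nat.log 2 (cT E α) * 2 ≤ Nat.log 2 α.length := by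
    apply Nat.le_log_of_pow_le (by omega)
    rw [pow_mul]
    exact (Nat.pow_le_pow_left h2 2).trans h.2
  have := Nat.pow_le_pow_left h3 2
  nlinarith

theorem Qof_card (hΦ2 : 2 ≤ Φ) (hΨ : (p.X + 1) * (100 * p.X) + 1 ≤ Φ)
    (B : Finset (List.Vector Bool n) → List Bool → Bool) (α : List Bool) (hα : α.length ≤ Φ)
    (x : Finset (List.Vector Bool n)) :
    (Qof E L T n Φ p B α x).card ≤ Φ ^ (Nat.log 2 α.length ^ 2) := by
  have h1 : ∀ k, 1 ≤ Φ ^ k := fun k => Nat.one_le_pow _ _ (by omega)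
  unfold Qof
  split_ifs with a b
  · simp
  · refine (treeQ_card _ _ _ _ _ _).trans ?_
    have h2 := Kc_le E Φ b hα
    have h3 := log_code E b
    set s := Nat.log 2 (cT E α) ^ 2
    have h4 : Φ ≤ Φ ^ (s + 1) := Nat.le_self_pow (by omega) _
    have h5 : (p.X + 1) * (100 * p.X) + 1 + Kc E Φ α ≤ Φ ^ (s + 2) := by
      rw [pow_succ Φ (s + 1)]
      nlinarith
    refine (Nat.mul_le_mul h5 h2).trans ?_
    rw [← pow_add]
    exact Nat.pow_le_pow_right (by omega) (by omega)
  · refine le_trans (card_le_one.2 ?_) (h1 _)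
    intro v hv v' hv'
    have e1 := (mem_filter.1 hv).2
    have e2 := (mem_filter.1 hv').2
    exact Subtype.ext (xadr_inj (e1.symm.trans e2)).2.2

end world

/-- The bound on all running times that matter at a diagonalisation length `n`. -/
def tauOf (V : Ver) (ρ : Red) (T n : ℕ) : ℕ :=
  (n + (n ^ ρ.1.2 + ρ.1.2)) + tm V (n + (n ^ ρ.1.2 + ρ.1.2)) +
    (n + tm V (n + (n ^ ρ.1.2 + ρ.1.2)) +
      ((n + tm V (n + (n ^ ρ.1.2 + ρ.1.2))) ^ ρ.2.2 + ρ.2.2)) + (T + 2 * n + 5)

theorem diag_local (B : List Bool → Bool) (V : Ver) (ρ : Red) (T n : ℕ)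
    (h : ¬ DeadC V B (tauOf V ρ T n)) :
    ∃ (z : List Bool) (S : Finset (List Bool)), S.card ≤ tauOf V ρ T n ∧
      (∀ α ∈ S, α.length < tauOf V ρ T n) ∧
      ∀ A : List Bool → Bool, (∀ α ∈ S, A α = B α) →
        Sol A V (fout A ρ (List.replicate n true)) z ∧
          gout A ρ (List.replicate n true) z = gout B ρ (List.replicate n true) z := by
  classical
  set w := List.replicate n true with hw
  have hwl : w.length = n := by simp [hw]
  have l1 : (fout B ρ w).length ≤ n + (n ^ ρ.1.2 + ρ.1.2) := by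
    have := run_len B ρ.1.1 w [] (w.length ^ ρ.1.2 + ρ.1.2) 0
    simpa [hwl, fout] using this
  have l2 := tm_mono V l1
  have hacc : Acc B V (fout B ρ w) := by
    by_contra hn
    exact h ⟨_, by unfold tauOf; omega, hn⟩
  obtain ⟨z, hz⟩ := hacc
  have l3 : z.length ≤ tm V (fout B ρ w).length := by
    have := hz.1
    unfold tm; omega
  obtain ⟨S1, a1, a2, a3⟩ := run_local B ρ.1.1 w [] (w.length ^ ρ.1.2 + ρ.1.2)
  obtain ⟨S2, b1, b2, b3⟩ := sol_local hz
  obtain ⟨S3, c1, c2, c3⟩ := run_local B ρ.2.1 w z ((w.length + z.length) ^ ρ.2.2 + ρ.2.2)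
  have l4 := Nat.pow_le_pow_left
    (show n + z.length ≤ n + tm V (n + (n ^ ρ.1.2 + ρ.1.2)) by omega) ρ.2.2
  rw [hwl] at a1 a2 c1 c2
  refine ⟨z, S1 ∪ S2 ∪ S3, ?_, ?_, ?_⟩
  · have := card_union_le (S1 ∪ S2) S3
    have := card_union_le S1 S2
    unfold tauOf; omega
  · intro α hα
    rcases mem_union.1 hα with hα | hα
    · rcases mem_union.1 hα with hα | hα
      · have := a2 α hα; unfold tauOf; simp at this; omega
      · have := b2 α hα; unfold tauOf; omega
    · have := c2 α hα; unfold tauOf; omega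
  · intro A hA
    have e1 : fout A ρ w = fout B ρ w := by
      unfold fout
      rw [a3 A fun α hα => hA α (mem_union_left _ (mem_union_left _ hα))]
    refine ⟨?_, ?_⟩
    · rw [e1]; exact b3 A fun α hα => hA α (mem_union_left _ (mem_union_right _ hα))
    · unfold gout
      rw [c3 A fun α hα => hA α (mem_union_right _ hα)]

end Pool.Agent.Lib.MP_8a52c3_lc.Orc
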