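import Pool.Agent.Lib.MP_8a52c3_lc.OrcStage

/-! The stage lemma. -/

namespace Pool.Agent.Lib.MP_8a52c3_lc.Orc

open Finset

theorem numeric1 {a d c N τ : ℕ} (ha : a + 1 ≤ 2 ^ τ) (h : 2 * (d * c) ≤ N) (hN : 0 < N) :
    (a : ℝ) * ((d : ℝ) * (c : ℕ) / N) ^ (τ + 5) ≤ 1 / 20 := by
  have h1 : (d : ℝ) * (c : ℕ) / N ≤ 1 / 2 := by
    rw [div_le_div_iff₀ (by exact_mod_cast hN) (by norm_num)]
    have : ((2 * (d * c) : ℕ) : ℝ) ≤ N := by exact_mod_cast h
    push_cast at this
    linarith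
  have h2 : ((d : ℝ) * (c : ℕ) / N) ^ (τ + 5) ≤ (1 / 2) ^ (τ + 5) := by gcongr
  have h3 : (a : ℝ) ≤ 2 ^ τ := by exact_mod_cast (show a ≤ 2 ^ τ by omega)
  calc (a : ℝ) * ((d : ℝ) * (c : ℕ) / N) ^ (τ + 5) ≤ 2 ^ τ * (1 / 2) ^ (τ + 5) := by gcongr
    _ = 1 / 32 := by
      rw [pow_add, ← mul_assoc, ← mul_pow]; norm_num
    _ ≤ 1 / 20 := by norm_num

theorem numeric2 {a d τ t n : ℕ} (ha : a + 1 ≤ 2 ^ τ) (hd : d ≤ 2 ^ n) :
    (a : ℝ) * (t * ((d : ℝ) ^ t * (9 / 10) ^ (7 * (τ + t + n * t + 5)))) ≤ 1 / 20 := by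
  have h1 : (a : ℝ) ≤ 2 ^ τ := by exact_mod_cast (show a ≤ 2 ^ τ by omega)
  have h2 : (t : ℝ) ≤ 2 ^ t := by exact_mod_cast (Nat.lt_two_pow_self (n := t)).le
  have h3 : (d : ℝ) ^ t ≤ 2 ^ (n * t) := by
    rw [pow_mul]
    have : (d : ℝ) ≤ 2 ^ n := by exact_mod_cast hd
    gcongr
  have h4 : ((9 : ℝ) / 10) ^ (7 * (τ + t + n * t + 5)) ≤ (1 / 2) ^ (τ + t + n * t + 5) := by
    rw [pow_mul]
    gcongr
    norm_num
  calc (a : ℝ) * (t * ((d : ℝ) ^ t * (9 / 10) ^ (7 * (τ + t + n * t + 5))))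
      ≤ 2 ^ τ * (2 ^ t * (2 ^ (n * t) * (1 / 2) ^ (τ + t + n * t + 5))) := by gcongr
    _ = (2 * (1 / 2)) ^ (τ + t + n * t) * (1 / 2) ^ 5 := by
      rw [mul_pow, pow_add (1 / 2 : ℝ) (τ + t + n * t) 5, pow_add (2 : ℝ), pow_add (2 : ℝ)]; ring
    _ ≤ 1 / 20 := by norm_num

theorem stage_at (E : ℕ → Req) (V : Ver) (ρ : Red) (q e T L : ℕ) (σ : List Bool → Bool)
    (n Φ : ℕ) (p : Par) (hn : L ≤ n) (hq : p.q = q) (he : p.e = e)
    (hτ : p.τ = tauOf V ρ T n) (ht : p.t = p.τ + 5)
    (hC : p.C = 7 * (p.τ + p.t + n * p.t + 5)) (hΦτ : p.τ + 2 ≤ Φ)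
    (hΨ : (p.X + 1) * (100 * p.X) + 1 ≤ Φ)
    (hbig : 2 * ((p.τ + 2) * p.C ^ p.q) * Φ ^ (Nat.log 2 p.τ ^ 2) ≤ 2 ^ n) :
    ∃ σ' : List Bool → Bool, (∀ α : List Bool, α.length < L → σ' α = σ α) ∧
      StageOK E V ρ q e T L p.τ σ' := by
  classical
  obtain ⟨A, hA⟩ := exists_world E σ L T n Φ p
  have : Nonempty (List.Vector Bool n) := ⟨List.Vector.replicate n true⟩
  have hN : Fintype.card (List.Vector Bool n) = 2 ^ n := by simp
  set d := Φ ^ (Nat.log 2 p.τ ^ 2) with hd
  have hτn : T + 2 * n + 5 ≤ p.τ := by rw [hτ]; unfold tauOf; omega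
  have hC1 : 1 ≤ p.C := by omega
  have hCq : 1 ≤ p.C ^ p.q := Nat.one_le_pow _ _ hC1
  have hd1 : 1 ≤ d := Nat.one_le_pow _ _ (by omega)
  have hlow : ∀ x (α : List Bool), α.length < L → A x α = σ α := by
    intro x α h
    rw [hA]; unfold Psi; rw [if_pos h]
  have hQc : ∀ (β : List Bool) (l : ℕ), β.length ≤ l → l ≤ Φ → ∀ x,
      (Qof E L T n Φ p A β x).card ≤ Φ ^ (Nat.log 2 l ^ 2) := by
    intro β l h1 h2 x
    refine (Qof_card E L T n Φ p (by omega) hΨ A β (by omega) x).trans ?_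
    exact Nat.pow_le_pow_right (by omega) (Nat.pow_le_pow_left (Nat.log_mono_right h1) 2)
  have hloc : ∀ (β : List Bool) x x', Agree (Qof E L T n Φ p A β x) x x' → A x' β = A x β := by
    intro β x x' h
    rw [hA, hA]; exact Psi_loc E σ L T n Φ p A β x x' h
  have hz : 2 * ((p.τ + 2) * d * p.C ^ p.q) ≤ 2 ^ n := by
    refine le_trans (le_of_eq ?_) hbig
    ring
  let c : Core (List.Vector Bool n) (List Bool) :=
    { p := p
      d := d
      z := (p.τ + 2) * d
      all := short p.τ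
      codes := (short p.τ).filter fun α =>
        L ≤ α.length ∧ IsCode E α ∧ cj α < q ∧ ¬ DeadP E σ L (cj α)
      Q := Qof E L T n Φ p A
      pri := cj
      kind := fun α => (E (cj α)).1
      D := Dof E n A
      K := Kc E Φ
      hsub := filter_subset _ _
      hadapt := fun β _ => Qof_adapt E L T n Φ p A β
      hd := fun β hβ x => hQc β p.τ ((mem_short _ _).1 hβ).le (by omega) x
      hQ := fun α hα => by
        obtain ⟨_, h1, h2, _⟩ := mem_filter.1 hα
        funext x
        unfold Qof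
        rw [if_neg (by omega), if_pos h2]
      hK := fun α hα => by
        obtain ⟨h0, h1, h2, _⟩ := mem_filter.1 hα
        have h0' := (mem_short _ _).1 h0
        have h3 := Kc_le E Φ h2 (by omega)
        have h4 := log_code E h2
        have h5 : Nat.log 2 α.length ^ 2 ≤ Nat.log 2 p.τ ^ 2 :=
          Nat.pow_le_pow_left (Nat.log_mono_right h0'.le) 2
        have h6 : Φ ^ (Nat.log 2 (cT E α) ^ 2 + 1) ≤ d :=
          Nat.pow_le_pow_right (by omega) (by omega)
        nlinarith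
      hpri := fun α hα => by rw [hq]; exact (mem_filter.1 hα).2.2.2.1
      hcert := fun α hα b x hD => by
        obtain ⟨h0, h1, h2, _⟩ := mem_filter.1 hα
        have h0' := (mem_short _ _).1 h0
        obtain ⟨z, hz⟩ := hD
        obtain ⟨S, s1, s2, s3⟩ := sol_local hz
        have l1 : tm (sel (E (cj α)) b) (cw α).length ≤ cT E α := tm_sel_le _ _ _
        have l2 := h2.lt
        refine ⟨S, fun β hβ => (mem_short _ _).2 (by have := s2 β hβ; omega), by omega, ?_, ?_⟩
        · refine (card_biUnion_le_card_mul S _ (Φ ^ (Nat.log 2 (cT E α) ^ 2)) ?_).trans ?_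
          · intro β hβ
            exact hQc β _ (by have := s2 β hβ; omega) (by omega) x
          · exact Nat.mul_le_mul_right _ (by omega)
        · intro x' hx'
          exact ⟨z, s3 _ fun β hβ => hloc β x x' (hx'.mono (subset_biUnion_of_mem (fun β => Qof E L T n Φ p A β x) hβ))⟩
      hC := hC1
      hd1 := hd1
      n1 := by
        rw [ht, hN]
        apply numeric1 (short_card _) _ (Nat.two_pow_pos n)
        refine le_trans ?_ hz
        nlinarith [Nat.zero_le (p.τ * d * p.C ^ p.q), Nat.zero_le (d * p.C ^ p.q)]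
      n2 := by
        have := numeric2 (t := p.t) (short_card p.τ) (show d ≤ 2 ^ n by
          refine le_trans ?_ hz
          have : d * 1 ≤ d * p.C ^ p.q := Nat.mul_le_mul_left _ hCq
          nlinarith [Nat.zero_le (p.τ * d * p.C ^ p.q), Nat.zero_le (d * p.C ^ p.q)])
        rwa [← hC] at this
      n3 := by
        rw [hN, ← mul_div_assoc, div_le_div_iff₀ (by positivity) (by norm_num)]
        have : ((2 * ((p.τ + 2) * d * p.C ^ p.q) : ℕ) : ℝ) ≤ ((2 ^ n : ℕ) : ℝ) := by
          exact_mod_cast hz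
        push_cast at this ⊢
        linarith }
  have hLτ : L ≤ p.τ := by omega
  have hmem : ∀ α, α ∈ c.codes ↔ α.length < p.τ ∧
      (L ≤ α.length ∧ IsCode E α ∧ cj α < q ∧ ¬ DeadP E σ L (cj α)) := by
    intro α
    rw [← mem_short]
    exact mem_filter
  have hgood : ∀ α ∈ c.codes, ∀ x, c.Good α x → GoodAt E (A x) α := by
    intro α hα x h
    obtain ⟨_, h1, h2, _⟩ := (hmem α).1 hα
    unfold GoodAt
    rw [hA x α]
    unfold Psi
    rw [if_neg (by omega), if_pos h2]
    exact h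
  have dP : ∀ x j, DeadP E (A x) L j ↔ DeadP E σ L j := fun x j =>
    ⟨fun h => h.mono le_rfl fun α hα => (hlow x α hα).symm, fun h => h.mono le_rfl (hlow x)⟩
  have dC : ∀ x, DeadC V (A x) L ↔ DeadC V σ L := fun x =>
    ⟨fun h => h.mono le_rfl fun α hα => (hlow x α hα).symm, fun h => h.mono le_rfl (hlow x)⟩
  have hrange : ∀ x j, j < q → ¬ DeadP E (A x) p.τ j →
      (∀ α ∈ c.codes, cj α = j → c.Good α x) → GoodRange E (A x) L p.τ j := by
    intro x j hj hnd h α a1 a2 a3 a4
    have hα : α ∈ c.codes := (hmem α).2 ⟨a4, a3, a1, by omega, fun hd => hnd (by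
      rw [a2] at hd
      exact ((dP x j).2 hd).mono hLτ fun _ _ => rfl)⟩
    exact hgood α hα x (h α hα a2)
  have hxval : ∀ x (u : List Bool), A x (xadr T n u) = decide (∃ v ∈ x, u = v.1) := by
    intro x u
    rw [hA]
    unfold Psi
    rw [if_neg (by rw [xadr_length]; omega), if_neg (not_isCode_xadr E T n u), if_pos ⟨u, rfl⟩,
      decide_eq_decide]
    constructor
    · rintro ⟨v, hv, h⟩; exact ⟨v, hv, (xadr_inj h).2.2⟩
    · rintro ⟨v, hv, h⟩; exact ⟨v, hv, by rw [h]⟩
  have htot : ∀ x T' n', L ≤ (xadr T' n' []).length → (xadr T' n' []).length < p.τ →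
      (T' = T → x.Nonempty) →
      ∃ u : List Bool, u.length ≤ n' + 1 ∧ (xadr T' n' u).length < p.τ ∧
        A x (xadr T' n' u) = true := by
    intro x T' n' h1 h2 h3
    by_cases hTn : T' = T ∧ n' = n
    · obtain ⟨rfl, rfl⟩ := hTn
      obtain ⟨v, hv⟩ := h3 rfl
      refine ⟨v.1, by rw [v.2]; omega, by rw [xadr_length, v.2]; omega, ?_⟩
      rw [hxval]
      exact decide_eq_true ⟨v, hv, rfl⟩
    · refine ⟨[], by simp, h2, ?_⟩
      rw [hA]
      unfold Psi
      rw [if_neg (by omega), if_neg (not_isCode_xadr E T' n' []), if_neg]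
      rintro ⟨u, hu⟩
      exact hTn ⟨(xadr_inj hu).1, (xadr_inj hu).2.1⟩
  by_cases hNK : c.NoKill
  · by_cases hK2 : ¬ DeadC V σ L ∧ DeadC V (A ∅) p.τ
    · refine ⟨A ∅, hlow ∅, fun j hj a b d' => ?_, fun T' n' a b d' => ?_, fun _ b => ?_⟩
      · apply hrange ∅ j hj a
        intro α hα h
        apply c.good_empty hNK α hα
        show cj α < p.e
        by_contra hh
        exact hK2.1 ((dC ∅).1 (d' (by omega) hK2.2))
      · apply htot ∅ T' n' a b
        intro h
        exact absurd ((dC ∅).1 ((d' h).2 hK2.2)) hK2.1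
      · exact absurd hK2.2 b
    · by_cases hdead : DeadC V σ L
      · obtain ⟨x, x1, _, x3⟩ := c.good_avoid hNK ∅ (by simp)
        refine ⟨A x, hlow x, fun j hj a _ _ => ?_, fun T' n' a b _ => ?_, fun _ b => ?_⟩
        · exact hrange x j hj a fun α hα _ => x3 α hα
        · exact htot x T' n' a b fun _ => x1
        · exact absurd (((dC x).2 hdead).mono hLτ fun _ _ => rfl) b
      · have hnd : ¬ DeadC V (A ∅) (tauOf V ρ T n) := fun h => hK2 ⟨hdead, by rwa [hτ]⟩
        obtain ⟨z, S, s1, s2, s3⟩ := diag_local (A ∅) V ρ T n hnd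
        rw [← hτ] at s1 s2
        set u₀ := gout (A ∅) ρ (List.replicate n true) z with hu₀
        let Z : Finset (List.Vector Bool n) :=
          (S.biUnion fun β => Qof E L T n Φ p A β ∅) ∪ univ.filter fun v => u₀ = v.1
        have hZ : Z.card ≤ (p.τ + 2) * d := by
          have h1 := card_union_le (S.biUnion fun β => Qof E L T n Φ p A β ∅)
            (univ.filter fun v : List.Vector Bool n => u₀ = v.1)
          have h2 : (S.biUnion fun β => Qof E L T n Φ p A β ∅).card ≤ S.card * d :=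
            card_biUnion_le_card_mul _ _ _ fun β hβ => hQc β p.τ (s2 β hβ).le (by omega) ∅
          have h3 : (univ.filter fun v : List.Vector Bool n => u₀ = v.1).card ≤ 1 := by
            apply card_le_one.2
            intro v hv v' hv'
            exact Subtype.ext ((mem_filter.1 hv).2.symm.trans (mem_filter.1 hv').2)
          have h4 := Nat.mul_le_mul_right d s1
          have h5 : Z.card ≤ p.τ * d + 1 := by
            show (_ ∪ _ : Finset (List.Vector Bool n)).card ≤ _
            omega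
          nlinarith
        obtain ⟨x, x1, x2, x3⟩ := c.good_avoid hNK Z hZ
        refine ⟨A x, hlow x, fun j hj a _ _ => ?_, fun T' n' a b _ => ?_, fun _ _ => ?_⟩
        · exact hrange x j hj a fun α hα _ => x3 α hα
        · exact htot x T' n' a b fun _ => x1
        · refine ⟨List.replicate n true, z, fun A' hA' => ?_⟩
          have hS : ∀ α ∈ S, A' α = A ∅ α := by
            intro α hα
            rw [hA' α (s2 α hα)]
            apply hloc
            intro u hu
            have := x2 u (mem_union_left _ (mem_biUnion.2 ⟨α, hα, hu⟩))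
            simp [this]
          obtain ⟨r1, r2⟩ := s3 A' hS
          refine ⟨r1, ?_⟩
          rw [r2, List.length_replicate]
          rintro ⟨r3, r4⟩
          rw [hA' _ (by rw [xadr_length]; omega), hxval] at r4
          obtain ⟨v, hv, e⟩ := of_decide_eq_true r4
          exact x2 v (mem_union_right _ (mem_filter.2 ⟨mem_univ _, e⟩)) hv
  · unfold Core.NoKill at hNK
    push Not at hNK
    obtain ⟨α, hα, x, k1, k2, k3⟩ := hNK
    obtain ⟨a0, a1, a2, a3, a4⟩ := (hmem α).1 hα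
    have hkill : DeadP E (A x) p.τ (cj α) := ⟨cw α, lt_trans a2.lt a0, k3⟩
    have hal : ¬ DeadP E (A x) L (cj α) := fun h => a4 ((dP x _).1 h)
    refine ⟨A x, hlow x, fun j hj a b _ => ?_, fun T' n' a b d' => ?_, fun a _ => ?_⟩
    · apply hrange x j hj a
      intro β hβ h
      apply k2 β hβ
      show cj β < cj α
      rcases lt_trichotomy j (cj α) with h' | h' | h'
      · omega
      · exact absurd (h' ▸ hkill) a
      · exact absurd (b _ h' hkill) hal
    · apply htot x T' n' a b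
      intro h
      apply k1
      show p.e ≤ cj α
      by_contra hh
      exact hal ((d' h).1 _ (by omega) hkill)
    · exact absurd (a _ a3 hkill) hal

theorem stage (E : ℕ → Req) (V : Ver) (ρ : Red) (q e T L : ℕ) (σ : List Bool → Bool) :
    ∃ (σ' : List Bool → Bool) (L' : ℕ), L < L' ∧ (∀ α : List Bool, α.length < L → σ' α = σ α) ∧
      StageOK E V ρ q e T L L' σ' := by
  let P : ℕ → Par := fun n =>
    { q := q, e := e, τ := tauOf V ρ T n, t := tauOf V ρ T n + 5,
      C := 7 * (tauOf V ρ T n + (tauOf V ρ T n + 5) + n * (tauOf V ρ T n + 5) + 5) }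
  have q1 : QB fun n => n + (n ^ ρ.1.2 + ρ.1.2) := QB.id.add ((QB.id.pow _).add (QB.const _))
  have q2 : QB fun n => n + tm V (n + (n ^ ρ.1.2 + ρ.1.2)) := QB.id.add (q1.tm V)
  have qτ : QB fun n => (P n).τ :=
    ((q1.add (q1.tm V)).add (q2.add ((q2.pow _).add (QB.const _)))).add
      (((QB.const T).add ((QB.const 2).mul QB.id)).add (QB.const 5))
  have qt : QB fun n => (P n).t := qτ.add (QB.const 5)
  have qC : QB fun n => (P n).C :=
    (QB.const 7).mul (((qτ.add qt).add (QB.id.mul qt)).add (QB.const 5))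
  have qX : QB fun n => (P n).X := by
    refine QB.le (g := fun n => 2 ^ (q + 1) * ((P n).τ * (P n).t + (P n).t) + (P n).C ^ q + 1)
      ((((QB.const _).mul ((qτ.mul qt).add qt)).add (qC.pow q)).add (QB.const 1)) fun n => ?_
    have := rr_le ((P n).τ * (P n).t + (P n).t) q
    show rr ((P n).τ * (P n).t + (P n).t) (q - 0) + (P n).C ^ q + 1 ≤ _
    rw [Nat.sub_zero]
    omega
  obtain ⟨n, hn, hbig⟩ := exists_big
    (f := fun n => 2 * (((P n).τ + 2) * (P n).C ^ q))
    (Φ := fun n => (P n).τ + 2 + (((P n).X + 1) * (100 * (P n).X) + 1))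
    (τ := fun n => (P n).τ)
    ((QB.const 2).mul ((qτ.add (QB.const 2)).mul (qC.pow q)))
    ((qτ.add (QB.const 2)).add (((qX.add (QB.const 1)).mul ((QB.const 100).mul qX)).add
      (QB.const 1))) qτ L
  obtain ⟨σ', h1, h2⟩ := stage_at E V ρ q e T L σ n _ (P n) hn rfl rfl rfl rfl rfl
    (Nat.le_add_right _ _) (Nat.le_add_left _ _) hbig
  refine ⟨σ', (P n).τ, ?_, h1, h2⟩
  show L < tauOf V ρ T n
  unfold tauOf
  omega

end Pool.Agent.Lib.MP_8a52c3_lc.Orc
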