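import Pool.Agent.Lib.MP_8a52c3_lc.OrcCount

/-! Adaptive query processes on hidden subsets of a finite universe. -/

namespace Pool.Agent.Lib.MP_8a52c3_lc.Orc

open Finset

set_option linter.unusedSectionVars false

section adapt
variable {U : Type} [DecidableEq U]

def Agree (Q x x' : Finset U) : Prop := ∀ u ∈ Q, (u ∈ x' ↔ u ∈ x)

theorem Agree.mono {Q Q' x x' : Finset U} (h : Agree Q x x') (hQ : Q' ⊆ Q) : Agree Q' x x' :=
  fun u hu => h u (hQ hu)

theorem Agree.inter_eq {Q x x' : Finset U} (h : Agree Q x x') : x' ∩ Q = x ∩ Q := by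
  ext u
  simp only [mem_inter]
  constructor
  · rintro ⟨h1, h2⟩; exact ⟨(h u h2).1 h1, h2⟩
  · rintro ⟨h1, h2⟩; exact ⟨(h u h2).2 h1, h2⟩

def Adapt (Q : Finset U → Finset U) : Prop := ∀ x x', Agree (Q x) x x' → Q x' = Q x

def chains (Q : Finset U → Finset U) (P : Finset U) : ℕ → Finset (Finset U)
  | 0 => {P}
  | s + 1 => (chains Q P s).biUnion fun P' => (Q P' \ P').image fun u => insert u P'

theorem chains_card (Q : Finset U → Finset U) (P : Finset U) (d : ℕ)
    (hd : ∀ x, (Q x).card ≤ d) (s : ℕ) : (chains Q P s).card ≤ d ^ s := by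
  induction s with
  | zero => simp [chains]
  | succ s ih =>
    rw [chains, pow_succ]
    refine (card_biUnion_le_card_mul _ _ d fun P' _ => ?_).trans (Nat.mul_le_mul_right _ ih)
    exact card_image_le.trans ((card_le_card sdiff_subset).trans (hd _))

theorem chains_spec (Q : Finset U → Finset U) (P : Finset U) (s : ℕ) :
    ∀ P' ∈ chains Q P s, P ⊆ P' ∧ P'.card = P.card + s := by
  induction s with
  | zero => intro P' h; simp only [chains, mem_singleton] at h; subst h; simp
  | succ s ih =>
    intro P' h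
    simp only [chains, mem_biUnion, mem_image, mem_sdiff] at h
    obtain ⟨P'', h1, u, ⟨_, hu⟩, rfl⟩ := h
    obtain ⟨h2, h3⟩ := ih P'' h1
    exact ⟨h2.trans (subset_insert _ _), by rw [card_insert_of_notMem hu, h3]; omega⟩

theorem chains_dichotomy (Q : Finset U → Finset U) (P x : Finset U) (hx : P ⊆ x) (t : ℕ) :
    (∃ P' ∈ chains Q P t, P' ⊆ x) ∨
      ∃ s < t, ∃ P' ∈ chains Q P s, P' ⊆ x ∧ Agree (Q P') P' x := by
  induction t with
  | zero => exact Or.inl ⟨P, by simp [chains], hx⟩
  | succ t ih =>
    rcases ih with ⟨P', h1, h2⟩ | ⟨s, hs, h⟩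
    · by_cases hA : Agree (Q P') P' x
      · exact Or.inr ⟨t, by omega, P', h1, h2, hA⟩
      · left
        simp only [Agree, not_forall] at hA
        obtain ⟨u, hu, hne⟩ := hA
        have hux : u ∈ x ∧ u ∉ P' := by
          by_cases h : u ∈ P'
          · exact absurd ⟨fun _ => h, fun _ => h2 h⟩ hne
          · exact ⟨by by_contra h'; exact hne ⟨fun a => absurd a h', fun a => absurd a h⟩, h⟩
        refine ⟨insert u P', ?_, insert_subset hux.1 h2⟩
        simp only [chains, mem_biUnion, mem_image, mem_sdiff]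
        exact ⟨P', h1, u, ⟨hu, hux.2⟩, rfl⟩
    · exact Or.inr ⟨s, by omega, h⟩

def iterQ (nxt : Finset U → Finset U → Finset U) (x : Finset U) : ℕ → Finset U
  | 0 => ∅
  | s + 1 => iterQ nxt x s ∪ nxt (iterQ nxt x s) (x ∩ iterQ nxt x s)

theorem iterQ_card (nxt : Finset U → Finset U → Finset U) (h : ℕ)
    (hh : ∀ W O, (nxt W O).card ≤ h) (x : Finset U) (s : ℕ) : (iterQ nxt x s).card ≤ s * h := by
  induction s with
  | zero => simp [iterQ]
  | succ s ih =>
    rw [iterQ]
    refine (card_union_le _ _).trans ?_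
    have := hh (iterQ nxt x s) (x ∩ iterQ nxt x s)
    rw [Nat.succ_mul]; omega

theorem iterQ_adapt (nxt : Finset U → Finset U → Finset U) (s : ℕ) :
    Adapt (fun x => iterQ nxt x s) := by
  induction s with
  | zero => intro x x' _; rfl
  | succ s ih =>
    intro x x' h
    have h1 : Agree (iterQ nxt x s) x x' := h.mono subset_union_left
    have h2 : iterQ nxt x' s = iterQ nxt x s := ih x x' h1
    simp only [iterQ, h2, h1.inter_eq]

theorem iterQ_stab (H : Finset U → Finset U) (x : Finset U) (s : ℕ) :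
    s ≤ (x ∩ iterQ (fun _ O => H O) x s).card ∨
      x ∩ H (x ∩ iterQ (fun _ O => H O) x s) ⊆ iterQ (fun _ O => H O) x s := by
  induction s with
  | zero => left; omega
  | succ s ih =>
    by_cases hst : x ∩ H (x ∩ iterQ (fun _ O => H O) x s) ⊆ iterQ (fun _ O => H O) x s
    · right
      have e : x ∩ iterQ (fun _ O => H O) x (s + 1) = x ∩ iterQ (fun _ O => H O) x s := by
        rw [iterQ, inter_union_distrib_left]
        apply union_eq_left.2
        intro u hu
        exact mem_inter.2 ⟨(mem_inter.1 hu).1, hst hu⟩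
      rw [e]
      exact hst.trans subset_union_left
    · left
      have h1 := ih.resolve_right hst
      obtain ⟨u, hu, hu'⟩ := not_subset.1 hst
      have : x ∩ iterQ (fun _ O => H O) x s ⊂ x ∩ iterQ (fun _ O => H O) x (s + 1) := by
        refine ⟨inter_subset_inter_left subset_union_left, fun h => hu' ?_⟩
        exact (mem_inter.1 (h (mem_inter.2 ⟨(mem_inter.1 hu).1,
          mem_union_right _ (mem_inter.1 hu).2⟩))).2
      have := card_lt_card this
      omega

def Cert (D : Finset U → Prop) (K : ℕ) (x c : Finset U) : Prop :=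
  c.card ≤ K ∧ ∀ x', Agree c x x' → D x'

def HasCert (D : Finset U → Prop) (K : ℕ) (x : Finset U) : Prop := ∃ c, Cert D K x c

open Classical in
noncomputable def certOf (D : Finset U → Prop) (K : ℕ) (x : Finset U) : Finset U :=
  if h : HasCert D K x then h.choose else ∅

theorem certOf_card (D : Finset U → Prop) (K : ℕ) (x : Finset U) : (certOf D K x).card ≤ K := by
  unfold certOf
  split_ifs with h
  · exact h.choose_spec.1
  · simp

theorem certOf_spec {D : Finset U → Prop} {K : ℕ} {x : Finset U} (h : HasCert D K x) :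
    Cert D K x (certOf D K x) := by
  unfold certOf
  rw [dif_pos h]
  exact h.choose_spec

/-! The tree for pairs with disjoint accepting sets. -/

def Thin (D : Finset U → Prop) (K r : ℕ) (x c : Finset U) : Prop :=
  Cert D K x c ∧ 2 * (x ∩ c).card ≤ r

def NpEx (D : Finset U → Prop) (K r : ℕ) (W O : Finset U) : Prop :=
  ∃ z : Finset U × Finset U, Thin D K r z.1 z.2 ∧ ∀ u ∈ z.2, u ∈ W → (u ∈ z.1 ↔ u ∈ O)

open Classical in
noncomputable def npNxt (D : Finset U → Prop) (K r : ℕ) (W O : Finset U) : Finset U :=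
  if h : NpEx D K r W O then h.choose.2 else ∅

noncomputable def npQ (D : Bool → Finset U → Prop) (K r : ℕ) (x : Finset U) : Finset U :=
  iterQ (npNxt (D true) K r) x (K + 1)

open Classical in
noncomputable def npOut (D : Bool → Finset U → Prop) (K r : ℕ) (x : Finset U) : Bool :=
  decide (¬ NpEx (D true) K r (npQ D K r x) (x ∩ npQ D K r x))

def Conf (D : Bool → Finset U → Prop) (K r : ℕ) : Prop :=
  ∀ x₀ c₀ x₁ c₁, Thin (D true) K r x₀ c₀ → Thin (D false) K r x₁ c₁ →
    ∃ u ∈ c₀, u ∈ c₁ ∧ ¬ (u ∈ x₀ ↔ u ∈ x₁)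

theorem npQ_card (D : Bool → Finset U → Prop) (K r : ℕ) (x : Finset U) :
    (npQ D K r x).card ≤ (K + 1) * K := by
  apply iterQ_card
  intro W O
  unfold npNxt
  split_ifs with h
  · exact h.choose_spec.1.1.1
  · simp

theorem npQ_adapt (D : Bool → Finset U → Prop) (K r : ℕ) : Adapt (npQ D K r) :=
  iterQ_adapt _ _

theorem npOut_loc (D : Bool → Finset U → Prop) (K r : ℕ) (x x' : Finset U)
    (h : Agree (npQ D K r x) x x') : npOut D K r x' = npOut D K r x := by
  unfold npOut
  rw [npQ_adapt D K r x x' h, h.inter_eq]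

theorem np_progress {D : Bool → Finset U → Prop} {K r : ℕ} (hC : Conf D K r) {x c₁ : Finset U}
    (h₁ : Thin (D false) K r x c₁) (s : ℕ) :
    NpEx (D true) K r (iterQ (npNxt (D true) K r) x s) (x ∩ iterQ (npNxt (D true) K r) x s) →
      s ≤ (c₁ ∩ iterQ (npNxt (D true) K r) x s).card := by
  induction s with
  | zero => intro _; omega
  | succ s ih =>
    intro h
    have h' : NpEx (D true) K r (iterQ (npNxt (D true) K r) x s)
        (x ∩ iterQ (npNxt (D true) K r) x s) := by
      obtain ⟨z, hz1, hz2⟩ := h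
      refine ⟨z, hz1, fun u hu hW => ?_⟩
      rw [hz2 u hu (mem_union_left _ hW)]
      simp only [mem_inter, iterQ, mem_union, hW, true_or, and_true]
    have h1 := ih h'
    obtain ⟨u, hu0, hu1, hne⟩ := hC _ _ _ _ h'.choose_spec.1 h₁
    have hnW : u ∉ iterQ (npNxt (D true) K r) x s := by
      intro hW
      apply hne
      rw [h'.choose_spec.2 u hu0 hW]
      simp [hW]
    have hin : u ∈ iterQ (npNxt (D true) K r) x (s + 1) := by
      rw [iterQ]
      apply mem_union_right
      rw [npNxt, dif_pos h']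
      exact hu0
    have : c₁ ∩ iterQ (npNxt (D true) K r) x s ⊂ c₁ ∩ iterQ (npNxt (D true) K r) x (s + 1) := by
      refine ⟨inter_subset_inter_left subset_union_left, fun h => hnW ?_⟩
      exact (mem_inter.1 (h (mem_inter.2 ⟨hu1, hin⟩))).2
    have := card_lt_card this
    omega

theorem np_correct {D : Bool → Finset U → Prop} {K r : ℕ} (hC : Conf D K r) {x : Finset U}
    (hthin : ∀ b, D b x → ∃ c, Thin (D b) K r x c) : ¬ D (npOut D K r x) x := by
  intro hD
  obtain ⟨c, hc⟩ := hthin _ hD
  by_cases h : NpEx (D true) K r (npQ D K r x) (x ∩ npQ D K r x)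
  · have e : npOut D K r x = false := by simp [npOut, h]
    rw [e] at hc
    have h1 := np_progress hC hc (K + 1) h
    have h2 := (card_le_card (inter_subset_left (s₁ := c)
      (s₂ := iterQ (npNxt (D true) K r) x (K + 1)))).trans hc.1.1
    omega
  · have e : npOut D K r x = true := by simp [npOut, h]
    rw [e] at hc
    exact h ⟨(x, c), hc, fun u _ hW => by simp [hW]⟩

end adapt

section co
variable {U : Type} [Fintype U] [DecidableEq U]

/-- The set of values of a tuple. -/
def im {m : ℕ} (y : Fin m → U) : Finset U := univ.image y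

omit [Fintype U] in
theorem im_card {m : ℕ} (y : Fin m → U) : (im y).card ≤ m := by
  simpa [im] using card_image_le (s := univ) (f := y)

open Classical in
noncomputable def coBit (D : Bool → Finset U → Prop) (K m : ℕ) (P : Finset U) : Bool :=
  decide (pr (fun B : Fin m → U => HasCert (D false) K (P ∪ im B)) < 2 / 5)

open Classical in
noncomputable def heavy (D : Bool → Finset U → Prop) (K m G : ℕ) (P : Finset U) : Finset U :=
  univ.filter fun u =>
    1 < (G : ℝ) * pr (fun B : Fin m → U => u ∈ certOf (D (coBit D K m P)) K (P ∪ im B))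

noncomputable def coQ (D : Bool → Finset U → Prop) (K m G R : ℕ) (x : Finset U) : Finset U :=
  iterQ (fun _ O => heavy D K m G O) x R

noncomputable def coOut (D : Bool → Finset U → Prop) (K m G R : ℕ) (x : Finset U) : Bool :=
  coBit D K m (x ∩ coQ D K m G R x)

theorem sum_pr_mem_le {β : Type} [Fintype β] (c : β → Finset U) (K : ℕ)
    (hc : ∀ B, (c B).card ≤ K) : ∑ u, pr (fun B => u ∈ c B) ≤ K := by
  classical
  simp only [pr_eq_sum]
  rw [← sum_div, sum_comm]
  rcases Nat.eq_zero_or_pos (Fintype.card β) with h0 | h0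
  · simp [h0]
  · rw [div_le_iff₀ (by exact_mod_cast h0)]
    have : ∀ B ∈ (univ : Finset β), (∑ u, if u ∈ c B then (1 : ℝ) else 0) ≤ K := by
      intro B _
      rw [sum_boole]
      have : (univ.filter fun u => u ∈ c B) = c B := by ext; simp
      rw [this]
      exact_mod_cast hc B
    simpa [mul_comm] using sum_le_card_nsmul univ _ _ this

theorem heavy_card (D : Bool → Finset U → Prop) (K m G : ℕ) (P : Finset U) :
    (heavy D K m G P).card ≤ G * K := by
  have h1 := sum_pr_mem_le (fun B : Fin m → U => certOf (D (coBit D K m P)) K (P ∪ im B)) K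
    fun B => certOf_card _ _ _
  have h2 : ((heavy D K m G P).card : ℝ) ≤ ∑ u ∈ heavy D K m G P, (G : ℝ) *
      pr (fun B : Fin m → U => u ∈ certOf (D (coBit D K m P)) K (P ∪ im B)) := by
    have := card_nsmul_le_sum (heavy D K m G P) (fun u => (G : ℝ) *
      pr (fun B : Fin m → U => u ∈ certOf (D (coBit D K m P)) K (P ∪ im B))) 1
      (fun u hu => by
        unfold heavy at hu
        exact (mem_filter.1 hu).2.le)
    simpa using this
  have h3 : ∑ u ∈ heavy D K m G P, (G : ℝ) *
      pr (fun B : Fin m → U => u ∈ certOf (D (coBit D K m P)) K (P ∪ im B)) ≤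
      ∑ u, (G : ℝ) *
      pr (fun B : Fin m → U => u ∈ certOf (D (coBit D K m P)) K (P ∪ im B)) :=
    sum_le_sum_of_subset_of_nonneg (subset_univ _) fun u _ _ =>
      mul_nonneg (by positivity) (pr_nonneg _)
  rw [← mul_sum univ] at h3
  have h4 := mul_le_mul_of_nonneg_left h1 (show (0 : ℝ) ≤ G by positivity)
  exact_mod_cast h2.trans (h3.trans h4)

theorem coQ_card (D : Bool → Finset U → Prop) (K m G R : ℕ) (x : Finset U) :
    (coQ D K m G R x).card ≤ R * (G * K) :=
  iterQ_card _ _ (fun _ O => heavy_card D K m G O) x R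

theorem coQ_adapt (D : Bool → Finset U → Prop) (K m G R : ℕ) : Adapt (coQ D K m G R) :=
  iterQ_adapt _ _

theorem coOut_loc (D : Bool → Finset U → Prop) (K m G R : ℕ) (x x' : Finset U)
    (h : Agree (coQ D K m G R x) x x') : coOut D K m G R x' = coOut D K m G R x := by
  unfold coOut
  rw [coQ_adapt D K m G R x x' h, h.inter_eq]

theorem coQ_stab (D : Bool → Finset U → Prop) (K m G R : ℕ) (x : Finset U) (hx : x.card < R) :
    x ∩ heavy D K m G (x ∩ coQ D K m G R x) ⊆ x ∩ coQ D K m G R x := by
  rcases iterQ_stab (heavy D K m G) x R with h | h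
  · have := card_le_card (inter_subset_left (s₁ := x)
      (s₂ := iterQ (fun _ O => heavy D K m G O) x R))
    omega
  · intro u hu
    exact mem_inter.2 ⟨(mem_inter.1 hu).1, h hu⟩

theorem exists_split (C m M : ℕ) (h : C * m ≤ M) :
    ∃ e : (Fin (M - C * m) → U) × (Fin C → Fin m → U) ≃ (Fin M → U),
      ∀ z u, u ∈ im (e z) ↔ (u ∈ im z.1 ∨ ∃ c, u ∈ im (z.2 c)) := by
  have hc : Fintype.card (Fin (M - C * m) ⊕ (Fin C × Fin m)) = Fintype.card (Fin M) := by
    simp; omega
  let e0 := Fintype.equivOfCardEq hc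
  refine ⟨(Equiv.prodCongr (Equiv.refl _) (Equiv.curry _ _ _).symm).trans
    ((Equiv.sumArrowEquivProdArrow _ _ _).symm.trans (Equiv.arrowCongr e0 (Equiv.refl U))), ?_⟩
  intro z u
  simp only [im, mem_image, mem_univ, true_and]
  rw [e0.surjective.exists]
  simp [Equiv.sumArrowEquivProdArrow, Function.uncurry]

theorem co_leaf [Nonempty U] (D : Bool → Finset U → Prop) (K m C X M : ℕ) (P P₀ : Finset U)
    (hX0 : 0 < X) (hM : C * m ≤ M) (hX : P₀.card + M ≤ X)
    (hmaj : pr (fun B : Fin m → U =>
      ¬ (HasCert (D false) K (P ∪ im B) ∨ HasCert (D true) K (P ∪ im B))) ≤ 1 / 5) :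
    pr (fun y : Fin M → U => P ⊆ P₀ ∪ im y ∧ (P₀ ∪ im y) ∩ heavy D K m (100 * X) P ⊆ P ∧
      ¬ D (coBit D K m P) (P₀ ∪ im y)) ≤ (9 / 10) ^ C := by
  classical
  obtain ⟨e, he⟩ := exists_split (U := U) C m M hM
  rw [← pr_equiv e]
  apply pr_prod_le _ _ (by positivity)
  intro r
  set b := coBit D K m P with hb
  have hgood : pr (fun B : Fin m → U => ¬ HasCert (D b) K (P ∪ im B)) ≤ 3 / 5 := by
    by_cases h : pr (fun B : Fin m → U => HasCert (D false) K (P ∪ im B)) < 2 / 5
    · have e1 : b = true := by simp [hb, coBit, h]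
      rw [e1]
      refine le_trans (pr_mono (F := fun B : Fin m → U => HasCert (D false) K (P ∪ im B) ∨
        ¬ (HasCert (D false) K (P ∪ im B) ∨ HasCert (D true) K (P ∪ im B))) ?_) ?_
      · intro B hB; tauto
      · exact (pr_or _ _).trans (by linarith)
    · have e1 : b = false := by simp [hb, coBit, h]
      rw [e1]
      have := pr_add_le_one (fun B : Fin m → U => HasCert (D false) K (P ∪ im B))
      linarith
  have hlt : ∀ Z : Finset U, Z.card ≤ X → pr (fun B : Fin m → U =>
      ∃ u ∈ certOf (D b) K (P ∪ im B) \ (heavy D K m (100 * X) P), u ∈ Z) ≤ 1 / 100 := by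
    intro Z hZ
    have hXr : (0 : ℝ) < X := by exact_mod_cast hX0
    refine le_trans (pr_mono (F := fun B : Fin m → U => ∃ u ∈ Z \ heavy D K m (100 * X) P,
      u ∈ certOf (D b) K (P ∪ im B)) ?_) ?_
    · rintro B ⟨u, hu, hz⟩
      exact ⟨u, mem_sdiff.2 ⟨hz, (mem_sdiff.1 hu).2⟩, (mem_sdiff.1 hu).1⟩
    · refine (pr_exists_le _ _ (1 / (100 * X)) ?_).trans ?_
      · intro u hu
        have h1 := (mem_sdiff.1 hu).2
        unfold heavy at h1
        simp only [mem_filter, mem_univ, true_and, not_lt] at h1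
        rw [le_div_iff₀ (by positivity)]
        push_cast at h1
        rw [← hb] at h1
        linarith
      · have : ((Z \ heavy D K m (100 * X) P).card : ℝ) ≤ X := by
          exact_mod_cast (card_le_card sdiff_subset).trans hZ
        rw [mul_one_div, div_le_div_iff₀ (by positivity) (by positivity)]
        linarith
  refine le_trans (pr_mono ?_) (pr_amplify C m X (fun B : Fin m → U => im B)
    (fun B => certOf (D b) K (P ∪ im B) \ (heavy D K m (100 * X) P))
    (fun B => HasCert (D b) K (P ∪ im B)) (P₀ ∪ im r) im_card ?_ hlt hgood)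
  · rintro ω ⟨h1, h2, h3⟩ c
    by_cases hg : HasCert (D b) K (P ∪ im (ω c))
    · right
      by_contra hno
      apply h3
      apply (certOf_spec hg).2
      intro u hu
      constructor
      · intro hx
        by_cases hP : u ∈ P
        · exact mem_union_left _ hP
        · have hH : u ∉ heavy D K m (100 * X) P := fun hH => hP (h2 (mem_inter.2 ⟨hx, hH⟩))
          by_contra hn
          apply hno
          refine ⟨u, mem_sdiff.2 ⟨hu, hH⟩, ?_⟩
          rcases mem_union.1 hx with h | h
          · exact Or.inl (mem_union_left _ h)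
          · rcases (he _ u).1 h with h | ⟨c', h⟩
            · exact Or.inl (mem_union_right _ h)
            · refine Or.inr ⟨c', ?_, h⟩
              rintro rfl
              exact hn (mem_union_right _ h)
      · intro hx
        rcases mem_union.1 hx with h | h
        · exact h1 h
        · exact mem_union_right _ ((he _ u).2 (Or.inr ⟨c, h⟩))
    · exact Or.inl hg
  · have := card_union_le P₀ (im r)
    have := im_card r
    omega

theorem pr_long_chain [Nonempty U] (Q : Finset U → Finset U) (d t M : ℕ) (P : Finset U)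
    (hd : ∀ x, (Q x).card ≤ d) :
    pr (fun y : Fin M → U => ∃ P' ∈ chains Q P t, P' ⊆ P ∪ im y) ≤
      ((d : ℝ) * M / Fintype.card U) ^ t := by
  refine (pr_exists_le _ _ (((M : ℝ) / Fintype.card U) ^ t) ?_).trans ?_
  · intro P' hP'
    obtain ⟨h1, h2⟩ := chains_spec Q P t P' hP'
    have := pr_subset_image (I := Fin M) (P' \ P) univ
    rw [card_sdiff_of_subset h1, h2, Nat.add_sub_cancel_left, Fintype.card_fin] at this
    refine le_trans (pr_mono ?_) this
    intro y hy u hu
    rcases mem_union.1 (hy (mem_sdiff.1 hu).1) with h | h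
    · exact absurd h (mem_sdiff.1 hu).2
    · exact h
  · rw [mul_div_assoc, mul_pow]
    apply mul_le_mul_of_nonneg_right _ (by positivity)
    exact_mod_cast chains_card Q P d hd t

end co

end Pool.Agent.Lib.MP_8a52c3_lc.Orc
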