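import Pool.Agent.Lib.MP_8a52c3_lc.RLDefs

/-! Boundaries and supports of sets of clauses. -/

open Finset
open scoped Classical

namespace Pool.Agent.Lib.MP_8a52c3_lc.RL

variable {n m c : ℕ} (φ : CNF n m c)

/-- The variables of a clause. -/
def vr (a : Fin m) : Finset (Fin n) := univ.image fun i => (φ a i).1

/-- The variables that occur in exactly one clause of `T`. -/
noncomputable def bd (T : Finset (Fin m)) : Finset (Fin n) :=
  univ.filter fun v => ∃ a ∈ T, v ∈ vr φ a ∧ ∀ a' ∈ T, v ∈ vr φ a' → a' = a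

/-- No nonempty small set of clauses has empty boundary. -/
def E0 (r : ℕ) : Prop := ∀ T : Finset (Fin m), T.card ≤ r → bd φ T = ∅ → T = ∅

/-- Sets of clauses of medium size have a large boundary. -/
def E1 (r D : ℕ) : Prop := ∀ T : Finset (Fin m), r < T.card → T.card ≤ 2 * r → D < (bd φ T).card

/-- The support of a set of variables. -/
noncomputable def sup (r : ℕ) (X : Finset (Fin n)) : Finset (Fin m) :=
  (univ.filter fun T : Finset (Fin m) => T.card ≤ r ∧ bd φ T ⊆ X).biUnion id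

/-- Sets of at most `d` variables with empty support. -/
noncomputable def good (r d : ℕ) : Finset (Finset (Fin n)) :=
  univ.filter fun t => t.card ≤ d ∧ sup φ r t = ∅

/-- Sets of at most `d` variables that contain no boundary of a set of more than `b` clauses. -/
noncomputable def fair (r d b : ℕ) : Finset (Finset (Fin n)) :=
  univ.filter fun t => t.card ≤ d ∧
    ∀ T : Finset (Fin m), b < T.card → T.card ≤ r → ¬ bd φ T ⊆ t

variable {φ} {r D : ℕ} {X Y : Finset (Fin n)} {T T' : Finset (Fin m)}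

lemma card_vr (a : Fin m) : (vr φ a).card ≤ c := card_image_le.trans (by simp)

lemma mem_bd {v : Fin n} :
    v ∈ bd φ T ↔ ∃ a ∈ T, v ∈ vr φ a ∧ ∀ a' ∈ T, v ∈ vr φ a' → a' = a := by simp [bd]

lemma bd_union : bd φ (T ∪ T') ⊆ bd φ T ∪ bd φ T' := fun v hv => by
  obtain ⟨a, ha, h1, h2⟩ := mem_bd.1 hv
  rcases mem_union.1 ha with h | h
  · exact mem_union_left _ (mem_bd.2 ⟨a, h, h1, fun a' h' => h2 a' (mem_union_left _ h')⟩)
  · exact mem_union_right _ (mem_bd.2 ⟨a, h, h1, fun a' h' => h2 a' (mem_union_right _ h')⟩)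

lemma subset_sup (h1 : T.card ≤ r) (h2 : bd φ T ⊆ X) : T ⊆ sup φ r X := fun _ ha =>
  mem_biUnion.2 ⟨T, by simp [h1, h2], ha⟩

lemma sup_mono (h : X ⊆ Y) : sup φ r X ⊆ sup φ r Y := fun a ha => by
  obtain ⟨T, hT, ha⟩ := mem_biUnion.1 ha
  exact subset_sup (mem_filter.1 hT).2.1 ((mem_filter.1 hT).2.2.trans h) ha

lemma E1.card_le (h : E1 φ r D) (hX : X.card ≤ D) (h1 : T.card ≤ 2 * r) (h2 : bd φ T ⊆ X) :
    T.card ≤ r := by
  by_contra! h3
  exact absurd ((card_le_card h2).trans hX) (h T h3 h1).not_ge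

lemma E1.sup_spec (h : E1 φ r D) (hX : X.card ≤ D) :
    (sup φ r X).card ≤ r ∧ bd φ (sup φ r X) ⊆ X := by
  suffices H : ∀ s : Finset (Finset (Fin m)), (∀ T ∈ s, T.card ≤ r ∧ bd φ T ⊆ X) →
      (s.biUnion id).card ≤ r ∧ bd φ (s.biUnion id) ⊆ X from H _ fun T hT => (mem_filter.1 hT).2
  intro s
  induction s using Finset.induction_on with
  | empty => exact fun _ => ⟨by simp, fun v hv => by simpa using mem_bd.1 hv⟩
  | insert T s _ ih =>
    intro hs
    obtain ⟨h1, h2⟩ := ih fun T' h' => hs T' (mem_insert_of_mem h')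
    obtain ⟨h3, h4⟩ := hs T (mem_insert_self _ _)
    rw [biUnion_insert]
    have h5 : bd φ (id T ∪ s.biUnion id) ⊆ X := bd_union.trans (union_subset h4 h2)
    exact ⟨h.card_le hX ((card_union_le _ _).trans (by simp only [id]; omega)) h5, h5⟩

end Pool.Agent.Lib.MP_8a52c3_lc.RL
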