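import Pool.Agent.Lib.MP_8a52c3_lc.RLFun
import Pool.Agent.Lib.MP_8a52c3_lc.RLSup

/-! The Alekhnovich and Razborov operator. -/

open Finset
open scoped Classical

namespace Pool.Agent.Lib.MP_8a52c3_lc.RL

variable {K : Type} [Field K] {n m c r D : ℕ} {φ : CNF n m c} {s t X : Finset (Fin n)}
  {f g : Fn K n}

/-- A graded injective rank of monomials. -/
noncomputable def rk (t : Finset (Fin n)) : ℕ :=
  t.card * Fintype.card (Finset (Fin n)) + Fintype.equivFin (Finset (Fin n)) t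

lemma rk_lt (h : s.card < t.card) : rk s < rk t := by
  have := (Fintype.equivFin (Finset (Fin n)) s).2
  have := Nat.mul_le_mul_right (Fintype.card (Finset (Fin n))) (Nat.succ_le_of_lt h)
  rw [Nat.succ_mul] at this
  unfold rk
  omega

lemma card_le_of_rk (h : rk s ≤ rk t) : s.card ≤ t.card := by
  by_contra! h'
  exact absurd h (rk_lt h').not_ge

lemma rk_inj (h : rk s = rk t) : s = t := by
  have h1 := (card_le_of_rk h.le).antisymm (card_le_of_rk h.ge)
  unfold rk at h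
  rw [h1] at h
  exact (Fintype.equivFin _).injective (Fin.ext (Nat.add_left_cancel h))

lemma rk_mono (h : s ⊆ t) : rk s ≤ rk t := by
  rcases h.eq_or_ssubset with rfl | h
  exacts [le_rfl, (rk_lt (card_lt_card h)).le]

/-- The basis of monomials. -/
noncomputable def bas (K : Type) [Field K] (n : ℕ) : Module.Basis (Finset (Fin n)) K (Fn K n) :=
  basisOfLinearIndependentOfCardEqFinrank chi_li (by simp)

lemma bas_eq : ⇑(bas K n) = chi K := coe_basisOfLinearIndependentOfCardEqFinrank _ _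

lemma mem_Sp {F : Set (Finset (Fin n))} : f ∈ Sp K F ↔ ∀ u, (bas K n).repr f u ≠ 0 → u ∈ F := by
  rw [Sp, ← bas_eq, Module.Basis.mem_span_image]
  simp [Set.subset_def]

lemma repr_chi (s t : Finset (Fin n)) : (bas K n).repr (chi K s) t = if s = t then 1 else 0 := by
  rw [← bas_eq, Module.Basis.repr_self, Finsupp.single_apply]

/-- The substitution of constants for the variables outside `W`. -/
noncomputable def sb (K : Type) [Field K] (W : Finset (Fin n)) (β : Fin n → Bool) :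
    Fn K n →ₗ[K] Fn K n := LinearMap.funLeft K K fun x i => if i ∈ W then x i else β i

lemma sb_chi (W : Finset (Fin n)) (β : Fin n → Bool) (u : Finset (Fin n)) :
    sb K W β (chi K u) = if ∀ i ∈ u, i ∉ W → β i = true then chi K (u ∩ W) else 0 := by
  funext x
  simp only [sb, LinearMap.funLeft_apply]
  split_ifs with h
  · simp only [chi]
    refine if_congr ⟨fun h' i hi => ?_, fun h' i hi => ?_⟩ rfl rfl
    · simpa [(mem_inter.1 hi).2] using h' i (mem_inter.1 hi).1
    · split_ifs with hw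
      exacts [h' i (mem_inter.2 ⟨hi, hw⟩), h i hi hw]
  · exact if_neg fun h' => h fun i hi hw => by simpa [hw] using h' i hi

lemma sb_mem {F G : Set (Finset (Fin n))} (W : Finset (Fin n)) (β : Fin n → Bool)
    (hf : f ∈ Sp K F) (h : ∀ u ∈ F, u ∩ W ∈ G) : sb K W β f ∈ Sp K G := by
  refine (Sp_le (I := (Sp K G).comap (sb K W β)) fun u hu => ?_) hf
  rw [Submodule.mem_comap, sb_chi]
  split_ifs
  exacts [chi_mem (h u hu), zero_mem _]

/-- Functions that vanish where all clauses of `T` hold. -/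
def van (K : Type) [Field K] (φ : CNF n m c) (T : Finset (Fin m)) : Submodule K (Fn K n) where
  carrier := {f | ∀ x, (∀ a ∈ T, SatC (φ a) x) → f x = 0}
  add_mem' hf hg x hx := by simp [hf x hx, hg x hx]
  zero_mem' _ _ := rfl
  smul_mem' a _ hf x hx := by simp [hf x hx]

lemma van_mono {T T' : Finset (Fin m)} (h : T ⊆ T') : van K φ T ≤ van K φ T' :=
  fun _ hf x hx => hf x fun a ha => hx a (h ha)

/-- A set of variables together with the variables of its support. -/
noncomputable def cl (φ : CNF n m c) (r : ℕ) (X : Finset (Fin n)) : Finset (Fin n) :=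
  X ∪ (sup φ r X).biUnion (vr φ)

lemma mem_cl {v : Fin n} : v ∈ cl φ r X ↔ v ∈ X ∨ ∃ a ∈ sup φ r X, v ∈ vr φ a := by simp [cl]

lemma sup_sub (h : E1 φ r D) (hX : X.card ≤ D) (ht : t.card ≤ D) (h1 : t ⊆ cl φ r X) :
    sup φ r t ⊆ sup φ r X := by
  obtain ⟨a1, a2⟩ := h.sup_spec hX
  obtain ⟨b1, b2⟩ := h.sup_spec ht
  have h2 : bd φ (sup φ r t ∪ sup φ r X) ⊆ X := fun v hv => by
    obtain ⟨a, ha, h3, h4⟩ := mem_bd.1 hv
    by_cases h5 : a ∈ sup φ r X
    · exact a2 (mem_bd.2 ⟨a, h5, h3, fun a' h' => h4 a' (mem_union_right _ h')⟩)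
    · rcases mem_cl.1 (h1 (b2 (mem_bd.2 ⟨a, (mem_union.1 ha).resolve_right h5, h3,
        fun a' h' => h4 a' (mem_union_left _ h')⟩))) with h6 | ⟨a', h6, h7⟩
      · exact h6
      · exact absurd (h4 a' (mem_union_right _ h6) h7 ▸ h6) h5
  exact subset_union_left.trans
    (subset_sup (h.card_le hX ((card_union_le _ _).trans (by omega)) h2) h2)

lemma cl_sub (h : E1 φ r D) (hX : X.card ≤ D) (ht : t.card ≤ D) (h1 : t ⊆ cl φ r X) :
    cl φ r t ⊆ cl φ r X := fun v hv => by
  rcases mem_cl.1 hv with h2 | ⟨a, h2, h3⟩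
  exacts [h1 h2, mem_cl.2 (Or.inr ⟨a, sup_sub h hX ht h1 h2, h3⟩)]

/-- Peeling. -/
lemma exists_beta (h : E1 φ r D) (ht : t.card ≤ D) (T : Finset (Fin m)) (h1 : T.card ≤ r)
    (h2 : sup φ r t ⊆ T) : ∃ β : Fin n → Bool, ∀ a ∈ T, a ∉ sup φ r t →
      ∃ i, (φ a i).1 ∉ cl φ r t ∧ β (φ a i).1 = (φ a i).2 := by
  induction T using Finset.strongInductionOn with
  | _ T ih =>
    by_cases h3 : bd φ T ⊆ t
    · exact ⟨fun _ => true, fun a ha h4 => absurd (subset_sup h1 h3 ha) h4⟩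
    obtain ⟨v, hv, hvt⟩ := not_subset.1 h3
    obtain ⟨a, ha, h4, h5⟩ := mem_bd.1 hv
    have h6 : a ∉ sup φ r t := fun h' =>
      hvt ((h.sup_spec ht).2 (mem_bd.2 ⟨a, h', h4, fun a' h'' => h5 a' (h2 h'')⟩))
    obtain ⟨β, hβ⟩ := ih (T.erase a) (erase_ssubset ha) ((card_erase_le).trans h1)
      fun a' h' => mem_erase.2 ⟨fun e => h6 (e ▸ h'), h2 h'⟩
    obtain ⟨i, -, rfl⟩ := mem_image.1 h4
    refine ⟨Function.update β (φ a i).1 (φ a i).2, fun a' ha' h7 => ?_⟩
    by_cases e : a' = a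
    · subst e
      refine ⟨i, fun h8 => ?_, Function.update_self ..⟩
      rcases mem_cl.1 h8 with h9 | ⟨a'', h9, h10⟩
      exacts [hvt h9, h6 (h5 a'' (h2 h9) h10 ▸ h9)]
    · obtain ⟨j, h8, h9⟩ := hβ a' (mem_erase.2 ⟨e, ha'⟩) h7
      refine ⟨j, h8, (Function.update_of_ne (fun h10 => e (h5 a' ha' ?_)) _ _).trans h9⟩
      exact mem_image.2 ⟨j, mem_univ _, h10⟩

/-- `g` reduces the monomial `t`. -/
def Red (φ : CNF n m c) (r : ℕ) (t : Finset (Fin n)) (g : Fn K n) : Prop :=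
  g ∈ van K φ (sup φ r t) ∧ g - chi K t ∈ Sp K {u | rk u < rk t ∧ u ⊆ cl φ r t}

lemma exists_red (h : E1 φ r D) (ht : t.card ≤ D) {T : Finset (Fin m)} (h1 : T.card ≤ r)
    (h2 : sup φ r t ⊆ T) (hf : f ∈ van K φ T) (h3 : f - chi K t ∈ Sp K {u | rk u < rk t}) :
    ∃ g : Fn K n, Red φ r t g := by
  obtain ⟨β, hβ⟩ := exists_beta h ht T h1 h2
  refine ⟨sb K (cl φ r t) β f, fun x hx => hf _ fun a ha => ?_, ?_⟩
  · by_cases h4 : a ∈ sup φ r t
    · obtain ⟨i, hi⟩ := hx a h4
      exact ⟨i, (if_pos (mem_cl.2 (Or.inr ⟨a, h4, mem_image.2 ⟨i, mem_univ _, rfl⟩⟩))).trans hi⟩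
    · obtain ⟨i, h5, h6⟩ := hβ a ha h4
      exact ⟨i, (if_neg h5).trans h6⟩
  · have h4 : t ⊆ cl φ r t := subset_union_left
    have h5 : sb K (cl φ r t) β (chi K t) = chi K t := by
      rw [sb_chi, if_pos fun i hi hw => absurd (h4 hi) hw, inter_eq_left.2 h4]
    rw [← h5, ← map_sub]
    exact sb_mem _ _ h3 fun u hu => ⟨(rk_mono inter_subset_left).trans_lt hu, inter_subset_right⟩

/-- The chosen reduction of a monomial. -/
noncomputable def gt (K : Type) [Field K] (φ : CNF n m c) (r : ℕ) (t : Finset (Fin n)) : Fn K n :=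
  if h : ∃ g : Fn K n, Red φ r t g then h.choose else 0

lemma gt_red (h : gt K φ r t ≠ 0) : Red φ r t (gt K φ r t) := by
  unfold gt at h ⊢
  split_ifs at h ⊢ with h'
  exacts [h'.choose_spec, absurd rfl h]

lemma Red.self (h : Red φ r t g) : (bas K n).repr g t = 1 := by
  by_contra h'
  refine lt_irrefl _ (mem_Sp.1 h.2 t ?_).1
  simpa [repr_chi, sub_eq_zero] using h'

lemma Red.of_ne (h : Red φ r t g) {u : Finset (Fin n)} (hu : (bas K n).repr g u ≠ 0) :
    rk u ≤ rk t ∧ u ⊆ cl φ r t := by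
  by_cases e : t = u
  · exact e ▸ ⟨le_rfl, subset_union_left⟩
  · exact (mem_Sp.1 h.2 u (by simpa [repr_chi, e] using hu)).imp le_of_lt id

/-- The span of the chosen reductions. -/
noncomputable def idl (K : Type) [Field K] (φ : CNF n m c) (r : ℕ) (A : Set (Finset (Fin n))) :
    Submodule K (Fn K n) := Submodule.span K (gt K φ r '' A)

lemma main_red (h : E1 φ r D) (hX : X.card ≤ D) (i : ℕ) : ∀ f ∈ van K φ (sup φ r X),
    f ∈ Sp K {u | rk u < i ∧ u.card ≤ D ∧ u ⊆ cl φ r X} → f ∈ idl K φ r {t | t.card ≤ D} := by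
  induction i with
  | zero =>
    intro f _ hf
    simp only [Sp, Nat.not_lt_zero, false_and, Set.ofPred_false, Set.image_empty,
      Submodule.span_empty, Submodule.mem_bot] at hf
    exact hf ▸ zero_mem _
  | succ i ih =>
    intro f h1 h2
    rw [mem_Sp] at h2
    by_cases h3 : ∃ t, (bas K n).repr f t ≠ 0 ∧ rk t = i
    swap
    · push Not at h3
      exact ih f h1 (mem_Sp.2 fun u hu =>
        ⟨lt_of_le_of_ne (Nat.le_of_lt_succ (h2 u hu).1) (h3 u hu), (h2 u hu).2⟩)
    obtain ⟨t, ht, rfl⟩ := h3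
    obtain ⟨-, t1, t2⟩ := h2 t ht
    have hlt : ∀ u, rk u ≤ rk t → u ≠ t → rk u < rk t := fun u h4 h5 =>
      lt_of_le_of_ne h4 fun e => h5 (rk_inj e)
    have h4 : ∃ g : Fn K n, Red φ r t g := by
      refine exists_red (f := ((bas K n).repr f t)⁻¹ • f) h t1 (h.sup_spec hX).1
        (sup_sub h hX t1 t2) (Submodule.smul_mem _ _ h1) (mem_Sp.2 fun u hu => ?_)
      have e : u ≠ t := by
        rintro rfl
        simp [repr_chi, ht] at hu
      refine hlt u (Nat.le_of_lt_succ (h2 u fun h5 => hu ?_).1) e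
      simp [repr_chi, h5, e.symm]
    have h5 : Red φ r t (gt K φ r t) := by
      rw [gt, dif_pos h4]
      exact h4.choose_spec
    have h6 := ih (f - (bas K n).repr f t • gt K φ r t)
      (sub_mem h1 (Submodule.smul_mem _ _ (van_mono (sup_sub h hX t1 t2) h5.1)))
      (mem_Sp.2 fun u hu => by
        have e : u ≠ t := by
          rintro rfl
          simp [h5.self] at hu
        by_cases h7 : (bas K n).repr f u = 0
        · have h8 := h5.of_ne (u := u) fun h9 => hu (by simp [h7, h9])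
          exact ⟨hlt u h8.1 e, (card_le_of_rk h8.1).trans t1, h8.2.trans (cl_sub h hX t1 t2)⟩
        · exact ⟨hlt u (Nat.le_of_lt_succ (h2 u h7).1) e, (h2 u h7).2⟩)
    rw [← sub_add_cancel f ((bas K n).repr f t • gt K φ r t)]
    exact add_mem h6 (Submodule.smul_mem _ _ (Submodule.subset_span ⟨t, t1, rfl⟩))

lemma mem_idl (h : E1 φ r D) (hX : X.card ≤ D) (h1 : f ∈ van K φ (sup φ r X))
    (h2 : f ∈ Sp K {u | u.card ≤ D ∧ u ⊆ cl φ r X}) : f ∈ idl K φ r {t | t.card ≤ D} :=
  main_red h hX (univ.sup rk + 1) f h1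
    (Sp_mono (fun u hu => And.intro (Nat.lt_succ_of_le (le_sup (mem_univ u))) hu) h2)

/-- The leading monomial of an element of the span. -/
lemma lead {A : Set (Finset (Fin n))} (hf : f ∈ idl K φ r A) (h0 : f ≠ 0) :
    ∃ t, gt K φ r t ≠ 0 ∧ (bas K n).repr f t ≠ 0 ∧ f ∈ idl K φ r {u | rk u ≤ rk t} := by
  obtain ⟨a, ha⟩ := (Submodule.mem_span_range_iff_exists_fun K).1
    (Submodule.span_mono (Set.image_subset_range _ _) hf)
  rw [← sum_filter_ne_zero] at ha
  obtain ⟨t, ht, hm⟩ := exists_max_image _ rk (nonempty_of_sum_ne_zero (ha ▸ h0))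
  have hne : ∀ u ∈ univ.filter fun u => a u • gt K φ r u ≠ 0, a u ≠ 0 ∧ gt K φ r u ≠ 0 :=
    fun u hu => smul_ne_zero_iff.1 (mem_filter.1 hu).2
  refine ⟨t, (hne t ht).2, ?_, ha ▸ Submodule.sum_mem _ fun u hu =>
    Submodule.smul_mem _ _ (Submodule.subset_span ⟨u, hm u hu, rfl⟩)⟩
  rw [← ha, map_sum, Finsupp.finsetSum_apply, sum_eq_single_of_mem t ht]
  · simpa [(gt_red (hne t ht).2).self] using (hne t ht).1
  · intro u hu e
    by_contra h1
    have h2 := (gt_red (hne u hu).2).of_ne (u := t) fun h3 => h1 (by simp [h3])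
    exact e (rk_inj ((hm u hu).antisymm h2.1))

/-- A space that contains the bounded degree closure of the clauses and no combination of good
monomials. -/
theorem exists_closure (K : Type) [Field K] {φ : CNF n m c} {r D : ℕ} (h : E1 φ r D) (hr : 0 < r)
    (hc : c ≤ D) :
    ∃ I : Submodule K (Fn K n), (∀ a, fc K (φ a) ∈ I) ∧
      (∀ d e f g, f ∈ I → f ∈ Pd K n d → g ∈ Pd K n e → d + e ≤ D → f * g ∈ I) ∧
      ∀ f ∈ I, f ∈ Sp K (good φ r D : Set (Finset (Fin n))) → f = 0 := by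
  refine ⟨idl K φ r {t | t.card ≤ D}, fun a => ?_, fun d e f g h1 h2 h3 h4 => ?_,
    fun f h1 h2 => ?_⟩
  · have h1 : a ∈ sup φ r (vr φ a) := by
      refine subset_sup (T := {a}) (by simpa) (fun v hv => ?_) (mem_singleton_self a)
      obtain ⟨b, hb, h2, -⟩ := mem_bd.1 hv
      exact mem_singleton.1 hb ▸ h2
    refine mem_idl h ((card_vr a).trans hc) (fun x hx => if_pos (hx a h1)) ?_
    have h2 : sb K (vr φ a) (fun _ => true) (fc K (φ a)) = fc K (φ a) := by
      funext x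
      simp [sb, fc, SatC, vr]
    rw [← h2]
    exact sb_mem _ _ (fc_mem _) fun u hu => ⟨(card_le_card inter_subset_left).trans
      (le_trans hu hc), inter_subset_right.trans subset_union_left⟩
  · by_cases h0 : f = 0
    · simp [h0]
    obtain ⟨t, -, t2, t3⟩ := lead h1 h0
    have t4 : t.card ≤ d := mem_Sp.1 h2 t t2
    refine (Submodule.span_le.2 ?_ : _ ≤ Submodule.comap (LinearMap.mulRight K g)
      (idl K φ r {t | t.card ≤ D})) t3
    rintro _ ⟨s, hs, rfl⟩
    have s1 : s.card ≤ d := (card_le_of_rk hs).trans t4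
    change gt K φ r s * g ∈ idl K φ r {t | t.card ≤ D}
    by_cases s0 : gt K φ r s = 0
    · simp [s0]
    refine mul_mem_of_Sp h3 fun u hu => ?_
    have u1 : u.card ≤ e := hu
    have u2 : (s ∪ u).card ≤ D := (card_union_le _ _).trans (by omega)
    refine mem_idl h u2 (fun x hx => ?_) (Sp_mul (F := {w | w.card ≤ d ∧ w ⊆ cl φ r s})
      (G := {u}) (mem_Sp.2 fun w hw => ?_) (chi_mem rfl) ?_)
    · rw [Pi.mul_apply, van_mono (sup_mono subset_union_left) (gt_red s0).1 x hx, zero_mul]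
    · exact ((gt_red s0).of_ne hw).imp (fun h5 => (card_le_of_rk h5).trans s1) id
    · rintro w ⟨w1, w2⟩ _ rfl
      refine ⟨(card_union_le _ _).trans (by omega), union_subset (w2.trans (cl_sub h u2
        (by omega) (subset_union_left.trans subset_union_left))) ?_⟩
      exact subset_union_right.trans subset_union_left
  · by_contra h0
    obtain ⟨t, t1, t2, -⟩ := lead h1 h0
    have t3 : sup φ r t = ∅ := (mem_filter.1 (mem_coe.1 (mem_Sp.1 h2 t t2))).2.2
    exact t1 (funext fun x => (gt_red t1).1 x (by simp [t3]))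

end Pool.Agent.Lib.MP_8a52c3_lc.RL
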