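import Pool.Agent.Lib.MP_8a52c3_lc.RLRand

/-! The union bound for small boundaries. -/

open Finset
open scoped Classical

namespace Pool.Agent.Lib.MP_8a52c3_lc.RL

variable {n m c : ℕ}

lemma bd_choose (n w : ℕ) : (n.choose w : ℝ) * w ^ w ≤ (3 * n) ^ w :=
  calc (n.choose w : ℝ) * w ^ w ≤ n ^ w / w.factorial * w ^ w := by
        gcongr; exact Nat.choose_le_pow_div w n
    _ = w ^ w / w.factorial * n ^ w := by ring
    _ ≤ Real.exp 1 ^ w * n ^ w := by
        rw [Real.exp_one_pow]; gcongr; exact Real.pow_div_factorial_le_exp _ w.cast_nonneg w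
    _ ≤ 3 ^ w * n ^ w := by gcongr; exact Real.exp_one_lt_d9.le.trans (by norm_num)
    _ = _ := (mul_pow _ _ _).symm

lemma bd_num (hn : 0 < n) {u : ℕ} {y : ℝ} (y0 : 0 ≤ y) (y1 : y ≤ 1) (h : 3 * (u : ℝ) ≤ y ^ 2 * n) :
    (n.choose (u / 2) : ℝ) * (((u / 2 : ℕ) : ℝ) / n) ^ u ≤ y ^ u := by
  have hn' : (0 : ℝ) < n := by exact_mod_cast hn
  obtain ⟨w, hw⟩ : ∃ w, w = u / 2 := ⟨_, rfl⟩
  obtain ⟨e, he⟩ : ∃ e, u = w + w + e := ⟨u % 2, by omega⟩
  have h1 : (w : ℝ) ≤ u := by exact_mod_cast (by omega : w ≤ u)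
  have h2 : 3 * ((w : ℝ) / n) ≤ y ^ 2 := by
    rw [← mul_div_assoc, div_le_iff₀ hn']; linarith
  have h0 : 0 ≤ (w : ℝ) / n := by positivity
  have h3 : (w : ℝ) / n ≤ y := by nlinarith
  have h4 : (n.choose w : ℝ) * (w / n) ^ w ≤ 3 ^ w := by
    rw [div_pow, ← mul_div_assoc, div_le_iff₀ (by positivity), ← mul_pow]
    exact bd_choose n w
  rw [← hw, he]
  calc (n.choose w : ℝ) * (w / n) ^ (w + w + e)
      = n.choose w * (w / n) ^ w * (w / n) ^ w * (w / n) ^ e := by ring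
    _ ≤ 3 ^ w * (w / n) ^ w * y ^ e := by gcongr
    _ ≤ (y ^ 2) ^ w * y ^ e := by rw [← mul_pow]; gcongr
    _ = _ := by ring

lemma bd_prod (hn : 0 < n) (A : Fin m × Fin c → Finset (Fin n)) :
    pr n m c (fun φ => ∀ p : Fin m × Fin c, (φ p.1 p.2).1 ∈ A p) = ∏ p, ((A p).card : ℝ) / n := by
  have hn' : (0 : ℝ) < n := by exact_mod_cast hn
  have e : (univ.filter fun φ : CNF n m c => ∀ p : Fin m × Fin c, (φ p.1 p.2).1 ∈ A p) =
      Fintype.piFinset fun a => Fintype.piFinset fun i => A (a, i) ×ˢ (univ : Finset Bool) := by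
    ext φ
    simp
  have h : ((univ.filter fun φ : CNF n m c => ∀ p : Fin m × Fin c, (φ p.1 p.2).1 ∈ A p).card : ℝ) =
      ∏ p, ((A p).card : ℝ) * 2 := by
    rw [e, Fintype.prod_prod_type]
    simp [Fintype.card_piFinset]
  have h2 : (2 * n : ℝ) ^ (c * m) = ∏ _p : Fin m × Fin c, (2 * n : ℝ) := by simp [mul_comm]
  have h3 : (∏ p, ((A p).card : ℝ) * 2) / (2 * n : ℝ) ^ (c * m) = ∏ p, ((A p).card : ℝ) / n := by
    rw [h2, ← prod_div_distrib]
    exact prod_congr rfl fun p _ => by field_simp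
  rw [pr, card_CNF, ← h3, ← h]
  congr

lemma bd_cover {φ : CNF n m c} {T : Finset (Fin m)} {t : Finset (Fin n)} (h : bd φ T ⊆ t)
    (hT : T.card * c ≤ n) : ∃ P ∈ (T ×ˢ (univ : Finset (Fin c))).powerset,
      ∃ U ∈ powersetCard (P.card / 2) (univ : Finset (Fin n)), ∀ p : Fin m × Fin c,
        (φ p.1 p.2).1 ∈ if p ∈ P then U else if p ∈ T ×ˢ (univ : Finset (Fin c)) then t else univ := by
  set P := (T ×ˢ (univ : Finset (Fin c))).filter fun p => (φ p.1 p.2).1 ∉ t with hP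
  have h1 : 2 * (P.image fun p => (φ p.1 p.2).1).card ≤ P.card := by
    refine mul_card_image_le_card _ _ fun v hv => ?_
    obtain ⟨⟨a, i⟩, hp, rfl⟩ := mem_image.1 hv
    have h2 := mem_filter.1 hp
    have h3 := mt (fun h' => h (mem_bd.2 h')) h2.2
    push Not at h3
    obtain ⟨a', h4, h5, h6⟩ := h3 a (mem_product.1 h2.1).1 (mem_image.2 ⟨i, mem_univ _, rfl⟩)
    obtain ⟨i', -, h7⟩ := mem_image.1 h5
    refine one_lt_card.2 ⟨(a, i), mem_filter.2 ⟨hp, rfl⟩, (a', i'), mem_filter.2 ⟨mem_filter.2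
      ⟨by simpa using h4, h7 ▸ h2.2⟩, h7⟩, fun e => h6 (congrArg Prod.fst e).symm⟩
  have h2 : P.card ≤ T.card * c := (card_filter_le _ _).trans (by simp)
  obtain ⟨U, h3, h4⟩ := exists_superset_card_eq (s := P.image fun p => (φ p.1 p.2).1)
    (n := P.card / 2) (by omega) (by simp; omega)
  refine ⟨P, mem_powerset.2 (filter_subset _ _), U, mem_powersetCard.2 ⟨subset_univ _, h4⟩,
    fun p => ?_⟩
  split_ifs with h5 h6
  · exact h3 (mem_image_of_mem _ h5)
  · by_contra h7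
    exact h5 (mem_filter.2 ⟨h6, h7⟩)
  · exact mem_univ _

/-- The basic union bound. -/
theorem pr_bd (hn : 0 < n) (t : Finset (Fin n)) {j : ℕ} (hj : 0 < j) {τ y : ℝ} (y0 : 0 ≤ y)
    (y1 : y ≤ 1) (ht : (t.card : ℝ) ≤ τ * n) (hy : 3 * c * j ≤ y ^ 2 * n) :
    pr n m c (fun φ => ∃ T : Finset (Fin m), T.card = j ∧ bd φ T ⊆ t) ≤
      (3 * m / j * (τ + y) ^ c) ^ j := by
  have hn' : (0 : ℝ) < n := by exact_mod_cast hn
  have ht' : (t.card : ℝ) / n ≤ τ := (div_le_iff₀ hn').2 ht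
  have τ0 : 0 ≤ τ := le_trans (by positivity) ht'
  have hjc : j * c ≤ n := by
    have h1 : y ^ 2 * n ≤ n := mul_le_of_le_one_left hn'.le (pow_le_one₀ y0 y1)
    have h2 : (0 : ℝ) ≤ c * j := by positivity
    have h3 : (j : ℝ) * c ≤ n := by linarith
    exact_mod_cast h3
  have key : ∀ T ∈ powersetCard j (univ : Finset (Fin m)),
      pr n m c (fun φ => bd φ T ⊆ t) ≤ ((τ + y) ^ c) ^ j := fun T hT => by
    have hT' := (mem_powersetCard.1 hT).2
    have hQ : (T ×ˢ (univ : Finset (Fin c))).card = c * j := by simp [hT', mul_comm]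
    refine (pr_mono fun φ h => bd_cover h (hT' ▸ hjc)).trans ((pr_exists _ _).trans ?_)
    rw [← pow_mul, ← hQ, add_comm, ← sum_pow_mul_eq_add_pow]
    refine sum_le_sum fun P hP => (pr_exists _ _).trans ?_
    have hP' := mem_powerset.1 hP
    have h1 : 3 * (P.card : ℝ) ≤ y ^ 2 * n := by
      have : (P.card : ℝ) ≤ c * j := by exact_mod_cast hQ ▸ card_le_card hP'
      linarith
    refine le_trans (sum_le_card_nsmul _ _ ((((P.card / 2 : ℕ) : ℝ) / n) ^ P.card *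
      τ ^ ((T ×ˢ (univ : Finset (Fin c))).card - P.card)) fun U hU => ?_) ?_
    · rw [bd_prod hn, ← card_sdiff_of_subset hP', ← (mem_powersetCard.1 hU).2, ← prod_const,
        ← prod_const, ← univ_inter P, ← univ_inter (_ \ _), ← prod_ite_mem, ← prod_ite_mem,
        ← prod_mul_distrib]
      refine prod_le_prod (fun p _ => by positivity) fun p _ => ?_
      by_cases h2 : p ∈ P
      · simp [h2]
      · by_cases h3 : p ∈ T ×ˢ (univ : Finset (Fin c))
        · simpa [h2, h3, -mem_product] using ht'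
        · simp [h2, h3, -mem_product, hn'.ne']
    · rw [card_powersetCard, card_univ, Fintype.card_fin, nsmul_eq_mul, ← mul_assoc]
      gcongr
      exact bd_num hn y0 y1 h1
  refine (pr_mono (Q := fun φ => ∃ T ∈ powersetCard j (univ : Finset (Fin m)), bd φ T ⊆ t)
    fun φ ⟨T, h1, h2⟩ => ⟨T, mem_powersetCard.2 ⟨subset_univ _, h1⟩, h2⟩).trans
    ((pr_exists _ _).trans ((sum_le_card_nsmul _ _ _ key).trans ?_))
  rw [card_powersetCard, card_univ, Fintype.card_fin, nsmul_eq_mul, mul_pow, div_pow]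
  gcongr
  rw [le_div_iff₀ (by positivity)]
  exact bd_choose m j

end Pool.Agent.Lib.MP_8a52c3_lc.RL
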