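import Mathlib

/-! Resolution over polynomial equations of bounded degree (definitions). -/

namespace Pool.Agent.Lib.MP_8a52c3_lc.RL

/-- A formula with `m` clauses of `c` literals over `n` variables; the literal `(v, b)` says
that the variable `v` has the value `b`. -/
abbrev CNF (n m c : ℕ) : Type := Fin m → Fin c → Fin n × Bool

/-- The clause `C` is true under the assignment `x`. -/
def SatC {n c : ℕ} (C : Fin c → Fin n × Bool) (x : Fin n → Bool) : Prop := ∃ i, x (C i).1 = (C i).2

/-- The disjunction of the equations `f = 0`, `f ∈ L`, is true at the `0/1` point `x`. -/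
def Holds {K : Type} [Field K] {n : ℕ} (L : Finset (MvPolynomial (Fin n) K)) (x : Fin n → Bool) :
    Prop := ∃ f ∈ L, MvPolynomial.eval (fun i => if x i then 1 else 0) f = 0

/-- `L` is a dag-like refutation of `φ` with `S` lines: every line is a disjunction of
polynomial equations of degree at most `k`, follows on `0/1` points from one clause or from two
earlier lines, and some line is false at all `0/1` points. -/
def Refutes {K : Type} [Field K] {n m c : ℕ} (φ : CNF n m c) (k S : ℕ)
    (L : Fin S → Finset (MvPolynomial (Fin n) K)) : Prop :=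
  (∀ v, ∀ f ∈ L v, f.totalDegree ≤ k) ∧
  (∀ v, (∃ a, ∀ x, SatC (φ a) x → Holds (L v) x) ∨
    ∃ u < v, ∃ w < v, ∀ x, Holds (L u) x → Holds (L w) x → Holds (L v) x) ∧
  ∃ v, ∀ x, ¬ Holds (L v) x

end Pool.Agent.Lib.MP_8a52c3_lc.RL
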