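import Pool.Agent.Lib.MP_8a52c3_lc.RLSup

/-! Weighted counts of sets of variables. -/

open Finset
open scoped Classical

namespace Pool.Agent.Lib.MP_8a52c3_lc.RL

variable {n m c : ℕ}

lemma sum_pow_card (y : ℝ) : ∑ t : Finset (Fin n), y ^ t.card = (1 + y) ^ n := by
  have h := Finset.sum_pow_mul_eq_add_pow y 1 (univ : Finset (Fin n))
  simp only [one_pow, mul_one, powerset_univ, card_univ, Fintype.card_fin] at h
  rw [h, add_comm]

/-- The number of small sets. -/
lemma card_small_le (d : ℕ) {y : ℝ} (h0 : 0 < y) (h1 : y ≤ 1) :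
    ((univ.filter fun t : Finset (Fin n) => t.card ≤ d).card : ℝ) ≤ (1 + y) ^ n / y ^ d := by
  rw [le_div_iff₀ (pow_pos h0 d), ← sum_pow_card (n := n) y]
  calc ((univ.filter fun t : Finset (Fin n) => t.card ≤ d).card : ℝ) * y ^ d
      = ∑ _t ∈ univ.filter fun t : Finset (Fin n) => t.card ≤ d, y ^ d := by
        rw [sum_const, nsmul_eq_mul]
    _ ≤ ∑ t ∈ univ.filter fun t : Finset (Fin n) => t.card ≤ d, y ^ t.card :=
        sum_le_sum fun t ht => pow_le_pow_of_le_one h0.le h1 (mem_filter.1 ht).2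
    _ ≤ ∑ t : Finset (Fin n), y ^ t.card :=
        sum_le_sum_of_subset_of_nonneg (filter_subset _ _) fun t _ _ => pow_nonneg h0.le _

lemma sum_mem_le {y : ℝ} (h0 : 0 ≤ y) (i : Fin n) :
    ∑ t ∈ univ.filter fun t : Finset (Fin n) => i ∈ t, y ^ t.card ≤ y * (1 + y) ^ n := by
  rw [← sum_pow_card (n := n) y, mul_sum]
  have hinj : Set.InjOn (fun t : Finset (Fin n) => t.erase i)
      (↑(univ.filter fun t : Finset (Fin n) => i ∈ t) : Set (Finset (Fin n))) := by
    intro s hs t ht h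
    have hs' : i ∈ s := (mem_filter.1 (mem_coe.1 hs)).2
    have ht' : i ∈ t := (mem_filter.1 (mem_coe.1 ht)).2
    rw [← insert_erase hs', ← insert_erase ht']
    exact congrArg _ h
  calc ∑ t ∈ univ.filter fun t : Finset (Fin n) => i ∈ t, y ^ t.card
      = ∑ t ∈ univ.filter fun t : Finset (Fin n) => i ∈ t, y * y ^ (t.erase i).card := by
        refine sum_congr rfl fun t ht => ?_
        rw [← card_erase_add_one (mem_filter.1 ht).2, pow_succ']
    _ = ∑ u ∈ (univ.filter fun t : Finset (Fin n) => i ∈ t).image (fun t => t.erase i),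
          y * y ^ u.card := (sum_image (f := fun u : Finset (Fin n) => y * y ^ u.card) hinj).symm
    _ ≤ ∑ u : Finset (Fin n), y * y ^ u.card :=
        sum_le_sum_of_subset_of_nonneg (subset_univ _) fun t _ _ =>
          mul_nonneg h0 (pow_nonneg h0 _)

lemma sum_card_mul_le {y : ℝ} (h0 : 0 ≤ y) :
    ∑ t : Finset (Fin n), (t.card : ℝ) * y ^ t.card ≤ n * (y * (1 + y) ^ n) := by
  calc ∑ t : Finset (Fin n), (t.card : ℝ) * y ^ t.card
      = ∑ t : Finset (Fin n), ∑ i : Fin n, if i ∈ t then y ^ t.card else 0 := by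
        refine sum_congr rfl fun t _ => ?_
        rw [← sum_filter, sum_const, nsmul_eq_mul]
        congr 2
        congr 1
        ext i
        simp
    _ = ∑ i : Fin n, ∑ t ∈ univ.filter fun t : Finset (Fin n) => i ∈ t, y ^ t.card := by
        rw [sum_comm]
        exact sum_congr rfl fun i _ => (sum_filter _ _).symm
    _ ≤ ∑ _i : Fin n, y * (1 + y) ^ n := sum_le_sum fun i _ => sum_mem_le h0 i
    _ = n * (y * (1 + y) ^ n) := by rw [sum_const, card_univ, Fintype.card_fin, nsmul_eq_mul]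

/-- Markov's inequality for the size of a random set. -/
lemma weight_small {d : ℕ} {y : ℝ} (h0 : 0 ≤ y) (hd : 2 * y * n ≤ d + 1) :
    (1 + y) ^ n / 2 ≤ ∑ t ∈ univ.filter fun t : Finset (Fin n) => t.card ≤ d, y ^ t.card := by
  have hs := sum_filter_add_sum_filter_not (univ : Finset (Finset (Fin n)))
    (fun t => t.card ≤ d) (fun t => y ^ t.card)
  rw [sum_pow_card] at hs
  have hP : (0 : ℝ) ≤ (1 + y) ^ n := pow_nonneg (by linarith) _
  have h1 : ((d : ℝ) + 1) * ∑ t ∈ univ.filter fun t : Finset (Fin n) => ¬ t.card ≤ d, y ^ t.card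
      ≤ n * (y * (1 + y) ^ n) := by
    refine le_trans ?_ (sum_card_mul_le h0)
    rw [mul_sum]
    refine le_trans (sum_le_sum fun t ht => ?_)
      (sum_le_sum_of_subset_of_nonneg (filter_subset (fun t : Finset (Fin n) => ¬ t.card ≤ d) _)
        fun t _ _ => mul_nonneg (Nat.cast_nonneg _) (pow_nonneg h0 _))
    refine mul_le_mul_of_nonneg_right ?_ (pow_nonneg h0 _)
    have : d + 1 ≤ t.card := by have := (mem_filter.1 ht).2; omega
    exact_mod_cast this
  have h2 : (n : ℝ) * (y * (1 + y) ^ n) ≤ ((d : ℝ) + 1) * ((1 + y) ^ n / 2) := by nlinarith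
  have h3 : (0 : ℝ) < (d : ℝ) + 1 := by positivity
  have h4 := le_of_mul_le_mul_left (h1.trans h2) h3
  linarith

/-- Deleting the variables of the support. -/
theorem del_bound {φ : CNF n m c} {r D d b : ℕ} (h0 : E0 φ r) (h1 : E1 φ r D) (hd : d ≤ D)
    {lam y : ℝ} (l0 : 0 ≤ lam) (l1 : lam ≤ 1) (y0 : 0 < y) (y1 : y ≤ 1) :
    ∑ t ∈ fair φ r d b, lam ^ t.card ≤
      (1 + y) ^ n / y ^ (c * b) * ∑ t ∈ good φ r d, lam ^ t.card := by
  set Z : Finset (Fin n) → Finset (Fin n) := fun t => (sup φ r t).biUnion (vr φ) with hZ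
  set U : Finset (Finset (Fin n)) := univ.filter fun u => u.card ≤ c * b with hU
  set f : Finset (Fin n) → Finset (Fin n) × Finset (Fin n) := fun t => (t \ Z t, t ∩ Z t) with hf
  have hinj : Set.InjOn f (↑(fair φ r d b) : Set (Finset (Fin n))) := by
    intro s _ t _ h
    have a1 : s \ Z s = t \ Z t := congrArg Prod.fst h
    have a2 : s ∩ Z s = t ∩ Z t := congrArg Prod.snd h
    rw [← sdiff_union_inter s (Z s), ← sdiff_union_inter t (Z t), a1, a2]
  have hmap : ∀ t ∈ fair φ r d b, f t ∈ good φ r d ×ˢ U := by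
    intro t ht
    obtain ⟨htd, hfair⟩ := (mem_filter.1 ht).2
    obtain ⟨s1, s2⟩ := h1.sup_spec (X := t) (htd.trans hd)
    have sb : (sup φ r t).card ≤ b := by
      by_contra! h
      exact hfair _ h s1 s2
    have hcd : (t \ Z t).card ≤ d := (card_le_card sdiff_subset).trans htd
    refine mem_product.2 ⟨mem_filter.2 ⟨mem_univ _, hcd, ?_⟩, mem_filter.2 ⟨mem_univ _, ?_⟩⟩
    · obtain ⟨u1, u2⟩ := h1.sup_spec (X := t \ Z t) (hcd.trans hd)
      refine h0 _ u1 (eq_empty_of_forall_notMem fun v hv => ?_)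
      obtain ⟨a, ha, hva, -⟩ := mem_bd.1 hv
      exact (mem_sdiff.1 (u2 hv)).2 (mem_biUnion.2 ⟨a, sup_mono sdiff_subset ha, hva⟩)
    · refine (card_le_card inter_subset_right).trans (card_biUnion_le.trans ?_)
      calc ∑ a ∈ sup φ r t, (vr φ a).card ≤ ∑ _a ∈ sup φ r t, c := sum_le_sum fun a _ => card_vr a
        _ = (sup φ r t).card * c := by rw [sum_const, smul_eq_mul]
        _ ≤ c * b := by rw [mul_comm]; exact Nat.mul_le_mul_left _ sb
  have hG : 0 ≤ ∑ t ∈ good φ r d, lam ^ t.card := sum_nonneg fun t _ => pow_nonneg l0 _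
  calc ∑ t ∈ fair φ r d b, lam ^ t.card ≤ ∑ t ∈ fair φ r d b, lam ^ (f t).1.card :=
        sum_le_sum fun t _ => pow_le_pow_of_le_one l0 l1 (card_le_card sdiff_subset)
    _ = ∑ p ∈ (fair φ r d b).image f, lam ^ p.1.card :=
        (sum_image (f := fun p : Finset (Fin n) × Finset (Fin n) => lam ^ p.1.card) hinj).symm
    _ ≤ ∑ p ∈ good φ r d ×ˢ U, lam ^ p.1.card := by
        refine sum_le_sum_of_subset_of_nonneg (fun p hp => ?_) fun p _ _ => pow_nonneg l0 _
        obtain ⟨t, ht, rfl⟩ := mem_image.1 hp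
        exact hmap t ht
    _ = (U.card : ℝ) * ∑ t ∈ good φ r d, lam ^ t.card := by
        rw [sum_product, mul_sum]
        refine sum_congr rfl fun t _ => ?_
        simp only [sum_const, nsmul_eq_mul]
    _ ≤ _ := mul_le_mul_of_nonneg_right (card_small_le (c * b) y0 y1) hG

end Pool.Agent.Lib.MP_8a52c3_lc.RL
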