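import Pool.Agent.Lib.MP_8a52c3_lc.RLDefs

/-! Functions on the Boolean cube, monomials and degree. -/

open Finset
open scoped Classical

namespace Pool.Agent.Lib.MP_8a52c3_lc.RL

/-- Functions on the Boolean cube. -/
abbrev Fn (K : Type) (n : ℕ) : Type := (Fin n → Bool) → K

variable (K : Type) [Field K] {n : ℕ}

/-- The multilinear monomial of the set `t`. -/
noncomputable def chi (t : Finset (Fin n)) : Fn K n := fun x => if ∀ i ∈ t, x i = true then 1 else 0

/-- The span of a family of monomials. -/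
noncomputable def Sp (F : Set (Finset (Fin n))) : Submodule K (Fn K n) :=
  Submodule.span K (chi K '' F)

/-- Functions of degree at most `d`. -/
noncomputable def Pd (n d : ℕ) : Submodule K (Fn K n) := Sp K {t | t.card ≤ d}

/-- The indicator function of the set where a clause is false. -/
noncomputable def fc {c : ℕ} (C : Fin c → Fin n × Bool) : Fn K n :=
  fun x => if SatC C x then 0 else 1

/-- The function of a polynomial. -/
noncomputable def ev (f : MvPolynomial (Fin n) K) : Fn K n :=
  fun x => MvPolynomial.eval (fun i => if x i then 1 else 0) f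

variable {K} {F G H : Set (Finset (Fin n))} {f g : Fn K n} {d e : ℕ}

lemma chi_mul (s t : Finset (Fin n)) : chi K s * chi K t = chi K (s ∪ t) := by
  funext x
  simp only [chi, Pi.mul_apply, forall_mem_union, ite_and, ite_mul, one_mul, zero_mul]

lemma chi_empty : chi K (∅ : Finset (Fin n)) = 1 := by
  funext x
  simp [chi]

lemma chi_mem {t : Finset (Fin n)} (h : t ∈ F) : chi K t ∈ Sp K F :=
  Submodule.subset_span ⟨t, h, rfl⟩

lemma Sp_mono (h : F ⊆ G) : Sp K F ≤ Sp K G := Submodule.span_mono (Set.image_mono h)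

lemma Sp_le {I : Submodule K (Fn K n)} (h : ∀ t ∈ F, chi K t ∈ I) : Sp K F ≤ I :=
  Submodule.span_le.2 (by rintro _ ⟨t, ht, rfl⟩; exact h t ht)

lemma mul_mem_of_Sp {I : Submodule K (Fn K n)} (hg : g ∈ Sp K G)
    (h : ∀ t ∈ G, f * chi K t ∈ I) : f * g ∈ I :=
  (Sp_le (I := I.comap (LinearMap.mulLeft K f)) h) hg

lemma Sp_mul (hf : f ∈ Sp K F) (hg : g ∈ Sp K G) (h : ∀ s ∈ F, ∀ t ∈ G, s ∪ t ∈ H) :
    f * g ∈ Sp K H := by
  refine mul_mem_of_Sp hg fun t ht => ?_
  rw [mul_comm]
  refine mul_mem_of_Sp hf fun s hs => ?_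
  rw [mul_comm, chi_mul]
  exact chi_mem (h s hs t ht)

lemma Pd_mono (h : d ≤ e) : Pd K n d ≤ Pd K n e := Sp_mono fun _ ht => le_trans ht h

lemma one_mem_Pd : (1 : Fn K n) ∈ Pd K n d := chi_empty (K := K) ▸ chi_mem (by simp)

lemma Pd_mul (hf : f ∈ Pd K n d) (hg : g ∈ Pd K n e) : f * g ∈ Pd K n (d + e) :=
  Sp_mul hf hg fun _ hs _ ht => (card_union_le _ _).trans (add_le_add hs ht)

lemma Pd_pow (hf : f ∈ Pd K n d) (j : ℕ) : f ^ j ∈ Pd K n (d * j) := by
  induction j with
  | zero => simpa using one_mem_Pd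
  | succ j ih => rw [pow_succ, Nat.mul_succ]; exact Pd_mul ih hf

lemma Pd_prod {ι : Type} (s : Finset ι) (u : ι → Fn K n) (w : ι → ℕ)
    (h : ∀ i ∈ s, u i ∈ Pd K n (w i)) : ∏ i ∈ s, u i ∈ Pd K n (∑ i ∈ s, w i) := by
  induction s using Finset.induction_on with
  | empty => simpa using one_mem_Pd
  | insert a s ha ih =>
    rw [prod_insert ha, sum_insert ha]
    exact Pd_mul (h a (mem_insert_self _ _)) (ih fun i hi => h i (mem_insert_of_mem hi))

lemma var_mem (i : Fin n) : (fun x : Fin n → Bool => if x i then (1 : K) else 0) ∈ Pd K n 1 := by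
  have : (fun x : Fin n → Bool => if x i then (1 : K) else 0) = chi K {i} := by
    funext x; simp [chi]
  rw [this]
  exact chi_mem (by simp)

lemma ev_mem {p : MvPolynomial (Fin n) K} (h : p.totalDegree ≤ d) : ev K p ∈ Pd K n d := by
  have : ev K p = ∑ a ∈ p.support, p.coeff a •
      ∏ i ∈ a.support, (fun x : Fin n → Bool => if x i then (1 : K) else 0) ^ a i := by
    funext x
    simp [ev, MvPolynomial.eval_eq, Finset.sum_apply, Finset.prod_apply]
  rw [this]
  refine Submodule.sum_mem _ fun a ha => Submodule.smul_mem _ _ ?_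
  refine Pd_mono ?_ (Pd_prod _ _ (fun i => 1 * a i) fun i _ => Pd_pow (var_mem i) _)
  simpa [Finsupp.sum] using (MvPolynomial.le_totalDegree ha).trans h

lemma fc_mem {c : ℕ} (C : Fin c → Fin n × Bool) : fc K C ∈ Pd K n c := by
  have : fc K C = ∏ i, fun x : Fin n → Bool => if x (C i).1 = (C i).2 then (0 : K) else 1 := by
    funext x
    simp only [fc, SatC, Finset.prod_apply]
    split_ifs with h
    · obtain ⟨i, hi⟩ := h
      exact Eq.symm (prod_eq_zero (mem_univ i) (if_pos hi))
    · exact (prod_eq_one fun i _ => if_neg fun hi => h ⟨i, hi⟩).symm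
  rw [this]
  refine Pd_mono (by simp) (Pd_prod _ _ (fun _ => 1) fun i _ => ?_)
  cases h : (C i).2
  · convert var_mem (K := K) (C i).1 using 2 with x
    cases x (C i).1 <;> simp
  · convert Submodule.sub_mem _ one_mem_Pd (var_mem (K := K) (C i).1) using 1
    funext x
    cases hx : x (C i).1 <;> simp [hx]

/-- The monomials are linearly independent. -/
lemma chi_li : LinearIndependent K (chi K : Finset (Fin n) → Fn K n) := by
  rw [Fintype.linearIndependent_iff]
  intro a ha t
  induction t using Finset.strongInductionOn with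
  | _ t ih =>
    have h := congrFun ha fun i => decide (i ∈ t)
    rw [Finset.sum_apply, Finset.sum_eq_single t] at h
    · simpa [chi] using h
    · intro s _ hs
      by_cases h' : s ⊆ t
      · simp [ih s (Finset.ssubset_iff_subset_ne.2 ⟨h', hs⟩)]
      · have : ¬ ∀ i ∈ s, i ∈ t := h'
        simp [chi, this]
    · simp

end Pool.Agent.Lib.MP_8a52c3_lc.RL
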