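import Pool.Agent.Lib.MP_8a52c3_lc.RLFun

/-! Hilbert functions of subsets of the cube. -/

open Finset
open scoped Classical

namespace Pool.Agent.Lib.MP_8a52c3_lc.RL

variable (K : Type) [Field K] {n : ℕ}

/-- The evaluations at the points of `B` are independent on functions of degree at most `d`. -/
def Ind (d : ℕ) (B : Finset (Fin n → Bool)) : Prop :=
  ∀ a : Fn K n, (∀ f ∈ Pd K n d, ∑ x ∈ B, a x * f x = 0) → ∀ x ∈ B, a x = 0

/-- The Hilbert function of `X`. -/
noncomputable def hf (X : Finset (Fin n → Bool)) (d : ℕ) : ℕ :=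
  (X.powerset.filter (Ind K d)).sup card

variable {K} {d k : ℕ} {B B' X Y : Finset (Fin n → Bool)}

lemma hilb_card {α β : Type} (s : Finset α) (t : Finset β) (M : α → β → K)
    (h : ∀ a : α → K, (∀ b ∈ t, ∑ i ∈ s, a i * M i b = 0) → ∀ i ∈ s, a i = 0) :
    s.card ≤ t.card := by
  have h1 : LinearIndependent K fun (i : s) (b : t) => M i b := by
    rw [Fintype.linearIndependent_iff]
    intro g hg i
    have h2 := h (fun x => if hx : x ∈ s then g ⟨x, hx⟩ else 0) (fun b hb => by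
      rw [← sum_coe_sort s]
      simpa [Finset.sum_apply] using congrFun hg ⟨b, hb⟩) i i.2
    simpa using h2
  simpa using h1.fintype_card_le_finrank

lemma hilb_ind_empty : Ind K d (∅ : Finset (Fin n → Bool)) := fun _ _ _ h => absurd h (notMem_empty _)

lemma Ind.subset (h : Ind K d B) (h' : B' ⊆ B) : Ind K d B' := by
  intro a ha x hx
  have h1 := h (fun y => if y ∈ B' then a y else 0) (fun f hf => by
    rw [← sum_subset h' fun y _ hy => by rw [if_neg hy, zero_mul]]
    exact (sum_congr rfl fun y hy => by rw [if_pos hy]).trans (ha f hf)) x (h' hx)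
  rwa [if_pos hx] at h1

lemma card_le_hf (h : Ind K d B) (h' : B ⊆ X) : B.card ≤ hf K X d :=
  le_sup (f := card) (mem_filter.2 ⟨mem_powerset.2 h', h⟩)

lemma exists_basis (K : Type) [Field K] (X : Finset (Fin n → Bool)) (d : ℕ) :
    ∃ B ⊆ X, Ind K d B ∧ B.card = hf K X d := by
  obtain ⟨B, h1, h2⟩ := exists_mem_eq_sup (X.powerset.filter (Ind K d))
    ⟨∅, mem_filter.2 ⟨empty_mem_powerset X, hilb_ind_empty⟩⟩ card
  exact ⟨B, mem_powerset.1 (mem_filter.1 h1).1, (mem_filter.1 h1).2, h2.symm⟩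

lemma hf_mono (h : X ⊆ Y) : hf K X d ≤ hf K Y d := by
  obtain ⟨B, h1, h2, h3⟩ := exists_basis K X d
  exact h3 ▸ card_le_hf h2 (h1.trans h)

lemma hf_le_pow : hf K X d ≤ 2 ^ n := by
  obtain ⟨B, -, -, h3⟩ := exists_basis K X d
  simpa [h3] using card_le_univ B

lemma hf_le_card : hf K X d ≤ (univ.filter fun t : Finset (Fin n) => t.card ≤ d).card := by
  obtain ⟨B, -, h2, h3⟩ := exists_basis K X d
  rw [← h3]
  refine hilb_card B _ (fun x t => chi K t x) fun a ha => h2 a fun f hf => ?_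
  induction hf using Submodule.span_induction with
  | mem f hf =>
    obtain ⟨t, ht, rfl⟩ := hf
    exact ha t (mem_filter.2 ⟨mem_univ _, ht⟩)
  | zero => simp
  | add f g _ _ h1 h2 => simp [mul_add, sum_add_distrib, h1, h2]
  | smul c f _ h1 => simp [mul_left_comm _ c, ← mul_sum, h1]

/-- The cut lemma. -/
theorem hf_cut {g : Fn K n} (hg : g ∈ Pd K n k) (X : Finset (Fin n → Bool)) (d : ℕ) :
    hf K (X.filter fun x => g x = 0) (d + k) + hf K (X.filter fun x => g x ≠ 0) d ≤
      hf K X (d + k) := by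
  obtain ⟨B₀, h1, h2, h3⟩ := exists_basis K (X.filter fun x => g x = 0) (d + k)
  obtain ⟨B₁, k1, k2, k3⟩ := exists_basis K (X.filter fun x => g x ≠ 0) d
  have h4 : ∀ x ∈ B₀, g x = 0 := fun x hx => (mem_filter.1 (h1 hx)).2
  have k4 : ∀ x ∈ B₁, g x ≠ 0 := fun x hx => (mem_filter.1 (k1 hx)).2
  have h5 : Disjoint B₀ B₁ := disjoint_left.2 fun x hx hx' => k4 x hx' (h4 x hx)
  rw [← h3, ← k3, ← card_union_of_disjoint h5]
  refine card_le_hf (fun a ha => ?_) (union_subset (h1.trans (filter_subset _ _))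
    (k1.trans (filter_subset _ _)))
  have h6 : ∀ x ∈ B₁, a x = 0 := fun x hx => by
    refine (mul_eq_zero.1 (k2 (fun y => a y * g y) (fun f hf => ?_) x hx)).resolve_right (k4 x hx)
    have h6 := ha (f * g) (Pd_mul hf hg)
    rw [sum_union h5, sum_eq_zero fun y hy => by rw [Pi.mul_apply, h4 y hy, mul_zero, mul_zero],
      zero_add] at h6
    rw [← h6]
    exact sum_congr rfl fun y _ => by rw [Pi.mul_apply, mul_comm (f y), mul_assoc]
  have h7 : ∀ x ∈ B₀, a x = 0 := h2 a fun f hf => by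
    have h7 := ha f hf
    rwa [sum_union h5, sum_eq_zero (s := B₁) fun y hy => by rw [h6 y hy, zero_mul], add_zero] at h7
  exact fun x hx => (mem_union.1 hx).elim (h7 x) (h6 x)

/-- A function that vanishes on a maximal independent subset of `X` vanishes on `X`. -/
lemma vanish_of_basis (hB : B ⊆ X) (h : Ind K d B) (hc : B.card = hf K X d) {f : Fn K n}
    (hf' : f ∈ Pd K n d) (h0 : ∀ x ∈ B, f x = 0) : ∀ x ∈ X, f x = 0 := by
  intro x hx
  by_contra h1
  have h2 : x ∉ B := fun h2 => h1 (h0 x h2)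
  have h3 : Ind K d (insert x B) := fun a ha => by
    have h3 := ha f hf'
    rw [sum_insert h2, sum_eq_zero fun y hy => by rw [h0 y hy, mul_zero], add_zero] at h3
    have h4 : a x = 0 := (mul_eq_zero.1 h3).resolve_right h1
    refine forall_mem_insert _ _ _ |>.2 ⟨h4, h a fun g hg => ?_⟩
    have h5 := ha g hg
    rwa [sum_insert h2, h4, zero_mul, zero_add] at h5
  have h4 := card_le_hf h3 (insert_subset hx hB)
  rw [card_insert_of_notMem h2, hc] at h4
  exact absurd h4 (Nat.not_succ_le_self _)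

/-- The dimension count. -/
theorem card_le_sum_hf {S : ℕ} (E : Fin S → Finset (Fin n → Bool)) (F : Finset (Finset (Fin n)))
    (hF : ∀ t ∈ F, t.card ≤ d)
    (h : ∀ Q ∈ Sp K (F : Set (Finset (Fin n))), (∀ v, ∀ x ∈ E v, Q x = 0) → Q = 0) :
    F.card ≤ ∑ v, hf K (E v) d := by
  have h9 : ∀ v, ∃ B ⊆ E v, Ind K d B ∧ B.card = hf K (E v) d := fun v => exists_basis K (E v) d
  choose B h1 h2 h3 using h9
  have h0 : (univ.sigma B).card = ∑ v, hf K (E v) d :=
    (card_sigma _ _).trans (sum_congr rfl fun v _ => h3 v)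
  rw [← h0]
  refine hilb_card (K := K) F (univ.sigma B) (fun t p => chi K t p.2) fun a ha => ?_
  have h4 : ∑ t ∈ F, a t • chi K t ∈ Sp K (F : Set (Finset (Fin n))) :=
    Submodule.sum_mem _ fun t ht => Submodule.smul_mem _ _ (chi_mem ht)
  have h5 : ∑ t ∈ F, a t • chi K t ∈ Pd K n d :=
    Sp_mono (G := {t | t.card ≤ d}) (fun t ht => hF t ht) h4
  have h6 : ∑ t ∈ F, a t • chi K t = 0 := h _ h4 fun v =>
    vanish_of_basis (h1 v) (h2 v) (h3 v) h5 fun x hx => by
      rw [Finset.sum_apply]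
      exact ha ⟨v, x⟩ (mem_sigma.2 ⟨mem_univ _, hx⟩)
  exact linearIndependent_iff'.1 (chi_li (K := K) (n := n)) F a h6

end Pool.Agent.Lib.MP_8a52c3_lc.RL
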