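import Mathlib

/-! The choice of the parameters. -/

namespace Pool.Agent.Lib.MP_8a52c3_lc.RL

variable {n c ρ g k : ℕ} (hc : 3 ≤ c) (hρ : 2 ≤ ρ) (hg : c ≤ g * (c - k))
  (hn : ρ ^ (200 * c * g) ≤ n)

include hc hg in
lemma num_g : 1 ≤ g := Nat.pos_of_ne_zero fun h => by simp [h] at hg; omega

include hc hρ hg hn

lemma num_deg {q : ℕ} (hq : k * q ≤ c ^ 2) :
    ⌊2 * (1 / (ρ : ℝ) ^ (100 * g)) * n⌋₊ + 3 * (n / (4 * ρ ^ 40 * c ^ 2) * (k * q)) + c ≤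
      n / ρ ^ 40 := by
  have g1 := num_g hc hg
  have p0 : 0 < ρ ^ 40 := by positivity
  set A := n / ρ ^ 40 with hA
  have h1 : 8 * c + 8 ≤ A := by
    rw [hA, Nat.le_div_iff_mul_le p0]
    refine le_trans ?_ hn
    have : c + 1 ≤ ρ ^ c := Nat.lt_pow_self hρ
    calc (8 * c + 8) * ρ ^ 40 = 2 ^ 3 * (c + 1) * ρ ^ 40 := by ring
      _ ≤ ρ ^ 3 * ρ ^ c * ρ ^ 40 := by gcongr
      _ = ρ ^ (c + 43) := by ring
      _ ≤ _ := Nat.pow_le_pow_right (by omega) (by nlinarith)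
  have h2 : 4 * (n / (4 * ρ ^ 40 * c ^ 2) * (k * q)) ≤ A := by
    have : n / (4 * ρ ^ 40 * c ^ 2) = A / (4 * c ^ 2) := by
      rw [hA, Nat.div_div_eq_div_mul]; congr 1; ring
    rw [this]
    calc 4 * (A / (4 * c ^ 2) * (k * q)) ≤ 4 * (A / (4 * c ^ 2) * c ^ 2) := by gcongr
      _ = A / (4 * c ^ 2) * (4 * c ^ 2) := by ring
      _ ≤ A := Nat.div_mul_le_self _ _
  have h3 : 16 * ⌊2 * (1 / (ρ : ℝ) ^ (100 * g)) * n⌋₊ ≤ A + 1 := by
    have h4 : n ≤ ρ ^ 40 * (A + 1) := (Nat.lt_mul_div_succ n p0).le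
    have h5 : (n : ℝ) ≤ ρ ^ 40 * (A + 1) := by exact_mod_cast h4
    have hρ' : (2 : ℝ) ≤ ρ := by exact_mod_cast hρ
    have h6 : (32 : ℝ) * ρ ^ 40 ≤ ρ ^ (100 * g) :=
      calc (32 : ℝ) * ρ ^ 40 = 2 ^ 5 * (ρ : ℝ) ^ 40 := by norm_num
        _ ≤ (ρ : ℝ) ^ 5 * (ρ : ℝ) ^ 40 := by gcongr
        _ = (ρ : ℝ) ^ 45 := by ring
        _ ≤ _ := pow_le_pow_right₀ (by linarith) (by omega)
    have h7 : (16 : ℝ) * ⌊2 * (1 / (ρ : ℝ) ^ (100 * g)) * n⌋₊ ≤ A + 1 := by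
      refine le_trans (mul_le_mul_of_nonneg_left (Nat.floor_le (by positivity)) (by norm_num)) ?_
      rw [show 16 * (2 * (1 / (ρ : ℝ) ^ (100 * g)) * n) = 32 * n / ρ ^ (100 * g) by ring,
        div_le_iff₀ (by positivity)]
      nlinarith [mul_le_mul_of_nonneg_left h6 (by positivity : (0 : ℝ) ≤ A + 1)]
    exact_mod_cast h7
  omega

set_option linter.unusedSectionVars false in
lemma num_fail {b : ℕ} (hb : ((ρ : ℝ) ^ 5 * (1 / (ρ : ℝ) ^ (100 * g))) ^ c * n ≤ b) :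
    (4 : ℝ) / √n + ((ρ : ℝ) ^ 17 / √n + ((ρ : ℝ) ^ 17 / √n + 4 / 2 ^ b)) ≤ (ρ : ℝ) ^ 20 / √n := by
  have hρ' : (2 : ℝ) ≤ ρ := by exact_mod_cast hρ
  have hn' : ((ρ : ℝ) ^ (100 * g * c)) ^ 2 ≤ n := by
    rw [← pow_mul, show 100 * g * c * 2 = 200 * c * g by ring]
    exact_mod_cast hn
  have h1 : (ρ : ℝ) ^ (100 * g * c) ≤ √n := Real.le_sqrt_of_sq_le hn'
  have h0 : 0 < √(n : ℝ) := lt_of_lt_of_le (by positivity) h1
  have h2 : √(n : ℝ) ≤ 2 ^ b := by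
    have h3 : (b : ℝ) ≤ 2 ^ b := by exact_mod_cast Nat.lt_two_pow_self.le
    refine le_trans (le_trans ?_ hb) h3
    calc √(n : ℝ) = 1 * (1 / √n) * n := by
          field_simp
          exact Real.sq_sqrt (by positivity)
      _ ≤ ((ρ : ℝ) ^ 5) ^ c * (1 / ρ ^ (100 * g * c)) * n := by
          gcongr
          exact one_le_pow₀ (one_le_pow₀ (by linarith))
      _ = _ := by rw [mul_pow, one_div_pow, ← pow_mul (ρ : ℝ) (100 * g)]
  have h4 : (4 : ℝ) / 2 ^ b ≤ 4 / √n := by gcongr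
  have h5 : (8 : ℝ) + 2 * ρ ^ 17 ≤ ρ ^ 20 := by
    have h6 : (2 : ℝ) ^ 3 ≤ ρ ^ 3 := by gcongr
    have h7 : (2 : ℝ) ^ 17 ≤ ρ ^ 17 := by gcongr
    rw [show (ρ : ℝ) ^ 20 = ρ ^ 3 * ρ ^ 17 by ring]
    nlinarith
  calc _ ≤ (8 + 2 * ρ ^ 17) / √(n : ℝ) := by rw [add_div, mul_div_assoc]; ring_nf at h4 ⊢; linarith
    _ ≤ _ := by gcongr

/-- The gain beats the penalty. -/
theorem num_gain {lam y S : ℝ} (hl : lam = 1 / (ρ : ℝ) ^ (100 * g)) (hy : y = (ρ ^ 5 * lam) ^ c)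
    (h : (1 + lam) ^ n / 4 ≤ (1 + y) ^ n / y ^ (c * ⌈y * n⌉₊) *
      (S * ((1 - lam ^ k / 2) ^ (n / (4 * ρ ^ 40 * c ^ 2)) * (2 * (1 + lam) ^ n)))) :
    (2 : ℝ) ^ ((n : ℝ) / ρ ^ (200 * c * g)) ≤ S := by
  have g1 := num_g hc hg
  have hk : k < c := by
    by_contra! h
    simp [Nat.sub_eq_zero_of_le h] at hg
    omega
  have hρ' : (2 : ℝ) ≤ ρ := by exact_mod_cast hρ
  have ρ1 : (1 : ℝ) ≤ ρ := by linarith
  have g1' : (1 : ℝ) ≤ g := by exact_mod_cast g1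
  obtain ⟨R, hR⟩ : ∃ R : ℝ, R = ρ ^ c := ⟨_, rfl⟩
  have R8 : 8 ≤ R := hR ▸ le_trans (by norm_num)
    ((pow_le_pow_left₀ zero_le_two hρ' 3).trans (pow_le_pow_right₀ ρ1 hc))
  have Rc : (c : ℝ) ≤ R := by rw [hR]; exact_mod_cast (Nat.lt_pow_self hρ).le
  have Rρ : (ρ : ℝ) ≤ R := hR ▸ le_self_pow₀ ρ1 (by omega)
  have R40 : (ρ : ℝ) ^ 40 ≤ R ^ 14 := by
    rw [hR, ← pow_mul]; exact pow_le_pow_right₀ ρ1 (by omega)
  have l0 : 0 < lam := by rw [hl]; positivity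
  have l1 : lam ≤ 1 := hl ▸ div_le_one_of_le₀ (one_le_pow₀ ρ1) (by positivity)
  obtain ⟨Z, hZ⟩ : ∃ Z : ℝ, Z = R ^ (100 * g) := ⟨_, rfl⟩
  have Z8 : 8 ≤ Z := hZ ▸ R8.trans (le_self_pow₀ (by linarith) (by omega))
  have hZ' : Z = ρ ^ (100 * g * c) := by rw [hZ, hR, ← pow_mul, mul_comm]
  have lc : lam ^ c = 1 / Z := by rw [hl, hZ', one_div_pow, ← pow_mul]
  have hZ2 : (ρ : ℝ) ^ (200 * c * g) = Z ^ 2 := by rw [hZ', ← pow_mul]; congr 1; ring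
  have nZ : Z ^ 2 ≤ n := by rw [← hZ2]; exact_mod_cast hn
  obtain ⟨N, hN⟩ : ∃ N : ℝ, N = n / Z := ⟨_, rfl⟩
  have N8 : 8 ≤ N := by rw [hN, le_div_iff₀ (by linarith)]; nlinarith
  have hy' : y = R ^ 5 / Z := by rw [hy, mul_pow, lc, hR, ← pow_mul, ← pow_mul, mul_comm 5]; ring
  have yn : y * n = R ^ 5 * N := by rw [hy', hN]; ring
  have R5 : 1 ≤ R ^ 5 := one_le_pow₀ (by linarith)
  have y0 : 0 < y := by rw [hy']; positivity
  have b1 : (⌈y * n⌉₊ : ℝ) ≤ 2 * (R ^ 5 * N) := by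
    have := (Nat.ceil_lt_add_one (by positivity : 0 ≤ y * n)).le
    nlinarith
  have e1 : (1 + y) ^ n ≤ Real.exp (R ^ 5 * N) := by
    rw [← yn, mul_comm, Real.exp_nat_mul]
    gcongr
    linarith [Real.add_one_le_exp y]
  have e2 : 1 / y ≤ Real.exp (100 * g * R ^ 2) :=
    calc 1 / y ≤ Z := by rw [hy', one_div_div]; exact div_le_self (by linarith) R5
      _ ≤ Real.exp ρ ^ (100 * g * c) := by
          rw [hZ']; gcongr; linarith [Real.add_one_le_exp (ρ : ℝ)]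
      _ ≤ _ := by
          rw [← Real.exp_nat_mul]
          push_cast
          rw [sq, mul_assoc _ (c : ℝ)]
          gcongr
  have e3 : 1 / y ^ (c * ⌈y * n⌉₊) ≤ Real.exp (200 * (N * g * R ^ 8)) :=
    calc 1 / y ^ (c * ⌈y * n⌉₊) ≤ Real.exp (100 * g * R ^ 2) ^ (c * ⌈y * n⌉₊) := by
          rw [← one_div_pow]; gcongr
      _ ≤ Real.exp (R * (2 * (R ^ 5 * N)) * (100 * g * R ^ 2)) := by
          rw [← Real.exp_nat_mul]
          push_cast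
          gcongr
      _ = _ := by congr 1; ring
  have c0 : (0 : ℝ) < c := by exact_mod_cast (by omega : 0 < c)
  have s1 : (n : ℝ) / R ^ 17 ≤ (n / (4 * ρ ^ 40 * c ^ 2) : ℕ) := by
    have p0 : 0 < 4 * ρ ^ 40 * c ^ 2 := by positivity
    have h1 : ((4 * ρ ^ 40 * c ^ 2 : ℕ) : ℝ) * 2 ≤ R ^ 17 := by
      push_cast
      calc (4 : ℝ) * ρ ^ 40 * c ^ 2 * 2 = 8 * ρ ^ 40 * c ^ 2 := by ring
        _ ≤ R * R ^ 14 * R ^ 2 := by gcongr
        _ = _ := by ring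
    have h2 : R ^ 17 ≤ n :=
      calc R ^ 17 ≤ Z := hZ ▸ pow_le_pow_right₀ (by linarith) (by omega)
        _ ≤ n := by nlinarith
    have h3 : 4 * ρ ^ 40 * c ^ 2 ≤ n := by
      have : ((4 * ρ ^ 40 * c ^ 2 : ℕ) : ℝ) ≤ n := by
        linarith [(Nat.cast_nonneg (4 * ρ ^ 40 * c ^ 2) : (0 : ℝ) ≤ _)]
      exact_mod_cast this
    have h4 := Nat.div_pos h3 p0
    have h5 : n ≤ 4 * ρ ^ 40 * c ^ 2 * 2 * (n / (4 * ρ ^ 40 * c ^ 2)) :=
      (Nat.lt_mul_div_succ n p0).le.trans (by rw [mul_assoc _ 2]; gcongr; omega)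
    have h6 : (n : ℝ) ≤ ((4 * ρ ^ 40 * c ^ 2 : ℕ) : ℝ) * 2 * (n / (4 * ρ ^ 40 * c ^ 2) : ℕ) := by
      exact_mod_cast h5
    rw [div_le_iff₀' (by positivity)]
    exact h6.trans (by gcongr)
  have s2 : R ^ 50 * g / Z ≤ lam ^ k := by
    have h1 : lam ^ k * lam ^ (c - k) = 1 / Z := by rw [← pow_add, Nat.add_sub_cancel' hk.le, lc]
    have h2 : R ^ 50 * g ≤ ρ ^ (100 * g * (c - k)) := by
      have h3 : g ≤ g * (c - k) := Nat.le_mul_of_pos_right _ (by omega)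
      calc R ^ 50 * g ≤ R ^ 50 * (ρ : ℝ) ^ g := by
            gcongr; exact_mod_cast (Nat.lt_pow_self hρ).le
        _ = (ρ : ℝ) ^ (c * 50 + g) := by rw [hR, ← pow_mul, pow_add]
        _ ≤ _ := pow_le_pow_right₀ ρ1 (by rw [mul_assoc]; omega)
    have h3 : lam ^ (c - k) * ρ ^ (100 * g * (c - k)) = 1 := by
      rw [hl, one_div_pow, ← pow_mul]; field_simp
    calc R ^ 50 * g / Z = lam ^ k * (lam ^ (c - k) * (R ^ 50 * g)) := by
          rw [← mul_assoc, h1]; ring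
      _ ≤ lam ^ k * (lam ^ (c - k) * ρ ^ (100 * g * (c - k))) := by gcongr
      _ = _ := by rw [h3, mul_one]
  have k1 : lam ^ k ≤ 1 := pow_le_one₀ l0.le l1
  have e4 : (1 - lam ^ k / 2) ^ (n / (4 * ρ ^ 40 * c ^ 2)) ≤ Real.exp (-(N * g * R ^ 33 / 2)) :=
    calc _ ≤ Real.exp (-(lam ^ k / 2)) ^ (n / (4 * ρ ^ 40 * c ^ 2)) := by
          gcongr
          · linarith
          · linarith [Real.add_one_le_exp (-(lam ^ k / 2))]
      _ ≤ _ := by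
          rw [← Real.exp_nat_mul, mul_neg]
          gcongr
          calc N * g * R ^ 33 / 2 = n / R ^ 17 * (R ^ 50 * g / Z / 2) := by
                rw [hN]; field_simp
            _ ≤ _ := by gcongr
  have P0 : 0 < (1 + lam) ^ n := by positivity
  have S0 : 0 ≤ S := by
    by_contra! hS
    have h1 : 0 ≤ 1 - lam ^ k / 2 := by linarith
    exact absurd (h.trans (mul_nonpos_of_nonneg_of_nonpos (by positivity)
      (mul_nonpos_of_nonpos_of_nonneg hS.le (by positivity)))) (by linarith)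
  have h1 : (1 + lam) ^ n / 4 ≤ Real.exp (R ^ 5 * N) * Real.exp (200 * (N * g * R ^ 8)) *
      (S * (Real.exp (-(N * g * R ^ 33 / 2)) * (2 * (1 + lam) ^ n))) := by
    refine h.trans ?_
    have h1 : 0 ≤ 1 - lam ^ k / 2 := by linarith
    rw [div_eq_mul_one_div]
    gcongr
  have h2 : R ^ 5 * N + 200 * (N * g * R ^ 8) + -(N * g * R ^ 33 / 2) ≤ -(2 * N) := by
    have a1 : R ^ 5 ≤ R ^ 8 := pow_le_pow_right₀ (by linarith) (by norm_num)
    have a2 : (8 : ℝ) ^ 25 ≤ R ^ 25 := by gcongr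
    have a3 : N ≤ N * g := le_mul_of_one_le_right (by linarith) g1'
    have a4 : R ^ 5 * N ≤ N * g * R ^ 8 := by rw [mul_comm]; gcongr
    have a5 : N ≤ N * g * R ^ 8 := a3.trans (le_mul_of_one_le_right (by linarith) (R5.trans a1))
    have a6 : N * g * R ^ 8 * 8 ^ 25 ≤ N * g * R ^ 33 := by
      rw [show R ^ 33 = R ^ 8 * R ^ 25 by ring, ← mul_assoc]; gcongr
    linarith
  have h3 : 1 ≤ 8 * S * Real.exp (-(2 * N)) := by
    refine le_trans ?_ (mul_le_mul_of_nonneg_left (Real.exp_le_exp.2 h2) (by positivity))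
    rw [Real.exp_add, Real.exp_add]
    refine le_of_mul_le_mul_right ?_ P0
    linarith
  have h4 : 8 ≤ Real.exp N := by linarith [Real.add_one_le_exp N]
  have h5 : Real.exp N ≤ S := by
    have a1 : Real.exp (-(2 * N)) * (Real.exp N * Real.exp N) = 1 := by
      rw [← Real.exp_add, ← Real.exp_add]; simp [two_mul]
    have a2 := mul_le_mul_of_nonneg_right h3 (by positivity : 0 ≤ Real.exp N * Real.exp N)
    rw [mul_assoc, a1, one_mul, mul_one] at a2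
    exact le_of_mul_le_mul_left ((mul_le_mul_of_nonneg_right h4 (by positivity)).trans a2)
      (by norm_num : (0 : ℝ) < 8)
  refine le_trans ?_ h5
  rw [Real.rpow_def_of_pos two_pos, hZ2]
  gcongr
  have a1 : (n : ℝ) / Z ^ 2 ≤ N := by
    rw [hN]; gcongr; exact le_self_pow₀ (by linarith) two_ne_zero
  have a2 := Real.log_two_lt_d9
  exact (mul_le_of_le_one_left (by positivity) (by linarith)).trans a1

end Pool.Agent.Lib.MP_8a52c3_lc.RL
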