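import Pool.Agent.Lib.MP_8a52c3_lc.RLProb
import Pool.Agent.Lib.MP_8a52c3_lc.RLDel

/-! Expansion and fair sets in a random formula. -/

open Finset
open scoped Classical

namespace Pool.Agent.Lib.MP_8a52c3_lc.RL

variable {n m c ρ r : ℕ} (hc : 3 ≤ c) (hρ : 2 ≤ ρ) (hn : 0 < n) (hm : m ≤ ρ ^ c * n)

include hc hρ hn hm

/-- The union bound over a range of sizes. -/
theorem probB_range (t : Finset (Fin n)) {a b : ℕ} {τ : ℝ} (ht : (t.card : ℝ) ≤ τ * n)
    (h1 : 3 * (4 * ρ * τ) ^ c * n ≤ a + 1) (h2 : c * b * ρ ^ 30 ≤ n) :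
    pr n m c (fun φ => ∃ T : Finset (Fin m), a < T.card ∧ T.card ≤ b ∧ bd φ T ⊆ t) ≤
      2 * (1 / 2) ^ (c * (a + 1)) := by
  have hq : ((1 : ℝ) / 2) ^ c ≤ 1 / 2 :=
    pow_le_of_le_one (by norm_num) (by norm_num) (by omega)
  have hq0 : (0 : ℝ) ≤ (1 / 2) ^ c := by positivity
  calc _ ≤ pr n m c (fun φ => ∃ j ∈ Ico (a + 1) (b + 1),
          ∃ T : Finset (Fin m), T.card = j ∧ bd φ T ⊆ t) :=
        pr_mono fun φ ⟨T, h3, h4, h5⟩ => ⟨T.card, mem_Ico.2 ⟨by omega, by omega⟩, T, rfl, h5⟩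
    _ ≤ ∑ j ∈ Ico (a + 1) (b + 1), ((1 / 2 : ℝ) ^ c) ^ j := by
        refine (pr_exists _ _).trans (sum_le_sum fun j hj => ?_)
        obtain ⟨h3, h4⟩ := mem_Ico.1 hj
        rw [← pow_mul]
        refine pr_bd_le hc hρ hn hm t (by omega) ht (h1.trans (by exact_mod_cast h3))
          (le_trans ?_ h2)
        exact Nat.mul_le_mul_right _ (Nat.mul_le_mul_left _ (by omega))
    _ ≤ ((1 / 2 : ℝ) ^ c) ^ (a + 1) / (1 - (1 / 2) ^ c) :=
        geom_sum_Ico_le_of_lt_one hq0 (by linarith)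
    _ ≤ _ := by
        rw [div_le_iff₀ (by linarith), pow_mul]
        nlinarith [pow_nonneg hq0 (a + 1)]

theorem pr_E1 {D : ℕ} (hr : c * (2 * r) * ρ ^ 30 ≤ n) (hr' : n ≤ c * (r + 1) * ρ ^ 31)
    (hD : D * ρ ^ 40 ≤ n) : pr n m c (fun φ => ¬ E1 φ r D) ≤ ρ ^ 17 / √n := by
  have hR : (2 : ℝ) ≤ ρ := by exact_mod_cast hρ
  have hR0 : (0 : ℝ) < ρ := by linarith
  have hn' : (0 : ℝ) < n := by exact_mod_cast hn
  have hD' : (D : ℝ) ≤ 1 / ρ ^ 40 * n := by
    rw [one_div, inv_mul_eq_div, le_div_iff₀ (by positivity)]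
    exact_mod_cast hD
  have hr'' : (n : ℝ) ≤ c * (r + 1) * ρ ^ 31 := by exact_mod_cast hr'
  have h1 : 3 * (4 * ρ * (1 / (ρ : ℝ) ^ 40)) ^ c * n ≤ r + 1 := by
    have e1 : 4 * ρ * (1 / (ρ : ℝ) ^ 40) ≤ 1 / ρ ^ 37 := by
      rw [mul_one_div, div_le_div_iff₀ (by positivity) (by positivity)]
      have : (4 : ℝ) ≤ ρ ^ 2 := by nlinarith
      calc 4 * (ρ : ℝ) * ρ ^ 37 = 4 * (ρ : ℝ) ^ 38 := by ring
        _ ≤ (ρ : ℝ) ^ 2 * ρ ^ 38 := by gcongr
        _ = 1 * (ρ : ℝ) ^ 40 := by ring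
    have e2 : 3 * c * ρ ^ 31 ≤ (ρ ^ 37) ^ c :=
      calc 3 * c * ρ ^ 31 ≤ ρ ^ 2 * ρ ^ c * ρ ^ 31 :=
            Nat.mul_le_mul_right _ (Nat.mul_le_mul (by nlinarith) (Nat.lt_pow_self hρ).le)
        _ = ρ ^ (c + 33) := by ring
        _ ≤ (ρ ^ 37) ^ c := by
            rw [← pow_mul]
            exact Nat.pow_le_pow_right (by omega) (by omega)
    have e3 : (3 : ℝ) * c * ρ ^ 31 ≤ (ρ ^ 37) ^ c := by exact_mod_cast e2
    calc 3 * (4 * ρ * (1 / (ρ : ℝ) ^ 40)) ^ c * n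
        ≤ 3 * (1 / (ρ : ℝ) ^ 37) ^ c * (c * (r + 1) * ρ ^ 31) := by gcongr
      _ = (3 : ℝ) * c * ρ ^ 31 / (ρ ^ 37) ^ c * (r + 1) := by rw [one_div_pow]; ring
      _ ≤ (1 : ℝ) * (r + 1) := by
          gcongr
          exact div_le_one_of_le₀ e3 (by positivity)
      _ = (r : ℝ) + 1 := one_mul _
  set x : ℝ := n / ρ ^ 31 with hx
  have hx0 : 0 < x := by positivity
  have hnx : (n : ℝ) = x * ρ ^ 31 := by rw [hx]; field_simp
  have h2 : (1 + 1 / (ρ : ℝ) ^ 40) ^ n / (1 / (ρ : ℝ) ^ 40) ^ D ≤ Real.exp (x / 6) := by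
    have e1 : (1 + 1 / (ρ : ℝ) ^ 40) ^ n ≤ Real.exp (n * (1 / ρ ^ 40)) := by
      rw [Real.exp_nat_mul]
      gcongr
      linarith [Real.add_one_le_exp (1 / (ρ : ℝ) ^ 40)]
    have e2 : ((ρ : ℝ) ^ 40) ^ D ≤ Real.exp ((40 * D : ℕ) * ρ) := by
      rw [Real.exp_nat_mul, ← pow_mul]
      gcongr
      linarith [Real.add_one_le_exp (ρ : ℝ)]
    have e3 : (256 : ℝ) ≤ ρ ^ 8 := le_trans (by norm_num) (pow_le_pow_left₀ (by norm_num) hR 8)
    have e4 : 1 / (ρ : ℝ) ^ 40 * n = x / ρ ^ 9 := by rw [hnx]; field_simp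
    have e5 : x / ρ ^ 9 * (41 * ρ) ≤ x / 6 := by
      rw [div_mul_eq_mul_div, div_le_div_iff₀ (by positivity) (by norm_num)]
      calc x * (41 * ρ) * 6 = x * ρ * 246 := by ring
        _ ≤ x * ρ * ρ ^ 8 := by gcongr; linarith
        _ = x * ρ ^ 9 := by ring
    rw [one_div_pow, div_div_eq_mul_div, div_one]
    refine (mul_le_mul e1 e2 (by positivity) (by positivity)).trans ?_
    rw [← Real.exp_add, Real.exp_le_exp, mul_comm (n : ℝ), e4]
    rw [e4] at hD'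
    have e6 : 0 < x / ρ ^ 9 := by positivity
    push_cast
    nlinarith [mul_le_mul_of_nonneg_right hD' hR0.le]
  have h3 : ((1 : ℝ) / 2) ^ (c * (r + 1)) ≤ Real.exp (-(2 / 3 * x)) := by
    have e1 : (1 : ℝ) / 2 ≤ Real.exp (-(2 / 3)) := by
      rw [← Real.exp_log (show (0 : ℝ) < 1 / 2 by norm_num), Real.exp_le_exp, one_div,
        Real.log_inv]
      linarith [Real.log_two_gt_d9]
    refine (pow_le_pow_left₀ (by norm_num) e1 _).trans ?_
    rw [← Real.exp_nat_mul, Real.exp_le_exp]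
    have e2 : x ≤ c * (r + 1) := by rw [hx, div_le_iff₀ (by positivity)]; exact hr''
    push_cast
    linarith
  have h4 : √n ≤ ρ ^ 16 * Real.exp (x / 2) := by
    refine Real.sqrt_le_iff.2 ⟨by positivity, ?_⟩
    have e1 : Real.exp (x / 2) ^ 2 = Real.exp x := by
      rw [← Real.exp_nat_mul]; congr 1; push_cast; ring
    have e2 : x ≤ Real.exp x := by linarith [Real.add_one_le_exp x]
    rw [mul_pow, e1, hnx, ← pow_mul, mul_comm]
    gcongr
    · linarith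
    · norm_num
  calc _ ≤ pr n m c (fun φ => ∃ t ∈ univ.filter fun t : Finset (Fin n) => t.card ≤ D,
          ∃ T : Finset (Fin m), r < T.card ∧ T.card ≤ 2 * r ∧ bd φ T ⊆ t) := by
        refine pr_mono fun φ h => ?_
        simp only [E1, not_forall, not_lt] at h
        obtain ⟨T, h5, h6, h7⟩ := h
        exact ⟨bd φ T, by simpa using h7, T, h5, h6, Subset.rfl⟩
    _ ≤ ∑ _t ∈ univ.filter fun t : Finset (Fin n) => t.card ≤ D,
          2 * ((1 : ℝ) / 2) ^ (c * (r + 1)) := by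
        refine (pr_exists _ _).trans (sum_le_sum fun t ht => ?_)
        exact probB_range hc hρ hn hm t
          (le_trans (by exact_mod_cast (mem_filter.1 ht).2) hD') h1 hr
    _ ≤ Real.exp (x / 6) * (2 * Real.exp (-(2 / 3 * x))) := by
        rw [sum_const, nsmul_eq_mul]
        refine mul_le_mul ((card_small_le D (by positivity) ?_).trans h2) (by linarith)
          (by positivity) (by positivity)
        exact div_le_one_of_le₀ (one_le_pow₀ (by linarith)) (by positivity)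
    _ ≤ _ := by
        rw [le_div_iff₀ (Real.sqrt_pos.2 hn')]
        have e1 : Real.exp (x / 6) * Real.exp (-(2 / 3 * x)) * Real.exp (x / 2) = 1 := by
          rw [← Real.exp_add, ← Real.exp_add, ← Real.exp_zero]; congr 1; ring
        calc Real.exp (x / 6) * (2 * Real.exp (-(2 / 3 * x))) * √n
            ≤ Real.exp (x / 6) * (2 * Real.exp (-(2 / 3 * x))) * (ρ ^ 16 * Real.exp (x / 2)) := by
              gcongr
          _ = 2 * ρ ^ 16 * (Real.exp (x / 6) * Real.exp (-(2 / 3 * x)) * Real.exp (x / 2)) := by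
              ring
          _ ≤ (ρ : ℝ) * ρ ^ 16 * 1 := by rw [e1]; gcongr
          _ = (ρ : ℝ) ^ 17 := by ring

theorem pr_E2 {d b : ℕ} {lam : ℝ} (l0 : 0 < lam) (hr : c * r * ρ ^ 30 ≤ n)
    (hd : (d : ℝ) ≤ 2 * lam * n) (hd' : 2 * lam * n ≤ d + 1)
    (hb : 3 * (8 * ρ * lam) ^ c * n ≤ b) :
    pr n m c (fun φ => ∑ t ∈ fair φ r d b, lam ^ t.card < (1 + lam) ^ n / 4) ≤ 4 / 2 ^ b := by
  have hW : 0 < (1 + lam) ^ n / 4 := by positivity
  refine le_trans (pr_mono fun φ h => ?_)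
    ((pr_markov (univ.filter fun t : Finset (Fin n) => t.card ≤ d)
      (fun t φ => ∃ T : Finset (Fin m), b < T.card ∧ T.card ≤ r ∧ bd φ T ⊆ t)
      (fun t => lam ^ t.card) (fun _ => by positivity) hW).trans ?_)
  · have h1 := weight_small (n := n) l0.le hd'
    rw [← sum_filter_add_sum_filter_not _
      fun t => ∃ T : Finset (Fin m), b < T.card ∧ T.card ≤ r ∧ bd φ T ⊆ t] at h1
    have h2 : ((univ.filter fun t : Finset (Fin n) => t.card ≤ d).filter
        fun t => ¬ ∃ T : Finset (Fin m), b < T.card ∧ T.card ≤ r ∧ bd φ T ⊆ t) = fair φ r d b := by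
      ext t
      simp [fair]
    rw [h2] at h1
    have h3 : (1 + lam) ^ n / 4 ≤ ∑ t ∈ (univ.filter fun t : Finset (Fin n) => t.card ≤ d).filter
        fun t => ∃ T : Finset (Fin m), b < T.card ∧ T.card ≤ r ∧ bd φ T ⊆ t, lam ^ t.card := by
      linarith
    convert h3
  · rw [div_le_iff₀ hW]
    calc _ ≤ ∑ t ∈ univ.filter fun t : Finset (Fin n) => t.card ≤ d, lam ^ t.card * (1 / 2 ^ b) := by
          refine sum_le_sum fun t ht => mul_le_mul_of_nonneg_left ?_ (by positivity)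
          refine (probB_range hc hρ hn hm t (τ := 2 * lam)
            (le_trans (by exact_mod_cast (mem_filter.1 ht).2) hd) ?_ hr).trans ?_
          · rw [show 4 * ρ * (2 * lam) = 8 * ρ * lam by ring]
            linarith
          · calc 2 * ((1 : ℝ) / 2) ^ (c * (b + 1)) ≤ 2 * (1 / 2) ^ (b + 1) := by
                  gcongr 2 * ?_
                  exact pow_le_pow_of_le_one (by norm_num) (by norm_num) (by nlinarith)
              _ = 1 / 2 ^ b := by rw [pow_succ, one_div_pow]; ring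
      _ ≤ ∑ t : Finset (Fin n), lam ^ t.card * (1 / 2 ^ b) :=
          sum_le_sum_of_subset_of_nonneg (filter_subset _ _) fun _ _ _ => by positivity
      _ = _ := by rw [← sum_mul, sum_pow_card]; ring

end Pool.Agent.Lib.MP_8a52c3_lc.RL
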