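import Pool.Agent.Lib.MP_8a52c3_lc.RLSim
import Pool.Agent.Lib.MP_8a52c3_lc.RLProbB
import Pool.Agent.Lib.MP_8a52c3_lc.RLNum

/-! Assembly of the lower bound. -/

open Finset
open scoped Classical

namespace Pool.Agent.Lib.MP_8a52c3_lc.RL

variable {K : Type} [Field K] {n m c k : ℕ}

/-- A refutation has at least two lines. -/
lemma two_le {S : ℕ} {φ : CNF n m c} {L : Fin S → Finset (MvPolynomial (Fin n) K)} (hc : 0 < c)
    (h : Refutes φ k S L) : 2 ≤ S := by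
  obtain ⟨-, h1, v, hv⟩ := h
  rcases h1 v with ⟨a, ha⟩ | ⟨u, hu, -⟩
  · exact absurd (ha (fun _ => (φ a ⟨0, hc⟩).2) ⟨⟨0, hc⟩, rfl⟩) (hv _)
  · have := v.2
    have : (u : ℕ) < v := hu
    omega

theorem main [Fintype K] {g ρ : ℕ} (hc : 3 ≤ c) (hg : c ≤ g * (c - k * (Fintype.card K - 1)))
    (hn : 0 < n) (h1 : 2 ^ c * n ≤ m) (h2 : m ≤ ρ ^ c * n) :
    pr n m c (fun φ => ¬ ((∀ x, ∃ a, ¬ SatC (φ a) x) ∧
      ∀ (S : ℕ) (L : Fin S → Finset (MvPolynomial (Fin n) K)), Refutes φ k S L →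
        (2 : ℝ) ^ ((n : ℝ) / ρ ^ (200 * c * g)) ≤ S)) ≤ (ρ : ℝ) ^ 20 / √n := by
  have hρ : 2 ≤ ρ := (Nat.pow_le_pow_iff_left (by omega : c ≠ 0)).1
    (Nat.le_of_mul_le_mul_right (h1.trans h2) hn)
  have hρ' : (2 : ℝ) ≤ ρ := by exact_mod_cast hρ
  have hs := pr_sat_le hc hn h1
  rcases lt_or_ge n (ρ ^ (200 * c * g)) with hN | hN
  · refine le_trans (pr_mono fun φ h => ?_) (hs.trans ?_)
    · by_contra! h'
      refine h ⟨h', fun S L hL => ?_⟩
      have h3 : (n : ℝ) / ρ ^ (200 * c * g) ≤ 1 :=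
        div_le_one_of_le₀ (by exact_mod_cast hN.le) (by positivity)
      refine (Real.rpow_le_rpow_of_exponent_le one_le_two h3).trans ?_
      rw [Real.rpow_one]
      exact_mod_cast two_le (by omega) hL
    · gcongr
      exact le_trans (by norm_num) (pow_le_pow_left₀ zero_le_two hρ' 20)
  have hg0 : 0 < g := Nat.pos_of_ne_zero fun h => by simp [h] at hg; omega
  have hk : k * (Fintype.card K - 1) < c := by
    by_contra! h
    simp [Nat.sub_eq_zero_of_le h] at hg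
    omega
  have hq : k * (Fintype.card K - 1) * (Fintype.card K - 1) ≤ c ^ 2 := by
    rcases Nat.eq_zero_or_pos k with rfl | h
    · simp
    · rw [sq]
      exact Nat.mul_le_mul hk.le ((Nat.le_mul_of_pos_left _ h).trans hk.le)
  set lam : ℝ := 1 / (ρ : ℝ) ^ (100 * g) with hl
  set y : ℝ := (ρ ^ 5 * lam) ^ c with hy
  set r := n / (c * ρ ^ 31) with hr
  have l0 : 0 < lam := by positivity
  have l5 : (ρ : ℝ) ^ 5 * lam ≤ 1 := by
    rw [hl, mul_one_div]
    exact div_le_one_of_le₀ (pow_le_pow_right₀ (by linarith) (by omega)) (by positivity)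
  have h32 : (32 : ℝ) ≤ ρ ^ 5 := le_trans (by norm_num) (pow_le_pow_left₀ zero_le_two hρ' 5)
  have l1 : lam ≤ 1 / 2 := by nlinarith
  have hpos : 0 < c * ρ ^ 31 := by positivity
  have r1 : c * (2 * r) * ρ ^ 30 ≤ n :=
    calc c * (2 * r) * ρ ^ 30 ≤ c * (ρ * r) * ρ ^ 30 := by gcongr
      _ = r * (c * ρ ^ 31) := by ring
      _ ≤ n := Nat.div_mul_le_self _ _
  have r2 : c * r * ρ ^ 30 ≤ n := le_trans (by gcongr; omega) r1
  have r3 : n ≤ c * (r + 1) * ρ ^ 31 :=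
    (Nat.lt_mul_div_succ n hpos).le.trans (le_of_eq (by rw [hr]; ring))
  have r0 : 0 < r := by
    refine Nat.div_pos (le_trans ?_ hN) hpos
    calc c * ρ ^ 31 ≤ ρ ^ c * ρ ^ 31 := by gcongr; exact (Nat.lt_pow_self hρ).le
      _ = ρ ^ (c + 31) := by ring
      _ ≤ _ := Nat.pow_le_pow_right (by omega) (by nlinarith)
  have hd := num_deg hc hρ hg hN hq
  rw [← hl] at hd
  have b1 : 3 * (8 * ρ * lam) ^ c * n ≤ (⌈y * n⌉₊ : ℝ) := by
    refine le_trans ?_ (Nat.le_ceil _)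
    gcongr
    calc 3 * (8 * ρ * lam) ^ c ≤ 2 ^ c * (8 * ρ * lam) ^ c := by
          gcongr
          exact le_trans (by norm_num) (pow_le_pow_right₀ one_le_two hc)
      _ = (16 * ρ * lam) ^ c := by rw [← mul_pow]; ring
      _ ≤ y := by
          rw [hy, pow_succ (ρ : ℝ) 4]
          gcongr
          exact le_trans (by norm_num) (pow_le_pow_left₀ zero_le_two hρ' 4)
  have e0 := pr_E0 hc hρ hn h2 r2
  have e1 := pr_E1 hc hρ hn h2 r1 r3 (Nat.div_mul_le_self n (ρ ^ 40))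
  have e2 := pr_E2 hc hρ hn h2 l0 r2 (Nat.floor_le (by positivity))
    (Nat.lt_floor_add_one _).le b1
  refine le_trans (pr_mono fun φ h => ?_) (((pr_or _ _).trans (add_le_add hs ((pr_or _ _).trans
    (add_le_add e0 ((pr_or _ _).trans (add_le_add e1 e2)))))).trans
    (num_fail hc hρ hg hN (Nat.le_ceil _)))
  by_contra! h'
  obtain ⟨f1, f2, f3, f4⟩ := h'
  refine h ⟨f1, fun S L hL => num_gain hc hρ hg hN hl hy (f4.trans ?_)⟩
  refine (del_bound (y := y) f2 f3 (by omega) l0.le (by linarith) (by positivity)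
    (pow_le_one₀ (by positivity) l5)).trans ?_
  gcongr
  exact sim_bound hL f3 r0 hd l0 l1

end Pool.Agent.Lib.MP_8a52c3_lc.RL
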