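import Pool.Agent.Lib.MP_8a52c3_lc.RLBd

/-! The three properties of a random formula. -/

open Finset
open scoped Classical

namespace Pool.Agent.Lib.MP_8a52c3_lc.RL

variable {n m c ρ r : ℕ} (hc : 3 ≤ c) (hρ : 2 ≤ ρ) (hn : 0 < n) (hm : m ≤ ρ ^ c * n)

include hc hρ hn hm

/-- The facts about the auxiliary parameter. -/
lemma prob_key {j : ℕ} (hj : 0 < j) (h2 : c * j * ρ ^ 30 ≤ n) {y : ℝ} (hy : y = √(3 * c * j / n)) :
    0 ≤ y ∧ y ≤ 1 ∧ ρ ^ 14 * y ≤ 1 ∧ 3 * c * j ≤ y ^ 2 * n ∧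
      3 * m / j * (2 * y) ^ c ≤ (1 / 2) ^ c * (ρ ^ 14 * y) := by
  have hn' : (0 : ℝ) < n := by exact_mod_cast hn
  have hj' : (0 : ℝ) < j := by exact_mod_cast hj
  have hρ' : (2 : ℝ) ≤ ρ := by exact_mod_cast hρ
  have y0 : 0 ≤ y := hy ▸ Real.sqrt_nonneg _
  have y2 : y ^ 2 * n = 3 * c * j := by
    rw [hy, Real.sq_sqrt (by positivity)]; field_simp
  have h3 : (c : ℝ) * j * ρ ^ 30 ≤ n := by exact_mod_cast h2
  have h4 : (ρ : ℝ) ^ 14 * y ≤ 1 := by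
    refine (pow_le_one_iff_of_nonneg (by positivity) two_ne_zero).1
      (le_of_mul_le_mul_right ?_ hn')
    calc ((ρ : ℝ) ^ 14 * y) ^ 2 * n = (ρ : ℝ) ^ 28 * (y ^ 2 * n) := by ring
      _ = (c : ℝ) * j * (ρ : ℝ) ^ 28 * 3 := by rw [y2]; ring
      _ ≤ (c : ℝ) * j * (ρ : ℝ) ^ 28 * (ρ : ℝ) ^ 2 := by gcongr; nlinarith
      _ ≤ 1 * n := by linarith
  have h5 : (1 : ℝ) ≤ ρ ^ 14 := one_le_pow₀ (by linarith)
  refine ⟨y0, by nlinarith, h4, y2.ge, ?_⟩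
  obtain ⟨e, rfl⟩ := Nat.exists_eq_add_of_le hc
  have k1 : 9 * (3 + e) ≤ ρ ^ (5 + 11 * e) :=
    calc 9 * (3 + e) ≤ 2 ^ 5 * (e + 1) := by omega
      _ ≤ 2 ^ 5 * 2 ^ e := by gcongr; exact Nat.lt_two_pow_self
      _ ≤ ρ ^ 5 * ρ ^ (11 * e) := Nat.mul_le_mul (Nat.pow_le_pow_left hρ _)
          ((Nat.pow_le_pow_left hρ _).trans (Nat.pow_le_pow_right (by omega) (by omega)))
      _ = _ := (pow_add _ _ _).symm
  have k2 : 9 * ((3 + e : ℕ) : ℝ) ≤ ρ ^ (5 + 11 * e) := by exact_mod_cast k1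
  have k3 : (m : ℝ) ≤ ρ ^ (3 + e) * n := by exact_mod_cast hm
  have k4 : (4 : ℝ) ≤ ρ ^ 2 := by nlinarith
  rw [one_div_pow, one_div_mul_eq_div, le_div_iff₀ (by positivity)]
  calc 3 * (m : ℝ) / j * (2 * y) ^ (3 + e) * 2 ^ (3 + e)
      ≤ 3 * (ρ ^ (3 + e) * n) / j * (2 * y) ^ (3 + e) * 2 ^ (3 + e) := by gcongr
    _ = 3 * (y ^ 2 * n) / j * ρ ^ (3 + e) * (2 * 2) ^ (3 + e) * y ^ e * y := by
        rw [mul_pow, mul_pow]; ring
    _ = 9 * ((3 + e : ℕ) : ℝ) * ρ ^ (3 + e) * 4 ^ (3 + e) * y ^ e * y := by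
        rw [y2]; field_simp; norm_num; ring
    _ ≤ ρ ^ (5 + 11 * e) * ρ ^ (3 + e) * ((ρ : ℝ) ^ 2) ^ (3 + e) * y ^ e * y := by gcongr
    _ = (ρ ^ 14 * y) ^ e * (ρ ^ 14 * y) := by ring
    _ ≤ _ := mul_le_of_le_one_left (by positivity) (pow_le_one₀ (by positivity) h4)

/-- The union bound in the useful range of sizes. -/
theorem pr_bd_le (t : Finset (Fin n)) {j : ℕ} (hj : 0 < j) {τ : ℝ} (ht : (t.card : ℝ) ≤ τ * n)
    (h1 : 3 * (4 * ρ * τ) ^ c * n ≤ j) (h2 : c * j * ρ ^ 30 ≤ n) :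
    pr n m c (fun φ => ∃ T : Finset (Fin m), T.card = j ∧ bd φ T ⊆ t) ≤ (1 / 2) ^ (c * j) := by
  obtain ⟨y0, y1, y2, y3, y4⟩ := prob_key hc hρ hn hm hj h2 rfl
  set y := √(3 * c * j / n : ℝ)
  have hn' : (0 : ℝ) < n := by exact_mod_cast hn
  have hj' : (0 : ℝ) < j := by exact_mod_cast hj
  have τ0 : 0 ≤ τ := nonneg_of_mul_nonneg_left (le_trans (by positivity) ht) hn'
  refine (pr_bd hn t hj y0 y1 ht y3).trans ?_
  rw [pow_mul]
  gcongr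
  rcases le_total τ y with h | h
  · calc 3 * (m : ℝ) / j * (τ + y) ^ c ≤ 3 * m / j * (2 * y) ^ c := by gcongr; linarith
      _ ≤ _ := y4.trans (mul_le_of_le_one_right (by positivity) y2)
  · have k3 : (m : ℝ) ≤ ρ ^ c * n := by exact_mod_cast hm
    rw [one_div_pow, le_div_iff₀ (by positivity)]
    calc 3 * (m : ℝ) / j * (τ + y) ^ c * 2 ^ c ≤ 3 * (ρ ^ c * n) / j * (2 * τ) ^ c * 2 ^ c := by
          gcongr; linarith
      _ = 3 * (2 * 2 * ρ * τ) ^ c * n / j := by simp only [mul_pow]; ring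
      _ ≤ 1 := by rw [div_le_one hj']; norm_num; exact h1

theorem pr_E0 (hr : c * r * ρ ^ 30 ≤ n) : pr n m c (fun φ => ¬ E0 φ r) ≤ ρ ^ 17 / √n := by
  have hρ' : (2 : ℝ) ≤ ρ := by exact_mod_cast hρ
  refine (pr_mono (Q := fun φ => ∃ j ∈ Icc 1 r, ∃ T : Finset (Fin m), T.card = j ∧ bd φ T ⊆ ∅)
    fun φ h => ?_).trans ((pr_exists _ _).trans ?_)
  · simp only [E0, not_forall] at h
    obtain ⟨T, h1, h2, h3⟩ := h
    exact ⟨T.card, mem_Icc.2 ⟨card_pos.2 (nonempty_iff_ne_empty.2 h3), h1⟩, T, rfl, h2.le⟩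
  have key : ∀ j ∈ Icc 1 r, pr n m c (fun φ => ∃ T : Finset (Fin m), T.card = j ∧ bd φ T ⊆ ∅) ≤
      (1 / 2) ^ j * (ρ ^ 14 / √n) := fun j hj => by
    obtain ⟨hj, hj'⟩ := mem_Icc.1 hj
    obtain ⟨y0, y1, y2, y3, y4⟩ := prob_key hc hρ hn hm hj (le_trans (by gcongr) hr) rfl
    refine (pr_bd hn ∅ hj (τ := 0) y0 y1 (by simp) y3).trans ?_
    have h1 : √(3 * c * j : ℝ) * (1 / 2) ^ (c * j) ≤ (1 / 2) ^ j := by
      obtain ⟨e, he⟩ : ∃ e, c * j = j + e := Nat.exists_eq_add_of_le (by nlinarith)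
      have h2 : 3 * c * j ≤ (2 ^ e) ^ 2 := by
        have h3 : e + 1 ≤ 2 ^ e := Nat.lt_two_pow_self
        have h4 : 2 * j ≤ e := by nlinarith
        nlinarith
      have h3 : √(3 * c * j : ℝ) ≤ 2 ^ e := Real.sqrt_le_iff.2 ⟨by positivity, by exact_mod_cast h2⟩
      rw [he, pow_add, mul_left_comm]
      refine mul_le_of_le_one_right (by positivity) ?_
      rwa [one_div_pow, mul_one_div, div_le_one (by positivity)]
    have h2 : √(3 * c * j / n : ℝ) = √(3 * c * j) / √n := Real.sqrt_div' _ (by positivity)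
    set y := √(3 * c * j / n : ℝ)
    calc (3 * (m : ℝ) / j * (0 + y) ^ c) ^ j ≤ ((1 / 2) ^ c * (ρ ^ 14 * y)) ^ j := by
          exact pow_le_pow_left₀ (by positivity) (le_trans (by gcongr; linarith) y4) _
      _ ≤ (1 / 2) ^ (c * j) * (ρ ^ 14 * y) := by
          rw [mul_pow, pow_mul]
          gcongr
          exact pow_le_of_le_one (by positivity) y2 (by omega)
      _ = √(3 * c * j) * (1 / 2) ^ (c * j) * (ρ ^ 14 / √n) := by rw [h2]; ring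
      _ ≤ _ := by gcongr
  refine (sum_le_sum key).trans ?_
  rw [← sum_mul]
  calc _ ≤ 2 * ((ρ : ℝ) ^ 14 / √n) := by
        gcongr
        exact (summable_geometric_two.sum_le_tsum _ fun _ _ => by positivity).trans_eq
          tsum_geometric_two
    _ = 2 * 1 * ρ ^ 14 / √n := by ring
    _ ≤ ρ * (ρ : ℝ) ^ 2 * ρ ^ 14 / √n := by gcongr; nlinarith
    _ = _ := by ring

omit hρ hm in
set_option linter.unusedSectionVars false in
theorem pr_sat_le (hm' : 2 ^ c * n ≤ m) :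
    pr n m c (fun φ => ∃ x, ∀ a, SatC (φ a) x) ≤ 4 / √n := by
  have hn' : (1 : ℝ) ≤ n := by exact_mod_cast hn
  have h1 : (2 : ℝ) ^ c * n ≤ m := by exact_mod_cast hm'
  have h2 : (1 : ℝ) / 2 ^ c ≤ 1 := div_le_one_of_le₀ (one_le_pow₀ one_le_two) (by positivity)
  have h3 : 2 * Real.exp (-1) ≤ 3 / 4 := by
    rw [Real.exp_neg, ← div_eq_mul_inv, div_le_iff₀ (by positivity)]
    linarith [Real.exp_one_gt_d9]
  refine (pr_sat hn).trans ?_
  calc (2 : ℝ) ^ n * (1 - 1 / 2 ^ c) ^ m ≤ 2 ^ n * Real.exp (-(1 / 2 ^ c)) ^ m := by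
        gcongr
        linarith [Real.add_one_le_exp (-(1 / 2 ^ c : ℝ))]
    _ ≤ 2 ^ n * Real.exp (-1) ^ n := by
        rw [← Real.exp_nat_mul, ← Real.exp_nat_mul, mul_neg, mul_neg, mul_one, mul_one_div]
        gcongr
        rwa [le_div_iff₀' (by positivity)]
    _ ≤ (3 / 4) ^ n := by rw [← mul_pow]; gcongr
    _ = 1 / (1 + 1 / 3) ^ n := by rw [← one_div_pow]; norm_num
    _ ≤ 4 / √n := by
        have h4 := one_add_mul_le_pow (a := (1 / 3 : ℝ)) (by norm_num) n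
        have h5 : √(n : ℝ) ≤ n := Real.sqrt_le_iff.2 ⟨by positivity, by nlinarith⟩
        rw [div_le_div_iff₀ (by positivity) (Real.sqrt_pos.2 (by linarith))]
        linarith

end Pool.Agent.Lib.MP_8a52c3_lc.RL
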