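import Pool.Agent.Lib.MP_8a52c3_lc.RLSup

/-! Counting formulas. -/

open Finset
open scoped Classical

namespace Pool.Agent.Lib.MP_8a52c3_lc.RL

variable {n m c : ℕ}

/-- The fraction of the formulas with a property. -/
noncomputable def pr (n m c : ℕ) (P : CNF n m c → Prop) : ℝ :=
  ((univ.filter P).card : ℝ) / Fintype.card (CNF n m c)

lemma pr_nonneg (P : CNF n m c → Prop) : 0 ≤ pr n m c P := by
  unfold pr; positivity

lemma pr_mono {P Q : CNF n m c → Prop} (h : ∀ φ, P φ → Q φ) : pr n m c P ≤ pr n m c Q := by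
  unfold pr
  refine div_le_div_of_nonneg_right ?_ (Nat.cast_nonneg _)
  exact_mod_cast card_le_card fun φ hφ => by
    simpa using h φ (by simpa using hφ)

lemma pr_or (P Q : CNF n m c → Prop) :
    pr n m c (fun φ => P φ ∨ Q φ) ≤ pr n m c P + pr n m c Q := by
  unfold pr
  rw [← add_div]
  refine div_le_div_of_nonneg_right ?_ (Nat.cast_nonneg _)
  rw [← Nat.cast_add, Nat.cast_le]
  exact (card_le_card fun φ hφ => by simpa using hφ).trans
    (card_union_le (univ.filter P) (univ.filter Q))

lemma pr_exists {ι : Type} (s : Finset ι) (P : ι → CNF n m c → Prop) :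
    pr n m c (fun φ => ∃ i ∈ s, P i φ) ≤ ∑ i ∈ s, pr n m c (P i) := by
  induction s using Finset.induction_on with
  | empty => simp [pr]
  | insert a s ha ih =>
    rw [sum_insert ha]
    refine le_trans (pr_mono (Q := fun φ => P a φ ∨ ∃ i ∈ s, P i φ) fun φ h => ?_)
      ((pr_or _ _).trans (by linarith))
    simpa using h

/-- Markov's inequality for a weighted number of events. -/
lemma pr_markov {ι : Type} (s : Finset ι) (P : ι → CNF n m c → Prop) (w : ι → ℝ)
    (hw : ∀ i, 0 ≤ w i) {W : ℝ} (hW : 0 < W) :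
    pr n m c (fun φ => W ≤ ∑ i ∈ s.filter fun i => P i φ, w i) ≤
      (∑ i ∈ s, w i * pr n m c (P i)) / W := by
  rw [le_div_iff₀ hW]
  unfold pr
  simp only [← mul_div_assoc]
  rw [← sum_div, div_mul_eq_mul_div]
  refine div_le_div_of_nonneg_right ?_ (Nat.cast_nonneg _)
  have h1 : ∑ i ∈ s, w i * ((univ.filter (P i)).card : ℝ) =
      ∑ φ : CNF n m c, ∑ i ∈ s.filter fun i => P i φ, w i := by
    simp only [sum_filter, card_filter]
    rw [sum_comm]
    refine sum_congr rfl fun i _ => ?_
    push_cast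
    rw [mul_sum]
    refine sum_congr rfl fun φ _ => ?_
    split_ifs <;> simp
  rw [h1, ← nsmul_eq_mul, ← sum_const]
  refine le_trans (sum_le_sum fun φ hφ => (mem_filter.1 hφ).2) ?_
  exact sum_le_sum_of_subset_of_nonneg (subset_univ _)
    fun φ _ _ => sum_nonneg fun i _ => hw i

lemma card_CNF (n m c : ℕ) : (Fintype.card (CNF n m c) : ℝ) = (2 * n) ^ (c * m) := by
  simp only [CNF, Fintype.card_fun, Fintype.card_prod, Fintype.card_fin, Fintype.card_bool]
  push_cast
  rw [← pow_mul, mul_comm (n : ℝ)]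

lemma ncard_le_of_pr {P : CNF n m c → Prop} {x : ℝ} (hn : 0 < n) (h : pr n m c P ≤ x) :
    (({φ | P φ} : Set (CNF n m c)).ncard : ℝ) ≤ x * (2 * n) ^ (c * m) := by
  unfold pr at h
  rw [card_CNF, div_le_iff₀ (by positivity)] at h
  have e : ({φ | P φ} : Set (CNF n m c)) = ↑(univ.filter P) := by ext; simp
  rwa [e, Set.ncard_coe_finset]

lemma card_false_lit (x : Fin n → Bool) :
    (univ.filter fun l : Fin n × Bool => ¬ x l.1 = l.2).card = n := by
  have e : (univ.filter fun l : Fin n × Bool => ¬ x l.1 = l.2) =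
      univ.image fun v : Fin n => (v, !x v) := by
    ext ⟨v, b⟩
    simp only [mem_filter, mem_univ, true_and, mem_image, Prod.mk.injEq]
    constructor
    · intro h
      exact ⟨v, rfl, by revert h; cases x v <;> cases b <;> simp⟩
    · rintro ⟨_, rfl, rfl⟩
      simp
  rw [e, card_image_of_injective _ fun v w h => (Prod.mk.inj h).1]
  simp

lemma card_sat_clause (x : Fin n → Bool) :
    ((univ.filter fun C : Fin c → Fin n × Bool => SatC C x).card : ℝ) =
      (2 * n) ^ c - n ^ c := by
  have h1 := card_filter_add_card_filter_not (s := (univ : Finset (Fin c → Fin n × Bool)))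
    (fun C => SatC C x)
  have e : (univ.filter fun C : Fin c → Fin n × Bool => ¬ SatC C x) =
      Fintype.piFinset fun _ : Fin c => univ.filter fun l : Fin n × Bool => ¬ x l.1 = l.2 := by
    ext C
    simp [SatC]
  rw [e, Fintype.card_piFinset] at h1
  simp only [card_false_lit, prod_const, card_univ, Fintype.card_fin, Fintype.card_fun,
    Fintype.card_prod, Fintype.card_bool] at h1
  have h2 : ((univ.filter fun C : Fin c → Fin n × Bool => SatC C x).card : ℝ) + (n : ℝ) ^ c =
      ((n : ℝ) * 2) ^ c := by exact_mod_cast h1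
  rw [mul_comm 2]
  linarith

lemma pr_sat_at (hn : 0 < n) (x : Fin n → Bool) :
    pr n m c (fun φ => ∀ a, SatC (φ a) x) = (1 - 1 / 2 ^ c) ^ m := by
  unfold pr
  have e : (univ.filter fun φ : CNF n m c => ∀ a, SatC (φ a) x) =
      Fintype.piFinset fun _ : Fin m =>
        univ.filter fun C : Fin c → Fin n × Bool => SatC C x := by
    ext φ
    simp
  have h : (((univ.filter fun φ : CNF n m c => ∀ a, SatC (φ a) x).card : ℕ) : ℝ) =
      ((2 * n) ^ c - n ^ c) ^ m := by
    rw [e, Fintype.card_piFinset]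
    simp only [prod_const, card_univ, Fintype.card_fin]
    push_cast
    rw [card_sat_clause]
  have hn' : (0 : ℝ) < n := by exact_mod_cast hn
  have h3 : (((2 * n) ^ c - n ^ c) ^ m : ℝ) / (2 * n) ^ (c * m) = (1 - 1 / 2 ^ c) ^ m := by
    rw [pow_mul, ← div_pow]
    congr 1
    rw [mul_pow]
    field_simp
  rw [card_CNF, ← h3, ← h]
  congr

/-- Few formulas are satisfiable. -/
theorem pr_sat (hn : 0 < n) :
    pr n m c (fun φ => ∃ x, ∀ a, SatC (φ a) x) ≤ 2 ^ n * (1 - 1 / 2 ^ c) ^ m := by
  have h := pr_exists (n := n) (m := m) (c := c) (univ : Finset (Fin n → Bool))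
    fun x φ => ∀ a, SatC (φ a) x
  simp only [pr_sat_at hn, sum_const, card_univ, Fintype.card_fun, Fintype.card_bool,
    Fintype.card_fin, nsmul_eq_mul] at h
  refine le_trans (pr_mono fun φ hφ => ?_) (h.trans_eq (by push_cast; rfl))
  simpa using hφ

end Pool.Agent.Lib.MP_8a52c3_lc.RL
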