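import Pool.Agent.Lib.MP_8a52c3_lc.RLHilb
import Pool.Agent.Lib.MP_8a52c3_lc.RLDel

/-! Hilbert series and approximators. -/

open Finset
open scoped Classical

namespace Pool.Agent.Lib.MP_8a52c3_lc.RL

variable (K : Type) [Field K] {n : ℕ}

/-- The Hilbert series of `X` at the point `lam`. -/
noncomputable def HS (lam : ℝ) (X : Finset (Fin n → Bool)) : ℝ := ∑' d, lam ^ d * hf K X d

variable {K} {k : ℕ} {lam : ℝ} (l0 : 0 < lam) (l1 : lam ≤ 1 / 2)

include l0 l1

lemma HS_summable (X : Finset (Fin n → Bool)) : Summable fun d => lam ^ d * (hf K X d : ℝ) := by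
  refine Summable.of_nonneg_of_le (fun d => by positivity) (fun d => ?_)
    ((summable_geometric_of_lt_one l0.le (by linarith)).mul_right ((2 : ℝ) ^ n))
  refine mul_le_mul_of_nonneg_left ?_ (by positivity)
  exact_mod_cast (hf_le_pow : hf K X d ≤ 2 ^ n)

lemma ser_tail (j : ℕ) : (Summable fun d : ℕ => if j ≤ d then lam ^ d else 0) ∧
    (∑' d : ℕ, if j ≤ d then lam ^ d else 0) ≤ 2 * lam ^ j := by
  have hl : lam < 1 := by linarith
  have hs : Summable fun d : ℕ => if j ≤ d then lam ^ d else 0 := by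
    refine Summable.of_nonneg_of_le (fun d => ?_) (fun d => ?_)
      (summable_geometric_of_lt_one l0.le hl)
    · split_ifs <;> positivity
    · split_ifs
      · exact le_rfl
      · positivity
  refine ⟨hs, ?_⟩
  rw [← hs.sum_add_tsum_nat_add j, Finset.sum_eq_zero fun i hi =>
    if_neg (not_le.2 (Finset.mem_range.1 hi)), zero_add]
  have h1 : ∀ i : ℕ, (if j ≤ i + j then lam ^ (i + j) else 0) = lam ^ i * lam ^ j := fun i => by
    rw [if_pos (Nat.le_add_left j i), pow_add]
  rw [tsum_congr h1, tsum_mul_right, tsum_geometric_of_lt_one l0.le hl]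
  refine mul_le_mul_of_nonneg_right ?_ (by positivity)
  rw [inv_le_comm₀ (by linarith) (by norm_num)]
  linarith

lemma HS_le (X : Finset (Fin n → Bool)) : HS K lam X ≤ 2 * (1 + lam) ^ n := by
  have h1 : ∀ d, lam ^ d * (hf K X d : ℝ) ≤
      ∑ t : Finset (Fin n), if t.card ≤ d then lam ^ d else 0 := by
    intro d
    rw [← Finset.sum_filter, Finset.sum_const, nsmul_eq_mul, mul_comm]
    refine mul_le_mul_of_nonneg_right ?_ (by positivity)
    exact_mod_cast (hf_le_card : hf K X d ≤ _)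
  have h2 : Summable fun d => ∑ t : Finset (Fin n), if t.card ≤ d then lam ^ d else 0 :=
    summable_sum fun t _ => (ser_tail l0 l1 t.card).1
  calc HS K lam X ≤ ∑' d, ∑ t : Finset (Fin n), if t.card ≤ d then lam ^ d else 0 :=
        (HS_summable l0 l1 X).tsum_le_tsum h1 h2
    _ = ∑ t : Finset (Fin n), ∑' d, if t.card ≤ d then lam ^ d else 0 :=
        Summable.tsum_finsetSum fun t _ => (ser_tail l0 l1 t.card).1
    _ ≤ ∑ t : Finset (Fin n), 2 * lam ^ t.card :=
        Finset.sum_le_sum fun t _ => (ser_tail l0 l1 t.card).2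
    _ = 2 * (1 + lam) ^ n := by rw [← Finset.mul_sum, sum_pow_card]

lemma HS_cut {g : Fn K n} (hg : g ∈ Pd K n k) (X : Finset (Fin n → Bool)) :
    HS K lam (X.filter fun x => g x = 0) + lam ^ k * HS K lam (X.filter fun x => g x ≠ 0) ≤
      HS K lam X := by
  have s0 := HS_summable (K := K) l0 l1 (X.filter fun x => g x = 0)
  have s1 := HS_summable (K := K) l0 l1 (X.filter fun x => g x ≠ 0)
  have s2 := HS_summable (K := K) l0 l1 X
  have s0' := (summable_nat_add_iff k).2 s0
  have s2' := (summable_nat_add_iff k).2 s2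
  have s1' := s1.mul_left (lam ^ k)
  unfold HS
  rw [← s0.sum_add_tsum_nat_add k, ← s2.sum_add_tsum_nat_add k, ← tsum_mul_left, add_assoc,
    ← s0'.tsum_add s1']
  refine add_le_add (Finset.sum_le_sum fun d _ => ?_) ((s0'.add s1').tsum_le_tsum (fun d => ?_) s2')
  · refine mul_le_mul_of_nonneg_left ?_ (by positivity)
    exact_mod_cast hf_mono (Finset.filter_subset _ _)
  · have h : ((hf K (X.filter fun x => g x = 0) (d + k) : ℕ) : ℝ) +
        (hf K (X.filter fun x => g x ≠ 0) d : ℕ) ≤ (hf K X (d + k) : ℕ) := by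
      exact_mod_cast hf_cut hg X d
    have h' := mul_le_mul_of_nonneg_left h (show 0 ≤ lam ^ (d + k) by positivity)
    rw [mul_add] at h'
    refine le_trans (le_of_eq ?_) h'
    rw [pow_add]
    ring

omit l0 l1 in
lemma ser_half [Fintype K] (G : Submodule K (Fn K n)) {x : Fin n → Bool}
    (hx : ∃ g ∈ G, g x ≠ 0) : (univ.filter fun g : Fn K n => g ∈ G).card ≤
      2 * ((univ.filter fun g : Fn K n => g ∈ G).filter fun g => g x ≠ 0).card := by
  obtain ⟨g0, hg0, h0⟩ := hx
  have h1 := Finset.card_filter_add_card_filter_not (s := univ.filter fun g : Fn K n => g ∈ G)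
    (fun g => g x = 0)
  have h2 : ((univ.filter fun g : Fn K n => g ∈ G).filter fun g => g x = 0).card ≤
      ((univ.filter fun g : Fn K n => g ∈ G).filter fun g => ¬ g x = 0).card := by
    refine Finset.card_le_card_of_injOn (fun g => g + g0) (fun g hg => ?_)
      (fun a _ b _ h => add_right_cancel h)
    simp only [Finset.coe_filter, Finset.mem_filter, Finset.mem_univ, true_and,
      Set.mem_ofPred_eq] at hg ⊢
    refine ⟨G.add_mem hg.1 hg0, ?_⟩
    rw [Pi.add_apply, hg.2, zero_add]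
    exact h0
  simp only [ne_eq]
  omega

omit l0 l1 in
lemma ser_avg [Fintype K] (G : Submodule K (Fn K n)) (X : Finset (Fin n → Bool))
    (hX : ∀ x ∈ X, ∃ g ∈ G, g x ≠ 0) (d : ℕ) :
    (univ.filter fun g : Fn K n => g ∈ G).card * hf K X d ≤
      2 * ∑ g ∈ univ.filter fun g : Fn K n => g ∈ G, hf K (X.filter fun x => g x ≠ 0) d := by
  obtain ⟨B, hB, hI, hc⟩ := exists_basis K X d
  set GF : Finset (Fn K n) := univ.filter fun g => g ∈ G with hGF
  calc GF.card * hf K X d = ∑ _x ∈ B, GF.card := by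
        rw [Finset.sum_const, smul_eq_mul, hc, mul_comm]
    _ ≤ ∑ x ∈ B, 2 * (GF.filter fun g => g x ≠ 0).card :=
        Finset.sum_le_sum fun x hx => ser_half G (hX x (hB hx))
    _ = 2 * ∑ g ∈ GF, (B.filter fun x => g x ≠ 0).card := by
        rw [← Finset.mul_sum]
        simp only [Finset.card_filter]
        rw [Finset.sum_comm]
    _ ≤ _ := by
        refine Nat.mul_le_mul_left 2 (Finset.sum_le_sum fun g _ => ?_)
        exact card_le_hf (hI.subset (Finset.filter_subset _ _)) (Finset.filter_subset_filter _ hB)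

/-- Averaging over a space of functions without common zero in `X`. -/
lemma exists_cut [Fintype K] (G : Submodule K (Fn K n)) (X : Finset (Fin n → Bool))
    (hX : ∀ x ∈ X, ∃ g ∈ G, g x ≠ 0) :
    ∃ g ∈ G, HS K lam X ≤ 2 * HS K lam (X.filter fun x => g x ≠ 0) := by
  set GF : Finset (Fn K n) := univ.filter fun g => g ∈ G with hGF
  have hne : GF.Nonempty := ⟨0, by simp [hGF]⟩
  have h1 : ∀ d, ∑ _g ∈ GF, lam ^ d * (hf K X d : ℝ) ≤
      ∑ g ∈ GF, 2 * (lam ^ d * (hf K (X.filter fun x => g x ≠ 0) d : ℝ)) := by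
    intro d
    have h : ((GF.card * hf K X d : ℕ) : ℝ) ≤
        ((2 * ∑ g ∈ GF, hf K (X.filter fun x => g x ≠ 0) d : ℕ) : ℝ) := by
      exact_mod_cast ser_avg G X hX d
    push_cast at h
    rw [Finset.sum_const, nsmul_eq_mul, ← Finset.mul_sum, ← Finset.mul_sum]
    have h' := mul_le_mul_of_nonneg_left h (show 0 ≤ lam ^ d by positivity)
    linarith
  have sa : ∀ g ∈ GF, Summable fun d => lam ^ d * (hf K X d : ℝ) :=
    fun _ _ => HS_summable l0 l1 X
  have sb : ∀ g ∈ GF, Summable fun d =>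
      2 * (lam ^ d * (hf K (X.filter fun x => g x ≠ 0) d : ℝ)) :=
    fun g _ => (HS_summable l0 l1 _).mul_left 2
  have h2 : ∑ _g ∈ GF, HS K lam X ≤ ∑ g ∈ GF, 2 * HS K lam (X.filter fun x => g x ≠ 0) := by
    have h3 := (summable_sum sa).tsum_le_tsum h1 (summable_sum sb)
    rw [Summable.tsum_finsetSum sa, Summable.tsum_finsetSum sb] at h3
    simpa only [HS, tsum_mul_left] using h3
  obtain ⟨g, hg, h⟩ := Finset.exists_le_of_sum_le hne h2
  exact ⟨g, (Finset.mem_filter.1 hg).2, h⟩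

/-- Approximation of the indicator function of the set of common zeros of `G`. -/
theorem approx [Fintype K] (G : Submodule K (Fn K n)) (hG : G ≤ Pd K n k) (s : ℕ) :
    ∃ p ∈ Pd K n (s * (k * (Fintype.card K - 1))), ∃ E : Finset (Fin n → Bool),
      (∀ x, (∀ g ∈ G, g x = 0) → p x = 1) ∧ (∀ x ∉ E, (∃ g ∈ G, g x ≠ 0) → p x = 0) ∧
      HS K lam E ≤ (1 - lam ^ k / 2) ^ s * (2 * (1 + lam) ^ n) := by
  have hq : 0 < Fintype.card K - 1 := Nat.sub_pos_of_lt Fintype.one_lt_card
  have hk : lam ^ k ≤ 1 := pow_le_one₀ l0.le (by linarith)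
  have hk0 : 0 ≤ lam ^ k := by positivity
  have main : ∃ p ∈ Pd K n (s * (k * (Fintype.card K - 1))), ∃ E : Finset (Fin n → Bool),
      (∀ x ∈ E, ∃ g ∈ G, g x ≠ 0) ∧
      (∀ x, (∀ g ∈ G, g x = 0) → p x = 1) ∧ (∀ x ∉ E, (∃ g ∈ G, g x ≠ 0) → p x = 0) ∧
      HS K lam E ≤ (1 - lam ^ k / 2) ^ s * (2 * (1 + lam) ^ n) := by
    induction s with
    | zero =>
      refine ⟨1, one_mem_Pd, univ.filter fun x => ∃ g ∈ G, g x ≠ 0,
        fun x hx => (Finset.mem_filter.1 hx).2, fun _ _ => rfl,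
        fun x hx h => absurd (Finset.mem_filter.2 ⟨Finset.mem_univ x, h⟩) hx, ?_⟩
      rw [pow_zero, one_mul]
      exact HS_le l0 l1 _
    | succ s ih =>
      obtain ⟨p, hp, E, hE, h1, h0, hS⟩ := ih
      obtain ⟨g, hg, hc⟩ := exists_cut l0 l1 G E hE
      refine ⟨p * (1 - g ^ (Fintype.card K - 1)), ?_, E.filter fun x => g x = 0,
        fun x hx => hE x (Finset.mem_filter.1 hx).1, fun x hx => ?_, fun x hx h => ?_, ?_⟩
      · rw [Nat.succ_mul]
        exact Pd_mul hp (Submodule.sub_mem _ one_mem_Pd (Pd_pow (hG hg) _))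
      · simp only [Pi.mul_apply, Pi.sub_apply, Pi.pow_apply, Pi.one_apply]
        rw [h1 x hx, hx g hg, zero_pow hq.ne', sub_zero, mul_one]
      · simp only [Pi.mul_apply, Pi.sub_apply, Pi.pow_apply, Pi.one_apply]
        by_cases hxE : x ∈ E
        · have hgx : g x ≠ 0 := fun h' => hx (Finset.mem_filter.2 ⟨hxE, h'⟩)
          rw [FiniteField.pow_card_sub_one_eq_one _ hgx, sub_self, mul_zero]
        · rw [h0 x hxE h, zero_mul]
      · have h2 := HS_cut l0 l1 (hG hg) E
        have h3 := mul_le_mul_of_nonneg_left hc hk0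
        have h4 := mul_le_mul_of_nonneg_left hS (show 0 ≤ 1 - lam ^ k / 2 by linarith)
        rw [pow_succ', mul_assoc]
        refine le_trans ?_ h4
        linarith
  obtain ⟨p, hp, E, -, h⟩ := main
  exact ⟨p, hp, E, h⟩

/-- The weighted dimension count. -/
theorem weight_le_sum_HS {S : ℕ} (E : Fin S → Finset (Fin n → Bool))
    (F : Finset (Finset (Fin n)))
    (h : ∀ Q ∈ Sp K (F : Set (Finset (Fin n))), (∀ v, ∀ x ∈ E v, Q x = 0) → Q = 0) :
    ∑ t ∈ F, lam ^ t.card ≤ ∑ v, HS K lam (E v) := by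
  have hm : ∀ t ∈ F, t.card ∈ Finset.range (n + 1) := fun t _ =>
    Finset.mem_range.2 (Nat.lt_succ_of_le (by simpa using Finset.card_le_univ t))
  rw [← Finset.sum_fiberwise_of_maps_to hm]
  calc ∑ d ∈ Finset.range (n + 1), ∑ t ∈ F.filter (fun t => t.card = d), lam ^ t.card
      ≤ ∑ d ∈ Finset.range (n + 1), ∑ v, lam ^ d * (hf K (E v) d : ℝ) := by
        refine Finset.sum_le_sum fun d _ => ?_
        rw [Finset.sum_congr rfl fun t ht => by rw [(Finset.mem_filter.1 ht).2],
          Finset.sum_const, nsmul_eq_mul, ← Finset.mul_sum, mul_comm]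
        refine mul_le_mul_of_nonneg_left ?_ (by positivity)
        have h1 : (F.filter fun t => t.card = d).card ≤ ∑ v, hf K (E v) d :=
          card_le_sum_hf E _ (fun t ht => (Finset.mem_filter.1 ht).2.le) fun Q hQ =>
            h Q (Sp_mono (Finset.coe_subset.2 (Finset.filter_subset _ _)) hQ)
        exact_mod_cast h1
    _ = ∑ v, ∑ d ∈ Finset.range (n + 1), lam ^ d * (hf K (E v) d : ℝ) := Finset.sum_comm
    _ ≤ ∑ v, HS K lam (E v) := Finset.sum_le_sum fun v _ =>
        (HS_summable l0 l1 (E v)).sum_le_tsum _ fun d _ => by positivity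

end Pool.Agent.Lib.MP_8a52c3_lc.RL
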