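import Pool.Agent.Lib.MP_8a52c3_lc.RLSer
import Pool.Agent.Lib.MP_8a52c3_lc.RLAR

/-! Simulation of a refutation multiplied by a polynomial. -/

open Finset
open scoped Classical

namespace Pool.Agent.Lib.MP_8a52c3_lc.RL

variable {K : Type} [Field K] {n m c k S : ℕ} {φ : CNF n m c}
  {L : Fin S → Finset (MvPolynomial (Fin n) K)}

theorem sim_core (hL : Refutes φ k S L) {D d e : ℕ} {I : Submodule K (Fn K n)}
    (h1 : ∀ a, fc K (φ a) ∈ I)
    (h2 : ∀ d e f g, f ∈ I → f ∈ Pd K n d → g ∈ Pd K n e → d + e ≤ D → f * g ∈ I)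
    (p : Fin S → Fn K n) (hp : ∀ v, p v ∈ Pd K n e) {Q : Fn K n} (hQ : Q ∈ Pd K n d)
    (h3 : ∀ v x, Q x ≠ 0 → p v x = if Holds (L v) x then 0 else 1) (hD : d + 3 * e + c ≤ D) :
    Q ∈ I := by
  obtain ⟨-, hstep, v₀, hv₀⟩ := hL
  have key : ∀ v : Fin S, Q * p v ∈ I := by
    intro v
    induction v using WellFoundedLT.induction with
    | ind v ih =>
      rcases hstep v with ⟨a, ha⟩ | ⟨u, hu, w, hw, huw⟩
      · have e1 : Q * p v = fc K (φ a) * (Q * p v) := by
          funext x
          by_cases hx : Q x = 0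
          · simp [hx]
          · by_cases hh : Holds (L v) x
            · simp [h3 v x hx, hh]
            · have hs : ¬ SatC (φ a) x := fun hs => hh (ha x hs)
              simp [fc, hs]
        rw [e1]
        exact h2 c (d + e) _ _ (h1 a) (fc_mem _) (Pd_mul hQ (hp v)) (by omega)
      · have e1 : Q * p v = (Q * p u) * p v + (Q * p w) * (p v * (1 - p u)) := by
          funext x
          by_cases hx : Q x = 0
          · simp [hx]
          · by_cases hh : Holds (L v) x
            · simp [h3 v x hx, hh]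
            · by_cases hu' : Holds (L u) x
              · have hw' : ¬ Holds (L w) x := fun hw' => hh (huw x hu' hw')
                simp [h3 v x hx, h3 u x hx, h3 w x hx, hh, hu', hw']
              · simp [h3 v x hx, h3 u x hx, hh, hu']
        rw [e1]
        refine I.add_mem (h2 (d + e) e _ _ (ih u hu) (Pd_mul hQ (hp u)) (hp v) (by omega))
          (h2 (d + e) (e + e) _ _ (ih w hw) (Pd_mul hQ (hp w))
            (Pd_mul (hp v) (Submodule.sub_mem _ one_mem_Pd (hp u))) (by omega))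
  have e2 : Q * p v₀ = Q := by
    funext x
    by_cases hx : Q x = 0
    · simp [hx]
    · simp [h3 v₀ x hx, hv₀ x]
  rw [← e2]
  exact key v₀

/-- The space whose common zeros are the points where a line is false. -/
lemma sim_space [Fintype K] (A : Finset (MvPolynomial (Fin n) K))
    (hA : ∀ f ∈ A, f.totalDegree ≤ k) :
    ∃ G : Submodule K (Fn K n), G ≤ Pd K n (k * (Fintype.card K - 1)) ∧
      (∀ x, ¬ Holds A x → ∀ g ∈ G, g x = 0) ∧ ∀ x, Holds A x → ∃ g ∈ G, g x ≠ 0 := by
  have hq : Fintype.card K - 1 ≠ 0 := by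
    have := Fintype.one_lt_card (α := K)
    omega
  refine ⟨Submodule.span K ((fun f => 1 - ev K f ^ (Fintype.card K - 1)) '' (A : Set _)),
    ?_, ?_, ?_⟩
  · refine Submodule.span_le.2 ?_
    rintro _ ⟨f, hf, rfl⟩
    exact Submodule.sub_mem _ one_mem_Pd (Pd_pow (ev_mem (hA f hf)) _)
  · intro x hx g hg
    have hle : Submodule.span K ((fun f => 1 - ev K f ^ (Fintype.card K - 1)) '' (A : Set _)) ≤
        LinearMap.ker (LinearMap.proj x : Fn K n →ₗ[K] K) := by
      refine Submodule.span_le.2 ?_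
      rintro _ ⟨f, hf, rfl⟩
      have h0 : ev K f x ≠ 0 := fun h0 => hx ⟨f, hf, h0⟩
      simp [FiniteField.pow_card_sub_one_eq_one _ h0]
    exact hle hg
  · rintro x ⟨f, hf, h0⟩
    refine ⟨_, Submodule.subset_span ⟨f, hf, rfl⟩, ?_⟩
    have h0' : ev K f x = 0 := h0
    simp [h0', hq]

theorem sim_bound [Fintype K] (hL : Refutes φ k S L) {r D d s : ℕ} (h : E1 φ r D) (hr : 0 < r)
    (hD : d + 3 * (s * (k * (Fintype.card K - 1) * (Fintype.card K - 1))) + c ≤ D)
    {lam : ℝ} (l0 : 0 < lam) (l1 : lam ≤ 1 / 2) :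
    ∑ t ∈ good φ r d, lam ^ t.card ≤
      S * ((1 - lam ^ (k * (Fintype.card K - 1)) / 2) ^ s * (2 * (1 + lam) ^ n)) := by
  obtain ⟨I, hI1, hI2, hI3⟩ := exists_closure K h hr (by omega : c ≤ D)
  choose G hG hG0 hG1 using fun v => sim_space (L v) (hL.1 v)
  choose p hp E hE1 hE0 hE using fun v => approx l0 l1 (G v) (hG v) s
  refine (weight_le_sum_HS (K := K) l0 l1 E (good φ r d) fun Q hQ hQE => ?_).trans ?_
  · have hQd : Q ∈ Pd K n d :=
      Sp_mono (fun t ht => (mem_filter.1 (mem_coe.1 ht)).2.1) hQ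
    have hQD : Q ∈ Sp K (good φ r D : Set (Finset (Fin n))) := by
      refine Sp_mono (fun t ht => ?_) hQ
      have ht' := (mem_filter.1 (mem_coe.1 ht)).2
      exact mem_coe.2 (mem_filter.2 ⟨mem_univ _, ht'.1.trans (by omega), ht'.2⟩)
    refine hI3 Q (sim_core hL hI1 hI2 p hp hQd (fun v x hx => ?_) hD) hQD
    split_ifs with hh
    · exact hE0 v x (fun hxE => hx (hQE v x hxE)) (hG1 v x hh)
    · exact hE1 v x (hG0 v x hh)
  · refine (sum_le_sum fun v _ => hE v).trans ?_
    simp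

end Pool.Agent.Lib.MP_8a52c3_lc.RL
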