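import Pool.Agent.Lib.MP_8a52c3_lc.RNDefs

/-!
Reachability by rectifier steps.
-/

namespace Pool.Agent.Lib.MP_8a52c3_lc.RN

open Submodule

variable {Ω Ω' : Type}

/-- Positive part. -/
noncomputable def relu (f : Ω → ℝ) : Ω → ℝ := fun w => max (f w) 0

/-- `W` is contained in the span obtained from `U` by `c` rectifier steps. -/
def Reach : Submodule ℝ (Ω → ℝ) → ℕ → Submodule ℝ (Ω → ℝ) → Prop
  | U, 0, W => W ≤ U
  | U, c + 1, W => ∃ f ∈ U, Reach (U ⊔ span ℝ {relu f}) c W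

theorem Reach.mono {c : ℕ} : ∀ {U U' W W' : Submodule ℝ (Ω → ℝ)}, Reach U c W → U ≤ U' → W' ≤ W →
    Reach U' c W' := by
  induction c with
  | zero => intro U U' W W' h h1 h2; exact h2.trans (le_trans h h1)
  | succ c ih =>
    rintro U U' W W' ⟨f, hf, h⟩ h1 h2
    exact ⟨f, h1 hf, ih h (sup_le_sup_right h1 _) h2⟩

theorem Reach.sup {c : ℕ} : ∀ {U W : Submodule ℝ (Ω → ℝ)}, Reach U c W → Reach U c (U ⊔ W) := by
  induction c with
  | zero => intro U W h; exact sup_le le_rfl h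
  | succ c ih =>
    rintro U W ⟨f, hf, h⟩
    exact ⟨f, hf, (ih h).mono le_rfl (sup_le_sup_right le_sup_left _)⟩

theorem Reach.succ {c : ℕ} {U W : Submodule ℝ (Ω → ℝ)} (h : Reach U c W) : Reach U (c + 1) W :=
  ⟨0, zero_mem _, h.mono le_sup_left le_rfl⟩

theorem Reach.le {c c' : ℕ} {U W : Submodule ℝ (Ω → ℝ)} (h : Reach U c W) (hc : c ≤ c') :
    Reach U c' W := by
  induction c', hc using Nat.le_induction with
  | base => exact h
  | succ c' _ ih => exact ih.succ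

theorem Reach.trans {c c' : ℕ} : ∀ {U V W : Submodule ℝ (Ω → ℝ)}, Reach U c V → Reach V c' W →
    Reach U (c' + c) W := by
  induction c with
  | zero => intro U V W h h'; exact h'.mono h le_rfl
  | succ c ih =>
    rintro U V W ⟨f, hf, h⟩ h'
    exact ⟨f, hf, ih h h'⟩

/-- Closure principle. -/
theorem Reach.le_of_closed {c : ℕ} {B : Submodule ℝ (Ω → ℝ)} (hB : ∀ f ∈ B, relu f ∈ B) :
    ∀ {U W : Submodule ℝ (Ω → ℝ)}, Reach U c W → U ≤ B → W ≤ B := by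
  induction c with
  | zero => intro U W h h'; exact le_trans h h'
  | succ c ih =>
    rintro U W ⟨f, hf, h⟩ h'
    exact ih h (sup_le h' ((span_singleton_le_iff_mem _ _).2 (hB f (h' hf))))

/-- Transfer along a relation between functions that is linear and compatible with `relu`. -/
theorem Reach.transfer (R : Submodule ℝ ((Ω' → ℝ) × (Ω → ℝ)))
    (hR : ∀ f g, (f, g) ∈ R → (relu f, relu g) ∈ R) {c : ℕ} :
    ∀ {U' W' : Submodule ℝ (Ω' → ℝ)} {U : Submodule ℝ (Ω → ℝ)}, Reach U' c W' →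
      (∀ f ∈ U', ∃ g ∈ U, (f, g) ∈ R) → ∃ W, Reach U c W ∧ ∀ f ∈ W', ∃ g ∈ W, (f, g) ∈ R := by
  induction c with
  | zero => intro U' W' U h h'; exact ⟨U, le_rfl, fun f hf => h' f (h hf)⟩
  | succ c ih =>
    rintro U' W' U ⟨f, hf, h⟩ h'
    obtain ⟨g, hg, hfg⟩ := h' f hf
    obtain ⟨W, h1, h2⟩ := ih (U := U ⊔ span ℝ {relu g}) h (by
      intro f₁ hf₁
      obtain ⟨f₂, hf₂, f₃, hf₃, rfl⟩ := mem_sup.1 hf₁
      obtain ⟨t, rfl⟩ := mem_span_singleton.1 hf₃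
      obtain ⟨g₂, hg₂, h₂⟩ := h' f₂ hf₂
      exact ⟨g₂ + t • relu g, add_mem (mem_sup_left hg₂)
        (mem_sup_right (smul_mem _ _ (mem_span_singleton_self _))),
        add_mem h₂ (smul_mem R t (hR f g hfg))⟩)
    exact ⟨W, ⟨g, hg, h1⟩, h2⟩

/-- After `c` more steps, property `P` can be made to hold. -/
def Comp (c : ℕ) (U : Submodule ℝ (Ω → ℝ)) (P : Submodule ℝ (Ω → ℝ) → Prop) : Prop :=
  ∃ W, U ≤ W ∧ Reach U c W ∧ P W

variable {U : Submodule ℝ (Ω → ℝ)} {P Q : Submodule ℝ (Ω → ℝ) → Prop} {c c' : ℕ}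

theorem Comp.pure (h : P U) : Comp c U P := ⟨U, le_rfl, Reach.le (c := 0) le_rfl (Nat.zero_le _), h⟩

theorem Comp.le (h : Comp c U P) (hc : c ≤ c') : Comp c' U P := by
  obtain ⟨W, h1, h2, h3⟩ := h
  exact ⟨W, h1, h2.le hc, h3⟩

theorem Comp.bind (h : Comp c U P) (h' : ∀ W, U ≤ W → P W → Comp c' W Q) :
    Comp (c + c') U Q := by
  obtain ⟨W, h1, h2, h3⟩ := h
  obtain ⟨W', h4, h5, h6⟩ := h' W h1 h3
  exact ⟨W', h1.trans h4, (h2.trans h5).le (by omega), h6⟩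

theorem Comp.imp (h : Comp c U P) (h' : ∀ W, U ≤ W → P W → Q W) : Comp c U Q := by
  obtain ⟨W, h1, h2, h3⟩ := h
  exact ⟨W, h1, h2, h' W h1 h3⟩

theorem Comp.relu {f : Ω → ℝ} (hf : f ∈ U) : Comp 1 U fun W => relu f ∈ W :=
  ⟨U ⊔ span ℝ {RN.relu f}, le_sup_left, ⟨f, hf, le_rfl⟩,
    mem_sup_right (mem_span_singleton_self _)⟩

theorem Comp.loop (P : ℕ → Submodule ℝ (Ω → ℝ) → Prop) (t : ℕ) (h0 : P 0 U)
    (h : ∀ i < t, ∀ W, U ≤ W → P i W → Comp c W (P (i + 1))) : Comp (t * c) U (P t) := by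
  induction t with
  | zero => exact Comp.pure h0
  | succ t ih =>
    rw [add_mul, one_mul]
    exact (ih fun i hi => h i (by omega)).bind fun W h1 h2 => h t (by omega) W h1 h2

theorem Comp.family {J : Type} [Fintype J] (P : J → Submodule ℝ (Ω → ℝ) → Prop)
    (hP : ∀ j W W', W ≤ W' → P j W → P j W') (h : ∀ j, Comp c U (P j)) :
    Comp (Fintype.card J * c) U fun W => ∀ j, P j W := by
  classical
  have key : ∀ S : Finset J, Comp (S.card * c) U fun W => ∀ j ∈ S, P j W := by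
    intro S
    induction S using Finset.induction_on with
    | empty => exact Comp.pure (by simp)
    | insert j S hj ih =>
      rw [Finset.card_insert_of_notMem hj, add_mul, one_mul]
      refine ih.bind fun W h1 h2 => ?_
      obtain ⟨W', h3, h4, h5⟩ := h j
      refine ⟨W ⊔ W', le_sup_left, (h4.mono h1 le_rfl).sup, fun i hi => ?_⟩
      rcases Finset.mem_insert.1 hi with rfl | hi
      · exact hP _ _ _ le_sup_right h5
      · exact hP _ _ _ le_sup_left (h2 i hi)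
  exact (key Finset.univ).imp fun W _ h j => h j (Finset.mem_univ j)

theorem Reach.exists_neurons {c : ℕ} : ∀ {U W : Submodule ℝ (Ω → ℝ)}, Reach U c W →
    ∃ g : Fin c → Ω → ℝ, (∀ j, ∃ f ∈ U, ∃ b : Fin c → ℝ, (∀ k, j ≤ k → b k = 0) ∧
      g j = relu (f + ∑ k, b k • g k)) ∧
      ∀ h ∈ W, ∃ f ∈ U, ∃ b : Fin c → ℝ, h = f + ∑ k, b k • g k := by
  induction c with
  | zero =>
    intro U W h
    exact ⟨fun j => j.elim0, fun j => j.elim0, fun f hf => ⟨f, h hf, 0, by simp⟩⟩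
  | succ c ih =>
    rintro U W ⟨f, hf, h⟩
    obtain ⟨g, h1, h2⟩ := ih h
    have key : ∀ f₁ ∈ U ⊔ span ℝ {relu f}, ∀ b : Fin c → ℝ, ∃ f₂ ∈ U, ∃ t : ℝ,
        f₁ + ∑ k, b k • g k = f₂ + ∑ k, (Fin.cons t b : Fin (c + 1) → ℝ) k •
          (Fin.cons (relu f) g : Fin (c + 1) → Ω → ℝ) k := by
      intro f₁ hf₁ b
      obtain ⟨f₂, hf₂, f₃, hf₃, rfl⟩ := mem_sup.1 hf₁
      obtain ⟨t, rfl⟩ := mem_span_singleton.1 hf₃
      exact ⟨f₂, hf₂, t, by simp [Fin.sum_univ_succ, add_assoc]⟩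
    refine ⟨Fin.cons (relu f) g, fun j => ?_, fun h hh => ?_⟩
    · refine Fin.cases ?_ (fun j => ?_) j
      · exact ⟨f, hf, 0, fun _ _ => rfl, by simp⟩
      · obtain ⟨f₁, hf₁, b, hb, e⟩ := h1 j
        obtain ⟨f₂, hf₂, t, e'⟩ := key f₁ hf₁ b
        refine ⟨f₂, hf₂, Fin.cons t b, fun k => ?_, by rw [← e', Fin.cons_succ, e]⟩
        refine Fin.cases (fun hk => ?_) (fun k hk => ?_) k
        · exact absurd hk (not_le.2 (Fin.succ_pos j))
        · exact hb k (Fin.succ_le_succ_iff.1 hk)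
    · obtain ⟨f₁, hf₁, b, e⟩ := h2 h hh
      obtain ⟨f₂, hf₂, t, e'⟩ := key f₁ hf₁ b
      exact ⟨f₂, hf₂, Fin.cons t b, e.trans e'⟩

theorem reluComputes_of_comp {n m : ℕ} {f : (Fin n → ℝ) → ℝ}
    (h : Comp m (span ℝ (Set.range fun (i : Fin n) (w : Fin n → ℝ) => w i)) fun W => f ∈ W) :
    ReluComputes m f := by
  obtain ⟨W, -, h1, h2⟩ := h
  obtain ⟨g, h3, h4⟩ := h1.exists_neurons
  refine ⟨g, fun j => ?_, ?_⟩
  · obtain ⟨f₁, hf₁, b, hb, e⟩ := h3 j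
    obtain ⟨a, rfl⟩ := (mem_span_range_iff_exists_fun ℝ).1 hf₁
    refine ⟨a, b, hb, fun w => ?_⟩
    conv_lhs => rw [e]
    simp [relu, Finset.sum_apply]
  · obtain ⟨f₁, hf₁, b, e⟩ := h4 f h2
    obtain ⟨a, rfl⟩ := (mem_span_range_iff_exists_fun ℝ).1 hf₁
    exact ⟨a, b, fun w => by rw [e]; simp [Finset.sum_apply]⟩

end Pool.Agent.Lib.MP_8a52c3_lc.RN
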