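import Mathlib

/-!
Definitions: rectifier networks, Boolean circuits, binary weights.
-/

namespace Pool.Agent.Lib.MP_8a52c3_lc.RN

/-- `ReluComputes m f`: the function `f : ℝ^n → ℝ` is computed exactly by a feedforward ReLU network
(without biases) with `m` neurons `g 0, …, g (m - 1)`: each neuron is `max (·, 0)` of a linear
combination of the inputs and of earlier neurons, and `f` is a linear combination of the inputs and
the neurons. -/
def ReluComputes {n : ℕ} (m : ℕ) (f : (Fin n → ℝ) → ℝ) : Prop :=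
  ∃ g : Fin m → (Fin n → ℝ) → ℝ,
    (∀ j, ∃ (a : Fin n → ℝ) (b : Fin m → ℝ), (∀ k, j ≤ k → b k = 0) ∧
      ∀ w, g j w = max (∑ i, a i * w i + ∑ k, b k * g k w) 0) ∧
    ∃ (a : Fin n → ℝ) (b : Fin m → ℝ), ∀ w, f w = ∑ i, a i * w i + ∑ k, b k * g k w

/-- `CircuitComputes s f`: the multi-output Boolean function `f` is computed by a circuit with `s`
NAND gates `g 0, …, g (s - 1)` of fan-in two: each gate reads two inputs or earlier gates, and each
output is an input or a gate. -/
def CircuitComputes {I O : Type} (s : ℕ) (f : (I → Bool) → O → Bool) : Prop :=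
  ∃ g : Fin s → (I → Bool) → Bool,
    (∀ j, ∃ a b : I ⊕ Fin s, (∀ k, a = Sum.inr k → k < j) ∧ (∀ k, b = Sum.inr k → k < j) ∧
      ∀ x, g j x = !(Sum.elim x (fun k => g k x) a && Sum.elim x (fun k => g k x) b)) ∧
    ∀ o, ∃ a : I ⊕ Fin s, ∀ x, f x o = Sum.elim x (fun k => g k x) a

/-- The integer weight vector in `[-2 ^ b, 2 ^ b) ^ n` encoded by `n (b + 1)` bits: the `i`-th weight
is the number written in binary by the bits `(i, 0), …, (i, b)`, minus `2 ^ b`. -/
def weight {n b : ℕ} (x : Fin n × Fin (b + 1) → Bool) (i : Fin n) : ℤ :=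
  ∑ j : Fin (b + 1), (if x (i, j) then 2 ^ (j : ℕ) else 0) - 2 ^ b

end Pool.Agent.Lib.MP_8a52c3_lc.RN
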