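import Pool.Agent.Lib.MP_8a52c3_lc.RNHnf

/-!
Exploring the affine hull of the nearly optimal solutions with an optimisation oracle.
-/

namespace Pool.Agent.Lib.MP_8a52c3_lc.RN

open Submodule Finset Matrix

/-- Bit size of denominators. -/
def pl (N : ℕ) : ℕ := 2 * (N + 1) ^ 2

/-- Bit size of the base of the generic vector. -/
def py (N : ℕ) : ℕ := pl N + (N + 1) + 1

/-- Bit size of the basic large constant. -/
def pa (N : ℕ) : ℕ := 8 * (N + 1) ^ 3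

/-- The basic large constant. -/
def pA (N : ℕ) : ℤ := 2 ^ pa N

variable {N : ℕ}

theorem natCast_le_two_pow (n : ℕ) : (n : ℤ) ≤ 2 ^ n := by exact_mod_cast Nat.lt_two_pow_self.le

theorem pA_gamma : (N + 1 : ℕ) * ((N + 1 : ℕ) * (2 ^ pl N * 2 ^ (py N * N))) ≤ pA N := by
  have h := natCast_le_two_pow (N + 1)
  calc ((N + 1 : ℕ) : ℤ) * ((N + 1 : ℕ) * (2 ^ pl N * 2 ^ (py N * N)))
      ≤ 2 ^ (N + 1) * (2 ^ (N + 1) * (2 ^ pl N * 2 ^ (py N * N))) := by gcongr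
    _ = 2 ^ ((N + 1) + (N + 1) + pl N + py N * N) := by ring
    _ ≤ pA N := pow_le_pow_right₀ one_le_two (by simp only [pa, py, pl]; nlinarith [sq_nonneg N])

theorem pA_gram : 2 * ((N + 1 : ℕ) : ℤ) ^ 4 * 2 ^ pl N ≤ pA N := by
  have h := natCast_le_two_pow (N + 1)
  calc 2 * ((N + 1 : ℕ) : ℤ) ^ 4 * 2 ^ pl N ≤ 2 * (2 ^ (N + 1)) ^ 4 * 2 ^ pl N := by gcongr
    _ = 2 ^ (1 + 4 * (N + 1) + pl N) := by ring
    _ ≤ pA N := pow_le_pow_right₀ one_le_two (by simp only [pa, pl]; nlinarith [sq_nonneg N])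

theorem pa_solve : pl N + 1 + N * (pl N + 1) ≤ pa N := by
  simp only [pa, pl]; nlinarith [sq_nonneg N]

theorem pA_ge : 16 ≤ pA N :=
  le_trans (by norm_num) (pow_le_pow_right₀ one_le_two
    (show 4 ≤ pa N by simp only [pa]; nlinarith [pow_pos (Nat.succ_pos N) 3]))

theorem generic_ne_zero {Y : ℤ} (t : ℕ → ℤ) (n : ℕ) (ht : ∀ i < n, |t i| < Y)
    (h : ∑ i ∈ range n, Y ^ i * t i = 0) : ∀ i < n, t i = 0 := by
  induction n generalizing t with
  | zero => intro i hi; omega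
  | succ n ih =>
    rw [Finset.sum_range_succ'] at h
    simp only [pow_succ', mul_assoc, ← Finset.mul_sum, pow_zero, one_mul] at h
    have hY : 0 < Y := (abs_nonneg _).trans_lt (ht 0 (by omega))
    have h0 : t 0 = 0 := Int.eq_zero_of_abs_lt_dvd ⟨-∑ i ∈ range n, Y ^ i * t (i + 1), by linarith⟩ (ht 0 (by omega))
    rw [h0, add_zero, mul_eq_zero, or_iff_right hY.ne'] at h
    intro i hi
    rcases i with _ | i
    · exact h0
    · exact ih (fun i => t (i + 1)) (fun i hi => ht _ (by omega)) h i (by omega)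

/-- The generic vector. -/
def gvec (N : ℕ) : Fin (N + 1) → ℤ := fun i => (2 ^ py N) ^ (i : ℕ)

theorem gvec_bound (i : Fin (N + 1)) : |gvec N i| ≤ 2 ^ (py N * N) := by
  rw [gvec, abs_of_nonneg (by positivity), ← pow_mul]
  exact pow_le_pow_right₀ one_le_two (Nat.mul_le_mul_left _ (Nat.le_of_lt_succ i.2))

theorem gvec_dot {t : Fin (N + 1) → ℤ} (ht : ∀ i, |t i| ≤ (N + 1 : ℕ) * 2 ^ pl N)
    (h : gvec N ⬝ᵥ t = 0) : t = 0 := by
  ext i
  have h1 := generic_ne_zero (Y := 2 ^ py N) (fun k => t (ix N k)) (N + 1) (fun k _ => by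
    refine (ht _).trans_lt ?_
    have := natCast_le_two_pow (N + 1)
    have h2 : (0 : ℤ) < 2 ^ pl N := by positivity
    have h3 : (0 : ℤ) < 2 ^ (N + 1) := by positivity
    rw [py, pow_succ, pow_add]
    nlinarith) (by
    rw [Finset.sum_range]
    simpa [ix_coe, gvec, dotProduct] using h) i i.2
  simpa [ix_coe] using h1

/-- Pairs representing projections. -/
abbrev RP (N : ℕ) := Matrix (Fin (N + 1)) (Fin (N + 1)) ℤ × ℤ

variable (O : (Fin (N + 1) → ℤ) → Fin (N + 1) → ℤ) (c₀ : Fin (N + 1) → ℤ)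

/-- One round of exploration. -/
def rnd (η : ℤ) (r : RP N) : RP N :=
  upd (upd r (O (c₀ + η • (r.1 *ᵥ gvec N)) - O c₀)) (O (c₀ + η • -(r.1 *ᵥ gvec N)) - O c₀)

variable {O c₀}

theorem Rep.le_pl {S : Set (Fin (N + 1) → ℤ)} (hS : ∀ b ∈ S, ∀ i, |b i| ≤ 1) {r : RP N}
    (h : Rep (span ℝ (cv '' S)) r) : r.2 ≤ 2 ^ pl N := h.le_pow (by omega) hS

theorem Rep.dir_bound {S : Set (Fin (N + 1) → ℤ)} (hS : ∀ b ∈ S, ∀ i, |b i| ≤ 1) {r : RP N}
    (h : Rep (span ℝ (cv '' S)) r) (i : Fin (N + 1)) :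
    |(r.1 *ᵥ gvec N) i| ≤ (N + 1 : ℕ) * (2 ^ pl N * 2 ^ (py N * N)) := by
  have := abs_idot_le (y := r.1 i) (fun j => (h.abs_le i j).trans (h.le_pl hS)) gvec_bound
  rwa [Fintype.card_fin] at this

theorem Rep.rnd {S : Set (Fin (N + 1) → ℤ)} {r : RP N} (h : Rep (span ℝ (cv '' S)) r) (η : ℤ) :
    Rep (span ℝ (cv '' insert (O (c₀ + η • -(r.1 *ᵥ gvec N)) - O c₀)
      (insert (O (c₀ + η • (r.1 *ᵥ gvec N)) - O c₀) S))) (rnd O c₀ η r) := by
  rw [Set.image_insert_eq, Set.image_insert_eq, span_insert, span_insert, sup_comm,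
    sup_comm (span ℝ {_})]
  exact (h.upd _).upd _

theorem sub_abs_le {x y : Fin (N + 1) → ℤ} (hx : ∀ i, x i = 0 ∨ x i = 1)
    (hy : ∀ i, y i = 0 ∨ y i = 1) (i : Fin (N + 1)) : |(x - y) i| ≤ 1 := by
  rcases hx i with h | h <;> rcases hy i with h' | h' <;> simp [h, h']

theorem explore_weak (hO : ∀ c i, O c i = 0 ∨ O c i = 1) (η : ℤ) (t : ℕ) :
    ∃ S : Set (Fin (N + 1) → ℤ), (∀ b ∈ S, ∀ i, |b i| ≤ 1) ∧
      Rep (span ℝ (cv '' S)) ((rnd O c₀ η)^[t] (1, 1)) := by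
  induction t with
  | zero => exact ⟨∅, by simp, by simpa using rep_bot⟩
  | succ t ih =>
    obtain ⟨S, h1, h2⟩ := ih
    rw [Function.iterate_succ_apply']
    refine ⟨_, ?_, h2.rnd η⟩
    rintro b (rfl | rfl | hb)
    · exact sub_abs_le (hO _) (hO _)
    · exact sub_abs_le (hO _) (hO _)
    · exact h1 b hb

theorem explore_strong {F : Set (Fin (N + 1) → ℤ)} (hF : ∀ x ∈ F, ∀ i, x i = 0 ∨ x i = 1) {η : ℤ}
    (hη : 0 < η) (hO : ∀ e : Fin (N + 1) → ℤ, (∀ i, |e i| ≤ η * pA N) →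
      O (c₀ + e) ∈ F ∧ ∀ y ∈ F, (c₀ + e) ⬝ᵥ y ≤ (c₀ + e) ⬝ᵥ O (c₀ + e)) :
    ∃ S : Set (Fin (N + 1) → ℤ),
      (∀ b ∈ S, ∃ y ∈ F, b = y - O c₀ ∧ c₀ ⬝ᵥ O c₀ - η * pA N ≤ c₀ ⬝ᵥ y) ∧
      Rep (span ℝ (cv '' S)) ((rnd O c₀ η)^[N + 1] (1, 1)) ∧
      ∀ y ∈ F, c₀ ⬝ᵥ O c₀ - η < c₀ ⬝ᵥ y → cv (y - O c₀) ∈ span ℝ (cv '' S) := by
  have hA : 0 < pA N := lt_of_lt_of_le (by norm_num) pA_ge
  obtain ⟨h0, h0'⟩ := hO 0 (fun i => by simp; positivity)
  rw [add_zero] at h0 h0'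
  have key : ∀ t, ∃ S : Set (Fin (N + 1) → ℤ),
      (∀ b ∈ S, ∃ y ∈ F, b = y - O c₀ ∧ c₀ ⬝ᵥ O c₀ - η * pA N ≤ c₀ ⬝ᵥ y) ∧
      Rep (span ℝ (cv '' S)) ((rnd O c₀ η)^[t] (1, 1)) ∧
      (t ≤ Module.finrank ℝ (span ℝ (cv '' S)) ∨
        ∀ y ∈ F, c₀ ⬝ᵥ O c₀ - η < c₀ ⬝ᵥ y → cv (y - O c₀) ∈ span ℝ (cv '' S)) := by
    intro t
    induction t with
    | zero => exact ⟨∅, by simp, by simpa using rep_bot, Or.inl (Nat.zero_le _)⟩
    | succ t ih =>
      obtain ⟨S, h1, h2, h3⟩ := ih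
      rw [Function.iterate_succ_apply']
      set r := (rnd O c₀ η)^[t] (1, 1)
      have hS : ∀ b ∈ S, ∀ i, |b i| ≤ 1 := by
        intro b hb
        obtain ⟨y, hy, rfl, -⟩ := h1 b hb
        exact sub_abs_le (hF y hy) (hF _ h0)
      have hdir : ∀ c : Fin (N + 1) → ℤ,
          (∀ i, |c i| ≤ (N + 1 : ℕ) * (2 ^ pl N * 2 ^ (py N * N))) →
          O (c₀ + η • c) ∈ F ∧ c₀ ⬝ᵥ O c₀ - η * pA N ≤ c₀ ⬝ᵥ O (c₀ + η • c) ∧
          ∀ y ∈ F, c₀ ⬝ᵥ O c₀ - η < c₀ ⬝ᵥ y → 0 < c ⬝ᵥ (y - O c₀) →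
            0 < c ⬝ᵥ (O (c₀ + η • c) - O c₀) := by
        intro c hc
        have hg := pA_gamma (N := N)
        have hn : (1 : ℤ) ≤ (N + 1 : ℕ) := by exact_mod_cast Nat.succ_pos N
        obtain ⟨h4, h5⟩ := hO (η • c) (fun i => by
          rw [Pi.smul_apply, smul_eq_mul, abs_mul, abs_of_pos hη]
          refine mul_le_mul_of_nonneg_left ((hc i).trans (le_trans ?_ hg)) hη.le
          exact le_mul_of_one_le_left (by positivity) hn)
        have h6 := abs_idot_le hc (sub_abs_le (hF _ h4) (hF _ h0))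
        rw [Fintype.card_fin, mul_one] at h6
        have h7 := (abs_le.1 (h6.trans hg)).2
        refine ⟨h4, ?_, fun y hy h8 h9 => ?_⟩
        · have h8 := h5 _ h0
          simp only [add_dotProduct, smul_dotProduct, smul_eq_mul, dotProduct_sub] at h7 h8
          nlinarith
        · have h10 := h5 _ hy
          have h11 := h0' _ h4
          simp only [add_dotProduct, smul_dotProduct, smul_eq_mul, dotProduct_sub] at h9 h10 ⊢
          by_contra h12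
          nlinarith
      obtain ⟨hp1, hp2, hp3⟩ := hdir _ (h2.dir_bound hS)
      obtain ⟨hm1, hm2, hm3⟩ := hdir (-(r.1 *ᵥ gvec N)) (fun i => by
        rw [Pi.neg_apply, abs_neg]; exact h2.dir_bound hS i)
      refine ⟨_, ?_, h2.rnd η, ?_⟩
      · rintro b (rfl | rfl | hb)
        · exact ⟨_, hm1, rfl, hm2⟩
        · exact ⟨_, hp1, rfl, hp2⟩
        · exact h1 b hb
      have hle : span ℝ (cv '' S) ≤ span ℝ (cv '' insert (O (c₀ + η • -(r.1 *ᵥ gvec N)) - O c₀)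
          (insert (O (c₀ + η • (r.1 *ᵥ gvec N)) - O c₀) S)) :=
        span_mono (Set.image_mono ((Set.subset_insert _ _).trans (Set.subset_insert _ _)))
      by_cases h4 : ∀ y ∈ F, c₀ ⬝ᵥ O c₀ - η < c₀ ⬝ᵥ y → cv (y - O c₀) ∈ span ℝ (cv '' S)
      · exact Or.inr fun y hy h => hle (h4 y hy h)
      left
      have h5 := h3.resolve_right h4
      push Not at h4
      obtain ⟨y, hy, h6, h7⟩ := h4
      have hdot : ∀ b, r.1 *ᵥ gvec N ⬝ᵥ b = gvec N ⬝ᵥ r.1 *ᵥ b := fun b => by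
        rw [dotProduct_mulVec, ← mulVec_transpose, h2.symm]
      have hker : ∀ b, cv b ∈ span ℝ (cv '' S) → r.1 *ᵥ gvec N ⬝ᵥ b = 0 := fun b hb => by
        rw [h2.mem_iff, ← cv_mulVec] at hb
        rw [hdot, cv_inj (z := 0) (hb.trans (by ext; simp [cv])), dotProduct_zero]
      have h8 : r.1 *ᵥ gvec N ⬝ᵥ (y - O c₀) ≠ 0 := by
        intro h
        rw [hdot] at h
        apply h7
        rw [h2.mem_iff, ← cv_mulVec, gvec_dot (fun i => ?_) h]
        · ext; simp [cv]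
        · have := abs_idot_le (y := r.1 i) (fun j => (h2.abs_le i j).trans (h2.le_pl hS))
            (sub_abs_le (hF y hy) (hF _ h0))
          rwa [Fintype.card_fin, mul_one] at this
      refine Nat.succ_le_of_lt (h5.trans_lt (Submodule.finrank_lt_finrank_of_lt
        (lt_of_le_of_ne hle fun he => ?_)))
      rcases lt_or_gt_of_ne h8 with h | h
      · have h9 := hm3 y hy h6 (by rw [neg_dotProduct]; linarith)
        rw [neg_dotProduct, hker _ (he ▸ subset_span ⟨_, Set.mem_insert _ _, rfl⟩)] at h9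
        simp at h9
      · have h9 := hp3 y hy h6 h
        rw [hker _ (he ▸ subset_span ⟨_, Set.mem_insert_of_mem _ (Set.mem_insert _ _), rfl⟩)] at h9
        simp at h9
  obtain ⟨S, h1, h2, h3⟩ := key (N + 1)
  refine ⟨S, h1, h2, fun y hy h => ?_⟩
  rcases h3 with h3 | h3
  · have : span ℝ (cv '' S) = ⊤ := Submodule.eq_top_of_finrank_eq (le_antisymm
      (Submodule.finrank_le _) (by simpa using h3))
    rw [this]
    trivial
  · exact h3 y hy h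

variable (O c₀)

/-- The result of exploring at level `j`. -/
def lev (j : ℕ) : RP N := (rnd O c₀ (pA N ^ (3 * (N + 2 - j))))^[N + 1] (1, 1)

/-- Distance between two pairs. -/
def dif (r r' : RP N) : ℤ := ∑ i, ∑ j, |r.1 i j - r'.1 i j| + |r.2 - r'.2|

/-- Selection of a level at which the subspace does not change. -/
def sel : ℕ → RP N
  | 0 => lev O c₀ 0
  | j + 1 => if dif (lev O c₀ j) (lev O c₀ (j + 1)) = 0 then lev O c₀ j else sel j

variable {O c₀}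

theorem dif_eq_zero {r r' : RP N} : dif r r' = 0 ↔ r = r' := by
  constructor
  · intro h
    have h1 : ∀ i, 0 ≤ ∑ j, |r.1 i j - r'.1 i j| := fun i =>
      Finset.sum_nonneg fun j _ => abs_nonneg _
    have h2 := (add_eq_zero_iff_of_nonneg (Finset.sum_nonneg fun i _ => h1 i) (abs_nonneg _)).1 h
    refine Prod.ext ?_ (sub_eq_zero.1 (abs_eq_zero.1 h2.2))
    ext i j
    have h3 := (Finset.sum_eq_zero_iff_of_nonneg fun i _ => h1 i).1 h2.1 i (mem_univ i)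
    exact sub_eq_zero.1 (abs_eq_zero.1
      ((Finset.sum_eq_zero_iff_of_nonneg fun j _ => abs_nonneg _).1 h3 j (mem_univ j)))
  · rintro rfl
    simp [dif]

theorem sel_weak (t : ℕ) : ∃ j, sel O c₀ t = lev O c₀ j := by
  induction t with
  | zero => exact ⟨0, rfl⟩
  | succ t ih =>
    simp only [sel]
    split_ifs
    · exact ⟨t, rfl⟩
    · exact ih

theorem sel_strong (t : ℕ) (h : ∃ j < t, lev O c₀ j = lev O c₀ (j + 1)) :
    ∃ j < t, lev O c₀ j = lev O c₀ (j + 1) ∧ sel O c₀ t = lev O c₀ j := by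
  induction t with
  | zero => obtain ⟨j, hj, -⟩ := h; omega
  | succ t ih =>
    simp only [sel]
    split_ifs with h1
    · exact ⟨t, by omega, dif_eq_zero.1 h1, rfl⟩
    · obtain ⟨j, hj, h2⟩ := h
      obtain ⟨k, hk, h3⟩ := ih ⟨j, lt_of_le_of_ne (by omega) fun e => h1 (dif_eq_zero.2 (e ▸ h2)), h2⟩
      exact ⟨k, by omega, h3⟩

theorem sel_rep (hO : ∀ c i, O c i = 0 ∨ O c i = 1) (t : ℕ) :
    ∃ S : Set (Fin (N + 1) → ℤ), (∀ b ∈ S, ∀ i, |b i| ≤ 1) ∧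
      Rep (span ℝ (cv '' S)) (sel O c₀ t) := by
  obtain ⟨j, hj⟩ := sel_weak (O := O) (c₀ := c₀) t
  rw [hj]
  exact explore_weak hO _ _

theorem sel_spec {F : Set (Fin (N + 1) → ℤ)} (hF : ∀ x ∈ F, ∀ i, x i = 0 ∨ x i = 1)
    (hO : ∀ e : Fin (N + 1) → ℤ, (∀ i, |e i| ≤ pA N ^ (3 * N + 7)) →
      O (c₀ + e) ∈ F ∧ ∀ y ∈ F, (c₀ + e) ⬝ᵥ y ≤ (c₀ + e) ⬝ᵥ O (c₀ + e)) :
    ∃ (η : ℤ) (S : Set (Fin (N + 1) → ℤ)), 1 ≤ η ∧ η ≤ pA N ^ (3 * N + 3) ∧
      (∀ b ∈ S, ∃ y ∈ F, b = y - O c₀ ∧ c₀ ⬝ᵥ O c₀ - η * pA N ≤ c₀ ⬝ᵥ y) ∧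
      Rep (span ℝ (cv '' S)) (sel O c₀ (N + 2)) ∧
      ∀ y ∈ F, c₀ ⬝ᵥ O c₀ - pA N ^ 3 * η < c₀ ⬝ᵥ y → cv (y - O c₀) ∈ span ℝ (cv '' S) := by
  have hA := pA_ge (N := N)
  have hA1 : 1 ≤ pA N := by linarith
  choose S h1 h2 h3 using fun j : ℕ => explore_strong (O := O) (c₀ := c₀) hF
    (η := pA N ^ (3 * (N + 2 - j))) (by positivity) fun e he => hO e fun i =>
      (he i).trans (by rw [← pow_succ]; exact pow_le_pow_right₀ hA1 (by omega))
  have hη : ∀ j < N + 2, pA N ^ (3 * (N + 2 - j)) = pA N ^ 3 * pA N ^ (3 * (N + 2 - (j + 1))) := by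
    intro j hj
    rw [← pow_add]
    congr 1
    omega
  have hle : ∀ j < N + 2, span ℝ (cv '' S (j + 1)) ≤ span ℝ (cv '' S j) := by
    intro j hj
    refine span_le.2 ?_
    rintro _ ⟨b, hb, rfl⟩
    obtain ⟨y, hy, rfl, h4⟩ := h1 _ b hb
    refine h3 j y hy (lt_of_lt_of_le ?_ h4)
    rw [hη j hj]
    have : 0 < pA N ^ (3 * (N + 2 - (j + 1))) := by positivity
    have h5 : pA N < pA N ^ 3 := by
      simpa using pow_lt_pow_right₀ (a := pA N) (by linarith) (show 1 < 3 by norm_num)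
    nlinarith
  have hex : ∃ j < N + 2, lev O c₀ j = lev O c₀ (j + 1) := by
    by_contra hne
    push Not at hne
    have : ∀ j ≤ N + 2, Module.finrank ℝ (span ℝ (cv '' S j)) + j ≤ N + 1 := by
      intro j
      induction j with
      | zero => intro _; simpa using Submodule.finrank_le (span ℝ (cv '' S 0))
      | succ j ih =>
        intro hj
        have h4 := Submodule.finrank_lt_finrank_of_lt (lt_of_le_of_ne (hle j hj) fun he =>
          hne j hj ((h2 j).unique (he ▸ h2 (j + 1))))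
        have := ih (by omega)
        omega
    have := this (N + 2) le_rfl
    omega
  obtain ⟨j, hj, h4, h5⟩ := sel_strong _ hex
  have h6 : span ℝ (cv '' S j) = span ℝ (cv '' S (j + 1)) :=
    (h2 j).eq_of_eq (by have := h2 (j + 1); rwa [← lev, ← h4] at this)
  refine ⟨_, S (j + 1), one_le_pow₀ hA1, pow_le_pow_right₀ hA1 (by omega), h1 _, ?_,
    fun y hy h => ?_⟩
  · rw [h5, h4]
    exact h2 _
  · rw [← h6]
    exact h3 j y hy (by rwa [hη j hj])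

end Pool.Agent.Lib.MP_8a52c3_lc.RN
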