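import Pool.Agent.Lib.MP_8a52c3_lc.RNProj

/-!
Euclidean algorithm, triangular lattice bases and forward substitution.
-/

namespace Pool.Agent.Lib.MP_8a52c3_lc.RN

open Submodule Finset Matrix

/-- Index `k` truncated to `Fin (N + 1)`. -/
def ix (N k : ℕ) : Fin (N + 1) := ⟨min k N, by omega⟩

theorem ix_coe {N : ℕ} (i : Fin (N + 1)) : ix N i = i := by
  ext
  simp only [ix]
  omega

theorem ix_val {N k : ℕ} (h : k < N + 1) : (ix N k : ℕ) = k := by
  simp only [ix]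
  omega

/-- One step of the Euclidean algorithm. -/
def eu (p : ℤ × ℤ) : ℤ × ℤ := if p.2 = 0 then p else (p.2, p.1 % p.2)

theorem eu_box {B : ℤ} {p : ℤ × ℤ} (h : (0 ≤ p.1 ∧ p.1 ≤ B) ∧ 0 ≤ p.2 ∧ p.2 ≤ B) :
    (0 ≤ (eu p).1 ∧ (eu p).1 ≤ B) ∧ 0 ≤ (eu p).2 ∧ (eu p).2 ≤ B := by
  unfold eu
  split_ifs with h0
  · exact h
  · exact ⟨h.2, Int.emod_nonneg _ h0,
      (Int.emod_lt_of_pos _ (lt_of_le_of_ne h.2.1 (Ne.symm h0))).le.trans h.2.2⟩

theorem eu_iter_box {B : ℤ} {p : ℤ × ℤ} (h : (0 ≤ p.1 ∧ p.1 ≤ B) ∧ 0 ≤ p.2 ∧ p.2 ≤ B) (t : ℕ) :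
    (0 ≤ (eu^[t] p).1 ∧ (eu^[t] p).1 ≤ B) ∧ 0 ≤ (eu^[t] p).2 ∧ (eu^[t] p).2 ≤ B := by
  induction t with
  | zero => exact h
  | succ t ih => rw [Function.iterate_succ_apply']; exact eu_box ih

theorem eu_gcd (p : ℤ × ℤ) (t : ℕ) : Int.gcd (eu^[t] p).1 (eu^[t] p).2 = Int.gcd p.1 p.2 := by
  induction t with
  | zero => rfl
  | succ t ih =>
    rw [Function.iterate_succ_apply', ← ih]
    unfold eu
    split_ifs with h0
    · rfl
    · rw [Int.gcd_comm, Int.gcd_emod]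

theorem eu_term (t : ℕ) : ∀ p : ℤ × ℤ, 0 ≤ p.2 → (p.2 = 0 ∨ p.2 < p.1) → p.1 * p.2 < 2 ^ t →
    (eu^[t] p).2 = 0 := by
  induction t with
  | zero =>
    intro p h0 h1 h2
    rcases h1 with h | h
    · exact h
    · simp only [Function.iterate_zero, id]
      nlinarith
  | succ t ih =>
    intro p h0 h1 h2
    rw [Function.iterate_succ_apply]
    by_cases h : p.2 = 0
    · rw [show eu p = p by simp [eu, h]]
      exact ih p h0 (Or.inl h) (by rw [h, mul_zero]; positivity)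
    · have h3 : 0 < p.2 := lt_of_le_of_ne h0 (Ne.symm h)
      have h4 := h1.resolve_left h
      rw [show eu p = (p.2, p.1 % p.2) by simp [eu, h]]
      have h5 := Int.emod_lt_of_pos p.1 h3
      refine ih _ (Int.emod_nonneg _ h) (Or.inr h5) ?_
      have h6 := Int.mul_ediv_add_emod p.1 p.2
      have h7 : 1 ≤ p.1 / p.2 := Int.le_ediv_of_mul_le h3 (by linarith)
      have h8 : 2 * (p.1 % p.2) < p.1 := by nlinarith
      rw [pow_succ] at h2
      nlinarith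

theorem eu_zero {β : ℕ} {p : ℤ × ℤ} (h0 : 0 ≤ p.2) (h1 : p.2 ≤ 2 ^ β) :
    (eu^[2 * β + 1] p).2 = 0 := by
  rw [Function.iterate_succ_apply]
  by_cases h : p.2 = 0
  · rw [show eu p = p by simp [eu, h]]
    exact eu_term _ p h0 (Or.inl h) (by rw [h, mul_zero]; positivity)
  · have h3 : 0 < p.2 := lt_of_le_of_ne h0 (Ne.symm h)
    rw [show eu p = (p.2, p.1 % p.2) by simp [eu, h]]
    have h5 := Int.emod_lt_of_pos p.1 h3
    refine eu_term _ _ (Int.emod_nonneg _ h) (Or.inr h5) ?_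
    rw [two_mul, pow_add]
    nlinarith

theorem eu_eq_gcd {β : ℕ} {a b : ℤ} (ha : |a| ≤ 2 ^ β) (hb : |b| ≤ 2 ^ β) :
    (eu^[2 * β + 1] (|a|, |b|)).1 = gcd a b := by
  have h1 := eu_gcd (|a|, |b|) (2 * β + 1)
  have h2 := eu_iter_box (p := (|a|, |b|)) ⟨⟨abs_nonneg a, ha⟩, abs_nonneg b, hb⟩ (2 * β + 1)
  rw [eu_zero (abs_nonneg b) hb, Int.gcd_zero_right] at h1
  rw [← Int.coe_gcd, ← Int.natAbs_of_nonneg h2.1.1, h1]
  simp only [Int.gcd, Int.natAbs_abs]

variable {N : ℕ}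

/-- Entries between `0` and `d`. -/
def Box (d : ℤ) (v : Fin (N + 1) → ℤ) : Prop := ∀ l, 0 ≤ v l ∧ v l ≤ d

/-- One Euclidean step on a pair of vectors, with reduction modulo `d`. -/
def veu (d : ℤ) (i : Fin (N + 1)) (p : (Fin (N + 1) → ℤ) × (Fin (N + 1) → ℤ)) :
    (Fin (N + 1) → ℤ) × (Fin (N + 1) → ℤ) :=
  if p.2 i = 0 then p else (p.2, fun l => (p.1 l - p.1 i / p.2 i * p.2 l) % d)

variable {d : ℤ} {i : Fin (N + 1)} {p : (Fin (N + 1) → ℤ) × (Fin (N + 1) → ℤ)}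

theorem box_emod (hd : 0 < d) (x : Fin (N + 1) → ℤ) : Box d fun l => x l % d :=
  fun _ => ⟨Int.emod_nonneg _ hd.ne', (Int.emod_lt_of_pos _ hd).le⟩

theorem sub_emod_mem {M : Submodule ℤ (Fin (N + 1) → ℤ)} (x : Fin (N + 1) → ℤ)
    (h : ∀ l, x l % d = x l ∨ Pi.single l d ∈ M) : (x - fun l => x l % d) ∈ M := by
  have : (x - fun l => x l % d) = ∑ l, Pi.single l (x l - x l % d) := by
    rw [Finset.univ_sum_single]
    rfl
  rw [this]
  refine sum_mem fun l _ => ?_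
  rcases h l with h | h
  · rw [h, sub_self, Pi.single_zero]
    exact zero_mem _
  · convert M.smul_mem (x l / d) h using 1
    rw [← Pi.single_smul, smul_eq_mul, mul_comm, Int.emod_def]
    congr 1
    ring

theorem veu_pivot (h2 : Box d p.2) (h0 : p.2 i ≠ 0) :
    (p.1 i - p.1 i / p.2 i * p.2 i) % d = p.1 i - p.1 i / p.2 i * p.2 i := by
  have h3 : p.1 i - p.1 i / p.2 i * p.2 i = p.1 i % p.2 i := by rw [Int.emod_def]; ring
  rw [h3]
  exact Int.emod_eq_of_lt (Int.emod_nonneg _ h0)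
    ((Int.emod_lt_of_pos _ (lt_of_le_of_ne (h2 i).1 (Ne.symm h0))).trans_le (h2 i).2)

/-- The invariant of a pair of vectors. -/
def PairOk (d : ℤ) (i : Fin (N + 1)) (p : (Fin (N + 1) → ℤ) × (Fin (N + 1) → ℤ)) : Prop :=
  Box d p.1 ∧ Box d p.2 ∧ ∀ l < i, p.1 l = 0 ∧ p.2 l = 0

theorem PairOk.veu (hd : 0 < d) (h : PairOk d i p) : PairOk d i (veu d i p) := by
  unfold RN.veu
  split_ifs with h0
  · exact h
  · exact ⟨h.2.1, box_emod hd _, fun l hl => ⟨(h.2.2 l hl).2, by simp [h.2.2 l hl]⟩⟩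

theorem PairOk.iter (hd : 0 < d) (h : PairOk d i p) (t : ℕ) : PairOk d i ((RN.veu d i)^[t] p) := by
  induction t with
  | zero => exact h
  | succ t ih => rw [Function.iterate_succ_apply']; exact ih.veu hd

theorem PairOk.pivot (hd : 0 < d) (h : PairOk d i p) (t : ℕ) :
    (((RN.veu d i)^[t] p).1 i, ((RN.veu d i)^[t] p).2 i) = eu^[t] (p.1 i, p.2 i) := by
  induction t with
  | zero => rfl
  | succ t ih =>
    rw [Function.iterate_succ_apply', Function.iterate_succ_apply', ← ih]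
    have h1 := h.iter hd t
    generalize (RN.veu d i)^[t] p = q at h1
    unfold RN.veu eu
    split_ifs with h0
    · rfl
    · simp only [veu_pivot h1.2.1 h0, Int.emod_def, Prod.mk.injEq, true_and]
      ring

theorem veu_fwd {M : Submodule ℤ (Fin (N + 1) → ℤ)} (hM : ∀ l, Pi.single l d ∈ M)
    (h : p.1 ∈ M ∧ p.2 ∈ M) (t : ℕ) : ((veu d i)^[t] p).1 ∈ M ∧ ((veu d i)^[t] p).2 ∈ M := by
  induction t with
  | zero => exact h
  | succ t ih =>
    rw [Function.iterate_succ_apply']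
    generalize (RN.veu d i)^[t] p = q at ih
    unfold veu
    split_ifs with h0
    · exact ih
    · refine ⟨ih.2, ?_⟩
      have h1 := sub_emod_mem (d := d) (q.1 - (q.1 i / q.2 i) • q.2) fun l => Or.inr (hM l)
      have h2 := sub_mem (sub_mem ih.1 (M.smul_mem (q.1 i / q.2 i) ih.2)) h1
      rwa [sub_sub_cancel] at h2

theorem veu_bwd {M : Submodule ℤ (Fin (N + 1) → ℤ)} (hd : 0 < d)
    (hM : ∀ l, i < l → Pi.single l d ∈ M) (hp : PairOk d i p) (t : ℕ)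
    (h : ((veu d i)^[t] p).1 ∈ M ∧ ((veu d i)^[t] p).2 ∈ M) : p.1 ∈ M ∧ p.2 ∈ M := by
  induction t with
  | zero => exact h
  | succ t ih =>
    apply ih
    rw [Function.iterate_succ_apply'] at h
    have h1 := hp.iter hd t
    generalize (RN.veu d i)^[t] p = q at h h1
    unfold veu at h
    split_ifs at h with h0
    · exact h
    · refine ⟨?_, h.1⟩
      have h2 := sub_emod_mem (d := d) (M := M) (q.1 - (q.1 i / q.2 i) • q.2) fun l => by
        rcases lt_trichotomy l i with hl | rfl | hl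
        · left; simp [h1.2.2 l hl]
        · left; exact veu_pivot h1.2.1 h0
        · right; exact hM l hl
      have h3 := add_mem (add_mem h2 h.2) (M.smul_mem (q.1 i / q.2 i) h.1)
      convert h3 using 1
      ext l
      simp

/-- The running pivot vector. -/
def run (T : ℕ) (d : ℤ) (i : Fin (N + 1)) (C : Fin (N + 1) → Fin (N + 1) → ℤ) :
    ℕ → Fin (N + 1) → ℤ
  | 0 => Pi.single i d
  | j + 1 => ((veu d i)^[T] (run T d i C j, C (ix N j))).1

/-- The remaining vectors. -/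
def pool (T : ℕ) (d : ℤ) (Q : Matrix (Fin (N + 1)) (Fin (N + 1)) ℤ) :
    ℕ → Fin (N + 1) → Fin (N + 1) → ℤ
  | 0 => fun j l => Q l j % d
  | i + 1 => fun j =>
    ((veu d (ix N i))^[T] (run T d (ix N i) (pool T d Q i) j, pool T d Q i j)).2

/-- The triangular basis (columns). -/
def hnf (T : ℕ) (d : ℤ) (Q : Matrix (Fin (N + 1)) (Fin (N + 1)) ℤ) :
    Matrix (Fin (N + 1)) (Fin (N + 1)) ℤ :=
  Matrix.of fun l i => run T d i (pool T d Q i) (N + 1) l

variable {T ℓ : ℕ} {Q : Matrix (Fin (N + 1)) (Fin (N + 1)) ℤ}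

theorem run_ok (hd : 0 < d) {C : Fin (N + 1) → Fin (N + 1) → ℤ}
    (hC : ∀ j, Box d (C j) ∧ ∀ l < i, C j l = 0) (j : ℕ) (k : Fin (N + 1)) :
    PairOk d i (run T d i C j, C k) := by
  induction j generalizing k with
  | zero =>
    refine ⟨fun l => ?_, (hC k).1, fun l hl => ⟨by simp [run, hl.ne], (hC k).2 l hl⟩⟩
    simp only [run, Pi.single_apply]
    split_ifs <;> simp [hd.le]
  | succ j ih =>
    have := (ih (ix N j)).iter hd T
    exact ⟨this.1, (hC k).1, fun l hl => ⟨(this.2.2 l hl).1, (hC k).2 l hl⟩⟩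

theorem pool_ok (hd : 0 < d) (hℓ : d ≤ 2 ^ ℓ) (i : ℕ) (hi : i ≤ N + 1) (j : Fin (N + 1)) :
    Box d (pool (2 * ℓ + 1) d Q i j) ∧
      ∀ l : Fin (N + 1), (l : ℕ) < i → pool (2 * ℓ + 1) d Q i j l = 0 := by
  induction i generalizing j with
  | zero => exact ⟨box_emod hd _, fun l hl => by omega⟩
  | succ i ih =>
    have h1 := run_ok (T := 2 * ℓ + 1) (i := ix N i) hd (fun j => ⟨(ih (by omega) j).1,
      fun l hl => (ih (by omega) j).2 l (by rwa [Fin.lt_def, ix_val hi] at hl)⟩) j j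
    have h2 := h1.iter hd (2 * ℓ + 1)
    refine ⟨h2.2.1, fun l hl => ?_⟩
    rcases Nat.lt_succ_iff_lt_or_eq.1 hl with h | h
    · exact (h2.2.2 l (by rwa [Fin.lt_def, ix_val hi])).2
    · obtain rfl : l = ix N i := by ext; rw [ix_val hi, h]
      have h3 := congrArg Prod.snd (h1.pivot hd (2 * ℓ + 1))
      rw [eu_zero (h1.2.1 _).1 ((h1.2.1 _).2.trans hℓ)] at h3
      exact h3

theorem pool_ok' (hd : 0 < d) (hℓ : d ≤ 2 ^ ℓ) (i : Fin (N + 1)) (j : Fin (N + 1)) :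
    Box d (pool (2 * ℓ + 1) d Q i j) ∧ ∀ l < i, pool (2 * ℓ + 1) d Q i j l = 0 :=
  pool_ok hd hℓ i i.2.le j

theorem hnf_box (hd : 0 < d) (hℓ : d ≤ 2 ^ ℓ) (l i : Fin (N + 1)) :
    0 ≤ hnf (2 * ℓ + 1) d Q l i ∧ hnf (2 * ℓ + 1) d Q l i ≤ d :=
  (run_ok hd (pool_ok' hd hℓ i) (N + 1) i).1 l

theorem hnf_tri (hd : 0 < d) (hℓ : d ≤ 2 ^ ℓ) {l i : Fin (N + 1)} (h : l < i) :
    hnf (2 * ℓ + 1) d Q l i = 0 :=
  ((run_ok hd (pool_ok' hd hℓ i) (N + 1) i).2.2 l h).1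

theorem run_fwd {M : Submodule ℤ (Fin (N + 1) → ℤ)} (hM : ∀ l, Pi.single l d ∈ M)
    {C : Fin (N + 1) → Fin (N + 1) → ℤ} (hC : ∀ j, C j ∈ M) (j : ℕ) : run T d i C j ∈ M := by
  induction j with
  | zero => exact hM i
  | succ j ih => exact (veu_fwd (p := (_, _)) hM ⟨ih, hC _⟩ T).1

theorem hnf_mem {M : Submodule ℤ (Fin (N + 1) → ℤ)} (hM : ∀ l, Pi.single l d ∈ M)
    (hQ : ∀ j, (fun l => Q l j) ∈ M) (i : Fin (N + 1)) : (fun l => hnf T d Q l i) ∈ M := by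
  have : ∀ i j, pool T d Q i j ∈ M := by
    intro i
    induction i with
    | zero =>
      intro j
      have h2 := sub_mem (hQ j) (sub_emod_mem (d := d) (fun l => Q l j) fun l => Or.inr (hM l))
      rwa [sub_sub_cancel] at h2
    | succ i ih => exact fun j => (veu_fwd (p := (_, _)) hM ⟨run_fwd hM ih j, ih j⟩ T).2
  exact run_fwd hM (this i) _

/-- The lattice spanned by the columns from the `i`-th on. -/
def tail (H : Matrix (Fin (N + 1)) (Fin (N + 1)) ℤ) (i : ℕ) : Submodule ℤ (Fin (N + 1) → ℤ) :=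
  span ℤ {v | ∃ k : Fin (N + 1), i ≤ k ∧ v = fun l => H l k}

theorem tail_anti (H : Matrix (Fin (N + 1)) (Fin (N + 1)) ℤ) (i : ℕ) : tail H (i + 1) ≤ tail H i :=
  span_mono fun _ ⟨k, hk, h⟩ => ⟨k, by omega, h⟩

theorem pool_mem_tail (hd : 0 < d) (hℓ : d ≤ 2 ^ ℓ) (t : ℕ) (ht : t ≤ N + 1) :
    (∀ j, pool (2 * ℓ + 1) d Q (N + 1 - t) j ∈ tail (hnf (2 * ℓ + 1) d Q) (N + 1 - t)) ∧
      ∀ l : Fin (N + 1), N + 1 - t ≤ l →
        Pi.single l d ∈ tail (hnf (2 * ℓ + 1) d Q) (N + 1 - t) := by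
  induction t with
  | zero =>
    refine ⟨fun j => ?_, fun l hl => by omega⟩
    convert Submodule.zero_mem _
    ext l
    exact (pool_ok hd hℓ (N + 1) le_rfl j).2 l l.2
  | succ t ih =>
    obtain ⟨h1, h2⟩ := ih (by omega)
    obtain ⟨i, hi⟩ : ∃ i : Fin (N + 1), N + 1 - (t + 1) = i := ⟨⟨N + 1 - (t + 1), by omega⟩, rfl⟩
    rw [show N + 1 - t = i + 1 by omega] at h1 h2
    rw [hi]
    have hM : ∀ l, i < l → Pi.single l d ∈ tail (hnf (2 * ℓ + 1) d Q) i := fun l hl =>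
      tail_anti _ _ (h2 l hl)
    have key : ∀ s ≤ N + 1, run (2 * ℓ + 1) d i (pool (2 * ℓ + 1) d Q i) (N + 1 - s) ∈
        tail (hnf (2 * ℓ + 1) d Q) i ∧ ∀ j : Fin (N + 1), N + 1 - s ≤ j →
        pool (2 * ℓ + 1) d Q i j ∈ tail (hnf (2 * ℓ + 1) d Q) i := by
      intro s
      induction s with
      | zero => exact fun _ => ⟨subset_span ⟨i, le_rfl, rfl⟩, fun j hj => by omega⟩
      | succ s ih' =>
        intro hs
        obtain ⟨h3, h4⟩ := ih' (by omega)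
        obtain ⟨j, hj⟩ : ∃ j : Fin (N + 1), N + 1 - (s + 1) = j :=
          ⟨⟨N + 1 - (s + 1), by omega⟩, rfl⟩
        rw [show N + 1 - s = j + 1 by omega] at h3 h4
        rw [hj]
        have h5 := tail_anti _ _ (h1 j)
        simp only [pool, run, ix_coe] at h3 h5
        have h6 := veu_bwd hd hM (run_ok hd (pool_ok' hd hℓ i) j j) _ ⟨h3, h5⟩
        refine ⟨h6.1, fun k hk => ?_⟩
        rcases Nat.eq_or_lt_of_le hk with h | h
        · obtain rfl : j = k := Fin.ext h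
          exact h6.2
        · exact h4 k h
    obtain ⟨h3, h4⟩ := key (N + 1) le_rfl
    rw [Nat.sub_self] at h3 h4
    refine ⟨fun j => h4 j (Nat.zero_le _), fun l hl => ?_⟩
    rcases Nat.eq_or_lt_of_le hl with h | h
    · obtain rfl : i = l := Fin.ext h
      exact h3
    · exact hM l h

theorem mem_tail_split {H : Matrix (Fin (N + 1)) (Fin (N + 1)) ℤ} (hH : ∀ l i, l < i → H l i = 0)
    {v : Fin (N + 1) → ℤ} (hv : v ∈ tail H i) :
    ∃ a : ℤ, v i = H i i * a ∧ (fun l => v l - H l i * a) ∈ tail H (i + 1) := by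
  have h1 : tail H i ≤ span ℤ {fun l => H l i} ⊔ tail H (i + 1) := by
    refine span_le.2 ?_
    rintro _ ⟨k, hk, rfl⟩
    rcases Nat.eq_or_lt_of_le hk with h | h
    · obtain rfl : i = k := Fin.ext h
      exact mem_sup_left (mem_span_singleton_self _)
    · exact mem_sup_right (subset_span ⟨k, h, rfl⟩)
  obtain ⟨v₁, hv₁, v₂, hv₂, rfl⟩ := mem_sup.1 (h1 hv)
  obtain ⟨a, rfl⟩ := mem_span_singleton.1 hv₁
  have h2 : tail H (i + 1) ≤ LinearMap.ker
      (LinearMap.proj (R := ℤ) (φ := fun _ : Fin (N + 1) => ℤ) i) := by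
    refine span_le.2 ?_
    rintro _ ⟨k, hk, rfl⟩
    exact hH i k hk
  have h3 : v₂ i = 0 := h2 hv₂
  refine ⟨a, by simp [h3, mul_comm], ?_⟩
  convert hv₂ using 1
  ext l
  simp [mul_comm]

theorem hnf_pos (hd : 0 < d) (hℓ : d ≤ 2 ^ ℓ) (i : Fin (N + 1)) : 0 < hnf (2 * ℓ + 1) d Q i i := by
  have h1 := (pool_mem_tail (Q := Q) hd hℓ (N + 1 - i) (by omega)).2 i (by omega)
  rw [show N + 1 - (N + 1 - i) = i by omega] at h1
  obtain ⟨a, h2, -⟩ := mem_tail_split (fun _ _ => hnf_tri hd hℓ) h1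
  refine lt_of_le_of_ne (hnf_box hd hℓ i i).1 fun h => ?_
  rw [← h] at h2
  simp at h2
  omega

theorem col_mem_tail (hd : 0 < d) (hℓ : d ≤ 2 ^ ℓ) (j : Fin (N + 1)) :
    (fun l => Q l j) ∈ tail (hnf (2 * ℓ + 1) d Q) 0 := by
  obtain ⟨h1, h2⟩ := pool_mem_tail (Q := Q) hd hℓ (N + 1) le_rfl
  rw [Nat.sub_self] at h1 h2
  have h3 := add_mem (sub_emod_mem (d := d) (fun l => Q l j)
    fun l => Or.inr (h2 l (Nat.zero_le _))) (h1 j)
  convert h3 using 1
  ext l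
  simp [pool]

/-- Residuals of forward substitution. -/
def res (H Q : Matrix (Fin (N + 1)) (Fin (N + 1)) ℤ) : ℕ → Matrix (Fin (N + 1)) (Fin (N + 1)) ℤ
  | 0 => Q
  | i + 1 => Matrix.of fun l j =>
    res H Q i l j - H l (ix N i) * (res H Q i (ix N i) j / H (ix N i) (ix N i))

/-- The solution of `H * S = Q`. -/
def solve (H Q : Matrix (Fin (N + 1)) (Fin (N + 1)) ℤ) : Matrix (Fin (N + 1)) (Fin (N + 1)) ℤ :=
  Matrix.of fun i j => res H Q i i j / H i i

variable {H : Matrix (Fin (N + 1)) (Fin (N + 1)) ℤ}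

theorem res_mem (hH : ∀ l i, l < i → H l i = 0) (hp : ∀ i, 0 < H i i)
    (hQ : ∀ j, (fun l => Q l j) ∈ tail H 0) (i : ℕ) (hi : i ≤ N + 1) (j : Fin (N + 1)) :
    (fun l => res H Q i l j) ∈ tail H i := by
  induction i with
  | zero => exact hQ j
  | succ i ih =>
    have h1 := ih (by omega)
    rw [← ix_val hi] at h1
    obtain ⟨a, h2, h3⟩ := mem_tail_split hH h1
    rw [ix_val hi] at h2 h3
    simp only [res, of_apply]
    rwa [h2, Int.mul_ediv_cancel_left _ (hp _).ne']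

theorem res_exact (hH : ∀ l i, l < i → H l i = 0) (hp : ∀ i, 0 < H i i)
    (hQ : ∀ j, (fun l => Q l j) ∈ tail H 0) (i j : Fin (N + 1)) :
    H i i * solve H Q i j = res H Q i i j := by
  obtain ⟨a, h2, -⟩ := mem_tail_split hH (res_mem hH hp hQ i i.2.le j)
  simp only [solve, of_apply]
  rw [h2, Int.mul_ediv_cancel_left _ (hp _).ne']

theorem mul_solve (hH : ∀ l i, l < i → H l i = 0) (hp : ∀ i, 0 < H i i)
    (hQ : ∀ j, (fun l => Q l j) ∈ tail H 0) : H * solve H Q = Q := by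
  have h1 : ∀ i ≤ N + 1, ∀ l j, Q l j =
      res H Q i l j + ∑ k ∈ range i, H l (ix N k) * solve H Q (ix N k) j := by
    intro i
    induction i with
    | zero => simp [res]
    | succ i ih =>
      intro hi l j
      rw [ih (by omega), sum_range_succ]
      simp only [res, solve, of_apply, ix_val hi]
      ring
  ext l j
  have h2 := res_mem hH hp hQ (N + 1) le_rfl j
  have h3 : tail H (N + 1) = ⊥ := by
    rw [tail, span_eq_bot]
    rintro _ ⟨k, hk, -⟩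
    omega
  rw [h3, mem_bot] at h2
  rw [h1 (N + 1) le_rfl l j, congrFun h2 l, Finset.sum_range]
  simp [Matrix.mul_apply, ix_coe]

theorem solve_row_mem (hH : ∀ l i, l < i → H l i = 0) (hp : ∀ i, 0 < H i i)
    (hQ : ∀ j, (fun l => Q l j) ∈ tail H 0) {V : Submodule ℝ (Fin (N + 1) → ℝ)}
    (hV : ∀ l, cv (Q l) ∈ V) (i : Fin (N + 1)) : cv (solve H Q i) ∈ V := by
  have h0 : ∀ i : Fin (N + 1), cv (res H Q i i) ∈ V → cv (solve H Q i) ∈ V := by
    intro i h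
    convert V.smul_mem ((H i i : ℝ)⁻¹) h using 1
    ext j
    have : (H i i : ℝ) ≠ 0 := by exact_mod_cast (hp i).ne'
    simp only [cv, Pi.smul_apply, smul_eq_mul, ← res_exact hH hp hQ i j]
    push_cast
    field_simp
  have h1 : ∀ i ≤ N + 1, ∀ l, cv (res H Q i l) ∈ V := by
    intro i
    induction i with
    | zero => exact fun _ => hV
    | succ i ih =>
      intro hi l
      have h2 := h0 (ix N i) (by rw [ix_val hi]; exact ih (by omega) _)
      convert sub_mem (ih (by omega) l) (V.smul_mem (H l (ix N i) : ℝ) h2) using 1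
      ext j
      simp [cv, res, solve, ix_val hi]
  exact h0 i (h1 i i.2.le i)

theorem res_bound {β : ℕ} (hH : ∀ l i, |H l i| ≤ 2 ^ ℓ) (hQ : ∀ l j, |Q l j| ≤ 2 ^ β) (i : ℕ)
    (l j : Fin (N + 1)) : |res H Q i l j| ≤ 2 ^ (β + i * (ℓ + 1)) := by
  induction i generalizing l with
  | zero => simpa [res] using hQ l j
  | succ i ih =>
    simp only [res, of_apply]
    refine (abs_sub _ _).trans ?_
    rw [abs_mul]
    have h1 := (Int.abs_ediv_le_abs (res H Q i (ix N i) j) (H (ix N i) (ix N i))).trans (ih _)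
    have h2 := mul_le_mul (hH l (ix N i)) h1 (abs_nonneg _) (by positivity)
    have h3 : (1 : ℤ) ≤ 2 ^ ℓ := one_le_pow₀ one_le_two
    have h4 : (2 : ℤ) ^ (β + (i + 1) * (ℓ + 1)) = 2 * (2 ^ ℓ * 2 ^ (β + i * (ℓ + 1))) := by ring
    have h5 : (0 : ℤ) < 2 ^ (β + i * (ℓ + 1)) := by positivity
    rw [h4]
    nlinarith [ih l]

theorem solve_bound {β : ℕ} (hH : ∀ l i, |H l i| ≤ 2 ^ ℓ) (hQ : ∀ l j, |Q l j| ≤ 2 ^ β)
    (i j : Fin (N + 1)) : |solve H Q i j| ≤ 2 ^ (β + N * (ℓ + 1)) :=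
  ((Int.abs_ediv_le_abs _ _).trans (res_bound hH hQ i i j)).trans
    (pow_le_pow_right₀ one_le_two (by gcongr; exact Nat.le_of_lt_succ i.2))

end Pool.Agent.Lib.MP_8a52c3_lc.RN
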