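import Pool.Agent.Lib.MP_8a52c3_lc.RNBase

/-!
Arithmetic gadgets for rectifier networks with a constant input.
-/

namespace Pool.Agent.Lib.MP_8a52c3_lc.RN

open Submodule Finset

variable {Ω : Type} {U : Submodule ℝ (Ω → ℝ)}

theorem const_mem (h1 : (fun _ => 1 : Ω → ℝ) ∈ U) (t : ℝ) : (fun _ => t : Ω → ℝ) ∈ U := by
  convert smul_mem U t h1 using 1
  ext w
  simp

theorem mul_mem {f : Ω → ℝ} (hf : f ∈ U) (t : ℝ) : (fun w => t * f w) ∈ U := smul_mem U t hf

theorem add_mem' {f g : Ω → ℝ} (hf : f ∈ U) (hg : g ∈ U) : (fun w => f w + g w) ∈ U :=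
  add_mem hf hg

theorem sub_mem' {f g : Ω → ℝ} (hf : f ∈ U) (hg : g ∈ U) : (fun w => f w - g w) ∈ U :=
  sub_mem hf hg

theorem sum_mem' {J : Type} (S : Finset J) {f : J → Ω → ℝ} (hf : ∀ j ∈ S, f j ∈ U) :
    (fun w => ∑ j ∈ S, f j w) ∈ U := by
  convert sum_mem hf using 1
  ext w
  simp

theorem comp_abs {f : Ω → ℝ} (hf : f ∈ U) : Comp 1 U fun W => (fun w => |f w|) ∈ W :=
  (Comp.relu hf).imp fun W h1 h2 => by
    convert sub_mem' (mul_mem h2 2) (h1 hf) using 2 with w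
    simp only [relu]
    rcases le_total 0 (f w) with h | h
    · rw [abs_of_nonneg h, max_eq_left h]; ring
    · rw [abs_of_nonpos h, max_eq_right h]; ring

theorem comp_max {f g : Ω → ℝ} (hf : f ∈ U) (hg : g ∈ U) :
    Comp 1 U fun W => (fun w => max (f w) (g w)) ∈ W :=
  (Comp.relu (sub_mem' hf hg)).imp fun W h1 h2 => by
    convert add_mem' h2 (h1 hg) using 2 with w
    simp only [relu]
    rcases le_total (g w) (f w) with h | h
    · rw [max_eq_left h, max_eq_left (by linarith)]; ring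
    · rw [max_eq_right h, max_eq_right (by linarith)]; ring

theorem comp_step (h1 : (fun _ => 1 : Ω → ℝ) ∈ U) {f : Ω → ℝ} (hf : f ∈ U) {μ : ℝ} (hμ : 0 < μ)
    (hm : ∀ w, μ ≤ |f w|) : Comp 2 U fun W => (fun w => if 0 ≤ f w then (1 : ℝ) else 0) ∈ W :=
  (Comp.relu (mul_mem hf μ⁻¹)).bind fun W hW h2 =>
    (Comp.relu (hW (sub_mem' (mul_mem hf μ⁻¹) h1))).imp fun W' hW' h3 => by
      convert sub_mem' (hW' h2) h3 using 2 with w
      simp only [relu]
      have h4 := hm w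
      split_ifs with h
      · rw [abs_of_nonneg h] at h4
        have h5 : 1 ≤ μ⁻¹ * f w := by rw [← div_eq_inv_mul, le_div_iff₀ hμ]; linarith
        rw [max_eq_left (by linarith), max_eq_left (by linarith)]
        ring
      · have h5 : μ⁻¹ * f w ≤ 0 := mul_nonpos_of_nonneg_of_nonpos (by positivity) (not_le.1 h).le
        rw [max_eq_right h5, max_eq_right (by linarith)]
        ring

theorem comp_bitmul (h1 : (fun _ => 1 : Ω → ℝ) ∈ U) {b y : Ω → ℝ} (hb : b ∈ U) (hy : y ∈ U)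
    (hb' : ∀ w, b w = 0 ∨ b w = 1) {K : ℝ} (hK : ∀ w, |y w| ≤ K) :
    Comp 2 U fun W => (fun w => b w * y w) ∈ W :=
  (Comp.relu (sub_mem' (add_mem' hy (mul_mem hb K)) (const_mem h1 K))).bind fun W hW h2 =>
    (Comp.relu (hW (sub_mem' (sub_mem' (mul_mem hb K) hy) (const_mem h1 K)))).imp
      fun W' hW' h3 => by
      convert sub_mem' (hW' h2) h3 using 2 with w
      simp only [relu]
      have h4 := abs_le.1 (hK w)
      rcases hb' w with h | h <;> rw [h]
      · rw [max_eq_right (by linarith), max_eq_right (by linarith)]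
        ring
      · rcases le_total 0 (y w) with h' | h'
        · rw [max_eq_left (by linarith), max_eq_right (by linarith)]
          ring
        · rw [max_eq_right (by linarith), max_eq_left (by linarith)]
          ring

theorem bit_cases (k j : ℕ) : ((k / 2 ^ j % 2 : ℕ) : ℝ) = 0 ∨ ((k / 2 ^ j % 2 : ℕ) : ℝ) = 1 := by
  rcases Nat.mod_two_eq_zero_or_one (k / 2 ^ j) with h | h <;> simp [h]

theorem comp_digits (h1 : (fun _ => 1 : Ω → ℝ) ∈ U) {r δ : Ω → ℝ} (hr : r ∈ U) (hδ : δ ∈ U)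
    (hδ0 : ∀ w, 0 < δ w) {K : ℝ} (hK : ∀ w, |δ w| ≤ K) (k : Ω → ℕ) (J : ℕ) (hk : ∀ w, k w < 2 ^ J)
    {μ : ℝ} (hμ : 0 < μ) (hlo : ∀ w, k w * δ w + μ ≤ r w) (hhi : ∀ w, r w + μ ≤ (k w + 1) * δ w) :
    Comp (J * 4) U fun W => ∀ j < J, (fun w => ((k w / 2 ^ j % 2 : ℕ) : ℝ)) ∈ W := by
  have key := Comp.loop (U := U) (c := 4) (fun t W =>
    (fun w => ((k w / 2 ^ (J - t) : ℕ) : ℝ) * δ w) ∈ W ∧
      ∀ j < J, J - t ≤ j → (fun w => ((k w / 2 ^ j % 2 : ℕ) : ℝ)) ∈ W) J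
    ⟨by
      convert zero_mem U using 1
      ext w
      simp [Nat.div_eq_of_lt (hk w)], fun j h1 h2 => by omega⟩ (by
      intro t ht W hW ⟨h2, h3⟩
      obtain ⟨j, hj⟩ : ∃ j, J - t = j + 1 := ⟨J - t - 1, by omega⟩
      have hj' : J - (t + 1) = j := by omega
      rw [hj] at h2 h3
      rw [hj']
      have hq : ∀ w, k w / 2 ^ j = 2 * (k w / 2 ^ (j + 1)) + k w / 2 ^ j % 2 := fun w => by
        rw [pow_succ, ← Nat.div_div_eq_div_mul]
        omega
      have hcmp : ∀ w, (k w / 2 ^ j % 2 = 1 → (2 * (k w / 2 ^ (j + 1)) + 1) * 2 ^ j ≤ k w) ∧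
          (k w / 2 ^ j % 2 = 0 → k w + 1 ≤ (2 * (k w / 2 ^ (j + 1)) + 1) * 2 ^ j) := fun w => by
        have h4 := Nat.div_mul_le_self (k w) (2 ^ j)
        have h5 := Nat.lt_div_mul_add (a := k w) (Nat.two_pow_pos j)
        constructor
        · intro h
          have h6 := hq w
          rw [h] at h6
          rw [← h6]
          exact h4
        · intro h
          have h6 := hq w
          rw [h, add_zero] at h6
          rw [← h6, add_mul, one_mul]
          omega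
      let f : Ω → ℝ := fun w => r w - (2 ^ (j + 1) * (((k w / 2 ^ (j + 1) : ℕ) : ℝ) * δ w) +
        2 ^ j * δ w)
      have hf : ∀ w, f w = r w - (((2 * (k w / 2 ^ (j + 1)) + 1) * 2 ^ j : ℕ) : ℝ) * δ w := by
        intro w
        simp only [f]
        push_cast
        ring
      have hf1 : ∀ w, k w / 2 ^ j % 2 = 1 → μ ≤ f w := fun w h => by
        have h4 : (((2 * (k w / 2 ^ (j + 1)) + 1) * 2 ^ j : ℕ) : ℝ) ≤ k w := by
          exact_mod_cast (hcmp w).1 h
        rw [hf]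
        nlinarith [hlo w, hδ0 w]
      have hf0 : ∀ w, k w / 2 ^ j % 2 = 0 → f w ≤ -μ := fun w h => by
        have h4 : (k w + 1 : ℝ) ≤ (((2 * (k w / 2 ^ (j + 1)) + 1) * 2 ^ j : ℕ) : ℝ) := by
          exact_mod_cast (hcmp w).2 h
        rw [hf]
        nlinarith [hhi w, hδ0 w]
      have hfW : f ∈ W := sub_mem' (hW hr) (add_mem' (mul_mem h2 _) (mul_mem (hW hδ) _))
      refine Comp.bind (c := 2) (c' := 2) (comp_step (hW h1) hfW hμ fun w => ?_) fun W₁ hW₁ h4 => ?_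
      · rcases Nat.mod_two_eq_zero_or_one (k w / 2 ^ j) with h | h
        · exact le_trans (by linarith [hf0 w h]) (neg_le_abs _)
        · exact (hf1 w h).trans (le_abs_self _)
      have h5 : (fun w => ((k w / 2 ^ j % 2 : ℕ) : ℝ)) ∈ W₁ := by
        convert h4 using 2 with w
        rcases Nat.mod_two_eq_zero_or_one (k w / 2 ^ j) with h | h
        · rw [if_neg (by linarith [hf0 w h]), h]; simp
        · rw [if_pos (by linarith [hf1 w h]), h]; simp
      refine (comp_bitmul (hW₁ (hW h1)) h5 (hW₁ (hW hδ)) (fun w => bit_cases _ _) hK).imp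
        fun W₂ hW₂ h6 => ⟨?_, fun i hi hji => ?_⟩
      · convert add_mem' (mul_mem (hW₂ (hW₁ h2)) 2) h6 using 2 with w
        conv_lhs => rw [hq w]
        push_cast
        ring
      · rcases Nat.eq_or_lt_of_le hji with rfl | h
        · exact hW₂ h5
        · exact hW₂ (hW₁ (h3 i hi h)))
  exact key.imp fun W _ h j hj => h.2 j hj (by omega)

theorem sum_bits (k J : ℕ) (hk : k < 2 ^ J) : ∑ j ∈ range J, 2 ^ j * (k / 2 ^ j % 2) = k := by
  have : ∀ J, ∑ j ∈ range J, 2 ^ j * (k / 2 ^ j % 2) + 2 ^ J * (k / 2 ^ J) = k := by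
    intro J
    induction J with
    | zero => simp
    | succ J ih =>
      have hq : k / 2 ^ J = 2 * (k / 2 ^ (J + 1)) + k / 2 ^ J % 2 := by
        rw [pow_succ, ← Nat.div_div_eq_div_mul]
        omega
      rw [sum_range_succ]
      conv_rhs => rw [← ih, hq]
      have : (2 * (k / 2 ^ (J + 1)) + k / 2 ^ J % 2) % 2 = k / 2 ^ J % 2 := by omega
      ring
  have h := this J
  rwa [Nat.div_eq_of_lt hk, mul_zero, add_zero] at h

theorem mem_of_bits {k : Ω → ℕ} {J : ℕ} (hk : ∀ w, k w < 2 ^ J)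
    (h : ∀ j < J, (fun w => ((k w / 2 ^ j % 2 : ℕ) : ℝ)) ∈ U) : (fun w => (k w : ℝ)) ∈ U := by
  convert sum_mem' (range J) fun j hj => mul_mem (h j (mem_range.1 hj)) (2 ^ j) using 2 with w
  exact_mod_cast (sum_bits (k w) J (hk w)).symm

/-- An available real function bounded by `2 ^ β`. -/
def RVal (U : Submodule ℝ (Ω → ℝ)) (β : ℕ) (f : Ω → ℝ) : Prop := f ∈ U ∧ ∀ w, |f w| ≤ 2 ^ β

/-- An available integer function bounded by `2 ^ β`. -/
def Val (U : Submodule ℝ (Ω → ℝ)) (β : ℕ) (a : Ω → ℤ) : Prop :=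
  (fun w => (a w : ℝ)) ∈ U ∧ ∀ w, |a w| ≤ 2 ^ β

variable {W : Submodule ℝ (Ω → ℝ)} {β β' : ℕ} {a b d : Ω → ℤ} {y : Ω → ℝ}

theorem Val.rval (h : Val U β a) : RVal U β fun w => (a w : ℝ) :=
  ⟨h.1, fun w => by beta_reduce; exact_mod_cast h.2 w⟩

theorem RVal.mono (h : RVal U β y) (hW : U ≤ W) : RVal W β y := ⟨hW h.1, h.2⟩

theorem Val.mono (h : Val U β a) (hW : U ≤ W) : Val W β a := ⟨hW h.1, h.2⟩

theorem RVal.le (h : RVal U β y) (hβ : β ≤ β') : RVal U β' y :=
  ⟨h.1, fun w => (h.2 w).trans (pow_le_pow_right₀ one_le_two hβ)⟩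

theorem Val.le (h : Val U β a) (hβ : β ≤ β') : Val U β' a :=
  ⟨h.1, fun w => (h.2 w).trans (pow_le_pow_right₀ one_le_two hβ)⟩

theorem Val.add (ha : Val U β a) (hb : Val U β b) : Val U (β + 1) fun w => a w + b w :=
  ⟨by simpa using add_mem' ha.1 hb.1, fun w => (abs_add_le _ _).trans (by
    rw [pow_succ]; linarith [ha.2 w, hb.2 w])⟩

theorem Val.sub (ha : Val U β a) (hb : Val U β b) : Val U (β + 1) fun w => a w - b w :=
  ⟨by simpa using sub_mem' ha.1 hb.1, fun w => (abs_sub _ _).trans (by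
    rw [pow_succ]; linarith [ha.2 w, hb.2 w])⟩

theorem Val.const (h1 : (fun _ => 1 : Ω → ℝ) ∈ U) {t : ℤ} (ht : |t| ≤ 2 ^ β) :
    Val U β fun _ => t := ⟨const_mem h1 _, fun _ => ht⟩

theorem Val.cmul (ha : Val U β a) {t : ℤ} (ht : |t| ≤ 2 ^ β') :
    Val U (β' + β) fun w => t * a w :=
  ⟨by simpa using mul_mem ha.1 t, fun w => by
    rw [abs_mul, pow_add]
    exact mul_le_mul ht (ha.2 w) (abs_nonneg _) (by positivity)⟩

theorem Val.sum {n : ℕ} {a : Fin n → Ω → ℤ} (ha : ∀ i, Val U β (a i)) :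
    Val U (β + n) fun w => ∑ i, a i w :=
  ⟨by simpa using sum_mem' univ fun i _ => (ha i).1, fun w => by
    refine (Finset.abs_sum_le_sum_abs _ _).trans ?_
    refine (Finset.sum_le_card_nsmul _ _ _ fun i _ => (ha i).2 w).trans ?_
    simp only [card_univ, Fintype.card_fin, nsmul_eq_mul, pow_add]
    have : (n : ℤ) ≤ 2 ^ n := by exact_mod_cast Nat.lt_two_pow_self.le
    nlinarith [pow_pos (zero_lt_two' ℤ) β]⟩

theorem RVal.sum {n : ℕ} {a : Fin n → Ω → ℝ} (ha : ∀ i, RVal U β (a i)) :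
    RVal U (β + n) fun w => ∑ i, a i w :=
  ⟨sum_mem' univ fun i _ => (ha i).1, fun w => by
    refine (Finset.abs_sum_le_sum_abs _ _).trans ?_
    refine (Finset.sum_le_card_nsmul _ _ _ fun i _ => (ha i).2 w).trans ?_
    simp only [card_univ, Fintype.card_fin, nsmul_eq_mul, pow_add]
    have : (n : ℝ) ≤ 2 ^ n := by exact_mod_cast Nat.lt_two_pow_self.le
    nlinarith [pow_pos (zero_lt_two' ℝ) β]⟩

theorem Val.congr (ha : Val U β a) (h : ∀ w, b w = a w) : Val U β b := by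
  rwa [show b = a from funext h]

theorem Val.bound (ha : Val U β a) (h : ∀ w, |a w| ≤ 2 ^ β') : Val U β' a := ⟨ha.1, h⟩

theorem comp_int (h1 : (fun _ => 1 : Ω → ℝ) ∈ U) {r δ : Ω → ℝ} (hr : r ∈ U) (hδ : δ ∈ U)
    (hδ0 : ∀ w, 0 < δ w) {K : ℝ} (hK : ∀ w, |δ w| ≤ K) (ha : ∀ w, |a w| ≤ 2 ^ β)
    {μ : ℝ} (hμ : 0 < μ) (hlo : ∀ w, a w * δ w + μ ≤ r w) (hhi : ∀ w, r w + μ ≤ (a w + 1) * δ w) :
    Comp ((β + 2) * 4) U fun W => Val W β a ∧
      ∀ j < β + 2, (fun w => (((a w + 2 ^ β).toNat / 2 ^ j % 2 : ℕ) : ℝ)) ∈ W := by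
  have h0 : ∀ w, 0 ≤ a w + 2 ^ β := fun w => by linarith [(abs_le.1 (ha w)).1]
  have hc : ∀ w, (((a w + 2 ^ β).toNat : ℕ) : ℝ) = a w + 2 ^ β := fun w => by
    have : (((a w + 2 ^ β).toNat : ℕ) : ℤ) = a w + 2 ^ β := Int.toNat_of_nonneg (h0 w)
    exact_mod_cast this
  have hk : ∀ w, (a w + 2 ^ β).toNat < 2 ^ (β + 2) := fun w => by
    have h2 := (abs_le.1 (ha w)).2
    have h3 : (0 : ℤ) < 2 ^ β := by positivity
    zify
    rw [Int.toNat_of_nonneg (h0 w), pow_add]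
    linarith
  refine (comp_digits h1 (add_mem' hr (mul_mem hδ (2 ^ β))) hδ hδ0 hK _ _ hk hμ
    (fun w => ?_) fun w => ?_).imp fun W hW h => ⟨⟨?_, ha⟩, h⟩
  · rw [hc]; linarith [hlo w]
  · rw [hc]; linarith [hhi w]
  · convert sub_mem' (mem_of_bits hk h) (const_mem (hW h1) (2 ^ β)) using 2 with w
    rw [hc]; ring

theorem comp_bits (h1 : (fun _ => 1 : Ω → ℝ) ∈ U) (ha : Val U β a) :
    Comp ((β + 2) * 4) U fun W =>
      ∀ j < β + 2, (fun w => (((a w + 2 ^ β).toNat / 2 ^ j % 2 : ℕ) : ℝ)) ∈ W :=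
  (comp_int h1 (add_mem' ha.1 (const_mem h1 (1 / 2))) h1 (fun _ => one_pos) (K := 1) (by simp)
    ha.2 (μ := 1 / 2) (by norm_num) (fun w => by simp) fun w => by linarith).imp
    fun _ _ h => h.2

theorem comp_floor (h1 : (fun _ => 1 : Ω → ℝ) ∈ U) (hy : RVal U β y) {μ : ℝ} (hμ : 0 < μ)
    (hm : ∀ w (k : ℤ), μ ≤ |y w - k|) :
    Comp ((β + 2) * 4) U fun W => Val W β fun w => ⌊y w⌋ := by
  refine (comp_int h1 hy.1 h1 (fun _ => one_pos) (K := 1) (by simp) (fun w => ?_) hμ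
    (fun w => ?_) fun w => ?_).imp fun _ _ h => h.1
  · have h := abs_le.1 (hy.2 w)
    rw [abs_le]
    constructor
    · rw [Int.le_floor]; exact_mod_cast h.1
    · have := (Int.floor_le (y w)).trans h.2
      exact_mod_cast this
  · have := hm w ⌊y w⌋
    rw [abs_of_nonneg (by linarith [Int.floor_le (y w)])] at this
    linarith
  · have := hm w (⌊y w⌋ + 1)
    push_cast at this
    rw [abs_of_nonpos (by linarith [Int.lt_floor_add_one (y w)])] at this
    linarith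

theorem comp_div (h1 : (fun _ => 1 : Ω → ℝ) ∈ U) (ha : Val U β a) (hd : Val U β' d)
    (hd0 : ∀ w, 0 < d w) : Comp ((β + 2) * 4) U fun W => Val W β fun w => a w / d w := by
  refine (comp_int h1 (add_mem' ha.1 (const_mem h1 (1 / 2))) hd.1
    (fun w => by exact_mod_cast hd0 w) hd.rval.2 (fun w => ?_) (μ := 1 / 2) (by norm_num)
    (fun w => ?_) fun w => ?_).imp fun _ _ h => h.1
  · exact (Int.abs_ediv_le_abs _ _).trans (ha.2 w)
  · have : (((a w / d w) * d w : ℤ) : ℝ) ≤ a w := by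
      exact_mod_cast Int.ediv_mul_le _ (hd0 w).ne'
    push_cast at this
    linarith
  · have : ((a w + 1 : ℤ) : ℝ) ≤ ((a w / d w + 1) * d w : ℤ) := by
      exact_mod_cast Int.lt_ediv_add_one_mul_self _ (hd0 w)
    push_cast at this
    linarith

theorem comp_mulR (h1 : (fun _ => 1 : Ω → ℝ) ∈ U) (ha : Val U β a) (hy : RVal U β' y) :
    Comp ((β + 2) * 6) U fun W => RVal W (β + β') fun w => a w * y w := by
  have h0 : ∀ w, 0 ≤ a w + 2 ^ β := fun w => by linarith [(abs_le.1 (ha.2 w)).1]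
  have hk : ∀ w, (a w + 2 ^ β).toNat < 2 ^ (β + 2) := fun w => by
    have h2 := (abs_le.1 (ha.2 w)).2
    have h3 : (0 : ℤ) < 2 ^ β := by positivity
    zify
    rw [Int.toNat_of_nonneg (h0 w), pow_add]
    linarith
  refine Comp.le (Comp.bind (comp_bits h1 ha) fun W hW h => (Comp.family (J := Fin (β + 2))
    (fun j W => (fun w => (((a w + 2 ^ β).toNat / 2 ^ (j : ℕ) % 2 : ℕ) : ℝ) * y w) ∈ W)
    (fun _ _ _ h h' => h h') fun j => comp_bitmul (hW h1) (h j j.2) (hW hy.1)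
      (fun w => bit_cases _ _) hy.2).imp fun W' hW' h' => ⟨?_, fun w => ?_⟩) ?_
  · convert sub_mem' (sum_mem' univ fun j _ => mul_mem (h' j) (2 ^ (j : ℕ)))
      (mul_mem (hW' (hW hy.1)) (2 ^ β)) using 2 with w
    have h2 := sum_bits _ _ (hk w)
    rw [Finset.sum_range] at h2
    have h3 : (((a w + 2 ^ β).toNat : ℕ) : ℝ) = a w + 2 ^ β := by
      have : (((a w + 2 ^ β).toNat : ℕ) : ℤ) = a w + 2 ^ β := Int.toNat_of_nonneg (h0 w)
      exact_mod_cast this
    rw [← h2] at h3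
    push_cast at h3 ⊢
    simp only [← mul_assoc, ← Finset.sum_mul]
    rw [h3]
    ring
  · rw [abs_mul, pow_add]
    exact mul_le_mul (ha.rval.2 w) (hy.2 w) (abs_nonneg _) (by positivity)
  · rw [Fintype.card_fin]
    omega

theorem comp_mul (h1 : (fun _ => 1 : Ω → ℝ) ∈ U) (ha : Val U β a) (hb : Val U β' b) :
    Comp ((β + 2) * 6) U fun W => Val W (β + β') fun w => a w * b w :=
  (comp_mulR h1 ha hb.rval).imp fun W _ h =>
    ⟨by simpa using h.1, fun w => by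
      have := h.2 w
      beta_reduce at this ⊢
      exact_mod_cast this⟩

theorem comp_iabs (ha : Val U β a) : Comp 1 U fun W => Val W β fun w => |a w| :=
  (comp_abs ha.1).imp fun W _ h => ⟨by simpa using h, fun w => by simpa using ha.2 w⟩

theorem comp_max_one (h1 : (fun _ => 1 : Ω → ℝ) ∈ U) (ha : Val U β a) :
    Comp 1 U fun W => Val W β fun w => max (a w) 1 :=
  (comp_max ha.1 h1).imp fun W _ h => ⟨by simpa using h, fun w => by
    beta_reduce
    rcases le_total (a w) 1 with h | h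
    · rw [max_eq_right h, abs_one]; exact one_le_pow₀ one_le_two
    · rw [max_eq_left h]; exact ha.2 w⟩

theorem comp_ite (h1 : (fun _ => 1 : Ω → ℝ) ∈ U) {β'' : ℕ} (hd : Val U β'' d) (ha : Val U β a)
    (hb : Val U β b) : Comp 4 U fun W => Val W β fun w => if d w = 0 then a w else b w := by
  refine Comp.bind (c := 1) (c' := 3) (comp_abs hd.1) fun W hW h => ?_
  refine Comp.bind (c := 1) (c' := 2) (Comp.relu (sub_mem' (hW h1) h)) fun W₁ hW₁ h' => ?_
  have hz : ∀ w, relu (fun w => 1 - |(d w : ℝ)|) w = if d w = 0 then 1 else 0 := by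
    intro w
    simp only [relu]
    split_ifs with h0
    · simp [h0]
    · have : (1 : ℝ) ≤ |(d w : ℝ)| := by exact_mod_cast Int.one_le_abs h0
      exact max_eq_right (by linarith)
  refine (comp_bitmul (hW₁ (hW h1)) h' (hW₁ (hW (ha.sub hb).1)) (fun w => ?_)
    (ha.sub hb).rval.2).imp fun W₂ hW₂ h'' => ⟨?_, fun w => ?_⟩
  · rw [hz]; split_ifs <;> simp
  · convert add_mem' (hW₂ (hW₁ (hW hb.1))) h'' using 2 with w
    rw [hz]
    beta_reduce
    split_ifs <;> simp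
  · beta_reduce
    split_ifs
    · exact ha.2 w
    · exact hb.2 w

end Pool.Agent.Lib.MP_8a52c3_lc.RN
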