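import Pool.Agent.Lib.MP_8a52c3_lc.RNNet

/-!
Rectifier networks simulate Boolean circuits for zero-one optimisation problems.
-/

namespace Pool.Agent.Lib.MP_8a52c3_lc.RN

open Submodule Finset Matrix

variable {π : Par} {N : ℕ} {O : (Fin (N + 1) → ℤ) → Fin (N + 1) → ℤ} {F : Set (Fin (N + 1) → ℤ)}

/-- The real vectors that can occur in a run. -/
def Can (F : Set (Fin (N + 1) → ℤ)) (w : Fin (N + 1) → ℝ) (m : ℝ) (ω : Fin (N + 1) → ℝ) : Prop :=
  ω = w ∨ ∃ ε r, Rep (nearSpan F w m ε) r ∧ ω = cm (Sm r) *ᵥ w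

theorem unit_bound {ω : Fin (N + 1) → ℝ} (hω : 0 < ‖ω‖) (i : Fin (N + 1)) :
    |(‖ω‖⁻¹ • ω) i| ≤ 1 := by
  rw [Pi.smul_apply, smul_eq_mul, abs_mul, abs_inv, abs_norm, inv_mul_le_iff₀ hω, mul_one]
  exact norm_le_pi_norm ω i

theorem run_net (hL : 2 * pb N + 10 ≤ π.L) (hs : OSim π O) (hO : ∀ c i, O c i = 0 ∨ O c i = 1)
    (hF : ∀ x ∈ F, ∀ i, x i = 0 ∨ x i = 1)
    (hO' : ∀ c : Fin (N + 1) → ℤ, (∀ i, |c i| ≤ (2 * pZ N) ^ (N + 1)) →
      O c ∈ F ∧ ∀ y ∈ F, c ⬝ᵥ y ≤ c ⬝ᵥ O c)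
    {θ τ : ℝ} (h0 : 0 ≤ θ) (h1 : θ ≤ 1) (hτ : 0 < τ) (k : ℕ) (hk : k ≤ N + 1) :
    ∃ out : (Cd N → ℝ) → ℝ, Comp (k * (π.L ^ 42 * π.S)) (coords (Cd N)) (fun W => out ∈ W) ∧
      ∀ w m V σ ω, (∀ y ∈ F, w ⬝ᵥ cv y ≤ m) → (∃ y ∈ F, w ⬝ᵥ cv y = m) →
        Inv F w m (N + 1 - k) V σ ω → Module.finrank ℝ V ≤ k →
        out (bs ‖ω‖ ω σ) ≤ m - w ⬝ᵥ cv σ.x ∧ (Can F w m ω →
          (∀ ω', Can F w m ω' → ∀ i (z : ℤ), τ ≤ |pK N * (‖ω'‖⁻¹ • ω') i + θ - z|) →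
          out (bs ‖ω‖ ω σ) = m - w ⬝ᵥ cv σ.x) := by
  induction k with
  | zero =>
    refine ⟨0, Comp.pure (zero_mem _), fun w m V σ ω _ ⟨y, hy, hy'⟩ h hV => ?_⟩
    have h2 := h.opt_mem hy hy'
    rw [Submodule.finrank_eq_zero.1 (Nat.le_zero.1 hV), mem_bot, cv_sub, sub_eq_zero] at h2
    simp [← hy', h2]
  | succ k ih =>
    obtain ⟨out, hout, ih⟩ := ih (by omega)
    obtain ⟨W₁, hW₁, hR₁, δ, nx, hδ, hnx, h2⟩ := stage_net hL hs hO h0 h1 (half_pos hτ)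
    obtain ⟨W₂, hW₂, hR₂, g, hg, h3⟩ := pen_net (π := π) hL θ τ
    have hc : Comp ((k + 1) * (π.L ^ 42 * π.S)) (coords (Cd N)) fun W =>
        g ∈ W ∧ (fun y => δ y + out (nx y)) ∈ W := by
      refine Comp.le (Comp.bind (c := π.L ^ 42 * π.S) (c' := k * (π.L ^ 42 * π.S))
        (CP.bind (k := 41) (Q := fun W => g ∈ W ∧ W₁ ≤ W) (P := fun W => g ∈ W)
          ⟨W₂, hW₂, hR₂, hg⟩ (by norm_num) fun W hW h =>
          ⟨W ⊔ W₁, le_sup_left, (hR₁.mono hW le_rfl).sup, mem_sup_left h, le_sup_right⟩)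
        fun W _ h => (hout.pull nx fun k => h.2 (hnx k)).imp fun W' hW' h' =>
          ⟨hW' h.1, add_mem' (hW' (h.2 hδ)) h'⟩) (le_of_eq (by ring))
    obtain ⟨C, hC0, hC⟩ := (hc.imp fun _ _ h => h.2).bounded
    have hc' : Comp ((k + 1) * (π.L ^ 42 * π.S)) (coords (Cd N)) fun W =>
        (fun y => δ y + out (nx y) - 2 * C * 2 ^ pb N / τ * g y) ∈ W :=
      hc.imp fun _ _ h => sub_mem' h.2 (mul_mem h.1 _)
    refine ⟨_, hc', fun w m V σ ω hm hm' h hV => ?_⟩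
    have hσ : σ.Bd N := h.bd.mono (by omega)
    have hy := norm_bs (hσ.mono (Nat.le_succ N)) ω
    rcases (norm_nonneg ω).eq_or_lt with hω | hω
    · obtain ⟨C', -, hC'⟩ := hc'.bounded
      have h4 := hC' (bs ‖ω‖ ω σ)
      rw [← hω, mul_zero] at hy
      rw [← hω, le_antisymm hy (norm_nonneg _), mul_zero, abs_nonpos_iff] at h4
      obtain ⟨y, hy, hy'⟩ := hm'
      have h5 := h.eval (h.opt_mem hy hy')
      rw [norm_eq_zero.1 hω.symm, dotProduct_zero, cv_sub, dotProduct_sub, hy'] at h5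
      rw [← hω, h4, h5]
      simp
    have hv := unit_bound hω
    have hp0 : 0 ≤ ∑ i, pen (pa N * (3 * N + 10) + 1) τ (pK N * (‖ω‖⁻¹ • ω) i + θ) :=
      Finset.sum_nonneg fun i _ => pen_nonneg _ _ _
    rw [h3 ω σ hω]
    by_cases hmar : ∀ i (z : ℤ), τ / 2 ≤ |pK N * (‖ω‖⁻¹ • ω) i + θ - z|
    · obtain ⟨h4, h5⟩ := h2 ω σ hω hσ hmar
      obtain ⟨V', hV', h6, h7, h8⟩ := h.step hF hO hO' hm hm' (by omega) hω (rd_bound h0 h1 hv)
        (fun i => by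
          have h6 := Int.floor_le (pK N * (‖ω‖⁻¹ • ω) i + θ)
          have h7 := Int.lt_floor_add_one (pK N * (‖ω‖⁻¹ • ω) i + θ)
          have h8 : pK N * ω i = pK N * (‖ω‖⁻¹ • ω) i * ‖ω‖ := by
            rw [Pi.smul_apply, smul_eq_mul]; field_simp
          rw [h8, ← sub_mul, abs_mul, abs_norm]
          refine mul_le_of_le_one_left hω.le (abs_le.2 ⟨?_, ?_⟩) <;> simp only [rd] <;> linarith)
      rw [show N + 1 - (k + 1) + 1 = N + 1 - k by omega] at h6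
      obtain ⟨h9, h10⟩ := ih w m V' _ _ hm hm' h6 (by
        have := Submodule.finrank_lt_finrank_of_lt hV'
        omega)
      rw [h4, h5]
      refine ⟨?_, fun hcan hgood => ?_⟩
      · have : 0 ≤ 2 * C * 2 ^ pb N / τ * (‖ω‖ *
          ∑ i, pen (pa N * (3 * N + 10) + 1) τ (pK N * (‖ω‖⁻¹ • ω) i + θ)) := by positivity
        linarith
      · rw [h10 (Or.inr h8) hgood, Finset.sum_eq_zero fun i _ =>
          pen_eq_zero (arg_bound h0 h1 (hv i)) (hgood ω hcan i)]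
        linarith
    · push Not at hmar
      obtain ⟨i, z, hz⟩ := hmar
      refine ⟨?_, fun hcan hgood => absurd (hgood ω hcan i z) (by linarith)⟩
      have h4 : τ / 2 ≤ ∑ i, pen (pa N * (3 * N + 10) + 1) τ (pK N * (‖ω‖⁻¹ • ω) i + θ) :=
        (le_pen (arg_bound h0 h1 (hv i)) hz).trans (Finset.single_le_sum
          (f := fun i => pen (pa N * (3 * N + 10) + 1) τ (pK N * (‖ω‖⁻¹ • ω) i + θ))
          (fun i _ => pen_nonneg _ _ _) (mem_univ i))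
      have h5 := (le_abs_self _).trans ((hC _).trans (mul_le_mul_of_nonneg_left hy hC0))
      have h6 : C * (2 ^ pb N * ‖ω‖) = 2 * C * 2 ^ pb N / τ * (‖ω‖ * (τ / 2)) := by field_simp
      have h7 : 2 * C * 2 ^ pb N / τ * (‖ω‖ * (τ / 2)) ≤ 2 * C * 2 ^ pb N / τ * (‖ω‖ *
          ∑ i, pen (pa N * (3 * N + 10) + 1) τ (pK N * (‖ω‖⁻¹ • ω) i + θ)) := by gcongr
      linarith [hm _ h.mem]

theorem nearSpan_mono (w : Fin (N + 1) → ℝ) (m : ℝ) {ε ε' : ℝ} (h : ε ≤ ε') :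
    nearSpan F w m ε ≤ nearSpan F w m ε' :=
  span_mono fun _ ⟨y, hy, z, hz, h1, h2, h3⟩ => ⟨y, hy, z, hz, by linarith, by linarith, h3⟩

theorem exists_shift (w : Fin (N + 1) → ℝ) (m : ℝ) {T : ℕ} (hT : (N + 3) * (N + 1) < T) :
    ∃ r < T, ∀ ω, Can F w m ω → ∀ i (z : ℤ),
      1 / (2 * T : ℝ) ≤ |pK N * (‖ω‖⁻¹ • ω) i + (r : ℝ) / T - z| := by
  by_contra hcon
  push Not at hcon
  have hcon' : ∀ r : Fin T, ∃ (ω : Fin (N + 1) → ℝ) (o : Option (Fin (N + 2))) (i : Fin (N + 1))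
      (z : ℤ), (o = none ∧ ω = w ∨ ∃ ε r, Rep (nearSpan F w m ε) r ∧ ω = cm (Sm r) *ᵥ w ∧
        ∃ j, o = some j ∧ (j : ℕ) = Module.finrank ℝ (nearSpan F w m ε)) ∧
      |pK N * (‖ω‖⁻¹ • ω) i + ((r : ℕ) : ℝ) / T - z| < 1 / (2 * T : ℝ) := by
    intro r
    obtain ⟨ω, h | ⟨ε, r', h1, h2⟩, i, z, h3⟩ := hcon r r.2
    · exact ⟨ω, none, i, z, Or.inl ⟨rfl, h⟩, h3⟩
    · exact ⟨ω, some ⟨Module.finrank ℝ (nearSpan F w m ε), Nat.lt_succ_of_le
        (by simpa using (nearSpan F w m ε).finrank_le)⟩, i, z,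
        Or.inr ⟨ε, r', h1, h2, _, rfl, rfl⟩, h3⟩
  choose ω o i z h1 h2 using hcon'
  obtain ⟨r, r', hr, h3⟩ := Fintype.exists_ne_map_eq_of_card_lt (fun r => (o r, i r))
    (by simpa using hT)
  obtain ⟨h4, h5⟩ := Prod.mk.inj h3
  have h6 : ω r = ω r' := by
    rcases h1 r with ⟨a1, a2⟩ | ⟨ε, p, a1, a2, j, a3, a4⟩ <;>
      rcases h1 r' with ⟨b1, b2⟩ | ⟨ε', p', b1, b2, j', b3, b4⟩
    · rw [a2, b2]
    · rw [a1, b3] at h4; cases h4
    · rw [a3, b1] at h4; cases h4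
    · rw [a3, b3, Option.some.injEq] at h4
      have h7 : nearSpan F w m ε = nearSpan F w m ε' := by
        rcases le_total ε ε' with h | h
        · exact Submodule.eq_of_le_of_finrank_eq (nearSpan_mono w m h) (by rw [← a4, ← b4, h4])
        · exact (Submodule.eq_of_le_of_finrank_eq (nearSpan_mono w m h)
            (by rw [← a4, ← b4, h4])).symm
      rw [a2, b2, a1.unique (h7 ▸ b1)]
  have h7 := abs_lt.1 (h2 r)
  have h8 := abs_lt.1 (h2 r')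
  rw [← h6, ← h5] at h8
  have hT0 : (0 : ℝ) < T := by exact_mod_cast (by omega : 0 < T)
  have h9 : |((r : ℕ) : ℝ) - (r' : ℕ) - T * (z r - z r')| < 1 := by
    have e : ((r : ℕ) : ℝ) - (r' : ℕ) - T * (z r - z r') =
        T * (((r : ℕ) : ℝ) / T - z r - (((r' : ℕ) : ℝ) / T - z r')) := by field_simp; ring
    have e' : (1 : ℝ) = T * (1 / (2 * T) + 1 / (2 * T)) := by field_simp; ring
    rw [e, abs_mul, abs_of_pos hT0]
    conv_rhs => rw [e']
    refine mul_lt_mul_of_pos_left (abs_lt.2 ⟨?_, ?_⟩) hT0 <;> linarith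
  have h10 : |((r : ℕ) : ℤ) - (r' : ℕ) - T * (z r - z r')| < 1 := by exact_mod_cast h9
  have h11 : ((r : ℕ) : ℤ) - (r' : ℕ) = 0 := Int.eq_zero_of_abs_lt_dvd (m := T)
    ⟨z r - z r', by linarith [Int.abs_lt_one_iff.1 h10]⟩ (by
      have := r.2
      have := r'.2
      rw [abs_lt]
      constructor <;> omega)
  exact hr (Fin.ext (by omega))

theorem max_net (hL : 2 * pb N + 10 ≤ π.L) (hs : OSim π O) (hO : ∀ c i, O c i = 0 ∨ O c i = 1)
    (hF : ∀ x ∈ F, ∀ i, x i = 0 ∨ x i = 1)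
    (hO' : ∀ c : Fin (N + 1) → ℤ, (∀ i, |c i| ≤ (2 * pZ N) ^ (N + 1)) →
      O c ∈ F ∧ ∀ y ∈ F, c ⬝ᵥ y ≤ c ⬝ᵥ O c)
    (h : (Fin (N + 1) → ℝ) → ℝ) (hm : ∀ w, ∀ y ∈ F, w ⬝ᵥ cv y ≤ h w)
    (hm' : ∀ w, ∃ y ∈ F, w ⬝ᵥ cv y = h w) : CP π 46 (coords (Fin (N + 1))) fun W => h ∈ W := by
  obtain ⟨n1, n2, n3, n4, n5, n6⟩ := nums N
  have hN : N + 1 ≤ π.L := by omega
  obtain ⟨x, hx, -⟩ := hm' 0
  let σ : St N := ⟨0, x, 1, 1⟩
  have hA := pA_ge (N := N)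
  have hinv : ∀ w, Inv F w (h w) (N + 1 - (N + 1)) ⊤ σ w := fun w =>
    ⟨⟨one_pos, one_le_pow₀ one_le_two, fun i j => by
      simp only [σ, Matrix.one_apply]
      split_ifs <;> simp [one_le_pow₀], hF x hx, fun i => by simp [σ]⟩, hx,
      fun y _ => by simp [σ], fun v _ => by simp [σ, dotProduct_comm],
      fun i => ⟨Pi.single i 1, trivial, fun j => by
        rw [Pi.single_apply]; split_ifs <;> simp <;> linarith, by
        have : cv (Pi.single i 1 : Fin (N + 1) → ℤ) = Pi.single i 1 := by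
          ext j; simp [cv, Pi.single_apply]
        simp [this]⟩, Or.inl rfl⟩
  set T := (N + 3) * (N + 1) + 1 with hT
  have hT0 : (0 : ℝ) < T := by positivity
  have hTL : T ≤ π.L := by
    have : (N + 3) * (N + 1) ≤ 2 * pl N := by simp only [pl]; nlinarith
    omega
  refine (CP.of (k := 2) (comp_norm (f := fun w => w) coord_mem)
    (by rw [sq]; exact Nat.mul_le_mul hN (by omega))).bind (by norm_num) fun W₀ hW₀ h2 => ?_
  have hlin : (fun w => w ⬝ᵥ cv x) ∈ W₀ := by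
    simp only [dotProduct_comm _ (cv x)]
    exact hW₀ (sum_mem' _ fun i _ => mul_mem (coord_mem i) _)
  refine (CP.loop (k := 44) (fun t W => ∃ g ∈ W, ∀ w, g w ≤ h w ∧ ((∃ r < t, ∀ ω,
    Can F w (h w) ω → ∀ i (z : ℤ), 1 / (2 * T : ℝ) ≤ |pK N * (‖ω‖⁻¹ • ω) i + (r : ℝ) / T - z|) →
      g w = h w)) T hTL ⟨_, hlin, fun w => ⟨hm w x hx, fun ⟨r, hr, _⟩ => by omega⟩⟩ ?_).imp ?_
  · rintro t ht W hW ⟨g, hg, h3⟩
    obtain ⟨out, h4, h5⟩ := run_net hL hs hO hF hO' (θ := (t : ℝ) / T) (τ := 1 / (2 * T : ℝ))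
      (by positivity) (by rw [div_le_one hT0]; exact_mod_cast ht.le) (by positivity) (N + 1) le_rfl
    refine CP.bind (a := 43) (Comp.le (h4.pull (fun w => bs ‖w‖ w σ) ?_) ?_) le_rfl
      fun W₁ hW₁ h6 => ?_
    · rintro (_ | i | k)
      · exact hW h2
      · exact hW (hW₀ (coord_mem i))
      · exact mul_mem (hW h2) _
    · rw [pow_succ' _ 42, mul_assoc]
      exact Nat.mul_le_mul_right _ hN
    refine (CP.of (comp_max (hW₁ hg) (add_mem' (hW₁ (hW hlin)) h6))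
      (Nat.one_le_pow _ _ (by omega))).imp fun W₂ _ h7 => ⟨_, h7, fun w => ?_⟩
    obtain ⟨h8, h9⟩ := h5 w (h w) ⊤ σ w (hm w) (hm' w) (hinv w) (by simp)
    have h10 : max (g w) (w ⬝ᵥ cv x + out (bs ‖w‖ w σ)) ≤ h w :=
      max_le (h3 w).1 (by change _ ≤ _ - w ⬝ᵥ cv x at h8; linarith)
    refine ⟨h10, fun ⟨r, hr, h11⟩ => le_antisymm h10 ?_⟩
    rcases Nat.lt_succ_iff_lt_or_eq.1 hr with h' | rfl
    · exact le_max_of_le_left ((h3 w).2 ⟨r, h', h11⟩).ge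
    · refine le_max_of_le_right ?_
      rw [h9 (Or.inl rfl) h11]
      change _ ≤ _ + (_ - w ⬝ᵥ cv x)
      linarith
  · rintro W - ⟨g, hg, h3⟩
    rwa [show h = g from funext fun w => ((h3 w).2 (exists_shift w (h w) (by omega))).symm]

/-- Binary encoding of a weight vector. -/
def encW {n : ℕ} (b : ℕ) (c : Fin n → ℤ) : Fin n × Fin (b + 1) → Bool :=
  fun ij => decide ((c ij.1 + 2 ^ b).toNat / 2 ^ (ij.2 : ℕ) % 2 = 1)

theorem weight_encW {n b : ℕ} {c : Fin n → ℤ} (hc : ∀ i, |c i| < 2 ^ b) :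
    weight (encW b c) = c := by
  ext i
  have h0 := abs_lt.1 (hc i)
  have h1 : (((c i + 2 ^ b).toNat : ℕ) : ℤ) = c i + 2 ^ b := Int.toNat_of_nonneg (by linarith)
  have h2 : (c i + 2 ^ b).toNat < 2 ^ (b + 1) := by
    zify
    rw [h1, pow_succ]
    linarith
  have h3 := sum_bits _ _ h2
  rw [Finset.sum_range] at h3
  rw [← h3] at h1
  rw [weight, sub_eq_iff_eq_add, ← h1, Nat.cast_sum]
  refine Finset.sum_congr rfl fun j _ => ?_
  rcases Nat.mod_two_eq_zero_or_one ((c i + 2 ^ b).toNat / 2 ^ (j : ℕ)) with h | h <;>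
    simp [encW, h]

theorem comp_circuit {Ω I J : Type} {U : Submodule ℝ (Ω → ℝ)} (h1 : (fun _ => 1 : Ω → ℝ) ∈ U)
    {s : ℕ} {f : (I → Bool) → J → Bool} (hf : CircuitComputes s f) (x : Ω → I → Bool)
    (hx : ∀ i, (fun w => if x w i then (1 : ℝ) else 0) ∈ U) :
    Comp (s * 1) U fun W => ∀ o, (fun w => if f (x w) o then (1 : ℝ) else 0) ∈ W := by
  obtain ⟨g, hg, ho⟩ := hf
  have key : ∀ (W : Submodule ℝ (Ω → ℝ)) (t : ℕ), U ≤ W →
      (∀ k : Fin s, (k : ℕ) < t → (fun w => if g k (x w) then (1 : ℝ) else 0) ∈ W) →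
      ∀ a : I ⊕ Fin s, (∀ k, a = Sum.inr k → (k : ℕ) < t) →
      (fun w => if Sum.elim (x w) (fun k => g k (x w)) a then (1 : ℝ) else 0) ∈ W := by
    rintro W t hW h (i | k) ha
    · exact hW (hx i)
    · exact h k (ha k rfl)
  refine (Comp.loop (c := 1) (fun t W => ∀ k : Fin s, (k : ℕ) < t →
    (fun w => if g k (x w) then (1 : ℝ) else 0) ∈ W) s (fun k hk => by omega) ?_).imp ?_
  · intro t ht W hW h
    obtain ⟨a, b, ha, hb, e⟩ := hg ⟨t, ht⟩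
    refine (Comp.relu (sub_mem' (add_mem' (key W t hW h a ha) (key W t hW h b hb)) (hW h1))).imp
      fun W₁ hW₁ h2 k hk => ?_
    rcases Nat.lt_succ_iff_lt_or_eq.1 hk with h' | h'
    · exact hW₁ (h k h')
    · obtain rfl : k = ⟨t, ht⟩ := Fin.ext h'
      convert sub_mem' (hW₁ (hW h1)) h2 using 2 with w
      rw [e]
      simp only [relu]
      cases Sum.elim (x w) (fun k => g k (x w)) a <;>
        cases Sum.elim (x w) (fun k => g k (x w)) b <;> simp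
  · intro W hW h o
    obtain ⟨a, e⟩ := ho o
    simp only [e]
    exact key W s hW h a fun k _ => k.2

theorem pb_lt (N : ℕ) : pb N < 120 * (N + 1) ^ 5 := by
  have h1 : (N + 1) ^ 4 ≤ (N + 1) ^ 5 := Nat.pow_le_pow_right (by omega) (by omega)
  have h2 : (N + 1) ^ 1 ≤ (N + 1) ^ 5 := Nat.pow_le_pow_right (by omega) (by omega)
  have h3 : pb N = 24 * (N + 1) ^ 5 + 88 * (N + 1) ^ 4 + (N + 1) ^ 1 := by
    simp only [pb, pa]; ring
  have h4 : 0 < (N + 1) ^ 5 := by positivity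
  omega

theorem relu_of_circuit (n s : ℕ) (F : Set (Fin n → Bool))
    (opt : (Fin n × Fin (120 * n ^ 5 + 1) → Bool) → Fin n → Bool) (hc : CircuitComputes s opt)
    (hopt : ∀ a, opt a ∈ F ∧ ∀ y ∈ F,
      ∑ i, (if y i then weight a i else 0) ≤ ∑ i, (if opt a i then weight a i else 0)) :
    ReluComputes ((n + 2) ^ 598 * (s + 1)) fun w => ⨆ x : F, ∑ i, if x.1 i then w i else 0 := by
  apply reluComputes_of_comp
  rcases n with _ | N
  · refine Comp.pure ?_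
    convert Submodule.zero_mem _ with w
    simp
  have h5 : 0 < (N + 1) ^ 5 := by positivity
  let π : Par := ⟨250 * (N + 1) ^ 5, s + 1, by omega, by omega⟩
  have hL : 2 * pb N + 10 ≤ π.L := by have := pb_lt N; simp only [π]; omega
  let ι : (Fin (N + 1) → Bool) → Fin (N + 1) → ℤ := fun y i => if y i then 1 else 0
  have hι : ∀ (c : Fin (N + 1) → ℤ) y, c ⬝ᵥ ι y = ∑ i, if y i then c i else 0 := fun c y => by
    simp [ι, dotProduct]
  have hι' : ∀ (w : Fin (N + 1) → ℝ) y, w ⬝ᵥ cv (ι y) = ∑ i, if y i then w i else 0 :=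
    fun w y => by simp [ι, cv, dotProduct]
  have hι01 : ∀ y i, ι y i = 0 ∨ ι y i = 1 := fun y i => by
    simp only [ι]; split_ifs <;> simp
  have : Nonempty F := ⟨⟨_, (hopt fun _ => false).1⟩⟩
  refine Comp.le (max_net (π := π) (O := fun c => ι (opt (encW _ c))) (F := ι '' F) hL ?_
    (fun c => hι01 _) ?_ ?_ _ ?_ ?_) ?_
  · intro Ω U c h1 hc'
    have hb := pb_lt N
    refine (CP.family (k := 2) (card_le_one (by have := (nums N); omega)) _
      (fun _ _ _ h h' j hj => h (h' j hj)) fun i => CP.of (comp_bits h1 ((hc' i).le hb.le))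
        (le_sq (by simp only [π]; omega) (by norm_num))).bind le_rfl fun W hW h2 => ?_
    refine Comp.le ((comp_circuit (hW h1) hc (fun w => encW _ (c w)) fun ij => ?_).imp
      fun W' _ h3 i => ⟨by simpa [ι] using h3 i, fun w => ?_⟩) ?_
    · convert h2 ij.1 ij.2 (by omega) using 2 with w
      rcases Nat.mod_two_eq_zero_or_one
        ((c w ij.1 + 2 ^ (120 * (N + 1) ^ 5)).toNat / 2 ^ (ij.2 : ℕ)) with h | h <;> simp [encW, h]
    · rcases hι01 (opt (encW _ (c w))) i with h | h <;> simp [h]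
    · have : 1 ≤ π.L ^ 3 := Nat.one_le_pow _ _ (by omega)
      simp only [π] at this ⊢
      nlinarith
  · rintro _ ⟨y, -, rfl⟩
    exact hι01 y
  · intro c hc'
    have h1 : weight (encW (120 * (N + 1) ^ 5) c) = c := weight_encW fun i =>
      (hc' i).trans_lt (by rw [two_pZ_pow]; exact pow_lt_pow_right₀ one_lt_two (pb_lt N))
    refine ⟨⟨_, (hopt _).1, rfl⟩, ?_⟩
    rintro _ ⟨y, hy, rfl⟩
    have := (hopt (encW _ c)).2 y hy
    rwa [h1, ← hι, ← hι] at this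
  · rintro w _ ⟨y, hy, rfl⟩
    rw [hι']
    exact le_ciSup (f := fun x : F => ∑ i, if x.1 i then w i else 0) (Set.finite_range _).bddAbove
      ⟨y, hy⟩
  · intro w
    obtain ⟨y, hy⟩ := exists_eq_ciSup_of_finite (f := fun x : F => ∑ i, if x.1 i then w i else 0)
    exact ⟨_, ⟨y, y.2, rfl⟩, by rw [hι', hy]⟩
  · refine Nat.mul_le_mul_right _ ?_
    rw [show 598 = 13 * 46 from rfl, pow_mul]
    refine Nat.pow_le_pow_left ?_ _
    rw [show 13 = 8 + 5 from rfl, pow_add]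
    refine Nat.mul_le_mul (le_trans (by norm_num) (Nat.pow_le_pow_left (show 2 ≤ N + 1 + 2 by omega) 8))
      (Nat.pow_le_pow_left (by omega) 5)

end Pool.Agent.Lib.MP_8a52c3_lc.RN
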