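import Pool.Agent.Lib.MP_8a52c3_lc.RNSim2

/-!
The homogeneous network for one run of the multi-scale procedure.
-/

namespace Pool.Agent.Lib.MP_8a52c3_lc.RN

open Submodule Finset Matrix

variable {Ω : Type} {U : Submodule ℝ (Ω → ℝ)} {π : Par} {N : ℕ}

/-- The span of the coordinate functions. -/
def coords (ι : Type) : Submodule ℝ ((ι → ℝ) → ℝ) :=
  span ℝ (Set.range fun (i : ι) (w : ι → ℝ) => w i)

theorem coord_mem {ι : Type} (i : ι) : (fun w : ι → ℝ => w i) ∈ coords ι := subset_span ⟨i, rfl⟩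

theorem Comp.scale {ι J : Type} {c : ℕ} (γ : Ω → ℝ) (hγ : ∀ a, 0 ≤ γ a) (e : Ω → ι → ℝ)
    (base : ι → Ω → ℝ) (he : ∀ a k, e a k = γ a * base k a) (f : J → Ω → ℝ)
    (h : Comp c (span ℝ (Set.range base)) fun W => ∀ j, f j ∈ W) :
    Comp c (coords ι) fun W => ∀ j, ∃ g ∈ W, ∀ a, g (e a) = γ a * f j a := by
  obtain ⟨W', -, h1, h2⟩ := h
  let R : Submodule ℝ ((Ω → ℝ) × ((ι → ℝ) → ℝ)) :=
    { carrier := {p | ∀ a, p.2 (e a) = γ a * p.1 a}
      add_mem' := fun h1 h2 a => by simp [h1 a, h2 a, mul_add]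
      zero_mem' := fun a => by simp
      smul_mem' := fun t p h1 a => by simp [h1 a, mul_left_comm] }
  obtain ⟨W, h3, h4⟩ := h1.transfer (U := coords ι) R (fun f g h a => by
    have : g (e a) = γ a * f a := h a
    simp only [RN.relu, this, mul_max_of_nonneg _ _ (hγ a), mul_zero]) (by
    intro f hf
    induction hf using span_induction with
    | mem f hf =>
      obtain ⟨k, rfl⟩ := hf
      exact ⟨_, coord_mem k, fun a => he a k⟩
    | zero => exact ⟨0, zero_mem _, zero_mem R⟩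
    | add f f' _ _ h h' =>
      obtain ⟨g, hg, h⟩ := h
      obtain ⟨g', hg', h'⟩ := h'
      exact ⟨g + g', add_mem hg hg', add_mem h h'⟩
    | smul t f _ h =>
      obtain ⟨g, hg, h⟩ := h
      exact ⟨t • g, smul_mem _ t hg, smul_mem R t h⟩)
  exact ⟨coords ι ⊔ W, le_sup_left, h3.sup, fun j =>
    let ⟨g, hg, h⟩ := h4 _ (h2 j); ⟨g, mem_sup_right hg, h⟩⟩

theorem Comp.pull {ι : Type} {c : ℕ} {f : (ι → ℝ) → ℝ} (h : Comp c (coords ι) fun W => f ∈ W)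
    (e : Ω → ι → ℝ) (he : ∀ k, (fun a => e a k) ∈ U) : Comp c U fun W => (fun a => f (e a)) ∈ W := by
  obtain ⟨W', -, h1, h2⟩ := h
  let R : Submodule ℝ (((ι → ℝ) → ℝ) × (Ω → ℝ)) :=
    { carrier := {p | ∀ a, p.2 a = p.1 (e a)}
      add_mem' := fun h1 h2 a => by simp [h1 a, h2 a]
      zero_mem' := fun a => by simp
      smul_mem' := fun t p h1 a => by simp [h1 a] }
  obtain ⟨W, h3, h4⟩ := h1.transfer (U := U) R (fun f g h a => by
    have : g a = f (e a) := h a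
    simp only [RN.relu, this]) (by
    intro f hf
    refine ⟨fun a => f (e a), ?_, fun a => rfl⟩
    induction hf using span_induction with
    | mem f hf =>
      obtain ⟨k, rfl⟩ := hf
      exact he k
    | zero => exact zero_mem _
    | add f f' _ _ h h' => exact add_mem h h'
    | smul t f _ h => exact smul_mem _ t h)
  obtain ⟨g, hg, h⟩ := h4 _ h2
  refine ⟨U ⊔ W, le_sup_left, h3.sup, mem_sup_right ?_⟩
  rwa [show (fun a => f (e a)) = g from funext fun a => (h a).symm]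

theorem Comp.bounded {ι : Type} [Fintype ι] {c : ℕ} {f : (ι → ℝ) → ℝ}
    (h : Comp c (coords ι) fun W => f ∈ W) : ∃ C, 0 ≤ C ∧ ∀ y, |f y| ≤ C * ‖y‖ := by
  obtain ⟨W, -, h1, h2⟩ := h
  let B : Submodule ℝ ((ι → ℝ) → ℝ) :=
    { carrier := {f | ∃ C, 0 ≤ C ∧ ∀ y, |f y| ≤ C * ‖y‖}
      add_mem' := fun ⟨C, h0, h1⟩ ⟨C', h0', h2⟩ => ⟨C + C', add_nonneg h0 h0', fun y =>
        (abs_add_le _ _).trans (by rw [add_mul]; exact add_le_add (h1 y) (h2 y))⟩
      zero_mem' := ⟨0, le_rfl, fun y => by simp⟩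
      smul_mem' := fun t f ⟨C, h0, h1⟩ => ⟨|t| * C, by positivity, fun y => by
        rw [Pi.smul_apply, smul_eq_mul, abs_mul, mul_assoc]
        exact mul_le_mul_of_nonneg_left (h1 y) (abs_nonneg _)⟩ }
  refine h1.le_of_closed (B := B) ?_ (span_le.2 ?_) h2
  · rintro f ⟨C, h0, h⟩
    refine ⟨C, h0, fun y => le_trans ?_ (h y)⟩
    simp only [RN.relu]
    rcases le_total (f y) 0 with h' | h'
    · simp [h']
    · simp [h']
  · rintro _ ⟨i, rfl⟩
    exact ⟨1, zero_le_one, fun y => by simpa using norm_le_pi_norm y i⟩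

theorem comp_norm {f : Ω → Fin (N + 1) → ℝ} (hf : ∀ i, (fun w => f w i) ∈ U) :
    Comp ((N + 1) * 2) U fun W => (fun w => ‖f w‖) ∈ W := by
  refine (Comp.loop (c := 2) (fun t W => ∃ g ∈ W, ∀ w, g w ≤ ‖f w‖ ∧ 0 ≤ g w ∧
    ∀ i : Fin (N + 1), (i : ℕ) < t → |f w i| ≤ g w) (N + 1)
    ⟨0, zero_mem _, fun w => ⟨norm_nonneg _, le_rfl, fun i hi => by omega⟩⟩ ?_).imp ?_
  · rintro t ht W hW ⟨g, hg, h⟩
    refine Comp.bind (c := 1) (c' := 1) (comp_abs (hW (hf (ix N t)))) fun W₁ hW₁ h2 => ?_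
    refine (comp_max (hW₁ hg) h2).imp fun W₂ _ h3 => ⟨_, h3, fun w =>
      ⟨max_le (h w).1 (norm_le_pi_norm (f w) _), le_max_of_le_left (h w).2.1, fun i hi => ?_⟩⟩
    rcases Nat.lt_succ_iff_lt_or_eq.1 hi with h' | h'
    · exact le_max_of_le_left ((h w).2.2 i h')
    · obtain rfl : i = ix N t := by ext; rw [ix_val ht, h']
      exact le_max_right _ _
  · rintro W - ⟨g, hg, h⟩
    rwa [show (fun w => ‖f w‖) = g from funext fun w => le_antisymm
      ((pi_norm_le_iff_of_nonneg (h w).2.1).2 fun i => (h w).2.2 i i.2) (h w).1]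

/-- Folding an interval onto the unit interval. -/
noncomputable def fold : ℕ → ℝ → ℝ
  | 0, t => t
  | J + 1, t => fold J |t - 2 ^ J|

theorem fold_spec (J : ℕ) : ∀ t : ℝ, 0 ≤ t → t ≤ 2 ^ J →
    0 ≤ fold J t ∧ fold J t ≤ 1 ∧ ∃ k : ℤ, fold J t = |t - k| := by
  induction J with
  | zero => intro t h0 h1; exact ⟨h0, by simpa [fold] using h1, 0, by simp [fold, abs_of_nonneg h0]⟩
  | succ J ih =>
    intro t h0 h1
    obtain ⟨h2, h3, k, h4⟩ := ih |t - 2 ^ J| (abs_nonneg _) (by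
      rw [pow_succ] at h1
      rw [abs_le]
      constructor <;> linarith)
    refine ⟨h2, h3, ?_⟩
    simp only [fold, h4]
    rcases le_total 0 (t - 2 ^ J) with h | h
    · exact ⟨2 ^ J + k, by rw [abs_of_nonneg h]; push_cast; congr 1; ring⟩
    · exact ⟨2 ^ J - k, by rw [abs_of_nonpos h, ← abs_neg]; push_cast; congr 1; ring⟩

theorem comp_fold (h1 : (fun _ => 1 : Ω → ℝ) ∈ U) (J : ℕ) {f : Ω → ℝ} (hf : f ∈ U) :
    Comp J U fun W => (fun w => fold J (f w)) ∈ W := by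
  induction J generalizing U f with
  | zero => exact Comp.pure hf
  | succ J ih =>
    exact ((comp_abs (sub_mem' hf (const_mem h1 (2 ^ J)))).bind
      fun W hW h => ih (hW h1) h).le (by omega)

/-- Penalty for being close to an integer. -/
noncomputable def pen (J : ℕ) (τ x : ℝ) : ℝ :=
  max (τ - fold J |x|) 0 + max (τ - (1 - fold J |x|)) 0

theorem pen_nonneg (J : ℕ) (τ x : ℝ) : 0 ≤ pen J τ x :=
  add_nonneg (le_max_right _ _) (le_max_right _ _)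

theorem abs_sub_int (x : ℝ) (k l : ℤ) : ∃ k' : ℤ, |(|(|x| - k)| - l)| = |x - k'| := by
  rcases le_total 0 x with h | h <;> rcases le_total 0 (|x| - k) with h' | h'
  · exact ⟨k + l, by rw [abs_of_nonneg h', abs_of_nonneg h]; push_cast; congr 1; ring⟩
  · exact ⟨k - l, by rw [abs_of_nonpos h', abs_of_nonneg h, ← abs_neg]; push_cast; congr 1; ring⟩
  · exact ⟨-k - l, by rw [abs_of_nonneg h', abs_of_nonpos h, ← abs_neg]; push_cast; congr 1; ring⟩
  · exact ⟨l - k, by rw [abs_of_nonpos h', abs_of_nonpos h]; push_cast; congr 1; ring⟩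

theorem pen_eq_zero {J : ℕ} {τ x : ℝ} (hx : |x| ≤ 2 ^ J) (h : ∀ k : ℤ, τ ≤ |x - k|) :
    pen J τ x = 0 := by
  obtain ⟨h1, h2, k, h3⟩ := fold_spec J |x| (abs_nonneg _) hx
  obtain ⟨k₀, h4⟩ := abs_sub_int x k 0
  obtain ⟨k₁, h5⟩ := abs_sub_int x k 1
  rw [← h3] at h4 h5
  have h6 := h k₀
  have h7 := h k₁
  rw [← h4, Int.cast_zero, sub_zero, abs_of_nonneg h1] at h6
  rw [← h5, Int.cast_one, abs_of_nonpos (by linarith)] at h7
  rw [pen, max_eq_right (by linarith), max_eq_right (by linarith), add_zero]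

theorem le_pen {J : ℕ} {τ x : ℝ} (hx : |x| ≤ 2 ^ J) {z : ℤ} (h : |x - z| < τ / 2) :
    τ / 2 ≤ pen J τ x := by
  obtain ⟨h1, h2, k, h3⟩ := fold_spec J |x| (abs_nonneg _) hx
  have h4 : ∃ l : ℤ, |fold J |x| - l| < τ / 2 := by
    refine ⟨|(|z| - k)|, lt_of_le_of_lt ?_ h⟩
    rw [h3]
    push_cast
    refine (abs_abs_sub_abs_le _ _).trans ?_
    rw [sub_sub_sub_cancel_right]
    exact abs_abs_sub_abs_le _ _
  obtain ⟨l, h4⟩ := h4
  have h5 := abs_lt.1 h4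
  have h6 := le_max_left (τ - fold J |x|) 0
  have h7 := le_max_right (τ - fold J |x|) 0
  have h8 := le_max_left (τ - (1 - fold J |x|)) 0
  have h9 := le_max_right (τ - (1 - fold J |x|)) 0
  rw [pen]
  rcases le_or_gt l 0 with hl | hl
  · have : (l : ℝ) ≤ 0 := by exact_mod_cast hl
    linarith
  · have : (1 : ℝ) ≤ l := by exact_mod_cast hl
    linarith

theorem comp_pen (h1 : (fun _ => 1 : Ω → ℝ) ∈ U) (J : ℕ) (τ : ℝ) {f : Ω → ℝ} (hf : f ∈ U) :
    Comp (1 + (J + (1 + 1))) U fun W => (fun w => pen J τ (f w)) ∈ W :=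
  (comp_abs hf).bind fun _ hW₁ h2 => (comp_fold (hW₁ h1) J h2).bind fun _ hW₂ h3 =>
    (Comp.relu (sub_mem' (const_mem (hW₂ (hW₁ h1)) τ) h3)).bind fun _ hW₃ h4 =>
      (Comp.relu (hW₃ (sub_mem' (const_mem (hW₂ (hW₁ h1)) τ) (sub_mem' (hW₂ (hW₁ h1)) h3)))).imp
        fun _ hW₄ h5 => add_mem' (hW₄ h4) h5

/-- Indices of the integer part of the state. -/
abbrev Ci (N : ℕ) := Fin (N + 1) ⊕ Fin (N + 1) ⊕ (Fin (N + 1) × Fin (N + 1)) ⊕ Unit

/-- Indices of the state. -/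
abbrev Cd (N : ℕ) := Option (Fin (N + 1) ⊕ Ci N)

/-- Integer coordinates of the state. -/
def St.get (σ : St N) : Ci N → ℤ :=
  Sum.elim σ.p (Sum.elim σ.x (Sum.elim (fun ij => σ.H ij.1 ij.2) fun _ => σ.d))

/-- Coordinates of the state at unit scale. -/
def bs (m : ℝ) (v : Fin (N + 1) → ℝ) (σ : St N) : Cd N → ℝ
  | none => m
  | some (Sum.inl i) => v i
  | some (Sum.inr k) => σ.get k * m

theorem get_bound {σ : St N} (h : σ.Bd (N + 1)) (k : Ci N) : |σ.get k| ≤ 2 ^ pb N := by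
  obtain ⟨n1, n2, n3, n4, n5, n6⟩ := nums N
  have h1 : (2 : ℤ) ^ pl N ≤ 2 ^ pb N := pow_le_pow_right₀ one_le_two (by omega)
  rcases k with i | i | ij | _
  · exact (h.2.2.2.2 i).trans two_pZ_pow.le
  · rcases h.2.2.2.1 i with h | h <;> simp [St.get, h, one_le_pow₀]
  · exact (h.2.2.1 _ _).trans h1
  · simp only [St.get, Sum.elim_inr, abs_of_pos h.1]
    exact h.2.1.trans h1

theorem norm_bs {σ : St N} (h : σ.Bd (N + 1)) (ω : Fin (N + 1) → ℝ) :
    ‖bs ‖ω‖ ω σ‖ ≤ 2 ^ pb N * ‖ω‖ := by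
  have h1 : ‖ω‖ ≤ 2 ^ pb N * ‖ω‖ := le_mul_of_one_le_left (norm_nonneg _) (one_le_pow₀ one_le_two)
  refine (pi_norm_le_iff_of_nonneg (by positivity)).2 ?_
  rintro (_ | i | k)
  · simpa [bs] using h1
  · exact (norm_le_pi_norm ω i).trans h1
  · simp only [bs, norm_mul, norm_norm]
    refine mul_le_mul_of_nonneg_right ?_ (norm_nonneg _)
    rw [Real.norm_eq_abs]
    exact_mod_cast get_bound h k

/-- The rounded vector. -/
noncomputable def rd (θ : ℝ) (v : Fin (N + 1) → ℝ) : Fin (N + 1) → ℤ := fun i => ⌊pK N * v i + θ⌋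

theorem pK_eq : (pK N : ℝ) = 2 ^ (pa N * (3 * N + 10)) := by
  rw [pK, pA, ← pow_mul]; push_cast; rfl

theorem arg_bound {θ t : ℝ} (h0 : 0 ≤ θ) (h1 : θ ≤ 1) (ht : |t| ≤ 1) :
    |pK N * t + θ| ≤ 2 ^ (pa N * (3 * N + 10) + 1) := by
  have h2 : (1 : ℝ) ≤ 2 ^ (pa N * (3 * N + 10)) := one_le_pow₀ one_le_two
  refine (abs_add_le _ _).trans ?_
  rw [abs_mul, pK_eq, abs_of_nonneg h0, abs_of_nonneg (by positivity), pow_succ]
  nlinarith

theorem rd_bound {θ : ℝ} (h0 : 0 ≤ θ) (h1 : θ ≤ 1) {v : Fin (N + 1) → ℝ} (hv : ∀ i, |v i| ≤ 1)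
    (i : Fin (N + 1)) : |rd θ v i| ≤ 2 * pK N := by
  have h := abs_le.1 (arg_bound (N := N) h0 h1 (hv i))
  rw [pow_succ', ← pK_eq] at h
  rw [abs_le, rd]
  constructor
  · rw [Int.le_floor]; exact_mod_cast h.1
  · have := (Int.floor_le _).trans h.2
    exact_mod_cast this

variable {O : (Fin (N + 1) → ℤ) → Fin (N + 1) → ℤ}

theorem stage_net (hL : 2 * pb N + 10 ≤ π.L) (hs : OSim π O) (hO : ∀ c i, O c i = 0 ∨ O c i = 1)
    {θ τ : ℝ} (h0 : 0 ≤ θ) (h1 : θ ≤ 1) (hτ : 0 < τ) :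
    CP π 41 (coords (Cd N)) fun W => ∃ (δ : (Cd N → ℝ) → ℝ) (nx : (Cd N → ℝ) → Cd N → ℝ),
      δ ∈ W ∧ (∀ k, (fun y => nx y k) ∈ W) ∧
      ∀ (ω : Fin (N + 1) → ℝ) (σ : St N), 0 < ‖ω‖ → σ.Bd N →
        (∀ i (z : ℤ), τ ≤ |pK N * (‖ω‖⁻¹ • ω) i + θ - z|) →
        δ (bs ‖ω‖ ω σ) = cv (lam O σ (rd θ (‖ω‖⁻¹ • ω))) ⬝ᵥ ω ∧
        nx (bs ‖ω‖ ω σ) = bs ‖cm (Tm O σ (rd θ (‖ω‖⁻¹ • ω))) *ᵥ ω‖
          (cm (Tm O σ (rd θ (‖ω‖⁻¹ • ω))) *ᵥ ω) (nxt O σ (rd θ (‖ω‖⁻¹ • ω))) := by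
  obtain ⟨n1, n2, n3, n4, n5, n6⟩ := nums N
  have n7 : pa N * (3 * N + 10) ≤ pa N * (3 * N + 14) := Nat.mul_le_mul_left _ (by omega)
  have hN : N + 1 ≤ π.L := by omega
  let Ω := {a : ℝ × (Fin (N + 1) → ℝ) × St N // 0 ≤ a.1 ∧ (∀ i, |a.2.1 i| ≤ 1) ∧ a.2.2.Bd N ∧
    ∀ i (z : ℤ), τ ≤ |pK N * a.2.1 i + θ - z|}
  let base : Cd N → Ω → ℝ := fun k a => bs 1 a.1.2.1 a.1.2.2 k
  let T : Ω → Fin (N + 1) → ℝ := fun a => cm (Tm O a.1.2.2 (rd θ a.1.2.1)) *ᵥ a.1.2.1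
  let f : Option (Cd N) → Ω → ℝ := fun j a => j.elim (cv (lam O a.1.2.2 (rd θ a.1.2.1)) ⬝ᵥ a.1.2.1)
    (bs ‖T a‖ (T a) (nxt O a.1.2.2 (rd θ a.1.2.1)))
  refine Comp.imp (Comp.scale (fun a : Ω => a.1.1) (fun a => a.2.1)
    (fun a => bs a.1.1 (a.1.1 • a.1.2.1) a.1.2.2) base ?_ f ?_) ?_
  · rintro a (_ | i | k) <;> simp [base, bs, mul_comm]
  · have hb : ∀ k, base k ∈ span ℝ (Set.range base) := fun k => subset_span ⟨k, rfl⟩
    generalize span ℝ (Set.range base) = U at hb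
    have hU : (fun _ => 1 : Ω → ℝ) ∈ U := hb none
    have hv : ∀ i, RVal U 0 fun a : Ω => a.1.2.1 i := fun i =>
      ⟨hb (some (Sum.inl i)), fun a => by simpa using a.2.2.1 i⟩
    have hg : ∀ k, (fun a : Ω => (a.1.2.2.get k : ℝ)) ∈ U := fun k => by
      simpa [base, bs] using hb (some (Sum.inr k))
    have hσ : SVal U fun a : Ω => a.1.2.2 :=
      ⟨fun i => ⟨hg (Sum.inl i), fun a => get_bound (a.2.2.2.1.mono (by omega)) (Sum.inl i)⟩,
        fun i => ⟨hg (Sum.inr (Sum.inl i)), fun a => by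
          rcases a.2.2.2.1.2.2.2.1 i with h | h <;> simp [h]⟩,
        fun i j => ⟨hg (Sum.inr (Sum.inr (Sum.inl (i, j)))), fun a => a.2.2.2.1.2.2.1 i j⟩,
        hg (Sum.inr (Sum.inr (Sum.inr ()))), fun a => by
          beta_reduce
          rw [abs_of_pos a.2.2.2.1.1]; exact a.2.2.2.1.2.1⟩
    change CP π 41 _ _
    refine (CP.vals (k := 2) (card_le_one hN) (fun i (a : Ω) => rd θ a.1.2.1 i) fun i => CP.of
      (comp_floor hU ⟨add_mem' (mul_mem (hv i).1 _) (const_mem hU θ),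
        fun a => arg_bound h0 h1 (a.2.2.1 i)⟩ hτ fun a => a.2.2.2.2 i)
      (le_sq (by omega) (by norm_num))).bind (by norm_num) fun W₁ hW₁ h2 => ?_
    refine (cp_stage (hW₁ hU) hL hs hO ⟨fun i => (hσ.1 i).mono hW₁, fun i => (hσ.2.1 i).mono hW₁,
      fun i j => (hσ.2.2.1 i j).mono hW₁, hσ.2.2.2.mono hW₁⟩ (fun a => a.2.2.2.1)
      (fun i => (h2 i).1) fun a => rd_bound h0 h1 a.2.2.1).bind (by norm_num)
      fun W₂ hW₂ ⟨h3, h4, h5⟩ => ?_
    have hW := hW₁.trans hW₂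
    refine (CP.family (k := 2) (card_le_two hN)
      (fun (ij : Fin (N + 1) × Fin (N + 1)) W => RVal W _ fun a : Ω =>
        Tm O a.1.2.2 (rd θ a.1.2.1) ij.1 ij.2 * a.1.2.1 ij.2) (fun _ _ _ h h' => h'.mono h)
      fun ij => CP.of (comp_mulR (hW hU) (h4 ij.1 ij.2) ((hv ij.2).mono hW))
        (le_sq (by omega) (by norm_num))).bind (by norm_num) fun W₃ hW₃ h6 => ?_
    have h7 : ∀ i, RVal W₃ _ fun a => T a i := fun i => RVal.sum fun j => h6 (i, j)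
    replace hW := hW.trans hW₃
    refine (CP.family (k := 2) (card_le_one hN)
      (fun j W => RVal W _ fun a : Ω => lam O a.1.2.2 (rd θ a.1.2.1) j * a.1.2.1 j)
      (fun _ _ _ h h' => h'.mono h)
      fun j => CP.of (comp_mulR (hW hU) ((h5 j).mono hW₃) ((hv j).mono hW))
        (le_sq (by omega) (by norm_num))).bind (by norm_num) fun W₄ hW₄ h8 => ?_
    replace hW := hW.trans hW₄
    refine (CP.of (k := 2) (comp_norm fun i => hW₄ (h7 i).1)
      (by rw [sq]; exact Nat.mul_le_mul hN (by omega))).bind (by norm_num) fun W₅ hW₅ h9 => ?_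
    replace hW := hW.trans hW₅
    have h10 : RVal W₅ _ fun a => ‖T a‖ := ⟨h9, fun a => by
      beta_reduce
      rw [abs_norm]
      exact (pi_norm_le_iff_of_nonneg (by positivity)).2 fun i => (h7 i).2 a⟩
    have hV := hW₃.trans (hW₄.trans hW₅)
    have h11 : ∀ k, Val W₅ (pb N) fun a : Ω => (nxt O a.1.2.2 (rd θ a.1.2.1)).get k := by
      rintro (i | i | ij | _)
      · exact (h3.1 i).mono hV
      · exact ((h3.2.1 i).mono hV).le (by omega)
      · exact ((h3.2.2.1 _ _).mono hV).le (by omega)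
      · exact (h3.2.2.2.mono hV).le (by omega)
    refine ((CP.family (k := 2) (e := 3) (J := Ci N) ?_
      (fun k W => RVal W _ fun a : Ω => (nxt O a.1.2.2 (rd θ a.1.2.1)).get k * ‖T a‖)
      (fun _ _ _ h h' => h'.mono h) fun k => CP.of (comp_mulR (hW hU) (h11 k) h10)
        (le_sq (by omega) (by norm_num))).le (by norm_num)).imp fun W₆ hW₆ h12 => ?_
    · simp only [Fintype.card_sum, Fintype.card_prod, Fintype.card_fin, Fintype.card_unique]
      have := π.hL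
      have h13 : (N + 1) * (N + 1) ≤ π.L * π.L := Nat.mul_le_mul hN hN
      have h14 : π.L ^ 3 = π.L * (π.L * π.L) := by ring
      nlinarith
    rintro (_ | _ | i | k)
    · exact hW₆ (hW₅ (RVal.sum h8).1)
    · exact hW₆ h9
    · exact hW₆ (hW₅ (hW₄ (h7 i).1))
    · exact (h12 k).1
  · intro W _ h
    choose g hg hg' using h
    refine ⟨g none, fun y k => g (some k) y, hg none, fun k => hg (some k),
      fun ω σ hω hσ hm => ?_⟩
    have hv : ∀ i, |(‖ω‖⁻¹ • ω) i| ≤ 1 := fun i => by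
      rw [Pi.smul_apply, smul_eq_mul, abs_mul, abs_inv, abs_norm, inv_mul_le_iff₀ hω, mul_one]
      exact norm_le_pi_norm ω i
    have h2 := fun j => hg' j ⟨(‖ω‖, ‖ω‖⁻¹ • ω, σ), hω.le, hv, hσ, hm⟩
    simp only [smul_inv_smul₀ hω.ne'] at h2
    have h3 : ∀ A : Matrix (Fin (N + 1)) (Fin (N + 1)) ℝ, A *ᵥ ω = ‖ω‖ • A *ᵥ (‖ω‖⁻¹ • ω) :=
      fun A => by rw [← mulVec_smul, smul_inv_smul₀ hω.ne']
    refine ⟨?_, funext fun k => ?_⟩
    · rw [h2]
      simp only [f, Option.elim_none]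
      rw [← smul_eq_mul, ← dotProduct_smul, smul_inv_smul₀ hω.ne']
    · beta_reduce
      rw [h2, h3 (cm _)]
      simp only [f, T, Option.elim_some]
      rcases k with _ | i | k
      · simp only [bs, norm_smul, norm_norm]
      · simp only [bs, Pi.smul_apply, smul_eq_mul]
      · simp only [bs, norm_smul, norm_norm]
        ring

theorem pen_net (hL : 2 * pb N + 10 ≤ π.L) (θ τ : ℝ) :
    CP π 3 (coords (Cd N)) fun W => ∃ g ∈ W, ∀ (ω : Fin (N + 1) → ℝ) (σ : St N), 0 < ‖ω‖ →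
      g (bs ‖ω‖ ω σ) =
        ‖ω‖ * ∑ i, pen (pa N * (3 * N + 10) + 1) τ (pK N * (‖ω‖⁻¹ • ω) i + θ) := by
  obtain ⟨n1, n2, n3, n4, n5, n6⟩ := nums N
  have n7 : pa N * (3 * N + 10) ≤ pa N * (3 * N + 14) := Nat.mul_le_mul_left _ (by omega)
  have hN : N + 1 ≤ π.L := by omega
  let Ω := {a : ℝ × (Fin (N + 1) → ℝ) × St N // 0 ≤ a.1}
  let base : Cd N → Ω → ℝ := fun k a => bs 1 a.1.2.1 a.1.2.2 k
  refine Comp.imp (Comp.scale (fun a : Ω => a.1.1) (fun a => a.2)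
    (fun a => bs a.1.1 (a.1.1 • a.1.2.1) a.1.2.2) base ?_
    (fun (_ : Unit) a => ∑ i, pen (pa N * (3 * N + 10) + 1) τ (pK N * a.1.2.1 i + θ)) ?_) ?_
  · rintro a (_ | i | k) <;> simp [base, bs, mul_comm]
  · have hb : ∀ k, base k ∈ span ℝ (Set.range base) := fun k => subset_span ⟨k, rfl⟩
    generalize span ℝ (Set.range base) = U at hb
    have hU : (fun _ => 1 : Ω → ℝ) ∈ U := hb none
    change CP π 3 _ _
    refine ((CP.family (k := 1) (card_le_one hN) (fun i W => (fun a : Ω =>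
      pen (pa N * (3 * N + 10) + 1) τ (pK N * a.1.2.1 i + θ)) ∈ W) (fun _ _ _ h h' => h h')
      fun i => CP.of (comp_pen hU _ τ (add_mem' (mul_mem (hb (some (Sum.inl i))) _)
        (const_mem hU θ))) (by rw [pow_one]; omega)).le (by norm_num)).imp
      fun W _ h _ => sum_mem' _ fun i _ => h i
  · intro W _ h
    obtain ⟨g, hg, h⟩ := h ()
    refine ⟨g, hg, fun ω σ hω => ?_⟩
    have := h ⟨(‖ω‖, ‖ω‖⁻¹ • ω, σ), hω.le⟩
    simpa only [smul_inv_smul₀ hω.ne'] using this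

end Pool.Agent.Lib.MP_8a52c3_lc.RN
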