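import Mathlib

/-!
Integer representations of orthogonal projections.
-/

namespace Pool.Agent.Lib.MP_8a52c3_lc.RN

open Submodule Finset Matrix

variable {n : ℕ}

/-- Real vector of an integer vector. -/
def cv {ι : Type} (z : ι → ℤ) : ι → ℝ := fun i => (z i : ℝ)

/-- Real matrix of an integer matrix. -/
def cm {ι κ : Type} (A : Matrix ι κ ℤ) : Matrix ι κ ℝ := A.map (Int.cast : ℤ → ℝ)

theorem cv_mulVec {ι κ : Type} [Fintype κ] (A : Matrix ι κ ℤ) (z : κ → ℤ) :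
    cv (A *ᵥ z) = cm A *ᵥ cv z := by
  ext i
  simp [cv, cm, Matrix.mulVec, dotProduct]

theorem cv_dot {κ : Type} [Fintype κ] (y z : κ → ℤ) : ((y ⬝ᵥ z : ℤ) : ℝ) = cv y ⬝ᵥ cv z := by
  simp [cv, dotProduct]

theorem cv_sub {κ : Type} (y z : κ → ℤ) : cv (y - z) = cv y - cv z := by
  ext i
  simp [cv]

theorem cv_add {κ : Type} (y z : κ → ℤ) : cv (y + z) = cv y + cv z := by
  ext i
  simp [cv]

theorem cv_smul {κ : Type} (t : ℤ) (z : κ → ℤ) : cv (t • z) = (t : ℝ) • cv z := by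
  ext i
  simp [cv]

theorem cv_inj {κ : Type} {y z : κ → ℤ} (h : cv y = cv z) : y = z := by
  ext i
  have := congrFun h i
  simp only [cv] at this
  exact_mod_cast this

/-- `P` is the orthogonal projection with kernel `V`. -/
def OP (V : Submodule ℝ (Fin n → ℝ)) (P : Matrix (Fin n) (Fin n) ℝ) : Prop :=
  Pᵀ = P ∧ (∀ v ∈ V, P *ᵥ v = 0) ∧ ∀ z, z - P *ᵥ z ∈ V

variable {V V' : Submodule ℝ (Fin n → ℝ)} {P P' : Matrix (Fin n) (Fin n) ℝ}

theorem symm_dot (h : Pᵀ = P) (y z : Fin n → ℝ) : y ⬝ᵥ P *ᵥ z = P *ᵥ y ⬝ᵥ z := by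
  rw [dotProduct_mulVec, ← mulVec_transpose, h]

theorem OP.orth (h : OP V P) {v : Fin n → ℝ} (hv : v ∈ V) (z : Fin n → ℝ) : v ⬝ᵥ P *ᵥ z = 0 := by
  rw [symm_dot h.1, h.2.1 v hv, zero_dotProduct]

theorem OP.unique (h : OP V P) (h' : OP V P') : P = P' := by
  have : ∀ z, P *ᵥ z = P' *ᵥ z := by
    intro z
    have h1 : P *ᵥ z - P' *ᵥ z ∈ V := by
      convert sub_mem (h'.2.2 z) (h.2.2 z) using 1
      abel
    rw [← sub_eq_zero, ← dotProduct_self_eq_zero]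
    nth_rewrite 2 [show P *ᵥ z - P' *ᵥ z = P *ᵥ z - P' *ᵥ z from rfl]
    rw [dotProduct_sub, h.orth h1, h'.orth h1, sub_zero]
  ext i j
  simpa using congrFun (this (Pi.single j 1)) i

theorem OP.idem (h : OP V P) (z : Fin n → ℝ) : P *ᵥ (P *ᵥ z) = P *ᵥ z := by
  have := h.2.1 _ (h.2.2 z)
  rw [mulVec_sub, sub_eq_zero] at this
  exact this.symm

theorem OP.dot_self (h : OP V P) (z : Fin n → ℝ) : z ⬝ᵥ P *ᵥ z = P *ᵥ z ⬝ᵥ P *ᵥ z := by
  rw [← symm_dot h.1, h.idem]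

theorem OP.mem_iff (h : OP V P) (z : Fin n → ℝ) : z ∈ V ↔ P *ᵥ z = 0 :=
  ⟨h.2.1 z, fun h0 => by simpa [h0] using h.2.2 z⟩

theorem OP.abs_le (h : OP V P) (i j : Fin n) : |P i j| ≤ 1 := by
  have h1 := h.dot_self (Pi.single j 1)
  simp only [mulVec_single_one, single_dotProduct, one_mul, col_apply] at h1
  have h2 : ∀ k, P k j * P k j ≤ P j j := fun k => by
    rw [h1]
    exact Finset.single_le_sum (f := fun k => P k j * P k j) (fun k _ => mul_self_nonneg _)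
      (mem_univ k)
  have h3 : P j j ≤ 1 := by nlinarith [h2 j]
  exact abs_le_one_iff_mul_self_le_one.2 ((h2 i).trans h3)

theorem OP.update (h : OP V P) (b : Fin n → ℝ) :
    OP (V ⊔ span ℝ {b}) (P - (b ⬝ᵥ P *ᵥ b)⁻¹ • vecMulVec (P *ᵥ b) (P *ᵥ b)) := by
  have key : ∀ z, (P - (b ⬝ᵥ P *ᵥ b)⁻¹ • vecMulVec (P *ᵥ b) (P *ᵥ b)) *ᵥ z =
      P *ᵥ z - ((b ⬝ᵥ P *ᵥ b)⁻¹ * (P *ᵥ b ⬝ᵥ z)) • P *ᵥ b := by
    intro z
    rw [sub_mulVec, smul_mulVec, vecMulVec_mulVec, op_smul_eq_smul, smul_smul]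
  refine ⟨?_, fun v hv => ?_, fun z => ?_⟩
  · rw [transpose_sub, transpose_smul, transpose_vecMulVec, h.1]
  · obtain ⟨v₁, hv₁, v₂, hv₂, rfl⟩ := mem_sup.1 hv
    obtain ⟨t, rfl⟩ := mem_span_singleton.1 hv₂
    rw [mulVec_add, mulVec_smul, key, key, dotProduct_comm _ v₁, h.orth hv₁, h.2.1 v₁ hv₁,
      dotProduct_comm _ b]
    by_cases h0 : b ⬝ᵥ P *ᵥ b = 0
    · rw [h.dot_self, dotProduct_self_eq_zero] at h0
      simp [h0]
    · simp [inv_mul_cancel₀ h0]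
  · rw [key, sub_sub_eq_add_sub, add_sub_right_comm]
    refine add_mem (mem_sup_left (h.2.2 z)) (smul_mem _ _ ?_)
    convert sub_mem (mem_sup_right (mem_span_singleton_self b)) (mem_sup_left (h.2.2 b)) using 1
    abel

/-- `Pm / d` is the orthogonal projection with kernel `V`, in lowest terms. -/
def Rep (V : Submodule ℝ (Fin n → ℝ)) (r : Matrix (Fin n) (Fin n) ℤ × ℤ) : Prop :=
  0 < r.2 ∧ OP V ((r.2 : ℝ)⁻¹ • cm r.1) ∧ ∀ D : ℤ, (∀ i j, r.2 ∣ D * r.1 i j) → r.2 ∣ D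

variable {r r' : Matrix (Fin n) (Fin n) ℤ × ℤ}

theorem Rep.dvd (h : Rep V r) {D : ℤ} {N : Matrix (Fin n) (Fin n) ℤ} (hP : OP V P)
    (hN : (D : ℝ) • P = cm N) : r.2 ∣ D := by
  refine h.2.2 D fun i j => ⟨N i j, ?_⟩
  have h1 := congrFun (congrFun hN i) j
  rw [hP.unique h.2.1] at h1
  have h2 : (r.2 : ℝ) ≠ 0 := by exact_mod_cast h.1.ne'
  simp only [Matrix.smul_apply, cm, map_apply, smul_eq_mul] at h1
  have : (D : ℝ) * r.1 i j = r.2 * N i j := by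
    rw [← h1]; field_simp
  exact_mod_cast this

theorem Rep.smul (h : Rep V r) : (r.2 : ℝ) • ((r.2 : ℝ)⁻¹ • cm r.1) = cm r.1 := by
  have h2 : (r.2 : ℝ) ≠ 0 := by exact_mod_cast h.1.ne'
  rw [smul_smul, mul_inv_cancel₀ h2, one_smul]

theorem Rep.unique (h : Rep V r) (h' : Rep V r') : r = r' := by
  have h1 : r.2 = r'.2 := Int.dvd_antisymm h.1.le h'.1.le (h.dvd h'.2.1 h'.smul)
    (h'.dvd h.2.1 h.smul)
  refine Prod.ext ?_ h1
  have h2 := h.smul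
  rw [h.2.1.unique h'.2.1, h1, h'.smul] at h2
  ext i j
  have := congrFun (congrFun h2 i) j
  simp only [cm, map_apply] at this
  exact_mod_cast this.symm

theorem Rep.mem_iff (h : Rep V r) (z : Fin n → ℝ) : z ∈ V ↔ cm r.1 *ᵥ z = 0 := by
  have h2 : (r.2 : ℝ)⁻¹ ≠ 0 := inv_ne_zero (by exact_mod_cast h.1.ne')
  rw [h.2.1.mem_iff, smul_mulVec, smul_eq_zero, or_iff_right h2]

theorem Rep.eq_of_eq (h : Rep V r) (h' : Rep V' r) : V = V' := by
  ext z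
  rw [h.mem_iff, h'.mem_iff]

theorem Rep.symm (h : Rep V r) : r.1ᵀ = r.1 := by
  have h1 := h.2.1.1
  have h2 : (r.2 : ℝ)⁻¹ ≠ 0 := inv_ne_zero (by exact_mod_cast h.1.ne')
  ext i j
  have := congrFun (congrFun h1 i) j
  simp only [transpose_apply, Matrix.smul_apply, cm, map_apply, smul_eq_mul] at this ⊢
  exact_mod_cast mul_left_cancel₀ h2 this

theorem Rep.sub_mem (h : Rep V r) (z : Fin n → ℝ) : (r.2 : ℝ) • z - cm r.1 *ᵥ z ∈ V := by
  have := V.smul_mem (r.2 : ℝ) (h.2.1.2.2 z)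
  rwa [smul_sub, ← smul_mulVec, h.smul] at this

theorem Rep.abs_le (h : Rep V r) (i j : Fin n) : |r.1 i j| ≤ r.2 := by
  have h1 := h.2.1.abs_le i j
  have h2 : (0 : ℝ) < r.2 := by exact_mod_cast h.1
  simp only [Matrix.smul_apply, cm, map_apply, smul_eq_mul, abs_mul, abs_inv, abs_of_pos h2] at h1
  rw [inv_mul_le_iff₀ h2, mul_one] at h1
  exact_mod_cast h1

theorem rep_bot : Rep (⊥ : Submodule ℝ (Fin n → ℝ)) (1, 1) := by
  refine ⟨one_pos, ?_, fun D _ => one_dvd D⟩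
  have : cm (1 : Matrix (Fin n) (Fin n) ℤ) = 1 := Matrix.map_one _ Int.cast_zero Int.cast_one
  simp [OP, this]

/-- The entries and the denominator. -/
def ent (r : Matrix (Fin n) (Fin n) ℤ × ℤ) : Option (Fin n × Fin n) → ℤ
  | none => r.2
  | some ij => r.1 ij.1 ij.2

/-- Division by the common divisor. -/
def normalise (r : Matrix (Fin n) (Fin n) ℤ × ℤ) : Matrix (Fin n) (Fin n) ℤ × ℤ :=
  (Matrix.of fun i j => r.1 i j / univ.gcd (ent r), r.2 / univ.gcd (ent r))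

theorem gcd_ent_pos (h : 0 < r.2) : 0 < univ.gcd (ent r) := by
  have h1 : 0 ≤ univ.gcd (ent r) := by
    rw [← Finset.normalize_gcd]
    exact Int.nonneg_of_normalize_eq_self (normalize_idem _)
  refine lt_of_le_of_ne h1 fun h2 => ?_
  exact h.ne' (Finset.gcd_eq_zero_iff.1 h2.symm none (mem_univ _))

theorem pos_of_mul_pos_right' {a b : ℤ} (h : 0 < a * b) (ha : 0 < a) : 0 < b :=
  (pos_iff_pos_of_mul_pos h).1 ha

theorem rep_normalise (h : 0 < r.2) (hP : OP V ((r.2 : ℝ)⁻¹ • cm r.1)) : Rep V (normalise r) := by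
  have hg := gcd_ent_pos h
  have hd : ∀ o, univ.gcd (ent r) ∣ ent r o := fun o => Finset.gcd_dvd (mem_univ o)
  have h1 : univ.gcd (ent r) * (normalise r).2 = r.2 := Int.mul_ediv_cancel' (hd none)
  have h2 : ∀ i j, univ.gcd (ent r) * (normalise r).1 i j = r.1 i j := fun i j =>
    Int.mul_ediv_cancel' (hd (some (i, j)))
  have h3 : 0 < (normalise r).2 := pos_of_mul_pos_right' (by rw [h1]; exact h) hg
  refine ⟨h3, ?_, fun D hD => ?_⟩
  · convert hP using 1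
    ext i j
    simp only [Matrix.smul_apply, cm, map_apply, smul_eq_mul]
    rw [← h1, ← h2 i j]
    have : ((univ.gcd (ent r) : ℤ) : ℝ) ≠ 0 := by exact_mod_cast hg.ne'
    have : (((normalise r).2 : ℤ) : ℝ) ≠ 0 := by exact_mod_cast h3.ne'
    push_cast
    field_simp
  · have h4 : r.2 ∣ univ.gcd fun o => D * ent r o := by
      refine Finset.dvd_gcd fun o _ => ?_
      rcases o with _ | ⟨i, j⟩
      · exact Dvd.intro_left _ rfl
      · simp only [ent]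
        rw [← h1, ← h2 i j, mul_left_comm]
        exact mul_dvd_mul_left _ (hD i j)
    have h5 := h4.trans (Finset.gcd_mul_left' _ _ D).dvd
    rw [← h1, mul_comm D] at h5
    exact (mul_dvd_mul_iff_left hg.ne').1 h5

/-- Rank one update before normalisation. -/
def upd0 (r : Matrix (Fin n) (Fin n) ℤ × ℤ) (b : Fin n → ℤ) : Matrix (Fin n) (Fin n) ℤ × ℤ :=
  (Matrix.of fun i j => max (b ⬝ᵥ r.1 *ᵥ b) 1 * r.1 i j - (r.1 *ᵥ b) i * (r.1 *ᵥ b) j,
    max (b ⬝ᵥ r.1 *ᵥ b) 1 * r.2)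

/-- Rank one update. -/
def upd (r : Matrix (Fin n) (Fin n) ℤ × ℤ) (b : Fin n → ℤ) : Matrix (Fin n) (Fin n) ℤ × ℤ :=
  normalise (upd0 r b)

theorem upd0_pos (h : 0 < r.2) (b : Fin n → ℤ) : 0 < (upd0 r b).2 :=
  mul_pos (lt_of_lt_of_le one_pos (le_max_right _ _)) h

theorem Rep.upd (h : Rep V r) (b : Fin n → ℤ) : Rep (V ⊔ span ℝ {cv b}) (upd r b) := by
  refine rep_normalise (upd0_pos h.1 b) ?_
  convert h.2.1.update (cv b) using 1
  have h2 : (0 : ℝ) < r.2 := by exact_mod_cast h.1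
  have h3 := h.2.1.dot_self (cv b)
  simp only [smul_mulVec, ← cv_mulVec, dotProduct_smul, smul_dotProduct, ← cv_dot,
    smul_eq_mul] at h3 ⊢
  have h4 : 0 ≤ r.1 *ᵥ b ⬝ᵥ r.1 *ᵥ b := Finset.sum_nonneg fun i _ => mul_self_nonneg _
  have h5 : r.2 * (b ⬝ᵥ r.1 *ᵥ b) = r.1 *ᵥ b ⬝ᵥ r.1 *ᵥ b := by
    have : (r.2 : ℝ) * (b ⬝ᵥ r.1 *ᵥ b : ℤ) = (r.1 *ᵥ b ⬝ᵥ r.1 *ᵥ b : ℤ) := by
      field_simp at h3
      linarith
    exact_mod_cast this
  ext i j
  simp only [upd0, Matrix.smul_apply, cm, map_apply, of_apply, smul_eq_mul, Matrix.sub_apply,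
    vecMulVec_apply, Pi.smul_apply, cv]
  by_cases h0 : b ⬝ᵥ r.1 *ᵥ b = 0
  · rw [h0, mul_zero, eq_comm, dotProduct_self_eq_zero] at h5
    simp [h5]
  · have h6 : 1 ≤ b ⬝ᵥ r.1 *ᵥ b := by
      have : 0 ≤ b ⬝ᵥ r.1 *ᵥ b := nonneg_of_mul_nonneg_right (h5 ▸ h4) h.1 |>.trans' le_rfl
      omega
    rw [max_eq_left h6]
    have : ((b ⬝ᵥ r.1 *ᵥ b : ℤ) : ℝ) ≠ 0 := by exact_mod_cast h0
    push_cast at this ⊢
    field_simp

theorem abs_dot_le {κ : Type} [Fintype κ] {y z : κ → ℝ} {a b : ℝ} (hy : ∀ i, |y i| ≤ a)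
    (hz : ∀ i, |z i| ≤ b) : |y ⬝ᵥ z| ≤ Fintype.card κ * (a * b) := by
  refine (Finset.abs_sum_le_sum_abs _ _).trans ?_
  refine (Finset.sum_le_card_nsmul _ _ (a * b) fun i _ => ?_).trans (by simp)
  rw [abs_mul]
  exact mul_le_mul (hy i) (hz i) (abs_nonneg _) ((abs_nonneg _).trans (hy i))

theorem abs_idot_le {κ : Type} [Fintype κ] {y z : κ → ℤ} {a b : ℤ} (hy : ∀ i, |y i| ≤ a)
    (hz : ∀ i, |z i| ≤ b) : |y ⬝ᵥ z| ≤ Fintype.card κ * (a * b) := by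
  refine (Finset.abs_sum_le_sum_abs _ _).trans ?_
  refine (Finset.sum_le_card_nsmul _ _ (a * b) fun i _ => ?_).trans (by simp)
  rw [abs_mul]
  exact mul_le_mul (hy i) (hz i) (abs_nonneg _) ((abs_nonneg _).trans (hy i))

theorem det_bound {ι : Type} [Fintype ι] [DecidableEq ι] (hn : 1 ≤ n) (hι : Fintype.card ι ≤ n)
    (A : Matrix ι ι ℤ) (hA : ∀ i j, |A i j| ≤ n) : |A.det| ≤ 2 ^ (2 * n ^ 2) := by
  have h1 := Matrix.det_le (A := A) (abv := AbsoluteValue.abs) (x := (n : ℤ)) hA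
  have h2 : (Fintype.card ι).factorial ≤ n ^ n :=
    (Nat.factorial_le hι).trans (Nat.factorial_le_pow n)
  have h3 : n ^ Fintype.card ι ≤ n ^ n := Nat.pow_le_pow_right hn hι
  have h4 : n ^ n ≤ 2 ^ (n ^ 2) := by
    rw [sq, pow_mul]
    exact Nat.pow_le_pow_left Nat.lt_two_pow_self.le n
  have h5 : (Fintype.card ι).factorial * n ^ Fintype.card ι ≤ 2 ^ (2 * n ^ 2) := by
    rw [two_mul, pow_add]
    exact Nat.mul_le_mul (h2.trans h4) (h3.trans h4)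
  refine le_trans h1 ?_
  rw [nsmul_eq_mul]
  exact_mod_cast h5

theorem exists_gram (hn : 1 ≤ n) (S : Set (Fin n → ℤ)) (hS : ∀ b ∈ S, ∀ i, |b i| ≤ 1) :
    ∃ (ι : Type) (_ : Fintype ι) (B : Matrix ι (Fin n) ℤ) (A : Matrix ι ι ℤ) (D : ℤ),
      Fintype.card ι ≤ n ∧ (∀ i, B i ∈ S) ∧ D ≠ 0 ∧ |D| ≤ 2 ^ (2 * n ^ 2) ∧
      (∀ i j, |A i j| ≤ 2 ^ (2 * n ^ 2)) ∧ Aᵀ = A ∧
      ∀ v ∈ span ℝ (cv '' S), (cm B)ᵀ *ᵥ (cm A *ᵥ (cm B *ᵥ v)) = (D : ℝ) • v := by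
  classical
  obtain ⟨T, hTS, -, h1, h2⟩ := exists_linearIndepOn_extension (K := ℝ) (v := cv)
    (linearIndepOn_empty ℝ cv) (Set.empty_subset S)
  have : Finite T := h2.linearIndependent.finite
  let _ : Fintype T := Fintype.ofFinite T
  have hc : Fintype.card T ≤ n := by simpa using h2.linearIndependent.fintype_card_le_finrank
  let B : Matrix T (Fin n) ℤ := Matrix.of fun i => i.1
  have hG : ∀ i j, |(B * Bᵀ) i j| ≤ n := fun i j => by
    have := abs_idot_le (hS _ (hTS i.2)) (hS _ (hTS j.2))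
    simp only [Fintype.card_fin, mul_one] at this
    exact this
  have hcm : ∀ y : T → ℝ, (cm B)ᵀ *ᵥ y = ∑ i, y i • cv i.1 := fun y => by
    ext k
    simp [cm, B, cv, Matrix.mulVec, dotProduct, Finset.sum_apply, mul_comm]
  have hGr : cm (B * Bᵀ) = cm B * (cm B)ᵀ := by
    ext i j
    simp [cm, Matrix.mul_apply]
  refine ⟨T, inferInstance, B, (B * Bᵀ).adjugate, (B * Bᵀ).det, hc, fun i => hTS i.2, ?_,
    det_bound hn hc _ hG, fun i j => ?_, ?_, fun v hv => ?_⟩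
  · intro h0
    obtain ⟨y, hy, h3⟩ := Matrix.exists_mulVec_eq_zero_iff.2 h0
    have h4 : cm B *ᵥ ((cm B)ᵀ *ᵥ cv y) = 0 := by
      rw [mulVec_mulVec, ← hGr, ← cv_mulVec, h3]
      ext i
      simp [cv]
    have h5 : (cm B)ᵀ *ᵥ cv y = 0 := by
      rw [← dotProduct_self_eq_zero, mulVec_transpose, ← dotProduct_mulVec, ← mulVec_transpose, h4,
        dotProduct_zero]
    rw [hcm] at h5
    have h6 := Fintype.linearIndependent_iff.1 h2.linearIndependent _ h5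
    apply hy
    ext i
    have := h6 i
    simp only [cv] at this
    exact_mod_cast this
  · rw [adjugate_apply]
    refine det_bound hn hc _ fun k l => ?_
    rw [updateRow_apply]
    split_ifs
    · rw [Pi.single_apply]
      split_ifs <;> simp [hn]
    · exact hG k l
  · rw [adjugate_transpose, transpose_mul, transpose_transpose]
  · have h3 : v ∈ span ℝ (Set.range fun i : T => cv i.1) := by
      rw [← Set.image_eq_range]
      exact span_le.2 h1 hv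
    obtain ⟨y, rfl⟩ := (mem_span_range_iff_exists_fun ℝ).1 h3
    have h4 : cm (B * Bᵀ).adjugate * cm (B * Bᵀ) = ((B * Bᵀ).det : ℝ) • 1 := by
      have : cm (B * Bᵀ).adjugate * cm (B * Bᵀ) = cm ((B * Bᵀ).adjugate * (B * Bᵀ)) := by
        ext i j
        simp [cm, Matrix.mul_apply]
      rw [this, adjugate_mul]
      ext i j
      simp only [cm, map_apply, Matrix.smul_apply, Matrix.one_apply]
      split_ifs <;> simp
    rw [← hcm, mulVec_mulVec y, ← hGr, mulVec_mulVec y, h4, smul_mulVec, one_mulVec, mulVec_smul]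

theorem Rep.le_pow (hn : 1 ≤ n) {S : Set (Fin n → ℤ)} (hS : ∀ b ∈ S, ∀ i, |b i| ≤ 1)
    (h : Rep (span ℝ (cv '' S)) r) : r.2 ≤ 2 ^ (2 * n ^ 2) := by
  obtain ⟨ι, _, B, A, D, -, hB, hD, hD', -, hA, h1⟩ := exists_gram hn S hS
  have hD0 : (D : ℝ) ≠ 0 := by exact_mod_cast hD
  have hP : OP (span ℝ (cv '' S)) (1 - (D : ℝ)⁻¹ • ((cm B)ᵀ * cm A * cm B)) := by
    refine ⟨?_, fun v hv => ?_, fun z => ?_⟩
    · have : (cm A)ᵀ = cm A := by rw [cm, ← transpose_map, hA]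
      simp [transpose_sub, transpose_mul, this, Matrix.mul_assoc]
    · rw [sub_mulVec, one_mulVec, smul_mulVec, ← mulVec_mulVec, ← mulVec_mulVec, h1 v hv, smul_smul,
        inv_mul_cancel₀ hD0, one_smul, sub_self]
    · rw [sub_mulVec, one_mulVec, sub_sub_cancel, smul_mulVec, ← mulVec_mulVec, ← mulVec_mulVec,
        mulVec_transpose, vecMul_eq_sum]
      exact smul_mem _ _ (sum_mem fun i _ => smul_mem _ _ (subset_span ⟨B i, hB i, rfl⟩))
  have h2 := h.dvd (D := D) (N := D • 1 - Bᵀ * A * B) hP (by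
    rw [smul_sub, smul_smul, mul_inv_cancel₀ hD0, one_smul]
    ext i j
    simp only [cm, map_apply, Matrix.smul_apply, Matrix.one_apply, Matrix.sub_apply,
      Matrix.mul_apply, transpose_apply]
    split_ifs <;> simp)
  exact (Int.le_of_dvd (abs_pos.2 hD) ((dvd_abs _ _).2 h2)).trans hD'

theorem abs_dot_le_of_span (hn : 1 ≤ n) {S : Set (Fin n → ℤ)} (hS : ∀ b ∈ S, ∀ i, |b i| ≤ 1)
    {φ v : Fin n → ℝ} {ρ σ : ℝ} (hρ : 0 ≤ ρ) (hσ : 0 ≤ σ) (hφ : ∀ b ∈ S, |φ ⬝ᵥ cv b| ≤ ρ)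
    (hv : v ∈ span ℝ (cv '' S)) (hv' : ∀ i, |v i| ≤ σ) :
    |φ ⬝ᵥ v| ≤ n ^ 3 * 2 ^ (2 * n ^ 2) * σ * ρ := by
  obtain ⟨ι, _, B, A, D, hι, hB, hD, -, hA, -, h1⟩ := exists_gram hn S hS
  have hι' : (Fintype.card ι : ℝ) ≤ n := by exact_mod_cast hι
  have h2 : ∀ i, |(cm B *ᵥ v) i| ≤ n * σ := fun i => by
    have := abs_dot_le (y := cm B i) (a := 1) (fun k => by
      simp only [cm, map_apply]; exact_mod_cast hS _ (hB i) k) hv'
    simp only [Fintype.card_fin, one_mul] at this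
    exact this
  have h3 : ∀ i, |(cm A *ᵥ (cm B *ᵥ v)) i| ≤ n * (2 ^ (2 * n ^ 2) * (n * σ)) := fun i => by
    have := abs_dot_le (y := cm A i) (a := 2 ^ (2 * n ^ 2)) (fun k => by
      simp only [cm, map_apply]; exact_mod_cast hA i k) h2
    exact this.trans (mul_le_mul_of_nonneg_right hι' (by positivity))
  have h4 : ∀ i, |(cm B *ᵥ φ) i| ≤ ρ := fun i => by
    have := hφ _ (hB i)
    rwa [dotProduct_comm] at this
  have h5 := abs_dot_le h4 h3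
  rw [← vecMul_transpose, ← dotProduct_mulVec, h1 v hv, dotProduct_smul, smul_eq_mul, abs_mul] at h5
  have h6 : (1 : ℝ) ≤ |(D : ℝ)| := by exact_mod_cast Int.one_le_abs hD
  calc |φ ⬝ᵥ v| ≤ |(D : ℝ)| * |φ ⬝ᵥ v| := le_mul_of_one_le_left (abs_nonneg _) h6
    _ ≤ Fintype.card ι * (ρ * (n * (2 ^ (2 * n ^ 2) * (n * σ)))) := h5
    _ ≤ n * (ρ * (n * (2 ^ (2 * n ^ 2) * (n * σ)))) :=
      mul_le_mul_of_nonneg_right hι' (by positivity)
    _ = _ := by ring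

end Pool.Agent.Lib.MP_8a52c3_lc.RN
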