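import Pool.Agent.Lib.MP_8a52c3_lc.RNInt
import Pool.Agent.Lib.MP_8a52c3_lc.RNHnf

/-!
Cost accounting and simulation of the integer subroutines.
-/

namespace Pool.Agent.Lib.MP_8a52c3_lc.RN

open Submodule Finset Matrix

/-- Cost parameters. -/
structure Par where
  /-- word length -/
  L : ℕ
  /-- oracle cost -/
  S : ℕ
  hL : 8 ≤ L
  hS : 1 ≤ S

variable {Ω : Type} {U : Submodule ℝ (Ω → ℝ)} {π : Par}

/-- Computation of cost `L ^ k * S`. -/
def CP (π : Par) (k : ℕ) (U : Submodule ℝ (Ω → ℝ)) (P : Submodule ℝ (Ω → ℝ) → Prop) : Prop :=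
  Comp (π.L ^ k * π.S) U P

variable {P Q : Submodule ℝ (Ω → ℝ) → Prop} {k a : ℕ}

theorem CP.of {c : ℕ} (h : Comp c U P) (hc : c ≤ π.L ^ k) : CP π k U P :=
  h.le (hc.trans (Nat.le_mul_of_pos_right _ π.hS))

theorem CP.pure (h : P U) : CP π k U P := Comp.pure h

theorem CP.imp (h : CP π k U P) (h' : ∀ W, U ≤ W → P W → Q W) : CP π k U Q := Comp.imp h h'

theorem CP.le (h : CP π a U P) (ha : a ≤ k) : CP π k U P :=
  Comp.le h (Nat.mul_le_mul_right _ (Nat.pow_le_pow_right (by have := π.hL; omega) ha))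

theorem CP.bind (h : CP π a U P) (ha : a ≤ k) (h' : ∀ W, U ≤ W → P W → CP π k W Q) :
    CP π (k + 1) U Q := by
  refine (Comp.bind (h.le ha) h').le ?_
  have := π.hL
  rw [pow_succ]
  nlinarith [Nat.zero_le (π.L ^ k * π.S)]

theorem CP.loop (P : ℕ → Submodule ℝ (Ω → ℝ) → Prop) (t : ℕ) (ht : t ≤ π.L) (h0 : P 0 U)
    (h : ∀ i < t, ∀ W, U ≤ W → P i W → CP π k W (P (i + 1))) : CP π (k + 1) U (P t) := by
  refine (Comp.loop P t h0 h).le ?_
  rw [pow_succ', mul_assoc]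
  exact Nat.mul_le_mul_right _ ht

theorem CP.family {J : Type} [Fintype J] {e : ℕ} (hJ : Fintype.card J ≤ π.L ^ e)
    (P : J → Submodule ℝ (Ω → ℝ) → Prop) (hP : ∀ j W W', W ≤ W' → P j W → P j W')
    (h : ∀ j, CP π k U (P j)) : CP π (k + e) U fun W => ∀ j, P j W := by
  refine (Comp.family P hP h).le ?_
  rw [pow_add, mul_comm (π.L ^ k) (π.L ^ e), mul_assoc]
  exact Nat.mul_le_mul_right _ hJ

theorem CP.vals {J : Type} [Fintype J] {e β : ℕ} (hJ : Fintype.card J ≤ π.L ^ e)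
    (f : J → Ω → ℤ) (h : ∀ j, CP π k U fun W => Val W β (f j)) :
    CP π (k + e) U fun W => ∀ j, Val W β (f j) :=
  CP.family hJ _ (fun _ _ _ h h' => h'.mono h) h

variable {β β' : ℕ} {x y d : Ω → ℤ} {N : ℕ}

theorem le_sq (hβ : β + 2 ≤ π.L) {c : ℕ} (hc : c ≤ 8) : (β + 2) * c ≤ π.L ^ 2 := by
  rw [sq]
  exact Nat.mul_le_mul hβ (hc.trans π.hL)

theorem cp_mul (h1 : (fun _ => 1 : Ω → ℝ) ∈ U) (hβ : β + 2 ≤ π.L) (hx : Val U β x)
    (hy : Val U β' y) : CP π 2 U fun W => Val W (β + β') fun w => x w * y w :=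
  CP.of (comp_mul h1 hx hy) (le_sq hβ (by norm_num))

theorem cp_div (h1 : (fun _ => 1 : Ω → ℝ) ∈ U) (hβ : β + 2 ≤ π.L) (hx : Val U β x)
    (hd : Val U β' d) (hd0 : ∀ w, 0 < d w) : CP π 2 U fun W => Val W β fun w => x w / d w :=
  CP.of (comp_div h1 hx hd hd0) (le_sq hβ (by norm_num))

theorem cp_ite (h1 : (fun _ => 1 : Ω → ℝ) ∈ U) (hd : Val U β' d) (hx : Val U β x)
    (hy : Val U β y) : CP π 1 U fun W => Val W β fun w => if d w = 0 then x w else y w :=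
  CP.of (comp_ite h1 hd hx hy) (by have := π.hL; rw [pow_one]; omega)

theorem cp_abs (hx : Val U β x) : CP π 0 U fun W => Val W β fun w => |x w| :=
  CP.of (comp_iabs hx) le_rfl

theorem cp_max_one (h1 : (fun _ => 1 : Ω → ℝ) ∈ U) (hx : Val U β x) :
    CP π 0 U fun W => Val W β fun w => max (x w) 1 :=
  CP.of (comp_max_one h1 hx) le_rfl

theorem cp_emod (h1 : (fun _ => 1 : Ω → ℝ) ∈ U) (hβ : β + 2 ≤ π.L) (hx : Val U β x)
    (hd : Val U β' d) (hd0 : ∀ w, 0 < d w) : CP π 3 U fun W => Val W β' fun w => x w % d w :=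
  (cp_div h1 hβ hx hd hd0).bind le_rfl fun W hW h2 =>
    (cp_mul (hW h1) hβ h2 (hd.mono hW)).imp fun W' hW' h3 =>
      ⟨by
        convert sub_mem' (hW' (hW hx.1)) h3.1 using 2 with w
        beta_reduce
        rw [Int.emod_def]
        push_cast
        ring, fun w => by
        beta_reduce
        rw [abs_of_nonneg (Int.emod_nonneg _ (hd0 w).ne')]
        exact (Int.emod_lt_of_pos _ (hd0 w)).le.trans ((le_abs_self _).trans (hd.2 w))⟩

theorem card_le_one (hN : N + 1 ≤ π.L) : Fintype.card (Fin (N + 1)) ≤ π.L ^ 1 := by simpa using hN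

theorem card_le_two (hN : N + 1 ≤ π.L) : Fintype.card (Fin (N + 1) × Fin (N + 1)) ≤ π.L ^ 2 := by
  rw [Fintype.card_prod, Fintype.card_fin, sq]
  exact Nat.mul_le_mul hN hN

theorem cp_dot (h1 : (fun _ => 1 : Ω → ℝ) ∈ U) (hN : N + 1 ≤ π.L) (hβ : β + 2 ≤ π.L)
    {v z : Ω → Fin (N + 1) → ℤ} (hv : ∀ i, Val U β fun w => v w i)
    (hz : ∀ i, Val U β' fun w => z w i) :
    CP π 3 U fun W => Val W (β + β' + (N + 1)) fun w => v w ⬝ᵥ z w :=
  (CP.vals (card_le_one hN) _ fun i => cp_mul h1 hβ (hv i) (hz i)).imp fun _ _ h => Val.sum h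

theorem cp_mulVec (h1 : (fun _ => 1 : Ω → ℝ) ∈ U) (hN : N + 1 ≤ π.L) (hβ : β + 2 ≤ π.L)
    {A : Ω → Matrix (Fin (N + 1)) (Fin (N + 1)) ℤ} {z : Ω → Fin (N + 1) → ℤ}
    (hA : ∀ i j, Val U β fun w => A w i j) (hz : ∀ i, Val U β' fun w => z w i) :
    CP π 4 U fun W => ∀ i, Val W (β + β' + (N + 1)) fun w => (A w *ᵥ z w) i :=
  CP.vals (card_le_one hN) _ fun i => cp_dot h1 hN hβ (hA i) hz

theorem cp_gcd (h1 : (fun _ => 1 : Ω → ℝ) ∈ U) (hβ : 2 * β + 2 ≤ π.L) (hx : Val U β x)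
    (hy : Val U β y) : CP π 9 U fun W => Val W β fun w => gcd (x w) (y w) := by
  refine (cp_abs hx).bind (by norm_num) fun W₁ hW₁ h2 => ?_
  refine (cp_abs (hy.mono hW₁)).bind (by norm_num) fun W₂ hW₂ h3 => ?_
  have hb := fun w t => eu_iter_box (p := (|x w|, |y w|))
    ⟨⟨abs_nonneg _, hx.2 w⟩, abs_nonneg _, hy.2 w⟩ t
  refine (CP.loop (k := 6) (fun t W => (Val W β fun w => (eu^[t] (|x w|, |y w|)).1) ∧
    Val W β fun w => (eu^[t] (|x w|, |y w|)).2) (2 * β + 1) (by omega) ⟨h2.mono hW₂, h3⟩ ?_).imp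
    fun W _ h => h.1.congr fun w => (eu_eq_gcd (hx.2 w) (hy.2 w)).symm
  intro t _ W hW ⟨h4, h5⟩
  have h1' := hW (hW₂ (hW₁ h1))
  refine (cp_max_one h1' h5).bind (by norm_num) fun W₃ hW₃ h6 => ?_
  refine (cp_emod (hW₃ h1') (by omega) (h4.mono hW₃) h6
    fun w => lt_of_lt_of_le one_pos (le_max_right _ _)).bind (by norm_num) fun W₄ hW₄ h7 => ?_
  have hW' := hW₃.trans hW₄
  refine (cp_ite (hW' h1') (h5.mono hW') (h4.mono hW') (h5.mono hW')).bind (by norm_num)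
    fun W₅ hW₅ h8 => ?_
  refine ((cp_ite (hW₅ (hW' h1')) ((h5.mono hW').mono hW₅) ((h5.mono hW').mono hW₅)
    (h7.mono hW₅)).le (by norm_num)).imp fun W₆ hW₆ h9 => ⟨(h8.mono hW₆).congr fun w => ?_,
      h9.congr fun w => ?_⟩
  · rw [Function.iterate_succ_apply', eu]
    split_ifs <;> rfl
  · rw [Function.iterate_succ_apply', eu]
    split_ifs with h0
    · rfl
    · rw [max_eq_left (by have := (hb w t).2.1; omega)]

theorem cp_gcdAll (h1 : (fun _ => 1 : Ω → ℝ) ∈ U) (hβ : 2 * β + 2 ≤ π.L) {J : Type} [Fintype J]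
    (hJ : Fintype.card J ≤ π.L ^ 3) {f : Ω → J → ℤ} (hf : ∀ j, Val U β fun w => f w j) :
    CP π 12 U fun W => Val W β fun w => univ.gcd (f w) := by
  classical
  have key : ∀ S : Finset J,
      Comp (S.card * (π.L ^ 9 * π.S)) U fun W => Val W β fun w => S.gcd (f w) := by
    intro S
    induction S using Finset.induction_on with
    | empty => exact Comp.pure (Val.const h1 (t := 0) (by simp))
    | insert j S hj ih =>
      rw [Finset.card_insert_of_notMem hj, add_mul, one_mul]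
      refine ih.bind fun W hW h2 => ?_
      simp only [Finset.gcd_insert]
      exact cp_gcd (hW h1) hβ ((hf j).mono hW) h2
  refine (key univ).le ?_
  rw [show 12 = 3 + 9 from rfl, pow_add, mul_assoc]
  exact Nat.mul_le_mul_right _ hJ

/-- An available pair. -/
def PVal (U : Submodule ℝ (Ω → ℝ)) (β : ℕ)
    (r : Ω → Matrix (Fin (N + 1)) (Fin (N + 1)) ℤ × ℤ) : Prop :=
  (∀ i j, Val U β fun w => (r w).1 i j) ∧ Val U β fun w => (r w).2

variable {r : Ω → Matrix (Fin (N + 1)) (Fin (N + 1)) ℤ × ℤ}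

theorem PVal.mono {W : Submodule ℝ (Ω → ℝ)} (h : PVal U β r) (hW : U ≤ W) : PVal W β r :=
  ⟨fun i j => (h.1 i j).mono hW, h.2.mono hW⟩

theorem cp_normalise (h1 : (fun _ => 1 : Ω → ℝ) ∈ U) (hN : N + 1 ≤ π.L) (hβ : 2 * β + 2 ≤ π.L)
    (hr : PVal U β r) (h0 : ∀ w, 0 < (r w).2) :
    CP π 14 U fun W => PVal W β fun w => normalise (r w) := by
  refine (cp_gcdAll h1 hβ (J := Option (Fin (N + 1) × Fin (N + 1))) ?_ (f := fun w => ent (r w))
    ?_).bind (by norm_num) fun W hW h2 => ?_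
  · have h2 := card_le_two hN
    have h3 := π.hL
    rw [Fintype.card_option, pow_succ]
    nlinarith [Nat.one_le_pow 2 π.L (by omega)]
  · rintro (_ | ⟨i, j⟩)
    · exact hr.2
    · exact hr.1 i j
  refine (cp_div (hW h1) (by omega) (hr.2.mono hW) h2 fun w => gcd_ent_pos (h0 w)).bind
    (by norm_num) fun W₁ hW₁ h3 => ?_
  refine ((CP.vals (card_le_two hN) _ fun ij : Fin (N + 1) × Fin (N + 1) =>
    cp_div (hW₁ (hW h1)) (by omega) (((hr.1 ij.1 ij.2).mono hW).mono hW₁) (h2.mono hW₁)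
      fun w => gcd_ent_pos (h0 w)).le (by norm_num)).imp fun W₂ hW₂ h4 =>
    ⟨fun i j => h4 (i, j), h3.mono hW₂⟩

theorem cp_upd (h1 : (fun _ => 1 : Ω → ℝ) ∈ U) (hβ : 4 * β + 4 * (N + 1) + 4 ≤ π.L)
    (hr : PVal U β r) (h0 : ∀ w, 0 < (r w).2) {b : Ω → Fin (N + 1) → ℤ}
    (hb : ∀ i, Val U 0 fun w => b w i) :
    CP π 20 U fun W => PVal W (2 * β + 2 * (N + 1) + 1) fun w => upd (r w) (b w) := by
  have hN : N + 1 ≤ π.L := by omega
  refine (cp_mulVec h1 hN (by omega) hr.1 hb).bind (by norm_num) fun W₁ hW₁ h2 => ?_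
  refine (cp_dot (hW₁ h1) hN (by omega) (fun i => (hb i).mono hW₁) h2).bind (by norm_num)
    fun W₂ hW₂ h3 => ?_
  have hW := hW₁.trans hW₂
  refine (cp_max_one (hW h1) h3).bind (by norm_num) fun W₃ hW₃ h4 => ?_
  have hW' := hW.trans hW₃
  refine (cp_mul (hW' h1) (by omega) h4 (hr.2.mono hW')).bind (by norm_num) fun W₄ hW₄ h5 => ?_
  refine (CP.vals (card_le_two hN) _ fun ij : Fin (N + 1) × Fin (N + 1) =>
    cp_mul (hW₄ (hW' h1)) (by omega) (h4.mono hW₄) ((hr.1 ij.1 ij.2).mono (hW'.trans hW₄))).bind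
    (by norm_num) fun W₅ hW₅ h6 => ?_
  have hW'' := hW₂.trans (hW₃.trans (hW₄.trans hW₅))
  refine (CP.vals (card_le_two hN) _ fun ij : Fin (N + 1) × Fin (N + 1) =>
    cp_mul (hW'' (hW₁ h1)) (by omega) ((h2 ij.1).mono hW'') ((h2 ij.2).mono hW'')).bind
    (by norm_num) fun W₆ hW₆ h7 => ?_
  exact cp_normalise (hW₆ (hW'' (hW₁ h1))) hN (by omega) (r := fun w => upd0 (r w) (b w))
    ⟨fun i j => (((h6 (i, j)).mono hW₆).le (by omega)).sub ((h7 (i, j)).le (by omega)),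
      (h5.mono (hW₅.trans hW₆)).le (by omega)⟩ fun w => upd0_pos (h0 w) _

variable {ℓ : ℕ}

theorem box_val {v : Ω → Fin (N + 1) → ℤ} (hd : Val U ℓ d) (hv : ∀ w, Box (d w) (v w))
    (w : Ω) (l : Fin (N + 1)) : |v w l| ≤ 2 ^ ℓ := by
  rw [abs_of_nonneg (hv w l).1]
  exact (hv w l).2.trans ((le_abs_self _).trans (hd.2 w))

theorem cp_veu (h1 : (fun _ => 1 : Ω → ℝ) ∈ U) (hN : N + 1 ≤ π.L) (hℓ : 2 * ℓ + 3 ≤ π.L)
    (hd : Val U ℓ d) (hd0 : ∀ w, 0 < d w) (i : Fin (N + 1))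
    {p : Ω → (Fin (N + 1) → ℤ) × (Fin (N + 1) → ℤ)} (hp : ∀ w, PairOk (d w) i (p w))
    (hp1 : ∀ l, Val U ℓ fun w => (p w).1 l) (hp2 : ∀ l, Val U ℓ fun w => (p w).2 l) :
    CP π 10 U fun W => (∀ l, Val W ℓ fun w => ((veu (d w) i)^[2 * ℓ + 1] (p w)).1 l) ∧
      ∀ l, Val W ℓ fun w => ((veu (d w) i)^[2 * ℓ + 1] (p w)).2 l := by
  refine CP.loop (k := 9) (fun t W => (∀ l, Val W ℓ fun w => ((veu (d w) i)^[t] (p w)).1 l) ∧
      ∀ l, Val W ℓ fun w => ((veu (d w) i)^[t] (p w)).2 l) _ (by omega) ⟨hp1, hp2⟩ ?_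
  intro t _ W hW ⟨h4, h5⟩
  have h1' := hW h1
  refine (cp_max_one h1' (h5 i)).bind (by norm_num) fun W₁ hW₁ h6 => ?_
  refine (cp_div (hW₁ h1') (by omega) ((h4 i).mono hW₁) h6
    fun w => lt_of_lt_of_le one_pos (le_max_right _ _)).bind (by norm_num) fun W₂ hW₂ h7 => ?_
  have hW' := hW₁.trans hW₂
  refine (CP.vals (card_le_one hN) _ fun l =>
    cp_mul (hW' h1') (by omega) h7 ((h5 l).mono hW')).bind (by norm_num) fun W₃ hW₃ h8 => ?_
  have hW'' := hW'.trans hW₃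
  refine (CP.vals (card_le_one hN) _ fun l => cp_emod (hW'' h1') (by omega)
    ((((h4 l).mono hW'').le (Nat.le_add_right ℓ ℓ)).sub (h8 l)) (hd.mono (hW.trans hW'')) hd0).bind
    (by norm_num) fun W₄ hW₄ h9 => ?_
  have hV := hW''.trans hW₄
  refine (CP.vals (card_le_one hN) _ fun l => cp_ite (hV h1') ((h5 i).mono hV) ((h4 l).mono hV)
    ((h5 l).mono hV)).bind (by norm_num) fun W₅ hW₅ h10 => ?_
  have hV' := hV.trans hW₅
  refine ((CP.vals (card_le_one hN) _ fun l => cp_ite (hV' h1') ((h5 i).mono hV')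
    ((h5 l).mono hV') ((h9 l).mono hW₅)).le (by norm_num)).imp fun W₆ hW₆ h11 =>
    ⟨fun l => ((h10 l).mono hW₆).congr fun w => ?_, fun l => (h11 l).congr fun w => ?_⟩
  · rw [Function.iterate_succ_apply', veu]
    split_ifs <;> rfl
  · rw [Function.iterate_succ_apply', veu]
    split_ifs with h0
    · rfl
    · rw [max_eq_left (by have := (((hp w).iter (hd0 w) t).2.1 i).1; omega)]

theorem cp_hnf (h1 : (fun _ => 1 : Ω → ℝ) ∈ U) (hN : N + 1 ≤ π.L) (hℓ : 2 * ℓ + 3 ≤ π.L)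
    (hβ : β + 2 ≤ π.L) (hd : Val U ℓ d) (hd0 : ∀ w, 0 < d w)
    {Q : Ω → Matrix (Fin (N + 1)) (Fin (N + 1)) ℤ} (hQ : ∀ i j, Val U β fun w => Q w i j) :
    CP π 13 U fun W => ∀ l i, Val W ℓ fun w => hnf (2 * ℓ + 1) (d w) (Q w) l i := by
  have hdl : ∀ w, d w ≤ 2 ^ ℓ := fun w => (le_abs_self _).trans (hd.2 w)
  refine (CP.vals (card_le_two hN) _ fun ij : Fin (N + 1) × Fin (N + 1) =>
    cp_emod h1 hβ (hQ ij.1 ij.2) hd hd0).bind (by norm_num) fun W₀ hW₀ h2 => ?_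
  refine (CP.loop (k := 11) (fun i W =>
    (∀ j l, Val W ℓ fun w => pool (2 * ℓ + 1) (d w) (Q w) i j l) ∧
    ∀ i' : Fin (N + 1), (i' : ℕ) < i → ∀ l, Val W ℓ fun w => hnf (2 * ℓ + 1) (d w) (Q w) l i')
    (N + 1) hN ⟨fun j l => h2 (l, j), fun i' hi' => by omega⟩ ?_).imp
    fun W _ h l i => h.2 i i.2 l
  intro i hi W hW ⟨h3, h4⟩
  have hW' := hW₀.trans hW
  have hok : ∀ w j k, PairOk (d w) (ix N i) (run (2 * ℓ + 1) (d w) (ix N i)
      (pool (2 * ℓ + 1) (d w) (Q w) i) j, pool (2 * ℓ + 1) (d w) (Q w) i k) := fun w j k => by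
    have := run_ok (T := 2 * ℓ + 1) (hd0 w) (pool_ok' (Q := Q w) (hd0 w) (hdl w) (ix N i)) j k
    rwa [ix_val hi] at this
  refine (CP.loop (k := 10) (fun j W' =>
    (∀ l, Val W' ℓ fun w => run (2 * ℓ + 1) (d w) (ix N i) (pool (2 * ℓ + 1) (d w) (Q w) i) j l) ∧
    ∀ j' : Fin (N + 1), (j' : ℕ) < j → ∀ l,
      Val W' ℓ fun w => pool (2 * ℓ + 1) (d w) (Q w) (i + 1) j' l)
    (N + 1) hN ⟨fun l => ?_, fun j' hj' => by omega⟩ ?_).imp
    fun W' hW'' h => ⟨fun j l => h.2 j j.2 l, fun i' hi' l => ?_⟩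
  · by_cases hl : l = ix N i
    · exact (hd.mono hW').congr fun w => by simp [run, hl]
    · exact (Val.const (hW' h1) (t := 0) (by simp)).congr fun w => by simp [run, hl]
  · intro j hj W' hW'' ⟨h5, h6⟩
    refine (cp_veu (hW'' (hW' h1)) hN hℓ (hd.mono (hW'.trans hW'')) hd0 (ix N i)
      (fun w => hok w j (ix N j)) h5 fun l => (h3 _ l).mono hW'').imp
      fun W₁ hW₁ h7 => ⟨h7.1, fun j' hj' l => ?_⟩
    rcases Nat.lt_succ_iff_lt_or_eq.1 hj' with h | h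
    · exact (h6 j' h l).mono hW₁
    · obtain rfl : j' = ix N j := by ext; rw [ix_val hj, h]
      refine (h7.2 l).congr fun w => ?_
      simp only [pool, ix_val hj]
  · rcases Nat.lt_succ_iff_lt_or_eq.1 hi' with h' | h'
    · exact (h4 i' h' l).mono hW''
    · obtain rfl : i' = ix N i := by ext; rw [ix_val hi, h']
      refine (h.1 l).congr fun w => ?_
      simp only [hnf, of_apply, ix_val hi]

theorem cp_solve (h1 : (fun _ => 1 : Ω → ℝ) ∈ U) (hN : N + 1 ≤ π.L)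
    (hβ : β + (N + 1) * (ℓ + 1) + 2 ≤ π.L) {H Q : Ω → Matrix (Fin (N + 1)) (Fin (N + 1)) ℤ}
    (hH : ∀ i j, Val U ℓ fun w => H w i j) (hH0 : ∀ w i, 0 < H w i i)
    (hQ : ∀ i j, Val U β fun w => Q w i j) :
    CP π 6 U fun W => ∀ i j, Val W (β + N * (ℓ + 1)) fun w => solve (H w) (Q w) i j := by
  refine (CP.loop (k := 5) (fun i W =>
    (∀ l j, Val W (β + i * (ℓ + 1)) fun w => res (H w) (Q w) i l j) ∧
    ∀ i' : Fin (N + 1), (i' : ℕ) < i → ∀ j,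
      Val W (β + N * (ℓ + 1)) fun w => solve (H w) (Q w) i' j)
    (N + 1) hN ⟨fun l j => (hQ l j).le (by omega), fun i' hi' => by omega⟩ ?_).imp
    fun W _ h i j => h.2 i i.2 j
  intro i hi W hW ⟨h3, h4⟩
  have hi' : i * (ℓ + 1) ≤ N * (ℓ + 1) := Nat.mul_le_mul_right _ (by omega)
  have hi'' : (N + 1) * (ℓ + 1) = N * (ℓ + 1) + (ℓ + 1) := by ring
  refine (CP.vals (card_le_one hN) _ fun j => cp_div (hW h1) (by omega) (h3 (ix N i) j)
    ((hH (ix N i) (ix N i)).mono hW) fun w => hH0 w _).bind (by norm_num) fun W₁ hW₁ h5 => ?_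
  refine (CP.vals (card_le_two hN) _ fun lj : Fin (N + 1) × Fin (N + 1) =>
    cp_mul (hW₁ (hW h1)) (by omega) ((hH lj.1 (ix N i)).mono (hW.trans hW₁)) (h5 lj.2)).imp
    fun W₂ hW₂ h6 => ⟨fun l j => ?_, fun i' hi' j => ?_⟩
  · exact ((((h3 l j).mono (hW₁.trans hW₂)).le (Nat.le_add_left _ ℓ)).sub (h6 (l, j))).le
      (le_of_eq (by ring))
  · rcases Nat.lt_succ_iff_lt_or_eq.1 hi' with h' | h'
    · exact (h4 i' h' j).mono (hW₁.trans hW₂)
    · obtain rfl : i' = ix N i := by ext; rw [ix_val hi, h']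
      refine (((h5 j).mono hW₂).le (by omega)).congr fun w => ?_
      simp only [solve, of_apply, ix_val hi]

end Pool.Agent.Lib.MP_8a52c3_lc.RN
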