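import Pool.Agent.Lib.MP_8a52c3_lc.RNExplore

/-!
One stage of the multi-scale optimisation procedure and its correctness.
-/

namespace Pool.Agent.Lib.MP_8a52c3_lc.RN

open Submodule Finset Matrix

variable {N : ℕ}

/-- Rounding precision. -/
def pK (N : ℕ) : ℤ := pA N ^ (3 * N + 10)

/-- Lexicographic weight. -/
def pZ (N : ℕ) : ℤ := pA N ^ (3 * N + 14)

/-- Scaled projection onto the subspace. -/
def Qm (r : RP N) : Matrix (Fin (N + 1)) (Fin (N + 1)) ℤ :=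
  Matrix.of fun i j => (if i = j then r.2 else 0) - r.1 i j

/-- Triangular basis attached to a pair. -/
def Hm (r : RP N) : Matrix (Fin (N + 1)) (Fin (N + 1)) ℤ := hnf (2 * pl N + 1) r.2 (Qm r)

/-- Lattice generators attached to a pair. -/
def Sm (r : RP N) : Matrix (Fin (N + 1)) (Fin (N + 1)) ℤ := solve (Hm r) (Qm r)

variable {V : Submodule ℝ (Fin (N + 1) → ℝ)} {r : RP N}

theorem Qm_eq (r : RP N) : Qm r = r.2 • 1 - r.1 := by
  ext i j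
  simp only [Qm, of_apply, Matrix.sub_apply, Matrix.smul_apply, Matrix.one_apply]
  split_ifs <;> simp

theorem Qm_bound (h : Rep V r) (hd : r.2 ≤ 2 ^ pl N) (i j : Fin (N + 1)) :
    |Qm r i j| ≤ 2 ^ (pl N + 1) := by
  have h1 := h.abs_le i j
  have h2 := h.1
  simp only [Qm, of_apply]
  refine (abs_sub _ _).trans ?_
  split_ifs
  · rw [abs_of_pos h2, pow_succ]; linarith
  · rw [abs_zero, pow_succ]; linarith

theorem Hm_bound (h : 0 < r.2) (hd : r.2 ≤ 2 ^ pl N) (i j : Fin (N + 1)) :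
    |Hm r i j| ≤ 2 ^ pl N := by
  have := hnf_box (Q := Qm r) h hd i j
  rw [Hm, abs_of_nonneg this.1]
  exact this.2.trans hd

theorem Sm_bound (h : Rep V r) (hd : r.2 ≤ 2 ^ pl N) (i j : Fin (N + 1)) : |Sm r i j| ≤ pA N :=
  (solve_bound (Hm_bound h.1 hd) (Qm_bound h hd) i j).trans (pow_le_pow_right₀ one_le_two pa_solve)

theorem Qm_symm (h : Rep V r) : (Qm r)ᵀ = Qm r := by
  rw [Qm_eq, transpose_sub, transpose_smul, transpose_one, h.symm]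

theorem cm_Qm_mulVec (r : RP N) (z : Fin (N + 1) → ℝ) :
    cm (Qm r) *ᵥ z = (r.2 : ℝ) • z - cm r.1 *ᵥ z := by
  have : cm (Qm r) = (r.2 : ℝ) • 1 - cm r.1 := by
    ext i j
    simp only [cm, Qm, map_apply, of_apply, Matrix.sub_apply, Matrix.smul_apply, Matrix.one_apply]
    split_ifs <;> simp
  rw [this, sub_mulVec, smul_mulVec, one_mulVec]

theorem Sm_mem (h : Rep V r) (hd : r.2 ≤ 2 ^ pl N) (i : Fin (N + 1)) : cv (Sm r i) ∈ V := by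
  refine solve_row_mem (fun _ _ => hnf_tri h.1 hd) (hnf_pos h.1 hd) (col_mem_tail h.1 hd)
    (fun l => ?_) i
  convert h.sub_mem (Pi.single l 1) using 1
  rw [← cm_Qm_mulVec]
  ext j
  have := congrFun (congrFun (Qm_symm h) j) l
  rw [transpose_apply] at this
  simp [cv, cm, this]

theorem Qm_mulVec (h : Rep V r) {v : Fin (N + 1) → ℤ} (hv : cv v ∈ V) : Qm r *ᵥ v = r.2 • v := by
  apply cv_inj
  rw [cv_mulVec, cm_Qm_mulVec, (h.mem_iff _).1 hv, sub_zero, cv_smul]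

theorem Hm_dvd (h : Rep V r) {v : Fin (N + 1) → ℤ} (hv : cv v ∈ V) (j : Fin (N + 1)) :
    r.2 ∣ ((Hm r)ᵀ *ᵥ v) j := by
  let M : Submodule ℤ (Fin (N + 1) → ℤ) :=
    { carrier := {z | r.2 ∣ z ⬝ᵥ v}
      add_mem' := fun h1 h2 => by
        simp only [Set.mem_ofPred_eq, add_dotProduct] at *
        exact dvd_add h1 h2
      zero_mem' := by simp
      smul_mem' := fun c z h1 => by
        simp only [Set.mem_ofPred_eq, smul_dotProduct, smul_eq_mul] at *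
        exact h1.mul_left c }
  refine hnf_mem (M := M) (fun l => ?_) (fun l => ?_) j
  · change r.2 ∣ _
    simp
  · change r.2 ∣ ((Qm r)ᵀ *ᵥ v) l
    rw [Qm_symm h, Qm_mulVec h hv]
    simp

theorem cm_mul {ι : Type} [Fintype ι] (A B : Matrix ι ι ℤ) : cm (A * B) = cm A * cm B := by
  ext i j
  simp [cm, Matrix.mul_apply]

theorem Hm_eval (h : Rep V r) (hd : r.2 ≤ 2 ^ pl N) {v : Fin (N + 1) → ℤ} (hv : cv v ∈ V)
    (w : Fin (N + 1) → ℝ) : r.2 * (w ⬝ᵥ cv v) = cv ((Hm r)ᵀ *ᵥ v) ⬝ᵥ cm (Sm r) *ᵥ w := by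
  have h1 : Hm r * Sm r = Qm r :=
    mul_solve (fun _ _ => hnf_tri h.1 hd) (hnf_pos h.1 hd) (col_mem_tail h.1 hd)
  have h2 : cm (Hm r)ᵀ = (cm (Hm r))ᵀ := rfl
  have h3 : (cm (Qm r))ᵀ = cm (Qm r) := by rw [cm, ← transpose_map, Qm_symm h]
  rw [cv_mulVec, h2, mulVec_transpose, ← dotProduct_mulVec, mulVec_mulVec, ← cm_mul, h1,
    symm_dot h3, ← cv_mulVec, Qm_mulVec h hv, cv_smul, smul_dotProduct, dotProduct_comm,
    smul_eq_mul]

/-- Integer part of the state. -/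
structure St (N : ℕ) where
  /-- objective selecting the current face -/
  p : Fin (N + 1) → ℤ
  /-- current solution -/
  x : Fin (N + 1) → ℤ
  /-- coordinates on the lattice -/
  H : Matrix (Fin (N + 1)) (Fin (N + 1)) ℤ
  /-- denominator -/
  d : ℤ

variable (O : (Fin (N + 1) → ℤ) → Fin (N + 1) → ℤ) (σ : St N) (u : Fin (N + 1) → ℤ)

/-- Base objective. -/
def cz : Fin (N + 1) → ℤ := pZ N • σ.p + σ.H *ᵥ u

/-- The selected pair. -/
def rp : RP N := sel O (cz σ u) (N + 2)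

/-- The next state. -/
def nxt : St N :=
  ⟨pZ N • σ.p + (rp O σ u).1 *ᵥ (σ.H *ᵥ u), O (cz σ u), Hm (rp O σ u), (rp O σ u).2⟩

/-- The transition matrix for the real part of the state. -/
def Tm : Matrix (Fin (N + 1)) (Fin (N + 1)) ℤ :=
  Matrix.of fun i j => (σ.Hᵀ *ᵥ Sm (rp O σ u) i) j / σ.d

/-- The coefficients of the gain. -/
def lam : Fin (N + 1) → ℤ := fun j => (σ.Hᵀ *ᵥ (O (cz σ u) - σ.x)) j / σ.d

/-- The span of the differences of nearly optimal solutions. -/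
def nearSpan (F : Set (Fin (N + 1) → ℤ)) (w : Fin (N + 1) → ℝ) (m ε : ℝ) :
    Submodule ℝ (Fin (N + 1) → ℝ) :=
  span ℝ {v | ∃ y ∈ F, ∃ z ∈ F, m - ε ≤ w ⬝ᵥ cv y ∧ m - ε ≤ w ⬝ᵥ cv z ∧ v = cv (y - z)}

/-- Size bounds for the state. -/
def St.Bd (σ : St N) (s : ℕ) : Prop :=
  0 < σ.d ∧ σ.d ≤ 2 ^ pl N ∧ (∀ i j, |σ.H i j| ≤ 2 ^ pl N) ∧ (∀ i, σ.x i = 0 ∨ σ.x i = 1) ∧
    ∀ i, |σ.p i| ≤ (2 * pZ N) ^ s

/-- The invariant. -/
structure Inv (F : Set (Fin (N + 1) → ℤ)) (w : Fin (N + 1) → ℝ) (m : ℝ) (s : ℕ)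
    (V : Submodule ℝ (Fin (N + 1) → ℝ)) (σ : St N) (ω : Fin (N + 1) → ℝ) : Prop where
  bd : σ.Bd s
  mem : σ.x ∈ F
  face : ∀ y ∈ F, σ.p ⬝ᵥ y ≤ σ.p ⬝ᵥ σ.x ∧ (σ.p ⬝ᵥ y = σ.p ⬝ᵥ σ.x ↔ cv (y - σ.x) ∈ V)
  lat : ∀ v, cv v ∈ V → (∀ j, σ.d ∣ (σ.Hᵀ *ᵥ v) j) ∧ σ.d * (w ⬝ᵥ cv v) = cv (σ.Hᵀ *ᵥ v) ⬝ᵥ ω
  gen : ∀ i, ∃ v, cv v ∈ V ∧ (∀ j, |v j| ≤ pA N) ∧ ω i = w ⬝ᵥ cv v
  near : V = ⊤ ∨ ∃ ε, 0 ≤ ε ∧ V = nearSpan F w m ε ∧ m - ε ≤ w ⬝ᵥ cv σ.x

variable {O σ u} {F : Set (Fin (N + 1) → ℤ)} {w ω : Fin (N + 1) → ℝ} {m : ℝ} {s : ℕ}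

theorem Inv.eval (h : Inv F w m s V σ ω) {v : Fin (N + 1) → ℤ} (hv : cv v ∈ V) :
    w ⬝ᵥ cv v = cv (fun j => (σ.Hᵀ *ᵥ v) j / σ.d) ⬝ᵥ ω := by
  obtain ⟨h1, h2⟩ := h.lat v hv
  have h3 : σ.Hᵀ *ᵥ v = σ.d • fun j => (σ.Hᵀ *ᵥ v) j / σ.d := by
    ext j
    exact (Int.mul_ediv_cancel' (h1 j)).symm
  rw [h3, cv_smul, smul_dotProduct, smul_eq_mul] at h2
  exact mul_left_cancel₀ (by exact_mod_cast h.bd.1.ne') h2

theorem Inv.opt_mem (h : Inv F w m s V σ ω) {y : Fin (N + 1) → ℤ} (hy : y ∈ F)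
    (hm : w ⬝ᵥ cv y = m) : cv (y - σ.x) ∈ V := by
  rcases h.near with h1 | ⟨ε, h1, h2, h3⟩
  · rw [h1]; trivial
  · rw [h2]
    exact subset_span ⟨y, hy, _, h.mem, by linarith, h3, rfl⟩

theorem nA_le : ((N + 1 : ℕ) : ℤ) * ((N + 1 : ℕ) * 2 ^ pl N) * 2 ≤ pA N := by
  have h := pA_gram (N := N)
  have hn : (1 : ℤ) ≤ (N + 1 : ℕ) := by exact_mod_cast Nat.succ_pos N
  have h2 : ((N + 1 : ℕ) : ℤ) ^ 2 ≤ ((N + 1 : ℕ) : ℤ) ^ 4 := pow_le_pow_right₀ hn (by norm_num)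
  have h3 : (0 : ℤ) < 2 ^ pl N := by positivity
  nlinarith

theorem nD_le : ((N + 1 : ℕ) : ℤ) * 2 ^ pl N * 2 ≤ pA N := by
  have h := nA_le (N := N)
  have hn : (1 : ℤ) ≤ (N + 1 : ℕ) := by exact_mod_cast Nat.succ_pos N
  have h3 : (0 : ℤ) < (N + 1 : ℕ) * 2 ^ pl N := by positivity
  nlinarith

theorem n_le_A : ((N + 1 : ℕ) : ℤ) ≤ pA N := by
  have h := nD_le (N := N)
  have hn : (0 : ℤ) ≤ (N + 1 : ℕ) := by positivity
  have h3 : (1 : ℤ) ≤ 2 ^ pl N := one_le_pow₀ one_le_two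
  nlinarith

theorem q_bound (hσ : σ.Bd s) (hu : ∀ i, |u i| ≤ 2 * pK N) (i : Fin (N + 1)) :
    |(σ.H *ᵥ u) i| ≤ pA N ^ (3 * N + 11) := by
  have h1 := abs_idot_le (y := σ.H i) (hσ.2.2.1 i) hu
  have h2 := nD_le (N := N)
  have h3 : 0 < pK N := pow_pos (by linarith [pA_ge (N := N)]) _
  rw [Fintype.card_fin] at h1
  rw [pow_succ', ← pK]
  exact h1.trans (by nlinarith)

theorem nxt_bd (hO : ∀ c i, O c i = 0 ∨ O c i = 1) (hσ : σ.Bd s) (hu : ∀ i, |u i| ≤ 2 * pK N) :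
    (nxt O σ u).Bd (s + 1) := by
  obtain ⟨S, hS, h⟩ := sel_rep (c₀ := cz σ u) hO (N + 2)
  have hd := h.le_pl hS
  refine ⟨h.1, hd, Hm_bound h.1 hd, hO _, fun i => ?_⟩
  have hA := pA_ge (N := N)
  have h1 := abs_idot_le (y := (rp O σ u).1 i) (fun j => (h.abs_le i j).trans hd) (q_bound hσ hu)
  rw [Fintype.card_fin] at h1
  have h2 := nD_le (N := N)
  have h3 : 0 < pA N ^ (3 * N + 11) := by positivity
  have h4 : pA N * pA N ^ (3 * N + 11) ≤ pZ N := by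
    rw [← pow_succ']; exact pow_le_pow_right₀ (by linarith) (by omega)
  have h5 : 0 < pZ N := pow_pos (by linarith) _
  have h6 : 1 ≤ (2 * pZ N) ^ s := one_le_pow₀ (by linarith)
  have h7 := mul_le_mul_of_nonneg_left (hσ.2.2.2.2 i) h5.le
  simp only [nxt, Pi.add_apply, Pi.smul_apply, smul_eq_mul]
  refine (abs_add_le _ _).trans ?_
  rw [abs_mul, abs_of_pos h5, pow_succ]
  have h8 : |((rp O σ u).1 *ᵥ (σ.H *ᵥ u)) i| ≤ pZ N := h1.trans (by nlinarith)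
  nlinarith

theorem cz_bound (hσ : σ.Bd s) (hs : s ≤ N) (hu : ∀ i, |u i| ≤ 2 * pK N) {e : Fin (N + 1) → ℤ}
    (he : ∀ i, |e i| ≤ pA N ^ (3 * N + 7)) (i : Fin (N + 1)) :
    |(cz σ u + e) i| ≤ (2 * pZ N) ^ (N + 1) := by
  have hA := pA_ge (N := N)
  have h5 : 0 < pZ N := pow_pos (by linarith) _
  have h1 : (2 * pZ N) ^ s ≤ (2 * pZ N) ^ N := pow_le_pow_right₀ (by linarith) hs
  have h6 : 1 ≤ (2 * pZ N) ^ N := one_le_pow₀ (by linarith)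
  have h7 := mul_le_mul_of_nonneg_left ((hσ.2.2.2.2 i).trans h1) h5.le
  have h2 : pA N ^ (3 * N + 7) ≤ pA N ^ (3 * N + 11) := pow_le_pow_right₀ (by linarith) (by omega)
  have h3 : 0 < pA N ^ (3 * N + 11) := by positivity
  have h4 : pA N * pA N ^ (3 * N + 11) ≤ pZ N := by
    rw [← pow_succ']; exact pow_le_pow_right₀ (by linarith) (by omega)
  have h8 := q_bound hσ hu i
  simp only [cz, Pi.add_apply, Pi.smul_apply, smul_eq_mul]
  refine (abs_add_le _ _).trans ((add_le_add_left (abs_add_le _ _) _).trans ?_)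
  rw [abs_mul, abs_of_pos h5, pow_succ]
  nlinarith [he i]

theorem Inv.approx (h : Inv F w m s V σ ω) {M : ℝ} (hM : 0 ≤ M)
    (hu : ∀ i, |u i * M - pK N * ω i| ≤ M) {v : Fin (N + 1) → ℤ} (hv : cv v ∈ V)
    (hv' : ∀ i, |v i| ≤ 1) :
    |((σ.H *ᵥ u ⬝ᵥ v : ℤ) : ℝ) * M - σ.d * pK N * (w ⬝ᵥ cv v)| ≤ pA N * M := by
  have h1 : ((σ.H *ᵥ u ⬝ᵥ v : ℤ) : ℝ) * M - σ.d * pK N * (w ⬝ᵥ cv v) =
      cv (σ.Hᵀ *ᵥ v) ⬝ᵥ fun i => u i * M - pK N * ω i := by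
    rw [mul_right_comm, (h.lat v hv).2, dotProduct_comm, dotProduct_mulVec, ← mulVec_transpose,
      cv_dot]
    simp only [dotProduct, cv, Finset.sum_mul, ← Finset.sum_sub_distrib]
    exact Finset.sum_congr rfl fun i _ => by ring
  have h2 : ∀ j, |cv (σ.Hᵀ *ᵥ v) j| ≤ (((N + 1 : ℕ) * 2 ^ pl N : ℤ) : ℝ) := fun j => by
    have := abs_idot_le (y := σ.Hᵀ j) (fun i => h.bd.2.2.1 i j) hv'
    rw [Fintype.card_fin, mul_one] at this
    simp only [cv]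
    exact_mod_cast this
  have h3 := abs_dot_le h2 hu
  have h4 : ((((N + 1 : ℕ) : ℤ) * ((N + 1 : ℕ) * 2 ^ pl N) * 2 : ℤ) : ℝ) ≤ pA N := by
    exact_mod_cast nA_le
  rw [h1]
  refine h3.trans ?_
  rw [Fintype.card_fin, ← mul_assoc]
  refine mul_le_mul_of_nonneg_right ?_ hM
  push_cast at h4 ⊢
  have : (0 : ℝ) ≤ (N + 1) * ((N + 1) * 2 ^ pl N) := by positivity
  linarith

theorem Inv.step (hF : ∀ x ∈ F, ∀ i, x i = 0 ∨ x i = 1) (hO : ∀ c i, O c i = 0 ∨ O c i = 1)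
    (hO' : ∀ c : Fin (N + 1) → ℤ, (∀ i, |c i| ≤ (2 * pZ N) ^ (N + 1)) →
      O c ∈ F ∧ ∀ y ∈ F, c ⬝ᵥ y ≤ c ⬝ᵥ O c)
    (hm : ∀ y ∈ F, w ⬝ᵥ cv y ≤ m) (hm' : ∃ y ∈ F, w ⬝ᵥ cv y = m)
    (h : Inv F w m s V σ ω) (hs : s ≤ N) (hM : 0 < ‖ω‖) (hu' : ∀ i, |u i| ≤ 2 * pK N)
    (hu : ∀ i, |u i * ‖ω‖ - pK N * ω i| ≤ ‖ω‖) :
    ∃ V' < V, Inv F w m (s + 1) V' (nxt O σ u) (cm (Tm O σ u) *ᵥ ω) ∧
      w ⬝ᵥ cv (nxt O σ u).x = w ⬝ᵥ cv σ.x + cv (lam O σ u) ⬝ᵥ ω ∧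
      ∃ ε r, Rep (nearSpan F w m ε) r ∧ cm (Tm O σ u) *ᵥ ω = cm (Sm r) *ᵥ w := by
  have hA := pA_ge (N := N)
  have hA1 : 1 ≤ pA N := by linarith
  obtain ⟨η, S, hη1, hη2, hS, hr, hnear⟩ := sel_spec (O := O) (c₀ := cz σ u) hF fun e he =>
    hO' _ (cz_bound h.bd hs hu' he)
  obtain ⟨hx, hx'⟩ := hO' _ (cz_bound h.bd hs hu' (e := 0) fun i => by simp; positivity)
  rw [add_zero] at hx hx'
  change Rep _ (rp O σ u) at hr
  set x₀ := O (cz σ u) with hx₀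
  set q := σ.H *ᵥ u with hq
  set r := rp O σ u with hr'
  set V' := span ℝ (cv '' S) with hV'
  have hS1 : ∀ b ∈ S, ∀ i, |b i| ≤ 1 := by
    intro b hb
    obtain ⟨y, hy, rfl, -⟩ := hS b hb
    exact sub_abs_le (hF y hy) (hF _ hx)
  have hd : r.2 ≤ 2 ^ pl N := hr.le_pl hS1
  have hcz : ∀ y, cz σ u ⬝ᵥ y = pZ N * (σ.p ⬝ᵥ y) + q ⬝ᵥ y := fun y => by
    rw [cz, add_dotProduct, smul_dotProduct, smul_eq_mul]
  have hP : 0 < pA N ^ (3 * N + 11) := by positivity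
  have hZ : pZ N = pA N ^ 3 * pA N ^ (3 * N + 11) := by rw [pZ]; ring
  have hηA : η * pA N ≤ pA N ^ (3 * N + 11) :=
    (mul_le_mul_of_nonneg_right hη2 (by linarith)).trans (by
      rw [← pow_succ]; exact pow_le_pow_right₀ hA1 (by omega))
  have hA3 : 4 * pA N ^ 2 ≤ pA N ^ 3 := by nlinarith
  have hA2 : 4 * pA N ≤ pA N ^ 2 := by nlinarith
  have hqb : ∀ y ∈ F, ∀ z ∈ F, |q ⬝ᵥ (y - z)| ≤ pA N * pA N ^ (3 * N + 11) := by
    intro y hy z hz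
    have := abs_idot_le (q_bound h.bd hu') (sub_abs_le (hF y hy) (hF z hz))
    rw [Fintype.card_fin, mul_one] at this
    exact this.trans (mul_le_mul_of_nonneg_right n_le_A hP.le)
  have inG : ∀ y ∈ F, cz σ u ⬝ᵥ x₀ - η * pA N ≤ cz σ u ⬝ᵥ y → σ.p ⬝ᵥ y = σ.p ⬝ᵥ σ.x := by
    intro y hy h1
    refine le_antisymm (h.face y hy).1 (not_lt.1 fun h2 => ?_)
    have h3 := hx' _ h.mem
    have h4 := (abs_le.1 (hqb y hy _ h.mem)).2
    rw [dotProduct_sub] at h4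
    rw [hcz y] at h1
    rw [hcz σ.x] at h3
    have h5 : pZ N * (σ.p ⬝ᵥ y + 1) ≤ pZ N * (σ.p ⬝ᵥ σ.x) :=
      mul_le_mul_of_nonneg_left h2 (by rw [hZ]; positivity)
    nlinarith
  have hxG := inG x₀ hx (by nlinarith)
  have hxV : cv (x₀ - σ.x) ∈ V := (h.face _ hx).2.1 hxG
  have hGV : ∀ y ∈ F, σ.p ⬝ᵥ y = σ.p ⬝ᵥ σ.x → cv (y - x₀) ∈ V := by
    intro y hy h1
    convert sub_mem ((h.face _ hy).2.1 h1) hxV using 1
    rw [← cv_sub]
    congr 1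
    abel
  have hle : V' ≤ V := by
    refine span_le.2 ?_
    rintro _ ⟨b, hb, rfl⟩
    obtain ⟨y, hy, rfl, h1⟩ := hS b hb
    exact hGV y hy (inG y hy h1)
  have hqS : ∀ b ∈ S, |q ⬝ᵥ b| ≤ η * pA N := by
    intro b hb
    obtain ⟨y, hy, rfl, h1⟩ := hS b hb
    have h2 := hx' y hy
    have h3 := inG y hy h1
    rw [hcz, hcz, h3, hxG] at h1 h2
    have h4 : 0 ≤ η * pA N := by positivity
    rw [dotProduct_sub, abs_le]
    constructor <;> linarith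
  set M := ‖ω‖ with hMdef
  have hc : (0 : ℝ) < σ.d * pK N := by
    have : 0 < σ.d * pK N := mul_pos h.bd.1 (pow_pos (by linarith) _)
    exact_mod_cast this
  set ε : ℝ := (η * pA N + pA N) * M / (σ.d * pK N) with hε
  have hεc : σ.d * pK N * ε = (η * pA N + pA N) * M := mul_div_cancel₀ _ hc.ne'
  have hAr : (16 : ℝ) ≤ pA N := by exact_mod_cast hA
  have hηr : (1 : ℝ) ≤ η := by exact_mod_cast hη1
  have hε0 : 0 ≤ ε := div_nonneg (mul_nonneg (add_nonneg (mul_nonneg (by linarith) (by linarith))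
    (by linarith)) hM.le) hc.le
  have hwS : ∀ b ∈ S, |w ⬝ᵥ cv b| ≤ ε := by
    intro b hb
    have h1 := h.approx hM.le hu (hle (subset_span ⟨b, hb, rfl⟩)) (hS1 b hb)
    have h2 : |((q ⬝ᵥ b : ℤ) : ℝ)| ≤ η * pA N := by exact_mod_cast hqS b hb
    have h3 := abs_le.1 h1
    have h4 := abs_le.1 h2
    refine le_of_mul_le_mul_left ?_ hc
    rw [hεc, ← abs_of_pos hc, ← abs_mul, abs_le]
    constructor <;> nlinarith
  have hne : V' ≠ V := by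
    intro he
    have h1 : M ≤ M / 2 := by
      refine (pi_norm_le_iff_of_nonneg (by positivity)).2 fun i => ?_
      obtain ⟨v, hv, hv', h2⟩ := h.gen i
      rw [← he] at hv
      have h3 := abs_dot_le_of_span (by omega) hS1 hε0 (σ := pA N) (by positivity) hwS hv
        (fun j => by simp only [cv]; exact_mod_cast hv' j)
      rw [Real.norm_eq_abs, h2]
      refine h3.trans (le_of_mul_le_mul_left ?_ hc)
      have h4 : ((2 * ((N + 1 : ℕ) : ℤ) ^ 4 * 2 ^ pl N : ℤ) : ℝ) ≤ pA N := by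
        exact_mod_cast pA_gram
      have h5 : (((N + 1 : ℕ) : ℝ)) ^ 3 * 2 ^ (2 * (N + 1) ^ 2) ≤ pA N / 2 := by
        have : (((N + 1 : ℕ) : ℝ)) ^ 3 ≤ (((N + 1 : ℕ) : ℝ)) ^ 4 :=
          pow_le_pow_right₀ (by exact_mod_cast Nat.succ_pos N) (by norm_num)
        have h6 : (0 : ℝ) < 2 ^ pl N := by positivity
        push_cast at h4 this ⊢
        change _ * 2 ^ pl N ≤ _
        nlinarith
      have h6 : (η : ℝ) ≤ pA N ^ (3 * N + 3) := by exact_mod_cast hη2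
      have h7 : (1 : ℝ) ≤ σ.d := by exact_mod_cast h.bd.1
      have h8 : (pK N : ℝ) = pA N ^ 7 * pA N ^ (3 * N + 3) := by rw [pK]; push_cast; ring
      have h9 : (2 : ℝ) * pA N ^ 3 ≤ pA N ^ 7 := by
        have : (2 : ℝ) ≤ pA N ^ 4 := le_trans (by norm_num) (pow_le_pow_left₀ (by norm_num) hAr 4)
        calc (2 : ℝ) * pA N ^ 3 ≤ pA N ^ 4 * pA N ^ 3 := by gcongr
          _ = _ := by ring
      calc σ.d * pK N * (((N + 1 : ℕ) : ℝ) ^ 3 * 2 ^ (2 * (N + 1) ^ 2) * pA N * ε)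
          = ((N + 1 : ℕ) : ℝ) ^ 3 * 2 ^ (2 * (N + 1) ^ 2) * pA N * ((η * pA N + pA N) * M) := by
            rw [← hεc]; ring
        _ ≤ pA N / 2 * pA N * ((η * pA N + η * pA N) * M) := by
            gcongr
            nlinarith
        _ = 2 * pA N ^ 3 * η * (M / 2) := by ring
        _ ≤ pA N ^ 7 * pA N ^ (3 * N + 3) * (M / 2) := by gcongr
        _ = 1 * pK N * (M / 2) := by rw [h8]; ring
        _ ≤ σ.d * pK N * (M / 2) := by gcongr; rw [h8]; positivity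
    linarith
  obtain ⟨ys, hys, hys'⟩ := hm'
  have hysG : σ.p ⬝ᵥ ys = σ.p ⬝ᵥ σ.x := (h.face _ hys).2.2 (h.opt_mem hys hys')
  have hGV' : ∀ y ∈ F, ∀ z ∈ F, σ.p ⬝ᵥ y = σ.p ⬝ᵥ σ.x → σ.p ⬝ᵥ z = σ.p ⬝ᵥ σ.x →
      cv (y - z) ∈ V := by
    intro y hy z hz h1 h2
    convert sub_mem (hGV y hy h1) (hGV z hz h2) using 1
    rw [← cv_sub]
    congr 1
    abel
  have hin : ∀ y ∈ F, cz σ u ⬝ᵥ x₀ - η * pA N ≤ cz σ u ⬝ᵥ y → m - ε ≤ w ⬝ᵥ cv y := by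
    intro y hy h1
    have h2 := (abs_le.1 (h.approx hM.le hu (hGV' ys hys y hy hysG (inG y hy h1))
      (sub_abs_le (hF _ hys) (hF _ hy)))).1
    have h3 : q ⬝ᵥ (ys - y) ≤ η * pA N := by
      have h4 := hx' ys hys
      have h5 := inG y hy h1
      rw [hcz, hcz, h5, hxG] at h1
      rw [hcz, hcz, hysG, hxG] at h4
      rw [dotProduct_sub]
      linarith
    have h4 : ((q ⬝ᵥ (ys - y) : ℤ) : ℝ) ≤ η * pA N := by exact_mod_cast h3
    rw [cv_sub, dotProduct_sub w, hys'] at h2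
    have h5 : σ.d * pK N * (m - w ⬝ᵥ cv y) ≤ σ.d * pK N * ε := by rw [hεc]; nlinarith
    linarith [le_of_mul_le_mul_left h5 hc]
  have hout : ∀ y ∈ F, σ.p ⬝ᵥ y = σ.p ⬝ᵥ σ.x → m - ε ≤ w ⬝ᵥ cv y → cv (y - x₀) ∈ V' := by
    intro y hy h1 h2
    refine hnear y hy ?_
    have h3 := (abs_le.1 (h.approx hM.le hu (hGV' x₀ hx y hy hxG h1)
      (sub_abs_le (hF _ hx) (hF _ hy)))).2
    rw [cv_sub, dotProduct_sub w] at h3
    have h4 : σ.d * pK N * (w ⬝ᵥ cv x₀ - w ⬝ᵥ cv y) ≤ σ.d * pK N * ε :=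
      mul_le_mul_of_nonneg_left (by linarith [hm _ hx]) hc.le
    have h5 : ((q ⬝ᵥ (x₀ - y) : ℤ) : ℝ) * M ≤ (η * pA N + 2 * pA N) * M := by linarith
    have h6 : q ⬝ᵥ (x₀ - y) ≤ η * pA N + 2 * pA N := by
      exact_mod_cast le_of_mul_le_mul_right h5 hM
    rw [hcz, hcz, h1, hxG]
    rw [dotProduct_sub] at h6
    nlinarith
  have hout' : ∀ ε' ≤ ε, (∀ y ∈ F, m - ε' ≤ w ⬝ᵥ cv y → σ.p ⬝ᵥ y = σ.p ⬝ᵥ σ.x) →
      nearSpan F w m ε' ≤ V' := by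
    intro ε' h1 h2
    refine span_le.2 ?_
    rintro _ ⟨y, hy, z, hz, h3, h4, rfl⟩
    have h5 := sub_mem (hout y hy (h2 y hy h3) (by linarith))
      (hout z hz (h2 z hz h4) (by linarith))
    rwa [← cv_sub, sub_sub_sub_cancel_right] at h5
  have hspan : V' = nearSpan F w m ε := by
    refine le_antisymm (span_le.2 ?_) (hout' ε le_rfl fun y hy h1 => ?_)
    · rintro _ ⟨b, hb, rfl⟩
      obtain ⟨y, hy, rfl, h1⟩ := hS b hb
      exact subset_span ⟨y, hy, x₀, hx, hin y hy h1, hin x₀ hx (by nlinarith), rfl⟩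
    · rcases h.near with h2 | ⟨ε', -, h3, h4⟩
      · exact (h.face y hy).2.2 (h2 ▸ mem_top)
      · have h5 : ∀ y ∈ F, m - ε' ≤ w ⬝ᵥ cv y → σ.p ⬝ᵥ y = σ.p ⬝ᵥ σ.x := fun y hy h5 =>
          (h.face y hy).2.2 (h3 ▸ subset_span ⟨y, hy, _, h.mem, h5, h4, rfl⟩)
        rcases le_total ε ε' with h6 | h6
        · exact h5 y hy (by linarith)
        · exact absurd (le_antisymm hle (h3 ▸ hout' ε' h6 h5)) hne
  have hT : cm (Tm O σ u) *ᵥ ω = cm (Sm r) *ᵥ w := by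
    ext i
    have := h.eval (hle (Sm_mem hr hd i))
    rw [dotProduct_comm] at this
    exact this.symm
  refine ⟨V', lt_of_le_of_ne hle hne, ⟨nxt_bd hO h.bd hu', hx, fun y hy => ?_, fun v hv => ?_,
    fun i => ?_, Or.inr ⟨ε, hε0, hspan, hin x₀ hx (by nlinarith)⟩⟩, ?_, ε, r, hspan ▸ hr, hT⟩
  · have hp : (nxt O σ u).p ⬝ᵥ y - (nxt O σ u).p ⬝ᵥ x₀ =
        pZ N * (σ.p ⬝ᵥ y - σ.p ⬝ᵥ σ.x) + q ⬝ᵥ r.1 *ᵥ (y - x₀) := by
      rw [← dotProduct_sub, ← hxG, ← dotProduct_sub, dotProduct_mulVec, ← mulVec_transpose, hr.symm]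
      simp only [nxt, add_dotProduct, smul_dotProduct, smul_eq_mul, hq, hr']
    change _ ≤ (nxt O σ u).p ⬝ᵥ x₀ ∧ (_ = (nxt O σ u).p ⬝ᵥ x₀ ↔ cv (y - x₀) ∈ V')
    have hb := sub_abs_le (hF y hy) (hF _ hx)
    by_cases h1 : cv (y - x₀) ∈ V'
    · have h2 : σ.p ⬝ᵥ y = σ.p ⬝ᵥ σ.x := by
        refine (h.face y hy).2.2 ?_
        convert add_mem (hle h1) hxV using 1
        rw [← cv_add]
        congr 1
        abel
      have h3 := (hr.mem_iff _).1 h1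
      rw [← cv_mulVec] at h3
      rw [h2, cv_inj (z := 0) (h3.trans (by ext; simp [cv]))] at hp
      simp only [sub_self, mul_zero, dotProduct_zero, add_zero] at hp
      exact ⟨by linarith, fun _ => h1, fun _ => by linarith⟩
    suffices h2 : (nxt O σ u).p ⬝ᵥ y - (nxt O σ u).p ⬝ᵥ x₀ < 0 from
      ⟨by linarith, fun h3 => by linarith, fun h3 => absurd h3 h1⟩
    rw [hp]
    rcases (h.face y hy).1.eq_or_lt with h2 | h2
    · have h3 : q ⬝ᵥ (y - x₀) ≤ -(pA N ^ 3 * η) := by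
        have h4 := not_lt.1 (mt (hnear y hy) h1)
        rw [hcz, hcz, h2, hxG] at h4
        rw [dotProduct_sub]
        linarith
      have h4 : cv (Qm r *ᵥ (y - x₀)) ∈ V' := by
        rw [cv_mulVec, cm_Qm_mulVec]
        exact hr.sub_mem _
      have h5 : ∀ i, |(Qm r *ᵥ (y - x₀)) i| ≤ (N + 1 : ℕ) * (2 * r.2) := fun i => by
        have := abs_idot_le (y := Qm r i) (a := 2 * r.2) (fun j => by
          have h1 := hr.abs_le i j
          have h2 := hr.1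
          simp only [Qm, of_apply]
          refine (abs_sub _ _).trans ?_
          split_ifs
          · rw [abs_of_pos h2]; linarith
          · rw [abs_zero]; linarith) hb
        rwa [Fintype.card_fin, mul_one] at this
      have hr0 : (0 : ℝ) < r.2 := by exact_mod_cast hr.1
      have h6 := abs_dot_le_of_span (φ := cv q) (ρ := η * pA N)
        (σ := (N + 1 : ℕ) * (2 * r.2)) (by omega) hS1 (by positivity) (by positivity)
        (fun b hb => by rw [← cv_dot]; exact_mod_cast hqS b hb) h4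
        (fun i => by simp only [cv]; exact_mod_cast h5 i)
      rw [← cv_dot] at h6
      have h7 : |q ⬝ᵥ Qm r *ᵥ (y - x₀)| ≤
          ((N + 1 : ℕ) : ℤ) ^ 3 * 2 ^ pl N * ((N + 1 : ℕ) * (2 * r.2)) * (η * pA N) := by
        rw [pl]
        exact_mod_cast h6
      have h8 := pA_gram (N := N)
      have h9 : ((N + 1 : ℕ) : ℤ) ^ 3 * 2 ^ pl N * ((N + 1 : ℕ) * (2 * r.2)) * (η * pA N) ≤
          pA N * (r.2 * (η * pA N)) := by
        calc _ = 2 * ((N + 1 : ℕ) : ℤ) ^ 4 * 2 ^ pl N * (r.2 * (η * pA N)) := by ring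
          _ ≤ _ := mul_le_mul_of_nonneg_right h8 (by have := hr.1; positivity)
      have h10 := (abs_le.1 (h7.trans h9)).1
      rw [Qm_eq, sub_mulVec, smul_mulVec, one_mulVec, dotProduct_sub q (r.2 • _), dotProduct_smul,
        smul_eq_mul] at h10
      have h11 := mul_le_mul_of_nonneg_left h3 hr.1.le
      have h12 : 0 < r.2 * η := mul_pos hr.1 (by linarith)
      rw [h2, sub_self, mul_zero, zero_add]
      nlinarith
    · have h3 : ∀ i, |(r.1 *ᵥ (y - x₀)) i| ≤ pA N := fun i => by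
        have := abs_idot_le (y := r.1 i) (fun j => (hr.abs_le i j).trans hd) hb
        rw [Fintype.card_fin, mul_one] at this
        have h4 := nD_le (N := N)
        have h5 : (0 : ℤ) ≤ (N + 1 : ℕ) * 2 ^ pl N := by positivity
        exact this.trans (by linarith)
      have h4 := abs_idot_le (q_bound h.bd hu') h3
      rw [Fintype.card_fin] at h4
      have h5 := (abs_le.1 (h4.trans (mul_le_mul_of_nonneg_right n_le_A (by positivity)))).2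
      have h6 : pZ N * (σ.p ⬝ᵥ y - σ.p ⬝ᵥ σ.x) ≤ pZ N * (-1) :=
        mul_le_mul_of_nonneg_left (by linarith) (by rw [hZ]; positivity)
      nlinarith
  · rw [hT]
    exact ⟨Hm_dvd hr hv, Hm_eval hr hd hv w⟩
  · rw [hT]
    exact ⟨Sm r i, Sm_mem hr hd i, Sm_bound hr hd i, dotProduct_comm _ _⟩
  · have := h.eval hxV
    rw [cv_sub, dotProduct_sub] at this
    change w ⬝ᵥ cv x₀ = _
    change _ = cv (lam O σ u) ⬝ᵥ ω at this
    linarith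

end Pool.Agent.Lib.MP_8a52c3_lc.RN
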