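import Pool.Agent.Lib.MP_8a52c3_lc.RNSim
import Pool.Agent.Lib.MP_8a52c3_lc.RNStage

/-!
Simulation of the integer part of a stage.
-/

namespace Pool.Agent.Lib.MP_8a52c3_lc.RN

open Submodule Finset Matrix

/-- Bit size of the oracle inputs. -/
def pb (N : ℕ) : ℕ := (pa N * (3 * N + 14) + 1) * (N + 1)

variable {N : ℕ}

theorem two_pZ : 2 * pZ N = 2 ^ (pa N * (3 * N + 14) + 1) := by
  rw [pZ, pA, ← pow_mul, pow_succ']

theorem two_pZ_pow : (2 * pZ N) ^ (N + 1) = 2 ^ pb N := by rw [two_pZ, ← pow_mul, pb]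

theorem nums (N : ℕ) : 2 * (N + 1) ≤ pl N ∧ 4 * pl N ≤ pa N ∧ py N * N ≤ pa N ∧
    pa N * (3 * N + 14) + 1 ≤ pb N ∧ 14 * pa N ≤ pa N * (3 * N + 14) ∧
    pl N + 1 + (N + 1) * (pl N + 1) ≤ 2 * pa N := by
  refine ⟨?_, ?_, ?_, Nat.le_mul_of_pos_right _ (by omega), by nlinarith, ?_⟩
  · simp only [pl]; nlinarith
  · have : (N + 1) ^ 2 ≤ (N + 1) ^ 3 := Nat.pow_le_pow_right (by omega) (by omega)
    simp only [pl, pa]; omega
  · simp only [py, pl, pa]; nlinarith [sq_nonneg N]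
  · simp only [pl, pa]; nlinarith [sq_nonneg N]

/-- The oracle can be simulated. -/
def OSim (π : Par) (O : (Fin (N + 1) → ℤ) → Fin (N + 1) → ℤ) : Prop :=
  ∀ (Ω : Type) (U : Submodule ℝ (Ω → ℝ)) (c : Ω → Fin (N + 1) → ℤ), (fun _ => 1 : Ω → ℝ) ∈ U →
    (∀ i, Val U (pb N) fun w => c w i) → CP π 4 U fun W => ∀ i, Val W 0 fun w => O (c w) i

/-- A pair representing a subspace spanned by small vectors. -/
def Ok (r : RP N) : Prop :=
  ∃ S : Set (Fin (N + 1) → ℤ), (∀ b ∈ S, ∀ i, |b i| ≤ 1) ∧ Rep (span ℝ (cv '' S)) r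

theorem Ok.upd {r : RP N} (h : Ok r) {b : Fin (N + 1) → ℤ} (hb : ∀ i, |b i| ≤ 1) :
    Ok (upd r b) := by
  obtain ⟨S, h1, h2⟩ := h
  refine ⟨insert b S, ?_, ?_⟩
  · rintro b' (rfl | h)
    · exact hb
    · exact h1 b' h
  · rw [Set.image_insert_eq, span_insert, sup_comm]
    exact h2.upd b

theorem Ok.pos {r : RP N} (h : Ok r) : 0 < r.2 := h.choose_spec.2.1

theorem Ok.le {r : RP N} (h : Ok r) : r.2 ≤ 2 ^ pl N := h.choose_spec.2.le_pl h.choose_spec.1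

variable {Ω : Type} {U : Submodule ℝ (Ω → ℝ)} {π : Par}
  {O : (Fin (N + 1) → ℤ) → Fin (N + 1) → ℤ}

theorem PVal.ok {β : ℕ} {r : Ω → RP N} (h : PVal U β r) (h' : ∀ w, Ok (r w)) : PVal U (pl N) r :=
  ⟨fun i j => (h.1 i j).bound fun w => ((h' w).choose_spec.2.abs_le i j).trans (h' w).le,
    h.2.bound fun w => by rw [abs_of_pos (h' w).pos]; exact (h' w).le⟩

theorem cp_rnd (h1 : (fun _ => 1 : Ω → ℝ) ∈ U) (hL : 2 * pb N + 10 ≤ π.L) (hs : OSim π O)
    (hO : ∀ c i, O c i = 0 ∨ O c i = 1) {c : Ω → Fin (N + 1) → ℤ}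
    (hc : ∀ i, Val U (pb N) fun w => c w i)
    (hc' : ∀ w (e : Fin (N + 1) → ℤ), (∀ i, |e i| ≤ pA N ^ (3 * N + 7)) →
      ∀ i, |(c w + e) i| ≤ 2 ^ pb N)
    (hx : ∀ i, Val U 0 fun w => O (c w) i) {η : ℤ} (hη0 : 0 ≤ η) (hη : η ≤ pA N ^ (3 * N + 6))
    {r : Ω → RP N} (hr : PVal U (pl N) r) (hr' : ∀ w, Ok (r w)) :
    CP π 24 U fun W => PVal W (pl N) fun w => rnd O (c w) η (r w) := by
  obtain ⟨n1, n2, n3, n4, n5, n6⟩ := nums N
  have hA := pA_ge (N := N)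
  refine (cp_mulVec h1 (by omega) (by omega) (z := fun _ => gvec N) hr.1
    fun i => Val.const h1 (gvec_bound i)).bind (by norm_num) fun W₁ hW₁ h2 => ?_
  have hdir : ∀ w i, η * |((r w).1 *ᵥ gvec N) i| ≤ pA N ^ (3 * N + 7) := fun w i => by
    have h3 := (hr' w).choose_spec.2.dir_bound (hr' w).choose_spec.1 i
    have hn : (1 : ℤ) ≤ (N + 1 : ℕ) := by exact_mod_cast Nat.succ_pos N
    rw [pow_succ]
    exact mul_le_mul hη (h3.trans (le_trans (le_mul_of_one_le_left (by positivity) hn) pA_gamma))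
      (abs_nonneg _) (by positivity)
  refine (hs Ω W₁ (fun w => c w + η • ((r w).1 *ᵥ gvec N)) (hW₁ h1) fun i =>
    ⟨by simpa using add_mem' (hW₁ (hc i).1) (mul_mem (h2 i).1 η), fun w => hc' w _ (fun j => by
      rw [Pi.smul_apply, smul_eq_mul, abs_mul, abs_of_nonneg hη0]; exact hdir w j) i⟩).bind
    (by norm_num) fun W₂ hW₂ h3 => ?_
  have hW := hW₁.trans hW₂
  refine (hs Ω W₂ (fun w => c w + η • -((r w).1 *ᵥ gvec N)) (hW h1) fun i =>
    ⟨by simpa [sub_eq_add_neg] using sub_mem' (hW (hc i).1) (mul_mem (hW₂ (h2 i).1) η),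
      fun w => hc' w _ (fun j => by
      rw [Pi.smul_apply, smul_eq_mul, abs_mul, abs_of_nonneg hη0, Pi.neg_apply, abs_neg]
      exact hdir w j) i⟩).bind (by norm_num) fun W₃ hW₃ h4 => ?_
  have hW' := hW.trans hW₃
  refine (cp_upd (hW' h1) (by omega) (hr.mono hW') (fun w => (hr' w).pos)
    (b := fun w => O (c w + η • ((r w).1 *ᵥ gvec N)) - O (c w)) fun i =>
      (((h3 i).mono hW₃).sub ((hx i).mono hW')).bound
        fun w => sub_abs_le (hO _) (hO _) i).bind (by norm_num) fun W₄ hW₄ h5 => ?_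
  have hok := fun w => (hr' w).upd (sub_abs_le (hO (c w + η • ((r w).1 *ᵥ gvec N))) (hO (c w)))
  refine (cp_upd (hW₄ (hW' h1)) (by omega) (h5.ok hok) (fun w => (hok w).pos)
    (b := fun w => O (c w + η • -((r w).1 *ᵥ gvec N)) - O (c w)) fun i =>
      (((h4 i).mono hW₄).sub ((hx i).mono (hW'.trans hW₄))).bound
        fun w => sub_abs_le (hO _) (hO _) i).imp fun W₅ _ h6 =>
    h6.ok fun w => (hok w).upd (sub_abs_le (hO _) (hO _))

theorem cp_sel (h1 : (fun _ => 1 : Ω → ℝ) ∈ U) (hL : 2 * pb N + 10 ≤ π.L) (hs : OSim π O)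
    (hO : ∀ c i, O c i = 0 ∨ O c i = 1) {c : Ω → Fin (N + 1) → ℤ}
    (hc : ∀ i, Val U (pb N) fun w => c w i)
    (hc' : ∀ w (e : Fin (N + 1) → ℤ), (∀ i, |e i| ≤ pA N ^ (3 * N + 7)) →
      ∀ i, |(c w + e) i| ≤ 2 ^ pb N)
    (hx : ∀ i, Val U 0 fun w => O (c w) i) :
    CP π 27 U fun W => PVal W (pl N) fun w => sel O (c w) (N + 2) := by
  obtain ⟨n1, n2, n3, n4, n5, n6⟩ := nums N
  have hA := pA_ge (N := N)
  have hN : N + 1 ≤ π.L := by omega
  refine (CP.family (k := 25) (e := 1) (J := Fin (N + 3)) (by simp; omega)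
    (fun j W => PVal W (pl N) fun w => lev O (c w) j) (fun _ _ _ h h' => h'.mono h)
    fun j => ?_).bind (by norm_num) fun W hW h2 => ?_
  · refine CP.loop (k := 24) (fun t W => PVal W (pl N)
      fun w => (rnd O (c w) (pA N ^ (3 * (N + 2 - j))))^[t] (1, 1)) _ hN
      ⟨fun i j => Val.const h1 (t := (1 : Matrix (Fin (N + 1)) (Fin (N + 1)) ℤ) i j) ?_,
        Val.const h1 (t := 1) ?_⟩ fun t _ W hW h2 => ?_
    · rw [Matrix.one_apply]
      split_ifs <;> simp [one_le_pow₀]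
    · simp [one_le_pow₀]
    · simp only [Function.iterate_succ_apply']
      exact cp_rnd (hW h1) hL hs hO (fun i => (hc i).mono hW) hc' (fun i => (hx i).mono hW)
        (by positivity) (pow_le_pow_right₀ (by linarith) (by omega)) h2
        fun w => explore_weak hO _ _
  refine CP.le (CP.loop (k := 6) (fun t W => PVal W (pl N) fun w => sel O (c w) t) (N + 2)
    (by omega) (h2 0) fun t ht W₁ hW₁ h3 => ?_) (by norm_num)
  have h4 := (h2 ⟨t, by omega⟩).mono hW₁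
  have h5 := (h2 ⟨t + 1, by omega⟩).mono hW₁
  have h1' := hW₁ (hW h1)
  refine (CP.vals (card_le_two hN) _ fun ij : Fin (N + 1) × Fin (N + 1) =>
    cp_abs ((h4.1 ij.1 ij.2).sub (h5.1 ij.1 ij.2))).bind (by norm_num) fun W₂ hW₂ h6 => ?_
  refine (cp_abs ((h4.2.sub h5.2).mono hW₂)).bind (by norm_num) fun W₃ hW₃ h7 => ?_
  have h8 : Val W₃ _ fun w => dif (lev O (c w) t) (lev O (c w) (t + 1)) :=
    (Val.sum fun i => Val.sum fun j => (h6 (i, j)).mono hW₃).add (h7.le (by omega))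
  have hW' := hW₂.trans hW₃
  refine CP.le (CP.bind (k := 3) (CP.vals (card_le_two hN) _ fun ij : Fin (N + 1) × Fin (N + 1) =>
    cp_ite (hW' h1') h8 ((h4.1 ij.1 ij.2).mono hW') ((h3.1 ij.1 ij.2).mono hW')) (by norm_num)
    fun W₄ hW₄ h9 => ?_) (by norm_num)
  refine ((cp_ite (hW₄ (hW' h1')) (h8.mono hW₄) (h4.2.mono (hW'.trans hW₄))
    (h3.2.mono (hW'.trans hW₄))).le (by norm_num)).imp fun W₅ hW₅ h10 =>
      ⟨fun i j => ((h9 (i, j)).mono hW₅).congr fun w => ?_, h10.congr fun w => ?_⟩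
  · simp only [sel]
    split_ifs <;> rfl
  · simp only [sel]
    split_ifs <;> rfl

/-- An available state. -/
def SVal (U : Submodule ℝ (Ω → ℝ)) (σ : Ω → St N) : Prop :=
  (∀ i, Val U (pb N) fun w => (σ w).p i) ∧ (∀ i, Val U 0 fun w => (σ w).x i) ∧
    (∀ i j, Val U (pl N) fun w => (σ w).H i j) ∧ Val U (pl N) fun w => (σ w).d

theorem St.Bd.mono {σ : St N} {s s' : ℕ} (h : σ.Bd s) (hs : s ≤ s') : σ.Bd s' :=
  ⟨h.1, h.2.1, h.2.2.1, h.2.2.2.1, fun i => (h.2.2.2.2 i).trans (pow_le_pow_right₀ (by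
    rw [two_pZ]; exact one_le_pow₀ one_le_two) hs)⟩

theorem cp_stage (h1 : (fun _ => 1 : Ω → ℝ) ∈ U) (hL : 2 * pb N + 10 ≤ π.L) (hs : OSim π O)
    (hO : ∀ c i, O c i = 0 ∨ O c i = 1) {σ : Ω → St N} (hσ : SVal U σ) (hσ' : ∀ w, (σ w).Bd N)
    {u : Ω → Fin (N + 1) → ℤ} (hu : ∀ i, (fun w => (u w i : ℝ)) ∈ U)
    (hu' : ∀ w i, |u w i| ≤ 2 * pK N) :
    CP π 35 U fun W => SVal W (fun w => nxt O (σ w) (u w)) ∧
      (∀ i j, Val W (2 * pa N) fun w => Tm O (σ w) (u w) i j) ∧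
      ∀ j, Val W (2 * pa N) fun w => lam O (σ w) (u w) j := by
  obtain ⟨n1, n2, n3, n4, n5, n6⟩ := nums N
  have hA := pA_ge (N := N)
  have hN : N + 1 ≤ π.L := by omega
  have hu2 : ∀ i, Val U (pa N * (3 * N + 10) + 1) fun w => u w i := fun i =>
    ⟨hu i, fun w => by
      have := hu' w i
      rwa [pK, pA, ← pow_mul, ← pow_succ'] at this⟩
  refine (cp_mulVec h1 hN (by omega) hσ.2.2.1 hu2).bind (by norm_num) fun W₁ hW₁ h2 => ?_
  have hc' := fun w (e : Fin (N + 1) → ℤ) (he : ∀ i, |e i| ≤ pA N ^ (3 * N + 7)) i =>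
    (cz_bound (hσ' w) le_rfl (hu' w) he i).trans two_pZ_pow.le
  have hc : ∀ i, Val W₁ (pb N) fun w => cz (σ w) (u w) i := fun i =>
    ⟨by simpa [cz] using add_mem' (mul_mem (hW₁ (hσ.1 i).1) (pZ N)) (h2 i).1, fun w => by
      simpa using hc' w 0 (fun i => by simp; positivity) i⟩
  refine (hs Ω W₁ _ (hW₁ h1) hc).bind (by norm_num) fun W₂ hW₂ h3 => ?_
  have hW := hW₁.trans hW₂
  refine (cp_sel (hW h1) hL hs hO (fun i => (hc i).mono hW₂) hc' h3).bind (by norm_num)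
    fun W₃ hW₃ h4 => ?_
  replace hW := hW.trans hW₃
  have hok : ∀ w, Ok (rp O (σ w) (u w)) := fun w => sel_rep hO _
  have hQ : ∀ i j, Val W₃ (pl N + 1) fun w => Qm (rp O (σ w) (u w)) i j := fun i j => by
    by_cases h : i = j
    · exact (h4.2.sub (h4.1 i j)).congr fun w => by simp [Qm, h, rp]
    · exact ((Val.const (hW h1) (t := 0) (by simp)).sub (h4.1 i j)).congr
        fun w => by simp [Qm, h, rp]
  refine (cp_hnf (hW h1) hN (by omega) (by omega) h4.2 (fun w => (hok w).pos) hQ).bind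
    (by norm_num) fun W₄ hW₄ h5 => ?_
  replace hW := hW.trans hW₄
  refine (cp_solve (hW h1) hN (by omega) h5 (fun w => hnf_pos (hok w).pos (hok w).le)
    fun i j => (hQ i j).mono hW₄).bind (by norm_num) fun W₅ hW₅ h6 => ?_
  replace hW := hW.trans hW₅
  refine (CP.family (card_le_one hN)
    (fun i W => ∀ j, Val W _ fun w => ((σ w).Hᵀ *ᵥ Sm (rp O (σ w) (u w)) i) j)
    (fun _ _ _ h h' j => (h' j).mono h) fun i => cp_mulVec (hW h1) hN (by omega)
      (fun i j => (hσ.2.2.1 j i).mono hW) fun j => (h6 i j).le pa_solve).bind (by norm_num)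
    fun W₆ hW₆ h7 => ?_
  replace hW := hW.trans hW₆
  have hV := hW₃.trans (hW₄.trans (hW₅.trans hW₆))
  refine (cp_mulVec (hW h1) hN (by omega) (A := fun w => (σ w).Hᵀ)
    (z := fun w => O (cz (σ w) (u w)) - (σ w).x) (fun i j => (hσ.2.2.1 j i).mono hW)
    fun j => ((h3 j).mono hV).sub ((hσ.2.1 j).mono hW)).bind (by norm_num) fun W₇ hW₇ h8 => ?_
  replace hW := hW.trans hW₇
  replace hV := hV.trans hW₇
  have hV' := hW₄.trans (hW₅.trans (hW₆.trans hW₇))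
  refine CP.le (CP.bind (k := 6) (cp_mulVec (hW h1) hN (by omega) (h4.mono hV').1
    fun i => (h2 i).mono (hW₂.trans hV)) (by norm_num) fun W₈ hW₈ h9 => ?_) (by norm_num)
  replace hW := hW.trans hW₈
  refine (CP.vals (card_le_two hN) _ fun ij : Fin (N + 1) × Fin (N + 1) =>
    cp_div (hW h1) (by omega) ((h7 ij.1 ij.2).mono (hW₇.trans hW₈)) (hσ.2.2.2.mono hW)
      fun w => (hσ' w).1).bind (by norm_num) fun W₉ hW₉ h10 => ?_
  replace hW := hW.trans hW₉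
  refine ((CP.vals (card_le_one hN) _ fun j => cp_div (hW h1) (by omega)
    ((h8 j).mono (hW₈.trans hW₉)) (hσ.2.2.2.mono hW) fun w => (hσ' w).1).le (by norm_num)).imp
    fun W' hW' h11 => ⟨⟨fun i => ⟨?_, fun w => ?_⟩,
      fun i => (h3 i).mono (hV.trans (hW₈.trans (hW₉.trans hW'))),
      fun i j => (h5 i j).mono (hW₅.trans (hW₆.trans (hW₇.trans (hW₈.trans (hW₉.trans hW'))))),
      h4.2.mono (hV'.trans (hW₈.trans (hW₉.trans hW')))⟩,
      fun i j => ((h10 (i, j)).mono hW').le (by omega), fun j => (h11 j).le (by omega)⟩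
  · simpa [nxt, rp] using add_mem' (mul_mem (hW' (hW (hσ.1 i).1)) (pZ N)) (hW' (hW₉ (h9 i).1))
  · exact ((nxt_bd hO (hσ' w) (hu' w)).2.2.2.2 i).trans two_pZ_pow.le

end Pool.Agent.Lib.MP_8a52c3_lc.RN
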