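import Mathlib

/-!
Abstract core of the variable space versus depth theorem.
States are positions of an adversary, letters are the variable sets held in memory,
tokens are the values of a letter in a state.
-/

namespace Pool.Agent.Lib.MP_8a52c3_lc.VS

open Finset

set_option linter.unusedSectionVars false

/-- The data of an adversary together with a sequence of letters and labels. -/
structure Sys (σ Λ Θ : Type) where
  le : σ → σ → Prop
  le_refl : ∀ a, le a a
  le_trans : ∀ a b c, le a b → le b c → le a c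
  good : ℕ → σ → Prop
  good_mono : ∀ h a, good (h + 1) a → good h a
  push : σ → Λ → σ
  le_push : ∀ a g, le a (push a g)
  V : ℕ → Λ
  good_push : ∀ h a j, good (h + 1) a → good h (push a (V j))
  cov : σ → Λ → Prop
  cov_push : ∀ a g, cov (push a g) g
  cov_le : ∀ a b g, le a b → cov a g → cov b g
  tok : σ → Λ → Θ
  tok_le : ∀ a b g, le a b → cov a g → tok b g = tok a g
  s : ℕ
  Tok : Λ → Finset Θ
  tok_mem : ∀ a g, tok a g ∈ Tok g
  card_Tok : ∀ j, (Tok (V j)).card ≤ 2 ^ s
  L : ℕ → Θ → Prop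
  step : ∀ a j, good 0 a → cov a (V j) → cov a (V (j + 1)) →
    L j (tok a (V j)) → L (j + 1) (tok a (V (j + 1)))

variable {σ Λ Θ : Type} [DecidableEq Λ] [DecidableEq Θ] (S : Sys σ Λ Θ)

theorem Sys.good_le {h h' : ℕ} {a : σ} (hh : h ≤ h') (ha : S.good h' a) : S.good h a := by
  induction hh with
  | refl => exact ha
  | step _ ih => exact ih (S.good_mono _ _ ha)

/-- Tokens of `g` that occur after `k` further pushes of letters from `U`. -/
def Sys.T (U : Finset Λ) : ℕ → σ → Λ → Finset Θ
  | 0, Q, g => {S.tok (S.push Q g) g}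
  | k + 1, Q, g => U.biUnion fun u => Sys.T U k (S.push Q u) g

theorem Sys.T_subset (U : Finset Λ) (k : ℕ) : ∀ Q g, S.T U k Q g ⊆ S.Tok g := by
  induction k with
  | zero => intro Q g x hx; simp only [Sys.T, mem_singleton] at hx; rw [hx]; exact S.tok_mem _ _
  | succ k ih =>
    intro Q g x hx
    simp only [Sys.T, mem_biUnion] at hx
    obtain ⟨u, _, hu⟩ := hx
    exact ih _ _ hu

theorem Sys.T_nonempty (U : Finset Λ) (hU : U.Nonempty) (k : ℕ) :
    ∀ Q g, (S.T U k Q g).Nonempty := by
  induction k with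
  | zero => intro Q g; simp [Sys.T]
  | succ k ih =>
    intro Q g
    obtain ⟨u, hu⟩ := hU
    obtain ⟨x, hx⟩ := ih (S.push Q u) g
    exact ⟨x, by simp only [Sys.T, mem_biUnion]; exact ⟨u, hu, hx⟩⟩

theorem Sys.T_succ_sub (U : Finset Λ) (k : ℕ) (Q : σ) {u : Λ} (hu : u ∈ U) (g : Λ) :
    S.T U k (S.push Q u) g ⊆ S.T U (k + 1) Q g := by
  intro x hx
  simp only [Sys.T, mem_biUnion]
  exact ⟨u, hu, hx⟩

theorem Sys.T_witness (U : Finset Λ) (hU : ∀ u ∈ U, ∃ j, u = S.V j) (j : ℕ) (h : ℕ) (k : ℕ) :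
    ∀ Q τ, τ ∈ S.T U k Q (S.V j) → S.good (h + k + 1) Q →
      ∃ β, S.le Q β ∧ S.cov β (S.V j) ∧ S.tok β (S.V j) = τ ∧ S.good h β := by
  induction k with
  | zero =>
    intro Q τ hτ hg
    simp only [Sys.T, mem_singleton] at hτ
    exact ⟨S.push Q (S.V j), S.le_push _ _, S.cov_push _ _, hτ.symm, S.good_push _ _ _ hg⟩
  | succ k ih =>
    intro Q τ hτ hg
    simp only [Sys.T, mem_biUnion] at hτ
    obtain ⟨u, hu, hτ⟩ := hτ
    obtain ⟨i, rfl⟩ := hU u hu
    obtain ⟨β, h1, h2, h3, h4⟩ := ih _ τ hτ (S.good_push _ _ _ hg)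
    exact ⟨β, S.le_trans _ _ _ (S.le_push _ _) h1, h2, h3, h4⟩

/-- Pushing `u` keeps more than half of the tokens of `g`. -/
def Sys.big (U : Finset Λ) (k : ℕ) (Q : σ) (u g : Λ) : Prop :=
  (S.T U (k + 1) Q g).card < 2 * (S.T U k (S.push Q u) g).card

instance (U : Finset Λ) (k : ℕ) (Q : σ) (u g : Λ) : Decidable (S.big U k Q u g) := by
  unfold Sys.big; infer_instance

theorem Sys.big_inter (U : Finset Λ) (k : ℕ) (Q : σ) {u u' g : Λ} (hu : u ∈ U) (hu' : u' ∈ U)
    (h1 : S.big U k Q u g) (h2 : S.big U k Q u' g) :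
    ∃ τ, τ ∈ S.T U k (S.push Q u) g ∧ τ ∈ S.T U k (S.push Q u') g := by
  by_contra hne
  push Not at hne
  have hd : Disjoint (S.T U k (S.push Q u) g) (S.T U k (S.push Q u') g) :=
    Finset.disjoint_left.2 fun x hx => hne x hx
  have hs : S.T U k (S.push Q u) g ∪ S.T U k (S.push Q u') g ⊆ S.T U (k + 1) Q g :=
    Finset.union_subset (S.T_succ_sub U k Q hu g) (S.T_succ_sub U k Q hu' g)
  have hc := Finset.card_le_card hs
  rw [Finset.card_union_of_disjoint hd] at hc
  unfold Sys.big at h1 h2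
  omega

theorem Sys.prod_drop (U : Finset Λ) (k : ℕ) (Q : σ) {u : Λ} (hu : u ∈ U) (e : ℕ)
    (he : e ≤ (U.filter fun g => ¬ S.big U k Q u g).card) :
    (∏ g ∈ U, (S.T U k (S.push Q u) g).card) * 2 ^ e ≤ ∏ g ∈ U, (S.T U (k + 1) Q g).card := by
  have h1 : (∏ g ∈ U, (S.T U k (S.push Q u) g).card) *
      2 ^ (U.filter fun g => ¬ S.big U k Q u g).card ≤ ∏ g ∈ U, (S.T U (k + 1) Q g).card := by
    have h2 : 2 ^ (U.filter fun g => ¬ S.big U k Q u g).card
        = ∏ g ∈ U, (if ¬ S.big U k Q u g then 2 else 1) := by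
      rw [Finset.prod_ite]; simp
    rw [h2, ← Finset.prod_mul_distrib]
    apply Finset.prod_le_prod'
    intro g _
    by_cases hb : S.big U k Q u g
    · simp only [hb, not_true_eq_false, if_false, mul_one]
      exact Finset.card_le_card (S.T_succ_sub U k Q hu g)
    · simp only [hb, not_false_eq_true, if_true]
      unfold Sys.big at hb
      omega
  exact Nat.le_trans (Nat.mul_le_mul_left _ (Nat.pow_le_pow_right (by norm_num) he)) h1

/-- After a bounded number of pushes every letter keeps most token sets large. -/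
theorem Sys.stable (U : Finset Λ) (hne : U.Nonempty) (hU : ∀ u ∈ U, ∃ j, u = S.V j) (e h : ℕ)
    (K : ℕ) : ∀ Q, (∏ g ∈ U, (S.T U K Q g).card) < 2 ^ (K * e) → S.good (h + K + 1) Q →
      ∃ k Q', S.le Q Q' ∧ S.good (h + k + 2) Q' ∧
        ∀ u ∈ U, (U.filter fun g => ¬ S.big U k Q' u g).card < e := by
  induction K with
  | zero =>
    intro Q hp _
    exfalso
    have : 0 < ∏ g ∈ U, (S.T U 0 Q g).card :=
      Finset.prod_pos fun g _ => (S.T_nonempty U hne 0 Q g).card_pos
    simp only [zero_mul, pow_zero] at hp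
    omega
  | succ K ih =>
    intro Q hp hg
    by_cases hall : ∀ u ∈ U, (U.filter fun g => ¬ S.big U K Q u g).card < e
    · exact ⟨K, Q, S.le_refl _, hg, hall⟩
    · push Not at hall
      obtain ⟨u, hu, he⟩ := hall
      have hd := S.prod_drop U K Q hu e he
      have hlt : (∏ g ∈ U, (S.T U K (S.push Q u) g).card) < 2 ^ (K * e) := by
        have h3 : (∏ g ∈ U, (S.T U K (S.push Q u) g).card) * 2 ^ e < 2 ^ (K * e) * 2 ^ e := by
          rw [← pow_add]
          have : K * e + e = (K + 1) * e := by ring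
          rw [this]
          exact lt_of_le_of_lt hd hp
        exact lt_of_mul_lt_mul_right h3 (Nat.zero_le _)
      obtain ⟨j, rfl⟩ := hU u hu
      obtain ⟨k, Q', h1, h2, h3⟩ := ih _ hlt (S.good_push _ _ _ hg)
      exact ⟨k, Q', S.le_trans _ _ _ (S.le_push _ _) h1, h2, h3⟩

/-- The propagation statement for intervals containing fewer than `N` distinct letters. -/
def Sys.Prop' (H N : ℕ) : Prop :=
  ∀ α a b, S.good H α → a < b → S.cov α (S.V a) → S.cov α (S.V b) →
    ((Ioo a b).image S.V).card < N → S.L a (S.tok α (S.V a)) → S.L b (S.tok α (S.V b))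

theorem Sys.prop_base : S.Prop' 0 1 := by
  intro α a b hg hab ha hb hc hL
  have h0 : ((Ioo a b).image S.V) = ∅ := Finset.card_eq_zero.1 (by omega)
  have h1 : Ioo a b = ∅ := Finset.image_eq_empty.1 h0
  have h2 : b = a + 1 := by
    by_contra hne
    have : a + 1 ∈ Ioo a b := by simp only [mem_Ioo]; omega
    rw [h1] at this
    exact absurd this (Finset.notMem_empty _)
  subst h2
  exact S.step α a hg ha hb hL

theorem card_notG (U : Finset Λ) (r : Λ → Λ → Prop) [DecidableRel r] (e : ℕ)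
    (h : ∀ u ∈ U, (U.filter fun g => r u g).card < e + 1) :
    (U.filter fun g => U.card < 2 * (U.filter fun u => r u g).card).card ≤ 2 * e := by
  set B := U.filter fun g => U.card < 2 * (U.filter fun u => r u g).card with hB
  have h1 : ∑ u ∈ U, (U.filter fun g => r u g).card = ∑ g ∈ U, (U.filter fun u => r u g).card := by
    simp only [Finset.card_filter]
    exact Finset.sum_comm
  have h2 : ∑ u ∈ U, (U.filter fun g => r u g).card ≤ U.card * e := by
    have := Finset.sum_le_card_nsmul U (fun u => (U.filter fun g => r u g).card) e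
      (fun u hu => Nat.lt_succ_iff.1 (h u hu))
    simpa using this
  have h3 : ∑ g ∈ B, (U.filter fun u => r u g).card ≤ ∑ g ∈ U, (U.filter fun u => r u g).card :=
    Finset.sum_le_sum_of_subset (Finset.filter_subset _ _)
  have h4 : B.card * (U.card + 1) ≤ ∑ g ∈ B, 2 * (U.filter fun u => r u g).card := by
    have := Finset.card_nsmul_le_sum B (fun g => 2 * (U.filter fun u => r u g).card) (U.card + 1)
      (fun g hg => (Finset.mem_filter.1 hg).2)
    simpa using this
  rw [← Finset.mul_sum] at h4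
  have h5 : B.card * (U.card + 1) ≤ (2 * e) * (U.card + 1) := by nlinarith
  exact Nat.le_of_mul_le_mul_right h5 (Nat.succ_pos _)

theorem Sys.prop_step (H N : ℕ) (ih : S.Prop' H N) (hN : 0 < N) :
    S.Prop' (H + (6 * S.s + 1) + 1) (2 * N) := by
  intro α a b hg hab ha hb hc hL
  set U := (Ioo a b).image S.V with hUdef
  have hUV : ∀ u ∈ U, ∃ j, u = S.V j := by
    intro u hu
    obtain ⟨j, _, hj⟩ := Finset.mem_image.1 hu
    exact ⟨j, hj.symm⟩
  have hmem : ∀ t, a < t → t < b → S.V t ∈ U := fun t h1 h2 =>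
    Finset.mem_image.2 ⟨t, Finset.mem_Ioo.2 ⟨h1, h2⟩, rfl⟩
  by_cases hne : U.Nonempty
  swap
  · have h0 : U.card < N := by
      rw [Finset.not_nonempty_iff_eq_empty.1 hne]; simpa using hN
    exact ih α a b (S.good_le (by omega) hg) hab ha hb h0 hL
  set e := U.card / 6 with he
  have hpot : (∏ g ∈ U, (S.T U (6 * S.s + 1) α g).card) < 2 ^ ((6 * S.s + 1) * (e + 1)) := by
    have h1 : (∏ g ∈ U, (S.T U (6 * S.s + 1) α g).card) ≤ (2 ^ S.s) ^ U.card := by
      apply Finset.prod_le_pow_card
      intro g hg'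
      obtain ⟨j, rfl⟩ := hUV g hg'
      exact Nat.le_trans (Finset.card_le_card (S.T_subset U _ _ _)) (S.card_Tok j)
    refine lt_of_le_of_lt h1 ?_
    rw [← pow_mul]
    apply Nat.pow_lt_pow_right (by norm_num)
    have h2 : U.card < 6 * (e + 1) := by omega
    nlinarith
  obtain ⟨k, Q, hαQ, hQ, hnb⟩ := S.stable U hne hUV (e + 1) H (6 * S.s + 1) α hpot hg
  have hG := card_notG U (fun u g => ¬ S.big U k Q u g) e hnb
  set NG := U.filter fun g => U.card < 2 * (U.filter fun u => ¬ S.big U k Q u g).card with hNG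
  have hQb : S.cov Q (S.V b) := S.cov_le _ _ _ hαQ hb
  have hpushgood : ∀ t, S.good (H + k + 1) (S.push Q (S.V t)) := fun t => S.good_push _ _ _ hQ
  -- short intervals
  have hshort : ∀ (t t' : ℕ) (B : Finset Λ), 2 * B.card ≤ U.card →
      (∀ x, t < x → x < t' → S.V x ∈ B) → ((Ioo t t').image S.V).card < N := by
    intro t t' B hB hx
    have : (Ioo t t').image S.V ⊆ B := by
      intro y hy
      obtain ⟨x, hx1, rfl⟩ := Finset.mem_image.1 hy
      exact hx x (Finset.mem_Ioo.1 hx1).1 (Finset.mem_Ioo.1 hx1).2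
    have := Finset.card_le_card this
    omega
  have hchain : ∀ m t, a < t → t < b → b - t ≤ m →
      S.L t (S.tok (S.push Q (S.V t)) (S.V t)) → S.L b (S.tok Q (S.V b)) := by
    intro m
    induction m with
    | zero => intro t _ h2 h3; omega
    | succ m ihm =>
      intro t hat htb hm hLt
      have hu := hmem t hat htb
      set B1 := NG ∪ U.filter fun g => ¬ S.big U k Q (S.V t) g with hB1
      have hB1c : 2 * B1.card ≤ U.card := by
        have h1 : B1.card ≤ NG.card + (U.filter fun g => ¬ S.big U k Q (S.V t) g).card :=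
          Finset.card_union_le NG (U.filter fun g => ¬ S.big U k Q (S.V t) g)
        have h2 := hnb _ hu
        omega
      by_cases hex : ∃ x, t < x ∧ x < b ∧ S.V x ∉ B1
      · classical
        set s0 := Nat.find hex with hs0
        obtain ⟨hts, hsb, hsB⟩ : t < s0 ∧ s0 < b ∧ S.V s0 ∉ B1 := Nat.find_spec hex
        have hmin : ∀ x, t < x → x < s0 → S.V x ∈ B1 := by
          intro x h1 h2
          by_contra hx
          exact Nat.find_min hex h2 ⟨h1, lt_trans h2 hsb, hx⟩
        have hg0 := hmem s0 (lt_trans hat hts) hsb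
        have hbig1 : S.big U k Q (S.V t) (S.V s0) := by
          by_contra hb'
          exact hsB (Finset.mem_union_right _ (Finset.mem_filter.2 ⟨hg0, hb'⟩))
        have hgood0 : 2 * (U.filter fun u => ¬ S.big U k Q u (S.V s0)).card ≤ U.card := by
          by_contra hb'
          exact hsB (Finset.mem_union_left _ (Finset.mem_filter.2 ⟨hg0, by omega⟩))
        have hall : ∀ τ ∈ S.T U k (S.push Q (S.V t)) (S.V s0), S.L s0 τ := by
          intro τ hτ
          obtain ⟨β, h1, h2, h3, h4⟩ := S.T_witness U hUV s0 H k _ τ hτ (hpushgood t)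
          have h5 : S.cov β (S.V t) := S.cov_le _ _ _ h1 (S.cov_push _ _)
          have h6 := ih β t s0 h4 hts h5 h2 (hshort t s0 B1 hB1c hmin)
            (by rw [S.tok_le _ _ _ h1 (S.cov_push _ _)]; exact hLt)
          rwa [h3] at h6
        by_cases hex2 : ∃ x, s0 < x ∧ x < b ∧ S.big U k Q (S.V x) (S.V s0)
        · set t2 := Nat.find hex2 with ht2
          obtain ⟨hst, htb2, hbig2⟩ : s0 < t2 ∧ t2 < b ∧ S.big U k Q (S.V t2) (S.V s0) :=
            Nat.find_spec hex2
          have hmin2 : ∀ x, s0 < x → x < t2 →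
              S.V x ∈ U.filter fun u => ¬ S.big U k Q u (S.V s0) := by
            intro x h1 h2
            refine Finset.mem_filter.2 ⟨hmem x (by omega) (by omega), fun hx => ?_⟩
            exact Nat.find_min hex2 h2 ⟨h1, lt_trans h2 htb2, hx⟩
          obtain ⟨τ, hτ1, hτ2⟩ := S.big_inter U k Q hu (hmem t2 (by omega) htb2) hbig1 hbig2
          obtain ⟨β, h1, h2, h3, h4⟩ := S.T_witness U hUV s0 H k _ τ hτ2 (hpushgood t2)
          have h5 : S.cov β (S.V t2) := S.cov_le _ _ _ h1 (S.cov_push _ _)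
          have h6 := ih β s0 t2 h4 hst h2 h5 (hshort s0 t2 _ hgood0 hmin2)
            (by rw [h3]; exact hall τ hτ1)
          rw [S.tok_le _ _ _ h1 (S.cov_push _ _)] at h6
          exact ihm t2 (by omega) htb2 (by omega) h6
        · push Not at hex2
          obtain ⟨τ, hτ⟩ := S.T_nonempty U hne k (S.push Q (S.V t)) (S.V s0)
          obtain ⟨β, h1, h2, h3, h4⟩ := S.T_witness U hUV s0 H k _ τ hτ (hpushgood t)
          have hQβ : S.le Q β := S.le_trans _ _ _ (S.le_push _ _) h1
          have h6 := ih β s0 b h4 hsb h2 (S.cov_le _ _ _ hQβ hQb)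
            (hshort s0 b _ hgood0 fun x h1 h2 =>
              Finset.mem_filter.2 ⟨hmem x (by omega) h2, hex2 x h1 h2⟩)
            (by rw [h3]; exact hall τ hτ)
          rwa [S.tok_le _ _ _ hQβ hQb] at h6
      · push Not at hex
        have h6 := ih (S.push Q (S.V t)) t b (S.good_le (by omega) (hpushgood t)) htb
          (S.cov_push _ _) (S.cov_le _ _ _ (S.le_push _ _) hQb) (hshort t b B1 hB1c hex) hLt
        rwa [S.tok_le _ _ _ (S.le_push _ _) hQb] at h6
  have hab1 : a + 1 < b := by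
    obtain ⟨u, hu⟩ := hne
    obtain ⟨j, hj, _⟩ := Finset.mem_image.1 hu
    have := Finset.mem_Ioo.1 hj
    omega
  have hαP : S.le α (S.push Q (S.V (a + 1))) := S.le_trans _ _ _ hαQ (S.le_push _ _)
  have h1 := S.step (S.push Q (S.V (a + 1))) a (S.good_le (by omega) (hpushgood (a + 1)))
    (S.cov_le _ _ _ hαP ha) (S.cov_push _ _) (by rw [S.tok_le _ _ _ hαP ha]; exact hL)
  have h2 := hchain (b - (a + 1)) (a + 1) (by omega) hab1 le_rfl h1
  rwa [S.tok_le _ _ _ hαQ hb] at h2

theorem Sys.prop_all (l : ℕ) : S.Prop' (l * (6 * S.s + 2)) (2 ^ l) := by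
  induction l with
  | zero => simpa using S.prop_base
  | succ l ih =>
    have := S.prop_step _ _ ih (by positivity)
    have h1 : (l + 1) * (6 * S.s + 2) = l * (6 * S.s + 2) + (6 * S.s + 1) + 1 := by ring
    have h2 : 2 ^ (l + 1) = 2 * 2 ^ l := by ring
    rw [h1, h2]
    exact this

end Pool.Agent.Lib.MP_8a52c3_lc.VS
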