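import Mathlib

/-! Definitions: clauses, resolution depth, configurational refutations and variable space. -/

namespace Pool.Agent.Lib.MP_8a52c3_lc.VS

/-- A clause over the variables `Fin n` is a finite set of literals; the literal `(v, b)` is true
under `x` iff `x v = b`. -/
def Sat {n : ℕ} (x : Fin n → Bool) (C : Finset (Fin n × Bool)) : Prop :=
  ∃ l ∈ C, x l.1 = l.2

/-- `Res F d C`: the clause `C` has a resolution derivation from `F` of depth at most `d`. -/
inductive Res {n : ℕ} (F : Set (Finset (Fin n × Bool))) : ℕ → Finset (Fin n × Bool) → Prop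
  | ax (d : ℕ) (C : Finset (Fin n × Bool)) : C ∈ F → Res F d C
  | cut (d : ℕ) (C D : Finset (Fin n × Bool)) (v : Fin n) :
      Res F d C → Res F d D → (v, true) ∈ C → (v, false) ∈ D →
      Res F (d + 1) (C.erase (v, true) ∪ D.erase (v, false))

/-- A proof line: an arbitrary Boolean constraint depending only on the variables in `vars`. -/
structure Line (n : ℕ) : Type where
  vars : Finset (Fin n)
  holds : (Fin n → Bool) → Prop
  loc : ∀ x y : Fin n → Bool, (∀ v ∈ vars, x v = y v) → holds x → holds y

/-- One step between memory configurations: download of a clause of `F`, inference of a line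
implied by the configuration, or erasure of lines. -/
def Step {n : ℕ} (F : Set (Finset (Fin n × Bool))) (M M' : Set (Line n)) : Prop :=
  (∃ C ∈ F, ∃ K : Line n, K.vars = C.image Prod.fst ∧ (∀ x, K.holds x ↔ Sat x C) ∧
      M' = insert K M) ∨
    (∃ K : Line n, (∀ x, (∀ J ∈ M, J.holds x) → K.holds x) ∧ M' = insert K M) ∨
    M' ⊆ M

/-- `F` has a configurational refutation in which every configuration mentions at most `s`
variables. -/
def VarSpaceRef {n : ℕ} (F : Set (Finset (Fin n × Bool))) (s : ℕ) : Prop :=
  ∃ (T : ℕ) (M : ℕ → Set (Line n)), M 0 = ∅ ∧ (∃ K ∈ M T, ∀ x, ¬ K.holds x) ∧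
    (∀ j < T, Step F (M j) (M (j + 1))) ∧
    ∀ j ≤ T, {v : Fin n | ∃ K ∈ M j, v ∈ K.vars}.ncard ≤ s

end Pool.Agent.Lib.MP_8a52c3_lc.VS
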