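import Pool.Agent.Lib.MP_8a52c3_lc.VSDefs
import Pool.Agent.Lib.MP_8a52c3_lc.VSCore

namespace Pool.Agent.Lib.MP_8a52c3_lc.VS

open Finset

variable {n : ℕ}

theorem Res.mono {F : Set (Finset (Fin n × Bool))} {d : ℕ} {C : Finset (Fin n × Bool)}
    (h : Res F d C) : Res F (d + 1) C := by
  induction h with
  | ax d C hC => exact Res.ax _ C hC
  | cut d C D v _ _ h1 h2 ih1 ih2 => exact Res.cut _ C D v ih1 ih2 h1 h2

theorem Res.mono_le {F : Set (Finset (Fin n × Bool))} {d d' : ℕ} {C : Finset (Fin n × Bool)}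
    (hd : d ≤ d') (h : Res F d C) : Res F d' C := by
  induction hd with
  | refl => exact h
  | step _ ih => exact ih.mono

/-- A position: the set of assigned variables and their values. -/
abbrev Pos (n : ℕ) := Finset (Fin n) × (Fin n → Bool)

def Fals (α : Pos n) (C : Finset (Fin n × Bool)) : Prop :=
  ∀ l ∈ C, l.1 ∈ α.1 ∧ α.2 l.1 ≠ l.2

def G (F : Set (Finset (Fin n × Bool))) (d : ℕ) (α : Pos n) : Prop :=
  ¬ ∃ C, Res F d C ∧ Fals α C

def Ext (α β : Pos n) : Prop := α.1 ⊆ β.1 ∧ ∀ v ∈ α.1, β.2 v = α.2 v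

theorem G.mono_le {F : Set (Finset (Fin n × Bool))} {d d' : ℕ} {α : Pos n} (hd : d ≤ d')
    (h : G F d' α) : G F d α := fun ⟨C, h1, h2⟩ => h ⟨C, h1.mono_le hd, h2⟩

theorem Ext.refl (α : Pos n) : Ext α α := ⟨Finset.Subset.refl _, fun _ _ => rfl⟩

theorem Ext.trans {α β γ : Pos n} (h1 : Ext α β) (h2 : Ext β γ) : Ext α γ :=
  ⟨h1.1.trans h2.1, fun v hv => (h2.2 v (h1.1 hv)).trans (h1.2 v hv)⟩

def upd (α : Pos n) (v : Fin n) (b : Bool) : Pos n := (insert v α.1, Function.update α.2 v b)

theorem both_bad {F : Set (Finset (Fin n × Bool))} {d : ℕ} {α : Pos n} {v : Fin n}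
    (h1 : ¬ G F d (upd α v true)) (h0 : ¬ G F d (upd α v false)) : ¬ G F (d + 1) α := by
  unfold G at h1 h0
  push Not at h1 h0
  obtain ⟨C1, hr1, hf1⟩ := h1
  obtain ⟨C0, hr0, hf0⟩ := h0
  have key : ∀ (b : Bool) (C : Finset (Fin n × Bool)), Fals (upd α v b) C →
      ∀ l ∈ C, l ≠ (v, !b) → l.1 ∈ α.1 ∧ α.2 l.1 ≠ l.2 := by
    intro b C hf l hl hne
    obtain ⟨h1, h2⟩ := hf l hl
    have hv : l.1 ≠ v := by
      intro hv
      apply hne
      simp only [upd, hv, Function.update_self] at h2
      ext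
      · simp [hv]
      · cases b <;> cases hl2 : l.2 <;> simp_all
    simp only [upd, mem_insert, hv, false_or] at h1
    simp only [upd, Function.update_of_ne hv] at h2
    exact ⟨h1, h2⟩
  intro hG
  apply hG
  by_cases hm1 : (v, false) ∈ C1
  · by_cases hm0 : (v, true) ∈ C0
    · refine ⟨_, Res.cut d C0 C1 v hr0 hr1 hm0 hm1, ?_⟩
      intro l hl
      rcases Finset.mem_union.1 hl with hl | hl
      · exact key false C0 hf0 l (Finset.mem_of_mem_erase hl) (Finset.ne_of_mem_erase hl)
      · exact key true C1 hf1 l (Finset.mem_of_mem_erase hl) (Finset.ne_of_mem_erase hl)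
    · refine ⟨C0, hr0.mono, fun l hl => key false C0 hf0 l hl ?_⟩
      rintro rfl
      exact hm0 hl
  · refine ⟨C1, hr1.mono, fun l hl => key true C1 hf1 l hl ?_⟩
    rintro rfl
    exact hm1 hl

theorem ext_one (F : Set (Finset (Fin n × Bool))) (α : Pos n) (v : Fin n) :
    ∃ β, Ext α β ∧ v ∈ β.1 ∧ ∀ d, G F (d + 1) α → G F d β := by
  by_cases hv : v ∈ α.1
  · exact ⟨α, Ext.refl α, hv, fun d h => h.mono_le (Nat.le_succ d)⟩
  have hext : ∀ b, Ext α (upd α v b) := by
    intro b
    refine ⟨Finset.subset_insert _ _, fun w hw => ?_⟩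
    have : w ≠ v := fun h => hv (h ▸ hw)
    simp [upd, Function.update_of_ne this]
  by_contra hne
  push Not at hne
  obtain ⟨d1, h1, h1'⟩ := hne _ (hext true) (by simp [upd])
  obtain ⟨d0, h0, h0'⟩ := hne _ (hext false) (by simp [upd])
  rcases le_total d0 d1 with h | h
  · exact both_bad h1' (fun hg => h0' (hg.mono_le h)) h1
  · exact both_bad (fun hg => h1' (hg.mono_le h)) h0' h0

theorem ext_set (F : Set (Finset (Fin n × Bool))) (g : Finset (Fin n)) :
    ∀ α : Pos n, ∃ β, Ext α β ∧ g ⊆ β.1 ∧ ∀ d, G F (d + g.card) α → G F d β := by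
  induction g using Finset.induction_on with
  | empty => intro α; exact ⟨α, Ext.refl α, Finset.empty_subset _, fun d h => by simpa using h⟩
  | insert v g hv ih =>
    intro α
    obtain ⟨β, h1, h2, h3⟩ := ext_one F α v
    obtain ⟨γ, h4, h5, h6⟩ := ih β
    refine ⟨γ, h1.trans h4, Finset.insert_subset (h4.1 h2) h5, fun d hd => ?_⟩
    rw [Finset.card_insert_of_notMem hv] at hd
    exact h6 d (h3 _ hd)

theorem card_small (s : ℕ) (U : Finset (Finset (Fin n))) (hU : ∀ g ∈ U, g.card ≤ s) :
    U.card ≤ (n + 1) ^ s := by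
  have h1 : U ⊆ (range (s + 1)).biUnion fun i => powersetCard i (univ : Finset (Fin n)) := by
    intro g hg
    simp only [mem_biUnion, mem_range, mem_powersetCard]
    exact ⟨g.card, Nat.lt_succ_of_le (hU g hg), Finset.subset_univ _, rfl⟩
  refine (Finset.card_le_card h1).trans (Finset.card_biUnion_le.trans ?_)
  rw [add_pow]
  apply Finset.sum_le_sum
  intro i hi
  rw [Finset.card_powersetCard, Finset.card_univ, Fintype.card_fin]
  have h2 : 0 < s.choose i := Nat.choose_pos (Nat.lt_succ_iff.1 (Finset.mem_range.1 hi))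
  have h3 : n.choose i ≤ n ^ i := Nat.choose_le_pow n i
  simp only [one_pow, mul_one, Nat.cast_id]
  nlinarith

theorem main (F : Set (Finset (Fin n × Bool))) (s : ℕ) (h : VarSpaceRef F s) :
    Res F (16 * s ^ 3 * (Nat.log 2 n + 1)) ∅ := by
  classical
  obtain ⟨T, M, hM0, ⟨K0, hK0, hK0f⟩, hstep, hcard⟩ := h
  let V : ℕ → Finset (Fin n) := fun j =>
    if j ≤ T then univ.filter fun v => ∃ K ∈ M j, v ∈ K.vars else ∅
  have hVcard : ∀ j, (V j).card ≤ s := by
    intro j
    by_cases hj : j ≤ T
    · have := hcard j hj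
      rw [← Set.ncard_coe_finset]
      simp only [V, hj, if_true, coe_filter, mem_univ, true_and]
      exact this
    · simp [V, hj]
  have hVmem : ∀ j, j ≤ T → ∀ K ∈ M j, K.vars ⊆ V j := by
    intro j hj K hK v hv
    simp only [V, hj, if_true, mem_filter, mem_univ, true_and]
    exact ⟨K, hK, hv⟩
  let tok : Pos n → Finset (Fin n) → Finset (Fin n) := fun α g => g.filter fun v => α.2 v = true
  have hconv : ∀ (α : Pos n) j, j ≤ T → ∀ K ∈ M j,
      (K.holds (fun v => decide (v ∈ tok α (V j))) ↔ K.holds α.2) := by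
    intro α j hj K hK
    have hh : ∀ v ∈ K.vars, decide (v ∈ tok α (V j)) = α.2 v := by
      intro v hv
      have := hVmem j hj K hK hv
      simp only [tok, mem_filter, this, true_and]
      cases α.2 v <;> simp
    exact ⟨K.loc _ _ hh, K.loc _ _ fun v hv => (hh v hv).symm⟩
  let S : Sys (Pos n) (Finset (Fin n)) (Finset (Fin n)) :=
    { le := Ext
      le_refl := Ext.refl
      le_trans := fun _ _ _ => Ext.trans
      good := fun h α => G F (h * s) α
      good_mono := fun h a hg => hg.mono_le (by nlinarith)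
      push := fun α g => Classical.choose (ext_set F g α)
      le_push := fun α g => (Classical.choose_spec (ext_set F g α)).1
      V := V
      good_push := fun h a j hg => (Classical.choose_spec (ext_set F (V j) a)).2.2 _
        (hg.mono_le (by have := hVcard j; nlinarith))
      cov := fun α g => g ⊆ α.1
      cov_push := fun α g => (Classical.choose_spec (ext_set F g α)).2.1
      cov_le := fun a b g h1 h2 => h2.trans h1.1
      tok := tok
      tok_le := by
        intro a b g h1 h2
        apply Finset.filter_congr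
        intro v hv
        rw [h1.2 v (h2 hv)]
      s := s
      Tok := fun g => g.powerset
      tok_mem := fun a g => Finset.mem_powerset.2 (Finset.filter_subset _ _)
      card_Tok := fun j => by
        rw [Finset.card_powerset]
        exact Nat.pow_le_pow_right (by norm_num) (hVcard j)
      L := fun j τ => j ≤ T ∧ ∀ K ∈ M j, K.holds fun v => decide (v ∈ τ)
      step := by
        intro a j hg _ h2 ⟨hj, hL⟩
        have hL' : ∀ K ∈ M j, K.holds a.2 := fun K hK => (hconv a j hj K hK).1 (hL K hK)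
        rcases Nat.lt_or_ge j T with hlt | hge
        · refine ⟨hlt, fun K hK => (hconv a (j + 1) hlt K hK).2 ?_⟩
          rcases hstep j hlt with ⟨C, hC, K', hv, hh, hM⟩ | ⟨K', hh, hM⟩ | hM
          · have hK' : K' ∈ M (j + 1) := by rw [hM]; exact Set.mem_insert _ _
            rw [hM] at hK
            rcases hK with rfl | hK
            · rw [hh]
              by_contra hns
              apply hg
              refine ⟨C, Res.ax _ C hC, fun l hl => ⟨?_, fun he => hns ⟨l, hl, he⟩⟩⟩
              apply h2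
              apply hVmem (j + 1) hlt K hK'
              rw [hv]
              exact Finset.mem_image_of_mem _ hl
            · exact hL' K hK
          · rw [hM] at hK
            rcases hK with rfl | hK
            · exact hh _ hL'
            · exact hL' K hK
          · exact hL' K (hM hK)
        · have : j = T := le_antisymm hj hge
          subst this
          exact absurd (hL' K0 hK0) (hK0f _) }
  by_contra hne
  have hP := S.prop_all (s * (Nat.log 2 n + 1) + 1) (∅, fun _ => false) 0 (T + 1) ?_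
    (Nat.succ_pos T) ?_ ?_ ?_ ?_
  · exact absurd hP.1 (by omega)
  · rintro ⟨C, h1, h2⟩
    have hC : C = ∅ := by
      rw [Finset.eq_empty_iff_forall_notMem]
      intro l hl
      exact absurd (h2 l hl).1 (Finset.notMem_empty _)
    subst hC
    apply hne
    refine h1.mono_le ?_
    change (s * (Nat.log 2 n + 1) + 1) * (6 * s + 2) * s ≤ _
    rcases Nat.eq_zero_or_pos s with rfl | hs
    · simp
    · have e1 : s * (Nat.log 2 n + 1) + 1 ≤ 2 * (s * (Nat.log 2 n + 1)) := by nlinarith
      have e2 : 6 * s + 2 ≤ 8 * s := by omega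
      calc (s * (Nat.log 2 n + 1) + 1) * (6 * s + 2) * s
          ≤ (2 * (s * (Nat.log 2 n + 1))) * (8 * s) * s := by gcongr
        _ = 16 * s ^ 3 * (Nat.log 2 n + 1) := by ring
  · change V 0 ⊆ ∅
    intro v hv
    simp [V, hM0] at hv
  · change V (T + 1) ⊆ ∅
    simp [V]
  · have h1 := card_small s ((Ioo 0 (T + 1)).image S.V) (by
      intro g hg
      obtain ⟨j, _, rfl⟩ := Finset.mem_image.1 hg
      exact hVcard j)
    have h2 : n + 1 ≤ 2 ^ (Nat.log 2 n + 1) := Nat.lt_pow_succ_log_self (by norm_num) n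
    have h3 : (n + 1) ^ s ≤ 2 ^ (s * (Nat.log 2 n + 1)) := by
      rw [mul_comm, pow_mul]
      exact Nat.pow_le_pow_left h2 s
    have h4 : 2 ^ (s * (Nat.log 2 n + 1)) < 2 ^ (s * (Nat.log 2 n + 1) + 1) :=
      Nat.pow_lt_pow_right (by norm_num) (Nat.lt_succ_self _)
    omega
  · refine ⟨Nat.zero_le _, fun K hK => ?_⟩
    rw [hM0] at hK
    exact absurd hK (Set.notMem_empty _)

end Pool.Agent.Lib.MP_8a52c3_lc.VS
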