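import Mathlib

/-!
Oblivious Gaussian elimination over the field with two elements.
-/

namespace Pool.Agent.Lib.MP_8a52c3_lc.XC

open Finset Module Submodule

/-- Index `k` truncated to `Fin (N + 1)`. -/
def idx (N k : ℕ) : Fin (N + 1) := ⟨min k N, by omega⟩

theorem idx_coe {N : ℕ} (i : Fin (N + 1)) : idx N i = i := by
  ext
  simp only [idx]
  omega

/-- Real value of a bit. -/
noncomputable def bit (a : ZMod 2) : ℝ := if a = 1 then 1 else 0

theorem zmod2_cases (a : ZMod 2) : a = 0 ∨ a = 1 := by
  revert a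
  decide

theorem one_add_one_zmod2 : (1 : ZMod 2) + 1 = 0 := by decide

/-- Running pivot row for column `c`. -/
def piv {N : ℕ} (c : Fin (N + 1)) (r : Fin (N + 1) → Fin (N + 1) → ZMod 2) :
    ℕ → Fin (N + 1) → ZMod 2
  | 0 => 0
  | i + 1 => piv c r i + (1 + piv c r i c) • r (idx N i)

/-- One elimination step. -/
def step {N : ℕ} (c : Fin (N + 1)) (r : Fin (N + 1) → Fin (N + 1) → ZMod 2) :
    Fin (N + 1) → Fin (N + 1) → ZMod 2 :=
  fun i => r i + r i c • piv c r (N + 1)

/-- The matrix after `c` elimination steps. -/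
def elim {N : ℕ} (r : Fin (N + 1) → Fin (N + 1) → ZMod 2) :
    ℕ → Fin (N + 1) → Fin (N + 1) → ZMod 2
  | 0 => r
  | c + 1 => step (idx N c) (elim r c)

/-- Whether step `c` found a pivot. -/
def flag {N : ℕ} (r : Fin (N + 1) → Fin (N + 1) → ZMod 2) (c : ℕ) : ZMod 2 :=
  piv (idx N c) (elim r c) (N + 1) (idx N c)

variable {N : ℕ}

theorem piv_mem (c : Fin (N + 1)) (r : Fin (N + 1) → Fin (N + 1) → ZMod 2) (i : ℕ) :
    piv c r i ∈ span (ZMod 2) (Set.range r) := by
  induction i with
  | zero => exact zero_mem _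
  | succ i ih => exact add_mem ih (smul_mem _ _ (subset_span ⟨_, rfl⟩))

theorem piv_zero (c : Fin (N + 1)) (r : Fin (N + 1) → Fin (N + 1) → ZMod 2) (i : ℕ)
    (h : piv c r i c = 0) : ∀ j < i, r (idx N j) c = 0 := by
  induction i with
  | zero => intro j hj; omega
  | succ i ih =>
    simp only [piv, Pi.add_apply, Pi.smul_apply, smul_eq_mul] at h
    rcases zmod2_cases (piv c r i c) with h0 | h1
    · intro j hj
      rcases Nat.lt_succ_iff_lt_or_eq.1 hj with h2 | rfl
      · exact ih h0 j h2
      · simpa [h0] using h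
    · rw [h1, one_add_one_zmod2] at h
      simp at h

theorem span_coord_zero (c : Fin (N + 1)) (r : Fin (N + 1) → Fin (N + 1) → ZMod 2)
    (h : ∀ i, r i c = 0) : ∀ x ∈ span (ZMod 2) (Set.range r), x c = 0 := by
  intro x hx
  have : span (ZMod 2) (Set.range r) ≤ LinearMap.ker
      (LinearMap.proj (R := ZMod 2) (φ := fun _ : Fin (N + 1) => ZMod 2) c) := by
    rw [span_le]
    rintro _ ⟨i, rfl⟩
    exact h i
  exact this hx

theorem step_self (c : Fin (N + 1)) (r : Fin (N + 1) → Fin (N + 1) → ZMod 2) (i : Fin (N + 1)) :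
    step c r i c = 0 := by
  simp only [step, Pi.add_apply, Pi.smul_apply, smul_eq_mul]
  rcases zmod2_cases (piv c r (N + 1) c) with h0 | h1
  · have := piv_zero c r _ h0 i i.2
    rw [idx_coe] at this
    simp [this]
  · rw [h1, mul_one]
    exact CharTwo.add_self_eq_zero _

theorem step_keep (c c' : Fin (N + 1)) (r : Fin (N + 1) → Fin (N + 1) → ZMod 2)
    (h : ∀ i, r i c' = 0) (i : Fin (N + 1)) : step c r i c' = 0 := by
  simp [step, h, span_coord_zero c' r h _ (piv_mem c r (N + 1))]

theorem finrank_span_insert' {K V : Type} [Field K] [AddCommGroup V] [Module K V]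
    (S : Submodule K V) [FiniteDimensional K S] (p : V) (hp : p ∉ S) :
    finrank K ↥(S ⊔ span K {p}) = finrank K S + 1 := by
  have h0 : p ≠ 0 := fun h => hp (h ▸ zero_mem _)
  have h1 := Submodule.finrank_sup_add_finrank_inf_eq S (span K {p})
  have h2 : S ⊓ span K {p} = ⊥ := (disjoint_span_singleton' h0).2 hp |>.eq_bot
  rw [h2, finrank_bot, finrank_span_singleton h0] at h1
  omega

theorem finrank_step (c : Fin (N + 1)) (r : Fin (N + 1) → Fin (N + 1) → ZMod 2) :
    (finrank (ZMod 2) (span (ZMod 2) (Set.range r)) : ℝ) =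
      finrank (ZMod 2) (span (ZMod 2) (Set.range (step c r))) + bit (piv c r (N + 1) c) := by
  rcases zmod2_cases (piv c r (N + 1) c) with h0 | h1
  · have : step c r = r := by
      ext i j
      have := piv_zero c r _ h0 i i.2
      rw [idx_coe] at this
      simp [step, this]
    rw [this, h0]
    simp [bit]
  · have hp : piv c r (N + 1) ∉ span (ZMod 2) (Set.range (step c r)) := by
      intro h
      have := span_coord_zero c _ (step_self c r) _ h
      rw [h1] at this
      exact one_ne_zero this
    have he : span (ZMod 2) (Set.range r) =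
        span (ZMod 2) (Set.range (step c r)) ⊔ span (ZMod 2) {piv c r (N + 1)} := by
      refine le_antisymm (span_le.2 ?_) (sup_le (span_le.2 ?_) (span_le.2 ?_))
      · rintro _ ⟨i, rfl⟩
        have : r i = step c r i - r i c • piv c r (N + 1) := by simp [step]
        rw [this]
        exact sub_mem (mem_sup_left (subset_span ⟨i, rfl⟩))
          (mem_sup_right (smul_mem _ _ (subset_span rfl)))
      · rintro _ ⟨i, rfl⟩
        exact add_mem (subset_span ⟨i, rfl⟩) (smul_mem _ _ (piv_mem c r _))
      · rintro _ rfl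
        exact piv_mem c r _
    rw [he, finrank_span_insert' _ _ hp, h1]
    simp [bit]

theorem elim_zero (r : Fin (N + 1) → Fin (N + 1) → ZMod 2) (c : ℕ) :
    ∀ j < c, ∀ i, elim r c i (idx N j) = 0 := by
  induction c with
  | zero => intro j hj; omega
  | succ c ih =>
    intro j hj i
    rcases Nat.lt_succ_iff_lt_or_eq.1 hj with h2 | rfl
    · exact step_keep _ _ _ (ih j h2) i
    · exact step_self _ _ i

theorem finrank_elim (r : Fin (N + 1) → Fin (N + 1) → ZMod 2) (c : ℕ) :
    (finrank (ZMod 2) (span (ZMod 2) (Set.range r)) : ℝ) =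
      finrank (ZMod 2) (span (ZMod 2) (Set.range (elim r c))) + ∑ j ∈ range c, bit (flag r j) := by
  induction c with
  | zero =>
    simp only [range_zero, sum_empty, add_zero]
    rfl
  | succ c ih =>
    rw [ih, finrank_step (idx N c) (elim r c), sum_range_succ, add_assoc, add_comm (bit _)]
    rfl

theorem finrank_eq_sum_flag (r : Fin (N + 1) → Fin (N + 1) → ZMod 2) :
    (finrank (ZMod 2) (span (ZMod 2) (Set.range r)) : ℝ) =
      ∑ j ∈ range (N + 1), bit (flag r j) := by
  have h : span (ZMod 2) (Set.range (elim r (N + 1))) = ⊥ := by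
    rw [span_eq_bot]
    rintro _ ⟨i, rfl⟩
    ext j
    have := elim_zero r (N + 1) j j.2 i
    rwa [idx_coe] at this
  rw [finrank_elim r (N + 1), h]
  simp

end Pool.Agent.Lib.MP_8a52c3_lc.XC
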