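import Pool.Agent.Lib.MP_8a52c3_lc.VXNet
import Pool.Agent.Lib.MP_8a52c3_lc.VXElim

/-!
Rectifier networks simulate Gaussian elimination on scaled bits.
-/

namespace Pool.Agent.Lib.MP_8a52c3_lc.XC

open Finset Module Submodule

/-- A bit-valued function scaled by `γ`. -/
noncomputable def emb {X : Type} (γ : X → ℝ) (b : X → ZMod 2) : X → ℝ := fun w => γ w * bit (b w)

theorem bit_zero : bit 0 = 0 := by simp [bit]

theorem bit_one : bit 1 = 1 := by simp [bit]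

section gates

variable {n m : ℕ} {W : Submodule ℝ ((Fin n → ℝ) → ℝ)} {γ : (Fin n → ℝ) → ℝ}

theorem Good.mul (hW : Good n m W) (hγ0 : ∀ w, 0 ≤ γ w) (hγ : γ ∈ W) {J : Type} [Fintype J]
    (a b : J → (Fin n → ℝ) → ZMod 2) (ha : ∀ j, emb γ (a j) ∈ W) (hb : ∀ j, emb γ (b j) ∈ W) :
    ∃ W', W ≤ W' ∧ Good n (m + Fintype.card J) W' ∧
      ∀ j, emb γ (fun w => a j w * b j w) ∈ W' := by
  obtain ⟨W', h1, h2, h3⟩ := hW.relu (fun j => emb γ (a j) + emb γ (b j) - γ)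
    fun j => sub_mem (add_mem (ha j) (hb j)) hγ
  refine ⟨W', h1, h2, fun j => ?_⟩
  convert h3 j using 1
  ext w
  have := hγ0 w
  simp only [emb, Pi.sub_apply, Pi.add_apply]
  rcases zmod2_cases (a j w) with h | h <;> rcases zmod2_cases (b j w) with h' | h' <;>
    simp [h, h', bit_zero, bit_one, this]

theorem emb_add (a b : (Fin n → ℝ) → ZMod 2) : emb γ (fun w => a w + b w) =
    emb γ a + emb γ b - (2 : ℝ) • emb γ (fun w => a w * b w) := by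
  ext w
  simp only [emb, Pi.sub_apply, Pi.add_apply, Pi.smul_apply, smul_eq_mul]
  rcases zmod2_cases (a w) with h | h <;> rcases zmod2_cases (b w) with h' | h' <;>
    simp [h, h', bit_zero, bit_one, one_add_one_zmod2]
  ring

theorem emb_not (a : (Fin n → ℝ) → ZMod 2) : emb γ (fun w => 1 + a w) = γ - emb γ a := by
  ext w
  simp only [emb, Pi.sub_apply]
  rcases zmod2_cases (a w) with h | h <;> simp [h, bit_zero, bit_one, one_add_one_zmod2]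

theorem Good.fma (hW : Good n m W) (hγ0 : ∀ w, 0 ≤ γ w) (hγ : γ ∈ W) {J : Type} [Fintype J]
    (a b c : J → (Fin n → ℝ) → ZMod 2) (ha : ∀ j, emb γ (a j) ∈ W) (hb : ∀ j, emb γ (b j) ∈ W)
    (hc : ∀ j, emb γ (c j) ∈ W) :
    ∃ W', W ≤ W' ∧ Good n (m + 2 * Fintype.card J) W' ∧
      ∀ j, emb γ (fun w => a j w + b j w * c j w) ∈ W' := by
  obtain ⟨W₁, h1, h2, h3⟩ := hW.mul hγ0 hγ b c hb hc
  obtain ⟨W₂, h4, h5, h6⟩ := h2.mul hγ0 (h1 hγ) a (fun j w => b j w * c j w)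
    (fun j => h1 (ha j)) h3
  refine ⟨W₂, h1.trans h4, h5.mono (by omega), fun j => ?_⟩
  rw [emb_add]
  exact sub_mem (add_mem (h4 (h1 (ha j))) (h4 (h3 j))) (smul_mem _ _ (h6 j))

end gates

variable {N m : ℕ} {W : Submodule ℝ ((Fin (N + 1) → ℝ) → ℝ)} {γ : (Fin (N + 1) → ℝ) → ℝ}

theorem Good.piv (hW : Good (N + 1) m W) (hγ0 : ∀ w, 0 ≤ γ w) (hγ : γ ∈ W) (c : Fin (N + 1))
    (r : (Fin (N + 1) → ℝ) → Fin (N + 1) → Fin (N + 1) → ZMod 2)
    (hr : ∀ i j, emb γ (fun w => r w i j) ∈ W) (k : ℕ) :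
    ∃ W', W ≤ W' ∧ Good (N + 1) (m + 2 * (N + 1) * k) W' ∧
      ∀ j, emb γ (fun w => piv c (r w) k j) ∈ W' := by
  induction k with
  | zero =>
    refine ⟨W, le_rfl, hW, fun j => ?_⟩
    convert zero_mem W using 1
    ext w
    simp [emb, XC.piv, bit_zero]
  | succ k ih =>
    obtain ⟨W₁, h1, h2, h3⟩ := ih
    obtain ⟨W₂, h4, h5, h6⟩ := h2.fma hγ0 (h1 hγ) (fun j w => XC.piv c (r w) k j)
      (fun _ w => 1 + XC.piv c (r w) k c) (fun j w => r w (idx N k) j) h3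
      (fun _ => by rw [emb_not]; exact sub_mem (h1 hγ) (h3 c)) fun j => h1 (hr _ j)
    refine ⟨W₂, h1.trans h4, h5.mono ?_, h6⟩
    rw [Fintype.card_fin]
    exact le_of_eq (by ring)

theorem Good.step (hW : Good (N + 1) m W) (hγ0 : ∀ w, 0 ≤ γ w) (hγ : γ ∈ W) (c : Fin (N + 1))
    (r : (Fin (N + 1) → ℝ) → Fin (N + 1) → Fin (N + 1) → ZMod 2)
    (hr : ∀ i j, emb γ (fun w => r w i j) ∈ W) :
    ∃ W', W ≤ W' ∧ Good (N + 1) (m + 4 * (N + 1) ^ 2) W' ∧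
      (∀ i j, emb γ (fun w => step c (r w) i j) ∈ W') ∧
      emb γ (fun w => XC.piv c (r w) (N + 1) c) ∈ W' := by
  obtain ⟨W₁, h1, h2, h3⟩ := hW.piv hγ0 hγ c r hr (N + 1)
  obtain ⟨W₂, h4, h5, h6⟩ := h2.fma hγ0 (h1 hγ) (J := Fin (N + 1) × Fin (N + 1))
    (fun j w => r w j.1 j.2) (fun j w => r w j.1 c) (fun j w => XC.piv c (r w) (N + 1) j.2)
    (fun j => h1 (hr _ _)) (fun j => h1 (hr _ _)) fun j => h3 _
  refine ⟨W₂, h1.trans h4, h5.mono ?_, fun i j => h6 (i, j), h4 (h3 c)⟩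
  rw [Fintype.card_prod, Fintype.card_fin]
  exact le_of_eq (by ring)

theorem Good.elim (hW : Good (N + 1) m W) (hγ0 : ∀ w, 0 ≤ γ w) (hγ : γ ∈ W)
    (r : (Fin (N + 1) → ℝ) → Fin (N + 1) → Fin (N + 1) → ZMod 2)
    (hr : ∀ i j, emb γ (fun w => r w i j) ∈ W) (k : ℕ) :
    ∃ W', W ≤ W' ∧ Good (N + 1) (m + 4 * (N + 1) ^ 2 * k) W' ∧
      (∀ i j, emb γ (fun w => elim (r w) k i j) ∈ W') ∧
      ∀ c < k, emb γ (fun w => flag (r w) c) ∈ W' := by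
  induction k with
  | zero => exact ⟨W, le_rfl, hW, hr, fun c hc => by omega⟩
  | succ k ih =>
    obtain ⟨W₁, h1, h2, h3, h3'⟩ := ih
    obtain ⟨W₂, h4, h5, h6, h7⟩ := h2.step hγ0 (h1 hγ) (idx N k) (fun w => XC.elim (r w) k) h3
    refine ⟨W₂, h1.trans h4, h5.mono (le_of_eq (by ring)), h6, fun c hc => ?_⟩
    rcases Nat.lt_succ_iff_lt_or_eq.1 hc with h | rfl
    · exact h4 (h3' c h)
    · exact h7

theorem Good.rank (hW : Good (N + 1) m W) (hγ0 : ∀ w, 0 ≤ γ w) (hγ : γ ∈ W)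
    (r : (Fin (N + 1) → ℝ) → Fin (N + 1) → Fin (N + 1) → ZMod 2)
    (hr : ∀ i j, emb γ (fun w => r w i j) ∈ W) :
    ∃ W', W ≤ W' ∧ Good (N + 1) (m + 4 * (N + 1) ^ 3) W' ∧
      (fun w => γ w * (finrank (ZMod 2) (span (ZMod 2) (Set.range (r w))) : ℝ)) ∈ W' := by
  obtain ⟨W₁, h1, h2, -, h3⟩ := hW.elim hγ0 hγ r hr (N + 1)
  refine ⟨W₁, h1, h2.mono (le_of_eq (by ring)), ?_⟩
  have : (fun w => γ w * (finrank (ZMod 2) (span (ZMod 2) (Set.range (r w))) : ℝ)) =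
      ∑ c ∈ range (N + 1), emb γ (fun w => flag (r w) c) := by
    ext w
    rw [finrank_eq_sum_flag, Finset.sum_apply, Finset.mul_sum]
    rfl
  rw [this]
  exact sum_mem fun c hc => h3 c (mem_range.1 hc)

end Pool.Agent.Lib.MP_8a52c3_lc.XC
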