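import Pool.Agent.Lib.MP_8a52c3_lc.XCDefs

/-!
Virtual extended formulations (Hertrich and Loho).
-/

namespace Pool.Agent.Lib.MP_8a52c3_lc.XC

open scoped Pointwise

/-- `HasVEF P r`: the set `P` has a virtual extended formulation of size at most `r`: there are
nonempty bounded sets `Q`, `R` with `P + Q = R` (Minkowski sum) that have extended formulations
whose sizes add up to at most `r`. -/
def HasVEF {E : Type} [Fintype E] (P : Set (E → ℝ)) (r : ℕ) : Prop :=
  ∃ (Q R : Set (E → ℝ)) (r₁ r₂ : ℕ), Q.Nonempty ∧ R.Nonempty ∧ Bornology.IsBounded Q ∧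
    Bornology.IsBounded R ∧ P + Q = R ∧ HasEF Q r₁ ∧ HasEF R r₂ ∧ r₁ + r₂ ≤ r

end Pool.Agent.Lib.MP_8a52c3_lc.XC
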