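import Mathlib

/-!
Averages over finite sets: uniformity of polynomial values, moment bounds, and the rectangle bound.
-/

namespace Pool.Agent.Lib.MP_8a52c3_lc.XC

open Finset
open scoped BigOperators

theorem expect_comp_hom {G H : Type} [AddCommGroup G] [AddCommGroup H] [Fintype G] [Fintype H]
    (L : G →+ H) (hL : Function.Surjective L) (Ψ : H → ℝ) :
    𝔼 g, Ψ (L g) = 𝔼 h, Ψ h := by
  have h1 : ∀ h : H, 𝔼 g, Ψ (L g) = 𝔼 g, Ψ (L g + h) := by
    intro h
    obtain ⟨g0, rfl⟩ := hL h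
    exact (Fintype.expect_equiv (Equiv.addRight g0) _ _ (fun g => by simp)).symm
  have h2 : ∀ g : G, 𝔼 h, Ψ (L g + h) = 𝔼 h, Ψ h := fun g =>
    Fintype.expect_equiv (Equiv.addLeft (L g)) _ _ (fun h => by simp)
  calc 𝔼 g, Ψ (L g) = 𝔼 _h : H, 𝔼 g, Ψ (L g) := (Fintype.expect_const _).symm
    _ = 𝔼 h : H, 𝔼 g, Ψ (L g + h) := Finset.expect_congr rfl fun h _ => h1 h
    _ = 𝔼 g, 𝔼 h : H, Ψ (L g + h) := Finset.expect_comm _ _ _
    _ = 𝔼 _g : G, 𝔼 h : H, Ψ h := Finset.expect_congr rfl fun g _ => h2 g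
    _ = 𝔼 h, Ψ h := Fintype.expect_const _

theorem expect_pi_prod {ι α : Type} [Fintype ι] [DecidableEq ι] [Fintype α]
    (g : ι → α → ℝ) : 𝔼 β : ι → α, ∏ i, g i (β i) = ∏ i, 𝔼 y, g i y := by
  simp only [Finset.expect_eq_sum_div_card, Finset.card_univ, Fintype.card_fun]
  rw [Finset.prod_div_distrib, Finset.prod_univ_sum]
  simp

theorem expect_update {ι α : Type} [Fintype ι] [DecidableEq ι] [Fintype α] [Nonempty α]
    (Φ : (ι → α) → ℝ) (i : ι) :
    𝔼 β : ι → α, Φ β = 𝔼 β : ι → α, 𝔼 y, Φ (Function.update β i y) := by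
  let e : (ι → α) × α → (ι → α) × α := fun p => (Function.update p.1 i p.2, p.1 i)
  have he : Function.Involutive e := by
    rintro ⟨β, y⟩
    simp [e]
  have h1 : 𝔼 p : (ι → α) × α, Φ p.1 = 𝔼 p : (ι → α) × α, Φ (Function.update p.1 i p.2) :=
    (Fintype.expect_equiv he.toPerm _ _ (fun p => by simp [e])).symm
  have h2 : 𝔼 p : (ι → α) × α, Φ p.1 = 𝔼 β : ι → α, Φ β := by
    rw [← Finset.univ_product_univ, Finset.expect_product]
    exact Finset.expect_congr rfl fun β _ => Fintype.expect_const (Φ β)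
  rw [← h2, h1, ← Finset.univ_product_univ, Finset.expect_product]

open Classical in
/-- indicator of equality -/
noncomputable def ind {α : Type} (a b : α) : ℝ := if a = b then 1 else 0

theorem ind_nonneg {α : Type} (a b : α) : 0 ≤ ind a b := by
  unfold ind; split_ifs <;> norm_num

theorem ind_le_one {α : Type} (a b : α) : ind a b ≤ 1 := by
  unfold ind; split_ifs <;> norm_num

theorem ind_mul_self {α : Type} (a b : α) : ind a b * ind a b = ind a b := by
  unfold ind; split_ifs <;> norm_num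

theorem sum_ind_mul {α : Type} [Fintype α] (a : α) (g : α → ℝ) : ∑ y, ind a y * g y = g a := by
  classical
  simp [ind]

section poly

variable {F : Type} [Field F]

/-- value at `a` of the polynomial with coefficient vector `p` -/
def ev {t : ℕ} (p : Fin t → F) (a : F) : F := ∑ k, p k * a ^ (k : ℕ)

variable [Fintype F]

theorem ev_uniform {t : ℕ} {ι : Type} [Fintype ι] [DecidableEq ι] (hι : Fintype.card ι ≤ t)
    (pts : ι → F) (hpts : Function.Injective pts) (Ψ : (ι → F) → ℝ) :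
    𝔼 p : Fin t → F, Ψ (fun i => ev p (pts i)) = 𝔼 γ, Ψ γ := by
  classical
  let L : (Fin t → F) →+ (ι → F) :=
    { toFun := fun p i => ev p (pts i)
      map_zero' := by ext i; simp [ev]
      map_add' := by
        intro p q
        ext i
        simp [ev, add_mul, Finset.sum_add_distrib] }
  refine expect_comp_hom L ?_ Ψ
  intro γ
  have hinj : Set.InjOn pts (Finset.univ : Finset ι) := hpts.injOn
  have hdeg := Lagrange.degree_interpolate_lt (s := Finset.univ) (v := pts) γ hinj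
  have hmem : Lagrange.interpolate Finset.univ pts γ ∈ Polynomial.degreeLT F t := by
    rw [Polynomial.mem_degreeLT]
    refine lt_of_lt_of_le hdeg ?_
    exact_mod_cast hι
  refine ⟨Polynomial.degreeLTEquiv F t ⟨_, hmem⟩, ?_⟩
  ext i
  have := Polynomial.eval_eq_sum_degreeLTEquiv hmem (pts i)
  rw [Lagrange.eval_interpolate_at_node γ hinj (Finset.mem_univ i)] at this
  exact this.symm

theorem moment_match {t s n : ℕ} (hn : n ≤ t) (x : Fin s → F) (hx : Function.Injective x)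
    (V : Fin s → F → ℝ) :
    𝔼 p : Fin t → F, (∑ i, V i (ev p (x i))) ^ n = 𝔼 β : Fin s → F, (∑ i, V i (β i)) ^ n := by
  classical
  simp only [Fintype.sum_pow, Finset.expect_sum_comm]
  refine Finset.sum_congr rfl fun f _ => ?_
  let T : Finset (Fin s) := Finset.univ.image f
  have hT : ∀ k, f k ∈ T := fun k => Finset.mem_image_of_mem f (Finset.mem_univ k)
  let Ψ : (T → F) → ℝ := fun γ => ∏ k, V (f k) (γ ⟨f k, hT k⟩)
  have h1 := ev_uniform (t := t) (ι := T) (by
    rw [Fintype.card_coe]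
    exact le_trans Finset.card_image_le (by simpa using hn))
    (fun i => x i) (fun a b h => Subtype.ext (hx h)) Ψ
  let L : (Fin s → F) →+ (T → F) :=
    { toFun := fun β i => β i
      map_zero' := by ext i; simp
      map_add' := by intro p q; ext i; simp }
  have h2 := expect_comp_hom L (by
    intro γ
    refine ⟨fun i => if h : i ∈ T then γ ⟨i, h⟩ else 0, ?_⟩
    ext i
    simp [L]) Ψ
  exact h1.trans h2.symm

omit [Field F] in
theorem expect_ind (b : F) : 𝔼 y : F, ind y b = 1 / Fintype.card F := by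
  classical
  rw [Finset.expect_eq_sum_div_card]
  simp [ind]

theorem ev_one {t : ℕ} (ht : 1 ≤ t) (a b : F) :
    𝔼 p : Fin t → F, ind (ev p a) b = 1 / Fintype.card F := by
  have h := ev_uniform (t := t) (ι := Unit) (by simpa using ht) (fun _ => a)
    (fun _ _ _ => rfl) (fun γ => ind (γ ()) b)
  rw [h]
  have h2 := expect_pi_prod (ι := Unit) (α := F) (fun _ y => ind y b)
  simp only [Finset.univ_unique, PUnit.default_eq_unit, Finset.prod_singleton] at h2
  rw [h2, expect_ind]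

theorem ev_two {t : ℕ} (ht : 2 ≤ t) {a a' : F} (haa : a ≠ a') (b b' : F) :
    𝔼 p : Fin t → F, ind (ev p a) b * ind (ev p a') b' = 1 / (Fintype.card F : ℝ) ^ 2 := by
  have hinj : Function.Injective (![a, a'] : Fin 2 → F) := by
    intro i j h
    fin_cases i <;> fin_cases j <;> simp_all [eq_comm]
  have h := ev_uniform (t := t) (ι := Fin 2) (by simpa using ht) ![a, a'] hinj
    (fun γ => ∏ i, ind (γ i) (![b, b'] i))
  simp only [Fin.prod_univ_two, Matrix.cons_val_zero, Matrix.cons_val_one,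
    Matrix.cons_val_fin_one] at h
  rw [h]
  have h2 := expect_pi_prod (ι := Fin 2) (α := F) (fun i y => ind y (![b, b'] i))
  simp only [Fin.prod_univ_two, Matrix.cons_val_zero, Matrix.cons_val_one,
    Matrix.cons_val_fin_one] at h2
  rw [h2, expect_ind, expect_ind]
  simp [sq]

end poly

section moments

variable {α : Type} [Fintype α] [Nonempty α]

theorem mgf_bound {s : ℕ} (w : Fin s → α → ℝ) (hw : ∀ i y, |w i y| ≤ 1) (θ : ℝ)
    (hθ : |θ| ≤ 1 / 2) :
    𝔼 β : Fin s → α, Real.exp (θ * ∑ i, (w i (β i) - 𝔼 y, w i y)) ≤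
      Real.exp (θ ^ 2 * ∑ i, 𝔼 y, w i y ^ 2) := by
  simp only [Finset.mul_sum, Real.exp_sum]
  rw [expect_pi_prod (fun i y => Real.exp (θ * (w i y - 𝔼 y, w i y)))]
  refine Finset.prod_le_prod (fun i _ => Finset.expect_nonneg fun y _ => (Real.exp_pos _).le)
    fun i _ => ?_
  set μ : ℝ := 𝔼 y, w i y with hμ
  have hμ1 : |μ| ≤ 1 := by
    rw [abs_le]
    constructor
    · exact Finset.le_expect Finset.univ_nonempty fun y _ => (abs_le.1 (hw i y)).1
    · exact Finset.expect_le Finset.univ_nonempty fun y _ => (abs_le.1 (hw i y)).2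
  have h1 : ∀ y, Real.exp (θ * (w i y - μ)) ≤
      (1 - θ * μ + θ ^ 2 * μ ^ 2) + (θ - 2 * θ ^ 2 * μ) * w i y + θ ^ 2 * w i y ^ 2 := by
    intro y
    have hb : |θ * (w i y - μ)| ≤ 1 := by
      rw [abs_mul]
      have : |w i y - μ| ≤ 2 := by
        have := abs_sub (w i y) μ
        linarith [hw i y]
      nlinarith [abs_nonneg θ, abs_nonneg (w i y - μ)]
    have := (abs_le.1 (Real.abs_exp_sub_one_sub_id_le hb)).2
    nlinarith
  calc 𝔼 y, Real.exp (θ * (w i y - μ))
      ≤ 𝔼 y, ((1 - θ * μ + θ ^ 2 * μ ^ 2) + (θ - 2 * θ ^ 2 * μ) * w i y + θ ^ 2 * w i y ^ 2) :=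
        Finset.expect_le_expect fun y _ => h1 y
    _ = 1 - θ ^ 2 * μ ^ 2 + θ ^ 2 * 𝔼 y, w i y ^ 2 := by
        rw [Finset.expect_add_distrib, Finset.expect_add_distrib, Fintype.expect_const,
          ← Finset.mul_expect, ← Finset.mul_expect, ← hμ]
        ring
    _ ≤ Real.exp (θ ^ 2 * 𝔼 y, w i y ^ 2) := by
        have := Real.add_one_le_exp (θ ^ 2 * 𝔼 y, w i y ^ 2)
        nlinarith [mul_nonneg (sq_nonneg θ) (sq_nonneg μ)]

theorem moment_bound {s : ℕ} (w : Fin s → α → ℝ) (hw : ∀ i y, |w i y| ≤ 1) (m : ℕ)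
    (hm : 1 ≤ m) :
    𝔼 β : Fin s → α, (∑ i, (w i (β i) - 𝔼 y, w i y)) ^ (2 * m) ≤
      Real.exp (-(m : ℝ)) * (((∑ i, 𝔼 y, w i y ^ 2) + 241 * m) / 4) ^ (2 * m) := by
  set σ : ℝ := ∑ i, 𝔼 y, w i y ^ 2 with hσ
  have hσ0 : 0 ≤ σ := Finset.sum_nonneg fun i _ => Finset.expect_nonneg fun y _ => sq_nonneg _
  have hm0 : (0 : ℝ) < m := by exact_mod_cast hm
  have hD : 0 < σ + 4 * m := by linarith
  set θ : ℝ := Real.sqrt (m / (σ + 4 * m)) with hθ
  have hθ2 : θ ^ 2 = m / (σ + 4 * m) := Real.sq_sqrt (by positivity)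
  have hθpos : 0 < θ := Real.sqrt_pos.2 (by positivity)
  have hθhalf : |θ| ≤ 1 / 2 := by
    rw [abs_of_pos hθpos]
    have : θ ^ 2 ≤ (1 / 2) ^ 2 := by
      rw [hθ2, div_le_iff₀ hD]
      nlinarith
    exact abs_le_of_sq_le_sq' this (by norm_num) |>.2
  have hexp : Real.exp (θ ^ 2 * σ) ≤ Real.exp m := by
    apply Real.exp_le_exp.2
    rw [hθ2, div_mul_eq_mul_div, div_le_iff₀ hD]
    nlinarith
  have h1 := mgf_bound w hw θ hθhalf
  have h2 := mgf_bound w hw (-θ) (by rwa [abs_neg])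
  rw [neg_sq] at h2
  have hpt : ∀ S : ℝ, S ^ (2 * m) ≤ ((2 * m).factorial / (θ ^ 2) ^ m) *
      (Real.exp (θ * S) + Real.exp (-θ * S)) := by
    intro S
    have h3 := Real.pow_div_factorial_le_exp |θ * S| (abs_nonneg _) (2 * m)
    have h4 : Real.exp |θ * S| ≤ Real.exp (θ * S) + Real.exp (-θ * S) := by
      rcases abs_cases (θ * S) with h | h
      · rw [h.1]; linarith [Real.exp_pos (-θ * S)]
      · rw [h.1, neg_mul]; linarith [Real.exp_pos (θ * S)]
    have h5 : |θ * S| ^ (2 * m) = (θ ^ 2) ^ m * S ^ (2 * m) := by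
      rw [pow_mul, sq_abs, mul_pow, mul_pow, ← pow_mul S]
    have hf : (0 : ℝ) < (2 * m).factorial := by exact_mod_cast Nat.factorial_pos _
    rw [h5, div_le_iff₀ hf] at h3
    have hθm : 0 < (θ ^ 2) ^ m := by positivity
    rw [div_mul_eq_mul_div, le_div_iff₀ hθm]
    nlinarith
  have hfac : ((2 * m).factorial : ℝ) ≤ (4 * (m : ℝ) ^ 2) ^ m := by
    have : (2 * m).factorial ≤ (2 * m) ^ (2 * m) := Nat.factorial_le_pow _
    calc ((2 * m).factorial : ℝ) ≤ ((2 * m) ^ (2 * m) : ℕ) := by exact_mod_cast this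
      _ = (4 * (m : ℝ) ^ 2) ^ m := by push_cast; rw [pow_mul]; congr 1; ring
  have hE : Real.exp 1 ^ 2 ≤ 7.4 := by
    have := Real.exp_one_lt_d9
    have h0 := Real.exp_pos 1
    nlinarith
  calc 𝔼 β : Fin s → α, (∑ i, (w i (β i) - 𝔼 y, w i y)) ^ (2 * m)
      ≤ 𝔼 β : Fin s → α, ((2 * m).factorial / (θ ^ 2) ^ m) *
          (Real.exp (θ * ∑ i, (w i (β i) - 𝔼 y, w i y)) +
            Real.exp (-θ * ∑ i, (w i (β i) - 𝔼 y, w i y))) :=
        Finset.expect_le_expect fun β _ => hpt _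
    _ ≤ ((2 * m).factorial / (θ ^ 2) ^ m) * (2 * Real.exp m) := by
        rw [← Finset.mul_expect, Finset.expect_add_distrib]
        apply mul_le_mul_of_nonneg_left _ (by positivity)
        linarith
    _ ≤ ((4 * (m : ℝ) ^ 2) ^ m / (θ ^ 2) ^ m) * (2 ^ m * Real.exp m) := by
        have h2m : (2 : ℝ) ≤ 2 ^ m := by
          calc (2 : ℝ) = 2 ^ 1 := by norm_num
            _ ≤ 2 ^ m := pow_le_pow_right₀ (by norm_num) hm
        gcongr
    _ = Real.exp (-(m : ℝ)) * (8 * Real.exp 1 ^ 2 * m * (σ + 4 * m)) ^ m := by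
        have e1 : Real.exp (m : ℝ) = Real.exp 1 ^ m := by
          rw [← Real.exp_nat_mul, mul_one]
        have e2 : Real.exp (-(m : ℝ)) = (Real.exp 1 ^ m)⁻¹ := by rw [Real.exp_neg, e1]
        have e3 : (8 * Real.exp 1 ^ 2 * m * (σ + 4 * m)) =
            (4 * (m : ℝ) ^ 2 / θ ^ 2) * 2 * Real.exp 1 * Real.exp 1 := by
          rw [hθ2]; field_simp; ring
        rw [e2, e1, e3]
        simp only [mul_pow, div_pow]
        have : 0 < Real.exp 1 ^ m := by positivity
        field_simp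
    _ ≤ Real.exp (-(m : ℝ)) * ((σ + 241 * m) / 4) ^ (2 * m) := by
        apply mul_le_mul_of_nonneg_left _ (Real.exp_pos _).le
        rw [pow_mul]
        apply pow_le_pow_left₀ (by positivity)
        have hmD : 0 ≤ (m : ℝ) * (σ + 4 * m) := by positivity
        nlinarith [sq_nonneg (σ + 4 * m - 237 * m)]

end moments

end Pool.Agent.Lib.MP_8a52c3_lc.XC
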