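import Pool.Agent.Lib.MP_8a52c3_lc.XCDefs
import Pool.Agent.Lib.MP_8a52c3_lc.XCProb

/-!
Linear algebra of the monomial vector families: curves have small rank, random words are almost
independent.
-/

namespace Pool.Agent.Lib.MP_8a52c3_lc.XC

open Finset Polynomial
open scoped BigOperators

variable {K F : Type} [Field K] [Field F] [Algebra K F]

/-- the vector of monomial values at the point `(a, b)` -/
def bv (t : ℕ) (a b : F) : Fin (t ^ 2) × Fin t → F := fun ij => a ^ (ij.1 : ℕ) * b ^ (ij.2 : ℕ)

theorem monoVec_eq {e : ℕ} (w : Fin e → F) (t : ℕ) (z : F × F × Fin e) :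
    monoVec w t z = w z.2.2 • bv t z.1 z.2.1 := by
  ext ij
  simp [monoVec, bv, mul_assoc]

theorem finrank_fun {e : ℕ} (w : Module.Basis (Fin e) K F) (ι : Type) [Fintype ι] :
    Module.finrank K (ι → F) = Fintype.card ι * e := by
  have := Module.Finite.of_basis w
  rw [Module.finrank_pi_fintype, Module.finrank_eq_card_basis w]
  simp

theorem sum_indicator_eq {E : Type} [Fintype E] (I : Set E) :
    ∑ z, I.indicator (1 : E → ℝ) z = Nat.card I := by
  classical
  rw [Nat.card_eq_fintype_card, Fintype.card_subtype]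
  simp [Set.indicator_apply]

theorem curve_le [Fintype F] {e : ℕ} (w : Module.Basis (Fin e) K F) (t : ℕ)
    (p : Fin t → F) (I : Set (F × F × Fin e)) (hI : LinearIndepOn K (monoVec w t) I) :
    ∑ z, ind (ev p z.1) z.2.1 * I.indicator (1 : F × F × Fin e → ℝ) z ≤ 2 * t ^ 2 * e := by
  classical
  have := Module.Finite.of_basis w
  let J : Set (F × F × Fin e) := {z | z ∈ I ∧ ev p z.1 = z.2.1}
  have hJ : LinearIndepOn K (monoVec w t) J := hI.mono fun z hz => hz.1
  have hsum : ∑ z, ind (ev p z.1) z.2.1 * I.indicator (1 : F × F × Fin e → ℝ) z =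
      Nat.card J := by
    rw [← sum_indicator_eq]
    refine Finset.sum_congr rfl fun z _ => ?_
    by_cases h1 : z ∈ I <;> by_cases h2 : ev p z.1 = z.2.1 <;> simp [ind, J, h1, h2]
  let P : F[X] := ∑ k : Fin t, C (p k) * X ^ (k : ℕ)
  have hPe : ∀ a, P.eval a = ev p a := fun a => by simp [P, ev, Polynomial.eval_finsetSum]
  have hPd : P.natDegree ≤ t := by
    refine Polynomial.natDegree_sum_le_of_forall_le _ _ fun k _ => ?_
    exact le_trans (Polynomial.natDegree_C_mul_X_pow_le _ _) k.2.le
  have hdeg : ∀ ij : Fin (t ^ 2) × Fin t,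
      (X ^ (ij.1 : ℕ) * P ^ (ij.2 : ℕ)).natDegree < 2 * t ^ 2 := by
    intro ij
    have h1 := Polynomial.natDegree_mul_le (p := (X : F[X]) ^ (ij.1 : ℕ)) (q := P ^ (ij.2 : ℕ))
    have h2 := Polynomial.natDegree_pow_le (p := P) (n := (ij.2 : ℕ))
    rw [Polynomial.natDegree_X_pow] at h1
    have h3 := ij.1.2
    have h4 : (ij.2 : ℕ) * P.natDegree ≤ t * t := Nat.mul_le_mul ij.2.2.le hPd
    nlinarith
  let Φ : (Fin (2 * t ^ 2) → F) →ₗ[F] (Fin (t ^ 2) × Fin t → F) :=
    (Matrix.of fun (ij : Fin (t ^ 2) × Fin t) (k : Fin (2 * t ^ 2)) =>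
      (X ^ (ij.1 : ℕ) * P ^ (ij.2 : ℕ)).coeff k).mulVecLin
  let g : J → Fin (2 * t ^ 2) → F := fun z k => w z.1.2.2 * z.1.1 ^ (k : ℕ)
  have hg : (Φ.restrictScalars K) ∘ g = fun z : J => monoVec w t z.1 := by
    ext z ij
    have h1 := Polynomial.eval_eq_sum_range' (hdeg ij) z.1.1
    rw [Polynomial.eval_mul, Polynomial.eval_pow, Polynomial.eval_pow, Polynomial.eval_X, hPe,
      z.2.2, Finset.sum_range] at h1
    simp only [Function.comp_apply, LinearMap.restrictScalars_apply, Φ, Matrix.mulVecLin_apply,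
      Matrix.mulVec, dotProduct, Matrix.of_apply, g, monoVec]
    rw [mul_assoc, h1, Finset.mul_sum]
    exact Finset.sum_congr rfl fun k _ => by ring
  have hli : LinearIndependent K g := by
    apply LinearIndependent.of_comp (Φ.restrictScalars K)
    rw [hg]
    exact hJ
  have := hli.fintype_card_le_finrank
  rw [finrank_fun w, Fintype.card_fin] at this
  rw [hsum, Nat.card_eq_fintype_card]
  exact_mod_cast this

theorem exists_nonvanishing {t : ℕ} {ι : Type} (a : F) (x y : ι → F) (hx : ∀ k, x k ≠ a) :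
    ∀ (N : ℕ) (A : Fin t → F[X]), A ≠ 0 → (∀ j, (A j).degree < N) →
      (∀ k, ∑ j, (A j).eval (x k) * y k ^ (j : ℕ) = 0) →
      ∃ A' : Fin t → F[X], (∀ j, (A' j).degree < N) ∧
        (∀ k, ∑ j, (A' j).eval (x k) * y k ^ (j : ℕ) = 0) ∧ ∃ j, (A' j).eval a ≠ 0 := by
  intro N
  induction N with
  | zero =>
    intro A hA hdeg _
    exfalso
    apply hA
    ext1 j
    have := hdeg j
    simpa using this
  | succ N ih =>
    intro A hA hdeg hvan
    by_cases h : ∃ j, (A j).eval a ≠ 0
    · exact ⟨A, hdeg, hvan, h⟩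
    push Not at h
    have hdvd : ∀ j, ∃ B, A j = (X - C a) * B := fun j => Polynomial.dvd_iff_isRoot.2 (h j)
    choose B hB using hdvd
    obtain ⟨A', h1, h2, h3⟩ := ih B (by
      intro hB0
      apply hA
      ext1 j
      rw [hB j, hB0]
      simp) (by
      intro j
      have h1 := hdeg j
      rw [hB j, Polynomial.degree_mul, Polynomial.degree_X_sub_C] at h1
      by_cases h0 : B j = 0
      · rw [h0, Polynomial.degree_zero]; exact WithBot.bot_lt_coe _
      · rw [Polynomial.degree_eq_natDegree h0] at h1 ⊢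
        have : (1 + (B j).natDegree : ℕ) < N + 1 := by exact_mod_cast h1
        exact_mod_cast (by omega : (B j).natDegree < N)) (by
      intro k
      have h1 := hvan k
      simp only [hB, Polynomial.eval_mul, Polynomial.eval_sub, Polynomial.eval_X,
        Polynomial.eval_C, mul_assoc, ← Finset.mul_sum] at h1
      exact (mul_eq_zero.1 h1).resolve_left (sub_ne_zero.2 (hx k)))
    refine ⟨A', fun j => lt_of_lt_of_le (h1 j) ?_, h2, h3⟩
    exact_mod_cast Nat.le_succ N

theorem card_span_le [Fintype F] {t : ℕ} {ι : Type} [Fintype ι] (hι : Fintype.card ι < t ^ 3)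
    (a : F) (x y : ι → F) (hx : ∀ k, x k ≠ a) (Z : Finset F)
    (hZ : ∀ b ∈ Z, bv t a b ∈ Submodule.span F (Set.range fun k => bv t (x k) (y k))) :
    Z.card ≤ t := by
  classical
  let L : (Fin (t ^ 2) × Fin t → F) →ₗ[F] (ι → F) :=
    (Matrix.of fun k ij => bv t (x k) (y k) ij).mulVecLin
  have hker : LinearMap.ker L ≠ ⊥ := by
    apply LinearMap.ker_ne_bot_of_finrank_lt
    simp only [Module.finrank_fintype_fun_eq_card, Fintype.card_prod, Fintype.card_fin]
    calc Fintype.card ι < t ^ 3 := hι
      _ = t ^ 2 * t := by ring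
  obtain ⟨c, hc, hc0⟩ := Submodule.exists_mem_ne_zero_of_ne_bot hker
  let A : Fin t → F[X] := fun j => (Polynomial.degreeLTEquiv F (t ^ 2)).symm (fun i => c (i, j))
  have hAmem : ∀ j, A j ∈ Polynomial.degreeLT F (t ^ 2) := fun j =>
    ((Polynomial.degreeLTEquiv F (t ^ 2)).symm (fun i => c (i, j))).2
  have hAe : ∀ j b, (A j).eval b = ∑ i : Fin (t ^ 2), c (i, j) * b ^ (i : ℕ) := by
    intro j b
    rw [Polynomial.eval_eq_sum_degreeLTEquiv (hAmem j)]
    simp [A]
  obtain ⟨A', h1, h2, j0, h3⟩ := exists_nonvanishing a x y hx (t ^ 2) A (by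
    intro hA
    apply hc0
    ext ⟨i, j⟩
    have h1 : (Polynomial.degreeLTEquiv F (t ^ 2)).symm (fun i => c (i, j)) = 0 :=
      Subtype.ext (congrFun hA j)
    have h2 := congrFun ((LinearEquiv.map_eq_zero_iff _).1 h1) i
    simpa using h2) (fun j => Polynomial.mem_degreeLT.1 (hAmem j)) (by
    intro k
    have h1 := congrFun (LinearMap.mem_ker.1 hc) k
    simp only [L, Matrix.mulVecLin_apply, Matrix.mulVec, dotProduct, Matrix.of_apply, bv,
      Pi.zero_apply, Fintype.sum_prod_type_right] at h1
    rw [← h1]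
    refine Finset.sum_congr rfl fun j _ => ?_
    rw [hAe, Finset.sum_mul]
    exact Finset.sum_congr rfl fun i _ => by ring)
  let ℓ : (Fin (t ^ 2) × Fin t → F) →ₗ[F] F :=
    ∑ ij : Fin (t ^ 2) × Fin t, (A' ij.2).coeff ij.1 • LinearMap.proj ij
  have hℓ : ∀ u v, ℓ (bv t u v) = ∑ j, (A' j).eval u * v ^ (j : ℕ) := by
    intro u v
    simp only [ℓ, LinearMap.sum_apply, LinearMap.smul_apply, LinearMap.proj_apply, smul_eq_mul,
      bv, Fintype.sum_prod_type_right]
    refine Finset.sum_congr rfl fun j _ => ?_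
    rw [Polynomial.eval_eq_sum_degreeLTEquiv (Polynomial.mem_degreeLT.2 (h1 j)), Finset.sum_mul]
    refine Finset.sum_congr rfl fun i _ => ?_
    simp [Polynomial.degreeLTEquiv, mul_assoc]
  have hspan : Submodule.span F (Set.range fun k => bv t (x k) (y k)) ≤ LinearMap.ker ℓ := by
    rw [Submodule.span_le]
    rintro _ ⟨k, rfl⟩
    simp only [SetLike.mem_coe, LinearMap.mem_ker, hℓ, h2]
  let G : F[X] := ∑ j : Fin t, C ((A' j).eval a) * X ^ (j : ℕ)
  have hG0 : G ≠ 0 := by
    intro hG
    apply h3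
    have := congrArg (fun Q : F[X] => Q.coeff j0) hG
    simpa [G, Polynomial.finsetSum_coeff, Polynomial.coeff_X_pow, Fin.val_inj] using this
  have hGd : G.natDegree ≤ t := by
    refine Polynomial.natDegree_sum_le_of_forall_le _ _ fun k _ => ?_
    exact le_trans (Polynomial.natDegree_C_mul_X_pow_le _ _) k.2.le
  refine le_trans (Polynomial.card_le_degree_of_subset_roots (p := G) ?_) hGd
  intro b hb
  rw [Polynomial.mem_roots hG0, Polynomial.IsRoot.def]
  have := hspan (hZ b hb)
  rw [LinearMap.mem_ker, hℓ] at this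
  simpa [G, Polynomial.eval_finsetSum] using this

open Classical in
/-- indicator that the `i`-th point of the word is spanned by the other points -/
noncomputable def bad (t : ℕ) {s : ℕ} (x β : Fin s → F) (i : Fin s) : ℝ :=
  if bv t (x i) (β i) ∈ Submodule.span F
    (Set.range fun k : {k // k ≠ i} => bv t (x k) (β k)) then 1 else 0

theorem expect_bad [Fintype F] {t : ℕ} (x : Fin (t ^ 3) → F) (hx : Function.Injective x)
    (i : Fin (t ^ 3)) : 𝔼 β, bad t x β i ≤ t / (Fintype.card F : ℝ) := by
  classical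
  rw [expect_update _ i]
  refine Finset.expect_le Finset.univ_nonempty fun β _ => ?_
  have hq : (0 : ℝ) < Fintype.card F := by exact_mod_cast Fintype.card_pos
  rw [Finset.expect_eq_sum_div_card, Finset.card_univ]
  apply div_le_div_of_nonneg_right _ hq.le
  have hupd : ∀ y, (fun k : {k // k ≠ i} => bv t (x k) (Function.update β i y k)) =
      fun k : {k // k ≠ i} => bv t (x k) (β k) := by
    intro y
    ext1 k
    rw [Function.update_of_ne k.2]
  simp only [bad, hupd, Function.update_self, Finset.sum_boole]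
  have := card_span_le (t := t) (ι := {k // k ≠ i}) (by
      simp only [ne_eq, Fintype.card_subtype_compl, Fintype.card_fin, Fintype.card_unique]
      have := i.pos
      omega) (x i) (fun k => x k) (fun k => β k) (fun k h => k.2 (hx h))
    (Finset.univ.filter fun y => bv t (x i) y ∈ Submodule.span F
      (Set.range fun k : {k // k ≠ i} => bv t (x k) (β k))) (fun b hb => by simpa using hb)
  exact_mod_cast this

/-- indicator vector of the word `β`, with all `e` copies of each point -/
noncomputable def yv {e s : ℕ} (x β : Fin s → F) (z : F × F × Fin e) : ℝ :=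
  ∑ i, ind z.1 (x i) * ind z.2.1 (β i)

omit [Field F] in
theorem sum_point [Fintype F] {e : ℕ} (a b : F) (g : F → F → ℝ) :
    ∑ z : F × F × Fin e, ind z.1 a * ind z.2.1 b * g z.1 z.2.1 = e * g a b := by
  classical
  simp [Fintype.sum_prod_type, ind]

theorem exists_basis [Fintype F] {e : ℕ} (w : Module.Basis (Fin e) K F) {t : ℕ}
    (x : Fin (t ^ 3) → F) (hx : Function.Injective x) (β : Fin (t ^ 3) → F) :
    ∃ B : Set (F × F × Fin e), Maximal (LinearIndepOn K (monoVec w t)) B ∧
      ∑ z, |B.indicator (1 : F × F × Fin e → ℝ) z - yv x β z| ≤ 2 * e * ∑ i, bad t x β i := by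
  classical
  have := Module.Finite.of_basis w
  let Kp : Set (Fin (t ^ 3)) := {i | bad t x β i = 0}
  have hKp : LinearIndepOn F (fun i => bv t (x i) (β i)) Kp := by
    rw [linearIndepOn_iff_notMem_span]
    intro i hi hmem
    have h1 : bv t (x i) (β i) ∈ Submodule.span F
        (Set.range fun k : {k // k ≠ i} => bv t (x k) (β k)) := by
      refine Submodule.span_mono ?_ hmem
      rintro _ ⟨k, hk, rfl⟩
      exact ⟨⟨k, hk.2⟩, rfl⟩
    have h2 : bad t x β i = 0 := hi
    simp [bad, h1] at h2
  let g : Fin e × Kp → F × F × Fin e := fun p => (x p.2, β p.2, p.1)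
  have hg : Function.Injective g := by
    rintro ⟨l, i⟩ ⟨l', i'⟩ h
    simp only [g, Prod.mk.injEq] at h
    exact Prod.ext h.2.2 (Subtype.ext (hx h.1))
  have hI : LinearIndepOn K (monoVec w t) (Set.range g) := by
    rw [linearIndepOn_range_iff hg]
    have := linearIndependent_smul w.linearIndependent hKp.linearIndependent
    convert this using 1
    ext1 p
    simp [g, monoVec_eq]
  obtain ⟨B, hIB, hB⟩ := Finite.exists_le_maximal hI
  refine ⟨B, hB, ?_⟩
  have hcard : ∑ z, B.indicator (1 : F × F × Fin e → ℝ) z ≤ e * t ^ 3 := by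
    have := hB.prop.linearIndependent.fintype_card_le_finrank
    rw [finrank_fun w] at this
    simp only [Fintype.card_prod, Fintype.card_fin] at this
    rw [sum_indicator_eq, Nat.card_eq_fintype_card]
    have h2 : (Fintype.card B : ℝ) ≤ ((t ^ 2 * t * e : ℕ) : ℝ) := by exact_mod_cast this
    push_cast at h2
    linarith
  have hbad : ∀ i, bad t x β i = 0 ∨ bad t x β i = 1 := fun i => by
    unfold bad; split_ifs <;> simp
  let yK : F × F × Fin e → ℝ := fun z =>
    ∑ i, ind z.1 (x i) * ind z.2.1 (β i) * (1 - bad t x β i)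
  have hyK : ∀ z, yK z ≤ B.indicator (1 : F × F × Fin e → ℝ) z := by
    intro z
    by_cases hz : ∃ i, z.1 = x i
    · obtain ⟨i, hi⟩ := hz
      have h1 : yK z = ind z.2.1 (β i) * (1 - bad t x β i) := by
        simp only [yK]
        rw [Finset.sum_eq_single i]
        · simp [ind, hi]
        · intro j _ hj
          have : z.1 ≠ x j := fun h => hj (hx (h.symm.trans hi))
          simp [ind, this]
        · simp
      rw [h1]
      rcases hbad i with h | h
      · by_cases h2 : z.2.1 = β i
        · have hzB : z ∈ B := hIB ⟨(z.2.2, ⟨i, h⟩), by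
            simp only [g]
            ext <;> simp [hi, h2]⟩
          simp [ind, h, h2, hzB]
        · simp only [ind, h2, if_false, zero_mul]
          exact Set.indicator_nonneg (fun _ _ => zero_le_one) z
      · simp only [h, sub_self, mul_zero]
        exact Set.indicator_nonneg (fun _ _ => zero_le_one) z
    · push Not at hz
      have h1 : yK z = 0 := Finset.sum_eq_zero fun i _ => by simp [ind, hz i]
      rw [h1]
      exact Set.indicator_nonneg (fun _ _ => zero_le_one) z
  have hyK2 : ∀ z, yK z ≤ yv x β z := by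
    intro z
    refine Finset.sum_le_sum fun i _ => ?_
    have := mul_nonneg (ind_nonneg z.1 (x i)) (ind_nonneg z.2.1 (β i))
    rcases hbad i with h | h <;> simp [h, this]
  have hs1 : ∑ z, yK z = e * t ^ 3 - e * ∑ i, bad t x β i := by
    simp only [yK]
    rw [Finset.sum_comm]
    have : ∀ i, ∑ z : F × F × Fin e, ind z.1 (x i) * ind z.2.1 (β i) * (1 - bad t x β i) =
        e * (1 - bad t x β i) := fun i =>
      sum_point (e := e) (x i) (β i) (fun _ _ => 1 - bad t x β i)
    simp only [this, ← Finset.mul_sum, Finset.sum_sub_distrib]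
    simp [mul_sub]
  have hs2 : ∑ z : F × F × Fin e, yv x β z = e * t ^ 3 := by
    simp only [yv]
    rw [Finset.sum_comm]
    have : ∀ i, ∑ z : F × F × Fin e, ind z.1 (x i) * ind z.2.1 (β i) = e := fun i => by
      simpa using sum_point (e := e) (x i) (β i) (fun _ _ => 1)
    simp [this, mul_comm]
  calc ∑ z, |B.indicator (1 : F × F × Fin e → ℝ) z - yv x β z|
      ≤ ∑ z, ((B.indicator (1 : F × F × Fin e → ℝ) z - yK z) + (yv x β z - yK z)) := by
        refine Finset.sum_le_sum fun z _ => abs_le.2 ⟨?_, ?_⟩ <;> linarith [hyK z, hyK2 z]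
    _ ≤ 2 * e * ∑ i, bad t x β i := by
        rw [Finset.sum_add_distrib, Finset.sum_sub_distrib, Finset.sum_sub_distrib, hs1, hs2]
        linarith

end Pool.Agent.Lib.MP_8a52c3_lc.XC
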