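import Pool.Agent.Lib.MP_8a52c3_lc.XCProb

/-!
The rectangle bound: a product weight cannot lower the expected agreement by much unless it is
exponentially small.
-/

namespace Pool.Agent.Lib.MP_8a52c3_lc.XC

open Finset
open scoped BigOperators

variable {F : Type} [Field F] [Fintype F]

/-- centred agreement deficit between the polynomial `p` and the word `β` -/
noncomputable def Zf {t s : ℕ} (x : Fin s → F) (p : Fin t → F) (β : Fin s → F) : ℝ :=
  ∑ i, (1 / (Fintype.card F : ℝ) - ind (ev p (x i)) (β i))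

theorem Zf_le {t s : ℕ} (x : Fin s → F) (p : Fin t → F) (β : Fin s → F) :
    Zf x p β ≤ s / (Fintype.card F : ℝ) := by
  unfold Zf
  calc ∑ i, (1 / (Fintype.card F : ℝ) - ind (ev p (x i)) (β i))
      ≤ ∑ _i : Fin s, 1 / (Fintype.card F : ℝ) :=
        Finset.sum_le_sum fun i _ => by linarith [ind_nonneg (ev p (x i)) (β i)]
    _ = s / (Fintype.card F : ℝ) := by simp [div_eq_mul_inv]

theorem exp_neg_le_huber (z : ℝ) (hz : -1 ≤ z) :
    Real.exp (-z) ≤ 1 - z + (2 * (min z 1 * z) - min z 1 ^ 2) := by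
  rcases le_total z 1 with h | h
  · rw [min_eq_left h]
    have hb : |(-z)| ≤ 1 := abs_le.2 ⟨by linarith, by linarith⟩
    have := (abs_le.1 (Real.abs_exp_sub_one_sub_id_le hb)).2
    nlinarith
  · rw [min_eq_right h]
    have : Real.exp (-z) ≤ 1 := Real.exp_le_one_iff.2 (by linarith)
    linarith

theorem le_add_mul_pow (S K : ℝ) (hK : 0 < K) (m : ℕ) (hm : 1 ≤ m) :
    S ≤ K + K * (S ^ (2 * m) / K ^ (2 * m)) := by
  have h0 : 0 ≤ S ^ (2 * m) / K ^ (2 * m) := by
    rw [pow_mul]; positivity
  rcases le_total S K with h | h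
  · nlinarith
  · have h1 : 1 ≤ S / K := (one_le_div hK).2 h
    have h2 : S / K ≤ (S / K) ^ (2 * m) := by
      calc S / K = (S / K) ^ 1 := (pow_one _).symm
        _ ≤ (S / K) ^ (2 * m) := pow_le_pow_right₀ h1 (by omega)
    rw [div_pow] at h2
    have h3 : S = K * (S / K) := by field_simp
    nlinarith

theorem rect_bound {t s m : ℕ} (x : Fin s → F) (hx : Function.Injective x) (hm : 1 ≤ m)
    (hmt : 2 * m ≤ t) (hs : 1 ≤ s) (Δ : ℝ) (hΔ : 242 * (m : ℝ) ≤ Fintype.card F * Δ)
    (U : (Fin t → F) → ℝ) (hU0 : ∀ p, 0 ≤ U p) (hU1 : ∀ p, U p ≤ 1)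
    (V : (Fin s → F) → ℝ) (hV0 : ∀ β, 0 ≤ V β) (hV1 : ∀ β, V β ≤ 1) :
    𝔼 p, 𝔼 β, U p * V β * (Zf x p β - Δ) ≤
      Real.exp (-(m : ℝ)) * (s / (Fintype.card F : ℝ)) := by
  classical
  set q : ℝ := (Fintype.card F : ℝ) with hq
  have hqpos : 0 < q := by rw [hq]; exact_mod_cast Fintype.card_pos
  have hm0 : (0 : ℝ) < m := by exact_mod_cast hm
  have hs1 : (1 : ℝ) ≤ s := by exact_mod_cast hs
  have hΔ0 : 0 ≤ Δ := by
    by_contra h
    push Not at h
    nlinarith
  set a : ℝ := 𝔼 p, U p with ha
  have ha1 : a ≤ 1 := Finset.expect_le Finset.univ_nonempty fun p _ => hU1 p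
  rcases le_or_gt a (Real.exp (-(m : ℝ))) with hsmall | hbig
  · calc 𝔼 p, 𝔼 β, U p * V β * (Zf x p β - Δ) ≤ 𝔼 p, U p * (s / q) := by
          refine Finset.expect_le_expect fun p _ => ?_
          refine Finset.expect_le Finset.univ_nonempty fun β _ => ?_
          have h1 := Zf_le x p β
          have h2 : 0 ≤ (s : ℝ) / q := by positivity
          have h3 : V β * (Zf x p β - Δ) ≤ s / q := by
            have := hV0 β
            have := hV1 β
            rcases le_total 0 (Zf x p β - Δ) with h | h <;> nlinarith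
          rw [mul_assoc]
          exact mul_le_mul_of_nonneg_left h3 (hU0 p)
      _ = a * (s / q) := by rw [← Finset.expect_mul]
      _ ≤ _ := mul_le_mul_of_nonneg_right hsmall (by positivity)
  have hapos : 0 < a := lt_trans (Real.exp_pos _) hbig
  let u : Fin s → F → ℝ := fun i y => (𝔼 p, U p * ind (ev p (x i)) y) / a
  have hu0 : ∀ i y, 0 ≤ u i y := fun i y =>
    div_nonneg (Finset.expect_nonneg fun p _ => mul_nonneg (hU0 p) (ind_nonneg _ _)) hapos.le
  have hug : ∀ i (g : F → ℝ), ∑ y, u i y * g y = (𝔼 p, U p * g (ev p (x i))) / a := by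
    intro i g
    simp only [u, div_mul_eq_mul_div, ← Finset.sum_div, Finset.expect_mul]
    rw [← Finset.expect_sum_comm]
    congr 1
    refine Finset.expect_congr rfl fun p _ => ?_
    simp only [mul_assoc, ← Finset.mul_sum, sum_ind_mul]
  let z : Fin s → F → ℝ := fun i y => q * u i y - 1
  have hz : ∀ i y, -1 ≤ z i y := fun i y => by
    have := mul_nonneg hqpos.le (hu0 i y)
    simp only [z]; linarith
  have hzg : ∀ i (g : F → ℝ), 𝔼 y, g y * z i y =
      (𝔼 p, U p * g (ev p (x i))) / a - 𝔼 y, g y := by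
    intro i g
    rw [← hug i g]
    simp only [z, mul_sub, mul_one, Finset.expect_sub_distrib]
    congr 1
    rw [Finset.expect_eq_sum_div_card, Finset.card_univ, ← hq, div_eq_iff hqpos.ne',
      Finset.sum_mul]
    exact Finset.sum_congr rfl fun y _ => by ring
  have hz0 : ∀ i, 𝔼 y, z i y = 0 := by
    intro i
    have := hzg i (fun _ => 1)
    simp only [one_mul, mul_one, Fintype.expect_const] at this
    rw [this, ← ha, div_self hapos.ne', sub_self]
  let w : Fin s → F → ℝ := fun i y => min (z i y) 1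
  have hw : ∀ i y, |w i y| ≤ 1 := fun i y =>
    abs_le.2 ⟨le_min (hz i y) (by norm_num), min_le_right _ _⟩
  set σ : ℝ := ∑ i, 𝔼 y, w i y ^ 2 with hσ
  have hσ0 : 0 ≤ σ := Finset.sum_nonneg fun i _ => Finset.expect_nonneg fun y _ => sq_nonneg _
  set K : ℝ := (σ + 241 * m) / 4 with hK
  have hKpos : 0 < K := by rw [hK]; positivity
  let S : (Fin t → F) → ℝ := fun p => ∑ i, (w i (ev p (x i)) - 𝔼 y, w i y)
  have hmom : 𝔼 p, S p ^ (2 * m) ≤ Real.exp (-(m : ℝ)) * K ^ (2 * m) := by
    have h1 := moment_match (t := t) hmt x hx (fun i y => w i y - 𝔼 y, w i y)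
    have h2 := moment_bound w hw m hm
    simp only [S]
    rw [h1]
    exact h2
  have hUS : 𝔼 p, U p * S p ≤ 2 * a * K := by
    have hKm : 0 < K ^ (2 * m) := by positivity
    calc 𝔼 p, U p * S p ≤ 𝔼 p, (U p * K + (K / K ^ (2 * m)) * S p ^ (2 * m)) := by
          refine Finset.expect_le_expect fun p _ => ?_
          have h1 := le_add_mul_pow (S p) K hKpos m hm
          have h2 : 0 ≤ K * (S p ^ (2 * m) / K ^ (2 * m)) := by
            rw [pow_mul (S p)]; positivity
          have h3 : K / K ^ (2 * m) * S p ^ (2 * m) = K * (S p ^ (2 * m) / K ^ (2 * m)) := by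
            ring
          have := hU0 p
          have := hU1 p
          rw [h3]
          nlinarith
      _ = a * K + (K / K ^ (2 * m)) * 𝔼 p, S p ^ (2 * m) := by
          rw [Finset.expect_add_distrib, ← Finset.expect_mul, ← Finset.mul_expect]
      _ ≤ a * K + (K / K ^ (2 * m)) * (a * K ^ (2 * m)) := by
          gcongr
          exact hmom.trans (mul_le_mul_of_nonneg_right hbig.le hKm.le)
      _ = 2 * a * K := by field_simp; ring
  have hT : ∑ i, 𝔼 y, (2 * (w i y * z i y) - w i y ^ 2) ≤ 241 * (m : ℝ) := by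
    have h1 : ∑ i, 𝔼 y, w i y * z i y = (𝔼 p, U p * S p) / a := by
      simp only [hzg, S, Finset.mul_sum, mul_sub, Finset.expect_sum_comm,
        Finset.expect_sub_distrib, Finset.sum_div, sub_div, ← Finset.expect_mul, ← ha]
      refine Finset.sum_congr rfl fun i _ => ?_
      field_simp
    have h2 : (𝔼 p, U p * S p) / a ≤ 2 * K := by
      rw [div_le_iff₀ hapos]; linarith
    simp only [Finset.expect_sub_distrib, ← Finset.mul_expect, Finset.sum_sub_distrib,
      ← Finset.mul_sum, h1, ← hσ]
    linarith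
  have hexp : 𝔼 β : Fin s → F, Real.exp (∑ i, -z i (β i)) ≤ Real.exp (241 * m) := by
    simp only [Real.exp_sum]
    rw [expect_pi_prod (fun i y => Real.exp (-z i y))]
    refine le_trans ?_ (Real.exp_le_exp.2 hT)
    rw [Real.exp_sum]
    refine Finset.prod_le_prod (fun i _ => Finset.expect_nonneg fun y _ => (Real.exp_pos _).le)
      fun i _ => ?_
    calc 𝔼 y, Real.exp (-z i y) ≤ 𝔼 y, (1 - z i y + (2 * (w i y * z i y) - w i y ^ 2)) :=
          Finset.expect_le_expect fun y _ => exp_neg_le_huber _ (hz i y)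
      _ = (𝔼 y, (2 * (w i y * z i y) - w i y ^ 2)) + 1 := by
          rw [Finset.expect_add_distrib, Finset.expect_sub_distrib, hz0, Fintype.expect_const]
          ring
      _ ≤ _ := Real.add_one_le_exp _
  rw [Finset.expect_comm]
  calc 𝔼 β, 𝔼 p, U p * V β * (Zf x p β - Δ)
      ≤ 𝔼 β : Fin s → F, (Real.exp (-(q * Δ)) / q) * Real.exp (∑ i, -z i (β i)) := by
        refine Finset.expect_le_expect fun β _ => ?_
        have h1 : 𝔼 p, U p * V β * (Zf x p β - Δ) =
            (V β * a) * (((∑ i, -z i (β i)) - q * Δ) / q) := by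
          have h2 : ∀ p, U p * V β * (Zf x p β - Δ) =
              V β * ((∑ i, (U p * (1 / q) - U p * ind (ev p (x i)) (β i))) - U p * Δ) := by
            intro p
            simp only [Zf, ← hq, ← mul_sub, ← Finset.mul_sum]
            ring
          simp only [h2, ← Finset.mul_expect, Finset.expect_sub_distrib, Finset.expect_sum_comm,
            ← Finset.expect_mul, ← ha]
          have h3 : ∀ i, a * (1 / q) - 𝔼 p, U p * ind (ev p (x i)) (β i) =
              a / q * -z i (β i) := by
            intro i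
            simp only [z, u]
            field_simp
            ring
          simp only [h3, ← Finset.mul_sum]
          field_simp
        rw [h1]
        set v : ℝ := (∑ i, -z i (β i)) - q * Δ with hv
        have h4 : Real.exp (-(q * Δ)) / q * Real.exp (∑ i, -z i (β i)) = Real.exp v / q := by
          rw [hv, sub_eq_add_neg, Real.exp_add]; ring
        rw [h4, ← mul_div_assoc]
        apply div_le_div_of_nonneg_right _ hqpos.le
        have h5 : 0 ≤ V β * a := mul_nonneg (hV0 β) hapos.le
        have h6 : V β * a ≤ 1 := by nlinarith [hV0 β, hV1 β]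
        have h7 := Real.add_one_le_exp v
        have h8 := Real.exp_pos v
        rcases le_total 0 v with h | h <;> nlinarith
    _ ≤ (Real.exp (-(q * Δ)) / q) * Real.exp (241 * m) := by
        rw [← Finset.mul_expect]
        exact mul_le_mul_of_nonneg_left hexp (by positivity)
    _ ≤ Real.exp (-(m : ℝ)) * (s / q) := by
        have h1 : Real.exp (-(q * Δ)) * Real.exp (241 * m) ≤ Real.exp (-(m : ℝ)) := by
          rw [← Real.exp_add]
          exact Real.exp_le_exp.2 (by linarith)
        have h2 := Real.exp_pos (-(m : ℝ))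
        rw [div_mul_eq_mul_div, ← mul_div_assoc]
        apply div_le_div_of_nonneg_right _ hqpos.le
        nlinarith

end Pool.Agent.Lib.MP_8a52c3_lc.XC
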