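import Pool.Agent.Lib.MP_8a52c3_lc.XCFarkas
import Pool.Agent.Lib.MP_8a52c3_lc.XCRect
import Pool.Agent.Lib.MP_8a52c3_lc.XCAlg

/-!
The lower bound on (approximate) extended formulations of the monomial matroids.
-/

namespace Pool.Agent.Lib.MP_8a52c3_lc.XC

open Finset
open scoped BigOperators Pointwise

variable {K F : Type} [Field K] [Field F] [Fintype F] [Algebra K F]

theorem expect_Zf {t s : ℕ} (ht : 1 ≤ t) (x β : Fin s → F) :
    𝔼 p : Fin t → F, Zf x p β = 0 := by
  simp only [Zf, Finset.expect_sum_comm, Finset.expect_sub_distrib, ev_one ht,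
    Fintype.expect_const, sub_self, Finset.sum_const_zero]

theorem expect_Zf_sq {t s : ℕ} (ht : 2 ≤ t) (x : Fin s → F) (hx : Function.Injective x)
    (β : Fin s → F) : 𝔼 p : Fin t → F, Zf x p β * Zf x p β =
      s * (1 / (Fintype.card F : ℝ) - 1 / (Fintype.card F : ℝ) ^ 2) := by
  classical
  set q : ℝ := (Fintype.card F : ℝ) with hq
  have ht1 : 1 ≤ t := by omega
  simp only [Zf, ← hq, Finset.sum_mul_sum, Finset.expect_sum_comm]
  have h : ∀ i j, 𝔼 p : Fin t → F, (1 / q - ind (ev p (x i)) (β i)) *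
      (1 / q - ind (ev p (x j)) (β j)) = if j = i then 1 / q - 1 / q ^ 2 else 0 := by
    intro i j
    have e1 : ∀ p : Fin t → F, (1 / q - ind (ev p (x i)) (β i)) *
        (1 / q - ind (ev p (x j)) (β j)) = 1 / q ^ 2 - (1 / q) * ind (ev p (x i)) (β i) -
          (1 / q) * ind (ev p (x j)) (β j) +
            ind (ev p (x i)) (β i) * ind (ev p (x j)) (β j) := fun p => by ring
    simp only [e1, Finset.expect_add_distrib, Finset.expect_sub_distrib, ← Finset.mul_expect,
      ev_one ht1, Fintype.expect_const, ← hq]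
    split_ifs with hij
    · subst hij
      simp only [ind_mul_self, ev_one ht1, ← hq]
      ring
    · rw [ev_two ht (fun h => hij (hx h).symm), ← hq]
      ring
  simp only [h]
  simp [mul_sub]

theorem expect_point {t s : ℕ} (ht : 2 ≤ t) (x : Fin s → F) (hx : Function.Injective x)
    (hs : s ≤ Fintype.card F) (β : Fin s → F) (Δ : ℝ) (hΔ0 : 0 ≤ Δ) (hΔ1 : Δ ≤ 1) (a b : F) :
    𝔼 p : Fin t → F, ind (ev p a) b * |Zf x p β - Δ| ≤ 4 / (Fintype.card F : ℝ) := by
  classical
  set q : ℝ := (Fintype.card F : ℝ) with hq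
  have hqpos : 0 < q := by rw [hq]; exact_mod_cast Fintype.card_pos
  have ht1 : 1 ≤ t := by omega
  have hsq : (s : ℝ) / q ≤ 1 := by
    rw [div_le_one hqpos, hq]; exact_mod_cast hs
  have h1 : ∀ p : Fin t → F, |Zf x p β - Δ| ≤ 2 + ∑ i, ind (ev p (x i)) (β i) := by
    intro p
    have e1 : Zf x p β = s / q - ∑ i, ind (ev p (x i)) (β i) := by
      simp [Zf, ← hq, Finset.sum_sub_distrib, div_eq_mul_inv]
    have e2 : 0 ≤ ∑ i, ind (ev p (x i)) (β i) := Finset.sum_nonneg fun i _ => ind_nonneg _ _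
    have e3 : 0 ≤ (s : ℝ) / q := by positivity
    rw [e1, abs_le]
    constructor <;> linarith
  have h2 : ∀ i, 𝔼 p : Fin t → F, ind (ev p a) b * ind (ev p (x i)) (β i) ≤
      ind (x i) a / q + 1 / q ^ 2 := by
    intro i
    by_cases hi : x i = a
    · have : 𝔼 p : Fin t → F, ind (ev p a) b * ind (ev p (x i)) (β i) ≤
          𝔼 p : Fin t → F, ind (ev p a) b := Finset.expect_le_expect fun p _ => by
        nlinarith [ind_nonneg (ev p a) b, ind_le_one (ev p (x i)) (β i)]
      rw [ev_one ht1, ← hq] at this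
      have e : ind (x i) a = 1 := by simp [ind, hi]
      have : 0 ≤ 1 / q ^ 2 := by positivity
      rw [e]
      linarith
    · rw [ev_two ht (Ne.symm hi), ← hq]
      have := div_nonneg (ind_nonneg (x i) a) hqpos.le
      linarith
  have h3 : ∑ i, ind (x i) a ≤ 1 := by
    by_cases hz : ∃ i, x i = a
    · obtain ⟨i, hi⟩ := hz
      rw [Finset.sum_eq_single i]
      · exact ind_le_one _ _
      · intro j _ hj
        have : x j ≠ a := fun h => hj (hx (h.trans hi.symm))
        simp [ind, this]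
      · simp
    · push Not at hz
      rw [Finset.sum_eq_zero fun i _ => by simp [ind, hz i]]
      norm_num
  calc 𝔼 p : Fin t → F, ind (ev p a) b * |Zf x p β - Δ|
      ≤ 𝔼 p : Fin t → F, (2 * ind (ev p a) b +
          ∑ i, ind (ev p a) b * ind (ev p (x i)) (β i)) := by
        refine Finset.expect_le_expect fun p _ => ?_
        rw [← Finset.mul_sum]
        nlinarith [h1 p, ind_nonneg (ev p a) b]
    _ ≤ 2 * (1 / q) + ∑ i, (ind (x i) a / q + 1 / q ^ 2) := by
        rw [Finset.expect_add_distrib, ← Finset.mul_expect, ev_one ht1, ← hq,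
          Finset.expect_sum_comm]
        exact add_le_add le_rfl (Finset.sum_le_sum fun i _ => h2 i)
    _ ≤ 4 / q := by
        rw [Finset.sum_add_distrib, ← Finset.sum_div]
        simp only [Finset.sum_const, Finset.card_univ, Fintype.card_fin, nsmul_eq_mul]
        have e1 : (∑ i, ind (x i) a) / q ≤ 1 / q := div_le_div_of_nonneg_right h3 hqpos.le
        have e2 : (s : ℝ) * (1 / q ^ 2) = (s / q) * (1 / q) := by field_simp
        have e3 : (s / q) * (1 / q) ≤ 1 * (1 / q) :=
          mul_le_mul_of_nonneg_right hsq (by positivity)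
        have e4 : 4 / q = 4 * (1 / q) := by ring
        linarith

theorem term_bound {I J : Type} [Fintype I] [Fintype J] [Nonempty I] [Nonempty J]
    (W : I → J → ℝ) (ε γ : ℝ) (hε : 0 ≤ ε)
    (hW : ∀ (U : I → ℝ) (V : J → ℝ), (∀ i, 0 ≤ U i) → (∀ i, U i ≤ 1) → (∀ j, 0 ≤ V j) →
      (∀ j, V j ≤ 1) → 𝔼 i, 𝔼 j, U i * V j * W i j ≤ ε)
    (U : I → ℝ) (V : J → ℝ) (hU : ∀ i, 0 ≤ U i) (hV : ∀ j, 0 ≤ V j)
    (hUV : ∀ i j, U i * V j ≤ γ) : 𝔼 i, 𝔼 j, U i * V j * W i j ≤ γ * ε := by
  obtain ⟨i0, hi0⟩ := Finite.exists_max U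
  obtain ⟨j0, hj0⟩ := Finite.exists_max V
  have hγ : 0 ≤ γ := le_trans (mul_nonneg (hU i0) (hV j0)) (hUV i0 j0)
  rcases (hU i0).lt_or_eq with hUp | hU0
  · rcases (hV j0).lt_or_eq with hVp | hV0
    · have h := hW (fun i => U i / U i0) (fun j => V j / V j0)
        (fun i => div_nonneg (hU i) hUp.le) (fun i => (div_le_one hUp).2 (hi0 i))
        (fun j => div_nonneg (hV j) hVp.le) (fun j => (div_le_one hVp).2 (hj0 j))
      have e : 𝔼 i, 𝔼 j, U i * V j * W i j =
          (U i0 * V j0) * 𝔼 i, 𝔼 j, U i / U i0 * (V j / V j0) * W i j := by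
        simp only [Finset.mul_expect]
        refine Finset.expect_congr rfl fun i _ => Finset.expect_congr rfl fun j _ => ?_
        field_simp
      rw [e]
      calc (U i0 * V j0) * 𝔼 i, 𝔼 j, U i / U i0 * (V j / V j0) * W i j ≤ (U i0 * V j0) * ε :=
            mul_le_mul_of_nonneg_left h (by positivity)
        _ ≤ γ * ε := mul_le_mul_of_nonneg_right (hUV i0 j0) hε
    · have : ∀ j, V j = 0 := fun j => le_antisymm (hV0 ▸ hj0 j) (hV j)
      simp only [this, mul_zero, zero_mul, Fintype.expect_const]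
      positivity
  · have : ∀ i, U i = 0 := fun i => le_antisymm (hU0 ▸ hi0 i) (hU i)
    simp only [this, zero_mul, Fintype.expect_const]
    positivity

theorem valid_on_indep {e : ℕ} (w : Module.Basis (Fin e) K F) (t : ℕ) (p : Fin t → F) :
    ∀ z ∈ indepPolytope K (monoVec w t),
      ∑ c, ind (ev p c.1) c.2.1 * z c ≤ 2 * t ^ 2 * e := by
  have hlin : IsLinearMap ℝ fun z : F × F × Fin e → ℝ => ∑ c, ind (ev p c.1) c.2.1 * z c :=
    ⟨fun a b => by simp [mul_add, Finset.sum_add_distrib],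
     fun c a => by simp [Finset.mul_sum, mul_left_comm]⟩
  refine convexHull_min ?_ (convex_halfSpace_le hlin (2 * t ^ 2 * e))
  rintro _ ⟨I, hI, rfl⟩
  exact curve_le w t p I hI

theorem xc_lower {e : ℕ} (w : Module.Basis (Fin e) K F) (t : ℕ) (ht : 1 ≤ t)
    (htF : t ^ 3 ≤ Fintype.card F) (κ : ℝ) (hκ : 1 ≤ κ) (P : Set (F × F × Fin e → ℝ)) (r : ℕ)
    (h1 : basePolytope K (monoVec w t) ⊆ P) (h2 : P ⊆ κ • indepPolytope K (monoVec w t))
    (h3 : HasEF P r) : Real.exp (t / (2000 * κ)) ≤ 11 * κ * t ^ 2 * (r + 1) := by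
  classical
  have ht1 : (1 : ℝ) ≤ t := by exact_mod_cast ht
  have hr0 : (0 : ℝ) ≤ r := Nat.cast_nonneg r
  have hE := Real.exp_one_lt_d9
  set m : ℕ := ⌊(t : ℝ) / (1936 * κ)⌋₊ with hm
  have hmlt : (t : ℝ) / (1936 * κ) < m + 1 := Nat.lt_floor_add_one _
  have hmle : (m : ℝ) ≤ t / (1936 * κ) := Nat.floor_le (by positivity)
  have hexp : Real.exp (t / (2000 * κ)) ≤ Real.exp m * Real.exp 1 := by
    rw [← Real.exp_add]
    apply Real.exp_le_exp.2
    have : (t : ℝ) / (2000 * κ) ≤ t / (1936 * κ) := by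
      apply div_le_div_of_nonneg_left (by positivity) (by positivity)
      nlinarith
    linarith
  suffices hmain : Real.exp m ≤ 4 * κ * t ^ 2 * (r + 1) by
    have h0 : 0 ≤ κ * t ^ 2 * (r + 1) := by positivity
    have h5 : Real.exp m * Real.exp 1 ≤ (4 * κ * t ^ 2 * (r + 1)) * 2.7182818286 :=
      mul_le_mul hmain hE.le (Real.exp_pos _).le (by positivity)
    nlinarith
  rcases Nat.eq_zero_or_pos m with hm0 | hm1
  · rw [hm0]
    simp only [Nat.cast_zero, Real.exp_zero]
    have : 1 ≤ κ * t ^ 2 := one_le_mul_of_one_le_of_one_le hκ (one_le_pow₀ ht1)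
    nlinarith
  have hm1' : (1 : ℝ) ≤ m := by exact_mod_cast hm1
  have hmt : 1936 * κ * m ≤ t := by
    rw [le_div_iff₀ (by positivity)] at hmle
    linarith
  have htbig : (1936 : ℝ) ≤ t := by nlinarith
  have ht2 : 2 ≤ t := by
    have : (2 : ℝ) ≤ t := by linarith
    exact_mod_cast this
  have h2m : 2 * m ≤ t := by
    have : (2 : ℝ) * m ≤ t := by nlinarith
    exact_mod_cast this
  set q : ℝ := (Fintype.card F : ℝ) with hq
  have hqt : (t : ℝ) ^ 3 ≤ q := by rw [hq]; exact_mod_cast htF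
  have hqpos : 0 < q := lt_of_lt_of_le (by positivity) hqt
  have he : (1 : ℝ) ≤ e := by
    obtain ⟨l⟩ := w.index_nonempty
    exact_mod_cast l.pos
  obtain ⟨x⟩ : Nonempty (Fin (t ^ 3) ↪ F) :=
    Function.Embedding.nonempty_of_card_le (by simpa using htF)
  choose B hB hBd using exists_basis w x x.injective
  set γ : ℝ := κ * (2 * t ^ 2 * e) with hγ
  obtain ⟨U, V, hU, hV, hUV⟩ := slack_factor h3
    (fun (p : Fin t → F) (c : F × F × Fin e) => ind (ev p c.1) c.2.1) γ
    (fun β : Fin (t ^ 3) → F => (B β).indicator 1)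
    (fun β => h1 (subset_convexHull ℝ _ ⟨B β, hB β, rfl⟩)) (by
      intro p z hz
      obtain ⟨z', hz', rfl⟩ := h2 hz
      have := valid_on_indep w t p z' hz'
      simp only [Pi.smul_apply, smul_eq_mul, mul_left_comm _ κ, ← Finset.mul_sum]
      exact mul_le_mul_of_nonneg_left this (by linarith))
  set Δ : ℝ := t / (8 * κ * q) with hΔ
  have hΔ0 : 0 ≤ Δ := by positivity
  have hΔ1 : Δ ≤ 1 := by
    rw [hΔ, div_le_one (by positivity)]
    have : (t : ℝ) ≤ t ^ 3 := by nlinarith
    nlinarith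
  have hΔm : 242 * (m : ℝ) ≤ q * Δ := by
    have : q * Δ = t / (8 * κ) := by rw [hΔ]; field_simp
    rw [this, le_div_iff₀ (by positivity)]
    linarith
  set ε : ℝ := Real.exp (-(m : ℝ)) * ((t ^ 3 : ℕ) / q) with hε
  have hupper : 𝔼 p : Fin t → F, 𝔼 β : Fin (t ^ 3) → F,
      (γ - ∑ c, ind (ev p c.1) c.2.1 * (B β).indicator (1 : F × F × Fin e → ℝ) c) *
        (Zf x p β - Δ) ≤ (r + 1) * (γ * ε) := by
    simp only [hUV, Finset.sum_mul, Finset.expect_sum_comm]
    calc ∑ k, 𝔼 p : Fin t → F, 𝔼 β : Fin (t ^ 3) → F, U k p * V k β * (Zf x p β - Δ)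
        ≤ ∑ _k : Fin (r + 1), γ * ε := by
          refine Finset.sum_le_sum fun k _ => ?_
          refine term_bound (fun p β => Zf x p β - Δ) ε γ (by positivity)
            (fun U' V' a b c d => rect_bound x x.injective hm1 h2m (Nat.one_le_pow _ _ ht) Δ hΔm
              U' a b V' c d) (U k) (V k) (hU k) (hV k) fun p β => ?_
          have h4 : U k p * V k β ≤ ∑ k, U k p * V k β :=
            Finset.single_le_sum (f := fun k => U k p * V k β)
              (fun k _ => mul_nonneg (hU k p) (hV k β)) (Finset.mem_univ k)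
          have h5 : 0 ≤ ∑ c, ind (ev p c.1) c.2.1 *
              (B β).indicator (1 : F × F × Fin e → ℝ) c :=
            Finset.sum_nonneg fun c _ => mul_nonneg (ind_nonneg _ _)
              (Set.indicator_nonneg (fun _ _ => zero_le_one) c)
          rw [← hUV] at h4
          linarith
      _ = (r + 1) * (γ * ε) := by simp
  have hlow : ∀ β : Fin (t ^ 3) → F,
      e * (t ^ 3 * (1 / q - 1 / q ^ 2) - Δ * (κ * (2 * t ^ 2))) -
        (4 / q) * (2 * e * ∑ i, bad t x β i) ≤ 𝔼 p : Fin t → F,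
      (γ - ∑ c, ind (ev p c.1) c.2.1 * (B β).indicator (1 : F × F × Fin e → ℝ) c) *
        (Zf x p β - Δ) := by
    intro β
    set D : F × F × Fin e → ℝ := fun c =>
      (B β).indicator (1 : F × F × Fin e → ℝ) c - yv x β c with hD
    have e1 : ∀ p : Fin t → F, ∑ c : F × F × Fin e, ind (ev p c.1) c.2.1 * yv x β c =
        e * (t ^ 3 / q - Zf x p β) := by
      intro p
      simp only [yv, Finset.mul_sum]
      rw [Finset.sum_comm]
      have : ∀ i, ∑ c : F × F × Fin e,
          ind (ev p c.1) c.2.1 * (ind c.1 (x i) * ind c.2.1 (β i)) =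
            e * ind (ev p (x i)) (β i) := fun i => by
        rw [← sum_point (e := e) (x i) (β i) (fun a b => ind (ev p a) b)]
        exact Finset.sum_congr rfl fun c _ => by ring
      simp only [this, ← Finset.mul_sum]
      congr 1
      simp [Zf, ← hq, Finset.sum_sub_distrib, div_eq_mul_inv]
    have e2 : ∀ p : Fin t → F,
        (γ - ∑ c, ind (ev p c.1) c.2.1 * (B β).indicator (1 : F × F × Fin e → ℝ) c) *
          (Zf x p β - Δ) =
        (e * (Zf x p β * Zf x p β) + (γ - e * (t ^ 3 / q) - e * Δ) * Zf x p β -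
          (γ - e * (t ^ 3 / q)) * Δ) -
          ∑ c, D c * (ind (ev p c.1) c.2.1 * (Zf x p β - Δ)) := by
      intro p
      have : ∑ c, ind (ev p c.1) c.2.1 * (B β).indicator (1 : F × F × Fin e → ℝ) c =
          e * (t ^ 3 / q - Zf x p β) + ∑ c, D c * ind (ev p c.1) c.2.1 := by
        rw [← e1, ← Finset.sum_add_distrib]
        exact Finset.sum_congr rfl fun c _ => by simp only [hD]; ring
      rw [this]
      simp only [← mul_assoc, ← Finset.sum_mul]
      ring
    simp only [e2, Finset.expect_sub_distrib, Finset.expect_add_distrib, ← Finset.mul_expect,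
      expect_Zf ht, expect_Zf_sq ht2 x x.injective, Fintype.expect_const, Finset.expect_sum_comm,
      ← hq]
    have e3 : ∑ c, D c * 𝔼 p : Fin t → F, ind (ev p c.1) c.2.1 * (Zf x p β - Δ) ≤
        (4 / q) * (2 * e * ∑ i, bad t x β i) := by
      calc ∑ c, D c * 𝔼 p : Fin t → F, ind (ev p c.1) c.2.1 * (Zf x p β - Δ)
          ≤ ∑ c, |D c| * (4 / q) := by
            refine Finset.sum_le_sum fun c _ => ?_
            have h4 := expect_point ht2 x x.injective htF β Δ hΔ0 hΔ1 c.1 c.2.1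
            have h5 : |𝔼 p : Fin t → F, ind (ev p c.1) c.2.1 * (Zf x p β - Δ)| ≤ 4 / q := by
              refine le_trans (Finset.abs_expect_le _ _) (le_trans (le_of_eq ?_) h4)
              refine Finset.expect_congr rfl fun p _ => ?_
              rw [abs_mul, abs_of_nonneg (ind_nonneg _ _)]
            calc D c * 𝔼 p : Fin t → F, ind (ev p c.1) c.2.1 * (Zf x p β - Δ)
                ≤ |D c * 𝔼 p : Fin t → F, ind (ev p c.1) c.2.1 * (Zf x p β - Δ)| :=
                  le_abs_self _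
              _ ≤ |D c| * (4 / q) := by
                  rw [abs_mul]
                  exact mul_le_mul_of_nonneg_left h5 (abs_nonneg _)
        _ ≤ (4 / q) * (2 * e * ∑ i, bad t x β i) := by
            rw [← Finset.sum_mul, mul_comm]
            exact mul_le_mul_of_nonneg_left (hBd β) (by positivity)
    have e4 : 0 ≤ e * (t ^ 3 / q) * Δ := by positivity
    push_cast
    rw [hγ]
    nlinarith
  have hbad : 𝔼 β : Fin (t ^ 3) → F, ∑ i, bad t x β i ≤ t ^ 3 * (t / q) := by
    rw [Finset.expect_sum_comm]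
    calc ∑ i, 𝔼 β : Fin (t ^ 3) → F, bad t x β i ≤ ∑ _i : Fin (t ^ 3), t / q :=
          Finset.sum_le_sum fun i _ => expect_bad x x.injective i
      _ = t ^ 3 * (t / q) := by simp
  have hlower : e * (t ^ 3 / q) / 2 ≤ 𝔼 p : Fin t → F, 𝔼 β : Fin (t ^ 3) → F,
      (γ - ∑ c, ind (ev p c.1) c.2.1 * (B β).indicator (1 : F × F × Fin e → ℝ) c) *
        (Zf x p β - Δ) := by
    rw [Finset.expect_comm]
    refine le_trans ?_ (Finset.expect_le_expect fun β _ => hlow β)
    rw [Finset.expect_sub_distrib, Fintype.expect_const, ← Finset.mul_expect, ← Finset.mul_expect]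
    have e1 : Δ * (κ * (2 * t ^ 2)) = t ^ 3 / q / 4 := by rw [hΔ]; field_simp; ring
    have e2 : (t : ℝ) ^ 3 * (1 / q - 1 / q ^ 2) = t ^ 3 / q - t ^ 3 / q * (1 / q) := by
      field_simp
    have e3 : 4 / q * (2 * e * 𝔼 β : Fin (t ^ 3) → F, ∑ i, bad t x β i) ≤
        4 / q * (2 * e * (t ^ 3 * (t / q))) := by gcongr
    have e4 : 4 / q * (2 * e * (t ^ 3 * (t / q))) = e * (t ^ 3 / q) * (8 * (t / q)) := by ring
    have e5 : 1 / q ≤ t / q := div_le_div_of_nonneg_right ht1 hqpos.le
    have e6 : t / q ≤ 1 / 100 := by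
      rw [div_le_iff₀ hqpos]
      nlinarith
    have e7 : 0 ≤ e * (t ^ 3 / q) := by positivity
    rw [e1, e2]
    nlinarith
  have hfin := hlower.trans hupper
  have e1 : (r + 1) * (γ * ε) =
      (e * (t ^ 3 / q)) * ((2 * κ * t ^ 2 * (r + 1)) / Real.exp m) := by
    rw [hγ, hε, Real.exp_neg]
    push_cast
    field_simp
  rw [e1] at hfin
  have e7 : 0 < e * (t ^ 3 / q) := by positivity
  have h6 : 1 / 2 ≤ (2 * κ * t ^ 2 * (r + 1)) / Real.exp m := by
    by_contra hcon
    push Not at hcon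
    nlinarith
  rw [le_div_iff₀ (Real.exp_pos _)] at h6
  linarith

end Pool.Agent.Lib.MP_8a52c3_lc.XC
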