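import Pool.Agent.Lib.MP_8a52c3_lc.VXMain
import Pool.Agent.Lib.MP_8a52c3_lc.XCMain

/-!
Exponential gap between extension complexity and virtual extension complexity.
-/

namespace Pool.Agent.Lib.MP_8a52c3_lc.XC

open Finset Module Submodule Matrix
open scoped Pointwise

theorem HasEF.mono {E : Type} {P : Set (E → ℝ)} {r r' : ℕ} (h : HasEF P r) (hr : r ≤ r') :
    HasEF P r' := by
  obtain ⟨d, m, A, b, C, c, T, u, rfl⟩ := h
  refine ⟨d, m, fun i j => if h : (i : ℕ) < r then A ⟨i, h⟩ j else 0,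
    fun i => if h : (i : ℕ) < r then b ⟨i, h⟩ else 0, C, c, T, u, ?_⟩
  congr 1
  ext y
  simp only [Set.mem_ofPred_eq]
  refine and_congr_left fun _ => ⟨fun h i => ?_, fun h i => ?_⟩
  · by_cases hi : (i : ℕ) < r
    · simpa [Matrix.mulVec, dotProduct, hi] using h ⟨i, hi⟩
    · simp [Matrix.mulVec, dotProduct, hi]
  · simpa [Matrix.mulVec, dotProduct] using h ⟨i, lt_of_lt_of_le i.2 hr⟩

theorem HasEF.restrict {E E' : Type} {P : Set (E → ℝ)} {r : ℕ} (h : HasEF P r) (ι : E' → E) :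
    HasEF ((fun x => x ∘ ι) '' P) r := by
  obtain ⟨d, m, A, b, C, c, T, u, rfl⟩ := h
  refine ⟨d, m, A, b, C, c, T.submatrix ι id, u ∘ ι, ?_⟩
  rw [Set.image_image]
  rfl

theorem restrict_sandwich {K V V' E E' : Type} [Field K] [AddCommGroup V] [Module K V]
    [AddCommGroup V'] [Module K V'] (v : E' → V') (ι : E' → E) (hι : Function.Injective ι)
    (ψ : V' →ₗ[K] V) (hψ : Function.Injective ψ) :
    basePolytope K v ⊆ (fun x => x ∘ ι) '' basePolytope K (Function.extend ι (ψ ∘ v) 0) ∧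
    (fun x => x ∘ ι) '' basePolytope K (Function.extend ι (ψ ∘ v) 0) ⊆ indepPolytope K v := by
  set u : E → V := Function.extend ι (ψ ∘ v) 0 with hu
  have huι : u ∘ ι = ψ ∘ v := Function.extend_comp hι _ _
  let ρ : (E → ℝ) →ₗ[ℝ] (E' → ℝ) := LinearMap.funLeft ℝ ℝ ι
  have hρ : (fun x : E → ℝ => x ∘ ι) = ρ := rfl
  rw [hρ]
  constructor
  · refine convexHull_min ?_ ((convex_convexHull ℝ _).linear_image ρ)
    rintro _ ⟨B, hB, rfl⟩
    have h1 : LinearIndepOn K u (ι '' B) :=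
      LinearIndepOn.image_of_comp ι u (huι ▸ hB.prop.map_injOn ψ hψ.injOn)
    refine ⟨(ι '' B).indicator 1, subset_convexHull _ _ ⟨ι '' B, (maximal_iff_span h1).2 ?_, rfl⟩,
      ?_⟩
    · refine le_antisymm (span_mono (Set.image_subset_range _ _)) (span_le.2 ?_)
      rintro _ ⟨i, rfl⟩
      by_cases hi : ∃ z, ι z = i
      · obtain ⟨z, rfl⟩ := hi
        have h2 : v z ∈ span K (v '' B) :=
          (maximal_iff_span hB.prop).1 hB ▸ subset_span ⟨z, rfl⟩
        have h3 := Submodule.mem_map_of_mem (f := ψ) h2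
        rw [Submodule.map_span, ← Set.image_comp, ← huι, Set.image_comp] at h3
        have h4 : u (ι z) = ψ (v z) := congrFun huι z
        rw [h4]
        exact h3
      · rw [hu, Function.extend_apply' _ _ _ hi]
        exact zero_mem _
    · ext z
      by_cases hz : z ∈ B <;> simp [ρ, hz, hι.mem_set_image]
  · rw [Set.image_subset_iff]
    refine convexHull_min ?_ ((convex_convexHull ℝ _).linear_preimage ρ)
    rintro _ ⟨B, hB, rfl⟩
    refine subset_convexHull _ _ ⟨ι ⁻¹' B, ?_, ?_⟩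
    · refine LinearIndepOn.of_comp ψ ?_
      rw [← huι]
      exact (hB.prop.mono (Set.image_preimage_subset _ _)).comp_of_image hι.injOn
    · ext z
      by_cases hz : ι z ∈ B <;> simp [ρ, hz]

theorem exists_hard (k n : ℕ) (hk : 1 ≤ k) (hn : 64 ^ k * (3 * k) ≤ n) :
    ∃ v : Fin n → Fin n → ZMod 2, ∀ r, HasEF (basePolytope (ZMod 2) v) r →
      Real.exp ((2 : ℝ) ^ k / 2000) ≤ 11 * ((2 : ℝ) ^ k) ^ 2 * (r + 1) := by
  classical
  let F := GaloisField 2 (3 * k)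
  let _ : Fintype F := Fintype.ofFinite F
  have hc : Fintype.card F = 2 ^ (3 * k) := by
    rw [← Nat.card_eq_fintype_card]
    exact GaloisField.card 2 (3 * k) (by omega)
  let w : Module.Basis (Fin (3 * k)) (ZMod 2) F :=
    Module.finBasisOfFinrankEq (ZMod 2) F (GaloisField.finrank 2 (by omega))
  have h8 : (2 ^ k) ^ 2 * 2 ^ k = 8 ^ k := by
    rw [← pow_succ, ← pow_mul, mul_comm, pow_mul]; norm_num
  have h8' : 2 ^ (3 * k) = 8 ^ k := by rw [pow_mul]; norm_num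
  obtain ⟨ι⟩ : Nonempty (F × F × Fin (3 * k) ↪ Fin n) := by
    apply Function.Embedding.nonempty_of_card_le
    simp only [Fintype.card_prod, hc, Fintype.card_fin, h8']
    rw [← mul_assoc, ← mul_pow]
    exact hn
  obtain ⟨ψ, hψ⟩ : ∃ ψ : (Fin ((2 ^ k) ^ 2) × Fin (2 ^ k) → F) →ₗ[ZMod 2] (Fin n → ZMod 2),
      Function.Injective ψ := by
    rw [← finrank_le_iff_exists_linearMap, finrank_fun w]
    simp only [Fintype.card_prod, Fintype.card_fin, Module.finrank_fintype_fun_eq_card, h8]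
    exact le_trans (Nat.mul_le_mul_right _ (Nat.pow_le_pow_left (by norm_num) k)) hn
  refine ⟨Function.extend ι (ψ ∘ monoVec w (2 ^ k)) 0, fun r hr => ?_⟩
  obtain ⟨h1, h2⟩ := restrict_sandwich (monoVec w (2 ^ k)) ι ι.injective ψ hψ
  have := xc_lower w (2 ^ k) Nat.one_le_two_pow (by rw [hc, ← pow_mul, mul_comm]) 1 le_rfl _ r h1
    (by rw [one_smul]; exact h2) (hr.restrict ι)
  simpa using this

theorem pow_big (k : ℕ) (hk : 120 ≤ k) : 192 * (k + 1) * 8000 ^ 7 ≤ 2 ^ k := by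
  induction k, hk using Nat.le_induction with
  | base => norm_num
  | succ k hk ih =>
    calc 192 * (k + 1 + 1) * 8000 ^ 7 ≤ 192 * ((k + 1) * 2) * 8000 ^ 7 := by
          gcongr
          omega
      _ = 192 * (k + 1) * 8000 ^ 7 * 2 := by ring
      _ ≤ 2 ^ k * 2 := Nat.mul_le_mul_right 2 ih
      _ = 2 ^ (k + 1) := (pow_succ 2 k).symm

theorem numerics (k n r : ℕ) (hk : 120 ≤ k) (hn : n < 64 ^ (k + 1) * (3 * (k + 1)))
    (h : Real.exp ((2 : ℝ) ^ k / 2000) ≤ 11 * ((2 : ℝ) ^ k) ^ 2 * (r + 1)) :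
    (2 : ℝ) ^ ((n : ℝ) ^ (1 / 7 : ℝ)) ≤ r := by
  have h1 : (192 * (k + 1) * 8000 ^ 7 : ℝ) ≤ 2 ^ k := by exact_mod_cast pow_big k hk
  have h2 : (n : ℝ) ≤ 64 ^ (k + 1) * (3 * (k + 1)) := by exact_mod_cast hn.le
  have h64 : (64 : ℝ) ^ k = (2 ^ k) ^ 6 := by
    rw [← pow_mul, mul_comm, pow_mul]; norm_num
  set t : ℝ := 2 ^ k with ht
  have ht0 : 0 < t := by positivity
  have hk0 : (0 : ℝ) ≤ k := Nat.cast_nonneg k
  have h3 : (n : ℝ) ≤ (t / 8000) ^ 7 := by
    rw [pow_succ, h64] at h2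
    rw [div_pow, le_div_iff₀ (by positivity)]
    calc (n : ℝ) * 8000 ^ 7 ≤ t ^ 6 * 64 * (3 * (k + 1)) * 8000 ^ 7 := by gcongr
      _ = t ^ 6 * (192 * (k + 1) * 8000 ^ 7) := by ring
      _ ≤ t ^ 6 * t := by gcongr
      _ = t ^ 7 := by ring
  have h4 : (n : ℝ) ^ (1 / 7 : ℝ) ≤ t / 8000 := by
    refine (Real.rpow_le_rpow (Nat.cast_nonneg n) h3 (by norm_num)).trans (le_of_eq ?_)
    rw [one_div]
    exact_mod_cast Real.pow_rpow_inv_natCast (x := t / 8000) (by positivity) (n := 7) (by norm_num)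
  have h5 : (2 : ℝ) ^ ((n : ℝ) ^ (1 / 7 : ℝ)) ≤ Real.exp (t / 8000) := by
    refine (Real.rpow_le_rpow_of_exponent_le (by norm_num) h4).trans ?_
    rw [← Real.exp_one_rpow]
    exact Real.rpow_le_rpow (by norm_num) (by linarith [Real.exp_one_gt_d9]) (by positivity)
  have h6 : 22 * t ^ 2 ≤ Real.exp (3 * t / 8000) := by
    refine le_trans ?_ (Real.pow_div_factorial_le_exp _ (by positivity) 3)
    have h7 : (8000 : ℝ) ^ 7 ≤ t := by nlinarith
    have h8 : (3 * t / 8000) ^ 3 / (Nat.factorial 3 : ℕ) = t ^ 2 * (t * (27 / (6 * 8000 ^ 3))) := by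
      simp only [Nat.factorial]
      push_cast
      ring
    rw [h8, mul_comm]
    gcongr
    nlinarith
  have h9 : Real.exp (t / 2000) = Real.exp (t / 8000) * Real.exp (3 * t / 8000) := by
    rw [← Real.exp_add]
    congr 1
    ring
  have h10 : 1 ≤ Real.exp (t / 8000) := Real.one_le_exp (by positivity)
  have h11 : Real.exp (t / 8000) * (22 * t ^ 2) ≤ 11 * t ^ 2 * (r + 1) :=
    le_trans (by rw [h9]; gcongr) h
  have h12 : 2 * Real.exp (t / 8000) ≤ r + 1 := by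
    have h13 : 0 < 11 * t ^ 2 := by positivity
    refine le_of_mul_le_mul_left ?_ h13
    linarith
  linarith

theorem xc_vxc_gap (n : ℕ) (hn : 64 ^ 120 * 360 ≤ n) :
    ∃ (v : Fin n → Fin n → ZMod 2) (Q : Set (Fin n → ℝ)), Q.Nonempty ∧ Bornology.IsBounded Q ∧
      HasEF Q (32 * n ^ 4) ∧ HasEF (basePolytope (ZMod 2) v + Q) (32 * n ^ 4) ∧
      ∀ r, HasEF (basePolytope (ZMod 2) v) r → (2 : ℝ) ^ ((n : ℝ) ^ (1 / 7 : ℝ)) ≤ r := by
  classical
  have hex : ∃ k, n < 64 ^ (k + 1) * (3 * (k + 1)) := by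
    refine ⟨n, ?_⟩
    have : 1 ≤ 64 ^ (n + 1) := Nat.one_le_pow _ _ (by norm_num)
    nlinarith
  have h1 := Nat.find_spec hex
  have h2 : 120 ≤ Nat.find hex := by
    rw [Nat.le_find_iff]
    intro m hm
    rw [not_lt]
    refine le_trans (Nat.mul_le_mul (Nat.pow_le_pow_right (by norm_num) ?_) ?_) hn <;> omega
  have h3 := Nat.find_min hex (m := Nat.find hex - 1) (by omega)
  rw [Nat.sub_add_cancel (by omega), not_lt] at h3
  obtain ⟨v, hv⟩ := exists_hard _ n (by omega) h3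
  obtain ⟨N, rfl⟩ : ∃ N, n = N + 1 := ⟨n - 1, by omega⟩
  obtain ⟨Q, R, r₁, r₂, hQ, -, hQb, -, rfl, h4, h5, h6⟩ := hasVEF_binary v
  exact ⟨v, Q, hQ, hQb, h4.mono (by omega), h5.mono (by omega),
    fun r hr => numerics _ _ r h2 h1 (hv r hr)⟩

end Pool.Agent.Lib.MP_8a52c3_lc.XC
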