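import Pool.Agent.Lib.MP_8a52c3_lc.VXNet
import Pool.Agent.Lib.MP_8a52c3_lc.VXElim
import Pool.Agent.Lib.MP_8a52c3_lc.XCAlg

/-!
The greedy formula for the support function of the base polytope of a linear matroid.
-/

namespace Pool.Agent.Lib.MP_8a52c3_lc.XC

open Finset Module Submodule Matrix

variable {K V : Type} [Field K] [AddCommGroup V] [Module K V]

theorem sum_indicator_eq_finrank {E : Type} [Fintype E] {v : E → V} {I : Set E}
    (hI : LinearIndepOn K v I) :
    ∑ z, I.indicator (1 : E → ℝ) z = finrank K (span K (v '' I)) := by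
  classical
  rw [sum_indicator_eq, Nat.card_eq_fintype_card, ← finrank_span_eq_card hI.linearIndependent,
    Set.image_eq_range]

theorem exists_chain_basis {E : Type} (v : E → V) (S : ℕ → Set E) (hS : Monotone S) (k : ℕ) :
    ∃ B : Set E, LinearIndepOn K v B ∧ B ⊆ S k ∧
      ∀ j ≤ k, span K (v '' (B ∩ S j)) = span K (v '' S j) := by
  induction k with
  | zero =>
    have h0 : LinearIndepOn K v (∅ : Set E) := linearIndepOn_empty K v
    refine ⟨h0.extend (Set.empty_subset (S 0)), h0.linearIndepOn_extend _, h0.extend_subset _,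
      fun j hj => ?_⟩
    obtain rfl : j = 0 := by omega
    rw [Set.inter_eq_left.2 (h0.extend_subset _), h0.span_image_extend_eq_span_image]
  | succ k ih =>
    obtain ⟨B, h1, h2, h3⟩ := ih
    have h4 : B ⊆ S (k + 1) := h2.trans (hS (Nat.le_succ k))
    refine ⟨h1.extend h4, h1.linearIndepOn_extend _, h1.extend_subset _, fun j hj => ?_⟩
    rcases Nat.lt_succ_iff_lt_or_eq.1 (Nat.lt_succ_of_le hj) with h | rfl
    · refine le_antisymm (span_mono (Set.image_mono Set.inter_subset_right)) ?_
      rw [← h3 j (by omega)]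
      exact span_mono (Set.image_mono (Set.inter_subset_inter_left _ (h1.subset_extend _)))
    · rw [Set.inter_eq_left.2 (h1.extend_subset _), h1.span_image_extend_eq_span_image]

theorem maximal_iff_span {E : Type} {v : E → V} {B : Set E} (hB : LinearIndepOn K v B) :
    Maximal (LinearIndepOn K v) B ↔ span K (v '' B) = span K (Set.range v) := by
  constructor
  · intro h
    refine le_antisymm (span_mono (Set.image_subset_range _ _)) (span_le.2 ?_)
    rintro _ ⟨x, rfl⟩
    by_contra hx
    exact hx (subset_span ⟨x, h.2 (hB.insert hx) (Set.subset_insert _ _) (Set.mem_insert _ _), rfl⟩)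
  · intro h
    refine ⟨hB, fun B' hB' hBB' x hx => ?_⟩
    by_contra hxB
    refine linearIndepOn_iff_notMem_span.1 hB' x hx ?_
    have h1 : v x ∈ span K (v '' B) := h ▸ subset_span ⟨x, rfl⟩
    refine span_mono (Set.image_mono ?_) h1
    intro y hy
    exact ⟨hBB' hy, fun h => hxB (h ▸ hy)⟩

theorem layer (o : ℕ → ℝ) (j M : ℕ) (hj : j ≤ M) :
    o j = ∑ k ∈ range M, (o k - o (k + 1)) * (if j < k + 1 then 1 else 0) + o M := by
  induction M, hj using Nat.le_induction with
  | base =>
    rw [Finset.sum_eq_zero, zero_add]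
    intro k hk
    rw [if_neg (by have := mem_range.1 hk; omega), mul_zero]
  | succ M hM ih =>
    rw [sum_range_succ, if_pos (by omega)]
    linarith

variable {N : ℕ}

/-- A permutation listing the coordinates of `w` in decreasing order. -/
noncomputable def srt (w : Fin (N + 1) → ℝ) : Equiv.Perm (Fin (N + 1)) := Tuple.sort (-w)

/-- The `k`-th largest coordinate of `w` (counting from zero). -/
noncomputable def ord (k : ℕ) (w : Fin (N + 1) → ℝ) : ℝ := w (srt w (idx N k))

/-- The positions of the `k` largest coordinates of `w`. -/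
def top (w : Fin (N + 1) → ℝ) (k : ℕ) : Set (Fin (N + 1)) := {i | ((srt w).symm i : ℕ) < k}

theorem ord_anti (w : Fin (N + 1) → ℝ) {j k : ℕ} (h : j ≤ k) : ord k w ≤ ord j w := by
  have := Tuple.monotone_sort (-w) (a := idx N j) (b := idx N k) (by
    simp only [idx, Fin.mk_le_mk]; omega)
  simpa [ord, srt] using this

theorem ord_symm (w : Fin (N + 1) → ℝ) (i : Fin (N + 1)) : ord ((srt w).symm i) w = w i := by
  simp [ord, idx_coe]

theorem top_mono (w : Fin (N + 1) → ℝ) : Monotone (top w) := fun _ _ h _ hi => lt_of_lt_of_le hi h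

theorem top_univ (w : Fin (N + 1) → ℝ) : top w (N + 1) = Set.univ :=
  Set.eq_univ_of_forall fun i => ((srt w).symm i).2

theorem dot_indicator (w : Fin (N + 1) → ℝ) (B : Set (Fin (N + 1))) :
    w ⬝ᵥ B.indicator 1 = ∑ k ∈ range (N + 1), (ord k w - ord (k + 1) w) *
      ∑ z, (B ∩ top w (k + 1)).indicator (1 : Fin (N + 1) → ℝ) z +
      ord (N + 1) w * ∑ z, B.indicator (1 : Fin (N + 1) → ℝ) z := by
  simp only [Finset.mul_sum]
  rw [Finset.sum_comm, ← Finset.sum_add_distrib, dotProduct]
  refine Finset.sum_congr rfl fun i _ => ?_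
  rw [← ord_symm w i, layer (fun k => ord k w) _ (N + 1) ((srt w).symm i).2.le, add_mul,
    Finset.sum_mul]
  congr 1
  refine Finset.sum_congr rfl fun k _ => ?_
  have h3 : i ∈ top w (k + 1) ↔ ((srt w).symm i : ℕ) < k + 1 := Iff.rfl
  by_cases h2 : ((srt w).symm i : ℕ) < k + 1
  · rw [if_pos h2]
    by_cases h1 : i ∈ B <;> simp [h1, h3.2 h2]
  · rw [if_neg h2]
    simp [mt h3.1 h2]

/-- The greedy value. -/
noncomputable def greedy (K : Type) [Field K] [Module K V] (v : Fin (N + 1) → V)
    (w : Fin (N + 1) → ℝ) : ℝ :=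
  ∑ k ∈ range (N + 1), (ord k w - ord (k + 1) w) * finrank K (span K (v '' top w (k + 1))) +
    ord (N + 1) w * finrank K (span K (Set.range v))

theorem isSupp_greedy (v : Fin (N + 1) → V) : IsSupp (basePolytope K v) (greedy K v) := by
  intro w
  constructor
  · have : basePolytope K v ⊆ {x | w ⬝ᵥ x ≤ greedy K v w} := by
      refine convexHull_min ?_ ?_
      · rintro _ ⟨B, hB, rfl⟩
        simp only [Set.mem_ofPred_eq, dot_indicator, greedy]
        rw [sum_indicator_eq_finrank hB.prop, (maximal_iff_span hB.prop).1 hB]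
        refine add_le_add (Finset.sum_le_sum fun k _ => ?_) le_rfl
        refine mul_le_mul_of_nonneg_left ?_ (sub_nonneg.2 (ord_anti w (Nat.le_succ k)))
        rw [sum_indicator_eq_finrank (hB.prop.mono Set.inter_subset_left)]
        have : FiniteDimensional K (span K (v '' top w (k + 1))) :=
          FiniteDimensional.span_of_finite K (Set.toFinite _)
        exact_mod_cast Submodule.finrank_mono (span_mono (Set.image_mono Set.inter_subset_right))
      · intro x hx y hy a b ha hb hab
        simp only [Set.mem_ofPred_eq, dotProduct_add, dotProduct_smul, smul_eq_mul] at hx hy ⊢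
        calc a * w ⬝ᵥ x + b * w ⬝ᵥ y ≤ a * greedy K v w + b * greedy K v w :=
              add_le_add (mul_le_mul_of_nonneg_left hx ha) (mul_le_mul_of_nonneg_left hy hb)
          _ = greedy K v w := by rw [← add_mul, hab, one_mul]
    exact fun x hx => this hx
  · obtain ⟨B, h1, -, h3⟩ := exists_chain_basis (K := K) v (top w) (top_mono w) (N + 1)
    have h4 : span K (v '' B) = span K (Set.range v) := by
      have := h3 (N + 1) le_rfl
      rwa [top_univ, Set.inter_univ, Set.image_univ] at this
    refine ⟨B.indicator 1, subset_convexHull _ _ ⟨B, (maximal_iff_span h1).2 h4, rfl⟩, ?_⟩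
    rw [dot_indicator, greedy, sum_indicator_eq_finrank h1, h4]
    congr 1
    refine Finset.sum_congr rfl fun k hk => ?_
    rw [sum_indicator_eq_finrank (h1.mono Set.inter_subset_left),
      h3 (k + 1) (by have := mem_range.1 hk; omega)]

theorem isCompact_basePolytope {E : Type} [Fintype E] (v : E → V) :
    IsCompact (basePolytope K v) := by
  refine Set.Finite.isCompact_convexHull ℝ ?_
  refine (Set.finite_range fun B : Set E => B.indicator (1 : E → ℝ)).subset ?_
  rintro _ ⟨B, -, rfl⟩
  exact ⟨B, rfl⟩

end Pool.Agent.Lib.MP_8a52c3_lc.XC
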