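import Pool.Agent.Lib.MP_8a52c3_lc.VXCirc
import Pool.Agent.Lib.MP_8a52c3_lc.VXGreedy

/-!
Base polytopes of binary matroids have virtual extended formulations of polynomial size.
-/

namespace Pool.Agent.Lib.MP_8a52c3_lc.XC

open Finset Module Submodule

/-- Running minimum. -/
noncomputable def pm (f : ℕ → ℝ) : ℕ → ℝ
  | 0 => f 0
  | k + 1 => min (pm f k) (f (k + 1))

theorem pm_le (f : ℕ → ℝ) (k : ℕ) : ∀ i ≤ k, pm f k ≤ f i := by
  induction k with
  | zero => intro i hi; obtain rfl : i = 0 := by omega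
            exact le_rfl
  | succ k ih =>
    intro i hi
    rcases Nat.lt_succ_iff_lt_or_eq.1 (Nat.lt_succ_of_le hi) with h | rfl
    · exact (min_le_left _ _).trans (ih i (by omega))
    · exact min_le_right _ _

theorem le_pm (f : ℕ → ℝ) (c : ℝ) (h : ∀ i, c ≤ f i) (k : ℕ) : c ≤ pm f k := by
  induction k with
  | zero => exact h 0
  | succ k ih => exact le_min ih (h _)

theorem Good.pm {n m : ℕ} {W : Submodule ℝ ((Fin n → ℝ) → ℝ)} (hW : Good n m W) {J : Type}
    [Fintype J] (f : J → ℕ → (Fin n → ℝ) → ℝ) (hf : ∀ j i, f j i ∈ W) (k : ℕ) :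
    ∃ W', W ≤ W' ∧ Good n (m + Fintype.card J * k) W' ∧
      ∀ j, (fun w => pm (fun i => f j i w) k) ∈ W' := by
  induction k with
  | zero => exact ⟨W, le_rfl, hW, fun j => hf j 0⟩
  | succ k ih =>
    obtain ⟨W₁, h1, h2, h3⟩ := ih
    obtain ⟨W₂, h4, h5, h6⟩ := h2.relu
      (fun j => (fun w => XC.pm (fun i => f j i w) k) - f j (k + 1))
      fun j => sub_mem (h3 j) (h1 (hf j _))
    refine ⟨W₂, h1.trans h4, h5.mono (le_of_eq (by ring)), fun j => ?_⟩
    convert sub_mem (h4 (h3 j)) (h6 j) using 1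
    ext w
    simp only [XC.pm, Pi.sub_apply]
    rcases le_total (XC.pm (fun i => f j i w) k) (f j (k + 1) w) with h | h
    · rw [min_eq_left h, max_eq_right (by linarith)]; ring
    · rw [min_eq_right h, max_eq_left (by linarith)]; ring

variable {N : ℕ}

theorem sum_relu (w : Fin (N + 1) → ℝ) (t : ℝ) :
    ∑ i, max (w i - t) 0 = ∑ j ∈ range (N + 1), max (ord j w - t) 0 := by
  rw [Finset.sum_range, ← Equiv.sum_comp (srt w)]
  simp [ord, idx_coe]

theorem topSum_le (w : Fin (N + 1) → ℝ) (t : ℝ) {k : ℕ} (hk : k ≤ N + 1) :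
    ∑ j ∈ range k, ord j w ≤ k * t + ∑ i, max (w i - t) 0 := by
  rw [sum_relu]
  have h1 : ∑ j ∈ range k, (ord j w - t) ≤ ∑ j ∈ range (N + 1), max (ord j w - t) 0 :=
    (Finset.sum_le_sum fun j _ => le_max_left _ _).trans
      (Finset.sum_le_sum_of_subset_of_nonneg (range_mono hk) fun _ _ _ => le_max_right _ _)
  rw [Finset.sum_sub_distrib] at h1
  simp only [sum_const, card_range, nsmul_eq_mul] at h1
  linarith

theorem topSum_eq (w : Fin (N + 1) → ℝ) {k : ℕ} (hk : k ≤ N) :
    ∑ j ∈ range (k + 1), ord j w =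
      ((k + 1 : ℕ) : ℝ) * ord k w + ∑ i, max (w i - ord k w) 0 := by
  rw [sum_relu, ← Finset.sum_subset (range_mono (Nat.succ_le_succ hk))]
  · have : ∑ j ∈ range (k + 1), max (ord j w - ord k w) 0 =
        ∑ j ∈ range (k + 1), (ord j w - ord k w) :=
      Finset.sum_congr rfl fun j hj =>
        max_eq_left (sub_nonneg.2 (ord_anti w (by have := mem_range.1 hj; omega)))
    rw [this, Finset.sum_sub_distrib]
    simp
  · intro j _ hj
    exact max_eq_right (sub_nonpos.2 (ord_anti w (by rw [mem_range] at hj; omega)))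

theorem good_ord (N : ℕ) : ∃ W, Good (N + 1) (2 * (N + 1) ^ 2) W ∧ (∀ i, (fun w => w i) ∈ W) ∧
    ∀ k ≤ N + 1, ord k ∈ W := by
  obtain ⟨W₀, h0, h0'⟩ := good_base (N + 1)
  obtain ⟨W₁, h1, h2, h3⟩ := h0.relu (J := Fin (N + 1) × Fin (N + 1))
    (fun j => (fun w => w j.1) - fun w => w j.2) fun j => sub_mem (h0' _) (h0' _)
  obtain ⟨W₂, h4, h5, h6⟩ := h2.pm (J := Fin (N + 1))
    (fun k j w => (((k : ℕ) + 1 : ℕ) : ℝ) * w (idx N j) + ∑ i, max (w i - w (idx N j)) 0) (by
      intro k j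
      convert add_mem (smul_mem _ (((k : ℕ) + 1 : ℕ) : ℝ) (h1 (h0' (idx N j))))
        (sum_mem (t := Finset.univ) fun i _ => h3 (i, idx N j)) using 1
      ext w
      simp) N
  have hT : ∀ k ≤ N + 1, (fun w => ∑ j ∈ range k, ord j w) ∈ W₂ := by
    intro k hk
    rcases k with _ | k
    · exact zero_mem _
    · convert h6 ⟨k, by omega⟩ using 1
      ext w
      refine le_antisymm (le_pm _ _ (fun i => topSum_le w _ hk) _) ?_
      refine (pm_le _ _ (srt w (idx N k)) (Nat.le_of_lt_succ (Fin.is_lt _))).trans ?_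
      rw [idx_coe, topSum_eq w (by omega)]
      exact le_rfl
  have hO : ∀ k ≤ N, ord k ∈ W₂ := by
    intro k hk
    convert sub_mem (hT (k + 1) (by omega)) (hT k (by omega)) using 1
    ext w
    simp [sum_range_succ]
  refine ⟨W₂, h5.mono ?_, fun i => h4 (h1 (h0' i)), fun k hk => ?_⟩
  · simp only [Fintype.card_prod, Fintype.card_fin]
    nlinarith
  · rcases Nat.lt_succ_iff_lt_or_eq.1 (Nat.lt_succ_of_le hk) with h | rfl
    · exact hO k (by omega)
    · convert hO N le_rfl using 1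
      ext w
      simp [ord, idx]

open Classical in
/-- Membership bit of the top set. -/
noncomputable def sbit (k : ℕ) (i : Fin (N + 1)) (w : Fin (N + 1) → ℝ) : ZMod 2 :=
  if i ∈ top w (k + 1) then 1 else 0

theorem emb_sbit (k : ℕ) (i : Fin (N + 1)) : emb (ord k - ord (k + 1)) (sbit k i) =
    (fun w => max (w i - ord (k + 1) w) 0) - fun w => max (w i - ord k w) 0 := by
  ext w
  simp only [emb, sbit, Pi.sub_apply]
  have h1 := ord_anti w (Nat.le_succ k)
  split_ifs with h
  · have h2 : ord k w ≤ w i := by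
      rw [← ord_symm w i]
      exact ord_anti w (Nat.le_of_lt_succ h)
    rw [bit_one, max_eq_left (by linarith), max_eq_left (by linarith)]
    ring
  · have h2 : w i ≤ ord (k + 1) w := by
      rw [← ord_symm w i]
      exact ord_anti w (Nat.le_of_not_lt h)
    rw [bit_zero, max_eq_right (by linarith), max_eq_right (by linarith)]
    ring

theorem span_sbit (v : Fin (N + 1) → Fin (N + 1) → ZMod 2) (k : ℕ) (w : Fin (N + 1) → ℝ) :
    span (ZMod 2) (Set.range fun i => sbit k i w • v i) = span (ZMod 2) (v '' top w (k + 1)) := by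
  refine le_antisymm (span_le.2 ?_) (span_mono ?_)
  · rintro _ ⟨i, rfl⟩
    simp only [sbit]
    split_ifs with h
    · rw [one_smul]
      exact subset_span ⟨i, h, rfl⟩
    · rw [zero_smul]
      exact zero_mem _
  · rintro _ ⟨i, hi, rfl⟩
    exact ⟨i, by simp [sbit, hi]⟩

theorem good_greedy (v : Fin (N + 1) → Fin (N + 1) → ZMod 2) :
    ∃ W, Good (N + 1) (8 * (N + 1) ^ 4) W ∧ greedy (ZMod 2) v ∈ W := by
  obtain ⟨W₀, h0, h0', hO⟩ := good_ord N
  obtain ⟨W₁, h1, h2, h3⟩ := h0.relu (J := Fin (N + 2) × Fin (N + 1))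
    (fun j => (fun w => w j.2) - ord j.1)
    fun j => sub_mem (h0' _) (hO _ (Nat.le_of_lt_succ j.1.2))
  have key : ∀ k ≤ N + 1, ∃ W', W₁ ≤ W' ∧
      Good (N + 1) (2 * (N + 1) ^ 2 + (N + 2) * (N + 1) + 4 * (N + 1) ^ 3 * k) W' ∧
      (fun w => ∑ j ∈ range k, (ord j w - ord (j + 1) w) *
        (finrank (ZMod 2) (span (ZMod 2) (v '' top w (j + 1))) : ℝ)) ∈ W' := by
    intro k
    induction k with
    | zero =>
      intro _
      exact ⟨W₁, le_rfl, h2.mono (by simp), zero_mem _⟩
    | succ k ih =>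
      intro hk
      obtain ⟨W₂, h4, h5, h6⟩ := ih (by omega)
      obtain ⟨W₃, h7, h8, h9⟩ := h5.rank (γ := ord k - ord (k + 1))
        (fun w => sub_nonneg.2 (ord_anti w (Nat.le_succ k)))
        (h4 (h1 (sub_mem (hO k (by omega)) (hO (k + 1) hk))))
        (fun w i => sbit k i w • v i) (by
          intro i j
          rcases zmod2_cases (v i j) with h | h
          · convert zero_mem W₂ using 1
            ext w
            simp [emb, h, bit_zero]
          · have : (fun w => (sbit k i w • v i) j) = sbit k i := by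
              ext w
              simp [h]
            rw [this, emb_sbit]
            exact h4 (sub_mem (h3 (⟨k + 1, by omega⟩, i)) (h3 (⟨k, by omega⟩, i))))
      refine ⟨W₃, h4.trans h7, h8.mono (le_of_eq (by ring)), ?_⟩
      convert add_mem (h7 h6) h9 using 1
      ext w
      simp only [sum_range_succ, Pi.add_apply, Pi.sub_apply]
      rw [span_sbit]
  obtain ⟨W₂, h4, h5, h6⟩ := key (N + 1) le_rfl
  refine ⟨W₂, h5.mono ?_, ?_⟩
  · have h7 : (N + 1) ^ 2 ≤ (N + 1) ^ 4 := Nat.pow_le_pow_right (by omega) (by omega)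
    nlinarith
  · convert add_mem h6 (smul_mem _ (finrank (ZMod 2) (span (ZMod 2) (Set.range v)) : ℝ)
      (h4 (h1 (hO (N + 1) le_rfl)))) using 1
    ext w
    simp only [greedy, Pi.add_apply, Pi.smul_apply, smul_eq_mul]
    ring

theorem hasVEF_binary (v : Fin (N + 1) → Fin (N + 1) → ZMod 2) :
    HasVEF (basePolytope (ZMod 2) v) (32 * (N + 1) ^ 4) := by
  obtain ⟨W, h1, h2⟩ := good_greedy v
  have := h1.hasVEF h2 (isSupp_greedy v) (convex_convexHull ℝ _) (isCompact_basePolytope v)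
  convert this using 1
  ring

end Pool.Agent.Lib.MP_8a52c3_lc.XC
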