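import Pool.Agent.Lib.MP_8a52c3_lc.VXDefs

/-!
Rectifier networks give virtual extended formulations.
-/

namespace Pool.Agent.Lib.MP_8a52c3_lc.XC

open Finset Matrix
open scoped Pointwise

theorem hasEF_of_linear {E Y ρ ι : Type} [AddCommGroup Y] [Module ℝ Y] [FiniteDimensional ℝ Y]
    [Fintype ρ] [Fintype ι] (a : ρ → Y →ₗ[ℝ] ℝ) (b : ρ → ℝ) (φ : Y →ₗ[ℝ] (ι → ℝ)) (f : ι → ℝ)
    (π : Y →ₗ[ℝ] (E → ℝ)) (u : E → ℝ) :
    HasEF ((fun y => π y + u) '' {y | (∀ i, a i y ≤ b i) ∧ φ y = f}) (Fintype.card ρ) := by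
  let e : (Fin (Module.finrank ℝ Y) → ℝ) ≃ₗ[ℝ] Y := (Module.finBasis ℝ Y).equivFun.symm
  let eρ := (Fintype.equivFin ρ).symm
  let eι := (Fintype.equivFin ι).symm
  refine ⟨Module.finrank ℝ Y, Fintype.card ι,
    LinearMap.toMatrix' ((LinearMap.pi fun k => a (eρ k)).comp e.toLinearMap), fun k => b (eρ k),
    LinearMap.toMatrix' ((LinearMap.pi fun k => (LinearMap.proj (eι k)).comp φ).comp
      e.toLinearMap), fun k => f (eι k), LinearMap.toMatrix' (π.comp e.toLinearMap), u, ?_⟩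
  simp only [LinearMap.toMatrix'_mulVec]
  ext x
  constructor
  · rintro ⟨y, ⟨h1, h2⟩, rfl⟩
    refine ⟨e.symm y, ⟨fun k => by simpa using h1 (eρ k), ?_⟩, by simp⟩
    ext k
    simp [h2]
  · rintro ⟨y, ⟨h1, h2⟩, rfl⟩
    refine ⟨e y, ⟨fun i => by simpa using h1 (eρ.symm i), ?_⟩, by simp⟩
    ext i
    simpa using congrFun h2 (eι.symm i)

/-- `h` is the support function of `P`. -/
def IsSupp {n : ℕ} (P : Set (Fin n → ℝ)) (h : (Fin n → ℝ) → ℝ) : Prop :=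
  ∀ w, (∀ x ∈ P, w ⬝ᵥ x ≤ h w) ∧ ∃ x ∈ P, w ⬝ᵥ x = h w

theorem subset_of_isSupp {n : ℕ} {P Q : Set (Fin n → ℝ)} {h : (Fin n → ℝ) → ℝ}
    (hP : IsSupp P h) (hQ : IsSupp Q h) (hc : Convex ℝ Q) (hcl : IsClosed Q) : P ⊆ Q := by
  intro x hx
  by_contra hxQ
  obtain ⟨f, u, h1, h2⟩ := geometric_hahn_banach_closed_point hc hcl hxQ
  let w : Fin n → ℝ := fun i => f (Pi.single i 1)
  have hw : ∀ z, w ⬝ᵥ z = f z := by
    intro z
    conv_rhs => rw [pi_eq_sum_univ' z]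
    simp [w, dotProduct, mul_comm]
  obtain ⟨z, hz, hz2⟩ := (hQ w).2
  have h3 := (hP w).1 x hx
  have h4 := h1 z hz
  rw [hw] at h3 hz2
  linarith

/-- All functions in `W` are differences of support functions that have a joint conic extended
formulation with at most `2 m` inequalities. -/
def Good (n m : ℕ) (W : Submodule ℝ ((Fin n → ℝ) → ℝ)) : Prop :=
  ∃ (ι : Type) (_ : Fintype ι) (Y : Type) (_ : NormedAddCommGroup Y) (_ : NormedSpace ℝ Y)
    (_ : FiniteDimensional ℝ Y) (ρ : Type) (_ : Fintype ρ) (g : ι → (Fin n → ℝ) → ℝ)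
    (a : ρ → Y →ₗ[ℝ] ℝ) (φ : Y →ₗ[ℝ] (ι → ℝ)) (π : Y →ₗ[ℝ] (Fin n → ℝ)) (C : ℝ),
    Fintype.card ρ ≤ 2 * m ∧ W ≤ Submodule.span ℝ (Set.range g) ∧ 0 ≤ C ∧
    (∀ y, (∀ i, 0 ≤ a i y) → 0 ≤ φ y → ‖y‖ ≤ C * ∑ i, φ y i) ∧
    (∀ y, (∀ i, 0 ≤ a i y) → 0 ≤ φ y → ∀ w, w ⬝ᵥ π y ≤ ∑ i, φ y i * g i w) ∧
    (∀ f : ι → ℝ, 0 ≤ f → ∀ w, ∃ y, (∀ i, 0 ≤ a i y) ∧ φ y = f ∧ w ⬝ᵥ π y = ∑ i, f i * g i w)

theorem Good.mono {n m m' : ℕ} {W : Submodule ℝ ((Fin n → ℝ) → ℝ)} (h : Good n m W)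
    (hm : m ≤ m') : Good n m' W := by
  obtain ⟨ι, _, Y, _, _, _, ρ, _, g, a, φ, π, C, h1, h2⟩ := h
  exact ⟨ι, _, Y, _, _, ‹_›, ρ, _, g, a, φ, π, C, by omega, h2⟩

theorem good_base (n : ℕ) : ∃ W, Good n 0 W ∧ ∀ i, (fun w => w i) ∈ W := by
  let g : Fin n ⊕ Fin n → (Fin n → ℝ) → ℝ := Sum.elim (fun i w => w i) (fun i w => -w i)
  let π : (Fin n ⊕ Fin n → ℝ) →ₗ[ℝ] (Fin n → ℝ) :=
    LinearMap.pi fun i => (LinearMap.proj (R := ℝ) (φ := fun _ : Fin n ⊕ Fin n => ℝ) (Sum.inl i)) -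
      (LinearMap.proj (R := ℝ) (φ := fun _ : Fin n ⊕ Fin n => ℝ) (Sum.inr i))
  have hπ : ∀ y w, w ⬝ᵥ π y = ∑ i, y i * g i w := by
    intro y w
    simp only [dotProduct, π, g, Fintype.sum_sum_type, LinearMap.pi_apply, LinearMap.sub_apply,
      LinearMap.proj_apply, Sum.elim_inl, Sum.elim_inr, ← Finset.sum_add_distrib]
    exact Finset.sum_congr rfl fun i _ => by ring
  refine ⟨Submodule.span ℝ (Set.range g), ⟨Fin n ⊕ Fin n, inferInstance, Fin n ⊕ Fin n → ℝ,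
    inferInstance, inferInstance, inferInstance, Empty, inferInstance, g, fun i => i.elim,
    LinearMap.id, π, 1, by simp, le_rfl, zero_le_one, ?_, ?_, ?_⟩, ?_⟩
  · intro y _ hy
    have hy' : ∀ i, 0 ≤ y i := hy
    simp only [LinearMap.id_apply]
    rw [one_mul, pi_norm_le_iff_of_nonneg (Finset.sum_nonneg fun i _ => hy' i)]
    intro i
    rw [Real.norm_of_nonneg (hy' i)]
    exact Finset.single_le_sum (f := y) (fun j _ => hy' j) (Finset.mem_univ i)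
  · intro y _ _ w
    exact (hπ y w).le
  · intro f _ w
    exact ⟨f, fun i => i.elim, rfl, hπ f w⟩
  · intro i
    exact Submodule.subset_span ⟨Sum.inl i, rfl⟩

theorem exists_pos_neg {ι X : Type} [Fintype ι] (g : ι → X → ℝ) (h : X → ℝ)
    (hh : h ∈ Submodule.span ℝ (Set.range g)) :
    ∃ α β : ι → ℝ, 0 ≤ α ∧ 0 ≤ β ∧ ∀ w, h w = ∑ i, α i * g i w - ∑ i, β i * g i w := by
  obtain ⟨c, rfl⟩ := (Submodule.mem_span_range_iff_exists_fun ℝ).1 hh
  refine ⟨fun i => max (c i) 0, fun i => max (-c i) 0, fun i => le_max_right _ _,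
    fun i => le_max_right _ _, fun w => ?_⟩
  rw [← Finset.sum_sub_distrib, Finset.sum_apply]
  refine Finset.sum_congr rfl fun i _ => ?_
  rw [← sub_mul, max_zero_sub_max_neg_zero_eq_self]
  simp

theorem Good.relu {n m : ℕ} {W : Submodule ℝ ((Fin n → ℝ) → ℝ)} (hW : Good n m W)
    {J : Type} [Fintype J] (h : J → (Fin n → ℝ) → ℝ) (hh : ∀ j, h j ∈ W) :
    ∃ W', W ≤ W' ∧ Good n (m + Fintype.card J) W' ∧ ∀ j, (fun w => max (h j w) 0) ∈ W' := by
  obtain ⟨ι, _, Y, _, _, _, ρ, _, g, a, φ, π, C, hρ, hWg, hC, hbd, hS, hA⟩ := hW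
  choose α β hα hβ hαβ using fun j => exists_pos_neg g (h j) (hWg (hh j))
  let g' : ι ⊕ J → (Fin n → ℝ) → ℝ :=
    Sum.elim g fun j w => max (∑ i, α j i * g i w) (∑ i, β j i * g i w)
  let μ : J → (Y × (J → ℝ) × (J → ℝ)) →ₗ[ℝ] ℝ := fun j =>
    (LinearMap.proj j).comp ((LinearMap.fst ℝ _ _).comp (LinearMap.snd ℝ _ _))
  let ν : J → (Y × (J → ℝ) × (J → ℝ)) →ₗ[ℝ] ℝ := fun j =>
    (LinearMap.proj j).comp ((LinearMap.snd ℝ _ _).comp (LinearMap.snd ℝ _ _))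
  let a' : ρ ⊕ J ⊕ J → (Y × (J → ℝ) × (J → ℝ)) →ₗ[ℝ] ℝ :=
    Sum.elim (fun i => (a i).comp (LinearMap.fst ℝ _ _)) (Sum.elim μ ν)
  let φ' : (Y × (J → ℝ) × (J → ℝ)) →ₗ[ℝ] (ι ⊕ J → ℝ) := LinearMap.pi (Sum.elim
    (fun i => (LinearMap.proj i).comp (φ.comp (LinearMap.fst ℝ _ _)) -
      ∑ j, (α j i • μ j + β j i • ν j)) fun j => μ j + ν j)
  have hφl : ∀ y i, φ' y (Sum.inl i) =
      φ y.1 i - ∑ j, (α j i * y.2.1 j + β j i * y.2.2 j) := by
    intro y i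
    simp [φ', μ, ν, LinearMap.sum_apply]
  have hφr : ∀ y j, φ' y (Sum.inr j) = y.2.1 j + y.2.2 j := by
    intro y j
    simp [φ', μ, ν]
  have hfeas : ∀ y, (∀ i, 0 ≤ a' i y) ↔
      (∀ i, 0 ≤ a i y.1) ∧ (∀ j, 0 ≤ y.2.1 j) ∧ ∀ j, 0 ≤ y.2.2 j := by
    intro y
    simp [a', μ, ν, Sum.forall]
  have hφ0 : ∀ y, (∀ i, 0 ≤ a' i y) → 0 ≤ φ' y → 0 ≤ φ y.1 := by
    intro y hy h0 i
    obtain ⟨_, h2, h3⟩ := (hfeas y).1 hy
    have h4 := h0 (Sum.inl i)
    rw [hφl] at h4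
    have h5 : 0 ≤ ∑ j, (α j i * y.2.1 j + β j i * y.2.2 j) :=
      Finset.sum_nonneg fun j _ =>
        add_nonneg (mul_nonneg (hα j i) (h2 j)) (mul_nonneg (hβ j i) (h3 j))
    simp only [Pi.zero_apply] at h4 ⊢
    linarith
  have hsum : ∀ (y : Y × (J → ℝ) × (J → ℝ)) (v : ι → ℝ), ∑ i, φ y.1 i * v i =
      ∑ i, φ' y (Sum.inl i) * v i +
        ∑ j, (y.2.1 j * ∑ i, α j i * v i + y.2.2 j * ∑ i, β j i * v i) := by
    intro y v
    simp only [hφl, sub_mul, Finset.sum_sub_distrib, Finset.sum_mul, Finset.mul_sum,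
      ← Finset.sum_add_distrib]
    rw [Finset.sum_comm (s := Finset.univ) (t := Finset.univ)
      (f := fun i j => (α j i * y.2.1 j + β j i * y.2.2 j) * v i)]
    have : ∀ j, ∑ i, (α j i * y.2.1 j + β j i * y.2.2 j) * v i =
        ∑ i, (y.2.1 j * (α j i * v i) + y.2.2 j * (β j i * v i)) := fun j =>
      Finset.sum_congr rfl fun i _ => by ring
    simp only [this]
    ring
  set D : ℝ := 1 + ∑ j, (∑ i, α j i + ∑ i, β j i) with hD
  have hD0 : ∀ j, 0 ≤ ∑ i, α j i ∧ 0 ≤ ∑ i, β j i := fun j =>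
    ⟨Finset.sum_nonneg fun i _ => hα j i, Finset.sum_nonneg fun i _ => hβ j i⟩
  have hD1 : 1 ≤ D := by
    have : 0 ≤ ∑ j, (∑ i, α j i + ∑ i, β j i) :=
      Finset.sum_nonneg fun j _ => add_nonneg (hD0 j).1 (hD0 j).2
    linarith
  refine ⟨Submodule.span ℝ (Set.range g'), hWg.trans (Submodule.span_mono ?_),
    ⟨ι ⊕ J, inferInstance, Y × (J → ℝ) × (J → ℝ), inferInstance, inferInstance, inferInstance,
      ρ ⊕ J ⊕ J, inferInstance, g', a', φ', π.comp (LinearMap.fst ℝ _ _), C * D + 1, ?_, le_rfl,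
      by positivity, ?_, ?_, ?_⟩, ?_⟩
  · rintro _ ⟨i, rfl⟩
    exact ⟨Sum.inl i, rfl⟩
  · simp only [Fintype.card_sum]
    omega
  · intro y hy h0
    obtain ⟨h1, h2, h3⟩ := (hfeas y).1 hy
    set S : ℝ := ∑ i, φ' y i with hS'
    have h0' : ∀ i, 0 ≤ φ' y i := h0
    have hS0 : 0 ≤ S := Finset.sum_nonneg fun i _ => h0' i
    have hj : ∀ j, y.2.1 j + y.2.2 j ≤ S := fun j => by
      rw [← hφr]
      exact Finset.single_le_sum (f := fun i => φ' y i) (fun i _ => h0' i) (Finset.mem_univ _)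
    have hl : ∑ i, φ' y (Sum.inl i) ≤ S := by
      rw [hS', Fintype.sum_sum_type]
      have : 0 ≤ ∑ j, φ' y (Sum.inr j) := Finset.sum_nonneg fun j _ => h0' _
      linarith
    have h4 : ∑ i, φ y.1 i ≤ D * S := by
      have h5 := hsum y (fun _ => 1)
      simp only [mul_one] at h5
      rw [h5, hD, add_mul, one_mul, Finset.sum_mul]
      refine add_le_add hl (Finset.sum_le_sum fun j _ => ?_)
      have := hj j
      have := h2 j
      have := h3 j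
      nlinarith [(hD0 j).1, (hD0 j).2]
    have h6 : ‖y.1‖ ≤ C * D * S := by
      rw [mul_assoc]
      exact (hbd y.1 h1 (hφ0 y hy h0)).trans (mul_le_mul_of_nonneg_left h4 hC)
    have hCD : 0 ≤ C * D * S := by positivity
    rw [Prod.norm_def, Prod.norm_def, max_le_iff, max_le_iff,
      pi_norm_le_iff_of_nonneg (by positivity), pi_norm_le_iff_of_nonneg (by positivity)]
    refine ⟨by nlinarith, fun j => ?_, fun j => ?_⟩
    · rw [Real.norm_of_nonneg (h2 j)]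
      nlinarith [hj j, h3 j]
    · rw [Real.norm_of_nonneg (h3 j)]
      nlinarith [hj j, h2 j]
  · intro y hy h0 w
    obtain ⟨h1, h2, h3⟩ := (hfeas y).1 hy
    refine (hS y.1 h1 (hφ0 y hy h0) w).trans ?_
    rw [hsum y (fun i => g i w), Fintype.sum_sum_type]
    refine add_le_add le_rfl (Finset.sum_le_sum fun j _ => ?_)
    simp only [hφr, g', Sum.elim_inr, add_mul]
    exact add_le_add (mul_le_mul_of_nonneg_left (le_max_left _ _) (h2 j))
      (mul_le_mul_of_nonneg_left (le_max_right _ _) (h3 j))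
  · intro f hf w
    have hf' : ∀ i, 0 ≤ f i := hf
    let p : J → ℝ := fun j =>
      if ∑ i, β j i * g i w ≤ ∑ i, α j i * g i w then f (Sum.inr j) else 0
    let q : J → ℝ := fun j =>
      if ∑ i, β j i * g i w ≤ ∑ i, α j i * g i w then 0 else f (Sum.inr j)
    have hp : ∀ j, 0 ≤ p j := fun j => by simp only [p]; split_ifs <;> simp [hf']
    have hq : ∀ j, 0 ≤ q j := fun j => by simp only [q]; split_ifs <;> simp [hf']
    obtain ⟨y, hy1, hy2, hy3⟩ := hA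
      (fun i => f (Sum.inl i) + ∑ j, (α j i * p j + β j i * q j)) (fun i =>
        add_nonneg (hf' _) (Finset.sum_nonneg fun j _ =>
          add_nonneg (mul_nonneg (hα j i) (hp j)) (mul_nonneg (hβ j i) (hq j)))) w
    have hφf : φ' (y, p, q) = f := by
      ext i
      rcases i with i | j
      · rw [hφl, hy2]; simp
      · rw [hφr]; simp only [p, q]; split_ifs <;> simp
    refine ⟨(y, p, q), (hfeas _).2 ⟨hy1, hp, hq⟩, hφf, ?_⟩
    have h5 := hsum (y, p, q) (fun i => g i w)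
    rw [hφf] at h5
    simp only [LinearMap.comp_apply, LinearMap.fst_apply]
    simp only [hy2] at h5
    rw [hy3, h5, Fintype.sum_sum_type]
    congr 1
    refine Finset.sum_congr rfl fun j _ => ?_
    simp only [p, q, g', Sum.elim_inr]
    split_ifs with hc
    · rw [max_eq_left hc]; simp
    · rw [max_eq_right (le_of_lt (not_le.1 hc))]; simp
  · intro j
    have e : (fun w => max (h j w) 0) = g' (Sum.inr j) - ∑ i, β j i • g' (Sum.inl i) := by
      ext w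
      simp only [g', Sum.elim_inr, Sum.elim_inl, Pi.sub_apply, Finset.sum_apply, Pi.smul_apply,
        smul_eq_mul, hαβ]
      rw [← max_sub_sub_right, sub_self]
    rw [e]
    refine Submodule.sub_mem _ (Submodule.subset_span ⟨_, rfl⟩) ?_
    exact Submodule.sum_mem _ fun i _ =>
      Submodule.smul_mem _ _ (Submodule.subset_span ⟨_, rfl⟩)

theorem Good.hasVEF {n m : ℕ} {W : Submodule ℝ ((Fin n → ℝ) → ℝ)} (hW : Good n m W)
    {h : (Fin n → ℝ) → ℝ} (hh : h ∈ W) {P : Set (Fin n → ℝ)} (hP : IsSupp P h)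
    (hPc : Convex ℝ P) (hPk : IsCompact P) : HasVEF P (4 * m) := by
  obtain ⟨ι, _, Y, _, _, _, ρ, _, g, a, φ, π, C, hρ, hWg, hC, hbd, hS, hA⟩ := hW
  obtain ⟨α, β, hα, hβ, hαβ⟩ := exists_pos_neg g h (hWg hh)
  let Fib : (ι → ℝ) → Set (Fin n → ℝ) := fun f => π '' {y | (∀ i, 0 ≤ a i y) ∧ φ y = f}
  have hEF : ∀ f, HasEF (Fib f) (Fintype.card ρ) := by
    intro f
    have := hasEF_of_linear (fun i => -a i) (fun _ => 0) φ f π 0
    simpa [Fib] using this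
  have hsupp : ∀ f, 0 ≤ f → IsSupp (Fib f) fun w => ∑ i, f i * g i w := by
    intro f hf w
    constructor
    · rintro _ ⟨y, ⟨h1, h2⟩, rfl⟩
      have := hS y h1 (h2 ▸ hf) w
      rwa [h2] at this
    · obtain ⟨y, h1, h2, h3⟩ := hA f hf w
      exact ⟨π y, ⟨y, ⟨h1, h2⟩, rfl⟩, h3⟩
  have hconv : ∀ f, Convex ℝ (Fib f) := by
    intro f
    refine Convex.linear_image ?_ π
    intro y hy z hz s t hs ht hst
    refine ⟨fun i => ?_, ?_⟩
    · simp only [map_add, map_smul, smul_eq_mul]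
      exact add_nonneg (mul_nonneg hs (hy.1 i)) (mul_nonneg ht (hz.1 i))
    · rw [map_add, map_smul, map_smul, hy.2, hz.2, ← add_smul, hst, one_smul]
  have hcomp : ∀ f, 0 ≤ f → IsCompact (Fib f) := by
    intro f hf
    refine IsCompact.image ?_ π.continuous_of_finiteDimensional
    have : ProperSpace Y := FiniteDimensional.proper_real Y
    refine Metric.isCompact_of_isClosed_isBounded ?_ ?_
    · have e : {y | (∀ i, 0 ≤ a i y) ∧ φ y = f} = (⋂ i, {y | 0 ≤ a i y}) ∩ {y | φ y = f} := by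
        ext y
        simp
      rw [e]
      refine IsClosed.inter ?_ (isClosed_eq φ.continuous_of_finiteDimensional continuous_const)
      exact isClosed_iInter fun i =>
        isClosed_le continuous_const (a i).continuous_of_finiteDimensional
    · refine (isBounded_iff_forall_norm_le).2 ⟨C * ∑ i, f i, ?_⟩
      rintro y ⟨h1, h2⟩
      have := hbd y h1 (h2 ▸ hf)
      rwa [h2] at this
  have hne : ∀ f, 0 ≤ f → (Fib f).Nonempty := by
    intro f hf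
    obtain ⟨x, hx, _⟩ := (hsupp f hf 0).2
    exact ⟨x, hx⟩
  have hsum : IsSupp (P + Fib β) fun w => ∑ i, α i * g i w := by
    intro w
    constructor
    · rintro _ ⟨x, hx, z, hz, rfl⟩
      have h1 := (hP w).1 x hx
      have h2 := (hsupp β hβ w).1 z hz
      simp only [dotProduct_add]
      linarith [hαβ w]
    · obtain ⟨x, hx, h1⟩ := (hP w).2
      obtain ⟨z, hz, h2⟩ := (hsupp β hβ w).2
      refine ⟨x + z, Set.add_mem_add hx hz, ?_⟩
      simp only [dotProduct_add]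
      linarith [hαβ w]
  refine ⟨Fib β, Fib α, Fintype.card ρ, Fintype.card ρ, hne β hβ, hne α hα,
    (hcomp β hβ).isBounded, (hcomp α hα).isBounded, ?_, hEF β, hEF α, by omega⟩
  refine Set.Subset.antisymm ?_ ?_
  · exact subset_of_isSupp hsum (hsupp α hα) (hconv α) (hcomp α hα).isClosed
  · exact subset_of_isSupp (hsupp α hα) hsum (hPc.add (hconv β)) (hPk.add (hcomp β hβ)).isClosed

end Pool.Agent.Lib.MP_8a52c3_lc.XC
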