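import Mathlib

/-!
Definitions for the extension complexity results: extended formulations, matroid polytopes of a
family of vectors, and the monomial vector families.
-/

namespace Pool.Agent.Lib.MP_8a52c3_lc.XC

open Matrix

/-- `HasEF P r`: the set `P ⊆ ℝ^E` has an extended formulation of size `r`, that is, `P` is the image
under an affine map `y ↦ T y + u` of a polyhedron `{y ∈ ℝ^d | A y ≤ b, C y = c}` with `r`
inequalities (and any number of variables and equations). -/
def HasEF {E : Type} (P : Set (E → ℝ)) (r : ℕ) : Prop :=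
  ∃ (d m : ℕ) (A : Matrix (Fin r) (Fin d) ℝ) (b : Fin r → ℝ) (C : Matrix (Fin m) (Fin d) ℝ)
    (c : Fin m → ℝ) (T : Matrix E (Fin d) ℝ) (u : E → ℝ),
    P = (fun y => T *ᵥ y + u) '' {y | A *ᵥ y ≤ b ∧ C *ᵥ y = c}

/-- Independence polytope of the `K`-linear matroid of the vectors `v z`, `z ∈ E`: the convex hull of
the indicator vectors of the sets `I ⊆ E` on which `v` is linearly independent over `K`. -/
def indepPolytope (K : Type) [Field K] {E V : Type} [AddCommGroup V] [Module K V] (v : E → V) :
    Set (E → ℝ) :=
  convexHull ℝ {x | ∃ I : Set E, LinearIndepOn K v I ∧ x = I.indicator 1}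

/-- Base polytope of the `K`-linear matroid of the vectors `v z`, `z ∈ E`: the convex hull of the
indicator vectors of the bases (inclusion-maximal sets on which `v` is independent over `K`). -/
def basePolytope (K : Type) [Field K] {E V : Type} [AddCommGroup V] [Module K V] (v : E → V) :
    Set (E → ℝ) :=
  convexHull ℝ {x | ∃ B : Set E, Maximal (LinearIndepOn K v) B ∧ x = B.indicator 1}

/-- The vector attached to `(x, y, l) ∈ F × F × Fin e` is `(w l * x ^ i * y ^ j)` with `i < t ^ 2`,
`j < t`. -/
def monoVec {F : Type} [Field F] {e : ℕ} (w : Fin e → F) (t : ℕ) (z : F × F × Fin e) :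
    Fin (t ^ 2) × Fin t → F :=
  fun ij => w z.2.2 * z.1 ^ (ij.1 : ℕ) * z.2.1 ^ (ij.2 : ℕ)

end Pool.Agent.Lib.MP_8a52c3_lc.XC
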