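import Pool.Agent.Lib.MP_8a52c3_lc.XCDefs

/-!
Farkas' lemma and the slack factorisation of an extended formulation.
-/

namespace Pool.Agent.Lib.MP_8a52c3_lc.XC

open Matrix Finset

theorem farkas {V : Type} [AddCommGroup V] [Module ℝ V] (n : ℕ) :
    ∀ (a : Fin n → V →ₗ[ℝ] ℝ) (b : V →ₗ[ℝ] ℝ), (∀ y, (∀ i, 0 ≤ a i y) → 0 ≤ b y) →
      ∃ μ : Fin n → ℝ, (∀ i, 0 ≤ μ i) ∧ ∀ y, b y = ∑ i, μ i * a i y := by
  induction n with
  | zero =>
    intro a b h
    refine ⟨fun _ => 0, fun i => le_rfl, fun y => ?_⟩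
    have h1 := h y (fun i => i.elim0)
    have h2 := h (-y) (fun i => i.elim0)
    rw [map_neg] at h2
    simp only [Finset.univ_eq_empty, Finset.sum_empty]
    linarith
  | succ n ih =>
    intro a b h
    by_cases h0 : ∀ y, (∀ i : Fin n, 0 ≤ a i.succ y) → 0 ≤ b y
    · obtain ⟨μ, hμ, hb⟩ := ih (fun i => a i.succ) b h0
      refine ⟨Fin.cons 0 μ, ?_, fun y => ?_⟩
      · intro i
        refine Fin.cases ?_ (fun j => ?_) i
        · simp
        · simpa using hμ j
      · rw [Fin.sum_univ_succ]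
        simp [hb y]
    · push Not at h0
      obtain ⟨y0, hy0, hb0⟩ := h0
      have ha0 : a 0 y0 < 0 := by
        by_contra hcon
        push Not at hcon
        have : 0 ≤ b y0 := h y0 (fun i => Fin.cases hcon hy0 i)
        linarith
      set y1 : V := (-(a 0 y0)⁻¹) • y0 with hy1
      have hpos : 0 < -(a 0 y0)⁻¹ := by
        have : (a 0 y0)⁻¹ < 0 := inv_lt_zero.mpr ha0
        linarith
      have h1 : a 0 y1 = -1 := by
        rw [hy1, map_smul, smul_eq_mul, neg_mul, inv_mul_cancel₀ ha0.ne]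
      have h2 : ∀ i : Fin n, 0 ≤ a i.succ y1 := by
        intro i
        rw [hy1, map_smul, smul_eq_mul]
        exact mul_nonneg hpos.le (hy0 i)
      have h3 : b y1 < 0 := by
        rw [hy1, map_smul, smul_eq_mul]
        exact mul_neg_of_pos_of_neg hpos hb0
      let T : V →ₗ[ℝ] V := LinearMap.id + (a 0).smulRight y1
      have hT : ∀ y, T y = y + a 0 y • y1 := fun y => by simp [T]
      obtain ⟨μ, hμ, hb⟩ := ih (fun i => (a i.succ).comp T) (b.comp T) (by
        intro y hy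
        apply h (T y)
        intro i
        refine Fin.cases ?_ (fun j => hy j) i
        rw [hT, map_add, map_smul, h1]
        simp)
      refine ⟨Fin.cons (∑ i, μ i * a i.succ y1 - b y1) μ, ?_, fun y => ?_⟩
      · intro i
        refine Fin.cases ?_ (fun j => ?_) i
        · simp only [Fin.cons_zero]
          have : 0 ≤ ∑ i, μ i * a i.succ y1 :=
            Finset.sum_nonneg fun i _ => mul_nonneg (hμ i) (h2 i)
          linarith
        · simpa using hμ j
      · rw [Fin.sum_univ_succ]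
        have := hb y
        simp only [LinearMap.comp_apply, hT, map_add, map_smul, smul_eq_mul] at this
        simp only [Fin.cons_zero, Fin.cons_succ]
        have e : ∑ i, μ i * (a i.succ y + a 0 y * a i.succ y1) =
            ∑ i, μ i * a i.succ y + (∑ i, μ i * a i.succ y1) * a 0 y := by
          rw [Finset.sum_mul, ← Finset.sum_add_distrib]
          exact Finset.sum_congr rfl fun i _ => by ring
        rw [e] at this
        linarith

/-- Affine Farkas lemma for a system with inequalities and equations. -/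
theorem affine_farkas {d m r : ℕ} (A : Matrix (Fin r) (Fin d) ℝ) (b : Fin r → ℝ)
    (C : Matrix (Fin m) (Fin d) ℝ) (c : Fin m → ℝ) (g : (Fin d → ℝ) →ₗ[ℝ] ℝ) (γ : ℝ)
    (y0 : Fin d → ℝ) (hy0 : A *ᵥ y0 ≤ b ∧ C *ᵥ y0 = c)
    (hval : ∀ y, A *ᵥ y ≤ b ∧ C *ᵥ y = c → g y ≤ γ) :
    ∃ μ : Fin (r + 1) → ℝ, (∀ i, 0 ≤ μ i) ∧ ∀ y, C *ᵥ y = c →
      γ - g y = μ 0 + ∑ i : Fin r, μ i.succ * (b i - (A *ᵥ y) i) := by
  let W : Submodule ℝ ((Fin d → ℝ) × ℝ) :=
    LinearMap.ker (C.mulVecLin.comp (LinearMap.fst ℝ _ _) -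
      (LinearMap.snd ℝ (Fin d → ℝ) ℝ).smulRight c)
  have hW : ∀ p : (Fin d → ℝ) × ℝ, p ∈ W ↔ C *ᵥ p.1 = p.2 • c := by
    intro p
    simp [W, sub_eq_zero]
  let τ : W →ₗ[ℝ] ℝ := (LinearMap.snd ℝ (Fin d → ℝ) ℝ).comp W.subtype
  let Y : W →ₗ[ℝ] (Fin d → ℝ) := (LinearMap.fst ℝ (Fin d → ℝ) ℝ).comp W.subtype
  let a : Fin (r + 1) → W →ₗ[ℝ] ℝ :=
    Fin.cons τ (fun i => b i • τ - (LinearMap.proj i).comp (A.mulVecLin.comp Y))
  have ha0 : ∀ p : W, a 0 p = p.1.2 := fun p => by simp [a, τ]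
  have has : ∀ (i : Fin r) (p : W), a i.succ p = b i * p.1.2 - (A *ᵥ p.1.1) i := fun i p => by
    simp [a, τ, Y]
  let β : W →ₗ[ℝ] ℝ := γ • τ - g.comp Y
  have hβ : ∀ p : W, β p = γ * p.1.2 - g p.1.1 := fun p => by simp [β, τ, Y]
  obtain ⟨μ, hμ, hb⟩ := farkas (r + 1) a β (by
    intro p hp
    have h0 : 0 ≤ p.1.2 := by simpa [ha0] using hp 0
    have h1 : ∀ i, (A *ᵥ p.1.1) i ≤ b i * p.1.2 := fun i => by
      have := hp i.succ
      rw [has] at this
      linarith
    have h2 : C *ᵥ p.1.1 = p.1.2 • c := (hW p.1).1 p.2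
    rw [hβ]
    rcases h0.lt_or_eq with hpos | hzero
    · have := hval ((p.1.2)⁻¹ • p.1.1) ⟨by
        intro i
        rw [Matrix.mulVec_smul, Pi.smul_apply, smul_eq_mul, inv_mul_le_iff₀ hpos]
        linarith [h1 i], by
        rw [Matrix.mulVec_smul, h2, smul_smul, inv_mul_cancel₀ hpos.ne', one_smul]⟩
      rw [map_smul, smul_eq_mul, inv_mul_le_iff₀ hpos] at this
      linarith
    · rw [← hzero] at h1 h2 ⊢
      by_contra hcon
      have hg : 0 < g p.1.1 := by linarith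
      have := hval (y0 + ((γ - g y0 + 1) / g p.1.1) • p.1.1) ⟨by
        intro i
        have hM : 0 ≤ (γ - g y0 + 1) / g p.1.1 := by
          have := hval y0 hy0
          apply div_nonneg _ hg.le
          linarith
        rw [Matrix.mulVec_add, Matrix.mulVec_smul, Pi.add_apply, Pi.smul_apply, smul_eq_mul]
        have h3 := h1 i
        have h4 := hy0.1 i
        have : (γ - g y0 + 1) / g p.1.1 * (A *ᵥ p.1.1) i ≤ 0 :=
          mul_nonpos_of_nonneg_of_nonpos hM (by linarith)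
        linarith, by
        rw [Matrix.mulVec_add, Matrix.mulVec_smul, h2, hy0.2]
        simp⟩
      rw [map_add, map_smul, smul_eq_mul, div_mul_cancel₀ _ hg.ne'] at this
      linarith)
  refine ⟨μ, hμ, fun y hy => ?_⟩
  have := hb ⟨(y, 1), (hW _).2 (by simpa using hy)⟩
  rw [hβ, Fin.sum_univ_succ, ha0] at this
  simp only [has] at this
  simpa using this

/-- An extended formulation of size `r` gives a nonnegative factorisation with `r + 1` terms of the
slacks of any family of valid inequalities at any family of points. -/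
theorem slack_factor {E : Type} [Fintype E] {P : Set (E → ℝ)} {r : ℕ} (h : HasEF P r)
    {I J : Type} [Nonempty J] (a : I → E → ℝ) (γ : ℝ) (x : J → E → ℝ) (hx : ∀ j, x j ∈ P)
    (hval : ∀ i, ∀ z ∈ P, ∑ e, a i e * z e ≤ γ) :
    ∃ (U : Fin (r + 1) → I → ℝ) (V : Fin (r + 1) → J → ℝ), (∀ k i, 0 ≤ U k i) ∧
      (∀ k j, 0 ≤ V k j) ∧ ∀ i j, γ - ∑ e, a i e * x j e = ∑ k, U k i * V k j := by
  obtain ⟨d, m, A, b, C, c, T, u, rfl⟩ := h
  choose y hy hxy using hx
  obtain ⟨j0⟩ := ‹Nonempty J›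
  have key : ∀ i, ∃ μ : Fin (r + 1) → ℝ, (∀ k, 0 ≤ μ k) ∧ ∀ j,
      γ - ∑ e, a i e * x j e = μ 0 + ∑ k : Fin r, μ k.succ * (b k - (A *ᵥ y j) k) := by
    intro i
    let g : (Fin d → ℝ) →ₗ[ℝ] ℝ :=
      ∑ e, a i e • (LinearMap.proj e).comp T.mulVecLin
    have hg : ∀ z, g z = ∑ e, a i e * (T *ᵥ z) e := fun z => by
      simp [g, LinearMap.sum_apply]
    have hsplit : ∀ z, ∑ e, a i e * (T *ᵥ z + u) e = g z + ∑ e, a i e * u e := fun z => by
      rw [hg, ← Finset.sum_add_distrib]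
      exact Finset.sum_congr rfl fun e _ => by simp [mul_add]
    obtain ⟨μ, hμ, hb⟩ := affine_farkas A b C c g (γ - ∑ e, a i e * u e) (y j0) (hy j0) (by
      intro z hz
      have := hval i _ ⟨z, hz, rfl⟩
      rw [hsplit] at this
      linarith)
    refine ⟨μ, hμ, fun j => ?_⟩
    have h1 := hb (y j) (hy j).2
    have h2 : x j = T *ᵥ y j + u := (hxy j).symm
    rw [h2, hsplit]
    linarith
  choose μ hμ hb using key
  refine ⟨fun k i => μ i k, fun k j => Fin.cons (α := fun _ => ℝ) 1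
    (fun k' => b k' - (A *ᵥ y j) k') k, fun k i => hμ i k, ?_, ?_⟩
  · intro k j
    refine Fin.cases ?_ (fun k' => ?_) k
    · simp
    · simpa using (hy j).1 k'
  · intro i j
    rw [hb i j, Fin.sum_univ_succ]
    simp

end Pool.Agent.Lib.MP_8a52c3_lc.XC
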